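import Pool.Agent.KSlab.WDw

/-! SW17: the asymptotics of the words of marked elements. -/

set_option autoImplicit false

open Complex Set Filter Topology
open scoped ENNReal

namespace Pool.Agent.KSlab

namespace Slb

variable {I : Type} [Fintype I] {κ : Slb I} {par : XX I → ℕ}

private theorem summable_c {d : ℕ → ℝ} {s : ℂ}
    (h : Summable fun n : ℕ => |d n| * Real.exp (-n * s.re)) :
    Summable fun n : ℕ => (d n : ℂ) * exp (-n * s) := by
  refine Summable.of_norm ?_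
  refine h.congr fun n => ?_
  rw [norm_mul, Complex.norm_real, Real.norm_eq_abs, Complex.norm_exp]
  congr 2
  rw [Complex.mul_re]
  simp

private theorem pow_lim (m : ℕ) {M : ℝ} {d : ℕ → ℝ}
    (h : ∀ n : ℕ, 1 ≤ n → |d n| ≤ M * (n : ℝ) ^ (-1 - (3 / 4 - (m : ℝ)))) :
    Tendsto (fun j : ℕ => d (2 * j) * ((2 * j : ℕ) : ℝ) ^ (3 / 2 - m : ℝ)) atTop (𝓝 0) := by
  have h1 : Tendsto (fun j : ℕ => M * ((2 * j : ℕ) : ℝ) ^ (-(1 / 4) : ℝ)) atTop (𝓝 0) := by
    have h2 : Tendsto (fun x : ℝ => x ^ (-(1 / 4) : ℝ)) atTop (𝓝 0) :=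
      tendsto_rpow_neg_atTop (by norm_num)
    have h3 : Tendsto (fun j : ℕ => ((2 * j : ℕ) : ℝ)) atTop atTop := by
      refine tendsto_natCast_atTop_atTop.comp ?_
      exact tendsto_id.const_mul_atTop' (by norm_num)
    have h4 := (h2.comp h3).const_mul M
    rw [mul_zero] at h4
    exact h4
  refine squeeze_zero_norm' ?_ h1
  filter_upwards [eventually_ge_atTop 1] with j hj
  have hj2 : 1 ≤ 2 * j := by omega
  have hpos : (0 : ℝ) < ((2 * j : ℕ) : ℝ) := by exact_mod_cast hj2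
  rw [norm_mul, Real.norm_eq_abs, Real.norm_eq_abs, abs_of_nonneg (Real.rpow_nonneg hpos.le _)]
  calc |d (2 * j)| * ((2 * j : ℕ) : ℝ) ^ (3 / 2 - m : ℝ)
      ≤ M * ((2 * j : ℕ) : ℝ) ^ (-1 - (3 / 4 - (m : ℝ))) * ((2 * j : ℕ) : ℝ) ^ (3 / 2 - m : ℝ) :=
        mul_le_mul_of_nonneg_right (h _ hj2) (Real.rpow_nonneg hpos.le _)
    _ = M * ((2 * j : ℕ) : ℝ) ^ (-(1 / 4) : ℝ) := by
        rw [mul_assoc, ← Real.rpow_add hpos]
        congr 2
        ring

/-- For `w ≠ []` the difference of the coefficients of the word and of `∏ (la / NN)` times those of the word of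
`dk κ.k` is `O(n ^ (length - 7/4))` by `of_diff` and `par_bd` (with `p = 3/4 - length`; `fc_half`, `FW_diff`,
`fc_odd`); then `dw`. -/
theorem Ok.words (hκ : κ.Ok) (hk : KPar par κ.k) (hc : VPar par κ.c) : ∃ A : ℝ, 0 < A ∧
    ∀ w : List (KF I × GF I), (∀ p ∈ w, κ.Ad p.1 ∧ Nn p.1 ∧ KPar par p.1 ∧ κ.Tr p.1 p.2) →
      Tendsto (fun j : ℕ => (κ.FC κ.c (w.map Prod.fst) κ.c (2 * j)).toReal *
        ((2 * j : ℕ) : ℝ) ^ (3 / 2 - w.length : ℝ)) atTop
        (𝓝 (A / w.length.factorial * (w.map fun p => κ.la p.2 / κ.NN).prod)) := by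
  obtain ⟨A, hA, hdw⟩ := hκ.dw hk hc
  refine ⟨A, hA, fun w hw => ?_⟩
  by_cases h0 : w = []
  · subst h0
    have h1 := hdw 0
    simpa using h1
  obtain ⟨L, hL⟩ : ∃ L : ℝ, L = (w.map fun p => κ.la p.2 / κ.NN).prod := ⟨_, rfl⟩
  have hc1 : κ.Cp κ.c := hκ.cp_c.1
  have hw1 : ∀ k ∈ w.map Prod.fst, κ.Ad k ∧ Nn k := by
    intro k hk'
    obtain ⟨p, hp, rfl⟩ := List.mem_map.1 hk'
    exact ⟨(hw p hp).1, (hw p hp).2.1⟩
  have hw2 : ∀ k ∈ w.map Prod.fst, KPar par k := by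
    intro k hk'
    obtain ⟨p, hp, rfl⟩ := List.mem_map.1 hk'
    exact (hw p hp).2.2.1
  have hr1 : ∀ k ∈ List.replicate w.length (dk κ.k), κ.Ad k ∧ Nn k := by
    intro k hk'
    rw [List.eq_of_mem_replicate hk']
    exact ⟨hκ.ad_dk, hκ.nn_dk.2.1⟩
  have hr2 : ∀ k ∈ List.replicate w.length (dk κ.k), KPar par k := by
    intro k hk'
    rw [List.eq_of_mem_replicate hk']
    exact kpar_dk hk
  obtain ⟨x, hx⟩ : ∃ x : ℕ → ℝ, x = fun n => (κ.FC κ.c (w.map Prod.fst) κ.c n).toReal :=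
    ⟨_, rfl⟩
  obtain ⟨y, hy⟩ : ∃ y : ℕ → ℝ, y = fun n =>
    (κ.FC κ.c (List.replicate w.length (dk κ.k)) κ.c n).toReal := ⟨_, rfl⟩
  have hx0 : ∀ n, 0 ≤ x n := fun n => by rw [hx]; exact ENNReal.toReal_nonneg
  have hy0 : ∀ n, 0 ≤ y n := fun n => by rw [hy]; exact ENNReal.toReal_nonneg
  have hxs : ∀ σ : ℝ, 0 < σ → Summable fun n : ℕ => x n * Real.exp (-n * σ) := by
    intro σ hσ
    rw [hx]
    exact hκ.fc_summable hw1 hc1 hc1 hσ
  have hys : ∀ σ : ℝ, 0 < σ → Summable fun n : ℕ => y n * Real.exp (-n * σ) := by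
    intro σ hσ
    rw [hy]
    exact hκ.fc_summable hr1 hc1 hc1 hσ
  have hxc : ∀ s : ℂ, 0 < s.re → Summable fun n : ℕ => (x n : ℂ) * exp (-n * s) := by
    intro s hs
    refine summable_c ((hxs s.re hs).congr fun n => ?_)
    rw [abs_of_nonneg (hx0 n)]
  have hyc : ∀ s : ℂ, 0 < s.re → Summable fun n : ℕ => (y n : ℂ) * exp (-n * s) := by
    intro s hs
    refine summable_c ((hys s.re hs).congr fun n => ?_)
    rw [abs_of_nonneg (hy0 n)]
  have hbd := hκ.par_bd (d := fun n => x n - L * y n)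
    (f := fun s => κ.FW s κ.c (w.map Prod.fst) κ.c -
      (L : ℂ) * κ.FW s κ.c (List.replicate w.length (dk κ.k)) κ.c)
    (p := 3 / 4 - w.length) (by
      have : (0 : ℝ) ≤ w.length := Nat.cast_nonneg _
      linarith) ?_ ?_ ?_ ?_ ?_
  · obtain ⟨M, hM⟩ := hbd
    have h1 := pow_lim w.length hM
    have h2 := (hdw w.length).const_mul L
    have h3 := h1.add h2
    rw [zero_add] at h3
    rw [← hL, show A / (w.length.factorial : ℝ) * L = L * (A / w.length.factorial) from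
      mul_comm _ _]
    refine h3.congr fun j => ?_
    rw [hx, hy]
    ring
  · intro σ hσ
    refine Summable.of_nonneg_of_le (fun n => by positivity) (fun n => ?_)
      ((hxs σ hσ).add ((hys σ hσ).mul_left |L|))
    have h1 : |x n - L * y n| ≤ x n + |L| * y n := by
      calc |x n - L * y n| ≤ |x n| + |L * y n| := abs_sub _ _
        _ = x n + |L| * y n := by rw [abs_mul, abs_of_nonneg (hx0 n), abs_of_nonneg (hy0 n)]
    calc |x n - L * y n| * Real.exp (-n * σ) ≤ (x n + |L| * y n) * Real.exp (-n * σ) :=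
          mul_le_mul_of_nonneg_right h1 (Real.exp_nonneg _)
      _ = x n * Real.exp (-n * σ) + |L| * (y n * Real.exp (-n * σ)) := by ring
  · intro n hn
    have h1 := fc_odd (κ := κ) hk hw2 hc hc hn
    have h2 := fc_odd (κ := κ) hk hr2 hc hc hn
    simp only [hx, hy, h1, h2, ENNReal.toReal_zero, mul_zero, sub_zero]
  · intro s hs
    have h1 := hκ.fc_half hw1 hc1 hc1 hs
    have h2 := hκ.fc_half hr1 hc1 hc1 hs
    have h3 : ∀ n : ℕ, ((x n - L * y n : ℝ) : ℂ) * exp (-n * s) =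
        (x n : ℂ) * exp (-n * s) - (L : ℂ) * ((y n : ℂ) * exp (-n * s)) := by
      intro n
      push_cast
      ring
    simp only [h3]
    rw [(hxc s hs).tsum_sub ((hyc s hs).mul_left (L : ℂ)), tsum_mul_left, ← h1, ← h2, hx, hy]
  · exact (hκ.FW_diff (fun k hk' => (hw1 k hk').1) hc1 hc1).sub
      ((hκ.FW_diff (fun k hk' => (hr1 k hk').1) hc1 hc1).const_mul _)
  · rw [hL]
    exact hκ.of_diff w h0 fun p hp => ⟨(hw p hp).1, (hw p hp).2.2.2⟩

end Slb

end Pool.Agent.KSlab
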