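import Pool.Agent.KSlab.XDefs

/-! SX1: the hypotheses for the caps of another class. -/

set_option autoImplicit false

open Pool.Agent.LK
open scoped ENNReal

namespace Pool.Agent.KSlab

open Pool.Agent.KTube Pool.Agent.KRing Pool.Agent.KLog Pool.Agent.KCls
open Pool.Agent.KAsym (ln wtR wlR)

variable {T Tc : Finset (Sym2 P3) → Prop} {M : ℕ} {y z : ℝ} {h : II M → ℝ}

theorem slbC_ok (hC : CritS T y z h) (hc : Cls Tc) : (slbC Tc T M y z h).Ok where
  z_pos := (slb_ok hC).z_pos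
  z_le := (slb_ok hC).z_le
  q_le := (slb_ok hC).q_le
  q_ge := (slb_ok hC).q_ge
  f_nn := (slb_ok hC).f_nn
  f_low := (slb_ok hC).f_low
  f_even := (slb_ok hC).f_even
  f_symm := (slb_ok hC).f_symm
  f_x := (slb_ok hC).f_x
  conn := (slb_ok hC).conn
  f_sum := (slb_ok hC).f_sum
  k_nn := (slb_ok hC).k_nn
  k_symm := (slb_ok hC).k_symm
  k_refl := (slb_ok hC).k_refl
  k_low := (slb_ok hC).k_low
  k_dead := (slb_ok hC).k_dead
  k_sum := (slb_ok hC).k_sum
  k_le := (slb_ok hC).k_le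
  df_le := (slb_ok hC).df_le
  df_sum := (slb_ok hC).df_sum
  c_nn n x := c_nn (h := h) hC.y_pos hC.z_pos n x
  c_refl n x := c_refl (h := h) hc n x
  c_dead n x hx := c_dead (h := h) n x hx
  c_pos x hx := c_pos (h := h) hc hC.y_pos hC.z_pos hC.z_le hC.q_le x hx
  c_sum := c_sum (h := h) hC.y_pos hC.z_pos hC.z_le hC.q_le
  h_pos := (slb_ok hC).h_pos
  h_eq := (slb_ok hC).h_eq
  dead_ne := (slb_ok hC).dead_ne
  len_zero := (slb_ok hC).len_zero
  nx_len := (slb_ok hC).nx_len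
  nx_step := (slb_ok hC).nx_step
  nx_card := (slb_ok hC).nx_card

end Pool.Agent.KSlab
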