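import Pool.Agent.KSlab.WDefs

/-! SW10: parity. -/

set_option autoImplicit false

open Complex Set Filter Topology
open scoped ENNReal

namespace Pool.Agent.KSlab

namespace Slb

variable {I : Type} {κ : Slb I} {par : XX I → ℕ} {k : KF I} {a b : VF I} {w : List (KF I)}

/-- The values vanish unless `n + par x` is even. -/
private def wpE (par : XX I → ℕ) (V : ℕ → XX I → ℝ≥0∞) : Prop :=
  ∀ n x, ¬ Even (n + par x) → V n x = 0

private theorem wp_stC (hk : KPar par k) {V : ℕ → XX I → ℝ≥0∞} (hV : wpE par V) :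
    wpE par (stC k V) := by
  intro n x h
  unfold stC
  refine Finset.sum_eq_zero fun p hp => ?_
  rw [Finset.HasAntidiagonal.mem_antidiagonal] at hp
  rw [ENNReal.tsum_eq_zero]
  intro y
  by_cases h1 : k p.1 x y = 0
  · rw [h1, ENNReal.ofReal_zero, zero_mul]
  · have h2 := hk p.1 x y h1
    have h3 : ¬ Even (p.2 + par y) := by
      intro h3
      apply h
      rw [Nat.even_iff] at h2 h3 ⊢
      omega
    rw [hV p.2 y h3, mul_zero]

private theorem wp_reC (hk : KPar par κ.k) {V : ℕ → XX I → ℝ≥0∞} (hV : wpE par V) :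
    wpE par (κ.reC V) := by
  intro n x h
  unfold reC
  rw [ENNReal.tsum_eq_zero]
  intro N
  have h1 : ∀ N : ℕ, wpE par ((stC κ.k)^[N] V) := by
    intro N
    induction N with
    | zero => exact hV
    | succ N ih =>
      rw [Function.iterate_succ_apply']
      exact wp_stC hk ih
  exact h1 N n x h

private theorem wp_toN (ha : VPar par a) : wpE par (toN a) := by
  intro n x h
  have h1 : a n x = 0 := by
    by_contra h1
    exact h (ha n x h1)
  unfold toN
  rw [h1, ENNReal.ofReal_zero]

private theorem wp_AC (hk : KPar par κ.k) (hw : ∀ k ∈ w, KPar par k) (ha : VPar par a) :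
    wpE par (κ.AC w a) := by
  induction w with
  | nil => exact wp_reC hk (wp_toN ha)
  | cons k w ih =>
    exact wp_reC hk (wp_stC (hw k List.mem_cons_self)
      (ih fun k' hk' => hw k' (List.mem_cons_of_mem _ hk')))

/-- `AC w a n x ≠ 0` only for `n + par x` even: induction on the word and on the number of steps
(`stC`, `reC`). Note `ENNReal.ofReal r = 0` for `r = 0`. -/
theorem ac_odd (hk : KPar par κ.k) (hw : ∀ k ∈ w, KPar par k) (ha : VPar par a) {n : ℕ} {x : XX I}
    (h : ¬ Even (n + par x)) : κ.AC w a n x = 0 :=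
  wp_AC hk hw ha n x h

theorem fc_odd (hk : KPar par κ.k) (hw : ∀ k ∈ w, KPar par k) (ha : VPar par a)
    (hb : VPar par b) {n : ℕ} (hn : Odd n) : κ.FC b w a n = 0 := by
  unfold FC blC
  refine Finset.sum_eq_zero fun p hp => ?_
  rw [Finset.HasAntidiagonal.mem_antidiagonal] at hp
  rw [ENNReal.tsum_eq_zero]
  intro x
  by_cases h1 : Even (p.1 + par x)
  · have h3 : ¬ Even (p.2 + par x) := by
      intro h3
      rw [Nat.odd_iff] at hn
      rw [Nat.even_iff] at h1 h3
      omega
    rw [ac_odd hk hw ha h3, mul_zero]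
  · rw [wp_toN hb p.1 x h1, zero_mul]

theorem kpar_dk (hk : KPar par k) : KPar par (dk k) := by
  intro n x y h
  refine hk n x y fun h1 => h ?_
  unfold dk
  rw [h1, mul_zero]

theorem vpar_dv (ha : VPar par a) : VPar par (dv a) := by
  intro n x h
  refine ha n x fun h1 => h ?_
  unfold dv
  rw [h1, mul_zero]

end Slb

end Pool.Agent.KSlab
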