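import Pool.Agent.KSlab.XDefs
import Pool.Agent.KSlab.WPar

/-! SX4: the parity of the blocks and of the caps. -/

set_option autoImplicit false

open Pool.Agent.LK
open scoped ENNReal

namespace Pool.Agent.KSlab

open Pool.Agent.KTube Pool.Agent.KRing Pool.Agent.KLog Pool.Agent.KCls
open Pool.Agent.KAsym (ln wtR wlR)
open Pool.Agent.KComp (Kn)
open Slb (KPar VPar)

variable {T Tc : Finset (Sym2 P3) → Prop} {M : ℕ} {y z : ℝ} {h : II M → ℝ}
  {A : ℤ × ℤ → PP → Prop}

private theorem steps_par {s : List P3} (h : Steps s) :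
    ((s.length : ℤ) + s.sum.1 + s.sum.2.1 + s.sum.2.2) % 2 = 0 := by
  induction s with
  | nil => simp
  | cons d s ih =>
    obtain ⟨hd, hs⟩ := h.cons
    have h1 := ih hs
    rw [List.sum_cons, List.length_cons]
    simp only [Prod.fst_add, Prod.snd_add]
    push_cast
    rcases step_cases hd with rfl | rfl | rfl | rfl | rfl | rfl <;> simp only <;> omega

/-- As `KComp.geo_parity`. -/
theorem geo_par {v : ℤ × ℤ} {π : PP} (h : Geo v π) : Even (ln π + nrm (dsp π)) := by
  have hA := steps_par h.stA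
  have hB := steps_par h.stB
  have h1 : 1 + π.2.sum.2.2 = π.1.sum.2.2 + 1 := by
    have h2 := h.block.headB
    unfold sdB at h2
    rw [List.head?_reverse, last_wk, Option.some.injEq] at h2
    have h3 := congrArg (fun p : P3 => p.2.2) h2
    simp only [Prod.snd_add] at h3
    exact h3
  rw [Nat.even_iff]
  unfold ln nrm dsp hz
  simp only [Prod.fst_sub, Prod.snd_sub]
  omega

private theorem exists_of_gn {P : PP → Prop} {x x' : XX (II M)} {n : ℕ}
    (h : gn y z P x x' n ≠ 0) : ∃ π, P π ∧ CX x x' π ∧ ln π = n := by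
  by_contra hc
  apply h
  unfold gn
  have : IsEmpty {π : PP // P π ∧ CX x x' π ∧ ln π = n} := ⟨fun π => hc ⟨π.1, π.2⟩⟩
  exact tsum_empty

private theorem par_of_geo {x x' : XX (II M)} {π : PP} (hg : Geo (vv x) π) (hc : CX x x' π)
    {n : ℕ} (hn : ln π = n) : Even (n + parS x + parS x') := by
  have h1 := geo_par hg
  have h2 := hc.vv_eq
  have h3 : (vv x').1 = (vv x).1 + (dsp π).1 := congrArg Prod.fst h2
  have h4 : (vv x').2 = (vv x).2 + (dsp π).2 := congrArg Prod.snd h2
  unfold parS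
  unfold nrm at h1 ⊢
  rw [Nat.even_iff] at h1 ⊢
  omega

/-- `geo_par`, `CX.vv_eq`, `nrm (v + w) ≡ nrm v + nrm w` modulo two; if no pair
contributes then `gn = 0`. -/
theorem kpar_k (Tc : Finset (Sym2 P3) → Prop) : KPar parS (slbC Tc T M y z h).k := by
  intro n x x' hne
  have h1 : gn y z (ValidT T (vv x)) x x' n ≠ 0 := hne
  obtain ⟨π, h2, h3, h4⟩ := exists_of_gn h1
  exact par_of_geo h2.1 h3 h4

theorem kpar_kn : KPar parS (kn (M := M) y z A) := by
  intro n x x' hne
  obtain ⟨π, h2, h3, h4⟩ := exists_of_gn hne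
  exact par_of_geo h2.1.1 h3 h4

/-- A cap `l` with displacement `v` is a lattice path from the column `v` to the column `0` with
both ends on the level zero (`Lower`), so `l.length - 1 ≡ nrm v` modulo two. -/
theorem vpar_c (Tc : Finset (Sym2 P3) → Prop) : VPar parS (slbC Tc T M y z h).c := by
  intro n x hne
  have h1 : ∑' l : {l // HalfT Tc 0 (vv x) l ∧ InS M ((x.2.1 : ℕ) : ℤ) l ∧ l.length = n},
      wlR y z l.1 ≠ 0 := hne
  obtain ⟨l, h2, -, h4⟩ : ∃ l, HalfT Tc 0 (vv x) l ∧ InS M ((x.2.1 : ℕ) : ℤ) l ∧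
      l.length = n := by
    by_contra hc
    apply h1
    have : IsEmpty {l // HalfT Tc 0 (vv x) l ∧ InS M ((x.2.1 : ℕ) : ℤ) l ∧ l.length = n} :=
      ⟨fun l => hc ⟨l.1, l.2⟩⟩
    exact tsum_empty
  have hL := h2.1.2.1
  obtain ⟨s, rfl⟩ := exists_wk l _ hL.head
  have h5 := hL.last
  rw [last_wk, Option.some.injEq] at h5
  have h6 : Steps s := chain_wk.1 hL.chain
  have h7 := steps_par h6
  have e1 : (vv x).1 + s.sum.1 = 0 := congrArg Prod.fst h5
  have e2 : (vv x).2 + s.sum.2.1 = 0 := congrArg (fun p : P3 => p.2.1) h5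
  have e3 : (0 : ℤ) + s.sum.2.2 = 0 := congrArg (fun p : P3 => p.2.2) h5
  rw [length_wk] at h4
  unfold parS nrm
  rw [Nat.even_iff]
  omega

end Pool.Agent.KSlab
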