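import Pool.Agent.KSlab.XMk
import Pool.Agent.KComp.Marks

/-! SX3: far from the dead states the kernels of the knotted blocks are translation invariant. -/

set_option autoImplicit false

open Pool.Agent.LK
open scoped ENNReal

namespace Pool.Agent.KSlab

open Pool.Agent.KTube Pool.Agent.KRing Pool.Agent.KLog Pool.Agent.KCls
open Pool.Agent.KAsym (ln wtR wlR)
open Pool.Agent.KComp (Kn)

variable {T Tc : Finset (Sym2 P3) → Prop} {M : ℕ} {y z : ℝ} {h : II M → ℝ}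
  {A : ℤ × ℤ → PP → Prop} {B : PP → Prop}

private theorem xtr_gk (n : ℕ) (x x' : XX (II M)) :
    gk y z B n (x'.1 - x.1) x.2 x'.2 = gn y z (fun π => KnF π ∧ B π) x x' n := by
  have h := gn_shift (y := y) (z := z) (fun π => KnF π ∧ B π) ((0, x.2) : XX (II M))
    (x'.1 - x.1, x'.2) x.1 n
  have e1 : (((0, x.2) : XX (II M)).1 + x.1, ((0, x.2) : XX (II M)).2) = x :=
    Prod.ext (zero_add _) rfl
  have e2 : (((x'.1 - x.1, x'.2) : XX (II M)).1 + x.1, ((x'.1 - x.1, x'.2) : XX (II M)).2) = x' :=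
    Prod.ext (sub_add_cancel _ _) rfl
  rw [e1, e2] at h
  exact h.symm

private theorem xtr_gn (P : PP → Prop) (x x' : XX (II M)) (n : ℕ) :
    gn y z P x x' n =
      ∑' π : PP, Set.indicator {π : PP | P π ∧ CX x x' π ∧ ln π = n} (wtR y z) π := by
  unfold gn
  exact tsum_subtype {π : PP | P π ∧ CX x x' π ∧ ln π = n} (wtR y z)

private theorem xtr_summable (hy : 0 < y) (hz : 0 < z) (hz1 : z ≤ 1 / 10 ^ 12)
    (hq : y * z ^ 2 ≤ 1) {A : Set PP} (hA : ∀ π ∈ A, ∃ v, Geo v π) :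
    Summable (A.indicator (wtR y z)) := by
  have h0 : Summable (Set.indicator {π : PP | ∃ v, Geo v π} (wtR y z)) := by
    rw [← summable_subtype_iff_indicator]
    have h1 := geo_fin hy hz hz1 hq
    refine (sum_of (f := fun π : {π : PP // ∃ v, Geo v π} => wtR y z π.1)
      (fun π => wtR_nn hy hz _) (c := (∑' π : {π : PP // ∃ v, Geo v π},
        wt (ENNReal.ofReal y) (ENNReal.ofReal z) π.1 * 2 ^ ln π.1 * 576 ^ nh π.1).toReal)
      ENNReal.toReal_nonneg ?_).1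
    rw [ENNReal.ofReal_toReal h1]
    refine ENNReal.tsum_le_tsum fun π => ?_
    rw [← wt_eq hy hz]
    have h2 : (1 : ℝ≥0∞) ≤ 2 ^ ln π.1 := one_le_pow₀ (by norm_num)
    have h3 : (1 : ℝ≥0∞) ≤ 576 ^ nh π.1 := one_le_pow₀ (by norm_num)
    calc wt (ENNReal.ofReal y) (ENNReal.ofReal z) π.1
        = wt (ENNReal.ofReal y) (ENNReal.ofReal z) π.1 * 1 * 1 := by rw [mul_one, mul_one]
      _ ≤ _ := by gcongr
  have h1 := h0.indicator A
  have h2 : A ∩ {π : PP | ∃ v, Geo v π} = A := Set.inter_eq_left.2 hA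
  rwa [Set.indicator_indicator, h2] at h1

/-- Let `x` be alive. Both terms are sums of `wtR` over pairs with `CX x x' π`, `ln π = n` (`gn_shift`), with
`Kn (vv x) π ∧ A (vv x) π` resp. `KnF π ∧ B π`. If `nh π < nrm (vv x)` these are equivalent (`kn_far`, `FarEq`). So only
the geometric pairs with `nrm (vv x) ≤ nh π` contribute to the difference. -/
theorem kn_df (hy : 0 < y) (hz : 0 < z) (hz1 : z ≤ 1 / 10 ^ 12) (hq : y * z ^ 2 ≤ 1)
    (hAB : FarEq A B) (n : ℕ) (x x' : XX (II M)) :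
    |kn y z A n x x' - gk y z B n (x'.1 - x.1) x.2 x'.2| ≤
      gn y z (fun π => (∃ w, Geo w π) ∧ nrm (vv x) ≤ nh π) x x' n := by
  classical
  have sA : Summable (Set.indicator {π : PP | (Kn (vv x) π ∧ A (vv x) π) ∧ CX x x' π ∧ ln π = n}
      (wtR y z)) := xtr_summable hy hz hz1 hq fun π hπ => ⟨_, hπ.1.1.1⟩
  have sB : Summable (Set.indicator {π : PP | (KnF π ∧ B π) ∧ CX x x' π ∧ ln π = n}
      (wtR y z)) := xtr_summable hy hz hz1 hq fun π hπ => by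
    obtain ⟨⟨⟨v, -, h1⟩, -⟩, -⟩ := hπ
    exact ⟨v, h1.1⟩
  have sD : Summable (Set.indicator {π : PP | ((∃ w, Geo w π) ∧ nrm (vv x) ≤ nh π) ∧
      CX x x' π ∧ ln π = n} (wtR y z)) := xtr_summable hy hz hz1 hq fun π hπ => hπ.1.1
  have hk : kn y z A n x x' = gn y z (fun π => Kn (vv x) π ∧ A (vv x) π) x x' n := rfl
  rw [hk, xtr_gk, ← Real.norm_eq_abs, xtr_gn, xtr_gn, xtr_gn, ← Summable.tsum_sub sA sB]
  refine tsum_of_norm_bounded sD.hasSum fun π => ?_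
  by_cases hD : π ∈ {π : PP | ((∃ w, Geo w π) ∧ nrm (vv x) ≤ nh π) ∧ CX x x' π ∧ ln π = n}
  · have hw := wtR_nn hy hz π
    rw [Set.indicator_of_mem hD, Real.norm_eq_abs]
    by_cases hA : π ∈ {π : PP | (Kn (vv x) π ∧ A (vv x) π) ∧ CX x x' π ∧ ln π = n}
    · rw [Set.indicator_of_mem hA]
      by_cases hB : π ∈ {π : PP | (KnF π ∧ B π) ∧ CX x x' π ∧ ln π = n}
      · rw [Set.indicator_of_mem hB, sub_self, abs_zero]
        exact hw
      · rw [Set.indicator_of_notMem hB, sub_zero, abs_of_nonneg hw]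
    · rw [Set.indicator_of_notMem hA]
      by_cases hB : π ∈ {π : PP | (KnF π ∧ B π) ∧ CX x x' π ∧ ln π = n}
      · rw [Set.indicator_of_mem hB, zero_sub, abs_neg, abs_of_nonneg hw]
      · rw [Set.indicator_of_notMem hB, sub_zero, abs_zero]
        exact hw
  · rw [Set.indicator_of_notMem hD]
    have hfar : (∃ w, Geo w π) → CX x x' π → ln π = n → nh π < nrm (vv x) := by
      intro hg hc hn
      by_contra h1
      exact hD ⟨⟨hg, not_lt.1 h1⟩, hc, hn⟩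
    have hAB' : π ∈ {π : PP | (Kn (vv x) π ∧ A (vv x) π) ∧ CX x x' π ∧ ln π = n} ↔
        π ∈ {π : PP | (KnF π ∧ B π) ∧ CX x x' π ∧ ln π = n} := by
      constructor
      · rintro ⟨⟨h1, h2⟩, h3, h4⟩
        have h5 := hfar ⟨_, h1.1⟩ h3 h4
        exact ⟨⟨⟨_, h5, h1⟩, (hAB _ _ h5 h1).1 h2⟩, h3, h4⟩
      · rintro ⟨⟨⟨v, h1, h1'⟩, h2⟩, h3, h4⟩
        have h5 := hfar ⟨_, h1'.1⟩ h3 h4
        have h6 : Kn (vv x) π := (Pool.Agent.KComp.kn_far h1 h5).1 h1'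
        exact ⟨⟨h6, (hAB _ _ h5 h6).2 h2⟩, h3, h4⟩
    by_cases hA : π ∈ {π : PP | (Kn (vv x) π ∧ A (vv x) π) ∧ CX x x' π ∧ ln π = n}
    · rw [Set.indicator_of_mem hA, Set.indicator_of_mem (hAB'.1 hA), sub_self, norm_zero]
    · rw [Set.indicator_of_notMem hA, Set.indicator_of_notMem (mt hAB'.2 hA), sub_self,
        norm_zero]

private theorem xtr_geo : Summable fun u : ℤ => (1 / 2 : ℝ) ^ u.natAbs := by
  have hs : Summable fun n : ℕ => (1 / 2 : ℝ) ^ n :=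
    summable_geometric_of_lt_one (by norm_num) (by norm_num)
  refine Summable.of_nat_of_neg ?_ ?_
  · simpa using hs
  · simpa using hs

private theorem xtr_geo' : Summable fun x : XX (II M) => (1 / 2 : ℝ) ^ x.1.natAbs := by
  have h1 : Summable fun _ : II M => (1 : ℝ) := Summable.of_finite
  have h2 := xtr_geo.mul_of_nonneg h1 (fun _ => by positivity) (fun _ => zero_le_one)
  simpa using h2

/-- `gk_sum`; `kn_df`: `|x.1| ≤ nrm (vv x) ≤ nh π`, `|x'.1| ≤ 2 nh π`, and there are at most `(2 nh π + 1) (M + 1)²` states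
`x` for each `π`; `(3/2) ^ ln 8 ^ nh (2 nh + 1) ≤ C 2 ^ ln 576 ^ nh`; `fib`, `cx_sum`, `geo_fin`. -/
theorem tr_kn (hy : 0 < y) (hz : 0 < z) (hz1 : z ≤ 1 / 10 ^ 12) (hq : y * z ^ 2 ≤ 1)
    (hAB : FarEq A B) : (slbC Tc T M y z h).Tr (kn y z A) (gk y z B) := by
  classical
  refine ⟨gk_sum hy hz hz1 hq, ?_⟩
  set G : PP → ℝ≥0∞ := fun π => wt (ENNReal.ofReal y) (ENNReal.ofReal z) π * 2 ^ ln π *
    16 ^ nh π with hG
  have hS : ∑' π : {π : PP // ∃ v, Geo v π}, G π.1 ≠ ⊤ := by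
    refine ne_top_of_le_ne_top (geo_fin hy hz hz1 hq) (ENNReal.tsum_le_tsum fun π => ?_)
    rw [hG]
    simp only
    gcongr
    norm_num
  have hZ : ∑' x : XX (II M), ENNReal.ofReal ((1 / 2) ^ x.1.natAbs) ≠ ⊤ := by
    rw [← ENNReal.ofReal_tsum_of_nonneg (fun x => by positivity) xtr_geo']
    exact ENNReal.ofReal_ne_top
  obtain ⟨Tt, hTt⟩ : ∃ Tt : ℝ≥0∞, Tt = (∑' x : XX (II M), ENNReal.ofReal ((1 / 2) ^ x.1.natAbs)) *
    ∑' π : {π : PP // ∃ v, Geo v π}, G π.1 := ⟨_, rfl⟩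
  have hT : Tt ≠ ⊤ := by
    rw [hTt]
    exact ENNReal.mul_ne_top hZ hS
  have e1 : ∀ p : ℕ × XX (II M) × XX (II M),
      ENNReal.ofReal (if (slbC Tc T M y z h).Al p.2.1 ∧ (slbC Tc T M y z h).Al p.2.2 then
        (3 / 2) ^ p.1 * 2 ^ (p.2.1.1.natAbs + p.2.2.1.natAbs) *
          |kn y z A p.1 p.2.1 p.2.2 - gk y z B p.1 (p.2.2.1 - p.2.1.1) p.2.1.2 p.2.2.2| else 0) ≤
      ENNReal.ofReal (2 ^ (p.2.1.1.natAbs + p.2.2.1.natAbs)) * (ENNReal.ofReal ((3 / 2) ^ p.1) *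
        ENNReal.ofReal (gn y z (fun π => (∃ w, Geo w π) ∧ nrm (vv p.2.1) ≤ nh π)
          p.2.1 p.2.2 p.1)) := by
    rintro ⟨n, x, x'⟩
    simp only
    split_ifs with hc
    · rw [ENNReal.ofReal_mul (by positivity), ENNReal.ofReal_mul (by positivity),
        mul_comm (ENNReal.ofReal ((3 / 2) ^ n)), mul_assoc]
      gcongr
      exact kn_df hy hz hz1 hq hAB n x x'
    · rw [ENNReal.ofReal_zero]
      exact zero_le
  have e2 : ∀ x x' : XX (II M), ∑' n : ℕ, ENNReal.ofReal (2 ^ (x.1.natAbs + x'.1.natAbs)) *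
      (ENNReal.ofReal ((3 / 2) ^ n) *
        ENNReal.ofReal (gn y z (fun π => (∃ w, Geo w π) ∧ nrm (vv x) ≤ nh π) x x' n)) =
      ∑' π : {π // ((∃ w, Geo w π) ∧ nrm (vv x) ≤ nh π) ∧ CX x x' π},
        ENNReal.ofReal (2 ^ (x.1.natAbs + x'.1.natAbs)) * (ENNReal.ofReal ((3 / 2) ^ ln π.1) *
          wt (ENNReal.ofReal y) (ENNReal.ofReal z) π.1) := by
    intro x x'
    rw [ENNReal.tsum_mul_left, ENNReal.tsum_mul_left,
      fib hy hz hz1 hq (P := fun π => (∃ w, Geo w π) ∧ nrm (vv x) ≤ nh π) (fun π hπ => hπ.1) x x'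
        (fun n => ENNReal.ofReal ((3 / 2) ^ n))]
  have e3 : ∀ (x x' : XX (II M))
      (π : {π // ((∃ w, Geo w π) ∧ nrm (vv x) ≤ nh π) ∧ CX x x' π}),
      ENNReal.ofReal (2 ^ (x.1.natAbs + x'.1.natAbs)) * (ENNReal.ofReal ((3 / 2) ^ ln π.1) *
          wt (ENNReal.ofReal y) (ENNReal.ofReal z) π.1) ≤
        ENNReal.ofReal ((1 / 2) ^ x.1.natAbs) * G π.1 := by
    rintro x x' ⟨π, ⟨⟨w, hw⟩, hn⟩, hc⟩
    have h1 : nrm (dsp π) ≤ nh π := nrm_dsp_le hw.stA hw.stB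
    have h2 : x.1.natAbs ≤ nrm (vv x) := Nat.le_add_right _ _
    have h3 : (dsp π).1.natAbs ≤ nrm (dsp π) := Nat.le_add_right _ _
    have h4 : x'.1.natAbs ≤ x.1.natAbs + (dsp π).1.natAbs := by
      rw [← hc.2]
      exact Int.natAbs_add_le _ _
    have h5 : x.1.natAbs + (x.1.natAbs + x'.1.natAbs) ≤ 4 * nh π := by omega
    have h6 : (2 : ℝ) ^ x.1.natAbs * 2 ^ (x.1.natAbs + x'.1.natAbs) ≤ 16 ^ nh π := by
      rw [← pow_add]
      calc (2 : ℝ) ^ (x.1.natAbs + (x.1.natAbs + x'.1.natAbs)) ≤ 2 ^ (4 * nh π) :=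
            pow_le_pow_right₀ (by norm_num) h5
        _ = 16 ^ nh π := by rw [pow_mul]; norm_num
    have h7 : (1 / 2 : ℝ) ^ x.1.natAbs * 2 ^ x.1.natAbs = 1 := by
      rw [← mul_pow]
      norm_num
    have h8 : (3 / 2 : ℝ) ^ ln π ≤ 2 ^ ln π := pow_le_pow_left₀ (by norm_num) (by norm_num) _
    have h9 : (2 : ℝ) ^ (x.1.natAbs + x'.1.natAbs) * (3 / 2) ^ ln π ≤
        (1 / 2) ^ x.1.natAbs * (2 ^ ln π * 16 ^ nh π) := by
      calc (2 : ℝ) ^ (x.1.natAbs + x'.1.natAbs) * (3 / 2) ^ ln π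
          = (1 / 2 : ℝ) ^ x.1.natAbs * ((3 / 2) ^ ln π *
              (2 ^ x.1.natAbs * 2 ^ (x.1.natAbs + x'.1.natAbs))) := by
            calc (2 : ℝ) ^ (x.1.natAbs + x'.1.natAbs) * (3 / 2) ^ ln π
                = ((1 / 2 : ℝ) ^ x.1.natAbs * 2 ^ x.1.natAbs) *
                    (2 ^ (x.1.natAbs + x'.1.natAbs) * (3 / 2) ^ ln π) := by rw [h7, one_mul]
              _ = _ := by ring
        _ ≤ (1 / 2 : ℝ) ^ x.1.natAbs * (2 ^ ln π * 16 ^ nh π) := by gcongr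
    have h10 := ENNReal.ofReal_le_ofReal h9
    rw [ENNReal.ofReal_mul (by positivity), ENNReal.ofReal_mul (by positivity),
      ENNReal.ofReal_mul (by positivity)] at h10
    have h11 : ENNReal.ofReal (2 ^ ln π) = 2 ^ ln π := by
      rw [ENNReal.ofReal_pow (by norm_num), ENNReal.ofReal_ofNat]
    have h12 : ENNReal.ofReal (16 ^ nh π) = 16 ^ nh π := by
      rw [ENNReal.ofReal_pow (by norm_num), ENNReal.ofReal_ofNat]
    rw [h11, h12] at h10
    rw [hG]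
    simp only
    calc ENNReal.ofReal (2 ^ (x.1.natAbs + x'.1.natAbs)) * (ENNReal.ofReal ((3 / 2) ^ ln π) *
          wt (ENNReal.ofReal y) (ENNReal.ofReal z) π)
        = (ENNReal.ofReal (2 ^ (x.1.natAbs + x'.1.natAbs)) * ENNReal.ofReal ((3 / 2) ^ ln π)) *
          wt (ENNReal.ofReal y) (ENNReal.ofReal z) π := by ring
      _ ≤ (ENNReal.ofReal ((1 / 2) ^ x.1.natAbs) * (2 ^ ln π * 16 ^ nh π)) *
          wt (ENNReal.ofReal y) (ENNReal.ofReal z) π := by gcongr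
      _ = _ := by ring
  have e4 : ∀ x : XX (II M),
      ∑' π : {π // ((∃ w, Geo w π) ∧ nrm (vv x) ≤ nh π) ∧ ∃ x', CX x x' π}, G π.1 ≤
        ∑' π : {π : PP // ∃ v, Geo v π}, G π.1 := by
    intro x
    have inj : Function.Injective
        (fun π : {π // ((∃ w, Geo w π) ∧ nrm (vv x) ≤ nh π) ∧ ∃ x', CX x x' π} =>
          (⟨π.1, π.2.1.1⟩ : {π : PP // ∃ v, Geo v π})) := by
      intro a b hab
      exact Subtype.ext (congrArg (fun c : {π : PP // ∃ v, Geo v π} => c.1) hab)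
    exact ENNReal.tsum_comp_le_tsum_of_injective inj
      (fun π : {π : PP // ∃ v, Geo v π} => G π.1)
  refine (sum_of (c := Tt.toReal) (fun p => ?_) ENNReal.toReal_nonneg ?_).1
  · split_ifs
    · positivity
    · exact le_rfl
  rw [ENNReal.ofReal_toReal hT]
  refine (ENNReal.tsum_le_tsum e1).trans ?_
  rw [hTt, ← ENNReal.tsum_mul_right]
  calc ∑' p : ℕ × XX (II M) × XX (II M), ENNReal.ofReal (2 ^ (p.2.1.1.natAbs + p.2.2.1.natAbs)) *
        (ENNReal.ofReal ((3 / 2) ^ p.1) *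
        ENNReal.ofReal (gn y z (fun π => (∃ w, Geo w π) ∧ nrm (vv p.2.1) ≤ nh π)
          p.2.1 p.2.2 p.1))
      = ∑' q : XX (II M) × XX (II M), ∑' n : ℕ,
        ENNReal.ofReal (2 ^ (q.1.1.natAbs + q.2.1.natAbs)) * (ENNReal.ofReal ((3 / 2) ^ n) *
          ENNReal.ofReal (gn y z (fun π => (∃ w, Geo w π) ∧ nrm (vv q.1) ≤ nh π)
            q.1 q.2 n)) := by
        rw [ENNReal.tsum_comm]
        exact ENNReal.tsum_prod (f := fun (n : ℕ) (q : XX (II M) × XX (II M)) =>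
          ENNReal.ofReal (2 ^ (q.1.1.natAbs + q.2.1.natAbs)) * (ENNReal.ofReal ((3 / 2) ^ n) *
          ENNReal.ofReal (gn y z (fun π => (∃ w, Geo w π) ∧ nrm (vv q.1) ≤ nh π)
            q.1 q.2 n)))
    _ = ∑' x : XX (II M), ∑' x' : XX (II M), ∑' n : ℕ,
        ENNReal.ofReal (2 ^ (x.1.natAbs + x'.1.natAbs)) * (ENNReal.ofReal ((3 / 2) ^ n) *
          ENNReal.ofReal (gn y z (fun π => (∃ w, Geo w π) ∧ nrm (vv x) ≤ nh π) x x' n)) :=
        ENNReal.tsum_prod (f := fun (x x' : XX (II M)) => ∑' n : ℕ,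
          ENNReal.ofReal (2 ^ (x.1.natAbs + x'.1.natAbs)) * (ENNReal.ofReal ((3 / 2) ^ n) *
          ENNReal.ofReal (gn y z (fun π => (∃ w, Geo w π) ∧ nrm (vv x) ≤ nh π) x x' n)))
    _ ≤ ∑' x : XX (II M), ENNReal.ofReal ((1 / 2) ^ x.1.natAbs) *
          ∑' π : {π : PP // ∃ v, Geo v π}, G π.1 := by
        refine ENNReal.tsum_le_tsum fun x => ?_
        calc ∑' x' : XX (II M), ∑' n : ℕ,
            ENNReal.ofReal (2 ^ (x.1.natAbs + x'.1.natAbs)) * (ENNReal.ofReal ((3 / 2) ^ n) *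
              ENNReal.ofReal (gn y z (fun π => (∃ w, Geo w π) ∧ nrm (vv x) ≤ nh π) x x' n))
            = ∑' x' : XX (II M),
              ∑' π : {π // ((∃ w, Geo w π) ∧ nrm (vv x) ≤ nh π) ∧ CX x x' π},
              ENNReal.ofReal (2 ^ (x.1.natAbs + x'.1.natAbs)) *
                (ENNReal.ofReal ((3 / 2) ^ ln π.1) *
                wt (ENNReal.ofReal y) (ENNReal.ofReal z) π.1) := tsum_congr (e2 x)
          _ ≤ ∑' x' : XX (II M),
              ∑' π : {π // ((∃ w, Geo w π) ∧ nrm (vv x) ≤ nh π) ∧ CX x x' π},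
              ENNReal.ofReal ((1 / 2) ^ x.1.natAbs) * G π.1 :=
            ENNReal.tsum_le_tsum fun x' => ENNReal.tsum_le_tsum (e3 x x')
          _ = ENNReal.ofReal ((1 / 2) ^ x.1.natAbs) * ∑' x' : XX (II M),
              ∑' π : {π // ((∃ w, Geo w π) ∧ nrm (vv x) ≤ nh π) ∧ CX x x' π}, G π.1 := by
            rw [← ENNReal.tsum_mul_left]
            exact tsum_congr fun x' => ENNReal.tsum_mul_left
          _ = ENNReal.ofReal ((1 / 2) ^ x.1.natAbs) *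
              ∑' π : {π // ((∃ w, Geo w π) ∧ nrm (vv x) ≤ nh π) ∧ ∃ x', CX x x' π}, G π.1 := by
            rw [cx_sum x (fun π => (∃ w, Geo w π) ∧ nrm (vv x) ≤ nh π) G]
          _ ≤ _ := by
            gcongr
            exact e4 x

end Pool.Agent.KSlab
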