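import Pool.Agent.KSlab.XId
import Pool.Agent.KSlab.XPar
import Pool.Agent.KSlab.XTr
import Pool.Agent.KSlab.XOk
import Pool.Agent.KSlab.WMain

/-! SX6: **Theorem W**: the asymptotics of the chains in the slab with marks of given kinds. -/

set_option autoImplicit false

open Pool.Agent.LK Filter Topology
open scoped ENNReal

namespace Pool.Agent.KSlab

open Pool.Agent.KTube Pool.Agent.KRing Pool.Agent.KLog Pool.Agent.KCls
open Pool.Agent.KAsym (ln wtR wlR)
open Pool.Agent.KComp (HA UH)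

variable {M : ℕ} {y z : ℝ} {h : II M → ℝ}

/-- The halves of class `Unknotted` are the unknotted halves (`LT` and `LU`, see `KAmp/Cls.lean`, `KComp/ChainA.lean`). -/
theorem qc_unk (r : HA) : QC Unknotted r ↔ UH r := by
  constructor
  · rintro ⟨h1, -⟩
    exact h1
  · intro h1
    exact ⟨h1, r.2.2.2.2⟩

theorem qc_all (r : HA) : QC (fun _ => True) r := by
  obtain ⟨v, l, hv, hl, hn⟩ := r
  obtain ⟨u, hu⟩ := exists_UU' (k := 0) hv
  obtain ⟨A, hA⟩ := exists_lowClose (ring_of hv hu.2.1 hl).isPolygon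
    (isTwo_ring_of hv hu.2.1 hl)
  exact ⟨⟨hv, hl, u, hu.2.1, A, hA, trivial⟩, hn⟩

/-- **Theorem W.** `slbC_ok`, `Ok.words` for the words `(kn A, gk B)`, `ad_kn`, `nn_kn`, `kpar_kn`, `tr_kn`, `la_gk`, `sas_eq`;
`ν = 1 / NN` (`V_pos`). -/
theorem chains (hC : CritS Unknotted y z h) {Tc : Finset (Sym2 P3) → Prop} (hc : Cls Tc) :
    ∃ A ν : ℝ, 0 < A ∧ 0 < ν ∧ ∀ L : List ((ℤ × ℤ → PP → Prop) × (PP → Prop)),
      (∀ q ∈ L, FarEq q.1 q.2) →
      Tendsto (fun k : ℕ => (SAS M y z (fun p => QC Tc (toA p).1.1 ∧ QC Tc (toA p).1.2.2 ∧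
        MatP p (L.map Prod.fst)) (2 * k)).toReal * ((2 * k : ℕ) : ℝ) ^ (3 / 2 - L.length : ℝ)) atTop
        (𝓝 (A / L.length.factorial * (L.map fun q => ν * LK y z h q.2).prod)) := by
  have hok : (slbC Tc Unknotted M y z h).Ok := slbC_ok hC hc
  obtain ⟨A, hA, hw⟩ := hok.words (kpar_k Tc) (vpar_c Tc)
  have hN : 0 < (slbC Tc Unknotted M y z h).NN := hok.V_pos.2.1
  refine ⟨A, 1 / (slbC Tc Unknotted M y z h).NN, hA, by positivity, fun L hL => ?_⟩
  have h1 := hw (L.map fun q => ((kn y z q.1 : KF (II M)), (gk y z q.2 : GF (II M)))) (by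
    intro p hp
    obtain ⟨q, hq, rfl⟩ := List.mem_map.1 hp
    exact ⟨ad_kn hC.y_pos hC.z_pos hC.z_le hC.q_le, nn_kn hC.y_pos hC.z_pos, kpar_kn,
      tr_kn hC.y_pos hC.z_pos hC.z_le hC.q_le (hL q hq)⟩)
  have e1 : (L.map fun q => ((kn y z q.1 : KF (II M)), (gk y z q.2 : GF (II M)))).map
      Prod.fst = (L.map Prod.fst).map (kn y z) := by
    rw [List.map_map, List.map_map]
    rfl
  have e2 : ((L.map fun q => ((kn y z q.1 : KF (II M)), (gk y z q.2 : GF (II M)))).map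
      fun p => (slbC Tc Unknotted M y z h).la p.2 / (slbC Tc Unknotted M y z h).NN) =
      L.map fun q => 1 / (slbC Tc Unknotted M y z h).NN * LK y z h q.2 := by
    rw [List.map_map]
    refine List.map_congr_left fun q _ => ?_
    simp only [Function.comp]
    rw [la_gk hC.y_pos hC.z_pos hC.z_le hC.q_le hC.h_pos]
    ring
  rw [e1, e2, List.length_map] at h1
  refine h1.congr fun k => ?_
  rw [sas_eq (h := h) hC.y_pos hC.z_pos hC.z_le hC.q_le (L.map Prod.fst) (2 * k)]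

/-- All sums are finite: `sas_eq`, `fc_fin`. -/
theorem sas_fin (hC : CritS Unknotted y z h) {Tc : Finset (Sym2 P3) → Prop} (hc : Cls Tc)
    (L : List (ℤ × ℤ → PP → Prop)) (n : ℕ) :
    SAS M y z (fun p => QC Tc (toA p).1.1 ∧ QC Tc (toA p).1.2.2 ∧ MatP p L) n ≠ ⊤ := by
  have hok : (slbC Tc Unknotted M y z h).Ok := slbC_ok hC hc
  rw [sas_eq (h := h) hC.y_pos hC.z_pos hC.z_le hC.q_le L n]
  refine hok.fc_fin (fun k hk => ?_) hok.cp_c.1 hok.cp_c.1 n
  obtain ⟨A, -, rfl⟩ := List.mem_map.1 hk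
  exact ⟨ad_kn hC.y_pos hC.z_pos hC.z_le hC.q_le, nn_kn hC.y_pos hC.z_pos⟩

end Pool.Agent.KSlab
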