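import Pool.Agent.KSlab.XDefs
import Pool.Agent.KComp.CapA

/-! SX2: the kernels of the knotted blocks are admissible. -/

set_option autoImplicit false

open Pool.Agent.LK
open scoped ENNReal

namespace Pool.Agent.KSlab

open Pool.Agent.KTube Pool.Agent.KRing Pool.Agent.KLog Pool.Agent.KCls
open Pool.Agent.KAsym (ln wtR wlR)
open Pool.Agent.KComp (Kn)

variable {T Tc : Finset (Sym2 P3) → Prop} {M : ℕ} {y z : ℝ} {h : II M → ℝ}
  {A : ℤ × ℤ → PP → Prop} {B : PP → Prop}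

private theorem xm_real {α : Type*} {f : α → ℝ} (hf : ∀ a, 0 ≤ f a) :
    (∑' a, ENNReal.ofReal (f a)).toReal = ∑' a, f a := by
  rw [ENNReal.tsum_toReal_eq fun a => ENNReal.ofReal_ne_top]
  exact tsum_congr fun a => ENNReal.toReal_ofReal (hf a)

private theorem xm_knF {π : PP} (h : KnF π) : ∃ v, Geo v π := by
  obtain ⟨v, -, hv⟩ := h
  exact ⟨v, hv.1⟩

private theorem xm_dsp {π : PP} (h : ∃ v, Geo v π) : (dsp π).1.natAbs ≤ nh π := by
  obtain ⟨v, hv⟩ := h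
  have h1 := nrm_dsp_le hv.stA hv.stB
  unfold KLog.nrm at h1
  omega

/-- the sum over the geometric pairs -/
private noncomputable def xmG (y z : ℝ) : ℝ≥0∞ :=
  ∑' π : {π : PP // ∃ v, Geo v π}, wt (ENNReal.ofReal y) (ENNReal.ofReal z) π.1 *
    2 ^ ln π.1 * 576 ^ nh π.1

private theorem xm_le (y z : ℝ) {P : PP → Prop} (hP : ∀ π, P π → ∃ v, Geo v π) :
    ∑' π : {π : PP // P π}, 2 ^ ln π.1 * wt (ENNReal.ofReal y) (ENNReal.ofReal z) π.1 ≤
      xmG y z := by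
  refine (ENNReal.tsum_mono_subtype
    (fun π : PP => 2 ^ ln π * wt (ENNReal.ofReal y) (ENNReal.ofReal z) π)
    (s := {π | P π}) (t := {π | ∃ v, Geo v π}) fun π hπ => hP π hπ).trans ?_
  refine ENNReal.tsum_le_tsum fun π => ?_
  rw [mul_comm]
  exact le_mul_of_one_le_right' (one_le_pow₀ (by norm_num))

private theorem xm_row (hy : 0 < y) (hz : 0 < z) (hz1 : z ≤ 1 / 10 ^ 12) (hq : y * z ^ 2 ≤ 1)
    {P : PP → Prop} (hP : ∀ π, P π → ∃ v, Geo v π) (x : XX (II M)) :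
    ∑' p : ℕ × XX (II M), 2 ^ p.1 * ENNReal.ofReal (gn y z P x p.2 p.1) ≤ xmG y z := by
  have h1 : ∑' p : ℕ × XX (II M), 2 ^ p.1 * ENNReal.ofReal (gn y z P x p.2 p.1) =
      ∑' π : {π : PP // P π ∧ ∃ x', CX x x' π},
        2 ^ ln π.1 * wt (ENNReal.ofReal y) (ENNReal.ofReal z) π.1 := by
    rw [← cx_sum x P (fun π => 2 ^ ln π * wt (ENNReal.ofReal y) (ENNReal.ofReal z) π),
      ENNReal.tsum_prod', ENNReal.tsum_comm]
    refine tsum_congr fun x' => ?_
    exact fib hy hz hz1 hq hP x x' fun n => 2 ^ n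
  rw [h1]
  exact xm_le y z fun π hπ => hP π hπ.1

private theorem xm_col (hy : 0 < y) (hz : 0 < z) (hz1 : z ≤ 1 / 10 ^ 12) (hq : y * z ^ 2 ≤ 1)
    {P : XX (II M) → PP → Prop} (hP : ∀ x π, P x π → ∃ v, Geo v π) (x : XX (II M)) :
    ∑' p : ℕ × XX (II M), 2 ^ p.1 * ENNReal.ofReal (gn y z (P p.2) p.2 x p.1) ≤ xmG y z := by
  have h1 : ∑' p : ℕ × XX (II M), 2 ^ p.1 * ENNReal.ofReal (gn y z (P p.2) p.2 x p.1) =
      ∑' w : XX (II M), ∑' π : {π : PP // P w π ∧ CX w x π},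
        2 ^ ln π.1 * wt (ENNReal.ofReal y) (ENNReal.ofReal z) π.1 := by
    rw [ENNReal.tsum_prod', ENNReal.tsum_comm]
    refine tsum_congr fun w => ?_
    exact fib hy hz hz1 hq (hP w) w x fun n => 2 ^ n
  rw [h1, ← ENNReal.tsum_sigma (fun (w : XX (II M)) (π : {π : PP // P w π ∧ CX w x π}) =>
    2 ^ ln π.1 * wt (ENNReal.ofReal y) (ENNReal.ofReal z) π.1)]
  let φ : (Σ w : XX (II M), {π : PP // P w π ∧ CX w x π}) → {π : PP // ∃ v, Geo v π} :=
    fun s => ⟨s.2.1, hP s.1 s.2.1 s.2.2.1⟩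
  have hφ : Function.Injective φ := by
    rintro ⟨w, π, h1, h2⟩ ⟨w', π', h1', h2'⟩ h
    have h3 : π = π' := congrArg (fun x : {π : PP // ∃ v, Geo v π} => x.1) h
    subst h3
    have h4 := cx_unique' h2 h2'
    subst h4
    rfl
  refine (ENNReal.tsum_comp_le_tsum_of_injective hφ fun π : {π : PP // ∃ v, Geo v π} =>
    2 ^ ln π.1 * wt (ENNReal.ofReal y) (ENNReal.ofReal z) π.1).trans ?_
  exact xm_le y z fun π hπ => hπ

private theorem xm_32 (n : ℕ) {a : ℝ} (ha : 0 ≤ a) :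
    ENNReal.ofReal ((3 / 2) ^ n * |a|) ≤ 2 ^ n * ENNReal.ofReal a := by
  rw [abs_of_nonneg ha, ENNReal.ofReal_mul (by positivity), ENNReal.ofReal_pow (by norm_num)]
  refine mul_le_mul' (pow_le_pow_left' ?_ n) le_rfl
  rw [← ENNReal.ofReal_ofNat]
  exact ENNReal.ofReal_le_ofReal (by norm_num)

/-- as `f_sum` -/
private theorem xm_fsum (hy : 0 < y) (hz : 0 < z) (hz1 : z ≤ 1 / 10 ^ 12) (hq : y * z ^ 2 ≤ 1)
    {P : PP → Prop} (hP : ∀ π, P π → ∃ v, Geo v π) (i : II M) :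
    ∑' p : ℕ × ℤ × II M, 2 ^ p.1 * 4 ^ p.2.1.natAbs *
      ENNReal.ofReal (gn y z P (0, i) (p.2.1, p.2.2) p.1) ≤ xmG y z := by
  calc ∑' p : ℕ × ℤ × II M, 2 ^ p.1 * 4 ^ p.2.1.natAbs *
        ENNReal.ofReal (gn y z P (0, i) (p.2.1, p.2.2) p.1)
      = ∑' n : ℕ, ∑' x' : XX (II M), 2 ^ n * 4 ^ x'.1.natAbs *
        ENNReal.ofReal (gn y z P (0, i) x' n) :=
        ENNReal.tsum_prod (f := fun (n : ℕ) (x' : XX (II M)) =>
          2 ^ n * 4 ^ x'.1.natAbs * ENNReal.ofReal (gn y z P (0, i) x' n))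
    _ = ∑' x' : XX (II M), ∑' n : ℕ, 2 ^ n * 4 ^ x'.1.natAbs *
        ENNReal.ofReal (gn y z P (0, i) x' n) := ENNReal.tsum_comm
    _ = ∑' x' : XX (II M), 4 ^ x'.1.natAbs *
        ∑' n : ℕ, 2 ^ n * ENNReal.ofReal (gn y z P (0, i) x' n) := by
        refine tsum_congr fun x' => ?_
        rw [← ENNReal.tsum_mul_left]
        refine tsum_congr fun n => ?_
        ring
    _ = ∑' x' : XX (II M), 4 ^ x'.1.natAbs *
        ∑' π : {π // P π ∧ CX (0, i) x' π},
          2 ^ ln π.1 * wt (ENNReal.ofReal y) (ENNReal.ofReal z) π.1 := by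
        refine tsum_congr fun x' => ?_
        rw [fib hy hz hz1 hq hP (0, i) x' fun n => 2 ^ n]
    _ ≤ ∑' x' : XX (II M), ∑' π : {π // P π ∧ CX (0, i) x' π},
          4 ^ nh π.1 * (2 ^ ln π.1 * wt (ENNReal.ofReal y) (ENNReal.ofReal z) π.1) := by
        refine ENNReal.tsum_le_tsum fun x' => ?_
        rw [← ENNReal.tsum_mul_left]
        refine ENNReal.tsum_le_tsum fun π => ?_
        refine mul_le_mul' (pow_le_pow_right₀ (by norm_num) ?_) le_rfl
        have h1 := xm_dsp (hP _ π.2.1)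
        have h2 : (0 : ℤ) + (dsp π.1).1 = x'.1 := π.2.2.2
        rw [← h2, zero_add]
        exact h1
    _ = ∑' π : {π // P π ∧ ∃ x', CX (0, i) x' π},
          4 ^ nh π.1 * (2 ^ ln π.1 * wt (ENNReal.ofReal y) (ENNReal.ofReal z) π.1) :=
        cx_sum (0, i) P fun π =>
          4 ^ nh π * (2 ^ ln π * wt (ENNReal.ofReal y) (ENNReal.ofReal z) π)
    _ ≤ ∑' π : {π : PP // ∃ v, Geo v π},
          4 ^ nh π.1 * (2 ^ ln π.1 * wt (ENNReal.ofReal y) (ENNReal.ofReal z) π.1) :=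
        ENNReal.tsum_mono_subtype
          (fun π : PP => 4 ^ nh π * (2 ^ ln π * wt (ENNReal.ofReal y) (ENNReal.ofReal z) π))
          (show {π | P π ∧ ∃ x', CX (0, i) x' π} ⊆ {π | ∃ v, Geo v π} from
            fun π hπ => hP _ hπ.1)
    _ ≤ _ := by
        refine ENNReal.tsum_le_tsum fun π => ?_
        have h1 : (4 : ℝ≥0∞) ^ nh π.1 ≤ 576 ^ nh π.1 := pow_le_pow_left' (by norm_num) _
        calc 4 ^ nh π.1 * (2 ^ ln π.1 * wt (ENNReal.ofReal y) (ENNReal.ofReal z) π.1)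
            ≤ 576 ^ nh π.1 * (2 ^ ln π.1 * wt (ENNReal.ofReal y) (ENNReal.ofReal z) π.1) :=
              mul_le_mul' h1 le_rfl
          _ = _ := by ring

/-- as `f_tot` -/
private theorem xm_tot (hy : 0 < y) (hz : 0 < z) (hz1 : z ≤ 1 / 10 ^ 12) (hq : y * z ^ 2 ≤ 1)
    {P : PP → Prop} (hP : ∀ π, P π → ∃ v, Geo v π) (i j : II M) :
    ∑' r : ℤ × ℕ, ENNReal.ofReal (gn y z P (0, i) (r.1, j) r.2) =
      ∑' π : {π : PP // P π ∧ CB i j π}, wt (ENNReal.ofReal y) (ENNReal.ofReal z) π.1 := by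
  let e : (Σ t : ℤ, {π // P π ∧ CX (0, i) (t, j) π}) ≃ {π : PP // P π ∧ CB i j π} :=
    { toFun := fun s => ⟨s.2.1, s.2.2.1, s.2.2.2.1⟩
      invFun := fun π => ⟨(dsp π.1).1, π.1, π.2.1, π.2.2, zero_add _⟩
      left_inv := by
        rintro ⟨t, π, hF, hB, ht⟩
        have h1 : (0 : ℤ) + (dsp π).1 = t := ht
        rw [zero_add] at h1
        subst h1
        rfl
      right_inv := fun π => rfl }
  calc ∑' r : ℤ × ℕ, ENNReal.ofReal (gn y z P (0, i) (r.1, j) r.2)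
      = ∑' t : ℤ, ∑' n : ℕ, ENNReal.ofReal (gn y z P (0, i) (t, j) n) :=
        ENNReal.tsum_prod (f := fun (t : ℤ) (n : ℕ) =>
          ENNReal.ofReal (gn y z P (0, i) (t, j) n))
    _ = ∑' t : ℤ, ∑' π : {π // P π ∧ CX (0, i) (t, j) π},
          wt (ENNReal.ofReal y) (ENNReal.ofReal z) π.1 := by
        refine tsum_congr fun t => ?_
        have h1 := fib hy hz hz1 hq hP (0, i) (t, j) fun _ => 1
        simp only [one_mul] at h1
        exact h1
    _ = ∑' s : Σ t : ℤ, {π // P π ∧ CX (0, i) (t, j) π},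
          wt (ENNReal.ofReal y) (ENNReal.ofReal z) s.2.1 :=
        (ENNReal.tsum_sigma fun (t : ℤ) (π : {π // P π ∧ CX (0, i) (t, j) π}) =>
          wt (ENNReal.ofReal y) (ENNReal.ofReal z) π.1).symm
    _ = _ := e.tsum_eq fun π : {π : PP // P π ∧ CB i j π} =>
          wt (ENNReal.ofReal y) (ENNReal.ofReal z) π.1

open Classical in
/-- the weight of a word -/
private noncomputable def xmW (y z : ℝ) (h : II M → ℝ) (π : PP) : ℝ :=
  wtR y z π * ∑ i, ∑ j, if CB i j π then h i * h j else 0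

private theorem xm_lk (B : PP → Prop) :
    LK y z h B = ∑' π : {π : PP // KnF π ∧ B π}, xmW y z h π.1 := rfl

private theorem xmW_nn (hy : 0 < y) (hz : 0 < z) (hh : ∀ i : II M, 0 < h i) (π : PP) :
    0 ≤ xmW y z h π := by
  unfold xmW
  refine mul_nonneg (wtR_nn hy hz π) (Finset.sum_nonneg fun i _ => Finset.sum_nonneg fun j _ => ?_)
  split_ifs
  · exact (mul_pos (hh i) (hh j)).le
  · exact le_rfl

private theorem xmW_sum (hy : 0 < y) (hz : 0 < z) (hz1 : z ≤ 1 / 10 ^ 12) (hq : y * z ^ 2 ≤ 1)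
    (hh : ∀ i : II M, 0 < h i) (B : PP → Prop) :
    Summable fun π : {π : PP // KnF π ∧ B π} => xmW y z h π.1 := by
  have h0 : 0 ≤ ∑ i, ∑ j, h i * h j :=
    Finset.sum_nonneg fun i _ => Finset.sum_nonneg fun j _ => (mul_pos (hh i) (hh j)).le
  have h1 : ∑' π : {π : PP // KnF π ∧ B π}, ENNReal.ofReal (wtR y z π.1) ≤
      ENNReal.ofReal (xmG y z).toReal := by
    rw [ENNReal.ofReal_toReal (show xmG y z ≠ ⊤ from geo_fin hy hz hz1 hq)]
    refine le_trans (ENNReal.tsum_le_tsum fun π => ?_)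
      (xm_le y z (P := fun π => KnF π ∧ B π) fun π hπ => xm_knF hπ.1)
    rw [← wt_eq hy hz]
    exact le_mul_of_one_le_left' (one_le_pow₀ (by norm_num))
  have h2 := (sum_of (fun π : {π : PP // KnF π ∧ B π} => wtR_nn hy hz π.1)
    ENNReal.toReal_nonneg h1).1
  refine Summable.of_nonneg_of_le (fun π => xmW_nn hy hz hh π.1) (fun π => ?_)
    (h2.mul_right (∑ i, ∑ j, h i * h j))
  unfold xmW
  refine mul_le_mul_of_nonneg_left ?_ (wtR_nn hy hz π.1)
  refine Finset.sum_le_sum fun i _ => Finset.sum_le_sum fun j _ => ?_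
  split_ifs
  · exact le_rfl
  · exact (mul_pos (hh i) (hh j)).le

open Classical in
private theorem xm_one (π : PP) :
    LK y z h (fun ρ => ρ = π) = if KnF π then xmW y z h π else 0 := by
  rw [xm_lk]
  split_ifs with hπ
  · rw [tsum_eq_single (⟨π, hπ, rfl⟩ : {ρ : PP // KnF ρ ∧ ρ = π})]
    exact fun ρ hρ => absurd (Subtype.ext ρ.2.2) hρ
  · have h1 : IsEmpty {ρ : PP // KnF ρ ∧ ρ = π} := ⟨fun ρ => hπ (ρ.2.2 ▸ ρ.2.1)⟩
    exact tsum_empty

theorem nn_kn (hy : 0 < y) (hz : 0 < z) : Nn (kn (M := M) y z A) :=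
  fun _ _ _ => gn_nn hy hz _ _ _ _

/-- Dead states: `Kn.ne`, `Kn.ne'`, `CX.vv_eq`, `al_iff` (the states are dead iff `vv x = 0`). Rows:
`∑_{n, x'} (3/2) ^ n kn n x x' ≤ ∑_π wt 2 ^ ln` over the geometric pairs (`fib`, `cx_sum`, `geo_fin`, `sum_of`), as
`k_sum` in `MSumK.lean`. Columns: the initial state is determined by the final state and the pair (`cx_unique'`),
an analogue of `cx_sum`. -/
theorem ad_kn (hy : 0 < y) (hz : 0 < z) (hz1 : z ≤ 1 / 10 ^ 12) (hq : y * z ^ 2 ≤ 1) :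
    (slbC Tc T M y z h).Ad (kn y z A) := by
  have hfin : xmG y z ≠ ⊤ := geo_fin hy hz hz1 hq
  have hdead : ∀ x : XX (II M), ¬ (slbC Tc T M y z h).Al x → vv x = 0 := by
    intro x hx
    by_contra h2
    exact hx ((al_iff (T := T) (y := y) (z := z) (h := h) x).2 h2)
  refine ⟨fun n x x' hx => ?_, fun n x x' hx => ?_, (xmG y z).toReal, ENNReal.toReal_nonneg,
    fun x => ?_⟩
  · have h4 : IsEmpty {π : PP // (Kn (vv x) π ∧ A (vv x) π) ∧ CX x x' π ∧ ln π = n} :=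
      ⟨fun π => π.2.1.1.ne (hdead x hx)⟩
    change ∑' π : {π : PP // (Kn (vv x) π ∧ A (vv x) π) ∧ CX x x' π ∧ ln π = n},
      wtR y z π.1 = 0
    exact tsum_empty
  · have h4 : IsEmpty {π : PP // (Kn (vv x) π ∧ A (vv x) π) ∧ CX x x' π ∧ ln π = n} :=
      ⟨fun π => π.2.1.1.ne' (by rw [← π.2.2.1.vv_eq]; exact hdead x' hx)⟩
    change ∑' π : {π : PP // (Kn (vv x) π ∧ A (vv x) π) ∧ CX x x' π ∧ ln π = n},
      wtR y z π.1 = 0
    exact tsum_empty
  · have h1 : ∑' p : ℕ × XX (II M), ENNReal.ofReal ((3 / 2) ^ p.1 * |kn y z A p.1 x p.2|) ≤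
        ENNReal.ofReal (xmG y z).toReal := by
      rw [ENNReal.ofReal_toReal hfin]
      refine le_trans (ENNReal.tsum_le_tsum fun p => xm_32 p.1 (nn_kn hy hz _ _ _)) ?_
      exact xm_row hy hz hz1 hq (P := fun π => Kn (vv x) π ∧ A (vv x) π)
        (fun π hπ => ⟨_, hπ.1.1⟩) x
    have h2 : ∑' p : ℕ × XX (II M), ENNReal.ofReal ((3 / 2) ^ p.1 * |kn y z A p.1 p.2 x|) ≤
        ENNReal.ofReal (xmG y z).toReal := by
      rw [ENNReal.ofReal_toReal hfin]
      refine le_trans (ENNReal.tsum_le_tsum fun p => xm_32 p.1 (nn_kn hy hz _ _ _)) ?_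
      exact xm_col hy hz hz1 hq (P := fun w π => Kn (vv w) π ∧ A (vv w) π)
        (fun w π hπ => ⟨_, hπ.1.1⟩) x
    obtain ⟨a1, a2⟩ := sum_of (fun p : ℕ × XX (II M) =>
      mul_nonneg (pow_nonneg (by norm_num) _) (abs_nonneg _)) ENNReal.toReal_nonneg h1
    obtain ⟨b1, b2⟩ := sum_of (fun p : ℕ × XX (II M) =>
      mul_nonneg (pow_nonneg (by norm_num) _) (abs_nonneg _)) ENNReal.toReal_nonneg h2
    exact ⟨a1, a2, b1, b2⟩

/-- `∑_{n, t, i, j} (3/2) ^ n 2 ^ |t| gk ≤ ∑_π wt 2 ^ ln 2 ^ nh` (`M + 1)²` times (the initial state `(0, i)`):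
`|t| ≤ nrm (dsp π) ≤ nh π`; `fib`, `cx_sum`, `geo_fin`. -/
theorem gk_sum (hy : 0 < y) (hz : 0 < z) (hz1 : z ≤ 1 / 10 ^ 12) (hq : y * z ^ 2 ≤ 1) :
    Summable fun p : ℕ × ℤ × II M × II M =>
      (3 / 2) ^ p.1 * 2 ^ p.2.1.natAbs * |gk (M := M) y z B p.1 p.2.1 p.2.2.1 p.2.2.2| := by
  have hfin : xmG y z ≠ ⊤ := geo_fin hy hz hz1 hq
  let e : (II M × (ℕ × ℤ × II M)) ≃ (ℕ × ℤ × II M × II M) :=
    { toFun := fun q => (q.2.1, q.2.2.1, q.1, q.2.2.2)
      invFun := fun p => (p.2.2.1, (p.1, p.2.1, p.2.2.2))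
      left_inv := fun q => rfl
      right_inv := fun p => rfl }
  have hb : ∑' p : ℕ × ℤ × II M × II M, ENNReal.ofReal ((3 / 2) ^ p.1 * 2 ^ p.2.1.natAbs *
      |gk (M := M) y z B p.1 p.2.1 p.2.2.1 p.2.2.2|) ≤ ∑' _ : II M, xmG y z := by
    rw [← e.tsum_eq, ENNReal.tsum_prod']
    refine ENNReal.tsum_le_tsum fun i => ?_
    refine le_trans (ENNReal.tsum_le_tsum fun p => ?_)
      (xm_fsum hy hz hz1 hq (P := fun π => KnF π ∧ B π) (fun π hπ => xm_knF hπ.1) i)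
    change ENNReal.ofReal ((3 / 2) ^ p.1 * 2 ^ p.2.1.natAbs *
      |gn y z (fun π => KnF π ∧ B π) (0, i) (p.2.1, p.2.2) p.1|) ≤ _
    have h1 : (0 : ℝ) ≤ gn y z (fun π => KnF π ∧ B π) (0, i) (p.2.1, p.2.2) p.1 :=
      gn_nn hy hz _ _ _ _
    rw [abs_of_nonneg h1, ENNReal.ofReal_mul (by positivity), ENNReal.ofReal_mul (by positivity),
      ENNReal.ofReal_pow (by norm_num), ENNReal.ofReal_pow (by norm_num)]
    refine mul_le_mul' (mul_le_mul' (pow_le_pow_left' ?_ _) (pow_le_pow_left' ?_ _)) le_rfl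
    · rw [← ENNReal.ofReal_ofNat]
      exact ENNReal.ofReal_le_ofReal (by norm_num)
    · rw [← ENNReal.ofReal_ofNat]
      exact ENNReal.ofReal_le_ofReal (by norm_num)
  have hb' : ∑' _ : II M, xmG y z ≠ ⊤ := by
    rw [tsum_fintype]
    exact ENNReal.sum_ne_top.2 fun _ _ => hfin
  refine (sum_of (fun p => ?_) ENNReal.toReal_nonneg
    (hb.trans_eq (ENNReal.ofReal_toReal hb').symm)).1
  positivity

/-- Exchange of sums: for each `π` and `i`, `j` with `CB i j π` there is exactly one `t` with `CX (0, i) (t, j) π`;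
everything is nonnegative and summable (`geo_fin`). -/
theorem la_gk (hy : 0 < y) (hz : 0 < z) (hz1 : z ≤ 1 / 10 ^ 12) (hq : y * z ^ 2 ≤ 1)
    (hh : ∀ i, 0 < h i) : (slbC Tc T M y z h).la (gk y z B) = LK y z h B := by
  classical
  have hgk : ∀ p : ℕ × ℤ × II M × II M, 0 ≤ gk y z B p.1 p.2.1 p.2.2.1 p.2.2.2 :=
    fun p => gn_nn hy hz _ _ _ _
  have hhh : ∀ i j : II M, 0 ≤ h i * h j := fun i j => (mul_pos (hh i) (hh j)).le
  have e1 : (slbC Tc T M y z h).la (gk y z B) = ∑' p : ℕ × ℤ × II M × II M,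
      gk y z B p.1 p.2.1 p.2.2.1 p.2.2.2 * (h p.2.2.1 * h p.2.2.2) := rfl
  rw [e1, xm_lk, ← xm_real (fun p => mul_nonneg (hgk p) (hhh _ _)),
    ← xm_real (fun π : {π : PP // KnF π ∧ B π} => xmW_nn hy hz hh π.1)]
  congr 1
  let e : ((II M × II M) × (ℤ × ℕ)) ≃ (ℕ × ℤ × II M × II M) :=
    { toFun := fun q => (q.2.2, q.2.1, q.1.1, q.1.2)
      invFun := fun p => ((p.2.2.1, p.2.2.2), (p.2.1, p.1))
      left_inv := fun q => rfl
      right_inv := fun p => rfl }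
  have e2 : ∑' p : ℕ × ℤ × II M × II M, ENNReal.ofReal
      (gk y z B p.1 p.2.1 p.2.2.1 p.2.2.2 * (h p.2.2.1 * h p.2.2.2)) =
      ∑' q : II M × II M, (∑' π : {π : PP // (KnF π ∧ B π) ∧ CB q.1 q.2 π},
        wt (ENNReal.ofReal y) (ENNReal.ofReal z) π.1) * ENNReal.ofReal (h q.1 * h q.2) := by
    rw [← e.tsum_eq, ENNReal.tsum_prod']
    refine tsum_congr fun q => ?_
    rw [← xm_tot hy hz hz1 hq (P := fun π => KnF π ∧ B π) (fun π hπ => xm_knF hπ.1) q.1 q.2,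
      ← ENNReal.tsum_mul_right]
    refine tsum_congr fun r => ?_
    rw [← ENNReal.ofReal_mul (gn_nn hy hz _ _ _ _)]
    rfl
  have e3 : ∀ π : PP, ENNReal.ofReal (xmW y z h π) = ∑' q : II M × II M,
      (if CB q.1 q.2 π then wt (ENNReal.ofReal y) (ENNReal.ofReal z) π else 0) *
        ENNReal.ofReal (h q.1 * h q.2) := by
    intro π
    unfold xmW
    rw [ENNReal.ofReal_mul (wtR_nn hy hz π), ← wt_eq hy hz, ← Finset.sum_product',
      ENNReal.ofReal_sum_of_nonneg, Finset.mul_sum, tsum_fintype]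
    · refine Finset.sum_congr rfl fun q _ => ?_
      split_ifs
      · rfl
      · rw [ENNReal.ofReal_zero, mul_zero, zero_mul]
    · intro q _
      split_ifs
      · exact hhh _ _
      · exact le_rfl
  rw [e2]
  simp only [e3]
  rw [ENNReal.tsum_comm]
  refine tsum_congr fun q => ?_
  rw [ENNReal.tsum_mul_right]
  congr 1
  have e4 := tsum_subtype {π : PP | (KnF π ∧ B π) ∧ CB q.1 q.2 π}
    (fun π => wt (ENNReal.ofReal y) (ENNReal.ofReal z) π)
  have e5 := tsum_subtype {π : PP | KnF π ∧ B π}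
    (fun π => if CB q.1 q.2 π then wt (ENNReal.ofReal y) (ENNReal.ofReal z) π else 0)
  refine e4.trans (Eq.trans (tsum_congr fun π => ?_) e5.symm)
  by_cases h1 : KnF π ∧ B π
  · by_cases h2 : CB q.1 q.2 π
    · rw [Set.indicator_of_mem (show π ∈ {π : PP | (KnF π ∧ B π) ∧ CB q.1 q.2 π} from ⟨h1, h2⟩),
        Set.indicator_of_mem (show π ∈ {π : PP | KnF π ∧ B π} from h1), if_pos h2]
    · rw [Set.indicator_of_notMem
        (show π ∉ {π : PP | (KnF π ∧ B π) ∧ CB q.1 q.2 π} from fun h3 => h2 h3.2),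
        Set.indicator_of_mem (show π ∈ {π : PP | KnF π ∧ B π} from h1), if_neg h2]
  · rw [Set.indicator_of_notMem
      (show π ∉ {π : PP | (KnF π ∧ B π) ∧ CB q.1 q.2 π} from fun h3 => h1 h3.1),
      Set.indicator_of_notMem (show π ∉ {π : PP | KnF π ∧ B π} from h1)]

/-- `LK` is nonnegative and additive over the words. -/
theorem lk_sum (hy : 0 < y) (hz : 0 < z) (hz1 : z ≤ 1 / 10 ^ 12) (hq : y * z ^ 2 ≤ 1)
    (hh : ∀ i : II M, 0 < h i) (B : PP → Prop) : 0 ≤ LK y z h B ∧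
    (Summable fun π : {π : PP // B π} => LK y z h (fun ρ => ρ = π.1)) ∧
    ∑' π : {π : PP // B π}, LK y z h (fun ρ => ρ = π.1) = LK y z h B := by
  classical
  have h1 := xmW_sum (M := M) hy hz hz1 hq hh B
  have h2 : ({π : PP | B π}.indicator fun π => if KnF π then xmW y z h π else 0) =
      {π : PP | KnF π ∧ B π}.indicator fun π => xmW y z h π := by
    funext π
    by_cases h3 : B π
    · rw [Set.indicator_of_mem (show π ∈ {π : PP | B π} from h3)]
      by_cases h4 : KnF π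
      · rw [Set.indicator_of_mem (show π ∈ {π : PP | KnF π ∧ B π} from ⟨h4, h3⟩), if_pos h4]
      · rw [Set.indicator_of_notMem (show π ∉ {π : PP | KnF π ∧ B π} from fun h5 => h4 h5.1),
          if_neg h4]
    · rw [Set.indicator_of_notMem (show π ∉ {π : PP | B π} from h3),
        Set.indicator_of_notMem (show π ∉ {π : PP | KnF π ∧ B π} from fun h5 => h3 h5.2)]
  refine ⟨?_, ?_, ?_⟩
  · rw [xm_lk]
    exact tsum_nonneg fun π => xmW_nn hy hz hh π.1
  · simp only [xm_one]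
    have h3 : Summable ({π : PP | B π}.indicator fun π => if KnF π then xmW y z h π else 0) := by
      rw [h2]
      exact summable_subtype_iff_indicator.1 h1
    exact summable_subtype_iff_indicator.2 h3
  · simp only [xm_one]
    rw [xm_lk]
    have e4 := tsum_subtype {π : PP | B π} (fun π => if KnF π then xmW y z h π else 0)
    have e5 := tsum_subtype {π : PP | KnF π ∧ B π} (fun π => xmW y z h π)
    rw [h2] at e4
    exact e4.trans e5.symm

/-- The words that are realised in the slab have positive weight. -/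
theorem lk_pos (hy : 0 < y) (hz : 0 < z) (hz1 : z ≤ 1 / 10 ^ 12) (hq : y * z ^ 2 ≤ 1)
    (hh : ∀ i : II M, 0 < h i) {π : PP} (hπ : KnF π) {i j : II M} (hij : CB i j π) :
    0 < LK y z h (fun ρ => ρ = π) := by
  classical
  rw [xm_one, if_pos hπ]
  unfold xmW
  refine mul_pos ?_ ?_
  · unfold wtR
    positivity
  · have hnn : ∀ a b : II M, 0 ≤ if CB a b π then h a * h b else 0 := by
      intro a b
      split_ifs
      · exact (mul_pos (hh a) (hh b)).le
      · exact le_rfl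
    have h1 : (if CB i j π then h i * h j else 0) ≤ ∑ b, if CB i b π then h i * h b else 0 :=
      Finset.single_le_sum (f := fun b => if CB i b π then h i * h b else 0)
        (fun b _ => hnn i b) (Finset.mem_univ j)
    have h2 : (∑ b, if CB i b π then h i * h b else 0) ≤
        ∑ a, ∑ b, if CB a b π then h a * h b else 0 :=
      Finset.single_le_sum (f := fun a => ∑ b, if CB a b π then h a * h b else 0)
        (fun a _ => Finset.sum_nonneg fun b _ => hnn a b) (Finset.mem_univ i)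
    rw [if_pos hij] at h1
    exact (mul_pos (hh i) (hh j)).trans_le (h1.trans h2)

end Pool.Agent.KSlab
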