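import Pool.Agent.KSlab.YSplit
import Pool.Agent.KSlab.XMain
import Pool.Agent.KSlab.XMk

/-! SY4: the limit for a type with at most `N` prime factors. -/

set_option autoImplicit false

open Pool.Agent.LK Filter Topology
open scoped ENNReal

namespace Pool.Agent.KSlab

open Pool.Agent.KTube Pool.Agent.KRing Pool.Agent.KLog Pool.Agent.KCls
open Pool.Agent.KAsym (ln wtR wlR)
open Pool.Agent.KTop (GC ed TypeN)
open Pool.Agent.KComp (HA CA Kn UH mkA lenA WA pol)

variable {M : ℕ} {y z : ℝ} {h : II M → ℝ} {T : Finset (Sym2 P3) → Prop} {N : ℕ}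

/-- A list of words of far knotted blocks that are realised in the slab. -/
def RealW (M : ℕ) (w : List PP) : Prop := ∀ π ∈ w, KnF π ∧ ∃ i j : II M, CB i j π

/-- `FarEq` for `farM π`, `nearM`, `longM j`, `anyM` with `fun ρ => ρ = π`, `False`, `j < ln`, `True`. -/
theorem farEq_all (π : PP) (j : ℕ) : FarEq (farM π) (fun ρ => ρ = π) ∧
    FarEq nearM (fun _ => False) ∧ FarEq (longM j) (fun ρ => j < ln ρ) ∧
    FarEq anyM (fun _ => True) := by
  refine ⟨fun v ρ h1 _ => ⟨fun h2 => h2.1, fun h2 => ⟨h2, h1⟩⟩,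
    fun v ρ h1 _ => ⟨fun h2 => ?_, fun h2 => h2.elim⟩, fun v ρ _ _ => Iff.rfl,
    fun v ρ _ _ => Iff.rfl⟩
  have h3 : nrm v ≤ nh ρ := h2
  omega

/-- `LK (j < ln) → 0`: the tail of the convergent series `lk_sum` (or of the series defining `LK`). -/
theorem lk_tail (hC : CritS Unknotted y z h) :
    Tendsto (fun j : ℕ => LK y z h (fun ρ => j < ln ρ)) atTop (𝓝 0) := by
  have hS := fun B : PP → Prop => lk_sum hC.y_pos hC.z_pos hC.z_le hC.q_le hC.h_pos B
  have h0 : Summable fun π : PP => LK y z h (fun ρ => ρ = π) :=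
    (Equiv.subtypeUnivEquiv (p := fun _ : PP => True) fun _ => trivial).summable_iff.1
      (hS fun _ => True).2.1
  have e1 : ∀ j : ℕ, LK y z h (fun ρ => j < ln ρ) =
      ∑' π : PP, Set.indicator {π : PP | j < ln π} (fun π => LK y z h (fun ρ => ρ = π)) π := by
    intro j
    rw [← (hS fun ρ => j < ln ρ).2.2]
    exact tsum_subtype {π : PP | j < ln π} (fun π => LK y z h (fun ρ => ρ = π))
  have h2 := tendsto_tsum_of_dominated_convergence (𝓕 := atTop)
    (f := fun (j : ℕ) (π : PP) =>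
      Set.indicator {π : PP | j < ln π} (fun π => LK y z h (fun ρ => ρ = π)) π)
    (g := fun _ => (0 : ℝ)) (bound := fun π => LK y z h (fun ρ => ρ = π)) h0 ?_ ?_
  · simp only [e1]
    simpa using h2
  · intro π
    refine tendsto_const_nhds.congr' ?_
    filter_upwards [eventually_ge_atTop (ln π)] with j hj
    rw [Set.indicator_of_notMem]
    exact fun h3 => absurd (show j < ln π from h3) (not_lt.2 hj)
  · refine Eventually.of_forall fun j π => ?_
    have h3 : 0 ≤ LK y z h (fun ρ => ρ = π) := (hS fun ρ => ρ = π).1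
    by_cases h4 : π ∈ {π : PP | j < ln π}
    · rw [Set.indicator_of_mem h4, Real.norm_of_nonneg h3]
    · rw [Set.indicator_of_notMem h4, norm_zero]
      exact h3

private theorem yl_s_top : Tendsto (fun k : ℕ => ((2 * k : ℕ) : ℝ)) atTop atTop :=
  tendsto_natCast_atTop_atTop.comp (tendsto_id.const_mul_atTop' (by norm_num))

private theorem yl_zero {f : ℕ → ℝ} {q N : ℕ} (hq : q < N) {c : ℝ}
    (hf : Tendsto (fun k => f k * ((2 * k : ℕ) : ℝ) ^ (3 / 2 - q : ℝ)) atTop (𝓝 c)) :
    Tendsto (fun k => f k * ((2 * k : ℕ) : ℝ) ^ (3 / 2 - N : ℝ)) atTop (𝓝 0) := by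
  have hqN : (0 : ℝ) < N - q := by
    have : (q : ℝ) < N := by exact_mod_cast hq
    linarith
  have h1 : Tendsto (fun k : ℕ => ((2 * k : ℕ) : ℝ) ^ (-(N - q : ℝ))) atTop (𝓝 0) :=
    (tendsto_rpow_neg_atTop hqN).comp yl_s_top
  have h2 := hf.mul h1
  rw [mul_zero] at h2
  refine h2.congr' ?_
  filter_upwards [eventually_ge_atTop 1] with k hk
  have hs : (0 : ℝ) < ((2 * k : ℕ) : ℝ) := by
    have : 0 < 2 * k := by omega
    exact_mod_cast this
  rw [mul_assoc, ← Real.rpow_add hs]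
  congr 2
  ring

private theorem yl_cauchy {a : ℕ → ℝ} {b c : ℕ → ℝ} {lo up : ℕ → ℕ → ℝ}
    (hlo : ∀ j, ∀ᶠ k in atTop, lo j k ≤ a k) (hup : ∀ j, ∀ᶠ k in atTop, a k ≤ up j k)
    (hl : ∀ j, Tendsto (lo j) atTop (𝓝 (b j))) (hu : ∀ j, Tendsto (up j) atTop (𝓝 (b j + c j)))
    (hc : Tendsto c atTop (𝓝 0)) : ∃ B, Tendsto a atTop (𝓝 B) ∧ ∀ j, b j ≤ B := by
  have h1 : CauchySeq a := by
    rw [Metric.cauchySeq_iff]
    intro ε hε
    obtain ⟨j, hj⟩ := (hc.eventually (gt_mem_nhds (show (0 : ℝ) < ε / 4 by positivity))).exists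
    have h2 := (hl j).eventually (lt_mem_nhds (show b j - ε / 4 < b j by linarith))
    have h3 := (hu j).eventually (gt_mem_nhds (show b j + c j < b j + c j + ε / 4 by linarith))
    obtain ⟨K, hK⟩ := eventually_atTop.1 (h2.and (h3.and ((hlo j).and (hup j))))
    refine ⟨K, fun m hm n hn => ?_⟩
    obtain ⟨m1, m2, m3, m4⟩ := hK m hm
    obtain ⟨n1, n2, n3, n4⟩ := hK n hn
    rw [Real.dist_eq, abs_lt]
    constructor <;> linarith
  obtain ⟨B, hB⟩ := cauchySeq_tendsto_of_complete h1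
  exact ⟨B, hB, fun j => le_of_tendsto_of_tendsto (hl j) hB (hlo j)⟩

/-- Write `a k = (SAS (T (pol (toA p))) (2k)).toReal * (2k) ^ (3/2 - N)`. Theorem W (`chains`) for `Tc = Unknotted` (constants
`A`, `ν`) and `Tc = True` (`cls_unknotted`, `cls_all`) gives the limits of all terms of `sas_upper` and `sas_lower`
(`farEq_all`; all terms are finite by `sas_fin`, the sums over `WS` are finite by `ws_finite`): the first sum has the limit
`b j = ∑_{w ∈ WS} A / N! ∏ ν LK (= π)`; the terms of the second sum are `O(n ^ (q - 3/2))`, so they contribute `0`; the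
terms of the third sum have the limit `0` (`LK False = 0`), the last sum has the limit
`c j = N A / N! (ν LK True) ^ (N - 1) ν LK (j < ln)`, and `c j → 0` (`lk_tail`). `b j` is monotone and bounded (it is at most the
limit for `anyM`, by `sas_lower` for the class of everything, or by `lk_sum`). So `a k` converges to `B = sup b j`: for
every `ε` eventually `b j - ε ≤ a k ≤ b j + c j + ε`. If there is a realised list `w ∈ WT` then `B ≥ b j > 0` for `j` large
(`lk_pos`). -/
theorem type_sas (hC : CritS Unknotted y z h) (hT : TypeClosed T)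
    (hF : ∀ E, T E → KTen.Few N E) : ∃ B : ℝ, 0 ≤ B ∧
    (∀ n, SAS M y z (fun p => T (pol (toA p))) n ≠ ⊤) ∧
    Tendsto (fun k : ℕ => (SAS M y z (fun p => T (pol (toA p))) (2 * k)).toReal *
      ((2 * k : ℕ) : ℝ) ^ (3 / 2 - N : ℝ)) atTop (𝓝 B) ∧
    ((∃ w ∈ WT T N, RealW M w) → 0 < B) := by
  classical
  obtain ⟨A, ν, hA, hν, hch⟩ := chains hC cls_unknotted
  obtain ⟨A', ν', -, -, hch'⟩ := chains hC cls_all
  have fin1 : ∀ L n, SQ M y z Unknotted L n ≠ ⊤ := sas_fin hC cls_unknotted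
  have fin2 : ∀ L n, SQ M y z (fun _ => True) L n ≠ ⊤ := sas_fin hC cls_all
  have hW : ∀ j, Fintype (WS T N j) := fun j => (ws_finite T N j).fintype
  have hupp := fun j n => sas_upper (M := M) (y := y) (z := z) hT hF j n
  have hlow := fun j n => sas_lower (M := M) (y := y) (z := z) (N := N) hT j n
  have hS := fun B : PP → Prop => lk_sum hC.y_pos hC.z_pos hC.z_le hC.q_le hC.h_pos B
  -- the terms
  have t1 : ∀ w : List PP, w.length = N → Tendsto (fun k : ℕ =>
      (SQ M y z Unknotted (w.map farM) (2 * k)).toReal * ((2 * k : ℕ) : ℝ) ^ (3 / 2 - N : ℝ))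
      atTop (𝓝 (A / N.factorial * (w.map fun π => ν * LK y z h (fun ρ => ρ = π)).prod)) := by
    intro w hw
    have h1 := hch (w.map fun π => (farM π, fun ρ => ρ = π)) (by
      intro q hq
      obtain ⟨π, -, rfl⟩ := List.mem_map.1 hq
      exact (farEq_all π 0).1)
    rw [List.map_map, List.map_map, List.length_map, hw] at h1
    exact h1
  have t2 : ∀ q < N, Tendsto (fun k : ℕ =>
      (SQ M y z (fun _ => True) (List.replicate q anyM) (2 * k)).toReal *
        ((2 * k : ℕ) : ℝ) ^ (3 / 2 - N : ℝ)) atTop (𝓝 0) := by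
    intro q hq
    have h1 := hch' (List.replicate q (anyM, fun _ => True)) (by
      intro p hp
      rw [List.eq_of_mem_replicate hp]
      exact (farEq_all ([], []) 0).2.2.2)
    rw [List.map_replicate, List.length_replicate] at h1
    exact yl_zero hq h1
  have t3 : ∀ i < N, ∀ (P : ℤ × ℤ → PP → Prop) (P' : PP → Prop), FarEq P P' →
      Tendsto (fun k : ℕ => (SQ M y z Unknotted (atM N i P) (2 * k)).toReal *
        ((2 * k : ℕ) : ℝ) ^ (3 / 2 - N : ℝ)) atTop
        (𝓝 (A / N.factorial * ((ν * LK y z h (fun _ => True)) ^ i * (ν * LK y z h P' *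
          (ν * LK y z h (fun _ => True)) ^ (N - 1 - i))))) := by
    intro i hi P P' hP
    have h1 := hch (List.replicate i (anyM, fun _ => True) ++ (P, P') ::
      List.replicate (N - 1 - i) (anyM, fun _ => True)) (by
      intro p hp
      rw [List.mem_append, List.mem_cons] at hp
      rcases hp with hp | hp | hp
      · rw [List.eq_of_mem_replicate hp]
        exact (farEq_all ([], []) 0).2.2.2
      · rw [hp]
        exact hP
      · rw [List.eq_of_mem_replicate hp]
        exact (farEq_all ([], []) 0).2.2.2)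
    have e1 : i + (N - 1 - i + 1) = N := by omega
    rw [List.map_append, List.map_cons, List.map_replicate, List.map_replicate, List.length_append,
      List.length_cons, List.length_replicate, List.length_replicate, e1, List.map_append,
      List.map_cons, List.map_replicate, List.map_replicate, List.prod_append, List.prod_cons,
      List.prod_replicate, List.prod_replicate] at h1
    exact h1
  have hLF : LK y z h (fun _ => False) = 0 := by
    rw [← (hS fun _ => False).2.2]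
    exact tsum_empty
  -- the real sums
  let u : ℕ → ℕ → ℝ := fun j n => ∑ w : WS T N j, (SQ M y z Unknotted (w.1.map farM) n).toReal
  let v : ℕ → ℝ := fun n => ∑ q ∈ Finset.range N,
    (SQ M y z (fun _ => True) (List.replicate q anyM) n).toReal
  let w' : ℕ → ℝ := fun n => ∑ i ∈ Finset.range N, (SQ M y z Unknotted (atM N i nearM) n).toReal
  let z' : ℕ → ℕ → ℝ := fun j n => ∑ i ∈ Finset.range N,
    (SQ M y z Unknotted (atM N i (longM j)) n).toReal
  let b : ℕ → ℝ := fun j => ∑ w : WS T N j,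
    A / N.factorial * (w.1.map fun π => ν * LK y z h (fun ρ => ρ = π)).prod
  let c : ℕ → ℝ := fun j => ∑ i ∈ Finset.range N,
    A / N.factorial * ((ν * LK y z h (fun _ => True)) ^ i * (ν * LK y z h (fun ρ => j < ln ρ) *
      (ν * LK y z h (fun _ => True)) ^ (N - 1 - i)))
  have hU : ∀ j n, (∑' w : WS T N j, SQ M y z Unknotted (w.1.map farM) n) ≠ ⊤ := by
    intro j n
    rw [tsum_fintype]
    exact ENNReal.sum_ne_top.2 fun _ _ => fin1 _ _
  have hU' : ∀ j n, (∑' w : WS T N j, SQ M y z Unknotted (w.1.map farM) n).toReal = u j n := by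
    intro j n
    rw [tsum_fintype, ENNReal.toReal_sum fun _ _ => fin1 _ _]
  have hV : ∀ n, (∑ q ∈ Finset.range N,
      SQ M y z (fun _ => True) (List.replicate q anyM) n) ≠ ⊤ := fun n =>
    ENNReal.sum_ne_top.2 fun _ _ => fin2 _ _
  have hW' : ∀ (P : ℤ × ℤ → PP → Prop) n,
      (∑ i ∈ Finset.range N, SQ M y z Unknotted (atM N i P) n) ≠ ⊤ := fun P n =>
    ENNReal.sum_ne_top.2 fun _ _ => fin1 _ _
  have hfin : ∀ n, SAS M y z (fun p => T (pol (toA p))) n ≠ ⊤ := by
    intro n
    refine ne_top_of_le_ne_top ?_ (hupp 0 n)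
    exact ENNReal.add_ne_top.2 ⟨ENNReal.add_ne_top.2 ⟨ENNReal.add_ne_top.2 ⟨hU _ _, hV _⟩,
      hW' _ _⟩, hW' _ _⟩
  have hup : ∀ j n, (SAS M y z (fun p => T (pol (toA p))) n).toReal ≤
      u j n + v n + w' n + z' j n := by
    intro j n
    have h1 := ENNReal.toReal_mono (ENNReal.add_ne_top.2 ⟨ENNReal.add_ne_top.2
      ⟨ENNReal.add_ne_top.2 ⟨hU j n, hV n⟩, hW' nearM n⟩, hW' (longM j) n⟩) (hupp j n)
    rw [ENNReal.toReal_add (ENNReal.add_ne_top.2 ⟨ENNReal.add_ne_top.2 ⟨hU j n, hV n⟩,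
      hW' nearM n⟩) (hW' (longM j) n), ENNReal.toReal_add (ENNReal.add_ne_top.2 ⟨hU j n, hV n⟩)
      (hW' nearM n), ENNReal.toReal_add (hU j n) (hV n), hU', ENNReal.toReal_sum fun _ _ => fin2 _ _,
      ENNReal.toReal_sum fun _ _ => fin1 _ _, ENNReal.toReal_sum fun _ _ => fin1 _ _] at h1
    exact h1
  have hlo : ∀ j n, u j n ≤ (SAS M y z (fun p => T (pol (toA p))) n).toReal := by
    intro j n
    rw [← hU']
    exact ENNReal.toReal_mono (hfin n) (hlow j n)
  have hs : ∀ k : ℕ, (0 : ℝ) ≤ ((2 * k : ℕ) : ℝ) ^ (3 / 2 - N : ℝ) := fun k =>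
    Real.rpow_nonneg (Nat.cast_nonneg _) _
  have lu : ∀ j, Tendsto (fun k : ℕ => u j (2 * k) * ((2 * k : ℕ) : ℝ) ^ (3 / 2 - N : ℝ)) atTop
      (𝓝 (b j)) := by
    intro j
    have h1 := tendsto_finsetSum (Finset.univ : Finset (WS T N j)) fun w _ => t1 w.1 w.2.1.1
    refine h1.congr fun k => ?_
    rw [← Finset.sum_mul]
  have lv : Tendsto (fun k : ℕ => v (2 * k) * ((2 * k : ℕ) : ℝ) ^ (3 / 2 - N : ℝ)) atTop
      (𝓝 0) := by
    have h1 := tendsto_finsetSum (Finset.range N) fun q hq => t2 q (Finset.mem_range.1 hq)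
    rw [Finset.sum_const_zero] at h1
    refine h1.congr fun k => ?_
    rw [← Finset.sum_mul]
  have lw : Tendsto (fun k : ℕ => w' (2 * k) * ((2 * k : ℕ) : ℝ) ^ (3 / 2 - N : ℝ)) atTop
      (𝓝 0) := by
    have h1 := tendsto_finsetSum (Finset.range N) fun i hi =>
      t3 i (Finset.mem_range.1 hi) nearM _ (farEq_all ([], []) 0).2.1
    simp only [hLF, mul_zero, zero_mul, Finset.sum_const_zero] at h1
    refine h1.congr fun k => ?_
    rw [← Finset.sum_mul]
  have lz : ∀ j, Tendsto (fun k : ℕ => z' j (2 * k) * ((2 * k : ℕ) : ℝ) ^ (3 / 2 - N : ℝ)) atTop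
      (𝓝 (c j)) := by
    intro j
    have h1 := tendsto_finsetSum (Finset.range N) fun i hi =>
      t3 i (Finset.mem_range.1 hi) (longM j) _ (farEq_all ([], []) j).2.2.1
    refine h1.congr fun k => ?_
    rw [← Finset.sum_mul]
  have hc0 : Tendsto c atTop (𝓝 0) := by
    have h0 := lk_tail hC
    have h1 := tendsto_finsetSum (Finset.range N) fun i (_ : i ∈ Finset.range N) =>
      (((h0.const_mul ν).mul_const ((ν * LK y z h (fun _ => True)) ^ (N - 1 - i))).const_mul
        ((ν * LK y z h (fun _ => True)) ^ i)).const_mul (A / N.factorial)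
    simp only [mul_zero, zero_mul, Finset.sum_const_zero] at h1
    exact h1
  obtain ⟨B, hB, hBb⟩ := yl_cauchy
    (a := fun k : ℕ => (SAS M y z (fun p => T (pol (toA p))) (2 * k)).toReal *
      ((2 * k : ℕ) : ℝ) ^ (3 / 2 - N : ℝ)) (b := b) (c := c)
    (lo := fun j k => u j (2 * k) * ((2 * k : ℕ) : ℝ) ^ (3 / 2 - N : ℝ))
    (up := fun j k => u j (2 * k) * ((2 * k : ℕ) : ℝ) ^ (3 / 2 - N : ℝ) +
      v (2 * k) * ((2 * k : ℕ) : ℝ) ^ (3 / 2 - N : ℝ) +
      w' (2 * k) * ((2 * k : ℕ) : ℝ) ^ (3 / 2 - N : ℝ) +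
      z' j (2 * k) * ((2 * k : ℕ) : ℝ) ^ (3 / 2 - N : ℝ))
    (fun j => Eventually.of_forall fun k => mul_le_mul_of_nonneg_right (hlo j (2 * k)) (hs k))
    (fun j => Eventually.of_forall fun k => by
      have h1 := mul_le_mul_of_nonneg_right (hup j (2 * k)) (hs k)
      refine h1.trans (le_of_eq ?_)
      ring)
    lu (fun j => by
      have h1 := (((lu j).add lv).add lw).add (lz j)
      rw [add_zero, add_zero] at h1
      exact h1) hc0
  refine ⟨B, ?_, hfin, hB, ?_⟩
  · exact ge_of_tendsto' hB fun k => mul_nonneg ENNReal.toReal_nonneg (hs k)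
  · rintro ⟨w, hw, hr⟩
    obtain ⟨j, hj⟩ : ∃ j, ∀ π ∈ w, ln π ≤ j := by
      refine ⟨(w.map ln).sum, fun π hπ => ?_⟩
      exact List.single_le_sum (by simp) _ (List.mem_map_of_mem hπ)
    refine lt_of_lt_of_le ?_ (hBb j)
    have hfac : (0 : ℝ) < A / N.factorial := div_pos hA (by exact_mod_cast Nat.factorial_pos N)
    refine lt_of_lt_of_le ?_ (Finset.single_le_sum (f := fun w : WS T N j =>
      A / N.factorial * (w.1.map fun π => ν * LK y z h (fun ρ => ρ = π)).prod)
      (fun w' _ => ?_) (Finset.mem_univ (⟨w, hw, hj⟩ : WS T N j)))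
    · refine mul_pos hfac (List.prod_pos fun x hx => ?_)
      obtain ⟨π, hπ, rfl⟩ := List.mem_map.1 hx
      obtain ⟨h1, i, i', h2⟩ := hr π hπ
      exact mul_pos hν (lk_pos hC.y_pos hC.z_pos hC.z_le hC.q_le hC.h_pos h1 h2)
    · refine mul_nonneg hfac.le (List.prod_nonneg fun x hx => ?_)
      obtain ⟨π, hπ, rfl⟩ := List.mem_map.1 hx
      exact mul_nonneg hν.le (hS fun ρ => ρ = π).1

end Pool.Agent.KSlab
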