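import Pool.Agent.KSlab.MGlu
import Pool.Agent.KCls.Sums

/-! SM17: the partition functions as sums over polygons. -/

set_option autoImplicit false

open Pool.Agent.LK
open scoped ENNReal

namespace Pool.Agent.KSlab

open Pool.Agent.KTube Pool.Agent.KRing Pool.Agent.KLog Pool.Agent.KCls
open Pool.Agent.KAsym (ln wtR wlR)

variable {T : Finset (Sym2 P3) → Prop} {M : ℕ} {y z : ℝ}

/-- The normed translate of a polygon in the slab. -/
private theorem psl_norm {E : Finset (Sym2 P3)} (hE : E ∈ PSl T M) :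
    ∃ b : ℕ, b ≤ M ∧ Normed (shift (0, -(b : ℤ), 0) E) := by
  obtain ⟨hp, -, h1, ⟨u1, hu1, hu1'⟩, ⟨u2, hu2, hu2'⟩⟩ := hE
  obtain ⟨v, hv, hmin⟩ := Set.exists_min_image (verts E) (fun u : P3 => u.2.1) (verts_finite E)
    hp.verts_nonempty
  have hv0 := (h1 v hv).2.1
  have hvM := (h1 v hv).2.2.1
  have hb : ((v.2.1.toNat : ℕ) : ℤ) = v.2.1 := Int.toNat_of_nonneg hv0
  have hadd : ∀ u ∈ verts E, u + (0, -((v.2.1.toNat : ℕ) : ℤ), 0) ∈
      verts (shift (0, -((v.2.1.toNat : ℕ) : ℤ), 0) E) := by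
    intro u hu
    rw [mem_verts_shift, add_sub_cancel_right]
    exact hu
  refine ⟨v.2.1.toNat, by omega, ?_, ?_, ?_, ?_⟩
  · intro u hu
    rw [mem_verts_shift] at hu
    have h2 := h1 _ hu
    have h3 := hmin _ hu
    simp only [Prod.fst_sub, Prod.snd_sub] at h2 h3
    omega
  · exact ⟨_, hadd u1 hu1, by simp [hu1']⟩
  · refine ⟨_, hadd v hv, ?_⟩
    simp only [Prod.snd_add, Prod.fst_add]
    omega
  · exact ⟨_, hadd u2 hu2, by simp [hu2']⟩

private theorem cross_sh (b k : ℤ) (E : Finset (Sym2 P3)) :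
    cross (shift (0, b, 0) E) k = (fun c : ℤ × ℤ => (c.1, c.2 + b)) '' cross E k := by
  ext ⟨c1, c2⟩
  constructor
  · intro h
    have h1 : s(((c1, c2, k) : P3), (c1, c2, k + 1)) ∈ shift (0, b, 0) E := h
    rw [mem_shift] at h1
    have e1 : ((c1, c2, k) : P3) - (0, b, 0) = (c1, c2 - b, k) := by
      ext <;> simp
    have e2 : ((c1, c2, k + 1) : P3) - (0, b, 0) = (c1, c2 - b, k + 1) := by
      ext <;> simp
    rw [e1, e2] at h1
    exact ⟨(c1, c2 - b), h1, by simp⟩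
  · rintro ⟨⟨d1, d2⟩, h, h2⟩
    have h3 : s(((d1, d2, k) : P3), (d1, d2, k + 1)) ∈ E := h
    simp only [Prod.mk.injEq] at h2
    obtain ⟨rfl, rfl⟩ := h2
    show s(((d1, d2 + b, k) : P3), (d1, d2 + b, k + 1)) ∈ shift (0, b, 0) E
    rw [mem_shift]
    have e1 : ((d1, d2 + b, k) : P3) - (0, b, 0) = (d1, d2, k) := by
      ext <;> simp
    have e2 : ((d1, d2 + b, k + 1) : P3) - (0, b, 0) = (d1, d2, k + 1) := by
      ext <;> simp
    rw [e1, e2]
    exact h3

private theorem span_sh (b : ℤ) (E : Finset (Sym2 P3)) : span (shift (0, b, 0) E) = span E := by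
  unfold span
  congr 1
  ext k
  show (cross (shift (0, b, 0) E) k).Nonempty ↔ (cross E k).Nonempty
  rw [cross_sh, Set.image_nonempty]

private theorem isTwo_sh (b k : ℤ) (E : Finset (Sym2 P3)) :
    IsTwo (shift (0, b, 0) E) k ↔ IsTwo E k := by
  unfold IsTwo
  rw [cross_sh, Set.ncard_image_of_injective]
  rintro ⟨a1, a2⟩ ⟨b1, b2⟩ h
  simp only [Prod.mk.injEq] at h
  obtain ⟨h1, h2⟩ := h
  rw [Prod.mk.injEq]
  exact ⟨h1, by omega⟩

private theorem sh_back (b : ℤ) (E : Finset (Sym2 P3)) :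
    shift (0, b, 0) (shift (0, -b, 0) E) = E := by
  rw [shift_shift]
  have e : ((0, b, 0) : P3) + (0, -b, 0) = 0 := by
    ext <;> simp
  rw [e, shift_zero]

/-- There are finitely many polygons with `n` edges (compare `KCls/Sums.lean`, `NSet`). -/
theorem psl_finite (T : Finset (Sym2 P3) → Prop) (M n : ℕ) :
    {E | E ∈ PSl T M ∧ E.card = n}.Finite := by
  have h1 : (⋃ b ∈ Finset.range (M + 1), (fun E => shift (0, ((b : ℕ) : ℤ), 0) E) ''
      KTen.NSet (fun _ => True) n).Finite := by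
    refine Set.Finite.biUnion (Finset.finite_toSet _) fun b _ => ?_
    exact (KTen.nset_finite _ n).image _
  refine h1.subset ?_
  rintro E ⟨hE, hn⟩
  obtain ⟨b, hb, hN⟩ := psl_norm hE
  rw [Set.mem_iUnion₂]
  refine ⟨b, Finset.mem_range.2 (by omega), shift (0, -(b : ℤ), 0) E, ?_, sh_back _ _⟩
  exact ⟨isPolygon_shift hE.1 _, trivial, hN, by rw [card_shift, hn]⟩

private theorem gen_aux (hy : 0 ≤ y) (hz : 0 ≤ z) (g : ℕ → ℝ≥0∞)
    (P : Finset (Sym2 P3) → Prop) (hP : ∀ n, {E | P E ∧ E.card = n}.Finite) :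
    ∑' n : ℕ, g n * ENNReal.ofReal ((∑ᶠ E ∈ {E | P E ∧ E.card = n}, y ^ span E) * z ^ n) =
      ∑' E : {E // P E}, g E.1.card * (ENNReal.ofReal y ^ span E.1 *
        ENNReal.ofReal z ^ E.1.card) := by
  classical
  set f : Finset (Sym2 P3) → ℝ≥0∞ := fun E => g E.card * (ENNReal.ofReal y ^ span E *
    ENNReal.ofReal z ^ E.card) with hf
  have h1 : ∀ n : ℕ, g n * ENNReal.ofReal ((∑ᶠ E ∈ {E | P E ∧ E.card = n}, y ^ span E) *
      z ^ n) = ∑' E : {E | P E ∧ E.card = n}, f E.1 := by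
    intro n
    set X := (hP n).toFinset with hX
    have hset : {E | P E ∧ E.card = n} = ↑X := by rw [hX, Set.Finite.coe_toFinset]
    rw [finsum_mem_eq_finite_toFinset_sum _ (hP n), ← hX, Finset.sum_mul,
      ENNReal.ofReal_sum_of_nonneg fun E _ => mul_nonneg (pow_nonneg hy _) (pow_nonneg hz _),
      tsum_congr_set_coe f hset]
    refine Eq.trans ?_ (Finset.tsum_subtype X f).symm
    rw [Finset.mul_sum]
    refine Finset.sum_congr rfl fun E hE => ?_
    have hE' : P E ∧ E.card = n := by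
      rw [hX, Set.Finite.mem_toFinset] at hE
      exact hE
    rw [hf, ENNReal.ofReal_mul (pow_nonneg hy _), ENNReal.ofReal_pow hy, ENNReal.ofReal_pow hz]
    simp only
    rw [hE'.2]
  rw [tsum_congr h1, ← ENNReal.tsum_fiberwise (fun E : {E // P E} => f E.1)
    (fun E => E.1.card)]
  refine tsum_congr fun n => ?_
  let e : {E | P E ∧ E.card = n} ≃ ((fun E : {E // P E} => E.1.card) ⁻¹' {n}) :=
    { toFun := fun E => ⟨⟨E.1, E.2.1⟩, E.2.2⟩
      invFun := fun E => ⟨E.1.1, E.1.2, E.2⟩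
      left_inv := fun E => rfl
      right_inv := fun E => rfl }
  exact e.tsum_eq (fun E : ((fun E : {E // P E} => E.1.card) ⁻¹' {n}) => f E.1.1)

/-- As `KCls.gen_eq`. -/
theorem gen_a (hy : 0 ≤ y) (hz : 0 ≤ z) (g : ℕ → ℝ≥0∞) :
    ∑' n : ℕ, g n * ENNReal.ofReal (ZS T M y n * z ^ n) =
      ∑' E : {E // E ∈ PSl T M}, g E.1.card * (ENNReal.ofReal y ^ span E.1 *
        ENNReal.ofReal z ^ E.1.card) :=
  gen_aux hy hz g (fun E => E ∈ PSl T M) (psl_finite T M)

theorem gen_b (hy : 0 ≤ y) (hz : 0 ≤ z) (g : ℕ → ℝ≥0∞) :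
    ∑' n : ℕ, g n * ENNReal.ofReal (ZS0 T M y n * z ^ n) =
      ∑' E : {E // E ∈ PSl T M ∧ ∀ k, ¬ IsTwo E k}, g E.1.card * (ENNReal.ofReal y ^ span E.1 *
        ENNReal.ofReal z ^ E.1.card) := by
  have hset : ∀ n, {E | E ∈ PSl T M ∧ (∀ k, ¬ IsTwo E k) ∧ E.card = n} =
      {E | (E ∈ PSl T M ∧ ∀ k, ¬ IsTwo E k) ∧ E.card = n} := by
    intro n
    ext E
    exact and_assoc.symm
  have h := gen_aux hy hz g (fun E => E ∈ PSl T M ∧ ∀ k, ¬ IsTwo E k)
    (fun n => (psl_finite T M n).subset fun E hE => ⟨hE.1.1, hE.2⟩)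
  rw [← h]
  refine tsum_congr fun n => ?_
  unfold ZS0
  rw [hset]

/-- Each polygon in the slab is a translate of a normed polygon (`PF`) by `(0, b, 0)` with
`0 ≤ b ≤ M`; `un_geo'`, `gen_b`, `sum_of`. -/
theorem u_sum (hy : 0 < y) (hz : 0 < z) (hz1 : z ≤ 1 / 10 ^ 12) (hq : y * z ^ 2 ≤ 1) :
    Summable fun n => 2 ^ n * (ZS0 T M y n * z ^ n) := by
  classical
  have hnn : ∀ n, 0 ≤ 2 ^ n * (ZS0 T M y n * z ^ n) := by
    intro n
    have h1 : 0 ≤ ZS0 T M y n := finsum_mem_induction (fun x : ℝ => 0 ≤ x) le_rfl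
      (fun _ _ => add_nonneg) (fun E _ => pow_nonneg hy.le _)
    positivity
  have h1 : ∑' n : ℕ, ENNReal.ofReal (2 ^ n * (ZS0 T M y n * z ^ n)) ≠ ⊤ := by
    have h2 : ∀ n : ℕ, ENNReal.ofReal (2 ^ n * (ZS0 T M y n * z ^ n)) =
        (fun n : ℕ => (2 : ℝ≥0∞) ^ n) n * ENNReal.ofReal (ZS0 T M y n * z ^ n) := by
      intro n
      rw [ENNReal.ofReal_mul (by positivity), ENNReal.ofReal_pow (by norm_num)]
      norm_num
    rw [tsum_congr h2, gen_b hy.le hz.le]
    choose! b hb hN using fun (E : Finset (Sym2 P3)) (hE : E ∈ PSl T M) => psl_norm hE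
    let φ : {E // E ∈ PSl T M ∧ ∀ k, ¬ IsTwo E k} → Fin (M + 1) × PF := fun E =>
      (⟨b E.1, Nat.lt_succ_of_le (hb E.1 E.2.1)⟩, ⟨shift (0, -((b E.1 : ℕ) : ℤ), 0) E.1,
        isPolygon_shift E.2.1.1 _, hN E.1 E.2.1, by
          have h3 : {k : ℤ | IsTwo (shift (0, -((b E.1 : ℕ) : ℤ), 0) E.1) k} = ∅ := by
            ext k
            simp only [Set.mem_empty_iff_false, iff_false]
            intro hk
            exact E.2.2 k ((isTwo_sh _ _ _).1 hk)
          rw [h3, Set.ncard_empty]⟩)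
    have hφ : Function.Injective φ := by
      intro E F h
      have h3 : b E.1 = b F.1 := congrArg (fun x : Fin (M + 1) × PF => (x.1 : ℕ)) h
      have h4 : shift (0, -((b E.1 : ℕ) : ℤ), 0) E.1 = shift (0, -((b F.1 : ℕ) : ℤ), 0) F.1 :=
        congrArg (fun x : Fin (M + 1) × PF => x.2.1) h
      rw [h3] at h4
      exact Subtype.ext (shift_injective _ h4)
    set w : PF → ℝ≥0∞ := fun E => ENNReal.ofReal y ^ span E.1 * ENNReal.ofReal z ^ E.1.card *
      2 ^ E.1.card with hw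
    have h5 : ∑' p : Fin (M + 1) × PF, w p.2 ≠ ⊤ := by
      rw [ENNReal.tsum_prod (f := fun _ E => w E), tsum_fintype]
      refine ENNReal.sum_ne_top.2 fun i _ => ?_
      exact un_geo' hy hz hz1 hq
    refine ne_top_of_le_ne_top h5 ?_
    refine le_trans ?_ (ENNReal.tsum_comp_le_tsum_of_injective hφ fun p => w p.2)
    refine ENNReal.tsum_le_tsum fun E => ?_
    have e1 : span (φ E).2.1 = span E.1 := span_sh _ _
    have e2 : (φ E).2.1.card = E.1.card := card_shift _ _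
    rw [hw]
    simp only
    rw [e1, e2, mul_comm]
  have h4 := ENNReal.summable_toReal h1
  simpa only [ENNReal.toReal_ofReal (hnn _)] using h4

/-- A lattice polygon has an even number of edges (`KTen.u_odd`, or its proof). -/
theorem zs_odd {n : ℕ} (hn : Odd n) : ZS T M y n = 0 := by
  have h1 : {E | E ∈ PSl T M ∧ E.card = n} = ∅ := by
    ext E
    simp only [Set.mem_empty_iff_false, iff_false]
    rintro ⟨hE, h2⟩
    have h3 := even_card hE.1
    rw [h2] at h3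
    exact (Nat.not_even_iff_odd.2 hn) h3
  unfold ZS
  rw [h1]
  simp

end Pool.Agent.KSlab
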