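import Pool.Agent.KSlab.Real

/-! SL15: the critical measure. -/

set_option autoImplicit false

open Complex Set Filter Topology
open scoped ENNReal

namespace Pool.Agent.KSlab

namespace Slb

variable {I : Type} [Fintype I] {κ : Slb I}

/-! ### The critical measure -/

/-- The properties of the measure `∑ MM 0 N` at the critical point. -/
structure IsM (κ : Slb I) (m : XX I → ℝ) : Prop where
  nn : ∀ x, 0 ≤ m x
  dead : ∀ x, ¬ κ.Al x → m x = 0
  refl : ∀ x : XX I, m (-x.1, x.2) = m x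
  tot : ∀ x, ∑' N, κ.MM 0 N x = ENNReal.ofReal (m x)
  eqn : ∀ x, (Summable fun y => κ.K0 x y * m y) ∧ m x = κ.c0 x + ∑' y, κ.K0 x y * m y
  growth : ∃ C : ℝ, ∀ x : XX I, m x ≤ C * (1 + x.1.natAbs)
  fin : κ.FinE fun x => (m x : ℂ)

private theorem Ok.exists_m_bound (hκ : κ.Ok) : ∃ (μ : ℕ → EE I) (A : ℝ), 0 ≤ A ∧
    (∀ N x, κ.MM 0 N x ≠ ⊤ ∧ μ N x = ((κ.MM 0 N x).toReal : ℂ)) ∧
    (∀ N x, ¬ κ.Al x → κ.MM 0 N x = 0) ∧
    (∀ N (x : XX I), κ.MM 0 N (-x.1, x.2) = κ.MM 0 N x) ∧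
    (∀ n x, (∑ N ∈ Finset.range n, μ N : EE I) x =
      ((∑ N ∈ Finset.range n, (κ.MM 0 N x).toReal : ℝ) : ℂ)) ∧
    ∀ n, κ.FinE (∑ N ∈ Finset.range n, μ N : EE I) ∧
      κ.EF (∑ N ∈ Finset.range n, μ N : EE I) ≤ A := by
  obtain ⟨μ, h1, -, -, h2, h3⟩ := hκ.exists_iter (σ := 0) le_rfl
  obtain ⟨C, hC0, hC⟩ := hκ.cs_bound
  obtain ⟨C', hC'0, hC'⟩ := hκ.low_loc (r := 1 / 4) (by norm_num) (by norm_num)
  have hS : ∀ n x, (∑ N ∈ Finset.range n, μ N : EE I) x =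
      ((∑ N ∈ Finset.range n, (κ.MM 0 N x).toReal : ℝ) : ℂ) := by
    intro n x
    rw [lp.coeFn_sum, Finset.sum_apply, ofReal_sum]
    exact Finset.sum_congr rfl fun N _ => (h1 N x).2
  refine ⟨μ, (4 * (C * C')) ^ 2, by positivity, h1, h2, h3, hS, fun n => ?_⟩
  obtain ⟨S, hSdef⟩ : ∃ S : EE I, S = ∑ N ∈ Finset.range n, μ N := ⟨_, rfl⟩
  rw [← hSdef]
  have hSx : ∀ x, S x = ((∑ N ∈ Finset.range n, (κ.MM 0 N x).toReal : ℝ) : ℂ) := by
    intro x
    rw [hSdef]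
    exact hS n x
  have hF := hκ.fin_E S
  have hV : κ.Van S := by
    intro x hx
    rw [hSx, Finset.sum_eq_zero, ofReal_zero]
    intro N _
    rw [h2 N x hx, ENNReal.toReal_zero]
  refine ⟨hF, ?_⟩
  have hE := hκ.energy (σ := 0) le_rfl (by have := hκ.z_pos; linarith) n S hSx
  obtain ⟨g1, g2⟩ := hC' S hF hV
  have hnn := hκ.EF_nn S
  have hcs : ∀ x, ‖κ.cs ((0 : ℝ) : ℂ) x‖ ≤ C * (1 / 4) ^ x.1.natAbs := fun x =>
    (hC ((0 : ℝ) : ℂ) (by rw [ofReal_zero, zero_re]; norm_num) x).2.1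
  have hterm : ∀ x, ‖(S x).re * (κ.cs ((0 : ℝ) : ℂ) x).re‖ ≤
      C * ((1 / 4) ^ x.1.natAbs * ‖S x‖) := by
    intro x
    rw [norm_mul]
    calc ‖(S x).re‖ * ‖(κ.cs ((0 : ℝ) : ℂ) x).re‖ ≤ ‖S x‖ * (C * (1 / 4) ^ x.1.natAbs) := by
          refine mul_le_mul (abs_re_le_norm _) ((abs_re_le_norm _).trans (hcs x)) (norm_nonneg _)
            (norm_nonneg _)
      _ = _ := by ring
  have hsum : Summable fun x : XX I => C * ((1 / 4) ^ x.1.natAbs * ‖S x‖) := g1.mul_left C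
  have hle : ∑' x, (S x).re * (κ.cs ((0 : ℝ) : ℂ) x).re ≤ C * (C' * Real.sqrt (κ.EF S)) := by
    calc ∑' x, (S x).re * (κ.cs ((0 : ℝ) : ℂ) x).re
        ≤ ∑' x : XX I, C * ((1 / 4) ^ x.1.natAbs * ‖S x‖) := by
          refine Summable.tsum_le_tsum (fun x => (le_abs_self _).trans (hterm x)) ?_ hsum
          exact Summable.of_norm_bounded hsum hterm
      _ = C * ∑' x : XX I, (1 / 4) ^ x.1.natAbs * ‖S x‖ := tsum_mul_left
      _ ≤ _ := mul_le_mul_of_nonneg_left g2 hC0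
  have hfin : κ.EF S ≤ 4 * (C * C') * Real.sqrt (κ.EF S) := by
    have h5 := hE.trans hle
    rw [zero_mul, add_zero] at h5
    linarith
  have hsq : Real.sqrt (κ.EF S) * Real.sqrt (κ.EF S) = κ.EF S := Real.mul_self_sqrt hnn
  rcases (Real.sqrt_nonneg (κ.EF S)).eq_or_lt with h0 | h0
  · rw [← h0, mul_zero] at hsq
    rw [← hsq]
    positivity
  · have h6 : Real.sqrt (κ.EF S) ≤ 4 * (C * C') := by
      by_contra hcon
      push Not at hcon
      nlinarith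
    rw [← hsq, sq]
    exact mul_le_mul h6 h6 (Real.sqrt_nonneg _) (by positivity)

/-- The partial sums `S_n` at `σ = 0` satisfy `EF S_n / 4 ≤ ∑ S_n c_0 ≤ C √(EF S_n)` (`energy`, `low_loc` and
`cs_bound`), so `EF S_n ≤ 16 C²`, and `S_n x ² ≤ C' (1 + |u|)` by `low_pt`. So the limit exists; `ef_lim`; the
equation by monotone convergence (`∑_y K0 x y MM 0 N y = MM 0 (N + 1) x`, symmetric kernel). -/
theorem Ok.exists_m (hκ : κ.Ok) : ∃ m, κ.IsM m := by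
  obtain ⟨μ, A, hA, h1, h2, h3, hS, hE⟩ := hκ.exists_m_bound
  obtain ⟨C, hC0, hC⟩ := hκ.low_pt
  have hV : ∀ n, κ.Van (∑ N ∈ Finset.range n, μ N : EE I) := by
    intro n x hx
    rw [hS, Finset.sum_eq_zero, ofReal_zero]
    intro N _
    rw [h2 N x hx, ENNReal.toReal_zero]
  have hann : ∀ N x, 0 ≤ (κ.MM 0 N x).toReal := fun N x => ENNReal.toReal_nonneg
  -- the partial sums are bounded
  have hbd : ∀ x n, ∑ N ∈ Finset.range n, (κ.MM 0 N x).toReal ≤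
      Real.sqrt (C * A) * (1 + x.1.natAbs) := by
    intro x n
    have h4 := hC _ (hE n).1 (hV n) x
    rw [hS, norm_real, Real.norm_of_nonneg (Finset.sum_nonneg fun N _ => hann N x)] at h4
    have h5 : (1 : ℝ) ≤ 1 + x.1.natAbs := by
      have : (0 : ℝ) ≤ x.1.natAbs := Nat.cast_nonneg _
      linarith
    have h6 : C * (1 + x.1.natAbs) * κ.EF (∑ N ∈ Finset.range n, μ N : EE I) ≤
        (Real.sqrt (C * A) * (1 + x.1.natAbs)) ^ 2 := by
      rw [mul_pow, Real.sq_sqrt (by positivity)]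
      have h7 : C * (1 + x.1.natAbs) * κ.EF (∑ N ∈ Finset.range n, μ N : EE I) ≤
          C * (1 + x.1.natAbs) * A := mul_le_mul_of_nonneg_left (hE n).2 (by positivity)
      have h8 : C * (1 + (x.1.natAbs : ℝ)) * A ≤ C * A * (1 + x.1.natAbs) ^ 2 := by
        have h9 : (1 + (x.1.natAbs : ℝ)) ≤ (1 + x.1.natAbs) ^ 2 := by nlinarith
        calc C * (1 + (x.1.natAbs : ℝ)) * A = C * A * (1 + x.1.natAbs) := by ring
          _ ≤ _ := mul_le_mul_of_nonneg_left h9 (by positivity)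
      exact h7.trans h8
    exact (sq_le_sq₀ (Finset.sum_nonneg fun N _ => hann N x) (by positivity)).1 (h4.trans h6)
  have hsum : ∀ x, Summable fun N => (κ.MM 0 N x).toReal := fun x =>
    summable_of_sum_range_le (hann · x) (hbd x)
  have htot : ∀ x, ∑' N, κ.MM 0 N x = ENNReal.ofReal (∑' N, (κ.MM 0 N x).toReal) := by
    intro x
    rw [ENNReal.ofReal_tsum_of_nonneg (hann · x) (hsum x)]
    exact tsum_congr fun N => (ENNReal.ofReal_toReal (h1 N x).1).symm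
  have hmnn : ∀ x, 0 ≤ ∑' N, (κ.MM 0 N x).toReal := fun x => tsum_nonneg fun N => hann N x
  have hc0 : ∀ x, κ.MM 0 0 x = ENNReal.ofReal (κ.c0 x) := by
    intro x
    change ENNReal.ofReal (∑' n : ℕ, κ.c n x * Real.exp (-n * 0)) = _
    congr 1
    refine tsum_congr fun n => ?_
    rw [mul_zero, Real.exp_zero, mul_one]
  have hk0 : ∀ x y, κ.kE 0 y x = ENNReal.ofReal (κ.K0 x y) := by
    intro x y
    rw [(hκ.K0_row x).2.2.2.1 y]
    change ENNReal.ofReal (∑' n : ℕ, κ.k n y x * Real.exp (-n * 0)) = _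
    congr 1
    refine tsum_congr fun n => ?_
    rw [mul_zero, Real.exp_zero, mul_one]
  have hc0nn : ∀ x, 0 ≤ κ.c0 x := fun x => tsum_nonneg fun n => hκ.c_nn n x
  have hKnn : ∀ x y, 0 ≤ κ.K0 x y * ∑' N, (κ.MM 0 N y).toReal := fun x y =>
    mul_nonneg ((hκ.K0_row x).2.2.1 y) (hmnn y)
  -- the equation in `ℝ≥0∞`
  have heq : ∀ x, ENNReal.ofReal (∑' N, (κ.MM 0 N x).toReal) = ENNReal.ofReal (κ.c0 x) +
      ∑' y, ENNReal.ofReal (κ.K0 x y * ∑' N, (κ.MM 0 N y).toReal) := by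
    intro x
    rw [← htot, tsum_eq_zero_add' ENNReal.summable, hc0]
    congr 1
    have h4 : ∀ N, κ.MM 0 (N + 1) x = ∑' y, κ.MM 0 N y * κ.kE 0 y x := fun N => rfl
    simp only [h4]
    rw [ENNReal.tsum_comm]
    refine tsum_congr fun y => ?_
    rw [ENNReal.tsum_mul_right, htot, hk0, mul_comm, ENNReal.ofReal_mul ((hκ.K0_row x).2.2.1 y)]
  have hne : ∀ x, ∑' y, ENNReal.ofReal (κ.K0 x y * ∑' N, (κ.MM 0 N y).toReal) ≠ ⊤ := by
    intro x h4
    have h5 := heq x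
    rw [h4, add_top] at h5
    exact ENNReal.ofReal_ne_top h5
  have hsumK : ∀ x, Summable fun y => κ.K0 x y * ∑' N, (κ.MM 0 N y).toReal := by
    intro x
    have h4 := ENNReal.summable_toReal (hne x)
    refine h4.congr fun y => ?_
    rw [ENNReal.toReal_ofReal (hKnn x y)]
  refine ⟨fun x => ∑' N, (κ.MM 0 N x).toReal, hmnn, ?_, ?_, htot, fun x => ⟨hsumK x, ?_⟩,
    ⟨Real.sqrt (C * A), fun x => ?_⟩, ?_⟩
  · intro x hx
    have h4 : ∀ N, (κ.MM 0 N x).toReal = 0 := fun N => by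
      rw [h2 N x hx, ENNReal.toReal_zero]
    simp only [h4, tsum_zero]
  · intro x
    simp only [h3]
  · have h4 := heq x
    rw [← ENNReal.ofReal_tsum_of_nonneg (hKnn x) (hsumK x),
      ← ENNReal.ofReal_add (hc0nn x) (tsum_nonneg (hKnn x))] at h4
    exact (ENNReal.ofReal_eq_ofReal_iff (hmnn x)
      (add_nonneg (hc0nn x) (tsum_nonneg (hKnn x)))).1 h4
  · exact (hsum x).tsum_le_of_sum_range_le (hbd x)
  · refine (hκ.ef_lim (g := fun n => ⇑(∑ N ∈ Finset.range n, μ N : EE I)) hE fun x => ?_).1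
    have h4 := (hsum x).hasSum.tendsto_sum_nat
    have h5 := (continuous_ofReal.tendsto _).comp h4
    refine h5.congr fun n => ?_
    exact (hS n x).symm

end Slb

end Pool.Agent.KSlab
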