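import Pool.Agent.KSlab.Phi

/-! SL24: sums over the function `exp (-w |u|)`. -/

set_option autoImplicit false

open Complex Set Filter Topology

namespace Pool.Agent.KSlab

variable {w : ℂ}

/-! ### Elementary facts -/

private theorem hasSum_geo {𝕜 : Type} [NormedField 𝕜] [CompleteSpace 𝕜] {r : 𝕜} (hr : ‖r‖ < 1) :
    HasSum (fun u : ℤ => r ^ u.natAbs) ((1 + r) / (1 - r)) := by
  have h0 : HasSum (fun n : ℕ => r ^ n) (1 - r)⁻¹ := hasSum_geometric_of_norm_lt_one hr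
  have h1 : HasSum (fun n : ℕ => r * r ^ n) (r * (1 - r)⁻¹) := h0.mul_left r
  have h2 : HasSum (fun u : ℤ => r ^ u.natAbs) ((1 - r)⁻¹ + r * (1 - r)⁻¹) := by
    refine HasSum.of_nat_of_neg_add_one ?_ ?_
    · simpa using h0
    · have h3 : (fun n : ℕ => r ^ (-((n : ℤ) + 1)).natAbs) = fun n : ℕ => r * r ^ n := by
        funext n
        have h4 : (-((n : ℤ) + 1)).natAbs = n + 1 := by omega
        rw [h4, pow_succ, mul_comm]
      rw [h3]
      exact h1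
  have h3 : (1 - r)⁻¹ + r * (1 - r)⁻¹ = (1 + r) / (1 - r) := by
    rw [div_eq_mul_inv]
    ring
  rwa [h3] at h2

private theorem one_sub_exp_ge {x : ℝ} (hx : 0 ≤ x) (hx1 : x ≤ 1) :
    x / 2 ≤ 1 - Real.exp (-x) := by
  have h1 : x + 1 ≤ Real.exp x := Real.add_one_le_exp x
  have h2 : Real.exp x * Real.exp (-x) = 1 := by rw [← Real.exp_add]; simp
  have h3 : 0 < Real.exp (-x) := Real.exp_pos _
  have h4 : (x + 1) * Real.exp (-x) ≤ 1 :=
    (mul_le_mul_of_nonneg_right h1 h3.le).trans h2.le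
  nlinarith

private theorem phi_norm (w : ℂ) (u : ℤ) : ‖phi w u‖ = Real.exp (-w.re) ^ u.natAbs := by
  unfold phi
  rw [Complex.norm_exp, ← Real.exp_nat_mul]
  congr 1
  simp [mul_comm]

private theorem phi_eq_pow (w : ℂ) (u : ℤ) : phi w u ^ 2 = exp (-(2 * w)) ^ u.natAbs := by
  unfold phi
  rw [← Complex.exp_nat_mul, ← Complex.exp_nat_mul]
  congr 1
  push_cast
  ring

private theorem re_pos (hw : InK w) : 0 < w.re := by
  have := norm_pos_iff.2 hw.1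
  linarith [hw.2.1]

private theorem re_le (hw : InK w) : w.re ≤ 1 / 10 :=
  (Complex.re_le_norm w).trans hw.2.2

private theorem geo_le {a : ℝ} (ha : 0 < a) (ha1 : a ≤ 1) :
    HasSum (fun u : ℤ => Real.exp (-a) ^ u.natAbs)
      ((1 + Real.exp (-a)) / (1 - Real.exp (-a))) ∧
    (1 + Real.exp (-a)) / (1 - Real.exp (-a)) ≤ 4 / a := by
  have h0 : Real.exp (-a) < 1 := by
    rw [Real.exp_lt_one_iff]
    linarith
  have h1 := one_sub_exp_ge ha.le ha1
  refine ⟨hasSum_geo (by rw [Real.norm_of_nonneg (Real.exp_pos _).le]; exact h0), ?_⟩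
  have h2 : 0 < 1 - Real.exp (-a) := by linarith
  rw [div_le_div_iff₀ h2 ha]
  have h3 : (1 + Real.exp (-a)) * a ≤ 2 * a := by nlinarith
  linarith

/-- `∑ exp (-x |u|) = (1 + e) / (1 - e)`, `e = exp (-x)`, `x = ‖w‖ / 2` resp. `‖w‖`; `1 - exp (-x) ≥ x / 2` for `0 ≤ x ≤ 1`. -/
theorem phi_sums (hw : InK w) : (Summable fun u : ℤ => ‖phi w u‖) ∧
    ∑' u : ℤ, ‖phi w u‖ ≤ 8 / ‖w‖ ∧ (Summable fun u : ℤ => ‖phi w u‖ ^ 2) ∧
    ∑' u : ℤ, ‖phi w u‖ ^ 2 ≤ 4 / ‖w‖ := by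
  have hN : 0 < ‖w‖ := norm_pos_iff.2 hw.1
  have ha := re_pos hw
  have ha1 := re_le hw
  have ha2 := hw.2.1
  obtain ⟨h1, h2⟩ := geo_le ha (by linarith)
  obtain ⟨h3, h4⟩ := geo_le (a := 2 * w.re) (by linarith) (by linarith)
  have e1 : (fun u : ℤ => ‖phi w u‖) = fun u : ℤ => Real.exp (-w.re) ^ u.natAbs := by
    funext u
    exact phi_norm w u
  have e2 : (fun u : ℤ => ‖phi w u‖ ^ 2) = fun u : ℤ => Real.exp (-(2 * w.re)) ^ u.natAbs := by
    funext u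
    rw [phi_norm w u, ← pow_mul, mul_comm, pow_mul, ← Real.exp_nat_mul]
    congr 2
    push_cast
    ring
  refine ⟨?_, ?_, ?_, ?_⟩
  · rw [e1]
    exact h1.summable
  · rw [e1, h1.tsum_eq]
    refine h2.trans ?_
    rw [div_le_div_iff₀ ha hN]
    linarith
  · rw [e2]
    exact h3.summable
  · rw [e2, h3.tsum_eq]
    refine h4.trans ?_
    rw [div_le_div_iff₀ (by linarith) hN]
    linarith

private theorem phi_mul_add (w : ℂ) {u v d : ℤ} (h : u.natAbs = v.natAbs + d.natAbs) :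
    phi w u = phi w v * phi w d := by
  unfold phi
  rw [← Complex.exp_add, h]
  congr 1
  push_cast
  ring

private theorem phi_diff_le (hw : InK w) (u t : ℤ) :
    ‖phi w (u + t) - phi w u‖ ≤ Real.exp (1 / 10 * t.natAbs) * ‖w‖ * t.natAbs * ‖phi w u‖ := by
  have hN : 0 ≤ ‖w‖ := norm_nonneg w
  have ha := re_pos hw
  have ha1 := re_le hw
  have hT : (0 : ℝ) ≤ t.natAbs := Nat.cast_nonneg _
  have he1 : 1 ≤ Real.exp (1 / 10 * t.natAbs) := Real.one_le_exp (by positivity)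
  rcases le_total u.natAbs (u + t).natAbs with h | h
  · set d : ℤ := (((u + t).natAbs - u.natAbs : ℕ) : ℤ) with hd
    have hd1 : d.natAbs = (u + t).natAbs - u.natAbs := by rw [hd, Int.natAbs_natCast]
    have h1 : phi w (u + t) = phi w u * phi w d := phi_mul_add w (by omega)
    have h2 : d.natAbs ≤ t.natAbs := by omega
    have h3 : ‖phi w d - 1‖ ≤ ‖w‖ * t.natAbs := by
      rw [norm_sub_rev]
      refine (one_sub_phi hw d).trans (mul_le_mul_of_nonneg_left ?_ hN)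
      exact_mod_cast h2
    rw [h1]
    have h4 : phi w u * phi w d - phi w u = phi w u * (phi w d - 1) := by ring
    rw [h4, norm_mul]
    calc ‖phi w u‖ * ‖phi w d - 1‖ ≤ ‖phi w u‖ * (‖w‖ * t.natAbs) :=
          mul_le_mul_of_nonneg_left h3 (norm_nonneg _)
      _ = 1 * (‖w‖ * t.natAbs * ‖phi w u‖) := by ring
      _ ≤ Real.exp (1 / 10 * t.natAbs) * (‖w‖ * t.natAbs * ‖phi w u‖) :=
          mul_le_mul_of_nonneg_right he1 (by positivity)
      _ = Real.exp (1 / 10 * t.natAbs) * ‖w‖ * t.natAbs * ‖phi w u‖ := by ring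
  · set d : ℤ := ((u.natAbs - (u + t).natAbs : ℕ) : ℤ) with hd
    have hd1 : d.natAbs = u.natAbs - (u + t).natAbs := by rw [hd, Int.natAbs_natCast]
    have h0 : u.natAbs = (u + t).natAbs + d.natAbs := by omega
    have h1 : phi w u = phi w (u + t) * phi w d := phi_mul_add w h0
    have h2 : d.natAbs ≤ t.natAbs := by omega
    have h3 : ‖1 - phi w d‖ ≤ ‖w‖ * t.natAbs := by
      refine (one_sub_phi hw d).trans (mul_le_mul_of_nonneg_left ?_ hN)
      exact_mod_cast h2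
    have h4 : ‖phi w (u + t)‖ ≤ Real.exp (1 / 10 * t.natAbs) * ‖phi w u‖ := by
      rw [phi_norm, phi_norm, ← Real.exp_nat_mul, ← Real.exp_nat_mul, ← Real.exp_add]
      refine Real.exp_le_exp.2 ?_
      have h5 : (u.natAbs : ℝ) = (u + t).natAbs + d.natAbs := by exact_mod_cast h0
      have h6 : (d.natAbs : ℝ) ≤ t.natAbs := by exact_mod_cast h2
      have h7 : w.re * d.natAbs ≤ 1 / 10 * t.natAbs := by
        have h8 : (0 : ℝ) ≤ d.natAbs := Nat.cast_nonneg _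
        nlinarith
      rw [h5]
      linarith
    have h5 : phi w (u + t) - phi w u = phi w (u + t) * (1 - phi w d) := by
      conv_lhs => rw [h1]
      ring
    rw [h5, norm_mul]
    calc ‖phi w (u + t)‖ * ‖1 - phi w d‖
        ≤ (Real.exp (1 / 10 * t.natAbs) * ‖phi w u‖) * (‖w‖ * t.natAbs) :=
          mul_le_mul h4 h3 (norm_nonneg _) (by positivity)
      _ = Real.exp (1 / 10 * t.natAbs) * ‖w‖ * t.natAbs * ‖phi w u‖ := by ring

private theorem sq_le_two_pow (n : ℕ) : (n : ℝ) ^ 2 ≤ 2 * 2 ^ n := by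
  have h : n ^ 2 ≤ 2 * 2 ^ n := by
    rcases Nat.lt_or_ge n 3 with h | h
    · interval_cases n <;> norm_num
    · induction n, h using Nat.le_induction with
      | base => norm_num
      | succ n hn ih =>
        rw [pow_succ 2 n]
        have h1 : (n + 1) ^ 2 ≤ 2 * n ^ 2 := by nlinarith
        have h2 := ih
        omega
  exact_mod_cast h

/-- For `|u| ≥ |t|`: `‖phi (u + t) - phi u‖ ≤ ‖phi u‖ ‖w‖ |t| exp (‖w‖ |t|)` (both arguments have the same sign), the sum of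
the squares is `≤ 4 ‖w‖ t² exp (|t| / 5)`; for the less than `2 |t|` other `u` use `phi_sub`: `≤ 2 |t|³ ‖w‖²`. -/
theorem phi_diff_sq_le (hw : InK w) (t : ℤ) :
    (Summable fun u : ℤ => ‖phi w (u + t) - phi w u‖ ^ 2) ∧
    ∑' u : ℤ, ‖phi w (u + t) - phi w u‖ ^ 2 ≤ 20 * ‖w‖ * 4 ^ t.natAbs := by
  have hN : 0 < ‖w‖ := norm_pos_iff.2 hw.1
  obtain ⟨_, _, h3, h4⟩ := phi_sums hw
  set B : ℝ := (Real.exp (1 / 10 * t.natAbs) * ‖w‖ * t.natAbs) ^ 2 with hB
  have hb : ∀ u : ℤ, ‖phi w (u + t) - phi w u‖ ^ 2 ≤ B * ‖phi w u‖ ^ 2 := by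
    intro u
    rw [hB, ← mul_pow]
    exact pow_le_pow_left₀ (norm_nonneg _) (phi_diff_le hw u t) 2
  have h5 := h3.mul_left B
  have h6 : Summable fun u : ℤ => ‖phi w (u + t) - phi w u‖ ^ 2 :=
    Summable.of_nonneg_of_le (fun u => by positivity) hb h5
  refine ⟨h6, (h6.tsum_le_tsum hb h5).trans ?_⟩
  rw [tsum_mul_left]
  have hB0 : 0 ≤ B := by rw [hB]; positivity
  have hexp : Real.exp (1 / 10 * t.natAbs) ^ 2 ≤ 2 ^ t.natAbs := by
    rw [mul_comm, Real.exp_nat_mul, ← pow_mul, mul_comm, pow_mul]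
    refine pow_le_pow_left₀ (by positivity) ?_ _
    have h7 : Real.exp (1 / 10) ≤ 1 / (1 - 1 / 10) :=
      (Real.exp_bound_div_one_sub_of_interval' (x := (1 / 10 : ℝ)) (by norm_num)
        (by norm_num)).le
    have h8 : Real.exp (1 / 10) ≤ 6 / 5 := h7.trans (by norm_num)
    calc Real.exp (1 / 10) ^ 2 ≤ (6 / 5) ^ 2 := pow_le_pow_left₀ (Real.exp_pos _).le h8 2
      _ ≤ 2 := by norm_num
  have hsq := sq_le_two_pow t.natAbs
  have h44 : (4 : ℝ) ^ t.natAbs = 2 ^ t.natAbs * 2 ^ t.natAbs := by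
    rw [← mul_pow]
    norm_num
  calc B * ∑' u : ℤ, ‖phi w u‖ ^ 2 ≤ B * (4 / ‖w‖) := mul_le_mul_of_nonneg_left h4 hB0
    _ = 4 * ‖w‖ * (Real.exp (1 / 10 * t.natAbs) ^ 2 * (t.natAbs : ℝ) ^ 2) := by
        rw [hB]
        field_simp
    _ ≤ 4 * ‖w‖ * (2 ^ t.natAbs * (2 * 2 ^ t.natAbs)) := by
        refine mul_le_mul_of_nonneg_left ?_ (by positivity)
        exact mul_le_mul hexp hsq (by positivity) (by positivity)
    _ = 8 * ‖w‖ * 4 ^ t.natAbs := by rw [h44]; ring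
    _ ≤ 20 * ‖w‖ * 4 ^ t.natAbs := by
        refine mul_le_mul_of_nonneg_right ?_ (by positivity)
        linarith

/-- The sum is `(1 + exp (-2 w)) / (1 - exp (-2 w))`, and `(1 + exp (-x)) / (1 - exp (-x)) - 2 / x` is bounded for
`0 < ‖x‖ ≤ 1/5`: numerator `x (1 + e) - 2 (1 - e) = O(x³)`, denominator `x (1 - e)` with `‖1 - e‖ ≥ ‖x‖ / 2`. -/
theorem phi_sq_sum (hw : InK w) : (Summable fun u : ℤ => phi w u ^ 2) ∧
    ‖∑' u : ℤ, phi w u ^ 2 - 1 / w‖ ≤ 10 := by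
  have hN : 0 < ‖w‖ := norm_pos_iff.2 hw.1
  set x : ℂ := 2 * w with hx
  have hxn : ‖x‖ = 2 * ‖w‖ := by rw [hx, norm_mul, Complex.norm_ofNat]
  have hx0 : 0 < ‖x‖ := by rw [hxn]; linarith
  have hx1 : ‖x‖ ≤ 1 / 5 := by rw [hxn]; linarith [hw.2.2]
  have hxne : x ≠ 0 := norm_pos_iff.1 hx0
  have hr1 : ‖exp (-x)‖ < 1 := by
    rw [Complex.norm_exp, Real.exp_lt_one_iff]
    have : (-x).re = -(2 * w.re) := by
      rw [hx]
      simp
    rw [this]
    linarith [re_pos hw]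
  have h1 : HasSum (fun u : ℤ => phi w u ^ 2) ((1 + exp (-x)) / (1 - exp (-x))) := by
    have h2 := hasSum_geo hr1
    have h3 : (fun u : ℤ => phi w u ^ 2) = fun u : ℤ => exp (-x) ^ u.natAbs := by
      funext u
      rw [phi_eq_pow]
    rw [h3]
    exact h2
  refine ⟨h1.summable, ?_⟩
  rw [h1.tsum_eq]
  set E : ℂ := exp (-x) - 1 - (-x) with hE
  have hEn : ‖E‖ ≤ ‖x‖ ^ 2 := by
    have := Complex.norm_exp_sub_one_sub_id_le (x := -x) (by rw [norm_neg]; linarith)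
    rwa [norm_neg] at this
  have he : exp (-x) = 1 - x + E := by rw [hE]; ring
  have hden : ‖x‖ * (4 / 5) ≤ ‖1 - exp (-x)‖ := by
    have h3 : 1 - exp (-x) = x - E := by rw [he]; ring
    rw [h3]
    have h4 := norm_sub_norm_le x E
    nlinarith
  have hden0 : 1 - exp (-x) ≠ 0 := by
    rw [← norm_pos_iff]
    have : 0 < ‖x‖ * (4 / 5) := by positivity
    linarith
  have hwx : 1 / w = 2 / x := by
    rw [hx]
    have := hw.1
    field_simp
  have h5 : (1 + exp (-x)) / (1 - exp (-x)) - 1 / w =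
      (-(x ^ 2) + x * E + 2 * E) / ((1 - exp (-x)) * x) := by
    rw [hwx, div_sub_div _ _ hden0 hxne]
    congr 1
    rw [he]
    ring
  rw [h5, norm_div, norm_mul]
  have hnum : ‖-(x ^ 2) + x * E + 2 * E‖ ≤ 4 * ‖x‖ ^ 2 := by
    refine (norm_add_le _ _).trans ?_
    have h6 : ‖-(x ^ 2) + x * E‖ ≤ ‖x‖ ^ 2 + ‖x‖ * ‖E‖ := by
      refine (norm_add_le _ _).trans ?_
      rw [norm_neg, norm_pow, norm_mul x E]
    have h7 : ‖2 * E‖ = 2 * ‖E‖ := by rw [norm_mul, Complex.norm_ofNat]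
    have h8 : ‖x‖ * ‖E‖ ≤ 1 / 5 * ‖x‖ ^ 2 := mul_le_mul hx1 hEn (norm_nonneg _) (by norm_num)
    rw [h7]
    nlinarith
  rw [div_le_iff₀ (by positivity)]
  have h9 : ‖x‖ * (4 / 5) * ‖x‖ ≤ ‖1 - exp (-x)‖ * ‖x‖ :=
    mul_le_mul_of_nonneg_right hden hx0.le
  nlinarith

/-- `phi (u + t) = phi u + (phi (u + t) - phi u)`, `phi_sq_sum`, `phi_sub` and `phi_sums`. -/
theorem phi_corr : ∃ C : ℝ, 0 ≤ C ∧ ∀ w : ℂ, InK w → ∀ t : ℤ,
    (Summable fun u : ℤ => phi w u * phi w (u + t)) ∧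
    ‖∑' u : ℤ, phi w u * phi w (u + t) - 1 / w‖ ≤ C * (1 + t.natAbs) := by
  refine ⟨10, by norm_num, ?_⟩
  intro w hw t
  have hN : 0 < ‖w‖ := norm_pos_iff.2 hw.1
  obtain ⟨h1, h2, _, _⟩ := phi_sums hw
  obtain ⟨h3, h4⟩ := phi_sq_sum hw
  have hd : ∀ u : ℤ, ‖phi w u * (phi w (u + t) - phi w u)‖ ≤ ‖w‖ * t.natAbs * ‖phi w u‖ := by
    intro u
    rw [norm_mul]
    have h5 := phi_sub hw (u + t) u
    have h6 : u + t - u = t := by ring
    rw [h6] at h5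
    calc ‖phi w u‖ * ‖phi w (u + t) - phi w u‖ ≤ ‖phi w u‖ * (‖w‖ * t.natAbs) :=
          mul_le_mul_of_nonneg_left h5 (norm_nonneg _)
      _ = ‖w‖ * t.natAbs * ‖phi w u‖ := by ring
  have h5 := h1.mul_left (‖w‖ * t.natAbs)
  have h6 : Summable fun u : ℤ => ‖phi w u * (phi w (u + t) - phi w u)‖ :=
    Summable.of_nonneg_of_le (fun u => norm_nonneg _) hd h5
  have h7 : (fun u : ℤ => phi w u * phi w (u + t)) =
      fun u : ℤ => phi w u ^ 2 + phi w u * (phi w (u + t) - phi w u) := by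
    funext u
    ring
  rw [h7]
  refine ⟨h3.add h6.of_norm, ?_⟩
  rw [h3.tsum_add h6.of_norm]
  have h8 : ‖∑' u : ℤ, phi w u * (phi w (u + t) - phi w u)‖ ≤ 8 * t.natAbs := by
    refine (norm_tsum_le_tsum_norm h6).trans ((h6.tsum_le_tsum hd h5).trans ?_)
    rw [tsum_mul_left]
    calc ‖w‖ * t.natAbs * ∑' u : ℤ, ‖phi w u‖ ≤ ‖w‖ * t.natAbs * (8 / ‖w‖) :=
          mul_le_mul_of_nonneg_left h2 (by positivity)
      _ = 8 * t.natAbs := by field_simp
  have h9 : ∑' u : ℤ, phi w u ^ 2 + ∑' u : ℤ, phi w u * (phi w (u + t) - phi w u) - 1 / w =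
      (∑' u : ℤ, phi w u ^ 2 - 1 / w) +
        ∑' u : ℤ, phi w u * (phi w (u + t) - phi w u) := by ring
  rw [h9]
  refine (norm_add_le _ _).trans ?_
  have hT : (0 : ℝ) ≤ t.natAbs := Nat.cast_nonneg _
  linarith

end Pool.Agent.KSlab
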