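import Pool.Agent.KSlab.Mom
import Pool.Agent.KSlab.PhiB
import Pool.Agent.KSlab.Meas

/-! SL26: the asymptotics of the critical measure as a structure. -/

set_option autoImplicit false

open Complex Set Filter Topology

namespace Pool.Agent.KSlab

namespace Slb

variable {I : Type} [Fintype I] {κ : Slb I} {m : XX I → ℝ}

/-- The asymptotics of the critical measure. -/
structure Asy (κ : Slb I) (m : XX I → ℝ) (β r C : ℝ) : Prop where
  isM : κ.IsM m
  β_pos : 0 < β
  r_ge : 1 / 2 ≤ r
  r_lt : r < 1
  C_nn : 0 ≤ C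
  bd : ∀ x : XX I, |m x - β * κ.h x.2| ≤ C * r ^ x.1.natAbs

end Slb

end Pool.Agent.KSlab
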