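import Pool.Agent.KSlab.Meas

/-! SL22: a subharmonic function of linear growth. -/

set_option autoImplicit false

open Set Filter Topology
open scoped ENNReal

namespace Pool.Agent.KSlab

namespace Slb

variable {I : Type} [Fintype I] {κ : Slb I} {m : XX I → ℝ}

/-- The convex function `|u| + 2 ^ (-|u|)`. -/
noncomputable def g1 (u : ℤ) : ℝ := u.natAbs + (1 / 2) ^ u.natAbs

/-- The subharmonic function. -/
noncomputable def gL (κ : Slb I) (L : ℕ) (x : XX I) : ℝ := κ.h x.2 * max 0 (g1 x.1 - g1 L)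

private theorem g1_neg (u : ℤ) : g1 (-u) = g1 u := by
  unfold g1
  rw [Int.natAbs_neg]

private theorem g1_nat (n : ℕ) : g1 (n : ℤ) = n + (1 / 2) ^ n := by
  unfold g1
  rw [Int.natAbs_natCast]

private theorem g1_abs (u : ℤ) : g1 u = g1 (u.natAbs : ℤ) := by
  rw [g1_nat]
  rfl

/-- the second difference at `u ≠ 0` -/
private theorem g1_second {u : ℤ} (hu : u ≠ 0) :
    g1 (u + 1) + g1 (u - 1) = 2 * g1 u + 1 / 2 * (1 / 2) ^ u.natAbs := by
  have key : ∀ n : ℕ, g1 ((n + 1 : ℕ) + 1 : ℤ) + g1 ((n + 1 : ℕ) - 1 : ℤ) =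
      2 * g1 ((n + 1 : ℕ) : ℤ) + 1 / 2 * (1 / 2) ^ (n + 1) := by
    intro n
    have e1 : ((n + 1 : ℕ) + 1 : ℤ) = ((n + 2 : ℕ) : ℤ) := by push_cast; ring
    have e2 : ((n + 1 : ℕ) - 1 : ℤ) = (n : ℤ) := by push_cast; ring
    rw [e1, e2, g1_nat, g1_nat, g1_nat]
    push_cast
    ring
  obtain ⟨n, hn⟩ : ∃ n, u.natAbs = n + 1 := ⟨u.natAbs - 1, by omega⟩
  rcases Int.natAbs_eq u with h | h
  · rw [h, hn, Int.natAbs_natCast]
    exact key n
  · have e1 : u + 1 = -(((n + 1 : ℕ) : ℤ) - 1) := by rw [h, hn]; ring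
    have e2 : u - 1 = -(((n + 1 : ℕ) : ℤ) + 1) := by rw [h, hn]; ring
    have e3 : u = -((n + 1 : ℕ) : ℤ) := by rw [h, hn]
    have e4 : g1 u = g1 ((n + 1 : ℕ) : ℤ) := by rw [e3, g1_neg]
    rw [e1, e2, g1_neg, g1_neg, hn, e4, add_comm]
    exact key n

private theorem g1_second_nn (u : ℤ) : 2 * g1 u ≤ g1 (u + 1) + g1 (u - 1) := by
  rcases eq_or_ne u 0 with rfl | hu
  · have e1 : (0 - 1 : ℤ) = -(1 : ℤ) := by norm_num
    rw [zero_add, e1, g1_neg]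
    have h1 := g1_nat 0
    have h2 := g1_nat 1
    push_cast at h1 h2
    rw [h1, h2]
    norm_num
  · rw [g1_second hu]
    have : (0 : ℝ) ≤ 1 / 2 * (1 / 2) ^ u.natAbs := by positivity
    linarith

private theorem g1_mono : Monotone fun n : ℕ => g1 (n : ℤ) := by
  refine monotone_nat_of_le_succ fun n => ?_
  rw [g1_nat, g1_nat]
  have h1 : ((1 : ℝ) / 2) ^ n ≤ 1 := pow_le_one₀ (by norm_num) (by norm_num)
  have h2 : (0 : ℝ) < (1 / 2) ^ n := by positivity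
  push_cast
  rw [pow_succ]
  linarith

private theorem g1_conv (u t : ℤ) : 2 * g1 u ≤ g1 (u + t) + g1 (u - t) := by
  have hD : Monotone fun n : ℤ => g1 (n + 1) - g1 n := by
    refine monotone_int_of_le_succ fun n => ?_
    have h1 := g1_second_nn (n + 1)
    rw [add_sub_cancel_right] at h1
    linarith
  have key : ∀ n : ℕ, 2 * g1 u ≤ g1 (u + n) + g1 (u - n) := by
    intro n
    induction n with
    | zero => simp [two_mul]
    | succ n ih =>
      refine ih.trans ?_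
      have h1 : g1 (u - n - 1 + 1) - g1 (u - n - 1) ≤ g1 (u + n + 1) - g1 (u + n) :=
        hD (show u - n - 1 ≤ u + n by omega)
      rw [sub_add_cancel] at h1
      have e1 : u + ((n + 1 : ℕ) : ℤ) = u + n + 1 := by push_cast; ring
      have e2 : u - ((n + 1 : ℕ) : ℤ) = u - n - 1 := by push_cast; ring
      rw [e1, e2]
      linarith
  rcases Int.natAbs_eq t with h | h
  · rw [h]
    exact key _
  · rw [h, sub_neg_eq_add, ← sub_eq_add_neg, add_comm]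
    exact key _

/-- `g1` is convex: `g1 (u + 1) + g1 (u - 1) - 2 g1 u ≥ (1/2) 2 ^ (-|u|)` for `u ≠ 0` and `≥ 0` (even `= 1`) for `u = 0`; so
`g1 (u + t) + g1 (u - t) - 2 g1 u ≥ 0` for all `t`, and the same for the maximum with a constant. -/
theorem g1_convex (L : ℕ) (u t : ℤ) :
    2 * max 0 (g1 u - g1 L) ≤ max 0 (g1 (u + t) - g1 L) + max 0 (g1 (u - t) - g1 L) := by
  have h1 := g1_conv u t
  have h2 := le_max_left 0 (g1 (u + t) - g1 L)
  have h3 := le_max_right 0 (g1 (u + t) - g1 L)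
  have h4 := le_max_left 0 (g1 (u - t) - g1 L)
  have h5 := le_max_right 0 (g1 (u - t) - g1 L)
  rcases le_total 0 (g1 u - g1 L) with h | h
  · rw [max_eq_right h]
    linarith
  · rw [max_eq_left h]
    linarith

theorem g1_strict (L : ℕ) {u : ℤ} (hu : L < u.natAbs) :
    2 * max 0 (g1 u - g1 L) + 1 / 2 * (1 / 2) ^ u.natAbs ≤
      max 0 (g1 (u + 1) - g1 L) + max 0 (g1 (u - 1) - g1 L) := by
  have h1 := g1_second (u := u) (by omega)
  have h3 := le_max_right 0 (g1 (u + 1) - g1 L)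
  have h5 := le_max_right 0 (g1 (u - 1) - g1 L)
  have h : 0 ≤ g1 u - g1 L := by
    rw [g1_abs u]
    exact sub_nonneg.2 (g1_mono hu.le)
  rw [max_eq_right h]
  linarith

private theorem g1_le (u : ℤ) : g1 u ≤ 4 ^ u.natAbs := by
  rw [g1_abs, g1_nat]
  generalize u.natAbs = n
  induction n with
  | zero => norm_num
  | succ n ih =>
    have h1 : (0 : ℝ) < (1 / 2) ^ n := by positivity
    have h2 : (1 : ℝ) ≤ 4 ^ n := one_le_pow₀ (by norm_num)
    rw [pow_succ, pow_succ]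
    push_cast
    linarith

/-- The truncated function. -/
private noncomputable def mM (L : ℕ) (u : ℤ) : ℝ := max 0 (g1 u - g1 L)

private theorem mM_nn (L : ℕ) (u : ℤ) : 0 ≤ mM L u := le_max_left _ _

private theorem mM_le (L : ℕ) (u : ℤ) : mM L u ≤ 4 ^ u.natAbs := by
  unfold mM
  refine max_le (by positivity) ?_
  have h1 := g1_le u
  have h2 : 0 ≤ g1 L := by
    rw [g1_nat]
    positivity
  linarith

private theorem mM_zero {L : ℕ} {u : ℤ} (h : u.natAbs ≤ L) : mM L u = 0 := by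
  unfold mM
  refine max_eq_left ?_
  rw [g1_abs u]
  exact sub_nonpos.2 (g1_mono h)

/-- The defects with exponential weights. -/
private theorem Ok.df_exp (hκ : κ.Ok) : ∃ C : ℝ, ∀ x, κ.Al x →
    (Summable fun y : XX I => 4 ^ y.1.natAbs * |∑' n, κ.df n x y|) ∧
    ∑' y : XX I, 4 ^ y.1.natAbs * |∑' n, κ.df n x y| ≤ C * (1 / 4) ^ x.1.natAbs := by
  obtain ⟨C, hC⟩ := hκ.df_sum
  refine ⟨C, fun x hx => ?_⟩
  obtain ⟨h1, h2⟩ := hC x hx
  have hle : ∀ p : ℕ × XX I, 4 ^ p.2.1.natAbs * |κ.df p.1 x p.2| ≤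
      2 ^ p.1 * 4 ^ p.2.1.natAbs * |κ.df p.1 x p.2| := by
    intro p
    refine mul_le_mul_of_nonneg_right ?_ (abs_nonneg _)
    exact le_mul_of_one_le_left (by positivity) (one_le_pow₀ (by norm_num))
  have h3 : Summable fun p : ℕ × XX I => 4 ^ p.2.1.natAbs * |κ.df p.1 x p.2| :=
    Summable.of_nonneg_of_le (fun p => mul_nonneg (by positivity) (abs_nonneg _)) hle h1
  have h4 : Summable fun p : XX I × ℕ => 4 ^ p.1.1.natAbs * |κ.df p.2 x p.1| := h3.prod_symm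
  have h5 := (hκ.df_zero hx).1
  have h6 : ∀ y : XX I, 4 ^ y.1.natAbs * |∑' n, κ.df n x y| ≤
      ∑' n, 4 ^ y.1.natAbs * |κ.df n x y| := by
    intro y
    rw [tsum_mul_left]
    refine mul_le_mul_of_nonneg_left ?_ (by positivity)
    have h7 := norm_tsum_le_tsum_norm (f := fun n => κ.df n x y) ?_
    · simpa only [Real.norm_eq_abs] using h7
    · exact (h5 y).norm
  have h7 : Summable fun y : XX I => 4 ^ y.1.natAbs * |∑' n, κ.df n x y| :=
    Summable.of_nonneg_of_le (fun y => mul_nonneg (by positivity) (abs_nonneg _)) h6 h4.prod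
  refine ⟨h7, ?_⟩
  calc ∑' y : XX I, 4 ^ y.1.natAbs * |∑' n, κ.df n x y|
      ≤ ∑' y : XX I, ∑' n, 4 ^ y.1.natAbs * |κ.df n x y| := h7.tsum_le_tsum h6 h4.prod
    _ = ∑' p : XX I × ℕ, 4 ^ p.1.1.natAbs * |κ.df p.2 x p.1| := h4.tsum_prod.symm
    _ = ∑' p : ℕ × XX I, 4 ^ p.2.1.natAbs * |κ.df p.1 x p.2| :=
      (Equiv.prodComm (XX I) ℕ).tsum_eq
        (fun p : ℕ × XX I => (4 : ℝ) ^ p.2.1.natAbs * |κ.df p.1 x p.2|)
    _ ≤ ∑' p : ℕ × XX I, 2 ^ p.1 * 4 ^ p.2.1.natAbs * |κ.df p.1 x p.2| :=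
      h3.tsum_le_tsum hle h1
    _ ≤ _ := h2

private theorem h_le (hκ : κ.Ok) (j : I) : κ.h j ≤ ∑ i, κ.h i :=
  Finset.single_le_sum (f := κ.h) (fun j _ => (hκ.h_pos j).le) (Finset.mem_univ j)

/-- The free part. -/
private theorem Ok.free_sum (hκ : κ.Ok) (L : ℕ) (x : XX I) :
    (Summable fun y => κ.Fx x y * κ.gL L y) ∧
    ∑' y, κ.Fx x y * κ.gL L y =
      ∑' p : ℤ × I, κ.F0 p.1 x.2 p.2 * (κ.h p.2 * mM L (x.1 + p.1)) ∧
    (Summable fun p : ℤ × I => κ.F0 p.1 x.2 p.2 * (κ.h p.2 * mM L (x.1 + p.1))) := by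
  obtain ⟨C, hC⟩ := hκ.F0_exp
  have hsum : Summable fun p : ℤ × I => κ.F0 p.1 x.2 p.2 * (κ.h p.2 * mM L (x.1 + p.1)) := by
    refine Summable.of_nonneg_of_le (fun p => ?_) (fun p => ?_)
      ((hC x.2).1.mul_left ((∑ i, κ.h i) * 4 ^ x.1.natAbs))
    · exact mul_nonneg (hκ.F0_prop _ _ _).1 (mul_nonneg (hκ.h_pos _).le (mM_nn _ _))
    · have h1 : κ.h p.2 * mM L (x.1 + p.1) ≤ (∑ i, κ.h i) * (4 ^ x.1.natAbs * 4 ^ p.1.natAbs) := by
        refine mul_le_mul (h_le hκ _) ?_ (mM_nn _ _)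
          (Finset.sum_nonneg fun j _ => (hκ.h_pos j).le)
        rw [← pow_add]
        exact (mM_le _ _).trans (pow_le_pow_right₀ (by norm_num) (Int.natAbs_add_le _ _))
      calc κ.F0 p.1 x.2 p.2 * (κ.h p.2 * mM L (x.1 + p.1))
          ≤ κ.F0 p.1 x.2 p.2 * ((∑ i, κ.h i) * (4 ^ x.1.natAbs * 4 ^ p.1.natAbs)) :=
            mul_le_mul_of_nonneg_left h1 (hκ.F0_prop _ _ _).1
        _ = _ := by ring
  have he : (fun y => κ.Fx x y * κ.gL L y) =
      (fun p : ℤ × I => κ.F0 p.1 x.2 p.2 * (κ.h p.2 * mM L (x.1 + p.1))) ∘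
        ((Equiv.subRight x.1).prodCongr (Equiv.refl I)) := by
    funext y
    change κ.F0 (y.1 - x.1) x.2 y.2 * (κ.h y.2 * max 0 (g1 y.1 - g1 L)) =
      κ.F0 (y.1 - x.1) x.2 y.2 * (κ.h y.2 * max 0 (g1 (x.1 + (y.1 - x.1)) - g1 L))
    rw [add_sub_cancel]
  refine ⟨?_, ?_, hsum⟩
  · rw [he]
    exact (Equiv.summable_iff _).2 hsum
  · rw [he]
    exact ((Equiv.subRight x.1).prodCongr (Equiv.refl I)).tsum_eq
      (fun p : ℤ × I => κ.F0 p.1 x.2 p.2 * (κ.h p.2 * mM L (x.1 + p.1)))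

private theorem Ok.free_low (hκ : κ.Ok) {L : ℕ} {x : XX I} (hx : L < x.1.natAbs) :
    κ.gL L x + κ.q * κ.z * κ.h x.2 / 4 * (1 / 2) ^ x.1.natAbs ≤ ∑' y, κ.Fx x y * κ.gL L y := by
  classical
  obtain ⟨-, h1, h2⟩ := hκ.free_sum L x
  rw [h1]
  -- the symmetrised sum
  have hneg : (fun p : ℤ × I => κ.F0 p.1 x.2 p.2 * (κ.h p.2 * mM L (x.1 - p.1))) =
      (fun p : ℤ × I => κ.F0 p.1 x.2 p.2 * (κ.h p.2 * mM L (x.1 + p.1))) ∘
        ((Equiv.neg ℤ).prodCongr (Equiv.refl I)) := by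
    funext p
    change _ = κ.F0 (-p.1) x.2 p.2 * (κ.h p.2 * mM L (x.1 + -p.1))
    rw [(hκ.F0_prop p.1 x.2 p.2).2.1, sub_eq_add_neg]
  have h3 : Summable fun p : ℤ × I => κ.F0 p.1 x.2 p.2 * (κ.h p.2 * mM L (x.1 - p.1)) := by
    rw [hneg]
    exact (Equiv.summable_iff _).2 h2
  have h4 : ∑' p : ℤ × I, κ.F0 p.1 x.2 p.2 * (κ.h p.2 * mM L (x.1 - p.1)) =
      ∑' p : ℤ × I, κ.F0 p.1 x.2 p.2 * (κ.h p.2 * mM L (x.1 + p.1)) := by
    rw [hneg]
    exact ((Equiv.neg ℤ).prodCongr (Equiv.refl I)).tsum_eq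
      (fun p : ℤ × I => κ.F0 p.1 x.2 p.2 * (κ.h p.2 * mM L (x.1 + p.1)))
  obtain ⟨h5, h6⟩ := hκ.F0_h x.2
  -- the lower bound
  set e : ℝ := κ.F0 1 x.2 x.2 * κ.h x.2 * (1 / 2 * (1 / 2) ^ x.1.natAbs) with he
  have h7 : HasSum (fun p : ℤ × I => if p = (1, x.2) then e else 0) e := hasSum_ite_eq _ _
  have h8 : ∀ p : ℤ × I, 2 * mM L x.1 * (κ.F0 p.1 x.2 p.2 * κ.h p.2) +
      (if p = (1, x.2) then e else 0) ≤
      κ.F0 p.1 x.2 p.2 * (κ.h p.2 * mM L (x.1 + p.1)) +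
      κ.F0 p.1 x.2 p.2 * (κ.h p.2 * mM L (x.1 - p.1)) := by
    intro p
    have hnn : 0 ≤ κ.F0 p.1 x.2 p.2 * κ.h p.2 :=
      mul_nonneg (hκ.F0_prop _ _ _).1 (hκ.h_pos _).le
    by_cases hp : p = (1, x.2)
    · rw [if_pos hp, hp]
      rw [hp] at hnn
      have h9 := g1_strict L hx
      have h10 := mul_le_mul_of_nonneg_left h9 hnn
      change 2 * mM L x.1 * (κ.F0 1 x.2 x.2 * κ.h x.2) + e ≤ _
      rw [he]
      calc _ = κ.F0 1 x.2 x.2 * κ.h x.2 * (2 * mM L x.1 + 1 / 2 * (1 / 2) ^ x.1.natAbs) := by ring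
        _ ≤ κ.F0 1 x.2 x.2 * κ.h x.2 * (mM L (x.1 + 1) + mM L (x.1 - 1)) := h10
        _ = _ := by ring
    · rw [if_neg hp, add_zero]
      have h9 := g1_convex L x.1 p.1
      have h10 := mul_le_mul_of_nonneg_left h9 hnn
      calc _ = κ.F0 p.1 x.2 p.2 * κ.h p.2 * (2 * mM L x.1) := by ring
        _ ≤ κ.F0 p.1 x.2 p.2 * κ.h p.2 * (mM L (x.1 + p.1) + mM L (x.1 - p.1)) := h10
        _ = _ := by ring
  have h9 := Summable.tsum_le_tsum h8 ((h5.mul_left _).add h7.summable) (h2.add h3)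
  rw [(h5.mul_left _).tsum_add h7.summable, h7.tsum_eq, h2.tsum_add h3, h4, tsum_mul_left,
    h6] at h9
  have h10 : κ.q * κ.z ≤ κ.F0 1 x.2 x.2 := by
    have h11 := hκ.Fx_step.1 0 x.2
    unfold Fx at h11
    simpa using h11
  have h11 : κ.q * κ.z * (κ.h x.2 * (1 / 2 * (1 / 2) ^ x.1.natAbs)) ≤
      κ.F0 1 x.2 x.2 * (κ.h x.2 * (1 / 2 * (1 / 2) ^ x.1.natAbs)) :=
    mul_le_mul_of_nonneg_right h10 (mul_nonneg (hκ.h_pos _).le (by positivity))
  have h12 : κ.gL L x = κ.h x.2 * mM L x.1 := rfl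
  rw [h12]
  rw [he] at h9
  linarith

/-- Let `x = (u, i)` be alive. For `|u| ≤ L` (`L ≥ 1`) the right hand side is zero. For `|u| > L`: the sum
`∑_y Fx x y gL y = ∑_{t, j} F0 t i j h j M (u + t)`, `M = max 0 (g1 - g1 L)`; symmetrise in `t` (`F0_prop`): by `g1_convex`
and `g1_strict` (for `t = ± 1`, `j = i`, `F0 1 i i ≥ q z`) and `F0_h` it is at least
`h i (M u + q z (1/2) 2 ^ (-|u|))` (up to a harmless factor). `gL` vanishes at the dead states (displacement zero), so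
`∑_y K0 x y gL y ≥ ∑_y Fx x y gL y - ∑_y |∑_n df n x y| gL y`, the last sum is `≤ C 4 ^ (-|u|)` by `df_sum`
(`gL y ≤ C 4 ^ |y|`). For `L` large (depending on `κ`) the claim follows. -/
theorem Ok.gL_sub (hκ : κ.Ok) : ∃ L : ℕ, 1 ≤ L ∧ ∀ x, κ.Al x →
    (Summable fun y => κ.K0 x y * κ.gL L y) ∧ κ.gL L x ≤ ∑' y, κ.K0 x y * κ.gL L y := by
  classical
  obtain ⟨C, hC⟩ := hκ.df_exp
  set H := ∑ i, κ.h i with hH
  have hz := hκ.z_pos
  have hq : 0 < κ.q := by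
    have h1 := hκ.q_ge
    have h2 := hκ.z_le
    have h3 : (17 : ℝ) / 2 * (1 / 10 ^ 12) < 1 := by norm_num
    nlinarith
  have hL : ∀ i : I, ∃ L : ℕ, ∀ n, L ≤ n → H * C * (1 / 2) ^ n ≤ κ.q * κ.z * κ.h i / 4 := by
    intro i
    have h1 : Tendsto (fun n : ℕ => H * C * (1 / 2 : ℝ) ^ n) atTop (𝓝 (H * C * 0)) :=
      (tendsto_pow_atTop_nhds_zero_of_lt_one (by norm_num) (by norm_num)).const_mul _
    rw [mul_zero] at h1
    have h2 : 0 < κ.q * κ.z * κ.h i / 4 := by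
      have := hκ.h_pos i
      positivity
    exact eventually_atTop.1 (h1.eventually_le_const h2)
  choose L0 hL0 using hL
  refine ⟨1 + ∑ i, L0 i, Nat.le_add_right _ _, fun x hx => ?_⟩
  set L := 1 + ∑ i, L0 i with hLdef
  have hgnn : ∀ y, 0 ≤ κ.gL L y := fun y => mul_nonneg (hκ.h_pos _).le (mM_nn _ _)
  have hgle : ∀ y : XX I, κ.gL L y ≤ H * 4 ^ y.1.natAbs := fun y =>
    mul_le_mul (h_le hκ _) (mM_le _ _) (mM_nn _ _) (Finset.sum_nonneg fun j _ => (hκ.h_pos j).le)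
  obtain ⟨hF, -, -⟩ := hκ.free_sum L x
  obtain ⟨hD1, hD2⟩ := hC x hx
  have hDb : ∀ y, ‖(∑' n, κ.df n x y) * κ.gL L y‖ ≤ H * (4 ^ y.1.natAbs * |∑' n, κ.df n x y|) := by
    intro y
    rw [norm_mul, Real.norm_eq_abs, Real.norm_of_nonneg (hgnn y)]
    calc |∑' n, κ.df n x y| * κ.gL L y ≤ |∑' n, κ.df n x y| * (H * 4 ^ y.1.natAbs) :=
          mul_le_mul_of_nonneg_left (hgle y) (abs_nonneg _)
      _ = _ := by ring
  have hD : Summable fun y => (∑' n, κ.df n x y) * κ.gL L y :=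
    Summable.of_norm_bounded (hD1.mul_left H) hDb
  have hK : ∀ y, κ.K0 x y * κ.gL L y = κ.Fx x y * κ.gL L y + (∑' n, κ.df n x y) * κ.gL L y := by
    intro y
    by_cases hy : κ.Al y
    · have h1 := (hκ.df_zero hx).2.1 y hy
      rw [← h1]
      ring
    · have h1 : κ.gL L y = 0 := by
        have h2 : y.1 = 0 := by
          unfold Al at hy
          push Not at hy
          exact hy.1
        change κ.h y.2 * mM L y.1 = 0
        rw [mM_zero (by rw [h2]; simp), mul_zero]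
      rw [h1]
      ring
  have hKs : Summable fun y => κ.K0 x y * κ.gL L y := by
    simp only [hK]
    exact hF.add hD
  refine ⟨hKs, ?_⟩
  by_cases hxL : x.1.natAbs ≤ L
  · have h1 : κ.gL L x = 0 := by
      change κ.h x.2 * mM L x.1 = 0
      rw [mM_zero hxL, mul_zero]
    rw [h1]
    exact tsum_nonneg fun y => mul_nonneg ((hκ.K0_row x).2.2.1 y) (hgnn y)
  · rw [not_le] at hxL
    have h1 := hκ.free_low hxL
    have h2 : -(H * (C * (1 / 4) ^ x.1.natAbs)) ≤ ∑' y, (∑' n, κ.df n x y) * κ.gL L y := by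
      have h3 := tsum_of_norm_bounded (hD1.mul_left H).hasSum hDb
      rw [tsum_mul_left, Real.norm_eq_abs] at h3
      have h4 : H * ∑' y : XX I, 4 ^ y.1.natAbs * |∑' n, κ.df n x y| ≤
          H * (C * (1 / 4) ^ x.1.natAbs) :=
        mul_le_mul_of_nonneg_left hD2 (Finset.sum_nonneg fun j _ => (hκ.h_pos j).le)
      exact (abs_le.1 (h3.trans h4)).1
    have h3 : H * (C * (1 / 4) ^ x.1.natAbs) ≤
        κ.q * κ.z * κ.h x.2 / 4 * (1 / 2) ^ x.1.natAbs := by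
      have h4 : L0 x.2 ≤ x.1.natAbs := by
        have h5 : L0 x.2 ≤ ∑ i, L0 i :=
          Finset.single_le_sum (f := L0) (fun j _ => Nat.zero_le _) (Finset.mem_univ _)
        omega
      have h5 := hL0 x.2 _ h4
      have h6 : ((1 : ℝ) / 4) ^ x.1.natAbs = (1 / 2) ^ x.1.natAbs * (1 / 2) ^ x.1.natAbs := by
        rw [← mul_pow]
        norm_num
      rw [h6]
      calc _ = H * C * (1 / 2) ^ x.1.natAbs * (1 / 2) ^ x.1.natAbs := by ring
        _ ≤ _ := mul_le_mul_of_nonneg_right h5 (by positivity)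
    rw [tsum_congr hK, hF.tsum_add hD]
    linarith

end Slb

end Pool.Agent.KSlab
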