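import Pool.Agent.KSlab.Beta

/-! SL22b: the limit of the critical measure at infinity is not zero. -/

set_option autoImplicit false

open Set Filter Topology
open scoped ENNReal

namespace Pool.Agent.KSlab

namespace Slb

variable {I : Type} [Fintype I] {κ : Slb I} {m : XX I → ℝ}

private theorem bp_sum {r : ℝ} (hr0 : 0 < r) (hr : r < 1) (b : I → ℝ) (hb : ∀ i, 0 ≤ b i) :
    Summable fun x : XX I => (((x.1.natAbs : ℝ) + 1) * r ^ x.1.natAbs) * b x.2 := by
  have hn : Summable fun n : ℕ => ((n : ℝ) + 1) * r ^ n := by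
    have h1 := summable_pow_mul_geometric_of_norm_lt_one (R := ℝ) 1 (r := r)
      (by rw [Real.norm_of_nonneg hr0.le]; exact hr)
    have h2 := summable_geometric_of_lt_one hr0.le hr
    refine (h1.add h2).congr fun n => ?_
    rw [pow_one]
    ring
  have hz : Summable fun u : ℤ => ((u.natAbs : ℝ) + 1) * r ^ u.natAbs := by
    rw [summable_int_iff_summable_nat_and_neg]
    refine ⟨hn.congr fun n => by simp, hn.congr fun n => by simp⟩
  exact hz.mul_of_nonneg (g := b) (Summable.of_finite) (fun u => by positivity) hb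

private theorem bp_g1_nn (u : ℤ) : 0 ≤ g1 u := by
  unfold g1
  positivity

private theorem bp_gL_le (hκ : κ.Ok) (L : ℕ) (x : XX I) :
    κ.gL L x ≤ κ.h x.2 * ((x.1.natAbs : ℝ) + 1) := by
  unfold gL
  refine mul_le_mul_of_nonneg_left ?_ (hκ.h_pos _).le
  refine max_le (by positivity) ?_
  have h1 := bp_g1_nn (L : ℤ)
  have h2 : g1 x.1 ≤ (x.1.natAbs : ℝ) + 1 := by
    unfold g1
    have : ((1 : ℝ) / 2) ^ x.1.natAbs ≤ 1 := pow_le_one₀ (by norm_num) (by norm_num)
    linarith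
  linarith

private theorem bp_gL_nn (hκ : κ.Ok) (L : ℕ) (x : XX I) : 0 ≤ κ.gL L x :=
  mul_nonneg (hκ.h_pos _).le (le_max_left _ _)

/-- Suppose `β = 0`. Then `∑_x m x gL x < ∞` (`gL x ≤ C (1 + |u|)`), so with `IsM.tot`
`∑_N ∑_x MM 0 N x gL x < ∞`. But `∑_x MM 0 (N + 1) x gL x = ∑_y MM 0 N y ∑_x K0 y x gL x ≥
∑_y MM 0 N y gL y` (`gL_sub`; `MM` vanishes at the dead states) and the value for `N = 0` is
positive (`c_pos` at a state with `|u| > L`). -/
theorem Ok.beta_pos (hκ : κ.Ok) (hm : κ.IsM m) {β r C : ℝ} (hβ : 0 ≤ β) (hr0 : 0 < r)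
    (hr : r < 1) (h : ∀ x : XX I, |m x - β * κ.h x.2| ≤ C * r ^ x.1.natAbs) : 0 < β := by
  rcases hβ.eq_or_lt with h0 | h0
  swap
  · exact h0
  exfalso
  obtain ⟨L, hL1, hL⟩ := hκ.gL_sub
  obtain ⟨i, -⟩ := hκ.dead_ne
  obtain ⟨μ, g1', -, -, g2, g3⟩ := hκ.exists_iter (σ := 0) le_rfl
  have hmle : ∀ x : XX I, m x ≤ C * r ^ x.1.natAbs := by
    intro x
    have h1 := h x
    rw [← h0, zero_mul, sub_zero] at h1
    exact (le_abs_self _).trans h1
  have hC : 0 ≤ C := by
    have h1 := (hm.nn (0, i)).trans (hmle (0, i))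
    simpa using h1
  -- the total is finite
  have hsum : Summable fun x : XX I => m x * κ.gL L x := by
    have h1 := (bp_sum hr0 hr κ.h fun i => (hκ.h_pos i).le).mul_left C
    refine Summable.of_nonneg_of_le (fun x => mul_nonneg (hm.nn x) (bp_gL_nn hκ L x))
      (fun x => ?_) h1
    calc m x * κ.gL L x ≤ (C * r ^ x.1.natAbs) * (κ.h x.2 * ((x.1.natAbs : ℝ) + 1)) :=
          mul_le_mul (hmle x) (bp_gL_le hκ L x) (bp_gL_nn hκ L x)
            (mul_nonneg hC (by positivity))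
      _ = _ := by ring
  have hk0 : ∀ x y, κ.kE 0 x y = ENNReal.ofReal (κ.K0 x y) := by
    intro x y
    change ENNReal.ofReal (∑' n : ℕ, κ.k n x y * Real.exp (-n * 0)) = _
    congr 1
    refine tsum_congr fun n => ?_
    rw [mul_zero, Real.exp_zero, mul_one]
  have htot : ∑' N, ∑' x, κ.MM 0 N x * ENNReal.ofReal (κ.gL L x) ≠ ⊤ := by
    rw [ENNReal.tsum_comm]
    have h1 : ∀ x, ∑' N, κ.MM 0 N x * ENNReal.ofReal (κ.gL L x) =
        ENNReal.ofReal (m x * κ.gL L x) := by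
      intro x
      rw [ENNReal.tsum_mul_right, hm.tot, ← ENNReal.ofReal_mul (hm.nn x)]
    simp only [h1]
    exact hsum.tsum_ofReal_ne_top
  -- monotonicity
  have hmono : ∀ N, ∑' x, κ.MM 0 N x * ENNReal.ofReal (κ.gL L x) ≤
      ∑' x, κ.MM 0 (N + 1) x * ENNReal.ofReal (κ.gL L x) := by
    intro N
    have h1 : ∑' x, κ.MM 0 (N + 1) x * ENNReal.ofReal (κ.gL L x) =
        ∑' y, κ.MM 0 N y * ∑' x, κ.kE 0 y x * ENNReal.ofReal (κ.gL L x) := by
      have h2 : ∀ x, κ.MM 0 (N + 1) x * ENNReal.ofReal (κ.gL L x) =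
          ∑' y, κ.MM 0 N y * κ.kE 0 y x * ENNReal.ofReal (κ.gL L x) := fun x => by
        rw [ENNReal.tsum_mul_right]
        rfl
      simp only [h2]
      rw [ENNReal.tsum_comm]
      refine tsum_congr fun y => ?_
      rw [← ENNReal.tsum_mul_left]
      refine tsum_congr fun x => ?_
      rw [mul_assoc]
    rw [h1]
    refine ENNReal.tsum_le_tsum fun y => ?_
    by_cases hy : κ.Al y
    · refine mul_le_mul_right ?_ _
      obtain ⟨h2, h3⟩ := hL y hy
      have h4 : ∑' x, κ.kE 0 y x * ENNReal.ofReal (κ.gL L x) =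
          ENNReal.ofReal (∑' x, κ.K0 y x * κ.gL L x) := by
        rw [ENNReal.ofReal_tsum_of_nonneg (fun x => mul_nonneg ((hκ.K0_row y).2.2.1 x)
          (bp_gL_nn hκ L x)) h2]
        refine tsum_congr fun x => ?_
        rw [hk0, ENNReal.ofReal_mul ((hκ.K0_row y).2.2.1 x)]
      rw [h4]
      exact ENNReal.ofReal_le_ofReal h3
    · rw [g2 N y hy, zero_mul]
      exact zero_le
  have hall : ∀ N, ∑' x, κ.MM 0 0 x * ENNReal.ofReal (κ.gL L x) ≤
      ∑' x, κ.MM 0 N x * ENNReal.ofReal (κ.gL L x) := by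
    intro N
    induction N with
    | zero => exact le_rfl
    | succ N ih => exact ih.trans (hmono N)
  -- positivity
  have hpos : ∑' x, κ.MM 0 0 x * ENNReal.ofReal (κ.gL L x) ≠ 0 := by
    intro hz
    have h1 := ENNReal.tsum_eq_zero.1 hz (((L + 1 : ℕ) : ℤ), i)
    have hal : κ.Al (((L + 1 : ℕ) : ℤ), i) := by
      rintro ⟨h2, -⟩
      have h3 : ((L + 1 : ℕ) : ℤ) = 0 := h2
      omega
    rcases mul_eq_zero.1 h1 with h2 | h2
    · obtain ⟨n, hn⟩ := hκ.c_pos _ hal
      obtain ⟨D, hD⟩ := hκ.c_sum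
      have h3 : Summable fun n => κ.c n (((L + 1 : ℕ) : ℤ), i) :=
        Summable.of_nonneg_of_le (fun n => hκ.c_nn _ _)
          (fun n => le_mul_of_one_le_left (hκ.c_nn _ _) (one_le_pow₀ (by norm_num)))
          (hD (((L + 1 : ℕ) : ℤ), i)).1
      have h4 : κ.MM 0 0 (((L + 1 : ℕ) : ℤ), i) =
          ENNReal.ofReal (∑' n, κ.c n (((L + 1 : ℕ) : ℤ), i)) := by
        change ENNReal.ofReal (∑' n : ℕ, κ.c n (((L + 1 : ℕ) : ℤ), i) *
          Real.exp (-n * 0)) = _
        congr 1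
        refine tsum_congr fun n => ?_
        rw [mul_zero, Real.exp_zero, mul_one]
      rw [h4, ENNReal.ofReal_eq_zero] at h2
      have h5 := h3.tsum_pos (fun n => hκ.c_nn _ _) n hn
      linarith
    · rw [ENNReal.ofReal_eq_zero] at h2
      have h3 : 0 < κ.gL L (((L + 1 : ℕ) : ℤ), i) := by
        unfold gL
        refine mul_pos (hκ.h_pos _) (lt_max_of_lt_right ?_)
        unfold g1
        simp only [Int.natAbs_natCast]
        have h4 : ((1 : ℝ) / 2) ^ L ≤ 1 / 2 := by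
          calc ((1 : ℝ) / 2) ^ L ≤ (1 / 2) ^ 1 :=
                pow_le_pow_of_le_one (by norm_num) (by norm_num) hL1
            _ = 1 / 2 := pow_one _
        have h5 : (0 : ℝ) < (1 / 2) ^ (L + 1) := by positivity
        push_cast
        linarith
      linarith
  apply htot
  refine top_unique ?_
  calc (⊤ : ℝ≥0∞) = ∑' _ : ℕ, ∑' x, κ.MM 0 0 x * ENNReal.ofReal (κ.gL L x) :=
        (ENNReal.tsum_const_eq_top_of_ne_zero hpos).symm
    _ ≤ _ := ENNReal.tsum_le_tsum hall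

end Slb

end Pool.Agent.KSlab
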