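import Pool.Agent.KSlab.Defs

/-! SL18: the differences along a pair as sums of coordinates; weights (definitions). -/

set_option autoImplicit false

open Set Filter Topology

namespace Pool.Agent.KSlab

namespace Slb

variable {I : Type}

/-- The difference of the values at `y` and `x` of the function `γ` with `γ (v + 1, i₀) - γ (v, i₀) = p v`
and `γ x - γ (x.1, i₀) = δ x`. -/
noncomputable def LL (p : ℤ → ℝ) (δ : XX I → ℝ) (x y : XX I) : ℝ :=
  δ y - δ x + (∑ v ∈ Finset.Ico x.1 y.1, p v - ∑ v ∈ Finset.Ico y.1 x.1, p v)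

/-- The weight of a pair. -/
noncomputable def wp (κ : Slb I) (e : XX I × XX I) : ℝ := κ.Fx e.1 e.2 * κ.h e.1.2 * κ.h e.2.2

/-- The truncated exponential weight. -/
noncomputable def Wt (ρ : ℝ) (L : ℕ) (u : ℤ) : ℝ := ρ ^ (min u.natAbs L)

end Slb

end Pool.Agent.KSlab
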