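import Pool.Agent.KSlab.RowF
import Pool.Agent.KSlab.CTd

/-! SL18: upper bound of the energy form in terms of differences. -/

set_option autoImplicit false

open Set Filter Topology

namespace Pool.Agent.KSlab

namespace Slb

variable {I : Type} [Fintype I] {κ : Slb I}

private theorem cta_Ico (a : ℤ → ℝ) (b : ℤ) (n : ℕ) :
    ∑ v ∈ Finset.Ico b (b + n), a v = ∑ k ∈ Finset.range n, a (b + k) := by
  have h : Finset.Ico b (b + n) =
      (Finset.range n).map ⟨fun k : ℕ => b + k, fun x y h => by simpa using h⟩ := by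
    ext v
    simp only [Finset.mem_Ico, Finset.mem_map, Finset.mem_range, Function.Embedding.coeFn_mk]
    constructor
    · rintro ⟨h1, h2⟩
      exact ⟨(v - b).toNat, by omega, by omega⟩
    · rintro ⟨k, hk, rfl⟩
      omega
  rw [h, Finset.sum_map]
  rfl

private theorem cta_window {a : ℤ → ℝ} (ha : Summable a) (c : ℤ) (n : ℕ) :
    (Summable fun u : ℤ => ∑ k ∈ Finset.range n, a (u + c + k)) ∧
      ∑' u : ℤ, ∑ k ∈ Finset.range n, a (u + c + k) = n * ∑' u, a u := by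
  have h1 : ∀ k : ℕ, Summable fun u : ℤ => a (u + c + k) := by
    intro k
    have h2 := ((Equiv.addRight (c + k)).summable_iff (f := a)).2 ha
    refine h2.congr fun u => ?_
    rw [Function.comp_apply, Equiv.coe_addRight, add_assoc]
  have h2 : ∀ k : ℕ, ∑' u : ℤ, a (u + c + k) = ∑' u, a u := by
    intro k
    rw [← (Equiv.addRight (c + k)).tsum_eq a]
    refine tsum_congr fun u => ?_
    rw [Equiv.coe_addRight, add_assoc]
  refine ⟨summable_sum fun k _ => h1 k, ?_⟩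
  rw [Summable.tsum_finsetSum fun k _ => h1 k, Finset.sum_congr rfl fun k _ => h2 k,
    Finset.sum_const, Finset.card_range, nsmul_eq_mul]

private theorem cta_pow (n : ℕ) : (1 + (n : ℝ) ^ 2) * 3 ^ n ≤ 20 * 4 ^ n := by
  have h1 : ∀ n : ℕ, 1 + (n : ℝ) / 3 ≤ (4 / 3) ^ n ∧
      1 + (n : ℝ) / 3 + n * (n - 1) / 18 ≤ (4 / 3) ^ n := by
    intro n
    induction n with
    | zero => norm_num
    | succ n ih =>
      have h0 : (0 : ℝ) ≤ n := Nat.cast_nonneg n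
      rw [pow_succ]
      push_cast
      constructor
      · nlinarith [ih.1]
      · nlinarith [ih.1, ih.2]
  have h2 := (h1 n).2
  have h3 : (4 : ℝ) ^ n = (4 / 3) ^ n * 3 ^ n := by
    rw [← mul_pow]
    norm_num
  rw [h3, ← mul_assoc]
  refine mul_le_mul_of_nonneg_right ?_ (by positivity)
  have h0 : (0 : ℝ) ≤ n := Nat.cast_nonneg n
  nlinarith

/-- The sum over the pairs with the same displacement and the same internal states. -/
private theorem cta_inner {p : ℤ → ℝ} {δ : XX I → ℝ} (hp : Summable fun u => p u ^ 2)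
    (hδ : Summable fun x => δ x ^ 2) (i j : I) (t : ℤ) :
    (Summable fun u : ℤ => (|δ (u, i)| + |δ (u + t, j)| + ∑ v ∈ Finset.Ico u (u + t), |p v| +
      ∑ v ∈ Finset.Ico (u + t) u, |p v|) ^ 2) ∧
    ∑' u : ℤ, (|δ (u, i)| + |δ (u + t, j)| + ∑ v ∈ Finset.Ico u (u + t), |p v| +
      ∑ v ∈ Finset.Ico (u + t) u, |p v|) ^ 2 ≤
      8 * (1 + (t.natAbs : ℝ) ^ 2) * (∑' u, p u ^ 2 + ∑' x, δ x ^ 2) := by
  have hP : 0 ≤ ∑' u, p u ^ 2 := tsum_nonneg fun u => sq_nonneg _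
  have hD : 0 ≤ ∑' x, δ x ^ 2 := tsum_nonneg fun u => sq_nonneg _
  have hi1 : Function.Injective fun u : ℤ => ((u, i) : XX I) := fun a b h => by simpa using h
  have hi2 : Function.Injective fun u : ℤ => ((u + t, j) : XX I) := fun a b h => by
    simpa using h
  have s1 : Summable fun u : ℤ => δ (u, i) ^ 2 := hδ.comp_injective hi1
  have s2 : Summable fun u : ℤ => δ (u + t, j) ^ 2 := hδ.comp_injective hi2
  have l1 : ∑' u : ℤ, δ (u, i) ^ 2 ≤ ∑' x, δ x ^ 2 :=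
    tsum_comp_le_tsum_of_inj hδ (fun _ => sq_nonneg _) hi1
  have l2 : ∑' u : ℤ, δ (u + t, j) ^ 2 ≤ ∑' x, δ x ^ 2 :=
    tsum_comp_le_tsum_of_inj hδ (fun _ => sq_nonneg _) hi2
  have w1 := cta_window hp 0 t.toNat
  have w2 := cta_window hp t (-t).toNat
  set n : ℝ := (t.natAbs : ℝ) with hn
  have hn0 : 0 ≤ n := Nat.cast_nonneg _
  have e1 : ∀ u : ℤ, Finset.Ico u (u + t) = Finset.Ico (u + 0) (u + 0 + (t.toNat : ℤ)) := by
    intro u
    ext v
    simp only [Finset.mem_Ico]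
    omega
  have e2 : ∀ u : ℤ, Finset.Ico (u + t) u =
      Finset.Ico (u + t) (u + t + ((-t).toNat : ℤ)) := by
    intro u
    ext v
    simp only [Finset.mem_Ico]
    omega
  have c1 : ((t.toNat : ℕ) : ℝ) ≤ n := by
    rw [hn]
    exact_mod_cast (by omega : t.toNat ≤ t.natAbs)
  have c2 : (((-t).toNat : ℕ) : ℝ) ≤ n := by
    rw [hn]
    exact_mod_cast (by omega : (-t).toNat ≤ t.natAbs)
  have c3 : ((t.toNat : ℕ) : ℝ) + (((-t).toNat : ℕ) : ℝ) = n := by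
    rw [hn]
    exact_mod_cast (by omega : t.toNat + (-t).toNat = t.natAbs)
  have q1 : ∀ u : ℤ, (∑ v ∈ Finset.Ico u (u + t), |p v|) ^ 2 ≤
      n * ∑ k ∈ Finset.range t.toNat, p (u + 0 + k) ^ 2 := by
    intro u
    rw [e1, cta_Ico]
    refine sq_sum_le_card_mul_sum_sq.trans ?_
    rw [Finset.card_range, Finset.sum_congr rfl fun k _ => sq_abs _]
    exact mul_le_mul_of_nonneg_right c1 (Finset.sum_nonneg fun _ _ => sq_nonneg _)
  have q2 : ∀ u : ℤ, (∑ v ∈ Finset.Ico (u + t) u, |p v|) ^ 2 ≤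
      n * ∑ k ∈ Finset.range (-t).toNat, p (u + t + k) ^ 2 := by
    intro u
    rw [e2, cta_Ico]
    refine sq_sum_le_card_mul_sum_sq.trans ?_
    rw [Finset.card_range, Finset.sum_congr rfl fun k _ => sq_abs _]
    exact mul_le_mul_of_nonneg_right c2 (Finset.sum_nonneg fun _ _ => sq_nonneg _)
  have key : ∀ u : ℤ, (|δ (u, i)| + |δ (u + t, j)| + ∑ v ∈ Finset.Ico u (u + t), |p v| +
      ∑ v ∈ Finset.Ico (u + t) u, |p v|) ^ 2 ≤
      4 * (δ (u, i) ^ 2 + δ (u + t, j) ^ 2 +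
        (n * ∑ k ∈ Finset.range t.toNat, p (u + 0 + k) ^ 2 +
          n * ∑ k ∈ Finset.range (-t).toNat, p (u + t + k) ^ 2)) := by
    intro u
    have h1 := q1 u
    have h2 := q2 u
    have h3 := sq_abs (δ (u, i))
    have h4 := sq_abs (δ (u + t, j))
    set a := |δ (u, i)|
    set b := |δ (u + t, j)|
    set c := ∑ v ∈ Finset.Ico u (u + t), |p v|
    set d := ∑ v ∈ Finset.Ico (u + t) u, |p v|
    nlinarith [sq_nonneg (a - b), sq_nonneg (a - c), sq_nonneg (a - d), sq_nonneg (b - c),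
      sq_nonneg (b - d), sq_nonneg (c - d)]
  have sB : Summable fun u : ℤ => 4 * (δ (u, i) ^ 2 + δ (u + t, j) ^ 2 +
        (n * ∑ k ∈ Finset.range t.toNat, p (u + 0 + k) ^ 2 +
          n * ∑ k ∈ Finset.range (-t).toNat, p (u + t + k) ^ 2)) :=
    ((s1.add s2).add ((w1.1.mul_left n).add (w2.1.mul_left n))).mul_left 4
  have sT := Summable.of_nonneg_of_le (fun _ => sq_nonneg _) key sB
  refine ⟨sT, (sT.tsum_le_tsum key sB).trans ?_⟩
  rw [tsum_mul_left, (s1.add s2).tsum_add ((w1.1.mul_left n).add (w2.1.mul_left n)),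
    s1.tsum_add s2, (w1.1.mul_left n).tsum_add (w2.1.mul_left n), tsum_mul_left, tsum_mul_left,
    w1.2, w2.2, ← mul_assoc, ← mul_assoc, ← add_mul, ← mul_add, c3]
  nlinarith [mul_nonneg (sq_nonneg n) hP, mul_nonneg (sq_nonneg n) hD]

private def ctaE (I : Type) : XX I × XX I ≃ (I × (ℤ × I)) × ℤ where
  toFun e := ((e.1.2, (e.2.1 - e.1.1, e.2.2)), e.1.1)
  invFun a := ((a.2, a.1.1), (a.2 + a.1.2.1, a.1.2.2))
  left_inv := by
    rintro ⟨⟨u, i⟩, ⟨v, j⟩⟩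
    simp
  right_inv := by
    rintro ⟨⟨i, ⟨t, j⟩⟩, u⟩
    simp

/-- Upper bound. For the pair `e = (x, y)`, `t = y.1 - x.1`:
`LL² ≤ (|t| + 2) (δ x² + δ y² + ∑ p v²)` where the sum is over the `|t|` integers between
(Cauchy-Schwarz). Multiply by `wp e ≤ C F0 t` and any polynomial in `|t|` (dominated by
`2 ^ |t|`) and sum: every coordinate `p v` occurs in `|t|` pairs for each `t`, `i`, `j`, every
`δ x` in two. Uses `F0_exp`. -/
theorem Ok.ll_sum (hκ : κ.Ok) : ∃ C : ℝ, 0 < C ∧ ∀ (p : ℤ → ℝ) (δ : XX I → ℝ),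
    (Summable fun u => p u ^ 2) → (Summable fun x => δ x ^ 2) →
    (Summable fun e : XX I × XX I => κ.wp e * 3 ^ (e.2.1 - e.1.1).natAbs *
      (|δ e.1| + |δ e.2| + ∑ v ∈ Finset.Ico e.1.1 e.2.1, |p v| +
        ∑ v ∈ Finset.Ico e.2.1 e.1.1, |p v|) ^ 2) ∧
    ∑' e : XX I × XX I, κ.wp e * 3 ^ (e.2.1 - e.1.1).natAbs *
      (|δ e.1| + |δ e.2| + ∑ v ∈ Finset.Ico e.1.1 e.2.1, |p v| +
        ∑ v ∈ Finset.Ico e.2.1 e.1.1, |p v|) ^ 2 ≤ C * (∑' u, p u ^ 2 + ∑' x, δ x ^ 2) := by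
  classical
  obtain ⟨C0, hC0⟩ := hκ.F0_exp
  set H := ∑ i, κ.h i with hH
  have hH0 : 0 ≤ H := Finset.sum_nonneg fun i _ => (hκ.h_pos i).le
  have hHi : ∀ i, κ.h i ≤ H := fun i =>
    Finset.single_le_sum (f := κ.h) (fun j _ => (hκ.h_pos j).le) (Finset.mem_univ i)
  refine ⟨160 * H ^ 2 * (Fintype.card I * |C0|) + 1, by positivity, fun p δ hp hδ => ?_⟩
  have hP : 0 ≤ ∑' u, p u ^ 2 := tsum_nonneg fun u => sq_nonneg _
  have hD : 0 ≤ ∑' x, δ x ^ 2 := tsum_nonneg fun u => sq_nonneg _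
  set PD := ∑' u, p u ^ 2 + ∑' x, δ x ^ 2 with hPD
  have hPD0 : 0 ≤ PD := add_nonneg hP hD
  set f : XX I × XX I → ℝ := fun e => κ.wp e * 3 ^ (e.2.1 - e.1.1).natAbs *
      (|δ e.1| + |δ e.2| + ∑ v ∈ Finset.Ico e.1.1 e.2.1, |p v| +
        ∑ v ∈ Finset.Ico e.2.1 e.1.1, |p v|) ^ 2 with hf
  rw [← (ctaE I).symm.summable_iff (f := f), ← (ctaE I).symm.tsum_eq f]
  -- the terms with fixed displacement
  have hterm : ∀ (α : I × (ℤ × I)) (u : ℤ), f ((ctaE I).symm (α, u)) =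
      κ.F0 α.2.1 α.1 α.2.2 * κ.h α.1 * κ.h α.2.2 * 3 ^ α.2.1.natAbs *
        (|δ (u, α.1)| + |δ (u + α.2.1, α.2.2)| + ∑ v ∈ Finset.Ico u (u + α.2.1), |p v| +
          ∑ v ∈ Finset.Ico (u + α.2.1) u, |p v|) ^ 2 := by
    rintro ⟨i, ⟨t, j⟩⟩ u
    simp only [hf, ctaE, wp, Fx, Equiv.coe_fn_symm_mk, add_sub_cancel_left]
  have hw0 : ∀ α : I × (ℤ × I),
      0 ≤ κ.F0 α.2.1 α.1 α.2.2 * κ.h α.1 * κ.h α.2.2 * 3 ^ α.2.1.natAbs := fun α =>
    mul_nonneg (mul_nonneg (mul_nonneg (hκ.F0_prop _ _ _).1 (hκ.h_pos _).le) (hκ.h_pos _).le)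
      (by positivity)
  have hin : ∀ α : I × (ℤ × I), (Summable fun u => f ((ctaE I).symm (α, u))) ∧
      ∑' u, f ((ctaE I).symm (α, u)) ≤
        160 * H ^ 2 * PD * (4 ^ α.2.1.natAbs * κ.F0 α.2.1 α.1 α.2.2) := by
    intro α
    have h1 := cta_inner hp hδ α.1 α.2.2 α.2.1
    have h2 : (fun u => f ((ctaE I).symm (α, u))) = fun u => _ := funext fun u => hterm α u
    rw [h2, tsum_mul_left]
    refine ⟨h1.1.mul_left _, (mul_le_mul_of_nonneg_left h1.2 (hw0 α)).trans ?_⟩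
    have h3 := cta_pow α.2.1.natAbs
    have hF := (hκ.F0_prop α.2.1 α.1 α.2.2).1
    have h4 : κ.h α.1 * κ.h α.2.2 ≤ H ^ 2 := by
      rw [sq]
      exact mul_le_mul (hHi _) (hHi _) (hκ.h_pos _).le hH0
    calc κ.F0 α.2.1 α.1 α.2.2 * κ.h α.1 * κ.h α.2.2 * 3 ^ α.2.1.natAbs *
          (8 * (1 + (α.2.1.natAbs : ℝ) ^ 2) * PD)
        = 8 * (κ.h α.1 * κ.h α.2.2) *
          ((1 + (α.2.1.natAbs : ℝ) ^ 2) * 3 ^ α.2.1.natAbs) *
            (κ.F0 α.2.1 α.1 α.2.2 * PD) := by ring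
      _ ≤ 8 * H ^ 2 * (20 * 4 ^ α.2.1.natAbs) * (κ.F0 α.2.1 α.1 α.2.2 * PD) := by
        refine mul_le_mul_of_nonneg_right ?_ (mul_nonneg hF hPD0)
        exact mul_le_mul (mul_le_mul_of_nonneg_left h4 (by norm_num)) h3 (by positivity)
          (by positivity)
      _ = _ := by ring
  -- the sum over the displacements
  have hsF : (Summable fun α : I × (ℤ × I) => 4 ^ α.2.1.natAbs * κ.F0 α.2.1 α.1 α.2.2) ∧
      ∑' α : I × (ℤ × I), 4 ^ α.2.1.natAbs * κ.F0 α.2.1 α.1 α.2.2 ≤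
        Fintype.card I * |C0| := by
    have h1 : Summable fun α : I × (ℤ × I) => 4 ^ α.2.1.natAbs * κ.F0 α.2.1 α.1 α.2.2 := by
      rw [summable_prod_of_nonneg fun α => mul_nonneg (by positivity) (hκ.F0_prop _ _ _).1]
      exact ⟨fun i => (hC0 i).1, (hasSum_fintype _).summable⟩
    refine ⟨h1, ?_⟩
    rw [h1.tsum_prod, tsum_fintype]
    calc ∑ i : I, ∑' y : ℤ × I, 4 ^ y.1.natAbs * κ.F0 y.1 i y.2 ≤ ∑ _i : I, |C0| :=
          Finset.sum_le_sum fun i _ => (hC0 i).2.trans (le_abs_self C0)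
      _ = Fintype.card I * |C0| := by
        rw [Finset.sum_const, Finset.card_univ, nsmul_eq_mul]
  have hnn : ∀ a, 0 ≤ (f ∘ (ctaE I).symm) a := by
    rintro ⟨α, u⟩
    rw [Function.comp_apply, hterm]
    exact mul_nonneg (hw0 α) (sq_nonneg _)
  have hs : Summable (f ∘ (ctaE I).symm) := by
    rw [summable_prod_of_nonneg hnn]
    refine ⟨fun α => (hin α).1, ?_⟩
    exact Summable.of_nonneg_of_le (fun α => tsum_nonneg fun u => hnn (α, u))
      (fun α => (hin α).2) (hsF.1.mul_left _)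
  refine ⟨hs, ?_⟩
  have h5 : ∑' a, f ((ctaE I).symm a) = ∑' α, ∑' u, f ((ctaE I).symm (α, u)) := hs.tsum_prod
  rw [h5]
  have h6 : Summable fun α => ∑' u, f ((ctaE I).symm (α, u)) :=
    Summable.of_nonneg_of_le (fun α => tsum_nonneg fun u => hnn (α, u))
      (fun α => (hin α).2) (hsF.1.mul_left _)
  calc ∑' α, ∑' u, f ((ctaE I).symm (α, u)) ≤
        ∑' α : I × (ℤ × I), 160 * H ^ 2 * PD * (4 ^ α.2.1.natAbs * κ.F0 α.2.1 α.1 α.2.2) :=
      h6.tsum_le_tsum (fun α => (hin α).2) (hsF.1.mul_left _)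
    _ = 160 * H ^ 2 * PD *
        ∑' α : I × (ℤ × I), (4 ^ α.2.1.natAbs * κ.F0 α.2.1 α.1 α.2.2) := tsum_mul_left
    _ ≤ 160 * H ^ 2 * PD * (Fintype.card I * |C0|) :=
      mul_le_mul_of_nonneg_left hsF.2 (by positivity)
    _ ≤ (160 * H ^ 2 * (Fintype.card I * |C0|) + 1) * PD := by nlinarith

end Slb

end Pool.Agent.KSlab
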