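import Pool.Agent.KSlab.CTd

/-! SL18c: the commutator of the energy form with the weights (Combes-Thomas). -/

set_option autoImplicit false

open Set Filter Topology

namespace Pool.Agent.KSlab

namespace Slb

variable {I : Type}

/-- The commutator for finite families. -/
private lemma comm_gen {ι : Type} (s : Finset ι) (a W : ι → ℝ) (c : ℝ)
    (hW : ∀ k ∈ s, 0 < W k) (hc : ∀ k ∈ s, ∀ l ∈ s, |W l / W k - 1| ≤ c) :
    |(∑ k ∈ s, a k) * (∑ l ∈ s, W l ^ 2 * a l) - (∑ k ∈ s, W k * a k) ^ 2| ≤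
      c * (∑ k ∈ s, W k * |a k|) ^ 2 := by
  have h1 : (∑ k ∈ s, a k) * (∑ l ∈ s, W l ^ 2 * a l) - (∑ k ∈ s, W k * a k) ^ 2 =
      ∑ k ∈ s, ∑ l ∈ s, (W k * a k) * (W l * a l) * (W l / W k - 1) := by
    rw [sq, Finset.sum_mul_sum, Finset.sum_mul_sum, ← Finset.sum_sub_distrib]
    refine Finset.sum_congr rfl fun k hk => ?_
    rw [← Finset.sum_sub_distrib]
    refine Finset.sum_congr rfl fun l _ => ?_
    have := (hW k hk).ne'
    field_simp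
  rw [h1, sq, Finset.sum_mul_sum, Finset.mul_sum]
  refine (Finset.abs_sum_le_sum_abs _ _).trans (Finset.sum_le_sum fun k hk => ?_)
  rw [Finset.mul_sum]
  refine (Finset.abs_sum_le_sum_abs _ _).trans (Finset.sum_le_sum fun l hl => ?_)
  rw [abs_mul, abs_mul, abs_mul, abs_mul, abs_of_pos (hW k hk), abs_of_pos (hW l hl), mul_comm]
  exact mul_le_mul_of_nonneg_right (hc k hk l hl)
    (mul_nonneg (mul_nonneg (hW k hk).le (abs_nonneg _)) (mul_nonneg (hW l hl).le (abs_nonneg _)))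

private lemma Wt_pos {ρ : ℝ} (hρ : 1 < ρ) (L : ℕ) (u : ℤ) : 0 < Wt ρ L u := by
  unfold Wt; positivity

private lemma Wt_le {ρ : ℝ} (hρ : 1 < ρ) (L : ℕ) (u v : ℤ) (n : ℕ) (h : (u - v).natAbs ≤ n) :
    Wt ρ L u ≤ ρ ^ n * Wt ρ L v := by
  unfold Wt
  rw [← pow_add]
  refine pow_le_pow_right₀ hρ.le ?_
  have : u.natAbs ≤ n + v.natAbs := by omega
  omega

private lemma Wt_ratio {ρ : ℝ} (hρ : 1 < ρ) (L : ℕ) (u v : ℤ) (n : ℕ) (h : (u - v).natAbs ≤ n) :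
    |Wt ρ L u / Wt ρ L v - 1| ≤ ρ ^ n - 1 := by
  have hv := Wt_pos hρ L v
  have hu := Wt_pos hρ L u
  have hn : (0 : ℝ) < ρ ^ n := by positivity
  rw [abs_le]
  constructor
  · have h2 : Wt ρ L v ≤ ρ ^ n * Wt ρ L u := Wt_le hρ L v u n (by omega)
    have h3 : (ρ ^ n)⁻¹ ≤ Wt ρ L u / Wt ρ L v := by
      rw [le_div_iff₀ hv, inv_mul_le_iff₀ hn]; exact h2
    have h4 : 2 ≤ ρ ^ n + (ρ ^ n)⁻¹ := by
      have : (ρ ^ n) * (ρ ^ n)⁻¹ = 1 := mul_inv_cancel₀ hn.ne'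
      nlinarith [sq_nonneg (ρ ^ n - 1), inv_pos.2 hn, mul_pos hn (inv_pos.2 hn),
        mul_nonneg (sq_nonneg (ρ ^ n - 1)) (inv_pos.2 hn).le]
    linarith
  · have h2 : Wt ρ L u ≤ ρ ^ n * Wt ρ L v := Wt_le hρ L u v n h
    have h3 : Wt ρ L u / Wt ρ L v ≤ ρ ^ n := by rw [div_le_iff₀ hv]; exact h2
    linarith

/-- The coordinates with their signs. -/
private noncomputable def cf (p : ℤ → ℝ) (δ : XX I → ℝ) (x y : XX I) : ℤ ⊕ (ℤ ⊕ Bool) → ℝ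
  | Sum.inl v => p v
  | Sum.inr (Sum.inl v) => - p v
  | Sum.inr (Sum.inr true) => δ y
  | Sum.inr (Sum.inr false) => - δ x

/-- The positions. -/
private def ps (x y : XX I) : ℤ ⊕ (ℤ ⊕ Bool) → ℤ
  | Sum.inl v => v
  | Sum.inr (Sum.inl v) => v
  | Sum.inr (Sum.inr true) => y.1
  | Sum.inr (Sum.inr false) => x.1

/-- The index set. -/
private noncomputable def is (x y : XX I) : Finset (ℤ ⊕ (ℤ ⊕ Bool)) :=
  (Finset.Ico x.1 y.1).disjSum ((Finset.Ico y.1 x.1).disjSum Finset.univ)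

private lemma sum_is (x y : XX I) (g : ℤ ⊕ (ℤ ⊕ Bool) → ℝ) :
    ∑ k ∈ is x y, g k = ∑ v ∈ Finset.Ico x.1 y.1, g (Sum.inl v) +
      (∑ v ∈ Finset.Ico y.1 x.1, g (Sum.inr (Sum.inl v)) +
        (g (Sum.inr (Sum.inr true)) + g (Sum.inr (Sum.inr false)))) := by
  rw [is, Finset.sum_disjSum, Finset.sum_disjSum]
  simp

private lemma ps_mem (x y : XX I) {k : ℤ ⊕ (ℤ ⊕ Bool)} (hk : k ∈ is x y) :
    min x.1 y.1 ≤ ps x y k ∧ ps x y k ≤ max x.1 y.1 := by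
  rcases k with v | v | b
  · simp only [is, Finset.inl_mem_disjSum, Finset.mem_Ico] at hk
    simp only [ps]; omega
  · simp only [is, Finset.inr_mem_disjSum, Finset.inl_mem_disjSum, Finset.mem_Ico] at hk
    simp only [ps]; omega
  · cases b <;> simp only [ps] <;> omega

private lemma LL_eq (p : ℤ → ℝ) (δ : XX I → ℝ) (x y : XX I) :
    LL p δ x y = ∑ k ∈ is x y, cf p δ x y k := by
  rw [sum_is]; simp only [cf, LL, Finset.sum_neg_distrib]; ring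

/-- The commutator. Write `LL p δ x y = ∑_k ε_k w_k` (coordinates `w_k` of `(p, δ)`, signs `ε_k`, positions at mutual
distance at most `|t|`). Then
`LL (p, δ) LL (W² p, W² δ) - LL (W p, W δ)² = ∑_{k, l} ε_k ε_l (W_k w_k) (W_l w_l) (W_l / W_k - 1)` and
`|W_l / W_k - 1| ≤ ρ ^ |t| - 1`. So the absolute value is at most `(ρ ^ |t| - 1) (∑_k |W_k w_k|)²`. -/
theorem ll_comm {ρ : ℝ} (hρ : 1 < ρ) (L : ℕ) (p : ℤ → ℝ) (δ : XX I → ℝ) (x y : XX I) :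
    |LL p δ x y * LL (fun v => Wt ρ L v ^ 2 * p v) (fun x => Wt ρ L x.1 ^ 2 * δ x) x y -
      LL (fun v => Wt ρ L v * p v) (fun x => Wt ρ L x.1 * δ x) x y ^ 2| ≤
    (ρ ^ (y.1 - x.1).natAbs - 1) * (Wt ρ L x.1 * |δ x| + Wt ρ L y.1 * |δ y| +
      ∑ v ∈ Finset.Ico x.1 y.1, Wt ρ L v * |p v| +
      ∑ v ∈ Finset.Ico y.1 x.1, Wt ρ L v * |p v|) ^ 2 := by
  have h := comm_gen (is x y) (cf p δ x y) (fun k => Wt ρ L (ps x y k))
    (ρ ^ (y.1 - x.1).natAbs - 1) (fun k _ => Wt_pos hρ L _) (fun k hk l hl => by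
      have h1 := ps_mem x y hk
      have h2 := ps_mem x y hl
      exact Wt_ratio hρ L _ _ _ (by omega))
  have e1 : LL (fun v => Wt ρ L v ^ 2 * p v) (fun x => Wt ρ L x.1 ^ 2 * δ x) x y =
      ∑ k ∈ is x y, Wt ρ L (ps x y k) ^ 2 * cf p δ x y k := by
    rw [sum_is]; simp only [cf, ps, LL, mul_neg, Finset.sum_neg_distrib]; ring
  have e2 : LL (fun v => Wt ρ L v * p v) (fun x => Wt ρ L x.1 * δ x) x y =
      ∑ k ∈ is x y, Wt ρ L (ps x y k) * cf p δ x y k := by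
    rw [sum_is]; simp only [cf, ps, LL, mul_neg, Finset.sum_neg_distrib]; ring
  have e3 : (Wt ρ L x.1 * |δ x| + Wt ρ L y.1 * |δ y| +
      ∑ v ∈ Finset.Ico x.1 y.1, Wt ρ L v * |p v| +
      ∑ v ∈ Finset.Ico y.1 x.1, Wt ρ L v * |p v|) =
      ∑ k ∈ is x y, Wt ρ L (ps x y k) * |cf p δ x y k| := by
    rw [sum_is]; simp only [cf, ps, abs_neg]; ring
  rw [LL_eq p δ x y, e1, e2, e3]
  exact h

end Slb

end Pool.Agent.KSlab
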