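import Pool.Agent.KSlab.Dir

/-! SL7: lower bounds of the energy. -/

set_option autoImplicit false

open Complex Set Filter Topology
open scoped ENNReal

namespace Pool.Agent.KSlab

namespace Slb

variable {I : Type} [Fintype I] {κ : Slb I}

omit [Fintype I] in
private theorem qz_pos (hκ : κ.Ok) : 0 < κ.q * κ.z := by
  have h1 := hκ.z_pos
  have h2 := hκ.z_le
  have h3 := hκ.q_ge
  have : 0 < κ.q := by
    have h4 : (17 : ℝ) / 2 * κ.z ≤ 17 / 2 * (1 / 10 ^ 12) := by linarith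
    have h5 : (17 : ℝ) / 2 * (1 / 10 ^ 12) < 1 := by norm_num
    linarith
  exact mul_pos this h1

private theorem h_low (hκ : κ.Ok) : ∃ m : ℝ, 0 < m ∧ ∀ i, m ≤ κ.h i := by
  obtain ⟨i₀, -⟩ := hκ.dead_ne
  have : Nonempty I := ⟨i₀⟩
  obtain ⟨i, hi⟩ := Finite.exists_min κ.h
  exact ⟨κ.h i, hκ.h_pos i, hi⟩

private theorem h_up (hκ : κ.Ok) : ∃ M : ℝ, 0 < M ∧ ∀ i, κ.h i ≤ M := by
  obtain ⟨i₀, -⟩ := hκ.dead_ne
  have : Nonempty I := ⟨i₀⟩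
  obtain ⟨i, hi⟩ := Finite.exists_max κ.h
  exact ⟨κ.h i, hκ.h_pos i, hi⟩

private theorem key (hκ : κ.Ok) : ∃ C : ℝ, 0 < C ∧ ∀ φ : ℤ → XX I × XX I, Function.Injective φ →
    (∀ u, κ.q * κ.z ≤ κ.Fx (φ u).1 (φ u).2) → ∀ g : XX I → ℂ, κ.FinE g →
    (Summable fun u : ℤ => ‖g (φ u).1 / κ.h (φ u).1.2 - g (φ u).2 / κ.h (φ u).2.2‖ ^ 2) ∧
    ∑' u : ℤ, ‖g (φ u).1 / κ.h (φ u).1.2 - g (φ u).2 / κ.h (φ u).2.2‖ ^ 2 ≤ C * κ.EF g := by
  obtain ⟨m, hm, hmh⟩ := h_low hκ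
  have hqz := qz_pos hκ
  set A : ℝ := 1 / 2 * (κ.q * κ.z) * m * m with hA
  have hA0 : 0 < A := by positivity
  refine ⟨A⁻¹, inv_pos.2 hA0, fun φ hφ hF g hg => ?_⟩
  have h1 : ∀ u, A * ‖g (φ u).1 / κ.h (φ u).1.2 - g (φ u).2 / κ.h (φ u).2.2‖ ^ 2 ≤
      κ.ef g (φ u) := by
    intro u
    unfold ef
    refine mul_le_mul_of_nonneg_right ?_ (by positivity)
    rw [hA]
    have a1 : 1 / 2 * (κ.q * κ.z) ≤ 1 / 2 * κ.Fx (φ u).1 (φ u).2 := by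
      have := hF u
      linarith
    have a2 : 1 / 2 * (κ.q * κ.z) * m ≤ 1 / 2 * κ.Fx (φ u).1 (φ u).2 * κ.h (φ u).1.2 :=
      mul_le_mul a1 (hmh _) hm.le (le_trans (by positivity) a1)
    exact mul_le_mul a2 (hmh _) hm.le (le_trans (by positivity) a2)
  have h2 : Summable fun u => κ.ef g (φ u) := hg.comp_injective hφ
  have h3 : Summable fun u : ℤ =>
      A * ‖g (φ u).1 / κ.h (φ u).1.2 - g (φ u).2 / κ.h (φ u).2.2‖ ^ 2 :=
    Summable.of_nonneg_of_le (fun u => by positivity) h1 h2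
  have h4 : Summable fun u : ℤ =>
      ‖g (φ u).1 / κ.h (φ u).1.2 - g (φ u).2 / κ.h (φ u).2.2‖ ^ 2 :=
    (summable_mul_left_iff hA0.ne').1 h3
  refine ⟨h4, ?_⟩
  have h5 : ∑' u : ℤ, κ.ef g (φ u) ≤ κ.EF g :=
    Summable.tsum_le_tsum_of_inj φ hφ (fun p _ => hκ.ef_nn g p) (fun u => le_rfl) h2 hg
  have h6 := (h3.tsum_le_tsum h1 h2).trans h5
  rw [tsum_mul_left] at h6
  rw [inv_mul_eq_div, le_div_iff₀ hA0, mul_comm]
  exact h6

/-- The pairs `((u, i), (u + 1, i))` have `Fx ≥ q z` (`Fx_step`), and `h i ≥ c > 0` (`I` finite). -/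
theorem Ok.low_x (hκ : κ.Ok) : ∃ C : ℝ, 0 < C ∧ ∀ g : XX I → ℂ, κ.FinE g → ∀ i : I,
    (Summable fun u : ℤ => ‖g (u + 1, i) / κ.h i - g (u, i) / κ.h i‖ ^ 2) ∧
    ∑' u : ℤ, ‖g (u + 1, i) / κ.h i - g (u, i) / κ.h i‖ ^ 2 ≤ C * κ.EF g := by
  obtain ⟨C, hC, h⟩ := key hκ
  refine ⟨C, hC, fun g hg i => ?_⟩
  have h1 := h (fun u => ((u + 1, i), (u, i))) (fun a b hab => (Prod.mk.inj (Prod.mk.inj hab).2).1)
    (fun u => by
      rw [(hκ.Fx_prop _ _).2]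
      exact hκ.Fx_step.1 u i) g hg
  exact h1

private theorem sq_tri (a b c : ℂ) : ‖a - c‖ ^ 2 ≤ 2 * ‖a - b‖ ^ 2 + 2 * ‖b - c‖ ^ 2 := by
  have h1 : ‖a - c‖ ≤ ‖a - b‖ + ‖b - c‖ := norm_sub_le_norm_sub_add_norm_sub a b c
  have h2 : ‖a - c‖ ^ 2 ≤ (‖a - b‖ + ‖b - c‖) ^ 2 := pow_le_pow_left₀ (norm_nonneg _) h1 2
  nlinarith [sq_nonneg (‖a - b‖ - ‖b - c‖)]

private theorem low_ij (hκ : κ.Ok) (i j : I) : ∃ C : ℝ, 0 < C ∧ ∀ g : XX I → ℂ, κ.FinE g →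
    (Summable fun u : ℤ => ‖g (u, i) / κ.h i - g (u, j) / κ.h j‖ ^ 2) ∧
    ∑' u : ℤ, ‖g (u, i) / κ.h i - g (u, j) / κ.h j‖ ^ 2 ≤ C * κ.EF g := by
  obtain ⟨C₀, hC₀, h₀⟩ := key hκ
  have hS := hκ.conn {j | ∃ C : ℝ, 0 < C ∧ ∀ g : XX I → ℂ, κ.FinE g →
    (Summable fun u : ℤ => ‖g (u, i) / κ.h i - g (u, j) / κ.h j‖ ^ 2) ∧
    ∑' u : ℤ, ‖g (u, i) / κ.h i - g (u, j) / κ.h j‖ ^ 2 ≤ C * κ.EF g} ?_ ?_
  · have hj : j ∈ (univ : Set I) := mem_univ j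
    rw [← hS] at hj
    exact hj
  · refine ⟨i, 1, one_pos, fun g _ => ?_⟩
    have h0 : ∀ u : ℤ, ‖g (u, i) / κ.h i - g (u, i) / κ.h i‖ ^ 2 = 0 := fun u => by
      rw [sub_self, norm_zero]
      norm_num
    simp only [h0, tsum_zero, one_mul]
    exact ⟨summable_zero, hκ.EF_nn g⟩
  · rintro a ⟨C, hC, hCg⟩ b hab
    refine ⟨2 * C + 2 * C₀, by positivity, fun g hg => ?_⟩
    obtain ⟨s1, t1⟩ := hCg g hg
    obtain ⟨s2, t2⟩ := h₀ (fun u => ((u, a), (u, b)))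
      (fun x y hxy => (Prod.mk.inj (Prod.mk.inj hxy).1).1)
      (fun u => hκ.Fx_step.2.2.2 u a b hab) g hg
    have s3 := (s1.mul_left 2).add (s2.mul_left 2)
    have s4 : Summable fun u : ℤ => ‖g (u, i) / κ.h i - g (u, b) / κ.h b‖ ^ 2 :=
      Summable.of_nonneg_of_le (fun u => by positivity) (fun u => sq_tri _ (g (u, a) / κ.h a) _) s3
    refine ⟨s4, ?_⟩
    have t3 := s4.tsum_le_tsum (fun u => sq_tri _ (g (u, a) / κ.h a) _) s3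
    rw [(s1.mul_left 2).tsum_add (s2.mul_left 2), tsum_mul_left, tsum_mul_left] at t3
    refine t3.trans ?_
    have t4 : 2 * ∑' u : ℤ, ‖g (u, i) / κ.h i - g (u, a) / κ.h a‖ ^ 2 ≤ 2 * (C * κ.EF g) := by
      linarith
    have t5 : 2 * ∑' u : ℤ, ‖g (u, a) / κ.h a - g (u, b) / κ.h b‖ ^ 2 ≤ 2 * (C₀ * κ.EF g) := by
      linarith
    linarith

/-- By `conn`: the set `S` of the `j` for which such a constant exists for the pair `i`, `j` contains `i` and is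
closed under the steps (the pairs `((u, j), (u, j'))` have `Fx ≥ q z` if `f 3 0 j j' ≥ q z`;
`‖a - c‖² ≤ 2 ‖a - b‖² + 2 ‖b - c‖²`), so it is everything; finally the maximum over the finitely many pairs. -/
theorem Ok.low_i (hκ : κ.Ok) : ∃ C : ℝ, 0 < C ∧ ∀ g : XX I → ℂ, κ.FinE g → ∀ i j : I,
    (Summable fun u : ℤ => ‖g (u, i) / κ.h i - g (u, j) / κ.h j‖ ^ 2) ∧
    ∑' u : ℤ, ‖g (u, i) / κ.h i - g (u, j) / κ.h j‖ ^ 2 ≤ C * κ.EF g := by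
  choose C hC h using low_ij hκ
  obtain ⟨i₀, -⟩ := hκ.dead_ne
  have : Nonempty I := ⟨i₀⟩
  obtain ⟨p, hp⟩ := Finite.exists_max fun p : I × I => C p.1 p.2
  refine ⟨C p.1 p.2, hC _ _, fun g hg i j => ⟨(h i j g hg).1, ((h i j g hg).2).trans ?_⟩⟩
  exact mul_le_mul_of_nonneg_right (hp (i, j)) (hκ.EF_nn g)

private theorem nat_bound (b : ℕ → ℂ) (hb : b 0 = 0) (n : ℕ) :
    ‖b n‖ ^ 2 ≤ n * ∑ v ∈ Finset.range n, ‖b (v + 1) - b v‖ ^ 2 := by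
  have h1 : b n = ∑ v ∈ Finset.range n, (b (v + 1) - b v) := by
    rw [Finset.sum_range_sub, hb, sub_zero]
  have h2 : ‖b n‖ ≤ ∑ v ∈ Finset.range n, ‖b (v + 1) - b v‖ := by
    conv_lhs => rw [h1]
    exact norm_sum_le _ _
  have h3 : ‖b n‖ ^ 2 ≤ (∑ v ∈ Finset.range n, ‖b (v + 1) - b v‖) ^ 2 :=
    pow_le_pow_left₀ (norm_nonneg _) h2 2
  refine h3.trans ?_
  have h4 := sq_sum_le_card_mul_sum_sq (s := Finset.range n) (f := fun v => ‖b (v + 1) - b v‖)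
  rwa [Finset.card_range] at h4

private theorem int_bound {a : ℤ → ℂ} (ha : a 0 = 0)
    (hs : Summable fun u : ℤ => ‖a (u + 1) - a u‖ ^ 2) (u : ℤ) :
    ‖a u‖ ^ 2 ≤ u.natAbs * ∑' u : ℤ, ‖a (u + 1) - a u‖ ^ 2 := by
  have hsum : ∀ (e : ℕ → ℤ), Function.Injective e → ∀ n : ℕ,
      ∑ v ∈ Finset.range n, ‖a (e v + 1) - a (e v)‖ ^ 2 ≤ ∑' u : ℤ, ‖a (u + 1) - a u‖ ^ 2 := by
    intro e he n
    have h1 := hs.sum_le_tsum ((Finset.range n).map ⟨e, he⟩) (fun _ _ => by positivity)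
    rw [Finset.sum_map] at h1
    exact h1
  rcases Int.natAbs_eq u with h | h
  · have h1 := nat_bound (fun n : ℕ => a n) (by simpa using ha) u.natAbs
    have h2 := hsum (fun n : ℕ => (n : ℤ)) Nat.cast_injective u.natAbs
    rw [← h] at h1
    refine h1.trans (mul_le_mul_of_nonneg_left ?_ (by positivity))
    refine le_trans (le_of_eq ?_) h2
    refine Finset.sum_congr rfl fun v _ => ?_
    push_cast
    rfl
  · have h1 := nat_bound (fun n : ℕ => a (-(n : ℤ))) (by simpa using ha) u.natAbs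
    have h2 := hsum (fun n : ℕ => -((n : ℤ) + 1)) (fun x y hxy => by
      have : (x : ℤ) = y := by
        have := neg_injective hxy
        linarith
      exact_mod_cast this) u.natAbs
    rw [← h] at h1
    refine h1.trans (mul_le_mul_of_nonneg_left ?_ (by positivity))
    refine le_trans (le_of_eq ?_) h2
    refine Finset.sum_congr rfl fun v _ => ?_
    rw [norm_sub_rev]
    push_cast
    congr 3
    ring_nf

/-- Let `i₀ ∈ D`, `γ x = g x / h x`. `γ (0, i₀) = 0`, `‖γ (u, i₀)‖² ≤ |u| ∑ ‖γ (v + 1, i₀) - γ (v, i₀)‖² ≤ C |u| EF g`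
(`low_x`, Cauchy-Schwarz), `‖γ (u, i) - γ (u, i₀)‖² ≤ C EF g` (`low_i`). -/
theorem Ok.low_pt (hκ : κ.Ok) : ∃ C : ℝ, 0 < C ∧ ∀ g : XX I → ℂ, κ.FinE g → κ.Van g →
    ∀ x : XX I, ‖g x‖ ^ 2 ≤ C * (1 + x.1.natAbs) * κ.EF g := by
  obtain ⟨C₁, hC₁, h₁⟩ := hκ.low_x
  obtain ⟨C₂, hC₂, h₂⟩ := hκ.low_i
  obtain ⟨M, hM, hMh⟩ := h_up hκ
  obtain ⟨i₀, hi₀⟩ := hκ.dead_ne
  refine ⟨M ^ 2 * (2 * C₁ + 2 * C₂), by positivity, fun g hg hv x => ?_⟩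
  obtain ⟨u, i⟩ := x
  have hE := hκ.EF_nn g
  have h0 : g ((0 : ℤ), i₀) = 0 := hv _ fun h => h ⟨rfl, hi₀⟩
  have e1 : ‖g (u, i₀) / κ.h i₀‖ ^ 2 ≤ u.natAbs * (C₁ * κ.EF g) := by
    have := int_bound (a := fun u : ℤ => g (u, i₀) / κ.h i₀) (by rw [h0, zero_div]) (h₁ g hg i₀).1 u
    exact this.trans (mul_le_mul_of_nonneg_left (h₁ g hg i₀).2 (by positivity))
  have e2 : ‖g (u, i) / κ.h i - g (u, i₀) / κ.h i₀‖ ^ 2 ≤ C₂ * κ.EF g :=
    ((h₂ g hg i i₀).1.le_tsum u (fun _ _ => by positivity)).trans (h₂ g hg i i₀).2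
  have e3 := sq_tri (g (u, i) / κ.h i) (g (u, i₀) / κ.h i₀) 0
  rw [sub_zero, sub_zero] at e3
  have e4 : ‖g (u, i) / κ.h i‖ ^ 2 ≤ (2 * C₁ + 2 * C₂) * (1 + u.natAbs) * κ.EF g := by
    have k1 : 0 ≤ (u.natAbs : ℝ) * (C₂ * κ.EF g) := by positivity
    have k2 : 0 ≤ C₁ * κ.EF g := by positivity
    nlinarith
  have e5 : ‖g (u, i)‖ = κ.h i * ‖g (u, i) / κ.h i‖ := by
    rw [norm_div, Complex.norm_real, Real.norm_of_nonneg (hκ.h_pos i).le]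
    field_simp [(hκ.h_pos i).ne']
  rw [e5, mul_pow]
  have e6 : κ.h i ^ 2 ≤ M ^ 2 := pow_le_pow_left₀ (hκ.h_pos i).le (hMh i) 2
  have e7 := mul_le_mul e6 e4 (by positivity) (by positivity)
  refine e7.trans (le_of_eq ?_)
  ring

private theorem sum_loc {r : ℝ} (hr0 : 0 < r) (hr : r < 1) :
    Summable fun x : XX I => r ^ x.1.natAbs * (1 + (x.1.natAbs : ℝ)) := by
  have h1 : Summable fun n : ℕ => r ^ n * (1 + (n : ℝ)) := by
    have a := summable_geometric_of_lt_one hr0.le hr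
    have b := summable_pow_mul_geometric_of_norm_lt_one 1
      (show ‖r‖ < 1 by rwa [Real.norm_of_nonneg hr0.le])
    refine (a.add b).congr fun n => ?_
    rw [pow_one]
    ring
  have h2 : Summable fun u : ℤ => r ^ u.natAbs * (1 + (u.natAbs : ℝ)) := by
    refine Summable.of_nat_of_neg ?_ ?_
    · simpa using h1
    · simpa using h1
  rw [summable_prod_of_nonneg (fun x => by
    change 0 ≤ r ^ x.1.natAbs * (1 + (x.1.natAbs : ℝ))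
    positivity)]
  refine ⟨fun u => Summable.of_finite, ?_⟩
  simp only [tsum_fintype, Finset.sum_const, nsmul_eq_mul]
  exact h2.mul_left _

/-- Localised functionals: for `0 < r < 1`, by `low_pt` and
`∑ r ^ |u| (1 + |u|) < ∞`; note `‖g x‖ ≤ √C √(1 + |u|) √EF`. -/
theorem Ok.low_loc (hκ : κ.Ok) {r : ℝ} (hr0 : 0 < r) (hr : r < 1) : ∃ C : ℝ, 0 < C ∧
    ∀ g : XX I → ℂ, κ.FinE g → κ.Van g →
      (Summable fun x : XX I => r ^ x.1.natAbs * ‖g x‖) ∧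
      ∑' x : XX I, r ^ x.1.natAbs * ‖g x‖ ≤ C * Real.sqrt (κ.EF g) := by
  obtain ⟨C, hC, h⟩ := hκ.low_pt
  have hs := sum_loc (I := I) hr0 hr
  have hS0 : 0 ≤ ∑' x : XX I, r ^ x.1.natAbs * (1 + (x.1.natAbs : ℝ)) :=
    tsum_nonneg fun x => by positivity
  refine ⟨Real.sqrt C * ∑' x : XX I, r ^ x.1.natAbs * (1 + (x.1.natAbs : ℝ)) + 1, by positivity,
    fun g hg hv => ?_⟩
  have hb : ∀ x : XX I, r ^ x.1.natAbs * ‖g x‖ ≤
      Real.sqrt C * Real.sqrt (κ.EF g) * (r ^ x.1.natAbs * (1 + (x.1.natAbs : ℝ))) := by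
    intro x
    have h1 : ‖g x‖ ≤ Real.sqrt C * (1 + (x.1.natAbs : ℝ)) * Real.sqrt (κ.EF g) := by
      refine abs_le_of_sq_le_sq' ?_ (by positivity) |>.2
      refine (h g hg hv x).trans ?_
      rw [mul_pow, mul_pow, Real.sq_sqrt hC.le, Real.sq_sqrt (hκ.EF_nn g)]
      refine mul_le_mul_of_nonneg_right (mul_le_mul_of_nonneg_left ?_ hC.le) (hκ.EF_nn g)
      have : (0 : ℝ) ≤ x.1.natAbs := by positivity
      nlinarith
    calc r ^ x.1.natAbs * ‖g x‖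
        ≤ r ^ x.1.natAbs * (Real.sqrt C * (1 + (x.1.natAbs : ℝ)) * Real.sqrt (κ.EF g)) :=
          mul_le_mul_of_nonneg_left h1 (by positivity)
      _ = _ := by ring
  have s1 := hs.mul_left (Real.sqrt C * Real.sqrt (κ.EF g))
  have s2 : Summable fun x : XX I => r ^ x.1.natAbs * ‖g x‖ :=
    Summable.of_nonneg_of_le (fun x => by positivity) hb s1
  refine ⟨s2, ?_⟩
  have t1 := s2.tsum_le_tsum hb s1
  rw [tsum_mul_left] at t1
  refine t1.trans ?_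
  have : 0 ≤ Real.sqrt (κ.EF g) := Real.sqrt_nonneg _
  nlinarith

end Slb

end Pool.Agent.KSlab
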