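import Pool.Agent.KSlab.RowF
import Pool.Agent.KSlab.Low
import Pool.Agent.KSlab.CTa

/-! SL18b: lower bound of the energy form in terms of differences. -/

set_option autoImplicit false

open Set Filter Topology

namespace Pool.Agent.KSlab

namespace Slb

variable {I : Type} [Fintype I] {κ : Slb I}

omit [Fintype I] in
private theorem ctl_qz_pos (hκ : κ.Ok) : 0 < κ.q * κ.z := by
  have h1 := hκ.z_pos
  have h2 := hκ.z_le
  have h3 := hκ.q_ge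
  have : 0 < κ.q := by
    have h4 : (17 : ℝ) / 2 * κ.z ≤ 17 / 2 * (1 / 10 ^ 12) := by linarith
    have h5 : (17 : ℝ) / 2 * (1 / 10 ^ 12) < 1 := by norm_num
    linarith
  exact mul_pos this h1

private theorem ctl_h_low (hκ : κ.Ok) : ∃ m : ℝ, 0 < m ∧ ∀ i, m ≤ κ.h i := by
  obtain ⟨i₀, -⟩ := hκ.dead_ne
  have : Nonempty I := ⟨i₀⟩
  obtain ⟨i, hi⟩ := Finite.exists_min κ.h
  exact ⟨κ.h i, hκ.h_pos i, hi⟩

private theorem ctl_wp_nn (hκ : κ.Ok) (e : XX I × XX I) : 0 ≤ κ.wp e :=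
  mul_nonneg (mul_nonneg (hκ.Fx_prop _ _).1 (hκ.h_pos _).le) (hκ.h_pos _).le

private theorem ctl_term_nn (hκ : κ.Ok) (p : ℤ → ℝ) (δ : XX I → ℝ) (e : XX I × XX I) :
    0 ≤ 1 / 2 * κ.wp e * LL p δ e.1 e.2 ^ 2 :=
  mul_nonneg (mul_nonneg (by norm_num) (ctl_wp_nn hκ e)) (sq_nonneg _)

omit [Fintype I] in
private theorem ctl_LL_abs (p : ℤ → ℝ) (δ : XX I → ℝ) (x y : XX I) :
    |LL p δ x y| ≤ |δ x| + |δ y| + ∑ v ∈ Finset.Ico x.1 y.1, |p v| +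
      ∑ v ∈ Finset.Ico y.1 x.1, |p v| := by
  unfold LL
  have h1 := abs_add_le (δ y - δ x) (∑ v ∈ Finset.Ico x.1 y.1, p v - ∑ v ∈ Finset.Ico y.1 x.1, p v)
  have h2 := abs_sub (δ y) (δ x)
  have h3 := abs_sub (∑ v ∈ Finset.Ico x.1 y.1, p v) (∑ v ∈ Finset.Ico y.1 x.1, p v)
  have h4 := Finset.abs_sum_le_sum_abs p (Finset.Ico x.1 y.1)
  have h5 := Finset.abs_sum_le_sum_abs p (Finset.Ico y.1 x.1)
  linarith

private theorem ctl_summable (hκ : κ.Ok) {p : ℤ → ℝ} {δ : XX I → ℝ}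
    (hp : Summable fun u => p u ^ 2) (hδ : Summable fun x => δ x ^ 2) :
    Summable fun e : XX I × XX I => 1 / 2 * κ.wp e * LL p δ e.1 e.2 ^ 2 := by
  obtain ⟨C, -, hC⟩ := hκ.ll_sum
  refine Summable.of_nonneg_of_le (ctl_term_nn hκ p δ) (fun e => ?_) (hC p δ hp hδ).1
  have h1 := ctl_LL_abs p δ e.1 e.2
  have h2 : LL p δ e.1 e.2 ^ 2 ≤ (|δ e.1| + |δ e.2| + ∑ v ∈ Finset.Ico e.1.1 e.2.1, |p v| +
      ∑ v ∈ Finset.Ico e.2.1 e.1.1, |p v|) ^ 2 := by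
    rw [← sq_abs (LL p δ e.1 e.2)]
    exact pow_le_pow_left₀ (abs_nonneg _) h1 2
  have h3 : (1 : ℝ) ≤ 3 ^ (e.2.1 - e.1.1).natAbs := one_le_pow₀ (by norm_num)
  have h4 := ctl_wp_nn hκ e
  refine mul_le_mul ?_ h2 (sq_nonneg _) (mul_nonneg h4 (by positivity))
  nlinarith

private theorem ctl_key (hκ : κ.Ok) : ∃ C : ℝ, 0 < C ∧ ∀ φ : ℤ → XX I × XX I,
    Function.Injective φ → (∀ u, κ.q * κ.z ≤ κ.Fx (φ u).1 (φ u).2) →
    ∀ (p : ℤ → ℝ) (δ : XX I → ℝ), (Summable fun u => p u ^ 2) → (Summable fun x => δ x ^ 2) →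
    (Summable fun u : ℤ => LL p δ (φ u).1 (φ u).2 ^ 2) ∧
    ∑' u : ℤ, LL p δ (φ u).1 (φ u).2 ^ 2 ≤
      C * ∑' e : XX I × XX I, 1 / 2 * κ.wp e * LL p δ e.1 e.2 ^ 2 := by
  obtain ⟨m, hm, hmh⟩ := ctl_h_low hκ
  have hqz := ctl_qz_pos hκ
  set A : ℝ := 1 / 2 * ((κ.q * κ.z) * m * m) with hA
  have hA0 : 0 < A := by positivity
  refine ⟨A⁻¹, inv_pos.2 hA0, fun φ hφ hF p δ hp hδ => ?_⟩
  have hg := ctl_summable hκ hp hδ
  have h1 : ∀ u, A * LL p δ (φ u).1 (φ u).2 ^ 2 ≤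
      1 / 2 * κ.wp (φ u) * LL p δ (φ u).1 (φ u).2 ^ 2 := by
    intro u
    refine mul_le_mul_of_nonneg_right ?_ (sq_nonneg _)
    rw [hA]
    refine mul_le_mul_of_nonneg_left ?_ (by norm_num)
    unfold wp
    have a0 : 0 ≤ κ.Fx (φ u).1 (φ u).2 := (hκ.Fx_prop _ _).1
    have a2 : κ.q * κ.z * m ≤ κ.Fx (φ u).1 (φ u).2 * κ.h (φ u).1.2 :=
      mul_le_mul (hF u) (hmh _) hm.le a0
    exact mul_le_mul a2 (hmh _) hm.le (mul_nonneg a0 (hκ.h_pos _).le)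
  have h2 : Summable fun u => 1 / 2 * κ.wp (φ u) * LL p δ (φ u).1 (φ u).2 ^ 2 :=
    hg.comp_injective hφ
  have h3 : Summable fun u : ℤ => A * LL p δ (φ u).1 (φ u).2 ^ 2 :=
    Summable.of_nonneg_of_le (fun u => mul_nonneg hA0.le (sq_nonneg _)) h1 h2
  have h4 : Summable fun u : ℤ => LL p δ (φ u).1 (φ u).2 ^ 2 :=
    (summable_mul_left_iff hA0.ne').1 h3
  refine ⟨h4, ?_⟩
  have h5 : ∑' u : ℤ, 1 / 2 * κ.wp (φ u) * LL p δ (φ u).1 (φ u).2 ^ 2 ≤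
      ∑' e : XX I × XX I, 1 / 2 * κ.wp e * LL p δ e.1 e.2 ^ 2 :=
    Summable.tsum_le_tsum_of_inj φ hφ (fun e _ => ctl_term_nn hκ p δ e) (fun u => le_rfl) h2 hg
  have h6 := (h3.tsum_le_tsum h1 h2).trans h5
  rw [tsum_mul_left] at h6
  rw [inv_mul_eq_div, le_div_iff₀ hA0, mul_comm]
  exact h6

private theorem ctl_delta (hκ : κ.Ok) (i₀ j : I) : ∃ C : ℝ, 0 < C ∧
    ∀ (p : ℤ → ℝ) (δ : XX I → ℝ), (Summable fun u => p u ^ 2) → (Summable fun x => δ x ^ 2) →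
    (∀ u, δ (u, i₀) = 0) → ∑' u : ℤ, δ (u, j) ^ 2 ≤
      C * ∑' e : XX I × XX I, 1 / 2 * κ.wp e * LL p δ e.1 e.2 ^ 2 := by
  obtain ⟨C₀, hC₀, h₀⟩ := ctl_key hκ
  have hS := hκ.conn {j | ∃ C : ℝ, 0 < C ∧
    ∀ (p : ℤ → ℝ) (δ : XX I → ℝ), (Summable fun u => p u ^ 2) → (Summable fun x => δ x ^ 2) →
    (∀ u, δ (u, i₀) = 0) → ∑' u : ℤ, δ (u, j) ^ 2 ≤
      C * ∑' e : XX I × XX I, 1 / 2 * κ.wp e * LL p δ e.1 e.2 ^ 2} ?_ ?_
  · have hj : j ∈ (univ : Set I) := mem_univ j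
    rw [← hS] at hj
    exact hj
  · refine ⟨i₀, 1, one_pos, fun p δ _ _ hz => ?_⟩
    have h0 : ∀ u : ℤ, δ (u, i₀) ^ 2 = 0 := fun u => by
      rw [hz u]
      norm_num
    simp only [h0, tsum_zero, one_mul]
    exact tsum_nonneg fun e => by
      have := ctl_term_nn hκ p δ e
      linarith
  · rintro a ⟨C, hC, hCg⟩ b hab
    refine ⟨2 * C + 2 * C₀, by positivity, fun p δ hp hδ hz => ?_⟩
    have hcol : ∀ j : I, Summable fun u : ℤ => δ (u, j) ^ 2 := fun j =>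
      hδ.comp_injective (i := fun u : ℤ => ((u, j) : XX I))
        (fun x y hxy => (Prod.mk.inj hxy).1)
    obtain ⟨s2, t2⟩ := h₀ (fun u => ((u, a), (u, b)))
      (fun x y hxy => (Prod.mk.inj (Prod.mk.inj hxy).1).1)
      (fun u => hκ.Fx_step.2.2.2 u a b hab) p δ hp hδ
    have hL : ∀ u : ℤ, LL p δ (u, a) (u, b) = δ (u, b) - δ (u, a) := by
      intro u
      unfold LL
      simp
    simp only [hL] at s2 t2
    have t1 := hCg p δ hp hδ hz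
    have s3 := ((hcol a).mul_left 2).add (s2.mul_left 2)
    have hle : ∀ u : ℤ, δ (u, b) ^ 2 ≤ 2 * δ (u, a) ^ 2 + 2 * (δ (u, b) - δ (u, a)) ^ 2 := by
      intro u
      nlinarith [sq_nonneg (2 * δ (u, a) - δ (u, b))]
    have t3 := (hcol b).tsum_le_tsum hle s3
    rw [((hcol a).mul_left 2).tsum_add (s2.mul_left 2), tsum_mul_left, tsum_mul_left] at t3
    linarith

/-- Lower bound. The pairs `((u, i₀), (u + 1, i₀))` and the reversed ones have `LL = ± p u`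
because `δ = 0` there, and `Fx ≥ q z`; the pairs `((u, i), (u, j))` with `q z ≤ f 3 0 i j` have
`LL = δ (u, j) - δ (u, i)`, and by `conn` (as in `low_i`) `∑_i δ (u, i)²` is at most a constant
times the sum of the squares of these differences, since `δ (u, i₀) = 0`. -/
theorem Ok.ll_low (hκ : κ.Ok) (i₀ : I) : ∃ c : ℝ, 0 < c ∧ ∀ (p : ℤ → ℝ) (δ : XX I → ℝ),
    (Summable fun u => p u ^ 2) → (Summable fun x => δ x ^ 2) → (∀ u, δ (u, i₀) = 0) →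
    c * (∑' u, p u ^ 2 + ∑' x, δ x ^ 2) ≤
      ∑' e : XX I × XX I, 1 / 2 * κ.wp e * LL p δ e.1 e.2 ^ 2 := by
  obtain ⟨C₀, hC₀, h₀⟩ := ctl_key hκ
  choose C hC h₁ using ctl_delta hκ i₀
  have hS0 : 0 ≤ ∑ j, C j := Finset.sum_nonneg fun j _ => (hC j).le
  have hT : 0 < C₀ + ∑ j, C j := by linarith
  refine ⟨(C₀ + ∑ j, C j)⁻¹, inv_pos.2 hT, fun p δ hp hδ hz => ?_⟩
  set S : ℝ := ∑' e : XX I × XX I, 1 / 2 * κ.wp e * LL p δ e.1 e.2 ^ 2 with hS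
  have hcol : ∀ j : I, Summable fun u : ℤ => δ (u, j) ^ 2 := fun j =>
    hδ.comp_injective (i := fun u : ℤ => ((u, j) : XX I))
      (fun x y hxy => (Prod.mk.inj hxy).1)
  -- the part with `p`
  obtain ⟨-, t1⟩ := h₀ (fun u => ((u, i₀), (u + 1, i₀)))
    (fun x y hxy => (Prod.mk.inj (Prod.mk.inj hxy).1).1)
    (fun u => hκ.Fx_step.1 u i₀) p δ hp hδ
  have hL : ∀ u : ℤ, LL p δ (u, i₀) (u + 1, i₀) = p u := by
    intro u
    unfold LL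
    have e1 : Finset.Ico u (u + 1) = {u} := by
      ext v
      simp only [Finset.mem_Ico, Finset.mem_singleton]
      omega
    simp [hz, e1]
  simp only [hL] at t1
  -- the part with `δ`
  have t2 : ∑' x, δ x ^ 2 = ∑ j, ∑' u : ℤ, δ (u, j) ^ 2 := by
    have e1 : ∑' x : XX I, δ x ^ 2 = ∑' y : I × ℤ, δ (y.2, y.1) ^ 2 :=
      ((Equiv.prodComm I ℤ).tsum_eq (fun x : XX I => δ x ^ 2)).symm
    have e2 : Summable fun y : I × ℤ => δ (y.2, y.1) ^ 2 :=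
      (Equiv.prodComm I ℤ).summable_iff.2 hδ
    rw [e1, e2.tsum_prod, tsum_fintype]
  have t3 : ∑' x, δ x ^ 2 ≤ (∑ j, C j) * S := by
    rw [t2, Finset.sum_mul]
    exact Finset.sum_le_sum fun j _ => h₁ j p δ hp hδ hz
  rw [inv_mul_eq_div, div_le_iff₀ hT]
  have t4 : ∑' u, p u ^ 2 ≤ C₀ * S := t1
  linarith

end Slb

end Pool.Agent.KSlab
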