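import Pool.Agent.KSlab.CTa
import Pool.Agent.KSlab.CTl
import Pool.Agent.KSlab.CTc

/-! SL19: the weighted coercivity inequality. -/

set_option autoImplicit false

open Set Filter Topology

namespace Pool.Agent.KSlab

namespace Slb

variable {I : Type} [Fintype I] {κ : Slb I}

private lemma ctb_pow {η : ℝ} (h0 : 0 ≤ η) (h1 : η ≤ 1) (t : ℕ) :
    (1 + η) ^ t ≤ 1 + η * (2 ^ t - 1) := by
  induction t with
  | zero => simp
  | succ t ih =>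
    have h2 : (1 : ℝ) ≤ 2 ^ t := one_le_pow₀ (by norm_num)
    have h3 : (1 + η) ^ (t + 1) ≤ (1 + η * (2 ^ t - 1)) * (1 + η) := by
      rw [pow_succ]
      exact mul_le_mul_of_nonneg_right ih (by linarith)
    have h4 : 0 ≤ η * (1 - η) * (2 ^ t - 1) := by
      have := mul_nonneg h0 (sub_nonneg.2 h1)
      exact mul_nonneg this (by linarith)
    rw [pow_succ (2 : ℝ)]
    nlinarith

private lemma ctb_pow3 {η : ℝ} (h0 : 0 ≤ η) (h1 : η ≤ 1) (t : ℕ) :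
    (1 + η) ^ t - 1 ≤ η * 3 ^ t := by
  have h2 := ctb_pow h0 h1 t
  have h3 : (2 : ℝ) ^ t ≤ 3 ^ t := pow_le_pow_left₀ (by norm_num) (by norm_num) t
  nlinarith [mul_le_mul_of_nonneg_left h3 h0]

private lemma ctb_W {ρ : ℝ} (hρ : 1 < ρ) (L : ℕ) (u : ℤ) : 0 ≤ Wt ρ L u ∧ Wt ρ L u ≤ ρ ^ L := by
  refine ⟨?_, pow_le_pow_right₀ hρ.le (min_le_right _ _)⟩
  unfold Wt
  positivity

private lemma ctb_sum {T : Type} {ρ : ℝ} (hρ : 1 < ρ) (L : ℕ) {f : T → ℝ} (π : T → ℤ)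
    (hf : Summable fun u => f u ^ 2) : Summable fun u => (Wt ρ L (π u) * f u) ^ 2 := by
  refine Summable.of_nonneg_of_le (fun u => sq_nonneg _) (fun u => ?_) (hf.mul_left ((ρ ^ L) ^ 2))
  rw [mul_pow]
  obtain ⟨h1, h2⟩ := ctb_W hρ L (π u)
  exact mul_le_mul_of_nonneg_right (pow_le_pow_left₀ h1 h2 2) (sq_nonneg _)

omit [Fintype I] in
private lemma ctb_ll (p : ℤ → ℝ) (δ : XX I → ℝ) (x y : XX I) : |LL p δ x y| ≤
    |δ x| + |δ y| + ∑ v ∈ Finset.Ico x.1 y.1, |p v| + ∑ v ∈ Finset.Ico y.1 x.1, |p v| := by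
  have h1 : |∑ v ∈ Finset.Ico x.1 y.1, p v| ≤ ∑ v ∈ Finset.Ico x.1 y.1, |p v| :=
    Finset.abs_sum_le_sum_abs _ _
  have h2 : |∑ v ∈ Finset.Ico y.1 x.1, p v| ≤ ∑ v ∈ Finset.Ico y.1 x.1, |p v| :=
    Finset.abs_sum_le_sum_abs _ _
  unfold LL
  rw [abs_le] at *
  have h3 := abs_le.1 (le_refl |δ x|)
  have h4 := abs_le.1 (le_refl |δ y|)
  constructor <;> linarith [h1.1, h1.2, h2.1, h2.2, h3.1, h3.2, h4.1, h4.2]

/-- Choose `ρ` with `ρ ^ t - 1 ≤ ε 3 ^ t` for all `t` where `ε = c / (2 C)`... `C` from `ll_sum`, `c` from `ll_low`: for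
`1 < ρ ≤ 2` one has `ρ ^ t - 1 ≤ t (ρ - 1) 2 ^ t ≤ (ρ - 1) · 2 · 3 ^ t`, so `ρ = 1 + min (1/2) (c / (4 C))` (or so) works:
then `∑ 1/2 wp LL LL' ≥ ∑ 1/2 wp LL(W p, W δ)² - 1/2 ∑ wp (ρ ^ |t| - 1) (..)² ≥ c ‖..‖² - (c/2) ‖..‖²` (`ll_low` and
`ll_sum` applied to `(W p, W δ)`, `ll_comm`). Summability by `ll_sum` as `|LL LL'| ≤ LL² + LL'²` and `W` is
bounded. -/
theorem Ok.ct (hκ : κ.Ok) (i₀ : I) : ∃ ρ c : ℝ, 1 < ρ ∧ ρ < 2 ∧ 0 < c ∧
    ∀ (L : ℕ) (p : ℤ → ℝ) (δ : XX I → ℝ),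
    (Summable fun u => p u ^ 2) → (Summable fun x => δ x ^ 2) → (∀ u, δ (u, i₀) = 0) →
    (Summable fun e : XX I × XX I => κ.wp e * |LL p δ e.1 e.2 *
      LL (fun v => Wt ρ L v ^ 2 * p v) (fun x => Wt ρ L x.1 ^ 2 * δ x) e.1 e.2|) ∧
    c * (∑' u, (Wt ρ L u * p u) ^ 2 + ∑' x : XX I, (Wt ρ L x.1 * δ x) ^ 2) ≤
      ∑' e : XX I × XX I, 1 / 2 * κ.wp e * (LL p δ e.1 e.2 *
        LL (fun v => Wt ρ L v ^ 2 * p v) (fun x => Wt ρ L x.1 ^ 2 * δ x) e.1 e.2) := by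
  obtain ⟨C, hC, hsum⟩ := hκ.ll_sum
  obtain ⟨c, hc, hlow⟩ := hκ.ll_low i₀
  obtain ⟨η, hη0, hη1, hη2⟩ : ∃ η : ℝ, 0 < η ∧ η ≤ 1 / 2 ∧ η * C ≤ c := by
    refine ⟨min (1 / 2) (c / C), lt_min (by norm_num) (by positivity), min_le_left _ _, ?_⟩
    calc min (1 / 2) (c / C) * C ≤ c / C * C :=
          mul_le_mul_of_nonneg_right (min_le_right _ _) hC.le
      _ = c := by field_simp
  have hρ : (1 : ℝ) < 1 + η := by linarith
  refine ⟨1 + η, c / 2, hρ, by linarith, by positivity, fun L p δ hp hδ hδ0 => ?_⟩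
  set ρ := 1 + η with hρdef
  set p' : ℤ → ℝ := fun v => Wt ρ L v * p v with hp'
  set δ' : XX I → ℝ := fun x => Wt ρ L x.1 * δ x with hδ'
  have hp1 : Summable fun u => p' u ^ 2 := ctb_sum hρ L (fun u => u) hp
  have hδ1 : Summable fun x => δ' x ^ 2 := ctb_sum hρ L (fun x : XX I => x.1) hδ
  have hδ2 : ∀ u, δ' (u, i₀) = 0 := fun u => by simp [hδ', hδ0 u]
  obtain ⟨hS, hB⟩ := hsum p' δ' hp1 hδ1
  have hL := hlow p' δ' hp1 hδ1 hδ2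
  set S : XX I × XX I → ℝ := fun e => |δ' e.1| + |δ' e.2| +
    ∑ v ∈ Finset.Ico e.1.1 e.2.1, |p' v| + ∑ v ∈ Finset.Ico e.2.1 e.1.1, |p' v| with hSdef
  set T : XX I × XX I → ℝ := fun e => LL p δ e.1 e.2 *
    LL (fun v => Wt ρ L v ^ 2 * p v) (fun x => Wt ρ L x.1 ^ 2 * δ x) e.1 e.2 with hT
  have hw : ∀ e, 0 ≤ κ.wp e := fun e => by
    unfold wp
    exact mul_nonneg (mul_nonneg (hκ.Fx_prop _ _).1 (hκ.h_pos _).le) (hκ.h_pos _).le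
  have h3 : ∀ t : ℕ, (1 : ℝ) ≤ 3 ^ t := fun t => one_le_pow₀ (by norm_num)
  have hcomm : ∀ e : XX I × XX I, |T e - LL p' δ' e.1 e.2 ^ 2| ≤
      η * 3 ^ (e.2.1 - e.1.1).natAbs * S e ^ 2 := fun e => by
    have h1 := ll_comm hρ L p δ e.1 e.2
    have h2 : Wt ρ L e.1.1 * |δ e.1| + Wt ρ L e.2.1 * |δ e.2| +
        ∑ v ∈ Finset.Ico e.1.1 e.2.1, Wt ρ L v * |p v| +
        ∑ v ∈ Finset.Ico e.2.1 e.1.1, Wt ρ L v * |p v| = S e := by
      have h4 : ∀ v, |p' v| = Wt ρ L v * |p v| := fun v => by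
        rw [hp', abs_mul, abs_of_nonneg (ctb_W hρ L v).1]
      have h5 : ∀ x : XX I, |δ' x| = Wt ρ L x.1 * |δ x| := fun x => by
        rw [hδ', abs_mul, abs_of_nonneg (ctb_W hρ L x.1).1]
      simp only [hSdef, h4, h5]
    rw [h2] at h1
    exact h1.trans (mul_le_mul_of_nonneg_right (ctb_pow3 hη0.le (by linarith) _) (sq_nonneg _))
  have hLL : ∀ e : XX I × XX I, LL p' δ' e.1 e.2 ^ 2 ≤ 3 ^ (e.2.1 - e.1.1).natAbs * S e ^ 2 :=
    fun e => by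
      have h1 : LL p' δ' e.1 e.2 ^ 2 ≤ S e ^ 2 := by
        rw [← sq_abs (LL p' δ' e.1 e.2)]
        exact pow_le_pow_left₀ (abs_nonneg _) (ctb_ll p' δ' e.1 e.2) 2
      nlinarith [h3 (e.2.1 - e.1.1).natAbs, sq_nonneg (S e)]
  have hTabs : ∀ e : XX I × XX I, |T e| ≤ 2 * (3 ^ (e.2.1 - e.1.1).natAbs * S e ^ 2) := fun e => by
    have h1 := hcomm e
    have h2 := hLL e
    have h4 : 0 ≤ 3 ^ (e.2.1 - e.1.1).natAbs * S e ^ 2 := by positivity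
    have h5 : η * 3 ^ (e.2.1 - e.1.1).natAbs * S e ^ 2 ≤ 3 ^ (e.2.1 - e.1.1).natAbs * S e ^ 2 := by
      nlinarith
    have h6 : 0 ≤ LL p' δ' e.1 e.2 ^ 2 := sq_nonneg _
    rw [abs_le] at h1 ⊢
    constructor <;> linarith [h1.1, h1.2]
  have hsT : Summable fun e : XX I × XX I => κ.wp e * |T e| := by
    refine Summable.of_nonneg_of_le (fun e => mul_nonneg (hw e) (abs_nonneg _)) (fun e => ?_)
      (hS.mul_left 2)
    calc κ.wp e * |T e| ≤ κ.wp e * (2 * (3 ^ (e.2.1 - e.1.1).natAbs * S e ^ 2)) :=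
          mul_le_mul_of_nonneg_left (hTabs e) (hw e)
      _ = 2 * (κ.wp e * 3 ^ (e.2.1 - e.1.1).natAbs * S e ^ 2) := by ring
  refine ⟨hsT, ?_⟩
  have hs1 : Summable fun e : XX I × XX I => 1 / 2 * κ.wp e * T e := by
    refine Summable.of_norm_bounded hsT fun e => ?_
    rw [Real.norm_eq_abs, abs_mul, abs_mul, abs_of_nonneg (hw e)]
    have := mul_nonneg (hw e) (abs_nonneg (T e))
    norm_num
    nlinarith
  have hs2 : Summable fun e : XX I × XX I => 1 / 2 * κ.wp e * LL p' δ' e.1 e.2 ^ 2 := by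
    refine Summable.of_nonneg_of_le (fun e => ?_) (fun e => ?_) hS
    · have := mul_nonneg (hw e) (sq_nonneg (LL p' δ' e.1 e.2))
      linarith
    · have h1 := mul_le_mul_of_nonneg_left (hLL e) (hw e)
      have h2 := mul_nonneg (hw e) (sq_nonneg (LL p' δ' e.1 e.2))
      linarith
  have hpt : ∀ e : XX I × XX I, 1 / 2 * κ.wp e * LL p' δ' e.1 e.2 ^ 2 ≤
      1 / 2 * κ.wp e * T e + η / 2 * (κ.wp e * 3 ^ (e.2.1 - e.1.1).natAbs * S e ^ 2) := fun e => by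
    have h1 := (abs_le.1 (hcomm e)).1
    have h2 : LL p' δ' e.1 e.2 ^ 2 ≤ T e + η * 3 ^ (e.2.1 - e.1.1).natAbs * S e ^ 2 := by linarith
    have h4 := mul_le_mul_of_nonneg_left h2 (hw e)
    linarith
  have hfin := hs2.tsum_le_tsum hpt (hs1.add (hS.mul_left (η / 2)))
  rw [hs1.tsum_add (hS.mul_left (η / 2)), tsum_mul_left] at hfin
  set N := ∑' u, p' u ^ 2 + ∑' x, δ' x ^ 2 with hN
  have hN0 : 0 ≤ N := add_nonneg (tsum_nonneg fun u => sq_nonneg _) (tsum_nonneg fun u => sq_nonneg _)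
  have h5 : η / 2 * (∑' e : XX I × XX I, κ.wp e * 3 ^ (e.2.1 - e.1.1).natAbs * S e ^ 2) ≤
      c / 2 * N := by
    calc η / 2 * (∑' e : XX I × XX I, κ.wp e * 3 ^ (e.2.1 - e.1.1).natAbs * S e ^ 2)
        ≤ η / 2 * (C * N) := mul_le_mul_of_nonneg_left hB (by linarith)
      _ = η * C * N / 2 := by ring
      _ ≤ c * N / 2 := by
          have := mul_le_mul_of_nonneg_right hη2 hN0
          linarith
      _ = _ := by ring
  change c / 2 * N ≤ ∑' e : XX I × XX I, 1 / 2 * κ.wp e * T e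
  linarith

end Slb

end Pool.Agent.KSlab
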