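import Pool.Agent.KSlab.TrDef

/-! SL37: the binomial series `(1 - exp (-s)) ^ (-α)`. -/

set_option autoImplicit false

open Complex Set Filter Topology

namespace Pool.Agent.KSlab

open Pool.Agent.KAsym (Sct)

private theorem prod_eq (α : ℝ) (n : ℕ) :
    (ascPochhammer ℕ n).smeval α = ∏ j ∈ Finset.range n, (α + j) := by
  rw [Polynomial.ascPochhammer_smeval_eq_eval]
  induction n with
  | zero => simp
  | succ n ih => rw [ascPochhammer_succ_eval, ih, Finset.prod_range_succ]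

private theorem cb_eq (α : ℝ) (n : ℕ) : cb α n = Ring.choose (α + n - 1) n := by
  have h1 := Ring.factorial_nsmul_multichoose_eq_ascPochhammer α n
  rw [prod_eq, nsmul_eq_mul, Ring.multichoose_eq] at h1
  unfold cb
  rw [← h1, mul_comm, mul_div_assoc, div_self (by positivity), mul_one]

private theorem cb_eqC (α : ℝ) (n : ℕ) : (cb α n : ℂ) = Ring.choose ((α : ℂ) + n - 1) n := by
  rw [cb_eq, Complex.ofReal_choose]
  push_cast
  rfl

/-- Ratio test, or: `|cb α n| ≤ cb |α| n` and `one_div_one_sub_rpow_hasFPowerSeriesOnBall_zero`. -/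
theorem cb_summable (α : ℝ) {σ : ℝ} (hσ : 0 < σ) :
    Summable fun n : ℕ => |cb α n| * Real.exp (-(n * σ)) := by
  have h1 := (Complex.one_div_one_sub_cpow_hasFPowerSeriesOnBall_zero (α : ℂ)).r_le
  have h2 : (((Real.exp (-σ)).toNNReal : NNReal) : ENNReal) < 1 := by
    rw [← ENNReal.coe_one, ENNReal.coe_lt_coe, ← NNReal.coe_lt_coe,
      Real.coe_toNNReal _ (Real.exp_pos _).le, NNReal.coe_one, Real.exp_lt_one_iff]
    linarith
  have h3 := FormalMultilinearSeries.summable_norm_mul_pow _ (h2.trans_le h1)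
  refine h3.congr fun n => ?_
  rw [FormalMultilinearSeries.ofScalars_norm, ← cb_eqC, Complex.norm_real, Real.norm_eq_abs,
    Real.coe_toNNReal _ (Real.exp_pos _).le, ← Real.exp_nat_mul]
  congr 2
  ring

/-- Mathlib: `one_div_one_sub_cpow_hasFPowerSeriesOnBall_zero`; `cb α n` is the coefficient
`Ring.choose (α + n - 1) n`. -/
theorem cb_series (α : ℝ) {s : ℂ} (hs : 0 < s.re) :
    ∑' n : ℕ, (cb α n : ℂ) * exp (-n * s) = (1 - exp (-s)) ^ (-α : ℂ) := by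
  have h1 := Complex.one_div_one_sub_cpow_hasFPowerSeriesOnBall_zero (α : ℂ)
  have h2 : exp (-s) ∈ Metric.eball (0 : ℂ) 1 := by
    rw [← ENNReal.ofReal_one, Metric.eball_ofReal, Metric.mem_ball, dist_zero_right,
      Complex.norm_exp, neg_re, Real.exp_lt_one_iff]
    linarith
  have h3 := (h1.hasSum h2).tsum_eq
  rw [zero_add] at h3
  rw [cpow_neg, ← one_div, ← h3]
  refine tsum_congr fun n => ?_
  rw [FormalMultilinearSeries.ofScalars_apply_eq, ← cb_eqC, smul_eq_mul, ← Complex.exp_nat_mul]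
  congr 2
  ring

/-- `1 - exp (-s)` is in the slit plane (positive real part) for `s = i φ`, `0 < |φ| ≤ π`, so in a neighbourhood. -/
theorem cb_ext (α : ℝ) {φ : ℝ} (h0 : φ ≠ 0) (h1 : |φ| ≤ Real.pi) : ∃ ε > 0,
    DifferentiableOn ℂ (fun s : ℂ => (1 - exp (-s)) ^ (-α : ℂ)) (Metric.ball (φ * I) ε) := by
  have hc : Continuous fun s : ℂ => (1 - exp (-s)).re := by fun_prop
  have hU : IsOpen {s : ℂ | 0 < (1 - exp (-s)).re} := isOpen_lt continuous_const hc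
  have hm : (φ * I : ℂ) ∈ {s : ℂ | 0 < (1 - exp (-s)).re} := by
    show 0 < (1 - exp (-(φ * I : ℂ))).re
    have h2 : -(φ * I : ℂ) = ((-φ : ℝ) : ℂ) * I := by push_cast; ring
    rw [h2, sub_re, one_re, Complex.exp_ofReal_mul_I_re, Real.cos_neg, ← Real.cos_abs]
    have h3 : Real.cos |φ| < Real.cos 0 :=
      Real.cos_lt_cos_of_nonneg_of_le_pi le_rfl h1 (abs_pos.2 h0)
    rw [Real.cos_zero] at h3
    linarith
  obtain ⟨ε, hε, hball⟩ := Metric.isOpen_iff.1 hU _ hm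
  refine ⟨ε, hε, fun s hs => ?_⟩
  have h2 : 0 < (1 - exp (-s)).re := hball hs
  have h3 : DifferentiableAt ℂ (fun s : ℂ => 1 - exp (-s)) s := by fun_prop
  exact (h3.cpow_const (Or.inl h2)).differentiableWithinAt

private theorem sct_re {s : ℂ} (hs : s ∈ Sct (1 / 4)) : |s.arg| < 2 * Real.pi / 3 := by
  have hs0 : 0 < ‖s‖ := norm_pos_iff.2 hs.1
  have h1 : Real.cos |s.arg| = s.re / ‖s‖ := by
    rw [Real.cos_abs, Complex.cos_arg hs.1]
  have h2 : Real.cos (2 * Real.pi / 3) = -(1 / 2) := by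
    rw [show 2 * Real.pi / 3 = Real.pi - Real.pi / 3 by ring, Real.cos_pi_sub, Real.cos_pi_div_three]
  by_contra hcon
  push Not at hcon
  have h3 : Real.cos |s.arg| ≤ Real.cos (2 * Real.pi / 3) :=
    Real.cos_le_cos_of_nonneg_of_le_pi (by positivity) (Complex.abs_arg_le_pi s) hcon
  rw [h1, h2, div_le_iff₀ hs0] at h3
  have := hs.2.2
  linarith

private theorem u_arg {u : ℂ} (hu : ‖u - 1‖ ≤ 1 / 4) : u ≠ 0 ∧ |u.arg| < Real.pi / 3 := by
  have h1 : 3 / 4 ≤ u.re := by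
    have h2 := (abs_le.1 (Complex.abs_re_le_norm (u - 1))).1
    rw [sub_re, one_re] at h2
    linarith
  have h0 : u ≠ 0 := by
    rintro rfl
    rw [zero_re] at h1
    linarith
  have hu0 : 0 < ‖u‖ := norm_pos_iff.2 h0
  have h3 : ‖u‖ ≤ 5 / 4 := by
    have h4 : ‖u‖ = ‖(u - 1) + 1‖ := by rw [sub_add_cancel]
    have h5 := norm_add_le (u - 1) 1
    rw [norm_one] at h5
    linarith
  refine ⟨h0, ?_⟩
  have h6 : Real.cos |u.arg| = u.re / ‖u‖ := by
    rw [Real.cos_abs, Complex.cos_arg h0]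
  by_contra hcon
  push Not at hcon
  have h7 : Real.cos |u.arg| ≤ Real.cos (Real.pi / 3) :=
    Real.cos_le_cos_of_nonneg_of_le_pi (by positivity) (Complex.abs_arg_le_pi u) hcon
  rw [h6, Real.cos_pi_div_three, div_le_iff₀ hu0] at h7
  linarith

private theorem u_cpow (α : ℝ) {u : ℂ} (hu : ‖u - 1‖ ≤ 1 / 4) :
    ‖u ^ (-α : ℂ) - 1‖ ≤ 3 / 2 * |α| * Real.exp |α| * ‖u - 1‖ := by
  have h0 := (u_arg hu).1
  have h1 : ‖log u‖ ≤ 3 / 2 * ‖u - 1‖ := by
    have h2 := Complex.norm_log_one_add_half_le_self (z := u - 1) (by linarith)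
    rwa [add_sub_cancel] at h2
  have h3 := Complex.norm_exp_sub_sum_le_norm_mul_exp (log u * (-α : ℂ)) 1
  simp only [Finset.range_one, Finset.sum_singleton, pow_zero, Nat.factorial_zero, Nat.cast_one,
    div_one, pow_one] at h3
  rw [cpow_def_of_ne_zero h0]
  refine h3.trans ?_
  have h4 : ‖log u * (-α : ℂ)‖ = ‖log u‖ * |α| := by
    rw [norm_mul, norm_neg, Complex.norm_real, Real.norm_eq_abs]
  have h5 : ‖log u * (-α : ℂ)‖ ≤ 3 / 2 * |α| * ‖u - 1‖ := by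
    rw [h4]
    nlinarith [abs_nonneg α]
  have h6 : ‖log u * (-α : ℂ)‖ ≤ |α| := by
    rw [h4]
    have := abs_nonneg α
    nlinarith
  calc ‖log u * (-α : ℂ)‖ * Real.exp ‖log u * (-α : ℂ)‖
      ≤ (3 / 2 * |α| * ‖u - 1‖) * Real.exp |α| :=
        mul_le_mul h5 (Real.exp_le_exp.2 h6) (Real.exp_pos _).le (by positivity)
    _ = _ := by ring

/-- `1 - exp (-s) = s u` with `‖u - 1‖ ≤ ‖s‖ ≤ 1/4`; the arguments: `|arg s| < 2π/3`, `|arg u| < π/3`; so
`(s u) ^ (-α) = s ^ (-α) u ^ (-α)` (`Complex.mul_cpow` or by logarithms) and `‖u ^ (-α) - 1‖ ≤ C ‖u - 1‖`. -/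
theorem cb_near (α : ℝ) : ∃ C : ℝ, 0 ≤ C ∧ ∀ s ∈ Sct (1 / 4), 1 - exp (-s) ∈ slitPlane ∧
    ‖(1 - exp (-s)) ^ (-α : ℂ) - s ^ (-α : ℂ)‖ ≤ C * ‖s‖ ^ (1 - α) := by
  refine ⟨3 / 2 * |α| * Real.exp |α|, by positivity, fun s hs => ?_⟩
  have hs0 : 0 < ‖s‖ := norm_pos_iff.2 hs.1
  have hs4 : ‖s‖ < 1 / 4 := hs.2.1
  obtain ⟨u, hu⟩ : ∃ u : ℂ, u = (1 - exp (-s)) / s := ⟨_, rfl⟩
  have hsu : 1 - exp (-s) = s * u := by
    rw [hu, mul_div_cancel₀ _ hs.1]
  have hu1 : ‖u - 1‖ ≤ ‖s‖ := by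
    have h1 := Complex.norm_exp_sub_one_sub_id_le (x := -s) (by rw [norm_neg]; linarith)
    rw [norm_neg] at h1
    have h2 : exp (-s) - 1 - -s = -(s * (u - 1)) := by
      rw [mul_sub, ← hsu]
      ring
    rw [h2, norm_neg, norm_mul, sq] at h1
    exact le_of_mul_le_mul_left h1 hs0
  have hu4 : ‖u - 1‖ ≤ 1 / 4 := hu1.trans hs4.le
  obtain ⟨hu0, hua⟩ := u_arg hu4
  have hsa := sct_re hs
  have hpi := Real.pi_pos
  have h1 := abs_lt.1 hua
  have h2 := abs_lt.1 hsa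
  have hIoc : s.arg + u.arg ∈ Set.Ioc (-Real.pi) Real.pi :=
    ⟨by linarith [h1.1, h2.1], by linarith [h1.2, h2.2]⟩
  have hlog : log (s * u) = log s + log u := (log_mul_eq_add_log_iff hs.1 hu0).2 hIoc
  have harg : (s * u).arg = s.arg + u.arg := (arg_mul_eq_add_arg_iff hs.1 hu0).2 hIoc
  have hsu0 : s * u ≠ 0 := mul_ne_zero hs.1 hu0
  rw [hsu]
  refine ⟨mem_slitPlane_iff_arg.2 ⟨?_, hsu0⟩, ?_⟩
  · rw [harg]
    intro h
    linarith [h1.2, h2.2]
  · have h3 : (s * u) ^ (-α : ℂ) = s ^ (-α : ℂ) * u ^ (-α : ℂ) := by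
      rw [cpow_def_of_ne_zero hsu0, cpow_def_of_ne_zero hs.1, cpow_def_of_ne_zero hu0, hlog,
        add_mul, Complex.exp_add]
    have h4 : (s * u) ^ (-α : ℂ) - s ^ (-α : ℂ) = s ^ (-α : ℂ) * (u ^ (-α : ℂ) - 1) := by
      rw [h3]
      ring
    have h5 : ‖s ^ (-α : ℂ)‖ = ‖s‖ ^ (-α) := by
      rw [← Complex.norm_cpow_real]
      push_cast
      rfl
    rw [h4, norm_mul, h5]
    have h6 : ‖s‖ ^ (1 - α) = ‖s‖ ^ (-α) * ‖s‖ := by
      rw [show 1 - α = -α + 1 by ring, Real.rpow_add hs0, Real.rpow_one]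
    rw [h6]
    have h7 : 0 ≤ ‖s‖ ^ (-α) := by positivity
    calc ‖s‖ ^ (-α) * ‖u ^ (-α : ℂ) - 1‖
        ≤ ‖s‖ ^ (-α) * (3 / 2 * |α| * Real.exp |α| * ‖s‖) := by
          refine mul_le_mul_of_nonneg_left ((u_cpow α hu4).trans ?_) h7
          exact mul_le_mul_of_nonneg_left hu1 (by positivity)
      _ = _ := by ring

end Pool.Agent.KSlab
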