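import Pool.Agent.KSlab.TrDef

/-! SL38: the asymptotics of the coefficients of `(1 - w) ^ (-α)`. -/

set_option autoImplicit false

open Filter Topology

namespace Pool.Agent.KSlab

/-- `cb α n = n ^ α / (GammaSeq α n (α + n))` (`Real.GammaSeq α n = n ^ α n! / ∏_{j ≤ n} (α + j)`) and
`Real.GammaSeq_tendsto_Gamma`. -/
theorem cb_tendsto {α : ℝ} (hα : ∀ k : ℕ, α ≠ -k) :
    Tendsto (fun n : ℕ => cb α n * (n : ℝ) ^ (1 - α)) atTop (𝓝 (Real.Gamma α)⁻¹) := by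
  have h1 := Real.GammaSeq_tendsto_Gamma α
  have h2 : Tendsto (fun n : ℕ => (Real.GammaSeq α n)⁻¹) atTop (𝓝 (Real.Gamma α)⁻¹) :=
    h1.inv₀ (Real.Gamma_ne_zero hα)
  have h3 : Tendsto (fun n : ℕ => (n : ℝ) / (n + α)) atTop (𝓝 1) :=
    tendsto_natCast_div_add_atTop α
  have h4 := h3.mul h2
  rw [one_mul] at h4
  refine h4.congr' ?_
  filter_upwards [eventually_ge_atTop 1] with n hn
  have hn0 : (0 : ℝ) < n := by exact_mod_cast hn
  have hP : ∏ j ∈ Finset.range n, (α + j) ≠ 0 := by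
    refine Finset.prod_ne_zero_iff.2 fun j _ h => ?_
    exact hα j (eq_neg_of_add_eq_zero_left h)
  have hn1 : α + n ≠ 0 := fun h => hα n (eq_neg_of_add_eq_zero_left h)
  have hf : (n.factorial : ℝ) ≠ 0 := by exact_mod_cast n.factorial_ne_zero
  have hr : (n : ℝ) ^ α ≠ 0 := (Real.rpow_pos_of_pos hn0 α).ne'
  unfold Real.GammaSeq cb
  rw [Finset.prod_range_succ, Real.rpow_sub hn0, Real.rpow_one, add_comm (n : ℝ) α]
  field_simp

/-- `Γ(1/2) = -1/2 Γ(-1/2)`. -/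
theorem gamma_neg_half : Real.Gamma (-(1 / 2)) = -2 * Real.sqrt Real.pi := by
  have h1 := Real.Gamma_add_one (s := -(1 / 2)) (by norm_num)
  have h2 : (-(1 / 2) : ℝ) + 1 = 1 / 2 := by norm_num
  rw [h2, Real.Gamma_one_half_eq] at h1
  linarith

end Pool.Agent.KSlab
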