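import Pool.Agent.KSlab.Ibp

/-! SL21: the critical measure is asymptotic to a multiple of the Perron vector, exponentially fast. -/

set_option autoImplicit false

open Set Filter Topology

namespace Pool.Agent.KSlab

namespace Slb

variable {I : Type} [Fintype I] {κ : Slb I} {m : XX I → ℝ}

private theorem dc_geo : Summable fun u : ℤ => (1 / 4 : ℝ) ^ u.natAbs := by
  have h1 : Summable fun n : ℕ => (1 / 4 : ℝ) ^ n :=
    summable_geometric_of_lt_one (by norm_num) (by norm_num)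
  refine Summable.of_nat_of_neg ?_ ?_
  · simpa using h1
  · simpa using h1

private theorem dc_geo' : Summable fun x : XX I => (1 / 4 : ℝ) ^ x.1.natAbs := by
  have h1 : Summable fun _ : I => (1 : ℝ) := Summable.of_finite
  have h2 := dc_geo.mul_of_nonneg h1 (fun _ => by positivity) (fun _ => zero_le_one)
  simpa using h2

private theorem dc_amgm {c : ℝ} (hc : 0 < c) (a b : ℝ) :
    a * b ≤ c / 2 * a ^ 2 + 1 / (2 * c) * b ^ 2 := by
  have h := mul_nonneg (half_pos hc).le (sq_nonneg (a - b / c))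
  have e : c / 2 * (a - b / c) ^ 2 = c / 2 * a ^ 2 - a * b + 1 / (2 * c) * b ^ 2 := by
    field_simp
    ring
  linarith

private theorem dc_sq {C t : ℝ} (n : ℕ) (h : |t| ≤ C * (1 / 4) ^ n) :
    (2 ^ n * t) ^ 2 ≤ C ^ 2 * (1 / 4) ^ n := by
  have h1 : t ^ 2 ≤ (C * (1 / 4) ^ n) ^ 2 := by
    rw [← sq_abs]
    exact pow_le_pow_left₀ (abs_nonneg _) h 2
  rw [mul_pow]
  calc (2 ^ n) ^ 2 * t ^ 2 ≤ (2 ^ n) ^ 2 * (C * (1 / 4) ^ n) ^ 2 :=
        mul_le_mul_of_nonneg_left h1 (by positivity)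
    _ = C ^ 2 * ((2 ^ 2 * (1 / 4) ^ 2) ^ n) := by
        rw [mul_pow (2 ^ 2 : ℝ), mul_pow C, ← pow_mul, ← pow_mul, ← pow_mul, ← pow_mul,
          mul_comm n 2]
        ring
    _ = C ^ 2 * (1 / 4) ^ n := by norm_num

private theorem dc_wt {ρ : ℝ} (h1 : 1 < ρ) (h2 : ρ < 2) (L : ℕ) (u : ℤ) :
    0 ≤ Wt ρ L u ∧ Wt ρ L u ≤ ρ ^ L ∧ Wt ρ L u ≤ 2 ^ u.natAbs := by
  unfold Wt
  refine ⟨by positivity, pow_le_pow_right₀ h1.le (min_le_right _ _), ?_⟩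
  calc ρ ^ min u.natAbs L ≤ ρ ^ u.natAbs := pow_le_pow_right₀ h1.le (min_le_left _ _)
    _ ≤ 2 ^ u.natAbs := pow_le_pow_left₀ (by positivity) h2.le _

/-- the two weighted families are square summable -/
private theorem dc_summable {T : Type} {p : T → ℝ} (hp : Summable fun u => p u ^ 2)
    {w : T → ℝ} {B : ℝ} (h0 : ∀ u, 0 ≤ w u) (hB : ∀ u, w u ≤ B) :
    (Summable fun u => (w u * p u) ^ 2) ∧ Summable fun u => (w u ^ 2 * p u) ^ 2 := by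
  constructor
  · refine Summable.of_nonneg_of_le (fun u => sq_nonneg _) (fun u => ?_) (hp.mul_left (B ^ 2))
    rw [mul_pow]
    exact mul_le_mul_of_nonneg_right (pow_le_pow_left₀ (h0 u) (hB u) 2) (sq_nonneg _)
  · refine Summable.of_nonneg_of_le (fun u => sq_nonneg _) (fun u => ?_)
      (hp.mul_left ((B ^ 2) ^ 2))
    rw [mul_pow]
    exact mul_le_mul_of_nonneg_right
      (pow_le_pow_left₀ (sq_nonneg _) (pow_le_pow_left₀ (h0 u) (hB u) 2) 2) (sq_nonneg _)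

/-- a sum of products is bounded by weighted sums of squares -/
private theorem dc_le {T : Type} {c : ℝ} (hc : 0 < c) {p F v w : T → ℝ}
    (hw : ∀ u, 0 ≤ w u) (hv : ∀ u, w u ≤ v u)
    (s1 : Summable fun u => (w u * p u) ^ 2) (s2 : Summable fun u => (v u * F u) ^ 2)
    (s3 : Summable fun u => w u ^ 2 * p u * F u) :
    ∑' u, w u ^ 2 * p u * F u ≤
      c / 2 * ∑' u, (w u * p u) ^ 2 + 1 / (2 * c) * ∑' u, (v u * F u) ^ 2 := by
  rw [← tsum_mul_left, ← tsum_mul_left, ← (s1.mul_left (c / 2)).tsum_add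
    (s2.mul_left (1 / (2 * c)))]
  refine s3.tsum_le_tsum (fun u => ?_) ((s1.mul_left (c / 2)).add (s2.mul_left (1 / (2 * c))))
  have h1 := dc_amgm hc (w u * p u) (w u * F u)
  have h2 : (w u * F u) ^ 2 ≤ (v u * F u) ^ 2 := by
    rw [mul_pow, mul_pow]
    exact mul_le_mul_of_nonneg_right (pow_le_pow_left₀ (hw u) (hv u) 2) (sq_nonneg _)
  have h3 : 1 / (2 * c) * (w u * F u) ^ 2 ≤ 1 / (2 * c) * (v u * F u) ^ 2 :=
    mul_le_mul_of_nonneg_left h2 (by positivity)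
  have h4 : w u * p u * (w u * F u) = w u ^ 2 * p u * F u := by ring
  rw [h4] at h1
  linarith

/-- `ct` and `ibp` with `P = W² pd`, `Δ = W² dd`: with `N = ∑ (W pd)² + ∑ (W dd)²`
`c N ≤ ∑ W² pd Fl + ∑ W² dd h nu ≤ √N (∑ W² Fl² + ∑ W² h² nu²)^{1/2}`, and the last factor is bounded uniformly in
`L` because `W ≤ ρ ^ |u| ≤ 2 ^ |u|` and `|Fl u|, |nu| ≤ C / 4 ^ |u|` (`fl_le`, `nu_le`). So `N ≤ C'` for all `L`; let `L → ∞`
(Fatou: finite partial sums). -/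
theorem Ok.decay_sq (hκ : κ.Ok) (hm : κ.IsM m) (i₀ : I) : ∃ ρ : ℝ, 1 < ρ ∧ ρ < 2 ∧
    (Summable fun u : ℤ => (ρ ^ u.natAbs * κ.pd m i₀ u) ^ 2) ∧
    Summable fun x : XX I => (ρ ^ x.1.natAbs * κ.dd m i₀ x) ^ 2 := by
  obtain ⟨ρ, c, h1, h2, hc, hct⟩ := hκ.ct i₀
  obtain ⟨hp, hd⟩ := hκ.pd_summable hm i₀
  obtain ⟨CF, hCF, hF⟩ := hκ.fl_le hm
  obtain ⟨CN, hCN, hN⟩ := (hκ.nu_le hm).2
  have hdd0 : ∀ u, κ.dd m i₀ (u, i₀) = 0 := fun u => sub_self _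
  have hH : ∀ i, κ.h i ≤ ∑ i, κ.h i := fun i =>
    Finset.single_le_sum (f := κ.h) (fun j _ => (hκ.h_pos j).le) (Finset.mem_univ i)
  have hH0 : 0 ≤ ∑ i, κ.h i := Finset.sum_nonneg fun j _ => (hκ.h_pos j).le
  have sF : Summable fun u : ℤ => (2 ^ u.natAbs * κ.Fl m u) ^ 2 :=
    Summable.of_nonneg_of_le (fun u => sq_nonneg _) (fun u => dc_sq _ (hF u))
      (dc_geo.mul_left (CF ^ 2))
  have sN : Summable fun x : XX I => (2 ^ x.1.natAbs * (κ.h x.2 * κ.nu m x)) ^ 2 := by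
    refine Summable.of_nonneg_of_le (fun u => sq_nonneg _)
      (fun x => dc_sq (C := (∑ i, κ.h i) * CN) _ ?_) (dc_geo'.mul_left (((∑ i, κ.h i) * CN) ^ 2))
    rw [abs_mul, abs_of_pos (hκ.h_pos _), mul_assoc]
    exact mul_le_mul (hH _) (hN x) (abs_nonneg _) hH0
  set K : ℝ := ∑' u : ℤ, (2 ^ u.natAbs * κ.Fl m u) ^ 2 +
    ∑' x : XX I, (2 ^ x.1.natAbs * (κ.h x.2 * κ.nu m x)) ^ 2 with hK
  have key : ∀ L : ℕ, (Summable fun u => (Wt ρ L u * κ.pd m i₀ u) ^ 2) ∧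
      (Summable fun x : XX I => (Wt ρ L x.1 * κ.dd m i₀ x) ^ 2) ∧
      ∑' u, (Wt ρ L u * κ.pd m i₀ u) ^ 2 + ∑' x : XX I, (Wt ρ L x.1 * κ.dd m i₀ x) ^ 2 ≤
        K / c ^ 2 := by
    intro L
    obtain ⟨s1, s1'⟩ := dc_summable hp (w := fun u => Wt ρ L u) (B := ρ ^ L)
      (fun u => (dc_wt h1 h2 L u).1) (fun u => (dc_wt h1 h2 L u).2.1)
    obtain ⟨s2, s2'⟩ := dc_summable hd (w := fun x : XX I => Wt ρ L x.1) (B := ρ ^ L)
      (fun u => (dc_wt h1 h2 L _).1) (fun u => (dc_wt h1 h2 L _).2.1)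
    obtain ⟨i1, i2, i3⟩ := hκ.ibp hm i₀ (fun u => Wt ρ L u ^ 2 * κ.pd m i₀ u)
      (fun x => Wt ρ L x.1 ^ 2 * κ.dd m i₀ x) s1' s2'
    have h5 := (hct L (κ.pd m i₀) (κ.dd m i₀) hp hd hdd0).2
    rw [i3] at h5
    have h6 := dc_le hc (p := κ.pd m i₀) (F := κ.Fl m) (v := fun u : ℤ => 2 ^ u.natAbs)
      (w := fun u => Wt ρ L u) (fun u => (dc_wt h1 h2 L u).1) (fun u => (dc_wt h1 h2 L u).2.2)
      s1 sF i1
    have h7 := dc_le hc (p := κ.dd m i₀) (F := fun x => κ.h x.2 * κ.nu m x)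
      (v := fun x : XX I => 2 ^ x.1.natAbs) (w := fun x : XX I => Wt ρ L x.1)
      (fun u => (dc_wt h1 h2 L _).1) (fun u => (dc_wt h1 h2 L _).2.2) s2 sN i2
    refine ⟨s1, s2, ?_⟩
    set N₁ := ∑' u, (Wt ρ L u * κ.pd m i₀ u) ^ 2
    set N₂ := ∑' x : XX I, (Wt ρ L x.1 * κ.dd m i₀ x) ^ 2
    have h8 : c * (N₁ + N₂) ≤ c / 2 * (N₁ + N₂) + 1 / (2 * c) * K := by
      rw [hK, mul_add (1 / (2 * c))]
      linarith
    have h9 : c / 2 * (N₁ + N₂) ≤ 1 / (2 * c) * K := by linarith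
    rw [le_div_iff₀ (by positivity)]
    have h10 := mul_le_mul_of_nonneg_left h9 (show 0 ≤ 2 * c by positivity)
    have e1 : 2 * c * (c / 2 * (N₁ + N₂)) = (N₁ + N₂) * c ^ 2 := by ring
    have e2 : 2 * c * (1 / (2 * c) * K) = K := by field_simp
    rw [e1, e2] at h10
    exact h10
  refine ⟨ρ, h1, h2, ?_, ?_⟩
  · refine summable_of_sum_le (c := K / c ^ 2) (fun u => sq_nonneg _) fun S => ?_
    obtain ⟨s1, s2, h3⟩ := key (S.sup fun u => u.natAbs)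
    have h4 : ∑ u ∈ S, (ρ ^ u.natAbs * κ.pd m i₀ u) ^ 2 =
        ∑ u ∈ S, (Wt ρ (S.sup fun u => u.natAbs) u * κ.pd m i₀ u) ^ 2 := by
      refine Finset.sum_congr rfl fun u hu => ?_
      unfold Wt
      rw [min_eq_left (Finset.le_sup (f := fun u : ℤ => u.natAbs) hu)]
    rw [h4]
    refine (s1.sum_le_tsum S fun u _ => sq_nonneg _).trans (le_trans ?_ h3)
    exact le_add_of_nonneg_right (tsum_nonneg fun x => sq_nonneg _)
  · refine summable_of_sum_le (c := K / c ^ 2) (fun u => sq_nonneg _) fun S => ?_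
    obtain ⟨s1, s2, h3⟩ := key (S.sup fun x => x.1.natAbs)
    have h4 : ∑ x ∈ S, (ρ ^ x.1.natAbs * κ.dd m i₀ x) ^ 2 =
        ∑ x ∈ S, (Wt ρ (S.sup fun x => x.1.natAbs) x.1 * κ.dd m i₀ x) ^ 2 := by
      refine Finset.sum_congr rfl fun x hx => ?_
      unfold Wt
      rw [min_eq_left (Finset.le_sup (f := fun x : XX I => x.1.natAbs) hx)]
    rw [h4]
    refine (s2.sum_le_tsum S fun u _ => sq_nonneg _).trans (le_trans ?_ h3)
    exact le_add_of_nonneg_left (tsum_nonneg fun x => sq_nonneg _)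

/-- the pointwise bound -/
private theorem dc_pt {T : Type} {ρ : ℝ} (hρ : 1 < ρ) {a : T → ℝ} {n : T → ℕ}
    (h : Summable fun x => (ρ ^ n x * a x) ^ 2) :
    ∃ C : ℝ, 0 ≤ C ∧ ∀ x, |a x| ≤ C * (1 / ρ) ^ n x := by
  refine ⟨Real.sqrt (∑' x, (ρ ^ n x * a x) ^ 2), Real.sqrt_nonneg _, fun x => ?_⟩
  have h1 : (ρ ^ n x * a x) ^ 2 ≤ ∑' x, (ρ ^ n x * a x) ^ 2 :=
    h.le_tsum x fun y _ => sq_nonneg _
  have h2 := Real.abs_le_sqrt h1
  have h3 : 0 < ρ ^ n x := by positivity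
  rw [abs_mul, abs_of_pos h3] at h2
  rw [one_div, inv_pow, ← div_eq_mul_inv, le_div_iff₀ h3, mul_comm]
  exact h2

/-- `|pd u| ≤ C ρ ^ (-|u|)`, so `γ (u, i₀)` has limits at `± ∞` with exponential speed; they are equal by
`IsM.refl`; `|dd x| ≤ C ρ ^ (-|u|)`. Take `i₀` any element of `I` (`dead_ne`), `r = 1 / ρ`; `β ≥ 0` because
`m ≥ 0`. The finitely many... all `x` are covered by enlarging the constant. -/
theorem Ok.decay (hκ : κ.Ok) (hm : κ.IsM m) : ∃ β r C : ℝ, 0 ≤ β ∧ 1 / 2 ≤ r ∧ r < 1 ∧ 0 ≤ C ∧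
    ∀ x : XX I, |m x - β * κ.h x.2| ≤ C * r ^ x.1.natAbs := by
  obtain ⟨i₀, -⟩ := hκ.dead_ne
  obtain ⟨ρ, h1, h2, sp, sd⟩ := hκ.decay_sq hm i₀
  obtain ⟨C₁, hC₁, hp⟩ := dc_pt h1 sp
  obtain ⟨C₂, hC₂, hd⟩ := dc_pt h1 sd
  have hρ0 : 0 < ρ := by linarith
  have hr1 : 1 / ρ < 1 := by rw [div_lt_one hρ0]; exact h1
  have hr2 : 1 / 2 ≤ 1 / ρ := one_div_le_one_div_of_le hρ0 h2.le
  have hr0 : 0 < 1 / ρ := by positivity
  have hstep : ∀ n : ℕ, dist (κ.gam m ((n : ℤ), i₀)) (κ.gam m (((n + 1 : ℕ) : ℤ), i₀)) ≤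
      C₁ * (1 / ρ) ^ n := by
    intro n
    have h3 := hp (n : ℤ)
    rw [Int.natAbs_natCast] at h3
    rw [dist_comm, Real.dist_eq]
    unfold pd at h3
    push_cast
    exact h3
  obtain ⟨β, hβ⟩ := cauchySeq_tendsto_of_complete
    (cauchySeq_of_le_geometric (1 / ρ) C₁ hr1 hstep)
  have hlim : ∀ n : ℕ, dist (κ.gam m ((n : ℤ), i₀)) β ≤ C₁ * (1 / ρ) ^ n / (1 - 1 / ρ) :=
    fun n => dist_le_of_le_geometric_of_tendsto (1 / ρ) C₁ hr1 hstep hβ n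
  have hnn : ∀ x, 0 ≤ κ.gam m x := fun x => div_nonneg (hm.nn x) (hκ.h_pos _).le
  have hβ0 : 0 ≤ β := ge_of_tendsto' hβ fun n => hnn _
  have hrefl : ∀ u : ℤ, κ.gam m (u, i₀) = κ.gam m ((u.natAbs : ℤ), i₀) := by
    intro u
    rcases Int.natAbs_eq u with h | h
    · rw [← h]
    · have h3 := hm.refl ((u.natAbs : ℤ), i₀)
      simp only at h3
      rw [← h] at h3
      unfold gam
      rw [h3]
  have hH : ∀ i, κ.h i ≤ ∑ i, κ.h i := fun i =>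
    Finset.single_le_sum (f := κ.h) (fun j _ => (hκ.h_pos j).le) (Finset.mem_univ i)
  have hH0 : 0 ≤ ∑ i, κ.h i := Finset.sum_nonneg fun j _ => (hκ.h_pos j).le
  have h1r : 0 < 1 - 1 / ρ := by linarith
  have hD : 0 ≤ C₂ + C₁ / (1 - 1 / ρ) := by positivity
  refine ⟨β, 1 / ρ, (∑ i, κ.h i) * (C₂ + C₁ / (1 - 1 / ρ)), hβ0, hr2, hr1, by positivity,
    fun x => ?_⟩
  have e1 : m x - β * κ.h x.2 = κ.h x.2 * (κ.gam m x - β) := by
    unfold gam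
    have := (hκ.h_pos x.2).ne'
    field_simp
  rw [e1, abs_mul, abs_of_pos (hκ.h_pos _), mul_assoc]
  refine mul_le_mul (hH _) ?_ (abs_nonneg _) hH0
  have h3 : κ.gam m x - β = κ.dd m i₀ x + (κ.gam m (x.1, i₀) - β) := by
    unfold dd
    ring
  have h4 := hlim x.1.natAbs
  rw [← hrefl, Real.dist_eq] at h4
  rw [h3]
  refine (abs_add_le _ _).trans ?_
  refine (add_le_add (hd x) h4).trans (le_of_eq ?_)
  ring

end Slb

end Pool.Agent.KSlab
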