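import Mathlib

/-! SL0: a kernel on `ℤ × I` (`I` finite) which is translation invariant far from the origin, killed
at the dead states: definitions. An element of size `n` has the weight `exp (- n s)`. -/

set_option autoImplicit false

open Complex Set Filter Topology
open scoped ENNReal

namespace Pool.Agent.KSlab

/-- The states: displacement and internal state. -/
abbrev XX (I : Type) : Type := ℤ × I

/-- The data: `f n t i j` is the weight of the free elements of size `n` which lead from the internal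
state `i` to `j` with displacement `t`; `k n x y` is the weight of the elements of size `n` of the
kernel that lead from the state `x` to the state `y`; `c n x` is the weight of the sources of size `n`
at `x`. The states `(0, i)`, `i ∈ D`, are dead. `h` is the Perron vector; `nx x` is a neighbour of the
state `x` that is closer to the dead states, `len x` the distance. -/
structure Slb (I : Type) where
  z : ℝ
  q : ℝ
  f : ℕ → ℤ → I → I → ℝ
  k : ℕ → XX I → XX I → ℝ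
  c : ℕ → XX I → ℝ
  D : Set I
  h : I → ℝ
  nx : XX I → XX I
  len : XX I → ℕ

variable {I : Type}

namespace Slb

variable (κ : Slb I)

/-- The state is alive. -/
def Al (x : XX I) : Prop := ¬ (x.1 = 0 ∧ x.2 ∈ κ.D)

/-- The weight of the free elements of size `n` that lead from `x` to `y`. -/
def fx (n : ℕ) (x y : XX I) : ℝ := κ.f n (y.1 - x.1) x.2 y.2

open Classical in
/-- The defect. -/
noncomputable def df (n : ℕ) (x y : XX I) : ℝ := κ.k n x y - if κ.Al y then κ.fx n x y else 0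

open Classical in
/-- The hypotheses. -/
structure Ok : Prop where
  z_pos : 0 < κ.z
  z_le : κ.z ≤ 1 / 10 ^ 12
  q_le : κ.q ≤ 1
  q_ge : 1 - 17 / 2 * κ.z ≤ κ.q
  f_nn : ∀ n t i j, 0 ≤ κ.f n t i j
  f_low : ∀ n t i j, n < 3 → κ.f n t i j = if n = 2 ∧ t = 0 ∧ i = j then κ.q else 0
  f_even : ∀ n t i j, κ.f n (-t) i j = κ.f n t i j
  f_symm : ∀ n t i j, κ.f n t j i = κ.f n t i j
  /-- the steps -/
  f_x : ∀ i, κ.q * κ.z ≤ κ.f 3 1 i i
  conn : ∀ S : Set I, S.Nonempty → (∀ i ∈ S, ∀ j, κ.q * κ.z ≤ κ.f 3 0 i j → j ∈ S) → S = univ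
  f_sum : ∀ i, Summable fun p : ℕ × ℤ × I => 2 ^ p.1 * 4 ^ p.2.1.natAbs * κ.f p.1 p.2.1 i p.2.2
  k_nn : ∀ n x y, 0 ≤ κ.k n x y
  k_symm : ∀ n x y, κ.k n y x = κ.k n x y
  k_refl : ∀ n (x y : XX I), κ.k n (-x.1, x.2) (-y.1, y.2) = κ.k n x y
  k_low : ∀ n x y, n < 3 → κ.k n x y = if n = 2 ∧ x = y ∧ κ.Al x then κ.q else 0
  k_dead : ∀ n x y, ¬ κ.Al x → κ.k n x y = 0
  k_sum : ∀ x, Summable fun p : ℕ × XX I => 2 ^ p.1 * κ.k p.1 x p.2
  k_le : ∀ x, ∑' p : ℕ × XX I, (if 3 ≤ p.1 then 2 ^ p.1 * κ.k p.1 x p.2 else 0) ≤ 100 * κ.z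
  /-- the defects are small near the dead states, and localised there -/
  df_le : ∀ x, κ.Al x → ∑' p : ℕ × XX I, |κ.df p.1 x p.2| ≤ κ.z / 500 * (1 / 576) ^ κ.len x
  df_sum : ∃ C : ℝ, ∀ x, κ.Al x →
    (Summable fun p : ℕ × XX I => 2 ^ p.1 * 4 ^ p.2.1.natAbs * |κ.df p.1 x p.2|) ∧
    ∑' p : ℕ × XX I, 2 ^ p.1 * 4 ^ p.2.1.natAbs * |κ.df p.1 x p.2| ≤ C * (1 / 4) ^ x.1.natAbs
  c_nn : ∀ n x, 0 ≤ κ.c n x
  c_refl : ∀ n (x : XX I), κ.c n (-x.1, x.2) = κ.c n x
  c_dead : ∀ n x, ¬ κ.Al x → κ.c n x = 0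
  c_pos : ∀ x, κ.Al x → ∃ n, 0 < κ.c n x
  c_sum : ∃ C : ℝ, ∀ x, (Summable fun n => 2 ^ n * κ.c n x) ∧
    ∑' n, 2 ^ n * κ.c n x ≤ C * (1 / 4) ^ x.1.natAbs
  h_pos : ∀ i, 0 < κ.h i
  /-- criticality -/
  h_eq : ∀ i, ∑' p : ℕ × ℤ × I, κ.f p.1 p.2.1 i p.2.2 * κ.h p.2.2 = κ.h i
  dead_ne : κ.D.Nonempty
  len_zero : ∀ x, κ.len x = 0 ↔ ¬ κ.Al x
  nx_len : ∀ x, κ.Al x → κ.len (κ.nx x) + 1 = κ.len x
  nx_step : ∀ x, κ.Al x → κ.q * κ.z ≤ κ.fx 3 x (κ.nx x)
  nx_card : ∀ y, κ.Al y → ∃ s : Finset (XX I), s.card ≤ 3 ∧ ∀ x, κ.Al x → κ.nx x = y → x ∈ s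

/-! ### Sums over the sizes -/

/-- The free kernel at `s = 0`. -/
noncomputable def F0 (t : ℤ) (i j : I) : ℝ := ∑' n, κ.f n t i j

/-- The free kernel at `s = 0` between states. -/
noncomputable def Fx (x y : XX I) : ℝ := κ.F0 (y.1 - x.1) x.2 y.2

/-- The free kernel. -/
noncomputable def Fs (s : ℂ) (t : ℤ) (i j : I) : ℂ := ∑' n : ℕ, κ.f n t i j * exp (-n * s)

/-- The kernel at `s = 0`. -/
noncomputable def K0 (x y : XX I) : ℝ := ∑' n, κ.k n x y

/-- The kernel. -/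
noncomputable def Ks (s : ℂ) (x y : XX I) : ℂ := ∑' n : ℕ, κ.k n x y * exp (-n * s)

/-- The sources at `s = 0`. -/
noncomputable def c0 (x : XX I) : ℝ := ∑' n, κ.c n x

/-- The sources. -/
noncomputable def cs (s : ℂ) (x : XX I) : ℂ := ∑' n : ℕ, κ.c n x * exp (-n * s)

/-! ### Real iterates -/

/-- The sources at a real point. -/
noncomputable def cE (σ : ℝ) (x : XX I) : ℝ≥0∞ :=
  ENNReal.ofReal (∑' n : ℕ, κ.c n x * Real.exp (-n * σ))

/-- The kernel at a real point. -/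
noncomputable def kE (σ : ℝ) (x y : XX I) : ℝ≥0∞ :=
  ENNReal.ofReal (∑' n : ℕ, κ.k n x y * Real.exp (-n * σ))

/-- The iterates of the sources. -/
noncomputable def MM (σ : ℝ) : ℕ → XX I → ℝ≥0∞
  | 0 => κ.cE σ
  | N + 1 => fun x => ∑' y, MM σ N y * κ.kE σ y x

/-! ### Regions -/

/-- The sector near the singularity, without the singularity. -/
def Sec : Set ℂ := {s | s ≠ 0 ∧ ‖s‖ < 40 * κ.z ∧ -‖s‖ / 2 < s.re}

/-- The region away from the singularities. -/
def Far : Set ℂ := {s | ‖exp (-s)‖ < 11 / 10 ∧ 20 * κ.z < ‖1 - κ.q * exp (-2 * s)‖}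

/-! ### The energy -/

/-- The terms of the energy. -/
noncomputable def ef (g : XX I → ℂ) (p : XX I × XX I) : ℝ :=
  1 / 2 * κ.Fx p.1 p.2 * κ.h p.1.2 * κ.h p.2.2 * ‖g p.1 / κ.h p.1.2 - g p.2 / κ.h p.2.2‖ ^ 2

/-- The energy. -/
noncomputable def EF (g : XX I → ℂ) : ℝ := ∑' p, κ.ef g p

/-- The function has finite energy. -/
def FinE (g : XX I → ℂ) : Prop := Summable (κ.ef g)

/-- The function vanishes at the dead states. -/
def Van (g : XX I → ℂ) : Prop := ∀ x, ¬ κ.Al x → g x = 0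

end Slb

/-! ### Square summable functions and operators -/

/-- The space of square summable functions. -/
abbrev EE (I : Type) : Type := lp (fun _ : XX I => ℂ) 2

/-- The rows and the columns of `k` have absolute sums at most `B`. -/
structure Sch (k : XX I → XX I → ℂ) (B : ℝ) : Prop where
  row : ∀ x, Summable fun y => ‖k x y‖
  row_le : ∀ x, ∑' y, ‖k x y‖ ≤ B
  col : ∀ y, Summable fun x => ‖k x y‖
  col_le : ∀ y, ∑' x, ‖k x y‖ ≤ B

open Classical in
/-- The operator with the given kernel. -/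
noncomputable def op (k : XX I → XX I → ℂ) : EE I →L[ℂ] EE I :=
  if h : ∃ T : EE I →L[ℂ] EE I, ∀ g x, T g x = ∑' y, k x y * g y then h.choose else 0

open Classical in
/-- A function as an element of the space. -/
noncomputable def toE (g : XX I → ℂ) : EE I := if h : Memℓp g 2 then ⟨g, h⟩ else 0

namespace Slb

variable (κ : Slb I)

/-- The operator of the kernel. -/
noncomputable def KS (s : ℂ) : EE I →L[ℂ] EE I := op (κ.Ks s)

/-- The resolvent. -/
noncomputable def GS (s : ℂ) : EE I →L[ℂ] EE I := Ring.inverse (1 - κ.KS s)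

/-- The region where everything is regular. -/
def Reg : Set ℂ := {s | -(1 / 2) < s.re ∧ IsUnit (1 - κ.KS s)}

/-- The generating function. -/
noncomputable def U1 (s : ℂ) : ℂ := ∑' x, κ.cs s x * κ.GS s (toE (κ.cs s)) x

end Slb

end Pool.Agent.KSlab
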