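import Pool.Agent.KSlab.RowF

/-! SL6: the energy of the free kernel (ground state transform). -/

set_option autoImplicit false

open Complex Set Filter Topology
open scoped ENNReal ComplexConjugate

namespace Pool.Agent.KSlab

namespace Slb

variable {I : Type} [Fintype I] {κ : Slb I}

theorem Ok.ef_nn (hκ : κ.Ok) (g : XX I → ℂ) (p : XX I × XX I) : 0 ≤ κ.ef g p := by
  have h1 := (hκ.Fx_prop p.1 p.2).1
  have h2 := (hκ.h_pos p.1.2).le
  have h3 := (hκ.h_pos p.2.2).le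
  unfold ef
  positivity

theorem Ok.EF_nn (hκ : κ.Ok) (g : XX I → ℂ) : 0 ≤ κ.EF g :=
  tsum_nonneg (hκ.ef_nn g)

private theorem sq_summable (g : EE I) : Summable fun x => ‖g x‖ ^ 2 := by
  have h := (lp.memℓp g).summable (by norm_num : 0 < (2 : ℝ≥0∞).toReal)
  simpa using h

private theorem sq_tsum (g : EE I) : ∑' x, ‖g x‖ ^ 2 = ‖g‖ ^ 2 := by
  have h := lp.norm_rpow_eq_tsum (by norm_num : 0 < (2 : ℝ≥0∞).toReal) g
  simp only [ENNReal.toReal_ofNat, Real.rpow_ofNat] at h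
  exact h.symm

/-- The first square term. -/
private theorem sq_fst (hκ : κ.Ok) (g : EE I) :
    (Summable fun p : XX I × XX I => κ.Fx p.1 p.2 * (κ.h p.2.2 / κ.h p.1.2) * ‖g p.1‖ ^ 2) ∧
    ∑' p : XX I × XX I, κ.Fx p.1 p.2 * (κ.h p.2.2 / κ.h p.1.2) * ‖g p.1‖ ^ 2 = ‖g‖ ^ 2 := by
  have h1 : ∀ x, HasSum (fun y : XX I => κ.Fx x y * (κ.h y.2 / κ.h x.2) * ‖g x‖ ^ 2)
      (‖g x‖ ^ 2) := by
    intro x
    obtain ⟨h2, h3⟩ := hκ.Fx_h x
    have h4 := (h2.hasSum.mul_right (‖g x‖ ^ 2 / κ.h x.2))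
    rw [h3] at h4
    have h5 : κ.h x.2 ≠ 0 := (hκ.h_pos x.2).ne'
    have h6 : κ.h x.2 * (‖g x‖ ^ 2 / κ.h x.2) = ‖g x‖ ^ 2 := by field_simp
    rw [h6] at h4
    have h7 : (fun y : XX I => κ.Fx x y * (κ.h y.2 / κ.h x.2) * ‖g x‖ ^ 2) =
        fun y : XX I => κ.Fx x y * κ.h y.2 * (‖g x‖ ^ 2 / κ.h x.2) := by
      funext y
      field_simp
    rw [h7]
    exact h4
  have h2 : Summable fun p : XX I × XX I =>
      κ.Fx p.1 p.2 * (κ.h p.2.2 / κ.h p.1.2) * ‖g p.1‖ ^ 2 := by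
    rw [summable_prod_of_nonneg]
    · refine ⟨fun x => (h1 x).summable, ?_⟩
      simp only [(h1 _).tsum_eq]
      exact sq_summable g
    · intro p
      have h1 := (hκ.Fx_prop p.1 p.2).1
      have h2 := (hκ.h_pos p.1.2).le
      have h3 := (hκ.h_pos p.2.2).le
      show 0 ≤ κ.Fx p.1 p.2 * (κ.h p.2.2 / κ.h p.1.2) * ‖g p.1‖ ^ 2
      positivity
  refine ⟨h2, ?_⟩
  rw [h2.tsum_prod]
  simp only [(h1 _).tsum_eq]
  exact sq_tsum g

/-- The second square term. -/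
private theorem sq_snd (hκ : κ.Ok) (g : EE I) :
    (Summable fun p : XX I × XX I => κ.Fx p.1 p.2 * (κ.h p.1.2 / κ.h p.2.2) * ‖g p.2‖ ^ 2) ∧
    ∑' p : XX I × XX I, κ.Fx p.1 p.2 * (κ.h p.1.2 / κ.h p.2.2) * ‖g p.2‖ ^ 2 = ‖g‖ ^ 2 := by
  obtain ⟨h1, h2⟩ := sq_fst hκ g
  have h3 : (fun p : XX I × XX I => κ.Fx p.1 p.2 * (κ.h p.1.2 / κ.h p.2.2) * ‖g p.2‖ ^ 2) =
      (fun p : XX I × XX I => κ.Fx p.1 p.2 * (κ.h p.2.2 / κ.h p.1.2) * ‖g p.1‖ ^ 2) ∘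
        (Equiv.prodComm (XX I) (XX I)) := by
    funext p
    simp only [Function.comp_apply, Equiv.prodComm_apply, Prod.fst_swap, Prod.snd_swap]
    rw [(hκ.Fx_prop p.1 p.2).2]
  rw [h3]
  refine ⟨(Equiv.summable_iff _).2 h1, ?_⟩
  have h4 := (Equiv.prodComm (XX I) (XX I)).tsum_eq
    (fun p : XX I × XX I => κ.Fx p.1 p.2 * (κ.h p.2.2 / κ.h p.1.2) * ‖g p.1‖ ^ 2)
  rw [← h2, ← h4]
  rfl

/-- The mixed term. -/
private theorem mix_summable (hκ : κ.Ok) (g : EE I) : Summable fun p : XX I × XX I =>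
    (conj (g p.1) * (((κ.Fx p.1 p.2 : ℝ) : ℂ) * g p.2)).re := by
  obtain ⟨B, hB, hS⟩ := hκ.sch_Fx
  have h5 : Summable fun p : XX I × XX I =>
      conj (g p.1) * (((κ.Fx p.1 p.2 : ℝ) : ℂ) * g p.2) := by
    refine Summable.of_norm ?_
    refine (pair_summable hS g g).congr fun p => ?_
    rw [norm_mul, norm_mul, RCLike.norm_conj]
    ring
  exact (Complex.hasSum_re h5.hasSum).summable

private theorem ef_expand (hκ : κ.Ok) (g : XX I → ℂ) (p : XX I × XX I) :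
    κ.ef g p = 1 / 2 * (κ.Fx p.1 p.2 * (κ.h p.2.2 / κ.h p.1.2) * ‖g p.1‖ ^ 2) +
      1 / 2 * (κ.Fx p.1 p.2 * (κ.h p.1.2 / κ.h p.2.2) * ‖g p.2‖ ^ 2) -
      (conj (g p.1) * (((κ.Fx p.1 p.2 : ℝ) : ℂ) * g p.2)).re := by
  have h2 := (hκ.h_pos p.1.2).ne'
  have h3 := (hκ.h_pos p.2.2).ne'
  unfold ef
  have h4 : ‖g p.1 / κ.h p.1.2 - g p.2 / κ.h p.2.2‖ ^ 2 =
      ‖g p.1‖ ^ 2 / κ.h p.1.2 ^ 2 + ‖g p.2‖ ^ 2 / κ.h p.2.2 ^ 2 -
      2 * ((g p.1).re * (g p.2).re + (g p.1).im * (g p.2).im) / (κ.h p.1.2 * κ.h p.2.2) := by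
    rw [← Complex.normSq_eq_norm_sq, ← Complex.normSq_eq_norm_sq, ← Complex.normSq_eq_norm_sq,
      Complex.normSq_apply, Complex.normSq_apply, Complex.normSq_apply]
    simp only [Complex.sub_re, Complex.sub_im, Complex.div_ofReal_re, Complex.div_ofReal_im]
    field_simp
    ring
  rw [h4]
  simp only [Complex.mul_re, Complex.conj_re, Complex.conj_im, Complex.ofReal_re,
    Complex.ofReal_im, Complex.mul_im]
  field_simp
  ring

/-- `κ.ef g (x, y) ≤ Fx x y h x h y (‖g x‖² / h x² + ‖g y‖² / h y²)` and `Fx_h`. -/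
theorem Ok.fin_E (hκ : κ.Ok) (g : EE I) : κ.FinE g := by
  have h1 := (((sq_fst hκ g).1.mul_left (1 / 2)).add
    ((sq_snd hκ g).1.mul_left (1 / 2))).sub (mix_summable hκ g)
  exact h1.congr fun p => (ef_expand hκ g p).symm

/-- **Ground state transform.** Expand the square: the two square terms give
`1/2 ∑_{x, y} Fx x y (h y / h x) ‖g x‖² = 1/2 ‖g‖²` each (by `Fx_h` and symmetry), the mixed term gives
`- re ∑ Fx x y conj (g x) g y` (`inner_op`). -/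
theorem Ok.EF_eq (hκ : κ.Ok) (g : EE I) :
    κ.EF g = (inner ℂ g (g - op (fun x y => ((κ.Fx x y : ℝ) : ℂ)) g)).re := by
  obtain ⟨B, hB, hS⟩ := hκ.sch_Fx
  obtain ⟨h1, h2⟩ := sq_fst hκ g
  obtain ⟨h3, h4⟩ := sq_snd hκ g
  have h5 : Summable fun p : XX I × XX I =>
      conj (g p.1) * (((κ.Fx p.1 p.2 : ℝ) : ℂ) * g p.2) := by
    refine Summable.of_norm ?_
    refine (pair_summable hS g g).congr fun p => ?_
    rw [norm_mul, norm_mul, RCLike.norm_conj]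
    ring
  have h6 := inner_op hB hS g g
  have h7 : (inner ℂ g (op (fun x y => ((κ.Fx x y : ℝ) : ℂ)) g)).re =
      ∑' p : XX I × XX I, (conj (g p.1) * (((κ.Fx p.1 p.2 : ℝ) : ℂ) * g p.2)).re := by
    rw [h6]
    exact Complex.re_tsum h5
  have h8 : Summable fun p : XX I × XX I =>
      (conj (g p.1) * (((κ.Fx p.1 p.2 : ℝ) : ℂ) * g p.2)).re :=
    (Complex.hasSum_re h5.hasSum).summable
  have h9 : (inner ℂ g g).re = ‖g‖ ^ 2 := by
    have := inner_self_eq_norm_sq (𝕜 := ℂ) g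
    simpa using this
  rw [inner_sub_right, Complex.sub_re, h9, h7]
  unfold EF
  simp only [ef_expand hκ g]
  rw [((h1.mul_left (1 / 2)).add (h3.mul_left (1 / 2))).tsum_sub h8,
    (h1.mul_left (1 / 2)).tsum_add (h3.mul_left (1 / 2)), tsum_mul_left, tsum_mul_left, h2, h4]
  ring

/-- The energy of a real or imaginary part, the conjugate, the absolute value. -/
theorem Ok.EF_star (hκ : κ.Ok) (g : EE I) : κ.EF (star g : EE I) = κ.EF g := by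
  have _ := hκ
  unfold EF
  refine tsum_congr fun p => ?_
  unfold ef
  have h1 : (star g : EE I) p.1 / κ.h p.1.2 - (star g : EE I) p.2 / κ.h p.2.2 =
      conj (g p.1 / κ.h p.1.2 - g p.2 / κ.h p.2.2) := by
    rw [map_sub, map_div₀, map_div₀, Complex.conj_ofReal, Complex.conj_ofReal]
    rfl
  rw [h1, RCLike.norm_conj]

/-- The absolute value: `|‖a‖ - ‖b‖| ≤ ‖a - b‖`. -/
theorem Ok.EF_abs (hκ : κ.Ok) {g : XX I → ℂ} (hg : κ.FinE g) :
    κ.FinE (fun x => (‖g x‖ : ℂ)) ∧ κ.EF (fun x => (‖g x‖ : ℂ)) ≤ κ.EF g := by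
  have h1 : ∀ p, κ.ef (fun x => (‖g x‖ : ℂ)) p ≤ κ.ef g p := by
    intro p
    have h2 := hκ.h_pos p.1.2
    have h3 := hκ.h_pos p.2.2
    have h4 := (hκ.Fx_prop p.1 p.2).1
    have h5 : ‖((‖g p.1‖ : ℝ) : ℂ) / κ.h p.1.2 - ((‖g p.2‖ : ℝ) : ℂ) / κ.h p.2.2‖ ≤
        ‖g p.1 / κ.h p.1.2 - g p.2 / κ.h p.2.2‖ := by
      have h6 : ∀ (a : ℂ) {b : ℝ}, 0 < b → ‖a‖ / b = ‖a / (b : ℂ)‖ := fun a b hb => by
        rw [norm_div, Complex.norm_real, Real.norm_of_nonneg hb.le]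
      rw [← Complex.ofReal_div, ← Complex.ofReal_div, ← Complex.ofReal_sub, Complex.norm_real,
        Real.norm_eq_abs, h6 _ h2, h6 _ h3]
      exact abs_norm_sub_norm_le _ _
    unfold ef
    have h7 : 0 ≤ 1 / 2 * κ.Fx p.1 p.2 * κ.h p.1.2 * κ.h p.2.2 := by positivity
    exact mul_le_mul_of_nonneg_left (pow_le_pow_left₀ (norm_nonneg _) h5 2) h7
  have h2 : κ.FinE (fun x => (‖g x‖ : ℂ)) := Summable.of_nonneg_of_le (hκ.ef_nn _) h1 hg
  exact ⟨h2, h2.tsum_le_tsum h1 hg⟩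

/-- Fatou: a pointwise limit of functions of bounded energy. -/
theorem Ok.ef_lim (hκ : κ.Ok) {g : ℕ → XX I → ℂ} {g' : XX I → ℂ} {C : ℝ}
    (h : ∀ n, κ.FinE (g n) ∧ κ.EF (g n) ≤ C)
    (hl : ∀ x, Tendsto (fun n => g n x) atTop (𝓝 (g' x))) : κ.FinE g' ∧ κ.EF g' ≤ C := by
  have h1 : ∀ p, Tendsto (fun n => κ.ef (g n) p) atTop (𝓝 (κ.ef g' p)) := by
    intro p
    unfold ef
    exact ((((hl p.1).div_const _).sub ((hl p.2).div_const _)).norm.pow 2).const_mul _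
  have h2 : ∀ s : Finset (XX I × XX I), ∑ p ∈ s, κ.ef g' p ≤ C := by
    intro s
    refine le_of_tendsto (tendsto_finsetSum s fun p _ => h1 p) (Eventually.of_forall fun n => ?_)
    exact ((h n).1.sum_le_tsum s fun p _ => hκ.ef_nn _ p).trans (h n).2
  have h3 : κ.FinE g' := summable_of_sum_le (hκ.ef_nn g') h2
  exact ⟨h3, h3.tsum_le_of_sum_le h2⟩

end Slb

end Pool.Agent.KSlab
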