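import Pool.Agent.KSlab.Resid
import Pool.Agent.KSlab.Low

/-! SL29: the residual is small as a functional. -/

set_option autoImplicit false

open Complex Set Filter Topology

namespace Pool.Agent.KSlab

namespace Slb

variable {I : Type} [Fintype I] {κ : Slb I} {m : XX I → ℝ}

omit [Fintype I] in
private theorem cs_aux {ι : Type} {a b : ι → ℝ} (ha : ∀ i, 0 ≤ a i) (hb : ∀ i, 0 ≤ b i)
    (hsa : Summable fun i => a i ^ 2) (hsb : Summable fun i => b i ^ 2) :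
    (Summable fun i => a i * b i) ∧
      ∑' i, a i * b i ≤ Real.sqrt (∑' i, a i ^ 2) * Real.sqrt (∑' i, b i ^ 2) := by
  have h := Real.summable_and_inner_le_Lp_mul_Lq_tsum_of_nonneg (p := 2) (q := 2)
    Real.HolderConjugate.two_two ha hb (by simpa only [Real.rpow_two] using hsa)
    (by simpa only [Real.rpow_two] using hsb)
  simp only [Real.rpow_two] at h
  rw [Real.sqrt_eq_rpow, Real.sqrt_eq_rpow]
  exact h

omit [Fintype I] in
private theorem du_sq (g : EE I) : Summable fun x => ‖g x‖ ^ 2 := by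
  have h := (lp.memℓp g).summable (by norm_num)
  simpa using h

omit [Fintype I] in
private theorem du_norm (g : EE I) : ∑' x, ‖g x‖ ^ 2 = ‖g‖ ^ 2 := by
  have h := lp.norm_rpow_eq_tsum (p := 2) (by norm_num) g
  simp only [ENNReal.toReal_ofNat, Real.rpow_two] at h
  exact h.symm

private theorem du_phi_sq {w : ℂ} (hw : InK w) : Summable fun x : XX I => ‖phi w x.1‖ ^ 2 := by
  rw [summable_prod_of_nonneg (fun x => by
    change 0 ≤ ‖phi w x.1‖ ^ 2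
    positivity)]
  refine ⟨fun u => Summable.of_finite, ?_⟩
  simp only [tsum_fintype, Finset.sum_const, nsmul_eq_mul]
  exact (phi_sums hw).2.2.1.mul_left _

/-- `∑_{u, j} phi u tt j f (u, j) = ∑_{u, j} phi u tt j h j (f (u, j) / h j - f (u, i₀) / h i₀)` because `∑ tt j h j = 0`
(`V_pos`); Cauchy-Schwarz, `phi_sums` and `low_i`. -/
theorem Ok.main_le (hκ : κ.Ok) : ∃ C : ℝ, 0 ≤ C ∧ ∀ w : ℂ, InK w → ∀ f : EE I,
    (Summable fun y : XX I => phi w y.1 * κ.tt y.2 * f y) ∧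
    ‖∑' y : XX I, phi w y.1 * κ.tt y.2 * f y‖ ≤ C / Real.sqrt ‖w‖ * Real.sqrt (κ.EF f) := by
  obtain ⟨C₂, hC₂, h₂⟩ := hκ.low_i
  obtain ⟨i₀, hi₀⟩ := hκ.dead_ne
  have hV := hκ.V_pos.2.2.2.1
  refine ⟨(∑ j, |κ.tt j| * κ.h j) * (2 * Real.sqrt C₂), ?_, fun w hw f => ?_⟩
  · refine mul_nonneg (Finset.sum_nonneg fun j _ => ?_) (by positivity)
    exact mul_nonneg (abs_nonneg _) (hκ.h_pos j).le
  have hfin := hκ.fin_E f
  have hps := (phi_sums hw).2.2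
  -- summability
  have hsum : Summable fun y : XX I => phi w y.1 * κ.tt y.2 * f y := by
    refine Summable.of_norm ?_
    have h1 := (cs_aux (a := fun y : XX I => ‖phi w y.1‖) (b := fun y => ‖f y‖)
      (fun _ => norm_nonneg _) (fun _ => norm_nonneg _) (du_phi_sq hw) (du_sq f)).1
    refine Summable.of_nonneg_of_le (fun _ => norm_nonneg _) (fun y => ?_)
      (h1.mul_left (∑ j, |κ.tt j|))
    rw [norm_mul, norm_mul, Complex.norm_real, Real.norm_eq_abs]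
    have h2 : |κ.tt y.2| ≤ ∑ j, |κ.tt j| :=
      Finset.single_le_sum (f := fun j => |κ.tt j|) (fun _ _ => abs_nonneg _) (Finset.mem_univ _)
    have h3 := mul_le_mul_of_nonneg_right h2
      (mul_nonneg (norm_nonneg (phi w y.1)) (norm_nonneg (f y)))
    refine le_trans (le_of_eq ?_) h3
    ring
  refine ⟨hsum, ?_⟩
  -- the sum
  set γ : ℤ → I → ℂ := fun u j => f (u, j) / κ.h j - f (u, i₀) / κ.h i₀ with hγ
  have hkey : ∀ u : ℤ, ∑ j, phi w u * κ.tt j * f (u, j) =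
      phi w u * ∑ j, ((κ.tt j * κ.h j : ℝ) : ℂ) * γ u j := by
    intro u
    have e1 : ∑ j, ((κ.tt j * κ.h j : ℝ) : ℂ) = 0 := by
      rw [← Complex.ofReal_sum]
      have : ∑ j, κ.tt j * κ.h j = 0 := by
        rw [← hV]
        exact Finset.sum_congr rfl fun j _ => mul_comm _ _
      rw [this, Complex.ofReal_zero]
    have e2 : ∑ j, ((κ.tt j * κ.h j : ℝ) : ℂ) * γ u j =
        ∑ j, (κ.tt j : ℂ) * f (u, j) := by
      have e3 : ∀ j, ((κ.tt j * κ.h j : ℝ) : ℂ) * γ u j = (κ.tt j : ℂ) * f (u, j) -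
          ((κ.tt j * κ.h j : ℝ) : ℂ) * (f (u, i₀) / κ.h i₀) := by
        intro j
        have hj : (κ.h j : ℂ) ≠ 0 := Complex.ofReal_ne_zero.mpr (hκ.h_pos j).ne'
        rw [hγ]
        simp only []
        rw [mul_sub]
        push_cast
        congr 1
        field_simp
      rw [Finset.sum_congr rfl fun j _ => e3 j, Finset.sum_sub_distrib, ← Finset.sum_mul, e1,
        zero_mul, sub_zero]
    rw [e2, Finset.mul_sum]
    exact Finset.sum_congr rfl fun j _ => by ring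
  have htsum : ∑' y : XX I, phi w y.1 * κ.tt y.2 * f y =
      ∑' u : ℤ, phi w u * ∑ j, ((κ.tt j * κ.h j : ℝ) : ℂ) * γ u j := by
    rw [hsum.tsum_prod]
    refine tsum_congr fun u => ?_
    rw [tsum_fintype, ← hkey]
  have hcs : ∀ j, (Summable fun u : ℤ => ‖phi w u‖ * ‖γ u j‖) ∧
      ∑' u : ℤ, ‖phi w u‖ * ‖γ u j‖ ≤
        Real.sqrt (4 / ‖w‖) * Real.sqrt (C₂ * κ.EF f) := by
    intro j
    obtain ⟨s1, t1⟩ := h₂ f hfin j i₀
    obtain ⟨s2, t2⟩ := cs_aux (a := fun u : ℤ => ‖phi w u‖) (b := fun u => ‖γ u j‖)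
      (fun _ => norm_nonneg _) (fun _ => norm_nonneg _) hps.1 s1
    refine ⟨s2, t2.trans (mul_le_mul (Real.sqrt_le_sqrt hps.2) (Real.sqrt_le_sqrt t1)
      (Real.sqrt_nonneg _) (Real.sqrt_nonneg _))⟩
  have hterm : ∀ u : ℤ, ‖phi w u * ∑ j, ((κ.tt j * κ.h j : ℝ) : ℂ) * γ u j‖ ≤
      ∑ j, (|κ.tt j| * κ.h j) * (‖phi w u‖ * ‖γ u j‖) := by
    intro u
    rw [norm_mul]
    have h3 : ‖∑ j, ((κ.tt j * κ.h j : ℝ) : ℂ) * γ u j‖ ≤
        ∑ j, (|κ.tt j| * κ.h j) * ‖γ u j‖ := by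
      refine (norm_sum_le _ _).trans (le_of_eq (Finset.sum_congr rfl fun j _ => ?_))
      rw [norm_mul, Complex.norm_real, Real.norm_eq_abs, abs_mul, abs_of_pos (hκ.h_pos j)]
    refine (mul_le_mul_of_nonneg_left h3 (norm_nonneg _)).trans (le_of_eq ?_)
    rw [Finset.mul_sum]
    exact Finset.sum_congr rfl fun j _ => by ring
  have hS : Summable fun u : ℤ => ∑ j, (|κ.tt j| * κ.h j) * (‖phi w u‖ * ‖γ u j‖) :=
    summable_sum fun j _ => (hcs j).1.mul_left _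
  have hN : Summable fun u : ℤ => ‖phi w u * ∑ j, ((κ.tt j * κ.h j : ℝ) : ℂ) * γ u j‖ :=
    Summable.of_nonneg_of_le (fun _ => norm_nonneg _) hterm hS
  rw [htsum]
  refine (norm_tsum_le_tsum_norm hN).trans ((hN.tsum_le_tsum hterm hS).trans ?_)
  rw [Summable.tsum_finsetSum fun j _ => (hcs j).1.mul_left _]
  have h5 : ∀ j ∈ Finset.univ, ∑' u : ℤ, (|κ.tt j| * κ.h j) * (‖phi w u‖ * ‖γ u j‖) ≤
      (|κ.tt j| * κ.h j) * (Real.sqrt (4 / ‖w‖) * Real.sqrt (C₂ * κ.EF f)) := by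
    intro j _
    rw [tsum_mul_left]
    exact mul_le_mul_of_nonneg_left (hcs j).2 (mul_nonneg (abs_nonneg _) (hκ.h_pos j).le)
  refine (Finset.sum_le_sum h5).trans (le_of_eq ?_)
  rw [← Finset.sum_mul]
  have h6 : Real.sqrt (4 / ‖w‖) = 2 / Real.sqrt ‖w‖ := by
    rw [Real.sqrt_div (by norm_num), show (4 : ℝ) = 2 ^ 2 by norm_num,
      Real.sqrt_sq (by norm_num)]
  rw [h6, Real.sqrt_mul hC₂.le]
  ring

/-- Combine `resid_a`, `resid_b`, `resid_c`: for `f` which vanishes at the dead states `rho y f y` is (at alive `y`)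
`l1 y f y + l2 y f y + β w² phi y tt y f y` with `‖l1 y‖ ≤ C ‖w‖ r ^ |y|`. Use `low_loc` for `l1`, Cauchy-Schwarz and
`‖f‖ ≤ ‖s‖^(-1/2) √(EF f + ‖s‖ ‖f‖²)`, `‖s‖ = aa ‖w‖²`, for `l2` (`‖l2‖ ≤ C ‖w‖²`), `main_le` for the last one
(`‖w‖² ‖w‖^(-1/2) ≤ ‖w‖`). -/
theorem Ok.dual (hκ : κ.Ok) {β r C : ℝ} (hA : Asy κ m β r C) : ∃ C' w0 : ℝ, 0 ≤ C' ∧ 0 < w0 ∧
    ∀ w : ℂ, InK w → ‖w‖ < w0 → ∀ f : EE I, κ.Van f →
      (Summable fun y : XX I => κ.rho m w y * f y) ∧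
      ‖∑' y : XX I, κ.rho m w y * f y‖ ≤
        C' * ‖w‖ * Real.sqrt (κ.EF f + ‖κ.aa * w ^ 2‖ * ‖f‖ ^ 2) := by
  obtain ⟨Ca, wa, hCa, hwa, ha⟩ := hκ.resid_a hA
  obtain ⟨Cb, wb, hCb, hwb, hb⟩ := hκ.resid_b hA
  obtain ⟨Cc, wc, hCc, hwc, hc⟩ := hκ.resid_c
  obtain ⟨Cm, hCm, hm⟩ := hκ.main_le
  have hr0 : 0 < r := lt_of_lt_of_le (by norm_num) hA.r_ge
  obtain ⟨Cl, hCl, hl⟩ := hκ.low_loc hr0 hA.r_lt
  have haa := hκ.V_pos.2.2.1
  have hβ := hA.β_pos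
  set K : ℝ := Ca + Cb + β * Cc with hK
  have hK0 : 0 ≤ K := by positivity
  refine ⟨K * Cl + β * Real.sqrt Cc / Real.sqrt κ.aa + β * Cm, min wa (min wb wc),
    by positivity, lt_min hwa (lt_min hwb hwc), fun w hw hw0 f hf => ?_⟩
  have hw1 : ‖w‖ < wa := lt_of_lt_of_le hw0 (min_le_left _ _)
  have hw2 : ‖w‖ < wb := lt_of_lt_of_le hw0 ((min_le_right _ _).trans (min_le_left _ _))
  have hw3 : ‖w‖ < wc := lt_of_lt_of_le hw0 ((min_le_right _ _).trans (min_le_right _ _))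
  obtain ⟨l1, l2, hl1, hl2s, hl2, hl3⟩ := hc w hw hw3
  have hwpos : 0 < ‖w‖ := norm_pos_iff.mpr hw.1
  have hw10 : ‖w‖ ≤ 1 / 10 := hw.2.2
  have hE := hκ.EF_nn f
  set R : ℝ := Real.sqrt (κ.EF f + ‖κ.aa * w ^ 2‖ * ‖f‖ ^ 2) with hR
  have hR1 : Real.sqrt (κ.EF f) ≤ R := Real.sqrt_le_sqrt (by
    have : 0 ≤ ‖(κ.aa : ℂ) * w ^ 2‖ * ‖f‖ ^ 2 := by positivity
    linarith)
  have hR2 : Real.sqrt κ.aa * (‖w‖ * ‖f‖) ≤ R := by
    have h1 : Real.sqrt (‖(κ.aa : ℂ) * w ^ 2‖ * ‖f‖ ^ 2) ≤ R := Real.sqrt_le_sqrt (by linarith)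
    have h2 : ‖(κ.aa : ℂ) * w ^ 2‖ * ‖f‖ ^ 2 = κ.aa * (‖w‖ * ‖f‖) ^ 2 := by
      rw [norm_mul, norm_pow, Complex.norm_real, Real.norm_of_nonneg haa.le]
      ring
    rw [h2, Real.sqrt_mul haa.le, Real.sqrt_sq (by positivity)] at h1
    exact h1
  -- the local part
  set L : XX I → ℂ := fun y => κ.rho m w y - β * l2 y - β * (w ^ 2 * phi w y.1 * κ.tt y.2) with hL
  have hLle : ∀ y, κ.Al y → ‖L y‖ ≤ K * ‖w‖ * r ^ y.1.natAbs := by
    intro y hy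
    have e1 := (ha w hw hw1 y hy).2.2
    have e2 := (hb w hw hw2 y).2.2
    have e3 := hl1 y
    have e4 := hl3 y
    have e5 : (1 / 2 : ℝ) ^ y.1.natAbs ≤ r ^ y.1.natAbs :=
      pow_le_pow_left₀ (by norm_num) hA.r_ge _
    set S := (∑' x : XX I, κ.Fs (κ.aa * w ^ 2) (x.1 - y.1) x.2 y.2 * (m x * phi w x.1) -
        ∑' x : XX I, κ.F0 (x.1 - y.1) x.2 y.2 * (m x * phi w y.1))
    set T := (∑' x : XX I, κ.Fs (κ.aa * w ^ 2) (x.1 - y.1) x.2 y.2 * (κ.h x.2 * phi w x.1) -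
        ∑' x : XX I, κ.F0 (x.1 - y.1) x.2 y.2 * (κ.h x.2 * phi w y.1))
    have e6 : L y = (κ.rho m w y - S) + (S - β * T) + β * l1 y := by
      rw [hL]
      simp only []
      rw [e4]
      ring
    rw [e6]
    refine (norm_add_le _ _).trans ?_
    have e7 := norm_add_le (κ.rho m w y - S) (S - β * T)
    have e8 : ‖(β : ℂ) * l1 y‖ ≤ β * (Cc * ‖w‖ * r ^ y.1.natAbs) := by
      rw [norm_mul, Complex.norm_real, Real.norm_of_nonneg hβ.le]
      refine mul_le_mul_of_nonneg_left (e3.trans ?_) hβ.le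
      exact mul_le_mul_of_nonneg_left e5 (by positivity)
    have e9 : K * ‖w‖ * r ^ y.1.natAbs = Ca * ‖w‖ * r ^ y.1.natAbs +
        Cb * ‖w‖ * r ^ y.1.natAbs + β * (Cc * ‖w‖ * r ^ y.1.natAbs) := by
      rw [hK]
      ring
    linarith
  have hLf : ∀ y, ‖L y * f y‖ ≤ K * ‖w‖ * (r ^ y.1.natAbs * ‖f y‖) := by
    intro y
    by_cases hy : κ.Al y
    · rw [norm_mul, ← mul_assoc]
      exact mul_le_mul_of_nonneg_right (hLle y hy) (norm_nonneg _)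
    · rw [hf y hy]
      simp
  obtain ⟨sl, tl⟩ := hl f (hκ.fin_E f) hf
  have sL : Summable fun y => ‖L y * f y‖ :=
    Summable.of_nonneg_of_le (fun _ => norm_nonneg _) hLf (sl.mul_left _)
  have tL : ‖∑' y, L y * f y‖ ≤ K * ‖w‖ * (Cl * Real.sqrt (κ.EF f)) := by
    refine (norm_tsum_le_tsum_norm sL).trans ((sL.tsum_le_tsum hLf (sl.mul_left _)).trans ?_)
    rw [tsum_mul_left]
    exact mul_le_mul_of_nonneg_left tl (by positivity)
  -- the small part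
  obtain ⟨s2, t2⟩ := cs_aux (a := fun y : XX I => ‖l2 y‖) (b := fun y => ‖f y‖)
    (fun _ => norm_nonneg _) (fun _ => norm_nonneg _) hl2s (du_sq f)
  have sl2 : Summable fun y => ‖l2 y * f y‖ := by
    refine s2.congr fun y => ?_
    rw [norm_mul]
  have tl2 : ‖∑' y, l2 y * f y‖ ≤ Real.sqrt Cc * ‖w‖ ^ 2 * ‖f‖ := by
    refine (norm_tsum_le_tsum_norm sl2).trans ?_
    have e1 : ∑' y, ‖l2 y * f y‖ = ∑' y, ‖l2 y‖ * ‖f y‖ := tsum_congr fun y => norm_mul _ _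
    rw [e1]
    refine t2.trans ?_
    rw [du_norm, Real.sqrt_sq (norm_nonneg _)]
    refine mul_le_mul_of_nonneg_right ?_ (norm_nonneg _)
    have e2 := Real.sqrt_le_sqrt hl2
    rw [Real.sqrt_mul hCc, show ‖w‖ ^ 4 = (‖w‖ ^ 2) ^ 2 by ring,
      Real.sqrt_sq (by positivity)] at e2
    exact e2
  obtain ⟨sm, tm⟩ := hm w hw f
  -- together
  have hid : ∀ y, κ.rho m w y * f y = L y * f y + β * (l2 y * f y) +
      β * w ^ 2 * (phi w y.1 * κ.tt y.2 * f y) := by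
    intro y
    rw [hL]
    simp only []
    ring
  have hs : Summable fun y => L y * f y + β * (l2 y * f y) +
      β * w ^ 2 * (phi w y.1 * κ.tt y.2 * f y) :=
    ((sL.of_norm).add ((sl2.of_norm).mul_left _)).add (sm.mul_left _)
  refine ⟨hs.congr fun y => (hid y).symm ▸ rfl, ?_⟩
  rw [tsum_congr hid, ((sL.of_norm).add ((sl2.of_norm).mul_left _)).tsum_add (sm.mul_left _),
    (sL.of_norm).tsum_add ((sl2.of_norm).mul_left _), tsum_mul_left, tsum_mul_left]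
  refine (norm_add_le _ _).trans ?_
  have f1 := norm_add_le (∑' y, L y * f y) ((β : ℂ) * ∑' y, l2 y * f y)
  have f2 : ‖(β : ℂ) * ∑' y, l2 y * f y‖ ≤ β * Real.sqrt Cc / Real.sqrt κ.aa * ‖w‖ * R := by
    rw [norm_mul, Complex.norm_real, Real.norm_of_nonneg hβ.le]
    have hsa : 0 < Real.sqrt κ.aa := Real.sqrt_pos.mpr haa
    have g1 := mul_le_mul_of_nonneg_left tl2 hβ.le
    have g2 : ‖w‖ * ‖f‖ ≤ R / Real.sqrt κ.aa := by
      rw [le_div_iff₀ hsa, mul_comm]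
      exact hR2
    have g3 : β * Real.sqrt Cc * ‖w‖ * (‖w‖ * ‖f‖) ≤
        β * Real.sqrt Cc * ‖w‖ * (R / Real.sqrt κ.aa) :=
      mul_le_mul_of_nonneg_left g2 (by positivity)
    refine g1.trans (le_trans (le_of_eq ?_) (g3.trans (le_of_eq ?_)))
    · ring
    · ring
  have f3 : ‖(β : ℂ) * w ^ 2 * ∑' y : XX I, phi w y.1 * κ.tt y.2 * f y‖ ≤ β * Cm * ‖w‖ * R := by
    rw [norm_mul, norm_mul, norm_pow, Complex.norm_real, Real.norm_of_nonneg hβ.le]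
    have hsw : 0 < Real.sqrt ‖w‖ := Real.sqrt_pos.mpr hwpos
    have g1 : ‖w‖ / Real.sqrt ‖w‖ ≤ 1 := by
      rw [div_le_one hsw]
      refine Real.le_sqrt_of_sq_le ?_
      nlinarith
    have g2 := mul_le_mul_of_nonneg_left tm (show 0 ≤ β * ‖w‖ ^ 2 by positivity)
    have g3 : β * ‖w‖ ^ 2 * (Cm / Real.sqrt ‖w‖ * Real.sqrt (κ.EF f)) =
        β * Cm * ‖w‖ * (‖w‖ / Real.sqrt ‖w‖ * Real.sqrt (κ.EF f)) := by
      ring
    have g4 : ‖w‖ / Real.sqrt ‖w‖ * Real.sqrt (κ.EF f) ≤ 1 * R :=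
      mul_le_mul g1 hR1 (Real.sqrt_nonneg _) zero_le_one
    have g5 := mul_le_mul_of_nonneg_left g4 (show 0 ≤ β * Cm * ‖w‖ by positivity)
    rw [one_mul] at g5
    linarith
  have f4 : K * ‖w‖ * (Cl * Real.sqrt (κ.EF f)) ≤ K * Cl * ‖w‖ * R := by
    have g1 := mul_le_mul_of_nonneg_left hR1 (show 0 ≤ K * Cl * ‖w‖ by positivity)
    refine le_trans (le_of_eq ?_) g1
    ring
  have f5 : (K * Cl + β * Real.sqrt Cc / Real.sqrt κ.aa + β * Cm) * ‖w‖ * R =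
      K * Cl * ‖w‖ * R + β * Real.sqrt Cc / Real.sqrt κ.aa * ‖w‖ * R + β * Cm * ‖w‖ * R := by
    ring
  rw [f5]
  linarith

end Slb

end Pool.Agent.KSlab
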