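import Pool.Agent.KSlab.TrRem
import Pool.Agent.KSlab.Cb
import Pool.Agent.KSlab.CbG

/-! SL39: the transfer theorem for an algebraic singularity. -/

set_option autoImplicit false

open Complex Set Filter Topology

namespace Pool.Agent.KSlab

open Pool.Agent.KAsym (Sct)

/-- The generating function `f` (in `exp (-s)`) of the real sequence `a` is analytic near the critical line
except at the origin, where it is `A + B s ^ (-α) + O(|s| ^ p)`. -/
structure TrS (a : ℕ → ℝ) (f : ℂ → ℂ) (r p α : ℝ) (A : ℂ) (B C : ℝ) : Prop where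
  summable : ∀ σ : ℝ, 0 < σ → Summable fun n : ℕ => |a n| * Real.exp (-(n * σ))
  r_pos : 0 < r
  p_lt : p < 1
  p_gt : -α < p
  α_ne : ∀ k : ℕ, α ≠ -k
  eq : ∀ s : ℂ, 0 < s.re → f s = ∑' n : ℕ, a n * exp (-n * s)
  ext : ∀ φ : ℝ, r / 2 ≤ |φ| → |φ| ≤ Real.pi → ∃ ε > 0, ∃ g : ℂ → ℂ,
    DifferentiableOn ℂ g (Metric.ball (φ * I) ε) ∧
      ∀ s ∈ Metric.ball (φ * I : ℂ) ε, 0 < s.re → g s = f s
  near : ∃ g : ℂ → ℂ, DifferentiableOn ℂ g (Sct r) ∧ (∀ s ∈ Sct r, 0 < s.re → g s = f s) ∧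
    ∀ s ∈ Sct r, ‖g s - A - B * s ^ (-α : ℂ)‖ ≤ C * ‖s‖ ^ p

variable {a : ℕ → ℝ} {f : ℂ → ℂ} {r p α : ℝ} {A : ℂ} {B C : ℝ}

private theorem trs_sct_open (r : ℝ) : IsOpen (Sct r) := by
  have h1 : IsOpen {s : ℂ | s ≠ 0} := isOpen_ne
  have h2 : IsOpen {s : ℂ | ‖s‖ < r} := isOpen_lt continuous_norm continuous_const
  have h3 : IsOpen {s : ℂ | -‖s‖ / 2 < s.re} :=
    isOpen_lt (continuous_norm.neg.div_const 2) Complex.continuous_re
  have e : Sct r = {s : ℂ | s ≠ 0} ∩ ({s : ℂ | ‖s‖ < r} ∩ {s : ℂ | -‖s‖ / 2 < s.re}) := by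
    ext s
    exact Iff.rfl
  rw [e]
  exact h1.inter (h2.inter h3)

private theorem trs_norm (x : ℝ) (n : ℕ) (s : ℂ) :
    ‖(x : ℂ) * exp (-n * s)‖ = |x| * Real.exp (-(n * s.re)) := by
  rw [norm_mul, Complex.norm_exp, Complex.norm_real, Real.norm_eq_abs]
  congr 2
  simp

/-- The smaller radius `min r (1/4)`: for `r' / 2 ≤ |φ| < r / 2` the point `φ I` is in the sector `Sct r` (which is open), so
`ext` holds there with the function of `near`. The sequence `d n = a n - B cb α n` satisfies `TrD` with exponent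
`min p (1 - α)` and the functions `f s - B (1 - exp (-s)) ^ (-α)`, `g s - B (1 - exp (-s)) ^ (-α)`: `cb_summable`,
`cb_series`, `cb_ext`, `cb_near`, `‖s‖ ≤ 1`. -/
theorem TrS.toTrD (h : TrS a f r p α A B C) : ∃ f' r' C',
    TrD (fun n => a n - B * cb α n) f' r' (min p (1 - α)) A C' := by
  obtain ⟨C₀, hC₀, hnear⟩ := cb_near α
  set F : ℂ → ℂ := fun s => (1 - exp (-s)) ^ (-α : ℂ) with hF
  have hr' : 0 < min r (1 / 4) := lt_min h.r_pos (by norm_num)
  refine ⟨fun s => f s - B * F s, min r (1 / 4), |C| + |B| * C₀, ?_⟩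
  refine ⟨?_, hr', (min_le_right _ _).trans (by norm_num), lt_of_le_of_lt (min_le_left _ _) h.p_lt,
    ?_, ?_, ?_⟩
  · intro σ hσ
    refine Summable.of_nonneg_of_le (fun n => by positivity) (fun n => ?_)
      ((h.summable σ hσ).add ((cb_summable α hσ).mul_left |B|))
    have h1 : |a n - B * cb α n| ≤ |a n| + |B| * |cb α n| := by
      rw [← abs_mul]
      exact abs_sub _ _
    calc |a n - B * cb α n| * Real.exp (-(n * σ))
        ≤ (|a n| + |B| * |cb α n|) * Real.exp (-(n * σ)) := by gcongr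
      _ = |a n| * Real.exp (-(n * σ)) + |B| * (|cb α n| * Real.exp (-(n * σ))) := by ring
  · intro s hs
    have s1 : Summable fun n : ℕ => (a n : ℂ) * exp (-n * s) := by
      refine Summable.of_norm ?_
      simp only [trs_norm]
      exact h.summable s.re hs
    have s2 : Summable fun n : ℕ => (cb α n : ℂ) * exp (-n * s) := by
      refine Summable.of_norm ?_
      simp only [trs_norm]
      exact cb_summable α hs
    have e1 : ∑' n : ℕ, ((a n - B * cb α n : ℝ) : ℂ) * exp (-n * s) =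
        ∑' n : ℕ, ((a n : ℂ) * exp (-n * s) - B * ((cb α n : ℂ) * exp (-n * s))) := by
      refine tsum_congr fun n => ?_
      push_cast
      ring
    rw [e1, s1.tsum_sub (s2.mul_left _), tsum_mul_left, cb_series α hs, ← h.eq s hs]
  · intro φ h1 h2
    have hφ0 : φ ≠ 0 := by
      rintro rfl
      rw [abs_zero] at h1
      linarith
    obtain ⟨ε₂, hε₂, hd₂⟩ := cb_ext α hφ0 h2
    have key : ∃ ε > 0, ∃ g : ℂ → ℂ, DifferentiableOn ℂ g (Metric.ball (φ * I) ε) ∧
        ∀ s ∈ Metric.ball (φ * I : ℂ) ε, 0 < s.re → g s = f s := by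
      by_cases h3 : r / 2 ≤ |φ|
      · exact h.ext φ h3 h2
      · push Not at h3
        obtain ⟨g, hg1, hg2, -⟩ := h.near
        have hmem : (φ * I : ℂ) ∈ Sct r := by
          refine ⟨mul_ne_zero (by exact_mod_cast hφ0) I_ne_zero, ?_, ?_⟩
          · rw [norm_mul, norm_I, mul_one, Complex.norm_real, Real.norm_eq_abs]
            have := h.r_pos
            linarith
          · rw [norm_mul, norm_I, mul_one, Complex.norm_real, Real.norm_eq_abs]
            have h4 : 0 < |φ| := abs_pos.2 hφ0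
            simp
            linarith
        obtain ⟨ε, hε, hsub⟩ := Metric.isOpen_iff.1 (trs_sct_open r) _ hmem
        exact ⟨ε, hε, g, hg1.mono hsub, fun s hs h5 => hg2 s (hsub hs) h5⟩
    obtain ⟨ε₁, hε₁, g, hg1, hg2⟩ := key
    refine ⟨min ε₁ ε₂, lt_min hε₁ hε₂, fun s => g s - B * F s, ?_, ?_⟩
    · refine (hg1.mono (Metric.ball_subset_ball (min_le_left _ _))).sub ?_
      exact (hd₂.mono (Metric.ball_subset_ball (min_le_right _ _))).const_mul _
    · intro s hs h5
      simp only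
      rw [hg2 s (Metric.ball_subset_ball (min_le_left _ _) hs) h5]
  · obtain ⟨g, hg1, hg2, hg3⟩ := h.near
    have hsub1 : Sct (min r (1 / 4)) ⊆ Sct r := fun s hs =>
      ⟨hs.1, hs.2.1.trans_le (min_le_left _ _), hs.2.2⟩
    have hsub2 : Sct (min r (1 / 4)) ⊆ Sct (1 / 4) := fun s hs =>
      ⟨hs.1, hs.2.1.trans_le (min_le_right _ _), hs.2.2⟩
    refine ⟨fun s => g s - B * F s, ?_, ?_, ?_⟩
    · refine (hg1.mono hsub1).sub ?_
      intro s hs
      have h1 := (hnear s (hsub2 hs)).1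
      have h2 : DifferentiableAt ℂ (fun s : ℂ => 1 - exp (-s)) s := by fun_prop
      have h3 : DifferentiableAt ℂ F s := h2.cpow (differentiableAt_const _) h1
      exact (h3.const_mul _).differentiableWithinAt
    · intro s hs h5
      simp only
      rw [hg2 s (hsub1 hs) h5]
    · intro s hs
      have hs0 : 0 < ‖s‖ := norm_pos_iff.2 hs.1
      have hs1 : ‖s‖ ≤ 1 := by
        have := hs.2.1.trans_le (min_le_right r (1 / 4))
        linarith
      have h1 := hg3 s (hsub1 hs)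
      have h2 := (hnear s (hsub2 hs)).2
      have e : g s - B * F s - A = (g s - A - B * s ^ (-α : ℂ)) -
          B * (F s - s ^ (-α : ℂ)) := by ring
      have p1 : ‖s‖ ^ p ≤ ‖s‖ ^ min p (1 - α) :=
        Real.rpow_le_rpow_of_exponent_ge hs0 hs1 (min_le_left _ _)
      have p2 : ‖s‖ ^ (1 - α) ≤ ‖s‖ ^ min p (1 - α) :=
        Real.rpow_le_rpow_of_exponent_ge hs0 hs1 (min_le_right _ _)
      have p0 : 0 ≤ ‖s‖ ^ p := by positivity
      simp only
      rw [e]
      calc ‖(g s - A - B * s ^ (-α : ℂ)) - B * (F s - s ^ (-α : ℂ))‖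
          ≤ ‖g s - A - B * s ^ (-α : ℂ)‖ + ‖(B : ℂ) * (F s - s ^ (-α : ℂ))‖ := norm_sub_le _ _
        _ ≤ |C| * ‖s‖ ^ min p (1 - α) + |B| * (C₀ * ‖s‖ ^ min p (1 - α)) := by
            refine add_le_add ?_ ?_
            · calc ‖g s - A - B * s ^ (-α : ℂ)‖ ≤ C * ‖s‖ ^ p := h1
                _ ≤ |C| * ‖s‖ ^ p := mul_le_mul_of_nonneg_right (le_abs_self C) p0
                _ ≤ |C| * ‖s‖ ^ min p (1 - α) := mul_le_mul_of_nonneg_left p1 (abs_nonneg C)
            · rw [norm_mul, Complex.norm_real, Real.norm_eq_abs]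
              refine mul_le_mul_of_nonneg_left ?_ (abs_nonneg B)
              exact h2.trans (mul_le_mul_of_nonneg_left p2 hC₀)
        _ = (|C| + |B| * C₀) * ‖s‖ ^ min p (1 - α) := by ring

/-- `TrD.bd` gives `|d n| n ^ (1 - α) ≤ M n ^ (-α - min p (1 - α)) → 0`; `cb_tendsto`. -/
theorem TrS.transfer (h : TrS a f r p α A B C) :
    Tendsto (fun n : ℕ => a n * (n : ℝ) ^ (1 - α)) atTop (𝓝 (B * (Real.Gamma α)⁻¹)) := by
  obtain ⟨f', r', C', hD⟩ := h.toTrD
  obtain ⟨M, hM⟩ := hD.bd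
  set q : ℝ := min p (1 - α) with hq
  have hqα : 0 < α + q := by
    have h1 := h.p_gt
    rw [hq]
    rcases min_choice p (1 - α) with h2 | h2 <;> rw [h2] <;> linarith
  have h0 : Tendsto (fun n : ℕ => (a n - B * cb α n) * (n : ℝ) ^ (1 - α)) atTop (𝓝 0) := by
    have h1 : Tendsto (fun n : ℕ => |M| * (n : ℝ) ^ (-(α + q))) atTop (𝓝 0) := by
      have h2 := (tendsto_rpow_neg_atTop hqα).comp tendsto_natCast_atTop_atTop
      simpa using h2.const_mul |M|
    refine squeeze_zero_norm' ?_ h1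
    filter_upwards [eventually_ge_atTop 1] with n hn
    have hn0 : (0 : ℝ) < n := by exact_mod_cast hn
    rw [norm_mul, Real.norm_eq_abs, Real.norm_eq_abs, abs_of_nonneg (Real.rpow_nonneg hn0.le _)]
    calc |a n - B * cb α n| * (n : ℝ) ^ (1 - α)
        ≤ (M * (n : ℝ) ^ (-1 - q)) * (n : ℝ) ^ (1 - α) :=
          mul_le_mul_of_nonneg_right (hM n hn) (Real.rpow_nonneg hn0.le _)
      _ = M * (n : ℝ) ^ (-(α + q)) := by
          rw [mul_assoc, ← Real.rpow_add hn0]
          congr 2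
          ring
      _ ≤ |M| * (n : ℝ) ^ (-(α + q)) :=
          mul_le_mul_of_nonneg_right (le_abs_self M) (Real.rpow_nonneg hn0.le _)
  have h1 := (cb_tendsto h.α_ne).const_mul B
  have h2 := h0.add h1
  rw [zero_add] at h2
  refine h2.congr fun n => ?_
  ring

end Pool.Agent.KSlab
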