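import Pool.Agent.KSlab.FinF
import Pool.Agent.KSlab.TrS

/-! SL41: the asymptotics of the total weights. -/

set_option autoImplicit false

open Complex Set Filter Topology
open scoped ENNReal

namespace Pool.Agent.KSlab

namespace Slb

variable {I : Type} [Fintype I] {κ : Slb I}

/-- The points of the critical line away from the singularity (see `mem_far` in `KAsym/Final.lean`:
`‖1 - exp (-i φ)‖ ≥ 2 |φ| / π ≥ 50 z`, `1 - q ≤ 17/2 z`). -/
theorem Ok.mem_far (hκ : κ.Ok) {φ : ℝ} (h1 : 79 * κ.z ≤ |φ|) (h2 : |φ| ≤ Real.pi) :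
    (φ * Complex.I : ℂ) / 2 ∈ κ.Far := by
  have hz := hκ.z_pos
  refine ⟨?_, ?_⟩
  · rw [Complex.norm_exp]
    have : (-((φ * Complex.I : ℂ) / 2)).re = 0 := by simp
    rw [this, Real.exp_zero]
    norm_num
  · have e1 : (-2 : ℂ) * ((φ * Complex.I : ℂ) / 2) = ((-φ : ℝ) : ℂ) * Complex.I := by
      push_cast; ring
    rw [e1]
    have hq1 := hκ.q_ge
    have hq2 := hκ.q_le
    have h3 : 2 / Real.pi * |φ| ≤ ‖1 - Complex.exp (((-φ : ℝ) : ℂ) * Complex.I)‖ := by
      have e2 : ‖1 - Complex.exp (((-φ : ℝ) : ℂ) * Complex.I)‖ = 2 * |Real.sin (φ / 2)| := by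
        rw [norm_sub_rev]
        have h := Complex.norm_exp_I_mul_ofReal_sub_one (-φ)
        rw [mul_comm] at h
        rw [h]
        rw [norm_mul, Real.norm_eq_abs, Real.norm_eq_abs, neg_div, Real.sin_neg, abs_neg]
        norm_num
      rw [e2]
      have h4 : 2 / Real.pi * |φ / 2| ≤ |Real.sin (φ / 2)| := by
        apply Real.mul_abs_le_abs_sin
        rw [abs_div, abs_two]
        linarith
      rw [abs_div, abs_two] at h4
      linarith
    have h4 : ‖(1 : ℂ) - κ.q‖ * ‖Complex.exp (((-φ : ℝ) : ℂ) * Complex.I)‖ ≤ 9 * κ.z := by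
      rw [Complex.norm_exp_ofReal_mul_I, mul_one]
      have : (1 : ℂ) - κ.q = ((1 - κ.q : ℝ) : ℂ) := by push_cast; ring
      rw [this, Complex.norm_real, Real.norm_of_nonneg (by linarith)]
      linarith
    have h5 : ‖1 - Complex.exp (((-φ : ℝ) : ℂ) * Complex.I)‖ ≤
        ‖1 - κ.q * Complex.exp (((-φ : ℝ) : ℂ) * Complex.I)‖ +
        ‖(1 : ℂ) - κ.q‖ * ‖Complex.exp (((-φ : ℝ) : ℂ) * Complex.I)‖ := by
      rw [← norm_mul]
      have e3 : 1 - Complex.exp (((-φ : ℝ) : ℂ) * Complex.I) =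
          (1 - κ.q * Complex.exp (((-φ : ℝ) : ℂ) * Complex.I)) -
          ((1 : ℂ) - κ.q) * Complex.exp (((-φ : ℝ) : ℂ) * Complex.I) := by ring
      rw [e3]
      exact norm_sub_le _ _
    have hpi : Real.pi < 4 := by linarith [Real.pi_lt_d2]
    have h6 : 39 * κ.z ≤ 2 / Real.pi * |φ| := by
      rw [div_mul_eq_mul_div, le_div_iff₀ Real.pi_pos]
      nlinarith
    linarith

private theorem FinA_half_re (S : ℂ) : (S / 2).re = S.re / 2 := by
  have : (S / 2) = ((1 / 2 : ℝ) : ℂ) * S := by push_cast; ring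
  rw [this, Complex.re_ofReal_mul]; ring

private theorem FinA_half_norm (S : ℂ) : ‖S / 2‖ = ‖S‖ / 2 := by
  rw [norm_div]; norm_num

/-- the generating function of the sequence `a (2 k)` -/
private noncomputable def FinA_f (κ : Slb I) (u : ℕ → ℝ) (Y : ℝ) (S : ℂ) : ℂ :=
  uS u (S / 2) + Y * κ.U1 (S / 2)

private theorem FinA_diff (hκ : κ.Ok) {u : ℕ → ℝ} (hu : ∀ n, 0 ≤ u n)
    (hs : Summable fun n => 2 ^ n * u n) (Y : ℝ) {V : Set ℂ} (hV : ∀ S ∈ V, S / 2 ∈ κ.Reg) :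
    DifferentiableOn ℂ (FinA_f κ u Y) V := by
  have hh : DifferentiableOn ℂ (fun S : ℂ => S / 2) V := by fun_prop
  unfold FinA_f
  refine DifferentiableOn.add ?_ (DifferentiableOn.mul (differentiableOn_const _) ?_)
  · exact (uS_prop hu hs).1.comp hh fun S hS => (hV S hS).1
  · exact hκ.U1_diff.comp hh fun S hS => hV S hS

private theorem FinA_gamma : Real.Gamma (-1 / 2) < 0 := by
  have h1 := Real.Gamma_add_one (s := -1 / 2) (by norm_num)
  have h2 : (-1 / 2 + 1 : ℝ) = 1 / 2 := by norm_num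
  rw [h2] at h1
  have h3 : 0 < Real.Gamma (1 / 2) := Real.Gamma_pos_of_pos (by norm_num)
  linarith

private theorem FinA_trs (hκ : κ.Ok) {a u : ℕ → ℝ} {Y : ℝ} (h : κ.Tot a u Y) :
    ∃ (r : ℝ) (A : ℂ) (B C : ℝ), 0 < B ∧
      TrS (fun k => a (2 * k)) (FinA_f κ u Y) r (3 / 4) (-1 / 2) A (-B) C := by
  obtain ⟨A₀, B₀, C₀, r₀, hB₀, hC₀, hr₀, hnear⟩ := hκ.near
  obtain ⟨Cu, hCu, hu⟩ := (uS_prop h.u_nn h.u_sum).2
  have hz := hκ.z_pos
  have hY := h.Y_pos
  set c : ℝ := Real.exp (-(Real.log 2 / 2)) with hc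
  have hc0 : 0 < c := Real.exp_pos _
  set r : ℝ := min (min (80 * κ.z) (2 * r₀)) (1 / 5) with hr
  have hr0 : 0 < r := lt_min (lt_min (by positivity) (by positivity)) (by norm_num)
  have hr1 : r ≤ 80 * κ.z := (min_le_left _ _).trans (min_le_left _ _)
  have hr2 : r ≤ 2 * r₀ := (min_le_left _ _).trans (min_le_right _ _)
  have hr3 : r ≤ 1 / 5 := min_le_right _ _
  have hinj : Function.Injective fun k : ℕ => 2 * k := fun a b h => by
    have h' : 2 * a = 2 * b := h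
    omega
  have hsec : ∀ S ∈ Pool.Agent.KAsym.Sct r, S / 2 ∈ κ.Sec := by
    rintro S ⟨h1, h2, h3⟩
    refine ⟨div_ne_zero h1 two_ne_zero, ?_, ?_⟩
    · rw [FinA_half_norm]; linarith
    · rw [FinA_half_norm, FinA_half_re]; linarith
  refine ⟨r, uS u 0 + Y * A₀, Y * B₀ * c, Cu + Y * C₀, by positivity, ?_⟩
  refine { summable := ?_, r_pos := hr0, p_lt := by norm_num, p_gt := by norm_num, α_ne := ?_,
           eq := ?_, ext := ?_, near := ?_ }
  · intro σ hσ
    have h1 := ((h.real hκ (σ := σ / 2) (by positivity)).1).comp_injective hinj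
    refine h1.congr fun k => ?_
    simp only [Function.comp]
    rw [abs_of_nonneg (h.a_nn _)]
    congr 2
    push_cast
    ring
  · intro k hk
    have h1 : (1 : ℝ) = 2 * k := by linarith
    have h2 : (1 : ℕ) = 2 * k := by exact_mod_cast h1
    omega
  · intro S hS
    have h1 := h.half hκ (s := S / 2) (by rw [FinA_half_re]; linarith)
    unfold FinA_f
    rw [← h1]
    have h2 : ∑' k : ℕ, (fun n : ℕ => ((a n : ℝ) : ℂ) *
        Complex.exp (-n * (S / 2))) (2 * k) = ∑' n : ℕ, ((a n : ℝ) : ℂ) *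
        Complex.exp (-n * (S / 2)) := by
      refine hinj.tsum_eq (f := fun n : ℕ => ((a n : ℝ) : ℂ) *
        Complex.exp (-n * (S / 2))) fun n hn => ?_
      by_contra hcon
      have hodd : Odd n := by
        rw [← Nat.not_even_iff_odd]
        exact fun ⟨k, hk⟩ => hcon ⟨k, by simp only; omega⟩
      apply hn
      simp only [h.odd n hodd, Complex.ofReal_zero, zero_mul]
    rw [← h2]
    refine tsum_congr fun k => ?_
    simp only
    congr 2
    push_cast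
    ring
  · intro φ h1 h2
    have hmem : (φ * Complex.I : ℂ) / 2 ∈ κ.Reg := by
      by_cases h3 : |φ| < 80 * κ.z
      · apply hκ.sec_reg
        have hn : ‖(φ * Complex.I : ℂ) / 2‖ = |φ| / 2 := by
          rw [FinA_half_norm, norm_mul, Complex.norm_real, Complex.norm_I, mul_one,
            Real.norm_eq_abs]
        refine ⟨?_, ?_, ?_⟩
        · rw [← norm_pos_iff, hn]; linarith
        · rw [hn]; linarith
        · rw [hn, FinA_half_re]
          have : (φ * Complex.I : ℂ).re = 0 := by simp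
          rw [this]
          linarith
      · exact hκ.far_reg (hκ.mem_far (by linarith) h2)
    have hW : IsOpen {S : ℂ | S / 2 ∈ κ.Reg} :=
      hκ.reg_open.preimage (by fun_prop : Continuous fun S : ℂ => S / 2)
    obtain ⟨ε, hε, hsub⟩ := Metric.isOpen_iff.1 hW (φ * Complex.I : ℂ) hmem
    exact ⟨ε, hε, FinA_f κ u Y, FinA_diff hκ h.u_nn h.u_sum Y hsub, fun S _ _ => rfl⟩
  · refine ⟨FinA_f κ u Y, FinA_diff hκ h.u_nn h.u_sum Y fun S hS => hκ.sec_reg (hsec S hS),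
      fun S _ _ => rfl, fun S hS => ?_⟩
    have h1 := hnear (S / 2) (hsec S hS) (by rw [FinA_half_norm]; linarith [hS.2.1])
    have h2 := hu (S / 2) (by rw [FinA_half_norm]; linarith [hS.2.1])
    have hS0 : S ≠ 0 := hS.1
    have hlog : Complex.log (S / 2) = Complex.log S - Real.log 2 := by
      have e1 : S / 2 = ((2⁻¹ : ℝ) : ℂ) * S := by push_cast; ring
      rw [e1, Complex.log_ofReal_mul (by norm_num) hS0, Real.log_inv]
      push_cast; ring
    have hpow : (S / 2) ^ (1 / 2 : ℂ) = c * S ^ (1 / 2 : ℂ) := by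
      rw [Complex.cpow_def_of_ne_zero (div_ne_zero hS0 two_ne_zero),
        Complex.cpow_def_of_ne_zero hS0, hlog, hc, Complex.ofReal_exp, ← Complex.exp_add]
      congr 1
      push_cast
      ring
    have hα : (-((-1 / 2 : ℝ) : ℂ)) = (1 / 2 : ℂ) := by
      push_cast
      ring
    rw [hα]
    have e3 : FinA_f κ u Y S - (uS u 0 + Y * A₀) -
        ((-(Y * B₀ * c) : ℝ) : ℂ) * S ^ (1 / 2 : ℂ) =
        (uS u (S / 2) - uS u 0) + (Y : ℂ) * (κ.U1 (S / 2) - A₀ + B₀ * (S / 2) ^ (1 / 2 : ℂ)) := by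
      rw [hpow]
      unfold FinA_f
      push_cast
      ring
    rw [e3]
    rw [FinA_half_norm] at h1 h2
    have hn0 : 0 < ‖S‖ := norm_pos_iff.mpr hS0
    have hn1 : ‖S‖ ≤ 1 := by linarith [hS.2.1]
    have h3 : ‖S‖ ≤ ‖S‖ ^ (3 / 4 : ℝ) := by
      have h4 := Real.rpow_le_rpow_of_exponent_ge hn0 hn1 (by norm_num : (3 / 4 : ℝ) ≤ 1)
      rwa [Real.rpow_one] at h4
    have h5 : ‖(Y : ℂ)‖ = Y := by
      rw [Complex.norm_real, Real.norm_of_nonneg hY.le]
    calc ‖(uS u (S / 2) - uS u 0) +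
          (Y : ℂ) * (κ.U1 (S / 2) - A₀ + B₀ * (S / 2) ^ (1 / 2 : ℂ))‖
        ≤ ‖uS u (S / 2) - uS u 0‖ +
          ‖(Y : ℂ) * (κ.U1 (S / 2) - A₀ + B₀ * (S / 2) ^ (1 / 2 : ℂ))‖ := norm_add_le _ _
      _ ≤ Cu * (‖S‖ / 2) + Y * (C₀ * (‖S‖ / 2)) := by
          refine add_le_add h2 ?_
          rw [norm_mul, h5]
          exact mul_le_mul_of_nonneg_left h1 hY.le
      _ = (Cu + Y * C₀) * (‖S‖ / 2) := by ring
      _ ≤ (Cu + Y * C₀) * ‖S‖ ^ (3 / 4 : ℝ) :=
          mul_le_mul_of_nonneg_left (by linarith) (by positivity)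

/-- The theorem of the analysis of square root singularities. With `S = 2 s`:
`F(S) = ∑_k a (2 k) exp (-k S) = uS (S / 2) + Y U1 (S / 2)` (`Tot.half`, `Tot.odd`) satisfies `TrS` with `α = -1/2`,
`p = 3/4`, `r = min (1/5) ..`: `ext` by `mem_far`, `far_reg` or (`|φ| < 80 z`) `sec_reg`, `U1_diff`, `reg_open`; `near` by
`Ok.near`, `uS_prop`; `(S / 2) ^ (1/2) = S ^ (1/2) / √2`; the constant is `-Y B / √2`, `Γ(-1/2) = -2 √π`
(`gamma_neg_half`), `(2 k) ^ (3/2) = 2 ^ (3/2) k ^ (3/2)`. -/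
theorem Ok.asymp {a u : ℕ → ℝ} {Y : ℝ} (hκ : κ.Ok) (h : κ.Tot a u Y) : ∃ A : ℝ, 0 < A ∧
    Tendsto (fun k : ℕ => a (2 * k) * ((2 * k : ℕ) : ℝ) ^ (3 / 2 : ℝ)) atTop (𝓝 A) := by
  obtain ⟨r, A, B, C, hB, hT⟩ := FinA_trs hκ h
  have hlim := hT.transfer
  have hG := FinA_gamma
  have e0 : (1 - (-1 / 2) : ℝ) = 3 / 2 := by norm_num
  rw [e0] at hlim
  refine ⟨2 ^ (3 / 2 : ℝ) * (-B * (Real.Gamma (-1 / 2))⁻¹), ?_, ?_⟩
  · have h1 : (Real.Gamma (-1 / 2))⁻¹ < 0 := inv_lt_zero.mpr hG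
    have h2 : 0 < -B * (Real.Gamma (-1 / 2))⁻¹ := by nlinarith
    positivity
  · refine (hlim.const_mul (2 ^ (3 / 2 : ℝ))).congr fun k => ?_
    push_cast
    rw [Real.mul_rpow (by norm_num) (Nat.cast_nonneg k)]
    ring

end Slb

end Pool.Agent.KSlab
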