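import Pool.Agent.KSlab.Near

/-! SL40: the generating function in the half-plane. -/

set_option autoImplicit false

open Complex Set Filter Topology
open scoped ENNReal

namespace Pool.Agent.KSlab

namespace Slb

variable {I : Type} [Fintype I] {κ : Slb I}

/-- The total weights `a n` of the objects of size `n` are given by the kernel: `u n` is the weight of those
without sections. -/
structure Tot (κ : Slb I) (a u : ℕ → ℝ) (Y : ℝ) : Prop where
  Y_pos : 0 < Y
  a_nn : ∀ n, 0 ≤ a n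
  u_nn : ∀ n, 0 ≤ u n
  odd : ∀ n, Odd n → a n = 0
  u_sum : Summable fun n => 2 ^ n * u n
  gen : ∀ σ : ℝ, 0 < σ → ∑' n : ℕ, ENNReal.ofReal (a n * Real.exp (-n * σ)) =
    ∑' n : ℕ, ENNReal.ofReal (u n * Real.exp (-n * σ)) +
      ENNReal.ofReal Y * ∑' N, ∑' x, κ.MM σ N x * κ.cE σ x

/-- The generating function of the objects without sections. -/
noncomputable def uS (u : ℕ → ℝ) (s : ℂ) : ℂ := ∑' n : ℕ, (u n : ℂ) * exp (-n * s)

private theorem finf_bd {u : ℕ → ℝ} (hu : ∀ n, 0 ≤ u n) {s : ℂ} (hs : -(1 / 2) < s.re) (n : ℕ) :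
    ‖(u n : ℂ) * exp (-n * s)‖ ≤ 2 ^ n * u n := by
  rw [norm_mul, Complex.norm_exp, Complex.norm_real, Real.norm_of_nonneg (hu n), mul_comm]
  refine mul_le_mul_of_nonneg_right ?_ (hu n)
  have h1 : (-(n : ℂ) * s).re = -(n * s.re) := by simp
  have h2 : Real.exp (1 / 2) ≤ 2 := by
    rw [← Real.le_log_iff_exp_le (by norm_num)]
    have := Real.log_two_gt_d9
    linarith
  rw [h1]
  calc Real.exp (-(n * s.re)) ≤ Real.exp (n * (1 / 2)) := by
        apply Real.exp_le_exp.2
        have : (0 : ℝ) ≤ n := n.cast_nonneg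
        nlinarith
    _ = Real.exp (1 / 2) ^ n := by rw [← Real.exp_nat_mul]
    _ ≤ 2 ^ n := pow_le_pow_left₀ (Real.exp_pos _).le h2 n

private theorem finf_lin (n : ℕ) {s : ℂ} (hs : ‖s‖ ≤ 1 / 10) :
    ‖exp (-n * s) - 1‖ ≤ 2 ^ n * ‖s‖ := by
  have h1 := Complex.norm_exp_sub_sum_le_norm_mul_exp (-n * s) 1
  simp only [Finset.range_one, Finset.sum_singleton, pow_zero, Nat.factorial_zero, Nat.cast_one,
    div_one, pow_one] at h1
  refine h1.trans ?_
  have h2 : ‖-(n : ℂ) * s‖ = n * ‖s‖ := by simp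
  rw [h2]
  have hn : (0 : ℝ) ≤ n := n.cast_nonneg
  have h3 : (n : ℝ) ≤ Real.exp (n / 2) := by
    have h4 := Real.add_one_le_exp ((n : ℝ) / 4)
    have h5 : Real.exp (n / 2) = Real.exp (n / 4) ^ 2 := by
      rw [← Real.exp_nat_mul]
      congr 1
      push_cast
      ring
    rw [h5]
    nlinarith [sq_nonneg (1 - (n : ℝ) / 4)]
  have h6 : Real.exp (n * ‖s‖) ≤ Real.exp (n / 10) := by
    apply Real.exp_le_exp.2
    nlinarith
  have h7 : Real.exp (6 / 10) ≤ 2 := by
    rw [← Real.le_log_iff_exp_le (by norm_num)]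
    have := Real.log_two_gt_d9
    linarith
  have h8 : Real.exp (n / 2) * Real.exp (n / 10) ≤ 2 ^ n := by
    rw [← Real.exp_add]
    calc Real.exp ((n : ℝ) / 2 + n / 10) = Real.exp (6 / 10) ^ n := by
          rw [← Real.exp_nat_mul]
          congr 1
          ring
      _ ≤ 2 ^ n := pow_le_pow_left₀ (Real.exp_pos _).le h7 n
  calc (n : ℝ) * ‖s‖ * Real.exp (n * ‖s‖) = (n * Real.exp (n * ‖s‖)) * ‖s‖ := by ring
    _ ≤ (Real.exp (n / 2) * Real.exp (n / 10)) * ‖s‖ := by
        refine mul_le_mul_of_nonneg_right ?_ (norm_nonneg s)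
        exact mul_le_mul h3 h6 (Real.exp_pos _).le (Real.exp_pos _).le
    _ ≤ 2 ^ n * ‖s‖ := mul_le_mul_of_nonneg_right h8 (norm_nonneg s)

private theorem finf_sum {u : ℕ → ℝ} (hu : ∀ n, 0 ≤ u n) (h : Summable fun n => 2 ^ n * u n)
    {s : ℂ} (hs : -(1 / 2) < s.re) : Summable fun n : ℕ => (u n : ℂ) * exp (-n * s) :=
  Summable.of_norm_bounded h (finf_bd hu hs)

/-- `2 ^ n` dominates `exp (n / 2)`, `n exp (n / 2)`. -/
theorem uS_prop {u : ℕ → ℝ} (hu : ∀ n, 0 ≤ u n) (h : Summable fun n => 2 ^ n * u n) :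
    DifferentiableOn ℂ (uS u) {s | -(1 / 2) < s.re} ∧
    ∃ C : ℝ, 0 ≤ C ∧ ∀ s : ℂ, ‖s‖ ≤ 1 / 10 → ‖uS u s - uS u 0‖ ≤ C * ‖s‖ := by
  constructor
  · refine differentiableOn_tsum_of_summable_norm h (fun n => ?_)
      (isOpen_lt continuous_const continuous_re) fun n w hw => finf_bd hu hw n
    have : Differentiable ℂ fun w : ℂ => (u n : ℂ) * exp (-n * w) := by fun_prop
    exact this.differentiableOn
  · refine ⟨∑' n, 2 ^ n * u n, tsum_nonneg fun n => mul_nonneg (by positivity) (hu n), ?_⟩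
    intro s hs
    have hs1 : -(1 / 2) < s.re := by
      have := (abs_le.1 (abs_re_le_norm s)).1
      linarith
    have hs0 : -(1 / 2) < (0 : ℂ).re := by norm_num
    unfold uS
    rw [← (finf_sum hu h hs1).tsum_sub (finf_sum hu h hs0), ← tsum_mul_right]
    refine tsum_of_norm_bounded (h.mul_right ‖s‖).hasSum fun n => ?_
    have e1 : (u n : ℂ) * exp (-n * s) - (u n : ℂ) * exp (-n * 0) =
        (u n : ℂ) * (exp (-n * s) - 1) := by
      rw [mul_zero, Complex.exp_zero]
      ring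
    rw [e1, norm_mul, Complex.norm_real, Real.norm_of_nonneg (hu n)]
    calc u n * ‖exp (-n * s) - 1‖ ≤ u n * (2 ^ n * ‖s‖) :=
          mul_le_mul_of_nonneg_left (finf_lin n hs) (hu n)
      _ = 2 ^ n * u n * ‖s‖ := by ring

/-- All terms are finite and `U1_real`. -/
theorem Tot.real {a u : ℕ → ℝ} {Y : ℝ} (hκ : κ.Ok) (h : κ.Tot a u Y) {σ : ℝ} (hσ : 0 < σ) :
    (Summable fun n : ℕ => a n * Real.exp (-n * σ)) ∧
    ((∑' n : ℕ, a n * Real.exp (-n * σ) : ℝ) : ℂ) = uS u σ + Y * κ.U1 σ := by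
  obtain ⟨him, hre, hU⟩ := hκ.U1_real hσ
  have hσ' : -(1 / 2) < (σ : ℂ).re := by
    rw [Complex.ofReal_re]
    linarith
  have hann : ∀ n : ℕ, 0 ≤ a n * Real.exp (-n * σ) := fun n =>
    mul_nonneg (h.a_nn n) (Real.exp_pos _).le
  have hunn : ∀ n : ℕ, 0 ≤ u n * Real.exp (-n * σ) := fun n =>
    mul_nonneg (h.u_nn n) (Real.exp_pos _).le
  have hcast : ∀ n : ℕ, ((u n * Real.exp (-n * σ) : ℝ) : ℂ) = (u n : ℂ) * exp (-n * σ) := by
    intro n
    push_cast
    rfl
  have husum : Summable fun n : ℕ => u n * Real.exp (-n * σ) := by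
    have := finf_sum h.u_nn h.u_sum hσ'
    simp only [← hcast] at this
    exact Complex.summable_ofReal.1 this
  have hgen := h.gen σ hσ
  rw [hU, ← ENNReal.ofReal_tsum_of_nonneg hunn husum, ← ENNReal.ofReal_mul h.Y_pos.le,
    ← ENNReal.ofReal_add (tsum_nonneg hunn) (mul_nonneg h.Y_pos.le hre)] at hgen
  have hasum : Summable fun n : ℕ => a n * Real.exp (-n * σ) := by
    have h1 : ∑' n : ℕ, ENNReal.ofReal (a n * Real.exp (-n * σ)) ≠ ⊤ := by
      rw [hgen]
      exact ENNReal.ofReal_ne_top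
    have h2 := ENNReal.summable_toReal h1
    refine h2.congr fun n => ?_
    rw [ENNReal.toReal_ofReal (hann n)]
  refine ⟨hasum, ?_⟩
  rw [← ENNReal.ofReal_tsum_of_nonneg hann hasum, ENNReal.ofReal_eq_ofReal_iff
    (tsum_nonneg hann) (add_nonneg (tsum_nonneg hunn) (mul_nonneg h.Y_pos.le hre))] at hgen
  rw [hgen]
  have hU1 : κ.U1 σ = ((κ.U1 σ).re : ℂ) := by
    apply Complex.ext
    · simp
    · simpa using him
  rw [hU1, Complex.ofReal_add, Complex.ofReal_mul, Complex.ofReal_re]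
  unfold uS
  push_cast
  rfl

/-- The identity theorem in the half-plane (both sides are analytic, `U1_diff`, `half_reg`; a power series in `exp (-s)`
with `summable` coefficients). -/
theorem Tot.half {a u : ℕ → ℝ} {Y : ℝ} (hκ : κ.Ok) (h : κ.Tot a u Y) {s : ℂ} (hs : 0 < s.re) :
    ∑' n : ℕ, (a n : ℂ) * exp (-n * s) = uS u s + Y * κ.U1 s := by
  have hopen : IsOpen {s : ℂ | 0 < s.re} := isOpen_lt continuous_const continuous_re
  have hL : DifferentiableOn ℂ (fun s : ℂ => ∑' n : ℕ, (a n : ℂ) * exp (-n * s))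
      {s : ℂ | 0 < s.re} := by
    intro w hw
    have hw0 : 0 < w.re := hw
    have hε : 0 < w.re / 2 := by linarith
    have hopen' : IsOpen {s : ℂ | w.re / 2 < s.re} := isOpen_lt continuous_const continuous_re
    have hd : DifferentiableOn ℂ (fun s : ℂ => ∑' n : ℕ, (a n : ℂ) * exp (-n * s))
        {s : ℂ | w.re / 2 < s.re} := by
      refine differentiableOn_tsum_of_summable_norm (h.real hκ hε).1 (fun n => ?_) hopen'
        fun n v hv => ?_
      · have : Differentiable ℂ fun v : ℂ => (a n : ℂ) * exp (-n * v) := by fun_prop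
        exact this.differentiableOn
      · have hv' : w.re / 2 < v.re := hv
        rw [norm_mul, Complex.norm_exp, Complex.norm_real, Real.norm_of_nonneg (h.a_nn n)]
        refine mul_le_mul_of_nonneg_left ?_ (h.a_nn n)
        apply Real.exp_le_exp.2
        have h1 : (-(n : ℂ) * v).re = -(n * v.re) := by simp
        rw [h1]
        have : (0 : ℝ) ≤ n := n.cast_nonneg
        nlinarith
    have hmem : w ∈ {s : ℂ | w.re / 2 < s.re} := by
      change w.re / 2 < w.re
      linarith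
    exact (hd.differentiableAt (hopen'.mem_nhds hmem)).differentiableWithinAt
  have hR : DifferentiableOn ℂ (fun s : ℂ => uS u s + Y * κ.U1 s) {s : ℂ | 0 < s.re} := by
    refine ((uS_prop h.u_nn h.u_sum).1.mono fun v hv => ?_).add
      ((hκ.U1_diff.mono hκ.half_reg).const_mul _)
    have hv' : 0 < v.re := hv
    change -(1 / 2) < v.re
    linarith
  have hconv : IsPreconnected {s : ℂ | 0 < s.re} := (convex_halfSpace_re_gt 0).isPreconnected
  have hfreq : ∃ᶠ z in 𝓝[≠] (1 : ℂ), (∑' n : ℕ, (a n : ℂ) * exp (-n * z)) =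
      uS u z + Y * κ.U1 z := by
    have ht : Tendsto (fun σ : ℝ => (σ : ℂ)) (𝓝[≠] 1) (𝓝[≠] 1) := by
      refine tendsto_nhdsWithin_iff.2 ⟨?_, ?_⟩
      · have : Tendsto (fun σ : ℝ => (σ : ℂ)) (𝓝 1) (𝓝 ((1 : ℝ) : ℂ)) :=
          Complex.continuous_ofReal.tendsto 1
        rw [Complex.ofReal_one] at this
        exact this.mono_left nhdsWithin_le_nhds
      · filter_upwards [self_mem_nhdsWithin] with σ hσ
        intro h0
        have h2 : (σ : ℂ) = 1 := h0
        exact hσ (show σ = 1 by exact_mod_cast h2)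
    refine ht.frequently (Filter.Eventually.frequently ?_)
    have h1 : ∀ᶠ σ : ℝ in 𝓝[≠] 1, 0 < σ :=
      (lt_mem_nhds (by norm_num : (0 : ℝ) < 1)).filter_mono nhdsWithin_le_nhds
    filter_upwards [h1] with σ hσ
    rw [← (h.real hκ hσ).2]
    push_cast
    rfl
  exact (hL.analyticOnNhd hopen).eqOn_of_preconnected_of_frequently_eq (hR.analyticOnNhd hopen)
    hconv (show (1 : ℂ) ∈ {s : ℂ | 0 < s.re} by simp) hfreq hs

end Slb

end Pool.Agent.KSlab
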