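import Pool.Agent.KSlab.Nu

/-! SL17: the flux of the critical measure decays exponentially. -/

set_option autoImplicit false

open Complex Set Filter Topology
open scoped ENNReal

namespace Pool.Agent.KSlab

namespace Slb

variable {I : Type} [Fintype I] {κ : Slb I}

/-! ### Pairs which are separated by a plane -/

/-- The pairs of states which are separated by the plane between `u` and `u + 1`. -/
private def cutE (u : ℤ) (q : (ℕ × I) × (ℕ × I)) : XX I × XX I :=
  ((u - q.1.1, q.1.2), (u + 1 + q.2.1, q.2.2))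

omit [Fintype I] in
private theorem cutE_inj (u : ℤ) : Function.Injective (cutE (I := I) u) := by
  rintro ⟨⟨a, i⟩, b, j⟩ ⟨⟨a', i'⟩, b', j'⟩ h
  simp only [cutE, Prod.mk.injEq] at h
  obtain ⟨⟨h1, h2⟩, h3, h4⟩ := h
  have h5 : a = a' := by omega
  have h6 : b = b' := by omega
  rw [h5, h2, h6, h4]

omit [Fintype I] in
private theorem cutE_range (u : ℤ) (p : XX I × XX I) (h : p.1.1 ≤ u ∧ u < p.2.1) :
    p ∈ Set.range (cutE (I := I) u) := by
  obtain ⟨⟨a, i⟩, b, j⟩ := p
  simp only at h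
  refine ⟨(((u - a).toNat, i), ((b - u - 1).toNat, j)), ?_⟩
  unfold cutE
  have h1 : ((u - a).toNat : ℤ) = u - a := Int.toNat_of_nonneg (by omega)
  have h2 : ((b - u - 1).toNat : ℤ) = b - u - 1 := Int.toNat_of_nonneg (by omega)
  simp only [h1, h2, Prod.mk.injEq, and_true]
  constructor <;> ring

private theorem geo_one : Summable fun r : ℕ × I => ((1 / 2 : ℝ)) ^ r.1 := by
  have h1 : Summable fun _ : I => (1 : ℝ) := Summable.of_finite
  have h2 := summable_geometric_two.mul_of_nonneg h1 (fun _ => by positivity)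
    (fun _ => zero_le_one)
  simpa using h2

private theorem geo_two : Summable fun q : (ℕ × I) × (ℕ × I) =>
    ((1 / 2 : ℝ)) ^ q.1.1 * (1 / 2) ^ q.2.1 :=
  geo_one.mul_of_nonneg geo_one (fun _ => by positivity) (fun _ => by positivity)

private theorem cut_sum (u : ℤ) (g : XX I × XX I → ℝ) (K : ℝ)
    (hg : ∀ q : (ℕ × I) × (ℕ × I), |g (cutE u q)| ≤ K * ((1 / 2) ^ q.1.1 * (1 / 2) ^ q.2.1)) :
    (Summable fun p : XX I × XX I => if p.1.1 ≤ u ∧ u < p.2.1 then g p else 0) ∧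
    |∑' p : XX I × XX I, if p.1.1 ≤ u ∧ u < p.2.1 then g p else 0| ≤
      K * ∑' q : (ℕ × I) × (ℕ × I), (1 / 2 : ℝ) ^ q.1.1 * (1 / 2) ^ q.2.1 := by
  set f : XX I × XX I → ℝ := fun p => if p.1.1 ≤ u ∧ u < p.2.1 then g p else 0 with hf
  have hfe : ∀ q, f (cutE u q) = g (cutE u q) := by
    intro q
    have : (cutE u q).1.1 ≤ u ∧ u < (cutE u q).2.1 := by
      unfold cutE
      constructor
      · simp
      · simp only
        omega
    rw [hf]
    simp only
    rw [if_pos this]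
  have h1 : Summable fun q : (ℕ × I) × (ℕ × I) =>
      K * ((1 / 2 : ℝ) ^ q.1.1 * (1 / 2) ^ q.2.1 : ℝ) :=
    (geo_two (I := I)).mul_left K
  have h2 : ∀ q, ‖f (cutE u q)‖ ≤ K * ((1 / 2) ^ q.1.1 * (1 / 2) ^ q.2.1) := by
    intro q
    rw [hfe, Real.norm_eq_abs]
    exact hg q
  have h3 : Summable (f ∘ cutE u) := Summable.of_norm_bounded h1 h2
  have h4 : ∀ p, p ∉ Set.range (cutE (I := I) u) → f p = 0 := by
    intro p hp
    rw [hf]
    simp only
    rw [if_neg]
    intro h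
    exact hp (cutE_range u p h)
  refine ⟨((cutE_inj u).summable_iff h4).1 h3, ?_⟩
  have h5 : ∑' q, f (cutE u q) = ∑' p, f p := by
    refine (cutE_inj u).tsum_eq ?_
    intro p hp
    by_contra hcon
    exact hp (h4 p hcon)
  rw [← h5, ← Real.norm_eq_abs, ← tsum_mul_left]
  exact tsum_of_norm_bounded h1.hasSum h2

/-- Bounds for the free kernel and the Perron vector. -/
private theorem Ok.bounds (hκ : κ.Ok) : ∃ C H : ℝ, 0 ≤ C ∧ 0 ≤ H ∧
    (∀ t i j, κ.F0 t i j ≤ C * (1 / 4) ^ t.natAbs) ∧ (∀ i, κ.h i ≤ H) ∧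
    ∀ i, (κ.h i)⁻¹ ≤ H := by
  obtain ⟨C, hC⟩ := hκ.F0_exp
  refine ⟨|C|, ∑ i, (κ.h i + (κ.h i)⁻¹), abs_nonneg _,
    Finset.sum_nonneg fun i _ => by have := hκ.h_pos i; positivity, fun t i j => ?_,
    fun i => ?_, fun i => ?_⟩
  · obtain ⟨h1, h2⟩ := hC i
    have h3 := h1.le_tsum (t, j) fun p _ => mul_nonneg (by positivity) (hκ.F0_prop _ _ _).1
    simp only at h3
    have h4 : (4 : ℝ) ^ t.natAbs * κ.F0 t i j ≤ |C| := h3.trans (h2.trans (le_abs_self C))
    rw [one_div, inv_pow, ← div_eq_mul_inv, le_div_iff₀ (by positivity), mul_comm]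
    exact h4
  · have h1 : κ.h i ≤ κ.h i + (κ.h i)⁻¹ := by
      have := hκ.h_pos i
      have : 0 < (κ.h i)⁻¹ := by positivity
      linarith
    exact h1.trans (Finset.single_le_sum (f := fun i => κ.h i + (κ.h i)⁻¹)
      (fun i _ => by have := hκ.h_pos i; positivity) (Finset.mem_univ i))
  · have h1 : (κ.h i)⁻¹ ≤ κ.h i + (κ.h i)⁻¹ := by
      have := hκ.h_pos i
      linarith
    exact h1.trans (Finset.single_le_sum (f := fun i => κ.h i + (κ.h i)⁻¹)
      (fun i _ => by have := hκ.h_pos i; positivity) (Finset.mem_univ i))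

/-- The weight of a pair. -/
private noncomputable def wt (κ : Slb I) (p : XX I × XX I) : ℝ :=
  κ.Fx p.1 p.2 * κ.h p.1.2 * κ.h p.2.2

private theorem Ok.wt_nn (hκ : κ.Ok) (p : XX I × XX I) : 0 ≤ κ.wt p :=
  mul_nonneg (mul_nonneg (hκ.Fx_prop _ _).1 (hκ.h_pos _).le) (hκ.h_pos _).le

private theorem Ok.wt_cut (hκ : κ.Ok) : ∃ K : ℝ, 0 ≤ K ∧ ∀ (u : ℤ)
    (q : (ℕ × I) × (ℕ × I)), κ.wt (cutE u q) ≤ K * (1 / 4) ^ (q.1.1 + q.2.1) := by
  obtain ⟨C, H, hC, hH, h1, h2, -⟩ := hκ.bounds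
  refine ⟨C * H * H, by positivity, ?_⟩
  rintro u ⟨⟨a, i⟩, b, j⟩
  have h3 : κ.Fx (u - (a : ℤ), i) (u + 1 + (b : ℤ), j) ≤ C * (1 / 4) ^ (a + b) := by
    unfold Fx
    refine (h1 _ _ _).trans (mul_le_mul_of_nonneg_left ?_ hC)
    refine pow_le_pow_of_le_one (by norm_num) (by norm_num) ?_
    simp only
    omega
  have h4 := (hκ.Fx_prop (u - (a : ℤ), i) (u + 1 + (b : ℤ), j)).1
  unfold wt cutE
  simp only
  calc κ.Fx (u - (a : ℤ), i) (u + 1 + (b : ℤ), j) * κ.h i * κ.h j
      ≤ (C * (1 / 4) ^ (a + b)) * H * H :=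
        mul_le_mul (mul_le_mul h3 (h2 i) (hκ.h_pos i).le (by positivity)) (h2 j)
          (hκ.h_pos j).le (by positivity)
    _ = _ := by ring

private theorem Ok.gam_le (hκ : κ.Ok) {m : XX I → ℝ} (hm : κ.IsM m) :
    ∃ K : ℝ, 0 ≤ K ∧ ∀ x : XX I, |κ.gam m x| ≤ K * (1 + x.1.natAbs) := by
  obtain ⟨C, H, hC, hH, h1, h2, h3⟩ := hκ.bounds
  obtain ⟨C', hC'⟩ := hm.growth
  refine ⟨|C'| * H, by positivity, fun x => ?_⟩
  unfold gam
  rw [abs_div, abs_of_nonneg (hm.nn x), abs_of_pos (hκ.h_pos _), div_eq_mul_inv]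
  have h4 : m x ≤ |C'| * (1 + x.1.natAbs) :=
    (hC' x).trans (mul_le_mul_of_nonneg_right (le_abs_self _) (by positivity))
  calc m x * (κ.h x.2)⁻¹ ≤ (|C'| * (1 + x.1.natAbs)) * H :=
        mul_le_mul h4 (h3 _) (inv_nonneg.2 (hκ.h_pos _).le) (by positivity)
    _ = _ := by ring

/-- Absolute convergence: `|γ| ≤ C (1 + |u|)`, and `∑_{u(x) ≤ u < u(y)} Fx x y (1 + |x| + |y|) < ∞` by `F0_exp`: for
the displacement `t > 0` there are `t` positions of `x`. -/
theorem Ok.fl_summable (hκ : κ.Ok) {m : XX I → ℝ} (hm : κ.IsM m) (u : ℤ) :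
    Summable fun p : XX I × XX I => if p.1.1 ≤ u ∧ u < p.2.1 then
      κ.Fx p.1 p.2 * κ.h p.1.2 * κ.h p.2.2 * |κ.gam m p.2 - κ.gam m p.1| else 0 := by
  obtain ⟨K, hK, hw⟩ := hκ.wt_cut
  obtain ⟨G, hG, hg⟩ := hκ.gam_le hm
  refine (cut_sum u (fun p => κ.wt p * |κ.gam m p.2 - κ.gam m p.1|)
    (K * G * (3 + 2 * u.natAbs)) ?_).1
  rintro ⟨⟨a, i⟩, b, j⟩
  have h1 := hw u ((a, i), (b, j))
  have h0 := hκ.wt_nn (cutE u ((a, i), (b, j)))
  simp only at h1
  rw [abs_mul, abs_abs, abs_of_nonneg h0]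
  have h2 : |κ.gam m (cutE u ((a, i), (b, j))).2 - κ.gam m (cutE u ((a, i), (b, j))).1| ≤
      G * ((3 + 2 * u.natAbs) * 2 ^ (a + b)) := by
    refine (abs_sub _ _).trans ?_
    refine (add_le_add (hg _) (hg _)).trans ?_
    rw [← mul_add]
    refine mul_le_mul_of_nonneg_left ?_ hG
    unfold cutE
    simp only
    have h3 : ((u + 1 + (b : ℤ)).natAbs) ≤ u.natAbs + 1 + b := by omega
    have h4 : ((u - (a : ℤ)).natAbs) ≤ u.natAbs + a := by omega
    have h5 : a + b + 1 ≤ 2 ^ (a + b) := Nat.lt_two_pow_self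
    have h3' : (((u + 1 + (b : ℤ)).natAbs : ℕ) : ℝ) ≤ u.natAbs + 1 + b := by exact_mod_cast h3
    have h4' : (((u - (a : ℤ)).natAbs : ℕ) : ℝ) ≤ u.natAbs + a := by exact_mod_cast h4
    have h5' : (a : ℝ) + b + 1 ≤ 2 ^ (a + b) := by exact_mod_cast h5
    have h6 : (0 : ℝ) ≤ u.natAbs := Nat.cast_nonneg _
    nlinarith [h3', h4', h5', h6, Nat.cast_nonneg (α := ℝ) a, Nat.cast_nonneg (α := ℝ) b]
  calc κ.wt (cutE u ((a, i), (b, j))) *
        |κ.gam m (cutE u ((a, i), (b, j))).2 - κ.gam m (cutE u ((a, i), (b, j))).1|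
      ≤ (K * (1 / 4) ^ (a + b)) * (G * ((3 + 2 * u.natAbs) * 2 ^ (a + b))) :=
        mul_le_mul h1 h2 (abs_nonneg _) (by positivity)
    _ = K * G * (3 + 2 * u.natAbs) * (((1 / 4) * 2) ^ (a + b)) := by
        rw [mul_pow]
        ring
    _ = K * G * (3 + 2 * u.natAbs) * ((1 / 2) ^ a * (1 / 2) ^ b) := by
        rw [← pow_add]
        norm_num

/-- The terms of the flux. -/
private noncomputable def flt (κ : Slb I) (m : XX I → ℝ) (p : XX I × XX I) : ℝ :=
  κ.Fx p.1 p.2 * κ.h p.1.2 * κ.h p.2.2 * (κ.gam m p.2 - κ.gam m p.1)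

private theorem Ok.flt_swap (hκ : κ.Ok) (m : XX I → ℝ) (p : XX I × XX I) :
    κ.flt m p.swap = -κ.flt m p := by
  unfold flt
  rw [Prod.fst_swap, Prod.snd_swap, (hκ.Fx_prop p.2 p.1).2]
  ring

private theorem Ok.flt_summable (hκ : κ.Ok) {m : XX I → ℝ} (hm : κ.IsM m) (u : ℤ) :
    Summable fun p : XX I × XX I => if p.1.1 ≤ u ∧ u < p.2.1 then κ.flt m p else 0 := by
  refine Summable.of_norm_bounded (hκ.fl_summable hm u) fun p => ?_
  split_ifs with h
  · have h1 := hκ.wt_nn p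
    unfold wt at h1
    unfold flt
    rw [Real.norm_eq_abs, abs_mul, abs_of_nonneg h1]
  · simp

/-- The sum over the pairs which start in the plane `u`. -/
private theorem Ok.sum_start (hκ : κ.Ok) {m : XX I → ℝ} (hm : κ.IsM m) (u : ℤ) :
    (Summable fun p : XX I × XX I => if p.1.1 = u then κ.flt m p else 0) ∧
    ∑' p : XX I × XX I, (if p.1.1 = u then κ.flt m p else 0) =
      -∑ i, κ.h i * κ.nu m (u, i) := by
  classical
  have hB : ∀ i : I, HasSum (fun p : XX I × XX I => if p.1 = (u, i) then κ.flt m p else 0)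
      (-(κ.h i * κ.nu m (u, i))) := by
    intro i
    obtain ⟨h1, h2⟩ := hκ.nu_eq hm (u, i)
    have h3 : HasSum (fun y => κ.flt m ((u, i), y)) (-(κ.h i * κ.nu m (u, i))) := by
      have h4 := h1.hasSum.neg
      simp only at h2
      rw [← h2] at h4
      refine h4.congr_fun ?_
      intro y
      unfold flt
      simp only
      ring
    have hinj : Function.Injective fun y : XX I => (((u, i), y) : XX I × XX I) :=
      fun y y' h => (Prod.mk.inj h).2
    have h5 : (fun y => κ.flt m ((u, i), y)) =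
        (fun p : XX I × XX I => if p.1 = (u, i) then κ.flt m p else 0) ∘
          fun y : XX I => (((u, i), y) : XX I × XX I) := by
      funext y
      simp
    rw [h5] at h3
    refine (hinj.hasSum_iff ?_).1 h3
    intro p hp
    rw [if_neg]
    intro h
    exact hp ⟨p.2, Prod.ext h.symm rfl⟩
  have hsum := hasSum_sum fun (i : I) (_ : i ∈ Finset.univ) => hB i
  have e : (fun p : XX I × XX I => ∑ i : I, if p.1 = (u, i) then κ.flt m p else 0) =
      fun p => if p.1.1 = u then κ.flt m p else 0 := by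
    funext p
    by_cases h : p.1.1 = u
    · rw [if_pos h, Finset.sum_eq_single p.1.2]
      · rw [if_pos]
        rw [← h]
      · intro i _ hi
        rw [if_neg]
        intro h'
        exact hi (by rw [h'])
      · intro h'
        exact absurd (Finset.mem_univ _) h'
    · rw [if_neg h]
      refine Finset.sum_eq_zero fun i _ => ?_
      rw [if_neg]
      intro h'
      exact h (by rw [h'])
  rw [e] at hsum
  refine ⟨hsum.summable, ?_⟩
  rw [hsum.tsum_eq, Finset.sum_neg_distrib]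

/-- The pairs counted in `Fl u` and not in `Fl (u - 1)` are those with `u(x) = u < u(y)`, the pairs counted in
`Fl (u - 1)` and not in `Fl u` are those with `u(x) < u = u(y)`; rename the latter (symmetry of `Fx`) and use `nu_eq`; the
pairs with `u(x) = u(y) = u` cancel. -/
theorem Ok.fl_sub (hκ : κ.Ok) {m : XX I → ℝ} (hm : κ.IsM m) (u : ℤ) :
    κ.Fl m u - κ.Fl m (u - 1) = -∑ i, κ.h i * κ.nu m (u, i) := by
  classical
  obtain ⟨hB, hB'⟩ := hκ.sum_start hm u
  have hA := hκ.flt_summable hm u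
  have hA' := hκ.flt_summable hm (u - 1)
  -- the pairs which start in `u` and end above
  have hD : Summable fun p : XX I × XX I => if p.1.1 = u ∧ u < p.2.1 then κ.flt m p else 0 := by
    have h1 := hA.indicator {p : XX I × XX I | p.1.1 = u}
    refine h1.congr fun p => ?_
    by_cases h : p.1.1 = u
    · rw [Set.indicator_of_mem (by exact h)]
      simp [h]
    · rw [Set.indicator_of_notMem (by exact h)]
      simp [h]
  -- the pairs which end in `u` and start below
  have hE : Summable fun p : XX I × XX I => if p.1.1 < u ∧ p.2.1 = u then κ.flt m p else 0 := by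
    have h1 := hA'.indicator {p : XX I × XX I | p.2.1 = u}
    refine h1.congr fun p => ?_
    by_cases h : p.2.1 = u
    · rw [Set.indicator_of_mem (by exact h)]
      have h2 : (p.1.1 ≤ u - 1 ∧ u - 1 < p.2.1) ↔ (p.1.1 < u ∧ p.2.1 = u) := by omega
      simp only [h2]
    · rw [Set.indicator_of_notMem (by exact h)]
      simp [h]
  have hE2 : Summable fun p : XX I × XX I =>
      if p.1.1 = u ∧ p.2.1 < u then κ.flt m p else 0 := by
    have h1 := ((Equiv.prodComm (XX I) (XX I)).summable_iff.2 hE).neg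
    refine h1.congr fun p => ?_
    simp only [Function.comp_apply, Equiv.prodComm_apply, Prod.fst_swap, Prod.snd_swap,
      hκ.flt_swap]
    by_cases h : p.1.1 = u ∧ p.2.1 < u
    · rw [if_pos ⟨h.2, h.1⟩, if_pos h, neg_neg]
    · rw [if_neg fun h' => h ⟨h'.2, h'.1⟩, if_neg h, neg_zero]
  have hE3 : ∑' p : XX I × XX I, (if p.1.1 < u ∧ p.2.1 = u then κ.flt m p else 0) =
      -∑' p : XX I × XX I, (if p.1.1 = u ∧ p.2.1 < u then κ.flt m p else 0) := by
    rw [← (Equiv.prodComm (XX I) (XX I)).tsum_eq, ← tsum_neg]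
    refine tsum_congr fun p => ?_
    simp only [Equiv.prodComm_apply, Prod.fst_swap, Prod.snd_swap, hκ.flt_swap]
    by_cases h : p.1.1 = u ∧ p.2.1 < u
    · rw [if_pos ⟨h.2, h.1⟩, if_pos h]
    · rw [if_neg fun h' => h ⟨h'.2, h'.1⟩, if_neg h, neg_zero]
  -- the pairs inside the plane
  have hZ : Summable fun p : XX I × XX I =>
      if p.1.1 = u ∧ p.2.1 = u then κ.flt m p else 0 := by
    refine ((hB.sub hD).sub hE2).congr fun p => ?_
    rcases lt_trichotomy p.2.1 u with h | h | h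
    · by_cases h' : p.1.1 = u
      · rw [if_pos h', if_neg (by omega), if_pos ⟨h', h⟩, if_neg (by omega)]
        ring
      · rw [if_neg h', if_neg (by tauto), if_neg (by tauto), if_neg (by tauto)]
        ring
    · by_cases h' : p.1.1 = u
      · rw [if_pos h', if_neg (by omega), if_neg (by omega), if_pos ⟨h', h⟩]
        ring
      · rw [if_neg h', if_neg (by tauto), if_neg (by tauto), if_neg (by tauto)]
        ring
    · by_cases h' : p.1.1 = u
      · rw [if_pos h', if_pos ⟨h', h⟩, if_neg (by omega), if_neg (by omega)]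
        ring
      · rw [if_neg h', if_neg (by tauto), if_neg (by tauto), if_neg (by tauto)]
        ring
  have hZ0 : ∑' p : XX I × XX I, (if p.1.1 = u ∧ p.2.1 = u then κ.flt m p else 0) = 0 := by
    have h1 : ∑' p : XX I × XX I, (if p.1.1 = u ∧ p.2.1 = u then κ.flt m p else 0) =
        -∑' p : XX I × XX I, (if p.1.1 = u ∧ p.2.1 = u then κ.flt m p else 0) := by
      conv_lhs => rw [← (Equiv.prodComm (XX I) (XX I)).tsum_eq]
      rw [← tsum_neg]
      refine tsum_congr fun p => ?_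
      simp only [Equiv.prodComm_apply, Prod.fst_swap, Prod.snd_swap, hκ.flt_swap]
      by_cases h : p.1.1 = u ∧ p.2.1 = u
      · rw [if_pos ⟨h.2, h.1⟩, if_pos h]
      · rw [if_neg fun h' => h ⟨h'.2, h'.1⟩, if_neg h, neg_zero]
    linarith
  have h1 : κ.Fl m u - κ.Fl m (u - 1) =
      ∑' p : XX I × XX I, (if p.1.1 = u ∧ u < p.2.1 then κ.flt m p else 0) -
        ∑' p : XX I × XX I, (if p.1.1 < u ∧ p.2.1 = u then κ.flt m p else 0) := by
    change (∑' p : XX I × XX I, if p.1.1 ≤ u ∧ u < p.2.1 then κ.flt m p else 0) -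
      (∑' p : XX I × XX I, if p.1.1 ≤ u - 1 ∧ u - 1 < p.2.1 then κ.flt m p else 0) = _
    rw [← hA.tsum_sub hA', ← hD.tsum_sub hE]
    refine tsum_congr fun p => ?_
    by_cases c1 : p.1.1 ≤ u - 1
    · by_cases c2 : u < p.2.1
      · rw [if_pos ⟨by omega, c2⟩, if_pos ⟨c1, by omega⟩, if_neg (by omega), if_neg (by omega)]
        ring
      · by_cases c3 : p.2.1 = u
        · rw [if_neg (by omega), if_pos ⟨c1, by omega⟩, if_neg (by omega),
            if_pos ⟨by omega, c3⟩]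
        · rw [if_neg (by omega), if_neg (by omega), if_neg (by omega), if_neg (by omega)]
    · by_cases c2 : p.1.1 = u
      · by_cases c3 : u < p.2.1
        · rw [if_pos ⟨by omega, c3⟩, if_neg (by omega), if_pos ⟨c2, c3⟩, if_neg (by omega)]
        · rw [if_neg (by omega), if_neg (by omega), if_neg (by omega), if_neg (by omega)]
      · rw [if_neg (by omega), if_neg (by omega), if_neg (by omega), if_neg (by omega)]
  rw [h1, hE3, ← hB', sub_neg_eq_add]
  have h2 := (hD.add hE2).tsum_add hZ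
  rw [hZ0, add_zero, hD.tsum_add hE2] at h2
  rw [← h2]
  refine tsum_congr fun p => ?_
  rcases lt_trichotomy p.2.1 u with h | h | h
  · by_cases h' : p.1.1 = u
    · rw [if_pos h', if_neg (by omega), if_pos ⟨h', h⟩, if_neg (by omega)]
      ring
    · rw [if_neg h', if_neg (by tauto), if_neg (by tauto), if_neg (by tauto)]
      ring
  · by_cases h' : p.1.1 = u
    · rw [if_pos h', if_neg (by omega), if_neg (by omega), if_pos ⟨h', h⟩]
      ring
    · rw [if_neg h', if_neg (by tauto), if_neg (by tauto), if_neg (by tauto)]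
      ring
  · by_cases h' : p.1.1 = u
    · rw [if_pos h', if_pos ⟨h', h⟩, if_neg (by omega), if_neg (by omega)]
      ring
    · rw [if_neg h', if_neg (by tauto), if_neg (by tauto), if_neg (by tauto)]
      ring

omit [Fintype I] in
/-- The energy of the measure in terms of `γ`. -/
private theorem ef_gam (m : XX I → ℝ) (p : XX I × XX I) :
    κ.ef (fun x => (m x : ℂ)) p = 1 / 2 * (κ.wt p * (κ.gam m p.2 - κ.gam m p.1) ^ 2) := by
  unfold ef wt gam
  have h1 : ((m p.1 : ℂ) / (κ.h p.1.2 : ℂ) - (m p.2 : ℂ) / (κ.h p.2.2 : ℂ)) =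
      ((m p.1 / κ.h p.1.2 - m p.2 / κ.h p.2.2 : ℝ) : ℂ) := by
    push_cast
    ring
  simp only
  rw [h1, Complex.norm_real, Real.norm_eq_abs, sq_abs]
  ring

private theorem Ok.fl_zero_of (hκ : κ.Ok) {m : XX I → ℝ} (hm : κ.IsM m) (l : Filter ℤ)
    [l.IsCountablyGenerated] (hl : ∀ p : XX I × XX I, ∀ᶠ u in l, ¬ (p.1.1 ≤ u ∧ u < p.2.1)) :
    Tendsto (κ.Fl m) l (𝓝 0) := by
  obtain ⟨K, hK, hw⟩ := hκ.wt_cut
  -- the energy of the separated pairs
  have hS : Tendsto (fun u : ℤ => ∑' p : XX I × XX I, if p.1.1 ≤ u ∧ u < p.2.1 then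
      κ.ef (fun x => (m x : ℂ)) p else 0) l (𝓝 0) := by
    have h1 := tendsto_tsum_of_dominated_convergence (𝓕 := l)
      (f := fun (u : ℤ) (p : XX I × XX I) => if p.1.1 ≤ u ∧ u < p.2.1 then
        κ.ef (fun x => (m x : ℂ)) p else 0) (g := fun _ => (0 : ℝ))
      (bound := κ.ef (fun x => (m x : ℂ))) hm.fin (fun p => ?_) (Eventually.of_forall fun u p => ?_)
    · simpa using h1
    · refine tendsto_const_nhds.congr' ?_
      filter_upwards [hl p] with u hu
      rw [if_neg hu]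
    · split_ifs
      · rw [Real.norm_of_nonneg (hκ.ef_nn _ p)]
      · rw [norm_zero]
        exact hκ.ef_nn _ p
  -- the sum of the weights of the separated pairs
  obtain ⟨S, hSdef⟩ : ∃ S : ℝ, S = ∑' q : (ℕ × I) × (ℕ × I),
    (1 / 2 : ℝ) ^ q.1.1 * (1 / 2) ^ q.2.1 := ⟨_, rfl⟩
  have hS0 : 0 ≤ S := by
    rw [hSdef]
    exact tsum_nonneg fun q => by positivity
  have hW : ∀ u : ℤ, (Summable fun p : XX I × XX I => if p.1.1 ≤ u ∧ u < p.2.1 then
      κ.wt p else 0) ∧ |∑' p : XX I × XX I, if p.1.1 ≤ u ∧ u < p.2.1 then κ.wt p else 0| ≤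
        K * S := by
    intro u
    rw [hSdef]
    refine cut_sum u κ.wt K fun q => ?_
    rw [abs_of_nonneg (hκ.wt_nn _)]
    refine (hw u q).trans (mul_le_mul_of_nonneg_left ?_ hK)
    rw [← pow_add]
    exact pow_le_pow_left₀ (by norm_num) (by norm_num) _
  have hef : ∀ u : ℤ, Summable fun p : XX I × XX I => if p.1.1 ≤ u ∧ u < p.2.1 then
      κ.ef (fun x => (m x : ℂ)) p else 0 := by
    intro u
    refine Summable.of_norm_bounded hm.fin fun p => ?_
    split_ifs
    · rw [Real.norm_of_nonneg (hκ.ef_nn _ p)]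
    · rw [norm_zero]
      exact hκ.ef_nn _ p
  have hbd : ∀ (ε : ℝ), 0 < ε → ∀ u : ℤ, |κ.Fl m u| ≤ ε * (K * S) +
      (∑' p : XX I × XX I, if p.1.1 ≤ u ∧ u < p.2.1 then
        κ.ef (fun x => (m x : ℂ)) p else 0) / ε := by
    intro ε hε u
    have h1 := ((hW u).1.mul_left ε).add ((hef u).mul_left (1 / ε))
    have h2 : ∀ p : XX I × XX I, ‖(if p.1.1 ≤ u ∧ u < p.2.1 then κ.flt m p else 0)‖ ≤
        ε * (if p.1.1 ≤ u ∧ u < p.2.1 then κ.wt p else 0) +
          1 / ε * (if p.1.1 ≤ u ∧ u < p.2.1 then κ.ef (fun x => (m x : ℂ)) p else 0) := by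
      intro p
      split_ifs with h
      · have h3 : κ.flt m p = κ.wt p * (κ.gam m p.2 - κ.gam m p.1) := rfl
        rw [h3, ef_gam, Real.norm_eq_abs, abs_mul, abs_of_nonneg (hκ.wt_nn p)]
        generalize κ.gam m p.2 - κ.gam m p.1 = d
        have h4 : |d| ≤ ε + 1 / ε * (1 / 2 * d ^ 2) := by
          have h5 : 1 / ε * (1 / 2 * d ^ 2) = |d| ^ 2 / (2 * ε) := by
            rw [sq_abs]
            field_simp
          rw [h5, ← sub_nonneg]
          have h6 : ε + |d| ^ 2 / (2 * ε) - |d| = ((|d| - ε) ^ 2 + ε ^ 2) / (2 * ε) := by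
            field_simp
            ring
          rw [h6]
          positivity
        calc κ.wt p * |d| ≤ κ.wt p * (ε + 1 / ε * (1 / 2 * d ^ 2)) :=
              mul_le_mul_of_nonneg_left h4 (hκ.wt_nn p)
          _ = _ := by ring
      · simp
    have h3 := tsum_of_norm_bounded h1.hasSum h2
    rw [((hW u).1.mul_left ε).tsum_add ((hef u).mul_left (1 / ε)), tsum_mul_left,
      tsum_mul_left] at h3
    rw [← Real.norm_eq_abs]
    refine h3.trans (add_le_add ?_ (le_of_eq ?_))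
    · exact mul_le_mul_of_nonneg_left ((le_abs_self _).trans (hW u).2) hε.le
    · ring
  rw [Metric.tendsto_nhds]
  intro δ hδ
  obtain ⟨ε, hε, hεδ⟩ : ∃ ε : ℝ, 0 < ε ∧ ε * (K * S) < δ / 2 := by
    refine ⟨δ / 2 / (K * S + 1), by positivity, ?_⟩
    have hKS : 0 ≤ K * S := by positivity
    rw [div_mul_eq_mul_div, div_lt_iff₀ (by positivity)]
    nlinarith
  have h1 : ∀ᶠ u in l, (∑' p : XX I × XX I, if p.1.1 ≤ u ∧ u < p.2.1 then
      κ.ef (fun x => (m x : ℂ)) p else 0) < δ / 2 * ε :=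
    hS.eventually_lt_const (by positivity)
  filter_upwards [h1] with u hu
  rw [Real.dist_eq, sub_zero]
  have h2 := hbd ε hε u
  have h3 : (∑' p : XX I × XX I, if p.1.1 ≤ u ∧ u < p.2.1 then
      κ.ef (fun x => (m x : ℂ)) p else 0) / ε < δ / 2 := by
    rw [div_lt_iff₀ hε]
    exact hu
  linarith

/-- `|Fl u| ≤ (∑_{cut} Fx h h)^{1/2} (∑_{cut} Fx h h |γ y - γ x|²)^{1/2}` where `cut` are the pairs with
`u(x) ≤ u < u(y)`; the first factor is a constant (translation), the second tends to zero as `u → ± ∞` by dominated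
convergence, because the total energy of `m` is finite (`IsM.fin`) and every pair is in finitely many cuts
(`tendsto_tsum_of_dominated_convergence`). -/
theorem Ok.fl_zero (hκ : κ.Ok) {m : XX I → ℝ} (hm : κ.IsM m) :
    Tendsto (κ.Fl m) atTop (𝓝 0) ∧ Tendsto (κ.Fl m) atBot (𝓝 0) := by
  constructor
  · refine hκ.fl_zero_of hm atTop fun p => ?_
    filter_upwards [eventually_ge_atTop p.2.1] with u hu
    omega
  · refine hκ.fl_zero_of hm atBot fun p => ?_
    filter_upwards [eventually_lt_atBot p.1.1] with u hu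
    omega

/-- Sum `fl_sub` from `u` to `± ∞`. -/
theorem Ok.fl_le (hκ : κ.Ok) {m : XX I → ℝ} (hm : κ.IsM m) :
    ∃ C : ℝ, 0 ≤ C ∧ ∀ u : ℤ, |κ.Fl m u| ≤ C * (1 / 4) ^ u.natAbs := by
  obtain ⟨-, C, hC, hnu⟩ := hκ.nu_le hm
  obtain ⟨h0, h0'⟩ := hκ.fl_zero hm
  set B : ℝ := (∑ i, κ.h i) * C with hB
  have hB0 : 0 ≤ B := mul_nonneg (Finset.sum_nonneg fun i _ => (hκ.h_pos i).le) hC
  have hstep : ∀ u : ℤ, |κ.Fl m u - κ.Fl m (u - 1)| ≤ B * (1 / 4) ^ u.natAbs := by
    intro u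
    rw [hκ.fl_sub hm, abs_neg]
    refine (Finset.abs_sum_le_sum_abs _ _).trans ?_
    rw [hB, mul_assoc, Finset.sum_mul]
    refine Finset.sum_le_sum fun i _ => ?_
    rw [abs_mul, abs_of_pos (hκ.h_pos i)]
    exact mul_le_mul_of_nonneg_left (hnu (u, i)) (hκ.h_pos i).le
  have hpos : ∀ n : ℕ, |κ.Fl m (n : ℤ)| ≤ 2 * B * (1 / 4) ^ n := by
    intro n
    have h1 : Tendsto (fun n : ℕ => κ.Fl m (n : ℤ)) atTop (𝓝 0) :=
      h0.comp tendsto_natCast_atTop_atTop
    have h2 : ∀ n : ℕ, dist (κ.Fl m (n : ℤ)) (κ.Fl m ((n + 1 : ℕ) : ℤ)) ≤ B * (1 / 4) ^ n := by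
      intro n
      have h3 := hstep ((n + 1 : ℕ) : ℤ)
      have h4 : (((n + 1 : ℕ) : ℤ) - 1) = (n : ℤ) := by push_cast; ring
      rw [h4, Int.natAbs_natCast] at h3
      rw [dist_comm, Real.dist_eq]
      refine h3.trans (mul_le_mul_of_nonneg_left ?_ hB0)
      exact pow_le_pow_of_le_one (by norm_num) (by norm_num) (Nat.le_succ n)
    have h3 := dist_le_of_le_geometric_of_tendsto (1 / 4) B (by norm_num) h2 h1 n
    rw [Real.dist_eq, sub_zero] at h3
    refine h3.trans ?_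
    rw [div_le_iff₀ (by norm_num)]
    have h4 : 0 ≤ B * (1 / 4 : ℝ) ^ n := by positivity
    nlinarith
  have hneg : ∀ n : ℕ, |κ.Fl m (-(n : ℤ))| ≤ 2 * B * (1 / 4) ^ n := by
    intro n
    have h1 : Tendsto (fun n : ℕ => κ.Fl m (-(n : ℤ))) atTop (𝓝 0) :=
      h0'.comp (tendsto_neg_atTop_atBot.comp tendsto_natCast_atTop_atTop)
    have h2 : ∀ n : ℕ, dist (κ.Fl m (-(n : ℤ))) (κ.Fl m (-((n + 1 : ℕ) : ℤ))) ≤
        B * (1 / 4) ^ n := by
      intro n
      have h3 := hstep (-(n : ℤ))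
      have h4 : (-(n : ℤ) - 1) = -((n + 1 : ℕ) : ℤ) := by push_cast; ring
      rw [h4, Int.natAbs_neg, Int.natAbs_natCast] at h3
      rw [Real.dist_eq]
      exact h3
    have h3 := dist_le_of_le_geometric_of_tendsto (1 / 4) B (by norm_num) h2 h1 n
    rw [Real.dist_eq, sub_zero] at h3
    refine h3.trans ?_
    rw [div_le_iff₀ (by norm_num)]
    have h4 : 0 ≤ B * (1 / 4 : ℝ) ^ n := by positivity
    nlinarith
  refine ⟨2 * B, by positivity, fun u => ?_⟩
  rcases Int.natAbs_eq u with h | h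
  · have := hpos u.natAbs
    rwa [← h] at this
  · have := hneg u.natAbs
    rwa [← h] at this

end Slb

end Pool.Agent.KSlab
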