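import Pool.Agent.KSlab.Half

/-! SL12: the generating function is analytic in the regular region. -/

set_option autoImplicit false

open Complex Set Filter Topology
open scoped ENNReal

namespace Pool.Agent.KSlab

namespace Slb

variable {I : Type} [Fintype I] {κ : Slb I}

omit [Fintype I] in
private theorem norm_exp_le {s : ℂ} (hs : -(1 / 2) < s.re) (n : ℕ) :
    ‖exp (-n * s)‖ ≤ 2 ^ n := by
  rw [Complex.norm_exp]
  have h1 : (-(n : ℂ) * s).re = (n : ℝ) * (-s.re) := by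
    simp
  rw [h1, Real.exp_nat_mul]
  apply pow_le_pow_left₀ (Real.exp_pos _).le
  have h2 : Real.exp (-s.re) ≤ Real.exp (1 / 2) := Real.exp_le_exp.mpr (by linarith)
  refine h2.trans ?_
  have h3 : Real.exp (1 / 2) * Real.exp (1 / 2) = Real.exp 1 := by
    rw [← Real.exp_add]; norm_num
  have h4 := Real.exp_one_lt_d9
  have h5 := Real.exp_pos (1 / 2)
  nlinarith

theorem Ok.cs_mem (hκ : κ.Ok) {s : ℂ} (hs : -(1 / 2) < s.re) : Memℓp (κ.cs s) 2 := by
  obtain ⟨C, hC⟩ := hκ.c_sum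
  exact (vec_series hκ.c_nn hC).1 s hs

private theorem Ok.cs_diff (hκ : κ.Ok) :
    DifferentiableOn ℂ (fun s : ℂ => toE (κ.cs s)) {s | -(1 / 2) < s.re} := by
  obtain ⟨C, hC⟩ := hκ.c_sum
  exact (vec_series hκ.c_nn hC).2

private theorem open_half : IsOpen {s : ℂ | -(1 / 2) < s.re} :=
  isOpen_lt continuous_const Complex.continuous_re

theorem Ok.cs_bound (hκ : κ.Ok) : ∃ C : ℝ, 0 ≤ C ∧ ∀ s : ℂ, -(1 / 2) < s.re → ∀ x : XX I,
    (Summable fun n : ℕ => ((κ.c n x : ℝ) : ℂ) * exp (-n * s)) ∧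
    ‖κ.cs s x‖ ≤ C * (1 / 4) ^ x.1.natAbs ∧ (¬ κ.Al x → κ.cs s x = 0) := by
  obtain ⟨C, hC⟩ := hκ.c_sum
  refine ⟨|C|, abs_nonneg C, fun s hs x => ?_⟩
  have hb : ∀ n : ℕ, ‖((κ.c n x : ℝ) : ℂ) * exp (-n * s)‖ ≤ 2 ^ n * κ.c n x := by
    intro n
    rw [norm_mul, Complex.norm_real, Real.norm_eq_abs, abs_of_nonneg (hκ.c_nn n x), mul_comm]
    exact mul_le_mul_of_nonneg_right (norm_exp_le hs n) (hκ.c_nn n x)
  have hsum : Summable fun n : ℕ => ‖((κ.c n x : ℝ) : ℂ) * exp (-n * s)‖ :=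
    Summable.of_nonneg_of_le (fun n => norm_nonneg _) hb (hC x).1
  refine ⟨hsum.of_norm, ?_, ?_⟩
  · calc ‖κ.cs s x‖ ≤ ∑' n : ℕ, ‖((κ.c n x : ℝ) : ℂ) * exp (-n * s)‖ :=
          norm_tsum_le_tsum_norm hsum
      _ ≤ ∑' n, 2 ^ n * κ.c n x := hsum.tsum_le_tsum hb (hC x).1
      _ ≤ C * (1 / 4) ^ x.1.natAbs := (hC x).2
      _ ≤ |C| * (1 / 4) ^ x.1.natAbs :=
          mul_le_mul_of_nonneg_right (le_abs_self C) (by positivity)
  · intro hx
    unfold Slb.cs
    have : (fun n : ℕ => ((κ.c n x : ℝ) : ℂ) * exp (-n * s)) = fun _ => 0 := by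
      funext n
      rw [hκ.c_dead n x hx]
      simp
    rw [this, tsum_zero]

theorem Ok.reg_open (hκ : κ.Ok) : IsOpen κ.Reg := by
  have hT : ContinuousOn (fun s => (1 : EE I →L[ℂ] EE I) - κ.KS s) {s : ℂ | -(1 / 2) < s.re} :=
    continuousOn_const.sub hκ.KS_diff.continuousOn
  exact isOpen_isUnit open_half hT

theorem Ok.sec_reg (hκ : κ.Ok) : κ.Sec ⊆ κ.Reg := by
  intro s hs
  refine ⟨?_, hκ.sec_unit hs⟩
  obtain ⟨_, h1, h2⟩ := hs
  have h3 := hκ.z_le
  have h4 : 40 * κ.z ≤ 1 := by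
    have : (40 : ℝ) * (1 / 10 ^ 12) ≤ 1 := by norm_num
    linarith
  linarith

theorem Ok.half_reg (hκ : κ.Ok) : {s : ℂ | 0 < s.re} ⊆ κ.Reg := by
  intro s hs
  have hs' : 0 < s.re := hs
  exact ⟨by linarith, hκ.half_unit hs⟩

/-- In `Far` one has `re s > - log (11/10) > - 1/2`. -/
theorem Ok.far_reg (hκ : κ.Ok) : κ.Far ⊆ κ.Reg := by
  intro s hs
  refine ⟨?_, hκ.far_unit hs⟩
  have h1 : ‖exp (-s)‖ < 11 / 10 := hs.1
  rw [Complex.norm_exp, Complex.neg_re] at h1
  have h2 := Real.add_one_le_exp (-s.re)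
  linarith

/-- The bilinear pairing as a continuous bilinear map. -/
private noncomputable def blB : EE I →L[ℂ] EE I →L[ℂ] ℂ :=
  LinearMap.mkContinuous₂
    (LinearMap.mk₂ ℂ (fun f g : EE I => ∑' x, f x * g x)
      (fun f f' g => by
        rw [← (bl_summable f g).tsum_add (bl_summable f' g)]
        refine tsum_congr fun x => ?_
        rw [lp.coeFn_add, Pi.add_apply]; ring)
      (fun a f g => by
        rw [smul_eq_mul, ← tsum_mul_left]
        refine tsum_congr fun x => ?_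
        rw [lp.coeFn_smul, Pi.smul_apply, smul_eq_mul]; ring)
      (fun f g g' => by
        rw [← (bl_summable f g).tsum_add (bl_summable f g')]
        refine tsum_congr fun x => ?_
        rw [lp.coeFn_add, Pi.add_apply]; ring)
      (fun a f g => by
        rw [smul_eq_mul, ← tsum_mul_left]
        refine tsum_congr fun x => ?_
        rw [lp.coeFn_smul, Pi.smul_apply, smul_eq_mul]; ring))
    1 (fun f g => by
      rw [one_mul]
      exact norm_bl_le f g)

omit [Fintype I] in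
private theorem blB_apply (f g : EE I) : blB f g = ∑' x, f x * g x := rfl

/-- `U1 s` is the bilinear pairing of the elements `toE (cs s)` and `GS s (toE (cs s))` of the space, i.e. a
continuous bilinear map (`inner_star` and continuity, or the continuous linear functionals of `bl`) of analytic
functions (`vec_series`, `inverse_diff`). -/
theorem Ok.U1_diff (hκ : κ.Ok) : DifferentiableOn ℂ κ.U1 κ.Reg := by
  have hsub : κ.Reg ⊆ {s : ℂ | -(1 / 2) < s.re} := fun s hs => hs.1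
  have hc : DifferentiableOn ℂ (fun s : ℂ => toE (κ.cs s)) κ.Reg := hκ.cs_diff.mono hsub
  have hK : DifferentiableOn ℂ (fun s => (1 : EE I →L[ℂ] EE I) - κ.KS s) κ.Reg :=
    (differentiableOn_const _).sub (hκ.KS_diff.mono hsub)
  have hG : DifferentiableOn ℂ (fun s : ℂ => κ.GS s) κ.Reg :=
    inverse_diff hκ.reg_open hK fun s hs => hs.2
  have hGc : DifferentiableOn ℂ (fun s : ℂ => κ.GS s (toE (κ.cs s))) κ.Reg := hG.clm_apply hc
  have hB : DifferentiableOn ℂ
      (fun s : ℂ => blB (toE (κ.cs s)) (κ.GS s (toE (κ.cs s)))) κ.Reg :=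
    (blB.differentiable.comp_differentiableOn hc).clm_apply hGc
  refine hB.congr fun s hs => ?_
  rw [blB_apply]
  unfold Slb.U1
  refine tsum_congr fun x => ?_
  rw [toE_apply (hκ.cs_mem hs.1)]

/-- The solution `m = GS s c_s`: `m x = c_s x + ∑ K_s x y m y`, it vanishes at the dead states. -/
theorem Ok.GS_eq (hκ : κ.Ok) {s : ℂ} (hs : s ∈ κ.Reg) :
    κ.GS s (toE (κ.cs s)) = toE (κ.cs s) + κ.KS s (κ.GS s (toE (κ.cs s))) ∧
    κ.Van (κ.GS s (toE (κ.cs s))) := by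
  have h1 : (1 - κ.KS s) * κ.GS s = 1 := Ring.mul_inverse_cancel _ hs.2
  have h2 : κ.GS s (toE (κ.cs s)) = toE (κ.cs s) + κ.KS s (κ.GS s (toE (κ.cs s))) := by
    have h3 : ((1 - κ.KS s) * κ.GS s) (toE (κ.cs s)) = toE (κ.cs s) := by
      rw [h1]; rfl
    rw [ContinuousLinearMap.mul_apply, ContinuousLinearMap.sub_apply,
      ContinuousLinearMap.one_apply] at h3
    exact sub_eq_iff_eq_add.mp h3
  refine ⟨h2, fun x hx => ?_⟩
  rw [h2, lp.coeFn_add, Pi.add_apply, toE_apply (hκ.cs_mem hs.1), hκ.KS_apply hs.1]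
  obtain ⟨C, _, hC⟩ := hκ.cs_bound
  rw [(hC s hs.1 x).2.2 hx, zero_add]
  have : (fun y => κ.Ks s x y * (κ.GS s (toE (κ.cs s))) y) = fun _ => 0 := by
    funext y
    rw [hκ.Ks_dead s hx, zero_mul]
  rw [this, tsum_zero]

end Slb

end Pool.Agent.KSlab
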