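import Pool.Agent.KSlab.Sec

/-! SL11: the operator `1 - K_s` is invertible in the half-plane and far away. -/

set_option autoImplicit false

open Complex Set Filter Topology
open scoped ENNReal

namespace Pool.Agent.KSlab

namespace Slb

variable {I : Type} [Fintype I] {κ : Slb I}

/-- the norm of an exponential -/
private theorem Half_exp (n : ℕ) (s : ℂ) : ‖exp (-(n : ℂ) * s)‖ = Real.exp (-(n : ℝ) * s.re) := by
  rw [Complex.norm_exp]
  congr 1
  simp

/-- a series with one term -/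
private theorem Half_single {ι E : Type} [NormedAddCommGroup E] (f : ι → E) (i : ι)
    (h : ∀ j, j ≠ i → f j = 0) : Summable f ∧ ∑' j, f j = f i :=
  ⟨(hasSum_single i h).summable, (hasSum_single i h).tsum_eq⟩

open Classical in
/-- diagonal operators -/
private theorem Half_diag {d : XX I → ℂ} {B : ℝ} (hB : 0 ≤ B) (hd : ∀ x, ‖d x‖ ≤ B) :
    Sch (fun x y => if x = y then d x else 0) B ∧
      ∀ (g : EE I) (x : XX I), op (fun x y => if x = y then d x else 0) g x = d x * g x := by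
  have h1 : Sch (fun x y : XX I => if x = y then d x else 0) B := by
    have hr := fun x => Half_single (fun y : XX I => ‖if x = y then d x else 0‖) x
      fun j hj => by rw [if_neg fun h => hj h.symm, norm_zero]
    have hc := fun y => Half_single (fun x : XX I => ‖if x = y then d x else 0‖) y
      fun j hj => by rw [if_neg hj, norm_zero]
    refine ⟨fun x => (hr x).1, fun x => ?_, fun y => (hc y).1, fun y => ?_⟩
    · rw [(hr x).2, if_pos rfl]
      exact hd x
    · rw [(hc y).2, if_pos rfl]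
      exact hd y
  refine ⟨h1, fun g x => ?_⟩
  rw [op_apply hB h1]
  rw [(Half_single (fun y : XX I => (if x = y then d x else 0) * g y) x fun j hj => by
    rw [if_neg fun h => hj h.symm, zero_mul]).2, if_pos rfl]

/-- the kernel at real points -/
private theorem Half_real (hκ : κ.Ok) {σ : ℝ} (hσ : -(1 / 2) < σ) (x y : XX I) :
    (Summable fun n : ℕ => κ.k n x y * Real.exp (-(n : ℝ) * σ)) ∧
      κ.Ks σ x y = ((∑' n : ℕ, κ.k n x y * Real.exp (-(n : ℝ) * σ) : ℝ) : ℂ) := by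
  have h0 : ∀ n : ℕ, (κ.k n x y : ℂ) * exp (-(n : ℂ) * (σ : ℂ)) =
      ((κ.k n x y * Real.exp (-(n : ℝ) * σ) : ℝ) : ℂ) := by
    intro n
    push_cast
    rfl
  have h1 := hκ.Ks_summable (s := (σ : ℂ)) (by rwa [Complex.ofReal_re]) x y
  simp only [h0] at h1
  refine ⟨Complex.summable_ofReal.1 h1, ?_⟩
  unfold Slb.Ks
  simp only [h0]
  exact (Complex.ofReal_tsum _).symm

/-- the kernel is bounded by its value at a smaller real point -/
private theorem Half_le (hκ : κ.Ok) {s : ℂ} {σ : ℝ} (hσ : -(1 / 2) < σ) (hs : σ ≤ s.re)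
    (x y : XX I) : ‖κ.Ks s x y‖ ≤ ∑' n : ℕ, κ.k n x y * Real.exp (-(n : ℝ) * σ) := by
  have h1 := (hκ.Ks_summable (s := s) (hσ.trans_le hs) x y).norm
  refine (norm_tsum_le_tsum_norm h1).trans (h1.tsum_le_tsum (fun n => ?_) (Half_real hκ hσ x y).1)
  rw [norm_mul, Half_exp, Complex.norm_real, Real.norm_of_nonneg (hκ.k_nn n x y)]
  refine mul_le_mul_of_nonneg_left (Real.exp_le_exp.2 ?_) (hκ.k_nn n x y)
  have : (0 : ℝ) ≤ n := Nat.cast_nonneg n
  nlinarith

/-- For `σ = re s > 0` let `σ' = min σ (39 z)`. `|Ks s x y| ≤ K_{σ'} (x, y)` for all `x`, `y`, so with `a = |g|`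
(`exists_abs`) `‖⟪g, K_s g⟫‖ ≤ ⟪a, K_{σ'} a⟫ ≤ (1 - σ'/4) ‖g‖²` (`coer_real` for the part of `a` on the alive
states). So the form of `1 - K_s` is at least `σ'/4 ‖g‖²`. -/
theorem Ok.half_unit (hκ : κ.Ok) {s : ℂ} (hs : 0 < s.re) : IsUnit (1 - κ.KS s) := by
  classical
  have hz := hκ.z_pos
  have hzl := hκ.z_le
  set σ := min s.re (39 * κ.z) with hσdef
  have hσ0 : 0 < σ := lt_min hs (by positivity)
  have hσs : σ ≤ s.re := min_le_left _ _
  have hσz : σ < 40 * κ.z := (min_le_right _ _).trans_lt (by linarith)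
  have hσ1 : -(1 / 2) < σ := by linarith
  have hs1 : -(1 / 2) < s.re := by linarith
  refine (isUnit_of_coercive (1 - κ.KS s) (c := σ / 4) (by positivity) fun g => ?_).1
  -- the absolute value on the alive states
  have h2 : (0 : ℝ) < (2 : ℝ≥0∞).toReal := by norm_num
  have hag : ∀ x, ‖(if κ.Al x then (‖g x‖ : ℂ) else 0)‖ ≤ ‖g x‖ := by
    intro x
    split_ifs
    · simp
    · simp
  have hpow : ∀ x, ‖(if κ.Al x then (‖g x‖ : ℂ) else 0)‖ ^ (2 : ℝ≥0∞).toReal ≤
      ‖g x‖ ^ (2 : ℝ≥0∞).toReal := fun x =>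
    Real.rpow_le_rpow (norm_nonneg _) (hag x) h2.le
  have hmem : Memℓp (fun x : XX I => if κ.Al x then (‖g x‖ : ℂ) else 0) 2 := by
    refine memℓp_gen ?_
    exact Summable.of_nonneg_of_le (fun x => Real.rpow_nonneg (norm_nonneg _) _) hpow
      ((memℓp_gen_iff h2).1 (lp.memℓp g))
  set b : EE I := ⟨_, hmem⟩ with hb
  have hbx : ∀ x, b x = if κ.Al x then (‖g x‖ : ℂ) else 0 := fun _ => rfl
  have hbg : ‖b‖ ≤ ‖g‖ := by
    have h3 : ‖b‖ ^ (2 : ℝ≥0∞).toReal ≤ ‖g‖ ^ (2 : ℝ≥0∞).toReal := by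
      rw [lp.norm_rpow_eq_tsum h2, lp.norm_rpow_eq_tsum h2]
      exact ((memℓp_gen_iff h2).1 (lp.memℓp b)).tsum_le_tsum hpow
        ((memℓp_gen_iff h2).1 (lp.memℓp g))
    exact (Real.rpow_le_rpow_iff (norm_nonneg _) (norm_nonneg _) h2).1 h3
  have hvan : κ.Van b := fun x hx => by rw [hbx, if_neg hx]
  have h1 := hκ.coer_real hσ0 hσz b hvan
  have hEF : 0 ≤ κ.EF b := by
    refine tsum_nonneg fun p => ?_
    unfold Slb.ef
    have h4 := (hκ.Fx_prop p.1 p.2).1
    have h5 := hκ.h_pos p.1.2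
    have h6 := hκ.h_pos p.2.2
    positivity
  -- comparison of the forms
  have hS := hκ.sch_Ks hs1
  have hSσ : Sch (κ.Ks (σ : ℂ)) 50 := hκ.sch_Ks (by rwa [Complex.ofReal_re])
  have h3 : ∀ p : XX I × XX I, (starRingEnd ℂ) (b p.1) * (κ.Ks σ p.1 p.2 * b p.2) =
      ((‖b p.1‖ * ‖κ.Ks σ p.1 p.2‖ * ‖b p.2‖ : ℝ) : ℂ) := by
    intro p
    have h4 : ∀ x, b x = ((‖b x‖ : ℝ) : ℂ) := by
      intro x
      rw [hbx]
      split_ifs
      · simp
      · simp
    have h5 : κ.Ks σ p.1 p.2 = ((‖κ.Ks σ p.1 p.2‖ : ℝ) : ℂ) := by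
      rw [(Half_real hκ hσ1 p.1 p.2).2, Complex.norm_real, Real.norm_of_nonneg]
      exact tsum_nonneg fun n => mul_nonneg (hκ.k_nn _ _ _) (Real.exp_pos _).le
    conv_lhs => rw [h4 p.1, h4 p.2, h5, Complex.conj_ofReal]
    push_cast
    ring
  have h4 : (inner ℂ b (κ.KS σ b)).re = ∑' p : XX I × XX I,
      ‖b p.1‖ * ‖κ.Ks σ p.1 p.2‖ * ‖b p.2‖ := by
    unfold Slb.KS
    rw [inner_op (by norm_num) hSσ, tsum_congr h3, ← Complex.ofReal_tsum, Complex.ofReal_re]
  have hsum1 : Summable fun p : XX I × XX I => ‖b p.1‖ * ‖κ.Ks σ p.1 p.2‖ * ‖b p.2‖ :=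
    (pair_summable hSσ b b).congr fun p => by ring
  have hsum2 : Summable fun p : XX I × XX I =>
      ‖(starRingEnd ℂ) (g p.1) * (κ.Ks s p.1 p.2 * g p.2)‖ :=
    (pair_summable hS g g).congr fun p => by
      rw [norm_mul, norm_mul, RCLike.norm_conj]
      ring
  have h5 : ‖inner ℂ g (κ.KS s g)‖ ≤ (inner ℂ b (κ.KS σ b)).re := by
    rw [h4]
    have h6 : inner ℂ g (κ.KS s g) = ∑' p : XX I × XX I,
        (starRingEnd ℂ) (g p.1) * (κ.Ks s p.1 p.2 * g p.2) := by
      unfold Slb.KS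
      rw [inner_op (by norm_num) hS]
    rw [h6]
    refine (norm_tsum_le_tsum_norm hsum2).trans (hsum2.tsum_le_tsum (fun p => ?_) hsum1)
    rw [norm_mul, norm_mul, RCLike.norm_conj]
    by_cases hx : κ.Al p.1
    · by_cases hy : κ.Al p.2
      · have h7 : ‖κ.Ks s p.1 p.2‖ ≤ ‖κ.Ks σ p.1 p.2‖ := by
          rw [(Half_real hκ hσ1 p.1 p.2).2, Complex.norm_real]
          exact (Half_le hκ hσ1 hσs p.1 p.2).trans (le_abs_self _)
        have h8 : ‖b p.1‖ = ‖g p.1‖ := by
          rw [hbx, if_pos hx, Complex.norm_real, norm_norm]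
        have h9 : ‖b p.2‖ = ‖g p.2‖ := by
          rw [hbx, if_pos hy, Complex.norm_real, norm_norm]
        rw [h8, h9, mul_assoc]
        exact mul_le_mul_of_nonneg_left
          (mul_le_mul_of_nonneg_right h7 (norm_nonneg _)) (norm_nonneg _)
      · rw [hκ.Ks_symm, hκ.Ks_dead s hy, norm_zero, zero_mul, mul_zero]
        positivity
    · rw [hκ.Ks_dead s hx, norm_zero, zero_mul, mul_zero]
      positivity
  -- conclusion
  have h6 : (inner ℂ b (b - κ.KS σ b)).re = ‖b‖ ^ 2 - (inner ℂ b (κ.KS σ b)).re := by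
    rw [inner_sub_right, Complex.sub_re, inner_self_eq_norm_sq_to_K]
    norm_cast
  have h7 : inner ℂ g ((1 - κ.KS s) g) = ((‖g‖ ^ 2 : ℝ) : ℂ) - inner ℂ g (κ.KS s g) := by
    have h8 : (1 - κ.KS s) g = g - κ.KS s g := rfl
    rw [h8, inner_sub_right, inner_self_eq_norm_sq_to_K]
    norm_cast
  have h8 : ‖g‖ ^ 2 - ‖inner ℂ g (κ.KS s g)‖ ≤ ‖inner ℂ g ((1 - κ.KS s) g)‖ := by
    rw [h7]
    have h9 := norm_sub_norm_le ((‖g‖ ^ 2 : ℝ) : ℂ) (inner ℂ g (κ.KS s g))
    rwa [Complex.norm_real, Real.norm_of_nonneg (by positivity)] at h9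
  have h9 : ‖b‖ ^ 2 ≤ ‖g‖ ^ 2 := pow_le_pow_left₀ (norm_nonneg _) hbg 2
  rw [h6] at h1
  have h10 : σ ≤ 4 := by
    have : (1 : ℝ) / 10 ^ 12 ≤ 1 / 10 := by norm_num
    linarith
  nlinarith

/-- `K_s = q exp (-2 s) P + R` with `‖R‖ ≤ ∑_{n ≥ 3} (11/10) ^ n (row of k_n) ≤ (11/20)³ · 100 z < 17 z`;
`1 - q exp (-2 s) P` is diagonal with entries `1` and `1 - q exp (-2 s)`, of absolute value `> 20 z`, so it is
invertible and the norm of its inverse is `< 1 / (20 z)`. Neumann series (`Units.add`,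
`NormedRing`). -/
theorem Ok.far_unit (hκ : κ.Ok) {s : ℂ} (hs : s ∈ κ.Far) : IsUnit (1 - κ.KS s) := by
  classical
  have hz := hκ.z_pos
  have hzl := hκ.z_le
  have hz1 : (1 : ℝ) / 10 ^ 12 ≤ 1 / 1000 := by norm_num
  obtain ⟨hs1, hs2⟩ := hs
  set u : ℝ := Real.exp (-s.re) with hu
  have hnorm : ‖exp (-s)‖ = u := by rw [Complex.norm_exp, Complex.neg_re]
  rw [hnorm] at hs1
  have hu0 : 0 < u := Real.exp_pos _
  have hre : -(1 / 2) < s.re := by
    by_contra hcon
    push Not at hcon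
    have h1 : (1 : ℝ) / 2 ≤ -s.re := by linarith
    have h2 := Real.add_one_le_exp (-s.re)
    linarith
  have hexp : ∀ n : ℕ, ‖exp (-(n : ℂ) * s)‖ = u ^ n := by
    intro n
    rw [Half_exp, hu, ← Real.exp_nat_mul]
    congr 1
    ring
  -- the diagonal part
  set w : ℂ := 1 - κ.q * exp (-2 * s) with hw
  have hw0 : w ≠ 0 := by
    intro h
    rw [h, norm_zero] at hs2
    linarith
  obtain ⟨hP, hPa⟩ := Half_diag (I := I) (d := fun x => if κ.Al x then κ.q * exp (-2 * s) else 0)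
    (B := ‖κ.q * exp (-2 * s)‖) (norm_nonneg _) (fun x => by
      split_ifs
      · exact le_rfl
      · rw [norm_zero]
        exact norm_nonneg _)
  have hEB : ∀ x, ‖(if κ.Al x then w⁻¹ else 1 : ℂ)‖ ≤ (20 * κ.z)⁻¹ := by
    intro x
    split_ifs
    · rw [norm_inv]
      exact inv_anti₀ (by positivity) hs2.le
    · rw [norm_one]
      rw [one_le_inv₀ (by positivity)]
      linarith
  obtain ⟨hE, hEa⟩ := Half_diag (I := I) (d := fun x => if κ.Al x then w⁻¹ else 1)
    (B := (20 * κ.z)⁻¹) (by positivity) hEB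
  set P : EE I →L[ℂ] EE I := op fun x y : XX I => if x = y then
    (if κ.Al x then κ.q * exp (-2 * s) else 0) else 0 with hPdef
  set E : EE I →L[ℂ] EE I := op fun x y : XX I => if x = y then
    (if κ.Al x then w⁻¹ else 1) else 0 with hEdef
  have hPE : (1 - P) * E = 1 := by
    ext g x
    have h1 : ((1 - P) * E) g x = E g x - P (E g) x := rfl
    rw [h1, hPa, hEa]
    have h2 : (1 : EE I →L[ℂ] EE I) g x = g x := rfl
    rw [h2]
    split_ifs
    · have : w⁻¹ * g x - κ.q * exp (-2 * s) * (w⁻¹ * g x) = w * w⁻¹ * g x := by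
        rw [hw]
        ring
      rw [this, mul_inv_cancel₀ hw0, one_mul]
    · ring
  have hEP : E * (1 - P) = 1 := by
    ext g x
    have h1 : (E * (1 - P)) g x = E (g - P g) x := rfl
    rw [h1, hEa]
    have h2 : (g - P g) x = g x - P g x := rfl
    rw [h2, hPa]
    have h3 : (1 : EE I →L[ℂ] EE I) g x = g x := rfl
    rw [h3]
    split_ifs
    · have : w⁻¹ * (g x - κ.q * exp (-2 * s) * g x) = w⁻¹ * w * g x := by
        rw [hw]
        ring
      rw [this, inv_mul_cancel₀ hw0, one_mul]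
    · ring
  have hPu : IsUnit (1 - P) := ⟨⟨1 - P, E, hPE, hEP⟩, rfl⟩
  -- the rest
  set G : XX I → ℕ × XX I → ℝ := fun x p => if 3 ≤ p.1 then 2 ^ p.1 * κ.k p.1 x p.2 else 0 with hG
  have hG0 : ∀ x p, 0 ≤ G x p := by
    intro x p
    simp only [hG]
    split_ifs
    · exact mul_nonneg (by positivity) (hκ.k_nn _ _ _)
    · exact le_rfl
  have hGs : ∀ x, Summable (G x) := by
    intro x
    refine Summable.of_nonneg_of_le (hG0 x) (fun p => ?_) (hκ.k_sum x)
    simp only [hG]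
    split_ifs
    · exact le_rfl
    · exact mul_nonneg (by positivity) (hκ.k_nn _ _ _)
  have hGs' : ∀ x, Summable fun p : XX I × ℕ => G x (p.2, p.1) := fun x =>
    (Equiv.prodComm (XX I) ℕ).summable_iff.2 (hGs x)
  have hGy : ∀ x y, Summable fun n : ℕ => G x (n, y) := fun x y => (hGs' x).prod_factor y
  have hGr : ∀ x, Summable fun y => ∑' n : ℕ, G x (n, y) := fun x => (hGs' x).prod
  have hGt : ∀ x, ∑' y, ∑' n : ℕ, G x (n, y) ≤ 100 * κ.z := by
    intro x
    rw [← (hGs' x).tsum_prod' (hGy x)]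
    have h1 : ∑' p : XX I × ℕ, G x (p.2, p.1) = ∑' p : ℕ × XX I, G x p :=
      (Equiv.prodComm (XX I) ℕ).tsum_eq (G x)
    rw [h1]
    exact hκ.k_le x
  set R : XX I → XX I → ℂ := fun x y => κ.Ks s x y - if x = y then
    (if κ.Al x then κ.q * exp (-2 * s) else 0) else 0 with hR
  have hRle : ∀ x y, ‖R x y‖ ≤ (11 / 20) ^ 3 * ∑' n : ℕ, G x (n, y) := by
    intro x y
    have h1 := hκ.Ks_summable hre x y
    have h2 : HasSum (fun n : ℕ => (κ.k n x y : ℂ) * exp (-(n : ℂ) * s)) (κ.Ks s x y) := h1.hasSum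
    have h3 : HasSum (fun n : ℕ => if n = 2 then (κ.k 2 x y : ℂ) * exp (-2 * s) else 0)
        ((κ.k 2 x y : ℂ) * exp (-2 * s)) := hasSum_ite_eq 2 _
    have h4 := h2.sub h3
    have h5 : R x y = κ.Ks s x y - (κ.k 2 x y : ℂ) * exp (-2 * s) := by
      simp only [hR]
      rw [hκ.k_low 2 x y (by norm_num)]
      by_cases h6 : x = y
      · by_cases h7 : κ.Al x
        · rw [if_pos h6, if_pos h7, if_pos ⟨rfl, h6, h7⟩]
        · rw [if_pos h6, if_neg h7, if_neg fun h => h7 h.2.2, Complex.ofReal_zero, zero_mul]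
      · rw [if_neg h6, if_neg fun h => h6 h.2.1, Complex.ofReal_zero, zero_mul]
    rw [h5, ← h4.tsum_eq, ← tsum_mul_left]
    have h6 : ∀ n : ℕ, ‖(κ.k n x y : ℂ) * exp (-(n : ℂ) * s) -
        (if n = 2 then (κ.k 2 x y : ℂ) * exp (-2 * s) else 0)‖ ≤ (11 / 20) ^ 3 * G x (n, y) := by
      intro n
      by_cases h7 : 3 ≤ n
      · rw [if_neg (by omega), sub_zero, norm_mul, hexp, Complex.norm_real,
          Real.norm_of_nonneg (hκ.k_nn n x y)]
        simp only [hG]
        rw [if_pos h7]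
        have h8 : u ^ n ≤ (11 / 20) ^ 3 * 2 ^ n := by
          calc u ^ n ≤ (11 / 10) ^ n := pow_le_pow_left₀ hu0.le hs1.le n
            _ = (11 / 20) ^ n * 2 ^ n := by rw [← mul_pow]; norm_num
            _ ≤ (11 / 20) ^ 3 * 2 ^ n := mul_le_mul_of_nonneg_right
                (pow_le_pow_of_le_one (by norm_num) (by norm_num) h7) (by positivity)
        calc κ.k n x y * u ^ n ≤ κ.k n x y * ((11 / 20) ^ 3 * 2 ^ n) :=
              mul_le_mul_of_nonneg_left h8 (hκ.k_nn n x y)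
          _ = _ := by ring
      · have h8 : (κ.k n x y : ℂ) * exp (-(n : ℂ) * s) -
            (if n = 2 then (κ.k 2 x y : ℂ) * exp (-2 * s) else 0) = 0 := by
          by_cases h9 : n = 2
          · subst h9
            rw [if_pos rfl]
            push_cast
            ring
          · rw [if_neg h9, hκ.k_low n x y (by omega), if_neg fun h => h9 h.1]
            simp
        rw [h8, norm_zero]
        exact mul_nonneg (by norm_num) (hG0 x _)
    have h7 : Summable fun n : ℕ => (11 / 20 : ℝ) ^ 3 * G x (n, y) := (hGy x y).mul_left _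
    have h8 : Summable fun n : ℕ => ‖(κ.k n x y : ℂ) * exp (-(n : ℂ) * s) -
        (if n = 2 then (κ.k 2 x y : ℂ) * exp (-2 * s) else 0)‖ :=
      Summable.of_nonneg_of_le (fun _ => norm_nonneg _) h6 h7
    exact (norm_tsum_le_tsum_norm h8).trans (h8.tsum_le_tsum h6 h7)
  have hRsymm : ∀ x y, R x y = R y x := by
    intro x y
    simp only [hR]
    rw [hκ.Ks_symm s x y]
    by_cases h1 : x = y
    · rw [h1]
    · rw [if_neg h1, if_neg fun h => h1 h.symm]
  have hRrow : ∀ x, Summable fun y => ‖R x y‖ := fun x =>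
    Summable.of_nonneg_of_le (fun _ => norm_nonneg _) (hRle x) ((hGr x).mul_left _)
  have hRrow' : ∀ x, ∑' y, ‖R x y‖ ≤ 17 * κ.z := by
    intro x
    have h1 := (hRrow x).tsum_le_tsum (hRle x) ((hGr x).mul_left _)
    rw [tsum_mul_left] at h1
    have h2 := hGt x
    nlinarith
  have hSR : Sch R (17 * κ.z) := by
    refine ⟨hRrow, hRrow', fun y => ?_, fun y => ?_⟩
    · simp only [hRsymm _ y]
      exact hRrow y
    · simp only [hRsymm _ y]
      exact hRrow' y
  have hopR : op R = κ.KS s - P :=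
    (op_sub (by norm_num) (norm_nonneg _) (hκ.sch_Ks hre) hP).2
  have hnR : ‖op R‖ ≤ 17 * κ.z := norm_op_le (by positivity) hSR
  have hnE : ‖E‖ ≤ (20 * κ.z)⁻¹ := norm_op_le (by positivity) hE
  have hlt : ‖E * op R‖ < 1 := by
    calc ‖E * op R‖ ≤ ‖E‖ * ‖op R‖ := norm_mul_le _ _
      _ ≤ (20 * κ.z)⁻¹ * (17 * κ.z) := mul_le_mul hnE hnR (norm_nonneg _) (by positivity)
      _ < 1 := by
        rw [inv_mul_lt_iff₀ (by positivity)]
        linarith
  have hfac : 1 - κ.KS s = (1 - P) * (1 - E * op R) := by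
    rw [mul_sub, mul_one, ← mul_assoc, hPE, one_mul, hopR]
    abel
  rw [hfac]
  exact hPu.mul (isUnit_one_sub_of_norm_lt_one hlt)

end Slb

end Pool.Agent.KSlab
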