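import Pool.Agent.KSlab.HardyS

/-! SL9: the energy of the killed kernel is at least one half of the energy of the free kernel. -/

set_option autoImplicit false

open Complex Set Filter Topology
open scoped ENNReal

namespace Pool.Agent.KSlab

namespace Slb

variable {I : Type} [Fintype I] {κ : Slb I}

/-- A symmetric nonnegative kernel: the quadratic form is at most the weighted sum of squares. -/
private theorem quad_bound {X : Type} (D : X → X → ℝ) (hD0 : ∀ x y, 0 ≤ D x y)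
    (hDs : ∀ x y, D x y = D y x) (hrow : ∀ x, Summable (D x)) (a b : X → ℝ)
    (hle : ∀ x, (∑' y, D x y) * a x ^ 2 ≤ b x) (hb : Summable b) :
    (Summable fun p : X × X => D p.1 p.2 * (|a p.1| * |a p.2|)) ∧
      ∑' p : X × X, D p.1 p.2 * (|a p.1| * |a p.2|) ≤ ∑' x, b x := by
  set U : X × X → ℝ := fun p => D p.1 p.2 * a p.1 ^ 2 with hU
  have hU0 : ∀ p, 0 ≤ U p := fun p => mul_nonneg (hD0 _ _) (sq_nonneg _)
  have hUrow : ∀ x, Summable fun y => U (x, y) := fun x => (hrow x).mul_right (a x ^ 2)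
  have hUle : ∀ x, ∑' y, U (x, y) ≤ b x := by
    intro x
    simp only [hU]
    rw [tsum_mul_right]
    exact hle x
  have hUtr : Summable fun x => ∑' y, U (x, y) :=
    Summable.of_nonneg_of_le (fun x => tsum_nonneg fun y => hU0 _) hUle hb
  have hUs : Summable U := (summable_prod_of_nonneg hU0).2 ⟨hUrow, hUtr⟩
  have hUt : ∑' p, U p ≤ ∑' x, b x := by
    rw [hUs.tsum_prod' hUrow]
    exact hUtr.tsum_le_tsum hUle hb
  have hUsw : Summable fun p : X × X => U p.swap :=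
    ((Equiv.prodComm _ _).summable_iff (f := U)).2 hUs
  have hUswt : ∑' p : X × X, U p.swap = ∑' p, U p := (Equiv.prodComm X X).tsum_eq U
  have hT : ∀ p : X × X, D p.1 p.2 * (|a p.1| * |a p.2|) ≤ 1 / 2 * (U p + U p.swap) := by
    intro p
    have h4 : U p.swap = D p.1 p.2 * a p.2 ^ 2 := by
      simp only [hU, Prod.fst_swap, Prod.snd_swap]
      rw [hDs]
    rw [h4]
    have h5 : 0 ≤ D p.1 p.2 * (|a p.1| - |a p.2|) ^ 2 := mul_nonneg (hD0 _ _) (sq_nonneg _)
    simp only [hU]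
    rw [← sq_abs (a p.1), ← sq_abs (a p.2)]
    nlinarith
  have hTs : Summable fun p : X × X => D p.1 p.2 * (|a p.1| * |a p.2|) :=
    Summable.of_nonneg_of_le (fun p => mul_nonneg (hD0 _ _)
      (mul_nonneg (abs_nonneg _) (abs_nonneg _))) hT ((hUs.add hUsw).mul_left (1 / 2))
  refine ⟨hTs, ?_⟩
  calc ∑' p : X × X, D p.1 p.2 * (|a p.1| * |a p.2|)
      ≤ ∑' p, 1 / 2 * (U p + U p.swap) :=
        hTs.tsum_le_tsum hT ((hUs.add hUsw).mul_left (1 / 2))
    _ = ∑' p, U p := by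
        rw [tsum_mul_left, hUs.tsum_add hUsw, hUswt]
        ring
    _ ≤ ∑' x, b x := hUt

/-- For `g` which vanishes at the dead states
`⟪g, K g⟫ - ⟪g, Fx g⟫ = ∑_{x, y alive} (K0 - Fx) (x, y) conj (g x) g y`, in absolute value at most
`∑_x ‖g x‖² ∑_y |(K0 - Fx) (x, y)|` (symmetric kernel, `2 a b ≤ a² + b²`) `≤ z/500 ∑ λ ^ len x ‖g x‖² ≤ EF g / 500`
by `df_zero` and `hardy_sum`. With `EF_eq` the claim follows. -/
theorem Ok.hardy (hκ : κ.Ok) (g : EE I) (hv : κ.Van g) :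
    κ.EF g / 2 ≤ (inner ℂ g (g - κ.KS 0 g)).re := by
  classical
  obtain ⟨B, hB, hF⟩ := hκ.sch_Fx
  have hK := hκ.sch_Ks (s := 0) (by norm_num)
  have hsub := op_sub hB (by norm_num : (0 : ℝ) ≤ 50) hF hK
  have hB' : 0 ≤ B + 50 := by positivity
  set N : XX I → XX I → ℂ := fun x y => ((κ.Fx x y : ℝ) : ℂ) - κ.Ks 0 x y with hN
  have hin : inner ℂ g (op N g) = ∑' p : XX I × XX I,
      (starRingEnd ℂ) (g p.1) * (N p.1 p.2 * g p.2) := inner_op hB' hsub.1 g g
  have heq : inner ℂ g (g - κ.KS 0 g) =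
      inner ℂ g (g - op (fun x y => ((κ.Fx x y : ℝ) : ℂ)) g) + inner ℂ g (op N g) := by
    rw [hsub.2, sub_apply, ← inner_add_right]
    congr 1
    change g - op (κ.Ks 0) g = _
    abel
  set D : XX I → XX I → ℝ := fun x y =>
    if κ.Al x ∧ κ.Al y then |κ.K0 x y - κ.Fx x y| else 0 with hD
  have hD0 : ∀ x y, 0 ≤ D x y := by
    intro x y
    simp only [hD]
    split_ifs
    · exact abs_nonneg _
    · exact le_rfl
  have hDs : ∀ x y, D x y = D y x := by
    intro x y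
    simp only [hD]
    rw [(hκ.K0_row x).2.2.2.1 y, (hκ.Fx_prop x y).2]
    by_cases h : κ.Al x ∧ κ.Al y
    · rw [if_pos h, if_pos ⟨h.2, h.1⟩]
    · rw [if_neg h, if_neg fun h' => h ⟨h'.2, h'.1⟩]
  have hrow : ∀ x, Summable (D x) ∧
      (κ.Al x → ∑' y, D x y ≤ κ.z / 500 * (1 / 576) ^ κ.len x) := by
    intro x
    by_cases hx : κ.Al x
    · obtain ⟨-, h2, h3, h4⟩ := hκ.df_zero hx
      have hle : ∀ y, D x y ≤ |∑' n, κ.df n x y| := by
        intro y
        simp only [hD]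
        split_ifs with h
        · rw [h2 y h.2]
        · exact abs_nonneg _
      have hs : Summable (D x) := Summable.of_nonneg_of_le (hD0 x) hle h3
      exact ⟨hs, fun _ => (hs.tsum_le_tsum hle h3).trans h4⟩
    · have h0 : D x = fun _ => 0 := by
        funext y
        simp only [hD]
        rw [if_neg fun h => hx h.1]
      rw [h0]
      exact ⟨summable_zero, fun h => absurd h hx⟩
  obtain ⟨hS, hSle⟩ := hκ.hardy_sum g hv
  obtain ⟨hQs, hQ⟩ := quad_bound D hD0 hDs (fun x => (hrow x).1) (fun x => ‖g x‖)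
    (fun x => κ.z / 500 * ((1 / 576) ^ κ.len x * ‖g x‖ ^ 2)) (by
      intro x
      dsimp only
      by_cases hx : κ.Al x
      · rw [← mul_assoc]
        exact mul_le_mul_of_nonneg_right ((hrow x).2 hx) (sq_nonneg _)
      · rw [hv x hx]
        simp) (hS.mul_left (κ.z / 500))
  have hT : ∀ p : XX I × XX I, ‖(starRingEnd ℂ) (g p.1) * (N p.1 p.2 * g p.2)‖ =
      D p.1 p.2 * (|‖g p.1‖| * |‖g p.2‖|) := by
    intro p
    rw [abs_norm, abs_norm]
    by_cases h : κ.Al p.1 ∧ κ.Al p.2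
    · have h2 : ‖N p.1 p.2‖ = D p.1 p.2 := by
        simp only [hN, hD]
        rw [if_pos h, Ok.Ks_zero, ← Complex.ofReal_sub, Complex.norm_real, Real.norm_eq_abs,
          abs_sub_comm]
      rw [norm_mul, norm_mul, RCLike.norm_conj, h2]
      ring
    · have h3 : g p.1 = 0 ∨ g p.2 = 0 := by
        by_cases hp : κ.Al p.1
        · exact Or.inr (hv _ fun h' => h ⟨hp, h'⟩)
        · exact Or.inl (hv _ hp)
      rcases h3 with h3 | h3
      · rw [h3]; simp
      · rw [h3]; simp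
  have hfin : ‖inner ℂ g (op N g)‖ ≤ κ.EF g / 500 := by
    rw [hin]
    have hTs : Summable fun p : XX I × XX I =>
        ‖(starRingEnd ℂ) (g p.1) * (N p.1 p.2 * g p.2)‖ := by
      rw [funext hT]
      exact hQs
    calc ‖∑' p : XX I × XX I, (starRingEnd ℂ) (g p.1) * (N p.1 p.2 * g p.2)‖
        ≤ ∑' p : XX I × XX I, ‖(starRingEnd ℂ) (g p.1) * (N p.1 p.2 * g p.2)‖ :=
          norm_tsum_le_tsum_norm hTs
      _ = ∑' p : XX I × XX I, D p.1 p.2 * (|‖g p.1‖| * |‖g p.2‖|) := by rw [funext hT]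
      _ ≤ ∑' x, κ.z / 500 * ((1 / 576) ^ κ.len x * ‖g x‖ ^ 2) := hQ
      _ = (κ.z * ∑' x, (1 / 576) ^ κ.len x * ‖g x‖ ^ 2) / 500 := by
          rw [tsum_mul_left]
          ring
      _ ≤ κ.EF g / 500 := div_le_div_of_nonneg_right hSle (by norm_num)
  have hEF := hκ.EF_eq g
  have hEF0 := hκ.EF_nn g
  rw [heq, Complex.add_re, ← hEF]
  have h6 := (abs_le.1 ((Complex.abs_re_le_norm (inner ℂ g (op N g))).trans hfin)).1
  linarith

end Slb

end Pool.Agent.KSlab
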