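import Pool.Agent.KSlab.Low

/-! SL8: the defects are small relative to the energy (a Hardy inequality). -/

set_option autoImplicit false

open Complex Set Filter Topology
open scoped ENNReal

namespace Pool.Agent.KSlab

namespace Slb

variable {I : Type} [Fintype I] {κ : Slb I}

omit [Fintype I] in
private theorem Ok.hs_q (hκ : κ.Ok) : 1 / 2 ≤ κ.q := by
  have h1 := hκ.q_ge
  have h2 := hκ.z_le
  linarith

omit [Fintype I] in
private theorem Ok.hs_ne (hκ : κ.Ok) {x : XX I} (hx : κ.Al x) : κ.nx x ≠ x := by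
  intro h
  have h1 := hκ.nx_len x hx
  rw [h] at h1
  omega

/-- The term of the energy of the pair `x`, `nx x`. -/
private noncomputable def hs_e (κ : Slb I) (g : XX I → ℂ) (x : XX I) : ℝ :=
  κ.h x.2 * κ.h (κ.nx x).2 * ‖g x / κ.h x.2 - g (κ.nx x) / κ.h (κ.nx x).2‖ ^ 2

omit [Fintype I] in
private theorem Ok.hs_e_nn (hκ : κ.Ok) (g : XX I → ℂ) (x : XX I) : 0 ≤ hs_e κ g x :=
  mul_nonneg (mul_nonneg (hκ.h_pos _).le (hκ.h_pos _).le) (sq_nonneg _)

private theorem Ok.hs_le_ef (hκ : κ.Ok) (g : XX I → ℂ) {x : XX I} (hx : κ.Al x) :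
    κ.q * κ.z * hs_e κ g x ≤ κ.ef g (x, κ.nx x) + κ.ef g (κ.nx x, x) := by
  have h1 := hκ.Fx_step.2.2.1 x hx
  have h2 := (hκ.Fx_prop x (κ.nx x)).2
  have h3 := hκ.hs_e_nn g x
  have e1 : κ.ef g (x, κ.nx x) = 1 / 2 * κ.Fx x (κ.nx x) * hs_e κ g x := by
    unfold ef hs_e
    ring
  have e2 : κ.ef g (κ.nx x, x) = 1 / 2 * κ.Fx x (κ.nx x) * hs_e κ g x := by
    unfold ef hs_e
    dsimp only
    rw [← h2, norm_sub_rev]
    ring
  rw [e1, e2]
  have h4 := mul_le_mul_of_nonneg_right h1 h3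
  linarith

/-- The part of the energy. -/
private theorem Ok.hs_energy (hκ : κ.Ok) {g : XX I → ℂ} (hg : κ.FinE g) (u : Finset (XX I))
    (hu : ∀ x ∈ u, κ.Al x) : κ.q * κ.z * ∑ x ∈ u, hs_e κ g x ≤ κ.EF g := by
  classical
  have hd : Disjoint (u.image fun x => (x, κ.nx x)) (u.image fun x => (κ.nx x, x)) := by
    rw [Finset.disjoint_left]
    rintro p hp hp'
    obtain ⟨x, hx, rfl⟩ := Finset.mem_image.mp hp
    obtain ⟨y, hy, hxy⟩ := Finset.mem_image.mp hp'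
    have h1 : κ.nx y = x := congrArg Prod.fst hxy
    have h2 : y = κ.nx x := congrArg Prod.snd hxy
    have h3 := hκ.nx_len x (hu x hx)
    have h4 := hκ.nx_len y (hu y hy)
    rw [h1] at h4
    rw [← h2] at h3
    omega
  have e1 : ∑ p ∈ u.image (fun x => (x, κ.nx x)), κ.ef g p = ∑ x ∈ u, κ.ef g (x, κ.nx x) :=
    Finset.sum_image fun x _ y _ h => congrArg Prod.fst h
  have e2 : ∑ p ∈ u.image (fun x => (κ.nx x, x)), κ.ef g p = ∑ x ∈ u, κ.ef g (κ.nx x, x) :=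
    Finset.sum_image fun x _ y _ h => congrArg Prod.snd h
  calc κ.q * κ.z * ∑ x ∈ u, hs_e κ g x = ∑ x ∈ u, κ.q * κ.z * hs_e κ g x := Finset.mul_sum _ _ _
    _ ≤ ∑ x ∈ u, (κ.ef g (x, κ.nx x) + κ.ef g (κ.nx x, x)) :=
        Finset.sum_le_sum fun x hx => hκ.hs_le_ef g (hu x hx)
    _ = ∑ p ∈ (u.image fun x => (x, κ.nx x)) ∪ (u.image fun x => (κ.nx x, x)), κ.ef g p := by
        rw [Finset.sum_union hd, e1, e2, Finset.sum_add_distrib]
    _ ≤ ∑' p, κ.ef g p := hg.sum_le_tsum _ fun p _ => hκ.ef_nn g p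

/-- One step. -/
private theorem Ok.hs_step (hκ : κ.Ok) (g : XX I → ℂ) {x : XX I} (hx : κ.Al x) :
    ‖g x‖ ^ 2 ≤ 162 * ‖g (κ.nx x)‖ ^ 2 + 18 * hs_e κ g x := by
  have h1 : κ.h x.2 ≤ 9 * κ.h (κ.nx x).2 := by
    refine hκ.harnack (hκ.hs_ne hx) ?_
    rw [← (hκ.Fx_prop x (κ.nx x)).2]
    exact hκ.Fx_step.2.2.1 x hx
  have hx0 := hκ.h_pos x.2
  have hy0 := hκ.h_pos (κ.nx x).2
  set a := κ.h x.2 with ha
  set b := κ.h (κ.nx x).2 with hb
  have ea : ‖g x‖ = a * ‖g x / a‖ := by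
    rw [norm_div, Complex.norm_real, Real.norm_of_nonneg hx0.le]
    field_simp
  have eb : ‖g (κ.nx x)‖ = b * ‖g (κ.nx x) / b‖ := by
    rw [norm_div, Complex.norm_real, Real.norm_of_nonneg hy0.le]
    field_simp
  have h2 : ‖g x / a‖ ≤ ‖g (κ.nx x) / b‖ + ‖g x / a - g (κ.nx x) / b‖ := by
    have := norm_add_le (g (κ.nx x) / b) (g x / a - g (κ.nx x) / b)
    rwa [add_sub_cancel] at this
  have h3 : hs_e κ g x = a * b * ‖g x / a - g (κ.nx x) / b‖ ^ 2 := rfl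
  rw [h3, ea, eb]
  set P := ‖g x / a‖
  set Q := ‖g (κ.nx x) / b‖
  set R := ‖g x / a - g (κ.nx x) / b‖
  have hP : 0 ≤ P := norm_nonneg _
  have hQ : 0 ≤ Q := norm_nonneg _
  have hR : 0 ≤ R := norm_nonneg _
  have h4 : P ^ 2 ≤ 2 * Q ^ 2 + 2 * R ^ 2 := by
    have : P ^ 2 ≤ (Q + R) ^ 2 := pow_le_pow_left₀ hP h2 2
    nlinarith [sq_nonneg (Q - R)]
  have h5 : a ^ 2 ≤ 9 * (a * b) := by nlinarith
  have h6 : a ^ 2 ≤ 81 * b ^ 2 := by nlinarith
  calc (a * P) ^ 2 = a ^ 2 * P ^ 2 := by ring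
    _ ≤ a ^ 2 * (2 * Q ^ 2 + 2 * R ^ 2) := mul_le_mul_of_nonneg_left h4 (sq_nonneg a)
    _ = 2 * (a ^ 2 * Q ^ 2) + 2 * (a ^ 2 * R ^ 2) := by ring
    _ ≤ 2 * (81 * b ^ 2 * Q ^ 2) + 2 * (9 * (a * b) * R ^ 2) := by
        have h7 := mul_le_mul_of_nonneg_right h6 (sq_nonneg Q)
        have h8 := mul_le_mul_of_nonneg_right h5 (sq_nonneg R)
        linarith
    _ = 162 * (b * Q) ^ 2 + 18 * (a * b * R ^ 2) := by ring

/-- Hardy inequality. Put `λ = 1/576`, `γ = g / h`, `E = ∑_{x alive} h x h (nx x) ‖γ x - γ (nx x)‖²`.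
(1) `q z E ≤ EF g`: the ordered pairs `(x, nx x)` and `(nx x, x)`, `x` alive, are pairwise different (their
lengths decrease resp. increase, `nx_len`), `Fx ≥ q z` on them (`nx_step`, symmetry), the terms `ef` of the two
pairs are equal, each `≥ 1/2 q z h h ‖..‖²`.
(2) For `x` alive: `h x ≤ 9 h (nx x)` (`harnack`, `Fx x (nx x) ≥ q z`, `x ≠ nx x` by `nx_len`), so
`‖g x‖² = h x² ‖γ x‖² ≤ 2 h x² ‖γ (nx x)‖² + 2 h x² ‖γ x - γ (nx x)‖²
 ≤ 162 ‖g (nx x)‖² + 18 h x h (nx x) ‖γ x - γ (nx x)‖²`.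
(3) Multiply by `λ ^ len x = λ · λ ^ len (nx x)` and sum over the alive `x`; with `S = ∑ λ ^ len x ‖g x‖²` (finite
as `g` is square summable; `g = 0` at the dead states): every alive `y` is `nx x` for at most three `x`
(`nx_card`), dead `y` contribute zero: `S ≤ 486 λ S + 18 λ E`. So `S ≤ 18 E / (576 - 486) = E / 5`. -/
theorem Ok.hardy_sum (hκ : κ.Ok) (g : EE I) (hv : κ.Van g) :
    (Summable fun x => (1 / 576 : ℝ) ^ κ.len x * ‖g x‖ ^ 2) ∧
    κ.z * ∑' x, (1 / 576 : ℝ) ^ κ.len x * ‖g x‖ ^ 2 ≤ κ.EF g := by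
  classical
  have hq := hκ.hs_q
  have hz := hκ.z_pos
  have hqz : 0 < κ.q * κ.z := by positivity
  have hsq : Summable fun x => ‖g x‖ ^ 2 := by
    have h1 := (lp.memℓp g).summable (by norm_num)
    simpa using h1
  have hsum : Summable fun x => (1 / 576 : ℝ) ^ κ.len x * ‖g x‖ ^ 2 := by
    refine Summable.of_nonneg_of_le (fun x => by positivity) (fun x => ?_) hsq
    have h1 : (1 / 576 : ℝ) ^ κ.len x ≤ 1 := pow_le_one₀ (by norm_num) (by norm_num)
    have h2 := mul_le_mul_of_nonneg_right h1 (sq_nonneg ‖g x‖)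
    linarith
  refine ⟨hsum, ?_⟩
  set a : XX I → ℝ := fun x => (1 / 576 : ℝ) ^ κ.len x * ‖g x‖ ^ 2 with ha
  have ha0 : ∀ x, 0 ≤ a x := fun x => by
    rw [ha]
    positivity
  set S := ∑' x, a x with hS
  have hfin := hκ.fin_E g
  have hEF := hκ.EF_nn g
  -- sums over the next states
  have hnx : ∀ u : Finset (XX I), (∀ x ∈ u, κ.Al x) → ∑ x ∈ u, a (κ.nx x) ≤ 3 * S := by
    intro u hu
    rw [Finset.sum_comp a κ.nx]
    have h1 : ∀ y ∈ u.image κ.nx, (u.filter fun x => κ.nx x = y).card • a y ≤ 3 * a y := by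
      intro y _
      by_cases hy : κ.Al y
      · obtain ⟨s, hs, hs'⟩ := hκ.nx_card y hy
        have h2 : (u.filter fun x => κ.nx x = y).card ≤ 3 := by
          refine (Finset.card_le_card fun x hx => ?_).trans hs
          obtain ⟨hx1, hx2⟩ := Finset.mem_filter.mp hx
          exact hs' x (hu x hx1) hx2
        rw [nsmul_eq_mul]
        refine mul_le_mul_of_nonneg_right ?_ (ha0 y)
        exact_mod_cast h2
      · have h2 : a y = 0 := by
          rw [ha]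
          simp [hv y hy]
        rw [h2]
        simp
    refine (Finset.sum_le_sum h1).trans ?_
    rw [← Finset.mul_sum]
    exact mul_le_mul_of_nonneg_left (hsum.sum_le_tsum _ fun y _ => ha0 y) (by norm_num)
  -- partial sums
  have hpart : ∀ u : Finset (XX I),
      ∑ x ∈ u, a x ≤ 486 / 576 * S + 18 / 576 * (κ.EF g / (κ.q * κ.z)) := by
    intro u
    have h1 : ∑ x ∈ u, a x = ∑ x ∈ u.filter κ.Al, a x := by
      rw [Finset.sum_filter]
      refine Finset.sum_congr rfl fun x _ => ?_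
      split_ifs with h
      · rfl
      · rw [ha]
        simp [hv x h]
    have h2 : ∀ x ∈ u.filter κ.Al, a x ≤ 162 / 576 * a (κ.nx x) + 18 / 576 * hs_e κ g x := by
      intro x hx
      have hx' := (Finset.mem_filter.mp hx).2
      have h3 := hκ.hs_step g hx'
      have h4 := hκ.hs_e_nn g x
      have h5 : (1 / 576 : ℝ) ^ κ.len x = 1 / 576 * (1 / 576) ^ κ.len (κ.nx x) := by
        rw [← hκ.nx_len x hx', pow_succ]
        ring
      have h6 : (0 : ℝ) ≤ (1 / 576) ^ κ.len (κ.nx x) := by positivity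
      have h7 : (1 / 576 : ℝ) ^ κ.len (κ.nx x) ≤ 1 := pow_le_one₀ (by norm_num) (by norm_num)
      change (1 / 576 : ℝ) ^ κ.len x * ‖g x‖ ^ 2 ≤
        162 / 576 * ((1 / 576 : ℝ) ^ κ.len (κ.nx x) * ‖g (κ.nx x)‖ ^ 2) + 18 / 576 * hs_e κ g x
      rw [h5]
      have h8 := mul_le_mul_of_nonneg_left h3 h6
      have h9 := mul_le_mul_of_nonneg_right h7 h4
      nlinarith
    have hal : ∀ x ∈ u.filter κ.Al, κ.Al x := fun x hx => (Finset.mem_filter.mp hx).2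
    have h3 := hnx (u.filter κ.Al) hal
    have h4 := hκ.hs_energy hfin (u.filter κ.Al) hal
    have h5 : ∑ x ∈ u.filter κ.Al, hs_e κ g x ≤ κ.EF g / (κ.q * κ.z) := by
      rw [le_div_iff₀ hqz]
      linarith
    rw [h1]
    refine (Finset.sum_le_sum h2).trans ?_
    rw [Finset.sum_add_distrib, ← Finset.mul_sum, ← Finset.mul_sum]
    linarith
  have hS1 : S ≤ 486 / 576 * S + 18 / 576 * (κ.EF g / (κ.q * κ.z)) :=
    Real.tsum_le_of_sum_le ha0 hpart
  have hS2 : S ≤ κ.EF g / (κ.q * κ.z) / 5 := by linarith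
  have hS3 : κ.q * κ.z * S ≤ κ.EF g / 5 := by
    have h1 := mul_le_mul_of_nonneg_left hS2 hqz.le
    have h2 : κ.q * κ.z * (κ.EF g / (κ.q * κ.z) / 5) = κ.EF g / 5 := by
      field_simp
    linarith
  have hS0 : 0 ≤ S := tsum_nonneg ha0
  have h1 : 1 / 2 * (κ.z * S) ≤ κ.q * (κ.z * S) :=
    mul_le_mul_of_nonneg_right hq (mul_nonneg hz.le hS0)
  have h2 : κ.q * (κ.z * S) = κ.q * κ.z * S := by ring
  linarith

end Slb

end Pool.Agent.KSlab
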