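import Pool.Agent.KSlab.CTb
import Pool.Agent.KSlab.Flux

/-! SL20: summation by parts for the critical measure. -/

set_option autoImplicit false

open Set Filter Topology

namespace Pool.Agent.KSlab

namespace Slb

variable {I : Type} [Fintype I] {κ : Slb I} {m : XX I → ℝ}

/-- The differences in the direction of the displacement at `i₀`. -/
noncomputable def pd (κ : Slb I) (m : XX I → ℝ) (i₀ : I) (u : ℤ) : ℝ :=
  κ.gam m (u + 1, i₀) - κ.gam m (u, i₀)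

/-- The internal differences. -/
noncomputable def dd (κ : Slb I) (m : XX I → ℝ) (i₀ : I) (x : XX I) : ℝ :=
  κ.gam m x - κ.gam m (x.1, i₀)

omit [Fintype I] in
private theorem norm_gam (m : XX I → ℝ) (x y : XX I) :
    ‖((m x : ℝ) : ℂ) / ((κ.h x.2 : ℝ) : ℂ) - ((m y : ℝ) : ℂ) / ((κ.h y.2 : ℝ) : ℂ)‖ ^ 2 =
      (κ.gam m x - κ.gam m y) ^ 2 := by
  have h1 : ((m x : ℝ) : ℂ) / ((κ.h x.2 : ℝ) : ℂ) - ((m y : ℝ) : ℂ) / ((κ.h y.2 : ℝ) : ℂ) =
      ((κ.gam m x - κ.gam m y : ℝ) : ℂ) := by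
    unfold gam
    push_cast
    ring
  rw [h1, Complex.norm_real, Real.norm_eq_abs, sq_abs]

/-- By `IsM.fin`, `low_x`, `low_i`. -/
theorem Ok.pd_summable (hκ : κ.Ok) (hm : κ.IsM m) (i₀ : I) :
    (Summable fun u => κ.pd m i₀ u ^ 2) ∧ Summable fun x => κ.dd m i₀ x ^ 2 := by
  obtain ⟨C₁, -, h₁⟩ := hκ.low_x
  obtain ⟨C₂, -, h₂⟩ := hκ.low_i
  constructor
  · refine (h₁ _ hm.fin i₀).1.congr fun u => ?_
    exact norm_gam m ((u + 1, i₀) : XX I) (u, i₀)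
  · have h3 : ∀ i : I, Summable fun u : ℤ => κ.dd m i₀ (u, i) ^ 2 := by
      intro i
      refine (h₂ _ hm.fin i i₀).1.congr fun u => ?_
      exact norm_gam m ((u, i) : XX I) (u, i₀)
    rw [summable_prod_of_nonneg (fun x => sq_nonneg _)]
    refine ⟨fun u => Summable.of_finite, ?_⟩
    simp only [tsum_fintype]
    exact summable_sum fun i _ => h3 i

private theorem tel_nat (f : ℤ → ℝ) (a : ℤ) (n : ℕ) :
    ∑ v ∈ Finset.Ico a (a + n), (f (v + 1) - f v) = f (a + n) - f a := by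
  induction n with
  | zero => simp
  | succ n ih =>
    have h1 : Finset.Ico a (a + (n + 1 : ℕ)) = insert (a + n) (Finset.Ico a (a + n)) := by
      ext v
      simp only [Finset.mem_Ico, Finset.mem_insert, Nat.cast_add, Nat.cast_one]
      omega
    rw [h1, Finset.sum_insert (by simp), ih]
    push_cast
    rw [← add_assoc]
    ring

private theorem tel (f : ℤ → ℝ) (a b : ℤ) :
    ∑ v ∈ Finset.Ico a b, (f (v + 1) - f v) - ∑ v ∈ Finset.Ico b a, (f (v + 1) - f v) =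
      f b - f a := by
  rcases le_total a b with h | h
  · obtain ⟨n, hn⟩ := Int.eq_ofNat_of_zero_le (sub_nonneg.2 h)
    have h1 : b = a + n := by
      have : b - a = (n : ℤ) := hn
      omega
    rw [Finset.Ico_eq_empty (not_lt.2 h), Finset.sum_empty, sub_zero, h1, tel_nat]
  · obtain ⟨n, hn⟩ := Int.eq_ofNat_of_zero_le (sub_nonneg.2 h)
    have h1 : a = b + n := by
      have : a - b = (n : ℤ) := hn
      omega
    rw [Finset.Ico_eq_empty (not_lt.2 h), Finset.sum_empty, zero_sub, h1, tel_nat]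
    ring

/-- Telescoping. -/
theorem ll_gam (i₀ : I) (x y : XX I) :
    LL (κ.pd m i₀) (κ.dd m i₀) x y = κ.gam m y - κ.gam m x := by
  have h1 := tel (fun u => κ.gam m (u, i₀)) x.1 y.1
  unfold LL pd dd
  rw [h1]
  ring

private theorem sq_sum_abs {ι : Type} {a b : ι → ℝ} (ha : Summable fun i => a i ^ 2)
    (hb : Summable fun i => b i ^ 2) : Summable fun i => (|a i| + |b i|) ^ 2 := by
  refine Summable.of_nonneg_of_le (fun i => sq_nonneg _) (fun i => ?_)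
    ((ha.mul_left 2).add (hb.mul_left 2))
  have h1 := sq_abs (a i)
  have h2 := sq_abs (b i)
  nlinarith [sq_nonneg (|a i| - |b i|)]

private theorem Ok.wp_nn (hκ : κ.Ok) (e : XX I × XX I) : 0 ≤ κ.wp e :=
  mul_nonneg (mul_nonneg (hκ.Fx_prop _ _).1 (hκ.h_pos _).le) (hκ.h_pos _).le

private theorem Ok.wp_swap (hκ : κ.Ok) (e : XX I × XX I) : κ.wp e.swap = κ.wp e := by
  unfold wp
  rw [Prod.fst_swap, Prod.snd_swap, (hκ.Fx_prop e.2 e.1).2]
  ring

/-- **Summation by parts.** For `P`, `Δ` square summable (for example `W² pd`, `W² dd` with `W` bounded):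
`1/2 ∑ wp (γ y - γ x) (Δ y - Δ x) = ∑_x Δ x ∑_y wp (γ x - γ y) = ∑_x Δ x h x nu x` (symmetry of `wp`, `nu_eq`), and
`1/2 ∑ wp (γ y - γ x) (∑_{Ico x y} P - ∑_{Ico y x} P) = ∑_{x.1 < y.1} wp (γ y - γ x) ∑_{x.1 ≤ v < y.1} P v
= ∑_v P v Fl v`. All sums converge absolutely by `ll_sum` (applied to `(pd, dd)` and to `(P, Δ)`,
`a b ≤ a² + b²`), `ll_gam`. -/
theorem Ok.ibp (hκ : κ.Ok) (hm : κ.IsM m) (i₀ : I) (P : ℤ → ℝ) (Δ : XX I → ℝ)
    (hP : Summable fun u => P u ^ 2) (hΔ : Summable fun x => Δ x ^ 2) :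
    (Summable fun u => P u * κ.Fl m u) ∧ (Summable fun x => Δ x * (κ.h x.2 * κ.nu m x)) ∧
    ∑' e : XX I × XX I, 1 / 2 * κ.wp e * (LL (κ.pd m i₀) (κ.dd m i₀) e.1 e.2 * LL P Δ e.1 e.2) =
      ∑' u, P u * κ.Fl m u + ∑' x, Δ x * (κ.h x.2 * κ.nu m x) := by
  classical
  obtain ⟨hpd, hdd⟩ := hκ.pd_summable hm i₀
  obtain ⟨C, -, hC⟩ := hκ.ll_sum
  obtain ⟨T, hT⟩ : ∃ T : XX I × XX I → ℝ, ∀ e, T e = κ.wp e * (κ.gam m e.2 - κ.gam m e.1) :=
    ⟨_, fun _ => rfl⟩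
  -- the dominating function
  obtain ⟨A, hA⟩ : ∃ A : XX I × XX I → ℝ, ∀ e, A e =
      (|κ.dd m i₀ e.1| + |Δ e.1|) + (|κ.dd m i₀ e.2| + |Δ e.2|) +
        ∑ v ∈ Finset.Ico e.1.1 e.2.1, (|κ.pd m i₀ v| + |P v|) +
        ∑ v ∈ Finset.Ico e.2.1 e.1.1, (|κ.pd m i₀ v| + |P v|) := ⟨_, fun _ => rfl⟩
  have hsA : Summable fun e => κ.wp e * A e ^ 2 := by
    have h1 := (hC (fun v => |κ.pd m i₀ v| + |P v|) (fun x => |κ.dd m i₀ x| + |Δ x|)
      (sq_sum_abs hpd hP) (sq_sum_abs hdd hΔ)).1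
    refine Summable.of_nonneg_of_le (fun e => mul_nonneg (hκ.wp_nn e) (sq_nonneg _))
      (fun e => ?_) h1
    have h2 : ∀ v, |(|κ.pd m i₀ v| + |P v|)| = |κ.pd m i₀ v| + |P v| := fun v =>
      abs_of_nonneg (by positivity)
    have h3 : ∀ x, |(|κ.dd m i₀ x| + |Δ x|)| = |κ.dd m i₀ x| + |Δ x| := fun x =>
      abs_of_nonneg (by positivity)
    simp only [h2, h3, hA]
    refine mul_le_mul_of_nonneg_right ?_ (sq_nonneg _)
    exact le_mul_of_one_le_right (hκ.wp_nn e) (one_le_pow₀ (by norm_num))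
  have q0 : ∀ (s : Finset ℤ), 0 ≤ ∑ v ∈ s, |κ.pd m i₀ v| := fun s =>
    Finset.sum_nonneg fun _ _ => abs_nonneg _
  have q1 : ∀ (s : Finset ℤ), 0 ≤ ∑ v ∈ s, |P v| := fun s =>
    Finset.sum_nonneg fun _ _ => abs_nonneg _
  have q2 : ∀ (s : Finset ℤ) (f : ℤ → ℝ), |∑ v ∈ s, f v| ≤ ∑ v ∈ s, |f v| := fun s f =>
    Finset.abs_sum_le_sum_abs _ _
  have hA' : ∀ e, A e = |κ.dd m i₀ e.1| + |Δ e.1| + (|κ.dd m i₀ e.2| + |Δ e.2|) +
      (∑ v ∈ Finset.Ico e.1.1 e.2.1, |κ.pd m i₀ v| + ∑ v ∈ Finset.Ico e.1.1 e.2.1, |P v|) +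
      (∑ v ∈ Finset.Ico e.2.1 e.1.1, |κ.pd m i₀ v| + ∑ v ∈ Finset.Ico e.2.1 e.1.1, |P v|) := by
    intro e
    rw [hA, Finset.sum_add_distrib, Finset.sum_add_distrib]
  have hA0 : ∀ e, 0 ≤ A e := by
    intro e
    rw [hA']
    have := q0 (Finset.Ico e.1.1 e.2.1)
    have := q0 (Finset.Ico e.2.1 e.1.1)
    have := q1 (Finset.Ico e.1.1 e.2.1)
    have := q1 (Finset.Ico e.2.1 e.1.1)
    positivity
  have hgA : ∀ e : XX I × XX I, |κ.gam m e.2 - κ.gam m e.1| ≤ A e := by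
    intro e
    rw [← ll_gam i₀, hA']
    unfold LL
    have a1 := q2 (Finset.Ico e.1.1 e.2.1) (κ.pd m i₀)
    have a2 := q2 (Finset.Ico e.2.1 e.1.1) (κ.pd m i₀)
    have a3 := q1 (Finset.Ico e.1.1 e.2.1)
    have a4 := q1 (Finset.Ico e.2.1 e.1.1)
    have a5 := abs_nonneg (Δ e.1)
    have a6 := abs_nonneg (Δ e.2)
    have b1 := abs_add_le (κ.dd m i₀ e.2 - κ.dd m i₀ e.1)
      (∑ v ∈ Finset.Ico e.1.1 e.2.1, κ.pd m i₀ v - ∑ v ∈ Finset.Ico e.2.1 e.1.1, κ.pd m i₀ v)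
    have b2 := abs_sub (κ.dd m i₀ e.2) (κ.dd m i₀ e.1)
    have b3 := abs_sub (∑ v ∈ Finset.Ico e.1.1 e.2.1, κ.pd m i₀ v)
      (∑ v ∈ Finset.Ico e.2.1 e.1.1, κ.pd m i₀ v)
    linarith
  have hkey : ∀ a : XX I × XX I → ℝ, (∀ e, |a e| ≤ A e) → Summable fun e => T e * a e := by
    intro a ha
    refine Summable.of_norm_bounded hsA fun e => ?_
    rw [hT, Real.norm_eq_abs, abs_mul, abs_mul, abs_of_nonneg (hκ.wp_nn e), mul_assoc, sq]
    exact mul_le_mul_of_nonneg_left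
      (mul_le_mul (hgA e) (ha e) (abs_nonneg _) (hA0 e)) (hκ.wp_nn e)
  have hTs : ∀ e : XX I × XX I, T e.swap = -T e := by
    intro e
    rw [hT, hT, hκ.wp_swap, Prod.fst_swap, Prod.snd_swap]
    ring
  -- the bounds
  have c1 : ∀ e : XX I × XX I, |Δ e.1| ≤ A e := by
    intro e
    rw [hA']
    have := q0 (Finset.Ico e.1.1 e.2.1)
    have := q0 (Finset.Ico e.2.1 e.1.1)
    have := q1 (Finset.Ico e.1.1 e.2.1)
    have := q1 (Finset.Ico e.2.1 e.1.1)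
    have := abs_nonneg (κ.dd m i₀ e.1)
    have := abs_nonneg (κ.dd m i₀ e.2)
    have := abs_nonneg (Δ e.2)
    linarith
  have c2 : ∀ e : XX I × XX I, |Δ e.2| ≤ A e := by
    intro e
    rw [hA']
    have := q0 (Finset.Ico e.1.1 e.2.1)
    have := q0 (Finset.Ico e.2.1 e.1.1)
    have := q1 (Finset.Ico e.1.1 e.2.1)
    have := q1 (Finset.Ico e.2.1 e.1.1)
    have := abs_nonneg (κ.dd m i₀ e.1)
    have := abs_nonneg (κ.dd m i₀ e.2)
    have := abs_nonneg (Δ e.1)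
    linarith
  have c3 : ∀ e : XX I × XX I, ∑ v ∈ Finset.Ico e.1.1 e.2.1, |P v| ≤ A e := by
    intro e
    rw [hA']
    have := q0 (Finset.Ico e.1.1 e.2.1)
    have := q0 (Finset.Ico e.2.1 e.1.1)
    have := q1 (Finset.Ico e.2.1 e.1.1)
    have := abs_nonneg (κ.dd m i₀ e.1)
    have := abs_nonneg (κ.dd m i₀ e.2)
    have := abs_nonneg (Δ e.1)
    have := abs_nonneg (Δ e.2)
    linarith
  have c4 : ∀ e : XX I × XX I, ∑ v ∈ Finset.Ico e.2.1 e.1.1, |P v| ≤ A e := by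
    intro e
    rw [hA']
    have := q0 (Finset.Ico e.1.1 e.2.1)
    have := q0 (Finset.Ico e.2.1 e.1.1)
    have := q1 (Finset.Ico e.1.1 e.2.1)
    have := abs_nonneg (κ.dd m i₀ e.1)
    have := abs_nonneg (κ.dd m i₀ e.2)
    have := abs_nonneg (Δ e.1)
    have := abs_nonneg (Δ e.2)
    linarith
  have s1 : Summable fun e => T e * Δ e.1 := hkey _ c1
  have s2 : Summable fun e => T e * Δ e.2 := hkey _ c2
  have s3 : Summable fun e => T e * ∑ v ∈ Finset.Ico e.1.1 e.2.1, P v :=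
    hkey _ fun e => (q2 _ _).trans (c3 e)
  have s4 : Summable fun e => T e * ∑ v ∈ Finset.Ico e.2.1 e.1.1, P v :=
    hkey _ fun e => (q2 _ _).trans (c4 e)
  have s5 : Summable fun e => T e * ∑ v ∈ Finset.Ico e.1.1 e.2.1, |P v| :=
    hkey _ fun e => by rw [abs_of_nonneg (q1 _)]; exact c3 e
  -- the exchange of the two states
  have e1 : ∑' e, T e * Δ e.2 = -∑' e, T e * Δ e.1 := by
    rw [← (Equiv.prodComm (XX I) (XX I)).tsum_eq, ← tsum_neg]
    refine tsum_congr fun e => ?_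
    simp only [Equiv.prodComm_apply, Prod.snd_swap, hTs]
    ring
  have e2 : ∑' e, T e * ∑ v ∈ Finset.Ico e.2.1 e.1.1, P v =
      -∑' e, T e * ∑ v ∈ Finset.Ico e.1.1 e.2.1, P v := by
    rw [← (Equiv.prodComm (XX I) (XX I)).tsum_eq, ← tsum_neg]
    refine tsum_congr fun e => ?_
    simp only [Equiv.prodComm_apply, Prod.snd_swap, Prod.fst_swap, hTs]
    ring
  -- the sources
  have d1 : ∀ x : XX I, ∑' y, T (x, y) * Δ x = -(Δ x * (κ.h x.2 * κ.nu m x)) := by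
    intro x
    obtain ⟨h1, h2⟩ := hκ.nu_eq hm x
    rw [h2, ← tsum_mul_left, ← tsum_neg]
    refine tsum_congr fun y => ?_
    rw [hT]
    unfold wp
    simp only
    ring
  have d2 : Summable fun x : XX I => Δ x * (κ.h x.2 * κ.nu m x) := by
    have h1 := s1.prod.neg
    refine h1.congr fun x => ?_
    rw [d1 x, neg_neg]
  have d3 : ∑' e, T e * Δ e.1 = -∑' x, Δ x * (κ.h x.2 * κ.nu m x) := by
    rw [s1.tsum_prod, ← tsum_neg]
    exact tsum_congr d1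
  -- the flux
  obtain ⟨F, hF⟩ : ∃ F : (XX I × XX I) × ℤ → ℝ, ∀ p, F p =
      if p.1.1.1 ≤ p.2 ∧ p.2 < p.1.2.1 then T p.1 * P p.2 else 0 := ⟨_, fun _ => rfl⟩
  have f0 : ∀ (e : XX I × XX I) (v : ℤ), v ∉ Finset.Ico e.1.1 e.2.1 → F (e, v) = 0 := by
    intro e v hv
    rw [hF, if_neg]
    intro h
    exact hv (Finset.mem_Ico.2 h)
  have f1 : ∀ (e : XX I × XX I) (v : ℤ), v ∈ Finset.Ico e.1.1 e.2.1 → F (e, v) = T e * P v := by
    intro e v hv
    rw [hF, if_pos (Finset.mem_Ico.1 hv)]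
  have f2 : Summable F := by
    refine Summable.of_norm ?_
    rw [summable_prod_of_nonneg (fun _ => norm_nonneg _)]
    constructor
    · intro e
      refine summable_of_ne_finset_zero (s := Finset.Ico e.1.1 e.2.1) fun v hv => ?_
      rw [f0 e v hv, norm_zero]
    · refine s5.norm.congr fun e => ?_
      rw [tsum_eq_sum (s := Finset.Ico e.1.1 e.2.1) fun v hv => by rw [f0 e v hv, norm_zero],
        norm_mul, Real.norm_of_nonneg (q1 _), Finset.mul_sum]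
      refine Finset.sum_congr rfl fun v hv => ?_
      rw [f1 e v hv, norm_mul, Real.norm_eq_abs (P v)]
  have f3 : ∀ e, ∑' v, F (e, v) = T e * ∑ v ∈ Finset.Ico e.1.1 e.2.1, P v := by
    intro e
    rw [tsum_eq_sum (s := Finset.Ico e.1.1 e.2.1) fun v hv => f0 e v hv, Finset.mul_sum]
    exact Finset.sum_congr rfl fun v hv => f1 e v hv
  have f4 : Summable fun p : ℤ × (XX I × XX I) => F (p.2, p.1) := f2.prod_symm
  have f5 : ∀ v : ℤ, ∑' e, F (e, v) = P v * κ.Fl m v := by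
    intro v
    unfold Fl
    rw [← tsum_mul_left]
    refine tsum_congr fun e => ?_
    rw [hF]
    simp only
    split_ifs
    · rw [hT]
      unfold wp
      ring
    · rw [mul_zero]
  have f6 : Summable fun v : ℤ => P v * κ.Fl m v := f4.prod.congr fun v => f5 v
  have f7 : ∑' v : ℤ, P v * κ.Fl m v = ∑' e, T e * ∑ v ∈ Finset.Ico e.1.1 e.2.1, P v := by
    rw [← tsum_congr f5, ← tsum_congr f3]
    exact (Summable.tsum_comm (f := fun (v : ℤ) (e : XX I × XX I) => F (e, v)) f4).symm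
  refine ⟨f6, d2, ?_⟩
  have g1 : ∀ e : XX I × XX I, 1 / 2 * κ.wp e *
      (LL (κ.pd m i₀) (κ.dd m i₀) e.1 e.2 * LL P Δ e.1 e.2) =
      1 / 2 * (T e * Δ e.2 - T e * Δ e.1 + (T e * ∑ v ∈ Finset.Ico e.1.1 e.2.1, P v -
        T e * ∑ v ∈ Finset.Ico e.2.1 e.1.1, P v)) := by
    intro e
    rw [ll_gam, hT]
    unfold LL
    ring
  rw [tsum_congr g1, tsum_mul_left, (s2.sub s1).tsum_add (s3.sub s4), s2.tsum_sub s1,
    s3.tsum_sub s4, e1, e2, f7, d3]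
  ring

end Slb

end Pool.Agent.KSlab
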