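import Mathlib

/-! SL3: coercive operators on a complex Hilbert space are invertible; analytic families. -/

set_option autoImplicit false

open Complex Set Filter Topology

namespace Pool.Agent.KSlab

variable {H : Type} [NormedAddCommGroup H] [InnerProductSpace ℂ H] [CompleteSpace H]

/-- Proof: `c ‖g‖ ≤ ‖T g‖` (Cauchy-Schwarz), so `T` is injective with closed range
(`AntilipschitzWith.isClosed_range`); a vector `g` orthogonal to the range satisfies
`⟪g, T g⟫ = 0`, so it is zero, so the range is everything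
(`Submodule.orthogonal_eq_bot_iff`). Then `ContinuousLinearEquiv.ofBijective`. -/
theorem isUnit_of_coercive (T : H →L[ℂ] H) {c : ℝ} (hc : 0 < c)
    (h : ∀ g, c * ‖g‖ ^ 2 ≤ ‖inner ℂ g (T g)‖) :
    IsUnit T ∧ ∀ g, ‖Ring.inverse T g‖ ≤ c⁻¹ * ‖g‖ := by
  have h1 : ∀ g, c * ‖g‖ ≤ ‖T g‖ := by
    intro g
    by_cases hg : g = 0
    · simp [hg]
    have h2 : 0 < ‖g‖ := norm_pos_iff.2 hg
    have h3 := (h g).trans (norm_inner_le_norm g (T g))
    have h4 : ‖g‖ * (c * ‖g‖) ≤ ‖g‖ * ‖T g‖ := by nlinarith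
    exact le_of_mul_le_mul_left h4 h2
  have h2 : ∀ g, ‖g‖ ≤ c⁻¹ * ‖T g‖ := by
    intro g
    rw [← div_eq_inv_mul, le_div_iff₀ hc, mul_comm]
    exact h1 g
  have hanti : AntilipschitzWith ⟨c⁻¹, (inv_pos.2 hc).le⟩ T :=
    AddMonoidHomClass.antilipschitz_of_bound T fun g => h2 g
  have hcl : IsClosed (Set.range T) := hanti.isClosed_range T.uniformContinuous
  have hsurj : LinearMap.range (T : H →ₗ[ℂ] H) = ⊤ := by
    have hc2 : IsClosed ((LinearMap.range (T : H →ₗ[ℂ] H) : Submodule ℂ H) : Set H) := by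
      rw [LinearMap.coe_range]
      exact hcl
    have : CompleteSpace (LinearMap.range (T : H →ₗ[ℂ] H)) := hc2.completeSpace_coe
    rw [← Submodule.orthogonal_eq_bot_iff, Submodule.eq_bot_iff]
    intro g hg
    rw [Submodule.mem_orthogonal'] at hg
    have h3 : inner ℂ g (T g) = 0 := hg (T g) ⟨g, rfl⟩
    have h4 := h g
    rw [h3, norm_zero] at h4
    have h5 : ‖g‖ ^ 2 ≤ 0 := by
      by_contra hcon
      push Not at hcon
      nlinarith [mul_pos hc hcon]
    have h6 : ‖g‖ = 0 := by nlinarith [norm_nonneg g, sq_nonneg ‖g‖]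
    exact norm_eq_zero.1 h6
  have hbij : Function.Bijective T := by
    refine ⟨hanti.injective, fun y => ?_⟩
    have : y ∈ LinearMap.range (T : H →ₗ[ℂ] H) := by
      rw [hsurj]
      exact Submodule.mem_top
    exact this
  have hu : IsUnit T := ContinuousLinearMap.isUnit_iff_bijective.2 hbij
  refine ⟨hu, fun g => ?_⟩
  have h3 : T (Ring.inverse T g) = g := by
    have h4 := Ring.mul_inverse_cancel T hu
    have h5 := congrArg (fun S : H →L[ℂ] H => S g) h4
    exact h5
  have h4 := h2 (Ring.inverse T g)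
  rwa [h3] at h4

theorem isOpen_isUnit {U : Set ℂ} (hU : IsOpen U) {T : ℂ → H →L[ℂ] H} (hT : ContinuousOn T U) :
    IsOpen {s | s ∈ U ∧ IsUnit (T s)} :=
  hT.isOpen_inter_preimage hU Units.isOpen

/-- `differentiableAt_inverse` composed with `T`. -/
theorem inverse_diff {U : Set ℂ} (hU : IsOpen U) {T : ℂ → H →L[ℂ] H}
    (hT : DifferentiableOn ℂ T U) (hu : ∀ s ∈ U, IsUnit (T s)) :
    DifferentiableOn ℂ (fun s => Ring.inverse (T s)) U := fun s hs =>
  (differentiableAt_inverse (𝕜 := ℂ) (hu s hs)).comp_differentiableWithinAt s (hT s hs)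

end Pool.Agent.KSlab
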