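import Pool.Agent.KSlab.SDefs

/-! SM2b: the grid is connected. -/

set_option autoImplicit false

namespace Pool.Agent.KSlab

variable {M : ℕ}

private theorem mcLine {T : Set (Fin (M + 1))} {a : Fin (M + 1)} (ha : a ∈ T)
    (h : ∀ i ∈ T, ∀ j : Fin (M + 1), ((i : ℕ) + 1 = j ∨ (j : ℕ) + 1 = i) → j ∈ T)
    (b : Fin (M + 1)) : b ∈ T := by
  have up : ∀ n : ℕ, ∀ b : Fin (M + 1), (b : ℕ) = a + n → b ∈ T := by
    intro n
    induction n with
    | zero =>
      intro b hb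
      have : b = a := Fin.ext (by omega)
      rwa [this]
    | succ n ih =>
      intro b hb
      have hlt := b.2
      exact h ⟨(a : ℕ) + n, by omega⟩ (ih _ rfl) b (Or.inl (by simp only; omega))
  have down : ∀ n : ℕ, ∀ b : Fin (M + 1), (b : ℕ) + n = a → b ∈ T := by
    intro n
    induction n with
    | zero =>
      intro b hb
      have : b = a := Fin.ext (by omega)
      rwa [this]
    | succ n ih =>
      intro b hb
      have hlt := a.2
      exact h ⟨(b : ℕ) + 1, by omega⟩ (ih _ (by simp only; omega)) b (Or.inr (by simp only))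
  rcases le_total (a : ℕ) b with hab | hab
  · exact up ((b : ℕ) - a) b (by omega)
  · exact down ((a : ℕ) - b) b (by omega)

/-- Paths in the grid. -/
theorem conn_II (S : Set (II M)) (hS : S.Nonempty)
    (h1 : ∀ i ∈ S, ∀ j : II M, i.2 = j.2 → ((i.1 : ℕ) + 1 = j.1 ∨ (j.1 : ℕ) + 1 = i.1) → j ∈ S)
    (h2 : ∀ i ∈ S, ∀ j : II M, i.1 = j.1 → ((i.2 : ℕ) + 1 = j.2 ∨ (j.2 : ℕ) + 1 = i.2) → j ∈ S) :
    S = Set.univ := by
  obtain ⟨⟨a, b⟩, hab⟩ := hS
  refine Set.eq_univ_of_forall ?_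
  rintro ⟨c, d⟩
  have hcb : (c, b) ∈ S := mcLine (T := {i | (i, b) ∈ S}) (a := a) hab
    (fun i hi j hj => h1 (i, b) hi (j, b) rfl hj) c
  exact mcLine (T := {i | (c, i) ∈ S}) (a := b) hcb
    (fun i hi j hj => h2 (c, i) hi (c, j) rfl hj) d

end Pool.Agent.KSlab
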