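import Pool.Agent.KSlab.MBasT
import Pool.Agent.KSlab.MConn

/-! SM2: the basic pairs in the slab. -/

set_option autoImplicit false

open Pool.Agent.LK
open scoped ENNReal

namespace Pool.Agent.KSlab

open Pool.Agent.KTube Pool.Agent.KRing Pool.Agent.KLog Pool.Agent.KCls
open Pool.Agent.KAsym (ln wtR wlR)

variable {T : Finset (Sym2 P3) → Prop} {M : ℕ} {y z : ℝ} {h : II M → ℝ}

private theorem geo_freeT {π : PP} (h : FreeT T π) : ∃ v, Geo v π := by
  obtain ⟨v, -, hv⟩ := h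
  exact ⟨v, hv.1⟩

private theorem wt_tsum_ne (hy : 0 < y) (hz : 0 < z) (hz1 : z ≤ 1 / 10 ^ 12)
    (hq : y * z ^ 2 ≤ 1) (Q : PP → Prop) (hQ : ∀ π, Q π → ∃ v, Geo v π) :
    ∑' π : {π : PP // Q π}, wt (ENNReal.ofReal y) (ENNReal.ofReal z) π.1 ≠ ⊤ := by
  have h1 := geo_fin hy hz hz1 hq
  refine ne_top_of_le_ne_top h1 ?_
  refine le_trans ?_ (ENNReal.tsum_comp_le_tsum_of_injective
    (f := fun π : {π : PP // Q π} => (⟨π.1, hQ π.1 π.2⟩ : {π : PP // ∃ v, Geo v π})) ?_ _)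
  · refine ENNReal.tsum_le_tsum fun π => ?_
    calc wt (ENNReal.ofReal y) (ENNReal.ofReal z) π.1
        = wt (ENNReal.ofReal y) (ENNReal.ofReal z) π.1 * 1 * 1 := by rw [mul_one, mul_one]
      _ ≤ _ := by
          refine mul_le_mul' (mul_le_mul' le_rfl ?_) ?_
          · exact one_le_pow₀ (by norm_num)
          · exact one_le_pow₀ (by norm_num)
  · intro a b hab
    have h2 := congrArg Subtype.val hab
    exact Subtype.ext h2

private theorem gn_ge (hy : 0 < y) (hz : 0 < z) (hz1 : z ≤ 1 / 10 ^ 12) (hq : y * z ^ 2 ≤ 1)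
    {P : PP → Prop} (hP : ∀ π, P π → ∃ v, Geo v π) {x x' : XX (II M)} {π : PP} (h1 : P π)
    (h2 : CX x x' π) {n : ℕ} (h3 : ln π = n) : wtR y z π ≤ gn y z P x x' n := by
  have h4 := wt_tsum_ne hy hz hz1 hq (fun π => P π ∧ CX x x' π ∧ ln π = n)
    (fun π h => hP π h.1)
  have h5 : ∑' π : {π : PP // P π ∧ CX x x' π ∧ ln π = n}, ENNReal.ofReal (wtR y z π.1) ≤
      ENNReal.ofReal (∑' π : {π : PP // P π ∧ CX x x' π ∧ ln π = n},
        wt (ENNReal.ofReal y) (ENNReal.ofReal z) π.1).toReal := by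
    rw [ENNReal.ofReal_toReal h4]
    exact ENNReal.tsum_le_tsum fun π => (wt_eq hy hz π.1).ge
  have h6 := (sum_of (fun π : {π : PP // P π ∧ CX x x' π ∧ ln π = n} => wtR_nn hy hz π.1)
    ENNReal.toReal_nonneg h5).1
  exact h6.le_tsum (⟨π, h1, h2, h3⟩ : {π : PP // P π ∧ CX x x' π ∧ ln π = n})
    fun π' _ => wtR_nn hy hz π'.1

private theorem ln_two {π : PP} (h : ln π < 3) : ln π = 2 ∧ π = ([], []) := by
  unfold ln at h ⊢
  have h1 : π.1.length = 0 := by omega
  have h2 : π.2.length = 0 := by omega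
  refine ⟨by omega, Prod.ext ?_ ?_⟩
  · exact List.length_eq_zero_iff.1 h1
  · exact List.length_eq_zero_iff.1 h2

private theorem wtR_nil (y z : ℝ) : wtR y z ([], []) = y * z ^ 2 := by
  simp [wtR, KLog.hgt, ln]

private theorem wtR_left (y z : ℝ) (k : Fin 4) : wtR y z ([st4 k], []) = y * z ^ 2 * z := by
  simp [wtR, KLog.hgt, ln, st4]
  ring

private theorem wtR_right (y z : ℝ) (k : Fin 4) : wtR y z ([], [st4 k]) = y * z ^ 2 * z := by
  simp [wtR, KLog.hgt, ln]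
  ring

private theorem cx_nil {x x' : XX (II M)} : CX x x' ([], []) ↔ x = x' := by
  obtain ⟨t, i1, i2⟩ := x
  obtain ⟨t', j1, j2⟩ := x'
  constructor
  · rintro ⟨h, h'⟩
    have e1 := h.eA
    have e2 := h.eB
    simp only [List.sum_nil, Prod.snd_zero, Prod.fst_zero, add_zero, Nat.cast_inj] at e1 e2
    have e3 : t = t' := by
      have : (dsp ([], []) : ℤ × ℤ).1 = 0 := by simp [dsp]
      simp only [this, add_zero] at h'
      exact h'
    have e4 : i1 = j1 := Fin.ext e1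
    have e5 : i2 = j2 := Fin.ext e2
    rw [e3, e4, e5]
  · rintro h
    rw [← h]
    refine ⟨⟨?_, ?_, ?_, ?_⟩, ?_⟩
    · intro p hp
      simp only [wk_nil, List.mem_singleton] at hp
      subst hp
      have := i1.isLt
      simp only
      omega
    · intro p hp
      simp only [wk_nil, List.mem_singleton] at hp
      subst hp
      have := i2.isLt
      simp only
      omega
    · simp
    · simp
    · simp [dsp]

private theorem cx_left {x x' : XX (II M)} {k : Fin 4} (h1 : x.1 - (e4 k).1 = x'.1)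
    (h2 : ((x.2.1 : ℕ) : ℤ) + (e4 k).2 = ((x'.2.1 : ℕ) : ℤ)) (h3 : x.2.2 = x'.2.2) :
    CX x x' ([st4 k], []) := by
  obtain ⟨t, i1, i2⟩ := x
  obtain ⟨t', j1, j2⟩ := x'
  simp only at h1 h2 h3
  have a1 := i1.isLt
  have a2 := i2.isLt
  have a3 := j1.isLt
  refine ⟨⟨?_, ?_, ?_, ?_⟩, ?_⟩
  · intro p hp
    simp only [wk_nil, wk_cons, List.mem_cons, List.not_mem_nil, or_false] at hp
    rcases hp with rfl | rfl
    · simp only
      omega
    · simp only [st4, Prod.mk_add_mk]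
      omega
  · intro p hp
    simp only [wk_nil, List.mem_singleton] at hp
    subst hp
    simp only
    omega
  · simp only [List.sum_cons, List.sum_nil, add_zero, st4]
    exact h2
  · simp [h3]
  · simp only [dsp, hz, List.sum_cons, List.sum_nil, add_zero, st4, Prod.fst_sub, Prod.fst_zero]
    omega

private theorem cx_right {x x' : XX (II M)} {k : Fin 4} (h1 : x.1 + (e4 k).1 = x'.1)
    (h2 : ((x.2.2 : ℕ) : ℤ) + (e4 k).2 = ((x'.2.2 : ℕ) : ℤ)) (h3 : x.2.1 = x'.2.1) :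
    CX x x' ([], [st4 k]) := by
  obtain ⟨t, i1, i2⟩ := x
  obtain ⟨t', j1, j2⟩ := x'
  simp only at h1 h2 h3
  have a1 := i1.isLt
  have a2 := i2.isLt
  have a3 := j2.isLt
  refine ⟨⟨?_, ?_, ?_, ?_⟩, ?_⟩
  · intro p hp
    simp only [wk_nil, List.mem_singleton] at hp
    subst hp
    simp only
    omega
  · intro p hp
    simp only [wk_nil, wk_cons, List.mem_cons, List.not_mem_nil, or_false] at hp
    rcases hp with rfl | rfl
    · simp only
      omega
    · simp only [st4, Prod.mk_add_mk]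
      omega
  · simp [h3]
  · simp only [List.sum_cons, List.sum_nil, add_zero, st4]
    exact h2
  · simp only [dsp, hz, List.sum_cons, List.sum_nil, add_zero, st4, Prod.fst_sub, Prod.fst_zero]
    omega

private theorem ge_left (hT : Cls T) (hy : 0 < y) (hz : 0 < z) (hz1 : z ≤ 1 / 10 ^ 12)
    (hq : y * z ^ 2 ≤ 1) {x x' : XX (II M)} (k : Fin 4) (h : CX x x' ([st4 k], [])) :
    y * z ^ 2 * z ≤ gn y z (FreeT T) x x' 3 := by
  have h1 : FreeT T ([st4 k], []) :=
    ((bas_free hT).2 (bas_free_iff.2 (Or.inr (Or.inl ⟨k, rfl⟩)))).2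
  have h2 := gn_ge hy hz hz1 hq (P := FreeT T) (fun _ => geo_freeT) h1 h (n := 3) rfl
  rwa [wtR_left] at h2

private theorem ge_right (hT : Cls T) (hy : 0 < y) (hz : 0 < z) (hz1 : z ≤ 1 / 10 ^ 12)
    (hq : y * z ^ 2 ≤ 1) {x x' : XX (II M)} (k : Fin 4) (h : CX x x' ([], [st4 k])) :
    y * z ^ 2 * z ≤ gn y z (FreeT T) x x' 3 := by
  have h1 : FreeT T ([], [st4 k]) :=
    ((bas_free hT).2 (bas_free_iff.2 (Or.inr (Or.inr ⟨k, rfl⟩)))).2
  have h2 := gn_ge hy hz hz1 hq (P := FreeT T) (fun _ => geo_freeT) h1 h (n := 3) rfl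
  rwa [wtR_right] at h2

open Classical in
private theorem gn_low (P : PP → Prop) (x x' : XX (II M)) (n : ℕ) (hn : n < 3) :
    gn y z P x x' n = if n = 2 ∧ x = x' ∧ P ([], []) then y * z ^ 2 else 0 := by
  unfold gn
  split_ifs with h
  · obtain ⟨h1, h2, h3⟩ := h
    have h4 : P ([], []) ∧ CX x x' ([], []) ∧ ln ([], []) = n := ⟨h3, cx_nil.2 h2, by
      rw [h1]; rfl⟩
    rw [tsum_eq_single (⟨([], []), h4⟩ : {π : PP // P π ∧ CX x x' π ∧ ln π = n})]
    · exact wtR_nil y z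
    · intro π hπ
      exfalso
      apply hπ
      refine Subtype.ext ?_
      have h5 : ln π.1 < 3 := by rw [π.2.2.2]; exact hn
      exact (ln_two h5).2
  · have h6 : IsEmpty {π : PP // P π ∧ CX x x' π ∧ ln π = n} := by
      refine ⟨fun π => h ?_⟩
      have h5 : ln π.1 < 3 := by rw [π.2.2.2]; exact hn
      obtain ⟨h7, h8⟩ := ln_two h5
      refine ⟨by rw [← h7, π.2.2.2], ?_, ?_⟩
      · have := π.2.2.1
        rw [h8] at this
        exact cx_nil.1 this
      · have := π.2.1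
        rwa [h8] at this
    exact tsum_empty

/-- `ln ≥ 2`, and the pair of size two is the pair of empty words; it is free (`bas_free`) and valid for every
`v ≠ 0` (`bas_valid`), its weight is `y z ^ 2`. -/
theorem f_low (hT : Cls T) (n : ℕ) (t : ℤ) (i j : II M) (hn : n < 3) :
    (slb T M y z h).f n t i j = if n = 2 ∧ t = 0 ∧ i = j then y * z ^ 2 else 0 := by
  have h1 : FreeT T ([], []) := ((bas_free hT).2 (bas_free_iff.2 (Or.inl rfl))).2
  have h2 := gn_low (y := y) (z := z) (FreeT T) ((0, i) : XX (II M)) (t, j) n hn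
  refine h2.trans ?_
  have h3 : (n = 2 ∧ ((0, i) : XX (II M)) = (t, j) ∧ FreeT T ([], [])) ↔
      (n = 2 ∧ t = 0 ∧ i = j) := by
    rw [Prod.mk.injEq]
    constructor
    · rintro ⟨a, ⟨b, c⟩, -⟩
      exact ⟨a, b.symm, c⟩
    · rintro ⟨a, b, c⟩
      exact ⟨a, ⟨b.symm, c⟩, h1⟩
  by_cases h4 : n = 2 ∧ t = 0 ∧ i = j
  · rw [if_pos h4, if_pos (h3.2 h4)]
  · rw [if_neg h4, if_neg (fun h5 => h4 (h3.1 h5))]

open Classical in
theorem k_low (hT : Cls T) (n : ℕ) (x x' : XX (II M)) (hn : n < 3) :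
    (slb T M y z h).k n x x' =
      if n = 2 ∧ x = x' ∧ (slb T M y z h).Al x then y * z ^ 2 else 0 := by
  have h1 : ValidT T (vv x) ([], []) ↔ (slb T M y z h).Al x := by
    have h5 : ValidT T (vv x) ([], []) ↔ vv x ≠ 0 := by
      constructor
      · intro h6
        exact h6.1.ne
      · intro h6
        exact ((bas_valid hT).2 (bas_valid_iff.2 (Or.inl ⟨rfl, h6⟩))).2
    rw [h5]
    unfold Slb.Al
    refine not_congr ?_
    unfold vv
    rw [Prod.mk_eq_zero]
    refine and_congr_right fun _ => ?_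
    change _ ↔ x.2.1 = x.2.2
    rw [sub_eq_zero, Nat.cast_inj]
    constructor
    · intro h7
      exact Fin.ext h7.symm
    · intro h7
      rw [h7]
  have h2 := gn_low (y := y) (z := z) (ValidT T (vv x)) x x' n hn
  refine h2.trans ?_
  by_cases h4 : n = 2 ∧ x = x' ∧ (slb T M y z h).Al x
  · rw [if_pos h4, if_pos ⟨h4.1, h4.2.1, h1.2 h4.2.2⟩]
  · rw [if_neg h4, if_neg (fun h5 => h4 ⟨h5.1, h5.2.1, h1.1 h5.2.2⟩)]

/-- The pair `([], [(1, 0, 0)])`. The series in `gn` is summable by `geo_fin`. -/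
theorem f_x (hT : Cls T) (hy : 0 < y) (hz : 0 < z) (hz1 : z ≤ 1 / 10 ^ 12) (hq : y * z ^ 2 ≤ 1)
    (i : II M) : y * z ^ 2 * z ≤ (slb T M y z h).f 3 1 i i :=
  ge_right hT hy hz hz1 hq (x := ((0, i) : XX (II M))) (x' := ((1, i) : XX (II M))) 0
    (cx_right (by simp [e4]) (by simp [e4]) rfl)

/-- The pairs `([(0, ±1, 0)], [])`. -/
theorem f_yA (hT : Cls T) (hy : 0 < y) (hz : 0 < z) (hz1 : z ≤ 1 / 10 ^ 12)
    (hq : y * z ^ 2 ≤ 1) (i j : II M) (h2 : i.2 = j.2)
    (h1 : (i.1 : ℕ) + 1 = j.1 ∨ (j.1 : ℕ) + 1 = i.1) :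
    y * z ^ 2 * z ≤ (slb T M y z h).f 3 0 i j := by
  rcases h1 with h1 | h1
  · exact ge_left hT hy hz hz1 hq (x := ((0, i) : XX (II M))) (x' := ((0, j) : XX (II M))) 2
      (cx_left (by simp [e4]) (by simp [e4]; omega) h2)
  · exact ge_left hT hy hz hz1 hq (x := ((0, i) : XX (II M))) (x' := ((0, j) : XX (II M))) 3
      (cx_left (by simp [e4]) (by simp [e4]; omega) h2)

/-- The pairs `([], [(0, ±1, 0)])`. -/
theorem f_yB (hT : Cls T) (hy : 0 < y) (hz : 0 < z) (hz1 : z ≤ 1 / 10 ^ 12)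
    (hq : y * z ^ 2 ≤ 1) (i j : II M) (h1 : i.1 = j.1)
    (h2 : (i.2 : ℕ) + 1 = j.2 ∨ (j.2 : ℕ) + 1 = i.2) :
    y * z ^ 2 * z ≤ (slb T M y z h).f 3 0 i j := by
  rcases h2 with h2 | h2
  · exact ge_right hT hy hz hz1 hq (x := ((0, i) : XX (II M))) (x' := ((0, j) : XX (II M))) 2
      (cx_right (by simp [e4]) (by simp [e4]; omega) h1)
  · exact ge_right hT hy hz hz1 hq (x := ((0, i) : XX (II M))) (x' := ((0, j) : XX (II M))) 3
      (cx_right (by simp [e4]) (by simp [e4]; omega) h1)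

/-- Each of the steps of `nxS` is one basic step: `fx_eq`, `f_x` and `f_even`-like pair `([], [(-1, 0, 0)])`, `f_yA`. -/
theorem nx_step (hT : Cls T) (hy : 0 < y) (hz : 0 < z) (hz1 : z ≤ 1 / 10 ^ 12)
    (hq : y * z ^ 2 ≤ 1) (x : XX (II M)) (hx : (slb T M y z h).Al x) :
    y * z ^ 2 * z ≤ (slb T M y z h).fx 3 x (nxS x) := by
  rw [fx_eq]
  unfold nxS
  split_ifs with h1 h2 h3
  · exact ge_right hT hy hz hz1 hq 1 (cx_right (by simp [e4]; ring) (by simp [e4]) rfl)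
  · exact ge_right hT hy hz hz1 hq 0 (cx_right (by simp [e4]) (by simp [e4]) rfl)
  · have h0 : x.1 = 0 := by omega
    exact ge_left hT hy hz hz1 hq 2 (cx_left (by simp [e4, h0]) (by simp [e4]) rfl)
  · have h0 : x.1 = 0 := by omega
    have h4 : (x.2.1 : ℕ) ≠ x.2.2 := by
      intro h5
      apply hx
      refine ⟨h0, ?_⟩
      change x.2.1 = x.2.2
      exact Fin.ext h5
    refine ge_left hT hy hz hz1 hq 3 (cx_left (by simp [e4, h0]) ?_ rfl)
    simp [e4]
    omega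

end Pool.Agent.KSlab
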