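import Pool.Agent.KSlab.MFib
import Pool.Agent.KCls.Basic

/-! SM2c: the basic pairs: total weight, validity. -/

set_option autoImplicit false

open Pool.Agent.LK
open scoped ENNReal

namespace Pool.Agent.KSlab

open Pool.Agent.KTube Pool.Agent.KRing Pool.Agent.KLog Pool.Agent.KCls
open Pool.Agent.KAsym (ln wtR wlR)

variable {T : Finset (Sym2 P3) → Prop} {y z : ℝ}

private theorem mb_st4_of {d : P3} (hd : IsStep d) (h : brk (lets [d]) = 0) :
    ∃ i, d = st4 i := by
  rcases hlet_cases hd with ⟨i, hi, hd', -⟩ | ⟨hi, -⟩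
  · exact ⟨i, hd'⟩
  · simp [brk, hi] at h

private theorem mb_len_eq (s : List P3) : s.length = brk (lets s) + stp (lets s) := by
  induction s with
  | nil => rfl
  | cons d s ih =>
    rw [List.length_cons, ih, lets_cons]
    cases h : hlet d with
    | none => rw [brk_none, stp_none]; omega
    | some i => rw [brk_some, stp_some]; omega

private theorem mb_cases {π : PP} (hA : Steps π.1) (hB : Steps π.2) (h : Bas π) :
    π = ([], []) ∨ (∃ i, π = ([st4 i], [])) ∨ ∃ i, π = ([], [st4 i]) := by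
  obtain ⟨s, t⟩ := π
  obtain ⟨h1, h2⟩ := h
  simp only [nv, nh] at h1 h2 hA hB
  have hs := mb_len_eq s
  have ht := mb_len_eq t
  match s, t, hA, hB, hs, ht, h1, h2 with
  | [], [], _, _, _, _, _, _ => exact Or.inl rfl
  | [d], [], hA, _, _, _, h1, _ =>
    obtain ⟨i, hi⟩ := mb_st4_of (hA d (by simp)) (by omega)
    exact Or.inr (Or.inl ⟨i, by rw [hi]⟩)
  | [], [d], _, hB, _, _, h1, _ =>
    obtain ⟨i, hi⟩ := mb_st4_of (hB d (by simp)) (by omega)
    exact Or.inr (Or.inr ⟨i, by rw [hi]⟩)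
  | d :: d' :: s, t, _, _, hs, ht, h1, h2 =>
    simp only [List.length_cons] at hs
    omega
  | s, d :: d' :: t, _, _, hs, ht, h1, h2 =>
    simp only [List.length_cons] at ht
    omega
  | d :: s, d' :: t, _, _, hs, ht, h1, h2 =>
    simp only [List.length_cons] at hs ht
    omega

private def mb_g : Fin 4 ⊕ Fin 4 → PP
  | Sum.inl i => ([st4 i], [])
  | Sum.inr i => ([], [st4 i])

private theorem mb_wt (a : Fin 4 ⊕ Fin 4) (Y Z : ℝ≥0∞) :
    wt Y Z (mb_g a) * 2 ^ ln (mb_g a) = 8 * (Y * Z ^ 3) := by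
  have h2 : ((2 : ℝ≥0∞)) ^ 3 = 8 := by norm_num
  cases a with
  | inl i =>
    have h1 : hgt ([st4 i], []) = 1 := by simp [KLog.hgt, st4]
    simp only [mb_g, wt, ln, h1, List.length_cons, List.length_nil, Int.toNat_one, pow_one,
      zero_add, add_zero, show 1 + 2 = 3 from rfl, h2]
    ring
  | inr i =>
    have h1 : hgt ([], [st4 i]) = 1 := by simp [KLog.hgt]
    simp only [mb_g, wt, ln, h1, List.length_cons, List.length_nil, Int.toNat_one, pow_one,
      zero_add, add_zero, show 1 + 2 = 3 from rfl, h2]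
    ring

/-- There are eight basic pairs of size three with a geometric realisation: `KLog.basF` with `f = 1` gives the total
weight `q + 8 q z` of the basic free pairs (they are all free), the empty pair has the weight `q`; or directly. -/
theorem bas_three (hy : 0 < y) (hz : 0 < z) :
    ∑' π : {π : PP // Bas π ∧ (∃ v, Geo v π) ∧ 3 ≤ ln π},
      wt (ENNReal.ofReal y) (ENNReal.ofReal z) π.1 * 2 ^ ln π.1 ≤
        ENNReal.ofReal (64 * (y * z ^ 2) * z) := by
  have hex : ∀ π : {π : PP // Bas π ∧ (∃ v, Geo v π) ∧ 3 ≤ ln π}, ∃ a, mb_g a = π.1 := by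
    rintro ⟨π, hb, ⟨v, hg⟩, hl⟩
    rcases mb_cases hg.stA hg.stB hb with rfl | ⟨i, rfl⟩ | ⟨i, rfl⟩
    · simp [ln] at hl
    · exact ⟨Sum.inl i, rfl⟩
    · exact ⟨Sum.inr i, rfl⟩
  choose g hg using hex
  have hinj : Function.Injective g := by
    intro a b hab
    apply Subtype.ext
    rw [← hg a, ← hg b, hab]
  calc ∑' π : {π : PP // Bas π ∧ (∃ v, Geo v π) ∧ 3 ≤ ln π},
      wt (ENNReal.ofReal y) (ENNReal.ofReal z) π.1 * 2 ^ ln π.1
      = ∑' π : {π : PP // Bas π ∧ (∃ v, Geo v π) ∧ 3 ≤ ln π},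
        (fun a => wt (ENNReal.ofReal y) (ENNReal.ofReal z) (mb_g a) * 2 ^ ln (mb_g a)) (g π) := by
        refine tsum_congr fun π => ?_
        simp only [hg π]
    _ ≤ ∑' a, wt (ENNReal.ofReal y) (ENNReal.ofReal z) (mb_g a) * 2 ^ ln (mb_g a) :=
        ENNReal.tsum_comp_le_tsum_of_injective hinj _
    _ = ENNReal.ofReal (64 * (y * z ^ 2) * z) := by
        simp only [mb_wt]
        rw [tsum_fintype, Finset.sum_const, Finset.card_univ, Fintype.card_sum, Fintype.card_fin,
          show 64 * (y * z ^ 2) * z = 64 * (y * z ^ 3) by ring,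
          ENNReal.ofReal_mul (by norm_num), ENNReal.ofReal_mul hy.le, ENNReal.ofReal_pow hz.le,
          nsmul_eq_mul, ← mul_assoc]
        congr 1
        norm_num

/-- A basic geometric pair is free, and valid at `v` iff neither `v` nor `v + dsp π` is zero. -/
theorem bas_all (hT : Cls T) {π : PP} (hb : Bas π) (hg : ∃ v, Geo v π) :
    FreeT T π ∧ ∀ v, ValidT T v π ↔ v ≠ 0 ∧ v + dsp π ≠ 0 := by
  obtain ⟨v₀, hg⟩ := hg
  have hval : ∀ v, ValidT T v π ↔ Valid v π := fun v =>
    ⟨fun h => ((bas_valid hT).1 ⟨hb, h⟩).2, fun h => ((bas_valid hT).2 ⟨hb, h⟩).2⟩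
  have hc := mb_cases hg.stA hg.stB hb
  refine ⟨((bas_free hT).2 (bas_free_iff.2 hc)).2, fun v => ?_⟩
  rw [hval]
  rcases hc with rfl | ⟨i, rfl⟩ | ⟨i, rfl⟩
  · have h1 : dsp (([], []) : PP) = 0 := by simp [dsp, KLog.hz]
    rw [valid_nil, h1, add_zero, and_self_iff]
  · have h1 : dsp (([st4 i], []) : PP) = -e4 i := by
      simp [dsp, KLog.hz, st4, Prod.ext_iff]
    rw [valid_left, h1, ← sub_eq_add_neg, sub_ne_zero]
  · have h1 : dsp (([], [st4 i]) : PP) = e4 i := by
      simp [dsp, KLog.hz, st4, Prod.ext_iff]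
    rw [valid_right, h1]

end Pool.Agent.KSlab
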