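import Pool.Agent.KSlab.MFib
import Pool.Agent.KCls.Caps

/-! SM6: the caps. -/

set_option autoImplicit false

open Pool.Agent.LK
open scoped ENNReal

namespace Pool.Agent.KSlab

open Pool.Agent.KTube Pool.Agent.KRing Pool.Agent.KLog Pool.Agent.KCls
open Pool.Agent.KAsym (ln wtR wlR)

variable {T : Finset (Sym2 P3) → Prop} {M : ℕ} {y z : ℝ} {h : II M → ℝ}

theorem c_nn (hy : 0 < y) (hz : 0 < z) (n : ℕ) (x : XX (II M)) :
    0 ≤ (slb T M y z h).c n x :=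
  tsum_nonneg fun l => wlR_nn hy hz l.1

theorem c_dead (n : ℕ) (x : XX (II M)) (hx : ¬ (slb T M y z h).Al x) :
    (slb T M y z h).c n x = 0 := by
  have h1 : x.1 = 0 ∧ x.2 ∈ (slb T M y z h).D := not_not.1 hx
  have h2 : x.2.1 = x.2.2 := h1.2
  have h3 : vv x = 0 := by
    unfold vv
    rw [h1.1, h2, sub_self]
    rfl
  have h4 : IsEmpty {l // HalfT T 0 (vv x) l ∧ InS M ((x.2.1 : ℕ) : ℤ) l ∧ l.length = n} :=
    ⟨fun l => l.2.1.1.1 h3.symm⟩
  change ∑' l : {l // HalfT T 0 (vv x) l ∧ InS M ((x.2.1 : ℕ) : ℤ) l ∧ l.length = n},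
    wlR y z l.1 = 0
  exact tsum_empty

/-- `cap_geo'` (the halves `HalfT T 0 v` are `Flat v`), `|x.1| ≤ nrm (vv x)`, `fib_c`, `sum_of`. -/
theorem c_sum (hy : 0 < y) (hz : 0 < z) (hz1 : z ≤ 1 / 10 ^ 12) (hq : y * z ^ 2 ≤ 1) :
    ∃ C : ℝ, ∀ x : XX (II M), (Summable fun n => 2 ^ n * (slb T M y z h).c n x) ∧
      ∑' n, 2 ^ n * (slb T M y z h).c n x ≤ C * (1 / 4) ^ x.1.natAbs := by
  set S : ℝ≥0∞ := ∑' v, ∑' l : {l // Flat v l},
      wl (ENNReal.ofReal y) (ENNReal.ofReal z) l.1 * 2 ^ l.1.length * 4 ^ nrm v with hS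
  have hStop : S ≠ ⊤ := cap_geo' hy hz hz1 hq
  refine ⟨S.toReal, fun x => ?_⟩
  refine sum_of (fun n => mul_nonneg (by positivity) (c_nn hy hz n x))
    (mul_nonneg ENNReal.toReal_nonneg (by positivity)) ?_
  have h1 : ∀ n : ℕ, ENNReal.ofReal (2 ^ n * (slb T M y z h).c n x) =
      2 ^ n * ENNReal.ofReal ((slb T M y z h).c n x) := by
    intro n
    rw [ENNReal.ofReal_mul (by positivity), ENNReal.ofReal_pow (by norm_num),
      ENNReal.ofReal_ofNat]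
  rw [tsum_congr h1, fib_c hy hz hz1 hq x (fun n => 2 ^ n)]
  set B : ℝ≥0∞ := ∑' l : {l // Flat (vv x) l},
      wl (ENNReal.ofReal y) (ENNReal.ofReal z) l.1 * 2 ^ l.1.length with hB
  have h2 : ∑' l : {l // HalfT T 0 (vv x) l ∧ InS M ((x.2.1 : ℕ) : ℤ) l},
      2 ^ l.1.length * wl (ENNReal.ofReal y) (ENNReal.ofReal z) l.1 ≤ B := by
    let φ : {l // HalfT T 0 (vv x) l ∧ InS M ((x.2.1 : ℕ) : ℤ) l} → {l // Flat (vv x) l} :=
      fun l => ⟨l.1, l.2.1.1.1, l.2.1.1.2.1, l.2.1.2⟩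
    have hφ : Function.Injective φ := fun a b hab =>
      Subtype.ext (congrArg (fun x : {l // Flat (vv _) l} => x.1) hab)
    refine le_trans (ENNReal.tsum_le_tsum fun l => ?_)
      (ENNReal.tsum_comp_le_tsum_of_injective hφ fun l : {l // Flat (vv x) l} =>
        wl (ENNReal.ofReal y) (ENNReal.ofReal z) l.1 * 2 ^ l.1.length)
    exact le_of_eq (mul_comm _ _)
  refine h2.trans ?_
  have h3 : B * 4 ^ nrm (vv x) ≤ S := by
    rw [hB, ← ENNReal.tsum_mul_right]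
    exact ENNReal.le_tsum (f := fun v => ∑' l : {l // Flat v l},
      wl (ENNReal.ofReal y) (ENNReal.ofReal z) l.1 * 2 ^ l.1.length * 4 ^ nrm v) (vv x)
  have h4 : x.1.natAbs ≤ nrm (vv x) := Nat.le_add_right _ _
  have h5 : B * 4 ^ x.1.natAbs ≤ S :=
    le_trans (mul_le_mul' le_rfl (pow_le_pow_right₀ (by norm_num) h4)) h3
  have h6 : ENNReal.ofReal (S.toReal * (1 / 4) ^ x.1.natAbs) = S / 4 ^ x.1.natAbs := by
    rw [ENNReal.ofReal_mul ENNReal.toReal_nonneg, ENNReal.ofReal_toReal hStop,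
      one_div, inv_pow, ENNReal.ofReal_inv_of_pos (by positivity),
      ENNReal.ofReal_pow (by norm_num), ENNReal.ofReal_ofNat, div_eq_mul_inv]
  rw [h6, ENNReal.le_div_iff_mul_le (Or.inl (pow_ne_zero _ (by norm_num)))
    (Or.inl (ENNReal.pow_ne_top (by norm_num)))]
  exact h5

end Pool.Agent.KSlab
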