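import Mathlib

/-! SM12: a critical parameter and a positive eigenvector (Collatz-Wielandt). -/

set_option autoImplicit false

open Set Filter Topology

namespace Pool.Agent.KSlab

/-- The minimal parameter with a subinvariant vector. -/
private theorem perron_min {I : Type} [Fintype I] [Nonempty I] (F : ℝ → I → I → ℝ) {b : ℝ}
    (hb : 0 < b) (hc : ∀ i j, ContinuousOn (fun t => F t i j) (Icc 0 b))
    (hnn : ∀ t ∈ Icc 0 b, ∀ i j, 0 ≤ F t i j)
    (h1 : ∀ i, 1 ≤ F b i i) :
    ∃ (t : ℝ) (h : I → ℝ), t ∈ Icc 0 b ∧ h ∈ stdSimplex ℝ I ∧ (∀ i, h i ≤ ∑ j, F t i j * h j) ∧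
      ∀ (t' : ℝ) (h' : I → ℝ), t' ∈ Icc 0 b → h' ∈ stdSimplex ℝ I →
        (∀ i, h' i ≤ ∑ j, F t' i j * h' j) → t ≤ t' := by
  classical
  let D : Set (ℝ × (I → ℝ)) := Icc 0 b ×ˢ stdSimplex ℝ I
  let K : Set (ℝ × (I → ℝ)) := {p ∈ D | ∀ i, 0 ≤ (∑ j, F p.1 i j * p.2 j) - p.2 i}
  have hD : IsCompact D := isCompact_Icc.prod (isCompact_stdSimplex ℝ I)
  have hcont : ∀ i, ContinuousOn (fun p : ℝ × (I → ℝ) => (∑ j, F p.1 i j * p.2 j) - p.2 i) D := by
    intro i
    refine (continuousOn_finsetSum _ fun j _ => ?_).sub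
      ((continuous_apply i).comp continuous_snd).continuousOn
    refine ((hc i j).comp continuous_fst.continuousOn fun p hp => hp.1).mul ?_
    exact ((continuous_apply j).comp continuous_snd).continuousOn
  have hKc : IsClosed K := by
    have h2 : K = ⋂ i, (D ∩ (fun p : ℝ × (I → ℝ) => (∑ j, F p.1 i j * p.2 j) - p.2 i) ⁻¹' (Ici 0)) := by
      ext p
      simp only [K, mem_iInter, mem_inter_iff, mem_preimage, mem_Ici]
      constructor
      · rintro ⟨h3, h4⟩ i
        exact ⟨h3, h4 i⟩
      · intro h3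
        exact ⟨(h3 (Classical.arbitrary I)).1, fun i => (h3 i).2⟩
    rw [h2]
    exact isClosed_iInter fun i => (hcont i).preimage_isClosed_of_isClosed hD.isClosed isClosed_Ici
  have hK : IsCompact K := hD.of_isClosed_subset hKc fun p hp => hp.1
  have hcard : 0 < (Fintype.card I : ℝ) := by exact_mod_cast Fintype.card_pos
  have hKne : K.Nonempty := by
    refine ⟨(b, fun _ => (Fintype.card I : ℝ)⁻¹), ⟨⟨hb.le, le_rfl⟩, ?_, ?_⟩, ?_⟩
    · intro i
      positivity
    · simp [hcard.ne']
    · intro i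
      have h3 : F b i i * (Fintype.card I : ℝ)⁻¹ ≤ ∑ j, F b i j * (Fintype.card I : ℝ)⁻¹ :=
        Finset.single_le_sum (f := fun j => F b i j * (Fintype.card I : ℝ)⁻¹)
          (fun j _ => mul_nonneg (hnn b ⟨hb.le, le_rfl⟩ i j) (by positivity)) (Finset.mem_univ i)
      have h4 : 1 * (Fintype.card I : ℝ)⁻¹ ≤ F b i i * (Fintype.card I : ℝ)⁻¹ :=
        mul_le_mul_of_nonneg_right (h1 i) (by positivity)
      change 0 ≤ (∑ j, F b i j * (Fintype.card I : ℝ)⁻¹) - (Fintype.card I : ℝ)⁻¹
      linarith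
  obtain ⟨p, hp, hmin⟩ := hK.exists_isMinOn hKne continuous_fst.continuousOn
  refine ⟨p.1, p.2, hp.1.1, hp.1.2, fun i => sub_nonneg.1 (hp.2 i), ?_⟩
  intro t' h' ht' hh' hle'
  exact hmin (show (t', h') ∈ K from ⟨⟨ht', hh'⟩, fun i => sub_nonneg.2 (hle' i)⟩)

/-- Let `A` be the set of the `t ∈ [0, b]` for which some `h ≥ 0` with `∑ h = 1` satisfies `F_t h ≥ h`. `A` is compact (the projection of
a compact subset of `[0, b] × simplex`), `b ∈ A` (`h` constant, `1 ≤ F b i i`), `0 ∉ A`. Let `t` be the minimum of `A` and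
`h` the vector. If `w = F_t h - h ≠ 0` then `h' = (1 + F_t) ^ N h` for large `N` satisfies `F_t h' - h' = (1 + F_t) ^ N w > 0`
in all coordinates (the set of the `i` with `((1 + F_t) ^ N w) i = 0` for all `N` is closed under `F t i j > 0`, so by `hirr`
it is empty or everything), and by continuity `F_{t'} h' ≥ h'` for some `t' < t`, a contradiction. So `F_t h = h`, and
the set `{i | h i = 0}` is closed under `F t i j > 0`, so it is empty. -/
theorem exists_perron {I : Type} [Fintype I] [Nonempty I] (F : ℝ → I → I → ℝ) {b : ℝ}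
    (hb : 0 < b) (hc : ∀ i j, ContinuousOn (fun t => F t i j) (Icc 0 b))
    (hnn : ∀ t ∈ Icc 0 b, ∀ i j, 0 ≤ F t i j) (h0 : ∀ i j, F 0 i j = 0)
    (h1 : ∀ i, 1 ≤ F b i i)
    (hirr : ∀ t ∈ Ioc 0 b, ∀ S : Set I, S.Nonempty → (∀ i ∈ S, ∀ j, 0 < F t i j → j ∈ S) →
      S = univ) :
    ∃ t ∈ Ioc 0 b, ∃ h : I → ℝ, (∀ i, 0 < h i) ∧ ∀ i, ∑ j, F t i j * h j = h i := by
  classical
  obtain ⟨t, h, ht, hh, hle, hmin⟩ := perron_min F hb hc hnn h1
  have hh0 : ∀ i, 0 ≤ h i := hh.1
  have hh1 : ∑ i, h i = 1 := hh.2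
  have hne : ∃ i, h i ≠ 0 := by
    by_contra hcon
    push Not at hcon
    simp [hcon] at hh1
  have ht0 : 0 < t := by
    rcases ht.1.lt_or_eq with h2 | h2
    · exact h2
    · exfalso
      obtain ⟨i, hi⟩ := hne
      have h3 := hle i
      rw [← h2] at h3
      simp only [h0, zero_mul, Finset.sum_const_zero] at h3
      exact hi (le_antisymm h3 (hh0 i))
  have htI : t ∈ Ioc 0 b := ⟨ht0, ht.2⟩
  have hFt := hnn t ht
  have heq : ∀ i, ∑ j, F t i j * h j = h i := by
    by_contra hcon
    push Not at hcon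
    -- the operator
    let A : Module.End ℝ (I → ℝ) := Matrix.toLin' (Matrix.of (F t))
    have hA : ∀ g i, A g i = ∑ j, F t i j * g j := by
      intro g i
      simp [A, Matrix.toLin'_apply, Matrix.mulVec, dotProduct]
    let T : Module.End ℝ (I → ℝ) := 1 + A
    have hT : ∀ g i, T g i = g i + ∑ j, F t i j * g j := by
      intro g i
      rw [← hA]
      rfl
    have hTn : ∀ g : I → ℝ, (∀ i, 0 ≤ g i) → ∀ N i, g i ≤ (T ^ N) g i := by
      intro g hg N
      induction N with
      | zero => intro i; simp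
      | succ N ih =>
        intro i
        rw [pow_succ', Module.End.mul_apply, hT]
        have h2 : 0 ≤ ∑ j, F t i j * (T ^ N) g j :=
          Finset.sum_nonneg fun j _ => mul_nonneg (hFt i j) ((hg j).trans (ih j))
        linarith [ih i]
    let w : I → ℝ := A h - h
    have hw : ∀ i, 0 ≤ w i := by
      intro i
      have h2 := hle i
      rw [← hA] at h2
      simp only [w, Pi.sub_apply]
      linarith
    have hTw : ∀ N i, 0 ≤ (T ^ N) w i := fun N i => (hw i).trans (hTn w hw N i)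
    have hmono : ∀ N i, (T ^ N) w i ≤ (T ^ (N + 1)) w i := by
      intro N i
      rw [pow_succ', Module.End.mul_apply, hT]
      have h2 : 0 ≤ ∑ j, F t i j * (T ^ N) w j :=
        Finset.sum_nonneg fun j _ => mul_nonneg (hFt i j) (hTw N j)
      linarith
    have hmono' : ∀ i, Monotone fun N => (T ^ N) w i := fun i => monotone_nat_of_le_succ
      fun N => hmono N i
    have hS : {i | ∀ N, (T ^ N) w i = 0} = (∅ : Set I) := by
      by_contra hne'
      have h2 := hirr t htI {i | ∀ N, (T ^ N) w i = 0} (Set.nonempty_iff_ne_empty.2 hne') ?_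
      · obtain ⟨i, hi⟩ := hcon
        have h3 : i ∈ {i | ∀ N, (T ^ N) w i = 0} := by
          rw [h2]
          exact Set.mem_univ i
        have h4 : w i = 0 := h3 0
        simp only [w, Pi.sub_apply, hA] at h4
        exact hi (sub_eq_zero.1 h4)
      · intro i hi j hij N
        have h3 : (T ^ (N + 1)) w i = 0 := hi (N + 1)
        rw [pow_succ', Module.End.mul_apply, hT, hi N, zero_add] at h3
        have h4 := (Finset.sum_eq_zero_iff_of_nonneg
          (fun j _ => mul_nonneg (hFt i j) (hTw N j))).1 h3 j (Finset.mem_univ j)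
        exact (mul_eq_zero.1 h4).resolve_left hij.ne'
    have hN : ∀ i, ∃ N, 0 < (T ^ N) w i := by
      intro i
      by_contra hcon'
      push Not at hcon'
      have h2 : i ∈ {i | ∀ N, (T ^ N) w i = 0} := fun N => le_antisymm (hcon' N) (hTw N i)
      rw [hS] at h2
      exact h2
    choose Nf hNf using hN
    let N := Finset.univ.sup Nf
    have hNpos : ∀ i, 0 < (T ^ N) w i := fun i =>
      (hNf i).trans_le (hmono' i (Finset.le_sup (Finset.mem_univ i)))
    let g := (T ^ N) h
    have hg0 : ∀ i, h i ≤ g i := hTn h hh0 N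
    have hgw : ∀ i, (T ^ N) w i = (∑ j, F t i j * g j) - g i := by
      intro i
      have hcm : Commute (T ^ N) (A - 1) := by
        refine Commute.pow_left ?_ N
        exact ((Commute.one_left _).add_left ((Commute.refl A).sub_right (Commute.one_right A)))
      have h2 : w = (A - 1) h := rfl
      have h3 : (T ^ N) w = (A - 1) g := by
        rw [h2]
        exact LinearMap.congr_fun hcm.eq h
      rw [h3, ← hA]
      rfl
    -- a smaller parameter
    have hev : ∀ᶠ t' in 𝓝[<] t, ∀ i, 0 < (∑ j, F t' i j * g j) - g i := by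
      rw [Filter.eventually_all]
      intro i
      have hcc : ContinuousOn (fun t' => (∑ j, F t' i j * g j) - g i) (Icc 0 b) := by
        refine (continuousOn_finsetSum _ fun j _ => ?_).sub continuousOn_const
        exact (hc i j).mul continuousOn_const
      have h2 : Tendsto (fun t' => (∑ j, F t' i j * g j) - g i) (𝓝[Icc 0 b] t)
          (𝓝 ((∑ j, F t i j * g j) - g i)) := hcc t ht
      have h3 : 𝓝[<] t ≤ 𝓝[Icc 0 b] t := by
        rw [← nhdsWithin_Ico_eq_nhdsLT ht0]
        exact nhdsWithin_mono _ fun x hx => ⟨hx.1, hx.2.le.trans ht.2⟩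
      have h4 : 0 < (∑ j, F t i j * g j) - g i := by
        rw [← hgw]
        exact hNpos i
      exact (h2.mono_left h3).eventually (lt_mem_nhds h4)
    have hev2 : ∀ᶠ t' in 𝓝[<] t, t' ∈ Ico 0 t := by
      rw [← nhdsWithin_Ico_eq_nhdsLT ht0]
      exact self_mem_nhdsWithin
    obtain ⟨t', ht'1, ht'2⟩ := (hev.and hev2).exists
    have hc1 : 1 ≤ ∑ i, g i := by
      rw [← hh1]
      exact Finset.sum_le_sum fun i _ => hg0 i
    have hcpos : 0 < ∑ i, g i := by linarith
    have h5 := hmin t' (fun i => g i / ∑ i, g i) ⟨ht'2.1, ht'2.2.le.trans ht.2⟩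
      ⟨fun i => div_nonneg ((hh0 i).trans (hg0 i)) hcpos.le, by
        rw [← Finset.sum_div, div_self hcpos.ne']⟩ ?_
    · exact absurd ht'2.2 (not_lt.2 h5)
    · intro i
      have h6 : ∑ j, F t' i j * (g j / ∑ i, g i) = (∑ j, F t' i j * g j) / ∑ i, g i := by
        rw [Finset.sum_div]
        exact Finset.sum_congr rfl fun j _ => by rw [mul_div_assoc]
      rw [h6]
      refine div_le_div_of_nonneg_right ?_ hcpos.le
      linarith [ht'1 i]
  refine ⟨t, htI, h, ?_, heq⟩
  intro i
  rcases (hh0 i).lt_or_eq with h2 | h2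
  · exact h2
  · exfalso
    have h3 := hirr t htI {i | h i = 0} ⟨i, h2.symm⟩ ?_
    · obtain ⟨k, hk⟩ := hne
      have h4 : k ∈ {i | h i = 0} := by
        rw [h3]
        exact Set.mem_univ k
      exact hk h4
    · intro k hk j hkj
      have h4 := heq k
      have h5 : h k = 0 := hk
      rw [h5] at h4
      have h6 := (Finset.sum_eq_zero_iff_of_nonneg
        (fun j _ => mul_nonneg (hFt k j) (hh0 j))).1 h4 j (Finset.mem_univ j)
      exact (mul_eq_zero.1 h6).resolve_left hkj.ne'

end Pool.Agent.KSlab
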