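import Pool.Agent.KSlab.MSumF
import Pool.Agent.KSlab.Perron

/-! SM13: the critical weight of the slab. -/

set_option autoImplicit false

open Pool.Agent.LK
open scoped ENNReal

namespace Pool.Agent.KSlab

open Pool.Agent.KTube Pool.Agent.KRing Pool.Agent.KLog Pool.Agent.KCls
open Pool.Agent.KAsym (ln wtR wlR)

variable {T : Finset (Sym2 P3) → Prop} {M : ℕ} {y : ℝ}

private theorem b_facts (hy : 10 ^ 24 ≤ y) : 0 < y ∧ 0 < 1 / Real.sqrt y ∧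
    1 / Real.sqrt y ≤ 1 / 10 ^ 12 ∧ y * (1 / Real.sqrt y) ^ 2 = 1 := by
  have h0 : 0 < y := lt_of_lt_of_le (by norm_num) hy
  have h1 : (10 : ℝ) ^ 12 ≤ Real.sqrt y := by
    rw [Real.le_sqrt' (by norm_num)]
    calc ((10 : ℝ) ^ 12) ^ 2 = 10 ^ 24 := by norm_num
      _ ≤ y := hy
  have h2 : 0 < Real.sqrt y := Real.sqrt_pos.2 h0
  refine ⟨h0, by positivity, one_div_le_one_div_of_le (by positivity) h1, ?_⟩
  rw [div_pow, Real.sq_sqrt h0.le, one_pow, mul_one_div, div_self h0.ne']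

private theorem z_facts (hy : 10 ^ 24 ≤ y) {z : ℝ} (hz : z ∈ Set.Ioc 0 (1 / Real.sqrt y)) :
    0 < z ∧ z ≤ 1 / 10 ^ 12 ∧ y * z ^ 2 ≤ 1 := by
  obtain ⟨h0, h1, h2, h3⟩ := b_facts hy
  refine ⟨hz.1, hz.2.trans h2, ?_⟩
  rw [← h3]
  exact mul_le_mul_of_nonneg_left (pow_le_pow_left₀ hz.1.le hz.2 2) h0.le

private theorem le_wts (x : ℝ≥0∞) (k l : ℕ) : x ≤ x * (2 ^ k * 576 ^ l) := by
  have h4 : (1 : ℝ≥0∞) ≤ 2 ^ k * 576 ^ l :=
    one_le_mul (one_le_pow₀ (by norm_num)) (one_le_pow₀ (by norm_num))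
  calc x = x * 1 := (mul_one x).symm
    _ ≤ x * (2 ^ k * 576 ^ l) := mul_le_mul_right h4 x

private theorem term_le {b : ℝ} (h0 : 0 < y) (h1 : 0 < b) (π : PP) :
    ENNReal.ofReal (wtR y b π) ≤
      wt (ENNReal.ofReal y) (ENNReal.ofReal b) π * 2 ^ ln π * 576 ^ nh π := by
  rw [← wt_eq h0 h1, mul_assoc]
  exact le_wts _ _ _

private theorem free_geo (i j : II M) (π : PP) (h : FreeT T π ∧ CB i j π) : ∃ v, Geo v π := by
  obtain ⟨v, _, hv⟩ := h.1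
  exact ⟨v, hv.1⟩

private theorem sum_le {b : ℝ} (h0 : 0 < y) (h1 : 0 < b) (i j : II M) :
    ∑' π : {π : PP // FreeT T π ∧ CB i j π}, ENNReal.ofReal (wtR y b π.1) ≤
      ∑' π : {π : PP // ∃ v, Geo v π}, wt (ENNReal.ofReal y) (ENNReal.ofReal b) π.1 *
        2 ^ ln π.1 * 576 ^ nh π.1 := by
  have h6 := ENNReal.tsum_comp_le_tsum_of_injective
    (f := fun π : {π : PP // FreeT T π ∧ CB i j π} =>
      (⟨π.1, free_geo i j π.1 π.2⟩ : {π : PP // ∃ v, Geo v π}))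
    (fun a c hac => Subtype.ext (Subtype.mk.inj hac))
    (fun π : {π : PP // ∃ v, Geo v π} => wt (ENNReal.ofReal y) (ENNReal.ofReal b) π.1 *
      2 ^ ln π.1 * 576 ^ nh π.1)
  have h7 : ∑' π : {π : PP // FreeT T π ∧ CB i j π}, ENNReal.ofReal (wtR y b π.1) ≤
      ∑' π : {π : PP // FreeT T π ∧ CB i j π}, wt (ENNReal.ofReal y) (ENNReal.ofReal b) π.1 *
        2 ^ ln π.1 * 576 ^ nh π.1 := ENNReal.tsum_le_tsum fun π => term_le h0 h1 π.1
  exact h7.trans h6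

private theorem summ_aux {α : Type} {f : α → ℝ} (hf : ∀ a, 0 ≤ f a) {S : ℝ≥0∞} (hS : S ≠ ⊤)
    (h : ∑' a, ENNReal.ofReal (f a) ≤ S) : Summable f := by
  refine (sum_of hf (c := S.toReal) ENNReal.toReal_nonneg ?_).1
  rwa [ENNReal.ofReal_toReal hS]

private theorem sum_of_b {b : ℝ} (h0 : 0 < y) (h1 : 0 < b) (h2 : b ≤ 1 / 10 ^ 12)
    (h3 : y * b ^ 2 = 1) (i j : II M) :
    Summable fun π : {π : PP // FreeT T π ∧ CB i j π} => wtR y b π.1 :=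
  summ_aux (fun π => wtR_nn h0 h1 π.1) (geo_fin h0 h1 h2 h3.le) (sum_le h0 h1 i j)

private theorem sum_b (hy : 10 ^ 24 ≤ y) (i j : II M) :
    Summable fun π : {π : PP // FreeT T π ∧ CB i j π} => wtR y (1 / Real.sqrt y) π.1 := by
  obtain ⟨h0, h1, h2, h3⟩ := b_facts hy
  exact sum_of_b h0 h1 h2 h3 i j

/-- Dominated by the terms at `b` (summable by `geo_fin`, `b ≤ 10 ^ -12`, `y b ^ 2 = 1`). -/
theorem fm_cont (hT : Cls T) (hy : 10 ^ 24 ≤ y) (i j : II M) :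
    ContinuousOn (fun z => FM T y z i j) (Set.Icc 0 (1 / Real.sqrt y)) := by
  obtain ⟨h0, h1, h2, h3⟩ := b_facts hy
  unfold FM
  refine continuousOn_tsum (fun π => ?_) (sum_b (T := T) hy i j) fun π z hz => ?_
  · unfold wtR
    exact (continuous_const.mul (continuous_pow _)).continuousOn
  · have h4 : 0 ≤ wtR y z π.1 := mul_nonneg (pow_nonneg h0.le _) (pow_nonneg hz.1 _)
    rw [Real.norm_eq_abs, abs_of_nonneg h4]
    exact mul_le_mul_of_nonneg_left (pow_le_pow_left₀ hz.1 hz.2 _) (pow_nonneg h0.le _)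

private theorem f_le_FM (hy : 10 ^ 24 ≤ y) {z : ℝ} (hz : z ∈ Set.Ioc 0 (1 / Real.sqrt y))
    (i j : II M) (n : ℕ) (t : ℤ) :
    (slb T M y z (fun _ => 0)).f n t i j ≤ FM T y z i j := by
  obtain ⟨z0, z1, z2⟩ := z_facts hy hz
  obtain ⟨hs, ht⟩ := f_tot (T := T) (h := fun _ => 0) (b_facts hy).1 z0 z1 z2 i j
  rw [← ht]
  exact hs.le_tsum (n, t) fun p _ => gn_nn (b_facts hy).1 z0 _ _ _ _

/-- The basic pairs. -/
theorem fm_pos (hT : Cls T) (hy : 10 ^ 24 ≤ y) {z : ℝ} (hz : z ∈ Set.Ioc 0 (1 / Real.sqrt y))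
    (i j : II M) (h : (i.2 = j.2 ∧ ((i.1 : ℕ) + 1 = j.1 ∨ (j.1 : ℕ) + 1 = i.1)) ∨
      (i.1 = j.1 ∧ ((i.2 : ℕ) + 1 = j.2 ∨ (j.2 : ℕ) + 1 = i.2))) : 0 < FM T y z i j := by
  obtain ⟨z0, z1, z2⟩ := z_facts hy hz
  have hy0 := (b_facts hy).1
  refine lt_of_lt_of_le ?_ (f_le_FM (T := T) hy hz i j 3 0)
  refine lt_of_lt_of_le (by positivity : 0 < y * z ^ 2 * z) ?_
  rcases h with h | h
  · exact f_yA hT hy0 z0 z1 z2 i j h.1 h.2
  · exact f_yB hT hy0 z0 z1 z2 i j h.1 h.2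

/-- `exists_perron` with `b = 1 / √y ≤ 10 ^ -12`: `FM` at `0` vanishes since `ln ≥ 2`; the empty pair has the weight
`y b ^ 2 = 1`; `fm_cont`, `fm_pos`, `conn_II`. -/
theorem exists_critS (hT : Cls T) (M : ℕ) (hy : 10 ^ 24 ≤ y) : ∃ (z : ℝ) (h : II M → ℝ),
    CritS T y z h := by
  obtain ⟨h0, h1, h2, h3⟩ := b_facts hy
  have hz : ∀ i j : II M, FM T y 0 i j = 0 := by
    intro i j
    have h4 : ∀ π : {π : PP // FreeT T π ∧ CB i j π}, wtR y 0 π.1 = 0 := fun π => by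
      unfold wtR ln
      rw [zero_pow (by omega), mul_zero]
    unfold FM
    simp only [h4, tsum_zero]
  have hone : ∀ i : II M, 1 ≤ FM T y (1 / Real.sqrt y) i i := by
    intro i
    have hb : (1 / Real.sqrt y) ∈ Set.Ioc (0 : ℝ) (1 / Real.sqrt y) := ⟨h1, le_rfl⟩
    refine le_trans (le_of_eq ?_) (f_le_FM (T := T) hy hb i i 2 0)
    rw [f_low hT 2 0 i i (by norm_num), if_pos ⟨rfl, rfl, rfl⟩, h3]
  obtain ⟨t, ht, h, hpos, heq⟩ := exists_perron (I := II M) (fun z i j => FM T y z i j) h1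
    (fun i j => fm_cont hT hy i j)
    (fun t ht i j => tsum_nonneg fun π => mul_nonneg (pow_nonneg h0.le _) (pow_nonneg ht.1 _))
    hz hone (fun t ht S hS hcl => conn_II S hS
      (fun i hi j h5 h6 => hcl i hi j (fm_pos hT hy ht i j (Or.inl ⟨h5, h6⟩)))
      (fun i hi j h5 h6 => hcl i hi j (fm_pos hT hy ht i j (Or.inr ⟨h5, h6⟩))))
  obtain ⟨z0, z1, z2⟩ := z_facts hy ht
  exact ⟨t, h, ⟨hT, h0, z0, z1, z2, hpos, heq⟩⟩

end Pool.Agent.KSlab
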