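import Pool.Agent.KSlab.MGlu
import Pool.Agent.KComp.CutA

/-! SM16: cutting a polygon in the slab at its highest section with two edges. -/

set_option autoImplicit false

open Pool.Agent.LK
open scoped ENNReal

namespace Pool.Agent.KSlab

open Pool.Agent.KTube Pool.Agent.KRing Pool.Agent.KLog Pool.Agent.KCls
open Pool.Agent.KAsym (ln wtR wlR)
open Pool.Agent.LatticeTube (pedges)

variable {T : Finset (Sym2 P3) → Prop} {M : ℕ}

/-- The polygons in the slab with a section with two edges. -/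
abbrev PS (T : Finset (Sym2 P3) → Prop) (M : ℕ) : Type :=
  {E : Finset (Sym2 P3) // E ∈ PSl T M ∧ ∃ k, IsTwo E k}

/-- The triples of a state, a half and a cap. -/
abbrev TS (T : Finset (Sym2 P3) → Prop) (M : ℕ) : Type :=
  Σ x : XX (II M), {l : List P3 // LT T 0 0 (vv x) l ∧ InS M ((x.2.1 : ℕ) : ℤ) l} × HS T M 0 x

/-- is the vector lexicographically positive? -/
private def lx (v : ℤ × ℤ) : Bool := decide (0 < v.1 ∨ (v.1 = 0 ∧ 0 < v.2))

private theorem lx_neg {v w : ℤ × ℤ} (hv : (0 : ℤ × ℤ) ≠ v) (h : v + w = 0)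
    (he : lx v = lx w) : False := by
  have h1 : v.1 + w.1 = 0 := congrArg Prod.fst h
  have h2 : v.2 + w.2 = 0 := congrArg Prod.snd h
  have h3 : ¬ (v.1 = 0 ∧ v.2 = 0) := fun h => hv (Prod.ext h.1.symm h.2.symm)
  unfold lx at he
  rw [decide_eq_decide] at he
  omega

private theorem cb_shift_iff (t : P3) (E : Finset (Sym2 P3)) (j : ℤ) :
    IsTwo (LK.shift t E) j ↔ IsTwo E (j - t.2.2) := by
  unfold IsTwo
  rw [ncard_cross_shift']

private theorem cb_ncard_shift (t : P3) (E : Finset (Sym2 P3)) :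
    {k : ℤ | IsTwo (LK.shift t E) k}.ncard = {k : ℤ | IsTwo E k}.ncard := by
  have h : {k : ℤ | IsTwo (LK.shift t E) k} = (fun j => j + t.2.2) '' {k : ℤ | IsTwo E k} := by
    ext j
    rw [Set.mem_image]
    constructor
    · intro h
      exact ⟨j - t.2.2, (cb_shift_iff _ _ _).1 h, by ring⟩
    · rintro ⟨i, hi, rfl⟩
      exact (cb_shift_iff _ _ _).2 (by rwa [add_sub_cancel_right])
  rw [h]
  exact Set.ncard_image_of_injective _ (add_left_injective _)

private theorem cb_finite (l : List P3) : {j : ℤ | {c | leg c j ∈ pedges l}.ncard = 2}.Finite := by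
  refine (planes_finite' l).subset fun j hj => ?_
  obtain ⟨c, hc⟩ : {c | leg c j ∈ pedges l}.Nonempty := by
    rw [Set.nonempty_iff_ne_empty]
    intro h
    have hj' : {c | leg c j ∈ pedges l}.ncard = 2 := hj
    rw [h, Set.ncard_empty] at hj'
    omega
  exact ⟨c, hc⟩

private theorem cb_upp {v : ℤ × ℤ} {r : List P3} (hr : Upper 0 0 v r) {j : ℤ}
    (hj : {c | leg c j ∈ pedges r}.ncard = 2) : 0 < j := by
  obtain ⟨c, hc⟩ : {c | leg c j ∈ pedges r}.Nonempty := by
    rw [Set.nonempty_iff_ne_empty]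
    intro h
    rw [h, Set.ncard_empty] at hj
    omega
  have := (pedges_lev hr.lev hc).1
  simp only at this
  omega

private theorem cb_isTwo_upp {v : ℤ × ℤ} {r l : List P3} (hr : Upper 0 0 v r)
    (hl : Lower 0 0 v l) {j : ℤ} (hj : 0 < j) :
    IsTwo (ring (r ++ l)) j ↔ {c | leg c j ∈ pedges r}.ncard = 2 := by
  have h1 : cross (ring (r ++ l)) j = {c | leg c j ∈ pedges r} := by
    ext c
    exact cross_ring_upp hr hl hj
  unfold IsTwo
  rw [h1]

/-- The upper half has no section with two edges iff the joint is the highest one. -/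
private theorem cb_nsec_zero {v : ℤ × ℤ} {r l : List P3} (hr : Upper 0 0 v r)
    (hl : Lower 0 0 v l) : nsec r = 0 ↔ ∀ j : ℤ, 0 < j → ¬ IsTwo (ring (r ++ l)) j := by
  unfold nsec
  rw [Set.ncard_eq_zero (cb_finite r), Set.eq_empty_iff_forall_notMem]
  constructor
  · intro h j hj h1
    exact h j ((cb_isTwo_upp hr hl hj).1 h1)
  · intro h j hj
    have h3 := cb_upp hr hj
    exact h j h3 ((cb_isTwo_upp hr hl h3).2 hj)

/-- The joint is the highest section. -/
private theorem cb_joint {E F : Finset (Sym2 P3)} {s : P3} (h : shift s E = F)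
    (hE0 : IsTwo E 0) (hF0 : IsTwo F 0) (hE : ∀ j : ℤ, 0 < j → ¬ IsTwo E j)
    (hF : ∀ j : ℤ, 0 < j → ¬ IsTwo F j) : s.2.2 = 0 := by
  set m := s.2.2 with hm
  have h1 : ∀ j, IsTwo F j ↔ IsTwo E (j - m) := by
    intro j
    rw [← h]
    exact cb_shift_iff s E j
  rcases lt_trichotomy m 0 with hlt | heq | hgt
  · exact absurd ((h1 0).1 hF0) (hE _ (by omega))
  · exact heq
  · exact absurd ((h1 m).2 (by rwa [sub_self])) (hF _ hgt)

private theorem cb_fin {E : Finset (Sym2 P3)} (hE : IsPolygon E) {k : ℤ} (hk : IsTwo E k) :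
    {k : ℤ | IsTwo E k}.Finite := by
  obtain ⟨a, ha⟩ : (cross E k).Nonempty := by
    rw [Set.nonempty_iff_ne_empty]
    intro h
    unfold IsTwo at hk
    rw [h, Set.ncard_empty] at hk
    omega
  set t : P3 := (-a.1, -a.2, -k) with ht
  have hE' : IsPolygon (LK.shift t E) := isPolygon_shift hE t
  have hk0 : (0 : ℤ) - t.2.2 = k := by simp [ht]
  have h2' : IsTwo (LK.shift t E) 0 := by
    rw [cb_shift_iff, hk0]
    exact hk
  have ha' : (0 : ℤ × ℤ) ∈ cross (LK.shift t E) 0 := by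
    rw [cross_shift']
    have h3 : (((0 : ℤ × ℤ).1 - t.1, (0 : ℤ × ℤ).2 - t.2.1) : ℤ × ℤ) = a := by
      simp [ht]
    rw [hk0, h3]
    exact ha
  obtain ⟨v, r, l, hb, hr, hl, hrl⟩ := exists_halves hE' h2' ha'
  have h3 := ncard_two_ring hb hr hl
  rw [hrl, cb_ncard_shift] at h3
  exact Set.finite_of_ncard_ne_zero (by omega)

private theorem jn_inj {v w : ℤ × ℤ} {l m r r' : List P3} (hv : (0 : ℤ × ℤ) ≠ v)
    (hw : (0 : ℤ × ℤ) ≠ w) (hr : Upper 0 0 v r) (hl : Lower 0 0 v l) (hr' : Upper 0 0 w r')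
    (hm : Lower 0 0 w m) (h0 : nsec r = 0) (h0' : nsec r' = 0) {s t : P3}
    (h : LK.shift s (ring (r ++ l)) = LK.shift t (ring (r' ++ m))) (hb : lx v = lx w) :
    s = t ∧ v = w ∧ r = r' ∧ l = m := by
  have h1 : LK.shift (-t + s) (ring (r ++ l)) = ring (r' ++ m) := by
    rw [← shift_shift, h, shift_shift, neg_add_cancel, shift_zero]
  set d := -t + s with hd
  have hz : d.2.2 = 0 := cb_joint h1 (isTwo_ring_of hv hr hl) (isTwo_ring_of hw hr' hm)
    ((cb_nsec_zero hr hl).1 h0) ((cb_nsec_zero hr' hm).1 h0')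
  have hc : ∀ c : ℤ × ℤ, c ∈ cross (ring (r' ++ m)) 0 ↔
      (c.1 - d.1, c.2 - d.2.1) ∈ cross (ring (r ++ l)) 0 := by
    intro c
    rw [← h1, cross_shift', hz, sub_zero]
  have hp : cross (ring (r ++ l)) 0 = {0, v} := cross_ring_of hr hl
  have hq : cross (ring (r' ++ m)) 0 = {0, w} := cross_ring_of hr' hm
  have e1 : (0 : ℤ × ℤ) = (0 - d.1, 0 - d.2.1) ∨ v = (0 - d.1, 0 - d.2.1) := by
    have := (hc 0).1 (by rw [hq]; exact Set.mem_insert _ _)
    rw [hp, Set.mem_insert_iff, Set.mem_singleton_iff] at this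
    exact this.imp Eq.symm Eq.symm
  have e2 : (0 : ℤ × ℤ) = (w.1 - d.1, w.2 - d.2.1) ∨ v = (w.1 - d.1, w.2 - d.2.1) := by
    have := (hc w).1 (by rw [hq]; exact Set.mem_insert_of_mem _ rfl)
    rw [hp, Set.mem_insert_iff, Set.mem_singleton_iff] at this
    exact this.imp Eq.symm Eq.symm
  have hd0 : d = 0 ∧ v = w := by
    rcases e1 with e1 | e1
    · have a1 : d.1 = 0 := by have := congrArg Prod.fst e1; simp only [Prod.fst_zero] at this; omega
      have a2 : d.2.1 = 0 := by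
        have := congrArg Prod.snd e1; simp only [Prod.snd_zero] at this; omega
      refine ⟨Prod.ext a1 (Prod.ext a2 hz), ?_⟩
      rw [a1, a2, sub_zero, sub_zero] at e2
      rcases e2 with e2 | e2
      · exact absurd e2 hw
      · exact e2
    · exfalso
      rcases e2 with e2 | e2
      · refine lx_neg hv (w := w) ?_ hb
        rw [e1]
        have b1 := congrArg Prod.fst e2
        have b2 := congrArg Prod.snd e2
        simp only [Prod.fst_zero, Prod.snd_zero] at b1 b2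
        refine Prod.ext ?_ ?_
        · simp only [Prod.fst_add, Prod.fst_zero]
          omega
        · simp only [Prod.snd_add, Prod.snd_zero]
          omega
      · apply hw
        have b1 := congrArg Prod.fst (e1.symm.trans e2)
        have b2 := congrArg Prod.snd (e1.symm.trans e2)
        simp only at b1 b2
        exact Prod.ext (by simp only [Prod.fst_zero]; omega) (by simp only [Prod.snd_zero]; omega)
  obtain ⟨hd1, hpq⟩ := hd0
  rw [hd1, shift_zero] at h1
  subst hpq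
  obtain ⟨-, h2, h3⟩ := halves_unique hv hw hr hl hr' hm h1
  refine ⟨?_, rfl, h2, h3⟩
  rw [hd] at hd1
  exact (neg_add_eq_zero.1 hd1).symm

/-- The two halves at the highest section, with the given sign of the displacement. -/
private theorem cb_exists (hT : Cls T) {E : Finset (Sym2 P3)} (hE : IsPolygon E) (hU : T E)
    (hex : ∃ k, IsTwo E k) (b : Bool) :
    ∃ (v : ℤ × ℤ) (r l : List P3) (t : P3), UT T 0 0 v r ∧ LT T 0 0 v l ∧ nsec r = 0 ∧
      LK.shift t E = ring (r ++ l) ∧ lx v = b := by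
  obtain ⟨k, hk⟩ := hex
  have hfin : {k : ℤ | IsTwo E k}.Finite := cb_fin hE hk
  have hne : {k : ℤ | IsTwo E k}.Nonempty := ⟨k, hk⟩
  obtain ⟨k₀, hk₀, hmax⟩ := Set.exists_max_image _ id hfin hne
  -- the two columns, the first one being the one with the right sign
  obtain ⟨a, a', haa, hcr, hsgn⟩ : ∃ a a' : ℤ × ℤ, a ≠ a' ∧ cross E k₀ = {a, a'} ∧
      lx (a' - a) = b := by
    have h1 : (cross E k₀).ncard = 2 := hk₀
    obtain ⟨a, a', haa, hcr⟩ := Set.ncard_eq_two.1 h1
    by_cases hb : lx (a' - a) = b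
    · exact ⟨a, a', haa, hcr, hb⟩
    · refine ⟨a', a, haa.symm, by rw [hcr, Set.pair_comm], ?_⟩
      by_contra hb'
      have h2 : lx (a' - a) = lx (a - a') := by
        cases h3 : lx (a' - a) <;> cases h4 : lx (a - a') <;> cases b <;> simp_all
      exact lx_neg (fun h => haa (sub_eq_zero.1 h.symm).symm) (by abel) h2
  have ha : a ∈ cross E k₀ := by
    rw [hcr]
    exact Set.mem_insert _ _
  set t : P3 := (-a.1, -a.2, -k₀) with ht
  have hE' : IsPolygon (LK.shift t E) := isPolygon_shift hE t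
  have hk0 : (0 : ℤ) - t.2.2 = k₀ := by simp [ht]
  have h2' : IsTwo (LK.shift t E) 0 := by
    rw [cb_shift_iff, hk0]
    exact hk₀
  have ha' : (0 : ℤ × ℤ) ∈ cross (LK.shift t E) 0 := by
    rw [cross_shift']
    have h3 : (((0 : ℤ × ℤ).1 - t.1, (0 : ℤ × ℤ).2 - t.2.1) : ℤ × ℤ) = a := by
      simp [ht]
    rw [hk0, h3]
    exact ha
  obtain ⟨v, r, l, hb, hr, hl, hrl⟩ := exists_halves hE' h2' ha'
  have hv : v = a' - a := by
    have h3 : v ∈ cross (LK.shift t E) 0 := by
      rw [← hrl, cross_ring_of hr hl]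
      exact Set.mem_insert_of_mem _ rfl
    rw [cross_shift', hk0, hcr] at h3
    have h4 : ((v.1 - t.1, v.2 - t.2.1) : ℤ × ℤ) = v + a := by
      simp only [ht]
      exact Prod.ext (by simp) (by simp)
    rw [h4] at h3
    rcases h3 with h3 | h3
    · exact absurd (add_eq_right.1 h3).symm hb
    · exact eq_sub_of_add_eq h3
  have hU' : T (LK.shift t E) := hT.inv _ _ (sameType_shift t E) hU
  rw [← hrl] at hU'
  obtain ⟨hUU, hLU⟩ := (ring_iff hT hb hr hl).1 hU'
  have hr0 : nsec r = 0 := by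
    rw [cb_nsec_zero hr hl]
    intro j hj h4
    rw [hrl, cb_shift_iff] at h4
    have h5 := hmax _ h4
    simp only [id] at h5
    have h6 : t.2.2 = -k₀ := rfl
    omega
  refine ⟨v, r, l, t, hUU, hLU, hr0, hrl.symm, ?_⟩
  rw [hv, hsgn]

private theorem exists_snormed {E : Finset (Sym2 P3)} (hE : (verts E).Nonempty) {a : ℤ}
    (h : ∀ u ∈ verts E, 0 ≤ u.2.1 + a ∧ u.2.1 + a ≤ M) :
    ∃ t : P3, t.2.1 = a ∧ SNormed M (LK.shift t E) := by
  obtain ⟨x, hx, hx'⟩ := Set.exists_min_image (verts E) (fun u => u.1) (verts_finite E) hE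
  obtain ⟨z, hz, hz'⟩ := Set.exists_min_image (verts E) (fun u => u.2.2) (verts_finite E) hE
  refine ⟨(-x.1, a, -z.2.2), rfl, ?_, ?_, ?_⟩
  · intro u hu
    have h0 := mem_verts_shift.1 hu
    have h1 := hx' _ h0
    have h2 := h _ h0
    have h3 := hz' _ h0
    simp only [Prod.fst_sub, Prod.snd_sub] at h1 h2 h3
    omega
  · refine ⟨x + (-x.1, a, -z.2.2), mem_verts_shift.2 (by simpa using hx), by simp⟩
  · refine ⟨z + (-x.1, a, -z.2.2), mem_verts_shift.2 (by simpa using hz), by simp⟩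

private theorem snormed_eq {E : Finset (Sym2 P3)} {t : P3} (h1 : SNormed M E)
    (h2 : SNormed M (LK.shift t E)) (ht : t.2.1 = 0) : t = 0 := by
  obtain ⟨a1, ⟨x, hx, hx0⟩, ⟨z, hz, hz0⟩⟩ := h1
  obtain ⟨b1, ⟨x', hx', hx0'⟩, ⟨z', hz', hz0'⟩⟩ := h2
  have e1 := b1 (x + t) (mem_verts_shift.2 (by simpa using hx))
  have e3 := b1 (z + t) (mem_verts_shift.2 (by simpa using hz))
  have f1 := a1 _ (mem_verts_shift.1 hx')
  have f3 := a1 _ (mem_verts_shift.1 hz')
  simp only [Prod.fst_add, Prod.snd_add, Prod.fst_sub, Prod.snd_sub] at e1 e3 f1 f3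
  have g1 : t.1 = 0 := by omega
  have g3 : t.2.2 = 0 := by omega
  exact Prod.ext g1 (Prod.ext ht g3)

private theorem inS_flp {a : ℤ} {l : List P3} (h : InS M a l) : InS M a (flp l) := by
  intro p hp
  unfold flp at hp
  rw [List.mem_reverse, List.mem_map] at hp
  obtain ⟨q, hq, rfl⟩ := hp
  exact h q hq

/-- **The bijection.** Adapt `KComp/CutA.lean` (or derive it from `KComp.cut_a`): the polygon is the translate of
`ring (flp r ++ l)` by a vector whose second coordinate is the height `x.2.1` of the first column, and whose other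
two coordinates are determined by the normalisation; `b : Bool` is the lexicographic sign of `vv x`. For the class:
`ring_iff`, `UT_flp`, `LT_flp`. The slab: all vertices of `ring (flp r ++ l)` raised by `x.2.1` lie in the slab (`flp` does
not change the second coordinates), in particular the heights of the two columns lie between `0` and `M`. Two
translates of the same polygon are equal only if the vectors are equal. -/
theorem cut_slab' (hT : Cls T) (M : ℕ) : ∃ e : PS T M × Bool ≃ TS T M, ∀ p,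
    (∃ t : P3, LK.shift t (ring (flp (e p).2.2.1 ++ (e p).2.1.1)) = p.1.1) ∧
    p.1.1.card = (e p).2.1.1.length + (e p).2.2.1.length ∧
      span p.1.1 = lspan (e p).2.1.1 + lspan (e p).2.2.1 + 1 := by
  classical
  -- the join
  have hne : ∀ p : TS T M, (0 : ℤ × ℤ) ≠ vv p.1 := fun p => p.2.1.2.1.1
  have hlo : ∀ p : TS T M, Lower 0 0 (vv p.1) p.2.1.1 := fun p => p.2.1.2.1.2.1
  have hup : ∀ p : TS T M, Upper 0 0 (vv p.1) (flp p.2.2.1) := fun p =>
    upper_flp p.2.2.2.1.1.2.1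
  have hns : ∀ p : TS T M, nsec (flp p.2.2.1) = 0 := fun p => by
    rw [nsec_flp]
    exact p.2.2.2.1.2
  have hring : ∀ p : TS T M, Ring (flp p.2.2.1 ++ p.2.1.1) := fun p =>
    ring_of (hne p) (hup p) (hlo p)
  have hin : ∀ p : TS T M, ∀ u ∈ verts (ring (flp p.2.2.1 ++ p.2.1.1)),
      0 ≤ u.2.1 + ((p.1.2.1 : ℕ) : ℤ) ∧ u.2.1 + ((p.1.2.1 : ℕ) : ℤ) ≤ M := by
    intro p u hu
    rw [(hring p).mem_verts, List.mem_append] at hu
    rcases hu with hu | hu
    · exact inS_flp p.2.2.2.2 u hu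
    · exact p.2.1.2.2 u hu
  have hex := fun p : TS T M => exists_snormed (hring p).isPolygon.verts_nonempty (hin p)
  choose t ht1 ht2 using hex
  have hpoly : ∀ p : TS T M, IsPolygon (LK.shift (t p) (ring (flp p.2.2.1 ++ p.2.1.1))) :=
    fun p => isPolygon_shift (hring p).isPolygon _
  have hTT : ∀ p : TS T M, T (LK.shift (t p) (ring (flp p.2.2.1 ++ p.2.1.1))) := fun p =>
    hT.inv _ _ (sameType_shift _ _)
      ((ring_iff hT (hne p) (hup p) (hlo p)).2 ⟨UT_flp hT p.2.2.2.1.1, p.2.1.2.1⟩)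
  have htwo : ∀ p : TS T M, ∃ k, IsTwo (LK.shift (t p) (ring (flp p.2.2.1 ++ p.2.1.1))) k :=
    fun p => ⟨(t p).2.2, (cb_shift_iff _ _ _).2 (by
      rw [sub_self]
      exact isTwo_ring_of (hne p) (hup p) (hlo p))⟩
  let φ : TS T M → PS T M × Bool := fun p =>
    (⟨LK.shift (t p) (ring (flp p.2.2.1 ++ p.2.1.1)), ⟨hpoly p, hTT p, ht2 p⟩, htwo p⟩,
      lx (vv p.1))
  have hφ1 : Function.Injective φ := by
    intro p q h
    have h1 := congrArg (fun x : PS T M × Bool => x.1.1) h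
    have h2 := congrArg (fun x : PS T M × Bool => x.2) h
    obtain ⟨e1, e2, e3, e4⟩ := jn_inj (hne p) (hne q) (hup p) (hlo p) (hup q) (hlo q) (hns p)
      (hns q) h1 h2
    have e5 : ((p.1.2.1 : ℕ) : ℤ) = ((q.1.2.1 : ℕ) : ℤ) := by
      rw [← ht1 p, ← ht1 q, e1]
    have e6 : p.2.2.1 = q.2.2.1 := by
      have := congrArg flp e3
      rwa [flp_flp, flp_flp] at this
    obtain ⟨⟨a, h₁, h₂⟩, l, r⟩ := p
    obtain ⟨⟨a', h₁', h₂'⟩, l', r'⟩ := q
    simp only at e2 e4 e5 e6
    have e7 : a = a' := congrArg Prod.fst e2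
    have e8 : h₁ = h₁' := Fin.ext (by exact_mod_cast e5)
    have e9 : h₂ = h₂' := by
      have h3 := congrArg Prod.snd e2
      unfold vv at h3
      simp only at h3
      apply Fin.ext
      omega
    subst e7 e8 e9
    have e10 : l = l' := Subtype.ext e4
    have e11 : r = r' := Subtype.ext e6
    rw [e10, e11]
  have hφ2 : Function.Surjective φ := by
    rintro ⟨⟨E, ⟨hE, hTE, hN⟩, hE2⟩, b⟩
    obtain ⟨v, r, l, s, hUU, hLU, hr0, hs, hb⟩ := cb_exists hT hE hTE hE2 b
    have hR := ring_of hLU.1 hUU.2.1 hLU.2.1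
    have hv : ∀ u ∈ r ++ l, 0 ≤ u.2.1 - s.2.1 ∧ u.2.1 - s.2.1 ≤ M := by
      intro u hu
      rw [← hR.mem_verts, ← hs, mem_verts_shift] at hu
      have := hN.1 _ hu
      simp only [Prod.fst_sub, Prod.snd_sub] at this
      exact ⟨this.2.1, this.2.2.1⟩
    have hcr : cross (ring (r ++ l)) 0 = {0, v} := cross_ring_of hUU.2.1 hLU.2.1
    have hv0 : ((0, 0, 0) : P3) ∈ r ++ l := by
      rw [← hR.mem_verts]
      have h1 : (0 : ℤ × ℤ) ∈ cross (ring (r ++ l)) 0 := by
        rw [hcr]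
        exact Set.mem_insert _ _
      exact left_mem_verts h1
    have hvv : ((v.1, v.2, 0) : P3) ∈ r ++ l := by
      rw [← hR.mem_verts]
      have h1 : v ∈ cross (ring (r ++ l)) 0 := by
        rw [hcr]
        exact Set.mem_insert_of_mem _ rfl
      exact left_mem_verts h1
    have b1 := hv _ hv0
    have b2 := hv _ hvv
    simp only at b1 b2
    obtain ⟨h₁, hh₁⟩ : ∃ h₁ : Fin (M + 1), ((h₁ : ℕ) : ℤ) = -s.2.1 :=
      ⟨⟨(-s.2.1).toNat, by omega⟩, by simp only; omega⟩
    obtain ⟨h₂, hh₂⟩ : ∃ h₂ : Fin (M + 1), ((h₂ : ℕ) : ℤ) = v.2 - s.2.1 :=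
      ⟨⟨(v.2 - s.2.1).toNat, by omega⟩, by simp only; omega⟩
    have hx : vv (M := M) (v.1, (h₁, h₂)) = v := by
      unfold vv
      simp only
      refine Prod.ext rfl ?_
      simp only
      omega
    have hl' : LT T 0 0 (vv (M := M) (v.1, (h₁, h₂))) l ∧ InS M ((h₁ : ℕ) : ℤ) l := by
      rw [hx]
      refine ⟨hLU, fun u hu => ?_⟩
      have := hv u (List.mem_append_right _ hu)
      omega
    have hr' : HalfT T 0 (vv (M := M) (v.1, (h₁, h₂))) (flp r) ∧
        InS M ((h₁ : ℕ) : ℤ) (flp r) := by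
      rw [hx]
      refine ⟨⟨LT_flp hT hUU, by rw [nsec_flp, hr0]⟩, inS_flp fun u hu => ?_⟩
      have := hv u (List.mem_append_left _ hu)
      omega
    let p : TS T M := ⟨(v.1, (h₁, h₂)), ⟨l, hl'⟩, ⟨flp r, hr'⟩⟩
    refine ⟨p, Prod.ext (Subtype.ext ?_) ?_⟩
    · show LK.shift (t p) (ring (flp (flp r) ++ l)) = E
      have h1 := ht2 p
      have h2 := ht1 p
      change SNormed M (LK.shift (t p) (ring (flp (flp r) ++ l))) at h1
      change (t p).2.1 = ((h₁ : ℕ) : ℤ) at h2
      rw [flp_flp, ← hs, shift_shift] at h1 ⊢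
      have h3 : t p + s = 0 := by
        refine snormed_eq hN h1 ?_
        simp only [Prod.snd_add, Prod.fst_add]
        omega
      rw [h3, shift_zero]
    · show lx (vv (M := M) (v.1, (h₁, h₂))) = b
      rw [hx, hb]
  have hcard : ∀ p, (φ p).1.1.card = p.2.1.1.length + p.2.2.1.length := by
    intro p
    change (LK.shift (t p) (ring (flp p.2.2.1 ++ p.2.1.1))).card = _
    rw [card_shift, (hring p).card_eq, List.length_append, length_flp, add_comm]
  have hspan : ∀ p, span (φ p).1.1 = lspan p.2.1.1 + lspan p.2.2.1 + 1 := by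
    intro p
    change span (LK.shift (t p) (ring (flp p.2.2.1 ++ p.2.1.1))) = _
    rw [span_shift', span_ring (hup p) (hlo p), lspan_flp]
  refine ⟨(Equiv.ofBijective φ ⟨hφ1, hφ2⟩).symm, fun x => ?_⟩
  obtain ⟨p, rfl⟩ := hφ2 x
  have h1 : (Equiv.ofBijective φ ⟨hφ1, hφ2⟩).symm (φ p) = p :=
    (Equiv.ofBijective φ ⟨hφ1, hφ2⟩).symm_apply_apply p
  rw [h1]
  exact ⟨⟨t p, rfl⟩, hcard p, hspan p⟩

theorem cut_slab (hT : Cls T) (M : ℕ) : ∃ e : PS T M × Bool ≃ TS T M, ∀ p,
    p.1.1.card = (e p).2.1.1.length + (e p).2.2.1.length ∧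
      span p.1.1 = lspan (e p).2.1.1 + lspan (e p).2.2.1 + 1 := by
  obtain ⟨e, he⟩ := cut_slab' hT M
  exact ⟨e, fun p => (he p).2⟩

end Pool.Agent.KSlab
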