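import Pool.Agent.KSlab.MBas
import Pool.Agent.KCls.Far

/-! SM5: the defects. -/

set_option autoImplicit false

open Pool.Agent.LK
open scoped ENNReal

namespace Pool.Agent.KSlab

open Pool.Agent.KTube Pool.Agent.KRing Pool.Agent.KLog Pool.Agent.KCls
open Pool.Agent.KAsym (ln wtR wlR)

variable {T : Finset (Sym2 P3) → Prop} {M : ℕ} {y z : ℝ} {h : II M → ℝ}

/-- The pairs that can be defects at `v`. -/
def Dfc (v : ℤ × ℤ) (π : PP) : Prop := ¬ Bas π ∧ (∃ w, Geo w π) ∧ nrm v ≤ nh π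

private theorem dfc_vv {x x' : XX (II M)} {π : PP} (hc : CX x x' π) :
    vv x' = vv x + dsp π := by
  obtain ⟨⟨-, -, eA, eB⟩, h1⟩ := hc
  refine Prod.ext h1.symm ?_
  change ((x'.2.2 : ℕ) : ℤ) - ((x'.2.1 : ℕ) : ℤ) =
    (((x.2.2 : ℕ) : ℤ) - ((x.2.1 : ℕ) : ℤ)) + (π.2.sum.2.1 - π.1.sum.2.1)
  omega

private theorem dfc_al (x : XX (II M)) : (slb T M y z h).Al x ↔ vv x ≠ 0 := by
  have h1 : x.2 ∈ (slb T M y z h).D ↔ x.2.1 = x.2.2 := Iff.rfl
  unfold Slb.Al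
  rw [h1, Ne, not_iff_not]
  constructor
  · rintro ⟨h2, h3⟩
    refine Prod.ext h2 ?_
    change ((x.2.2 : ℕ) : ℤ) - ((x.2.1 : ℕ) : ℤ) = 0
    rw [h3]
    omega
  · intro h2
    have h3 : x.1 = 0 := congrArg Prod.fst h2
    have h4 : ((x.2.2 : ℕ) : ℤ) - ((x.2.1 : ℕ) : ℤ) = 0 := congrArg Prod.snd h2
    exact ⟨h3, Fin.ext (by omega)⟩

private theorem dfc_key (hT : Cls T) {x x' : XX (II M)} {π : PP} (hx : vv x ≠ 0)
    (hx' : vv x' ≠ 0) (hc : CX x x' π) (hg : ∃ w, Geo w π) (hD : ¬ Dfc (vv x) π) :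
    ValidT T (vv x) π ↔ FreeT T π := by
  by_cases hb : Bas π
  · obtain ⟨h1, h2⟩ := bas_all hT hb hg
    rw [h2, ← dfc_vv hc]
    exact ⟨fun _ => h1, fun _ => ⟨hx, hx'⟩⟩
  · refine valid_far hT ?_
    by_contra h3
    exact hD ⟨hb, hg, not_lt.1 h3⟩

private theorem dfc_gn (P : PP → Prop) (x x' : XX (II M)) (n : ℕ) :
    gn y z P x x' n =
      ∑' π : PP, Set.indicator {π : PP | P π ∧ CX x x' π ∧ ln π = n} (wtR y z) π := by
  unfold gn
  exact tsum_subtype {π : PP | P π ∧ CX x x' π ∧ ln π = n} (wtR y z)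

private theorem dfc_summable (hy : 0 < y) (hz : 0 < z) (hz1 : z ≤ 1 / 10 ^ 12)
    (hq : y * z ^ 2 ≤ 1) {A : Set PP} (hA : ∀ π ∈ A, ∃ v, Geo v π) :
    Summable (A.indicator (wtR y z)) := by
  have h0 : Summable (Set.indicator {π : PP | ∃ v, Geo v π} (wtR y z)) := by
    rw [← summable_subtype_iff_indicator]
    have h1 := geo_fin hy hz hz1 hq
    refine (sum_of (f := fun π : {π : PP // ∃ v, Geo v π} => wtR y z π.1)
      (fun π => wtR_nn hy hz _) (c := (∑' π : {π : PP // ∃ v, Geo v π},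
        wt (ENNReal.ofReal y) (ENNReal.ofReal z) π.1 * 2 ^ ln π.1 * 576 ^ nh π.1).toReal)
      ENNReal.toReal_nonneg ?_).1
    rw [ENNReal.ofReal_toReal h1]
    refine ENNReal.tsum_le_tsum fun π => ?_
    rw [← wt_eq hy hz]
    have h2 : (1 : ℝ≥0∞) ≤ 2 ^ ln π.1 := one_le_pow₀ (by norm_num)
    have h3 : (1 : ℝ≥0∞) ≤ 576 ^ nh π.1 := one_le_pow₀ (by norm_num)
    calc wt (ENNReal.ofReal y) (ENNReal.ofReal z) π.1
        = wt (ENNReal.ofReal y) (ENNReal.ofReal z) π.1 * 1 * 1 := by rw [mul_one, mul_one]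
      _ ≤ _ := by gcongr
  have h1 := h0.indicator A
  have h2 : A ∩ {π : PP | ∃ v, Geo v π} = A := Set.inter_eq_left.2 hA
  rwa [Set.indicator_indicator, h2] at h1

/-- Let `x` be alive. By `fx_eq` both `k` and `fx` are sums of `wtR` over pairs with `CX x x' π`, `ln π = n`, with `ValidT` at
`vv x` resp. `FreeT`. If `nh π < nrm (vv x)` then `ValidT` iff `FreeT` (`valid_far`) and `x'` is alive:
`vv x' = vv x + dsp π` and `nrm (dsp π) ≤ nh π`. If `π` is basic: `FreeT`, and `ValidT` iff `vv x' ≠ 0` (`bas_all`).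
So only the pairs `Dfc` contribute to the difference, each with at most `wtR`. -/
theorem df_abs (hT : Cls T) (hy : 0 < y) (hz : 0 < z) (hz1 : z ≤ 1 / 10 ^ 12)
    (hq : y * z ^ 2 ≤ 1) (n : ℕ) (x x' : XX (II M)) (hx : (slb T M y z h).Al x) :
    |(slb T M y z h).df n x x'| ≤ gn y z (Dfc (vv x)) x x' n := by
  classical
  have hv : vv x ≠ 0 := (dfc_al x).1 hx
  have hk : (slb T M y z h).k n x x' = gn y z (ValidT T (vv x)) x x' n := rfl
  have sA : Summable (Set.indicator {π : PP | ValidT T (vv x) π ∧ CX x x' π ∧ ln π = n}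
      (wtR y z)) := dfc_summable hy hz hz1 hq fun π hπ => ⟨_, hπ.1.1⟩
  have sB : Summable (Set.indicator {π : PP | FreeT T π ∧ CX x x' π ∧ ln π = n}
      (wtR y z)) := dfc_summable hy hz hz1 hq fun π hπ => by
    obtain ⟨⟨v, -, h1⟩, -⟩ := hπ
    exact ⟨v, h1.1⟩
  have sD : Summable (Set.indicator {π : PP | Dfc (vv x) π ∧ CX x x' π ∧ ln π = n}
      (wtR y z)) := dfc_summable hy hz hz1 hq fun π hπ => hπ.1.2.1
  unfold Slb.df
  rw [hk, ← Real.norm_eq_abs]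
  by_cases hx' : (slb T M y z h).Al x'
  · have hv' : vv x' ≠ 0 := (dfc_al x').1 hx'
    rw [if_pos hx', fx_eq, dfc_gn, dfc_gn, dfc_gn, ← Summable.tsum_sub sA sB]
    refine tsum_of_norm_bounded sD.hasSum fun π => ?_
    by_cases hD : π ∈ {π : PP | Dfc (vv x) π ∧ CX x x' π ∧ ln π = n}
    · have hw := wtR_nn hy hz π
      rw [Set.indicator_of_mem hD, Real.norm_eq_abs]
      by_cases hA : π ∈ {π : PP | ValidT T (vv x) π ∧ CX x x' π ∧ ln π = n}
      · rw [Set.indicator_of_mem hA]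
        by_cases hB : π ∈ {π : PP | FreeT T π ∧ CX x x' π ∧ ln π = n}
        · rw [Set.indicator_of_mem hB, sub_self, abs_zero]
          exact hw
        · rw [Set.indicator_of_notMem hB, sub_zero, abs_of_nonneg hw]
      · rw [Set.indicator_of_notMem hA]
        by_cases hB : π ∈ {π : PP | FreeT T π ∧ CX x x' π ∧ ln π = n}
        · rw [Set.indicator_of_mem hB, zero_sub, abs_neg, abs_of_nonneg hw]
        · rw [Set.indicator_of_notMem hB, sub_zero, abs_zero]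
          exact hw
    · rw [Set.indicator_of_notMem hD]
      have hAB : π ∈ {π : PP | ValidT T (vv x) π ∧ CX x x' π ∧ ln π = n} ↔
          π ∈ {π : PP | FreeT T π ∧ CX x x' π ∧ ln π = n} := by
        constructor
        · rintro ⟨h1, h2, h3⟩
          exact ⟨(dfc_key hT hv hv' h2 ⟨_, h1.1⟩ (fun h4 => hD ⟨h4, h2, h3⟩)).1 h1, h2, h3⟩
        · rintro ⟨h1, h2, h3⟩
          have h5 : ∃ w, Geo w π := by
            obtain ⟨w, -, h6⟩ := h1
            exact ⟨w, h6.1⟩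
          exact ⟨(dfc_key hT hv hv' h2 h5 (fun h4 => hD ⟨h4, h2, h3⟩)).2 h1, h2, h3⟩
      by_cases hA : π ∈ {π : PP | ValidT T (vv x) π ∧ CX x x' π ∧ ln π = n}
      · rw [Set.indicator_of_mem hA, Set.indicator_of_mem (hAB.1 hA), sub_self, norm_zero]
      · rw [Set.indicator_of_notMem hA, Set.indicator_of_notMem (mt hAB.2 hA), sub_self,
          norm_zero]
  · have hv' : vv x' = 0 := by
      by_contra h1
      exact hx' ((dfc_al x').2 h1)
    rw [if_neg hx', sub_zero, dfc_gn, dfc_gn]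
    refine tsum_of_norm_bounded sD.hasSum fun π => ?_
    have hw := wtR_nn hy hz π
    by_cases hA : π ∈ {π : PP | ValidT T (vv x) π ∧ CX x x' π ∧ ln π = n}
    · have hD : π ∈ {π : PP | Dfc (vv x) π ∧ CX x x' π ∧ ln π = n} := by
        obtain ⟨h1, h2, h3⟩ := hA
        have h4 := dfc_vv h2
        rw [hv'] at h4
        refine ⟨⟨fun hb => ?_, ⟨_, h1.1⟩, ?_⟩, h2, h3⟩
        · exact (((bas_all hT hb ⟨_, h1.1⟩).2 _).1 h1).2 h4.symm
        · have h5 : nrm (dsp π) ≤ nh π := nrm_dsp_le h1.1.stA h1.1.stB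
          have h6 : vv x = -dsp π := eq_neg_of_add_eq_zero_left h4.symm
          rw [h6]
          unfold nrm at h5 ⊢
          rw [Prod.fst_neg, Prod.snd_neg, Int.natAbs_neg, Int.natAbs_neg]
          exact h5
      rw [Set.indicator_of_mem hD, Set.indicator_of_mem hA, Real.norm_eq_abs,
        abs_of_nonneg hw]
    · rw [Set.indicator_of_notMem hA, norm_zero]
      exact Set.indicator_nonneg (fun π _ => wtR_nn hy hz π) π

private theorem dfc_main (hT : Cls T) (hy : 0 < y) (hz : 0 < z) (hz1 : z ≤ 1 / 10 ^ 12)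
    (hq : y * z ^ 2 ≤ 1) (x : XX (II M)) (hx : (slb T M y z h).Al x) (φ : ℕ → ℝ)
    (χ : XX (II M) → ℝ) (hφ0 : ∀ n, 0 ≤ φ n) (hχ0 : ∀ x', 0 ≤ χ x') (r : ℝ) (hr : 0 ≤ r)
    (hb : ∀ (π : PP) (x' : XX (II M)), Dfc (vv x) π → CX x x' π →
      χ x' * φ (ln π) ≤ r * (2 ^ ln π * 576 ^ nh π)) :
    (Summable fun p : ℕ × XX (II M) => φ p.1 * χ p.2 * |(slb T M y z h).df p.1 x p.2|) ∧
    ∑' p : ℕ × XX (II M), φ p.1 * χ p.2 * |(slb T M y z h).df p.1 x p.2| ≤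
      r * (z / 1000) := by
  set G : PP → ℝ≥0∞ := fun π => ENNReal.ofReal r *
    (wt (ENNReal.ofReal y) (ENNReal.ofReal z) π * 2 ^ (π.1.length + π.2.length + 2) *
      576 ^ nh π) with hG
  refine sum_of (fun p => mul_nonneg (mul_nonneg (hφ0 _) (hχ0 _)) (abs_nonneg _))
    (by positivity) ?_
  have e1 : ∀ p : ℕ × XX (II M), ENNReal.ofReal (φ p.1 * χ p.2 * |(slb T M y z h).df p.1 x p.2|) ≤
      ENNReal.ofReal (χ p.2) * (ENNReal.ofReal (φ p.1) *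
        ENNReal.ofReal (gn y z (Dfc (vv x)) x p.2 p.1)) := by
    intro p
    rw [ENNReal.ofReal_mul (mul_nonneg (hφ0 _) (hχ0 _)), ENNReal.ofReal_mul (hφ0 _),
      mul_comm (ENNReal.ofReal (φ p.1)), mul_assoc]
    gcongr
    exact df_abs hT hy hz hz1 hq p.1 x p.2 hx
  have e2 : ∀ x' : XX (II M), ∑' n : ℕ, ENNReal.ofReal (χ x') * (ENNReal.ofReal (φ n) *
      ENNReal.ofReal (gn y z (Dfc (vv x)) x x' n)) =
      ∑' π : {π // Dfc (vv x) π ∧ CX x x' π}, ENNReal.ofReal (χ x') *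
        (ENNReal.ofReal (φ (ln π.1)) * wt (ENNReal.ofReal y) (ENNReal.ofReal z) π.1) := by
    intro x'
    rw [ENNReal.tsum_mul_left, ENNReal.tsum_mul_left,
      fib hy hz hz1 hq (fun π hπ => hπ.2.1) x x' (fun n => ENNReal.ofReal (φ n))]
  have e3 : ∀ (x' : XX (II M)) (π : {π // Dfc (vv x) π ∧ CX x x' π}), ENNReal.ofReal (χ x') *
      (ENNReal.ofReal (φ (ln π.1)) * wt (ENNReal.ofReal y) (ENNReal.ofReal z) π.1) ≤ G π.1 := by
    rintro x' ⟨π, h1, h2⟩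
    have h3 := ENNReal.ofReal_le_ofReal (hb π x' h1 h2)
    rw [ENNReal.ofReal_mul (hχ0 _), ENNReal.ofReal_mul hr,
      ENNReal.ofReal_mul (by positivity), ENNReal.ofReal_pow (by norm_num),
      ENNReal.ofReal_pow (by norm_num), ENNReal.ofReal_ofNat, ENNReal.ofReal_ofNat] at h3
    rw [hG]
    simp only
    calc ENNReal.ofReal (χ x') * (ENNReal.ofReal (φ (ln π)) *
          wt (ENNReal.ofReal y) (ENNReal.ofReal z) π)
        = (ENNReal.ofReal (χ x') * ENNReal.ofReal (φ (ln π))) *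
          wt (ENNReal.ofReal y) (ENNReal.ofReal z) π := by ring
      _ ≤ (ENNReal.ofReal r * (2 ^ ln π * 576 ^ nh π)) *
          wt (ENNReal.ofReal y) (ENNReal.ofReal z) π := by gcongr
      _ = _ := by
        unfold ln
        ring
  have inj : Function.Injective (fun π : {π // Dfc (vv x) π ∧ ∃ x', CX x x' π} =>
      (⟨π.1, π.2.1.1, π.2.1.2.1⟩ : {π : PP // ¬ Bas π ∧ ∃ v, Geo v π})) := by
    intro a b hab
    exact Subtype.ext (congrArg (fun c : {π : PP // ¬ Bas π ∧ ∃ v, Geo v π} => c.1) hab)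
  calc ∑' p : ℕ × XX (II M), ENNReal.ofReal (φ p.1 * χ p.2 * |(slb T M y z h).df p.1 x p.2|)
      ≤ ∑' p : ℕ × XX (II M), ENNReal.ofReal (χ p.2) * (ENNReal.ofReal (φ p.1) *
        ENNReal.ofReal (gn y z (Dfc (vv x)) x p.2 p.1)) := ENNReal.tsum_le_tsum e1
    _ = ∑' x' : XX (II M), ∑' n : ℕ, ENNReal.ofReal (χ x') * (ENNReal.ofReal (φ n) *
        ENNReal.ofReal (gn y z (Dfc (vv x)) x x' n)) := by
      rw [ENNReal.tsum_comm]
      exact ENNReal.tsum_prod (f := fun (n : ℕ) (x' : XX (II M)) => ENNReal.ofReal (χ x') *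
        (ENNReal.ofReal (φ n) * ENNReal.ofReal (gn y z (Dfc (vv x)) x x' n)))
    _ = ∑' x' : XX (II M), ∑' π : {π // Dfc (vv x) π ∧ CX x x' π}, ENNReal.ofReal (χ x') *
        (ENNReal.ofReal (φ (ln π.1)) * wt (ENNReal.ofReal y) (ENNReal.ofReal z) π.1) :=
      tsum_congr e2
    _ ≤ ∑' x' : XX (II M), ∑' π : {π // Dfc (vv x) π ∧ CX x x' π}, G π.1 :=
      ENNReal.tsum_le_tsum fun x' => ENNReal.tsum_le_tsum (e3 x')
    _ = ∑' π : {π // Dfc (vv x) π ∧ ∃ x', CX x x' π}, G π.1 := cx_sum x _ G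
    _ ≤ ∑' π : {π : PP // ¬ Bas π ∧ ∃ v, Geo v π}, G π.1 :=
      ENNReal.tsum_comp_le_tsum_of_injective inj
        (fun π : {π : PP // ¬ Bas π ∧ ∃ v, Geo v π} => G π.1)
    _ ≤ ENNReal.ofReal r * ENNReal.ofReal (z / 1000) := by
      rw [hG, ENNReal.tsum_mul_left]
      gcongr
      exact rest_geo' hy hz hz1 hq
    _ = ENNReal.ofReal (r * (z / 1000)) := (ENNReal.ofReal_mul hr).symm

/-- `576 ^ nrm v ≤ 576 ^ nh π` and `rest_geo'`; `fib`, `cx_sum`, `sum_of`. -/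
theorem df_le (hT : Cls T) (hy : 0 < y) (hz : 0 < z) (hz1 : z ≤ 1 / 10 ^ 12)
    (hq : y * z ^ 2 ≤ 1) (x : XX (II M)) (hx : (slb T M y z h).Al x) :
    ∑' p : ℕ × XX (II M), |(slb T M y z h).df p.1 x p.2| ≤
      z / 500 * (1 / 576) ^ (slb T M y z h).len x := by
  have h1 := dfc_main hT hy hz hz1 hq x hx (fun _ => 1) (fun _ => 1) (fun _ => zero_le_one)
    (fun _ => zero_le_one) ((1 / 576) ^ nrm (vv x)) (by positivity) (by
      intro π x' hD _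
      rw [mul_one]
      have h2 : (1 : ℝ) ≤ 2 ^ ln π := one_le_pow₀ (by norm_num)
      have h3 : (576 : ℝ) ^ nrm (vv x) ≤ 576 ^ nh π := pow_le_pow_right₀ (by norm_num) hD.2.2
      have h4 : (1 / 576 : ℝ) ^ nrm (vv x) * 576 ^ nrm (vv x) = 1 := by
        rw [← mul_pow]
        norm_num
      calc (1 : ℝ) = (1 / 576) ^ nrm (vv x) * (1 * 576 ^ nrm (vv x)) := by rw [one_mul, h4]
        _ ≤ (1 / 576) ^ nrm (vv x) * (2 ^ ln π * 576 ^ nh π) := by gcongr)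
  have h2 := h1.2
  simp only [one_mul] at h2
  refine h2.trans ?_
  change (1 / 576 : ℝ) ^ nrm (vv x) * (z / 1000) ≤ z / 500 * (1 / 576) ^ nrm (vv x)
  have h3 : (0 : ℝ) ≤ (1 / 576) ^ nrm (vv x) := by positivity
  nlinarith [mul_nonneg h3 hz.le]

/-- `x'.1 = x.1 + (dsp π).1`, `|x'.1| ≤ |x.1| + nh π`, `|x.1| ≤ nrm (vv x) ≤ nh π`, so
`4 ^ |x'.1| ≤ 4 ^ |x.1| 4 ^ nh ≤ 576 ^ nh (1/4) ^ |x.1|` since `16 ^ |x.1| 4 ^ nh ≤ 64 ^ nh`. -/
theorem df_sum (hT : Cls T) (hy : 0 < y) (hz : 0 < z) (hz1 : z ≤ 1 / 10 ^ 12)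
    (hq : y * z ^ 2 ≤ 1) : ∃ C : ℝ, ∀ x : XX (II M), (slb T M y z h).Al x →
    (Summable fun p : ℕ × XX (II M) =>
      2 ^ p.1 * 4 ^ p.2.1.natAbs * |(slb T M y z h).df p.1 x p.2|) ∧
    ∑' p : ℕ × XX (II M), 2 ^ p.1 * 4 ^ p.2.1.natAbs * |(slb T M y z h).df p.1 x p.2| ≤
      C * (1 / 4) ^ x.1.natAbs := by
  refine ⟨z / 1000, fun x hx => ?_⟩
  rw [mul_comm (z / 1000)]
  refine dfc_main hT hy hz hz1 hq x hx (fun n => 2 ^ n) (fun x' => 4 ^ x'.1.natAbs)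
    (fun _ => by positivity) (fun _ => by positivity) ((1 / 4) ^ x.1.natAbs) (by positivity) ?_
  intro π x' hD hc
  obtain ⟨-, ⟨w, hw⟩, hn⟩ := hD
  have h1 : nrm (dsp π) ≤ nh π := nrm_dsp_le hw.stA hw.stB
  have h2 : x.1.natAbs ≤ nrm (vv x) := Nat.le_add_right _ _
  have h3 : (dsp π).1.natAbs ≤ nrm (dsp π) := Nat.le_add_right _ _
  have h4 : x'.1.natAbs ≤ x.1.natAbs + (dsp π).1.natAbs := by
    rw [← hc.2]
    exact Int.natAbs_add_le _ _
  have h5 : x'.1.natAbs + x.1.natAbs ≤ 3 * nh π := by omega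
  have h6 : (4 : ℝ) ^ x'.1.natAbs * 4 ^ x.1.natAbs ≤ 576 ^ nh π := by
    rw [← pow_add]
    calc (4 : ℝ) ^ (x'.1.natAbs + x.1.natAbs) ≤ 4 ^ (3 * nh π) :=
          pow_le_pow_right₀ (by norm_num) h5
      _ = 64 ^ nh π := by rw [pow_mul]; norm_num
      _ ≤ 576 ^ nh π := pow_le_pow_left₀ (by norm_num) (by norm_num) _
  have h7 : (1 / 4 : ℝ) ^ x.1.natAbs * 4 ^ x.1.natAbs = 1 := by
    rw [← mul_pow]
    norm_num
  calc (4 : ℝ) ^ x'.1.natAbs * 2 ^ ln π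
      = (1 / 4 : ℝ) ^ x.1.natAbs * (2 ^ ln π * (4 ^ x'.1.natAbs * 4 ^ x.1.natAbs)) := by
        calc (4 : ℝ) ^ x'.1.natAbs * 2 ^ ln π
            = ((1 / 4 : ℝ) ^ x.1.natAbs * 4 ^ x.1.natAbs) * (4 ^ x'.1.natAbs * 2 ^ ln π) := by
              rw [h7, one_mul]
          _ = _ := by ring
    _ ≤ (1 / 4 : ℝ) ^ x.1.natAbs * (2 ^ ln π * 576 ^ nh π) := by gcongr

end Pool.Agent.KSlab
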