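import Pool.Agent.KSlab.SDefs
import Pool.Agent.KCls.Rest

/-! SM1: sums over the sizes and over the final states. -/

set_option autoImplicit false

open Pool.Agent.LK
open scoped ENNReal

namespace Pool.Agent.KSlab

open Pool.Agent.KTube Pool.Agent.KRing Pool.Agent.KLog Pool.Agent.KCls
open Pool.Agent.KAsym (ln wtR wlR)

variable {T : Finset (Sym2 P3) → Prop} {M : ℕ} {y z : ℝ} {h : II M → ℝ}

private theorem mf_summable {α : Type*} {f : α → ℝ} (hf : ∀ a, 0 ≤ f a)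
    (h : ∑' a, ENNReal.ofReal (f a) ≠ ⊤) : Summable f ∧
      ∑' a, f a = (∑' a, ENNReal.ofReal (f a)).toReal := by
  have h1 := ENNReal.summable_toReal h
  have h2 : (fun a => (ENNReal.ofReal (f a)).toReal) = f :=
    funext fun a => ENNReal.toReal_ofReal (hf a)
  rw [h2] at h1
  refine ⟨h1, ?_⟩
  rw [ENNReal.tsum_toReal_eq fun a => ENNReal.ofReal_ne_top, h2]

private theorem mf_fib {α : Type*} {A B : α → Prop} (len : α → ℕ) {f : α → ℝ}
    (hf : ∀ a, 0 ≤ f a) (hfin : ∑' a : {a // A a ∧ B a}, ENNReal.ofReal (f a.1) ≠ ⊤)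
    (φ : ℕ → ℝ≥0∞) :
    ∑' n, φ n * ENNReal.ofReal (∑' a : {a // A a ∧ B a ∧ len a = n}, f a.1) =
      ∑' a : {a // A a ∧ B a}, φ (len a.1) * ENNReal.ofReal (f a.1) := by
  let e : (Σ n : ℕ, {a // A a ∧ B a ∧ len a = n}) ≃ {a // A a ∧ B a} :=
    { toFun := fun x => ⟨x.2.1, x.2.2.1, x.2.2.2.1⟩
      invFun := fun a => ⟨len a.1, ⟨a.1, a.2.1, a.2.2, rfl⟩⟩
      left_inv := by
        rintro ⟨n, ⟨a, h1, h2, rfl⟩⟩
        rfl
      right_inv := fun a => rfl }
  rw [← e.tsum_eq, ENNReal.tsum_sigma' fun x =>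
    φ (len (e x).1) * ENNReal.ofReal (f (e x).1)]
  refine tsum_congr fun n => ?_
  have hfin' : ∑' a : {a // A a ∧ B a ∧ len a = n}, ENNReal.ofReal (f a.1) ≠ ⊤ := by
    refine ne_top_of_le_ne_top hfin ?_
    let i : {a // A a ∧ B a ∧ len a = n} → {a // A a ∧ B a} := fun a => ⟨a.1, a.2.1, a.2.2.1⟩
    have hi : Function.Injective i := fun a b h => Subtype.ext (congrArg (fun x => x.1) h)
    exact ENNReal.tsum_comp_le_tsum_of_injective hi
      fun a : {a // A a ∧ B a} => ENNReal.ofReal (f a.1)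
  rw [ENNReal.ofReal_tsum_of_nonneg (fun a : {a // A a ∧ B a ∧ len a = n} => hf a.1)
    (mf_summable (fun a : {a // A a ∧ B a ∧ len a = n} => hf a.1) hfin').1,
    ← ENNReal.tsum_mul_left]
  refine tsum_congr fun a => ?_
  change φ n * ENNReal.ofReal (f a.1) = φ (len a.1) * ENNReal.ofReal (f a.1)
  rw [a.2.2.2]

private theorem mf_st4 {d : P3} (hd : IsStep d) (h : brk (lets [d]) = 0) : ∃ i, d = st4 i := by
  rcases hlet_cases hd with ⟨i, hi, hd', -⟩ | ⟨hi, -⟩
  · exact ⟨i, hd'⟩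
  · simp [brk, hi] at h

private theorem mf_len (s : List P3) : s.length = brk (lets s) + stp (lets s) := by
  induction s with
  | nil => rfl
  | cons d s ih =>
    rw [List.length_cons, ih, lets_cons]
    cases h : hlet d with
    | none => rw [brk_none, stp_none]; omega
    | some i => rw [brk_some, stp_some]; omega

private theorem mf_cases {π : PP} (hA : Steps π.1) (hB : Steps π.2) (h : Bas π) :
    π = ([], []) ∨ (∃ i, π = ([st4 i], [])) ∨ ∃ i, π = ([], [st4 i]) := by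
  obtain ⟨s, t⟩ := π
  obtain ⟨h1, h2⟩ := h
  simp only [nv, nh] at h1 h2 hA hB
  have hs := mf_len s
  have ht := mf_len t
  match s, t, hA, hB, hs, ht, h1, h2 with
  | [], [], _, _, _, _, _, _ => exact Or.inl rfl
  | [d], [], hA, _, _, _, h1, _ =>
    obtain ⟨i, hi⟩ := mf_st4 (hA d (by simp)) (by omega)
    exact Or.inr (Or.inl ⟨i, by rw [hi]⟩)
  | [], [d], _, hB, _, _, h1, _ =>
    obtain ⟨i, hi⟩ := mf_st4 (hB d (by simp)) (by omega)
    exact Or.inr (Or.inr ⟨i, by rw [hi]⟩)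
  | d :: d' :: s, t, _, _, hs, ht, h1, h2 =>
    simp only [List.length_cons] at hs
    omega
  | s, d :: d' :: t, _, _, hs, ht, h1, h2 =>
    simp only [List.length_cons] at ht
    omega
  | d :: s, d' :: t, _, _, hs, ht, h1, h2 =>
    simp only [List.length_cons] at hs ht
    omega

theorem wtR_nn (hy : 0 < y) (hz : 0 < z) (π : PP) : 0 ≤ wtR y z π := by
  unfold wtR
  positivity

theorem wlR_nn (hy : 0 < y) (hz : 0 < z) (l : List P3) : 0 ≤ wlR y z l := by
  unfold wlR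
  positivity

/-- See `md_wt` in `KCls/Model.lean`. -/
theorem wt_eq (hy : 0 < y) (hz : 0 < z) (π : PP) :
    wt (ENNReal.ofReal y) (ENNReal.ofReal z) π = ENNReal.ofReal (wtR y z π) := by
  unfold wt wtR ln
  rw [ENNReal.ofReal_mul (by positivity), ENNReal.ofReal_pow hy.le, ENNReal.ofReal_pow hz.le]

theorem wl_eq (hy : 0 < y) (hz : 0 < z) (l : List P3) :
    wl (ENNReal.ofReal y) (ENNReal.ofReal z) l = ENNReal.ofReal (wlR y z l) := by
  unfold wl wlR
  rw [ENNReal.ofReal_mul (by positivity), ENNReal.ofReal_pow hy.le, ENNReal.ofReal_pow hz.le]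

/-- See `md_sum` in `KCls/Model.lean`. -/
theorem sum_of {α : Type*} {f : α → ℝ} (hf : ∀ a, 0 ≤ f a) {c : ℝ} (hc : 0 ≤ c)
    (h : ∑' a, ENNReal.ofReal (f a) ≤ ENNReal.ofReal c) : Summable f ∧ ∑' a, f a ≤ c := by
  obtain ⟨h1, h2⟩ := mf_summable hf (ne_top_of_le_ne_top ENNReal.ofReal_ne_top h)
  refine ⟨h1, ?_⟩
  rw [h2, ← ENNReal.toReal_ofReal hc]
  exact ENNReal.toReal_mono ENNReal.ofReal_ne_top h

/-- The final state is determined by the initial state and the pair. -/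
theorem cx_unique {x a b : XX (II M)} {π : PP} (h : CX x a π) (h' : CX x b π) : a = b := by
  obtain ⟨h1, h2⟩ := h
  obtain ⟨h1', h2'⟩ := h'
  have e1 := h1.eA.symm.trans h1'.eA
  have e2 := h1.eB.symm.trans h1'.eB
  have e3 := h2.symm.trans h2'
  refine Prod.ext e3 (Prod.ext (Fin.ext ?_) (Fin.ext ?_))
  · exact_mod_cast e1
  · exact_mod_cast e2

/-- The initial state is determined by the final state and the pair. -/
theorem cx_unique' {x a b : XX (II M)} {π : PP} (h : CX a x π) (h' : CX b x π) : a = b := by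
  obtain ⟨h1, h2⟩ := h
  obtain ⟨h1', h2'⟩ := h'
  have e1 := h1.eA.trans h1'.eA.symm
  have e2 := h1.eB.trans h1'.eB.symm
  have e3 := h2.trans h2'.symm
  refine Prod.ext (by linarith) (Prod.ext (Fin.ext ?_) (Fin.ext ?_))
  · have e4 := add_right_cancel e1
    exact_mod_cast e4
  · have e4 := add_right_cancel e2
    exact_mod_cast e4

/-- All geometric pairs: the basic ones (at most nine: `KLog.basF`, `geo` implies `Steps`; or a finite set) and
`rest_geo'`. -/
theorem geo_fin (hy : 0 < y) (hz : 0 < z) (hz1 : z ≤ 1 / 10 ^ 12) (hq : y * z ^ 2 ≤ 1) :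
    ∑' π : {π : PP // ∃ v, Geo v π}, wt (ENNReal.ofReal y) (ENNReal.ofReal z) π.1 *
      2 ^ ln π.1 * 576 ^ nh π.1 ≠ ⊤ := by
  classical
  set F : PP → ℝ≥0∞ := fun π => wt (ENNReal.ofReal y) (ENNReal.ofReal z) π *
      2 ^ ln π * 576 ^ nh π with hF
  let S1 : Finset PP := {([], [])} ∪ (Finset.univ.image fun i : Fin 4 => ([st4 i], [])) ∪
    (Finset.univ.image fun i : Fin 4 => ([], [st4 i]))
  let S2 : Set PP := {p | ¬ Bas p ∧ ∃ v, Geo v p}
  have hsub : {π : PP | ∃ v, Geo v π} ⊆ (↑S1 : Set PP) ∪ S2 := by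
    rintro π ⟨v, hv⟩
    by_cases hb : Bas π
    · left
      rw [Finset.mem_coe, Finset.mem_union, Finset.mem_union, Finset.mem_singleton]
      rcases mf_cases hv.stA hv.stB hb with h | ⟨i, h⟩ | ⟨i, h⟩
      · exact Or.inl (Or.inl h)
      · exact Or.inl (Or.inr (Finset.mem_image.2 ⟨i, Finset.mem_univ _, h.symm⟩))
      · exact Or.inr (Finset.mem_image.2 ⟨i, Finset.mem_univ _, h.symm⟩)
    · exact Or.inr ⟨hb, v, hv⟩
  have h1 : ∑' π : {π : PP // ∃ v, Geo v π}, F π.1 ≤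
      ∑' π : (↑S1 : Set PP), F π.1 + ∑' π : S2, F π.1 :=
    (ENNReal.tsum_mono_subtype F hsub).trans (ENNReal.tsum_union_le F _ _)
  have h2 : ∑' π : (↑S1 : Set PP), F π.1 ≠ ⊤ := by
    rw [Finset.tsum_subtype' S1 F]
    refine ENNReal.sum_ne_top.2 fun a _ => ?_
    rw [hF]
    refine ENNReal.mul_ne_top (ENNReal.mul_ne_top ?_ (ENNReal.pow_ne_top (by norm_num)))
      (ENNReal.pow_ne_top (by norm_num))
    rw [show wt (ENNReal.ofReal y) (ENNReal.ofReal z) a = ENNReal.ofReal (wtR y z a) from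
      wt_eq hy hz a]
    exact ENNReal.ofReal_ne_top
  have h3 : ∑' π : S2, F π.1 ≠ ⊤ :=
    ne_top_of_le_ne_top ENNReal.ofReal_ne_top (rest_geo' hy hz hz1 hq)
  exact ne_top_of_le_ne_top (ENNReal.add_ne_top.2 ⟨h2, h3⟩) h1

/-- For fixed `x`, `P`: the sum over the final states. -/
theorem cx_sum (x : XX (II M)) (P : PP → Prop) (g : PP → ℝ≥0∞) :
    ∑' x' : XX (II M), ∑' π : {π // P π ∧ CX x x' π}, g π.1 =
      ∑' π : {π // P π ∧ ∃ x', CX x x' π}, g π.1 := by
  let e : (Σ x' : XX (II M), {π // P π ∧ CX x x' π}) ≃ {π // P π ∧ ∃ x', CX x x' π} :=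
    { toFun := fun p => ⟨p.2.1, p.2.2.1, p.1, p.2.2.2⟩
      invFun := fun π => ⟨π.2.2.choose, ⟨π.1, π.2.1, π.2.2.choose_spec⟩⟩
      left_inv := by
        rintro ⟨x', ⟨π, h1, h2⟩⟩
        have h3 : ∃ x', CX x x' π := ⟨x', h2⟩
        have h4 : h3.choose = x' := cx_unique h3.choose_spec h2
        change (⟨h3.choose, ⟨π, h1, h3.choose_spec⟩⟩ :
          Σ x' : XX (II M), {π // P π ∧ CX x x' π}) = ⟨x', ⟨π, h1, h2⟩⟩
        have h5 : ∀ (a : XX (II M)) (ha : CX x a π), a = x' →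
            (⟨a, ⟨π, h1, ha⟩⟩ : Σ x' : XX (II M), {π // P π ∧ CX x x' π}) =
              ⟨x', ⟨π, h1, h2⟩⟩ := by
          rintro a ha rfl
          rfl
        exact h5 _ h3.choose_spec h4
      right_inv := fun π => rfl }
  rw [← e.tsum_eq, ENNReal.tsum_sigma' fun p => g (e p).1]
  rfl

/-- The fibres of the size. `ofReal` commutes with the sum in `gn` because of `geo_fin`. -/
theorem fib (hy : 0 < y) (hz : 0 < z) (hz1 : z ≤ 1 / 10 ^ 12) (hq : y * z ^ 2 ≤ 1)
    {P : PP → Prop} (hP : ∀ π, P π → ∃ v, Geo v π) (x x' : XX (II M)) (φ : ℕ → ℝ≥0∞) :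
    ∑' n, φ n * ENNReal.ofReal (gn y z P x x' n) =
      ∑' π : {π // P π ∧ CX x x' π},
        φ (ln π.1) * wt (ENNReal.ofReal y) (ENNReal.ofReal z) π.1 := by
  have hfin : ∑' π : {π // P π ∧ CX x x' π}, ENNReal.ofReal (wtR y z π.1) ≠ ⊤ := by
    refine ne_top_of_le_ne_top (geo_fin hy hz hz1 hq) ?_
    let i : {π // P π ∧ CX x x' π} → {π : PP // ∃ v, Geo v π} := fun π => ⟨π.1, hP _ π.2.1⟩
    have hi : Function.Injective i := fun a b h => Subtype.ext (congrArg (fun x => x.1) h)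
    refine le_trans (ENNReal.tsum_le_tsum fun π => ?_)
      (ENNReal.tsum_comp_le_tsum_of_injective hi fun π : {π : PP // ∃ v, Geo v π} =>
        wt (ENNReal.ofReal y) (ENNReal.ofReal z) π.1 * 2 ^ ln π.1 * 576 ^ nh π.1)
    change ENNReal.ofReal (wtR y z π.1) ≤
      wt (ENNReal.ofReal y) (ENNReal.ofReal z) π.1 * 2 ^ ln π.1 * 576 ^ nh π.1
    rw [← wt_eq hy hz, mul_assoc]
    refine le_mul_of_one_le_right zero_le ?_
    exact one_le_mul_of_one_le_of_one_le (one_le_pow₀ (by norm_num)) (one_le_pow₀ (by norm_num))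
  have h := mf_fib ln (fun π : PP => wtR_nn hy hz π) hfin φ
  refine h.trans (tsum_congr fun π => ?_)
  rw [wt_eq hy hz]

/-- Translation in the direction of the displacement. -/
theorem gn_shift (P : PP → Prop) (x x' : XX (II M)) (t : ℤ) (n : ℕ) :
    gn y z P (x.1 + t, x.2) (x'.1 + t, x'.2) n = gn y z P x x' n := by
  have h : CX (x.1 + t, x.2) (x'.1 + t, x'.2) = CX x x' := by
    funext π
    apply propext
    constructor
    · rintro ⟨h1, h2⟩
      refine ⟨h1, ?_⟩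
      have h3 : x.1 + t + (dsp π).1 = x'.1 + t := h2
      linarith
    · rintro ⟨h1, h2⟩
      refine ⟨h1, ?_⟩
      change x.1 + t + (dsp π).1 = x'.1 + t
      linarith
  unfold gn
  rw [h]

theorem fx_eq (n : ℕ) (x x' : XX (II M)) :
    (slb T M y z h).fx n x x' = gn y z (FreeT T) x x' n := by
  have h := gn_shift (y := y) (z := z) (FreeT T) ((0, x.2) : XX (II M)) (x'.1 - x.1, x'.2) x.1 n
  have e1 : (((0, x.2) : XX (II M)).1 + x.1, ((0, x.2) : XX (II M)).2) = x :=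
    Prod.ext (zero_add _) rfl
  have e2 : (((x'.1 - x.1, x'.2) : XX (II M)).1 + x.1, ((x'.1 - x.1, x'.2) : XX (II M)).2) = x' :=
    Prod.ext (sub_add_cancel _ _) rfl
  rw [e1, e2] at h
  exact h.symm

/-- The sources (finiteness: `cap_geo'`, see `KCls/Rest.lean`). -/
theorem fib_c (hy : 0 < y) (hz : 0 < z) (hz1 : z ≤ 1 / 10 ^ 12) (hq : y * z ^ 2 ≤ 1)
    (x : XX (II M)) (φ : ℕ → ℝ≥0∞) :
    ∑' n, φ n * ENNReal.ofReal ((slb T M y z h).c n x) =
      ∑' l : {l // HalfT T 0 (vv x) l ∧ InS M ((x.2.1 : ℕ) : ℤ) l},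
        φ l.1.length * wl (ENNReal.ofReal y) (ENNReal.ofReal z) l.1 := by
  have hfin : ∑' l : {l // HalfT T 0 (vv x) l ∧ InS M ((x.2.1 : ℕ) : ℤ) l},
      ENNReal.ofReal (wlR y z l.1) ≠ ⊤ := by
    refine ne_top_of_le_ne_top (cap_geo' hy hz hz1 hq) ?_
    let i : {l // HalfT T 0 (vv x) l ∧ InS M ((x.2.1 : ℕ) : ℤ) l} → {l // Flat (vv x) l} :=
      fun l => ⟨l.1, l.2.1.1.1, l.2.1.1.2.1, l.2.1.2⟩
    have hi : Function.Injective i := fun a b h => Subtype.ext (congrArg (fun x => x.1) h)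
    refine le_trans (le_trans (ENNReal.tsum_le_tsum fun l => ?_)
      (ENNReal.tsum_comp_le_tsum_of_injective hi fun l : {l // Flat (vv x) l} =>
        wl (ENNReal.ofReal y) (ENNReal.ofReal z) l.1 * 2 ^ l.1.length * 4 ^ nrm (vv x)))
      (ENNReal.le_tsum (vv x))
    change ENNReal.ofReal (wlR y z l.1) ≤
      wl (ENNReal.ofReal y) (ENNReal.ofReal z) l.1 * 2 ^ l.1.length * 4 ^ nrm (vv x)
    rw [← wl_eq hy hz, mul_assoc]
    refine le_mul_of_one_le_right zero_le ?_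
    exact one_le_mul_of_one_le_of_one_le (one_le_pow₀ (by norm_num)) (one_le_pow₀ (by norm_num))
  have h := mf_fib List.length (fun l : List P3 => wlR_nn hy hz l) hfin φ
  refine h.trans (tsum_congr fun l => ?_)
  rw [wl_eq hy hz]

end Pool.Agent.KSlab
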