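import Pool.Agent.KSlab.MMirB
import Pool.Agent.KAmp.Fl
import Pool.Agent.KCls.Far

/-! SM10: turning the blocks upside down. -/

set_option autoImplicit false

open Pool.Agent.LK
open scoped ENNReal

namespace Pool.Agent.KSlab

open Pool.Agent.KTube Pool.Agent.KRing Pool.Agent.KLog Pool.Agent.KCls
open Pool.Agent.KAsym (ln wtR wlR)
open Pool.Agent.KAmp (fl)

variable {T : Finset (Sym2 P3) → Prop} {M : ℕ} {y z : ℝ} {h : II M → ℝ} {v : ℤ × ℤ} {π : PP}

private theorem mfl_uu {r : List P3} (hr : LU 0 0 (v + dsp π) r) : UU (hgt π) (hz π.1.sum)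
    (v + hz π.2.sum) ((flp r).map (· + (((hz π.1.sum).1, (hz π.1.sum).2, hgt π) : P3))) := by
  have h1 := (UU_flp hr).shift ((hz π.1.sum).1, (hz π.1.sum).2, hgt π)
  have e : csh ((hz π.1.sum).1, (hz π.1.sum).2, hgt π) (v + dsp π) = v + hz π.2.sum := by
    unfold csh dsp
    refine Prod.ext ?_ ?_
    · simp only [Prod.fst_add, Prod.fst_sub]; ring
    · simp only [Prod.snd_add, Prod.snd_sub]; ring
  have e0 : csh ((hz π.1.sum).1, (hz π.1.sum).2, hgt π) 0 = hz π.1.sum := by simp [csh]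
  rw [e0, e, zero_add] at h1
  exact h1

private theorem mfl_add_add {s : List P3} {t t' : P3} (h : t + t' = 0) :
    (s.map (· + t)).map (· + t') = s := by
  rw [List.map_map]
  have h1 : (· + t') ∘ (· + t) = (id : P3 → P3) := by
    funext u
    simp only [Function.comp_apply, id_eq]
    rw [add_assoc, h, add_zero]
  rw [h1, List.map_id]

private theorem mfl_ring {l r : List P3} : ring (flp r ++ glu v l π) =
    shift (-(π.1.sum.1), -(π.1.sum.2.1), -(hgt π))
      (ring ((flp r).map (· + (((hz π.1.sum).1, (hz π.1.sum).2, hgt π) : P3)) ++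
        (sdB v π ++ (l ++ sdA π)))) := by
  rw [← ring_map, List.map_append]
  congr 2
  refine (mfl_add_add ?_).symm
  refine Prod.ext ?_ (Prod.ext ?_ ?_)
  · simp [hz]
  · simp [hz]
  · simp

/-- The class of a block in terms of a polygon composed of two halves and the block. -/
private theorem mfl_iff (hT : Cls T) (hg : Geo v π) {l r : List P3} (hl : LU 0 0 v l)
    (hr : LU 0 0 (v + dsp π) r) : UnkT T v π ↔ T (ring (flp r ++ glu v l π)) := by
  rw [t_iff_caps hT hg hl (mfl_uu hr), mfl_ring]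
  exact ⟨fun h => hT.inv _ _ (sameType_shift _ _) h,
    fun h => hT.inv _ _ (sameType_shift _ _).symm h⟩

/-- As `KAmp.valid_fl` (`KAmp/Fl.lean`: `geo_fl`, `ring_fl`), with `KCls.t_iff_caps` for the class `T` and `Cls.inv` for the
reflection `flipZ`. -/
theorem valid_flT (hT : Cls T) (h : ValidT T v π) : ValidT T (v + dsp π) (fl π) := by
  have hg := h.1
  have hg' := KAmp.geo_fl hg
  obtain ⟨l, hl, -⟩ := exists_flat hg.ne
  obtain ⟨r, hr, -⟩ := exists_flat hg'.ne
  refine ⟨hg', ?_⟩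
  have e : v + dsp π + dsp (fl π) = v := by
    rw [KAmp.dsp_fl, add_neg_cancel_right]
  have hl' : LU 0 0 (v + dsp π + dsp (fl π)) l := by
    rw [e]
    exact hl
  rw [mfl_iff hT hg' hr hl']
  exact hT.inv _ _ (KAmp.ring_fl hg hl.2.1 hr.2.1) ((mfl_iff hT hg hl hr).1 h.2)

private theorem mfl_nrm (u w : ℤ × ℤ) : nrm u ≤ nrm (u + w) + nrm w := by
  unfold nrm
  simp only [Prod.fst_add, Prod.snd_add]
  omega

/-- `FreeT`: take `v` far away and `KCls.valid_far`; `nrm (v + dsp π)` is large too. -/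
theorem free_flT (hT : Cls T) (h : FreeT T π) : FreeT T (fl π) := by
  obtain ⟨v₀, hv₀, h₀⟩ := id h
  set w : ℤ × ℤ := ((nh π + nrm (dsp π) + 1 : ℕ), 0) with hw
  have hnw : nrm w = nh π + nrm (dsp π) + 1 := by
    show ((nh π + nrm (dsp π) + 1 : ℕ) : ℤ).natAbs + (0 : ℤ).natAbs = _
    rw [Int.natAbs_natCast, Int.natAbs_zero, add_zero]
  have h1 : nh π < nrm w := by omega
  have h2 : ValidT T w π := (KCls.valid_far hT h1).2 h
  refine ⟨w + dsp π, ?_, valid_flT hT h2⟩
  rw [KAmp.nh_fl h₀.1.stA h₀.1.stB]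
  have h3 := mfl_nrm w (dsp π)
  omega

private theorem mfl_wk_append (s : List P3) (d p : P3) :
    wk p (s ++ [d]) = wk p s ++ [p + s.sum + d] := by
  induction s generalizing p with
  | nil => simp
  | cons e s ih =>
    rw [List.cons_append, wk_cons, ih, wk_cons, List.cons_append, List.sum_cons, ← add_assoc]

private theorem mfl_sum (s : List P3) : (s.map KAmp.ns).reverse.sum.2.1 = -s.sum.2.1 := by
  rw [List.sum_reverse]
  induction s with
  | nil => simp
  | cons d s ih =>
    rw [List.map_cons, List.sum_cons, List.sum_cons, Prod.snd_add, Prod.fst_add, ih, Prod.snd_add,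
      Prod.fst_add]
    show -d.2.1 + -s.sum.2.1 = _
    ring

/-- The heights on the reversed walk. -/
private theorem mfl_wk (s : List P3) : ∀ p q : P3, ∀ u ∈ wk q (s.map KAmp.ns).reverse,
    ∃ w ∈ wk p s, u.2.1 - q.2.1 = w.2.1 - (p.2.1 + s.sum.2.1) := by
  induction s with
  | nil =>
    intro p q u hu
    rw [List.map_nil, List.reverse_nil, wk_nil, List.mem_singleton] at hu
    subst hu
    exact ⟨p, by simp, by simp⟩
  | cons d s ih =>
    intro p q u hu
    rw [List.map_cons, List.reverse_cons, mfl_wk_append, List.mem_append,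
      List.mem_singleton] at hu
    rcases hu with hu | hu
    · obtain ⟨w, hw, h1⟩ := ih (p + d) q u hu
      refine ⟨w, by rw [wk_cons]; exact List.mem_cons_of_mem _ hw, ?_⟩
      rw [h1, List.sum_cons, Prod.snd_add, Prod.fst_add, Prod.snd_add, Prod.fst_add]
      ring
    · refine ⟨p, by rw [wk_cons]; exact List.mem_cons_self, ?_⟩
      rw [hu, List.sum_cons]
      simp only [Prod.snd_add, Prod.fst_add]
      rw [mfl_sum]
      show q.2.1 + -s.sum.2.1 + -d.2.1 - q.2.1 = _
      ring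

private theorem mfl_ins {a b : ℤ} {s : List P3} (h : InS M a (wk (0, 0, 1) s))
    (hb : a + s.sum.2.1 = b) : InS M b (wk (0, 0, 1) (s.map KAmp.ns).reverse) := by
  intro u hu
  obtain ⟨w, hw, h1⟩ := mfl_wk s (0, 0, 1) (0, 0, 1) u hu
  have h2 := h w hw
  simp only at h1
  omega

/-- The walk of the reversed word visits the same points up to translation: `wk (0, 0, 1) (s.map ns).reverse` is
the reversed image of `wk (0, 0, 1) s` under `(a, b, c) ↦ (a - S.1, b - S.2.1, S.2.2 + 2 - c)`, `S = s.sum`. -/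
theorem cx_fl {x x' : XX (II M)} (h : CX x x' π) : CX x' x (fl π) := by
  obtain ⟨hb, hd⟩ := h
  have e1 : (fl π).1.sum.2.1 = -π.1.sum.2.1 := mfl_sum π.1
  have e2 : (fl π).2.sum.2.1 = -π.2.sum.2.1 := mfl_sum π.2
  refine ⟨⟨mfl_ins hb.inA hb.eA, mfl_ins hb.inB hb.eB, ?_, ?_⟩, ?_⟩
  · rw [e1, ← hb.eA]
    ring
  · rw [e2, ← hb.eB]
    ring
  · rw [KAmp.dsp_fl, ← hd]
    show x.1 + (dsp π).1 + -(dsp π).1 = x.1
    ring

private theorem mfl_vv {x x' : XX (II M)} (h : CX x x' π) : vv x + dsp π = vv x' := by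
  obtain ⟨hb, hd⟩ := h
  have h1 := hb.eA
  have h2 := hb.eB
  refine Prod.ext hd ?_
  unfold vv dsp hz
  simp only [Prod.snd_add, Prod.snd_sub]
  omega

private theorem mfl_wtR (y z : ℝ) (π : PP) : wtR y z (fl π) = wtR y z π := by
  unfold wtR
  rw [KAmp.hgt_fl, KAmp.ln_fl]

/-- The sums over a class of pairs which is mapped to another one by the reflection. -/
private theorem mfl_gn {P P' : PP → Prop} {x x' : XX (II M)}
    (h1 : ∀ π, P π → CX x x' π → P' (fl π)) (h2 : ∀ π, P' π → CX x' x π → P (fl π)) (n : ℕ) :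
    gn y z P' x' x n = gn y z P x x' n := by
  unfold gn
  let e : {π : PP // P π ∧ CX x x' π ∧ ln π = n} ≃ {π : PP // P' π ∧ CX x' x π ∧ ln π = n} :=
    { toFun := fun π => ⟨fl π.1, h1 _ π.2.1 π.2.2.1, cx_fl π.2.2.1, by
        rw [KAmp.ln_fl]
        exact π.2.2.2⟩
      invFun := fun π => ⟨fl π.1, h2 _ π.2.1 π.2.2.1, cx_fl π.2.2.1, by
        rw [KAmp.ln_fl]
        exact π.2.2.2⟩
      left_inv := fun π => Subtype.ext (KAmp.fl_fl _)
      right_inv := fun π => Subtype.ext (KAmp.fl_fl _) }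
  rw [← Equiv.tsum_eq e]
  exact tsum_congr fun π => mfl_wtR y z π.1

theorem k_symm (hT : Cls T) (n : ℕ) (x x' : XX (II M)) :
    (slb T M y z h).k n x' x = (slb T M y z h).k n x x' := by
  show gn y z (ValidT T (vv x')) x' x n = gn y z (ValidT T (vv x)) x x' n
  refine mfl_gn (fun π hπ hc => ?_) (fun π hπ hc => ?_) n
  · rw [← mfl_vv hc]
    exact valid_flT hT hπ
  · rw [← mfl_vv hc]
    exact valid_flT hT hπ

/-- With `gn_shift` and `f_even`. -/
theorem f_symm (hT : Cls T) (n : ℕ) (t : ℤ) (i j : II M) :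
    (slb T M y z h).f n t j i = (slb T M y z h).f n t i j := by
  rw [← f_even hT n t i j]
  show gn y z (FreeT T) (0, j) (t, i) n = gn y z (FreeT T) (0, i) (-t, j) n
  have h1 : gn y z (FreeT T) (0, j) (t, i) n = gn y z (FreeT T) (t, i) (0, j) n :=
    mfl_gn (fun π hπ _ => free_flT hT hπ) (fun π hπ _ => free_flT hT hπ) n
  have h2 := gn_shift (y := y) (z := z) (FreeT T) (t, i) (0, j) (-t) n
  simp only [add_neg_cancel, zero_add] at h2
  rw [h1, ← h2]

end Pool.Agent.KSlab
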