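import Pool.Agent.KSlab.MFib
import Pool.Agent.KCls.Caps

/-! SM7: flat caps in the slab. -/

set_option autoImplicit false

open Pool.Agent.LK
open scoped ENNReal

namespace Pool.Agent.KSlab

open Pool.Agent.KTube Pool.Agent.KRing Pool.Agent.KLog Pool.Agent.KCls
open Pool.Agent.KAsym (ln wtR wlR)
open Pool.Agent.LatticeTube (pedges mem_of_mem_pedges)

variable {T : Finset (Sym2 P3) → Prop} {M : ℕ} {y z : ℝ} {h : II M → ℝ}

/-- A horizontal self-avoiding path to the origin, between the two rows. -/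
private theorem exists_path_in (z : ℤ) : ∀ (n : ℕ) (v : ℤ × ℤ), nrm v = n → ∃ l : List P3,
    l.Nodup ∧ l.IsChain Adj ∧ l.head? = some (v.1, v.2, z) ∧
    l.getLast? = some ((0 : ℤ), (0 : ℤ), z) ∧
    ∀ u ∈ l, (u.2.2 = z ∧ nrm (u.1, u.2.1) ≤ n) ∧ min 0 v.2 ≤ u.2.1 ∧ u.2.1 ≤ max 0 v.2 := by
  intro n
  induction n with
  | zero =>
    rintro ⟨x, y⟩ hv
    simp only [nrm, Nat.add_eq_zero_iff, Int.natAbs_eq_zero] at hv
    obtain ⟨rfl, rfl⟩ := hv
    refine ⟨[(0, 0, z)], by simp, by simp, rfl, rfl, ?_⟩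
    intro u hu
    rw [List.mem_singleton] at hu
    subst hu
    simp [nrm]
  | succ n ih =>
    rintro ⟨x, y⟩ hv
    obtain ⟨⟨x', y'⟩, hw, hadj, hy1, hy2⟩ : ∃ w : ℤ × ℤ, nrm w = n ∧
        Adj (x, y, z) (w.1, w.2, z) ∧ min 0 y ≤ min 0 w.2 ∧ max 0 w.2 ≤ max 0 y := by
      simp only [nrm] at hv
      rcases lt_trichotomy x 0 with h | h | h
      · exact ⟨(x + 1, y), by simp only [nrm]; omega, by simp [Adj], le_rfl, le_rfl⟩
      · rcases lt_trichotomy y 0 with h' | h' | h'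
        · exact ⟨(x, y + 1), by simp only [nrm]; omega, by simp [Adj], by simp only; omega,
            by simp only; omega⟩
        · omega
        · exact ⟨(x, y - 1), by simp only [nrm]; omega, by simp [Adj], by simp only; omega,
            by simp only; omega⟩
      · exact ⟨(x - 1, y), by simp only [nrm]; omega, by simp [Adj], le_rfl, le_rfl⟩
    obtain ⟨l, h1, h2, h3, h4, h5⟩ := ih (x', y') hw
    refine ⟨(x, y, z) :: l, ?_, ?_, rfl, ?_, ?_⟩
    · refine List.nodup_cons.2 ⟨fun h => ?_, h1⟩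
      have := (h5 _ h).1.2
      rw [hv] at this
      omega
    · rw [List.isChain_cons]
      refine ⟨fun u hu => ?_, h2⟩
      rw [h3] at hu
      simp only [Option.mem_def, Option.some.injEq] at hu
      subst hu
      exact hadj
    · rw [List.getLast?_cons, h4]; rfl
    · intro u hu
      rcases List.mem_cons.1 hu with rfl | h
      · exact ⟨⟨rfl, hv.le⟩, min_le_right _ _, le_max_right _ _⟩
      · obtain ⟨⟨a1, a2⟩, a3, a4⟩ := h5 u h
        exact ⟨⟨a1, a2.trans (Nat.le_succ _)⟩, hy1.trans a3, a4.trans hy2⟩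

/-- The construction of `KLog.exists_flat` (`KLog/Caps.lean`, `exists_path`: a monotone path in the
plane `z = 0` from the column `v` to the column `0`): all points have their second coordinate
between `0` and `v.2`. -/
theorem exists_flat_in (hT : Cls T) {v : ℤ × ℤ} (hv : v ≠ 0) : ∃ l, HalfT T 0 v l ∧
    ∀ p ∈ l, min 0 v.2 ≤ p.2.1 ∧ p.2.1 ≤ max 0 v.2 := by
  obtain ⟨l, l1, l2, l3, l4, l5⟩ := exists_path_in 0 _ v rfl
  obtain ⟨r, r1, r2, r3, r4, r5⟩ := exists_path 1 _ v rfl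
  have hl : Lower 0 0 v l := ⟨l1, l2, l3, l4, fun u hu => (l5 u hu).1.1.le⟩
  have hr : Upper 0 0 v r.reverse := by
    refine ⟨List.nodup_reverse.2 r1, ?_, ?_, ?_, fun u hu => ?_⟩
    · rw [List.isChain_reverse]
      exact r2.imp fun a b h => h.symm
    · rw [List.head?_reverse, r4]; rfl
    · rw [List.getLast?_reverse, r3]; rfl
    · rw [(r5 u (List.mem_reverse.1 hu)).1]; norm_num
  have hP := (ring_of hv.symm hr hl).isPolygon
  have h0 := cross_ring_of hr hl
  have hU : Unknotted (ring (r.reverse ++ l)) := by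
    refine unknotted_of_two hP ?_ ⟨0, by rw [h0]; exact ⟨0, by simp⟩⟩
    intro j hj
    rcases lt_trichotomy j 0 with h | rfl | h
    · exfalso
      obtain ⟨c, hc⟩ := hj
      rw [cross_ring_low hr hl h] at hc
      have h1 := (l5 _ (mem_of_mem_pedges hc).1).1.1
      simp only at h1
      omega
    · rw [h0]; exact Set.ncard_pair hv.symm
    · exfalso
      obtain ⟨c, hc⟩ := hj
      rw [cross_ring_upp hr hl h] at hc
      have h1 := (r5 _ (List.mem_reverse.1 (mem_of_mem_pedges hc).2)).1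
      simp only at h1
      omega
  have hLU : LU 0 0 v l :=
    ⟨hv.symm, hl, r.reverse, hr, ((unknotted_iff hP (isTwo_ring_of hv.symm hr hl)).1 hU).1⟩
  refine ⟨l, ⟨LT.of_unk hT hLU, ?_⟩, fun p hp => (l5 p hp).2⟩
  have h1 : {j : ℤ | {c : ℤ × ℤ | leg c j ∈ pedges l}.ncard = 2} = ∅ := by
    rw [Set.eq_empty_iff_forall_notMem]
    intro j hj
    have h2 : {c : ℤ × ℤ | leg c j ∈ pedges l} = ∅ := by
      rw [Set.eq_empty_iff_forall_notMem]
      intro c hc
      have h3 := (l5 _ (mem_of_mem_pedges hc).1).1.1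
      have h4 := (l5 _ (mem_of_mem_pedges hc).2).1.1
      simp only at h3 h4
      omega
    rw [Set.mem_ofPred_eq, h2, Set.ncard_empty] at hj
    omega
  rw [nsec, h1, Set.ncard_empty]

/-- For an alive state the path of `exists_flat_in` lies in the slab; the series is summable
(`fib_c`, `cap_geo'`). -/
theorem c_pos (hT : Cls T) (hy : 0 < y) (hz : 0 < z) (hz1 : z ≤ 1 / 10 ^ 12)
    (hq : y * z ^ 2 ≤ 1) (x : XX (II M)) (hx : (slb T M y z h).Al x) :
    ∃ n, 0 < (slb T M y z h).c n x := by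
  have hv : vv x ≠ 0 := by
    intro h0
    apply hx
    have h1 : x.1 = 0 := congrArg Prod.fst h0
    have h2 : ((x.2.2 : ℕ) : ℤ) - ((x.2.1 : ℕ) : ℤ) = 0 := congrArg Prod.snd h0
    refine ⟨h1, ?_⟩
    change x.2.1 = x.2.2
    apply Fin.ext
    omega
  obtain ⟨l, hl, hin⟩ := exists_flat_in hT hv
  have hS : InS M ((x.2.1 : ℕ) : ℤ) l := by
    intro p hp
    obtain ⟨h1, h2⟩ := hin p hp
    have e : (vv x).2 = ((x.2.2 : ℕ) : ℤ) - ((x.2.1 : ℕ) : ℤ) := rfl
    rw [e] at h1 h2
    have h3 := x.2.1.2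
    have h4 := x.2.2.2
    omega
  by_contra hcon
  push Not at hcon
  have h1 := fib_c (T := T) (M := M) (y := y) (z := z) (h := h) hy hz hz1 hq x (fun _ => 1)
  have h2 : ∑' n, (1 : ℝ≥0∞) * ENNReal.ofReal ((slb T M y z h).c n x) = 0 := by
    rw [ENNReal.tsum_eq_zero]
    intro n
    rw [ENNReal.ofReal_of_nonpos (hcon n), mul_zero]
  rw [h2] at h1
  have h3 := (ENNReal.tsum_eq_zero.1 h1.symm) ⟨l, hl, hS⟩
  rw [one_mul, wl_eq hy hz, ENNReal.ofReal_eq_zero] at h3
  have h4 : 0 < wlR y z l := by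
    unfold wlR
    positivity
  linarith

end Pool.Agent.KSlab
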