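import Pool.Agent.KSlab.MFib
import Pool.Agent.KCls.Glue

/-! SM14: the halves in the slab are composed of a half and a block in the slab. -/

set_option autoImplicit false

open Pool.Agent.LK
open scoped ENNReal

namespace Pool.Agent.KSlab

open Pool.Agent.KTube Pool.Agent.KRing Pool.Agent.KLog Pool.Agent.KCls
open Pool.Agent.KAsym (ln wtR wlR)

variable {T : Finset (Sym2 P3) → Prop} {M : ℕ}

/-- The halves in the slab. -/
abbrev HS (T : Finset (Sym2 P3) → Prop) (M : ℕ) (n : ℕ) (x : XX (II M)) : Type :=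
  {l : List P3 // HalfT T n (vv x) l ∧ InS M ((x.2.1 : ℕ) : ℤ) l}

/-- The pairs of a half and a block with a given final state. -/
abbrev HB (T : Finset (Sym2 P3) → Prop) (M : ℕ) (n : ℕ) (x : XX (II M)) : Type :=
  Σ w : XX (II M), HS T M n w × {π : PP // ValidT T (vv w) π ∧ CX w x π}

/-- The slab condition for the composed half. -/
private theorem in_iff {v : ℤ × ℤ} {l : List P3} {π : PP} {a b c : ℤ} (hv : v.2 = b - a)
    (hc : a + π.1.sum.2.1 = c) : InS M c (glu v l π) ↔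
      InS M a l ∧ InS M a (wk (0, 0, 1) π.1) ∧ InS M b (wk (0, 0, 1) π.2) := by
  unfold InS glu sdA sdB
  constructor
  · intro h
    refine ⟨fun u hu => ?_, fun u hu => ?_, fun u hu => ?_⟩
    · have h1 := h _ (List.mem_map.2 ⟨u, by simp [hu], rfl⟩)
      simp only [Prod.snd_add, Prod.fst_add] at h1
      constructor <;> omega
    · have h1 := h _ (List.mem_map.2 ⟨u, by simp [hu], rfl⟩)
      simp only [Prod.snd_add, Prod.fst_add] at h1
      constructor <;> omega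
    · obtain ⟨A, B, h2, rfl⟩ := mem_wk.1 hu
      have h3 : ((v.1, v.2, 1) : P3) + A.sum ∈ wk (v.1, v.2, 1) π.2 := mem_wk.2 ⟨A, B, h2, rfl⟩
      have h1 := h _ (List.mem_map.2 ⟨_, List.mem_append_left _ (List.mem_reverse.2 h3), rfl⟩)
      simp only [Prod.snd_add, Prod.fst_add] at h1 ⊢
      constructor <;> omega
  · rintro ⟨h1, h2, h3⟩ u hu
    obtain ⟨u, hu', rfl⟩ := List.mem_map.1 hu
    clear hu
    rw [List.mem_append, List.mem_append, List.mem_reverse] at hu'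
    rcases hu' with hu | hu | hu
    · obtain ⟨A, B, h4, rfl⟩ := mem_wk.1 hu
      have h5 := h3 _ (mem_wk.2 ⟨A, B, h4, rfl⟩)
      simp only [Prod.snd_add, Prod.fst_add] at h5 ⊢
      constructor <;> omega
    · have h5 := h1 _ hu
      simp only [Prod.snd_add, Prod.fst_add]
      constructor <;> omega
    · have h5 := h2 _ hu
      simp only [Prod.snd_add, Prod.fst_add]
      constructor <;> omega

private theorem vv_add {w x : XX (II M)} {π : PP} (h : CX w x π) : vv w + dsp π = vv x := by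
  obtain ⟨h1, h2⟩ := h
  have hA := h1.eA
  have hB := h1.eB
  refine Prod.ext ?_ ?_
  · exact h2
  · simp only [vv, dsp, hz, Prod.snd_add, Prod.snd_sub]
    omega

/-- `glu (vv w) l π = (sdB v π ++ (l ++ sdA π)).map (· - t)` with `t.2.1 = π.1.sum.2.1`; with `w.2.1 = x.2.1 - π.1.sum.2.1`
the slab condition for `glu` at the height `x.2.1` is the slab condition for `l`, `sdA π` at the height `w.2.1` and for
`wk (0, 0, 1) π.2` at the height `w.2.2` (`sdB v π` is its translate by `v`, reversed; `w.2.2 = w.2.1 + v.2`). -/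
theorem glu_in {n : ℕ} {x : XX (II M)} (p : HB T M n x) (hT : Cls T) :
    HalfT T (n + 1) (vv x) (glu (vv p.1) p.2.1.1 p.2.2.1) ∧
      InS M ((x.2.1 : ℕ) : ℤ) (glu (vv p.1) p.2.1.1 p.2.2.1) := by
  obtain ⟨w, ⟨l, hl, hin⟩, ⟨π, hπ, hcx⟩⟩ := p
  refine ⟨?_, ?_⟩
  · have h1 := glu_half hT hl hπ
    rw [vv_add hcx] at h1
    exact h1
  · exact (in_iff (b := ((w.2.2 : ℕ) : ℤ)) rfl hcx.1.eA).2 ⟨hin, hcx.1.inA, hcx.1.inB⟩

private theorem wk_in {M : ℕ} {a : ℤ} {s : List P3} (h : InS M a (wk (0, 0, 1) s)) :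
    0 ≤ a ∧ a ≤ M := by
  have h1 : ((0, 0, 1) : P3) ∈ wk (0, 0, 1) s := mem_wk.2 ⟨[], s, rfl, by simp⟩
  have h2 := h _ h1
  simpa using h2

/-- `glu_in`, `glu_inj`, `glu_surj` (`KCls/Glue.lean`): for the surjectivity the heights `a = x.2.1 - π.1.sum.2.1` and `a + v.2` of
the columns `0` and `v` lie between `0` and `M` because `glu` contains a point of each column (the first points
of `sdA π` and of the walk of `sdB`). -/
theorem glu_bij (hT : Cls T) (n : ℕ) (x : XX (II M)) : ∃ e : HB T M n x ≃ HS T M (n + 1) x,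
    ∀ p, (e p).1 = glu (vv p.1) p.2.1.1 p.2.2.1 := by
  have hbij : Function.Bijective
      (fun p : HB T M n x => (⟨glu (vv p.1) p.2.1.1 p.2.2.1, glu_in p hT⟩ : HS T M (n + 1) x)) := by
    constructor
    · rintro ⟨w, ⟨l, hl, hin⟩, ⟨π, hπ, hcx⟩⟩ ⟨w', ⟨l', hl', hin'⟩, ⟨π', hπ', hcx'⟩⟩ h
      have h1 := congrArg Subtype.val h
      obtain ⟨-, h3, h4⟩ := glu_inj hl hπ hl' hπ' h1
      subst h3
      subst h4
      obtain rfl := cx_unique' hcx hcx'
      rfl
    · rintro ⟨l', hl', hin'⟩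
      obtain ⟨v, l, π, hl, hπ, hv, rfl⟩ := glu_surj hT hl'
      obtain ⟨a, ha⟩ : ∃ a : ℤ, a = ((x.2.1 : ℕ) : ℤ) - π.1.sum.2.1 := ⟨_, rfl⟩
      obtain ⟨h1, h2, h3⟩ := (in_iff (a := a) (b := a + v.2) (by ring) (by rw [ha]; ring)).1 hin'
      obtain ⟨ha0, haM⟩ := wk_in h2
      obtain ⟨hb0, hbM⟩ := wk_in h3
      obtain ⟨a', ha'⟩ := Int.eq_ofNat_of_zero_le ha0
      obtain ⟨b', hb'⟩ := Int.eq_ofNat_of_zero_le hb0
      have haM' : a' < M + 1 := by omega
      have hbM' : b' < M + 1 := by omega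
      have e1 : v.1 + (dsp π).1 = x.1 := congrArg Prod.fst hv
      have e2 : v.2 + (π.2.sum.2.1 - π.1.sum.2.1) = ((x.2.2 : ℕ) : ℤ) - ((x.2.1 : ℕ) : ℤ) :=
        congrArg Prod.snd hv
      obtain ⟨w, hw⟩ : ∃ w : XX (II M), w = (v.1, ⟨a', haM'⟩, ⟨b', hbM'⟩) := ⟨_, rfl⟩
      have hw1 : w.1 = v.1 := by rw [hw]
      have hw2 : ((w.2.1 : ℕ) : ℤ) = a := by rw [hw, ha']
      have hw3 : ((w.2.2 : ℕ) : ℤ) = a + v.2 := by rw [hw, hb']
      have hvv : vv w = v := by
        refine Prod.ext ?_ ?_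
        · exact hw1
        · change ((w.2.2 : ℕ) : ℤ) - ((w.2.1 : ℕ) : ℤ) = v.2
          rw [hw2, hw3]
          ring
      have hcx : CX w x π := by
        refine ⟨⟨?_, ?_, ?_, ?_⟩, ?_⟩
        · rw [hw2]; exact h2
        · rw [hw3]; exact h3
        · rw [hw2, ha]; ring
        · rw [hw3, ha]; linarith
        · rw [hw1]; exact e1
      subst hvv
      exact ⟨⟨w, ⟨l, hl, by rw [hw2]; exact h1⟩, ⟨π, hπ, hcx⟩⟩, rfl⟩
  exact ⟨Equiv.ofBijective _ hbij, fun p => rfl⟩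

end Pool.Agent.KSlab
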