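import Pool.Agent.KSlab.MRec
import Pool.Agent.KSlab.MCut
import Pool.Agent.KSlab.MGen

/-! SM18: the generating function of the polygons in the slab. -/

set_option autoImplicit false

open Pool.Agent.LK
open scoped ENNReal

namespace Pool.Agent.KSlab

open Pool.Agent.KTube Pool.Agent.KRing Pool.Agent.KLog Pool.Agent.KCls
open Pool.Agent.KAsym (ln wtR wlR)

variable {T : Finset (Sym2 P3) → Prop} {M : ℕ} {y z : ℝ} {h : II M → ℝ}

private theorem tot_cls {α : Type} (P Q : α → Prop) (k : α → ℕ) (f : α → ℝ≥0∞) :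
    ∑' n : ℕ, ∑' E : {E // (P E ∧ k E = n) ∧ Q E}, f E.1 =
      ∑' E : {E // P E ∧ Q E}, f E.1 := by
  rw [← ENNReal.tsum_fiberwise (fun E : {E // P E ∧ Q E} => f E.1) (fun E => k E.1)]
  refine tsum_congr fun n => ?_
  let e : {E // (P E ∧ k E = n) ∧ Q E} ≃ ((fun E : {E // P E ∧ Q E} => k E.1) ⁻¹' {n}) :=
    { toFun := fun E => ⟨⟨E.1, E.2.1.1, E.2.2⟩, E.2.1.2⟩
      invFun := fun E => ⟨E.1.1, ⟨E.1.2.1, E.2⟩, E.1.2.2⟩
      left_inv := fun E => rfl
      right_inv := fun E => rfl }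
  exact e.tsum_eq (fun E : ((fun E : {E // P E ∧ Q E} => k E.1) ⁻¹' {n}) => f E.1.1)

private theorem tot_split {α : Type} (P Q : α → Prop) (f : α → ℝ≥0∞) :
    ∑' E : {E // P E}, f E.1 =
      ∑' E : {E // P E ∧ Q E}, f E.1 + ∑' E : {E // P E ∧ ¬ Q E}, f E.1 := by
  classical
  have h1 : ∑' E : {E // P E}, f E.1 = ∑' E, {E | P E}.indicator f E := tsum_subtype {E | P E} f
  have h2 : ∑' E : {E // P E ∧ Q E}, f E.1 = ∑' E, {E | P E ∧ Q E}.indicator f E :=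
    tsum_subtype {E | P E ∧ Q E} f
  have h3 : ∑' E : {E // P E ∧ ¬ Q E}, f E.1 = ∑' E, {E | P E ∧ ¬ Q E}.indicator f E :=
    tsum_subtype {E | P E ∧ ¬ Q E} f
  rw [h1, h2, h3, ← ENNReal.tsum_add]
  refine tsum_congr fun E => ?_
  by_cases hP : P E <;> by_cases hQ : Q E <;> simp [Set.indicator, hP, hQ]

/-- The polygons with a section with two edges: `cut_slab`, the halves of class `T` are the disjoint union over `N` of
`HalfT T N` (`nsec`), `mm_eq`, `cE_eq`; the polygons are counted twice (`Bool`), `span = lspan l + lspan r + 1` gives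
the factor `y`. The others: `gen_a`, `gen_b`. -/
theorem tot (hT : Cls T) (hy : 0 < y) (hz : 0 < z) (hz1 : z ≤ 1 / 10 ^ 12)
    (hq : y * z ^ 2 ≤ 1) : (slb T M y z h).Tot (fun n => ZS T M y n * z ^ n)
      (fun n => ZS0 T M y n * z ^ n) (y / 2) := by
  have na : ∀ n, 0 ≤ ZS T M y n * z ^ n := fun n =>
    mul_nonneg (finsum_nonneg fun E => finsum_nonneg fun _ => pow_nonneg hy.le _)
      (pow_nonneg hz.le _)
  have nu : ∀ n, 0 ≤ ZS0 T M y n * z ^ n := fun n =>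
    mul_nonneg (finsum_nonneg fun E => finsum_nonneg fun _ => pow_nonneg hy.le _)
      (pow_nonneg hz.le _)
  refine ⟨by positivity, na, nu, fun n hn => ?_, u_sum hy hz hz1 hq, fun σ hσ => ?_⟩
  · show ZS T M y n * z ^ n = 0
    rw [zs_odd hn, zero_mul]
  -- the factors
  obtain ⟨g, hg⟩ : ∃ g : ℕ → ℝ≥0∞, ∀ n : ℕ, g n = ENNReal.ofReal (Real.exp (-(n : ℝ) * σ)) :=
    ⟨_, fun _ => rfl⟩
  have gadd : ∀ a b : ℕ, g (a + b) = g a * g b := by
    intro a b
    rw [hg, hg, hg, ← ENNReal.ofReal_mul (Real.exp_pos _).le, ← Real.exp_add]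
    congr 2
    push_cast
    ring
  obtain ⟨Y, hY⟩ : ∃ Y : ℝ≥0∞, Y = ENNReal.ofReal y := ⟨_, rfl⟩
  obtain ⟨Z, hZ⟩ : ∃ Z : ℝ≥0∞, Z = ENNReal.ofReal z := ⟨_, rfl⟩
  have e1 : ∑' n : ℕ, ENNReal.ofReal (ZS T M y n * z ^ n * Real.exp (-(n : ℝ) * σ)) =
      ∑' E : {E // E ∈ PSl T M}, g E.1.card * (Y ^ span E.1 * Z ^ E.1.card) := by
    rw [hY, hZ, ← gen_a hy.le hz.le g]
    refine tsum_congr fun n => ?_
    rw [ENNReal.ofReal_mul (na n), hg, mul_comm]
  have e2 : ∑' n : ℕ, ENNReal.ofReal (ZS0 T M y n * z ^ n * Real.exp (-(n : ℝ) * σ)) =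
      ∑' E : {E // E ∈ PSl T M ∧ ∀ k, ¬ IsTwo E k},
        g E.1.card * (Y ^ span E.1 * Z ^ E.1.card) := by
    rw [hY, hZ, ← gen_b hy.le hz.le g]
    refine tsum_congr fun n => ?_
    rw [ENNReal.ofReal_mul (nu n), hg, mul_comm]
  -- splitting
  have e3 := tot_split (fun E => E ∈ PSl T M) (fun E => ∀ k, ¬ IsTwo E k)
    (fun E => g E.card * (Y ^ span E * Z ^ E.card))
  have e4 : ∑' E : {E // E ∈ PSl T M ∧ ¬ ∀ k, ¬ IsTwo E k},
      g E.1.card * (Y ^ span E.1 * Z ^ E.1.card) =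
      ∑' E : PS T M, g E.1.card * (Y ^ span E.1 * Z ^ E.1.card) := by
    let e : {E // E ∈ PSl T M ∧ ¬ ∀ k, ¬ IsTwo E k} ≃ PS T M :=
      { toFun := fun E => ⟨E.1, E.2.1, not_forall_not.1 E.2.2⟩
        invFun := fun E => ⟨E.1, E.2.1, not_forall_not.2 E.2.2⟩
        left_inv := fun E => rfl
        right_inv := fun E => rfl }
    exact e.tsum_eq (fun E : PS T M => g E.1.card * (Y ^ span E.1 * Z ^ E.1.card))
  -- the halves
  have hc : ∀ x : XX (II M), (slb T M y z h).cE σ x =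
      ∑' l : HS T M 0 x, g l.1.length * wl Y Z l.1 := by
    intro x
    rw [cE_eq hy hz hz1 hq hσ.le x]
    refine tsum_congr fun l => ?_
    rw [hg, hY, hZ, mul_comm]
  have hm : ∀ x : XX (II M), ∑' N, (slb T M y z h).MM σ N x =
      ∑' l : {l : List P3 // LT T 0 0 (vv x) l ∧ InS M ((x.2.1 : ℕ) : ℤ) l},
        g l.1.length * wl Y Z l.1 := by
    intro x
    rw [← tot_cls (fun l : List P3 => LT T 0 0 (vv x) l) (fun l => InS M ((x.2.1 : ℕ) : ℤ) l)
      nsec (fun l => g l.length * wl Y Z l)]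
    refine tsum_congr fun N => ?_
    rw [mm_eq hT hy hz hz1 hq hσ.le N x]
    refine tsum_congr fun l => ?_
    rw [hg, hY, hZ, mul_comm]
  -- the cut
  obtain ⟨e, he⟩ := cut_slab hT M
  have e5 : 2 * ∑' E : PS T M, g E.1.card * (Y ^ span E.1 * Z ^ E.1.card) =
      ∑' p : PS T M × Bool, g p.1.1.card * (Y ^ span p.1.1 * Z ^ p.1.1.card) := by
    rw [ENNReal.tsum_prod', ← ENNReal.tsum_mul_left]
    refine tsum_congr fun E => ?_
    rw [tsum_bool, two_mul]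
  have e6 : ∑' p : PS T M × Bool, g p.1.1.card * (Y ^ span p.1.1 * Z ^ p.1.1.card) =
      ∑' t : TS T M, Y * ((g t.2.1.1.length * wl Y Z t.2.1.1) *
        (g t.2.2.1.length * wl Y Z t.2.2.1)) := by
    rw [← e.tsum_eq]
    refine tsum_congr fun p => ?_
    obtain ⟨h1, h2⟩ := he p
    rw [h1, h2, gadd, wl, wl, pow_add, pow_add, pow_add]
    ring
  have e7 : ∑' t : TS T M, Y * ((g t.2.1.1.length * wl Y Z t.2.1.1) *
        (g t.2.2.1.length * wl Y Z t.2.2.1)) =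
      Y * ∑' N, ∑' x, (slb T M y z h).MM σ N x * (slb T M y z h).cE σ x := by
    rw [ENNReal.tsum_mul_left, ENNReal.tsum_sigma', ENNReal.tsum_comm]
    congr 1
    refine tsum_congr fun x => ?_
    rw [ENNReal.tsum_mul_right, hm x, hc x, ENNReal.tsum_prod', ← ENNReal.tsum_mul_right]
    refine tsum_congr fun l => ?_
    exact ENNReal.tsum_mul_left (a := g l.1.length * wl Y Z l.1)
      (f := fun b : HS T M 0 x => g b.1.length * wl Y Z b.1)
  have e8 : ∑' E : PS T M, g E.1.card * (Y ^ span E.1 * Z ^ E.1.card) =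
      ENNReal.ofReal (y / 2) * ∑' N, ∑' x, (slb T M y z h).MM σ N x *
        (slb T M y z h).cE σ x := by
    have h2 : (2 : ℝ≥0∞)⁻¹ * 2 = 1 := ENNReal.inv_mul_cancel two_ne_zero ENNReal.ofNat_ne_top
    have h3 : ENNReal.ofReal (y / 2) = 2⁻¹ * Y := by
      rw [hY, div_eq_mul_inv, ENNReal.ofReal_mul hy.le, mul_comm,
        ENNReal.ofReal_inv_of_pos two_pos, ENNReal.ofReal_ofNat]
    rw [h3, mul_assoc, ← e7, ← e6, ← e5, ← mul_assoc, h2, one_mul]
  show ∑' n : ℕ, ENNReal.ofReal (ZS T M y n * z ^ n * Real.exp (-(n : ℝ) * σ)) =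
    ∑' n : ℕ, ENNReal.ofReal (ZS0 T M y n * z ^ n * Real.exp (-(n : ℝ) * σ)) + _
  rw [e1, e2, e3, e4, e8]

end Pool.Agent.KSlab
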