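import Pool.Agent.KSlab.MOk
import Pool.Agent.KSlab.MTot
import Pool.Agent.KSlab.MCrit
import Pool.Agent.KSlab.FinA

/-! SM20: the asymptotics of the number of stretched polygons in a slab. -/

set_option autoImplicit false

open Pool.Agent.LK Filter Topology

namespace Pool.Agent.KSlab

open Pool.Agent.KTube Pool.Agent.KRing Pool.Agent.KLog Pool.Agent.KCls

variable {T : Finset (Sym2 P3) → Prop}

/-- **The asymptotics of the number of stretched polygons of class `T` in a slab.** -/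
theorem main (hT : Cls T) (M : ℕ) {y : ℝ} (hy : 10 ^ 24 ≤ y) : ∃ μ : ℝ, 0 < μ ∧ ∃ A : ℝ, 0 < A ∧
    Tendsto (fun k : ℕ => ZS T M y (2 * k) /
      (μ ^ (2 * k) * ((2 * k : ℕ) : ℝ) ^ (-(3 / 2) : ℝ))) atTop (𝓝 A) := by
  obtain ⟨z, h, hC⟩ := exists_critS hT M hy
  obtain ⟨A, hA, hl⟩ := (slb_ok hC).asymp (tot hT hC.y_pos hC.z_pos hC.z_le hC.q_le)
  refine ⟨z⁻¹, inv_pos.2 hC.z_pos, A, hA, hl.congr fun k => ?_⟩
  rcases Nat.eq_zero_or_pos k with rfl | hk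
  · simp [Real.zero_rpow (show (-(3 / 2) : ℝ) ≠ 0 by norm_num),
      Real.zero_rpow (show (3 / 2 : ℝ) ≠ 0 by norm_num)]
  · have h1 : (0 : ℝ) < ((2 * k : ℕ) : ℝ) := by positivity
    rw [Real.rpow_neg h1.le, inv_pow]
    have h2 := hC.z_pos
    have h3 : 0 < ((2 * k : ℕ) : ℝ) ^ (3 / 2 : ℝ) := Real.rpow_pos_of_pos h1 _
    field_simp

end Pool.Agent.KSlab
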