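import Pool.Agent.KSlab.MFib
import Pool.Agent.KCls.Rot

/-! SM8: reflection in the direction of the displacement. Adaptation of `KCls/Rot.lean` and
`KLog/Rot.lean` (first parts: halves and blocks under a lattice isometry that preserves the
levels), with the map `mx` instead of the quarter turn `rt3`. -/

set_option autoImplicit false

open Pool.Agent.LK
open scoped ENNReal

namespace Pool.Agent.KSlab

open Pool.Agent.KTube Pool.Agent.KRing Pool.Agent.KLog Pool.Agent.KCls
open Pool.Agent.KAsym (ln wtR wlR)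
open Pool.Agent.LatticeTube (pedges mem_pedges mem_of_mem_pedges)

/-- The reflection of a point. -/
def mx (u : P3) : P3 := (-u.1, u.2.1, u.2.2)

/-- The reflection of a pair of words. -/
def mxP (π : PP) : PP := (π.1.map mx, π.2.map mx)

variable {T : Finset (Sym2 P3) → Prop} {v : ℤ × ℤ} {π : PP} {l : List P3} {n : ℕ}

theorem mx_mx (u : P3) : mx (mx u) = u := by
  refine Prod.ext ?_ rfl
  simp [mx]

/-! ### The reflection of lattice points -/

/-- The reflection of a column. -/
private def mc (c : ℤ × ℤ) : ℤ × ℤ := (-c.1, c.2)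

private theorem mc_mc (c : ℤ × ℤ) : mc (mc c) = c := by
  refine Prod.ext ?_ rfl
  simp [mc]

private theorem mx_inj : Function.Injective mx := fun u w h => by
  have := congrArg mx h
  rwa [mx_mx, mx_mx] at this

private theorem mc_inj : Function.Injective mc := fun u w h => by
  have := congrArg mc h
  rwa [mc_mc, mc_mc] at this

private theorem frame_mc : Frame (-1, 0, 0) (0, 1, 0) (0, 0, 1) :=
  ⟨by simp [dot3], by simp [dot3], by simp [dot3], by simp [dot3], by simp [dot3], by simp [dot3]⟩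

private theorem mx_eq : mx = latIso (0, 0, 0) (-1, 0, 0) (0, 1, 0) (0, 0, 1) := by
  funext u
  refine Prod.ext ?_ (Prod.ext ?_ ?_) <;> simp [latIso, mx]

private theorem mx_add (u w : P3) : mx (u + w) = mx u + mx w := by
  refine Prod.ext ?_ (Prod.ext ?_ ?_)
  · simp only [mx, Prod.fst_add]; ring
  · simp only [mx, Prod.fst_add, Prod.snd_add]
  · simp only [mx, Prod.snd_add]

private theorem mx_zero : mx 0 = 0 := by
  refine Prod.ext ?_ (Prod.ext ?_ ?_) <;> simp [mx]

private theorem sum_mx (s : List P3) : (s.map mx).sum = mx s.sum := by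
  induction s with
  | nil => simp [mx_zero]
  | cons d s ih => rw [List.map_cons, List.sum_cons, List.sum_cons, ih, mx_add]

private theorem wk_mx (p : P3) (s : List P3) : (wk p s).map mx = wk (mx p) (s.map mx) := by
  induction s generalizing p with
  | nil => rfl
  | cons d s ih =>
    rw [wk_cons, List.map_cons, List.map_cons, wk_cons, ih, mx_add]

private theorem hz_mx (u : P3) : hz (mx u) = mc (hz u) := rfl

private theorem mc_sub (a b : ℤ × ℤ) : mc (a - b) = mc a - mc b := by
  refine Prod.ext ?_ rfl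
  simp only [mc, Prod.fst_sub]; ring

private theorem mc_add (a b : ℤ × ℤ) : mc (a + b) = mc a + mc b := by
  refine Prod.ext ?_ rfl
  simp only [mc, Prod.fst_add]; ring

private theorem mc_zero : mc 0 = 0 := by
  refine Prod.ext ?_ rfl
  simp [mc]

private theorem mx_col (c : ℤ × ℤ) (j : ℤ) : mx (c.1, c.2, j) = ((mc c).1, (mc c).2, j) := rfl

private theorem adj_mx {u w : P3} (h : Adj u w) : Adj (mx u) (mx w) := by
  rw [mx_eq]
  exact (latIso_adj frame_mc _ u w).2 h

/-! ### Polygons -/

private theorem mem_mxE {E : Finset (Sym2 P3)} {u w : P3} :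
    s(u, w) ∈ mapE mx E ↔ s(mx u, mx w) ∈ E := by
  have := mem_mapE mx_inj (E := E) (u := mx u) (v := mx w)
  rwa [mx_mx, mx_mx] at this

private theorem isPolygon_mx {E : Finset (Sym2 P3)} (hE : IsPolygon E) :
    IsPolygon (mapE mx E) := by
  rw [mx_eq]
  exact isPolygon_latIso frame_mc _ hE

private theorem sameType_mx (E : Finset (Sym2 P3)) : SameType E (mapE mx E) := by
  rw [mx_eq]
  obtain ⟨G, -, hG, hseg⟩ := exists_latHomeo frame_mc (0, 0, 0)
  exact ⟨G, (body_mapE G _ hG hseg E).symm⟩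

private theorem ring_mx (c : List P3) : ring (c.map mx) = mapE mx (ring c) := by
  unfold ring
  rw [← pedges_map, List.map_append, List.getLast?_map]
  congr 2
  cases c.getLast? <;> rfl

private theorem cross_mx {E : Finset (Sym2 P3)} (j : ℤ) :
    cross (mapE mx E) j = mc '' cross E j := by
  ext c
  rw [mem_cross, mem_mxE, Set.mem_image]
  constructor
  · intro h
    exact ⟨mc c, h, mc_mc c⟩
  · rintro ⟨d, hd, rfl⟩
    have h1 := mem_cross.1 hd
    rw [← mx_col, ← mx_col, mx_mx, mx_mx]
    exact h1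

private theorem lowClose_mx {E A : Finset (Sym2 P3)} {k : ℤ} (h : LowClose E k A) :
    LowClose (mapE mx E) k (mapE mx A) := by
  refine ⟨isPolygon_mx h.1, ?_, ?_⟩
  · intro u w hu
    rw [mem_mxE, mem_mxE]
    exact h.2.1 _ _ hu
  · intro j hj h1
    rw [cross_mx] at h1 ⊢
    rw [Set.ncard_image_of_injective _ mc_inj]
    exact h.2.2 j hj (Set.image_nonempty.1 h1)

private theorem lowU_mx {E : Finset (Sym2 P3)} {k : ℤ} (h : LowU E k) :
    LowU (mapE mx E) k := by
  obtain ⟨A, hA, hU⟩ := h
  exact ⟨_, lowClose_mx hA, (sameType_mx A).symm.unknotted hU⟩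

private theorem lowT_mx (hT : Cls T) {E : Finset (Sym2 P3)} {k : ℤ} (h : LowT T E k) :
    LowT T (mapE mx E) k := by
  obtain ⟨A, hA, hU⟩ := h
  exact ⟨_, lowClose_mx hA, hT.inv _ _ (sameType_mx A) hU⟩

/-! ### Halves and blocks -/

private theorem chain_mx {l : List P3} (h : l.IsChain Adj) : (l.map mx).IsChain Adj := by
  rw [List.isChain_map]
  exact h.imp fun u w huw => adj_mx huw

private theorem head_mx {l : List P3} {c : ℤ × ℤ} {j : ℤ} (h : l.head? = some (c.1, c.2, j)) :
    (l.map mx).head? = some ((mc c).1, (mc c).2, j) := by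
  rw [List.head?_map, h]
  rfl

private theorem last_mx {l : List P3} {c : ℤ × ℤ} {j : ℤ}
    (h : l.getLast? = some (c.1, c.2, j)) :
    (l.map mx).getLast? = some ((mc c).1, (mc c).2, j) := by
  rw [List.getLast?_map, h]
  rfl

private theorem upper_mx {k : ℤ} {a b : ℤ × ℤ} {r : List P3} (h : Upper k a b r) :
    Upper k (mc a) (mc b) (r.map mx) := by
  refine ⟨h.nodup.map mx_inj, chain_mx h.chain, head_mx h.head, last_mx h.last, ?_⟩
  intro u hu
  obtain ⟨w, hw, rfl⟩ := List.mem_map.1 hu
  exact h.lev w hw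

private theorem lower_mx {k : ℤ} {a b : ℤ × ℤ} {l : List P3} (h : Lower k a b l) :
    Lower k (mc a) (mc b) (l.map mx) := by
  refine ⟨h.nodup.map mx_inj, chain_mx h.chain, head_mx h.head, last_mx h.last, ?_⟩
  intro u hu
  obtain ⟨w, hw, rfl⟩ := List.mem_map.1 hu
  exact h.lev w hw

private theorem lu_mx {k : ℤ} {a b : ℤ × ℤ} {l : List P3} (h : LU k a b l) :
    LU k (mc a) (mc b) (l.map mx) := by
  obtain ⟨hab, hl, r, hr, hU⟩ := h
  refine ⟨fun h1 => hab (mc_inj h1), lower_mx hl, r.map mx, upper_mx hr, ?_⟩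
  rw [← List.map_append, ring_mx]
  exact lowU_mx hU

private theorem lt_mx (hT : Cls T) {k : ℤ} {a b : ℤ × ℤ} {l : List P3} (h : LT T k a b l) :
    LT T k (mc a) (mc b) (l.map mx) := by
  obtain ⟨hab, hl, r, hr, hU⟩ := h
  refine ⟨fun h1 => hab (mc_inj h1), lower_mx hl, r.map mx, upper_mx hr, ?_⟩
  rw [← List.map_append, ring_mx]
  exact lowT_mx hT hU

private theorem block_mx {k k' : ℤ} {a b a' b' : ℤ × ℤ} {A B : List P3}
    (h : Block k k' a b a' b' A B) :
    Block k k' (mc a) (mc b) (mc a') (mc b') (A.map mx) (B.map mx) := by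
  refine ⟨h.lt, h.nodupA.map mx_inj, h.nodupB.map mx_inj, ?_, chain_mx h.chainA,
    chain_mx h.chainB, head_mx h.headA, last_mx h.lastA, head_mx h.headB, last_mx h.lastB,
    ?_, ?_⟩
  · intro u hu hu'
    obtain ⟨w, hw, rfl⟩ := List.mem_map.1 hu
    obtain ⟨w', hw', he⟩ := List.mem_map.1 hu'
    rw [mx_inj he] at hw'
    exact h.disj w hw hw'
  · intro u hu
    obtain ⟨w, hw, rfl⟩ := List.mem_map.1 hu
    exact h.levA w hw
  · intro u hu
    obtain ⟨w, hw, rfl⟩ := List.mem_map.1 hu
    exact h.levB w hw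

private theorem leg_mx {l : List P3} {c : ℤ × ℤ} {j : ℤ} :
    leg (mc c) j ∈ pedges (l.map mx) ↔ leg c j ∈ pedges l := by
  rw [pedges_map]
  unfold leg
  rw [← mx_col, ← mx_col, mem_mapE mx_inj]

private theorem sdA_mx (π : PP) : sdA (mxP π) = (sdA π).map mx := by
  unfold sdA
  rw [wk_mx]
  rfl

private theorem sdB_mx (v : ℤ × ℤ) (π : PP) : sdB (mc v) (mxP π) = (sdB v π).map mx := by
  unfold sdB
  rw [List.map_reverse, wk_mx]
  rfl

private theorem hgt_mx (π : PP) : hgt (mxP π) = hgt π := by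
  unfold KLog.hgt mxP
  rw [sum_mx]
  rfl

private theorem hz_sum (s : List P3) : hz (s.map mx).sum = mc (hz s.sum) := by
  rw [sum_mx, hz_mx]

private theorem steps_mx {s : List P3} (h : Steps s) : Steps (s.map mx) := by
  intro d hd
  obtain ⟨e, he, rfl⟩ := List.mem_map.1 hd
  rcases step_cases (h e he) with rfl | rfl | rfl | rfl | rfl | rfl <;> simp [mx, IsStep]

private theorem stp_mx {s : List P3} (h : Steps s) : stp (lets (s.map mx)) = stp (lets s) := by
  induction s with
  | nil => rfl
  | cons d s ih =>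
    have h1 := ih h.cons.2
    have h2 : (hlet (mx d)).isSome = (hlet d).isSome := by
      rcases step_cases h.cons.1 with rfl | rfl | rfl | rfl | rfl | rfl <;> decide
    unfold stp at h1 ⊢
    rw [List.map_cons, lets_cons, lets_cons, List.countP_cons, List.countP_cons, h1, h2]

private theorem nrm_mc (v : ℤ × ℤ) : nrm (mc v) = nrm v := by
  unfold nrm mc
  simp only [Int.natAbs_neg]

private theorem geo_mxP (h : Geo v π) : Geo (mc v) (mxP π) := by
  refine ⟨?_, steps_mx h.stA, steps_mx h.stB, ?_, ?_⟩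
  · intro h1
    rw [← mc_zero] at h1
    exact h.ne (mc_inj h1)
  · have h1 := block_mx h.block
    rw [mc_zero, mc_add, ← hz_sum, ← hz_sum, ← sdA_mx, ← sdB_mx, ← hgt_mx] at h1
    exact h1
  · intro j hj hj'
    rw [hgt_mx] at hj'
    rw [sdA_mx, sdB_mx]
    have h1 : {c | leg c j ∈ pedges ((sdA π).map mx) ∨ leg c j ∈ pedges ((sdB v π).map mx)} =
        mc '' {c | leg c j ∈ pedges (sdA π) ∨ leg c j ∈ pedges (sdB v π)} := by
      ext c
      rw [Set.mem_image]
      constructor
      · intro hc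
        refine ⟨mc c, ?_, mc_mc c⟩
        rw [← mc_mc c] at hc
        rcases hc with hc | hc
        · exact Or.inl (leg_mx.1 hc)
        · exact Or.inr (leg_mx.1 hc)
      · rintro ⟨d, hd | hd, rfl⟩
        · exact Or.inl (leg_mx.2 hd)
        · exact Or.inr (leg_mx.2 hd)
    rw [h1, Set.ncard_image_of_injective _ mc_inj]
    exact h.thick j hj hj'

private theorem nsec_mx (l : List P3) : nsec (l.map mx) = nsec l := by
  unfold nsec
  congr 1
  ext j
  have h1 : {c | leg c j ∈ pedges (l.map mx)} = mc '' {c | leg c j ∈ pedges l} := by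
    ext c
    rw [Set.mem_image]
    constructor
    · intro hc
      refine ⟨mc c, ?_, mc_mc c⟩
      have hc' : leg (mc (mc c)) j ∈ pedges (l.map mx) := by
        rw [mc_mc]
        exact hc
      exact leg_mx.1 hc'
    · rintro ⟨d, hd, rfl⟩
      exact leg_mx.2 hd
  have h2 : {c | leg c j ∈ pedges (l.map mx)}.ncard = {c | leg c j ∈ pedges l}.ncard := by
    rw [h1, Set.ncard_image_of_injective _ mc_inj]
  constructor
  · intro h
    exact h2.symm.trans h
  · intro h
    exact h2.trans h

theorem mxP_mxP (π : PP) : mxP (mxP π) = π := by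
  have h2 : ∀ s : List P3, (s.map mx).map mx = s := by
    intro s
    simp only [List.map_map]
    conv_rhs => rw [← List.map_id s]
    refine List.map_congr_left fun u _ => ?_
    exact mx_mx u
  exact Prod.ext (h2 π.1) (h2 π.2)

theorem dsp_mxP (π : PP) : dsp (mxP π) = (-(dsp π).1, (dsp π).2) := by
  have h : dsp (mxP π) = mc (dsp π) := by
    unfold dsp
    rw [mc_sub, ← hz_sum, ← hz_sum]
    rfl
  exact h

theorem nh_mxP (hA : Steps π.1) (hB : Steps π.2) : nh (mxP π) = nh π := by
  unfold nh mxP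
  simp only
  rw [stp_mx hA, stp_mx hB]

theorem ln_mxP (π : PP) : ln (mxP π) = ln π := by
  unfold ln mxP
  simp only [List.length_map]

theorem wtR_mxP (y z : ℝ) (π : PP) : wtR y z (mxP π) = wtR y z π := by
  unfold wtR
  rw [hgt_mx, ln_mxP]

theorem wlR_mx (y z : ℝ) (l : List P3) : wlR y z (l.map mx) = wlR y z l := by
  have h : lspan (l.map mx) = lspan l := by
    unfold lspan planes
    congr 1
    ext j
    constructor
    · rintro ⟨c, hc⟩
      refine ⟨mc c, ?_⟩
      have hc' : leg (mc (mc c)) j ∈ pedges (l.map mx) := by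
        rw [mc_mc]
        exact hc
      exact leg_mx.1 hc'
    · rintro ⟨c, hc⟩
      exact ⟨mc c, leg_mx.2 hc⟩
  unfold wlR
  rw [h, List.length_map]

/-- As `valid_rotP`. -/
theorem valid_mxP (hT : Cls T) (h : ValidT T v π) : ValidT T (-v.1, v.2) (mxP π) := by
  have hm : ValidT T (mc v) (mxP π) := by
    refine ⟨geo_mxP h.1, ?_⟩
    obtain ⟨l, hl, hU⟩ := h.2
    refine ⟨l.map mx, ?_, ?_⟩
    · have h1 := lu_mx hl
      rwa [mc_zero] at h1
    · have h1 := lt_mx hT hU
      rw [mc_add, ← hz_sum, ← hz_sum, List.map_append, List.map_append, ← sdA_mx, ← sdB_mx,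
        ← hgt_mx] at h1
      exact h1
  exact hm

theorem free_mxP (hT : Cls T) (h : FreeT T π) : FreeT T (mxP π) := by
  obtain ⟨v, hv, hV⟩ := h
  refine ⟨mc v, ?_, valid_mxP hT hV⟩
  rw [nrm_mc, nh_mxP hV.1.stA hV.1.stB]
  exact hv

/-- As `lt_rot`. -/
theorem half_mx (hT : Cls T) (h : HalfT T n v l) : HalfT T n (-v.1, v.2) (l.map mx) := by
  refine ⟨?_, ?_⟩
  · have h1 := lt_mx hT h.1
    rwa [mc_zero] at h1
  · rw [nsec_mx]
    exact h.2

end Pool.Agent.KSlab
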