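import Pool.Agent.KSlab.MMir

/-! SM9: the kernel is invariant under reflection. -/

set_option autoImplicit false

open Pool.Agent.LK
open scoped ENNReal

namespace Pool.Agent.KSlab

open Pool.Agent.KTube Pool.Agent.KRing Pool.Agent.KLog Pool.Agent.KCls
open Pool.Agent.KAsym (ln wtR wlR)

variable {T : Finset (Sym2 P3) → Prop} {M : ℕ} {y z : ℝ} {h : II M → ℝ}

private theorem mx_add' (u w : P3) : mx (u + w) = mx u + mx w := by
  refine Prod.ext ?_ rfl
  simp only [mx, Prod.fst_add]; ring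

private theorem mx_zero' : mx 0 = 0 := by
  refine Prod.ext ?_ rfl
  simp [mx]

private theorem sum_mx' (s : List P3) : (s.map mx).sum = mx s.sum := by
  induction s with
  | nil => simp [mx_zero']
  | cons d s ih => rw [List.map_cons, List.sum_cons, List.sum_cons, ih, mx_add']

private theorem wk_mx' (p : P3) (s : List P3) : (wk p s).map mx = wk (mx p) (s.map mx) := by
  induction s generalizing p with
  | nil => rfl
  | cons d s ih =>
    rw [wk_cons, List.map_cons, List.map_cons, wk_cons, ih, mx_add']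

private theorem inS_mx' {a : ℤ} {l : List P3} (hl : InS M a l) : InS M a (l.map mx) := by
  intro p hp
  obtain ⟨q, hq, rfl⟩ := List.mem_map.1 hp
  exact hl q hq

private theorem inS_wk' {a : ℤ} {l : List P3} (hl : InS M a (wk (0, 0, 1) l)) :
    InS M a (wk (0, 0, 1) (l.map mx)) := by
  have h1 := inS_mx' hl
  rw [wk_mx'] at h1
  have h2 : mx ((0, 0, 1) : P3) = (0, 0, 1) := by
    refine Prod.ext ?_ rfl
    simp [mx]
  rwa [h2] at h1

private theorem cb_mxP {i j : II M} {π : PP} (hb : CB i j π) : CB i j (mxP π) := by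
  refine ⟨inS_wk' hb.inA, inS_wk' hb.inB, ?_, ?_⟩
  · have h1 := hb.eA
    show ((i.1 : ℕ) : ℤ) + (π.1.map mx).sum.2.1 = _
    rw [sum_mx']
    exact h1
  · have h1 := hb.eB
    show ((i.2 : ℕ) : ℤ) + (π.2.map mx).sum.2.1 = _
    rw [sum_mx']
    exact h1

/-- The second coordinates do not change. -/
theorem cx_mxP {x x' : XX (II M)} {π : PP} (h : CX x x' π) :
    CX (-x.1, x.2) (-x'.1, x'.2) (mxP π) := by
  refine ⟨cb_mxP h.1, ?_⟩
  have h1 := h.2
  show -x.1 + (dsp (mxP π)).1 = -x'.1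
  rw [dsp_mxP]
  show -x.1 + -(dsp π).1 = -x'.1
  omega

private def mxE : PP ≃ PP := ⟨mxP, mxP, mxP_mxP, mxP_mxP⟩

private def mxL : List P3 ≃ List P3 :=
  ⟨fun l => l.map mx, fun l => l.map mx, fun l => by
    show (l.map mx).map mx = l
    rw [List.map_map]
    have : mx ∘ mx = id := funext mx_mx
    rw [this, List.map_id], fun l => by
    show (l.map mx).map mx = l
    rw [List.map_map]
    have : mx ∘ mx = id := funext mx_mx
    rw [this, List.map_id]⟩

private theorem cx_iff {x x' : XX (II M)} {π : PP} :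
    CX (-x.1, x.2) (-x'.1, x'.2) (mxP π) ↔ CX x x' π := by
  refine ⟨fun h => ?_, cx_mxP⟩
  have h1 := cx_mxP h
  rw [mxP_mxP] at h1
  simpa using h1

/-- Transport of the sums along the reflection. -/
private theorem gn_mx {P Q : PP → Prop} (hPQ : ∀ π, P π ↔ Q (mxP π)) (x x' : XX (II M)) (n : ℕ) :
    gn y z Q (-x.1, x.2) (-x'.1, x'.2) n = gn y z P x x' n := by
  unfold gn
  rw [← (mxE.subtypeEquiv (p := fun π => P π ∧ CX x x' π ∧ ln π = n)
    (q := fun π => Q π ∧ CX (-x.1, x.2) (-x'.1, x'.2) π ∧ ln π = n) fun π => by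
      show _ ↔ Q (mxP π) ∧ CX (-x.1, x.2) (-x'.1, x'.2) (mxP π) ∧ ln (mxP π) = n
      rw [hPQ, cx_iff, ln_mxP]).tsum_eq
    (fun π : {π : PP // Q π ∧ CX (-x.1, x.2) (-x'.1, x'.2) π ∧ ln π = n} => wtR y z π.1)]
  exact tsum_congr fun π => wtR_mxP y z π.1

/-- The bijection `mxP` of the pairs; `vv (-x.1, x.2) = (-(vv x).1, (vv x).2)`. -/
theorem f_even (hT : Cls T) (n : ℕ) (t : ℤ) (i j : II M) :
    (slb T M y z h).f n (-t) i j = (slb T M y z h).f n t i j := by
  have h1 := gn_mx (y := y) (z := z) (P := FreeT T) (Q := FreeT T)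
    (fun π => ⟨free_mxP hT, fun h2 => by
      have h3 := free_mxP hT h2
      rwa [mxP_mxP] at h3⟩) ((0, i) : XX (II M)) (t, j) n
  simp only [neg_zero] at h1
  exact h1

theorem k_refl (hT : Cls T) (n : ℕ) (x x' : XX (II M)) :
    (slb T M y z h).k n (-x.1, x.2) (-x'.1, x'.2) = (slb T M y z h).k n x x' :=
  gn_mx (y := y) (z := z) (P := ValidT T (vv x)) (Q := ValidT T (vv (-x.1, x.2)))
    (fun π => ⟨fun h1 => valid_mxP hT h1, fun h2 => by
      have h3 := valid_mxP hT h2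
      rw [mxP_mxP] at h3
      have h4 : (-(vv (-x.1, x.2)).1, (vv (-x.1, x.2)).2) = vv x := by
        refine Prod.ext ?_ rfl
        show - -x.1 = x.1
        ring
      rwa [h4] at h3⟩) x x' n

theorem c_refl (hT : Cls T) (n : ℕ) (x : XX (II M)) :
    (slb T M y z h).c n (-x.1, x.2) = (slb T M y z h).c n x := by
  have h1 : ∀ {v : ℤ × ℤ} {l : List P3}, HalfT T 0 v l → HalfT T 0 (-v.1, v.2) (l.map mx) :=
    fun h2 => half_mx hT h2
  have h2 : ∀ l : List P3, (l.map mx).map mx = l := fun l => mxL.left_inv l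
  show ∑' l : {l // HalfT T 0 (vv (-x.1, x.2)) l ∧ InS M ((x.2.1 : ℕ) : ℤ) l ∧ l.length = n},
    wlR y z l.1 = ∑' l : {l // HalfT T 0 (vv x) l ∧ InS M ((x.2.1 : ℕ) : ℤ) l ∧ l.length = n},
    wlR y z l.1
  rw [← (mxL.subtypeEquiv
    (p := fun l => HalfT T 0 (vv x) l ∧ InS M ((x.2.1 : ℕ) : ℤ) l ∧ l.length = n)
    (q := fun l => HalfT T 0 (vv (-x.1, x.2)) l ∧ InS M ((x.2.1 : ℕ) : ℤ) l ∧ l.length = n)
    fun l => by
      show _ ↔ HalfT T 0 (vv (-x.1, x.2)) (l.map mx) ∧ InS M ((x.2.1 : ℕ) : ℤ) (l.map mx) ∧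
        (l.map mx).length = n
      rw [List.length_map]
      refine ⟨fun h3 => ⟨h1 h3.1, inS_mx' h3.2.1, h3.2.2⟩, fun h3 => ⟨?_, ?_, h3.2.2⟩⟩
      · have h4 := h1 h3.1
        rw [h2] at h4
        have h5 : (-(vv (-x.1, x.2)).1, (vv (-x.1, x.2)).2) = vv x := by
          refine Prod.ext ?_ rfl
          show - -x.1 = x.1
          ring
        rwa [h5] at h4
      · have h4 := inS_mx' h3.2.1
        rwa [h2] at h4).tsum_eq
    (fun l : {l // HalfT T 0 (vv (-x.1, x.2)) l ∧ InS M ((x.2.1 : ℕ) : ℤ) l ∧ l.length = n} =>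
      wlR y z l.1)]
  exact tsum_congr fun l => wlR_mx y z l.1

end Pool.Agent.KSlab
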