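import Pool.Agent.KSlab.SDefs

/-! SM11: the steps towards the dead states. -/

set_option autoImplicit false

open Pool.Agent.LK

namespace Pool.Agent.KSlab

open Pool.Agent.KTube Pool.Agent.KRing Pool.Agent.KLog Pool.Agent.KCls

variable {T : Finset (Sym2 P3) → Prop} {M : ℕ} {y z : ℝ} {h : II M → ℝ}

private theorem al_def (x : XX (II M)) :
    (slb T M y z h).Al x ↔ ¬ (x.1 = 0 ∧ x.2.1 = x.2.2) := Iff.rfl

theorem al_iff (x : XX (II M)) : (slb T M y z h).Al x ↔ vv x ≠ 0 := by
  rw [al_def, not_iff_not]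
  unfold vv
  rw [Prod.mk_eq_zero, Fin.ext_iff]
  constructor
  · rintro ⟨h1, h2⟩
    exact ⟨h1, by omega⟩
  · rintro ⟨h1, h2⟩
    exact ⟨h1, by omega⟩

theorem len_zero (x : XX (II M)) : nrm (vv x) = 0 ↔ ¬ (slb T M y z h).Al x := by
  rw [al_def, not_not, Fin.ext_iff]
  unfold nrm vv
  constructor
  · intro h1
    constructor <;> omega
  · rintro ⟨h1, h2⟩
    simp only [h1]
    omega

theorem nx_len (x : XX (II M)) (hx : (slb T M y z h).Al x) :
    nrm (vv (nxS x)) + 1 = nrm (vv x) := by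
  rw [al_def, Fin.ext_iff] at hx
  unfold nrm vv nxS
  split_ifs with h1 h2 h3
  · simp only
    omega
  · simp only
    omega
  · simp only
    push_cast
    omega
  · simp only
    omega

/-- The preimages of `(u, a, b)`: for `u ≠ 0` only `(u ± 1, a, b)` (one sign); for `u = 0` the states `(±1, a, b)` and
`(0, a ∓ 1, b)` (one sign). -/
theorem nx_card (x' : XX (II M)) (hx' : (slb T M y z h).Al x') : ∃ s : Finset (XX (II M)),
    s.card ≤ 3 ∧ ∀ x, (slb T M y z h).Al x → nxS x = x' → x ∈ s := by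
  classical
  obtain ⟨u, a, b⟩ := x'
  rw [al_def] at hx'
  simp only at hx'
  refine ⟨{(u + 1, a, b), (u - 1, a, b),
    (0, ⟨min (if (a : ℕ) < b then (a : ℕ) - 1 else a + 1) M, by omega⟩, b)},
    Finset.card_le_three, ?_⟩
  rintro ⟨v, c, d⟩ hx hn
  rw [al_def] at hx
  simp only at hx
  rw [Finset.mem_insert, Finset.mem_insert, Finset.mem_singleton]
  unfold nxS at hn
  simp only at hn
  split_ifs at hn with h1 h2 h3
  · left
    simp only [Prod.mk.injEq] at hn ⊢
    exact ⟨by omega, hn.2.1, hn.2.2⟩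
  · right; left
    simp only [Prod.mk.injEq] at hn ⊢
    exact ⟨by omega, hn.2.1, hn.2.2⟩
  · right; right
    simp only [Prod.mk.injEq, Fin.ext_iff] at hn hx hx' ⊢
    have h4 := c.2
    have h5 := d.2
    obtain ⟨e1, e2, e3⟩ := hn
    refine ⟨by omega, ?_, by omega⟩
    split_ifs <;> omega
  · right; right
    simp only [Prod.mk.injEq, Fin.ext_iff] at hn hx hx' ⊢
    have h4 := c.2
    have h5 := d.2
    obtain ⟨e1, e2, e3⟩ := hn
    refine ⟨by omega, ?_, by omega⟩
    split_ifs <;> omega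

end Pool.Agent.KSlab
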