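import Pool.Agent.KSlab.MBas

/-! SM4: sums over the blocks. -/

set_option autoImplicit false

open Pool.Agent.LK
open scoped ENNReal

namespace Pool.Agent.KSlab

open Pool.Agent.KTube Pool.Agent.KRing Pool.Agent.KLog Pool.Agent.KCls
open Pool.Agent.KAsym (ln wtR wlR)

variable {T : Finset (Sym2 P3) → Prop} {M : ℕ} {y z : ℝ} {h : II M → ℝ}

private theorem k_nn (hy : 0 < y) (hz : 0 < z) (n : ℕ) (x x' : XX (II M)) :
    0 ≤ (slb T M y z h).k n x x' :=
  tsum_nonneg fun π => wtR_nn hy hz π.1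

private theorem k_fib (hy : 0 < y) (hz : 0 < z) (hz1 : z ≤ 1 / 10 ^ 12) (hq : y * z ^ 2 ≤ 1)
    (x : XX (II M)) (φ : ℕ → ℝ≥0∞) :
    ∑' p : ℕ × XX (II M), φ p.1 * ENNReal.ofReal ((slb T M y z h).k p.1 x p.2) =
      ∑' π : {π : PP // ValidT T (vv x) π ∧ ∃ x', CX x x' π},
        φ (ln π.1) * wt (ENNReal.ofReal y) (ENNReal.ofReal z) π.1 := by
  rw [← cx_sum x (ValidT T (vv x))
    (fun π => φ (ln π) * wt (ENNReal.ofReal y) (ENNReal.ofReal z) π), ENNReal.tsum_prod',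
    ENNReal.tsum_comm]
  refine tsum_congr fun x' => ?_
  exact fib hy hz hz1 hq (fun π hπ => ⟨_, hπ.1⟩) x x' φ

private theorem two_eq : (2 : ℝ≥0∞) = ENNReal.ofReal 2 := by
  rw [show (2 : ℝ) = ((2 : ℕ) : ℝ) by norm_num, ENNReal.ofReal_natCast]
  norm_num

theorem k_dead (n : ℕ) (x x' : XX (II M)) (hx : ¬ (slb T M y z h).Al x) :
    (slb T M y z h).k n x x' = 0 := by
  have h1 : x.1 = 0 ∧ x.2.1 = x.2.2 := by
    by_contra h2
    exact hx h2
  have h3 : vv x = 0 := by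
    unfold vv
    rw [h1.1, h1.2, sub_self]
    rfl
  have h4 : IsEmpty {π : PP // ValidT T (vv x) π ∧ CX x x' π ∧ ln π = n} :=
    ⟨fun π => π.2.1.1.ne h3⟩
  change ∑' π : {π : PP // ValidT T (vv x) π ∧ CX x x' π ∧ ln π = n}, wtR y z π.1 = 0
  exact tsum_empty

/-- `fib`, `cx_sum`, `geo_fin`, `sum_of`. -/
theorem k_sum (hy : 0 < y) (hz : 0 < z) (hz1 : z ≤ 1 / 10 ^ 12) (hq : y * z ^ 2 ≤ 1)
    (x : XX (II M)) : Summable fun p : ℕ × XX (II M) => 2 ^ p.1 * (slb T M y z h).k p.1 x p.2 := by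
  have hfin := geo_fin hy hz hz1 hq
  refine (sum_of (c := (∑' π : {π : PP // ∃ v, Geo v π},
    wt (ENNReal.ofReal y) (ENNReal.ofReal z) π.1 * 2 ^ ln π.1 * 576 ^ nh π.1).toReal)
    (fun p => mul_nonneg (by positivity) (k_nn hy hz _ _ _)) ENNReal.toReal_nonneg ?_).1
  rw [ENNReal.ofReal_toReal hfin]
  have h1 : ∀ p : ℕ × XX (II M), ENNReal.ofReal (2 ^ p.1 * (slb T M y z h).k p.1 x p.2) =
      2 ^ p.1 * ENNReal.ofReal ((slb T M y z h).k p.1 x p.2) := by
    intro p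
    rw [ENNReal.ofReal_mul (by positivity), ENNReal.ofReal_pow (by norm_num), ← two_eq]
  rw [tsum_congr h1, k_fib hy hz hz1 hq x (fun n => 2 ^ n)]
  have h2 : ∀ π : {π : PP // ValidT T (vv x) π ∧ ∃ x', CX x x' π},
      2 ^ ln π.1 * wt (ENNReal.ofReal y) (ENNReal.ofReal z) π.1 ≤
        wt (ENNReal.ofReal y) (ENNReal.ofReal z) π.1 * 2 ^ ln π.1 * 576 ^ nh π.1 := by
    intro π
    rw [mul_comm]
    exact le_mul_of_one_le_right' (one_le_pow₀ (by norm_num))
  refine (ENNReal.tsum_le_tsum h2).trans ?_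
  exact ENNReal.tsum_mono_subtype (fun π : PP => wt (ENNReal.ofReal y) (ENNReal.ofReal z) π *
    2 ^ ln π * 576 ^ nh π) (s := {π | ValidT T (vv x) π ∧ ∃ x', CX x x' π})
    (t := {π | ∃ v, Geo v π}) fun π hπ => ⟨_, hπ.1.1⟩

/-- The basic pairs of size three (`bas_three`: `64 z`) and the others (`rest_geo'`: `z / 1000`). -/
theorem k_le (hy : 0 < y) (hz : 0 < z) (hz1 : z ≤ 1 / 10 ^ 12) (hq : y * z ^ 2 ≤ 1)
    (x : XX (II M)) : ∑' p : ℕ × XX (II M),
      (if 3 ≤ p.1 then 2 ^ p.1 * (slb T M y z h).k p.1 x p.2 else 0) ≤ 100 * z := by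
  classical
  refine (sum_of (c := 100 * z) (fun p => ?_) (by positivity) ?_).2
  · split_ifs
    · exact mul_nonneg (by positivity) (k_nn hy hz _ _ _)
    · exact le_rfl
  have h1 : ∀ p : ℕ × XX (II M), ENNReal.ofReal
      (if 3 ≤ p.1 then 2 ^ p.1 * (slb T M y z h).k p.1 x p.2 else 0) =
      (if 3 ≤ p.1 then 2 ^ p.1 else 0) * ENNReal.ofReal ((slb T M y z h).k p.1 x p.2) := by
    intro p
    split_ifs
    · rw [ENNReal.ofReal_mul (by positivity), ENNReal.ofReal_pow (by norm_num), ← two_eq]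
    · rw [ENNReal.ofReal_zero, zero_mul]
  rw [tsum_congr h1, k_fib hy hz hz1 hq x (fun n => if 3 ≤ n then 2 ^ n else 0)]
  set W : PP → ℝ≥0∞ := fun π => wt (ENNReal.ofReal y) (ENNReal.ofReal z) π with hW
  set A : Set PP := {π : PP | Bas π ∧ (∃ v, Geo v π) ∧ 3 ≤ ln π} with hA
  set B : Set PP := {p | ¬ Bas p ∧ ∃ v, Geo v p} with hB
  set gA : PP → ℝ≥0∞ := fun π => W π * 2 ^ ln π with hgA
  set gB : PP → ℝ≥0∞ := fun π => W π * 2 ^ (π.1.length + π.2.length + 2) * 576 ^ nh π with hgB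
  have h2 : ∀ π : {π : PP // ValidT T (vv x) π ∧ ∃ x', CX x x' π},
      (if 3 ≤ ln π.1 then 2 ^ ln π.1 else 0) * wt (ENNReal.ofReal y) (ENNReal.ofReal z) π.1 ≤
        A.indicator gA π.1 + B.indicator gB π.1 := by
    rintro ⟨π, h3, -⟩
    simp only
    split_ifs with h4
    · by_cases h5 : Bas π
      · refine le_trans ?_ le_self_add
        rw [Set.indicator_of_mem (show π ∈ A from ⟨h5, ⟨_, h3.1⟩, h4⟩), mul_comm]
      · refine le_trans ?_ le_add_self
        rw [Set.indicator_of_mem (show π ∈ B from ⟨h5, ⟨_, h3.1⟩⟩), mul_comm]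
        exact le_mul_of_one_le_right' (one_le_pow₀ (by norm_num))
    · rw [zero_mul]
      exact zero_le
  refine (ENNReal.tsum_le_tsum h2).trans ?_
  have h6 : ∑' π : {π : PP // ValidT T (vv x) π ∧ ∃ x', CX x x' π},
      (A.indicator gA π.1 + B.indicator gB π.1) ≤
      ∑' π : PP, (A.indicator gA π + B.indicator gB π) :=
    ENNReal.tsum_comp_le_tsum_of_injective Subtype.val_injective
      (fun π : PP => A.indicator gA π + B.indicator gB π)
  refine h6.trans ?_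
  rw [ENNReal.tsum_add, ← tsum_subtype, ← tsum_subtype]
  refine (add_le_add (bas_three hy hz) (KCls.rest_geo' hy hz hz1 hq)).trans ?_
  rw [← ENNReal.ofReal_add (by positivity) (by positivity)]
  refine ENNReal.ofReal_le_ofReal ?_
  nlinarith

end Pool.Agent.KSlab
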