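import Pool.Agent.KSlab.MSumF
import Pool.Agent.KSlab.MSumK
import Pool.Agent.KSlab.MDfc
import Pool.Agent.KSlab.MCap
import Pool.Agent.KSlab.MFlat
import Pool.Agent.KSlab.MFl
import Pool.Agent.KSlab.MNx

/-! SM19: the kernel of the polygons in the slab satisfies the hypotheses. -/

set_option autoImplicit false

open Pool.Agent.LK

namespace Pool.Agent.KSlab

open Pool.Agent.KTube Pool.Agent.KRing Pool.Agent.KLog Pool.Agent.KCls
open Pool.Agent.KAsym (ln wtR wlR)

variable {T : Finset (Sym2 P3) → Prop} {M : ℕ} {y z : ℝ} {h : II M → ℝ}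

theorem slb_ok (hC : CritS T y z h) : (slb T M y z h).Ok where
  z_pos := hC.z_pos
  z_le := hC.z_le
  q_le := hC.q_le
  q_ge := q_ge hC
  f_nn n t i j := gn_nn hC.y_pos hC.z_pos _ _ _ _
  f_low n t i j hn := by
    refine (f_low hC.cls n t i j hn).trans ?_
    congr 1
  f_even n t i j := f_even hC.cls n t i j
  f_symm n t i j := f_symm hC.cls n t i j
  f_x i := f_x hC.cls hC.y_pos hC.z_pos hC.z_le hC.q_le i
  conn S hS h1 := by
    refine conn_II S hS (fun i hi j h2 h3 => h1 i hi j ?_) (fun i hi j h2 h3 => h1 i hi j ?_)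
    · exact f_yA hC.cls hC.y_pos hC.z_pos hC.z_le hC.q_le i j h2 h3
    · exact f_yB hC.cls hC.y_pos hC.z_pos hC.z_le hC.q_le i j h2 h3
  f_sum i := f_sum hC.y_pos hC.z_pos hC.z_le hC.q_le i
  k_nn n x x' := gn_nn hC.y_pos hC.z_pos _ _ _ _
  k_symm n x x' := k_symm hC.cls n x x'
  k_refl n x x' := k_refl hC.cls n x x'
  k_low n x x' hn := by
    refine (k_low hC.cls n x x' hn).trans ?_
    congr 1
  k_dead n x x' hx := k_dead n x x' hx
  k_sum x := k_sum hC.y_pos hC.z_pos hC.z_le hC.q_le x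
  k_le x := k_le hC.y_pos hC.z_pos hC.z_le hC.q_le x
  df_le x hx := df_le hC.cls hC.y_pos hC.z_pos hC.z_le hC.q_le x hx
  df_sum := df_sum hC.cls hC.y_pos hC.z_pos hC.z_le hC.q_le
  c_nn n x := c_nn hC.y_pos hC.z_pos n x
  c_refl n x := c_refl hC.cls n x
  c_dead n x hx := c_dead n x hx
  c_pos x hx := c_pos hC.cls hC.y_pos hC.z_pos hC.z_le hC.q_le x hx
  c_sum := c_sum hC.y_pos hC.z_pos hC.z_le hC.q_le
  h_pos := hC.h_pos
  h_eq i := h_eqS hC i
  dead_ne := ⟨(0, 0), rfl⟩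
  len_zero x := len_zero x
  nx_len x hx := nx_len x hx
  nx_step x hx := nx_step hC.cls hC.y_pos hC.z_pos hC.z_le hC.q_le x hx
  nx_card x hx := nx_card x hx

end Pool.Agent.KSlab
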