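import Pool.Agent.KSlab.MGlu

/-! SM15: the iterates are the sums over the halves. -/

set_option autoImplicit false

open Pool.Agent.LK
open scoped ENNReal

namespace Pool.Agent.KSlab

open Pool.Agent.KTube Pool.Agent.KRing Pool.Agent.KLog Pool.Agent.KCls
open Pool.Agent.KAsym (ln wtR wlR)

variable {T : Finset (Sym2 P3) → Prop} {M : ℕ} {y z : ℝ} {h : II M → ℝ}

/-- A sum of nonnegative numbers. -/
private theorem mrec_ofReal {f g : ℕ → ℝ} (hf : ∀ n, 0 ≤ f n) (hg : ∀ n, 0 ≤ g n)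
    (hg1 : ∀ n, g n ≤ 1) (h : ∑' n, ENNReal.ofReal (f n) ≠ ⊤) :
    ENNReal.ofReal (∑' n, f n * g n) = ∑' n, ENNReal.ofReal (g n) * ENNReal.ofReal (f n) := by
  have h1 := ENNReal.summable_toReal h
  have h2 : (fun n => (ENNReal.ofReal (f n)).toReal) = f :=
    funext fun n => ENNReal.toReal_ofReal (hf n)
  rw [h2] at h1
  have h3 : Summable fun n => f n * g n :=
    Summable.of_nonneg_of_le (fun n => mul_nonneg (hf n) (hg n))
      (fun n => mul_le_of_le_one_right (hf n) (hg1 n)) h1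
  rw [ENNReal.ofReal_tsum_of_nonneg (fun n => mul_nonneg (hf n) (hg n)) h3]
  refine tsum_congr fun n => ?_
  rw [ENNReal.ofReal_mul (hf n), mul_comm]

private theorem mrec_exp {σ : ℝ} (hσ : 0 ≤ σ) (n : ℕ) : Real.exp (-n * σ) ≤ 1 := by
  rw [Real.exp_le_one_iff]
  have h1 : (0 : ℝ) ≤ n := Nat.cast_nonneg n
  nlinarith

/-- `ofReal` of the sum is the sum of `ofReal`, `fib_c`. -/
theorem cE_eq (hy : 0 < y) (hz : 0 < z) (hz1 : z ≤ 1 / 10 ^ 12) (hq : y * z ^ 2 ≤ 1) {σ : ℝ}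
    (hσ : 0 ≤ σ) (x : XX (II M)) : (slb T M y z h).cE σ x =
      ∑' l : HS T M 0 x, wl (ENNReal.ofReal y) (ENNReal.ofReal z) l.1 *
        ENNReal.ofReal (Real.exp (-l.1.length * σ)) := by
  have hc : ∀ n, 0 ≤ (slb T M y z h).c n x := fun n => tsum_nonneg fun l => wlR_nn hy hz l.1
  have hfin : ∑' n, ENNReal.ofReal ((slb T M y z h).c n x) ≠ ⊤ := by
    have h1 := fib_c (T := T) (M := M) (h := h) hy hz hz1 hq x (fun _ => 1)
    simp only [one_mul] at h1
    rw [h1]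
    refine ne_top_of_le_ne_top (cap_geo' hy hz hz1 hq) ?_
    refine le_trans ?_ (ENNReal.le_tsum (vv x))
    let φ : {l // HalfT T 0 (vv x) l ∧ InS M ((x.2.1 : ℕ) : ℤ) l} → {l // Flat (vv x) l} :=
      fun l => ⟨l.1, l.2.1.1.1, l.2.1.1.2.1, l.2.1.2⟩
    have hφ : Function.Injective φ := fun a b hab =>
      Subtype.ext (congrArg (fun u : {l // Flat (vv x) l} => u.1) hab)
    refine le_trans (ENNReal.tsum_le_tsum fun l => ?_) (ENNReal.tsum_comp_le_tsum_of_injective hφ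
      fun l : {l // Flat (vv x) l} =>
        wl (ENNReal.ofReal y) (ENNReal.ofReal z) l.1 * 2 ^ l.1.length * 4 ^ nrm (vv x))
    change wl (ENNReal.ofReal y) (ENNReal.ofReal z) l.1 ≤
      wl (ENNReal.ofReal y) (ENNReal.ofReal z) l.1 * 2 ^ l.1.length * 4 ^ nrm (vv x)
    rw [mul_assoc]
    exact le_mul_of_one_le_right zero_le
      (one_le_mul (one_le_pow₀ (by norm_num)) (one_le_pow₀ (by norm_num)))
  unfold Slb.cE
  rw [mrec_ofReal hc (fun n => (Real.exp_pos _).le) (mrec_exp hσ) hfin,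
    fib_c (T := T) (M := M) (h := h) hy hz hz1 hq x
      (fun n => ENNReal.ofReal (Real.exp (-n * σ)))]
  exact tsum_congr fun l => mul_comm _ _

theorem kE_eq (hy : 0 < y) (hz : 0 < z) (hz1 : z ≤ 1 / 10 ^ 12) (hq : y * z ^ 2 ≤ 1) {σ : ℝ}
    (hσ : 0 ≤ σ) (x x' : XX (II M)) : (slb T M y z h).kE σ x x' =
      ∑' π : {π : PP // ValidT T (vv x) π ∧ CX x x' π},
        wt (ENNReal.ofReal y) (ENNReal.ofReal z) π.1 *
          ENNReal.ofReal (Real.exp (-ln π.1 * σ)) := by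
  have hP : ∀ π, ValidT T (vv x) π → ∃ v, Geo v π := fun π hπ => ⟨vv x, hπ.1⟩
  have hc : ∀ n, 0 ≤ gn y z (ValidT T (vv x)) x x' n :=
    fun n => tsum_nonneg fun π => wtR_nn hy hz π.1
  have hfin : ∑' n, ENNReal.ofReal (gn y z (ValidT T (vv x)) x x' n) ≠ ⊤ := by
    have h1 := fib hy hz hz1 hq hP x x' (fun _ => 1)
    simp only [one_mul] at h1
    rw [h1]
    refine ne_top_of_le_ne_top (geo_fin hy hz hz1 hq) ?_
    let φ : {π : PP // ValidT T (vv x) π ∧ CX x x' π} → {π : PP // ∃ v, Geo v π} :=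
      fun π => ⟨π.1, vv x, π.2.1.1⟩
    have hφ : Function.Injective φ := fun a b hab =>
      Subtype.ext (congrArg (fun u : {π : PP // ∃ v, Geo v π} => u.1) hab)
    refine le_trans (ENNReal.tsum_le_tsum fun π => ?_) (ENNReal.tsum_comp_le_tsum_of_injective hφ
      fun π : {π : PP // ∃ v, Geo v π} =>
        wt (ENNReal.ofReal y) (ENNReal.ofReal z) π.1 * 2 ^ ln π.1 * 576 ^ nh π.1)
    change wt (ENNReal.ofReal y) (ENNReal.ofReal z) π.1 ≤
      wt (ENNReal.ofReal y) (ENNReal.ofReal z) π.1 * 2 ^ ln π.1 * 576 ^ nh π.1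
    rw [mul_assoc]
    exact le_mul_of_one_le_right zero_le
      (one_le_mul (one_le_pow₀ (by norm_num)) (one_le_pow₀ (by norm_num)))
  change ENNReal.ofReal (∑' n : ℕ, gn y z (ValidT T (vv x)) x x' n * Real.exp (-n * σ)) = _
  rw [mrec_ofReal hc (fun n => (Real.exp_pos _).le) (mrec_exp hσ) hfin,
    fib hy hz hz1 hq hP x x' (fun n => ENNReal.ofReal (Real.exp (-n * σ)))]
  exact tsum_congr fun π => mul_comm _ _

/-- Induction: `glu_bij`, `wl_glu`, `length_glu`. -/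
theorem mm_eq (hT : Cls T) (hy : 0 < y) (hz : 0 < z) (hz1 : z ≤ 1 / 10 ^ 12)
    (hq : y * z ^ 2 ≤ 1) {σ : ℝ} (hσ : 0 ≤ σ) (N : ℕ) (x : XX (II M)) :
    (slb T M y z h).MM σ N x =
      ∑' l : HS T M N x, wl (ENNReal.ofReal y) (ENNReal.ofReal z) l.1 *
        ENNReal.ofReal (Real.exp (-l.1.length * σ)) := by
  induction N generalizing x with
  | zero => exact cE_eq hy hz hz1 hq hσ x
  | succ N ih =>
    obtain ⟨e, he⟩ := glu_bij (M := M) hT N x
    change ∑' w, (slb T M y z h).MM σ N w * (slb T M y z h).kE σ w x = _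
    rw [← e.tsum_eq, ENNReal.tsum_sigma']
    refine tsum_congr fun w => ?_
    rw [ih w, kE_eq hy hz hz1 hq hσ w x, ← ENNReal.tsum_mul_right,
      ENNReal.tsum_prod']
    refine tsum_congr fun l => ?_
    rw [← ENNReal.tsum_mul_left]
    refine tsum_congr fun π => ?_
    rw [he]
    have h1 := Pool.Agent.KCls.wl_glu (y := ENNReal.ofReal y) (z := ENNReal.ofReal z) l.2.1 π.2.1
    have h2 := Pool.Agent.KCls.length_glu l.2.1 π.2.1
    change _ = wl (ENNReal.ofReal y) (ENNReal.ofReal z) (glu (vv w) l.1 π.1) *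
      ENNReal.ofReal (Real.exp (-(glu (vv w) l.1 π.1).length * σ))
    rw [h1, h2]
    have h3 : Real.exp (-((l.1.length + (π.1.1.length + π.1.2.length + 2) : ℕ) : ℝ) * σ) =
        Real.exp (-l.1.length * σ) * Real.exp (-ln π.1 * σ) := by
      rw [← Real.exp_add]
      congr 1
      unfold ln
      push_cast
      ring
    rw [h3, ENNReal.ofReal_mul (Real.exp_pos _).le]
    ring

end Pool.Agent.KSlab
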