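import Pool.Agent.KSlab.MBas

/-! SM3: sums over the free blocks. -/

set_option autoImplicit false

open Pool.Agent.LK
open scoped ENNReal

namespace Pool.Agent.KSlab

open Pool.Agent.KTube Pool.Agent.KRing Pool.Agent.KLog Pool.Agent.KCls
open Pool.Agent.KAsym (ln wtR wlR)

variable {T : Finset (Sym2 P3) → Prop} {M : ℕ} {y z : ℝ} {h : II M → ℝ}

private theorem ms_geoF {π : PP} (h : FreeT T π) : ∃ v, Geo v π := by
  obtain ⟨v, -, hv⟩ := h
  exact ⟨v, hv.1⟩

private theorem ms_dsp {π : PP} (h : ∃ v, Geo v π) : (dsp π).1.natAbs ≤ nh π := by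
  obtain ⟨v, hv⟩ := h
  have h1 := nrm_dsp_le hv.stA hv.stB
  unfold KLog.nrm at h1
  omega

private theorem ms_real {α : Type*} {f : α → ℝ} (hf : ∀ a, 0 ≤ f a) :
    (∑' a, ENNReal.ofReal (f a)).toReal = ∑' a, f a := by
  rw [ENNReal.tsum_toReal_eq fun a => ENNReal.ofReal_ne_top]
  exact tsum_congr fun a => ENNReal.toReal_ofReal (hf a)

/-- all geometric pairs -/
private theorem ms_fin (hy : 0 < y) (hz : 0 < z) (hz1 : z ≤ 1 / 10 ^ 12) (hq : y * z ^ 2 ≤ 1)
    {P : PP → Prop} (hP : ∀ π, P π → ∃ v, Geo v π) :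
    ∑' π : {π // P π}, wt (ENNReal.ofReal y) (ENNReal.ofReal z) π.1 ≠ ⊤ := by
  refine ne_top_of_le_ne_top (geo_fin hy hz hz1 hq) ?_
  refine le_trans (ENNReal.tsum_mono_subtype
    (fun π : PP => wt (ENNReal.ofReal y) (ENNReal.ofReal z) π)
    (show {π | P π} ⊆ {π | ∃ v, Geo v π} from fun π h => hP π h)) ?_
  refine ENNReal.tsum_le_tsum fun π => ?_
  change wt (ENNReal.ofReal y) (ENNReal.ofReal z) π.1 ≤
    wt (ENNReal.ofReal y) (ENNReal.ofReal z) π.1 * 2 ^ ln π.1 * 576 ^ nh π.1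
  have h1 : (1 : ℝ≥0∞) ≤ 2 ^ ln π.1 := one_le_pow₀ (by norm_num)
  have h2 : (1 : ℝ≥0∞) ≤ 576 ^ nh π.1 := one_le_pow₀ (by norm_num)
  calc wt (ENNReal.ofReal y) (ENNReal.ofReal z) π.1
      = wt (ENNReal.ofReal y) (ENNReal.ofReal z) π.1 * 1 * 1 := by rw [mul_one, mul_one]
    _ ≤ _ := mul_le_mul' (mul_le_mul' le_rfl h1) h2

private theorem ms_FM (hy : 0 < y) (hz : 0 < z) (hz1 : z ≤ 1 / 10 ^ 12) (hq : y * z ^ 2 ≤ 1)
    (i j : II M) : ENNReal.ofReal (FM T y z i j) =
      ∑' π : {π : PP // FreeT T π ∧ CB i j π},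
        wt (ENNReal.ofReal y) (ENNReal.ofReal z) π.1 := by
  have h1 : ∑' π : {π : PP // FreeT T π ∧ CB i j π},
      wt (ENNReal.ofReal y) (ENNReal.ofReal z) π.1 =
      ∑' π : {π : PP // FreeT T π ∧ CB i j π}, ENNReal.ofReal (wtR y z π.1) :=
    tsum_congr fun π => wt_eq hy hz π.1
  have h2 := ms_fin hy hz hz1 hq (P := fun π => FreeT T π ∧ CB i j π) fun π h => ms_geoF h.1
  rw [h1]
  have h3 : FM T y z i j =
      (∑' π : {π : PP // FreeT T π ∧ CB i j π}, ENNReal.ofReal (wtR y z π.1)).toReal :=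
    (ms_real (f := fun π : {π : PP // FreeT T π ∧ CB i j π} => wtR y z π.1)
      fun π => wtR_nn hy hz π.1).symm
  rw [h3, ENNReal.ofReal_toReal]
  rw [← h1]
  exact h2

theorem gn_nn (hy : 0 < y) (hz : 0 < z) (P : PP → Prop) (x x' : XX (II M)) (n : ℕ) :
    0 ≤ gn y z P x x' n := by
  unfold gn
  exact tsum_nonneg fun π => wtR_nn hy hz π.1

/-- `|dsp π| ≤ nh π` (`nrm_dsp_le`), `fib`, `cx_sum`, `geo_fin`. -/
theorem f_sum (hy : 0 < y) (hz : 0 < z) (hz1 : z ≤ 1 / 10 ^ 12) (hq : y * z ^ 2 ≤ 1)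
    (i : II M) : Summable fun p : ℕ × ℤ × II M =>
      2 ^ p.1 * 4 ^ p.2.1.natAbs * (slb T M y z h).f p.1 p.2.1 i p.2.2 := by
  have h0 := geo_fin hy hz hz1 hq
  have hle : ∑' p : ℕ × ℤ × II M, ENNReal.ofReal
      (2 ^ p.1 * 4 ^ p.2.1.natAbs * (slb T M y z h).f p.1 p.2.1 i p.2.2) ≤
      ∑' π : {π : PP // ∃ v, Geo v π}, wt (ENNReal.ofReal y) (ENNReal.ofReal z) π.1 *
        2 ^ ln π.1 * 576 ^ nh π.1 := by
    calc ∑' p : ℕ × ℤ × II M, ENNReal.ofReal
          (2 ^ p.1 * 4 ^ p.2.1.natAbs * (slb T M y z h).f p.1 p.2.1 i p.2.2)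
        = ∑' n : ℕ, ∑' x' : XX (II M), ENNReal.ofReal
          (2 ^ n * 4 ^ x'.1.natAbs * gn y z (FreeT T) (0, i) x' n) :=
          ENNReal.tsum_prod (f := fun (n : ℕ) (x' : XX (II M)) => ENNReal.ofReal
            (2 ^ n * 4 ^ x'.1.natAbs * gn y z (FreeT T) (0, i) x' n))
      _ = ∑' x' : XX (II M), ∑' n : ℕ, ENNReal.ofReal
          (2 ^ n * 4 ^ x'.1.natAbs * gn y z (FreeT T) (0, i) x' n) := ENNReal.tsum_comm
      _ = ∑' x' : XX (II M), 4 ^ x'.1.natAbs *
          ∑' n : ℕ, 2 ^ n * ENNReal.ofReal (gn y z (FreeT T) (0, i) x' n) := by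
          refine tsum_congr fun x' => ?_
          rw [← ENNReal.tsum_mul_left]
          refine tsum_congr fun n => ?_
          rw [ENNReal.ofReal_mul (by positivity), ENNReal.ofReal_mul (by positivity),
            ENNReal.ofReal_pow (by norm_num), ENNReal.ofReal_pow (by norm_num),
            ENNReal.ofReal_ofNat, ENNReal.ofReal_ofNat]
          ring
      _ = ∑' x' : XX (II M), 4 ^ x'.1.natAbs *
          ∑' π : {π // FreeT T π ∧ CX (0, i) x' π},
            2 ^ ln π.1 * wt (ENNReal.ofReal y) (ENNReal.ofReal z) π.1 := by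
          refine tsum_congr fun x' => ?_
          rw [fib hy hz hz1 hq (fun π hπ => ms_geoF hπ) (0, i) x' fun n => 2 ^ n]
      _ ≤ ∑' x' : XX (II M), ∑' π : {π // FreeT T π ∧ CX (0, i) x' π},
            4 ^ nh π.1 * (2 ^ ln π.1 * wt (ENNReal.ofReal y) (ENNReal.ofReal z) π.1) := by
          refine ENNReal.tsum_le_tsum fun x' => ?_
          rw [← ENNReal.tsum_mul_left]
          refine ENNReal.tsum_le_tsum fun π => ?_
          refine mul_le_mul' (pow_le_pow_right₀ (by norm_num) ?_) le_rfl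
          have h1 := ms_dsp (ms_geoF π.2.1)
          have h2 : (0 : ℤ) + (dsp π.1).1 = x'.1 := π.2.2.2
          rw [← h2, zero_add]
          exact h1
      _ = ∑' π : {π // FreeT T π ∧ ∃ x', CX (0, i) x' π},
            4 ^ nh π.1 * (2 ^ ln π.1 * wt (ENNReal.ofReal y) (ENNReal.ofReal z) π.1) :=
          cx_sum (0, i) (FreeT T) fun π =>
            4 ^ nh π * (2 ^ ln π * wt (ENNReal.ofReal y) (ENNReal.ofReal z) π)
      _ ≤ ∑' π : {π : PP // ∃ v, Geo v π},
            4 ^ nh π.1 * (2 ^ ln π.1 * wt (ENNReal.ofReal y) (ENNReal.ofReal z) π.1) :=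
          ENNReal.tsum_mono_subtype
            (fun π : PP => 4 ^ nh π * (2 ^ ln π * wt (ENNReal.ofReal y) (ENNReal.ofReal z) π))
            (show {π | FreeT T π ∧ ∃ x', CX (0, i) x' π} ⊆ {π | ∃ v, Geo v π} from
              fun π hπ => ms_geoF hπ.1)
      _ ≤ _ := by
          refine ENNReal.tsum_le_tsum fun π => ?_
          have h1 : (4 : ℝ≥0∞) ^ nh π.1 ≤ 576 ^ nh π.1 := pow_le_pow_left' (by norm_num) _
          calc 4 ^ nh π.1 * (2 ^ ln π.1 * wt (ENNReal.ofReal y) (ENNReal.ofReal z) π.1)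
              ≤ 576 ^ nh π.1 * (2 ^ ln π.1 * wt (ENNReal.ofReal y) (ENNReal.ofReal z) π.1) :=
                mul_le_mul' h1 le_rfl
            _ = _ := by ring
  refine (sum_of (fun p => ?_) ENNReal.toReal_nonneg
    (hle.trans_eq (ENNReal.ofReal_toReal h0).symm)).1
  have h1 : 0 ≤ (slb T M y z h).f p.1 p.2.1 i p.2.2 := gn_nn hy hz _ _ _ _
  positivity

/-- `∑_{n, t} f n t i j = FM i j`: `fib`, `sum_of`. -/
theorem f_tot (hy : 0 < y) (hz : 0 < z) (hz1 : z ≤ 1 / 10 ^ 12) (hq : y * z ^ 2 ≤ 1)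
    (i j : II M) : (Summable fun p : ℕ × ℤ => (slb T M y z h).f p.1 p.2 i j) ∧
      ∑' p : ℕ × ℤ, (slb T M y z h).f p.1 p.2 i j = FM T y z i j := by
  let e : (Σ t : ℤ, {π // FreeT T π ∧ CX (0, i) (t, j) π}) ≃ {π : PP // FreeT T π ∧ CB i j π} :=
    { toFun := fun s => ⟨s.2.1, s.2.2.1, s.2.2.2.1⟩
      invFun := fun π => ⟨(dsp π.1).1, π.1, π.2.1, π.2.2, zero_add _⟩
      left_inv := by
        rintro ⟨t, π, hF, hB, ht⟩
        have h1 : (0 : ℤ) + (dsp π).1 = t := ht
        rw [zero_add] at h1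
        subst h1
        rfl
      right_inv := fun π => rfl }
  have key : ∑' p : ℕ × ℤ, ENNReal.ofReal ((slb T M y z h).f p.1 p.2 i j) =
      ∑' π : {π : PP // FreeT T π ∧ CB i j π},
        wt (ENNReal.ofReal y) (ENNReal.ofReal z) π.1 := by
    calc ∑' p : ℕ × ℤ, ENNReal.ofReal ((slb T M y z h).f p.1 p.2 i j)
        = ∑' n : ℕ, ∑' t : ℤ, ENNReal.ofReal (gn y z (FreeT T) (0, i) (t, j) n) :=
          ENNReal.tsum_prod (f := fun (n : ℕ) (t : ℤ) =>
            ENNReal.ofReal (gn y z (FreeT T) (0, i) (t, j) n))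
      _ = ∑' t : ℤ, ∑' n : ℕ, ENNReal.ofReal (gn y z (FreeT T) (0, i) (t, j) n) :=
          ENNReal.tsum_comm
      _ = ∑' t : ℤ, ∑' π : {π // FreeT T π ∧ CX (0, i) (t, j) π},
            wt (ENNReal.ofReal y) (ENNReal.ofReal z) π.1 := by
          refine tsum_congr fun t => ?_
          have h1 := fib hy hz hz1 hq (P := FreeT T) (fun π hπ => ms_geoF hπ) (0, i) (t, j)
            fun _ => 1
          simp only [one_mul] at h1
          exact h1
      _ = ∑' s : Σ t : ℤ, {π // FreeT T π ∧ CX (0, i) (t, j) π},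
            wt (ENNReal.ofReal y) (ENNReal.ofReal z) s.2.1 :=
          (ENNReal.tsum_sigma fun (t : ℤ) (π : {π // FreeT T π ∧ CX (0, i) (t, j) π}) =>
            wt (ENNReal.ofReal y) (ENNReal.ofReal z) π.1).symm
      _ = _ := e.tsum_eq fun π : {π : PP // FreeT T π ∧ CB i j π} =>
            wt (ENNReal.ofReal y) (ENNReal.ofReal z) π.1
  have hnn : ∀ p : ℕ × ℤ, 0 ≤ (slb T M y z h).f p.1 p.2 i j := fun p => gn_nn hy hz _ _ _ _
  have hfin := ms_fin hy hz hz1 hq (P := fun π => FreeT T π ∧ CB i j π) fun π h => ms_geoF h.1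
  refine ⟨(sum_of hnn ENNReal.toReal_nonneg
    (key.le.trans_eq (ENNReal.ofReal_toReal hfin).symm)).1, ?_⟩
  rw [← ms_real hnn, key, ← ms_FM hy hz hz1 hq, ENNReal.toReal_ofReal]
  exact tsum_nonneg fun π => wtR_nn hy hz π.1

theorem h_eqS (hC : CritS T y z h) (i : II M) :
    ∑' p : ℕ × ℤ × II M, (slb T M y z h).f p.1 p.2.1 i p.2.2 * h p.2.2 = h i := by
  obtain ⟨-, hy, hz, hz1, hq, hpos, heq⟩ := hC
  obtain ⟨j₀, hj₀⟩ := Finite.exists_max h
  have hs : Summable fun p : ℕ × ℤ × II M =>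
      (slb T M y z h).f p.1 p.2.1 i p.2.2 * h p.2.2 := by
    refine Summable.of_nonneg_of_le (fun p => mul_nonneg (gn_nn hy hz _ _ _ _) (hpos _).le)
      (fun p => ?_) ((f_sum (T := T) (h := h) hy hz hz1 hq i).mul_left (h j₀))
    have h1 : 0 ≤ (slb T M y z h).f p.1 p.2.1 i p.2.2 := gn_nn hy hz _ _ _ _
    have h2 : (1 : ℝ) ≤ 2 ^ p.1 := one_le_pow₀ (by norm_num)
    have h3 : (1 : ℝ) ≤ 4 ^ p.2.1.natAbs := one_le_pow₀ (by norm_num)
    have h4 : (1 : ℝ) ≤ 2 ^ p.1 * 4 ^ p.2.1.natAbs := one_le_mul_of_one_le_of_one_le h2 h3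
    calc (slb T M y z h).f p.1 p.2.1 i p.2.2 * h p.2.2
        ≤ (slb T M y z h).f p.1 p.2.1 i p.2.2 * h j₀ :=
          mul_le_mul_of_nonneg_left (hj₀ _) h1
      _ = h j₀ * (1 * (slb T M y z h).f p.1 p.2.1 i p.2.2) := by ring
      _ ≤ _ := mul_le_mul_of_nonneg_left (mul_le_mul_of_nonneg_right h4 h1) (hpos _).le
  let e : (II M × (ℕ × ℤ)) ≃ (ℕ × ℤ × II M) :=
    { toFun := fun q => (q.2.1, q.2.2, q.1)
      invFun := fun p => (p.2.2, (p.1, p.2.1))
      left_inv := fun q => rfl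
      right_inv := fun p => rfl }
  have hs' : Summable fun q : II M × (ℕ × ℤ) =>
      (slb T M y z h).f q.2.1 q.2.2 i q.1 * h q.1 := e.summable_iff.2 hs
  rw [← e.tsum_eq]
  change ∑' q : II M × (ℕ × ℤ), (slb T M y z h).f q.2.1 q.2.2 i q.1 * h q.1 = h i
  rw [hs'.tsum_prod, tsum_fintype, ← heq i]
  refine Finset.sum_congr rfl fun j _ => ?_
  change ∑' p : ℕ × ℤ, (slb T M y z h).f p.1 p.2 i j * h j = _
  rw [tsum_mul_right, (f_tot hy hz hz1 hq i j).2]

/-- The maximum principle. Let `h i` be maximal. `h i = ∑_j FM i j h j ≤ h i ∑_j FM i j`, and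
`∑_j FM i j ≤ q + 8 q z + z / 1000` (`KLog.basF`, `rest_geo'`, `cx_sum`-like). -/
theorem q_ge (hC : CritS T y z h) : 1 - 17 / 2 * z ≤ y * z ^ 2 := by
  obtain ⟨hT, hy, hz, hz1, hq, hpos, heq⟩ := hC
  have hFM : ∀ i j : II M, 0 ≤ FM T y z i j := fun i j =>
    tsum_nonneg fun π => wtR_nn hy hz π.1
  have hqp : 0 ≤ y * z ^ 2 := by positivity
  have hsum : ∀ i : II M, ∑ j, FM T y z i j ≤
      y * z ^ 2 + 2 * (y * z ^ 2) * z * 4 + z / 1000 := by
    intro i
    have hE : ENNReal.ofReal (∑ j, FM T y z i j) ≤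
        ENNReal.ofReal (y * z ^ 2 + 2 * (y * z ^ 2) * z * 4 + z / 1000) := by
      let φ : (Σ j : II M, {π // FreeT T π ∧ CB i j π}) → {π // FreeT T π} :=
        fun s => ⟨s.2.1, s.2.2.1⟩
      have hφ : Function.Injective φ := by
        rintro ⟨j, π, hF, hB⟩ ⟨j', π', hF', hB'⟩ h
        have h1 : π = π' := congrArg (fun x : {π // FreeT T π} => x.1) h
        subst h1
        have h2 := hB.eA
        have h3 := hB'.eA
        have h4 := hB.eB
        have h5 := hB'.eB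
        have h6 : j = j' := by
          refine Prod.ext (Fin.ext ?_) (Fin.ext ?_)
          · omega
          · omega
        subst h6
        rfl
      calc ENNReal.ofReal (∑ j, FM T y z i j) = ∑ j, ENNReal.ofReal (FM T y z i j) :=
            ENNReal.ofReal_sum_of_nonneg fun j _ => hFM i j
        _ = ∑' j : II M, ∑' π : {π // FreeT T π ∧ CB i j π},
              wt (ENNReal.ofReal y) (ENNReal.ofReal z) π.1 := by
            rw [tsum_fintype]
            exact Finset.sum_congr rfl fun j _ => ms_FM hy hz hz1 hq i j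
        _ = ∑' s : Σ j : II M, {π // FreeT T π ∧ CB i j π},
              wt (ENNReal.ofReal y) (ENNReal.ofReal z) s.2.1 :=
            (ENNReal.tsum_sigma fun (j : II M) (π : {π // FreeT T π ∧ CB i j π}) =>
              wt (ENNReal.ofReal y) (ENNReal.ofReal z) π.1).symm
        _ ≤ ∑' π : {π // FreeT T π}, wt (ENNReal.ofReal y) (ENNReal.ofReal z) π.1 :=
            ENNReal.tsum_comp_le_tsum_of_injective hφ fun π : {π // FreeT T π} =>
              wt (ENNReal.ofReal y) (ENNReal.ofReal z) π.1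
        _ ≤ ∑' π : ↑({π | Bas π ∧ FreeT T π} ∪ {π : PP | ¬ Bas π ∧ ∃ v, Geo v π} : Set PP),
              wt (ENNReal.ofReal y) (ENNReal.ofReal z) π.1 := by
            refine ENNReal.tsum_mono_subtype
              (fun π : PP => wt (ENNReal.ofReal y) (ENNReal.ofReal z) π)
              (show {π | FreeT T π} ⊆ {π | Bas π ∧ FreeT T π} ∪
                {π : PP | ¬ Bas π ∧ ∃ v, Geo v π} from fun π hπ => ?_)
            by_cases hb : Bas π
            · exact Or.inl ⟨hb, hπ⟩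
            · exact Or.inr ⟨hb, ms_geoF hπ⟩
        _ ≤ ∑' π : ↑({π | Bas π ∧ FreeT T π} : Set PP),
              wt (ENNReal.ofReal y) (ENNReal.ofReal z) π.1 +
            ∑' π : ↑({π : PP | ¬ Bas π ∧ ∃ v, Geo v π} : Set PP),
              wt (ENNReal.ofReal y) (ENNReal.ofReal z) π.1 :=
            ENNReal.tsum_union_le (fun π : PP => wt (ENNReal.ofReal y) (ENNReal.ofReal z) π) _ _
        _ ≤ (ENNReal.ofReal (y * z ^ 2) * 1 + ENNReal.ofReal (2 * (y * z ^ 2) * z) *
              nb (fun _ => 1) 0) + ENNReal.ofReal (z / 1000) := by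
            refine add_le_add (le_of_eq ?_) ?_
            · have h1 := KCls.basF hT hy hz fun _ => 1
              simp only [mul_one] at h1
              rw [mul_one]
              exact h1
            · refine le_trans ?_ (rest_geo' hy hz hz1 hq)
              refine ENNReal.tsum_le_tsum fun π => ?_
              have h1 : (1 : ℝ≥0∞) ≤ 2 ^ (π.1.1.length + π.1.2.length + 2) :=
                one_le_pow₀ (by norm_num)
              have h2 : (1 : ℝ≥0∞) ≤ 576 ^ nh π.1 := one_le_pow₀ (by norm_num)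
              calc wt (ENNReal.ofReal y) (ENNReal.ofReal z) π.1
                  = wt (ENNReal.ofReal y) (ENNReal.ofReal z) π.1 * 1 * 1 := by
                    rw [mul_one, mul_one]
                _ ≤ _ := mul_le_mul' (mul_le_mul' le_rfl h1) h2
        _ = _ := by
            have h1 : nb (fun _ => (1 : ℝ≥0∞)) 0 = ENNReal.ofReal 4 := by
              rw [ENNReal.ofReal_ofNat]
              unfold nb
              norm_num
            rw [mul_one, h1, ← ENNReal.ofReal_mul (by positivity),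
              ← ENNReal.ofReal_add (by positivity) (by positivity),
              ← ENNReal.ofReal_add (by positivity) (by positivity)]
    exact (ENNReal.ofReal_le_ofReal_iff (by positivity)).1 hE
  obtain ⟨i, hi⟩ := Finite.exists_max h
  have h1 : h i ≤ h i * ∑ j, FM T y z i j := by
    conv_lhs => rw [← heq i]
    rw [Finset.mul_sum]
    refine Finset.sum_le_sum fun j _ => ?_
    rw [mul_comm]
    exact mul_le_mul_of_nonneg_right (hi j) (hFM i j)
  have h2 : 1 ≤ ∑ j, FM T y z i j := by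
    by_contra h3
    rw [not_le] at h3
    have h4 := mul_lt_mul_of_pos_left h3 (hpos i)
    rw [mul_one] at h4
    exact absurd h1 (not_le.2 h4)
  have h3 := h2.trans (hsum i)
  have h4 : y * z ^ 2 * z ≤ 1 * z := mul_le_mul_of_nonneg_right hq hz.le
  nlinarith

end Pool.Agent.KSlab
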