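import Mathlib

/-! SL23: the function `exp (-w |u|)`. -/

set_option autoImplicit false

open Complex Set Filter Topology

namespace Pool.Agent.KSlab

/-- The trial function. -/
noncomputable def phi (w : ℂ) (u : ℤ) : ℂ := exp (-w * (u.natAbs : ℂ))

/-- The region of the parameter. -/
def InK (w : ℂ) : Prop := w ≠ 0 ∧ ‖w‖ / 2 ≤ w.re ∧ ‖w‖ ≤ 1 / 10

variable {w : ℂ}

theorem phi_neg (w : ℂ) (u : ℤ) : phi w (-u) = phi w u := by
  rw [phi, phi, Int.natAbs_neg]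

theorem norm_phi (hw : InK w) (u : ℤ) : ‖phi w u‖ ≤ Real.exp (-(‖w‖ / 2 * u.natAbs)) ∧
    ‖phi w u‖ ≤ 1 := by
  obtain ⟨-, h1, -⟩ := hw
  have h2 : (-w * (u.natAbs : ℂ)).re = -(w.re * u.natAbs) := by
    simp [Complex.mul_re]
  have h3 : ‖phi w u‖ ≤ Real.exp (-(‖w‖ / 2 * u.natAbs)) := by
    rw [phi, Complex.norm_exp, h2]
    apply Real.exp_le_exp.2
    have h4 : (0 : ℝ) ≤ u.natAbs := Nat.cast_nonneg _
    nlinarith
  refine ⟨h3, h3.trans ?_⟩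
  rw [Real.exp_le_one_iff]
  have : 0 ≤ ‖w‖ / 2 * (u.natAbs : ℝ) := by positivity
  linarith

private theorem exp_sub_aux {a b : ℂ} (ha : 0 ≤ a.re) (hb : 0 ≤ b.re) :
    ‖exp (-a) - exp (-b)‖ ≤ ‖a - b‖ := by
  have hconv : Convex ℝ {z : ℂ | 0 ≤ z.re} := convex_halfSpace_re_ge 0
  have hd : ∀ z : ℂ, HasDerivAt (fun z : ℂ => exp (-z)) (-exp (-z)) z := by
    intro z
    have h1 : HasDerivAt (fun z : ℂ => exp (-z)) (exp (-z) * (-1)) z :=
      (hasDerivAt_neg z).cexp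
    rwa [mul_neg_one] at h1
  have h := Convex.norm_image_sub_le_of_norm_hasDerivWithin_le (f := fun z : ℂ => exp (-z))
    (f' := fun z => -exp (-z)) (C := 1) (s := {z : ℂ | 0 ≤ z.re}) (x := b) (y := a)
    (fun z _ => (hd z).hasDerivWithinAt) (fun z hz => by
      rw [norm_neg, Complex.norm_exp, Complex.neg_re, Real.exp_le_one_iff]
      exact neg_nonpos.2 hz) hconv hb ha
  rwa [one_mul] at h

/-- `‖exp (-a) - exp (-b)‖ ≤ ‖a - b‖` for `re a, re b ≥ 0`. -/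
theorem phi_sub (hw : InK w) (u v : ℤ) : ‖phi w u - phi w v‖ ≤ ‖w‖ * (u - v).natAbs := by
  obtain ⟨-, h1, -⟩ := hw
  have hre : 0 ≤ w.re := (div_nonneg (norm_nonneg w) zero_le_two).trans h1
  have hre' : ∀ n : ℕ, 0 ≤ (w * (n : ℂ)).re := by
    intro n
    have : (w * (n : ℂ)).re = w.re * n := by simp [Complex.mul_re]
    rw [this]
    positivity
  have h2 := exp_sub_aux (hre' u.natAbs) (hre' v.natAbs)
  have h3 : ∀ u : ℤ, phi w u = exp (-(w * (u.natAbs : ℂ))) := fun u => by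
    rw [phi, neg_mul]
  rw [h3, h3]
  refine h2.trans ?_
  rw [← mul_sub, norm_mul]
  apply mul_le_mul_of_nonneg_left _ (norm_nonneg w)
  have h4 : ((u.natAbs : ℂ) - (v.natAbs : ℂ)) = (((u.natAbs : ℤ) - (v.natAbs : ℤ) : ℤ) : ℂ) := by
    rw [Int.cast_sub, Int.cast_natCast, Int.cast_natCast]
  have h5 : |((u.natAbs : ℤ) - (v.natAbs : ℤ))| ≤ ((u - v).natAbs : ℤ) := by
    rw [Int.natCast_natAbs, Int.natCast_natAbs, Int.natCast_natAbs]
    exact abs_abs_sub_abs_le u v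
  rw [h4, Complex.norm_intCast]
  calc |((((u.natAbs : ℤ) - (v.natAbs : ℤ)) : ℤ) : ℝ)| =
      ((|((u.natAbs : ℤ) - (v.natAbs : ℤ))| : ℤ) : ℝ) := (Int.cast_abs).symm
    _ ≤ (((u - v).natAbs : ℤ) : ℝ) := Int.cast_le.2 h5
    _ = ((u - v).natAbs : ℝ) := Int.cast_natCast _

private theorem cast_aux {n : ℕ} {a : ℕ} {t : ℤ} (h : (n : ℤ) = (a : ℤ) + t) :
    (n : ℂ) = (a : ℂ) + (t : ℂ) := by
  calc (n : ℂ) = ((n : ℤ) : ℂ) := (Int.cast_natCast n).symm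
    _ = (((a : ℤ) + t : ℤ) : ℂ) := by rw [h]
    _ = (a : ℂ) + (t : ℂ) := by rw [Int.cast_add, Int.cast_natCast]

private theorem cast_aux' {n : ℕ} {a : ℕ} {t : ℤ} (h : (n : ℤ) = (a : ℤ) - t) :
    (n : ℂ) = (a : ℂ) - (t : ℂ) := by
  calc (n : ℂ) = ((n : ℤ) : ℂ) := (Int.cast_natCast n).symm
    _ = (((a : ℤ) - t : ℤ) : ℂ) := by rw [h]
    _ = (a : ℂ) - (t : ℂ) := by rw [Int.cast_sub, Int.cast_natCast]

theorem one_sub_phi (hw : InK w) (u : ℤ) : ‖1 - phi w u‖ ≤ ‖w‖ * u.natAbs := by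
  have h1 := phi_sub hw 0 u
  have h2 : phi w 0 = 1 := by simp [phi]
  rwa [h2, zero_sub, Int.natAbs_neg] at h1

private theorem cosh_aux (x : ℂ) :
    ‖exp x + exp (-x) - 2 - x ^ 2‖ ≤ 2 * (‖x‖ ^ 4 * Real.exp ‖x‖) := by
  have h1 := Complex.norm_exp_sub_sum_le_norm_mul_exp x 4
  have h2 := Complex.norm_exp_sub_sum_le_norm_mul_exp (-x) 4
  rw [norm_neg] at h2
  have h3 : exp x + exp (-x) - 2 - x ^ 2 =
      (exp x - ∑ m ∈ Finset.range 4, x ^ m / m.factorial) +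
      (exp (-x) - ∑ m ∈ Finset.range 4, (-x) ^ m / m.factorial) := by
    simp only [Finset.sum_range_succ, Finset.sum_range_zero, Nat.factorial]
    push_cast
    ring
  rw [h3]
  refine (norm_add_le _ _).trans ?_
  linarith

private theorem four_aux (t : ℕ) : (t : ℝ) ^ 4 * Real.exp ((t : ℝ) / 10) ≤ 50 * 2 ^ t := by
  have h1 : Real.exp ((t : ℝ) / 10) ≤ (10 / 9) ^ t := by
    have h2 : Real.exp (1 / 10) ≤ 10 / 9 := by
      have h3 : (9 / 10 : ℝ) ≤ Real.exp (-(1 / 10)) := by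
        have := Real.add_one_le_exp (-(1 / 10) : ℝ)
        linarith
      rw [Real.exp_neg] at h3
      have h4 : 0 < Real.exp (1 / 10 : ℝ) := Real.exp_pos _
      rw [le_inv_comm₀ (by norm_num) h4] at h3
      norm_num at h3 ⊢
      exact h3
    calc Real.exp ((t : ℝ) / 10) = Real.exp ((t : ℝ) * (1 / 10)) := by ring_nf
      _ = Real.exp (1 / 10) ^ t := by rw [Real.exp_nat_mul]
      _ ≤ (10 / 9) ^ t := pow_le_pow_left₀ (Real.exp_pos _).le h2 t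
  have h5 : ∀ t : ℕ, (t : ℝ) ^ 4 ≤ 50 * (9 / 5) ^ t := by
    intro t
    rcases le_or_gt 7 t with h | h
    · induction t, h using Nat.le_induction with
      | base => norm_num
      | succ n hn ih =>
        have hn' : (7 : ℝ) ≤ n := by exact_mod_cast hn
        have h6 : ((n : ℝ) + 1) ^ 4 ≤ 9 / 5 * (n : ℝ) ^ 4 := by
          have h7 : (n : ℝ) + 1 ≤ 8 / 7 * n := by linarith
          calc ((n : ℝ) + 1) ^ 4 ≤ (8 / 7 * n) ^ 4 := pow_le_pow_left₀ (by positivity) h7 4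
            _ = (8 / 7) ^ 4 * (n : ℝ) ^ 4 := by ring
            _ ≤ 9 / 5 * (n : ℝ) ^ 4 := by
                apply mul_le_mul_of_nonneg_right _ (by positivity)
                norm_num
        push_cast
        calc ((n : ℝ) + 1) ^ 4 ≤ 9 / 5 * (n : ℝ) ^ 4 := h6
          _ ≤ 9 / 5 * (50 * (9 / 5) ^ n) := by linarith
          _ = 50 * (9 / 5) ^ (n + 1) := by ring
    · interval_cases t <;> norm_num
  calc (t : ℝ) ^ 4 * Real.exp ((t : ℝ) / 10) ≤ (50 * (9 / 5) ^ t) * (10 / 9) ^ t := by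
        apply mul_le_mul (h5 t) h1 (Real.exp_pos _).le (by positivity)
    _ = 50 * ((9 / 5) * (10 / 9)) ^ t := by rw [mul_pow]; ring
    _ = 50 * 2 ^ t := by norm_num

/-- Second difference. For `|t| ≤ |u|` it is `phi u (2 cosh (w t) - 2 - w² t²)` and
`‖2 cosh x - 2 - x²‖ ≤ ‖x‖⁴ exp ‖x‖ / 12`, and `t⁴ exp (|t| / 10) ≤ 100 · 2 ^ |t|`. For `|u| < |t|` use `phi_sub`:
`2 ‖w‖ |t| + ‖w‖² t² ≤ 3 ‖w‖ t²`. -/
theorem phi_second (hw : InK w) (u t : ℤ) :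
    ‖phi w (u + t) + phi w (u - t) - 2 * phi w u - w ^ 2 * (t : ℂ) ^ 2 * phi w u‖ ≤
      100 * ‖w‖ ^ 4 * 2 ^ t.natAbs * ‖phi w u‖ +
        if u.natAbs < t.natAbs then 3 * ‖w‖ * (t : ℝ) ^ 2 else 0 := by
  have habs : ((t.natAbs : ℕ) : ℝ) = |(t : ℝ)| := by
    rw [Nat.cast_natAbs, Int.cast_abs]
  split_ifs with h
  · have h1 : ‖phi w (u + t) - phi w u‖ ≤ ‖w‖ * t.natAbs := by
      have := phi_sub hw (u + t) u
      rwa [add_sub_cancel_left] at this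
    have h2 : ‖phi w (u - t) - phi w u‖ ≤ ‖w‖ * t.natAbs := by
      have := phi_sub hw (u - t) u
      rwa [show u - t - u = -t by ring, Int.natAbs_neg] at this
    have h3 : ‖w ^ 2 * (t : ℂ) ^ 2 * phi w u‖ ≤ ‖w‖ * (1 / 10) * (t : ℝ) ^ 2 := by
      rw [norm_mul, norm_mul, norm_pow, norm_pow, Complex.norm_intCast, sq_abs]
      have h4 := (norm_phi hw u).2
      have h5 := hw.2.2
      have h6 : 0 ≤ ‖w‖ ^ 2 * (t : ℝ) ^ 2 := by positivity
      calc ‖w‖ ^ 2 * (t : ℝ) ^ 2 * ‖phi w u‖ ≤ ‖w‖ ^ 2 * (t : ℝ) ^ 2 * 1 :=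
            mul_le_mul_of_nonneg_left h4 h6
        _ = ‖w‖ * ‖w‖ * (t : ℝ) ^ 2 := by ring
        _ ≤ ‖w‖ * (1 / 10) * (t : ℝ) ^ 2 := by gcongr
    have h7 : (t.natAbs : ℝ) ≤ (t : ℝ) ^ 2 := by
      have h8 : 1 ≤ t.natAbs := by omega
      have h9 : (1 : ℝ) ≤ t.natAbs := by exact_mod_cast h8
      have h10 : (t : ℝ) ^ 2 = (t.natAbs : ℝ) ^ 2 := by rw [habs, sq_abs]
      rw [h10]
      nlinarith
    have h11 : phi w (u + t) + phi w (u - t) - 2 * phi w u - w ^ 2 * (t : ℂ) ^ 2 * phi w u =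
        (phi w (u + t) - phi w u) + (phi w (u - t) - phi w u) - w ^ 2 * (t : ℂ) ^ 2 * phi w u := by
      ring
    rw [h11]
    have h12 := norm_sub_le ((phi w (u + t) - phi w u) + (phi w (u - t) - phi w u))
      (w ^ 2 * (t : ℂ) ^ 2 * phi w u)
    have h13 := norm_add_le (phi w (u + t) - phi w u) (phi w (u - t) - phi w u)
    have h14 : 0 ≤ 100 * ‖w‖ ^ 4 * 2 ^ t.natAbs * ‖phi w u‖ := by positivity
    have h15 : ‖w‖ * (t.natAbs : ℝ) ≤ ‖w‖ * (t : ℝ) ^ 2 :=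
      mul_le_mul_of_nonneg_left h7 (norm_nonneg w)
    have h16 : 0 ≤ ‖w‖ * (t : ℝ) ^ 2 := by positivity
    nlinarith
  · push Not at h
    rw [add_zero]
    -- the two terms
    have hkey : phi w (u + t) + phi w (u - t) = phi w u * (exp (w * t) + exp (-(w * t))) := by
      rcases le_total 0 u with hu | hu
      · have e1 : ((u + t).natAbs : ℂ) = (u.natAbs : ℂ) + (t : ℂ) := cast_aux (by omega)
        have e2 : ((u - t).natAbs : ℂ) = (u.natAbs : ℂ) - (t : ℂ) := cast_aux' (by omega)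
        rw [phi, phi, phi, e1, e2, mul_add (exp _) (exp _) (exp _), ← exp_add, ← exp_add, add_comm (exp _) (exp _)]
        congr 1 <;> ring_nf
      · have e1 : ((u + t).natAbs : ℂ) = (u.natAbs : ℂ) - (t : ℂ) := cast_aux' (by omega)
        have e2 : ((u - t).natAbs : ℂ) = (u.natAbs : ℂ) + (t : ℂ) := cast_aux (by omega)
        rw [phi, phi, phi, e1, e2, mul_add (exp _) (exp _) (exp _), ← exp_add, ← exp_add]
        congr 1 <;> ring_nf
    have h1 : phi w (u + t) + phi w (u - t) - 2 * phi w u - w ^ 2 * (t : ℂ) ^ 2 * phi w u =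
        phi w u * (exp (w * t) + exp (-(w * t)) - 2 - (w * t) ^ 2) := by
      rw [hkey]
      ring
    rw [h1, norm_mul]
    have h2 := cosh_aux (w * t)
    have h3 : ‖w * (t : ℂ)‖ = ‖w‖ * t.natAbs := by
      rw [norm_mul, Complex.norm_intCast, habs]
    rw [h3] at h2
    have h4 : Real.exp (‖w‖ * t.natAbs) ≤ Real.exp ((t.natAbs : ℝ) / 10) := by
      apply Real.exp_le_exp.2
      have h5 := hw.2.2
      have h6 : (0 : ℝ) ≤ t.natAbs := Nat.cast_nonneg _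
      nlinarith
    have h7 : 2 * ((‖w‖ * t.natAbs) ^ 4 * Real.exp (‖w‖ * t.natAbs)) ≤
        100 * ‖w‖ ^ 4 * 2 ^ t.natAbs := by
      calc 2 * ((‖w‖ * t.natAbs) ^ 4 * Real.exp (‖w‖ * t.natAbs)) ≤
          2 * ((‖w‖ * t.natAbs) ^ 4 * Real.exp ((t.natAbs : ℝ) / 10)) := by gcongr
        _ = 2 * ‖w‖ ^ 4 * ((t.natAbs : ℝ) ^ 4 * Real.exp ((t.natAbs : ℝ) / 10)) := by ring
        _ ≤ 2 * ‖w‖ ^ 4 * (50 * 2 ^ t.natAbs) :=
            mul_le_mul_of_nonneg_left (four_aux _) (by positivity)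
        _ = _ := by ring
    calc ‖phi w u‖ * ‖exp (w * t) + exp (-(w * t)) - 2 - (w * t) ^ 2‖ ≤
        ‖phi w u‖ * (100 * ‖w‖ ^ 4 * 2 ^ t.natAbs) :=
          mul_le_mul_of_nonneg_left (h2.trans h7) (norm_nonneg _)
      _ = _ := by ring

end Pool.Agent.KSlab
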