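import Pool.Agent.KSlab.RowF
import Pool.Agent.KSlab.Phi

/-! SL25: moments of the free kernel; expansions in `s`; the residual. -/

set_option autoImplicit false

open Complex Set Filter Topology

namespace Pool.Agent.KSlab

/-! ### Scalar estimates -/

private theorem mom_n1 (n : ℕ) : (n : ℝ) ≤ (3 / 2) ^ n := by
  induction n with
  | zero => norm_num
  | succ n ih =>
    rcases Nat.lt_or_ge n 2 with h | h
    · interval_cases n <;> norm_num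
    · have h2 : (2 : ℝ) ≤ n := by exact_mod_cast h
      rw [pow_succ]
      push_cast
      linarith

private theorem mom_n2 (n : ℕ) : (n : ℝ) ≤ 2 * (4 / 3) ^ n := by
  induction n with
  | zero => norm_num
  | succ n ih =>
    rcases Nat.lt_or_ge n 3 with h | h
    · interval_cases n <;> norm_num
    · have h2 : (3 : ℝ) ≤ n := by exact_mod_cast h
      rw [pow_succ]
      push_cast
      linarith

private theorem mom_e : Real.exp (1 / 10) ≤ 10 / 9 := by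
  have h1 : (9 : ℝ) / 10 ≤ Real.exp (-(1 / 10)) := by
    have := Real.add_one_le_exp (-(1 / 10) : ℝ)
    linarith
  rw [Real.exp_neg] at h1
  have h2 := Real.exp_pos (1 / 10)
  rw [le_inv_comm₀ (by norm_num) h2] at h1
  norm_num at h1 ⊢
  exact h1

private theorem mom_norm (s : ℂ) (n : ℕ) : ‖-(n : ℂ) * s‖ = n * ‖s‖ := by
  rw [norm_mul, norm_neg, Complex.norm_natCast]

private theorem mom_exp {s : ℂ} (hs : ‖s‖ ≤ 1 / 10) (n : ℕ) :
    Real.exp (n * ‖s‖) ≤ (10 / 9) ^ n := by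
  calc Real.exp (n * ‖s‖) ≤ Real.exp (n * (1 / 10)) :=
        Real.exp_le_exp.2 (mul_le_mul_of_nonneg_left hs (Nat.cast_nonneg n))
    _ = Real.exp (1 / 10) ^ n := by rw [Real.exp_nat_mul]
    _ ≤ (10 / 9) ^ n := pow_le_pow_left₀ (Real.exp_pos _).le mom_e n

private theorem mom_g0 {s : ℂ} (hs : ‖s‖ ≤ 1 / 10) (n : ℕ) :
    ‖exp (-(n : ℂ) * s)‖ ≤ 1 * 2 ^ n := by
  rw [one_mul]
  calc ‖exp (-(n : ℂ) * s)‖ ≤ Real.exp ‖-(n : ℂ) * s‖ := Complex.norm_exp_le_exp_norm _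
    _ ≤ (10 / 9) ^ n := by
      rw [mom_norm]
      exact mom_exp hs n
    _ ≤ 2 ^ n := pow_le_pow_left₀ (by norm_num) (by norm_num) n

private theorem mom_g1 {s : ℂ} (hs : ‖s‖ ≤ 1 / 10) (n : ℕ) :
    ‖exp (-(n : ℂ) * s) - 1‖ ≤ ‖s‖ * 2 ^ n := by
  have h := norm_exp_sub_sum_le_norm_mul_exp (-(n : ℂ) * s) 1
  rw [Finset.sum_range_one, pow_zero, Nat.factorial_zero, Nat.cast_one, div_one, pow_one,
    mom_norm] at h
  refine h.trans ?_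
  calc n * ‖s‖ * Real.exp (n * ‖s‖) ≤ ((3 / 2) ^ n * ‖s‖) * (10 / 9) ^ n :=
        mul_le_mul (mul_le_mul_of_nonneg_right (mom_n1 n) (norm_nonneg _)) (mom_exp hs n)
          (Real.exp_pos _).le (by positivity)
    _ = ‖s‖ * ((3 / 2 * (10 / 9)) ^ n) := by
      rw [mul_pow]
      ring
    _ ≤ ‖s‖ * 2 ^ n := mul_le_mul_of_nonneg_left
        (pow_le_pow_left₀ (by norm_num) (by norm_num) n) (norm_nonneg _)

private theorem mom_g2 {s : ℂ} (hs : ‖s‖ ≤ 1 / 10) (n : ℕ) :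
    ‖exp (-(n : ℂ) * s) - 1 + n * s‖ ≤ 4 * ‖s‖ ^ 2 * 2 ^ n := by
  have h := norm_exp_sub_sum_le_norm_mul_exp (-(n : ℂ) * s) 2
  rw [Finset.sum_range_succ, Finset.sum_range_one, pow_zero, Nat.factorial_zero, Nat.cast_one,
    div_one, pow_one, Nat.factorial_one, Nat.cast_one, div_one, mom_norm] at h
  have e : exp (-(n : ℂ) * s) - (1 + -(n : ℂ) * s) = exp (-(n : ℂ) * s) - 1 + n * s := by ring
  rw [e] at h
  refine h.trans ?_
  have h1 : (n * ‖s‖) ^ 2 ≤ (2 * (4 / 3) ^ n * ‖s‖) ^ 2 :=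
    pow_le_pow_left₀ (by positivity) (mul_le_mul_of_nonneg_right (mom_n2 n) (norm_nonneg _)) 2
  calc (n * ‖s‖) ^ 2 * Real.exp (n * ‖s‖) ≤ (2 * (4 / 3) ^ n * ‖s‖) ^ 2 * (10 / 9) ^ n :=
        mul_le_mul h1 (mom_exp hs n) (Real.exp_pos _).le (by positivity)
    _ = 4 * ‖s‖ ^ 2 * ((4 / 3 * (4 / 3) * (10 / 9)) ^ n) := by
      rw [mul_pow, mul_pow, mul_pow, mul_pow]
      ring
    _ ≤ 4 * ‖s‖ ^ 2 * 2 ^ n := mul_le_mul_of_nonneg_left
        (pow_le_pow_left₀ (by norm_num) (by norm_num) n) (by positivity)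

private theorem mom_s1 {a : ℕ → ℝ} (h : Summable fun n => 2 ^ n * |a n|) {g : ℕ → ℂ} {B : ℝ}
    (hg : ∀ n, ‖g n‖ ≤ B * 2 ^ n) : (Summable fun n => (a n : ℂ) * g n) ∧
    ‖∑' n, (a n : ℂ) * g n‖ ≤ B * ∑' n, 2 ^ n * |a n| := by
  have h1 : ∀ n, ‖(a n : ℂ) * g n‖ ≤ B * (2 ^ n * |a n|) := by
    intro n
    rw [norm_mul, Complex.norm_real, Real.norm_eq_abs]
    calc |a n| * ‖g n‖ ≤ |a n| * (B * 2 ^ n) := mul_le_mul_of_nonneg_left (hg n) (abs_nonneg _)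
      _ = B * (2 ^ n * |a n|) := by ring
  have h2 : Summable fun n => ‖(a n : ℂ) * g n‖ :=
    Summable.of_nonneg_of_le (fun n => norm_nonneg _) h1 (h.mul_left B)
  refine ⟨h2.of_norm, ?_⟩
  rw [← tsum_mul_left]
  exact (norm_tsum_le_tsum_norm h2).trans (h2.tsum_le_tsum h1 (h.mul_left B))

private theorem mom_s2 {X : Type} {a : ℕ → X → ℝ} {w : X → ℝ} (hw : ∀ x, 1 ≤ w x)
    (h : Summable fun p : ℕ × X => 2 ^ p.1 * w p.2 * |a p.1 p.2|) {g : ℕ → ℂ} {B : ℝ}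
    (hg : ∀ n, ‖g n‖ ≤ B * 2 ^ n) :
    (Summable fun x => w x * ‖∑' n, (a n x : ℂ) * g n‖) ∧
    ∑' x, w x * ‖∑' n, (a n x : ℂ) * g n‖ ≤
      B * ∑' p : ℕ × X, 2 ^ p.1 * w p.2 * |a p.1 p.2| := by
  have h1 : Summable fun p : X × ℕ => 2 ^ p.2 * w p.1 * |a p.2 p.1| := h.prod_symm
  have h2 : ∀ x, Summable fun n : ℕ => 2 ^ n * |a n x| := by
    intro x
    refine Summable.of_nonneg_of_le (fun n => by positivity) (fun n => ?_) (h1.prod_factor x)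
    have h3 : (2 : ℝ) ^ n ≤ 2 ^ n * w x := le_mul_of_one_le_right (by positivity) (hw x)
    exact mul_le_mul_of_nonneg_right h3 (abs_nonneg _)
  have h3 : ∀ x, w x * ‖∑' n, (a n x : ℂ) * g n‖ ≤ B * ∑' n : ℕ, 2 ^ n * w x * |a n x| := by
    intro x
    have h4 := (mom_s1 (h2 x) hg).2
    calc w x * ‖∑' n, (a n x : ℂ) * g n‖ ≤ w x * (B * ∑' n, 2 ^ n * |a n x|) :=
          mul_le_mul_of_nonneg_left h4 (zero_le_one.trans (hw x))
      _ = B * ∑' n : ℕ, w x * (2 ^ n * |a n x|) := by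
          rw [tsum_mul_left]
          ring
      _ = B * ∑' n : ℕ, 2 ^ n * w x * |a n x| := by
          congr 1
          refine tsum_congr fun n => ?_
          ring
  have h4 : Summable fun x => B * ∑' n : ℕ, 2 ^ n * w x * |a n x| := h1.prod.mul_left B
  have h5 : Summable fun x => w x * ‖∑' n, (a n x : ℂ) * g n‖ :=
    Summable.of_nonneg_of_le
      (fun x => mul_nonneg (zero_le_one.trans (hw x)) (norm_nonneg _)) h3 h4
  refine ⟨h5, (h5.tsum_le_tsum h3 h4).trans ?_⟩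
  rw [tsum_mul_left]
  refine le_of_eq ?_
  congr 1
  have h6 : ∑' (x : X) (n : ℕ), 2 ^ n * w x * |a n x| =
      ∑' p : X × ℕ, 2 ^ p.2 * w p.1 * |a p.2 p.1| := h1.tsum_prod.symm
  rw [h6]
  exact (Equiv.prodComm X ℕ).tsum_eq (fun p : ℕ × X => 2 ^ p.1 * w p.2 * |a p.1 p.2|)

private theorem mom_w (t : ℤ) : (1 : ℝ) ≤ 4 ^ t.natAbs := one_le_pow₀ (by norm_num)

namespace Slb

variable {I : Type} [Fintype I] {κ : Slb I}

/-- The first derivative of the free kernel in `-s`. -/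
noncomputable def F1 (κ : Slb I) (t : ℤ) (i j : I) : ℝ := ∑' n : ℕ, n * κ.f n t i j

/-- The second moments. -/
noncomputable def Vj (κ : Slb I) (j : I) : ℝ := ∑' p : ℤ × I, κ.F0 p.1 p.2 j * κ.h p.2 * (p.1 : ℝ) ^ 2

/-- The mean sizes. -/
noncomputable def Nj (κ : Slb I) (j : I) : ℝ := ∑' p : ℤ × I, κ.F1 p.1 p.2 j * κ.h p.2

noncomputable def VV (κ : Slb I) : ℝ := ∑ j, κ.h j * κ.Vj j

noncomputable def NN (κ : Slb I) : ℝ := ∑ j, κ.h j * κ.Nj j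

noncomputable def aa (κ : Slb I) : ℝ := κ.VV / (2 * κ.NN)

noncomputable def tt (κ : Slb I) (j : I) : ℝ := κ.Vj j / 2 - κ.aa * κ.Nj j

/-- The part of the defects. -/
noncomputable def dS (κ : Slb I) (s : ℂ) (x y : XX I) : ℂ := ∑' n : ℕ, κ.df n x y * exp (-n * s)

/-- The residual of the trial function `m phi`. -/
noncomputable def rho (κ : Slb I) (m : XX I → ℝ) (w : ℂ) (y : XX I) : ℂ :=
  κ.cs (κ.aa * w ^ 2) y - m y * phi w y.1 + ∑' x, κ.Ks (κ.aa * w ^ 2) y x * (m x * phi w x.1)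

/-- the free elements that lead to `j`, with weights -/
private theorem Ok.mom_f (hκ : κ.Ok) (j : I) : Summable fun p : ℕ × ℤ × I =>
    2 ^ p.1 * 4 ^ p.2.1.natAbs * |κ.f p.1 p.2.1 p.2.2 j| := by
  refine (hκ.f_sum j).congr fun p => ?_
  rw [abs_of_nonneg (hκ.f_nn _ _ _ _), hκ.f_symm]

private theorem Ok.mom_f1 (hκ : κ.Ok) (t : ℤ) (i j : I) :
    Summable fun n => 2 ^ n * |κ.f n t i j| := by
  have hinj : Function.Injective (fun n : ℕ => ((n, t, i) : ℕ × ℤ × I)) := fun a b h => by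
    simpa using h
  refine Summable.of_nonneg_of_le (fun n => by positivity) (fun n => ?_)
    ((hκ.mom_f j).comp_injective hinj)
  have h3 : (2 : ℝ) ^ n ≤ 2 ^ n * 4 ^ t.natAbs :=
    le_mul_of_one_le_right (by positivity) (mom_w t)
  exact mul_le_mul_of_nonneg_right h3 (abs_nonneg _)

private theorem mom_two (n : ℕ) : (n : ℝ) ≤ 2 ^ n :=
  (mom_n1 n).trans (pow_le_pow_left₀ (by norm_num) (by norm_num) n)

private theorem mom_sq (t : ℤ) : (t : ℝ) ^ 2 ≤ 4 ^ t.natAbs := by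
  have h1 : (t : ℝ) ^ 2 = (t.natAbs : ℝ) ^ 2 := by
    rw [Nat.cast_natAbs, Int.cast_abs, sq_abs]
  rw [h1]
  calc (t.natAbs : ℝ) ^ 2 ≤ (2 ^ t.natAbs) ^ 2 :=
        pow_le_pow_left₀ (by positivity) (mom_two _) 2
    _ = 4 ^ t.natAbs := by
      rw [← pow_mul, mul_comm, pow_mul]
      norm_num

private theorem Ok.mom_h (hκ : κ.Ok) (i : I) : κ.h i ≤ ∑ i, κ.h i :=
  Finset.single_le_sum (f := κ.h) (fun j _ => (hκ.h_pos j).le) (Finset.mem_univ i)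

theorem Ok.V_summable (hκ : κ.Ok) (j : I) :
    (Summable fun p : ℤ × I => κ.F0 p.1 p.2 j * κ.h p.2 * (p.1 : ℝ) ^ 2) ∧
    (Summable fun p : ℤ × I => κ.F1 p.1 p.2 j * κ.h p.2) ∧
    ∀ t i, Summable fun n : ℕ => (n : ℝ) * κ.f n t i j := by
  have hn : ∀ t i, Summable fun n : ℕ => (n : ℝ) * κ.f n t i j := by
    intro t i
    refine Summable.of_nonneg_of_le
      (fun n => mul_nonneg (Nat.cast_nonneg n) (hκ.f_nn _ _ _ _)) (fun n => ?_)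
      (hκ.mom_f1 t i j)
    rw [abs_of_nonneg (hκ.f_nn _ _ _ _)]
    exact mul_le_mul_of_nonneg_right (mom_two n) (hκ.f_nn _ _ _ _)
  refine ⟨?_, ?_, hn⟩
  · obtain ⟨C, hC⟩ := hκ.F0_exp
    refine Summable.of_nonneg_of_le (fun p => ?_) (fun p => ?_)
      ((hC j).1.mul_left (∑ i, κ.h i))
    · exact mul_nonneg (mul_nonneg (hκ.F0_prop _ _ _).1 (hκ.h_pos _).le) (sq_nonneg _)
    · rw [(hκ.F0_prop p.1 j p.2).2.2]
      have h0 := (hκ.F0_prop p.1 j p.2).1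
      calc κ.F0 p.1 j p.2 * κ.h p.2 * (p.1 : ℝ) ^ 2
          ≤ κ.F0 p.1 j p.2 * (∑ i, κ.h i) * 4 ^ p.1.natAbs :=
            mul_le_mul (mul_le_mul_of_nonneg_left (hκ.mom_h _) h0) (mom_sq _) (sq_nonneg _)
              (mul_nonneg h0 ((hκ.h_pos j).le.trans (hκ.mom_h j)))
        _ = (∑ i, κ.h i) * (4 ^ p.1.natAbs * κ.F0 p.1 j p.2) := by ring
  · have h1 : Summable fun p : (ℤ × I) × ℕ =>
        2 ^ p.2 * 4 ^ p.1.1.natAbs * |κ.f p.2 p.1.1 p.1.2 j| := (hκ.mom_f j).prod_symm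
    have h2 := h1.prod
    refine Summable.of_nonneg_of_le (fun p => ?_) (fun p => ?_)
      (h2.mul_left (∑ i, κ.h i))
    · exact mul_nonneg (tsum_nonneg fun n => mul_nonneg (Nat.cast_nonneg n) (hκ.f_nn _ _ _ _))
        (hκ.h_pos _).le
    · have h3 : κ.F1 p.1 p.2 j ≤
          ∑' n : ℕ, 2 ^ n * 4 ^ p.1.natAbs * |κ.f n p.1 p.2 j| := by
        refine (hn p.1 p.2).tsum_le_tsum (fun n => ?_) (h1.prod_factor p)
        rw [abs_of_nonneg (hκ.f_nn _ _ _ _)]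
        refine mul_le_mul_of_nonneg_right ?_ (hκ.f_nn _ _ _ _)
        exact (mom_two n).trans (le_mul_of_one_le_right (by positivity) (mom_w _))
      have h4 : 0 ≤ κ.F1 p.1 p.2 j :=
        tsum_nonneg fun n => mul_nonneg (Nat.cast_nonneg n) (hκ.f_nn _ _ _ _)
      calc κ.F1 p.1 p.2 j * κ.h p.2
          ≤ (∑' n : ℕ, 2 ^ n * 4 ^ p.1.natAbs * |κ.f n p.1 p.2 j|) * (∑ i, κ.h i) :=
            mul_le_mul h3 (hκ.mom_h _) (hκ.h_pos _).le (h4.trans h3)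
        _ = _ := mul_comm _ _

/-- `V_jj ≥ 2 q z h j` (the terms `t = ± 1`), `N_j ≥ 2 q h j`. -/
theorem Ok.V_pos (hκ : κ.Ok) : 0 < κ.VV ∧ 0 < κ.NN ∧ 0 < κ.aa ∧ ∑ j, κ.h j * κ.tt j = 0 ∧
    κ.VV / 2 + κ.aa * κ.NN = κ.VV := by
  have hq : 0 < κ.q := by
    have h1 := hκ.q_ge
    have h2 := hκ.z_le
    norm_num at h2
    linarith
  have hV : ∀ j, 0 < κ.Vj j := by
    intro j
    have h1 : κ.F0 1 j j * κ.h j * ((1 : ℤ) : ℝ) ^ 2 ≤ κ.Vj j :=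
      (hκ.V_summable j).1.le_tsum ((1, j) : ℤ × I) fun p _ =>
        mul_nonneg (mul_nonneg (hκ.F0_prop _ _ _).1 (hκ.h_pos _).le) (sq_nonneg _)
    refine lt_of_lt_of_le ?_ h1
    have h2 : κ.f 3 1 j j ≤ κ.F0 1 j j :=
      (hκ.F0_summable 1 j j).le_tsum 3 fun m _ => hκ.f_nn _ _ _ _
    have h3 := hκ.f_x j
    have h4 : 0 < κ.q * κ.z := mul_pos hq hκ.z_pos
    have h5 : 0 < κ.F0 1 j j := by linarith
    have h6 := hκ.h_pos j
    rw [Int.cast_one, one_pow, mul_one]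
    exact mul_pos h5 h6
  have hN : ∀ j, 0 < κ.Nj j := by
    intro j
    have h1 : κ.F1 0 j j * κ.h j ≤ κ.Nj j :=
      (hκ.V_summable j).2.1.le_tsum ((0, j) : ℤ × I) fun p _ =>
        mul_nonneg (tsum_nonneg fun n => mul_nonneg (Nat.cast_nonneg n) (hκ.f_nn _ _ _ _))
          (hκ.h_pos _).le
    refine lt_of_lt_of_le ?_ h1
    have h2 : ((2 : ℕ) : ℝ) * κ.f 2 0 j j ≤ κ.F1 0 j j :=
      ((hκ.V_summable j).2.2 0 j).le_tsum 2 fun m _ =>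
        mul_nonneg (Nat.cast_nonneg m) (hκ.f_nn _ _ _ _)
    have h3 := hκ.f_low 2 0 j j (by norm_num)
    rw [if_pos ⟨rfl, rfl, rfl⟩] at h3
    rw [h3] at h2
    have h5 : 0 < κ.F1 0 j j := by
      push_cast at h2
      linarith
    exact mul_pos h5 (hκ.h_pos j)
  obtain ⟨i0, -⟩ := hκ.dead_ne
  have hne : (Finset.univ : Finset I).Nonempty := ⟨i0, Finset.mem_univ i0⟩
  have hVV : 0 < κ.VV := Finset.sum_pos (fun j _ => mul_pos (hκ.h_pos j) (hV j)) hne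
  have hNN : 0 < κ.NN := Finset.sum_pos (fun j _ => mul_pos (hκ.h_pos j) (hN j)) hne
  have haa : κ.aa * κ.NN = κ.VV / 2 := by
    unfold aa
    field_simp
  refine ⟨hVV, hNN, div_pos hVV (by linarith), ?_, ?_⟩
  · have h1 : ∀ j, κ.h j * κ.tt j = κ.h j * κ.Vj j / 2 - κ.aa * (κ.h j * κ.Nj j) := by
      intro j
      unfold tt
      ring
    rw [Finset.sum_congr rfl fun j _ => h1 j, Finset.sum_sub_distrib, ← Finset.sum_div,
      ← Finset.mul_sum]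
    change κ.VV / 2 - κ.aa * κ.NN = 0
    rw [haa, sub_self]
  · rw [haa]
    ring

/-- Expansions. `|exp (-n s) - 1| ≤ C 2 ^ n ‖s‖`, `|exp (-n s) - 1 + n s| ≤ C 2 ^ n ‖s‖²` for `‖s‖ ≤ 1/10`, and
`f_sum`. -/
theorem Ok.F_exp (hκ : κ.Ok) : ∃ C : ℝ, 0 ≤ C ∧ ∀ (s : ℂ), ‖s‖ ≤ 1 / 10 → ∀ j,
    (Summable fun p : ℤ × I => 4 ^ p.1.natAbs * ‖κ.Fs s p.1 p.2 j - κ.F0 p.1 p.2 j‖) ∧
    ∑' p : ℤ × I, 4 ^ p.1.natAbs * ‖κ.Fs s p.1 p.2 j - κ.F0 p.1 p.2 j‖ ≤ C * ‖s‖ ∧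
    (Summable fun p : ℤ × I =>
      4 ^ p.1.natAbs * ‖κ.Fs s p.1 p.2 j - κ.F0 p.1 p.2 j + s * κ.F1 p.1 p.2 j‖) ∧
    ∑' p : ℤ × I, 4 ^ p.1.natAbs * ‖κ.Fs s p.1 p.2 j - κ.F0 p.1 p.2 j + s * κ.F1 p.1 p.2 j‖ ≤
      C * ‖s‖ ^ 2 := by
  obtain ⟨A, hA⟩ : ∃ A : I → ℝ, ∀ j, A j =
      ∑' p : ℕ × ℤ × I, 2 ^ p.1 * 4 ^ p.2.1.natAbs * |κ.f p.1 p.2.1 p.2.2 j| :=
    ⟨_, fun _ => rfl⟩
  have hA0 : ∀ j, 0 ≤ A j := fun j => by
    rw [hA]
    exact tsum_nonneg fun p => by positivity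
  have hAle : ∀ j, A j ≤ ∑ j, A j := fun j =>
    Finset.single_le_sum (f := A) (fun j _ => hA0 j) (Finset.mem_univ j)
  have hS0 : 0 ≤ ∑ j, A j := Finset.sum_nonneg fun j _ => hA0 j
  refine ⟨4 * ∑ j, A j, by linarith, fun s hs j => ?_⟩
  have e0 : ∀ t i, (κ.F0 t i j : ℂ) = ∑' n : ℕ, (κ.f n t i j : ℂ) := fun t i =>
    Complex.ofReal_tsum _
  have e1 : ∀ t i, (κ.F1 t i j : ℂ) = ∑' n : ℕ, (κ.f n t i j : ℂ) * n := by
    intro t i
    unfold F1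
    rw [Complex.ofReal_tsum]
    refine tsum_congr fun n => ?_
    push_cast
    ring
  have s1 : ∀ t i, Summable fun n : ℕ => (κ.f n t i j : ℂ) * exp (-n * s) := fun t i =>
    (mom_s1 (hκ.mom_f1 t i j) (mom_g0 hs)).1
  have s2 : ∀ t i, Summable fun n : ℕ => (κ.f n t i j : ℂ) := fun t i => by
    have := (mom_s1 (hκ.mom_f1 t i j) (g := fun _ => 1) (B := 1) (fun n => by
      rw [norm_one, one_mul]
      exact one_le_pow₀ (by norm_num))).1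
    simpa using this
  have s3 : ∀ t i, Summable fun n : ℕ => (κ.f n t i j : ℂ) * n := fun t i =>
    (mom_s1 (hκ.mom_f1 t i j) (g := fun n => (n : ℂ)) (B := 1) (fun n => by
      rw [Complex.norm_natCast, one_mul]
      exact mom_two n)).1
  have d1 : ∀ t i, κ.Fs s t i j - κ.F0 t i j =
      ∑' n : ℕ, (κ.f n t i j : ℂ) * (exp (-n * s) - 1) := by
    intro t i
    rw [e0]
    unfold Fs
    rw [← (s1 t i).tsum_sub (s2 t i)]
    refine tsum_congr fun n => ?_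
    ring
  have d2 : ∀ t i, κ.Fs s t i j - κ.F0 t i j + s * κ.F1 t i j =
      ∑' n : ℕ, (κ.f n t i j : ℂ) * (exp (-n * s) - 1 + n * s) := by
    intro t i
    rw [e0, e1]
    unfold Fs
    rw [← (s1 t i).tsum_sub (s2 t i), ← tsum_mul_left,
      ← ((s1 t i).sub (s2 t i)).tsum_add ((s3 t i).mul_left s)]
    refine tsum_congr fun n => ?_
    ring
  have r1 := mom_s2 (X := ℤ × I) (a := fun n p => κ.f n p.1 p.2 j)
    (w := fun p => 4 ^ p.1.natAbs) (fun p => mom_w p.1) (hκ.mom_f j) (mom_g1 hs)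
  have r2 := mom_s2 (X := ℤ × I) (a := fun n p => κ.f n p.1 p.2 j)
    (w := fun p => 4 ^ p.1.natAbs) (fun p => mom_w p.1) (hκ.mom_f j) (mom_g2 hs)
  simp only [d2]
  simp only [d1]
  have hs0 := norm_nonneg s
  refine ⟨r1.1, r1.2.trans ?_, r2.1, r2.2.trans ?_⟩
  · change ‖s‖ * (∑' p : ℕ × ℤ × I, 2 ^ p.1 * 4 ^ p.2.1.natAbs * |κ.f p.1 p.2.1 p.2.2 j|) ≤ _
    rw [← hA]
    have := mul_le_mul_of_nonneg_left (hAle j) hs0
    have := mul_nonneg hs0 hS0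
    linarith
  · change 4 * ‖s‖ ^ 2 *
      (∑' p : ℕ × ℤ × I, 2 ^ p.1 * 4 ^ p.2.1.natAbs * |κ.f p.1 p.2.1 p.2.2 j|) ≤ _
    rw [← hA]
    have := mul_le_mul_of_nonneg_left (hAle j) (sq_nonneg ‖s‖)
    linarith

/-- Symmetries: `f_even`, `f_symm`. -/
theorem Ok.Fs_prop (hκ : κ.Ok) (s : ℂ) (t : ℤ) (i j : I) : κ.Fs s (-t) i j = κ.Fs s t i j ∧
    κ.Fs s t j i = κ.Fs s t i j ∧ κ.Fs 0 t i j = κ.F0 t i j := by
  refine ⟨?_, ?_, ?_⟩
  · unfold Fs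
    exact tsum_congr fun n => by rw [hκ.f_even]
  · unfold Fs
    exact tsum_congr fun n => by rw [hκ.f_symm n t i j]
  · unfold Fs F0
    rw [Complex.ofReal_tsum]
    exact tsum_congr fun n => by simp

/-- The defects: `df_sum`. For `x`, `y` alive `Ks s x y = Fs s (y.1 - x.1) x.2 y.2 + dS s x y`. -/
theorem Ok.dS_exp (hκ : κ.Ok) : ∃ C : ℝ, 0 ≤ C ∧ ∀ (s : ℂ), ‖s‖ ≤ 1 / 10 → ∀ x, κ.Al x →
    (Summable fun y : XX I => 4 ^ y.1.natAbs * ‖κ.dS s x y‖) ∧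
    ∑' y : XX I, 4 ^ y.1.natAbs * ‖κ.dS s x y‖ ≤ C * (1 / 4) ^ x.1.natAbs ∧
    (Summable fun y : XX I => 4 ^ y.1.natAbs * ‖κ.dS s x y - κ.dS 0 x y‖) ∧
    ∑' y : XX I, 4 ^ y.1.natAbs * ‖κ.dS s x y - κ.dS 0 x y‖ ≤
      C * ‖s‖ * (1 / 4) ^ x.1.natAbs ∧
    ∀ y, κ.Al y → κ.Ks s x y = κ.Fs s (y.1 - x.1) x.2 y.2 + κ.dS s x y := by
  obtain ⟨C, hC⟩ := hκ.df_sum
  refine ⟨max C 0, le_max_right _ _, fun s hs x hx => ?_⟩
  obtain ⟨h1, h2⟩ := hC x hx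
  have hs1 : ∀ y, Summable fun n => 2 ^ n * |κ.df n x y| := by
    intro y
    have hinj : Function.Injective (fun n : ℕ => ((n, y) : ℕ × XX I)) := fun a b h => by
      simpa using h
    refine Summable.of_nonneg_of_le (fun n => by positivity) (fun n => ?_)
      (h1.comp_injective hinj)
    have h3 : (2 : ℝ) ^ n ≤ 2 ^ n * 4 ^ y.1.natAbs :=
      le_mul_of_one_le_right (by positivity) (mom_w _)
    exact mul_le_mul_of_nonneg_right h3 (abs_nonneg _)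
  have hs0 : ‖(0 : ℂ)‖ ≤ 1 / 10 := by simp
  have s1 : ∀ y, Summable fun n : ℕ => (κ.df n x y : ℂ) * exp (-n * s) := fun y =>
    (mom_s1 (hs1 y) (mom_g0 hs)).1
  have s2 : ∀ y, Summable fun n : ℕ => (κ.df n x y : ℂ) * exp (-n * 0) := fun y =>
    (mom_s1 (hs1 y) (mom_g0 hs0)).1
  have d1 : ∀ y, κ.dS s x y - κ.dS 0 x y =
      ∑' n : ℕ, (κ.df n x y : ℂ) * (exp (-n * s) - 1) := by
    intro y
    unfold dS
    rw [← (s1 y).tsum_sub (s2 y)]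
    refine tsum_congr fun n => ?_
    rw [mul_zero, exp_zero]
    ring
  have r0 := mom_s2 (X := XX I) (a := fun n y => κ.df n x y)
    (w := fun p => 4 ^ p.1.natAbs) (fun p => mom_w p.1) h1 (mom_g0 hs)
  have r1 := mom_s2 (X := XX I) (a := fun n y => κ.df n x y)
    (w := fun p => 4 ^ p.1.natAbs) (fun p => mom_w p.1) h1 (mom_g1 hs)
  have hp : (0 : ℝ) ≤ (1 / 4) ^ x.1.natAbs := by positivity
  have hC' : ∑' p : ℕ × XX I, 2 ^ p.1 * 4 ^ p.2.1.natAbs * |κ.df p.1 x p.2| ≤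
      max C 0 * (1 / 4) ^ x.1.natAbs :=
    h2.trans (mul_le_mul_of_nonneg_right (le_max_left _ _) hp)
  refine ⟨r0.1, ?_, ?_, ?_, fun y hy => ?_⟩
  · refine r0.2.trans ?_
    rw [one_mul]
    exact hC'
  · simp only [d1]
    exact r1.1
  · simp only [d1]
    refine r1.2.trans ?_
    calc ‖s‖ * ∑' p : ℕ × XX I, 2 ^ p.1 * 4 ^ p.2.1.natAbs * |κ.df p.1 x p.2|
        ≤ ‖s‖ * (max C 0 * (1 / 4) ^ x.1.natAbs) :=
          mul_le_mul_of_nonneg_left hC' (norm_nonneg _)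
      _ = _ := by ring
  · have s3 : Summable fun n : ℕ => (κ.fx n x y : ℂ) * exp (-n * s) :=
      (mom_s1 (hκ.mom_f1 (y.1 - x.1) x.2 y.2) (mom_g0 hs)).1
    have e : κ.Fs s (y.1 - x.1) x.2 y.2 = ∑' n : ℕ, (κ.fx n x y : ℂ) * exp (-n * s) := rfl
    rw [e]
    unfold dS Ks
    rw [← s3.tsum_add (s1 y)]
    refine tsum_congr fun n => ?_
    have e2 : κ.k n x y = κ.fx n x y + κ.df n x y := by
      unfold df
      rw [if_pos hy]
      ring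
    rw [e2]
    push_cast
    ring

/-- The sources: `‖cs s x - c0 x‖ ≤ C ‖s‖ 4 ^ (-|u|)`. -/
theorem Ok.c_exp (hκ : κ.Ok) : ∃ C : ℝ, 0 ≤ C ∧ ∀ (s : ℂ), ‖s‖ ≤ 1 / 10 → ∀ x : XX I,
    ‖κ.cs s x‖ ≤ C * (1 / 4) ^ x.1.natAbs ∧ ‖κ.cs s x - κ.c0 x‖ ≤ C * ‖s‖ * (1 / 4) ^ x.1.natAbs ∧
    0 ≤ κ.c0 x ∧ κ.cs 0 x = κ.c0 x := by
  obtain ⟨C, hC⟩ := hκ.c_sum
  refine ⟨max C 0, le_max_right _ _, fun s hs x => ?_⟩
  have h1 : Summable fun n => 2 ^ n * |κ.c n x| := by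
    refine (hC x).1.congr fun n => ?_
    rw [abs_of_nonneg (hκ.c_nn _ _)]
  have hp : (0 : ℝ) ≤ (1 / 4) ^ x.1.natAbs := by positivity
  have h2 : ∑' n, 2 ^ n * |κ.c n x| ≤ max C 0 * (1 / 4) ^ x.1.natAbs := by
    rw [tsum_congr fun n => by rw [abs_of_nonneg (hκ.c_nn n x)]]
    exact (hC x).2.trans (mul_le_mul_of_nonneg_right (le_max_left _ _) hp)
  have e0 : (κ.c0 x : ℂ) = ∑' n : ℕ, (κ.c n x : ℂ) := Complex.ofReal_tsum _
  have s2 : Summable fun n : ℕ => (κ.c n x : ℂ) := by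
    have := (mom_s1 h1 (g := fun _ => 1) (B := 1) (fun n => by
      rw [norm_one, one_mul]
      exact one_le_pow₀ (by norm_num))).1
    simpa using this
  have s1 := (mom_s1 h1 (mom_g0 hs)).1
  have r0 := (mom_s1 h1 (mom_g0 hs)).2
  have r1 := (mom_s1 h1 (mom_g1 hs)).2
  refine ⟨?_, ?_, tsum_nonneg fun n => hκ.c_nn _ _, ?_⟩
  · unfold cs
    refine r0.trans ?_
    rw [one_mul]
    exact h2
  · have d1 : κ.cs s x - κ.c0 x = ∑' n : ℕ, (κ.c n x : ℂ) * (exp (-n * s) - 1) := by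
      rw [e0]
      unfold cs
      rw [← s1.tsum_sub s2]
      refine tsum_congr fun n => ?_
      ring
    rw [d1]
    refine r1.trans ?_
    calc ‖s‖ * ∑' n, 2 ^ n * |κ.c n x| ≤ ‖s‖ * (max C 0 * (1 / 4) ^ x.1.natAbs) :=
          mul_le_mul_of_nonneg_left h2 (norm_nonneg _)
      _ = _ := by ring
  · rw [e0]
    unfold cs
    exact tsum_congr fun n => by simp

end Slb

end Pool.Agent.KSlab
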