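import Pool.Agent.KSlab.PhiB

/-! SL24b: the sum of the squares of the differences of the function `exp (-w |u|)`. -/

set_option autoImplicit false

open Complex Set Filter Topology

namespace Pool.Agent.KSlab

variable {w : ℂ}

private theorem PhiC_exp_one {x : ℂ} (hx : 0 ≤ x.re) : ‖1 - exp (-x)‖ ≤ ‖x‖ := by
  have h1 : ∀ z ∈ {z : ℂ | 0 ≤ z.re}, HasDerivWithinAt (fun z => exp (-z)) (-exp (-z))
      {z : ℂ | 0 ≤ z.re} z := by
    intro z _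
    have h2 := ((hasDerivAt_id z).neg.cexp).hasDerivWithinAt (s := {z : ℂ | 0 ≤ z.re})
    simpa using h2
  have h3 : ∀ z ∈ {z : ℂ | 0 ≤ z.re}, ‖-exp (-z)‖ ≤ 1 := by
    intro z hz
    rw [norm_neg, Complex.norm_exp, neg_re, Real.exp_le_one_iff, neg_nonpos]
    exact hz
  have h4 := Convex.norm_image_sub_le_of_norm_hasDerivWithin_le h1 h3
    (convex_halfSpace_re_ge 0) (x := x) (y := 0) hx (by simp)
  simpa using h4

private theorem PhiC_exp_two {x : ℂ} (hx : 0 ≤ x.re) : ‖1 - exp (-x) - x‖ ≤ 2 * ‖x‖ ^ 2 := by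
  rcases le_or_gt ‖x‖ 1 with h | h
  · have h1 := Complex.norm_exp_sub_one_sub_id_le (x := -x) (by rwa [norm_neg])
    have h2 : 1 - exp (-x) - x = -(exp (-x) - 1 - -x) := by ring
    rw [h2, norm_neg]
    rw [norm_neg] at h1
    nlinarith [sq_nonneg ‖x‖]
  · have h1 := norm_sub_le (1 - exp (-x)) x
    have h2 := PhiC_exp_one hx
    nlinarith

private theorem PhiC_cube (n : ℕ) : (n : ℝ) ^ 3 ≤ 4 ^ n := by
  have h : ∀ n : ℕ, 2 ≤ n → (n : ℝ) ^ 3 ≤ 4 ^ n := by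
    intro n hn
    induction n, hn using Nat.le_induction with
    | base => norm_num
    | succ n hn ih =>
      have h2 : (2 : ℝ) ≤ n := by exact_mod_cast hn
      have h3 : ((n + 1 : ℕ) : ℝ) ^ 3 ≤ 4 * (n : ℝ) ^ 3 := by
        push_cast
        nlinarith [mul_nonneg (sub_nonneg.2 h2) (sub_nonneg.2 h2), sq_nonneg ((n : ℝ)),
          mul_nonneg (mul_nonneg (sub_nonneg.2 h2) (sub_nonneg.2 h2)) (sub_nonneg.2 h2)]
      rw [pow_succ (4 : ℝ) n]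
      linarith
  rcases Nat.lt_or_ge n 2 with h1 | h1
  · interval_cases n <;> norm_num
  · exact h n h1

private theorem PhiC_phi_nat (w : ℂ) (n : ℕ) : phi w (n : ℤ) = exp (-w * n) := by
  unfold phi
  rw [Int.natAbs_natCast]

/-- the terms of the geometric series -/
private theorem PhiC_term (w : ℂ) (n k : ℕ) :
    (phi w ((k : ℤ) + n) - phi w (k : ℤ)) ^ 2 =
      (1 - exp (-(w * n))) ^ 2 * exp (-(2 * w)) ^ k := by
  have h1 : phi w ((k : ℤ) + n) = exp (-w * k) * exp (-(w * n)) := by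
    have h2 : ((k : ℤ) + n) = ((k + n : ℕ) : ℤ) := by push_cast; ring
    rw [h2, PhiC_phi_nat, ← Complex.exp_add]
    congr 1
    push_cast
    ring
  have h3 : exp (-(2 * w)) ^ k = exp (-w * k) * exp (-w * k) := by
    rw [← Complex.exp_nat_mul, ← Complex.exp_add]
    congr 1
    ring
  rw [h1, PhiC_phi_nat, h3]
  ring

private theorem PhiC_re {w : ℂ} (hw : InK w) : 0 ≤ w.re :=
  le_trans (by positivity) hw.2.1

/-- the difference to the leading term -/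
private theorem PhiC_alg {w q E x : ℂ} {n : ℕ} (hn : 1 ≤ n) (hw : InK w) (hx : x = w * n)
    (h1 : ‖1 - q‖ ≤ ‖x‖) (h2 : ‖1 - q - x‖ ≤ 2 * ‖x‖ ^ 2)
    (h3 : ‖1 - E - 2 * w‖ ≤ 4 * ‖w‖ ^ 2) :
    ‖2 * ((1 - q) ^ 2 * (1 - E)⁻¹) - w * (n : ℂ) ^ 2‖ ≤ 12 * ‖w‖ ^ 2 * n ^ 3 := by
  have hwpos : 0 < ‖w‖ := norm_pos_iff.2 hw.1
  have hw1 := hw.2.2
  have hn1 : (1 : ℝ) ≤ n := by exact_mod_cast hn
  have hE : ‖w‖ ≤ ‖1 - E‖ := by
    have h4 : 2 * w = (1 - E) - (1 - E - 2 * w) := by ring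
    have h5 := norm_sub_le (1 - E) (1 - E - 2 * w)
    rw [← h4, norm_mul, Complex.norm_ofNat] at h5
    nlinarith
  have hE0 : 1 - E ≠ 0 := by
    intro h0
    rw [h0, norm_zero] at hE
    linarith
  have hE1 : 0 < ‖1 - E‖ := norm_pos_iff.2 hE0
  have hxn : ‖x‖ = ‖w‖ * n := by
    rw [hx, norm_mul, Complex.norm_natCast]
  have e1 : 2 * ((1 - q) ^ 2 * (1 - E)⁻¹) - w * (n : ℂ) ^ 2 =
      (2 * ((1 - q - x) * (1 - q + x)) - w * (n : ℂ) ^ 2 * (1 - E - 2 * w)) * (1 - E)⁻¹ := by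
    field_simp
    rw [hx]
    ring
  have e2 : ‖1 - q + x‖ ≤ 2 * ‖x‖ := (norm_add_le _ _).trans (by linarith)
  have e3 : ‖2 * ((1 - q - x) * (1 - q + x)) - w * (n : ℂ) ^ 2 * (1 - E - 2 * w)‖ ≤
      12 * ‖w‖ ^ 3 * n ^ 3 := by
    refine (norm_sub_le _ _).trans ?_
    rw [norm_mul, norm_mul, norm_mul, norm_mul, norm_pow, Complex.norm_natCast,
      Complex.norm_ofNat]
    have e4 : ‖1 - q - x‖ * ‖1 - q + x‖ ≤ 2 * ‖x‖ ^ 2 * (2 * ‖x‖) :=
      mul_le_mul h2 e2 (norm_nonneg _) (by positivity)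
    have e5 : ‖w‖ * (n : ℝ) ^ 2 * ‖1 - E - 2 * w‖ ≤ ‖w‖ * (n : ℝ) ^ 2 * (4 * ‖w‖ ^ 2) :=
      mul_le_mul_of_nonneg_left h3 (by positivity)
    rw [hxn] at e4
    have e6 : (n : ℝ) ^ 2 ≤ n ^ 3 := pow_le_pow_right₀ hn1 (by norm_num)
    have e7 : ‖w‖ ^ 3 * (n : ℝ) ^ 2 ≤ ‖w‖ ^ 3 * n ^ 3 :=
      mul_le_mul_of_nonneg_left e6 (by positivity)
    nlinarith
  rw [e1, norm_mul, norm_inv, ← div_eq_mul_inv, div_le_iff₀ hE1]
  calc _ ≤ 12 * ‖w‖ ^ 3 * n ^ 3 := e3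
    _ = 12 * ‖w‖ ^ 2 * n ^ 3 * ‖w‖ := by ring
    _ ≤ 12 * ‖w‖ ^ 2 * n ^ 3 * ‖1 - E‖ := mul_le_mul_of_nonneg_left hE (by positivity)

private theorem PhiC_main {w : ℂ} (hw : InK w) (n : ℕ) :
    ‖∑' u : ℤ, (phi w (u + n) - phi w u) ^ 2 - w * (n : ℂ) ^ 2‖ ≤
      13 * ‖w‖ ^ 2 * 4 ^ n := by
  rcases Nat.eq_zero_or_pos n with h0 | h0
  · subst h0
    simp
  obtain ⟨m, hn⟩ : ∃ m, n = m + 1 := ⟨n - 1, by omega⟩
  have hre := PhiC_re hw
  have hwpos : 0 < ‖w‖ := norm_pos_iff.2 hw.1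
  set E := exp (-(2 * w)) with hE
  have hE1 : ‖E‖ < 1 := by
    rw [hE, Complex.norm_exp, Real.exp_lt_one_iff]
    have h1 := hw.2.1
    simp only [neg_re, mul_re, re_ofNat, im_ofNat, zero_mul, sub_zero]
    linarith
  set q := exp (-(w * n)) with hq
  set a := (1 - q) ^ 2 * (1 - E)⁻¹ with ha
  have hgeo : HasSum (fun k : ℕ => (1 - q) ^ 2 * E ^ k) a :=
    (hasSum_geometric_of_norm_lt_one hE1).mul_left _
  have hs1 : HasSum (fun k : ℕ => (phi w ((k : ℤ) + n) - phi w (k : ℤ)) ^ 2) a := by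
    simp only [PhiC_term]
    exact hgeo
  set f : ℕ → ℂ := fun k => (phi w (-((k : ℤ) + 1) + n) - phi w (-((k : ℤ) + 1))) ^ 2 with hf
  have hs2 : HasSum f (a + ∑ k ∈ Finset.range m, f k) := by
    refine (hasSum_nat_add_iff m).1 ?_
    have h1 : (fun j : ℕ => f (j + m)) =
        fun j : ℕ => (phi w ((j : ℤ) + n) - phi w (j : ℤ)) ^ 2 := by
      funext j
      have h2 : (-(((j + m : ℕ) : ℤ) + 1) + n) = -(j : ℤ) := by
        rw [hn]
        push_cast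
        ring
      have h3 : (-(((j + m : ℕ) : ℤ) + 1)) = -((j : ℤ) + n) := by
        rw [hn]
        push_cast
        ring
      show (phi w (-(((j + m : ℕ) : ℤ) + 1) + n) - phi w (-(((j + m : ℕ) : ℤ) + 1))) ^ 2 = _
      rw [h2, h3, phi_neg, phi_neg]
      ring
    rw [h1]
    exact hs1
  have hs := HasSum.of_nat_of_neg_add_one (f := fun u : ℤ => (phi w (u + n) - phi w u) ^ 2)
    hs1 hs2
  rw [hs.tsum_eq]
  have hM : ‖∑ k ∈ Finset.range m, f k‖ ≤ ‖w‖ ^ 2 * n ^ 3 := by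
    refine (norm_sum_le _ _).trans ?_
    have h1 : ∀ k ∈ Finset.range m, ‖f k‖ ≤ ‖w‖ ^ 2 * n ^ 2 := by
      intro k hk
      rw [Finset.mem_range] at hk
      rw [hf]
      simp only
      have h2 := phi_sub hw (-((k : ℤ) + 1) + n) (-((k : ℤ) + 1))
      have h3 : (-((k : ℤ) + 1) + n - (-((k : ℤ) + 1))).natAbs = n := by omega
      rw [h3] at h2
      rw [norm_pow]
      calc _ ≤ (‖w‖ * n) ^ 2 := pow_le_pow_left₀ (norm_nonneg _) h2 2
        _ = ‖w‖ ^ 2 * n ^ 2 := by ring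
    refine (Finset.sum_le_card_nsmul _ _ _ h1).trans ?_
    rw [Finset.card_range, nsmul_eq_mul]
    have h4 : (m : ℝ) ≤ n := by
      exact_mod_cast (by omega : m ≤ n)
    calc (m : ℝ) * (‖w‖ ^ 2 * n ^ 2) ≤ n * (‖w‖ ^ 2 * n ^ 2) :=
          mul_le_mul_of_nonneg_right h4 (by positivity)
      _ = ‖w‖ ^ 2 * n ^ 3 := by ring
  have hx0 : 0 ≤ (w * n : ℂ).re := by
    have h1 : (w * n : ℂ).re = w.re * n := by simp
    rw [h1]
    positivity
  have h20 : 0 ≤ (2 * w : ℂ).re := by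
    have h1 : (2 * w : ℂ).re = 2 * w.re := by simp
    rw [h1]
    positivity
  have h3 : ‖1 - E - 2 * w‖ ≤ 4 * ‖w‖ ^ 2 := by
    have h4 := Complex.norm_exp_sub_one_sub_id_le (x := -(2 * w)) (by
      rw [norm_neg, norm_mul, Complex.norm_ofNat]
      linarith [hw.2.2])
    have h5 : 1 - E - 2 * w = -(exp (-(2 * w)) - 1 - -(2 * w)) := by
      rw [hE]
      ring
    rw [h5, norm_neg]
    rw [norm_neg, norm_mul, Complex.norm_ofNat] at h4
    linarith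
  have hmain := PhiC_alg (q := q) (E := E) (x := w * n) (n := n) h0 hw rfl
    (PhiC_exp_one hx0) (PhiC_exp_two hx0) h3
  have e1 : a + (a + ∑ k ∈ Finset.range m, f k) - w * (n : ℂ) ^ 2 =
      (2 * ((1 - q) ^ 2 * (1 - E)⁻¹) - w * (n : ℂ) ^ 2) + ∑ k ∈ Finset.range m, f k := by
    rw [ha]
    ring
  rw [e1]
  refine (norm_add_le _ _).trans ?_
  have h6 := PhiC_cube n
  have h7 : ‖w‖ ^ 2 * (n : ℝ) ^ 3 ≤ ‖w‖ ^ 2 * 4 ^ n :=
    mul_le_mul_of_nonneg_left h6 (by positivity)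
  linarith

/-- For `t ≥ 0` (the sum is even in `t`) the part over `u ≥ 0` and the part over `u ≤ -t` are both
`(1 - exp (-w t))² / (1 - exp (-2 w))`, the terms with `-t < u < 0` are at most `‖w‖² t²` each. And
`‖2 (1 - exp (-w t))² / (1 - exp (-2 w)) - w t²‖ ≤ C ‖w‖² (t + 1)³ exp (2 ‖w‖ t)`, `exp (t/5) (t + 1)³ ≤ C 4 ^ t`. -/
theorem phi_diff_sq : ∃ C : ℝ, 0 ≤ C ∧ ∀ w : ℂ, InK w → ∀ t : ℤ,
    (Summable fun u : ℤ => (phi w (u + t) - phi w u) ^ 2) ∧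
    ‖∑' u : ℤ, (phi w (u + t) - phi w u) ^ 2 - w * (t : ℂ) ^ 2‖ ≤
      C * ‖w‖ ^ 2 * 4 ^ t.natAbs := by
  refine ⟨13, by norm_num, fun w hw t => ⟨?_, ?_⟩⟩
  · refine Summable.of_norm ?_
    refine (phi_diff_sq_le hw t).1.congr fun u => ?_
    rw [norm_pow]
  · rcases Int.natAbs_eq t with ht | ht
    · rw [ht, Int.natAbs_natCast]
      exact_mod_cast PhiC_main hw t.natAbs
    · have h1 : ∑' u : ℤ, (phi w (u + t) - phi w u) ^ 2 =
          ∑' u : ℤ, (phi w (u + t.natAbs) - phi w u) ^ 2 := by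
        rw [← (Equiv.addRight (t.natAbs : ℤ)).tsum_eq
          (fun u : ℤ => (phi w (u + t) - phi w u) ^ 2)]
        refine tsum_congr fun u => ?_
        have h2 : u + (t.natAbs : ℤ) + t = u := by omega
        simp only [Equiv.coe_addRight]
        rw [h2]
        ring
      have h2 : (t : ℂ) ^ 2 = ((t.natAbs : ℕ) : ℂ) ^ 2 := by
        have h3 : (t : ℂ) = -((t.natAbs : ℕ) : ℂ) := by
          exact_mod_cast congrArg (fun z : ℤ => (z : ℂ)) ht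
        rw [h3]
        ring
      rw [h1, h2]
      exact PhiC_main hw t.natAbs

end Pool.Agent.KSlab
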