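import Pool.Agent.KSlab.Asy
import Pool.Agent.KSlab.PhiC

/-! SL32: asymptotics of the quadratic sums. -/

set_option autoImplicit false

open Complex Set Filter Topology

namespace Pool.Agent.KSlab

namespace Slb

variable {I : Type} [Fintype I] {κ : Slb I} {m : XX I → ℝ}

/-! ### Auxiliary lemmas -/

private theorem qb_sum_int {f : ℕ → ℝ} (hf : Summable f) (h0 : ∀ n, 0 ≤ f n) :
    Summable fun x : XX I => f x.1.natAbs := by
  have h2 : Summable fun u : ℤ => f u.natAbs := by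
    refine Summable.of_nat_of_neg ?_ ?_
    · simpa using hf
    · simpa using hf
  rw [summable_prod_of_nonneg (fun x => h0 _)]
  refine ⟨fun u => Summable.of_finite, ?_⟩
  simp only [tsum_fintype, Finset.sum_const, nsmul_eq_mul]
  exact h2.mul_left _

private theorem qb_sum_r {r : ℝ} (hr0 : 0 ≤ r) (hr : r < 1) :
    Summable fun x : XX I => r ^ x.1.natAbs :=
  qb_sum_int (summable_geometric_of_lt_one hr0 hr) fun n => by positivity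

private theorem qb_sum_sq :
    Summable fun x : XX I => (1 / 4 : ℝ) ^ x.1.natAbs * (1 + (x.1.natAbs : ℝ) ^ 2) := by
  refine qb_sum_int (f := fun n : ℕ => (1 / 4 : ℝ) ^ n * (1 + (n : ℝ) ^ 2)) ?_
    fun n => by positivity
  have a := summable_geometric_of_lt_one (r := (1 / 4 : ℝ)) (by norm_num) (by norm_num)
  have b := summable_pow_mul_geometric_of_norm_lt_one 2
    (show ‖(1 / 4 : ℝ)‖ < 1 by rw [Real.norm_of_nonneg (by norm_num)]; norm_num)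
  refine (a.add b).congr fun n => ?_
  ring

/-- the critical measure is bounded -/
private theorem qb_m_le (hκ : κ.Ok) {β r C : ℝ} (hA : Asy κ m β r C) :
    ∃ M : ℝ, 0 ≤ M ∧ ∀ x, |m x| ≤ M := by
  have hβ := hA.β_pos
  have hC := hA.C_nn
  have hr0 : 0 ≤ r := by have := hA.r_ge; linarith
  have hH : ∀ j, κ.h j ≤ ∑ j, κ.h j := fun j =>
    Finset.single_le_sum (f := κ.h) (fun j _ => (hκ.h_pos j).le) (Finset.mem_univ j)
  have hH0 : 0 ≤ ∑ j, κ.h j := Finset.sum_nonneg fun j _ => (hκ.h_pos j).le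
  refine ⟨C + β * ∑ j, κ.h j, by positivity, fun x => ?_⟩
  have h1 := hA.bd x
  have h2 : r ^ x.1.natAbs ≤ 1 := pow_le_one₀ hr0 hA.r_lt.le
  have h3 : C * r ^ x.1.natAbs ≤ C * 1 := mul_le_mul_of_nonneg_left h2 hC
  have h4 : |β * κ.h x.2| ≤ β * ∑ j, κ.h j := by
    rw [abs_of_nonneg (mul_nonneg hβ.le (hκ.h_pos _).le)]
    exact mul_le_mul_of_nonneg_left (hH _) hβ.le
  calc |m x| = |(m x - β * κ.h x.2) + β * κ.h x.2| := by rw [sub_add_cancel]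
    _ ≤ |m x - β * κ.h x.2| + |β * κ.h x.2| := abs_add_le _ _
    _ ≤ _ := by linarith

private theorem qb_sq_le (n : ℕ) : (n : ℝ) ^ 2 ≤ 2 * 2 ^ n := by
  induction n with
  | zero => norm_num
  | succ n ih =>
    rcases Nat.lt_or_ge n 3 with h | h
    · interval_cases n <;> norm_num
    · have h1 : (3 : ℝ) ≤ n := by exact_mod_cast h
      push_cast
      rw [pow_succ (2 : ℝ) n]
      nlinarith

/-- `2 cs - phi c0 = 2 c0 - phi c0 + O(‖s‖) 4 ^ (-|u|)`, and `(2 - phi) phi = 1 - (1 - phi)²`; `c_exp`, `one_sub_phi`, `m`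
bounded. -/
theorem Ok.quad_a (hκ : κ.Ok) {β r C : ℝ} (hA : Asy κ m β r C) : ∃ C' w0 : ℝ, 0 ≤ C' ∧ 0 < w0 ∧
    ∀ w : ℂ, InK w → ‖w‖ < w0 →
      ‖2 * ∑' x : XX I, κ.cs (κ.aa * w ^ 2) x * (m x * phi w x.1) -
        ∑' x : XX I, κ.c0 x * (m x * phi w x.1 ^ 2) - ∑' x : XX I, ((κ.c0 x * m x : ℝ) : ℂ)‖ ≤
        C' * ‖w‖ ^ 2 := by
  obtain ⟨M, hM0, hM⟩ := qb_m_le hκ hA
  obtain ⟨Cc, hCc, hc⟩ := hκ.c_exp
  have haa : 0 < κ.aa := hκ.V_pos.2.2.1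
  have hS := qb_sum_sq (I := I)
  have hG := qb_sum_r (I := I) (r := 1 / 4) (by norm_num) (by norm_num)
  set S : ℝ := ∑' x : XX I, (1 / 4 : ℝ) ^ x.1.natAbs * (1 + (x.1.natAbs : ℝ) ^ 2) with hSdef
  have hS0 : 0 ≤ S := tsum_nonneg fun x => by positivity
  refine ⟨M * Cc * (2 * κ.aa + 1) * S, min 1 (1 / (10 * κ.aa)), by positivity,
    lt_min one_pos (by positivity), fun w hw hw0 => ?_⟩
  have hw1 : ‖w‖ ≤ 1 := (hw0.trans_le (min_le_left _ _)).le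
  have hw2 : ‖w‖ ≤ 1 / (10 * κ.aa) := (hw0.trans_le (min_le_right _ _)).le
  have hwn : 0 ≤ ‖w‖ := norm_nonneg w
  have hs : ‖(κ.aa : ℂ) * w ^ 2‖ = κ.aa * ‖w‖ ^ 2 := by
    rw [norm_mul, norm_pow, Complex.norm_real, Real.norm_of_nonneg haa.le]
  have hs1 : ‖(κ.aa : ℂ) * w ^ 2‖ ≤ 1 / 10 := by
    rw [hs]
    have h1 : ‖w‖ ^ 2 ≤ 1 / (10 * κ.aa) := by nlinarith
    calc κ.aa * ‖w‖ ^ 2 ≤ κ.aa * (1 / (10 * κ.aa)) := mul_le_mul_of_nonneg_left h1 haa.le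
      _ = 1 / 10 := by field_simp
  have hc0 : ∀ x, |κ.c0 x| ≤ Cc * (1 / 4) ^ x.1.natAbs := by
    intro x
    have h1 := (hc 0 (by norm_num) x).1
    rw [(hc 0 (by norm_num) x).2.2.2, Complex.norm_real] at h1
    exact h1
  have hph : ∀ u, ‖phi w u‖ ≤ 1 := fun u => (norm_phi hw u).2
  have hmn : ∀ x, ‖(m x : ℂ)‖ ≤ M := fun x => by rw [Complex.norm_real]; exact hM x
  have hc0n : ∀ x, ‖(κ.c0 x : ℂ)‖ ≤ Cc * (1 / 4) ^ x.1.natAbs := fun x => by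
    rw [Complex.norm_real]; exact hc0 x
  have ha : Summable fun x : XX I => κ.cs (κ.aa * w ^ 2) x * (m x * phi w x.1) := by
    refine Summable.of_norm_bounded (hG.mul_left (Cc * M)) fun x => ?_
    rw [norm_mul, norm_mul]
    have h1 := (hc _ hs1 x).1
    calc ‖κ.cs (κ.aa * w ^ 2) x‖ * (‖(m x : ℂ)‖ * ‖phi w x.1‖)
        ≤ (Cc * (1 / 4) ^ x.1.natAbs) * (M * 1) :=
          mul_le_mul h1 (mul_le_mul (hmn x) (hph _) (norm_nonneg _) hM0) (by positivity)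
            (by positivity)
      _ = _ := by ring
  have hb : Summable fun x : XX I => (κ.c0 x : ℂ) * (m x * phi w x.1 ^ 2) := by
    refine Summable.of_norm_bounded (hG.mul_left (Cc * M)) fun x => ?_
    rw [norm_mul, norm_mul, norm_pow]
    calc ‖(κ.c0 x : ℂ)‖ * (‖(m x : ℂ)‖ * ‖phi w x.1‖ ^ 2)
        ≤ (Cc * (1 / 4) ^ x.1.natAbs) * (M * 1) :=
          mul_le_mul (hc0n x) (mul_le_mul (hmn x) (pow_le_one₀ (norm_nonneg _) (hph _))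
            (by positivity) hM0) (by positivity) (by positivity)
      _ = _ := by ring
  have hcc : Summable fun x : XX I => ((κ.c0 x * m x : ℝ) : ℂ) := by
    refine Summable.of_norm_bounded (hG.mul_left (Cc * M)) fun x => ?_
    rw [Complex.ofReal_mul, norm_mul]
    calc ‖(κ.c0 x : ℂ)‖ * ‖(m x : ℂ)‖ ≤ (Cc * (1 / 4) ^ x.1.natAbs) * M :=
          mul_le_mul (hc0n x) (hmn x) (norm_nonneg _) (by positivity)
      _ = _ := by ring
  rw [← tsum_mul_left, ← (ha.mul_left 2).tsum_sub hb, ← ((ha.mul_left 2).sub hb).tsum_sub hcc]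
  have hHas : HasSum (fun x : XX I => M * Cc * (2 * κ.aa + 1) * ‖w‖ ^ 2 *
      ((1 / 4 : ℝ) ^ x.1.natAbs * (1 + (x.1.natAbs : ℝ) ^ 2)))
      (M * Cc * (2 * κ.aa + 1) * ‖w‖ ^ 2 * S) := hS.hasSum.mul_left _
  refine (tsum_of_norm_bounded hHas fun x => ?_).trans (le_of_eq (by ring))
  have e : 2 * (κ.cs (κ.aa * w ^ 2) x * (m x * phi w x.1)) - κ.c0 x * (m x * phi w x.1 ^ 2) -
      ((κ.c0 x * m x : ℝ) : ℂ) =
      m x * (2 * (κ.cs (κ.aa * w ^ 2) x - κ.c0 x) * phi w x.1 - κ.c0 x * (1 - phi w x.1) ^ 2) := by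
    push_cast
    ring
  rw [e, norm_mul]
  have h1 := (hc _ hs1 x).2.1
  rw [hs] at h1
  have h2 : ‖2 * (κ.cs (κ.aa * w ^ 2) x - κ.c0 x) * phi w x.1‖ ≤
      2 * (Cc * (κ.aa * ‖w‖ ^ 2) * (1 / 4) ^ x.1.natAbs) := by
    rw [norm_mul, norm_mul, Complex.norm_ofNat]
    calc 2 * ‖κ.cs (κ.aa * w ^ 2) x - κ.c0 x‖ * ‖phi w x.1‖
        ≤ 2 * ‖κ.cs (κ.aa * w ^ 2) x - κ.c0 x‖ * 1 :=
          mul_le_mul_of_nonneg_left (hph _) (by positivity)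
      _ ≤ _ := by linarith
  have h3 : ‖(κ.c0 x : ℂ) * (1 - phi w x.1) ^ 2‖ ≤
      Cc * (1 / 4) ^ x.1.natAbs * (‖w‖ * x.1.natAbs) ^ 2 := by
    rw [norm_mul, norm_pow]
    exact mul_le_mul (hc0n x) (pow_le_pow_left₀ (norm_nonneg _) (one_sub_phi hw _) 2)
      (by positivity) (by positivity)
  have hp : (0 : ℝ) ≤ (1 / 4 : ℝ) ^ x.1.natAbs := by positivity
  have hn2 : (0 : ℝ) ≤ (x.1.natAbs : ℝ) ^ 2 := by positivity
  calc ‖(m x : ℂ)‖ * ‖2 * (κ.cs (κ.aa * w ^ 2) x - κ.c0 x) * phi w x.1 -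
        κ.c0 x * (1 - phi w x.1) ^ 2‖
      ≤ M * (2 * (Cc * (κ.aa * ‖w‖ ^ 2) * (1 / 4) ^ x.1.natAbs) +
          Cc * (1 / 4) ^ x.1.natAbs * (‖w‖ * x.1.natAbs) ^ 2) :=
        mul_le_mul (hmn x) ((norm_sub_le _ _).trans (add_le_add h2 h3)) (norm_nonneg _) hM0
    _ = M * Cc * ‖w‖ ^ 2 * (1 / 4) ^ x.1.natAbs * (2 * κ.aa + (x.1.natAbs : ℝ) ^ 2) := by ring
    _ ≤ M * Cc * ‖w‖ ^ 2 * (1 / 4) ^ x.1.natAbs *
        ((2 * κ.aa + 1) * (1 + (x.1.natAbs : ℝ) ^ 2)) := by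
        refine mul_le_mul_of_nonneg_left ?_ (by positivity)
        nlinarith [mul_nonneg haa.le hn2]
    _ = _ := by ring

/-- the free part without the factor of the differences, exponentially weighted -/
private theorem qb_F (hκ : κ.Ok) :
    Summable fun q : I × ℤ × I => 4 ^ q.2.1.natAbs * κ.F0 q.2.1 q.1 q.2.2 := by
  obtain ⟨C, hC⟩ := hκ.F0_exp
  rw [summable_prod_of_nonneg (fun q => mul_nonneg (by positivity) (hκ.F0_prop _ _ _).1)]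
  exact ⟨fun i => (hC i).1, Summable.of_finite⟩

/-- `VV` as a sum over triples -/
private theorem qb_VV (hκ : κ.Ok) :
    (Summable fun q : I × ℤ × I =>
      κ.F0 q.2.1 q.1 q.2.2 * κ.h q.1 * κ.h q.2.2 * (q.2.1 : ℝ) ^ 2) ∧
    ∑' q : I × ℤ × I, κ.F0 q.2.1 q.1 q.2.2 * κ.h q.1 * κ.h q.2.2 * (q.2.1 : ℝ) ^ 2 = κ.VV := by
  have h1 : ∀ i, Summable fun p : ℤ × I => κ.h i * (κ.F0 p.1 p.2 i * κ.h p.2 * (p.1 : ℝ) ^ 2) :=
    fun i => (hκ.V_summable i).1.mul_left _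
  have h2 : ∀ (i : I) (p : ℤ × I), κ.F0 p.1 i p.2 * κ.h i * κ.h p.2 * (p.1 : ℝ) ^ 2 =
      κ.h i * (κ.F0 p.1 p.2 i * κ.h p.2 * (p.1 : ℝ) ^ 2) := by
    intro i p
    rw [(hκ.F0_prop p.1 i p.2).2.2]
    ring
  have hs : Summable fun q : I × ℤ × I =>
      κ.F0 q.2.1 q.1 q.2.2 * κ.h q.1 * κ.h q.2.2 * (q.2.1 : ℝ) ^ 2 := by
    rw [summable_prod_of_nonneg (fun q => mul_nonneg (mul_nonneg (mul_nonneg
      (hκ.F0_prop _ _ _).1 (hκ.h_pos _).le) (hκ.h_pos _).le) (sq_nonneg _))]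
    refine ⟨fun i => ?_, Summable.of_finite⟩
    exact (h1 i).congr fun p => (h2 i p).symm
  refine ⟨hs, ?_⟩
  rw [hs.tsum_prod, tsum_fintype]
  unfold VV Vj
  refine Finset.sum_congr rfl fun i _ => ?_
  rw [← tsum_mul_left]
  exact tsum_congr fun p => h2 i p

/-- reindexing of the pairs of states by the displacement -/
private def qb_E : XX I × XX I ≃ (I × ℤ × I) × ℤ where
  toFun p := ((p.1.2, p.2.1 - p.1.1, p.2.2), p.1.1)
  invFun z := ((z.2, z.1.1), (z.2 + z.1.2.1, z.1.2.2))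
  left_inv p := by
    obtain ⟨⟨u, i⟩, ⟨v, j⟩⟩ := p
    simp
  right_inv z := by
    obtain ⟨⟨i, t, j⟩, u⟩ := z
    simp

/-- the main part -/
private theorem qb_main (hκ : κ.Ok) : ∃ C' : ℝ, 0 ≤ C' ∧ ∀ w : ℂ, InK w →
    (Summable fun p : XX I × XX I => ((κ.Fx p.1 p.2 * κ.h p.1.2 * κ.h p.2.2 : ℝ) : ℂ) *
      (phi w p.1.1 - phi w p.2.1) ^ 2) ∧
    ‖∑' p : XX I × XX I, ((κ.Fx p.1 p.2 * κ.h p.1.2 * κ.h p.2.2 : ℝ) : ℂ) *
      (phi w p.1.1 - phi w p.2.1) ^ 2 - κ.VV * w‖ ≤ C' * ‖w‖ ^ 2 := by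
  obtain ⟨C₃, hC₃, h3⟩ := phi_diff_sq
  have hH : ∀ j, κ.h j ≤ ∑ j, κ.h j := fun j =>
    Finset.single_le_sum (f := κ.h) (fun j _ => (hκ.h_pos j).le) (Finset.mem_univ j)
  set H : ℝ := ∑ j, κ.h j with hHdef
  have hH0 : 0 ≤ H := Finset.sum_nonneg fun j _ => (hκ.h_pos j).le
  have hF := qb_F hκ
  set G : ℝ := ∑' q : I × ℤ × I, 4 ^ q.2.1.natAbs * κ.F0 q.2.1 q.1 q.2.2 with hGdef
  have hG0 : 0 ≤ G := tsum_nonneg fun q => mul_nonneg (by positivity) (hκ.F0_prop _ _ _).1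
  set g : I × ℤ × I → ℝ := fun q => κ.F0 q.2.1 q.1 q.2.2 * κ.h q.1 * κ.h q.2.2 with hg
  have hg0 : ∀ q, 0 ≤ g q := fun q => mul_nonneg (mul_nonneg (hκ.F0_prop _ _ _).1
    (hκ.h_pos _).le) (hκ.h_pos _).le
  have hgle : ∀ q, g q ≤ H ^ 2 * κ.F0 q.2.1 q.1 q.2.2 := by
    intro q
    have h1 : κ.h q.1 * κ.h q.2.2 ≤ H * H := mul_le_mul (hH _) (hH _) (hκ.h_pos _).le hH0
    calc g q = κ.F0 q.2.1 q.1 q.2.2 * (κ.h q.1 * κ.h q.2.2) := by rw [hg]; ring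
      _ ≤ κ.F0 q.2.1 q.1 q.2.2 * (H * H) := mul_le_mul_of_nonneg_left h1 (hκ.F0_prop _ _ _).1
      _ = _ := by ring
  refine ⟨C₃ * H ^ 2 * G, by positivity, fun w hw => ?_⟩
  set Q : (I × ℤ × I) × ℤ → ℂ := fun z =>
    (g z.1 : ℂ) * (phi w (z.2 + z.1.2.1) - phi w z.2) ^ 2 with hQ
  have hQn : ∀ z, ‖Q z‖ = g z.1 * ‖phi w (z.2 + z.1.2.1) - phi w z.2‖ ^ 2 := by
    intro z
    rw [hQ]
    simp only [norm_mul, norm_pow, Complex.norm_real, Real.norm_of_nonneg (hg0 _)]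
  have hQs : Summable fun z => ‖Q z‖ := by
    simp only [hQn]
    rw [summable_prod_of_nonneg (fun z => mul_nonneg (hg0 _) (by positivity))]
    refine ⟨fun q => (phi_diff_sq_le hw q.2.1).1.mul_left (g q), ?_⟩
    refine Summable.of_nonneg_of_le
      (fun q => tsum_nonneg fun u => mul_nonneg (hg0 _) (by positivity)) (fun q => ?_)
      (hF.mul_left (20 * ‖w‖ * H ^ 2))
    change ∑' u : ℤ, g q * ‖phi w (u + q.2.1) - phi w u‖ ^ 2 ≤ _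
    rw [tsum_mul_left]
    calc g q * ∑' u : ℤ, ‖phi w (u + q.2.1) - phi w u‖ ^ 2
        ≤ (H ^ 2 * κ.F0 q.2.1 q.1 q.2.2) * (20 * ‖w‖ * 4 ^ q.2.1.natAbs) :=
          mul_le_mul (hgle q) (phi_diff_sq_le hw q.2.1).2 (tsum_nonneg fun u => by positivity)
            (mul_nonneg (by positivity) (hκ.F0_prop _ _ _).1)
      _ = _ := by ring
  have hQs' : Summable Q := hQs.of_norm
  have hcomp : (fun p : XX I × XX I => ((κ.Fx p.1 p.2 * κ.h p.1.2 * κ.h p.2.2 : ℝ) : ℂ) *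
      (phi w p.1.1 - phi w p.2.1) ^ 2) = Q ∘ (qb_E (I := I)) := by
    funext p
    obtain ⟨⟨u, i⟩, ⟨v, j⟩⟩ := p
    simp only [Function.comp, qb_E, Equiv.coe_fn_mk, hQ, hg, Fx]
    rw [add_sub_cancel]
    ring
  rw [hcomp]
  refine ⟨hQs'.comp_injective (qb_E (I := I)).injective, ?_⟩
  have hE : tsum (Q ∘ (qb_E (I := I))) = tsum Q := (qb_E (I := I)).tsum_eq Q
  rw [hE, hQs'.tsum_prod]
  obtain ⟨hV1, hV2⟩ := qb_VV hκ
  have hVc : (κ.VV : ℂ) * w = ∑' q : I × ℤ × I, (g q : ℂ) * (w * (q.2.1 : ℂ) ^ 2) := by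
    rw [← hV2, Complex.ofReal_tsum, ← tsum_mul_right]
    refine tsum_congr fun q => ?_
    rw [hg]
    push_cast
    ring
  have hVs : Summable fun q : I × ℤ × I => (g q : ℂ) * (w * (q.2.1 : ℂ) ^ 2) := by
    have h1 : Summable fun q : I × ℤ × I =>
        ((κ.F0 q.2.1 q.1 q.2.2 * κ.h q.1 * κ.h q.2.2 * (q.2.1 : ℝ) ^ 2 : ℝ) : ℂ) * w :=
      (Complex.ofRealCLM.summable hV1).mul_right w
    refine h1.congr fun q => ?_
    rw [hg]
    push_cast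
    ring
  have hin : ∀ q : I × ℤ × I, ∑' u : ℤ, Q (q, u) =
      (g q : ℂ) * ∑' u : ℤ, (phi w (u + q.2.1) - phi w u) ^ 2 := fun q => by
    have e : ∀ u : ℤ, Q (q, u) = (g q : ℂ) * (phi w (u + q.2.1) - phi w u) ^ 2 := fun u => rfl
    rw [tsum_congr e]
    exact tsum_mul_left (a := (g q : ℂ)) (f := fun u : ℤ => (phi w (u + q.2.1) - phi w u) ^ 2)
  have hQ1 : Summable fun q : I × ℤ × I => ∑' u : ℤ, Q (q, u) := hQs'.prod
  rw [hVc, ← hQ1.tsum_sub hVs]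
  have hHas : HasSum (fun q : I × ℤ × I => C₃ * H ^ 2 * ‖w‖ ^ 2 *
      (4 ^ q.2.1.natAbs * κ.F0 q.2.1 q.1 q.2.2)) (C₃ * H ^ 2 * ‖w‖ ^ 2 * G) :=
    hF.hasSum.mul_left _
  refine (tsum_of_norm_bounded hHas fun q => ?_).trans (le_of_eq (by ring))
  rw [hin q, ← mul_sub, norm_mul, Complex.norm_real, Real.norm_of_nonneg (hg0 q)]
  calc g q * ‖∑' u : ℤ, (phi w (u + q.2.1) - phi w u) ^ 2 - w * (q.2.1 : ℂ) ^ 2‖
      ≤ (H ^ 2 * κ.F0 q.2.1 q.1 q.2.2) * (C₃ * ‖w‖ ^ 2 * 4 ^ q.2.1.natAbs) :=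
        mul_le_mul (hgle q) (h3 w hw q.2.1).2 (norm_nonneg _)
          (mul_nonneg (by positivity) (hκ.F0_prop _ _ _).1)
    _ = _ := by ring

/-- the square of the difference of the arguments against the free kernel -/
private theorem qb_F2 (hκ : κ.Ok) {r : ℝ} (hr0 : 0 ≤ r) (hr : r < 1) :
    Summable fun p : XX I × XX I => κ.Fx p.1 p.2 * ((p.1.1 - p.2.1).natAbs : ℝ) ^ 2 *
      (r ^ p.1.1.natAbs + r ^ p.2.1.natAbs) := by
  have h1 : Summable fun p : XX I × XX I => κ.Fx p.1 p.2 * ((p.1.1 - p.2.1).natAbs : ℝ) ^ 2 *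
      r ^ p.1.1.natAbs := by
    obtain ⟨C, hC⟩ := hκ.F0_exp
    have hle : ∀ (x : XX I) (y : XX I), κ.Fx x y * ((x.1 - y.1).natAbs : ℝ) ^ 2 ≤
        2 * (4 ^ (y.1 - x.1).natAbs * κ.F0 (y.1 - x.1) x.2 y.2) := by
      intro x y
      have e1 : (x.1 - y.1).natAbs = (y.1 - x.1).natAbs := by omega
      rw [e1]
      have e2 := qb_sq_le (y.1 - x.1).natAbs
      have e3 : (2 : ℝ) ^ (y.1 - x.1).natAbs ≤ 4 ^ (y.1 - x.1).natAbs :=
        pow_le_pow_left₀ (by norm_num) (by norm_num) _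
      have e4 : 0 ≤ κ.F0 (y.1 - x.1) x.2 y.2 := (hκ.F0_prop _ _ _).1
      unfold Fx
      calc κ.F0 (y.1 - x.1) x.2 y.2 * ((y.1 - x.1).natAbs : ℝ) ^ 2
          ≤ κ.F0 (y.1 - x.1) x.2 y.2 * (2 * 4 ^ (y.1 - x.1).natAbs) :=
            mul_le_mul_of_nonneg_left (by linarith) e4
        _ = _ := by ring
    let e : ∀ x : XX I, XX I ≃ ℤ × I := fun x => (Equiv.subRight x.1).prodCongr (Equiv.refl I)
    have he : ∀ x y : XX I, e x y = (y.1 - x.1, y.2) := fun x y => rfl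
    have hs : ∀ x : XX I, Summable fun y : XX I =>
        4 ^ (y.1 - x.1).natAbs * κ.F0 (y.1 - x.1) x.2 y.2 := by
      intro x
      have h := (e x).summable_iff.2 (hC x.2).1
      refine h.congr fun y => ?_
      rw [Function.comp_apply, he]
    have ht : ∀ x : XX I, ∑' y : XX I,
        4 ^ (y.1 - x.1).natAbs * κ.F0 (y.1 - x.1) x.2 y.2 ≤ C := by
      intro x
      have h := (e x).tsum_eq (fun p : ℤ × I => (4 : ℝ) ^ p.1.natAbs * κ.F0 p.1 x.2 p.2)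
      simp only [he] at h
      rw [h]
      exact (hC x.2).2
    have h0 : ∀ x y : XX I, 0 ≤ κ.Fx x y * ((x.1 - y.1).natAbs : ℝ) ^ 2 := fun x y =>
      mul_nonneg (hκ.Fx_prop x y).1 (by positivity)
    have h00 : ∀ p : XX I × XX I, 0 ≤ κ.Fx p.1 p.2 * ((p.1.1 - p.2.1).natAbs : ℝ) ^ 2 *
        r ^ p.1.1.natAbs := fun p => mul_nonneg (h0 p.1 p.2) (by positivity)
    rw [summable_prod_of_nonneg h00]
    have hs2 : ∀ x : XX I, Summable fun y : XX I => κ.Fx x y * ((x.1 - y.1).natAbs : ℝ) ^ 2 :=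
      fun x => Summable.of_nonneg_of_le (h0 x) (hle x) ((hs x).mul_left 2)
    have hrow : ∀ x : XX I, Summable fun y : XX I =>
        κ.Fx x y * ((x.1 - y.1).natAbs : ℝ) ^ 2 * r ^ x.1.natAbs := fun x =>
      (hs2 x).mul_right (r ^ x.1.natAbs)
    refine ⟨hrow, ?_⟩
    have hnn : ∀ x : XX I, 0 ≤ ∑' y : XX I,
        κ.Fx x y * ((x.1 - y.1).natAbs : ℝ) ^ 2 * r ^ x.1.natAbs := fun x =>
      tsum_nonneg fun y => mul_nonneg (h0 x y) (by positivity)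
    refine Summable.of_nonneg_of_le hnn (fun x => ?_)
      ((qb_sum_r (I := I) hr0 hr).mul_left (2 * C))
    change ∑' y : XX I, κ.Fx x y * ((x.1 - y.1).natAbs : ℝ) ^ 2 * r ^ x.1.natAbs ≤ _
    rw [tsum_mul_right]
    refine mul_le_mul_of_nonneg_right ?_ (by positivity)
    calc ∑' y : XX I, κ.Fx x y * ((x.1 - y.1).natAbs : ℝ) ^ 2
        ≤ ∑' y : XX I, 2 * (4 ^ (y.1 - x.1).natAbs * κ.F0 (y.1 - x.1) x.2 y.2) :=
          (hs2 x).tsum_le_tsum (hle x) ((hs x).mul_left 2)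
      _ = 2 * ∑' y : XX I, 4 ^ (y.1 - x.1).natAbs * κ.F0 (y.1 - x.1) x.2 y.2 := tsum_mul_left
      _ ≤ 2 * C := by linarith [ht x]
  have h2 : Summable fun p : XX I × XX I => κ.Fx p.2 p.1 * ((p.2.1 - p.1.1).natAbs : ℝ) ^ 2 *
      r ^ p.2.1.natAbs := h1.prod_symm
  refine (h1.add h2).congr fun p => ?_
  rw [(hκ.Fx_prop p.2 p.1).2, show (p.2.1 - p.1.1).natAbs = (p.1.1 - p.2.1).natAbs by omega]
  ring

open Classical in
/-- the defects -/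
private theorem qb_D (hκ : κ.Ok) : Summable fun p : XX I × XX I =>
    if κ.Al p.1 then ‖κ.dS 0 p.1 p.2‖ * ((p.1.1 - p.2.1).natAbs : ℝ) ^ 2 else 0 := by
  obtain ⟨C, hC, hd⟩ := hκ.dS_exp
  have hd0 := hd 0 (by norm_num)
  have h0 : ∀ p : XX I × XX I, 0 ≤
      if κ.Al p.1 then ‖κ.dS 0 p.1 p.2‖ * ((p.1.1 - p.2.1).natAbs : ℝ) ^ 2 else 0 := by
    intro p
    split_ifs
    · positivity
    · exact le_rfl
  have hle : ∀ x y : XX I, ‖κ.dS 0 x y‖ * ((x.1 - y.1).natAbs : ℝ) ^ 2 ≤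
      2 * 2 ^ x.1.natAbs * (4 ^ y.1.natAbs * ‖κ.dS 0 x y‖) := by
    intro x y
    have e1 : ((x.1 - y.1).natAbs : ℝ) ≤ ((x.1.natAbs + y.1.natAbs : ℕ) : ℝ) := by
      exact_mod_cast (by omega : (x.1 - y.1).natAbs ≤ x.1.natAbs + y.1.natAbs)
    have e2 := qb_sq_le (x.1.natAbs + y.1.natAbs)
    have e3 : (2 : ℝ) ^ y.1.natAbs ≤ 4 ^ y.1.natAbs :=
      pow_le_pow_left₀ (by norm_num) (by norm_num) _
    have e4 : ((x.1 - y.1).natAbs : ℝ) ^ 2 ≤ 2 * 2 ^ x.1.natAbs * 4 ^ y.1.natAbs := by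
      calc ((x.1 - y.1).natAbs : ℝ) ^ 2 ≤ ((x.1.natAbs + y.1.natAbs : ℕ) : ℝ) ^ 2 :=
            pow_le_pow_left₀ (by positivity) e1 2
        _ ≤ 2 * 2 ^ (x.1.natAbs + y.1.natAbs) := e2
        _ = 2 * 2 ^ x.1.natAbs * 2 ^ y.1.natAbs := by rw [pow_add]; ring
        _ ≤ _ := mul_le_mul_of_nonneg_left e3 (by positivity)
    calc ‖κ.dS 0 x y‖ * ((x.1 - y.1).natAbs : ℝ) ^ 2
        ≤ ‖κ.dS 0 x y‖ * (2 * 2 ^ x.1.natAbs * 4 ^ y.1.natAbs) :=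
          mul_le_mul_of_nonneg_left e4 (norm_nonneg _)
      _ = _ := by ring
  rw [summable_prod_of_nonneg h0]
  have hs : ∀ x, κ.Al x → Summable fun y : XX I =>
      ‖κ.dS 0 x y‖ * ((x.1 - y.1).natAbs : ℝ) ^ 2 := fun x hx =>
    Summable.of_nonneg_of_le (fun y => by positivity) (hle x) ((hd0 x hx).1.mul_left _)
  refine ⟨fun x => ?_, ?_⟩
  · by_cases hx : κ.Al x
    · simp only [hx, if_true]
      exact hs x hx
    · simp only [hx, if_false]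
      exact summable_zero
  · refine Summable.of_nonneg_of_le (fun x => tsum_nonneg fun y => h0 (x, y)) (fun x => ?_)
      ((qb_sum_r (I := I) (r := 1 / 2) (by norm_num) (by norm_num)).mul_left (2 * C))
    by_cases hx : κ.Al x
    · simp only [hx, if_true]
      calc ∑' y : XX I, ‖κ.dS 0 x y‖ * ((x.1 - y.1).natAbs : ℝ) ^ 2
          ≤ ∑' y : XX I, 2 * 2 ^ x.1.natAbs * (4 ^ y.1.natAbs * ‖κ.dS 0 x y‖) :=
            (hs x hx).tsum_le_tsum (hle x) ((hd0 x hx).1.mul_left _)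
        _ = 2 * 2 ^ x.1.natAbs * ∑' y : XX I, 4 ^ y.1.natAbs * ‖κ.dS 0 x y‖ := tsum_mul_left
        _ ≤ 2 * 2 ^ x.1.natAbs * (C * (1 / 4) ^ x.1.natAbs) :=
            mul_le_mul_of_nonneg_left (hd0 x hx).2.1 (by positivity)
        _ = 2 * C * (1 / 2) ^ x.1.natAbs := by
            rw [show (1 / 2 : ℝ) = 2 * (1 / 4) by norm_num, mul_pow]
            ring
    · simp only [hx, if_false, tsum_zero]
      positivity

/-- `∑ K0 m m (phi x - phi y)² = β² VV w + O(‖w‖²)`. For alive `x`, `y` `K0 x y = F0 (y - x) + dS 0 x y` (`dS_exp`), `m = 0` at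
the dead states; the part of `dS 0` is `O(‖w‖²)` (`phi_sub`, `m` bounded). In the part of `F0` replace `m x m y` by
`β² h x h y`: the error is at most `C (r ^ |x| + r ^ |y|)`, it contributes `O(‖w‖²)`. The main part is
`β² ∑ F0 t i j h i h j ∑_u (phi (u + t) - phi u)²`: `phi_diff_sq`, `F0_exp`. -/
theorem Ok.quad_b (hκ : κ.Ok) {β r C : ℝ} (hA : Asy κ m β r C) : ∃ C' w0 : ℝ, 0 ≤ C' ∧ 0 < w0 ∧
    ∀ w : ℂ, InK w → ‖w‖ < w0 →
      (Summable fun p : XX I × XX I => (κ.K0 p.1 p.2 * m p.1 * m p.2 : ℂ) *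
        (phi w p.1.1 - phi w p.2.1) ^ 2) ∧
      ‖∑' p : XX I × XX I, (κ.K0 p.1 p.2 * m p.1 * m p.2 : ℂ) * (phi w p.1.1 - phi w p.2.1) ^ 2 -
        β ^ 2 * κ.VV * w‖ ≤ C' * ‖w‖ ^ 2 := by
  classical
  obtain ⟨M, hM0, hM⟩ := qb_m_le hκ hA
  obtain ⟨C₁, hC₁, hmain⟩ := qb_main hκ
  have hβ := hA.β_pos
  have hC := hA.C_nn
  have hr0 : 0 ≤ r := by have := hA.r_ge; linarith
  have hH : ∀ j, κ.h j ≤ ∑ j, κ.h j := fun j =>
    Finset.single_le_sum (f := κ.h) (fun j _ => (hκ.h_pos j).le) (Finset.mem_univ j)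
  set H : ℝ := ∑ j, κ.h j with hHdef
  have hH0 : 0 ≤ H := Finset.sum_nonneg fun j _ => (hκ.h_pos j).le
  have h2s := qb_F2 hκ hr0 hA.r_lt
  have h3s := qb_D hκ
  set g2 : XX I × XX I → ℝ := fun p => κ.Fx p.1 p.2 * ((p.1.1 - p.2.1).natAbs : ℝ) ^ 2 *
      (r ^ p.1.1.natAbs + r ^ p.2.1.natAbs) with hg2
  set g3 : XX I × XX I → ℝ := fun p =>
    if κ.Al p.1 then ‖κ.dS 0 p.1 p.2‖ * ((p.1.1 - p.2.1).natAbs : ℝ) ^ 2 else 0 with hg3
  have hg20 : ∀ p, 0 ≤ g2 p := fun p =>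
    mul_nonneg (mul_nonneg (hκ.Fx_prop _ _).1 (by positivity)) (by positivity)
  have hg30 : ∀ p, 0 ≤ g3 p := by
    intro p
    rw [hg3]
    dsimp only
    split_ifs
    · positivity
    · exact le_rfl
  set S2 : ℝ := ∑' p, g2 p with hS2
  set S3 : ℝ := ∑' p, g3 p with hS3
  have hS20 : 0 ≤ S2 := tsum_nonneg hg20
  have hS30 : 0 ≤ S3 := tsum_nonneg hg30
  refine ⟨β ^ 2 * C₁ + C * (M + β * H) * S2 + M ^ 2 * S3, 1, by positivity, one_pos,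
    fun w hw _ => ?_⟩
  obtain ⟨hP1, hP1e⟩ := hmain w hw
  -- the three parts
  set P1 : XX I × XX I → ℂ := fun p => ((κ.Fx p.1 p.2 * κ.h p.1.2 * κ.h p.2.2 : ℝ) : ℂ) *
      (phi w p.1.1 - phi w p.2.1) ^ 2 with hP1def
  set P2 : XX I × XX I → ℂ := fun p =>
    ((κ.Fx p.1 p.2 * (m p.1 * m p.2 - β ^ 2 * (κ.h p.1.2 * κ.h p.2.2)) : ℝ) : ℂ) *
      (phi w p.1.1 - phi w p.2.1) ^ 2 with hP2def
  set P3 : XX I × XX I → ℂ := fun p =>
    κ.dS 0 p.1 p.2 * (m p.1 * m p.2) * (phi w p.1.1 - phi w p.2.1) ^ 2 with hP3def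
  have hD : ∀ p : XX I × XX I, ‖(phi w p.1.1 - phi w p.2.1) ^ 2‖ ≤
      ‖w‖ ^ 2 * ((p.1.1 - p.2.1).natAbs : ℝ) ^ 2 := by
    intro p
    rw [norm_pow, ← mul_pow]
    exact pow_le_pow_left₀ (norm_nonneg _) (phi_sub hw _ _) 2
  have hP2b : ∀ p, ‖P2 p‖ ≤ C * (M + β * H) * ‖w‖ ^ 2 * g2 p := by
    intro p
    have e1 : m p.1 * m p.2 - β ^ 2 * (κ.h p.1.2 * κ.h p.2.2) =
        (m p.1 - β * κ.h p.1.2) * m p.2 + β * κ.h p.1.2 * (m p.2 - β * κ.h p.2.2) := by ring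
    have e2 : |m p.1 * m p.2 - β ^ 2 * (κ.h p.1.2 * κ.h p.2.2)| ≤
        C * (M + β * H) * (r ^ p.1.1.natAbs + r ^ p.2.1.natAbs) := by
      rw [e1]
      have a1 : |(m p.1 - β * κ.h p.1.2) * m p.2| ≤ (C * r ^ p.1.1.natAbs) * M := by
        rw [abs_mul]
        exact mul_le_mul (hA.bd _) (hM _) (abs_nonneg _) (by positivity)
      have a2 : |β * κ.h p.1.2 * (m p.2 - β * κ.h p.2.2)| ≤ (β * H) * (C * r ^ p.2.1.natAbs) := by
        rw [abs_mul]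
        refine mul_le_mul ?_ (hA.bd _) (abs_nonneg _) (by positivity)
        rw [abs_of_nonneg (mul_nonneg hβ.le (hκ.h_pos _).le)]
        exact mul_le_mul_of_nonneg_left (hH _) hβ.le
      have a3 : 0 ≤ C * M * r ^ p.2.1.natAbs := by positivity
      have a4 : 0 ≤ C * (β * H) * r ^ p.1.1.natAbs := by positivity
      calc |(m p.1 - β * κ.h p.1.2) * m p.2 + β * κ.h p.1.2 * (m p.2 - β * κ.h p.2.2)|
          ≤ (C * r ^ p.1.1.natAbs) * M + (β * H) * (C * r ^ p.2.1.natAbs) :=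
            (abs_add_le _ _).trans (add_le_add a1 a2)
        _ ≤ (C * r ^ p.1.1.natAbs) * M + (β * H) * (C * r ^ p.2.1.natAbs) +
            (C * M * r ^ p.2.1.natAbs + C * (β * H) * r ^ p.1.1.natAbs) := by linarith
        _ = _ := by ring
    rw [hP2def]
    dsimp only
    rw [norm_mul, Complex.norm_real, Real.norm_eq_abs, abs_mul, abs_of_nonneg (hκ.Fx_prop _ _).1]
    calc κ.Fx p.1 p.2 * |m p.1 * m p.2 - β ^ 2 * (κ.h p.1.2 * κ.h p.2.2)| *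
          ‖(phi w p.1.1 - phi w p.2.1) ^ 2‖
        ≤ κ.Fx p.1 p.2 * (C * (M + β * H) * (r ^ p.1.1.natAbs + r ^ p.2.1.natAbs)) *
          (‖w‖ ^ 2 * ((p.1.1 - p.2.1).natAbs : ℝ) ^ 2) :=
          mul_le_mul (mul_le_mul_of_nonneg_left e2 (hκ.Fx_prop _ _).1) (hD p) (norm_nonneg _)
            (mul_nonneg (hκ.Fx_prop _ _).1 (by positivity))
      _ = _ := by rw [hg2]; ring
  have hP3b : ∀ p, ‖P3 p‖ ≤ M ^ 2 * ‖w‖ ^ 2 * g3 p := by
    intro p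
    rw [hP3def, hg3]
    dsimp only
    by_cases hx : κ.Al p.1
    · rw [if_pos hx, norm_mul, norm_mul, norm_mul, Complex.norm_real, Complex.norm_real]
      have a1 : ‖m p.1‖ * ‖m p.2‖ ≤ M * M :=
        mul_le_mul (hM _) (hM _) (norm_nonneg _) hM0
      calc ‖κ.dS 0 p.1 p.2‖ * (‖m p.1‖ * ‖m p.2‖) * ‖(phi w p.1.1 - phi w p.2.1) ^ 2‖
          ≤ ‖κ.dS 0 p.1 p.2‖ * (M * M) * (‖w‖ ^ 2 * ((p.1.1 - p.2.1).natAbs : ℝ) ^ 2) :=
            mul_le_mul (mul_le_mul_of_nonneg_left a1 (norm_nonneg _)) (hD p) (norm_nonneg _)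
              (by positivity)
        _ = _ := by ring
    · rw [hA.isM.dead _ hx, if_neg hx]
      simp
  have hP2 : Summable P2 := Summable.of_norm_bounded (h2s.mul_left _) hP2b
  have hP3 : Summable P3 := Summable.of_norm_bounded (h3s.mul_left _) hP3b
  have hP2e : ‖∑' p, P2 p‖ ≤ C * (M + β * H) * ‖w‖ ^ 2 * S2 :=
    tsum_of_norm_bounded (h2s.hasSum.mul_left _) hP2b
  have hP3e : ‖∑' p, P3 p‖ ≤ M ^ 2 * ‖w‖ ^ 2 * S3 :=
    tsum_of_norm_bounded (h3s.hasSum.mul_left _) hP3b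
  obtain ⟨Cd, hCd, hd⟩ := hκ.dS_exp
  have hsplit : (fun p : XX I × XX I => (κ.K0 p.1 p.2 * m p.1 * m p.2 : ℂ) *
      (phi w p.1.1 - phi w p.2.1) ^ 2) = fun p => (β : ℂ) ^ 2 * P1 p + P2 p + P3 p := by
    funext p
    rw [hP1def, hP2def, hP3def]
    dsimp only
    by_cases hx : κ.Al p.1
    · by_cases hy : κ.Al p.2
      · have e1 := (hd 0 (by norm_num) p.1 hx).2.2.2.2 p.2 hy
        rw [Ok.Ks_zero, (hκ.Fs_prop 0 _ _ _).2.2] at e1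
        rw [e1]
        unfold Fx
        push_cast
        ring
      · rw [hA.isM.dead _ hy]
        push_cast
        ring
    · rw [hA.isM.dead _ hx]
      push_cast
      ring
  rw [hsplit]
  have hs1 : Summable fun p => (β : ℂ) ^ 2 * P1 p := hP1.mul_left _
  refine ⟨(hs1.add hP2).add hP3, ?_⟩
  rw [(hs1.add hP2).tsum_add hP3, hs1.tsum_add hP2, tsum_mul_left]
  have e : (β : ℂ) ^ 2 * ∑' p, P1 p + ∑' p, P2 p + ∑' p, P3 p - β ^ 2 * κ.VV * w =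
      (β : ℂ) ^ 2 * (∑' p, P1 p - κ.VV * w) + ∑' p, P2 p + ∑' p, P3 p := by ring
  rw [e]
  have hb : ‖(β : ℂ) ^ 2 * (∑' p, P1 p - κ.VV * w)‖ ≤ β ^ 2 * (C₁ * ‖w‖ ^ 2) := by
    rw [norm_mul, norm_pow, Complex.norm_real, Real.norm_of_nonneg hβ.le]
    exact mul_le_mul_of_nonneg_left hP1e (by positivity)
  calc ‖(β : ℂ) ^ 2 * (∑' p, P1 p - κ.VV * w) + ∑' p, P2 p + ∑' p, P3 p‖
      ≤ ‖(β : ℂ) ^ 2 * (∑' p, P1 p - κ.VV * w)‖ + ‖∑' p, P2 p‖ + ‖∑' p, P3 p‖ :=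
        norm_add₃_le
    _ ≤ β ^ 2 * (C₁ * ‖w‖ ^ 2) + C * (M + β * H) * ‖w‖ ^ 2 * S2 + M ^ 2 * ‖w‖ ^ 2 * S3 := by
        linarith
    _ = _ := by ring

end Slb

end Pool.Agent.KSlab
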