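import Pool.Agent.KSlab.Asy

/-! SL33: asymptotics of the quadratic form of `K_0 - K_s`. -/

set_option autoImplicit false

open Complex Set Filter Topology

namespace Pool.Agent.KSlab

namespace Slb

variable {I : Type} [Fintype I] {κ : Slb I} {m : XX I → ℝ}

omit [Fintype I] in
private theorem qc_conv {A : ℤ → I → I → ℂ} {α : ℝ}
    (hA : ∀ j, (Summable fun p : ℤ × I => ‖A p.1 p.2 j‖) ∧ ∑' p : ℤ × I, ‖A p.1 p.2 j‖ ≤ α)
    {W : XX I → ℝ} (hW0 : ∀ y, 0 ≤ W y) (hW : Summable W) {G : XX I × XX I → ℂ}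
    (hG : ∀ p, ‖G p‖ ≤ W p.2) :
    (Summable fun p : XX I × XX I => A (p.2.1 - p.1.1) p.1.2 p.2.2 * G p) ∧
    ‖∑' p : XX I × XX I, A (p.2.1 - p.1.1) p.1.2 p.2.2 * G p‖ ≤ α * ∑' y, W y := by
  let e : XX I → XX I ≃ ℤ × I := fun y => (Equiv.subLeft y.1).prodCongr (Equiv.refl I)
  have hin : ∀ y : XX I, (Summable fun x : XX I => ‖A (y.1 - x.1) x.2 y.2‖) ∧
      ∑' x : XX I, ‖A (y.1 - x.1) x.2 y.2‖ ≤ α := by
    intro y
    have h1 := (hA y.2).1.comp_injective (e y).injective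
    have h2 := (e y).tsum_eq fun p : ℤ × I => ‖A p.1 p.2 y.2‖
    refine ⟨h1, ?_⟩
    refine le_trans (le_of_eq ?_) (hA y.2).2
    exact h2
  set N : XX I × XX I → ℝ := fun q => ‖A (q.1.1 - q.2.1) q.2.2 q.1.2‖ * W q.1 with hN
  have hN0 : 0 ≤ N := fun q => mul_nonneg (norm_nonneg _) (hW0 _)
  have hts : ∀ y : XX I, ∑' x : XX I, N (y, x) ≤ α * W y := by
    intro y
    have h1 : ∑' x : XX I, N (y, x) = (∑' x : XX I, ‖A (y.1 - x.1) x.2 y.2‖) * W y := by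
      change ∑' x : XX I, ‖A (y.1 - x.1) x.2 y.2‖ * W y = _
      exact tsum_mul_right
    rw [h1]
    exact mul_le_mul_of_nonneg_right (hin y).2 (hW0 y)
  have hNs : Summable N := by
    rw [summable_prod_of_nonneg hN0]
    refine ⟨fun y => ?_, ?_⟩
    · change Summable fun x : XX I => ‖A (y.1 - x.1) x.2 y.2‖ * W y
      exact (hin y).1.mul_right _
    exact Summable.of_nonneg_of_le (fun y => tsum_nonneg fun x => hN0 _) hts (hW.mul_left α)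
  have hNt : ∑' q, N q ≤ α * ∑' y, W y := by
    rw [hNs.tsum_prod, ← tsum_mul_left]
    exact hNs.prod.tsum_le_tsum hts (hW.mul_left α)
  have hNs' : Summable fun p : XX I × XX I => N p.swap := hNs.prod_symm
  have hNt' : ∑' p : XX I × XX I, N p.swap = ∑' q, N q :=
    (Equiv.prodComm (XX I) (XX I)).tsum_eq N
  have hb : ∀ p : XX I × XX I, ‖A (p.2.1 - p.1.1) p.1.2 p.2.2 * G p‖ ≤ N p.swap := by
    intro p
    rw [norm_mul]
    exact mul_le_mul_of_nonneg_left (hG p) (norm_nonneg _)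
  have hsn : Summable fun p : XX I × XX I => ‖A (p.2.1 - p.1.1) p.1.2 p.2.2 * G p‖ :=
    Summable.of_nonneg_of_le (fun p => norm_nonneg _) hb hNs'
  refine ⟨hsn.of_norm, ?_⟩
  refine (norm_tsum_le_tsum_norm hsn).trans ((hsn.tsum_le_tsum hb hNs').trans ?_)
  rw [hNt']
  exact hNt

omit [Fintype I] in
private theorem qc_conv' {A : ℤ → I → I → ℂ} {α : ℝ}
    (hA : ∀ j, (Summable fun p : ℤ × I => ‖A p.1 p.2 j‖) ∧ ∑' p : ℤ × I, ‖A p.1 p.2 j‖ ≤ α)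
    (hs : ∀ t i j, A (-t) j i = A t i j)
    {W : XX I → ℝ} (hW0 : ∀ y, 0 ≤ W y) (hW : Summable W) {G : XX I × XX I → ℂ}
    (hG : ∀ p, ‖G p‖ ≤ W p.1) :
    (Summable fun p : XX I × XX I => A (p.2.1 - p.1.1) p.1.2 p.2.2 * G p) ∧
    ‖∑' p : XX I × XX I, A (p.2.1 - p.1.1) p.1.2 p.2.2 * G p‖ ≤ α * ∑' y, W y := by
  have h := qc_conv hA hW0 hW (G := fun p => G p.swap) (fun p => hG p.swap)
  have he : (fun p : XX I × XX I => A (p.2.1 - p.1.1) p.1.2 p.2.2 * G p) =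
      (fun p : XX I × XX I => A (p.2.1 - p.1.1) p.1.2 p.2.2 * G p.swap) ∘
        (Equiv.prodComm (XX I) (XX I)) := by
    funext p
    have h1 : A (p.2.1 - p.1.1) p.1.2 p.2.2 = A (p.1.1 - p.2.1) p.2.2 p.1.2 := by
      rw [← hs (p.1.1 - p.2.1), neg_sub]
    simp only [Function.comp_apply, Equiv.prodComm_apply, Prod.swap_swap, Prod.fst_swap,
      Prod.snd_swap]
    rw [h1]
  constructor
  · rw [he]
    exact (Equiv.prodComm (XX I) (XX I)).summable_iff.2 h.1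
  · rw [he]
    have h2 := (Equiv.prodComm (XX I) (XX I)).tsum_eq
      fun p : XX I × XX I => A (p.2.1 - p.1.1) p.1.2 p.2.2 * G p.swap
    have h3 : ∑' p, ((fun p : XX I × XX I => A (p.2.1 - p.1.1) p.1.2 p.2.2 * G p.swap) ∘
        (Equiv.prodComm (XX I) (XX I))) p =
        ∑' p : XX I × XX I, A (p.2.1 - p.1.1) p.1.2 p.2.2 * G p.swap := h2
    rw [h3]
    exact h.2

/-- Sums over the states of functions of the displacement. -/
private theorem qc_fst {v : ℤ → ℝ} (hv0 : ∀ u, 0 ≤ v u) (hv : Summable v) :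
    (Summable fun x : XX I => v x.1) ∧
    ∑' x : XX I, v x.1 = Fintype.card I * ∑' u, v u := by
  have h1 : Summable fun x : XX I => v x.1 := by
    rw [summable_prod_of_nonneg (fun x => hv0 x.1)]
    refine ⟨fun u => Summable.of_finite, ?_⟩
    simp only [tsum_fintype, Finset.sum_const, nsmul_eq_mul]
    exact hv.mul_left _
  refine ⟨h1, ?_⟩
  rw [h1.tsum_prod]
  simp only [tsum_fintype, Finset.sum_const, nsmul_eq_mul, Finset.card_univ]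
  rw [tsum_mul_left]

private theorem qc_geo {r : ℝ} (hr0 : 0 ≤ r) (hr : r < 1) :
    Summable fun x : XX I => r ^ x.1.natAbs := by
  have h1 : Summable fun n : ℕ => r ^ n := summable_geometric_of_lt_one hr0 hr
  have h2 : Summable fun u : ℤ => r ^ u.natAbs := by
    refine Summable.of_nat_of_neg ?_ ?_
    · simpa using h1
    · simpa using h1
  exact (qc_fst (fun u => by positivity) h2).1

private theorem qc_F1 (hκ : κ.Ok) (j : I) :
    Summable fun p : ℤ × I => 4 ^ p.1.natAbs * |κ.F1 p.1 p.2 j| := by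
  obtain ⟨C, hC, h⟩ := hκ.F_exp
  obtain ⟨h1, -, h2, -⟩ := h (1 / 10 : ℂ) (by norm_num) j
  refine Summable.of_nonneg_of_le (fun p => by positivity) (fun p => ?_) ((h1.add h2).mul_left 10)
  set D : ℂ := κ.Fs (1 / 10) p.1 p.2 j - κ.F0 p.1 p.2 j with hD
  have e1 : ‖(1 / 10 : ℂ) * κ.F1 p.1 p.2 j‖ ≤ ‖D‖ + ‖D + 1 / 10 * κ.F1 p.1 p.2 j‖ := by
    have e2 : (1 / 10 : ℂ) * κ.F1 p.1 p.2 j = (D + 1 / 10 * κ.F1 p.1 p.2 j) - D := by ring
    calc ‖(1 / 10 : ℂ) * κ.F1 p.1 p.2 j‖ = ‖(D + 1 / 10 * κ.F1 p.1 p.2 j) - D‖ := by rw [← e2]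
      _ ≤ ‖D + 1 / 10 * κ.F1 p.1 p.2 j‖ + ‖D‖ := norm_sub_le _ _
      _ = _ := by ring
  have e3 : ‖(1 / 10 : ℂ) * κ.F1 p.1 p.2 j‖ = 1 / 10 * |κ.F1 p.1 p.2 j| := by
    rw [norm_mul, norm_real, Real.norm_eq_abs]
    norm_num
  rw [e3] at e1
  have e4 : (0 : ℝ) < 4 ^ p.1.natAbs := by positivity
  calc 4 ^ p.1.natAbs * |κ.F1 p.1 p.2 j|
      = 4 ^ p.1.natAbs * (10 * (1 / 10 * |κ.F1 p.1 p.2 j|)) := by ring
    _ ≤ 4 ^ p.1.natAbs * (10 * (‖D‖ + ‖D + 1 / 10 * κ.F1 p.1 p.2 j‖)) :=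
        mul_le_mul_of_nonneg_left (mul_le_mul_of_nonneg_left e1 (by norm_num)) e4.le
    _ = _ := by ring

private theorem qc_h (hκ : κ.Ok) : ∃ H : ℝ, 0 < H ∧ ∀ i, κ.h i ≤ H := by
  obtain ⟨i₀, -⟩ := hκ.dead_ne
  have : Nonempty I := ⟨i₀⟩
  obtain ⟨i, hi⟩ := Finite.exists_max κ.h
  exact ⟨κ.h i, hκ.h_pos i, hi⟩

/-- The change of variables. -/
private def qcE (I : Type) : (I × (ℤ × I)) × ℤ ≃ XX I × XX I where
  toFun q := ((q.2, q.1.2.2), (q.2 + q.1.2.1, q.1.1))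
  invFun p := ((p.2.2, (p.2.1 - p.1.1, p.1.2)), p.1.1)
  left_inv q := by
    obtain ⟨⟨j, t, i⟩, u⟩ := q
    simp
  right_inv p := by
    obtain ⟨⟨u, i⟩, v, j⟩ := p
    simp

private theorem qc_main (hκ : κ.Ok) : ∃ B : ℝ, 0 ≤ B ∧ ∀ w : ℂ, InK w →
    (Summable fun p : XX I × XX I => (κ.F1 (p.2.1 - p.1.1) p.1.2 p.2.2 : ℂ) *
      (κ.h p.1.2 * κ.h p.2.2 * (phi w p.1.1 * phi w p.2.1))) ∧
    ‖∑' p : XX I × XX I, (κ.F1 (p.2.1 - p.1.1) p.1.2 p.2.2 : ℂ) *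
      (κ.h p.1.2 * κ.h p.2.2 * (phi w p.1.1 * phi w p.2.1)) - κ.NN / w‖ ≤ B := by
  classical
  obtain ⟨H, hH0, hH⟩ := qc_h hκ
  obtain ⟨Cφ, hCφ, hφ⟩ := phi_corr
  have hF := qc_F1 hκ
  set a : I × (ℤ × I) → ℝ := fun c => κ.F1 c.2.1 c.2.2 c.1 * (κ.h c.2.2 * κ.h c.1) with ha
  have hhh : ∀ i j, 0 ≤ κ.h i * κ.h j ∧ κ.h i * κ.h j ≤ H * H := fun i j =>
    ⟨mul_nonneg (hκ.h_pos i).le (hκ.h_pos j).le,
      mul_le_mul (hH i) (hH j) (hκ.h_pos j).le hH0.le⟩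
  have hpow : ∀ n : ℕ, (1 : ℝ) + n ≤ 4 ^ n := by
    intro n
    have h1 : 1 + (n : ℝ) * 3 ≤ (1 + 3) ^ n := one_add_mul_le_pow (by norm_num) n
    have h2 : (0 : ℝ) ≤ n := Nat.cast_nonneg n
    norm_num at h1
    linarith
  have hb : Summable fun c : I × (ℤ × I) => |a c| * (1 + (c.2.1.natAbs : ℝ)) := by
    rw [summable_prod_of_nonneg (fun c => by positivity)]
    refine ⟨fun j => ?_, Summable.of_finite⟩
    refine Summable.of_nonneg_of_le (fun p => by positivity) (fun p => ?_)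
      ((hF j).mul_left (H * H))
    have e1 : |a (j, p)| ≤ |κ.F1 p.1 p.2 j| * (H * H) := by
      rw [ha]
      simp only
      rw [abs_mul, abs_of_nonneg (hhh _ _).1]
      exact mul_le_mul_of_nonneg_left (hhh _ _).2 (abs_nonneg _)
    calc |a (j, p)| * (1 + (p.1.natAbs : ℝ))
        ≤ |κ.F1 p.1 p.2 j| * (H * H) * 4 ^ p.1.natAbs :=
          mul_le_mul e1 (hpow _) (by positivity) (by positivity)
      _ = _ := by ring
  have hab : Summable fun c : I × (ℤ × I) => |a c| := by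
    refine Summable.of_nonneg_of_le (fun c => abs_nonneg _) (fun c => ?_) hb
    have : (0 : ℝ) ≤ (c.2.1.natAbs : ℝ) := Nat.cast_nonneg _
    exact le_mul_of_one_le_right (abs_nonneg _) (by linarith)
  have haR : Summable a := hab.of_abs
  have hNN : κ.NN = ∑' c, a c := by
    rw [haR.tsum_prod, tsum_fintype]
    unfold NN Nj
    refine Finset.sum_congr rfl fun j _ => ?_
    rw [← tsum_mul_left]
    refine tsum_congr fun p => ?_
    rw [ha]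
    simp only
    ring
  refine ⟨Cφ * ∑' c, |a c| * (1 + (c.2.1.natAbs : ℝ)),
    mul_nonneg hCφ (tsum_nonneg fun c => by positivity), fun w hw => ?_⟩
  -- summability
  have hsum : Summable fun p : XX I × XX I => (κ.F1 (p.2.1 - p.1.1) p.1.2 p.2.2 : ℂ) *
      (κ.h p.1.2 * κ.h p.2.2 * (phi w p.1.1 * phi w p.2.1)) := by
    have hW := (qc_fst (I := I) (fun u => norm_nonneg (phi w u)) (phi_sums hw).1).1
    refine (qc_conv (A := fun t i j => (κ.F1 t i j : ℂ))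
      (α := ∑ j, ∑' p : ℤ × I, ‖(κ.F1 p.1 p.2 j : ℂ)‖) (fun j => ⟨?_, ?_⟩)
      (W := fun y : XX I => H * H * ‖phi w y.1‖) (fun y => by positivity) (hW.mul_left _)
      (fun p => ?_)).1
    · refine Summable.of_nonneg_of_le (fun p => norm_nonneg _) (fun p => ?_) (hF j)
      rw [norm_real, Real.norm_eq_abs]
      exact le_mul_of_one_le_left (abs_nonneg _) (one_le_pow₀ (by norm_num))
    · exact Finset.single_le_sum (f := fun j => ∑' p : ℤ × I, ‖(κ.F1 p.1 p.2 j : ℂ)‖)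
        (fun j _ => tsum_nonneg fun p => norm_nonneg _) (Finset.mem_univ j)
    · rw [norm_mul, norm_mul, norm_mul, norm_real, norm_real,
        Real.norm_of_nonneg (hκ.h_pos _).le, Real.norm_of_nonneg (hκ.h_pos _).le]
      refine mul_le_mul (hhh _ _).2 ?_ (by positivity) (by positivity)
      exact mul_le_of_le_one_left (norm_nonneg _) (norm_phi hw _).2
  refine ⟨hsum, ?_⟩
  -- the value
  set f : XX I × XX I → ℂ := fun p => (κ.F1 (p.2.1 - p.1.1) p.1.2 p.2.2 : ℂ) *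
      (κ.h p.1.2 * κ.h p.2.2 * (phi w p.1.1 * phi w p.2.1)) with hf
  have hfE : ∀ (c : I × (ℤ × I)) (u : ℤ), f (qcE I (c, u)) =
      (a c : ℂ) * (phi w u * phi w (u + c.2.1)) := by
    intro c u
    rw [hf, ha]
    simp only [qcE, Equiv.coe_fn_mk, add_sub_cancel_left]
    push_cast
    ring
  have hfs : Summable fun q => f (qcE I q) := (qcE I).summable_iff.2 hsum
  have hT : ∑' p, f p = ∑' c : I × (ℤ × I), (a c : ℂ) * ∑' u, phi w u * phi w (u + c.2.1) := by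
    rw [← (qcE I).tsum_eq f, hfs.tsum_prod]
    refine tsum_congr fun c => ?_
    rw [← tsum_mul_left]
    exact tsum_congr fun u => hfE c u
  have hbd : ∀ c : I × (ℤ × I), ‖(a c : ℂ) * (∑' u, phi w u * phi w (u + c.2.1) - 1 / w)‖ ≤
      Cφ * (|a c| * (1 + (c.2.1.natAbs : ℝ))) := by
    intro c
    rw [norm_mul, norm_real, Real.norm_eq_abs]
    calc |a c| * ‖∑' u, phi w u * phi w (u + c.2.1) - 1 / w‖
        ≤ |a c| * (Cφ * (1 + (c.2.1.natAbs : ℝ))) :=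
          mul_le_mul_of_nonneg_left (hφ w hw _).2 (abs_nonneg _)
      _ = _ := by ring
  have hds : Summable fun c : I × (ℤ × I) =>
      ‖(a c : ℂ) * (∑' u, phi w u * phi w (u + c.2.1) - 1 / w)‖ :=
    Summable.of_nonneg_of_le (fun c => norm_nonneg _) hbd (hb.mul_left Cφ)
  have haC : Summable fun c : I × (ℤ × I) => (a c : ℂ) * (1 / w) :=
    (Complex.hasSum_ofReal.2 haR.hasSum).summable.mul_right _
  have hval : ∑' p, f p - κ.NN / w =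
      ∑' c : I × (ℤ × I), (a c : ℂ) * (∑' u, phi w u * phi w (u + c.2.1) - 1 / w) := by
    have e1 : (κ.NN : ℂ) / w = ∑' c : I × (ℤ × I), (a c : ℂ) * (1 / w) := by
      rw [tsum_mul_right, hNN, Complex.ofReal_tsum, div_eq_mul_one_div]
    have e2 : ∑' p, f p = ∑' c : I × (ℤ × I),
        ((a c : ℂ) * (∑' u, phi w u * phi w (u + c.2.1) - 1 / w) + (a c : ℂ) * (1 / w)) := by
      rw [hT]
      refine tsum_congr fun c => ?_
      ring
    rw [e1, e2, hds.of_norm.tsum_add haC, add_sub_cancel_right]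
  rw [hval]
  refine (norm_tsum_le_tsum_norm hds).trans ((hds.tsum_le_tsum hbd (hb.mul_left Cφ)).trans ?_)
  rw [tsum_mul_left]

/-- The part of the defects. -/
private theorem qc_def (hκ : κ.Ok) : ∃ C : ℝ, 0 ≤ C ∧ ∀ (s : ℂ), ‖s‖ ≤ 1 / 10 →
    ∀ (M : ℝ) (G : XX I × XX I → ℂ), 0 ≤ M → (∀ p, ‖G p‖ ≤ M) → (∀ p, ¬ κ.Al p.1 → G p = 0) →
    (Summable fun p : XX I × XX I => (κ.dS s p.1 p.2 - κ.dS 0 p.1 p.2) * G p) ∧
    ‖∑' p : XX I × XX I, (κ.dS s p.1 p.2 - κ.dS 0 p.1 p.2) * G p‖ ≤ C * ‖s‖ * M := by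
  classical
  obtain ⟨Cd, hCd, hd⟩ := hκ.dS_exp
  have hR := qc_geo (I := I) (by norm_num : (0 : ℝ) ≤ 1 / 4) (by norm_num)
  have hR0 : 0 ≤ ∑' x : XX I, (1 / 4 : ℝ) ^ x.1.natAbs := tsum_nonneg fun x => by positivity
  refine ⟨Cd * ∑' x : XX I, (1 / 4 : ℝ) ^ x.1.natAbs, mul_nonneg hCd hR0, ?_⟩
  intro s hs M G hM hG hG0
  set N : XX I × XX I → ℝ := fun p =>
    if κ.Al p.1 then ‖κ.dS s p.1 p.2 - κ.dS 0 p.1 p.2‖ * M else 0 with hN
  have hN0 : 0 ≤ N := fun p => by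
    rw [hN]
    simp only [Pi.zero_apply]
    split_ifs
    · positivity
    · exact le_rfl
  have hin : ∀ x : XX I, (Summable fun y => N (x, y)) ∧
      ∑' y, N (x, y) ≤ Cd * ‖s‖ * M * (1 / 4 : ℝ) ^ x.1.natAbs := by
    intro x
    by_cases hx : κ.Al x
    · obtain ⟨-, -, h1, h2, -⟩ := hd s hs x hx
      have e1 : ∀ y, ‖κ.dS s x y - κ.dS 0 x y‖ ≤
          4 ^ y.1.natAbs * ‖κ.dS s x y - κ.dS 0 x y‖ := fun y =>
        le_mul_of_one_le_left (norm_nonneg _) (one_le_pow₀ (by norm_num))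
      have e2 : Summable fun y : XX I => ‖κ.dS s x y - κ.dS 0 x y‖ :=
        Summable.of_nonneg_of_le (fun y => norm_nonneg _) e1 h1
      have e3 := (e2.tsum_le_tsum e1 h1).trans h2
      have e4 : (fun y => N (x, y)) = fun y => ‖κ.dS s x y - κ.dS 0 x y‖ * M := by
        funext y
        rw [hN]
        simp only
        rw [if_pos hx]
      rw [e4]
      refine ⟨e2.mul_right _, ?_⟩
      rw [tsum_mul_right]
      calc (∑' y, ‖κ.dS s x y - κ.dS 0 x y‖) * M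
          ≤ Cd * ‖s‖ * (1 / 4 : ℝ) ^ x.1.natAbs * M := mul_le_mul_of_nonneg_right e3 hM
        _ = _ := by ring
    · have e4 : (fun y => N (x, y)) = fun _ => 0 := by
        funext y
        rw [hN]
        simp only
        rw [if_neg hx]
      rw [e4]
      refine ⟨summable_zero, ?_⟩
      rw [tsum_zero]
      positivity
  have hNs : Summable N := by
    rw [summable_prod_of_nonneg hN0]
    exact ⟨fun x => (hin x).1, Summable.of_nonneg_of_le (fun x => tsum_nonneg fun y => hN0 _)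
      (fun x => (hin x).2) (hR.mul_left _)⟩
  have hb : ∀ p : XX I × XX I, ‖(κ.dS s p.1 p.2 - κ.dS 0 p.1 p.2) * G p‖ ≤ N p := by
    intro p
    rw [hN, norm_mul]
    simp only
    split_ifs with hx
    · exact mul_le_mul_of_nonneg_left (hG p) (norm_nonneg _)
    · rw [hG0 p hx, norm_zero, mul_zero]
  have hsn : Summable fun p : XX I × XX I => ‖(κ.dS s p.1 p.2 - κ.dS 0 p.1 p.2) * G p‖ :=
    Summable.of_nonneg_of_le (fun p => norm_nonneg _) hb hNs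
  refine ⟨hsn.of_norm, ?_⟩
  refine (norm_tsum_le_tsum_norm hsn).trans ((hsn.tsum_le_tsum hb hNs).trans ?_)
  rw [hNs.tsum_prod]
  refine (hNs.prod.tsum_le_tsum (fun x => (hin x).2) (hR.mul_left _)).trans (le_of_eq ?_)
  rw [tsum_mul_left]
  ring

/-- With `s = aa w²`: for alive `x`, `y` `K0 - Ks s = - (Fs s - F0) - (dS s - dS 0)`, `m = 0` at the dead states. The part of
`dS` is `O(‖s‖)` (`dS_exp`). In the part of `Fs - F0` replace `m x m y` by `β² h x h y` (error `O(‖s‖)`), then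
`Fs - F0 = - s F1 + O(‖s‖²)` (`F_exp`) and `∑_u phi u phi (u + t) = 1 / w + O(1 + |t|)` (`phi_corr`); total
`s β² NN / w + O(‖s‖) + O(‖s‖² / ‖w‖)`, `s = aa w²`. -/
theorem Ok.quad_c (hκ : κ.Ok) {β r C : ℝ} (hA : Asy κ m β r C) : ∃ C' w0 : ℝ, 0 ≤ C' ∧ 0 < w0 ∧
    ∀ w : ℂ, InK w → ‖w‖ < w0 →
      (Summable fun p : XX I × XX I => (κ.K0 p.1 p.2 - κ.Ks (κ.aa * w ^ 2) p.1 p.2 : ℂ) *
        (m p.1 * phi w p.1.1) * (m p.2 * phi w p.2.1)) ∧
      ‖∑' p : XX I × XX I, (κ.K0 p.1 p.2 - κ.Ks (κ.aa * w ^ 2) p.1 p.2 : ℂ) *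
        (m p.1 * phi w p.1.1) * (m p.2 * phi w p.2.1) - κ.aa * β ^ 2 * κ.NN * w‖ ≤
        C' * ‖w‖ ^ 2 := by
  classical
  obtain ⟨H, hH0, hH⟩ := qc_h hκ
  obtain ⟨CF, hCF, hF⟩ := hκ.F_exp
  obtain ⟨Cd, hCd, hd⟩ := qc_def hκ
  obtain ⟨CdS, -, hdS⟩ := hκ.dS_exp
  obtain ⟨B, hB, h3⟩ := qc_main hκ
  obtain ⟨-, -, haa, -, -⟩ := hκ.V_pos
  have hβ := hA.β_pos
  have hC := hA.C_nn
  have hr0 : 0 ≤ r := by linarith [hA.r_ge]
  -- bounds for `m`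
  set Mm : ℝ := β * H + C with hMm
  have hMm0 : 0 ≤ Mm := by positivity
  have hm : ∀ x, |m x| ≤ Mm := by
    intro x
    have e1 := hA.bd x
    have e2 : C * r ^ x.1.natAbs ≤ C := mul_le_of_le_one_right hC (pow_le_one₀ hr0 hA.r_lt.le)
    have e3 : |m x| ≤ |m x - β * κ.h x.2| + |β * κ.h x.2| := by
      have := abs_add_le (m x - β * κ.h x.2) (β * κ.h x.2)
      rwa [sub_add_cancel] at this
    have e4 : |β * κ.h x.2| ≤ β * H := by
      rw [abs_of_nonneg (mul_nonneg hβ.le (hκ.h_pos _).le)]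
      exact mul_le_mul_of_nonneg_left (hH _) hβ.le
    linarith
  have hR := qc_geo (I := I) hr0 hA.r_lt
  set R : ℝ := ∑' x : XX I, r ^ x.1.natAbs with hRd
  have hR0 : 0 ≤ R := tsum_nonneg fun x => by positivity
  set nI : ℝ := (Fintype.card I : ℝ) with hnI
  have hnI0 : 0 ≤ nI := Nat.cast_nonneg _
  refine ⟨κ.aa * (CF * (Mm * C * R) + CF * (β * H * C * R) + Cd * (Mm * Mm) + β ^ 2 * B) +
    κ.aa ^ 2 * (CF * (β ^ 2 * (H * H) * (nI * 8))), 1 / (κ.aa + 1), by positivity, by positivity,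
    fun w hw hw0 => ?_⟩
  obtain ⟨hwne, -, hw10⟩ := id hw
  set s : ℂ := κ.aa * w ^ 2 with hsd
  have hsn : ‖s‖ = κ.aa * ‖w‖ ^ 2 := by
    rw [hsd, norm_mul, norm_pow, norm_real, Real.norm_of_nonneg haa.le]
  have hs10 : ‖s‖ ≤ 1 / 10 := by
    rw [hsn]
    have e1 : κ.aa * ‖w‖ ≤ 1 := by
      rw [lt_div_iff₀ (by positivity)] at hw0
      nlinarith [norm_nonneg w]
    calc κ.aa * ‖w‖ ^ 2 = (κ.aa * ‖w‖) * ‖w‖ := by ring
      _ ≤ 1 * (1 / 10) := mul_le_mul e1 hw10 (norm_nonneg _) zero_le_one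
      _ = _ := one_mul _
  have hφ1 : ∀ u, ‖phi w u‖ ≤ 1 := fun u => (norm_phi hw u).2
  have hφφ : ∀ u v, ‖phi w u * phi w v‖ ≤ 1 := fun u v => by
    rw [norm_mul]
    exact mul_le_one₀ (hφ1 u) (norm_nonneg _) (hφ1 v)
  -- the kernels
  set E1 : ℤ → I → I → ℂ := fun t i j => κ.Fs s t i j - κ.F0 t i j with hE1
  set E2 : ℤ → I → I → ℂ := fun t i j => κ.Fs s t i j - κ.F0 t i j + s * κ.F1 t i j with hE2
  have hle4 : ∀ (n : ℕ) (a : ℝ), 0 ≤ a → a ≤ 4 ^ n * a := fun n a ha =>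
    le_mul_of_one_le_left ha (one_le_pow₀ (by norm_num))
  have hE1s : ∀ j, (Summable fun p : ℤ × I => ‖E1 p.1 p.2 j‖) ∧
      ∑' p : ℤ × I, ‖E1 p.1 p.2 j‖ ≤ CF * ‖s‖ := by
    intro j
    obtain ⟨a1, a2, -, -⟩ := hF s hs10 j
    have e := fun p : ℤ × I => hle4 p.1.natAbs ‖E1 p.1 p.2 j‖ (norm_nonneg _)
    have e2 : Summable fun p : ℤ × I => ‖E1 p.1 p.2 j‖ :=
      Summable.of_nonneg_of_le (fun p => norm_nonneg _) e a1
    exact ⟨e2, (e2.tsum_le_tsum e a1).trans a2⟩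
  have hE2s : ∀ j, (Summable fun p : ℤ × I => ‖E2 p.1 p.2 j‖) ∧
      ∑' p : ℤ × I, ‖E2 p.1 p.2 j‖ ≤ CF * ‖s‖ ^ 2 := by
    intro j
    obtain ⟨-, -, a1, a2⟩ := hF s hs10 j
    have e := fun p : ℤ × I => hle4 p.1.natAbs ‖E2 p.1 p.2 j‖ (norm_nonneg _)
    have e2 : Summable fun p : ℤ × I => ‖E2 p.1 p.2 j‖ :=
      Summable.of_nonneg_of_le (fun p => norm_nonneg _) e a1
    exact ⟨e2, (e2.tsum_le_tsum e a1).trans a2⟩
  have hE1sym : ∀ t i j, E1 (-t) j i = E1 t i j := by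
    intro t i j
    rw [hE1]
    simp only
    rw [(hκ.Fs_prop s t j i).1, (hκ.Fs_prop s t i j).2.1, (hκ.F0_prop t j i).2.1,
      (hκ.F0_prop t i j).2.2]
  -- the pieces
  obtain ⟨sa, ta⟩ := qc_conv' hE1s hE1sym (W := fun x : XX I => Mm * C * r ^ x.1.natAbs)
    (fun x => by positivity) (hR.mul_left _)
    (G := fun p => ((m p.1 - β * κ.h p.1.2 : ℝ) : ℂ) * (m p.2 : ℂ) *
      (phi w p.1.1 * phi w p.2.1)) (fun p => by
      rw [norm_mul, norm_mul, norm_real, norm_real, Real.norm_eq_abs, Real.norm_eq_abs]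
      calc |m p.1 - β * κ.h p.1.2| * |m p.2| * ‖phi w p.1.1 * phi w p.2.1‖
          ≤ C * r ^ p.1.1.natAbs * Mm * 1 :=
            mul_le_mul (mul_le_mul (hA.bd _) (hm _) (abs_nonneg _) (by positivity)) (hφφ _ _)
              (norm_nonneg _) (by positivity)
        _ = _ := by ring)
  obtain ⟨sb, tb⟩ := qc_conv hE1s (W := fun y : XX I => β * H * C * r ^ y.1.natAbs)
    (fun x => by positivity) (hR.mul_left _)
    (G := fun p => ((β * κ.h p.1.2 : ℝ) : ℂ) * ((m p.2 - β * κ.h p.2.2 : ℝ) : ℂ) *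
      (phi w p.1.1 * phi w p.2.1)) (fun p => by
      rw [norm_mul, norm_mul, norm_real, norm_real, Real.norm_eq_abs, Real.norm_eq_abs,
        abs_of_nonneg (mul_nonneg hβ.le (hκ.h_pos _).le)]
      calc β * κ.h p.1.2 * |m p.2 - β * κ.h p.2.2| * ‖phi w p.1.1 * phi w p.2.1‖
          ≤ β * H * (C * r ^ p.2.1.natAbs) * 1 :=
            mul_le_mul (mul_le_mul (mul_le_mul_of_nonneg_left (hH _) hβ.le) (hA.bd _)
              (abs_nonneg _) (by positivity)) (hφφ _ _) (norm_nonneg _) (by positivity)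
        _ = _ := by ring)
  have hφs := phi_sums hw
  have hφI := qc_fst (I := I) (fun u => norm_nonneg (phi w u)) hφs.1
  obtain ⟨sc, tc⟩ := qc_conv hE2s (W := fun y : XX I => β ^ 2 * (H * H) * ‖phi w y.1‖)
    (fun x => by positivity) (hφI.1.mul_left _)
    (G := fun p => ((β ^ 2 * (κ.h p.1.2 * κ.h p.2.2) : ℝ) : ℂ) *
      (phi w p.1.1 * phi w p.2.1)) (fun p => by
      rw [norm_mul, norm_mul, norm_real, Real.norm_eq_abs, abs_of_nonneg (mul_nonneg (by positivity)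
        (mul_nonneg (hκ.h_pos _).le (hκ.h_pos _).le))]
      refine mul_le_mul (mul_le_mul_of_nonneg_left (mul_le_mul (hH _) (hH _) (hκ.h_pos _).le hH0.le)
        (by positivity)) ?_ (by positivity) (by positivity)
      exact mul_le_of_le_one_left (norm_nonneg _) (hφ1 _))
  obtain ⟨sd, td⟩ := h3 w hw
  obtain ⟨se, te⟩ := hd s hs10 (Mm * Mm)
    (fun p => (m p.1 : ℂ) * (m p.2 : ℂ) * (phi w p.1.1 * phi w p.2.1)) (by positivity) (fun p => by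
      rw [norm_mul, norm_mul, norm_real, norm_real, Real.norm_eq_abs, Real.norm_eq_abs]
      calc |m p.1| * |m p.2| * ‖phi w p.1.1 * phi w p.2.1‖ ≤ Mm * Mm * 1 :=
            mul_le_mul (mul_le_mul (hm _) (hm _) (abs_nonneg _) hMm0) (hφφ _ _)
              (norm_nonneg _) (by positivity)
        _ = _ := mul_one _) (fun p hp => by
      rw [hA.isM.dead _ hp, ofReal_zero, zero_mul, zero_mul])
  -- the identity
  have hid : ∀ p : XX I × XX I, (κ.K0 p.1 p.2 - κ.Ks s p.1 p.2 : ℂ) *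
      (m p.1 * phi w p.1.1) * (m p.2 * phi w p.2.1) =
      -(E1 (p.2.1 - p.1.1) p.1.2 p.2.2 * (((m p.1 - β * κ.h p.1.2 : ℝ) : ℂ) * (m p.2 : ℂ) *
        (phi w p.1.1 * phi w p.2.1)) +
      E1 (p.2.1 - p.1.1) p.1.2 p.2.2 * (((β * κ.h p.1.2 : ℝ) : ℂ) *
        ((m p.2 - β * κ.h p.2.2 : ℝ) : ℂ) * (phi w p.1.1 * phi w p.2.1)) +
      E2 (p.2.1 - p.1.1) p.1.2 p.2.2 * (((β ^ 2 * (κ.h p.1.2 * κ.h p.2.2) : ℝ) : ℂ) *
        (phi w p.1.1 * phi w p.2.1)) - s * β ^ 2 * ((κ.F1 (p.2.1 - p.1.1) p.1.2 p.2.2 : ℂ) *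
        (κ.h p.1.2 * κ.h p.2.2 * (phi w p.1.1 * phi w p.2.1)))) -
      (κ.dS s p.1 p.2 - κ.dS 0 p.1 p.2) *
        ((m p.1 : ℂ) * (m p.2 : ℂ) * (phi w p.1.1 * phi w p.2.1)) := by
    intro p
    have e1 : (κ.K0 p.1 p.2 - κ.Ks s p.1 p.2 : ℂ) * ((m p.1 : ℂ) * (m p.2 : ℂ)) =
        -(E1 (p.2.1 - p.1.1) p.1.2 p.2.2 * ((m p.1 : ℂ) * (m p.2 : ℂ))) -
        (κ.dS s p.1 p.2 - κ.dS 0 p.1 p.2) * ((m p.1 : ℂ) * (m p.2 : ℂ)) := by
      by_cases hx : κ.Al p.1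
      · by_cases hy : κ.Al p.2
        · have a1 := (hdS s hs10 p.1 hx).2.2.2.2 p.2 hy
          have a2 := (hdS 0 (by rw [norm_zero]; norm_num) p.1 hx).2.2.2.2 p.2 hy
          rw [← Ok.Ks_zero p.1 p.2, a1, a2, (hκ.Fs_prop 0 _ _ _).2.2, hE1]
          ring
        · rw [hA.isM.dead _ hy, ofReal_zero]
          ring
      · rw [hA.isM.dead _ hx, ofReal_zero]
        ring
    have e2 : (κ.K0 p.1 p.2 - κ.Ks s p.1 p.2 : ℂ) * (m p.1 * phi w p.1.1) * (m p.2 * phi w p.2.1) =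
        (κ.K0 p.1 p.2 - κ.Ks s p.1 p.2 : ℂ) * ((m p.1 : ℂ) * (m p.2 : ℂ)) *
          (phi w p.1.1 * phi w p.2.1) := by ring
    rw [e2, e1, hE1, hE2]
    push_cast
    ring
  have htot := ((((sa.hasSum.add sb.hasSum).add sc.hasSum).sub
    (sd.hasSum.mul_left (s * (β : ℂ) ^ 2))).neg).sub se.hasSum
  have hfun : (fun p : XX I × XX I => (κ.K0 p.1 p.2 - κ.Ks s p.1 p.2 : ℂ) *
      (m p.1 * phi w p.1.1) * (m p.2 * phi w p.2.1)) = _ := funext hid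
  rw [← hfun] at htot
  refine ⟨htot.summable, ?_⟩
  rw [htot.tsum_eq]
  set Ta := ∑' p : XX I × XX I, E1 (p.2.1 - p.1.1) p.1.2 p.2.2 *
    (((m p.1 - β * κ.h p.1.2 : ℝ) : ℂ) * (m p.2 : ℂ) * (phi w p.1.1 * phi w p.2.1))
  set Tb := ∑' p : XX I × XX I, E1 (p.2.1 - p.1.1) p.1.2 p.2.2 * (((β * κ.h p.1.2 : ℝ) : ℂ) *
    ((m p.2 - β * κ.h p.2.2 : ℝ) : ℂ) * (phi w p.1.1 * phi w p.2.1))
  set Tc := ∑' p : XX I × XX I, E2 (p.2.1 - p.1.1) p.1.2 p.2.2 *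
    (((β ^ 2 * (κ.h p.1.2 * κ.h p.2.2) : ℝ) : ℂ) * (phi w p.1.1 * phi w p.2.1))
  set Td := ∑' p : XX I × XX I, (κ.F1 (p.2.1 - p.1.1) p.1.2 p.2.2 : ℂ) *
    (κ.h p.1.2 * κ.h p.2.2 * (phi w p.1.1 * phi w p.2.1))
  set Te := ∑' p : XX I × XX I, (κ.dS s p.1 p.2 - κ.dS 0 p.1 p.2) *
    ((m p.1 : ℂ) * (m p.2 : ℂ) * (phi w p.1.1 * phi w p.2.1))
  have hsw : (κ.aa : ℂ) * β ^ 2 * κ.NN * w = s * β ^ 2 * (κ.NN / w) := by
    rw [hsd]
    field_simp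
  have hfin : -(Ta + Tb + Tc - s * β ^ 2 * Td) - Te - κ.aa * β ^ 2 * κ.NN * w =
      s * β ^ 2 * (Td - κ.NN / w) - Ta - Tb - Tc - Te := by
    rw [hsw]
    ring
  rw [hfin]
  have n1 : ‖s * β ^ 2 * (Td - κ.NN / w)‖ ≤ ‖s‖ * β ^ 2 * B := by
    rw [norm_mul, norm_mul, norm_pow, norm_real, Real.norm_of_nonneg hβ.le]
    exact mul_le_mul_of_nonneg_left td (by positivity)
  have n2 : ‖Ta‖ ≤ CF * ‖s‖ * (Mm * C * R) := by
    refine ta.trans (le_of_eq ?_)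
    rw [tsum_mul_left]
  have n3 : ‖Tb‖ ≤ CF * ‖s‖ * (β * H * C * R) := by
    refine tb.trans (le_of_eq ?_)
    rw [tsum_mul_left]
  have n4 : ‖Tc‖ ≤ CF * ‖s‖ ^ 2 * (β ^ 2 * (H * H) * (nI * (8 / ‖w‖))) := by
    refine tc.trans ?_
    rw [tsum_mul_left, hφI.2]
    have := hφs.2.1
    gcongr
  have hwn : 0 < ‖w‖ := norm_pos_iff.2 hwne
  have n4' : CF * ‖s‖ ^ 2 * (β ^ 2 * (H * H) * (nI * (8 / ‖w‖))) ≤
      κ.aa ^ 2 * (CF * (β ^ 2 * (H * H) * (nI * 8))) * ‖w‖ ^ 2 := by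
    rw [hsn]
    have e1 : CF * (κ.aa * ‖w‖ ^ 2) ^ 2 * (β ^ 2 * (H * H) * (nI * (8 / ‖w‖))) =
        κ.aa ^ 2 * (CF * (β ^ 2 * (H * H) * (nI * 8))) * ‖w‖ ^ 2 * ‖w‖ := by
      field_simp
    rw [e1]
    exact mul_le_of_le_one_right (by positivity) (hw10.trans (by norm_num))
  calc ‖s * β ^ 2 * (Td - κ.NN / w) - Ta - Tb - Tc - Te‖
      ≤ ‖s * β ^ 2 * (Td - κ.NN / w)‖ + ‖Ta‖ + ‖Tb‖ + ‖Tc‖ + ‖Te‖ := by
        refine (norm_sub_le _ _).trans (add_le_add ?_ le_rfl)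
        refine (norm_sub_le _ _).trans (add_le_add ?_ le_rfl)
        refine (norm_sub_le _ _).trans (add_le_add ?_ le_rfl)
        exact norm_sub_le _ _
    _ ≤ ‖s‖ * β ^ 2 * B + CF * ‖s‖ * (Mm * C * R) + CF * ‖s‖ * (β * H * C * R) +
        κ.aa ^ 2 * (CF * (β ^ 2 * (H * H) * (nI * 8))) * ‖w‖ ^ 2 + Cd * ‖s‖ * (Mm * Mm) := by
        linarith
    _ = _ := by
        rw [hsn]
        ring

end Slb

end Pool.Agent.KSlab
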