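import Pool.Agent.KSlab.QuadA
import Pool.Agent.KSlab.QuadB
import Pool.Agent.KSlab.QuadC
import Pool.Agent.KSlab.Decay
import Pool.Agent.KSlab.BetaP

/-! SL34: the square root singularity of the generating function. -/

set_option autoImplicit false

open Complex Set Filter Topology

namespace Pool.Agent.KSlab

namespace Slb

variable {I : Type} [Fintype I] {κ : Slb I} {m : XX I → ℝ}

/-- The critical measure is bounded. -/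
private theorem m_bd {β r C : ℝ} (hκ : κ.Ok) (hA : Asy κ m β r C) :
    ∃ B : ℝ, 0 ≤ B ∧ ∀ x, |m x| ≤ B := by
  have hh : ∀ i, κ.h i ≤ ∑ j, κ.h j := fun i =>
    Finset.single_le_sum (fun j _ => (hκ.h_pos j).le) (Finset.mem_univ i)
  have hS : 0 ≤ ∑ j, κ.h j := Finset.sum_nonneg fun j _ => (hκ.h_pos j).le
  refine ⟨β * ∑ j, κ.h j + C, add_nonneg (mul_nonneg hA.β_pos.le hS) hA.C_nn, fun x => ?_⟩
  have h1 := hA.bd x
  have h2 : C * r ^ x.1.natAbs ≤ C := by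
    have : r ^ x.1.natAbs ≤ 1 := pow_le_one₀ (by linarith [hA.r_ge]) hA.r_lt.le
    calc C * r ^ x.1.natAbs ≤ C * 1 := mul_le_mul_of_nonneg_left this hA.C_nn
      _ = C := mul_one C
  have h3 : |β * κ.h x.2| ≤ β * ∑ j, κ.h j := by
    rw [abs_of_nonneg (mul_nonneg hA.β_pos.le (hκ.h_pos _).le)]
    exact mul_le_mul_of_nonneg_left (hh _) hA.β_pos.le
  calc |m x| = |(m x - β * κ.h x.2) + β * κ.h x.2| := by rw [sub_add_cancel]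
    _ ≤ |m x - β * κ.h x.2| + |β * κ.h x.2| := abs_add_le _ _
    _ ≤ β * ∑ j, κ.h j + C := by linarith

/-- The trial function is square summable over the states. -/
private theorem phi_sq_states {w : ℂ} (hw : InK w) :
    Summable fun x : XX I => ‖phi w x.1‖ ^ 2 := by
  rw [summable_prod_of_nonneg (fun x => by positivity)]
  refine ⟨fun u => (hasSum_fintype _).summable, ?_⟩
  have h1 : (fun u : ℤ => ∑' _ : I, ‖phi w u‖ ^ 2) =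
      fun u : ℤ => (Fintype.card I : ℝ) * ‖phi w u‖ ^ 2 := by
    funext u
    rw [tsum_fintype, Finset.sum_const, Finset.card_univ, nsmul_eq_mul]
  show Summable (fun u : ℤ => ∑' _ : I, ‖phi w u‖ ^ 2)
  rw [h1]
  exact (phi_sums hw).2.2.1.mul_left _

/-- The kernel times the square of the trial function is summable. -/
private theorem K0_phi (hκ : κ.Ok) {w : ℂ} (hw : InK w) :
    Summable fun p : XX I × XX I => κ.K0 p.1 p.2 * ‖phi w p.1.1‖ ^ 2 := by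
  have hnn : ∀ p : XX I × XX I, 0 ≤ κ.K0 p.1 p.2 * ‖phi w p.1.1‖ ^ 2 := fun p =>
    mul_nonneg ((hκ.K0_row p.1).2.2.1 p.2) (by positivity)
  rw [summable_prod_of_nonneg hnn]
  refine ⟨fun x => (hκ.K0_row x).1.mul_right (‖phi w x.1‖ ^ 2), ?_⟩
  refine Summable.of_nonneg_of_le (fun x => tsum_nonneg fun y => hnn (x, y)) (fun x => ?_)
    ((phi_sq_states (I := I) hw).mul_left 5)
  show ∑' y, κ.K0 x y * ‖phi w x.1‖ ^ 2 ≤ 5 * ‖phi w x.1‖ ^ 2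
  rw [tsum_mul_right]
  exact mul_le_mul_of_nonneg_right (hκ.K0_row x).2.1 (by positivity)

/-- The identity: `∑ (m phi)² - ∑ K0 (m phi) (m phi) = ∑ c0 m phi² + 1/2 ∑ K0 m m (phi x - phi y)²`. -/
private theorem key_id {β r C : ℝ} (hκ : κ.Ok) (hA : Asy κ m β r C) {w : ℂ} (hw : InK w)
    (h4 : Summable fun p : XX I × XX I => (κ.K0 p.1 p.2 * m p.1 * m p.2 : ℂ) *
        (phi w p.1.1 - phi w p.2.1) ^ 2) :
    (Summable fun p : XX I × XX I => (κ.K0 p.1 p.2 : ℂ) * (m p.1 * phi w p.1.1) *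
        (m p.2 * phi w p.2.1)) ∧
    ∑' x : XX I, ((m x : ℂ) * phi w x.1) ^ 2 - ∑' p : XX I × XX I,
        (κ.K0 p.1 p.2 : ℂ) * (m p.1 * phi w p.1.1) * (m p.2 * phi w p.2.1) =
      ∑' x : XX I, (κ.c0 x : ℂ) * (m x * phi w x.1 ^ 2) +
      1 / 2 * ∑' p : XX I × XX I, (κ.K0 p.1 p.2 * m p.1 * m p.2 : ℂ) *
        (phi w p.1.1 - phi w p.2.1) ^ 2 := by
  obtain ⟨B, hB, hm⟩ := m_bd hκ hA
  obtain ⟨Cc, hCc, hc⟩ := hκ.c_exp
  have hnm : ∀ x, ‖(m x : ℂ)‖ ≤ B := fun x => by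
    rw [norm_real, Real.norm_eq_abs]
    exact hm x
  have hφ := phi_sq_states (I := I) hw
  have hc0 : ∀ x : XX I, ‖(κ.c0 x : ℂ)‖ ≤ Cc := fun x => by
    have h := hc 0 (by rw [norm_zero]; norm_num) x
    rw [← h.2.2.2]
    refine h.1.trans ?_
    calc Cc * (1 / 4) ^ x.1.natAbs ≤ Cc * 1 :=
          mul_le_mul_of_nonneg_left (pow_le_one₀ (by norm_num) (by norm_num)) hCc
      _ = Cc := mul_one _
  -- the single sums
  have hs1 : Summable fun x : XX I => ((m x : ℂ) * phi w x.1) ^ 2 := by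
    refine Summable.of_norm_bounded (hφ.mul_left (B ^ 2)) fun x => ?_
    rw [norm_pow, norm_mul, mul_pow]
    exact mul_le_mul_of_nonneg_right (pow_le_pow_left₀ (norm_nonneg _) (hnm x) 2) (by positivity)
  have hs2 : Summable fun x : XX I => (κ.c0 x : ℂ) * (m x * phi w x.1 ^ 2) := by
    refine Summable.of_norm_bounded (hφ.mul_left (Cc * B)) fun x => ?_
    rw [norm_mul, norm_mul, norm_pow, mul_assoc]
    exact mul_le_mul (hc0 x) (mul_le_mul_of_nonneg_right (hnm x) (by positivity))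
      (by positivity) hCc
  -- the first double sum
  have hT1 : Summable fun p : XX I × XX I => (κ.K0 p.1 p.2 * m p.1 * m p.2 : ℂ) *
      phi w p.1.1 ^ 2 := by
    refine Summable.of_norm_bounded ((K0_phi hκ hw).mul_left (B ^ 2)) fun p => ?_
    have hK : ‖(κ.K0 p.1 p.2 : ℂ)‖ = κ.K0 p.1 p.2 := by
      rw [norm_real, Real.norm_eq_abs, abs_of_nonneg ((hκ.K0_row p.1).2.2.1 p.2)]
    rw [norm_mul, norm_mul, norm_mul, hK, norm_pow]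
    have h1 : ‖(m p.1 : ℂ)‖ * ‖(m p.2 : ℂ)‖ ≤ B * B :=
      mul_le_mul (hnm _) (hnm _) (norm_nonneg _) hB
    have h2 : 0 ≤ κ.K0 p.1 p.2 * ‖phi w p.1.1‖ ^ 2 :=
      mul_nonneg ((hκ.K0_row p.1).2.2.1 p.2) (by positivity)
    nlinarith [mul_le_mul_of_nonneg_right h1 h2]
  have hT2 : Summable fun p : XX I × XX I => (κ.K0 p.1 p.2 * m p.1 * m p.2 : ℂ) *
      phi w p.2.1 ^ 2 := by
    refine hT1.prod_symm.congr fun p => ?_
    show (κ.K0 p.2 p.1 * m p.2 * m p.1 : ℂ) * phi w p.2.1 ^ 2 =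
      (κ.K0 p.1 p.2 * m p.1 * m p.2 : ℂ) * phi w p.2.1 ^ 2
    rw [(hκ.K0_row p.2).2.2.2.1 p.1]
    ring
  have hT12 : ∑' p : XX I × XX I, (κ.K0 p.1 p.2 * m p.1 * m p.2 : ℂ) * phi w p.2.1 ^ 2 =
      ∑' p : XX I × XX I, (κ.K0 p.1 p.2 * m p.1 * m p.2 : ℂ) * phi w p.1.1 ^ 2 := by
    rw [← (Equiv.prodComm (XX I) (XX I)).tsum_eq
      (fun p : XX I × XX I => (κ.K0 p.1 p.2 * m p.1 * m p.2 : ℂ) * phi w p.1.1 ^ 2)]
    refine tsum_congr fun p => ?_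
    show (κ.K0 p.1 p.2 * m p.1 * m p.2 : ℂ) * phi w p.2.1 ^ 2 =
      (κ.K0 p.2 p.1 * m p.2 * m p.1 : ℂ) * phi w p.2.1 ^ 2
    rw [(hκ.K0_row p.2).2.2.2.1 p.1]
    ring
  have hT1v : ∑' p : XX I × XX I, (κ.K0 p.1 p.2 * m p.1 * m p.2 : ℂ) * phi w p.1.1 ^ 2 =
      ∑' x : XX I, ((m x : ℂ) * phi w x.1) ^ 2 -
        ∑' x : XX I, (κ.c0 x : ℂ) * (m x * phi w x.1 ^ 2) := by
    rw [hT1.tsum_prod, ← hs1.tsum_sub hs2]
    refine tsum_congr fun x => ?_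
    show ∑' y : XX I, (κ.K0 x y * m x * m y : ℂ) * phi w x.1 ^ 2 = _
    have h1 : (fun y : XX I => (κ.K0 x y * m x * m y : ℂ) * phi w x.1 ^ 2) =
        fun y : XX I => ((m x : ℂ) * phi w x.1 ^ 2) * ((κ.K0 x y * m y : ℝ) : ℂ) := by
      funext y
      push_cast
      ring
    rw [h1, tsum_mul_left, ← ofReal_tsum]
    have h2 : ∑' y, κ.K0 x y * m y = m x - κ.c0 x := by
      have := (hA.isM.eqn x).2
      linarith
    rw [h2]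
    push_cast
    ring
  -- the mixed double sum
  have hT3 : ∀ p : XX I × XX I, (κ.K0 p.1 p.2 : ℂ) * (m p.1 * phi w p.1.1) *
      (m p.2 * phi w p.2.1) = 1 / 2 * ((κ.K0 p.1 p.2 * m p.1 * m p.2 : ℂ) * phi w p.1.1 ^ 2 +
        (κ.K0 p.1 p.2 * m p.1 * m p.2 : ℂ) * phi w p.2.1 ^ 2 -
        (κ.K0 p.1 p.2 * m p.1 * m p.2 : ℂ) * (phi w p.1.1 - phi w p.2.1) ^ 2) := fun p => by
    ring
  refine ⟨(((hT1.add hT2).sub h4).mul_left (1 / 2)).congr fun p => (hT3 p).symm, ?_⟩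
  have h5 : ∑' p : XX I × XX I, (κ.K0 p.1 p.2 : ℂ) * (m p.1 * phi w p.1.1) *
      (m p.2 * phi w p.2.1) = 1 / 2 * ((∑' x : XX I, ((m x : ℂ) * phi w x.1) ^ 2 -
        ∑' x : XX I, (κ.c0 x : ℂ) * (m x * phi w x.1 ^ 2)) +
        (∑' x : XX I, ((m x : ℂ) * phi w x.1) ^ 2 -
        ∑' x : XX I, (κ.c0 x : ℂ) * (m x * phi w x.1 ^ 2)) -
        ∑' p : XX I × XX I, (κ.K0 p.1 p.2 * m p.1 * m p.2 : ℂ) *
          (phi w p.1.1 - phi w p.2.1) ^ 2) := by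
    rw [tsum_congr hT3, tsum_mul_left, (hT1.add hT2).tsum_sub h4, hT1.tsum_add hT2, hT12, hT1v]
  rw [h5]
  ring

/-- `∑ (m phi)² - ∑ K0 (m phi) (m phi) = ∑ c0 m phi² + 1/2 ∑ K0 m m (phi x - phi y)²`: multiply `IsM.eqn` by `m x phi x²`
and sum; symmetry of `K0`; everything converges absolutely since `m` is bounded and `phi` square summable. Then
`∑ (m phi)² - ∑ Ks (m phi)(m phi) = that + ∑ (K0 - Ks) (m phi)(m phi)`; insert in `variational` and use `quad_a`,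
`quad_b`, `quad_c`, `V_pos` (`1/2 VV + aa NN = VV`). -/
theorem Ok.near_w (hκ : κ.Ok) {β r C : ℝ} (hA : Asy κ m β r C) : ∃ C' w0 : ℝ, 0 ≤ C' ∧ 0 < w0 ∧
    ∀ w : ℂ, InK w → ‖w‖ / 2 < w.re → ‖w‖ < w0 →
      ‖κ.U1 (κ.aa * w ^ 2) - ∑' x : XX I, ((κ.c0 x * m x : ℝ) : ℂ) + β ^ 2 * κ.VV * w‖ ≤
        C' * ‖w‖ ^ 2 := by
  obtain ⟨C1, w1, hC1, hw1, h1⟩ := hκ.variational hA
  obtain ⟨C2, w2, hC2, hw2, h2⟩ := hκ.quad_a hA
  obtain ⟨C3, w3, hC3, hw3, h3⟩ := hκ.quad_b hA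
  obtain ⟨C4, w4, hC4, hw4, h4⟩ := hκ.quad_c hA
  refine ⟨C1 + C2 + C3 / 2 + C4, min (min w1 w2) (min w3 w4), by positivity,
    lt_min (lt_min hw1 hw2) (lt_min hw3 hw4), fun w hw hre hlt => ?_⟩
  have e1 := (h1 w hw hre (hlt.trans_le ((min_le_left _ _).trans (min_le_left _ _)))).2
  have e2 := h2 w hw (hlt.trans_le ((min_le_left _ _).trans (min_le_right _ _)))
  obtain ⟨s3, e3⟩ := h3 w hw (hlt.trans_le ((min_le_right _ _).trans (min_le_left _ _)))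
  obtain ⟨s4, e4⟩ := h4 w hw (hlt.trans_le ((min_le_right _ _).trans (min_le_right _ _)))
  obtain ⟨sK, eK⟩ := key_id hκ hA hw s3
  have hN : (κ.aa : ℂ) * κ.NN = κ.VV / 2 := by
    have h5 := hκ.V_pos.2.1.ne'
    have h6 : κ.aa * κ.NN = κ.VV / 2 := by
      unfold aa
      field_simp
    rw [← ofReal_mul, h6]
    push_cast
    ring
  have eS : ∑' p : XX I × XX I, κ.Ks (κ.aa * w ^ 2) p.1 p.2 * (m p.1 * phi w p.1.1) *
      (m p.2 * phi w p.2.1) = ∑' p : XX I × XX I, (κ.K0 p.1 p.2 : ℂ) * (m p.1 * phi w p.1.1) *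
        (m p.2 * phi w p.2.1) - ∑' p : XX I × XX I,
        (κ.K0 p.1 p.2 - κ.Ks (κ.aa * w ^ 2) p.1 p.2 : ℂ) * (m p.1 * phi w p.1.1) *
          (m p.2 * phi w p.2.1) := by
    rw [← sK.tsum_sub s4]
    exact tsum_congr fun p => by ring
  rw [eS] at e1
  generalize ∑' x : XX I, ((m x : ℂ) * phi w x.1) ^ 2 = Q1 at e1 eK
  generalize ∑' p : XX I × XX I, (κ.K0 p.1 p.2 : ℂ) * (m p.1 * phi w p.1.1) *
    (m p.2 * phi w p.2.1) = Q2 at e1 eK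
  generalize ∑' x : XX I, κ.cs (κ.aa * w ^ 2) x * (m x * phi w x.1) = Q3 at e1 e2
  generalize ∑' x : XX I, κ.c0 x * (m x * phi w x.1 ^ 2) = Q4 at e2 eK
  generalize ∑' p : XX I × XX I, (κ.K0 p.1 p.2 * m p.1 * m p.2 : ℂ) *
    (phi w p.1.1 - phi w p.2.1) ^ 2 = Q5 at e3 eK
  generalize ∑' p : XX I × XX I, (κ.K0 p.1 p.2 - κ.Ks (κ.aa * w ^ 2) p.1 p.2 : ℂ) *
    (m p.1 * phi w p.1.1) * (m p.2 * phi w p.2.1) = Q6 at e1 e4
  generalize ∑' x : XX I, ((κ.c0 x * m x : ℝ) : ℂ) = Q7 at e2 ⊢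
  generalize κ.U1 (κ.aa * w ^ 2) = U at e1 ⊢
  have key : U - Q7 + β ^ 2 * κ.VV * w = (U - (2 * Q3 - Q1 + (Q2 - Q6))) +
      (2 * Q3 - Q4 - Q7) - (1 / 2) * (Q5 - β ^ 2 * κ.VV * w) -
      (Q6 - κ.aa * β ^ 2 * κ.NN * w) := by
    have h6 : (κ.aa : ℂ) * β ^ 2 * κ.NN * w = β ^ 2 * (κ.VV / 2) * w := by
      rw [← hN]
      ring
    rw [h6]
    linear_combination (-1) * eK
  rw [key]
  have n3 : ‖(1 / 2 : ℂ) * (Q5 - β ^ 2 * κ.VV * w)‖ ≤ C3 / 2 * ‖w‖ ^ 2 := by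
    rw [norm_mul]
    have : ‖(1 / 2 : ℂ)‖ = 1 / 2 := by norm_num
    rw [this]
    linarith
  calc ‖(U - (2 * Q3 - Q1 + (Q2 - Q6))) + (2 * Q3 - Q4 - Q7) -
        (1 / 2) * (Q5 - β ^ 2 * κ.VV * w) - (Q6 - κ.aa * β ^ 2 * κ.NN * w)‖
      ≤ ‖(U - (2 * Q3 - Q1 + (Q2 - Q6))) + (2 * Q3 - Q4 - Q7) -
        (1 / 2) * (Q5 - β ^ 2 * κ.VV * w)‖ + ‖Q6 - κ.aa * β ^ 2 * κ.NN * w‖ := norm_sub_le _ _
    _ ≤ ‖(U - (2 * Q3 - Q1 + (Q2 - Q6))) + (2 * Q3 - Q4 - Q7)‖ +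
        ‖(1 / 2 : ℂ) * (Q5 - β ^ 2 * κ.VV * w)‖ + ‖Q6 - κ.aa * β ^ 2 * κ.NN * w‖ := by
      gcongr
      exact norm_sub_le _ _
    _ ≤ ‖U - (2 * Q3 - Q1 + (Q2 - Q6))‖ + ‖2 * Q3 - Q4 - Q7‖ +
        ‖(1 / 2 : ℂ) * (Q5 - β ^ 2 * κ.VV * w)‖ + ‖Q6 - κ.aa * β ^ 2 * κ.NN * w‖ := by
      gcongr
      exact norm_add_le _ _
    _ ≤ (C1 + C2 + C3 / 2 + C4) * ‖w‖ ^ 2 := by
      nlinarith [e1, e2, n3, e4]

/-- `exists_m`, `decay`, `beta_pos` give `Asy`. For `s` in `Sec` with `‖s‖` small put `w = (s / aa)^(1/2)` (principal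
branch): `re w ≥ 0`, `re (w²) = 2 (re w)² - ‖w‖² > - ‖w‖² / 2`, so `re w > ‖w‖ / 2`. `B = β² VV / √aa`. -/
theorem Ok.near (hκ : κ.Ok) : ∃ A B C r : ℝ, 0 < B ∧ 0 ≤ C ∧ 0 < r ∧ ∀ s ∈ κ.Sec, ‖s‖ < r →
    ‖κ.U1 s - A + B * s ^ (1 / 2 : ℂ)‖ ≤ C * ‖s‖ := by
  obtain ⟨m, hm⟩ := hκ.exists_m
  obtain ⟨β, r, C, hβ, hr1, hr2, hC, hbd⟩ := hκ.decay hm
  have hβ' := hκ.beta_pos hm hβ (by linarith) hr2 hbd
  have hA : Asy κ m β r C := ⟨hm, hβ', hr1, hr2, hC, hbd⟩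
  obtain ⟨C', w0, hC', hw0, hnear⟩ := hκ.near_w hA
  obtain ⟨hV, hN, ha, -, -⟩ := hκ.V_pos
  have hsa : 0 < √κ.aa := Real.sqrt_pos.2 ha
  have hsq : √κ.aa * √κ.aa = κ.aa := Real.mul_self_sqrt ha.le
  have hq : 0 < min (1 / 10) w0 := lt_min (by norm_num) hw0
  refine ⟨∑' x : XX I, κ.c0 x * m x, β ^ 2 * κ.VV / √κ.aa, C' / κ.aa,
    κ.aa * (min (1 / 10) w0) ^ 2, by positivity, by positivity, by positivity,
    fun s hs hsr => ?_⟩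
  obtain ⟨hs0, -, hsre⟩ := hs
  have hsn : 0 < ‖s‖ := norm_pos_iff.2 hs0
  obtain ⟨v, hv⟩ : ∃ v : ℂ, v = s ^ (2⁻¹ : ℂ) := ⟨_, rfl⟩
  have hv2 : v ^ 2 = s := by
    rw [hv]
    exact cpow_nat_inv_pow s (n := 2) (by norm_num)
  have hvn : ‖v‖ ^ 2 = ‖s‖ := by rw [← norm_pow, hv2]
  have hvre : v.re = √((‖s‖ + s.re) / 2) := by
    rw [hv]
    exact cpow_inv_two_re s
  have hvre0 : 0 ≤ v.re := by
    rw [hvre]
    exact Real.sqrt_nonneg _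
  have hvre2 : v.re ^ 2 = (‖s‖ + s.re) / 2 := by
    rw [hvre]
    exact Real.sq_sqrt (by linarith)
  have hvpos : 0 < ‖v‖ := by
    rcases (norm_nonneg v).lt_or_eq with h | h
    · exact h
    · rw [← h] at hvn
      norm_num at hvn
      exact absurd hvn.symm hsn.ne'
  have hvlt : ‖v‖ / 2 < v.re := by
    by_contra hcon
    have hcon' := not_lt.1 hcon
    have : v.re ^ 2 ≤ (‖v‖ / 2) ^ 2 := pow_le_pow_left₀ hvre0 hcon' 2
    rw [hvre2, div_pow, hvn] at this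
    linarith
  obtain ⟨w, hw⟩ : ∃ w : ℂ, w = ((√κ.aa)⁻¹ : ℝ) * v := ⟨_, rfl⟩
  have hwn : ‖w‖ = (√κ.aa)⁻¹ * ‖v‖ := by
    rw [hw, norm_mul, norm_real, Real.norm_eq_abs, abs_of_pos (inv_pos.2 hsa)]
  have hwre : w.re = (√κ.aa)⁻¹ * v.re := by
    rw [hw, re_ofReal_mul]
  have hwlt : ‖w‖ / 2 < w.re := by
    rw [hwn, hwre, mul_div_assoc]
    exact mul_lt_mul_of_pos_left hvlt (inv_pos.2 hsa)
  have hwpos : 0 < ‖w‖ := by
    rw [hwn]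
    exact mul_pos (inv_pos.2 hsa) hvpos
  have hw2 : ‖w‖ ^ 2 = ‖s‖ / κ.aa := by
    rw [hwn, mul_pow, hvn, inv_pow, Real.sq_sqrt ha.le, inv_mul_eq_div]
  have hsw : (κ.aa : ℂ) * w ^ 2 = s := by
    have h1 : ((√κ.aa : ℝ) : ℂ) * (√κ.aa : ℝ) = κ.aa := by
      rw [← ofReal_mul, hsq]
    have h2 : ((√κ.aa : ℝ) : ℂ) ≠ 0 := ofReal_ne_zero.2 hsa.ne'
    rw [hw, mul_pow, hv2, ← h1, ofReal_inv]
    field_simp
  have hwb : ‖w‖ < min (1 / 10) w0 := by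
    have h1 : ‖w‖ ^ 2 < (min (1 / 10) w0) ^ 2 := by
      rw [hw2, div_lt_iff₀ ha]
      linarith
    exact lt_of_pow_lt_pow_left₀ 2 hq.le h1
  have hK : InK w := ⟨norm_pos_iff.1 hwpos, hwlt.le, (hwb.trans_le (min_le_left _ _)).le⟩
  have h := hnear w hK hwlt (hwb.trans_le (min_le_right _ _))
  rw [hsw, hw2] at h
  have h3 : ((β ^ 2 * κ.VV / √κ.aa : ℝ) : ℂ) * s ^ (1 / 2 : ℂ) = β ^ 2 * κ.VV * w := by
    rw [one_div, ← hv, hw]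
    push_cast
    ring
  rw [h3, ofReal_tsum]
  calc _ ≤ C' * (‖s‖ / κ.aa) := h
    _ = C' / κ.aa * ‖s‖ := by ring

end Slb

end Pool.Agent.KSlab
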