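import Pool.Agent.KSlab.Meas

/-! SL16: the free equation of the critical measure. -/

set_option autoImplicit false

open Complex Set Filter Topology
open scoped ENNReal

namespace Pool.Agent.KSlab

namespace Slb

variable {I : Type} [Fintype I] {κ : Slb I}

/-- The quotient of the measure and the Perron vector. -/
noncomputable def gam (κ : Slb I) (m : XX I → ℝ) (x : XX I) : ℝ := m x / κ.h x.2

/-- The source of the free equation. -/
noncomputable def nu (κ : Slb I) (m : XX I → ℝ) (x : XX I) : ℝ := m x - ∑' y, κ.Fx x y * m y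

/-- The flux through the plane between `u` and `u + 1`. -/
noncomputable def Fl (κ : Slb I) (m : XX I → ℝ) (u : ℤ) : ℝ :=
  ∑' p : XX I × XX I, if p.1.1 ≤ u ∧ u < p.2.1 then
    κ.Fx p.1 p.2 * κ.h p.1.2 * κ.h p.2.2 * (κ.gam m p.2 - κ.gam m p.1) else 0

/-- The translation of the states. -/
private noncomputable def trE (I : Type) (u : ℤ) : XX I ≃ ℤ × I where
  toFun y := (y.1 - u, y.2)
  invFun p := (p.1 + u, p.2)
  left_inv y := by simp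
  right_inv p := by simp

private lemma natAbs_le_four (n : ℕ) : (1 : ℝ) + n ≤ 4 ^ n := by
  induction n with
  | zero => simp
  | succ n ih =>
    rw [pow_succ]
    push_cast
    have h : (1 : ℝ) ≤ 4 ^ n := one_le_pow₀ (by norm_num)
    linarith

private lemma tri_natAbs (a b : ℤ) : (1 : ℝ) + (a.natAbs : ℝ) ≤ (1 + (b.natAbs : ℝ)) * 4 ^ (a - b).natAbs := by
  have h1 : a.natAbs ≤ b.natAbs + (a - b).natAbs := by omega
  have h2 : (a.natAbs : ℝ) ≤ b.natAbs + (a - b).natAbs := by exact_mod_cast h1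
  have h3 := natAbs_le_four (a - b).natAbs
  have h4 : (0 : ℝ) ≤ b.natAbs := Nat.cast_nonneg _
  have h5 : (0 : ℝ) ≤ ((a - b).natAbs : ℝ) := Nat.cast_nonneg _
  nlinarith [mul_le_mul_of_nonneg_left h3 (by linarith : (0 : ℝ) ≤ 1 + (b.natAbs : ℝ)), mul_nonneg h4 h5]

private lemma Ok.Fx_m (hκ : κ.Ok) {m : XX I → ℝ} (hm : κ.IsM m) :
    (∀ x, Summable fun y => κ.Fx x y * m y) ∧
    ∃ C : ℝ, 0 ≤ C ∧ ∀ x : XX I, ∑' y, κ.Fx x y * m y ≤ C * (1 + x.1.natAbs) := by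
  obtain ⟨C, hC⟩ := hκ.F0_exp
  obtain ⟨C', hC'⟩ := hm.growth
  have hC'0 : 0 ≤ |C'| := abs_nonneg _
  have hmle : ∀ y : XX I, m y ≤ |C'| * (1 + y.1.natAbs) := fun y =>
    (hC' y).trans (mul_le_mul_of_nonneg_right (le_abs_self _) (by positivity))
  have hterm : ∀ x y : XX I, κ.Fx x y * m y ≤
      |C'| * (1 + x.1.natAbs) * (4 ^ (y.1 - x.1).natAbs * κ.F0 (y.1 - x.1) x.2 y.2) := by
    intro x y
    have h1 : 0 ≤ κ.F0 (y.1 - x.1) x.2 y.2 := (hκ.F0_prop _ _ _).1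
    have h2 : m y ≤ |C'| * ((1 + x.1.natAbs) * 4 ^ (y.1 - x.1).natAbs) :=
      (hmle y).trans (mul_le_mul_of_nonneg_left (tri_natAbs y.1 x.1) hC'0)
    calc κ.Fx x y * m y = κ.F0 (y.1 - x.1) x.2 y.2 * m y := rfl
      _ ≤ κ.F0 (y.1 - x.1) x.2 y.2 * (|C'| * ((1 + x.1.natAbs) * 4 ^ (y.1 - x.1).natAbs)) :=
          mul_le_mul_of_nonneg_left h2 h1
      _ = _ := by ring
  have hsum : ∀ x : XX I, (Summable fun y : XX I =>
      (4 : ℝ) ^ (y.1 - x.1).natAbs * κ.F0 (y.1 - x.1) x.2 y.2) ∧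
      ∑' y : XX I, (4 : ℝ) ^ (y.1 - x.1).natAbs * κ.F0 (y.1 - x.1) x.2 y.2 ≤ C := by
    intro x
    have h := hC x.2
    constructor
    · exact ((trE I x.1).summable_iff (f := fun p : ℤ × I => (4 : ℝ) ^ p.1.natAbs * κ.F0 p.1 x.2 p.2)).2 h.1
    · rw [← (trE I x.1).tsum_eq (fun p : ℤ × I => (4 : ℝ) ^ p.1.natAbs * κ.F0 p.1 x.2 p.2)] at h
      exact h.2
  have hnn : ∀ x y : XX I, 0 ≤ κ.Fx x y * m y := fun x y => mul_nonneg (hκ.Fx_prop x y).1 (hm.nn y)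
  have hS : ∀ x, Summable fun y => κ.Fx x y * m y := fun x =>
    Summable.of_nonneg_of_le (hnn x) (hterm x) ((hsum x).1.mul_left _)
  refine ⟨hS, |C'| * |C|, by positivity, fun x => ?_⟩
  calc ∑' y, κ.Fx x y * m y
      ≤ ∑' y : XX I, |C'| * (1 + x.1.natAbs) * (4 ^ (y.1 - x.1).natAbs * κ.F0 (y.1 - x.1) x.2 y.2) :=
        (hS x).tsum_le_tsum (hterm x) ((hsum x).1.mul_left _)
    _ = |C'| * (1 + x.1.natAbs) * ∑' y : XX I, (4 : ℝ) ^ (y.1 - x.1).natAbs * κ.F0 (y.1 - x.1) x.2 y.2 :=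
        tsum_mul_left
    _ ≤ |C'| * (1 + x.1.natAbs) * |C| :=
        mul_le_mul_of_nonneg_left ((hsum x).2.trans (le_abs_self _)) (by positivity)
    _ = _ := by ring

omit [Fintype I] in
private lemma Ok.c0_le (hκ : κ.Ok) : ∃ C : ℝ, 0 ≤ C ∧ ∀ x : XX I, |κ.c0 x| ≤ C * (1 / 4) ^ x.1.natAbs := by
  obtain ⟨C, hC⟩ := hκ.c_sum
  refine ⟨|C|, abs_nonneg _, fun x => ?_⟩
  have h1 : ∀ n, κ.c n x ≤ 2 ^ n * κ.c n x := fun n => by
    have := one_le_pow₀ (M₀ := ℝ) (a := 2) (n := n) (by norm_num)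
    nlinarith [hκ.c_nn n x]
  have hs : Summable fun n => κ.c n x := Summable.of_nonneg_of_le (fun n => hκ.c_nn n x) h1 (hC x).1
  have h0 : 0 ≤ κ.c0 x := tsum_nonneg fun n => hκ.c_nn n x
  rw [abs_of_nonneg h0]
  calc κ.c0 x ≤ ∑' n, 2 ^ n * κ.c n x := hs.tsum_le_tsum h1 (hC x).1
    _ ≤ C * (1 / 4) ^ x.1.natAbs := (hC x).2
    _ ≤ |C| * (1 / 4) ^ x.1.natAbs := mul_le_mul_of_nonneg_right (le_abs_self _) (by positivity)

omit [Fintype I] in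
private lemma swap_bound {d : ℕ → XX I → ℝ} {B C' : ℝ} {m : XX I → ℝ}
    (hS : Summable fun p : ℕ × XX I => 2 ^ p.1 * 4 ^ p.2.1.natAbs * |d p.1 p.2|)
    (hB : ∑' p : ℕ × XX I, 2 ^ p.1 * 4 ^ p.2.1.natAbs * |d p.1 p.2| ≤ B)
    (hnn : ∀ y, 0 ≤ m y) (hC'0 : 0 ≤ C') (hmle : ∀ y : XX I, m y ≤ C' * 4 ^ y.1.natAbs) :
    (Summable fun y => |∑' n, d n y| * m y) ∧ ∑' y, |∑' n, d n y| * m y ≤ C' * B := by
  have hle : ∀ p : ℕ × XX I, (4 : ℝ) ^ p.2.1.natAbs * |d p.1 p.2| ≤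
      2 ^ p.1 * 4 ^ p.2.1.natAbs * |d p.1 p.2| := fun p => by
    have h1 := one_le_pow₀ (M₀ := ℝ) (a := 2) (n := p.1) (by norm_num)
    have h2 : 0 ≤ (4 : ℝ) ^ p.2.1.natAbs * |d p.1 p.2| := by positivity
    nlinarith
  have hS1 : Summable fun p : ℕ × XX I => (4 : ℝ) ^ p.2.1.natAbs * |d p.1 p.2| :=
    Summable.of_nonneg_of_le (fun p => by positivity) hle hS
  have hB1 : ∑' p : ℕ × XX I, (4 : ℝ) ^ p.2.1.natAbs * |d p.1 p.2| ≤ B :=
    (hS1.tsum_le_tsum hle hS).trans hB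
  have hS2 : Summable fun p : XX I × ℕ => (4 : ℝ) ^ p.1.1.natAbs * |d p.2 p.1| := hS1.prod_symm
  have hB2 : ∑' p : XX I × ℕ, (4 : ℝ) ^ p.1.1.natAbs * |d p.2 p.1| ≤ B := by
    rw [← (Equiv.prodComm (XX I) ℕ).tsum_eq (fun p : ℕ × XX I =>
      (4 : ℝ) ^ p.2.1.natAbs * |d p.1 p.2|)] at hB1
    exact hB1
  have hin : ∀ y : XX I, Summable fun n => |d n y| := fun y => by
    have h : Summable fun n => (4 : ℝ) ^ y.1.natAbs * |d n y| := hS2.prod_factor y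
    have h4 : (4 : ℝ) ^ y.1.natAbs ≠ 0 := by positivity
    refine (h.mul_left ((4 : ℝ) ^ y.1.natAbs)⁻¹).congr fun n => ?_
    rw [inv_mul_cancel_left₀ h4]
  have hS3 : Summable fun y : XX I => ∑' n, (4 : ℝ) ^ y.1.natAbs * |d n y| := hS2.prod
  have hB3 : ∑' y : XX I, ∑' n, (4 : ℝ) ^ y.1.natAbs * |d n y| ≤ B := by
    rw [← hS2.tsum_prod]
    exact hB2
  have hterm : ∀ y : XX I, |∑' n, d n y| * m y ≤
      C' * ∑' n, (4 : ℝ) ^ y.1.natAbs * |d n y| := fun y => by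
    rw [tsum_mul_left]
    have h1 : |∑' n, d n y| ≤ ∑' n, |d n y| := by
      have h := norm_tsum_le_tsum_norm (f := fun n => d n y) (by simpa using hin y)
      simpa using h
    have h2 : 0 ≤ ∑' n, |d n y| := tsum_nonneg fun n => abs_nonneg _
    calc |∑' n, d n y| * m y ≤ (∑' n, |d n y|) * (C' * 4 ^ y.1.natAbs) :=
          mul_le_mul h1 (hmle y) (hnn y) h2
      _ = _ := by ring
  have hSf : Summable fun y => |∑' n, d n y| * m y :=
    Summable.of_nonneg_of_le (fun y => mul_nonneg (abs_nonneg _) (hnn y)) hterm (hS3.mul_left _)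
  refine ⟨hSf, ?_⟩
  calc ∑' y, |∑' n, d n y| * m y ≤ ∑' y : XX I, C' * ∑' n, (4 : ℝ) ^ y.1.natAbs * |d n y| :=
        hSf.tsum_le_tsum hterm (hS3.mul_left _)
    _ = C' * ∑' y : XX I, ∑' n, (4 : ℝ) ^ y.1.natAbs * |d n y| := tsum_mul_left
    _ ≤ C' * B := mul_le_mul_of_nonneg_left hB3 hC'0

omit [Fintype I] in
private lemma Ok.df_m (hκ : κ.Ok) {m : XX I → ℝ} (hm : κ.IsM m) :
    ∃ C : ℝ, 0 ≤ C ∧ ∀ x : XX I, κ.Al x → (Summable fun y => |∑' n, κ.df n x y| * m y) ∧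
      ∑' y, |∑' n, κ.df n x y| * m y ≤ C * (1 / 4) ^ x.1.natAbs := by
  obtain ⟨C, hC⟩ := hκ.df_sum
  obtain ⟨C', hC'⟩ := hm.growth
  have hC'0 : 0 ≤ |C'| := abs_nonneg _
  have hmle : ∀ y : XX I, m y ≤ |C'| * 4 ^ y.1.natAbs := fun y =>
    (hC' y).trans ((mul_le_mul_of_nonneg_right (le_abs_self _) (by positivity)).trans
      (mul_le_mul_of_nonneg_left (natAbs_le_four _) hC'0))
  refine ⟨|C'| * |C|, by positivity, fun x hx => ?_⟩
  obtain ⟨hS, hB⟩ := hC x hx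
  obtain ⟨h1, h2⟩ := swap_bound (d := fun n y => κ.df n x y) hS hB hm.nn hC'0 hmle
  refine ⟨h1, h2.trans ?_⟩
  rw [mul_assoc]
  exact mul_le_mul_of_nonneg_left (mul_le_mul_of_nonneg_right (le_abs_self _) (by positivity)) hC'0

/-- For `x` alive `nu x = c0 x + ∑_y (∑_n df n x y) m y` (`IsM.eqn`, `m = 0` at the dead states), the sum is at most
`C ∑_{n, y} 4 ^ |y| |df n x y|` because `m y ≤ C (1 + |y|) ≤ C 4 ^ |y|`: `df_sum` and `cs_bound`. For `x` dead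
(finitely many states, displacement zero) the sum `∑ Fx x y m y` is finite (`F0_exp`). -/
theorem Ok.nu_le (hκ : κ.Ok) {m : XX I → ℝ} (hm : κ.IsM m) :
    (∀ x, Summable fun y => κ.Fx x y * m y) ∧
    ∃ C : ℝ, 0 ≤ C ∧ ∀ x : XX I, |κ.nu m x| ≤ C * (1 / 4) ^ x.1.natAbs := by
  obtain ⟨hS, C1, hC1, hB1⟩ := hκ.Fx_m hm
  obtain ⟨C2, hC2, hB2⟩ := hκ.c0_le
  obtain ⟨C3, hC3, hB3⟩ := hκ.df_m hm
  refine ⟨hS, C1 + C2 + C3, by positivity, fun x => ?_⟩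
  have hp : (0 : ℝ) ≤ (1 / 4) ^ x.1.natAbs := by positivity
  by_cases hx : κ.Al x
  · obtain ⟨hK, hE⟩ := hm.eqn x
    obtain ⟨hDS, hDB⟩ := hB3 x hx
    have hD := (hκ.df_zero hx).2.1
    have hterm : ∀ y, κ.K0 x y * m y - κ.Fx x y * m y = (∑' n, κ.df n x y) * m y := fun y => by
      by_cases hy : κ.Al y
      · rw [← hD y hy]
        ring
      · rw [hm.dead y hy]
        ring
    have hnu : κ.nu m x = κ.c0 x + ∑' y, (∑' n, κ.df n x y) * m y := by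
      rw [nu, hE, add_sub_assoc, ← hK.tsum_sub (hS x)]
      simp only [hterm]
    have hDS' : Summable fun y => ‖(∑' n, κ.df n x y) * m y‖ := by
      refine hDS.congr fun y => ?_
      rw [norm_mul, Real.norm_eq_abs, Real.norm_eq_abs, abs_of_nonneg (hm.nn y)]
    have h1 : |∑' y, (∑' n, κ.df n x y) * m y| ≤ C3 * (1 / 4) ^ x.1.natAbs := by
      refine (norm_tsum_le_tsum_norm hDS').trans (le_trans (le_of_eq ?_) hDB)
      refine tsum_congr fun y => ?_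
      rw [norm_mul, Real.norm_eq_abs, Real.norm_eq_abs, abs_of_nonneg (hm.nn y)]
    rw [hnu]
    calc |κ.c0 x + ∑' y, (∑' n, κ.df n x y) * m y| ≤ |κ.c0 x| + |∑' y, (∑' n, κ.df n x y) * m y| :=
          abs_add_le _ _
      _ ≤ C2 * (1 / 4) ^ x.1.natAbs + C3 * (1 / 4) ^ x.1.natAbs := add_le_add (hB2 x) h1
      _ ≤ _ := by nlinarith [mul_nonneg hC1 hp]
  · have hx0 : x.1 = 0 := by
      by_contra h
      exact hx fun h' => h h'.1
    have h0 : 0 ≤ ∑' y, κ.Fx x y * m y := tsum_nonneg fun y => mul_nonneg (hκ.Fx_prop x y).1 (hm.nn y)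
    have h1 := hB1 x
    rw [hx0] at h1
    rw [nu, hm.dead x hx, zero_sub, abs_neg, abs_of_nonneg h0, hx0]
    simp only [Int.natAbs_zero, Nat.cast_zero, add_zero, mul_one, pow_zero] at h1 ⊢
    linarith

/-- `h x nu x = ∑_y Fx x y h x h y (γ x - γ y)` by `Fx_h`. -/
theorem Ok.nu_eq (hκ : κ.Ok) {m : XX I → ℝ} (hm : κ.IsM m) (x : XX I) :
    (Summable fun y => κ.Fx x y * κ.h x.2 * κ.h y.2 * (κ.gam m x - κ.gam m y)) ∧
    κ.h x.2 * κ.nu m x = ∑' y, κ.Fx x y * κ.h x.2 * κ.h y.2 * (κ.gam m x - κ.gam m y) := by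
  obtain ⟨hS, -⟩ := hκ.Fx_m hm
  obtain ⟨hF, hE⟩ := hκ.Fx_h x
  have hterm : ∀ y, κ.Fx x y * κ.h x.2 * κ.h y.2 * (κ.gam m x - κ.gam m y) =
      m x * (κ.Fx x y * κ.h y.2) - κ.h x.2 * (κ.Fx x y * m y) := fun y => by
    have h1 := (hκ.h_pos x.2).ne'
    have h2 := (hκ.h_pos y.2).ne'
    rw [gam, gam]
    field_simp
  have hs1 := hF.mul_left (m x)
  have hs2 := (hS x).mul_left (κ.h x.2)
  refine ⟨(hs1.sub hs2).congr fun y => (hterm y).symm, ?_⟩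
  simp only [hterm]
  rw [hs1.tsum_sub hs2, tsum_mul_left, tsum_mul_left, hE, nu]
  ring

end Slb

end Pool.Agent.KSlab
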