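import Pool.Agent.KSlab.Defs

/-! SL1: operators on square summable functions given by kernels (Schur test). -/

set_option autoImplicit false

open Complex Set Filter Topology
open scoped ENNReal ComplexConjugate

namespace Pool.Agent.KSlab

variable {I : Type} {k k' : XX I → XX I → ℂ} {B B' : ℝ}

/-! ### Square summable functions -/

private theorem two_pos' : 0 < (2 : ℝ≥0∞).toReal := by norm_num

private theorem sq_summable (g : EE I) : Summable fun x => ‖g x‖ ^ 2 := by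
  have h := (lp.hasSum_norm two_pos' g).summable
  simpa using h

private theorem sq_norm (g : EE I) : ∑' x, ‖g x‖ ^ 2 = ‖g‖ ^ 2 := by
  have h := lp.norm_rpow_eq_tsum two_pos' g
  simpa using h.symm

private theorem memLp {u : XX I → ℂ} (h : Summable fun x => ‖u x‖ ^ 2) : Memℓp u 2 := by
  rw [memℓp_gen_iff two_pos']
  simpa using h

/-! ### Double sums -/

private theorem Sch.symm (h : Sch k B) : Sch (fun x y => k y x) B :=
  ⟨h.col, h.col_le, h.row, h.row_le⟩

private theorem fst_summable (h : Sch k B) (f : EE I) :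
    Summable fun p : XX I × XX I => ‖k p.1 p.2‖ * ‖f p.1‖ ^ 2 := by
  rw [summable_prod_of_nonneg (fun p => by positivity)]
  refine ⟨fun x => (h.row x).mul_right (‖f x‖ ^ 2), ?_⟩
  refine Summable.of_nonneg_of_le (fun x => tsum_nonneg fun y => by positivity) (fun x => ?_)
    ((sq_summable f).mul_left B)
  have h1 : ∑' y, ‖k x y‖ * ‖f x‖ ^ 2 ≤ B * ‖f x‖ ^ 2 := by
    rw [tsum_mul_right]
    exact mul_le_mul_of_nonneg_right (h.row_le x) (by positivity)
  exact h1

private theorem snd_summable (h : Sch k B) (g : EE I) :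
    Summable fun p : XX I × XX I => ‖k p.1 p.2‖ * ‖g p.2‖ ^ 2 :=
  (fst_summable h.symm g).prod_symm

private theorem snd_tsum_le (h : Sch k B) (g : EE I) :
    ∑' x, ∑' y, ‖k x y‖ * ‖g y‖ ^ 2 ≤ B * ‖g‖ ^ 2 := by
  have h1 := snd_summable h g
  have h2 := fst_summable h.symm g
  rw [← h1.tsum_prod' h1.prod_factor]
  have h3 : ∑' p : XX I × XX I, ‖k p.1 p.2‖ * ‖g p.2‖ ^ 2 =
      ∑' p : XX I × XX I, ‖k p.2 p.1‖ * ‖g p.1‖ ^ 2 :=
    (Equiv.prodComm _ _).tsum_eq (fun p : XX I × XX I => ‖k p.2 p.1‖ * ‖g p.1‖ ^ 2)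
  rw [h3, h2.tsum_prod' h2.prod_factor, ← sq_norm g, ← tsum_mul_left]
  refine Summable.tsum_le_tsum (fun y => ?_) h2.prod ((sq_summable g).mul_left B)
  change ∑' x, ‖k x y‖ * ‖g y‖ ^ 2 ≤ _
  rw [tsum_mul_right]
  exact mul_le_mul_of_nonneg_right (h.col_le y) (by positivity)

private theorem row_summable (h : Sch k B) (g : EE I) (x : XX I) :
    Summable fun y => ‖k x y‖ * ‖g y‖ := by
  refine Summable.of_nonneg_of_le (fun y => by positivity) (fun y => ?_)
    ((h.row x).add ((snd_summable h g).prod_factor x))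
  have h1 : ‖g y‖ ≤ 1 + ‖g y‖ ^ 2 := by nlinarith [sq_nonneg (‖g y‖ - 1)]
  calc ‖k x y‖ * ‖g y‖ ≤ ‖k x y‖ * (1 + ‖g y‖ ^ 2) :=
        mul_le_mul_of_nonneg_left h1 (norm_nonneg _)
    _ = ‖k x y‖ + ‖k x y‖ * ‖g y‖ ^ 2 := by ring

theorem sch_summable (h : Sch k B) (g : EE I) (x : XX I) : Summable fun y => k x y * g y := by
  refine Summable.of_norm ?_
  simp only [norm_mul]
  exact row_summable h g x

/-- Cauchy-Schwarz for one row. -/
private theorem row_cs (h : Sch k B) (g : EE I) (x : XX I) :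
    ‖∑' y, k x y * g y‖ ^ 2 ≤ B * ∑' y, ‖k x y‖ * ‖g y‖ ^ 2 := by
  set R := ∑' y, ‖k x y‖ with hR
  set S := ∑' y, ‖k x y‖ * ‖g y‖ with hS
  set Q := ∑' y, ‖k x y‖ * ‖g y‖ ^ 2 with hQ
  have s1 := h.row x
  have s2 := row_summable h g x
  have s3 : Summable fun y => ‖k x y‖ * ‖g y‖ ^ 2 := (snd_summable h g).prod_factor x
  have hS0 : 0 ≤ S := tsum_nonneg fun y => by positivity
  have hQ0 : 0 ≤ Q := tsum_nonneg fun y => by positivity
  have h1 : ‖∑' y, k x y * g y‖ ≤ S := by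
    have := norm_tsum_le_tsum_norm (f := fun y => k x y * g y) (by simpa only [norm_mul] using s2)
    simpa only [norm_mul] using this
  have h2 : S ^ 2 ≤ R * Q := by
    have h3 : ∀ t : ℝ, 0 ≤ R * (t * t) + (-2 * S) * t + Q := by
      intro t
      have h4 : ∑' y, ‖k x y‖ * (t - ‖g y‖) ^ 2 = R * (t * t) + (-2 * S) * t + Q := by
        have e1 : ∀ y, ‖k x y‖ * (t - ‖g y‖) ^ 2 = ‖k x y‖ * (t * t) +
            ‖k x y‖ * ‖g y‖ * (-2 * t) + ‖k x y‖ * ‖g y‖ ^ 2 := fun y => by ring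
        rw [tsum_congr e1, Summable.tsum_add ((s1.mul_right _).add (s2.mul_right _)) s3,
          Summable.tsum_add (s1.mul_right _) (s2.mul_right _), tsum_mul_right, tsum_mul_right]
        ring
      rw [← h4]
      exact tsum_nonneg fun y => by positivity
    have h5 := discrim_le_zero h3
    unfold discrim at h5
    nlinarith
  have h6 : R * Q ≤ B * Q := mul_le_mul_of_nonneg_right (h.row_le x) hQ0
  have h7 : ‖∑' y, k x y * g y‖ ^ 2 ≤ S ^ 2 := pow_le_pow_left₀ (norm_nonneg _) h1 2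
  linarith

private theorem out_summable (hB : 0 ≤ B) (h : Sch k B) (g : EE I) :
    (Summable fun x => ‖∑' y, k x y * g y‖ ^ 2) ∧
      ∑' x, ‖∑' y, k x y * g y‖ ^ 2 ≤ (B * ‖g‖) ^ 2 := by
  have h1 := (snd_summable h g).prod
  have h2 : Summable fun x => ‖∑' y, k x y * g y‖ ^ 2 :=
    Summable.of_nonneg_of_le (fun x => by positivity) (fun x => row_cs h g x) (h1.mul_left B)
  refine ⟨h2, ?_⟩
  have h3 := Summable.tsum_le_tsum (fun x => row_cs h g x) h2 (h1.mul_left B)
  rw [tsum_mul_left] at h3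
  have h4 := mul_le_mul_of_nonneg_left (snd_tsum_le h g) hB
  nlinarith

/-- Schur test. Proof: for `g` in the space and every `x` the sum `∑' y, k x y * g y` converges
absolutely and `‖∑ k x y g y‖² ≤ (∑ ‖k x y‖) (∑ ‖k x y‖ ‖g y‖²) ≤ B ∑ ‖k x y‖ ‖g y‖²` (Cauchy-Schwarz); sum over
`x`, exchange the sums (nonnegative terms) and use the columns: `≤ B² ∑ ‖g y‖²`. Note `0 ≤ B` if there is a
state; if `XX I` is empty (`I` empty) all is trivial (then take `T = 0`; the norm of `0` is `0`, but `B`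
may be negative, therefore the hypothesis `0 ≤ B`). -/
theorem exists_op (hB : 0 ≤ B) (h : Sch k B) :
    ∃ T : EE I →L[ℂ] EE I, (∀ g x, T g x = ∑' y, k x y * g y) ∧ ‖T‖ ≤ B := by
  let T : EE I →ₗ[ℂ] EE I :=
    { toFun := fun g => ⟨fun x => ∑' y, k x y * g y, memLp (out_summable hB h g).1⟩
      map_add' := by
        intro g g'
        ext x
        change ∑' y, k x y * (g y + g' y) = ∑' y, k x y * g y + ∑' y, k x y * g' y
        rw [← (sch_summable h g x).tsum_add (sch_summable h g' x)]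
        exact tsum_congr fun y => mul_add _ _ _
      map_smul' := by
        intro c g
        ext x
        change ∑' y, k x y * (c * g y) = c * ∑' y, k x y * g y
        rw [← tsum_mul_left]
        exact tsum_congr fun y => by ring }
  have hT : ∀ g x, T g x = ∑' y, k x y * g y := fun g x => rfl
  have hn : ∀ g, ‖T g‖ ≤ B * ‖g‖ := by
    intro g
    have h1 := (out_summable hB h g).2
    have h2 : ‖T g‖ ^ 2 ≤ (B * ‖g‖) ^ 2 := by
      rw [← sq_norm]
      exact h1
    exact abs_le_of_sq_le_sq' h2 (by positivity) |>.2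
  exact ⟨T.mkContinuous B hn, fun g x => hT g x, T.mkContinuous_norm_le hB hn⟩

theorem op_apply (hB : 0 ≤ B) (h : Sch k B) (g : EE I) (x : XX I) :
    op k g x = ∑' y, k x y * g y := by
  obtain ⟨T, hT, -⟩ := exists_op hB h
  have h1 : ∃ T : EE I →L[ℂ] EE I, ∀ g x, T g x = ∑' y, k x y * g y := ⟨T, hT⟩
  unfold op
  rw [dif_pos h1]
  exact h1.choose_spec g x

theorem norm_op_le (hB : 0 ≤ B) (h : Sch k B) : ‖op k‖ ≤ B := by
  obtain ⟨T, hT, hn⟩ := exists_op hB h
  have h1 : op k = T := by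
    ext g x
    rw [op_apply hB h, hT]
  rw [h1]
  exact hn

/-- By `‖k‖ ‖f‖ ‖g‖ ≤ ‖k‖ (‖f‖² + ‖g‖²) / 2`. -/
theorem pair_summable (h : Sch k B) (f g : EE I) :
    Summable fun p : XX I × XX I => ‖k p.1 p.2‖ * ‖f p.1‖ * ‖g p.2‖ := by
  refine Summable.of_nonneg_of_le (fun p => by positivity) (fun p => ?_)
    ((fst_summable h f).add (snd_summable h g))
  have h1 : ‖f p.1‖ * ‖g p.2‖ ≤ ‖f p.1‖ ^ 2 + ‖g p.2‖ ^ 2 := by
    nlinarith [sq_nonneg (‖f p.1‖ - ‖g p.2‖), sq_nonneg ‖f p.1‖, sq_nonneg ‖g p.2‖]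
  calc ‖k p.1 p.2‖ * ‖f p.1‖ * ‖g p.2‖ = ‖k p.1 p.2‖ * (‖f p.1‖ * ‖g p.2‖) := by ring
    _ ≤ ‖k p.1 p.2‖ * (‖f p.1‖ ^ 2 + ‖g p.2‖ ^ 2) :=
        mul_le_mul_of_nonneg_left h1 (norm_nonneg _)
    _ = _ := by ring

theorem inner_op (hB : 0 ≤ B) (h : Sch k B) (f g : EE I) :
    inner ℂ f (op k g) = ∑' p : XX I × XX I, conj (f p.1) * (k p.1 p.2 * g p.2) := by
  have h1 : Summable fun p : XX I × XX I => conj (f p.1) * (k p.1 p.2 * g p.2) := by
    refine Summable.of_norm ((pair_summable h f g).congr fun p => ?_)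
    rw [norm_mul, norm_mul, RCLike.norm_conj]
    ring
  rw [h1.tsum_prod' h1.prod_factor, lp.inner_eq_tsum]
  refine tsum_congr fun x => ?_
  rw [op_apply hB h, RCLike.inner_apply, mul_comm, ← tsum_mul_left]

theorem op_sub (hB : 0 ≤ B) (hB' : 0 ≤ B') (h : Sch k B) (h' : Sch k' B') :
    Sch (fun x y => k x y - k' x y) (B + B') ∧
      op (fun x y => k x y - k' x y) = op k - op k' := by
  have key : ∀ {u u' : XX I → ℂ} {b b' : ℝ}, (Summable fun y => ‖u y‖) → ∑' y, ‖u y‖ ≤ b →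
      (Summable fun y => ‖u' y‖) → ∑' y, ‖u' y‖ ≤ b' →
      (Summable fun y => ‖u y - u' y‖) ∧ ∑' y, ‖u y - u' y‖ ≤ b + b' := by
    intro u u' b b' h1 h2 h3 h4
    have h5 : Summable fun y => ‖u y - u' y‖ :=
      Summable.of_nonneg_of_le (fun y => norm_nonneg _) (fun y => norm_sub_le _ _) (h1.add h3)
    refine ⟨h5, ?_⟩
    have h6 := Summable.tsum_le_tsum (fun y => norm_sub_le (u y) (u' y)) h5 (h1.add h3)
    rw [Summable.tsum_add h1 h3] at h6
    linarith
  have hs : Sch (fun x y => k x y - k' x y) (B + B') :=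
    ⟨fun x => (key (h.row x) (h.row_le x) (h'.row x) (h'.row_le x)).1,
      fun x => (key (h.row x) (h.row_le x) (h'.row x) (h'.row_le x)).2,
      fun y => (key (h.col y) (h.col_le y) (h'.col y) (h'.col_le y)).1,
      fun y => (key (h.col y) (h.col_le y) (h'.col y) (h'.col_le y)).2⟩
  refine ⟨hs, ?_⟩
  ext g x
  rw [op_apply (add_nonneg hB hB') hs]
  change _ = op k g x - op k' g x
  rw [op_apply hB h, op_apply hB' h', ← (sch_summable h g x).tsum_sub (sch_summable h' g x)]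
  exact tsum_congr fun y => sub_mul _ _ _

end Pool.Agent.KSlab
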