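import Pool.Agent.KSlab.Op

/-! SL2: the bilinear pairing, analytic families of operators and vectors. -/

set_option autoImplicit false

open Complex Set Filter Topology
open scoped ENNReal ComplexConjugate

namespace Pool.Agent.KSlab

variable {I : Type} {k k' : XX I → XX I → ℂ} {B B' : ℝ}

/-! ### The bilinear pairing -/

private theorem opb_star (f g : EE I) (x : XX I) :
    inner ℂ ((star f : EE I) x) (g x) = f x * g x := by
  rw [RCLike.inner_apply, lp.star_apply]
  change g x * conj (conj (f x)) = f x * g x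
  rw [Complex.conj_conj, mul_comm]

theorem bl_summable (f g : EE I) : Summable fun x => f x * g x := by
  have := lp.summable_inner (𝕜 := ℂ) (star f) g
  simp only [opb_star] at this
  exact this

private theorem opb_inner_star (f g : EE I) : inner ℂ (star f) g = ∑' x, f x * g x := by
  rw [lp.inner_eq_tsum]
  exact tsum_congr fun x => opb_star f g x

theorem norm_bl_le (f g : EE I) : ‖∑' x, f x * g x‖ ≤ ‖f‖ * ‖g‖ := by
  rw [← opb_inner_star]
  refine (norm_inner_le_norm _ _).trans ?_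
  rw [norm_star]

theorem bl_op (hB : 0 ≤ B) (h : Sch k B) (hs : ∀ x y, k x y = k y x) (f g : EE I) :
    ∑' x, f x * op k g x = ∑' x, op k f x * g x := by
  have h1 : ∑' x, f x * op k g x = ∑' p : XX I × XX I, f p.1 * (k p.1 p.2 * g p.2) := by
    rw [← opb_inner_star, inner_op hB h]
    refine tsum_congr fun p => ?_
    rw [lp.star_apply]
    change conj (conj (f p.1)) * _ = _
    rw [Complex.conj_conj]
  have h2 : ∑' x, op k f x * g x = ∑' p : XX I × XX I, g p.1 * (k p.1 p.2 * f p.2) := by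
    have h3 : ∑' x, op k f x * g x = ∑' x, g x * op k f x :=
      tsum_congr fun x => mul_comm _ _
    rw [h3, ← opb_inner_star, inner_op hB h]
    refine tsum_congr fun p => ?_
    rw [lp.star_apply]
    change conj (conj (g p.1)) * _ = _
    rw [Complex.conj_conj]
  rw [h1, h2, ← (Equiv.prodComm (XX I) (XX I)).tsum_eq]
  refine tsum_congr fun p => ?_
  change f p.2 * (k p.2 p.1 * g p.1) = g p.1 * (k p.1 p.2 * f p.2)
  rw [hs p.2 p.1]
  ring

/-- The complex conjugate. -/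
theorem inner_star (f g : EE I) : inner ℂ (star f) g = ∑' x, f x * g x :=
  opb_inner_star f g

private theorem opb_two_pos : 0 < (2 : ℝ≥0∞).toReal := by norm_num

private theorem opb_mem {f : XX I → ℂ} {w : XX I → ℝ} (hw : Summable fun x => w x ^ (2 : ℝ))
    (h : ∀ x, ‖f x‖ ≤ w x) : Memℓp f 2 := by
  apply memℓp_gen
  rw [ENNReal.toReal_ofNat]
  refine Summable.of_nonneg_of_le (fun x => by positivity) (fun x => ?_) hw
  exact Real.rpow_le_rpow (norm_nonneg _) (h x) (by norm_num)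

private theorem opb_norm {f w : EE I} {a : ℝ} (ha : 0 ≤ a) (h : ∀ x, ‖f x‖ ≤ a * ‖w x‖) :
    ‖f‖ ≤ a * ‖w‖ := by
  apply lp.norm_le_of_tsum_le opb_two_pos (by positivity)
  rw [Real.mul_rpow ha (norm_nonneg _), lp.norm_rpow_eq_tsum opb_two_pos, ← tsum_mul_left]
  have hs := (lp.memℓp w).summable opb_two_pos
  refine Summable.tsum_le_tsum (fun x => ?_) ((lp.memℓp f).summable opb_two_pos) (hs.mul_left _)
  rw [← Real.mul_rpow ha (norm_nonneg _)]
  exact Real.rpow_le_rpow (norm_nonneg _) (h x) opb_two_pos.le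

/-- The absolute value of a function. -/
theorem exists_abs (g : EE I) : ∃ a : EE I, (∀ x, a x = (‖g x‖ : ℂ)) ∧ ‖a‖ = ‖g‖ := by
  have hm : Memℓp (fun x => (‖g x‖ : ℂ)) 2 := by
    apply memℓp_gen
    have := (lp.memℓp g).summable opb_two_pos
    simpa only [Complex.norm_real, norm_norm] using this
  refine ⟨⟨fun x => (‖g x‖ : ℂ), hm⟩, fun x => rfl, le_antisymm ?_ ?_⟩
  · have := opb_norm (f := (⟨fun x => (‖g x‖ : ℂ), hm⟩ : EE I)) (w := g) zero_le_one
      (fun x => by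
        change ‖(‖g x‖ : ℂ)‖ ≤ 1 * ‖g x‖
        rw [Complex.norm_real, norm_norm, one_mul])
    rwa [one_mul] at this
  · have := opb_norm (f := g) (w := (⟨fun x => (‖g x‖ : ℂ), hm⟩ : EE I)) zero_le_one
      (fun x => by
        change ‖g x‖ ≤ 1 * ‖(‖g x‖ : ℂ)‖
        rw [Complex.norm_real, norm_norm, one_mul])
    rwa [one_mul] at this

theorem toE_apply {g : XX I → ℂ} (h : Memℓp g 2) (x : XX I) : toE g x = g x := by
  unfold toE
  rw [dif_pos h]

/-! ### Analytic families -/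

private theorem opb_swap {X : Type} {a : ℕ → X → ℝ} {b : ℕ → ℝ} (ha : ∀ n x, 0 ≤ a n x)
    (hb : Summable b) (h : ∀ n, Summable (a n) ∧ ∑' x, a n x ≤ b n) :
    (Summable fun p : ℕ × X => a p.1 p.2) ∧ (∀ x, Summable fun n => a n x) ∧
      (Summable fun x => ∑' n, a n x) ∧ ∑' x, ∑' n, a n x ≤ ∑' n, b n := by
  have h1 : Summable fun n => ∑' x, a n x :=
    Summable.of_nonneg_of_le (fun n => tsum_nonneg (ha n)) (fun n => (h n).2) hb
  have h2 : Summable fun p : ℕ × X => a p.1 p.2 :=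
    (summable_prod_of_nonneg fun p => ha p.1 p.2).2 ⟨fun n => (h n).1, h1⟩
  have h3 : Summable fun p : X × ℕ => a p.2 p.1 := h2.prod_symm
  have h4 := (summable_prod_of_nonneg fun p : X × ℕ => ha p.2 p.1).1 h3
  refine ⟨h2, h4.1, h4.2, ?_⟩
  have h5 : ∑' x, ∑' n, a n x = ∑' n, ∑' x, a n x :=
    Summable.tsum_comm (f := fun n x => a n x) h2
  rw [h5]
  exact h1.tsum_le_tsum (fun n => (h n).2) hb

private theorem opb_exp {s : ℂ} (hs : -(1 / 2) < s.re) (n : ℕ) :
    ‖exp (-n * s)‖ ≤ Real.exp (1 / 2) ^ n := by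
  rw [Complex.norm_exp, ← Real.exp_nat_mul]
  apply Real.exp_le_exp.2
  have h1 : (-(n : ℂ) * s).re = -(n : ℝ) * s.re := by
    simp [Complex.mul_re]
  rw [h1]
  have h2 : (0 : ℝ) ≤ n := Nat.cast_nonneg n
  nlinarith

private theorem opb_half : Real.exp (1 / 2) / 2 < 5 / 6 := by
  have h1 : Real.exp (1 / 2) ^ 2 = Real.exp 1 := by
    rw [← Real.exp_nat_mul]
    norm_num
  have h2 := Real.exp_one_lt_d9
  have h3 := Real.exp_pos (1 / 2)
  nlinarith

private theorem opb_geo : Summable (fun n : ℕ => (Real.exp (1 / 2) / 2) ^ n) ∧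
    ∑' n : ℕ, (Real.exp (1 / 2) / 2) ^ n ≤ 6 := by
  have h0 : 0 ≤ Real.exp (1 / 2) / 2 := by positivity
  have h1 := opb_half
  refine ⟨summable_geometric_of_lt_one h0 (h1.trans (by norm_num)), ?_⟩
  rw [tsum_geometric_of_lt_one h0 (h1.trans (by norm_num))]
  rw [inv_le_comm₀ (by linarith) (by norm_num)]
  norm_num
  linarith

private theorem opb_rows {X : Type} {κ : ℕ → X → ℂ} (hB : 0 ≤ B)
    (h : ∀ n, (Summable fun y => ‖κ n y‖) ∧ ∑' y, ‖κ n y‖ ≤ B * (1 / 2) ^ n) {s : ℂ}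
    (hs : -(1 / 2) < s.re) :
    (Summable fun p : ℕ × X => ‖κ p.1 p.2 * exp (-p.1 * s)‖) ∧
    (∀ y, Summable fun n : ℕ => ‖κ n y * exp (-n * s)‖) ∧
    (Summable fun y => ‖∑' n : ℕ, κ n y * exp (-n * s)‖) ∧
    ∑' y, ‖∑' n : ℕ, κ n y * exp (-n * s)‖ ≤ 10 * B := by
  obtain ⟨h1, h2, h3, h4⟩ := opb_swap (a := fun (n : ℕ) y => ‖κ n y * exp (-n * s)‖)
    (b := fun n => B * (Real.exp (1 / 2) / 2) ^ n) (fun n y => norm_nonneg _)
    (opb_geo.1.mul_left B) (fun n => by
      simp only [norm_mul]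
      refine ⟨(h n).1.mul_right _, ?_⟩
      rw [tsum_mul_right]
      calc (∑' y, ‖κ n y‖) * ‖exp (-n * s)‖ ≤ (B * (1 / 2) ^ n) * Real.exp (1 / 2) ^ n :=
            mul_le_mul (h n).2 (opb_exp hs n) (norm_nonneg _) (by positivity)
        _ = B * (Real.exp (1 / 2) / 2) ^ n := by
            rw [mul_assoc, ← mul_pow]
            congr 2
            ring)
  have h5 : ∀ y, ‖∑' n : ℕ, κ n y * exp (-n * s)‖ ≤ ∑' n : ℕ, ‖κ n y * exp (-n * s)‖ :=
    fun y => norm_tsum_le_tsum_norm (h2 y)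
  have h6 : Summable fun y => ‖∑' n : ℕ, κ n y * exp (-n * s)‖ :=
    Summable.of_nonneg_of_le (fun y => norm_nonneg _) h5 h3
  refine ⟨h1, h2, h6, (h6.tsum_le_tsum h5 h3).trans (h4.trans ?_)⟩
  rw [tsum_mul_left]
  nlinarith [opb_geo.2]

private noncomputable def opb_ev (x : XX I) : EE I →L[ℂ] ℂ :=
  LinearMap.mkContinuous
    { toFun := fun f => f x
      map_add' := fun f g => by rw [lp.coeFn_add, Pi.add_apply]
      map_smul' := fun c f => by rw [lp.coeFn_smul, Pi.smul_apply, RingHom.id_apply] } 1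
    (fun f => by
      rw [one_mul]
      exact lp.norm_apply_le_norm (by norm_num) f x)

private theorem opb_ev_apply (x : XX I) (f : EE I) : opb_ev x f = f x := rfl

/-- With `x = e^{1/2} / 2 < 5/6` the norms of the terms are at most `B x ^ n`. -/
theorem sch_series {k : ℕ → XX I → XX I → ℝ} (hB : 0 ≤ B)
    (h : ∀ n, Sch (fun x y => ((k n x y : ℝ) : ℂ)) (B * (1 / 2) ^ n)) {s : ℂ}
    (hs : -(1 / 2) < s.re) :
    (∀ x y, Summable fun n : ℕ => ((k n x y : ℝ) : ℂ) * exp (-n * s)) ∧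
    Sch (fun x y => ∑' n : ℕ, ((k n x y : ℝ) : ℂ) * exp (-n * s)) (10 * B) := by
  have h1 := fun x => opb_rows (κ := fun n y => ((k n x y : ℝ) : ℂ)) hB
    (fun n => ⟨(h n).row x, (h n).row_le x⟩) hs
  have h2 := fun y => opb_rows (κ := fun n x => ((k n x y : ℝ) : ℂ)) hB
    (fun n => ⟨(h n).col y, (h n).col_le y⟩) hs
  exact ⟨fun x y => ((h1 x).2.1 y).of_norm, fun x => (h1 x).2.2.1, fun x => (h1 x).2.2.2,
    fun y => (h2 y).2.2.1, fun y => (h2 y).2.2.2⟩

/-- The operator is the sum of the series `exp (-n s) • op (k n)`, which converges in norm, locally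
uniformly (`differentiableOn_tsum_of_summable_norm`). -/
theorem op_series {k : ℕ → XX I → XX I → ℝ} (hB : 0 ≤ B)
    (h : ∀ n, Sch (fun x y => ((k n x y : ℝ) : ℂ)) (B * (1 / 2) ^ n)) :
    DifferentiableOn ℂ (fun s : ℂ => op fun x y => ∑' n : ℕ, ((k n x y : ℝ) : ℂ) * exp (-n * s))
      {s | -(1 / 2) < s.re} := by
  set F : ℕ → ℂ → (EE I →L[ℂ] EE I) := fun n s =>
    exp (-n * s) • op (fun x y => ((k n x y : ℝ) : ℂ)) with hF
  have hBn : ∀ n : ℕ, 0 ≤ B * (1 / 2) ^ n := fun n => by positivity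
  have hle : ∀ (n : ℕ) (s : ℂ), s ∈ {s : ℂ | -(1 / 2) < s.re} →
      ‖F n s‖ ≤ B * (Real.exp (1 / 2) / 2) ^ n := by
    intro n s hs
    simp only [hF, norm_smul]
    calc ‖exp (-n * s)‖ * ‖op (fun x y => ((k n x y : ℝ) : ℂ))‖
        ≤ Real.exp (1 / 2) ^ n * (B * (1 / 2) ^ n) :=
          mul_le_mul (opb_exp hs n) (norm_op_le (hBn n) (h n)) (norm_nonneg _) (by positivity)
      _ = B * (Real.exp (1 / 2) / 2) ^ n := by
          rw [mul_left_comm, ← mul_pow]
          congr 2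
          ring
  have hopen : IsOpen {s : ℂ | -(1 / 2) < s.re} := isOpen_lt continuous_const continuous_re
  have hdiff := differentiableOn_tsum_of_summable_norm (F := F)
    (opb_geo.1.mul_left B) (fun n => by
      apply DifferentiableOn.smul_const
      fun_prop) hopen hle
  refine hdiff.congr fun s hs => ?_
  have hs' : -(1 / 2) < s.re := hs
  have hsum : Summable fun n => F n s :=
    Summable.of_norm_bounded (opb_geo.1.mul_left B) fun n => hle n s hs
  ext g x
  have h1 := (sch_series hB h hs').2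
  rw [op_apply (by positivity) h1]
  have h2 : HasSum (fun n => F n s g x) ((∑' n, F n s) g x) :=
    (hsum.hasSum.mapL (ContinuousLinearMap.apply ℂ (EE I) g)).mapL (opb_ev x)
  rw [← h2.tsum_eq]
  have h3 : ∀ n, F n s g x = ∑' y, ((k n x y : ℝ) : ℂ) * exp (-n * s) * g y := by
    intro n
    simp only [hF]
    rw [smul_apply, lp.coeFn_smul, Pi.smul_apply,
      op_apply (hBn n) (h n), smul_eq_mul, ← tsum_mul_left]
    refine tsum_congr fun y => ?_
    ring
  simp only [h3]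
  have h4 : ∀ y, (∑' n : ℕ, ((k n x y : ℝ) : ℂ) * exp (-n * s)) * g y =
      ∑' n : ℕ, ((k n x y : ℝ) : ℂ) * exp (-n * s) * g y := fun y => by rw [tsum_mul_right]
  simp only [h4]
  have h5 := (opb_rows (κ := fun n y => ((k n x y : ℝ) : ℂ)) hB
    (fun n => ⟨(h n).row x, (h n).row_le x⟩) hs').1
  have h6 : Summable fun p : ℕ × XX I => ((k p.1 x p.2 : ℝ) : ℂ) * exp (-p.1 * s) * g p.2 := by
    refine Summable.of_norm_bounded (h5.mul_right ‖g‖) fun p => ?_
    rw [norm_mul]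
    exact mul_le_mul_of_nonneg_left (lp.norm_apply_le_norm (by norm_num) g p.2) (norm_nonneg _)
  exact Summable.tsum_comm (f := fun (n : ℕ) y => ((k n x y : ℝ) : ℂ) * exp (-n * s) * g y) h6

/-- Families of functions with exponential decay in the displacement. -/
theorem vec_series [Fintype I] {c : ℕ → XX I → ℝ} {C : ℝ} (hc : ∀ n x, 0 ≤ c n x)
    (h : ∀ x, (Summable fun n => 2 ^ n * c n x) ∧
      ∑' n, 2 ^ n * c n x ≤ C * (1 / 4) ^ x.1.natAbs) :
    (∀ s : ℂ, -(1 / 2) < s.re → Memℓp (fun x => ∑' n : ℕ, ((c n x : ℝ) : ℂ) * exp (-n * s)) 2) ∧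
    DifferentiableOn ℂ (fun s : ℂ => toE fun x => ∑' n : ℕ, ((c n x : ℝ) : ℂ) * exp (-n * s))
      {s | -(1 / 2) < s.re} := by
  have hw : Summable fun x : XX I => ((1 / 4 : ℝ) ^ x.1.natAbs) ^ (2 : ℝ) := by
    have h1 : Summable fun t : ℤ => ((1 / 4 : ℝ) ^ t.natAbs) ^ (2 : ℝ) := by
      have h2 : Summable fun n : ℕ => ((1 / 4 : ℝ) ^ n) ^ (2 : ℝ) := by
        have h3 : ∀ n : ℕ, ((1 / 4 : ℝ) ^ n) ^ (2 : ℝ) = (1 / 16) ^ n := by
          intro n
          rw [Real.rpow_ofNat, ← pow_mul, mul_comm n 2, pow_mul]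
          norm_num
        simp only [h3]
        exact summable_geometric_of_lt_one (by norm_num) (by norm_num)
      apply Summable.of_nat_of_neg
      · simpa using h2
      · simpa using h2
    refine (summable_prod_of_nonneg fun p => by positivity).2 ⟨fun t => Summable.of_finite, ?_⟩
    simp only [tsum_fintype, Finset.sum_const, nsmul_eq_mul]
    exact h1.mul_left _
  have hwC : ∀ a : ℝ, 0 ≤ a → Summable fun x : XX I => (a * (1 / 4 : ℝ) ^ x.1.natAbs) ^ (2 : ℝ) := by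
    intro a ha
    have h1 := hw.mul_left (a ^ (2 : ℝ))
    refine h1.congr fun x => ?_
    rw [Real.mul_rpow ha (by positivity)]
  have hCx : ∀ x : XX I, C * (1 / 4) ^ x.1.natAbs ≤ |C| * (1 / 4) ^ x.1.natAbs := fun x =>
    mul_le_mul_of_nonneg_right (le_abs_self C) (by positivity)
  have he2 : Real.exp (1 / 2) ≤ 2 := by linarith [opb_half]
  have hterm : ∀ (s : ℂ), -(1 / 2) < s.re → ∀ (n : ℕ) (x : XX I),
      ‖((c n x : ℝ) : ℂ) * exp (-n * s)‖ ≤ 2 ^ n * c n x := by
    intro s hs n x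
    rw [norm_mul, Complex.norm_real, Real.norm_of_nonneg (hc n x), mul_comm]
    exact mul_le_mul_of_nonneg_right ((opb_exp hs n).trans
      (pow_le_pow_left₀ (Real.exp_pos _).le he2 n)) (hc n x)
  have hmem : ∀ s : ℂ, -(1 / 2) < s.re →
      Memℓp (fun x : XX I => ∑' n : ℕ, ((c n x : ℝ) : ℂ) * exp (-n * s)) 2 := by
    intro s hs
    refine opb_mem (hwC |C| (abs_nonneg C)) fun x => ?_
    exact (tsum_of_norm_bounded (h x).1.hasSum fun n => hterm s hs n x).trans
      ((h x).2.trans (hCx x))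
  refine ⟨hmem, ?_⟩
  have hcn : ∀ (n : ℕ) (x : XX I), c n x ≤ (|C| * (1 / 2) ^ n) * (1 / 4) ^ x.1.natAbs := by
    intro n x
    have h1 : 2 ^ n * c n x ≤ |C| * (1 / 4) ^ x.1.natAbs :=
      ((h x).1.le_tsum n fun m _ => mul_nonneg (by positivity) (hc m x)).trans
        ((h x).2.trans (hCx x))
    have h2 : c n x = (1 / 2) ^ n * (2 ^ n * c n x) := by
      rw [← mul_assoc, ← mul_pow]
      norm_num
    rw [h2]
    calc (1 / 2) ^ n * (2 ^ n * c n x) ≤ (1 / 2) ^ n * (|C| * (1 / 4) ^ x.1.natAbs) :=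
          mul_le_mul_of_nonneg_left h1 (by positivity)
      _ = _ := by ring
  have hmw : Memℓp (fun x : XX I => (((1 / 4 : ℝ) ^ x.1.natAbs : ℝ) : ℂ)) 2 := by
    refine opb_mem hw fun x => ?_
    rw [Complex.norm_real, Real.norm_of_nonneg (by positivity)]
  set W : EE I := toE fun x : XX I => (((1 / 4 : ℝ) ^ x.1.natAbs : ℝ) : ℂ) with hW
  have hWx : ∀ x, ‖W x‖ = (1 / 4 : ℝ) ^ x.1.natAbs := by
    intro x
    rw [hW, toE_apply hmw, Complex.norm_real, Real.norm_of_nonneg (by positivity)]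
  have hmc : ∀ n, Memℓp (fun x : XX I => ((c n x : ℝ) : ℂ)) 2 := by
    intro n
    refine opb_mem (hwC (|C| * (1 / 2) ^ n) (by positivity)) fun x => ?_
    rw [Complex.norm_real, Real.norm_of_nonneg (hc n x)]
    exact hcn n x
  have hnc : ∀ n, ‖(toE (fun x : XX I => ((c n x : ℝ) : ℂ)) : EE I)‖ ≤
      (|C| * (1 / 2) ^ n) * ‖W‖ := by
    intro n
    refine opb_norm (by positivity) fun x => ?_
    rw [toE_apply (hmc n), Complex.norm_real, Real.norm_of_nonneg (hc n x), hWx]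
    exact hcn n x
  set F : ℕ → ℂ → EE I := fun n s => exp (-n * s) • toE (fun x : XX I => ((c n x : ℝ) : ℂ))
    with hF
  have hle : ∀ (n : ℕ) (s : ℂ), s ∈ {s : ℂ | -(1 / 2) < s.re} →
      ‖F n s‖ ≤ (|C| * ‖W‖) * (Real.exp (1 / 2) / 2) ^ n := by
    intro n s hs
    simp only [hF, norm_smul]
    calc ‖exp (-n * s)‖ * ‖(toE (fun x : XX I => ((c n x : ℝ) : ℂ)) : EE I)‖
        ≤ Real.exp (1 / 2) ^ n * ((|C| * (1 / 2) ^ n) * ‖W‖) :=
          mul_le_mul (opb_exp hs n) (hnc n) (norm_nonneg _) (by positivity)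
      _ = (|C| * ‖W‖) * (Real.exp (1 / 2) ^ n * (1 / 2) ^ n) := by ring
      _ = (|C| * ‖W‖) * (Real.exp (1 / 2) / 2) ^ n := by
          rw [← mul_pow]
          congr 2
          ring
  have hopen : IsOpen {s : ℂ | -(1 / 2) < s.re} := isOpen_lt continuous_const continuous_re
  have hdiff := differentiableOn_tsum_of_summable_norm (F := F)
    (opb_geo.1.mul_left (|C| * ‖W‖)) (fun n => by
      apply DifferentiableOn.smul_const
      fun_prop) hopen hle
  refine hdiff.congr fun s hs => ?_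
  have hsum : Summable fun n => F n s :=
    Summable.of_norm_bounded (opb_geo.1.mul_left (|C| * ‖W‖)) fun n => hle n s hs
  ext x
  rw [toE_apply (hmem s hs)]
  have h2 : HasSum (fun n => F n s x) ((∑' n, F n s) x) := hsum.hasSum.mapL (opb_ev x)
  rw [← h2.tsum_eq]
  refine tsum_congr fun n => ?_
  simp only [hF]
  rw [lp.coeFn_smul, Pi.smul_apply, toE_apply (hmc n), smul_eq_mul, mul_comm]

end Pool.Agent.KSlab
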