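import Pool.Agent.KSlab.Real

/-! SL14: the Neumann series at real points. -/

set_option autoImplicit false

open Complex Set Filter Topology
open scoped ENNReal

namespace Pool.Agent.KSlab

namespace Slb

variable {I : Type} [Fintype I] {κ : Slb I}

/-- nonnegative functions -/
private def NN (f : EE I) : Prop := ∀ x, 0 ≤ (f x).re ∧ (f x).im = 0

omit [Fintype I] in
private theorem re_inner_nonneg {f g : EE I} (hf : NN f) (hg : NN g) :
    0 ≤ (inner ℂ f g).re := by
  rw [lp.inner_eq_tsum, Complex.re_tsum (lp.summable_inner f g)]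
  refine tsum_nonneg fun x => ?_
  have h1 : inner ℂ (f x) (g x) = g x * (starRingEnd ℂ) (f x) := RCLike.inner_apply _ _
  rw [h1, Complex.mul_re, Complex.conj_re, Complex.conj_im, (hf x).2, (hg x).2]
  have := mul_nonneg (hg x).1 (hf x).1
  linarith

omit [Fintype I] in
private theorem sq_add_le {f g : EE I} (hf : NN f) (hg : NN g) :
    ‖f‖ ^ 2 + ‖g‖ ^ 2 ≤ ‖f + g‖ ^ 2 := by
  rw [@norm_add_sq ℂ]
  have h1 : 0 ≤ RCLike.re (inner ℂ f g) := re_inner_nonneg hf hg
  linarith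

omit [Fintype I] in
private theorem summable_c (hκ : κ.Ok) {σ : ℝ} (hσ : 0 ≤ σ) (x : XX I) :
    Summable fun n : ℕ => κ.c n x * Real.exp (-n * σ) := by
  obtain ⟨C, hC⟩ := hκ.c_sum
  refine Summable.of_nonneg_of_le (fun n => mul_nonneg (hκ.c_nn n x) (Real.exp_pos _).le)
    (fun n => ?_) (hC x).1
  rw [mul_comm]
  refine mul_le_mul_of_nonneg_right ?_ (hκ.c_nn n x)
  have h1 : Real.exp (-n * σ) ≤ 1 := by
    rw [Real.exp_le_one_iff]
    have : (0 : ℝ) ≤ n * σ := by positivity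
    linarith
  exact h1.trans (one_le_pow₀ (by norm_num))

omit [Fintype I] in
private theorem summable_k (hκ : κ.Ok) {σ : ℝ} (hσ : 0 ≤ σ) (x y : XX I) :
    Summable fun n : ℕ => κ.k n x y * Real.exp (-n * σ) := by
  have h0 : Summable fun n : ℕ => 2 ^ n * κ.k n x y :=
    (hκ.k_sum x).comp_injective (i := fun n : ℕ => (n, y)) fun a b h => congrArg Prod.fst h
  refine Summable.of_nonneg_of_le (fun n => mul_nonneg (hκ.k_nn n x y) (Real.exp_pos _).le)
    (fun n => ?_) h0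
  rw [mul_comm]
  refine mul_le_mul_of_nonneg_right ?_ (hκ.k_nn n x y)
  have h1 : Real.exp (-n * σ) ≤ 1 := by
    rw [Real.exp_le_one_iff]
    have : (0 : ℝ) ≤ n * σ := by positivity
    linarith
  exact h1.trans (one_le_pow₀ (by norm_num))

omit [Fintype I] in
private theorem MM_anti (hκ : κ.Ok) {σ σ' : ℝ} (hσ' : 0 ≤ σ') (h : σ' ≤ σ) (N : ℕ) :
    ∀ x, κ.MM σ N x ≤ κ.MM σ' N x := by
  have he : ∀ n : ℕ, Real.exp (-n * σ) ≤ Real.exp (-n * σ') := by
    intro n
    rw [Real.exp_le_exp]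
    have : (n : ℝ) * σ' ≤ n * σ := mul_le_mul_of_nonneg_left h (Nat.cast_nonneg n)
    linarith
  induction N with
  | zero =>
    intro x
    change κ.cE σ x ≤ κ.cE σ' x
    refine ENNReal.ofReal_le_ofReal ?_
    exact (summable_c hκ (hσ'.trans h) x).tsum_le_tsum
      (fun n => mul_le_mul_of_nonneg_left (he n) (hκ.c_nn n x)) (summable_c hκ hσ' x)
  | succ N ih =>
    intro x
    change ∑' y, κ.MM σ N y * κ.kE σ y x ≤ ∑' y, κ.MM σ' N y * κ.kE σ' y x
    refine ENNReal.tsum_le_tsum fun y => mul_le_mul' (ih y) ?_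
    refine ENNReal.ofReal_le_ofReal ?_
    exact (summable_k hκ (hσ'.trans h) y x).tsum_le_tsum
      (fun n => mul_le_mul_of_nonneg_left (he n) (hκ.k_nn n y x)) (summable_k hκ hσ' y x)

omit [Fintype I] in
private theorem cs_real (σ : ℝ) (x : XX I) :
    κ.cs (σ : ℂ) x = ((∑' n : ℕ, κ.c n x * Real.exp (-n * σ) : ℝ) : ℂ) := by
  rw [Complex.ofReal_tsum]
  refine tsum_congr fun n => ?_
  push_cast
  rfl

omit [Fintype I] in
/-- the finite sums -/
private theorem sum_apply (μ : ℕ → EE I) (s : Finset ℕ) (x : XX I) :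
    (∑ N ∈ s, μ N) x = ∑ N ∈ s, μ N x := by
  classical
  induction s using Finset.induction_on with
  | empty => rfl
  | insert a s ha ih =>
    rw [Finset.sum_insert ha, Finset.sum_insert ha, ← ih]
    rfl

private theorem EF_nonneg (hκ : κ.Ok) (g : XX I → ℂ) : 0 ≤ κ.EF g := by
  refine tsum_nonneg fun p => ?_
  have h1 := (hκ.Fx_prop p.1 p.2).1
  have h2 := (hκ.h_pos p.1.2).le
  have h3 := (hκ.h_pos p.2.2).le
  unfold ef
  positivity

/-- the finite sums are bounded for small parameters -/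
private theorem bound_small (hκ : κ.Ok) {σ : ℝ} (hσ : 0 < σ) (hσ1 : σ < 40 * κ.z)
    {μ : ℕ → EE I} (hμ : ∀ N x, κ.MM σ N x ≠ ⊤ ∧ μ N x = ((κ.MM σ N x).toReal : ℂ))
    (hμ0 : μ 0 = toE (κ.cs σ)) (n : ℕ) : ‖∑ N ∈ Finset.range n, μ N‖ ≤ 4 * ‖μ 0‖ / σ := by
  set S : EE I := ∑ N ∈ Finset.range n, μ N with hSdef
  have hS : ∀ x, S x = ((∑ N ∈ Finset.range n, (κ.MM σ N x).toReal : ℝ) : ℂ) := by
    intro x
    rw [hSdef, sum_apply, Complex.ofReal_sum]
    exact Finset.sum_congr rfl fun N _ => (hμ N x).2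
  have hmem : Memℓp (κ.cs (σ : ℂ)) 2 := hκ.cs_mem (by rw [Complex.ofReal_re]; linarith)
  have h0 : ∀ x, κ.cs (σ : ℂ) x = μ 0 x := fun x => by rw [hμ0, toE_apply hmem]
  have h1 := hκ.energy hσ.le hσ1 n S hS
  have h2 : ((∑' x, (S x).re * (κ.cs (σ : ℂ) x).re : ℝ) : ℂ) = ∑' x, S x * μ 0 x := by
    rw [Complex.ofReal_tsum]
    refine tsum_congr fun x => ?_
    rw [← h0, hS, cs_real, Complex.ofReal_re, Complex.ofReal_re, Complex.ofReal_mul]
  have h3 : ∑' x, (S x).re * (κ.cs (σ : ℂ) x).re ≤ ‖S‖ * ‖μ 0‖ := by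
    refine (le_abs_self _).trans ?_
    rw [← Real.norm_eq_abs, ← Complex.norm_real, h2]
    exact norm_bl_le S (μ 0)
  have h4 := EF_nonneg hκ S
  have h5 : σ / 4 * ‖S‖ ^ 2 ≤ ‖S‖ * ‖μ 0‖ := by linarith
  rcases (norm_nonneg S).eq_or_lt with h6 | h6
  · rw [← h6]
    positivity
  · rw [le_div_iff₀ hσ]
    have h7 : σ / 4 * ‖S‖ ≤ ‖μ 0‖ := by
      by_contra hcon
      push Not at hcon
      have := mul_lt_mul_of_pos_left hcon h6
      nlinarith
    linarith

/-- For `σ > 0` the Neumann series converges to the resolvent. For `0 < σ < 40 z`: by `energy`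
`σ/4 ‖S‖² ≤ ‖S‖ ‖c_σ‖`, so the finite sums are bounded; they are monotone, so they form a Cauchy
sequence, the limit `m` satisfies `m = c_σ + K_σ m`, so `m = GS σ c_σ`. For larger `σ` all terms
are smaller than those for `σ' = 39 z`, so the same argument works. Then sum against `c_σ`. -/
theorem Ok.U1_real (hκ : κ.Ok) {σ : ℝ} (hσ : 0 < σ) :
    (κ.U1 σ).im = 0 ∧ 0 ≤ (κ.U1 σ).re ∧
    ∑' N, ∑' x, κ.MM σ N x * κ.cE σ x = ENNReal.ofReal (κ.U1 σ).re := by
  obtain ⟨μ, hμ, hμs, hμ0, -, -⟩ := hκ.exists_iter hσ.le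
  have hmem : Memℓp (κ.cs (σ : ℂ)) 2 := hκ.cs_mem (by rw [Complex.ofReal_re]; linarith)
  set S : ℕ → EE I := fun n => ∑ N ∈ Finset.range n, μ N with hSdef
  have hμNN : ∀ N, NN (μ N) := by
    intro N x
    rw [(hμ N x).2, Complex.ofReal_re, Complex.ofReal_im]
    exact ⟨ENNReal.toReal_nonneg, rfl⟩
  have hNNsum : ∀ s : Finset ℕ, NN (∑ N ∈ s, μ N) := by
    intro s x
    rw [sum_apply, Complex.re_sum, Complex.im_sum]
    exact ⟨Finset.sum_nonneg fun N _ => (hμNN N x).1, Finset.sum_eq_zero fun N _ => (hμNN N x).2⟩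
  -- the finite sums are bounded
  have hbound : ∃ B : ℝ, ∀ n, ‖S n‖ ≤ B := by
    by_cases hσ1 : σ < 40 * κ.z
    · exact ⟨_, bound_small hκ hσ hσ1 hμ hμ0⟩
    · have hz := hκ.z_pos
      obtain ⟨μ', hμ', -, hμ0', -, -⟩ := hκ.exists_iter (σ := 39 * κ.z) (by linarith)
      refine ⟨_, fun n => le_trans ?_
        (bound_small hκ (σ := 39 * κ.z) (by linarith) (by linarith) hμ' hμ0' n)⟩
      have h1 : NN (∑ N ∈ Finset.range n, μ' N - S n) := by
        intro x
        have h2 : (∑ N ∈ Finset.range n, μ' N - S n) x =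
            ((∑ N ∈ Finset.range n, ((κ.MM (39 * κ.z) N x).toReal - (κ.MM σ N x).toReal) : ℝ) :
              ℂ) := by
          change (∑ N ∈ Finset.range n, μ' N) x - (∑ N ∈ Finset.range n, μ N) x = _
          rw [sum_apply, sum_apply, Complex.ofReal_sum, ← Finset.sum_sub_distrib]
          refine Finset.sum_congr rfl fun N _ => ?_
          rw [(hμ' N x).2, (hμ N x).2, Complex.ofReal_sub]
        rw [h2, Complex.ofReal_re, Complex.ofReal_im]
        refine ⟨Finset.sum_nonneg fun N _ => sub_nonneg.2 ?_, rfl⟩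
        exact ENNReal.toReal_mono (hμ' N x).1 (MM_anti hκ (by linarith) (by linarith) N x)
      have h2 := sq_add_le (hNNsum (Finset.range n)) h1
      rw [add_sub_cancel] at h2
      exact le_of_sq_le_sq (by linarith [sq_nonneg ‖∑ N ∈ Finset.range n, μ' N - S n‖])
        (norm_nonneg _)
  obtain ⟨B, hB⟩ := hbound
  -- they form a Cauchy sequence
  have hstep : ∀ n m, n ≤ m → ‖S n‖ ^ 2 + ‖S m - S n‖ ^ 2 ≤ ‖S m‖ ^ 2 := by
    intro n m hnm
    have h1 : S m - S n = ∑ N ∈ Finset.Ico n m, μ N := by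
      rw [Finset.sum_Ico_eq_sub _ hnm]
    have h2 := sq_add_le (hNNsum (Finset.range n)) (hNNsum (Finset.Ico n m))
    rw [← h1] at h2
    have h3 : ∑ N ∈ Finset.range n, μ N + (S m - S n) = S m := add_sub_cancel _ _
    rw [h3] at h2
    exact h2
  have hmono : Monotone fun n => ‖S n‖ ^ 2 := by
    intro n m hnm
    have h1 := hstep n m hnm
    have h2 := sq_nonneg ‖S m - S n‖
    change ‖S n‖ ^ 2 ≤ ‖S m‖ ^ 2
    linarith
  have hbdd : BddAbove (range fun n => ‖S n‖ ^ 2) := by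
    refine ⟨B ^ 2, ?_⟩
    rintro _ ⟨n, rfl⟩
    exact pow_le_pow_left₀ (norm_nonneg _) (hB n) 2
  have hlim := tendsto_atTop_ciSup hmono hbdd
  have hcauchy : CauchySeq S := by
    refine cauchySeq_of_le_tendsto_0' (fun n => Real.sqrt ((⨆ i, ‖S i‖ ^ 2) - ‖S n‖ ^ 2))
      (fun n m hnm => ?_) ?_
    · rw [dist_comm, dist_eq_norm]
      refine Real.le_sqrt_of_sq_le ?_
      have h1 := hstep n m hnm
      have h2 := le_ciSup hbdd m
      linarith
    · have h1 : Tendsto (fun n => (⨆ i, ‖S i‖ ^ 2) - ‖S n‖ ^ 2) atTop (𝓝 0) := by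
        have := hlim.const_sub (⨆ i, ‖S i‖ ^ 2)
        rwa [sub_self] at this
      have h2 := (Real.continuous_sqrt.tendsto 0).comp h1
      rwa [Real.sqrt_zero] at h2
  obtain ⟨T, hT⟩ := cauchySeq_tendsto_of_complete hcauchy
  -- the limit is the resolvent
  have hrec : ∀ n, S (n + 1) = μ 0 + κ.KS σ (S n) := by
    intro n
    change ∑ N ∈ Finset.range (n + 1), μ N = μ 0 + κ.KS σ (∑ N ∈ Finset.range n, μ N)
    rw [Finset.sum_range_succ', map_sum, add_comm]
    congr 1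
    exact Finset.sum_congr rfl fun N _ => hμs N
  have hTeq : T = μ 0 + κ.KS σ T := by
    have h1 : Tendsto (fun n => S (n + 1)) atTop (𝓝 T) := hT.comp (tendsto_add_atTop_nat 1)
    have h2 : Tendsto (fun n => μ 0 + κ.KS σ (S n)) atTop (𝓝 (μ 0 + κ.KS σ T)) :=
      (((κ.KS σ).continuous.tendsto T).comp hT).const_add _
    refine tendsto_nhds_unique h1 (h2.congr fun n => (hrec n).symm)
  have hGS : κ.GS σ (toE (κ.cs σ)) = T := by
    have h1 : (1 - κ.KS σ) T = toE (κ.cs σ) := by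
      rw [← hμ0]
      change T - κ.KS σ T = μ 0
      exact sub_eq_of_eq_add hTeq
    have h2 : κ.GS σ * (1 - κ.KS σ) = 1 :=
      Ring.inverse_mul_cancel _ (hκ.half_unit (by rwa [Complex.ofReal_re]))
    rw [← h1]
    exact congrArg (fun A : EE I →L[ℂ] EE I => A T) h2
  -- the pairing with the sources
  set r : ℕ → ℝ := fun N => ∑' x, (μ 0 x).re * (μ N x).re with hr
  have hterm : ∀ N x, (((μ 0 x).re * (μ N x).re : ℝ) : ℂ) = μ 0 x * μ N x := by
    intro N x
    rw [(hμ 0 x).2, (hμ N x).2, Complex.ofReal_re, Complex.ofReal_re, Complex.ofReal_mul]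
  have hrN : ∀ N, ((r N : ℝ) : ℂ) = inner ℂ (star (μ 0)) (μ N) := by
    intro N
    rw [inner_star, hr, Complex.ofReal_tsum]
    exact tsum_congr fun x => hterm N x
  have hr0 : ∀ N, 0 ≤ r N := fun N =>
    tsum_nonneg fun x => mul_nonneg (hμNN 0 x).1 (hμNN N x).1
  have hU : κ.U1 σ = inner ℂ (star (μ 0)) T := by
    rw [inner_star, U1, hGS]
    refine tsum_congr fun x => ?_
    rw [hμ0, toE_apply hmem]
  have hlimU : Tendsto (fun n => ((∑ N ∈ Finset.range n, r N : ℝ) : ℂ)) atTop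
      (𝓝 (κ.U1 σ)) := by
    rw [hU]
    have h1 : Tendsto (fun n => inner ℂ (star (μ 0)) (S n)) atTop
        (𝓝 (inner ℂ (star (μ 0)) T)) := Tendsto.inner tendsto_const_nhds hT
    refine h1.congr fun n => ?_
    rw [Complex.ofReal_sum]
    change inner ℂ (star (μ 0)) (∑ N ∈ Finset.range n, μ N) = _
    rw [inner_sum]
    exact Finset.sum_congr rfl fun N _ => (hrN N).symm
  have hre : Tendsto (fun n => ∑ N ∈ Finset.range n, r N) atTop (𝓝 (κ.U1 σ).re) := by
    have := (Complex.continuous_re.tendsto _).comp hlimU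
    refine this.congr fun n => ?_
    exact Complex.ofReal_re _
  have him : (κ.U1 σ).im = 0 := by
    have h1 := (Complex.continuous_im.tendsto _).comp hlimU
    refine tendsto_nhds_unique h1 ?_
    refine tendsto_const_nhds.congr fun n => ?_
    exact (Complex.ofReal_im _).symm
  refine ⟨him, ge_of_tendsto' hre fun n => Finset.sum_nonneg fun N _ => hr0 N, ?_⟩
  have hE : ∀ N, ∑' x, κ.MM σ N x * κ.cE σ x = ENNReal.ofReal (r N) := by
    intro N
    have hs : Summable fun x => (μ 0 x).re * (μ N x).re := by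
      have h1 := bl_summable (μ 0) (μ N)
      rw [← Complex.summable_ofReal]
      exact h1.congr fun x => (hterm N x).symm
    rw [hr, ENNReal.ofReal_tsum_of_nonneg (fun x => mul_nonneg (hμNN 0 x).1 (hμNN N x).1) hs]
    refine tsum_congr fun x => ?_
    rw [ENNReal.ofReal_mul (hμNN 0 x).1, (hμ 0 x).2, (hμ N x).2, Complex.ofReal_re,
      Complex.ofReal_re, ENNReal.ofReal_toReal (hμ 0 x).1, ENNReal.ofReal_toReal (hμ N x).1,
      mul_comm]
    rfl
  have h1 : Tendsto (fun n => ∑ N ∈ Finset.range n, ENNReal.ofReal (r N)) atTop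
      (𝓝 (∑' N, ENNReal.ofReal (r N))) := ENNReal.tendsto_nat_tsum _
  have h2 : Tendsto (fun n => ∑ N ∈ Finset.range n, ENNReal.ofReal (r N)) atTop
      (𝓝 (ENNReal.ofReal (κ.U1 σ).re)) := by
    refine ((ENNReal.continuous_ofReal.tendsto _).comp hre).congr fun n => ?_
    exact ENNReal.ofReal_sum_of_nonneg fun N _ => hr0 N
  rw [tsum_congr hE]
  exact tendsto_nhds_unique h1 h2

end Slb

end Pool.Agent.KSlab
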