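import Pool.Agent.KSlab.Asy
import Pool.Agent.KSlab.RealB

/-! SL30: the trial function and its residual as square summable functions. -/

set_option autoImplicit false

open Complex Set Filter Topology

namespace Pool.Agent.KSlab

namespace Slb

variable {I : Type} [Fintype I] {κ : Slb I} {m : XX I → ℝ}

private theorem trial_mem {β r C : ℝ} (hA : Asy κ m β r C) (hκ : κ.Ok) {w : ℂ} (hw : InK w) :
    Memℓp (fun x : XX I => (m x : ℂ) * phi w x.1) 2 := by
  have hr : 0 ≤ r := by linarith [hA.r_ge]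
  set B : ℝ := C + β * ∑ i, κ.h i with hB
  have hm : ∀ x : XX I, |m x| ≤ B := by
    intro x
    have h1 := hA.bd x
    have h2 : C * r ^ x.1.natAbs ≤ C :=
      mul_le_of_le_one_right hA.C_nn (pow_le_one₀ hr hA.r_lt.le)
    have h3 : κ.h x.2 ≤ ∑ i, κ.h i :=
      Finset.single_le_sum (f := κ.h) (fun j _ => (hκ.h_pos j).le) (Finset.mem_univ x.2)
    have h4 : |β * κ.h x.2| ≤ β * ∑ i, κ.h i := by
      rw [abs_of_nonneg (mul_nonneg hA.β_pos.le (hκ.h_pos _).le)]
      exact mul_le_mul_of_nonneg_left h3 hA.β_pos.le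
    calc |m x| = |(m x - β * κ.h x.2) + β * κ.h x.2| := by rw [sub_add_cancel]
      _ ≤ |m x - β * κ.h x.2| + |β * κ.h x.2| := abs_add_le _ _
      _ ≤ B := by linarith
  have hs : Summable fun x : XX I => ‖phi w x.1‖ ^ 2 := by
    refine (summable_prod_of_nonneg fun p => by positivity).2 ⟨fun t => Summable.of_finite, ?_⟩
    simp only [tsum_fintype, Finset.sum_const, nsmul_eq_mul]
    exact (phi_sums hw).2.2.1.mul_left _
  have h2 : Summable fun x : XX I => ‖(m x : ℂ) * phi w x.1‖ ^ 2 := by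
    refine Summable.of_nonneg_of_le (fun x => by positivity) (fun x => ?_) (hs.mul_left (B ^ 2))
    rw [norm_mul, mul_pow, Complex.norm_real, Real.norm_eq_abs]
    exact mul_le_mul_of_nonneg_right (pow_le_pow_left₀ (abs_nonneg _) (hm x) 2) (by positivity)
  rw [memℓp_gen_iff (by norm_num)]
  simpa using h2

/-- The trial function is square summable (`m` is bounded, `phi_sums`); with `M = toE (m phi)`, `s = aa w²`:
`toE rho = toE cs - M + KS s M`; `rho` vanishes at the dead states. -/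
theorem Ok.trial (hκ : κ.Ok) {β r C : ℝ} (hA : Asy κ m β r C) {w : ℂ} (hw : InK w)
    (hs : ‖κ.aa * w ^ 2‖ ≤ 1 / 10) : ∃ M R : EE I, (∀ x : XX I, M x = m x * phi w x.1) ∧
      (∀ x, R x = κ.rho m w x) ∧ κ.Van M ∧ κ.Van R ∧
      R = toE (κ.cs (κ.aa * w ^ 2)) - M + κ.KS (κ.aa * w ^ 2) M := by
  set s : ℂ := κ.aa * w ^ 2 with hsdef
  have hre : -(1 / 2) < s.re := by
    have h1 := neg_le_of_abs_le (Complex.abs_re_le_norm s)
    linarith
  have hM := trial_mem hA hκ hw
  have hMx : ∀ x : XX I, (toE (fun x : XX I => (m x : ℂ) * phi w x.1) : EE I) x =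
      m x * phi w x.1 := fun x => toE_apply hM x
  have hcs := hκ.cs_mem hre
  have hR : ∀ x, (toE (κ.cs s) - toE (fun x : XX I => (m x : ℂ) * phi w x.1) +
      κ.KS s (toE fun x : XX I => (m x : ℂ) * phi w x.1) : EE I) x = κ.rho m w x := by
    intro x
    rw [lp.coeFn_add, Pi.add_apply, lp.coeFn_sub, Pi.sub_apply, hMx, toE_apply hcs,
      hκ.KS_apply hre, rho, ← hsdef]
    simp only [hMx]
  refine ⟨_, _, hMx, hR, ?_, ?_, rfl⟩
  · intro x hx
    rw [hMx, hA.isM.dead x hx, Complex.ofReal_zero, zero_mul]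
  · intro x hx
    rw [hR, rho, hA.isM.dead x hx, ← hsdef]
    have h1 : κ.cs s x = 0 := by
      unfold cs
      simp only [hκ.c_dead _ x hx, Complex.ofReal_zero, zero_mul, tsum_zero]
    rw [h1]
    simp only [hκ.Ks_dead s hx, zero_mul, tsum_zero, Complex.ofReal_zero, sub_zero, add_zero]

end Slb

end Pool.Agent.KSlab
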