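import Pool.Agent.KSlab.Dual
import Pool.Agent.KSlab.Trial

/-! SL31: the variational formula for the generating function. -/

set_option autoImplicit false

open Complex Set Filter Topology
open scoped ComplexConjugate

namespace Pool.Agent.KSlab

namespace Slb

variable {I : Type} [Fintype I] {κ : Slb I} {m : XX I → ℝ}

/-- The bilinear pairing is symmetric. -/
private theorem quadA_comm (f g : EE I) : inner ℂ (star f) g = inner ℂ (star g) f := by
  rw [inner_star, inner_star]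
  exact tsum_congr fun x => mul_comm _ _

/-- The operator is symmetric for the bilinear pairing. -/
private theorem quadA_op (hκ : κ.Ok) {s : ℂ} (hs : -(1 / 2) < s.re) (f g : EE I) :
    inner ℂ (star f) (κ.KS s g) = inner ℂ (star (κ.KS s f)) g := by
  rw [inner_star, inner_star]
  exact bl_op (by norm_num) (hκ.sch_Ks hs) (hκ.Ks_symm s) f g

/-- The inner product as a sum. -/
private theorem quadA_inner (f g : EE I) :
    ∑' y : XX I, (star f : EE I) y * g y = inner ℂ f g := by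
  rw [← inner_star, star_star]

/-- The parameter is in the sector. -/
private theorem quadA_sec (hκ : κ.Ok) {w : ℂ} (hw : InK w) (hw2 : ‖w‖ / 2 < w.re)
    (hw3 : ‖w‖ < 40 * κ.z / κ.aa) : κ.aa * w ^ 2 ∈ κ.Sec := by
  obtain ⟨-, -, ha, -, -⟩ := hκ.V_pos
  have hwp : 0 < ‖w‖ := norm_pos_iff.2 hw.1
  have hn : ‖(κ.aa : ℂ) * w ^ 2‖ = κ.aa * ‖w‖ ^ 2 := by
    rw [norm_mul, norm_pow, Complex.norm_real, Real.norm_of_nonneg ha.le]
  refine ⟨?_, ?_, ?_⟩
  · exact mul_ne_zero (by exact_mod_cast ha.ne') (pow_ne_zero _ hw.1)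
  · rw [hn]
    rw [lt_div_iff₀ ha] at hw3
    have h1 : ‖w‖ ≤ 1 := hw.2.2.trans (by norm_num)
    calc κ.aa * ‖w‖ ^ 2 = κ.aa * ‖w‖ * ‖w‖ := by ring
      _ ≤ κ.aa * ‖w‖ * 1 := by gcongr
      _ < 40 * κ.z := by linarith
  · rw [hn]
    have h1 : ((κ.aa : ℂ) * w ^ 2).re = κ.aa * (w.re ^ 2 - w.im ^ 2) := by
      rw [Complex.re_ofReal_mul]
      congr 1
      simp [pow_two]
    have h2 : ‖w‖ ^ 2 = w.re ^ 2 + w.im ^ 2 := by
      rw [← Complex.normSq_eq_norm_sq, Complex.normSq_apply]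
      ring
    rw [h1]
    have h3 : (‖w‖ / 2) ^ 2 < w.re ^ 2 := by
      apply pow_lt_pow_left₀ hw2 (by positivity) (by norm_num)
    have h4 : -‖w‖ ^ 2 / 2 < w.re ^ 2 - w.im ^ 2 := by nlinarith
    calc -(κ.aa * ‖w‖ ^ 2) / 2 = κ.aa * (-‖w‖ ^ 2 / 2) := by ring
      _ < κ.aa * (w.re ^ 2 - w.im ^ 2) := mul_lt_mul_of_pos_left h4 ha

/-- The variational formula. Let `G = GS s`, `e = G c - M`. `(1 - KS s) e = R` and `e` vanishes at the dead states
(`GS_eq`). By `coer` and `dual` (for `f = star e`, `EF_star`): `1/4 N² ≤ ‖⟪e, R⟫‖ ≤ C ‖w‖ N` for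
`N² = EF e + ‖s‖ ‖e‖²`, so `N ≤ 4 C ‖w‖`. With the bilinear pairing `(f, g) = ∑ f g` and the symmetry of `KS s`
(`bl_op`): `U1 = (c, G c) = (c, M) + (c, e)`, `(c, e) = ((1 - KS s) G c, e) = (G c, R) = (M, R) + (e, R)`, and
`‖(e, R)‖ ≤ C ‖w‖ N ≤ 4 C² ‖w‖²`. Finally `(M, R) = (M, c) - (M, M) + (M, KS s M)`. For `w` in `InK` with `‖w‖` small
`s = aa w²` is in `Sec`: `re (w²) = 2 (re w)² - ‖w‖² ≥ - ‖w‖² / 2`; strictness: replace `coer` by its closure, or note that
the hypothesis is `InK w` with the strict inequality. -/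
theorem Ok.variational (hκ : κ.Ok) {β r C : ℝ} (hA : Asy κ m β r C) : ∃ C' w0 : ℝ, 0 ≤ C' ∧
    0 < w0 ∧ ∀ w : ℂ, InK w → ‖w‖ / 2 < w.re → ‖w‖ < w0 →
      κ.aa * w ^ 2 ∈ κ.Sec ∧
      ‖κ.U1 (κ.aa * w ^ 2) - (2 * ∑' x : XX I, κ.cs (κ.aa * w ^ 2) x * (m x * phi w x.1) -
        ∑' x : XX I, (m x * phi w x.1) ^ 2 +
        ∑' p : XX I × XX I, κ.Ks (κ.aa * w ^ 2) p.1 p.2 * (m p.1 * phi w p.1.1) *
          (m p.2 * phi w p.2.1))‖ ≤ C' * ‖w‖ ^ 2 := by
  obtain ⟨C1, w1, hC1, hw1, hdual⟩ := hκ.dual hA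
  obtain ⟨-, -, ha, -, -⟩ := hκ.V_pos
  have hz := hκ.z_pos
  refine ⟨4 * C1 ^ 2, min w1 (40 * κ.z / κ.aa), by positivity, lt_min hw1 (by positivity), ?_⟩
  intro w hw hw2 hw3
  have hsec := quadA_sec hκ hw hw2 (lt_of_lt_of_le hw3 (min_le_right _ _))
  refine ⟨hsec, ?_⟩
  have hd := hdual w hw (lt_of_lt_of_le hw3 (min_le_left _ _))
  set s : ℂ := κ.aa * w ^ 2 with hs
  have hs1 : ‖s‖ ≤ 1 / 10 := by
    have := hsec.2.1
    have := hκ.z_le
    norm_num at this ⊢
    linarith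
  have hs2 : -(1 / 2) < s.re := by
    have := (abs_le.1 (Complex.abs_re_le_norm s)).1
    linarith
  obtain ⟨M, R, hM, hR, hMv, hRv, hRe⟩ := hκ.trial hA hw (by rw [← hs]; exact hs1)
  rw [← hs] at hRe
  have hreg := hκ.sec_reg hsec
  obtain ⟨hG, hGv⟩ := hκ.GS_eq hreg
  set c : EE I := toE (κ.cs s) with hc
  set G : EE I := κ.GS s c with hGdef
  have hcx : ∀ x, c x = κ.cs s x := fun x => toE_apply (hκ.cs_mem hs2) x
  set e : EE I := G - M with he
  have heR : e - κ.KS s e = R := by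
    rw [hRe, he, map_sub]
    have : G - κ.KS s G = c := by
      rw [sub_eq_iff_eq_add]
      exact hG
    rw [← this]
    abel
  have hev : κ.Van e := by
    intro x hx
    have h1 := hGv x hx
    have h2 := hMv x hx
    rw [he, lp.coeFn_sub, Pi.sub_apply, h1, h2, sub_zero]
  have hsev : κ.Van (star e : EE I) := by
    intro x hx
    rw [lp.star_apply, hev x hx, star_zero]
  set N : ℝ := Real.sqrt (κ.EF e + ‖s‖ * ‖e‖ ^ 2) with hN
  have hE := hκ.EF_nn (e : XX I → ℂ)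
  have hN2 : N ^ 2 = κ.EF e + ‖s‖ * ‖e‖ ^ 2 := Real.sq_sqrt (by positivity)
  have hN0 : 0 ≤ N := Real.sqrt_nonneg _
  -- the residual as a functional
  have h1 : ‖∑' y : XX I, κ.rho m w y * e y‖ ≤ C1 * ‖w‖ * N := (hd e hev).2
  have h2 : ‖∑' y : XX I, κ.rho m w y * (star e : EE I) y‖ ≤ C1 * ‖w‖ * N := by
    have := (hd (star e) hsev).2
    rw [hκ.EF_star, norm_star] at this
    exact this
  have h3 : ∑' y : XX I, κ.rho m w y * (star e : EE I) y = inner ℂ e R := by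
    rw [← quadA_inner e R]
    refine tsum_congr fun y => ?_
    rw [hR, mul_comm]
  have h4 : ∑' y : XX I, κ.rho m w y * e y = inner ℂ (star e) R := by
    rw [inner_star]
    refine tsum_congr fun y => ?_
    rw [hR, mul_comm]
  have h5 : 1 / 4 * N ^ 2 ≤ C1 * ‖w‖ * N := by
    have := hκ.coer hsec e hev
    rw [heR, ← h3] at this
    rw [hN2]
    exact this.trans h2
  have h6 : N ≤ 4 * C1 * ‖w‖ := by
    rcases hN0.eq_or_lt with h | h
    · rw [← h]
      positivity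
    · have : 1 / 4 * N * N ≤ C1 * ‖w‖ * N := by nlinarith
      have := le_of_mul_le_mul_right this h
      linarith
  have h7 : ‖inner ℂ (star e) R‖ ≤ 4 * C1 ^ 2 * ‖w‖ ^ 2 := by
    rw [← h4]
    refine h1.trans ?_
    calc C1 * ‖w‖ * N ≤ C1 * ‖w‖ * (4 * C1 * ‖w‖) := by gcongr
      _ = 4 * C1 ^ 2 * ‖w‖ ^ 2 := by ring
  -- the algebra
  have a1 : κ.U1 s = inner ℂ (star c) G := by
    rw [inner_star]
    unfold U1
    refine tsum_congr fun x => ?_
    rw [hcx]
  have a2 : ∑' x : XX I, κ.cs s x * (m x * phi w x.1) = inner ℂ (star c) M := by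
    rw [inner_star]
    refine tsum_congr fun x => ?_
    rw [hcx, hM]
  have a3 : ∑' x : XX I, (m x * phi w x.1) ^ 2 = inner ℂ (star M) M := by
    rw [inner_star]
    refine tsum_congr fun x => ?_
    rw [hM, pow_two]
  have a4 : ∑' p : XX I × XX I, κ.Ks s p.1 p.2 * (m p.1 * phi w p.1.1) * (m p.2 * phi w p.2.1) =
      inner ℂ (star M) (κ.KS s M) := by
    unfold KS
    rw [inner_op (by norm_num) (hκ.sch_Ks hs2)]
    refine tsum_congr fun p => ?_
    rw [lp.star_apply]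
    change _ = conj (conj (M p.1)) * _
    rw [Complex.conj_conj, hM, hM]
    ring
  have a5 : inner ℂ (star c) e = inner ℂ (star G) R := by
    have b1 : c = G - κ.KS s G := by
      rw [eq_sub_iff_add_eq]
      exact hG.symm
    rw [b1, star_sub, inner_sub_left, ← quadA_op hκ hs2, ← inner_sub_right, heR]
  have a6 : G = M + e := by
    rw [he]
    abel
  have a7 : inner ℂ (star c) G = inner ℂ (star c) M + inner ℂ (star c) e := by
    rw [← inner_add_right, ← a6]
  have a8 : inner ℂ (star G) R = inner ℂ (star M) R + inner ℂ (star e) R := by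
    rw [← inner_add_left, ← star_add, ← a6]
  have a9 : inner ℂ (star M) R =
      inner ℂ (star c) M - inner ℂ (star M) M + inner ℂ (star M) (κ.KS s M) := by
    rw [hRe, inner_add_right, inner_sub_right, quadA_comm M c]
  have a10 : κ.U1 s - (2 * inner ℂ (star c) M - inner ℂ (star M) M +
      inner ℂ (star M) (κ.KS s M)) = inner ℂ (star e) R := by
    rw [a1, a7, a5, a8, a9]
    ring
  rw [a2, a3, a4, a10]
  exact h7

end Slb

end Pool.Agent.KSlab
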