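import Pool.Agent.KSlab.Gen

/-! SL13: the iterates at real points and the energy inequality. -/

set_option autoImplicit false

open Complex Set Filter Topology
open scoped ENNReal

namespace Pool.Agent.KSlab

namespace Slb

variable {I : Type} [Fintype I] {κ : Slb I}

/-- The kernel at a real point as a real number. -/
private noncomputable def slrK (κ : Slb I) (σ : ℝ) (x y : XX I) : ℝ :=
  ∑' n : ℕ, κ.k n x y * Real.exp (-n * σ)

/-- The sources at a real point as a real number. -/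
private noncomputable def slrC (κ : Slb I) (σ : ℝ) (x : XX I) : ℝ :=
  ∑' n : ℕ, κ.c n x * Real.exp (-n * σ)

omit [Fintype I] in
private theorem slrK_nn (hκ : κ.Ok) (σ : ℝ) (x y : XX I) : 0 ≤ slrK κ σ x y :=
  tsum_nonneg fun n => mul_nonneg (hκ.k_nn n x y) (Real.exp_pos _).le

omit [Fintype I] in
private theorem slrC_nn (hκ : κ.Ok) (σ : ℝ) (x : XX I) : 0 ≤ slrC κ σ x :=
  tsum_nonneg fun n => mul_nonneg (hκ.c_nn n x) (Real.exp_pos _).le

omit [Fintype I] in
private theorem slrK_eq (σ : ℝ) (x y : XX I) : κ.Ks σ x y = (slrK κ σ x y : ℂ) := by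
  unfold Slb.Ks slrK
  rw [Complex.ofReal_tsum]
  refine tsum_congr fun n => ?_
  push_cast
  rfl

omit [Fintype I] in
private theorem slrC_eq (σ : ℝ) (x : XX I) : κ.cs σ x = (slrC κ σ x : ℂ) := by
  unfold Slb.cs slrC
  rw [Complex.ofReal_tsum]
  refine tsum_congr fun n => ?_
  push_cast
  rfl

omit [Fintype I] in
private theorem slrK_symm (hκ : κ.Ok) (σ : ℝ) (x y : XX I) : slrK κ σ x y = slrK κ σ y x :=
  tsum_congr fun n => by rw [hκ.k_symm]

omit [Fintype I] in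
private theorem slr_kE (σ : ℝ) (x y : XX I) : κ.kE σ x y = ENNReal.ofReal (slrK κ σ x y) := rfl

omit [Fintype I] in
private theorem slr_dead (hκ : κ.Ok) (σ : ℝ) (N : ℕ) (x : XX I) (hx : ¬ κ.Al x) :
    κ.MM σ N x = 0 := by
  cases N with
  | zero =>
    change ENNReal.ofReal (∑' n : ℕ, κ.c n x * Real.exp (-n * σ)) = 0
    simp [hκ.c_dead _ x hx]
  | succ N =>
    change (∑' y, κ.MM σ N y * ENNReal.ofReal (∑' n : ℕ, κ.k n y x * Real.exp (-n * σ))) = 0
    have h : ∀ n y, κ.k n y x = 0 := fun n y => by rw [hκ.k_symm, hκ.k_dead n x y hx]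
    simp [h]

omit [Fintype I] in
private theorem slr_refl (hκ : κ.Ok) (σ : ℝ) (N : ℕ) :
    ∀ x : XX I, κ.MM σ N (-x.1, x.2) = κ.MM σ N x := by
  induction N with
  | zero =>
    intro x
    change ENNReal.ofReal (∑' n : ℕ, κ.c n (-x.1, x.2) * Real.exp (-n * σ)) =
      ENNReal.ofReal (∑' n : ℕ, κ.c n x * Real.exp (-n * σ))
    congr 1
    exact tsum_congr fun n => by rw [hκ.c_refl]
  | succ N ih =>
    intro x
    change (∑' y, κ.MM σ N y * κ.kE σ y (-x.1, x.2)) = ∑' y, κ.MM σ N y * κ.kE σ y x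
    rw [← ((Equiv.neg ℤ).prodCongr (Equiv.refl I)).tsum_eq
      (fun y => κ.MM σ N y * κ.kE σ y (-x.1, x.2))]
    refine tsum_congr fun y => ?_
    change κ.MM σ N (-y.1, y.2) * κ.kE σ (-y.1, y.2) (-x.1, x.2) = _
    rw [ih y]
    congr 1
    change ENNReal.ofReal (∑' n : ℕ, κ.k n (-y.1, y.2) (-x.1, x.2) * Real.exp (-n * σ)) =
      ENNReal.ofReal (∑' n : ℕ, κ.k n y x * Real.exp (-n * σ))
    congr 1
    exact tsum_congr fun n => by rw [hκ.k_refl]

private theorem slr_re {σ : ℝ} (hσ : 0 ≤ σ) : -(1 / 2) < ((σ : ℂ)).re := by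
  rw [Complex.ofReal_re]
  linarith

/-- The iterates as square summable functions: by induction with the Schur test (`KS_apply`; the kernel is
symmetric, `K_σ (x, y) ≥ 0` for real `σ`): `μ N = (KS σ)^N (toE (cs σ))` has the values `(MM σ N x).toReal`, and
`MM σ N x ≠ ⊤`. -/
theorem Ok.exists_iter (hκ : κ.Ok) {σ : ℝ} (hσ : 0 ≤ σ) : ∃ μ : ℕ → EE I,
    (∀ N x, κ.MM σ N x ≠ ⊤ ∧ μ N x = ((κ.MM σ N x).toReal : ℂ)) ∧
    (∀ N, μ (N + 1) = κ.KS σ (μ N)) ∧ μ 0 = toE (κ.cs σ) ∧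
    (∀ N x, ¬ κ.Al x → κ.MM σ N x = 0) ∧
    ∀ N (x : XX I), κ.MM σ N (-x.1, x.2) = κ.MM σ N x := by
  have hs := slr_re hσ
  let μ : ℕ → EE I := fun N => Nat.rec (toE (κ.cs σ)) (fun _ g => κ.KS σ g) N
  refine ⟨μ, ?_, fun N => rfl, rfl, fun N x hx => slr_dead hκ σ N x hx,
    fun N => slr_refl hκ σ N⟩
  intro N
  induction N with
  | zero =>
    intro x
    refine ⟨ENNReal.ofReal_ne_top, ?_⟩
    change toE (κ.cs σ) x = _
    rw [toE_apply (hκ.cs_mem hs), slrC_eq]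
    change _ = ((ENNReal.ofReal (slrC κ σ x)).toReal : ℂ)
    rw [ENNReal.toReal_ofReal (slrC_nn hκ σ x)]
  | succ N ih =>
    intro x
    have h1 : ∀ y, κ.Ks σ x y * μ N y =
        ((slrK κ σ x y * (κ.MM σ N y).toReal : ℝ) : ℂ) := by
      intro y
      rw [slrK_eq, (ih y).2, Complex.ofReal_mul]
    have h2 : Summable fun y => slrK κ σ x y * (κ.MM σ N y).toReal := by
      have h3 := sch_summable (hκ.sch_Ks hs) (μ N) x
      simp only [h1] at h3
      exact Complex.summable_ofReal.1 h3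
    have h4 : ∀ y, 0 ≤ slrK κ σ x y * (κ.MM σ N y).toReal := fun y =>
      mul_nonneg (slrK_nn hκ σ x y) ENNReal.toReal_nonneg
    have h5 : κ.MM σ (N + 1) x =
        ENNReal.ofReal (∑' y, slrK κ σ x y * (κ.MM σ N y).toReal) := by
      rw [ENNReal.ofReal_tsum_of_nonneg h4 h2]
      change (∑' y, κ.MM σ N y * κ.kE σ y x) = _
      refine tsum_congr fun y => ?_
      rw [slr_kE, slrK_symm hκ σ y x, mul_comm, ENNReal.ofReal_mul (slrK_nn hκ σ x y),
        ENNReal.ofReal_toReal (ih y).1]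
    refine ⟨by rw [h5]; exact ENNReal.ofReal_ne_top, ?_⟩
    change κ.KS σ (μ N) x = _
    rw [hκ.KS_apply hs, h5, ENNReal.toReal_ofReal (tsum_nonneg h4), Complex.ofReal_tsum]
    exact tsum_congr h1

/-- The energy inequality. With `S = ∑_{N < n} μ N` (nonnegative, vanishes at the dead states):
`(1 - K_σ) S = c_σ - μ n`, so `⟪S, (1 - K_σ) S⟫ = ∑ S x (c_σ x - μ n x) ≤ ∑ S x c_σ x`. For `0 < σ < 40 z` use
`coer_real`, for `σ = 0` `hardy`. -/
theorem Ok.energy (hκ : κ.Ok) {σ : ℝ} (hσ : 0 ≤ σ) (hσ1 : σ < 40 * κ.z) (n : ℕ) (S : EE I)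
    (hS : ∀ x, S x = ((∑ N ∈ Finset.range n, (κ.MM σ N x).toReal : ℝ) : ℂ)) :
    1 / 4 * (κ.EF S + σ * ‖S‖ ^ 2) ≤ ∑' x, (S x).re * (κ.cs σ x).re := by
  have hs := slr_re hσ
  obtain ⟨μ, h1, h2, h3, h4, _⟩ := hκ.exists_iter hσ
  have hSsum : S = ∑ N ∈ Finset.range n, μ N := by
    refine lp.ext (funext fun x => ?_)
    rw [hS x, lp.coeFn_sum, Finset.sum_apply]
    push_cast
    exact Finset.sum_congr rfl fun N _ => ((h1 N x).2).symm
  have hdiff : S - κ.KS σ S = μ 0 - μ n := by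
    rw [hSsum, map_sum, ← Finset.sum_sub_distrib, ← Finset.sum_range_sub' μ n]
    exact Finset.sum_congr rfl fun N _ => by rw [h2 N]
  have hv : κ.Van S := by
    intro x hx
    rw [hS x]
    simp [h4 _ x hx]
  have hc : ∀ x, κ.cs σ x = ((κ.MM σ 0 x).toReal : ℂ) := by
    intro x
    rw [← (h1 0 x).2, h3, toE_apply (hκ.cs_mem hs)]
  have hS0 : ∀ x, 0 ≤ ∑ N ∈ Finset.range n, (κ.MM σ N x).toReal := fun x =>
    Finset.sum_nonneg fun N _ => ENNReal.toReal_nonneg
  have hin : (inner ℂ S (S - κ.KS σ S)).re ≤ ∑' x, (S x).re * (κ.cs σ x).re := by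
    rw [hdiff, lp.inner_eq_tsum]
    have hsm := lp.summable_inner (𝕜 := ℂ) S (μ 0 - μ n)
    have hsm0 := lp.summable_inner (𝕜 := ℂ) S (μ 0)
    have e1 : ∀ x, (inner ℂ (S x) ((μ 0 - μ n : EE I) x)).re =
        (∑ N ∈ Finset.range n, (κ.MM σ N x).toReal) *
          ((κ.MM σ 0 x).toReal - (κ.MM σ n x).toReal) := by
      intro x
      rw [lp.coeFn_sub, Pi.sub_apply, hS x, (h1 0 x).2, (h1 n x).2, ← Complex.ofReal_sub]
      rw [RCLike.inner_apply, Complex.conj_ofReal]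
      rw [← Complex.ofReal_mul, Complex.ofReal_re, mul_comm]
    have e2 : ∀ x, (inner ℂ (S x) (μ 0 x)).re = (S x).re * (κ.cs σ x).re := by
      intro x
      rw [hc x, hS x, (h1 0 x).2]
      rw [RCLike.inner_apply, Complex.conj_ofReal]
      rw [← Complex.ofReal_mul, Complex.ofReal_re, Complex.ofReal_re, Complex.ofReal_re, mul_comm]
    rw [Complex.re_tsum hsm]
    refine Summable.tsum_le_tsum (fun x => ?_) (Complex.reCLM.summable hsm) ?_
    · rw [e1 x, hc x, hS x, Complex.ofReal_re, Complex.ofReal_re]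
      refine mul_le_mul_of_nonneg_left ?_ (hS0 x)
      have := ENNReal.toReal_nonneg (a := κ.MM σ n x)
      linarith
    · have h5 := Complex.reCLM.summable hsm0
      refine h5.congr fun x => ?_
      exact e2 x
  refine le_trans ?_ hin
  rcases hσ.eq_or_lt with h0 | h0
  · rw [← h0, zero_mul, add_zero, Complex.ofReal_zero]
    have h5 := hκ.hardy S hv
    have h6 := hκ.EF_nn S
    linarith
  · exact hκ.coer_real h0 hσ1 S hv

end Slb

end Pool.Agent.KSlab
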