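import Pool.Agent.KSlab.Asy

/-! SL27: the residual of the trial function, part of the difference of the critical measure and the Perron
vector. -/

set_option autoImplicit false

open Complex Set Filter Topology

namespace Pool.Agent.KSlab

namespace Slb

variable {I : Type} [Fintype I] {κ : Slb I} {m : XX I → ℝ}

omit [Fintype I] in
private theorem tr_summable {G : ℤ × I → ℝ} (v : ℤ) (h : Summable G) :
    Summable fun x : XX I => G (x.1 - v, x.2) :=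
  (((Equiv.subRight v).prodCongr (Equiv.refl I)).summable_iff (f := G)).2 h

omit [Fintype I] in
private theorem tr_tsum (G : ℤ × I → ℝ) (v : ℤ) :
    ∑' x : XX I, G (x.1 - v, x.2) = ∑' p, G p :=
  ((Equiv.subRight v).prodCongr (Equiv.refl I)).tsum_eq G

private theorem pow_le_four (t : ℤ) : (2 : ℝ) ^ t.natAbs ≤ 4 ^ t.natAbs ∧
    (2 : ℝ) ^ t.natAbs * t.natAbs ≤ 4 ^ t.natAbs ∧ (1 : ℝ) ≤ 4 ^ t.natAbs := by
  have h1 : ((t.natAbs : ℕ) : ℝ) ≤ 2 ^ t.natAbs := by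
    exact_mod_cast (Nat.lt_two_pow_self (n := t.natAbs)).le
  have h2 : (4 : ℝ) ^ t.natAbs = 2 ^ t.natAbs * 2 ^ t.natAbs := by
    rw [← mul_pow]
    norm_num
  have h3 : (1 : ℝ) ≤ 2 ^ t.natAbs := one_le_pow₀ (by norm_num)
  refine ⟨pow_le_pow_left₀ (by norm_num) (by norm_num) _, ?_, one_le_pow₀ (by norm_num)⟩
  rw [h2]
  exact mul_le_mul_of_nonneg_left h1 (by positivity)

private theorem r_pow {r : ℝ} (hr : 1 / 2 ≤ r) (hr1 : r < 1) (u v : ℤ) :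
    r ^ u.natAbs ≤ r ^ v.natAbs * 2 ^ (u - v).natAbs := by
  have h0 : 0 < r := by linarith
  have h1 : r ^ (u.natAbs + (u - v).natAbs) ≤ r ^ v.natAbs :=
    pow_le_pow_of_le_one h0.le hr1.le (by omega)
  have h2 : 1 ≤ r ^ (u - v).natAbs * 2 ^ (u - v).natAbs := by
    rw [← mul_pow]
    exact one_le_pow₀ (by linarith)
  have h3 : 0 < r ^ u.natAbs := by positivity
  calc r ^ u.natAbs = r ^ u.natAbs * 1 := (mul_one _).symm
    _ ≤ r ^ u.natAbs * (r ^ (u - v).natAbs * 2 ^ (u - v).natAbs) :=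
        mul_le_mul_of_nonneg_left h2 h3.le
    _ = r ^ (u.natAbs + (u - v).natAbs) * 2 ^ (u - v).natAbs := by
        rw [pow_add]
        ring
    _ ≤ r ^ v.natAbs * 2 ^ (u - v).natAbs := mul_le_mul_of_nonneg_right h1 (by positivity)

/-- The part of `m - β h`: for the function `e x = m x - β h x` with `|e x| ≤ C r ^ |x|` (all `x`, also the dead
states): `‖Fs phi x - F0 phi y‖ ≤ ‖Fs - F0‖ + F0 ‖w‖ |x - y|` and `r ^ |x| ≤ r ^ |y| 2 ^ |x - y|`; `F_exp`, `F0_exp`. -/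
theorem Ok.resid_b (hκ : κ.Ok) {β r C : ℝ} (hA : Asy κ m β r C) : ∃ C' w0 : ℝ, 0 ≤ C' ∧ 0 < w0 ∧
    ∀ w : ℂ, InK w → ‖w‖ < w0 → ∀ y : XX I,
      (Summable fun x : XX I => κ.Fs (κ.aa * w ^ 2) (x.1 - y.1) x.2 y.2 * (κ.h x.2 * phi w x.1)) ∧
      (Summable fun x : XX I => κ.F0 (x.1 - y.1) x.2 y.2 * (κ.h x.2 * phi w y.1)) ∧
      ‖(∑' x : XX I, κ.Fs (κ.aa * w ^ 2) (x.1 - y.1) x.2 y.2 * (m x * phi w x.1) -
        ∑' x : XX I, κ.F0 (x.1 - y.1) x.2 y.2 * (m x * phi w y.1)) -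
        β * (∑' x : XX I, κ.Fs (κ.aa * w ^ 2) (x.1 - y.1) x.2 y.2 * (κ.h x.2 * phi w x.1) -
        ∑' x : XX I, κ.F0 (x.1 - y.1) x.2 y.2 * (κ.h x.2 * phi w y.1))‖ ≤
        C' * ‖w‖ * r ^ y.1.natAbs := by
  obtain ⟨CF, hCF0, hF⟩ := hκ.F_exp
  obtain ⟨C0, h0⟩ := hκ.F0_exp
  obtain ⟨-, -, haa, -, -⟩ := hκ.V_pos
  have hC := hA.C_nn
  refine ⟨C * (CF + |C0|), 1 / (κ.aa + 1), by positivity, by positivity, fun w hw hw0 y => ?_⟩
  have hwn : 0 ≤ ‖w‖ := norm_nonneg w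
  have hs : ‖(κ.aa : ℂ) * w ^ 2‖ ≤ ‖w‖ := by
    rw [norm_mul, Complex.norm_real, Real.norm_eq_abs, abs_of_pos haa, norm_pow]
    have h1 : κ.aa * ‖w‖ ≤ 1 := by
      have h2 : κ.aa * ‖w‖ ≤ κ.aa * (1 / (κ.aa + 1)) := mul_le_mul_of_nonneg_left hw0.le haa.le
      have h3 : κ.aa * (1 / (κ.aa + 1)) ≤ 1 := by
        rw [mul_one_div, div_le_one (by positivity)]
        linarith
      exact h2.trans h3
    calc κ.aa * ‖w‖ ^ 2 = (κ.aa * ‖w‖) * ‖w‖ := by ring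
      _ ≤ 1 * ‖w‖ := mul_le_mul_of_nonneg_right h1 hwn
      _ = ‖w‖ := one_mul _
  have hs1 : ‖(κ.aa : ℂ) * w ^ 2‖ ≤ 1 / 10 := hs.trans hw.2.2
  obtain ⟨s, hsd⟩ : ∃ s : ℂ, s = (κ.aa : ℂ) * w ^ 2 := ⟨_, rfl⟩
  rw [← hsd] at hs hs1 ⊢
  obtain ⟨hD, hDle, -, -⟩ := hF s hs1 y.2
  obtain ⟨hG', hGle'⟩ := h0 y.2
  have hsym : ∀ p : ℤ × I, κ.F0 p.1 y.2 p.2 = κ.F0 p.1 p.2 y.2 :=
    fun p => (hκ.F0_prop p.1 p.2 y.2).2.2
  simp only [hsym] at hG' hGle'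
  have hFnn : ∀ p : ℤ × I, 0 ≤ κ.F0 p.1 p.2 y.2 := fun p => (hκ.F0_prop p.1 p.2 y.2).1
  -- the two kernels
  set D : ℤ × I → ℝ := fun p => ‖κ.Fs s p.1 p.2 y.2 - κ.F0 p.1 p.2 y.2‖ with hDd
  set G : ℤ × I → ℝ := fun p => κ.F0 p.1 p.2 y.2 with hGd
  have hDn : ∀ p, 0 ≤ D p := fun p => norm_nonneg _
  have hD' : Summable D := by
    refine Summable.of_nonneg_of_le hDn (fun p => ?_) hD
    exact le_mul_of_one_le_left (hDn p) (pow_le_four p.1).2.2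
  have hG : Summable G := by
    refine Summable.of_nonneg_of_le hFnn (fun p => ?_) hG'
    exact le_mul_of_one_le_left (hFnn p) (pow_le_four p.1).2.2
  have hTn : ∀ x : XX I, ‖κ.Fs s (x.1 - y.1) x.2 y.2‖ ≤
      D (x.1 - y.1, x.2) + G (x.1 - y.1, x.2) := by
    intro x
    have h1 : κ.Fs s (x.1 - y.1) x.2 y.2 =
        (κ.Fs s (x.1 - y.1) x.2 y.2 - κ.F0 (x.1 - y.1) x.2 y.2) + κ.F0 (x.1 - y.1) x.2 y.2 := by
      ring
    have h2 : ‖((κ.F0 (x.1 - y.1) x.2 y.2 : ℝ) : ℂ)‖ = κ.F0 (x.1 - y.1) x.2 y.2 := by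
      rw [Complex.norm_real, Real.norm_eq_abs]
      exact abs_of_nonneg (hFnn (x.1 - y.1, x.2))
    calc ‖κ.Fs s (x.1 - y.1) x.2 y.2‖ ≤ ‖κ.Fs s (x.1 - y.1) x.2 y.2 -
          κ.F0 (x.1 - y.1) x.2 y.2‖ + ‖((κ.F0 (x.1 - y.1) x.2 y.2 : ℝ) : ℂ)‖ := by
          conv_lhs => rw [h1]
          exact norm_add_le _ _
      _ = _ := by rw [h2]
  have hT : ∀ (b : XX I → ℂ) (B : ℝ), (∀ x, ‖b x‖ ≤ B) →
      Summable fun x : XX I => κ.Fs s (x.1 - y.1) x.2 y.2 * b x := by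
    intro b B hb
    refine Summable.of_norm_bounded (g := fun x : XX I =>
      (D (x.1 - y.1, x.2) + G (x.1 - y.1, x.2)) * B)
      (((tr_summable y.1 hD').add (tr_summable y.1 hG)).mul_right B) fun x => ?_
    rw [norm_mul]
    exact mul_le_mul (hTn x) (hb x) (norm_nonneg _) (add_nonneg (hDn _) (hFnn _))
  have hT0 : ∀ (b : XX I → ℂ) (B : ℝ), (∀ x, ‖b x‖ ≤ B) →
      Summable fun x : XX I => (κ.F0 (x.1 - y.1) x.2 y.2 : ℂ) * b x := by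
    intro b B hb
    refine Summable.of_norm_bounded (g := fun x : XX I => G (x.1 - y.1, x.2) * B)
      ((tr_summable y.1 hG).mul_right B) fun x => ?_
    rw [norm_mul]
    refine mul_le_mul (le_of_eq ?_) (hb x) (norm_nonneg _) (hFnn _)
    rw [Complex.norm_real, Real.norm_eq_abs]
    exact abs_of_nonneg (hFnn (x.1 - y.1, x.2))
  -- bounds of the coefficients
  have hphi : ∀ u : ℤ, ‖phi w u‖ ≤ 1 := fun u => (norm_phi hw u).2
  have hh : ∀ i, |κ.h i| ≤ ∑ j, κ.h j := by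
    intro i
    rw [abs_of_pos (hκ.h_pos i)]
    exact Finset.single_le_sum (f := κ.h) (fun j _ => (hκ.h_pos j).le) (Finset.mem_univ i)
  have hr0 : 0 < r := by linarith [hA.r_ge]
  set e : XX I → ℝ := fun x => m x - β * κ.h x.2 with hed
  have he : ∀ x : XX I, |e x| ≤ C * r ^ x.1.natAbs := hA.bd
  have he1 : ∀ x : XX I, |e x| ≤ C := fun x =>
    (he x).trans (mul_le_of_le_one_right hC (pow_le_one₀ hr0.le hA.r_lt.le))
  have hb1 : ∀ (a : ℝ) (u : ℤ) (B : ℝ), |a| ≤ B → ‖(a : ℂ) * phi w u‖ ≤ B := by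
    intro a u B ha
    rw [norm_mul, Complex.norm_real, Real.norm_eq_abs]
    exact (mul_le_of_le_one_right (abs_nonneg a) (hphi u)).trans ha
  have s1 := hT (fun x => (κ.h x.2 : ℂ) * phi w x.1) (∑ j, κ.h j)
    fun x => hb1 _ _ _ (hh x.2)
  have s2 := hT0 (fun x => (κ.h x.2 : ℂ) * phi w y.1) (∑ j, κ.h j)
    fun x => hb1 _ _ _ (hh x.2)
  have s3 := hT (fun x => (e x : ℂ) * phi w x.1) C fun x => hb1 _ _ _ (he1 x)
  have s4 := hT0 (fun x => (e x : ℂ) * phi w y.1) C fun x => hb1 _ _ _ (he1 x)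
  refine ⟨s1, s2, ?_⟩
  have t1 : ∑' x : XX I, κ.Fs s (x.1 - y.1) x.2 y.2 * (m x * phi w x.1) =
      ∑' x : XX I, κ.Fs s (x.1 - y.1) x.2 y.2 * ((e x : ℂ) * phi w x.1) +
      β * ∑' x : XX I, κ.Fs s (x.1 - y.1) x.2 y.2 * (κ.h x.2 * phi w x.1) := by
    rw [← tsum_mul_left, ← s3.tsum_add (s1.mul_left (β : ℂ))]
    refine tsum_congr fun x => ?_
    simp only [hed]
    push_cast
    ring
  have t2 : ∑' x : XX I, (κ.F0 (x.1 - y.1) x.2 y.2 : ℂ) * (m x * phi w y.1) =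
      ∑' x : XX I, (κ.F0 (x.1 - y.1) x.2 y.2 : ℂ) * ((e x : ℂ) * phi w y.1) +
      β * ∑' x : XX I, (κ.F0 (x.1 - y.1) x.2 y.2 : ℂ) * (κ.h x.2 * phi w y.1) := by
    rw [← tsum_mul_left, ← s4.tsum_add (s2.mul_left (β : ℂ))]
    refine tsum_congr fun x => ?_
    simp only [hed]
    push_cast
    ring
  rw [t1, t2]
  have t3 : ∀ a b c d : ℂ, (a + β * b - (c + β * d)) - β * (b - d) = a - c := by
    intro a b c d
    ring
  rw [t3, ← s3.tsum_sub s4]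
  -- the bound of one term
  have key : ∀ x : XX I, ‖κ.Fs s (x.1 - y.1) x.2 y.2 * ((e x : ℂ) * phi w x.1) -
      (κ.F0 (x.1 - y.1) x.2 y.2 : ℂ) * ((e x : ℂ) * phi w y.1)‖ ≤
      C * r ^ y.1.natAbs * (4 ^ (x.1 - y.1).natAbs * D (x.1 - y.1, x.2) +
        ‖w‖ * (4 ^ (x.1 - y.1).natAbs * G (x.1 - y.1, x.2))) := by
    intro x
    have k1 : κ.Fs s (x.1 - y.1) x.2 y.2 * ((e x : ℂ) * phi w x.1) -
        (κ.F0 (x.1 - y.1) x.2 y.2 : ℂ) * ((e x : ℂ) * phi w y.1) =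
        (e x : ℂ) * ((κ.Fs s (x.1 - y.1) x.2 y.2 - κ.F0 (x.1 - y.1) x.2 y.2) * phi w x.1 +
          (κ.F0 (x.1 - y.1) x.2 y.2 : ℂ) * (phi w x.1 - phi w y.1)) := by
      ring
    have k2 : ‖(κ.Fs s (x.1 - y.1) x.2 y.2 - κ.F0 (x.1 - y.1) x.2 y.2) * phi w x.1 +
        (κ.F0 (x.1 - y.1) x.2 y.2 : ℂ) * (phi w x.1 - phi w y.1)‖ ≤
        D (x.1 - y.1, x.2) + G (x.1 - y.1, x.2) * (‖w‖ * (x.1 - y.1).natAbs) := by
      refine (norm_add_le _ _).trans (add_le_add ?_ ?_)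
      · rw [norm_mul]
        exact mul_le_of_le_one_right (norm_nonneg _) (hphi _)
      · rw [norm_mul]
        refine mul_le_mul (le_of_eq ?_) (phi_sub hw _ _) (norm_nonneg _) (hFnn _)
        rw [Complex.norm_real, Real.norm_eq_abs]
        exact abs_of_nonneg (hFnn (x.1 - y.1, x.2))
    rw [k1, norm_mul, Complex.norm_real, Real.norm_eq_abs]
    have k3 : |e x| ≤ C * (r ^ y.1.natAbs * 2 ^ (x.1 - y.1).natAbs) :=
      (he x).trans (mul_le_mul_of_nonneg_left (r_pow hA.r_ge hA.r_lt x.1 y.1) hC)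
    obtain ⟨p1, p2, -⟩ := pow_le_four (x.1 - y.1)
    have hDx := hDn (x.1 - y.1, x.2)
    have hGx : 0 ≤ G (x.1 - y.1, x.2) := hFnn (x.1 - y.1, x.2)
    calc |e x| * ‖(κ.Fs s (x.1 - y.1) x.2 y.2 - κ.F0 (x.1 - y.1) x.2 y.2) * phi w x.1 +
          (κ.F0 (x.1 - y.1) x.2 y.2 : ℂ) * (phi w x.1 - phi w y.1)‖
        ≤ (C * (r ^ y.1.natAbs * 2 ^ (x.1 - y.1).natAbs)) *
          (D (x.1 - y.1, x.2) + G (x.1 - y.1, x.2) * (‖w‖ * (x.1 - y.1).natAbs)) :=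
          mul_le_mul k3 k2 (norm_nonneg _) (by positivity)
      _ = C * r ^ y.1.natAbs * (2 ^ (x.1 - y.1).natAbs * D (x.1 - y.1, x.2) +
          ‖w‖ * ((2 ^ (x.1 - y.1).natAbs * (x.1 - y.1).natAbs) * G (x.1 - y.1, x.2))) := by
          ring
      _ ≤ _ := by gcongr
  have hsum : Summable fun x : XX I => C * r ^ y.1.natAbs *
      (4 ^ (x.1 - y.1).natAbs * D (x.1 - y.1, x.2) +
        ‖w‖ * (4 ^ (x.1 - y.1).natAbs * G (x.1 - y.1, x.2))) :=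
    ((tr_summable y.1 hD).add ((tr_summable y.1 hG').mul_left ‖w‖)).mul_left _
  refine (tsum_of_norm_bounded hsum.hasSum key).trans ?_
  rw [tsum_mul_left, (tr_summable y.1 hD).tsum_add ((tr_summable y.1 hG').mul_left ‖w‖),
    tsum_mul_left, tr_tsum (fun p => 4 ^ p.1.natAbs * D p) y.1,
    tr_tsum (fun p => 4 ^ p.1.natAbs * G p) y.1]
  have u1 : ∑' p : ℤ × I, 4 ^ p.1.natAbs * D p ≤ CF * ‖w‖ :=
    hDle.trans (mul_le_mul_of_nonneg_left hs hCF0)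
  have u2 : ∑' p : ℤ × I, 4 ^ p.1.natAbs * G p ≤ |C0| := hGle'.trans (le_abs_self C0)
  have u3 : 0 ≤ C * r ^ y.1.natAbs := by positivity
  calc C * r ^ y.1.natAbs * (∑' p : ℤ × I, 4 ^ p.1.natAbs * D p +
        ‖w‖ * ∑' p : ℤ × I, 4 ^ p.1.natAbs * G p)
      ≤ C * r ^ y.1.natAbs * (CF * ‖w‖ + ‖w‖ * |C0|) := by gcongr
    _ = _ := by ring

end Slb

end Pool.Agent.KSlab
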