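import Pool.Agent.KSlab.Asy

/-! SL28: the residual of the trial function, main part. -/

set_option autoImplicit false

open Complex Set Filter Topology

namespace Pool.Agent.KSlab

private theorem ResidC_dom {ι : Type} {g : ι → ℂ} {a : ι → ℝ} {K : ℝ} (ha : Summable a)
    (h : ∀ p, ‖g p‖ ≤ K * a p) : Summable g ∧ ‖∑' p, g p‖ ≤ K * ∑' p, a p := by
  have h1 : Summable fun p => K * a p := ha.mul_left K
  have h2 : Summable fun p => ‖g p‖ := Summable.of_nonneg_of_le (fun _ => norm_nonneg _) h h1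
  refine ⟨h2.of_norm, (norm_tsum_le_tsum_norm h2).trans ?_⟩
  rw [← tsum_mul_left]
  exact h2.tsum_le_tsum h h1

/-- the Cauchy-Schwarz inequality -/
private theorem ResidC_cs {ι : Type} {c d : ι → ℝ} (hc : ∀ p, 0 ≤ c p) (h1 : Summable c)
    (h2 : Summable fun p => c p * d p) (h3 : Summable fun p => c p * d p ^ 2) :
    (∑' p, c p * d p) ^ 2 ≤ (∑' p, c p) * ∑' p, c p * d p ^ 2 := by
  refine le_of_tendsto' (Filter.Tendsto.pow h2.hasSum 2) fun s => ?_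
  have h4 := Finset.sum_sq_le_sum_mul_sum_of_sq_le_mul s (r := fun p => c p * d p) (f := c)
    (g := fun p => c p * d p ^ 2) (fun p _ => hc p) (fun p _ => mul_nonneg (hc p) (sq_nonneg _))
    (fun p _ => le_of_eq (by ring))
  exact h4.trans (mul_le_mul (h1.sum_le_tsum s fun p _ => hc p)
    (h3.sum_le_tsum s fun p _ => mul_nonneg (hc p) (sq_nonneg _))
    (Finset.sum_nonneg fun p _ => mul_nonneg (hc p) (sq_nonneg _)) (tsum_nonneg hc))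

private theorem ResidC_B {I : Type} {w : ℂ} (hw : InK w) {c : ℤ × I → ℝ} (hc : ∀ p, 0 ≤ c p)
    (hs : Summable fun p : ℤ × I => 4 ^ p.1.natAbs * c p) :
    (∀ u : ℤ, Summable fun p : ℤ × I => c p * ‖phi w (u + p.1) - phi w u‖) ∧
    (Summable fun u : ℤ => (∑' p : ℤ × I, c p * ‖phi w (u + p.1) - phi w u‖) ^ 2) ∧
    ∑' u : ℤ, (∑' p : ℤ × I, c p * ‖phi w (u + p.1) - phi w u‖) ^ 2 ≤
      20 * ‖w‖ * (∑' p : ℤ × I, 4 ^ p.1.natAbs * c p) ^ 2 := by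
  have hcle : ∀ p : ℤ × I, c p ≤ 4 ^ p.1.natAbs * c p := fun p =>
    le_mul_of_one_le_left (hc p) (one_le_pow₀ (by norm_num))
  have hc1 : Summable c := Summable.of_nonneg_of_le hc hcle hs
  have hb : ∀ u t : ℤ, ‖phi w (u + t) - phi w u‖ ≤ 2 := by
    intro u t
    have h1 := (norm_phi hw (u + t)).2
    have h2 := (norm_phi hw u).2
    have h3 := norm_sub_le (phi w (u + t)) (phi w u)
    linarith
  have h1 : ∀ u : ℤ, Summable fun p : ℤ × I => c p * ‖phi w (u + p.1) - phi w u‖ := fun u =>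
    Summable.of_nonneg_of_le (fun p => mul_nonneg (hc p) (norm_nonneg _))
      (fun p => mul_le_mul_of_nonneg_left (hb _ _) (hc p)) (hc1.mul_right 2)
  have h2 : ∀ u : ℤ, Summable fun p : ℤ × I => c p * ‖phi w (u + p.1) - phi w u‖ ^ 2 := fun u =>
    Summable.of_nonneg_of_le (fun p => mul_nonneg (hc p) (sq_nonneg _))
      (fun p => mul_le_mul_of_nonneg_left (pow_le_pow_left₀ (norm_nonneg _) (hb _ _) 2) (hc p))
      (hc1.mul_right (2 ^ 2))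
  have hle : ∀ p : ℤ × I, ∑' u : ℤ, c p * ‖phi w (u + p.1) - phi w u‖ ^ 2 ≤
      20 * ‖w‖ * (4 ^ p.1.natAbs * c p) := by
    intro p
    rw [tsum_mul_left]
    calc c p * ∑' u : ℤ, ‖phi w (u + p.1) - phi w u‖ ^ 2
        ≤ c p * (20 * ‖w‖ * 4 ^ p.1.natAbs) :=
          mul_le_mul_of_nonneg_left (phi_diff_sq_le hw p.1).2 (hc p)
      _ = _ := by ring
  have h3 : Summable fun q : (ℤ × I) × ℤ => c q.1 * ‖phi w (q.2 + q.1.1) - phi w q.2‖ ^ 2 := by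
    refine (summable_prod_of_nonneg fun q => mul_nonneg (hc _) (sq_nonneg _)).2
      ⟨fun p => (phi_diff_sq_le hw p.1).1.mul_left (c p), ?_⟩
    exact Summable.of_nonneg_of_le (fun p => tsum_nonneg fun u => mul_nonneg (hc p) (sq_nonneg _))
      hle (hs.mul_left (20 * ‖w‖))
  have h4 : Summable fun u : ℤ => ∑' p : ℤ × I, c p * ‖phi w (u + p.1) - phi w u‖ ^ 2 :=
    h3.prod_symm.prod
  have h5 : ∑' u : ℤ, ∑' p : ℤ × I, c p * ‖phi w (u + p.1) - phi w u‖ ^ 2 ≤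
      20 * ‖w‖ * ∑' p : ℤ × I, 4 ^ p.1.natAbs * c p := by
    have h6 : ∑' u : ℤ, ∑' p : ℤ × I, c p * ‖phi w (u + p.1) - phi w u‖ ^ 2 =
        ∑' p : ℤ × I, ∑' u : ℤ, c p * ‖phi w (u + p.1) - phi w u‖ ^ 2 :=
      Summable.tsum_comm (f := fun (p : ℤ × I) (u : ℤ) =>
        c p * ‖phi w (u + p.1) - phi w u‖ ^ 2) h3
    rw [h6, ← tsum_mul_left]
    exact h3.prod.tsum_le_tsum hle (hs.mul_left (20 * ‖w‖))
  have hcs : ∀ u : ℤ, (∑' p : ℤ × I, c p * ‖phi w (u + p.1) - phi w u‖) ^ 2 ≤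
      (∑' p, c p) * ∑' p : ℤ × I, c p * ‖phi w (u + p.1) - phi w u‖ ^ 2 := fun u =>
    ResidC_cs hc hc1 (h1 u) (h2 u)
  have h6 : Summable fun u : ℤ => (∑' p : ℤ × I, c p * ‖phi w (u + p.1) - phi w u‖) ^ 2 :=
    Summable.of_nonneg_of_le (fun u => sq_nonneg _) hcs (h4.mul_left _)
  refine ⟨h1, h6, ?_⟩
  have h7 : ∑' p, c p ≤ ∑' p : ℤ × I, 4 ^ p.1.natAbs * c p := hc1.tsum_le_tsum hcle hs
  have h8 : 0 ≤ ∑' p, c p := tsum_nonneg hc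
  have h9 : 0 ≤ ∑' u : ℤ, ∑' p : ℤ × I, c p * ‖phi w (u + p.1) - phi w u‖ ^ 2 :=
    tsum_nonneg fun u => tsum_nonneg fun p => mul_nonneg (hc p) (sq_nonneg _)
  calc ∑' u : ℤ, (∑' p : ℤ × I, c p * ‖phi w (u + p.1) - phi w u‖) ^ 2
      ≤ ∑' u : ℤ, (∑' p, c p) * ∑' p : ℤ × I, c p * ‖phi w (u + p.1) - phi w u‖ ^ 2 :=
        h6.tsum_le_tsum hcs (h4.mul_left _)
    _ = (∑' p, c p) * ∑' u : ℤ, ∑' p : ℤ × I, c p * ‖phi w (u + p.1) - phi w u‖ ^ 2 :=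
        tsum_mul_left
    _ ≤ (∑' p : ℤ × I, 4 ^ p.1.natAbs * c p) *
        (20 * ‖w‖ * ∑' p : ℤ × I, 4 ^ p.1.natAbs * c p) :=
        mul_le_mul h7 h5 h9 (h8.trans h7)
    _ = _ := by ring

private theorem ResidC_sum {I : Type} [Fintype I] {g : ℤ × I → ℝ} (hg : ∀ y, 0 ≤ g y) {K : ℝ}
    (h : ∀ j, (Summable fun u : ℤ => g (u, j)) ∧ ∑' u : ℤ, g (u, j) ≤ K) :
    Summable g ∧ ∑' y, g y ≤ Fintype.card I * K := by
  have h1 : Summable fun q : I × ℤ => g (q.2, q.1) :=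
    (summable_prod_of_nonneg fun q => hg _).2 ⟨fun j => (h j).1, (hasSum_fintype _).summable⟩
  have h2 : Summable g := h1.prod_symm
  refine ⟨h2, ?_⟩
  have h3 : ∑' q : I × ℤ, g (q.2, q.1) = ∑' y, g y := (Equiv.prodComm I ℤ).tsum_eq g
  rw [← h3, h1.tsum_prod, tsum_fintype]
  calc ∑ j, ∑' u, g (u, j) ≤ ∑ _j : I, K := Finset.sum_le_sum fun j _ => (h j).2
    _ = _ := by simp

private theorem ResidC_pow (n : ℕ) : n ^ 2 ≤ 2 * 2 ^ n := by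
  induction n with
  | zero => norm_num
  | succ n ih =>
    by_cases h : n < 3
    · interval_cases n <;> norm_num
    · have : 3 ≤ n := by omega
      rw [pow_succ 2 n]
      nlinarith

/-- the second difference, and its part for `|u| ≥ |t|` resp. `|u| < |t|` -/
private noncomputable def ResidC_R (w : ℂ) (u t : ℤ) : ℂ :=
  phi w (u + t) + phi w (u - t) - 2 * phi w u - w ^ 2 * (t : ℂ) ^ 2 * phi w u

private noncomputable def ResidC_R1 (w : ℂ) (u t : ℤ) : ℂ :=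
  if u.natAbs < t.natAbs then 0 else ResidC_R w u t

private noncomputable def ResidC_R2 (w : ℂ) (u t : ℤ) : ℂ :=
  if u.natAbs < t.natAbs then ResidC_R w u t else 0

private theorem ResidC_R_eq (w : ℂ) (u t : ℤ) :
    phi w (u + t) + phi w (u - t) - 2 * phi w u =
      w ^ 2 * (t : ℂ) ^ 2 * phi w u + ResidC_R1 w u t + ResidC_R2 w u t := by
  unfold ResidC_R1 ResidC_R2
  split_ifs
  · unfold ResidC_R
    ring
  · unfold ResidC_R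
    ring

private theorem ResidC_R1_le {w : ℂ} (hw : InK w) (u t : ℤ) :
    ‖ResidC_R1 w u t‖ ≤ 100 * ‖w‖ ^ 4 * ‖phi w u‖ * 4 ^ t.natAbs := by
  unfold ResidC_R1
  split_ifs with h
  · rw [norm_zero]
    positivity
  · have h1 := phi_second hw u t
    rw [if_neg h, add_zero] at h1
    refine h1.trans ?_
    have h2 : (2 : ℝ) ^ t.natAbs ≤ 4 ^ t.natAbs := pow_le_pow_left₀ (by norm_num) (by norm_num) _
    have h3 : 0 ≤ 100 * ‖w‖ ^ 4 * ‖phi w u‖ := by positivity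
    nlinarith

private theorem ResidC_R2_le {w : ℂ} (hw : InK w) (u t : ℤ) :
    ‖ResidC_R2 w u t‖ ≤ 7 * ‖w‖ * (1 / 2) ^ u.natAbs * 4 ^ t.natAbs := by
  unfold ResidC_R2
  split_ifs with h
  · have h1 := phi_second hw u t
    rw [if_pos h] at h1
    refine h1.trans ?_
    have hw1 := hw.2.2
    have hw0 := norm_nonneg w
    have h2 : 100 * ‖w‖ ^ 4 ≤ ‖w‖ := by
      have h3 : ‖w‖ ^ 3 ≤ (1 / 10) ^ 3 := pow_le_pow_left₀ hw0 hw1 3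
      have h4 : ‖w‖ ^ 4 = ‖w‖ ^ 3 * ‖w‖ := by ring
      rw [h4]
      nlinarith
    have h3 : (t : ℝ) ^ 2 ≤ 2 * 2 ^ t.natAbs := by
      have h4 : ((t.natAbs ^ 2 : ℕ) : ℝ) ≤ ((2 * 2 ^ t.natAbs : ℕ) : ℝ) :=
        Nat.cast_le.2 (ResidC_pow _)
      push_cast at h4
      rwa [Nat.cast_natAbs, Int.cast_abs, sq_abs] at h4
    have h4 : (2 : ℝ) ^ t.natAbs ≤ (1 / 2) ^ u.natAbs * 4 ^ t.natAbs := by
      have h5 : (4 : ℝ) ^ t.natAbs = 2 ^ t.natAbs * 2 ^ t.natAbs := by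
        rw [← mul_pow]
        norm_num
      have h6 : (2 : ℝ) ^ u.natAbs ≤ 2 ^ t.natAbs := pow_le_pow_right₀ (by norm_num) h.le
      have h7 : (1 / 2 : ℝ) ^ u.natAbs * 2 ^ u.natAbs = 1 := by
        rw [← mul_pow]
        norm_num
      have h8 : (1 : ℝ) ≤ (1 / 2) ^ u.natAbs * 2 ^ t.natAbs :=
        h7.symm.le.trans (mul_le_mul_of_nonneg_left h6 (by positivity))
      have h9 : (0 : ℝ) < 2 ^ t.natAbs := by positivity
      rw [h5]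
      nlinarith
    have h5 := (norm_phi hw u).2
    have h6 : (0 : ℝ) < 2 ^ t.natAbs := by positivity
    have h7 : 100 * ‖w‖ ^ 4 * 2 ^ t.natAbs * ‖phi w u‖ ≤ ‖w‖ * 2 ^ t.natAbs := by
      calc 100 * ‖w‖ ^ 4 * 2 ^ t.natAbs * ‖phi w u‖ ≤ 100 * ‖w‖ ^ 4 * 2 ^ t.natAbs * 1 :=
            mul_le_mul_of_nonneg_left h5 (by positivity)
        _ ≤ _ := by
            rw [mul_one]
            exact mul_le_mul_of_nonneg_right h2 h6.le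
    have h8 : 3 * ‖w‖ * (t : ℝ) ^ 2 ≤ 3 * ‖w‖ * (2 * 2 ^ t.natAbs) :=
      mul_le_mul_of_nonneg_left h3 (by positivity)
    have h9 : 7 * ‖w‖ * 2 ^ t.natAbs ≤ 7 * ‖w‖ * ((1 / 2) ^ u.natAbs * 4 ^ t.natAbs) :=
      mul_le_mul_of_nonneg_left h4 (by positivity)
    calc _ ≤ ‖w‖ * 2 ^ t.natAbs + 3 * ‖w‖ * (2 * 2 ^ t.natAbs) := add_le_add h7 h8
      _ = 7 * ‖w‖ * 2 ^ t.natAbs := by ring
      _ ≤ 7 * ‖w‖ * ((1 / 2) ^ u.natAbs * 4 ^ t.natAbs) := h9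
      _ = _ := by ring
  · rw [norm_zero]
    positivity

namespace Slb

variable {I : Type} [Fintype I] {κ : Slb I}

/-- The main part. For `y = (u, j)`, substituting `x = (u + t, i)`:
`∑ Fs s t i j h i phi (u + t) - ∑ F0 t i j h i phi u
 = phi u ∑ (Fs - F0) h i + ∑ (Fs - F0) h i (phi (u + t) - phi u) + ∑ F0 h i (phi (u + t) - phi u)`.
First term: `- s N_j phi u + phi u O(‖s‖²)`. Second: square sum over `u` at most `(C ‖s‖ √(20 ‖w‖))²` (Minkowski, or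
Cauchy-Schwarz with the weights `‖Fs - F0‖`; `phi_diff_sq_le`, `F_exp`). Third: by `F0_prop` (evenness)
`1/2 ∑ F0 h i (phi (u + t) + phi (u - t) - 2 phi u) = 1/2 w² V_j phi u` plus an error bounded by `phi_second`: the
part `100 ‖w‖⁴ 2 ^ |t| ‖phi u‖` has square sum `O(‖w‖⁷)`, the part `3 ‖w‖ t² 1_{|u| < |t|}` is `O(‖w‖ 2 ^ (-|u|))` since
`F0 t ≤ C 4 ^ (-|t|)`. Sum of the main terms: `w² phi u (V_j / 2 - aa N_j) = w² phi u tt j`. -/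
theorem Ok.resid_c (hκ : κ.Ok) : ∃ C' w0 : ℝ, 0 ≤ C' ∧ 0 < w0 ∧
    ∀ w : ℂ, InK w → ‖w‖ < w0 → ∃ l1 l2 : XX I → ℂ,
      (∀ y, ‖l1 y‖ ≤ C' * ‖w‖ * (1 / 2) ^ y.1.natAbs) ∧ (Summable fun y => ‖l2 y‖ ^ 2) ∧
      ∑' y, ‖l2 y‖ ^ 2 ≤ C' * ‖w‖ ^ 4 ∧ ∀ y : XX I,
      ∑' x : XX I, κ.Fs (κ.aa * w ^ 2) (x.1 - y.1) x.2 y.2 * (κ.h x.2 * phi w x.1) -
        ∑' x : XX I, κ.F0 (x.1 - y.1) x.2 y.2 * (κ.h x.2 * phi w y.1) =
        l1 y + l2 y + w ^ 2 * phi w y.1 * κ.tt y.2 := by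
  obtain ⟨C0', hC0'⟩ := hκ.F0_exp
  obtain ⟨C1, hC1, hF⟩ := hκ.F_exp
  have haa : 0 < κ.aa := hκ.V_pos.2.2.1
  set a := κ.aa with ha
  set C0 : ℝ := |C0'| with hC0d
  have hC0n : 0 ≤ C0 := abs_nonneg _
  set H : ℝ := ∑ j, κ.h j with hH
  have hHle : ∀ j, κ.h j ≤ H := fun j =>
    Finset.single_le_sum (f := κ.h) (fun j _ => (hκ.h_pos j).le) (Finset.mem_univ j)
  have hH0 : 0 ≤ H := Finset.sum_nonneg fun j _ => (hκ.h_pos j).le
  have hF0 : ∀ j, (Summable fun p : ℤ × I => 4 ^ p.1.natAbs * κ.F0 p.1 p.2 j) ∧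
      ∑' p : ℤ × I, 4 ^ p.1.natAbs * κ.F0 p.1 p.2 j ≤ C0 := by
    intro j
    have e : ∀ p : ℤ × I, κ.F0 p.1 p.2 j = κ.F0 p.1 j p.2 := fun p => (hκ.F0_prop p.1 j p.2).2.2
    simp only [e]
    exact ⟨(hC0' j).1, (hC0' j).2.trans (le_abs_self _)⟩
  have hF0n : ∀ t i j, 0 ≤ κ.F0 t i j := fun t i j => (hκ.F0_prop t i j).1
  -- bounds of products with `h`
  have hFh : ∀ (t : ℤ) (i j : I) (v : ℂ) (B : ℝ), ‖v‖ ≤ B * 4 ^ t.natAbs →
      ‖(κ.F0 t i j : ℂ) * (κ.h i * v)‖ ≤ H * B * (4 ^ t.natAbs * κ.F0 t i j) := by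
    intro t i j v B hv
    rw [norm_mul, norm_mul, Complex.norm_real, Complex.norm_real,
      Real.norm_of_nonneg (hF0n t i j), Real.norm_of_nonneg (hκ.h_pos i).le]
    calc κ.F0 t i j * (κ.h i * ‖v‖) ≤ κ.F0 t i j * (H * (B * 4 ^ t.natAbs)) :=
          mul_le_mul_of_nonneg_left (mul_le_mul (hHle i) hv (norm_nonneg _) hH0) (hF0n t i j)
      _ = _ := by ring
  set K1 : ℝ := H * C1 * a ^ 2 + 50 * H * C0 with hK1
  have hK1n : 0 ≤ K1 := by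
    rw [hK1]
    positivity
  set C' : ℝ := 4 * H * C0 + Fintype.card I * (8 * K1 ^ 2 + 40 * (C1 * a * H) ^ 2) with hC'
  have hC'n : 0 ≤ C' := by
    rw [hC']
    positivity
  refine ⟨C', 1 / (1 + a), hC'n, by positivity, fun w hw hw0 => ?_⟩
  have hwn := norm_nonneg w
  have hw1 := hw.2.2
  have haw : a * ‖w‖ ≤ 1 := by
    rw [lt_div_iff₀ (by positivity)] at hw0
    nlinarith
  set s : ℂ := (a : ℂ) * w ^ 2 with hs
  have hsn : ‖s‖ = a * ‖w‖ ^ 2 := by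
    rw [hs, norm_mul, norm_pow, Complex.norm_real, Real.norm_of_nonneg haa.le]
  have hs1 : ‖s‖ ≤ 1 / 10 := by
    rw [hsn]
    nlinarith
  have hFs := hF s hs1
  -- the parts
  set E : I → ℂ := fun j => ∑' p : ℤ × I,
    (κ.Fs s p.1 p.2 j - κ.F0 p.1 p.2 j + s * κ.F1 p.1 p.2 j) * κ.h p.2 with hE
  set B : XX I → ℂ := fun y => ∑' p : ℤ × I, (κ.Fs s p.1 p.2 y.2 - κ.F0 p.1 p.2 y.2) *
    (κ.h p.2 * (phi w (y.1 + p.1) - phi w y.1)) with hB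
  set S1 : XX I → ℂ := fun y => ∑' p : ℤ × I, (κ.F0 p.1 p.2 y.2 : ℂ) *
    (κ.h p.2 * ResidC_R1 w y.1 p.1) with hS1
  set S2 : XX I → ℂ := fun y => ∑' p : ℤ × I, (κ.F0 p.1 p.2 y.2 : ℂ) *
    (κ.h p.2 * ResidC_R2 w y.1 p.1) with hS2
  have hEs : ∀ j, (Summable fun p : ℤ × I =>
      (κ.Fs s p.1 p.2 j - κ.F0 p.1 p.2 j + s * κ.F1 p.1 p.2 j) * κ.h p.2) ∧
      ‖E j‖ ≤ H * C1 * a ^ 2 * ‖w‖ ^ 4 := by
    intro j
    obtain ⟨h1, h2⟩ := ResidC_dom (K := H) (hFs j).2.2.1 (g := fun p : ℤ × I =>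
      (κ.Fs s p.1 p.2 j - κ.F0 p.1 p.2 j + s * κ.F1 p.1 p.2 j) * κ.h p.2) (by
        intro p
        rw [norm_mul, Complex.norm_real, Real.norm_of_nonneg (hκ.h_pos p.2).le, mul_comm]
        refine mul_le_mul (hHle _) ?_ (norm_nonneg _) hH0
        exact le_mul_of_one_le_left (norm_nonneg _) (one_le_pow₀ (by norm_num)))
    refine ⟨h1, h2.trans ?_⟩
    calc H * _ ≤ H * (C1 * ‖s‖ ^ 2) := mul_le_mul_of_nonneg_left (hFs j).2.2.2 hH0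
      _ = _ := by
        rw [hsn]
        ring
  -- the middle part
  have hcn : ∀ (j : I) (p : ℤ × I), 0 ≤ ‖κ.Fs s p.1 p.2 j - κ.F0 p.1 p.2 j‖ * H := fun j p =>
    mul_nonneg (norm_nonneg _) hH0
  have hcs : ∀ j, Summable fun p : ℤ × I =>
      4 ^ p.1.natAbs * (‖κ.Fs s p.1 p.2 j - κ.F0 p.1 p.2 j‖ * H) := fun j =>
    ((hFs j).1.mul_right H).congr fun p => by ring
  have hct : ∀ j, ∑' p : ℤ × I, 4 ^ p.1.natAbs * (‖κ.Fs s p.1 p.2 j - κ.F0 p.1 p.2 j‖ * H) ≤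
      C1 * a * H * ‖w‖ ^ 2 := by
    intro j
    have h1 : ∑' p : ℤ × I, 4 ^ p.1.natAbs * (‖κ.Fs s p.1 p.2 j - κ.F0 p.1 p.2 j‖ * H) =
        (∑' p : ℤ × I, 4 ^ p.1.natAbs * ‖κ.Fs s p.1 p.2 j - κ.F0 p.1 p.2 j‖) * H := by
      rw [← tsum_mul_right]
      exact tsum_congr fun p => by ring
    rw [h1]
    calc _ ≤ C1 * ‖s‖ * H := mul_le_mul_of_nonneg_right (hFs j).2.1 hH0
      _ = _ := by
        rw [hsn]
        ring
  set b : XX I → ℝ := fun y => ∑' p : ℤ × I,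
    (‖κ.Fs s p.1 p.2 y.2 - κ.F0 p.1 p.2 y.2‖ * H) * ‖phi w (y.1 + p.1) - phi w y.1‖ with hb
  have hbs := fun j => ResidC_B hw (hcn j) (hcs j)
  have hBs : ∀ y : XX I, (Summable fun p : ℤ × I => (κ.Fs s p.1 p.2 y.2 - κ.F0 p.1 p.2 y.2) *
      (κ.h p.2 * (phi w (y.1 + p.1) - phi w y.1))) ∧ ‖B y‖ ≤ b y := by
    intro y
    obtain ⟨h1, h2⟩ := ResidC_dom (K := 1) ((hbs y.2).1 y.1) (g := fun p : ℤ × I =>
      (κ.Fs s p.1 p.2 y.2 - κ.F0 p.1 p.2 y.2) *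
      (κ.h p.2 * (phi w (y.1 + p.1) - phi w y.1))) (by
        intro p
        rw [norm_mul, norm_mul, Complex.norm_real, Real.norm_of_nonneg (hκ.h_pos p.2).le, one_mul,
          mul_assoc]
        exact mul_le_mul_of_nonneg_left
          (mul_le_mul_of_nonneg_right (hHle _) (norm_nonneg _)) (norm_nonneg _))
    refine ⟨h1, ?_⟩
    rw [one_mul] at h2
    exact h2
  have hbn : ∀ y, 0 ≤ b y := fun y => tsum_nonneg fun p => mul_nonneg (hcn _ _) (norm_nonneg _)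
  -- the parts of the second difference
  have hS1s : ∀ y : XX I, (Summable fun p : ℤ × I => (κ.F0 p.1 p.2 y.2 : ℂ) *
      (κ.h p.2 * ResidC_R1 w y.1 p.1)) ∧ ‖S1 y‖ ≤ 100 * H * C0 * ‖w‖ ^ 4 * ‖phi w y.1‖ := by
    intro y
    obtain ⟨h1, h2⟩ := ResidC_dom (K := H * (100 * ‖w‖ ^ 4 * ‖phi w y.1‖)) (hF0 y.2).1
      (g := fun p : ℤ × I => (κ.F0 p.1 p.2 y.2 : ℂ) * (κ.h p.2 * ResidC_R1 w y.1 p.1))
      fun p => hFh _ _ _ _ _ (ResidC_R1_le hw _ _)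
    refine ⟨h1, h2.trans ?_⟩
    calc _ ≤ H * (100 * ‖w‖ ^ 4 * ‖phi w y.1‖) * C0 :=
          mul_le_mul_of_nonneg_left (hF0 y.2).2 (by positivity)
      _ = _ := by ring
  have hS2s : ∀ y : XX I, (Summable fun p : ℤ × I => (κ.F0 p.1 p.2 y.2 : ℂ) *
      (κ.h p.2 * ResidC_R2 w y.1 p.1)) ∧ ‖S2 y‖ ≤ 7 * H * C0 * ‖w‖ * (1 / 2) ^ y.1.natAbs := by
    intro y
    obtain ⟨h1, h2⟩ := ResidC_dom (K := H * (7 * ‖w‖ * (1 / 2) ^ y.1.natAbs)) (hF0 y.2).1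
      (g := fun p : ℤ × I => (κ.F0 p.1 p.2 y.2 : ℂ) * (κ.h p.2 * ResidC_R2 w y.1 p.1))
      fun p => hFh _ _ _ _ _ (ResidC_R2_le hw _ _)
    refine ⟨h1, h2.trans ?_⟩
    calc _ ≤ H * (7 * ‖w‖ * (1 / 2) ^ y.1.natAbs) * C0 :=
          mul_le_mul_of_nonneg_left (hF0 y.2).2 (by positivity)
      _ = _ := by ring
  -- the first difference
  have hCs : ∀ y : XX I, Summable fun p : ℤ × I => (κ.F0 p.1 p.2 y.2 : ℂ) *
      (κ.h p.2 * (phi w (y.1 + p.1) - phi w y.1)) := by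
    intro y
    refine (ResidC_dom (K := H * 2) (hF0 y.2).1 fun p => hFh _ _ _ _ _ ?_).1
    have h1 := (norm_phi hw (y.1 + p.1)).2
    have h2 := (norm_phi hw y.1).2
    have h3 := norm_sub_le (phi w (y.1 + p.1)) (phi w y.1)
    have h4 : (1 : ℝ) ≤ 4 ^ p.1.natAbs := one_le_pow₀ (by norm_num)
    linarith
  have hCn : ∀ y : XX I, HasSum (fun p : ℤ × I => (κ.F0 p.1 p.2 y.2 : ℂ) *
      (κ.h p.2 * (phi w (y.1 - p.1) - phi w y.1)))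
      (∑' p : ℤ × I, (κ.F0 p.1 p.2 y.2 : ℂ) *
      (κ.h p.2 * (phi w (y.1 + p.1) - phi w y.1))) := by
    intro y
    have h1 := ((Equiv.neg ℤ).prodCongr (Equiv.refl I)).hasSum_iff.2 (hCs y).hasSum
    refine h1.congr_fun ?_
    intro p
    simp only [Function.comp, Equiv.prodCongr_apply, Prod.map, Equiv.neg_apply, Equiv.refl_apply]
    rw [(hκ.F0_prop p.1 p.2 y.2).2.1, sub_eq_add_neg y.1 p.1]
  have hV : ∀ j, HasSum (fun p : ℤ × I => (κ.F0 p.1 p.2 j : ℂ) * κ.h p.2 * (p.1 : ℂ) ^ 2)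
      (κ.Vj j : ℂ) := by
    intro j
    have h1 := Complex.hasSum_ofReal.2 (hκ.V_summable j).1.hasSum
    refine h1.congr_fun ?_
    intro p
    push_cast
    ring
  have hN : ∀ j, HasSum (fun p : ℤ × I => (κ.F1 p.1 p.2 j : ℂ) * κ.h p.2) (κ.Nj j : ℂ) := by
    intro j
    have h1 := Complex.hasSum_ofReal.2 (hκ.V_summable j).2.1.hasSum
    refine h1.congr_fun ?_
    intro p
    push_cast
    ring
  have hC : ∀ y : XX I, 2 * ∑' p : ℤ × I, (κ.F0 p.1 p.2 y.2 : ℂ) *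
      (κ.h p.2 * (phi w (y.1 + p.1) - phi w y.1)) =
      w ^ 2 * phi w y.1 * κ.Vj y.2 + S1 y + S2 y := by
    intro y
    have h1 := (hCs y).hasSum.add (hCn y)
    have h2 := (((hV y.2).mul_left (w ^ 2 * phi w y.1)).add (hS1s y).1.hasSum).add
      (hS2s y).1.hasSum
    rw [two_mul]
    refine h1.unique (h2.congr_fun ?_)
    intro p
    have h3 := ResidC_R_eq w y.1 p.1
    linear_combination (κ.F0 p.1 p.2 y.2 : ℂ) * κ.h p.2 * h3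
  have hT0 : ∀ y : XX I, HasSum (fun p : ℤ × I => (κ.F0 p.1 p.2 y.2 : ℂ) *
      (κ.h p.2 * phi w y.1))
      (∑' x : XX I, κ.F0 (x.1 - y.1) x.2 y.2 * (κ.h x.2 * phi w y.1)) := by
    intro y
    have h1 : Summable fun p : ℤ × I => (κ.F0 p.1 p.2 y.2 : ℂ) * (κ.h p.2 * phi w y.1) := by
      refine (ResidC_dom (K := H * 1) (hF0 y.2).1 fun p => hFh _ _ _ _ _ ?_).1
      have h2 := (norm_phi hw y.1).2
      have h4 : (1 : ℝ) ≤ 4 ^ p.1.natAbs := one_le_pow₀ (by norm_num)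
      linarith
    have h2 := ((Equiv.subRight y.1).prodCongr (Equiv.refl I)).tsum_eq
      fun p : ℤ × I => (κ.F0 p.1 p.2 y.2 : ℂ) * (κ.h p.2 * phi w y.1)
    have h3 : ∑' x : XX I, κ.F0 (x.1 - y.1) x.2 y.2 * (κ.h x.2 * phi w y.1) =
        ∑' p : ℤ × I, (κ.F0 p.1 p.2 y.2 : ℂ) * (κ.h p.2 * phi w y.1) := h2
    rw [h3]
    exact h1.hasSum
  have hT : ∀ y : XX I,
      ∑' x : XX I, κ.Fs s (x.1 - y.1) x.2 y.2 * (κ.h x.2 * phi w x.1) =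
      ∑' p : ℤ × I, κ.Fs s p.1 p.2 y.2 * (κ.h p.2 * phi w (y.1 + p.1)) := by
    intro y
    have h2 := ((Equiv.subRight y.1).prodCongr (Equiv.refl I)).tsum_eq
      fun p : ℤ × I => κ.Fs s p.1 p.2 y.2 * (κ.h p.2 * phi w (y.1 + p.1))
    rw [← h2]
    refine tsum_congr fun x => ?_
    simp only [Equiv.prodCongr_apply, Prod.map, Equiv.subRight_apply, Equiv.refl_apply]
    rw [add_sub_cancel]
  refine ⟨fun y => S2 y / 2, fun y => E y.2 * phi w y.1 + B y + S1 y / 2, ?_, ?_⟩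
  · intro y
    rw [norm_div, Complex.norm_ofNat]
    have h1 := (hS2s y).2
    have h2 : 0 ≤ ‖w‖ * (1 / 2) ^ y.1.natAbs := by positivity
    have h3 : 4 * H * C0 ≤ C' := by
      rw [hC']
      have : 0 ≤ (Fintype.card I : ℝ) * (8 * K1 ^ 2 + 40 * (C1 * a * H) ^ 2) := by positivity
      linarith
    have h4 : 0 ≤ H * C0 := by positivity
    calc ‖S2 y‖ / 2 ≤ (7 * H * C0 * ‖w‖ * (1 / 2) ^ y.1.natAbs) / 2 := by linarith
      _ = (7 / 2 * (H * C0)) * (‖w‖ * (1 / 2) ^ y.1.natAbs) := by ring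
      _ ≤ C' * (‖w‖ * (1 / 2) ^ y.1.natAbs) := mul_le_mul_of_nonneg_right (by linarith) h2
      _ = _ := by ring
  have hl2 : ∀ y : XX I, ‖E y.2 * phi w y.1 + B y + S1 y / 2‖ ^ 2 ≤
      2 * K1 ^ 2 * ‖w‖ ^ 8 * ‖phi w y.1‖ ^ 2 + 2 * b y ^ 2 := by
    intro y
    have h1 : ‖E y.2 * phi w y.1 + B y + S1 y / 2‖ ≤ K1 * ‖w‖ ^ 4 * ‖phi w y.1‖ + b y := by
      have h2 := norm_add_le (E y.2 * phi w y.1 + B y) (S1 y / 2)
      have h3 := norm_add_le (E y.2 * phi w y.1) (B y)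
      rw [norm_div, Complex.norm_ofNat] at h2
      rw [norm_mul] at h3
      have h4 := mul_le_mul_of_nonneg_right (hEs y.2).2 (norm_nonneg (phi w y.1))
      have h5 := (hBs y).2
      have h6 := (hS1s y).2
      have h7 : K1 * ‖w‖ ^ 4 * ‖phi w y.1‖ = H * C1 * a ^ 2 * ‖w‖ ^ 4 * ‖phi w y.1‖ +
          100 * H * C0 * ‖w‖ ^ 4 * ‖phi w y.1‖ / 2 := by
        rw [hK1]
        ring
      linarith
    calc _ ≤ (K1 * ‖w‖ ^ 4 * ‖phi w y.1‖ + b y) ^ 2 := pow_le_pow_left₀ (norm_nonneg _) h1 2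
      _ ≤ _ := by nlinarith [sq_nonneg (K1 * ‖w‖ ^ 4 * ‖phi w y.1‖ - b y)]
  obtain ⟨-, -, hp1, hp2⟩ := phi_sums hw
  have hw00 : 0 < ‖w‖ := norm_pos_iff.2 hw.1
  have hsum := ResidC_sum (I := I)
    (g := fun y : ℤ × I => ‖E y.2 * phi w y.1 + B y + S1 y / 2‖ ^ 2)
    (K := (8 * K1 ^ 2 + 40 * (C1 * a * H) ^ 2) * ‖w‖ ^ 4) (fun y => sq_nonneg _) (by
      intro j
      have h1 : Summable fun u : ℤ => 2 * K1 ^ 2 * ‖w‖ ^ 8 * ‖phi w u‖ ^ 2 + 2 * b (u, j) ^ 2 :=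
        (hp1.mul_left _).add ((hbs j).2.1.mul_left 2)
      have h2 : Summable fun u : ℤ =>
          ‖E j * phi w u + B (u, j) + S1 (u, j) / 2‖ ^ 2 :=
        Summable.of_nonneg_of_le (fun u => sq_nonneg _) (fun u => hl2 (u, j)) h1
      refine ⟨h2, (h2.tsum_le_tsum (fun u => hl2 (u, j)) h1).trans ?_⟩
      have h3 : ∑' u : ℤ, (2 * K1 ^ 2 * ‖w‖ ^ 8 * ‖phi w u‖ ^ 2 + 2 * b (u, j) ^ 2) =
          2 * K1 ^ 2 * ‖w‖ ^ 8 * ∑' u : ℤ, ‖phi w u‖ ^ 2 + 2 * ∑' u : ℤ, b (u, j) ^ 2 := by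
        rw [(hp1.mul_left (2 * K1 ^ 2 * ‖w‖ ^ 8)).tsum_add ((hbs j).2.1.mul_left 2),
          tsum_mul_left, tsum_mul_left]
      have h3' : ∑' u : ℤ, (2 * K1 ^ 2 * ‖w‖ ^ 8 * ‖phi w (u, j).1‖ ^ 2 + 2 * b (u, j) ^ 2) =
          2 * K1 ^ 2 * ‖w‖ ^ 8 * ∑' u : ℤ, ‖phi w u‖ ^ 2 + 2 * ∑' u : ℤ, b (u, j) ^ 2 := h3
      rw [h3']
      have h4 : ∑' u : ℤ, b (u, j) ^ 2 ≤ 20 * ‖w‖ * (C1 * a * H * ‖w‖ ^ 2) ^ 2 := by
        refine (hbs j).2.2.trans (mul_le_mul_of_nonneg_left ?_ (by positivity))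
        refine pow_le_pow_left₀ (tsum_nonneg fun p => ?_) (hct j) 2
        exact mul_nonneg (by positivity) (hcn j p)
      have h5 : 2 * K1 ^ 2 * ‖w‖ ^ 8 * ∑' u : ℤ, ‖phi w u‖ ^ 2 ≤
          2 * K1 ^ 2 * ‖w‖ ^ 8 * (4 / ‖w‖) := mul_le_mul_of_nonneg_left hp2 (by positivity)
      have h6 : 2 * K1 ^ 2 * ‖w‖ ^ 8 * (4 / ‖w‖) = 8 * K1 ^ 2 * (‖w‖ ^ 4 * ‖w‖ ^ 3) := by
        field_simp
        ring
      have h7 : ‖w‖ ^ 3 ≤ 1 := pow_le_one₀ hwn (by linarith)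
      have h8 : ‖w‖ ^ 4 * ‖w‖ ^ 3 ≤ ‖w‖ ^ 4 := mul_le_of_le_one_right (by positivity) h7
      have h9 : 2 * (20 * ‖w‖ * (C1 * a * H * ‖w‖ ^ 2) ^ 2) =
          40 * (C1 * a * H) ^ 2 * (‖w‖ ^ 4 * ‖w‖) := by ring
      have h10 : ‖w‖ ^ 4 * ‖w‖ ≤ ‖w‖ ^ 4 := mul_le_of_le_one_right (by positivity) (by linarith)
      have h11 : 8 * K1 ^ 2 * (‖w‖ ^ 4 * ‖w‖ ^ 3) ≤ 8 * K1 ^ 2 * ‖w‖ ^ 4 :=
        mul_le_mul_of_nonneg_left h8 (by positivity)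
      have h12 : 40 * (C1 * a * H) ^ 2 * (‖w‖ ^ 4 * ‖w‖) ≤ 40 * (C1 * a * H) ^ 2 * ‖w‖ ^ 4 :=
        mul_le_mul_of_nonneg_left h10 (by positivity)
      linarith)
  refine ⟨hsum.1, hsum.2.trans ?_, ?_⟩
  · have h1 : 0 ≤ H * C0 * ‖w‖ ^ 4 := by positivity
    rw [hC']
    nlinarith
  · intro y
    have h0 := hT0 y
    have h1 := (hEs y.2).1.hasSum.mul_right (phi w y.1)
    have h2 := (hN y.2).mul_left (-s * phi w y.1)
    have h3 := (hBs y).1.hasSum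
    have h4 := (hCs y).hasSum
    have h5 := ((((h0.add h1).add h2).add h3).add h4).congr_fun
      (g := fun p : ℤ × I => κ.Fs s p.1 p.2 y.2 * (κ.h p.2 * phi w (y.1 + p.1))) (by
        intro p
        ring)
    rw [hT y, h5.tsum_eq]
    have h6 := hC y
    have h7 : (κ.tt y.2 : ℂ) = κ.Vj y.2 / 2 - a * κ.Nj y.2 := by
      unfold tt
      push_cast
      rfl
    rw [h7]
    simp only [hE, hB]
    rw [hs]
    linear_combination (1 / 2 : ℂ) * h6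

end Slb

end Pool.Agent.KSlab
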