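import Pool.Agent.KSlab.Asy

/-! SL26: the residual of the trial function, part of the sources and the defects. -/

set_option autoImplicit false

open Complex Set Filter Topology

namespace Pool.Agent.KSlab

namespace Slb

variable {I : Type} [Fintype I] {κ : Slb I} {m : XX I → ℝ}

private theorem ra_pow (n : ℕ) : (1 + (n : ℝ)) * (1 / 4) ^ n ≤ (1 / 2) ^ n := by
  have h1 : (1 + (n : ℝ)) ≤ 2 ^ n := by
    have h : n + 1 ≤ 2 ^ n := Nat.lt_two_pow_self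
    have h2 : ((n + 1 : ℕ) : ℝ) ≤ ((2 ^ n : ℕ) : ℝ) := Nat.cast_le.2 h
    push_cast at h2
    linarith
  calc (1 + (n : ℝ)) * (1 / 4) ^ n ≤ 2 ^ n * (1 / 4) ^ n :=
        mul_le_mul_of_nonneg_right h1 (by positivity)
    _ = (1 / 2) ^ n := by
        rw [← mul_pow]
        norm_num

private theorem ra_abs (u v : ℤ) : ((u - v).natAbs : ℝ) ≤ (1 + (v.natAbs : ℝ)) * 4 ^ u.natAbs := by
  have h1 : ((u - v).natAbs : ℝ) ≤ u.natAbs + v.natAbs := by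
    have : (u - v).natAbs ≤ u.natAbs + v.natAbs := by omega
    exact_mod_cast this
  have h2 : (1 + (u.natAbs : ℝ)) ≤ 4 ^ u.natAbs := by
    have h : u.natAbs + 1 ≤ 4 ^ u.natAbs :=
      (Nat.lt_pow_self (by norm_num : 1 < 4))
    have h3 : ((u.natAbs + 1 : ℕ) : ℝ) ≤ ((4 ^ u.natAbs : ℕ) : ℝ) := Nat.cast_le.2 h
    push_cast at h3
    linarith
  have h3 : (0 : ℝ) ≤ v.natAbs := Nat.cast_nonneg _
  have h4 : (0 : ℝ) ≤ u.natAbs := Nat.cast_nonneg _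
  have h5 : (1 + (v.natAbs : ℝ)) * (1 + u.natAbs) ≤ (1 + (v.natAbs : ℝ)) * 4 ^ u.natAbs :=
    mul_le_mul_of_nonneg_left h2 (by positivity)
  nlinarith

/-- the critical measure is bounded -/
private theorem ra_bd {β r C : ℝ} (hκ : κ.Ok) (hA : Asy κ m β r C) :
    ∃ M : ℝ, 0 ≤ M ∧ ∀ x, ‖(m x : ℂ)‖ ≤ M := by
  have hs : 0 ≤ ∑ i, κ.h i := Finset.sum_nonneg fun i _ => (hκ.h_pos i).le
  refine ⟨β * ∑ i, κ.h i + C, add_nonneg (mul_nonneg hA.β_pos.le hs) hA.C_nn, fun x => ?_⟩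
  rw [Complex.norm_real, Real.norm_eq_abs]
  have h1 := hA.bd x
  have h2 : κ.h x.2 ≤ ∑ i, κ.h i :=
    Finset.single_le_sum (fun i _ => (hκ.h_pos i).le) (Finset.mem_univ x.2)
  have h3 : r ^ x.1.natAbs ≤ 1 :=
    pow_le_one₀ (by have := hA.r_ge; linarith) hA.r_lt.le
  have h4 : |m x| ≤ |m x - β * κ.h x.2| + |β * κ.h x.2| := by
    have := abs_add_le (m x - β * κ.h x.2) (β * κ.h x.2)
    rwa [sub_add_cancel] at this
  have h5 : |β * κ.h x.2| ≤ β * ∑ i, κ.h i := by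
    rw [abs_of_nonneg (mul_nonneg hA.β_pos.le (hκ.h_pos _).le)]
    exact mul_le_mul_of_nonneg_left h2 hA.β_pos.le
  have h6 : C * r ^ x.1.natAbs ≤ C * 1 := mul_le_mul_of_nonneg_left h3 hA.C_nn
  linarith

omit [Fintype I] in
private theorem ra_shift {F : ℤ × I → ℝ} (y : XX I) (hF : Summable F) :
    Summable fun x : XX I => F (x.1 - y.1, x.2) :=
  ((Equiv.subRight y.1).prodCongr (Equiv.refl I)).summable_iff.2 hF

/-- The part of the sources and the defects. Let `s = aa w²`, `y` alive. By `dS_exp` (and symmetry,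
`m = 0` at the dead states) `∑_x Ks s y x m x phi x = ∑_x Fs s (x - y) m x phi x + ∑_x dS s y x m x phi x`, and by
`IsM.eqn` `m y = c0 y + ∑_x F0 (x - y) m x + ∑_x dS 0 y x m x`. So
`rho y = (cs s y - phi y c0 y) + ∑_x (dS s y x phi x - dS 0 y x phi y) m x
 + ∑_x (Fs s (x - y) phi x - F0 (x - y) phi y) m x`. The first two terms are `O(‖w‖) r ^ |u|`: `c_exp`, `one_sub_phi`,
`dS_exp`, `phi_sub`, `m x ≤ C (1 + |x|)`, `(1 + |x|) |x - y| ≤ C 4^..`; use a part of the weight, e.g. `1/4 ≤ r / 2` and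
`(1 + |y|)(1/4) ^ |y| ≤ C (1/2) ^ |y|`. -/
theorem Ok.resid_a (hκ : κ.Ok) {β r C : ℝ} (hA : Asy κ m β r C) : ∃ C' w0 : ℝ, 0 ≤ C' ∧ 0 < w0 ∧
    ∀ w : ℂ, InK w → ‖w‖ < w0 → ∀ y : XX I, κ.Al y →
      (Summable fun x : XX I => κ.Fs (κ.aa * w ^ 2) (x.1 - y.1) x.2 y.2 * (m x * phi w x.1)) ∧
      (Summable fun x : XX I => κ.F0 (x.1 - y.1) x.2 y.2 * (m x * phi w y.1)) ∧
      ‖κ.rho m w y - (∑' x : XX I, κ.Fs (κ.aa * w ^ 2) (x.1 - y.1) x.2 y.2 * (m x * phi w x.1) -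
        ∑' x : XX I, κ.F0 (x.1 - y.1) x.2 y.2 * (m x * phi w y.1))‖ ≤
        C' * ‖w‖ * r ^ y.1.natAbs := by
  obtain ⟨M, hM0, hM⟩ := ra_bd hκ hA
  obtain ⟨CF, -, hCF⟩ := hκ.F_exp
  obtain ⟨C0, hC0⟩ := hκ.F0_exp
  obtain ⟨C2, hC20, hC2⟩ := hκ.dS_exp
  obtain ⟨C1, hC10, hC1⟩ := hκ.c_exp
  obtain ⟨-, -, haa, -, -⟩ := hκ.V_pos
  have hr0 : 0 < r := lt_of_lt_of_le (by norm_num) hA.r_ge
  refine ⟨C1 * (κ.aa + 1) + M * C2 * (κ.aa + 1), 1 / (10 * (κ.aa + 1)), by positivity,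
    by positivity, fun w hw hw0 y hy => ?_⟩
  -- the parameter
  have hn0 : 0 ≤ ‖w‖ := norm_nonneg w
  have hn1 : ‖w‖ ≤ 1 := hw.2.2.trans (by norm_num)
  set s : ℂ := κ.aa * w ^ 2 with hs
  have hsn : ‖s‖ ≤ κ.aa * ‖w‖ := by
    rw [hs, norm_mul, Complex.norm_real, Real.norm_of_nonneg haa.le, norm_pow]
    refine mul_le_mul_of_nonneg_left ?_ haa.le
    nlinarith
  have hs1 : ‖s‖ ≤ 1 / 10 := by
    refine hsn.trans ?_
    have h1 : κ.aa * ‖w‖ ≤ κ.aa * (1 / (10 * (κ.aa + 1))) :=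
      mul_le_mul_of_nonneg_left hw0.le haa.le
    refine h1.trans ?_
    rw [mul_one_div, div_le_div_iff₀ (by positivity) (by norm_num)]
    linarith
  have h01 : ‖(0 : ℂ)‖ ≤ 1 / 10 := by rw [norm_zero]; norm_num
  have hφ : ∀ u : ℤ, ‖phi w u‖ ≤ 1 := fun u => (norm_phi hw u).2
  -- summability of the free kernels
  have hF0 : Summable fun x : XX I => ‖((κ.F0 (x.1 - y.1) x.2 y.2 : ℝ) : ℂ)‖ := by
    have h1 : Summable fun p : ℤ × I => κ.F0 p.1 y.2 p.2 := by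
      refine Summable.of_nonneg_of_le (fun p => (hκ.F0_prop _ _ _).1) (fun p => ?_) (hC0 y.2).1
      exact le_mul_of_one_le_left (hκ.F0_prop _ _ _).1 (one_le_pow₀ (by norm_num))
    refine (ra_shift y h1).congr fun x => ?_
    rw [Complex.norm_real, Real.norm_of_nonneg (hκ.F0_prop _ _ _).1]
    exact (hκ.F0_prop _ _ _).2.2
  have hFs : Summable fun x : XX I => ‖κ.Fs s (x.1 - y.1) x.2 y.2‖ := by
    have h1 : Summable fun p : ℤ × I => ‖κ.Fs s p.1 p.2 y.2 - κ.F0 p.1 p.2 y.2‖ := by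
      refine Summable.of_nonneg_of_le (fun p => norm_nonneg _) (fun p => ?_) (hCF s hs1 y.2).1
      exact le_mul_of_one_le_left (norm_nonneg _) (one_le_pow₀ (by norm_num))
    refine Summable.of_nonneg_of_le (fun x => norm_nonneg _) (fun x => ?_)
      ((ra_shift y h1).add hF0)
    have := norm_add_le (κ.Fs s (x.1 - y.1) x.2 y.2 - κ.F0 (x.1 - y.1) x.2 y.2)
      (κ.F0 (x.1 - y.1) x.2 y.2 : ℂ)
    rwa [sub_add_cancel] at this
  have hmφ : ∀ (x : XX I) (u : ℤ), ‖(m x : ℂ) * phi w u‖ ≤ M := by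
    intro x u
    rw [norm_mul]
    calc ‖(m x : ℂ)‖ * ‖phi w u‖ ≤ M * 1 :=
          mul_le_mul (hM x) (hφ u) (norm_nonneg _) hM0
      _ = M := mul_one M
  have hgen : ∀ (K : XX I → ℂ) (g : XX I → ℂ), (Summable fun x => ‖K x‖) → (∀ x, ‖g x‖ ≤ M) →
      Summable fun x => K x * g x := by
    intro K g hK hg
    refine Summable.of_norm_bounded (hK.mul_right M) fun x => ?_
    rw [norm_mul]
    exact mul_le_mul_of_nonneg_left (hg x) (norm_nonneg _)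
  have hA1 : Summable fun x : XX I => κ.Fs s (x.1 - y.1) x.2 y.2 * (m x * phi w x.1) :=
    hgen _ _ hFs fun x => hmφ x x.1
  have hB1 : Summable fun x : XX I =>
      (κ.F0 (x.1 - y.1) x.2 y.2 : ℂ) * (m x * phi w y.1) :=
    hgen _ _ hF0 fun x => hmφ x y.1
  refine ⟨hA1, hB1, ?_⟩
  -- the defects
  obtain ⟨e1, e2, e3, e4, e5⟩ := hC2 s hs1 y hy
  obtain ⟨z1, z2, -, -, z5⟩ := hC2 0 h01 y hy
  have hw1 : ∀ (f : XX I → ℂ), (Summable fun x : XX I => 4 ^ x.1.natAbs * ‖f x‖) →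
      Summable fun x => ‖f x‖ := by
    intro f hf
    refine Summable.of_nonneg_of_le (fun x => norm_nonneg _) (fun x => ?_) hf
    exact le_mul_of_one_le_left (norm_nonneg _) (one_le_pow₀ (by norm_num))
  have hd1 : Summable fun x : XX I => κ.dS s y x * (m x * phi w x.1) :=
    hgen _ _ (hw1 _ e1) fun x => hmφ x x.1
  have hd0 : Summable fun x : XX I => κ.dS 0 y x * (m x * phi w y.1) :=
    hgen _ _ (hw1 _ z1) fun x => hmφ x y.1
  -- decomposition of the two sums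
  have hK : ∀ x : XX I, κ.Ks s y x * (m x * phi w x.1) =
      κ.Fs s (x.1 - y.1) x.2 y.2 * (m x * phi w x.1) + κ.dS s y x * (m x * phi w x.1) := by
    intro x
    by_cases hx : κ.Al x
    · rw [e5 x hx, (hκ.Fs_prop s (x.1 - y.1) x.2 y.2).2.1]
      ring
    · rw [hA.isM.dead x hx]
      simp
  have hK0 : ∀ x : XX I, (κ.K0 y x * m x : ℂ) * phi w y.1 =
      (κ.F0 (x.1 - y.1) x.2 y.2 : ℂ) * (m x * phi w y.1) +
        κ.dS 0 y x * (m x * phi w y.1) := by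
    intro x
    by_cases hx : κ.Al x
    · have h1 := z5 x hx
      rw [Ok.Ks_zero (κ := κ)] at h1
      rw [h1, (hκ.Fs_prop 0 (x.1 - y.1) y.2 x.2).2.2, (hκ.F0_prop (x.1 - y.1) y.2 x.2).2.2]
      ring
    · rw [hA.isM.dead x hx]
      simp
  have hrho : κ.rho m w y = κ.cs s y - m y * phi w y.1 +
      (∑' x : XX I, κ.Fs s (x.1 - y.1) x.2 y.2 * (m x * phi w x.1) +
        ∑' x : XX I, κ.dS s y x * (m x * phi w x.1)) := by
    unfold rho
    rw [← hs, ← hA1.tsum_add hd1]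
    congr 1
    exact tsum_congr hK
  have hmy : (m y : ℂ) * phi w y.1 = κ.c0 y * phi w y.1 +
      (∑' x : XX I, (κ.F0 (x.1 - y.1) x.2 y.2 : ℂ) * (m x * phi w y.1) +
        ∑' x : XX I, κ.dS 0 y x * (m x * phi w y.1)) := by
    obtain ⟨h1, h2⟩ := hA.isM.eqn y
    rw [← hB1.tsum_add hd0, ← tsum_congr hK0, tsum_mul_right, ← add_mul]
    congr 1
    have h3 : (∑' x, (κ.K0 y x * m x : ℂ)) = ((∑' x, κ.K0 y x * m x : ℝ) : ℂ) := by
      rw [Complex.ofReal_tsum]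
      push_cast
      rfl
    rw [h3, h2]
    push_cast
    rfl
  have hdiff : κ.rho m w y - (∑' x : XX I, κ.Fs s (x.1 - y.1) x.2 y.2 * (m x * phi w x.1) -
      ∑' x : XX I, (κ.F0 (x.1 - y.1) x.2 y.2 : ℂ) * (m x * phi w y.1)) =
      (κ.cs s y - κ.c0 y + κ.c0 y * (1 - phi w y.1)) +
      ∑' x : XX I, (κ.dS s y x * (m x * phi w x.1) - κ.dS 0 y x * (m x * phi w y.1)) := by
    rw [hd1.tsum_sub hd0, hrho, hmy]
    ring
  rw [hdiff]
  -- the bounds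
  have hp := ra_pow y.1.natAbs
  have hq : (1 / 2 : ℝ) ^ y.1.natAbs ≤ r ^ y.1.natAbs :=
    pow_le_pow_left₀ (by norm_num) hA.r_ge _
  set R : ℝ := r ^ y.1.natAbs with hR
  set T : ℝ := (1 / 4 : ℝ) ^ y.1.natAbs with hT
  set N : ℝ := (y.1.natAbs : ℝ) with hN
  have hN0 : 0 ≤ N := Nat.cast_nonneg _
  have hT0 : 0 ≤ T := by positivity
  have hR0 : 0 ≤ R := by positivity
  have hTR : (1 + N) * T ≤ R := hp.trans hq
  have hTR1 : T ≤ R := by nlinarith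
  have hTR2 : N * T ≤ R := by nlinarith
  have hb1 : ‖κ.cs s y - κ.c0 y + κ.c0 y * (1 - phi w y.1)‖ ≤
      C1 * (κ.aa + 1) * ‖w‖ * R := by
    have h1 := (hC1 s hs1 y).2.1
    have h2 : ‖(κ.c0 y : ℂ)‖ ≤ C1 * T := by
      have h3 := (hC1 0 h01 y).1
      rwa [(hC1 0 h01 y).2.2.2] at h3
    have h3 := one_sub_phi hw y.1
    have h4 : ‖(κ.c0 y : ℂ) * (1 - phi w y.1)‖ ≤ C1 * T * (‖w‖ * N) := by
      rw [norm_mul]
      exact mul_le_mul h2 h3 (norm_nonneg _) (by positivity)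
    have h5 : C1 * T * (‖w‖ * N) ≤ C1 * ‖w‖ * R := by
      calc C1 * T * (‖w‖ * N) = C1 * ‖w‖ * (N * T) := by ring
        _ ≤ C1 * ‖w‖ * R := mul_le_mul_of_nonneg_left hTR2 (by positivity)
    have h6 : C1 * ‖s‖ * T ≤ C1 * (κ.aa * ‖w‖) * R :=
      mul_le_mul (mul_le_mul_of_nonneg_left hsn hC10) hTR1 hT0 (by positivity)
    have h7 := norm_add_le (κ.cs s y - κ.c0 y) (κ.c0 y * (1 - phi w y.1))
    calc _ ≤ _ := h7
      _ ≤ C1 * ‖s‖ * T + C1 * T * (‖w‖ * N) := add_le_add h1 h4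
      _ ≤ C1 * (κ.aa * ‖w‖) * R + C1 * ‖w‖ * R := add_le_add h6 h5
      _ = C1 * (κ.aa + 1) * ‖w‖ * R := by ring
  have hterm : ∀ x : XX I,
      ‖κ.dS s y x * (m x * phi w x.1) - κ.dS 0 y x * (m x * phi w y.1)‖ ≤
      M * (4 ^ x.1.natAbs * ‖κ.dS s y x - κ.dS 0 y x‖) +
      M * (‖w‖ * (1 + N)) * (4 ^ x.1.natAbs * ‖κ.dS 0 y x‖) := by
    intro x
    have h1 : κ.dS s y x * (m x * phi w x.1) - κ.dS 0 y x * (m x * phi w y.1) =
        (κ.dS s y x - κ.dS 0 y x) * (m x * phi w x.1) +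
        m x * (κ.dS 0 y x * (phi w x.1 - phi w y.1)) := by ring
    rw [h1]
    refine (norm_add_le _ _).trans (add_le_add ?_ ?_)
    · rw [norm_mul]
      calc ‖κ.dS s y x - κ.dS 0 y x‖ * ‖(m x : ℂ) * phi w x.1‖
          ≤ ‖κ.dS s y x - κ.dS 0 y x‖ * M := mul_le_mul_of_nonneg_left (hmφ x x.1) (norm_nonneg _)
        _ = M * (1 * ‖κ.dS s y x - κ.dS 0 y x‖) := by ring
        _ ≤ _ := by
            refine mul_le_mul_of_nonneg_left ?_ hM0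
            exact mul_le_mul_of_nonneg_right (one_le_pow₀ (by norm_num)) (norm_nonneg _)
    · rw [norm_mul, norm_mul]
      have h2 := phi_sub hw x.1 y.1
      have h3 := ra_abs x.1 y.1
      have h4 : ‖phi w x.1 - phi w y.1‖ ≤ ‖w‖ * ((1 + N) * 4 ^ x.1.natAbs) :=
        h2.trans (mul_le_mul_of_nonneg_left h3 hn0)
      calc ‖(m x : ℂ)‖ * (‖κ.dS 0 y x‖ * ‖phi w x.1 - phi w y.1‖)
          ≤ M * (‖κ.dS 0 y x‖ * (‖w‖ * ((1 + N) * 4 ^ x.1.natAbs))) :=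
            mul_le_mul (hM x) (mul_le_mul_of_nonneg_left h4 (norm_nonneg _)) (by positivity) hM0
        _ = M * (‖w‖ * (1 + N)) * (4 ^ x.1.natAbs * ‖κ.dS 0 y x‖) := by ring
  have hb2 : ‖∑' x : XX I,
      (κ.dS s y x * (m x * phi w x.1) - κ.dS 0 y x * (m x * phi w y.1))‖ ≤
      M * C2 * (κ.aa + 1) * ‖w‖ * R := by
    have hsum : Summable fun x : XX I => M * (4 ^ x.1.natAbs * ‖κ.dS s y x - κ.dS 0 y x‖) +
        M * (‖w‖ * (1 + N)) * (4 ^ x.1.natAbs * ‖κ.dS 0 y x‖) :=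
      (e3.mul_left M).add (z1.mul_left _)
    refine (tsum_of_norm_bounded hsum.hasSum hterm).trans ?_
    rw [(e3.mul_left M).tsum_add (z1.mul_left _), tsum_mul_left, tsum_mul_left]
    have h1 : M * ∑' x : XX I, 4 ^ x.1.natAbs * ‖κ.dS s y x - κ.dS 0 y x‖ ≤
        M * C2 * (κ.aa * ‖w‖) * R := by
      calc M * ∑' x : XX I, 4 ^ x.1.natAbs * ‖κ.dS s y x - κ.dS 0 y x‖
          ≤ M * (C2 * ‖s‖ * T) := mul_le_mul_of_nonneg_left e4 hM0
        _ ≤ M * (C2 * (κ.aa * ‖w‖) * R) := by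
            refine mul_le_mul_of_nonneg_left ?_ hM0
            exact mul_le_mul (mul_le_mul_of_nonneg_left hsn hC20) hTR1 hT0 (by positivity)
        _ = _ := by ring
    have h2 : M * (‖w‖ * (1 + N)) * ∑' x : XX I, 4 ^ x.1.natAbs * ‖κ.dS 0 y x‖ ≤
        M * C2 * ‖w‖ * R := by
      calc M * (‖w‖ * (1 + N)) * ∑' x : XX I, 4 ^ x.1.natAbs * ‖κ.dS 0 y x‖
          ≤ M * (‖w‖ * (1 + N)) * (C2 * T) := mul_le_mul_of_nonneg_left z2 (by positivity)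
        _ = M * C2 * ‖w‖ * ((1 + N) * T) := by ring
        _ ≤ M * C2 * ‖w‖ * R := mul_le_mul_of_nonneg_left hTR (by positivity)
    linarith
  calc _ ≤ _ := norm_add_le _ _
    _ ≤ C1 * (κ.aa + 1) * ‖w‖ * R + M * C2 * (κ.aa + 1) * ‖w‖ * R := add_le_add hb1 hb2
    _ = _ := by ring

end Slb

end Pool.Agent.KSlab
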