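import Pool.Agent.KSlab.OpB

/-! SL4: the kernel, sums of rows. -/

set_option autoImplicit false

open Complex Set Filter Topology
open scoped ENNReal

namespace Pool.Agent.KSlab

namespace Slb

variable {I : Type} [Fintype I] {κ : Slb I}

private theorem row_sum (hκ : κ.Ok) (x : XX I) :
    ∑' p : ℕ × XX I, 2 ^ p.1 * κ.k p.1 x p.2 ≤ 5 := by
  classical
  have h1 : ∀ p : ℕ × XX I, 2 ^ p.1 * κ.k p.1 x p.2 ≤
      (if p = (2, x) then 4 else 0) + (if 3 ≤ p.1 then 2 ^ p.1 * κ.k p.1 x p.2 else 0) := by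
    rintro ⟨n, y⟩
    by_cases hn : 3 ≤ n
    · rw [if_pos hn]
      have h0 : (0 : ℝ) ≤ if ((n, y) : ℕ × XX I) = (2, x) then 4 else 0 := by
        split_ifs <;> norm_num
      linarith
    · rw [if_neg hn, add_zero, hκ.k_low n x y (by omega)]
      by_cases h2 : n = 2 ∧ x = y ∧ κ.Al x
      · obtain ⟨rfl, rfl, h3⟩ := h2
        rw [if_pos ⟨rfl, rfl, h3⟩, if_pos rfl]
        have := hκ.q_le
        norm_num
        linarith
      · rw [if_neg h2, mul_zero]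
        split_ifs <;> norm_num
  have h0 : ∀ p : ℕ × XX I, 0 ≤ 2 ^ p.1 * κ.k p.1 x p.2 := fun p =>
    mul_nonneg (by positivity) (hκ.k_nn _ _ _)
  have h2 : Summable fun p : ℕ × XX I => if 3 ≤ p.1 then 2 ^ p.1 * κ.k p.1 x p.2 else 0 := by
    refine Summable.of_nonneg_of_le (fun p => ?_) (fun p => ?_) (hκ.k_sum x)
    · split_ifs
      · exact h0 p
      · exact le_rfl
    · split_ifs
      · exact le_rfl
      · exact h0 p
  have h3 : HasSum (fun p : ℕ × XX I => if p = (2, x) then (4 : ℝ) else 0) 4 :=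
    hasSum_ite_eq _ _
  have h4 := (hκ.k_sum x).tsum_le_tsum h1 (h3.summable.add h2)
  rw [h3.summable.tsum_add h2, h3.tsum_eq] at h4
  have h5 := hκ.k_le x
  have h6 := hκ.z_le
  linarith

private theorem row_n (hκ : κ.Ok) (n : ℕ) (x : XX I) :
    (Summable fun y => κ.k n x y) ∧ ∑' y, κ.k n x y ≤ 5 * (1 / 2) ^ n := by
  have hi : Function.Injective fun y : XX I => ((n, y) : ℕ × XX I) := fun a b h =>
    (Prod.mk.inj h).2
  have h1 : Summable fun y => 2 ^ n * κ.k n x y := (hκ.k_sum x).comp_injective hi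
  have hp : (2 : ℝ) ^ n ≠ 0 := by positivity
  have h2 : ∑' y, 2 ^ n * κ.k n x y ≤ ∑' p : ℕ × XX I, 2 ^ p.1 * κ.k p.1 x p.2 :=
    Summable.tsum_le_tsum_of_inj _ hi (fun p _ => mul_nonneg (by positivity) (hκ.k_nn _ _ _))
      (fun y => le_rfl) h1 (hκ.k_sum x)
  refine ⟨(summable_mul_left_iff hp).1 h1, ?_⟩
  rw [tsum_mul_left] at h2
  have h3 := h2.trans (row_sum hκ x)
  have h4 : (1 / 2 : ℝ) ^ n = ((2 : ℝ) ^ n)⁻¹ := by rw [one_div, inv_pow]
  rw [h4, ← div_eq_mul_inv, le_div_iff₀ (by positivity), mul_comm]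
  exact h3

/-- The row of size `n`: `2 ^ n k n` has sum at most `4 q + 100 z ≤ 5` (`k_low` for `n = 2`,
`k_le`); columns by
`k_symm`. -/
theorem Ok.sch_k (hκ : κ.Ok) (n : ℕ) : Sch (fun x y => ((κ.k n x y : ℝ) : ℂ)) (5 * (1 / 2) ^ n) := by
  have hn : ∀ x y, ‖((κ.k n x y : ℝ) : ℂ)‖ = κ.k n x y := fun x y => by
    rw [Complex.norm_real, Real.norm_of_nonneg (hκ.k_nn n x y)]
  have hs : ∀ x y, ‖((κ.k n x y : ℝ) : ℂ)‖ = κ.k n y x := fun x y => by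
    rw [hn, hκ.k_symm]
  refine ⟨fun x => ?_, fun x => ?_, fun y => ?_, fun y => ?_⟩
  · simp only [hn]
    exact (row_n hκ n x).1
  · simp only [hn]
    exact (row_n hκ n x).2
  · simp only [hs]
    exact (row_n hκ n y).1
  · simp only [hs]
    exact (row_n hκ n y).2

theorem Ok.sch_Ks (hκ : κ.Ok) {s : ℂ} (hs : -(1 / 2) < s.re) : Sch (κ.Ks s) 50 := by
  have h1 := (sch_series (by norm_num : (0 : ℝ) ≤ 5) hκ.sch_k hs).2
  have h2 : (10 * 5 : ℝ) = 50 := by norm_num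
  rw [h2] at h1
  exact h1

theorem Ok.Ks_symm (hκ : κ.Ok) (s : ℂ) (x y : XX I) : κ.Ks s x y = κ.Ks s y x := by
  unfold Ks
  simp only [hκ.k_symm _ x y]

theorem Ok.Ks_dead (hκ : κ.Ok) (s : ℂ) {x : XX I} (hx : ¬ κ.Al x) (y : XX I) : κ.Ks s x y = 0 := by
  unfold Ks
  simp only [hκ.k_dead _ x y hx, ofReal_zero, zero_mul, tsum_zero]

theorem Ok.Ks_summable (hκ : κ.Ok) {s : ℂ} (hs : -(1 / 2) < s.re) (x y : XX I) :
    Summable fun n : ℕ => (κ.k n x y : ℂ) * exp (-n * s) := by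
  exact (sch_series (by norm_num : (0 : ℝ) ≤ 5) hκ.sch_k hs).1 x y

theorem Ok.KS_diff (hκ : κ.Ok) : DifferentiableOn ℂ κ.KS {s | -(1 / 2) < s.re} := by
  exact op_series (by norm_num : (0 : ℝ) ≤ 5) hκ.sch_k

theorem Ok.KS_apply (hκ : κ.Ok) {s : ℂ} (hs : -(1 / 2) < s.re) (g : EE I) (x : XX I) :
    κ.KS s g x = ∑' y, κ.Ks s x y * g y := by
  exact op_apply (by norm_num) (hκ.sch_Ks hs) g x

theorem Ok.Ks_zero (x y : XX I) : κ.Ks 0 x y = κ.K0 x y := by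
  unfold Ks K0
  rw [Complex.ofReal_tsum]
  simp only [mul_zero, Complex.exp_zero, mul_one]

/-- All terms are nonnegative; the sum over `y` and `n` is the sum over pairs. -/
theorem Ok.K0_row (hκ : κ.Ok) (x : XX I) : (Summable fun y => κ.K0 x y) ∧ ∑' y, κ.K0 x y ≤ 5 ∧
    (∀ y, 0 ≤ κ.K0 x y) ∧ (∀ y, κ.K0 x y = κ.K0 y x) ∧
    ∀ y, κ.K0 (-x.1, x.2) (-y.1, y.2) = κ.K0 x y := by
  have hle : ∀ p : ℕ × XX I, κ.k p.1 x p.2 ≤ 2 ^ p.1 * κ.k p.1 x p.2 := fun p =>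
    le_mul_of_one_le_left (hκ.k_nn _ _ _) (one_le_pow₀ (by norm_num))
  have h1 : Summable fun p : ℕ × XX I => κ.k p.1 x p.2 :=
    Summable.of_nonneg_of_le (fun p => hκ.k_nn _ _ _) hle (hκ.k_sum x)
  have h2 : Summable fun p : XX I × ℕ => κ.k p.2 x p.1 := h1.prod_symm
  refine ⟨h2.prod, ?_, fun y => tsum_nonneg fun n => hκ.k_nn _ _ _, fun y => ?_, fun y => ?_⟩
  · have h3 : ∑' y, κ.K0 x y = ∑' p : XX I × ℕ, κ.k p.2 x p.1 := (h2.tsum_prod).symm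
    have h4 : ∑' p : XX I × ℕ, κ.k p.2 x p.1 = ∑' p : ℕ × XX I, κ.k p.1 x p.2 :=
      (Equiv.prodComm (XX I) ℕ).tsum_eq fun p : ℕ × XX I => κ.k p.1 x p.2
    rw [h3, h4]
    exact (h1.tsum_le_tsum hle (hκ.k_sum x)).trans (row_sum hκ x)
  · unfold K0
    simp only [hκ.k_symm _ x y]
  · unfold K0
    simp only [hκ.k_refl]

end Slb

end Pool.Agent.KSlab
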