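import Pool.Agent.KSlab.Row

/-! SL5: the free kernel, sums of rows, Harnack inequality, defects. -/

set_option autoImplicit false

open Complex Set Filter Topology
open scoped ENNReal

namespace Pool.Agent.KSlab

namespace Slb

variable {I : Type} [Fintype I] {κ : Slb I}

/-! ### Auxiliary lemmas -/

private theorem w_one (n t : ℕ) : (1 : ℝ) ≤ 2 ^ n * 4 ^ t := by
  have h1 : (1 : ℝ) ≤ 2 ^ n := one_le_pow₀ (by norm_num)
  have h2 : (1 : ℝ) ≤ 4 ^ t := one_le_pow₀ (by norm_num)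
  nlinarith

private theorem w_ge (n t : ℕ) : (4 : ℝ) ^ t ≤ 2 ^ n * 4 ^ t := by
  have h1 : (1 : ℝ) ≤ 2 ^ n := one_le_pow₀ (by norm_num)
  have h2 : (0 : ℝ) < 4 ^ t := by positivity
  nlinarith

/-- the exponentially weighted free elements, sizes last -/
private theorem Ok.fw_summable (hκ : κ.Ok) (i : I) : Summable fun p : (ℤ × I) × ℕ =>
    (4 : ℝ) ^ p.1.1.natAbs * κ.f p.2 p.1.1 i p.1.2 := by
  have h1 : Summable fun p : ℕ × ℤ × I => (4 : ℝ) ^ p.2.1.natAbs * κ.f p.1 p.2.1 i p.2.2 := by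
    refine Summable.of_nonneg_of_le (fun p => mul_nonneg (by positivity) (hκ.f_nn _ _ _ _))
      (fun p => ?_) (hκ.f_sum i)
    exact mul_le_mul_of_nonneg_right (w_ge _ _) (hκ.f_nn _ _ _ _)
  exact h1.prod_symm

private theorem shift_equiv (x : XX I) (F : ℤ × I → ℝ) :
    (Summable fun y : XX I => F (y.1 - x.1, y.2)) ↔ Summable F := by
  have e : (fun y : XX I => F (y.1 - x.1, y.2)) =
      F ∘ ((Equiv.subRight x.1).prodCongr (Equiv.refl I)) := rfl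
  rw [e, Equiv.summable_iff]

private theorem shift_tsum (x : XX I) (F : ℤ × I → ℝ) :
    ∑' y : XX I, F (y.1 - x.1, y.2) = ∑' p, F p :=
  ((Equiv.subRight x.1).prodCongr (Equiv.refl I)).tsum_eq F

/-! ### The free kernel -/

theorem Ok.F0_summable (hκ : κ.Ok) (t : ℤ) (i j : I) : Summable fun n => κ.f n t i j := by
  have h1 : Function.Injective (fun n : ℕ => ((n, t, j) : ℕ × ℤ × I)) := fun a b h => by
    simpa using h
  refine Summable.of_nonneg_of_le (fun n => hκ.f_nn n t i j) (fun n => ?_)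
    ((hκ.f_sum i).comp_injective h1)
  exact le_mul_of_one_le_left (hκ.f_nn _ _ _ _) (w_one _ _)

theorem Ok.F0_prop (hκ : κ.Ok) (t : ℤ) (i j : I) : 0 ≤ κ.F0 t i j ∧ κ.F0 (-t) i j = κ.F0 t i j ∧
    κ.F0 t j i = κ.F0 t i j := by
  refine ⟨tsum_nonneg fun n => hκ.f_nn _ _ _ _, ?_, ?_⟩
  · exact tsum_congr fun n => hκ.f_even n t i j
  · exact tsum_congr fun n => hκ.f_symm n t i j

/-- With exponential weights, in particular `F0 t i j ≤ C / 4 ^ |t|`. -/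
theorem Ok.F0_exp (hκ : κ.Ok) : ∃ C : ℝ, ∀ i, (Summable fun p : ℤ × I => 4 ^ p.1.natAbs *
    κ.F0 p.1 i p.2) ∧ ∑' p : ℤ × I, 4 ^ p.1.natAbs * κ.F0 p.1 i p.2 ≤ C := by
  have h1 : ∀ i, Summable fun p : ℤ × I => 4 ^ p.1.natAbs * κ.F0 p.1 i p.2 := by
    intro i
    have := (hκ.fw_summable i).prod
    refine this.congr fun p => ?_
    have h2 : ∑' n, (4 : ℝ) ^ p.1.natAbs * κ.f n p.1 i p.2 =
        4 ^ p.1.natAbs * ∑' n, κ.f n p.1 i p.2 := tsum_mul_left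
    exact h2
  refine ⟨∑ i, ∑' p : ℤ × I, 4 ^ p.1.natAbs * κ.F0 p.1 i p.2, fun i => ⟨h1 i, ?_⟩⟩
  exact Finset.single_le_sum (f := fun i => ∑' p : ℤ × I, (4 : ℝ) ^ p.1.natAbs * κ.F0 p.1 i p.2)
    (fun j _ => tsum_nonneg fun p => mul_nonneg (by positivity) (hκ.F0_prop _ _ _).1)
    (Finset.mem_univ i)

theorem Ok.Fx_prop (hκ : κ.Ok) (x y : XX I) : 0 ≤ κ.Fx x y ∧ κ.Fx x y = κ.Fx y x := by
  refine ⟨(hκ.F0_prop _ _ _).1, ?_⟩
  unfold Fx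
  rw [← (hκ.F0_prop (y.1 - x.1) x.2 y.2).2.2, ← (hκ.F0_prop (y.1 - x.1) y.2 x.2).2.1, neg_sub]

theorem Ok.sch_Fx (hκ : κ.Ok) : ∃ B : ℝ, 0 ≤ B ∧ Sch (fun x y => ((κ.Fx x y : ℝ) : ℂ)) B := by
  obtain ⟨C, hC⟩ := hκ.F0_exp
  have hs : ∀ i, (Summable fun p : ℤ × I => κ.F0 p.1 i p.2) ∧
      ∑' p : ℤ × I, κ.F0 p.1 i p.2 ≤ C := by
    intro i
    have hle : ∀ p : ℤ × I, κ.F0 p.1 i p.2 ≤ 4 ^ p.1.natAbs * κ.F0 p.1 i p.2 := fun p =>
      le_mul_of_one_le_left (hκ.F0_prop _ _ _).1 (one_le_pow₀ (by norm_num))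
    have h1 : Summable fun p : ℤ × I => κ.F0 p.1 i p.2 :=
      Summable.of_nonneg_of_le (fun p => (hκ.F0_prop _ _ _).1) hle (hC i).1
    exact ⟨h1, (h1.tsum_le_tsum hle (hC i).1).trans (hC i).2⟩
  have hn : ∀ x y : XX I, ‖((κ.Fx x y : ℝ) : ℂ)‖ = κ.Fx x y := by
    intro x y
    rw [Complex.norm_real, Real.norm_of_nonneg (hκ.Fx_prop x y).1]
  have hrow : ∀ x : XX I, (Summable fun y => ‖((κ.Fx x y : ℝ) : ℂ)‖) ∧
      ∑' y, ‖((κ.Fx x y : ℝ) : ℂ)‖ ≤ C := by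
    intro x
    simp only [hn]
    have h1 := (shift_equiv x (fun p => κ.F0 p.1 x.2 p.2)).2 (hs x.2).1
    have h2 := shift_tsum x (fun p => κ.F0 p.1 x.2 p.2)
    exact ⟨h1, h2.le.trans (hs x.2).2⟩
  have hcol : ∀ x y : XX I, ‖((κ.Fx x y : ℝ) : ℂ)‖ = ‖((κ.Fx y x : ℝ) : ℂ)‖ := by
    intro x y
    rw [(hκ.Fx_prop x y).2]
  refine ⟨max C 0, le_max_right _ _, ⟨fun x => (hrow x).1,
    fun x => (hrow x).2.trans (le_max_left _ _), fun y => ?_, fun y => ?_⟩⟩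
  · refine (hrow y).1.congr fun x => ?_
    exact hcol y x
  · rw [tsum_congr fun x => hcol x y]
    exact (hrow y).2.trans (le_max_left _ _)

/-- Criticality: exchange of sums in `h_eq`. -/
theorem Ok.F0_h (hκ : κ.Ok) (i : I) : (Summable fun p : ℤ × I => κ.F0 p.1 i p.2 * κ.h p.2) ∧
    ∑' p : ℤ × I, κ.F0 p.1 i p.2 * κ.h p.2 = κ.h i := by
  have hfs : Summable fun p : ℕ × ℤ × I => κ.f p.1 p.2.1 i p.2.2 := by
    refine Summable.of_nonneg_of_le (fun p => hκ.f_nn _ _ _ _) (fun p => ?_) (hκ.f_sum i)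
    exact le_mul_of_one_le_left (hκ.f_nn _ _ _ _) (w_one _ _)
  have hH : ∀ j, κ.h j ≤ ∑ j, κ.h j := fun j =>
    Finset.single_le_sum (f := κ.h) (fun j _ => (hκ.h_pos j).le) (Finset.mem_univ j)
  have h1 : Summable fun p : ℕ × ℤ × I => κ.f p.1 p.2.1 i p.2.2 * κ.h p.2.2 := by
    refine Summable.of_nonneg_of_le (fun p => mul_nonneg (hκ.f_nn _ _ _ _) (hκ.h_pos _).le)
      (fun p => ?_) (hfs.mul_right (∑ j, κ.h j))
    exact mul_le_mul_of_nonneg_left (hH _) (hκ.f_nn _ _ _ _)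
  have h2 : Summable fun p : (ℤ × I) × ℕ => κ.f p.2 p.1.1 i p.1.2 * κ.h p.1.2 := h1.prod_symm
  have h3 : ∀ p : ℤ × I, ∑' n, κ.f n p.1 i p.2 * κ.h p.2 = κ.F0 p.1 i p.2 * κ.h p.2 :=
    fun p => tsum_mul_right
  constructor
  · exact h2.prod.congr fun p => h3 p
  · rw [← tsum_congr h3, ← h2.tsum_prod]
    rw [← hκ.h_eq i]
    exact (Equiv.prodComm (ℤ × I) ℕ).tsum_eq
      (fun p : ℕ × ℤ × I => κ.f p.1 p.2.1 i p.2.2 * κ.h p.2.2)

theorem Ok.Fx_h (hκ : κ.Ok) (x : XX I) : (Summable fun y => κ.Fx x y * κ.h y.2) ∧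
    ∑' y, κ.Fx x y * κ.h y.2 = κ.h x.2 := by
  have h1 := (shift_equiv x (fun p => κ.F0 p.1 x.2 p.2 * κ.h p.2)).2 (hκ.F0_h x.2).1
  have h2 := shift_tsum x (fun p => κ.F0 p.1 x.2 p.2 * κ.h p.2)
  exact ⟨h1, h2.trans (hκ.F0_h x.2).2⟩

/-- The steps. -/
theorem Ok.Fx_step (hκ : κ.Ok) : (∀ (u : ℤ) (i : I), κ.q * κ.z ≤ κ.Fx (u, i) (u + 1, i)) ∧
    (∀ x, κ.q ≤ κ.Fx x x) ∧ (∀ x, κ.Al x → κ.q * κ.z ≤ κ.Fx x (κ.nx x)) ∧
    ∀ (u : ℤ) (i j : I), κ.q * κ.z ≤ κ.f 3 0 i j → κ.q * κ.z ≤ κ.Fx (u, i) (u, j) := by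
  have key : ∀ (n : ℕ) (t : ℤ) (i j : I), κ.f n t i j ≤ κ.F0 t i j := fun n t i j =>
    (hκ.F0_summable t i j).le_tsum n fun m _ => hκ.f_nn _ _ _ _
  refine ⟨fun u i => ?_, fun x => ?_, fun x hx => ?_, fun u i j h => ?_⟩
  · refine (hκ.f_x i).trans ?_
    unfold Fx
    rw [add_sub_cancel_left]
    exact key 3 1 i i
  · unfold Fx
    rw [sub_self]
    have h1 := hκ.f_low 2 0 x.2 x.2 (by norm_num)
    rw [if_pos ⟨rfl, rfl, rfl⟩] at h1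
    rw [← h1]
    exact key 2 0 _ _
  · exact (hκ.nx_step x hx).trans (key 3 _ _ _)
  · refine h.trans ?_
    unfold Fx
    rw [sub_self]
    exact key 3 0 i j

/-- Harnack: `h x ≥ q h x + q z h y` by `Fx_h`, so `q z h y ≤ (1 - q) h x ≤ (17/2) z h x`. -/
theorem Ok.harnack (hκ : κ.Ok) {x y : XX I} (hxy : x ≠ y) (h : κ.q * κ.z ≤ κ.Fx x y) :
    κ.h y.2 ≤ 9 * κ.h x.2 := by
  classical
  obtain ⟨hs, he⟩ := hκ.Fx_h x
  have h1 : ∑ y' ∈ ({x, y} : Finset (XX I)), κ.Fx x y' * κ.h y'.2 ≤ κ.h x.2 := by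
    rw [← he]
    exact hs.sum_le_tsum _ fun y' _ => mul_nonneg (hκ.Fx_prop x y').1 (hκ.h_pos _).le
  rw [Finset.sum_pair hxy] at h1
  have hx := hκ.h_pos x.2
  have hy := hκ.h_pos y.2
  have h2 : κ.q * κ.h x.2 ≤ κ.Fx x x * κ.h x.2 :=
    mul_le_mul_of_nonneg_right (hκ.Fx_step.2.1 x) hx.le
  have h3 : κ.q * κ.z * κ.h y.2 ≤ κ.Fx x y * κ.h y.2 := mul_le_mul_of_nonneg_right h hy.le
  have hq := hκ.q_ge
  have hz := hκ.z_pos
  have hz' := hκ.z_le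
  have h4 : κ.z * (κ.q * κ.h y.2) ≤ κ.z * (17 / 2 * κ.h x.2) := by
    have h5 : (1 - κ.q) * κ.h x.2 ≤ 17 / 2 * κ.z * κ.h x.2 :=
      mul_le_mul_of_nonneg_right (by linarith) hx.le
    nlinarith
  have h5 : κ.q * κ.h y.2 ≤ 17 / 2 * κ.h x.2 := le_of_mul_le_mul_left h4 hz
  have h6 : (17 / 18 : ℝ) ≤ κ.q := by
    have : κ.z ≤ 1 / 10 ^ 12 := hz'
    norm_num at this
    linarith
  have h7 : 17 / 18 * κ.h y.2 ≤ κ.q * κ.h y.2 := mul_le_mul_of_nonneg_right h6 hy.le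
  linarith

/-- The defects at `s = 0`. -/
theorem Ok.df_zero (hκ : κ.Ok) {x : XX I} (hx : κ.Al x) :
    (∀ y, (Summable fun n => κ.df n x y)) ∧
    (∀ y, κ.Al y → κ.K0 x y - κ.Fx x y = ∑' n, κ.df n x y) ∧
    (Summable fun y => |∑' n, κ.df n x y|) ∧
    ∑' y, |∑' n, κ.df n x y| ≤ κ.z / 500 * (1 / 576) ^ κ.len x := by
  obtain ⟨C, hC⟩ := hκ.df_sum
  have h1 : Summable fun p : ℕ × XX I => |κ.df p.1 x p.2| := by
    refine Summable.of_nonneg_of_le (fun p => abs_nonneg _) (fun p => ?_) (hC x hx).1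
    exact le_mul_of_one_le_left (abs_nonneg _) (w_one _ _)
  have h2 : Summable fun p : XX I × ℕ => |κ.df p.2 x p.1| := h1.prod_symm
  have h3 : ∀ y, Summable fun n => |κ.df n x y| := fun y => h2.prod_factor y
  have h4 : ∀ y, |∑' n, κ.df n x y| ≤ ∑' n, |κ.df n x y| := by
    intro y
    have := norm_tsum_le_tsum_norm (f := fun n => κ.df n x y) (h3 y)
    simpa only [Real.norm_eq_abs] using this
  have h5 : Summable fun y => |∑' n, κ.df n x y| :=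
    Summable.of_nonneg_of_le (fun y => abs_nonneg _) h4 h2.prod
  refine ⟨fun y => (h3 y).of_abs, fun y hy => ?_, h5, ?_⟩
  · have hk : Summable fun n => κ.k n x y := by
      have hinj : Function.Injective (fun n : ℕ => ((n, y) : ℕ × XX I)) := fun a b h => by
        simpa using h
      refine Summable.of_nonneg_of_le (fun n => hκ.k_nn n x y) (fun n => ?_)
        ((hκ.k_sum x).comp_injective hinj)
      exact le_mul_of_one_le_left (hκ.k_nn _ _ _) (one_le_pow₀ (by norm_num))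
    have hf : Summable fun n => κ.fx n x y := hκ.F0_summable _ _ _
    have e : ∀ n, κ.df n x y = κ.k n x y - κ.fx n x y := by
      intro n
      unfold df
      rw [if_pos hy]
    rw [tsum_congr e, hk.tsum_sub hf]
    rfl
  · calc ∑' y, |∑' n, κ.df n x y| ≤ ∑' y, ∑' n, |κ.df n x y| := h5.tsum_le_tsum h4 h2.prod
      _ = ∑' p : XX I × ℕ, |κ.df p.2 x p.1| := h2.tsum_prod.symm
      _ = ∑' p : ℕ × XX I, |κ.df p.1 x p.2| :=
        (Equiv.prodComm (XX I) ℕ).tsum_eq (fun p : ℕ × XX I => |κ.df p.1 x p.2|)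
      _ ≤ κ.z / 500 * (1 / 576) ^ κ.len x := hκ.df_le x hx

end Slb

end Pool.Agent.KSlab
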