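import Pool.Agent.KCls.Cut
import Pool.Agent.KAsym.RecB
import Pool.Agent.KSlab.Near
import Pool.Agent.KSlab.FinF

/-! SM0: polygons in the slab `ℤ × {0, …, M} × ℤ`, definitions. -/

set_option autoImplicit false

open Pool.Agent.LK
open scoped ENNReal

namespace Pool.Agent.KSlab

open Pool.Agent.KTube Pool.Agent.KRing Pool.Agent.KLog Pool.Agent.KCls
open Pool.Agent.KAsym (ln wtR wlR)

/-- The internal states: the heights of the two strands. -/
abbrev II (M : ℕ) : Type := Fin (M + 1) × Fin (M + 1)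

variable {M : ℕ}

/-- The displacement of the second strand. -/
def vv (x : XX (II M)) : ℤ × ℤ := (x.1, ((x.2.2 : ℕ) : ℤ) - ((x.2.1 : ℕ) : ℤ))

/-- The points, raised by `a`, lie in the slab. -/
def InS (M : ℕ) (a : ℤ) (l : List P3) : Prop := ∀ p ∈ l, 0 ≤ p.2.1 + a ∧ p.2.1 + a ≤ M

/-- The pair of words leads from the heights `i` to the heights `j` inside the slab. -/
structure CB (i j : II M) (π : PP) : Prop where
  inA : InS M ((i.1 : ℕ) : ℤ) (wk (0, 0, 1) π.1)
  inB : InS M ((i.2 : ℕ) : ℤ) (wk (0, 0, 1) π.2)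
  eA : ((i.1 : ℕ) : ℤ) + π.1.sum.2.1 = ((j.1 : ℕ) : ℤ)
  eB : ((i.2 : ℕ) : ℤ) + π.2.sum.2.1 = ((j.2 : ℕ) : ℤ)

/-- The pair of words leads from the state `x` to the state `x'` inside the slab. -/
def CX (x x' : XX (II M)) (π : PP) : Prop := CB x.2 x'.2 π ∧ x.1 + (dsp π).1 = x'.1

/-- The weight of the pairs with the property `P` and of size `n` which lead from `x` to `x'`. -/
noncomputable def gn (y z : ℝ) (P : PP → Prop) (x x' : XX (II M)) (n : ℕ) : ℝ :=
  ∑' π : {π : PP // P π ∧ CX x x' π ∧ ln π = n}, wtR y z π.1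

/-- A step from the state `x` towards the dead states: first the displacement is reduced, then the
first strand is moved towards the second one. -/
def nxS (x : XX (II M)) : XX (II M) :=
  if 0 < x.1 then (x.1 - 1, x.2)
  else if x.1 < 0 then (x.1 + 1, x.2)
  else if h : (x.2.1 : ℕ) < x.2.2 then (0, ⟨(x.2.1 : ℕ) + 1, by omega⟩, x.2.2)
  else (0, ⟨(x.2.1 : ℕ) - 1, by omega⟩, x.2.2)

/-- The kernel of the polygons of class `T` in the slab. -/
noncomputable def slb (T : Finset (Sym2 P3) → Prop) (M : ℕ) (y z : ℝ) (h : II M → ℝ) :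
    Slb (II M) where
  z := z
  q := y * z ^ 2
  f := fun n t i j => gn y z (FreeT T) (0, i) (t, j) n
  k := fun n x x' => gn y z (ValidT T (vv x)) x x' n
  c := fun n x => ∑' l : {l // HalfT T 0 (vv x) l ∧ InS M ((x.2.1 : ℕ) : ℤ) l ∧ l.length = n},
    wlR y z l.1
  D := {i | i.1 = i.2}
  h := h
  nx := nxS
  len := fun x => nrm (vv x)

/-- The kernel of the free blocks, summed over the displacements. -/
noncomputable def FM (T : Finset (Sym2 P3) → Prop) (y z : ℝ) (i j : II M) : ℝ :=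
  ∑' π : {π : PP // FreeT T π ∧ CB i j π}, wtR y z π.1

/-- The weight `z` is critical, `h` is the Perron vector. -/
structure CritS (T : Finset (Sym2 P3) → Prop) (y z : ℝ) (h : II M → ℝ) : Prop where
  cls : Cls T
  y_pos : 0 < y
  z_pos : 0 < z
  z_le : z ≤ 1 / 10 ^ 12
  q_le : y * z ^ 2 ≤ 1
  h_pos : ∀ i, 0 < h i
  h_eq : ∀ i, ∑ j, FM T y z i j * h j = h i

/-! ### Polygons -/

/-- `E` lies in the slab, its lowest levels in the two unbounded directions are `0`. -/
def SNormed (M : ℕ) (E : Finset (Sym2 P3)) : Prop :=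
  (∀ u ∈ verts E, 0 ≤ u.1 ∧ 0 ≤ u.2.1 ∧ u.2.1 ≤ M ∧ 0 ≤ u.2.2) ∧ (∃ u ∈ verts E, u.1 = 0) ∧
    ∃ u ∈ verts E, u.2.2 = 0

/-- The polygons of class `T` in the slab, up to the translations of the slab. -/
def PSl (T : Finset (Sym2 P3) → Prop) (M : ℕ) : Set (Finset (Sym2 P3)) :=
  {E | IsPolygon E ∧ T E ∧ SNormed M E}

/-- The partition function: the weight of a polygon is `y ^ span`. -/
noncomputable def ZS (T : Finset (Sym2 P3) → Prop) (M : ℕ) (y : ℝ) (n : ℕ) : ℝ :=
  ∑ᶠ E ∈ {E | E ∈ PSl T M ∧ E.card = n}, y ^ span E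

/-- The part of the polygons without sections with two edges. -/
noncomputable def ZS0 (T : Finset (Sym2 P3) → Prop) (M : ℕ) (y : ℝ) (n : ℕ) : ℝ :=
  ∑ᶠ E ∈ {E | E ∈ PSl T M ∧ (∀ k, ¬ IsTwo E k) ∧ E.card = n}, y ^ span E

end Pool.Agent.KSlab
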