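import Pool.Agent.KSlab.Hardy
import Pool.Agent.KSlab.Inv

/-! SL10: the operator `1 - K_s` is coercive and invertible in the sector. -/

set_option autoImplicit false

open Complex Set Filter Topology
open scoped ENNReal ComplexConjugate

namespace Pool.Agent.KSlab

namespace Slb

variable {I : Type} [Fintype I] {κ : Slb I}

/-! ### Elementary inequalities -/

private theorem key_ab {a b : ℝ} (ha : 0 ≤ a) (hb : 0 ≤ b) {s : ℂ} (hs : -‖s‖ / 2 ≤ s.re) :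
    (a + b * ‖s‖) / 2 ≤ ‖(a : ℂ) + b * s‖ := by
  have h0 : 0 ≤ ‖s‖ := norm_nonneg s
  have h1 : ‖(a : ℂ) + b * s‖ ^ 2 = a ^ 2 + 2 * (a * b * s.re) + b ^ 2 * ‖s‖ ^ 2 := by
    rw [← Complex.normSq_eq_norm_sq, ← Complex.normSq_eq_norm_sq, Complex.normSq_apply,
      Complex.normSq_apply]
    simp only [Complex.add_re, Complex.ofReal_re, Complex.mul_re, Complex.ofReal_im,
      Complex.add_im, Complex.mul_im]
    ring
  have h2 : 0 ≤ (a + b * ‖s‖) / 2 := by positivity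
  refine le_of_sq_le_sq ?_ (norm_nonneg _)
  rw [h1]
  have h3 : a * b * (-‖s‖ / 2) ≤ a * b * s.re := mul_le_mul_of_nonneg_left hs (mul_nonneg ha hb)
  nlinarith [sq_nonneg (a - b * ‖s‖)]

private theorem pow_ge {n : ℕ} (hn : 3 ≤ n) : (n : ℝ) * (1 + 1 / 100) ^ n ≤ 2 / 5 * 2 ^ n := by
  induction n, hn using Nat.le_induction with
  | base => norm_num
  | succ n hn ih =>
    have h1 : (3 : ℝ) ≤ n := by exact_mod_cast hn
    have h2 : (0 : ℝ) < (1 + 1 / 100) ^ n := by positivity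
    push_cast
    rw [pow_succ, pow_succ]
    have h3 : ((n : ℝ) + 1) * (1 + 1 / 100) ≤ 2 * n := by linarith
    calc ((n : ℝ) + 1) * ((1 + 1 / 100) ^ n * (1 + 1 / 100))
        = (((n : ℝ) + 1) * (1 + 1 / 100)) * (1 + 1 / 100) ^ n := by ring
      _ ≤ (2 * n) * (1 + 1 / 100) ^ n := mul_le_mul_of_nonneg_right h3 h2.le
      _ ≤ 2 / 5 * (2 ^ n * 2) := by nlinarith

private theorem exp_n {s : ℂ} (hs : ‖s‖ ≤ 1 / 200) {n : ℕ} (hn : 3 ≤ n) :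
    ‖1 - exp (-n * s)‖ ≤ 2 / 5 * ‖s‖ * 2 ^ n := by
  have h1 : ‖exp (-n * s) - 1‖ ≤ ‖(-n * s : ℂ)‖ * Real.exp ‖(-n * s : ℂ)‖ := by
    have := Complex.norm_exp_sub_sum_le_norm_mul_exp (-n * s : ℂ) 1
    simpa using this
  have h2 : ‖(-n * s : ℂ)‖ = n * ‖s‖ := by simp
  rw [h2] at h1
  have h3 : Real.exp (n * ‖s‖) ≤ (1 + 1 / 100) ^ n := by
    rw [Real.exp_nat_mul]
    refine pow_le_pow_left₀ (Real.exp_pos _).le ?_ n
    have h4 : Real.exp ‖s‖ ≤ Real.exp (1 / 200) := Real.exp_le_exp.2 hs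
    have h5 : Real.exp (1 / 200) ≤ 1 / (1 - 1 / 200) := by
      have := Real.exp_bound_div_one_sub_of_interval' (x := (1 / 200 : ℝ)) (by norm_num)
        (by norm_num)
      exact this.le
    exact h4.trans (h5.trans (by norm_num))
  rw [norm_sub_rev]
  have h0 : 0 ≤ ‖s‖ := norm_nonneg s
  have hn0 : (0 : ℝ) ≤ n := Nat.cast_nonneg n
  calc ‖exp (-n * s) - 1‖ ≤ n * ‖s‖ * Real.exp (n * ‖s‖) := h1
    _ ≤ n * ‖s‖ * (1 + 1 / 100) ^ n := mul_le_mul_of_nonneg_left h3 (by positivity)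
    _ = ‖s‖ * (n * (1 + 1 / 100) ^ n) := by ring
    _ ≤ ‖s‖ * (2 / 5 * 2 ^ n) := mul_le_mul_of_nonneg_left (pow_ge hn) h0
    _ = 2 / 5 * ‖s‖ * 2 ^ n := by ring

private theorem exp_two {s : ℂ} (hs : ‖s‖ ≤ 1 / 2) : ‖1 - exp (-2 * s) - 2 * s‖ ≤ 3 * ‖s‖ ^ 2 := by
  have h1 : ‖(-2 * s : ℂ)‖ ≤ 1 := by
    rw [norm_mul]
    simp only [norm_neg, Complex.norm_ofNat]
    linarith
  have h2 := Complex.exp_bound h1 (n := 2) (by norm_num)
  simp only [Finset.sum_range_succ, Finset.range_zero, Finset.sum_empty, pow_zero,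
    Nat.factorial] at h2
  have h3 : ‖(-2 * s : ℂ)‖ = 2 * ‖s‖ := by
    rw [norm_mul]
    simp
  rw [h3] at h2
  have h4 : ‖1 - exp (-2 * s) - 2 * s‖ =
      ‖exp (-2 * s) - (0 + 1 / ((1 : ℕ) : ℂ) + (-2 * s) ^ 1 / (((0 + 1) * 1 : ℕ) : ℂ))‖ := by
    rw [← norm_neg]
    congr 1
    push_cast
    ring
  rw [h4]
  refine h2.trans (le_of_eq ?_)
  push_cast
  norm_num
  ring

/-! ### The kernel of the difference -/

/-- The rest. -/
private noncomputable def RR (κ : Slb I) (s : ℂ) (x y : XX I) : ℂ :=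
  ∑' n : ℕ, if 3 ≤ n then (κ.k n x y : ℂ) * (1 - exp (-n * s)) else 0

private noncomputable def ww (κ : Slb I) (x : XX I) (p : ℕ × XX I) : ℝ :=
  if 3 ≤ p.1 then 2 ^ p.1 * κ.k p.1 x p.2 else 0

omit [Fintype I] in
private theorem ww_nn (hκ : κ.Ok) (x : XX I) (p : ℕ × XX I) : 0 ≤ κ.ww x p := by
  unfold ww
  split_ifs
  · exact mul_nonneg (by positivity) (hκ.k_nn _ _ _)
  · exact le_rfl

omit [Fintype I] in
private theorem ww_summable (hκ : κ.Ok) (x : XX I) : Summable (κ.ww x) := by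
  refine Summable.of_nonneg_of_le (ww_nn hκ x) (fun p => ?_) (hκ.k_sum x)
  unfold ww
  split_ifs
  · exact le_rfl
  · exact mul_nonneg (by positivity) (hκ.k_nn _ _ _)

private theorem ww_swap (hκ : κ.Ok) (x : XX I) :
    Summable fun p : XX I × ℕ => κ.ww x (p.2, p.1) := by
  have h := ww_summable hκ x
  generalize κ.ww x = f at h ⊢
  exact ((Equiv.prodComm (XX I) ℕ).summable_iff (f := f)).2 h

private theorem RR_le (hκ : κ.Ok) {s : ℂ} (hs : ‖s‖ ≤ 1 / 200) (x y : XX I) :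
    (Summable fun n : ℕ => if 3 ≤ n then (κ.k n x y : ℂ) * (1 - exp (-n * s)) else 0) ∧
    ‖κ.RR s x y‖ ≤ 2 / 5 * ‖s‖ * ∑' n, κ.ww x (n, y) := by
  have h1 : Summable fun n => κ.ww x (n, y) := (ww_swap hκ x).prod_factor y
  have h2 : ∀ n : ℕ, ‖if 3 ≤ n then (κ.k n x y : ℂ) * (1 - exp (-n * s)) else 0‖ ≤
      2 / 5 * ‖s‖ * κ.ww x (n, y) := by
    intro n
    unfold ww
    split_ifs with hn
    · rw [norm_mul, Complex.norm_real, Real.norm_of_nonneg (hκ.k_nn n x y)]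
      calc κ.k n x y * ‖1 - exp (-n * s)‖ ≤ κ.k n x y * (2 / 5 * ‖s‖ * 2 ^ n) :=
            mul_le_mul_of_nonneg_left (exp_n hs hn) (hκ.k_nn n x y)
        _ = 2 / 5 * ‖s‖ * (2 ^ n * κ.k n x y) := by ring
    · simp
  have h3 := h1.mul_left (2 / 5 * ‖s‖)
  have h4 := Summable.of_nonneg_of_le (fun n => norm_nonneg _) h2 h3
  refine ⟨h4.of_norm, ?_⟩
  rw [← tsum_mul_left]
  exact (norm_tsum_le_tsum_norm h4).trans (h4.tsum_le_tsum h2 h3)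

omit [Fintype I] in
private theorem RR_symm (hκ : κ.Ok) (s : ℂ) (x y : XX I) : κ.RR s x y = κ.RR s y x := by
  unfold RR
  refine tsum_congr fun n => ?_
  rw [hκ.k_symm]

private theorem RR_row (hκ : κ.Ok) {s : ℂ} (hs : ‖s‖ ≤ 1 / 200) (x : XX I) :
    (Summable fun y => ‖κ.RR s x y‖) ∧ ∑' y, ‖κ.RR s x y‖ ≤ 40 * κ.z * ‖s‖ := by
  have h1 : Summable fun y => ∑' n, κ.ww x (n, y) := (ww_swap hκ x).prod
  have h2 : ∑' y, ∑' n, κ.ww x (n, y) ≤ 100 * κ.z := by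
    have h3 := (ww_swap hκ x).tsum_prod
    have h4 : ∑' p : XX I × ℕ, κ.ww x (p.2, p.1) = ∑' p, κ.ww x p :=
      (Equiv.prodComm (XX I) ℕ).tsum_eq (κ.ww x)
    rw [← h3, h4]
    exact hκ.k_le x
  have h3 := h1.mul_left (2 / 5 * ‖s‖)
  have h4 := Summable.of_nonneg_of_le (fun y => norm_nonneg _) (fun y => (RR_le hκ hs x y).2) h3
  refine ⟨h4, ?_⟩
  refine (h4.tsum_le_tsum (fun y => (RR_le hκ hs x y).2) h3).trans ?_
  rw [tsum_mul_left]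
  have h5 : 0 ≤ 2 / 5 * ‖s‖ := by positivity
  calc 2 / 5 * ‖s‖ * ∑' y, ∑' n, κ.ww x (n, y) ≤ 2 / 5 * ‖s‖ * (100 * κ.z) :=
        mul_le_mul_of_nonneg_left h2 h5
    _ = 40 * κ.z * ‖s‖ := by ring

private theorem sch_RR (hκ : κ.Ok) {s : ℂ} (hs : ‖s‖ ≤ 1 / 200) :
    Sch (κ.RR s) (40 * κ.z * ‖s‖) where
  row x := (RR_row hκ hs x).1
  row_le x := (RR_row hκ hs x).2
  col y := by
    have := (RR_row hκ hs y).1
    simpa only [RR_symm hκ s y] using this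
  col_le y := by
    have := (RR_row hκ hs y).2
    simpa only [RR_symm hκ s y] using this

open Classical in
private theorem Ks_sub (hκ : κ.Ok) {s : ℂ} (hs : ‖s‖ ≤ 1 / 200) (x y : XX I) :
    κ.Ks 0 x y - κ.Ks s x y =
      (if x = y ∧ κ.Al x then (κ.q : ℂ) * (1 - exp (-2 * s)) else 0) + κ.RR s x y := by
  have hre : -(1 / 2) < s.re := by
    have := Complex.abs_re_le_norm s
    have := abs_le.1 this
    linarith
  have h0 := hκ.Ks_summable (s := 0) (by simp) x y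
  have hS := hκ.Ks_summable hre x y
  unfold Ks RR
  rw [← h0.tsum_sub hS]
  have hR := (RR_le hκ hs x y).1
  have hT : Summable fun n : ℕ => if n = 2 then
      (if x = y ∧ κ.Al x then (κ.q : ℂ) * (1 - exp (-2 * s)) else 0) else 0 :=
    (hasSum_ite_eq 2 _).summable
  have hT2 : ∑' n : ℕ, (if n = 2 then
      (if x = y ∧ κ.Al x then (κ.q : ℂ) * (1 - exp (-2 * s)) else 0) else 0) =
      if x = y ∧ κ.Al x then (κ.q : ℂ) * (1 - exp (-2 * s)) else 0 := tsum_ite_eq 2 _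
  rw [← hT2, ← hT.tsum_add hR]
  refine tsum_congr fun n => ?_
  by_cases hn : 3 ≤ n
  · have h2 : n ≠ 2 := by omega
    rw [if_neg h2, if_pos hn]
    simp only [mul_zero, Complex.exp_zero]
    ring
  · rw [if_neg hn, hκ.k_low n x y (by omega)]
    by_cases h2 : n = 2
    · subst h2
      by_cases h3 : x = y ∧ κ.Al x
      · rw [if_pos rfl, if_pos h3, if_pos ⟨rfl, h3⟩]
        simp only [mul_zero, Complex.exp_zero]
        push_cast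
        ring
      · rw [if_pos rfl, if_neg h3, if_neg (fun h => h3 h.2)]
        simp
    · rw [if_neg h2, if_neg (fun h => h2 h.1)]
      simp

private theorem KS_sub (hκ : κ.Ok) {s : ℂ} (hs : ‖s‖ ≤ 1 / 200) (g : EE I) (hv : κ.Van g) :
    κ.KS 0 g - κ.KS s g = ((κ.q : ℂ) * (1 - exp (-2 * s))) • g + op (κ.RR s) g := by
  classical
  have hre : -(1 / 2) < s.re := by
    have := Complex.abs_re_le_norm s
    have := abs_le.1 this
    linarith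
  have hz : 0 ≤ 40 * κ.z * ‖s‖ := by
    have := hκ.z_pos
    positivity
  ext x
  have h1 : (κ.KS 0 g - κ.KS s g) x = κ.KS 0 g x - κ.KS s g x := rfl
  have h2 : (((κ.q : ℂ) * (1 - exp (-2 * s))) • g + op (κ.RR s) g) x =
      ((κ.q : ℂ) * (1 - exp (-2 * s))) * g x + op (κ.RR s) g x := rfl
  rw [h1, h2, hκ.KS_apply (by simp) g x, hκ.KS_apply hre g x, op_apply hz (sch_RR hκ hs) g x,
    ← (sch_summable (hκ.sch_Ks (by simp)) g x).tsum_sub (sch_summable (hκ.sch_Ks hre) g x)]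
  have h3 : ∀ y, κ.Ks 0 x y * g y - κ.Ks s x y * g y =
      (if y = x then ((κ.q : ℂ) * (1 - exp (-2 * s))) * g x else 0) + κ.RR s x y * g y := by
    intro y
    rw [← sub_mul, Ks_sub hκ hs x y, add_mul]
    congr 1
    by_cases hy : y = x
    · subst hy
      by_cases ha : κ.Al y
      · rw [if_pos ⟨rfl, ha⟩, if_pos rfl]
      · rw [if_neg (fun h => ha h.2), if_pos rfl, hv y ha]
        simp
    · rw [if_neg (fun h => hy h.1.symm), if_neg hy, zero_mul]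
  simp only [h3]
  have hT : Summable fun y : XX I => if y = x then
      ((κ.q : ℂ) * (1 - exp (-2 * s))) * g x else 0 := (hasSum_ite_eq x _).summable
  rw [hT.tsum_add (sch_summable (sch_RR hκ hs) g x), tsum_ite_eq]

/-- `K_0 - K_s = q (1 - exp (-2 s)) P + ∑_{n ≥ 3} (1 - exp (-n s)) k_n`, `P` the projection to the alive states
(`k_low`). For `‖s‖ < 40 z ≤ 4 · 10^{-11}`: `|1 - exp (-n s)| ≤ n ‖s‖ exp (n ‖s‖) ≤ (2/5) 2 ^ n ‖s‖` for `n ≥ 3`, so by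
`k_le` the second part has rows (and columns) of sum at most `40 z ‖s‖` and norm at most that
(`norm_op_le`, `op_sub`); `|1 - exp (-2 s) - 2 s| ≤ 3 ‖s‖² ≤ 120 z ‖s‖`, `|2 q s - 2 s| ≤ 17 z ‖s‖`. Total `≤ 200 z ‖s‖`. -/
theorem Ok.near_op (hκ : κ.Ok) {s : ℂ} (hs : ‖s‖ < 40 * κ.z) (g : EE I) (hv : κ.Van g) :
    ‖inner ℂ g (κ.KS 0 g) - inner ℂ g (κ.KS s g) - 2 * s * ((‖g‖ ^ 2 : ℝ) : ℂ)‖ ≤
      200 * κ.z * ‖s‖ * ‖g‖ ^ 2 := by
  have hz0 := hκ.z_pos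
  have hz1 := hκ.z_le
  have hs0 : 0 ≤ ‖s‖ := norm_nonneg s
  have hs1 : ‖s‖ ≤ 1 / 200 := by
    have : (1 : ℝ) / 10 ^ 12 ≤ 1 / 10 ^ 4 / 2 := by norm_num
    linarith
  have hB : 0 ≤ 40 * κ.z * ‖s‖ := by positivity
  have h1 : inner ℂ g (κ.KS 0 g) - inner ℂ g (κ.KS s g) =
      ((κ.q : ℂ) * (1 - exp (-2 * s))) * ((‖g‖ ^ 2 : ℝ) : ℂ) + inner ℂ g (op (κ.RR s) g) := by
    rw [← inner_sub_right, KS_sub hκ hs1 g hv, inner_add_right, inner_smul_right,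
      inner_self_eq_norm_sq_to_K]
    push_cast
    rfl
  rw [h1]
  have h2 : ((κ.q : ℂ) * (1 - exp (-2 * s))) * ((‖g‖ ^ 2 : ℝ) : ℂ) + inner ℂ g (op (κ.RR s) g) -
      2 * s * ((‖g‖ ^ 2 : ℝ) : ℂ) =
      ((κ.q : ℂ) * (1 - exp (-2 * s) - 2 * s) + ((κ.q - 1 : ℝ) : ℂ) * (2 * s)) *
        ((‖g‖ ^ 2 : ℝ) : ℂ) + inner ℂ g (op (κ.RR s) g) := by
    push_cast
    ring
  rw [h2]
  have hq0 : 0 ≤ κ.q := by
    have := hκ.q_ge
    have : (1 : ℝ) / 10 ^ 12 ≤ 1 / 10 ^ 4 / 2 := by norm_num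
    linarith
  have h3 : ‖(κ.q : ℂ) * (1 - exp (-2 * s) - 2 * s)‖ ≤ 120 * κ.z * ‖s‖ := by
    rw [norm_mul, Complex.norm_real, Real.norm_of_nonneg hq0]
    have h4 := exp_two (s := s) (by linarith)
    have h5 : 3 * ‖s‖ ^ 2 ≤ 120 * κ.z * ‖s‖ := by nlinarith
    calc κ.q * ‖1 - exp (-2 * s) - 2 * s‖ ≤ 1 * ‖1 - exp (-2 * s) - 2 * s‖ :=
          mul_le_mul_of_nonneg_right hκ.q_le (norm_nonneg _)
      _ ≤ 120 * κ.z * ‖s‖ := by rw [one_mul]; exact h4.trans h5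
  have h4 : ‖((κ.q - 1 : ℝ) : ℂ) * (2 * s)‖ ≤ 17 * κ.z * ‖s‖ := by
    rw [norm_mul, norm_mul, Complex.norm_real, Complex.norm_ofNat, Real.norm_eq_abs]
    have h5 : |κ.q - 1| ≤ 17 / 2 * κ.z := by
      rw [abs_le]
      constructor <;> linarith [hκ.q_ge, hκ.q_le]
    calc |κ.q - 1| * (2 * ‖s‖) ≤ 17 / 2 * κ.z * (2 * ‖s‖) :=
          mul_le_mul_of_nonneg_right h5 (by positivity)
      _ = 17 * κ.z * ‖s‖ := by ring
  have h5 : ‖inner ℂ g (op (κ.RR s) g)‖ ≤ 40 * κ.z * ‖s‖ * ‖g‖ ^ 2 := by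
    calc ‖inner ℂ g (op (κ.RR s) g)‖ ≤ ‖g‖ * ‖op (κ.RR s) g‖ := norm_inner_le_norm _ _
      _ ≤ ‖g‖ * (40 * κ.z * ‖s‖ * ‖g‖) :=
          mul_le_mul_of_nonneg_left
            (((op (κ.RR s)).le_opNorm g).trans
              (mul_le_mul_of_nonneg_right (norm_op_le hB (sch_RR hκ hs1)) (norm_nonneg _)))
            (norm_nonneg _)
      _ = 40 * κ.z * ‖s‖ * ‖g‖ ^ 2 := by ring
  have h6 : ‖((κ.q : ℂ) * (1 - exp (-2 * s) - 2 * s) + ((κ.q - 1 : ℝ) : ℂ) * (2 * s)) *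
        ((‖g‖ ^ 2 : ℝ) : ℂ)‖ ≤ 137 * κ.z * ‖s‖ * ‖g‖ ^ 2 := by
    rw [norm_mul, Complex.norm_real, Real.norm_of_nonneg (by positivity : (0 : ℝ) ≤ ‖g‖ ^ 2)]
    refine mul_le_mul_of_nonneg_right ?_ (by positivity)
    refine (norm_add_le _ _).trans ?_
    linarith
  refine (norm_add_le _ _).trans ?_
  have h7 : 0 ≤ κ.z * ‖s‖ * ‖g‖ ^ 2 := by positivity
  nlinarith

/-! ### Coercivity -/

private theorem KS_zero_real (hκ : κ.Ok) (g : EE I) : (inner ℂ g (κ.KS 0 g)).im = 0 := by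
  have h0 : (-(1 / 2) : ℝ) < (0 : ℂ).re := by simp
  have h1 := inner_op (by norm_num : (0 : ℝ) ≤ 50) (hκ.sch_Ks h0) g g
  have h2 : inner ℂ g (κ.KS 0 g) =
      ∑' p : XX I × XX I, conj (g p.1) * (κ.Ks 0 p.1 p.2 * g p.2) := h1
  rw [← Complex.conj_eq_iff_im, h2, Complex.conj_tsum]
  rw [← (Equiv.prodComm (XX I) (XX I)).tsum_eq
    (fun p : XX I × XX I => conj (g p.1) * (κ.Ks 0 p.1 p.2 * g p.2))]
  refine tsum_congr fun p => ?_
  have h3 : conj (κ.Ks 0 p.1 p.2) = κ.Ks 0 p.1 p.2 := by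
    rw [Ok.Ks_zero, Complex.conj_ofReal]
  rw [map_mul, map_mul, h3, Complex.conj_conj]
  simp only [Equiv.prodComm_apply, Prod.fst_swap, Prod.snd_swap]
  rw [hκ.Ks_symm 0 p.2 p.1]
  ring

/-- The decomposition of the form. -/
private theorem form_eq (hκ : κ.Ok) {s : ℂ} (hs : ‖s‖ < 40 * κ.z) (g : EE I) (hv : κ.Van g) :
    ∃ (A : ℝ) (e : ℂ), κ.EF g / 2 ≤ A ∧ ‖e‖ ≤ 200 * κ.z * ‖s‖ * ‖g‖ ^ 2 ∧
      inner ℂ g (g - κ.KS s g) = (A : ℂ) + ((2 * ‖g‖ ^ 2 : ℝ) : ℂ) * s + e := by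
  refine ⟨(inner ℂ g (g - κ.KS 0 g)).re, inner ℂ g (κ.KS 0 g) - inner ℂ g (κ.KS s g) -
    2 * s * ((‖g‖ ^ 2 : ℝ) : ℂ), hκ.hardy g hv, hκ.near_op hs g hv, ?_⟩
  have h1 : (((inner ℂ g (g - κ.KS 0 g)).re : ℝ) : ℂ) = inner ℂ g (g - κ.KS 0 g) := by
    have h2 : (inner ℂ g (g - κ.KS 0 g)).im = 0 := by
      rw [inner_sub_right, Complex.sub_im, KS_zero_real hκ g, sub_zero,
        inner_self_eq_norm_sq_to_K]
      have : (((‖g‖ : ℂ)) ^ 2).im = 0 := by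
        rw [← Complex.ofReal_pow, Complex.ofReal_im]
      exact this
    apply Complex.ext
    · rw [Complex.ofReal_re]
    · rw [Complex.ofReal_im, h2]
  rw [h1, inner_sub_right, inner_sub_right]
  push_cast
  ring

omit [Fintype I] in
private theorem small (hκ : κ.Ok) {s : ℂ} {a : ℝ} (ha : 0 ≤ a) :
    200 * κ.z * ‖s‖ * a ≤ 1 / 2 * ‖s‖ * a := by
  have hz1 := hκ.z_le
  have h1 : 200 * κ.z ≤ 1 / 2 := by
    have : (1 : ℝ) / 10 ^ 12 ≤ 1 / 10 ^ 4 / 2 := by norm_num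
    linarith
  have h2 : 0 ≤ ‖s‖ * a := mul_nonneg (norm_nonneg _) ha
  nlinarith

/-- Coercivity. `⟪g, (1 - K_s) g⟫ = ⟪g, (1 - K_0) g⟫ + 2 s ‖g‖² + O(200 z ‖s‖ ‖g‖²)`, the first term is real and
`≥ EF g / 2` (`hardy`; real because the kernel is real and symmetric). Let `α = arg s`, `|α| < 2π/3` because
`re s > - ‖s‖ / 2`; the real part of `exp (- i α / 2)` times the sum of the first two terms is
`cos (α/2) (⟪g, (1 - K_0) g⟫ + 2 ‖s‖ ‖g‖²) ≥ 1/2 (EF g / 2 + 2 ‖s‖ ‖g‖²)`. (Without `arg`: for real `a, b ≥ 0` and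
`re s ≥ - ‖s‖ / 2` one has `‖a + b s‖² ≥ a² - a b ‖s‖ + b² ‖s‖² ≥ (a + b ‖s‖)² / 4`.) -/
theorem Ok.coer (hκ : κ.Ok) {s : ℂ} (hs : s ∈ κ.Sec) (g : EE I) (hv : κ.Van g) :
    1 / 4 * (κ.EF g + ‖s‖ * ‖g‖ ^ 2) ≤ ‖inner ℂ g (g - κ.KS s g)‖ := by
  obtain ⟨A, e, hA, he, h⟩ := form_eq hκ hs.2.1 g hv
  have hE := hκ.EF_nn g
  have hg : 0 ≤ ‖g‖ ^ 2 := by positivity
  have h1 := key_ab (a := A) (b := 2 * ‖g‖ ^ 2) (by linarith) (by positivity) hs.2.2.le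
  have h2 := small hκ (s := s) hg
  have h3 : ‖(A : ℂ) + ((2 * ‖g‖ ^ 2 : ℝ) : ℂ) * s‖ - ‖e‖ ≤
      ‖(A : ℂ) + ((2 * ‖g‖ ^ 2 : ℝ) : ℂ) * s + e‖ := by
    have := norm_sub_le ((A : ℂ) + ((2 * ‖g‖ ^ 2 : ℝ) : ℂ) * s + e) e
    rw [add_sub_cancel_right] at this
    linarith
  rw [h]
  have h4 : 0 ≤ ‖s‖ * ‖g‖ ^ 2 := by positivity
  nlinarith

theorem Ok.coer_real (hκ : κ.Ok) {σ : ℝ} (hσ : 0 < σ) (hσ1 : σ < 40 * κ.z) (g : EE I)
    (hv : κ.Van g) :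
    1 / 4 * (κ.EF g + σ * ‖g‖ ^ 2) ≤ (inner ℂ g (g - κ.KS σ g)).re := by
  have hn : ‖(σ : ℂ)‖ = σ := by rw [Complex.norm_real, Real.norm_of_nonneg hσ.le]
  obtain ⟨A, e, hA, he, h⟩ := form_eq hκ (s := (σ : ℂ)) (by rw [hn]; exact hσ1) g hv
  have hE := hκ.EF_nn g
  have hg : 0 ≤ ‖g‖ ^ 2 := by positivity
  have h2 := small hκ (s := (σ : ℂ)) hg
  rw [hn] at he h2
  rw [h]
  have h3 : -‖e‖ ≤ e.re := (abs_le.1 (Complex.abs_re_le_norm e)).1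
  have h4 : ((A : ℂ) + ((2 * ‖g‖ ^ 2 : ℝ) : ℂ) * (σ : ℂ) + e).re = A + 2 * ‖g‖ ^ 2 * σ + e.re := by
    rw [Complex.add_re, Complex.add_re, ← Complex.ofReal_mul, Complex.ofReal_re,
      Complex.ofReal_re]
  rw [h4]
  have h5 : 0 ≤ σ * ‖g‖ ^ 2 := by positivity
  nlinarith

open Classical in
omit [Fintype I] in
/-- The part on the alive states. -/
private theorem exists_part (κ : Slb I) (g : EE I) : ∃ g₁ : EE I,
    ∀ x, g₁ x = if κ.Al x then g x else 0 := by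
  have h1 : Memℓp (fun x => if κ.Al x then g x else 0) 2 := by
    have hg := lp.memℓp g
    have h2 : 0 < (2 : ℝ≥0∞).toReal := by norm_num
    rw [memℓp_gen_iff h2] at hg ⊢
    refine Summable.of_nonneg_of_le (fun x => by positivity) (fun x => ?_) hg
    split_ifs
    · exact le_rfl
    · simp only [norm_zero]
      rw [Real.zero_rpow h2.ne']
      positivity
  exact ⟨toE _, fun x => toE_apply h1 x⟩

/-- Write `g = g₁ + g₀` with `g₀` supported on the (finitely many) dead states: `K_s g₀ = 0` and `K_s g₁` vanishes on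
the dead states, so the form is `⟪g₁, (1 - K_s) g₁⟫ + ‖g₀‖²`; use the rotated real parts of `coer` (or: the
inequality `‖a + b s + c‖² ≥ (..)` with the additional real `c = ‖g₀‖² ≥ 0`). -/
theorem Ok.coer_all (hκ : κ.Ok) {s : ℂ} (hs : s ∈ κ.Sec) (g : EE I) :
    ‖s‖ / 4 * ‖g‖ ^ 2 ≤ ‖inner ℂ g ((1 - κ.KS s) g)‖ := by
  classical
  have hz0 := hκ.z_pos
  have hz1 := hκ.z_le
  have hs0 : 0 ≤ ‖s‖ := norm_nonneg s
  have hs1 : ‖s‖ ≤ 1 / 200 := by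
    have : (1 : ℝ) / 10 ^ 12 ≤ 1 / 10 ^ 4 / 2 := by norm_num
    linarith [hs.2.1]
  have hre : -(1 / 2) < s.re := by
    have := abs_le.1 (Complex.abs_re_le_norm s)
    linarith
  obtain ⟨g₁, hg₁⟩ := exists_part κ g
  set g₀ : EE I := g - g₁ with hg₀
  have hg₀x : ∀ x, g₀ x = if κ.Al x then 0 else g x := by
    intro x
    have h1 : g₀ x = g x - g₁ x := rfl
    rw [h1, hg₁ x]
    split_ifs <;> ring
  have hv : κ.Van g₁ := by
    intro x hx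
    rw [hg₁ x, if_neg hx]
  have hgg : g = g₁ + g₀ := by rw [hg₀]; abel
  have hK0 : κ.KS s g₀ = 0 := by
    ext x
    rw [hκ.KS_apply hre g₀ x]
    have : ∀ y, κ.Ks s x y * g₀ y = 0 := by
      intro y
      rw [hg₀x y]
      split_ifs with hy
      · ring
      · rw [hκ.Ks_symm s x y, hκ.Ks_dead s hy, zero_mul]
    simp only [this, tsum_zero]
    rfl
  have hz : ∀ f f' : EE I, (∀ x, f x = 0 ∨ f' x = 0) → inner ℂ f f' = 0 := by
    intro f f' hff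
    rw [lp.inner_eq_tsum]
    have : ∀ x, inner ℂ (f x) (f' x) = 0 := by
      intro x
      rcases hff x with h | h
      · rw [h, inner_zero_left]
      · rw [h, inner_zero_right]
    simp only [this, tsum_zero]
  have h10 : inner ℂ g₁ g₀ = 0 := by
    refine hz _ _ fun x => ?_
    rw [hg₁ x, hg₀x x]
    split_ifs
    · exact Or.inr rfl
    · exact Or.inl rfl
  have h01 : inner ℂ g₀ g₁ = 0 := by
    refine hz _ _ fun x => ?_
    rw [hg₁ x, hg₀x x]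
    split_ifs
    · exact Or.inl rfl
    · exact Or.inr rfl
  have h0K : inner ℂ g₀ (κ.KS s g₁) = 0 := by
    refine hz _ _ fun x => ?_
    by_cases hx : κ.Al x
    · left
      rw [hg₀x x, if_pos hx]
    · right
      rw [hκ.KS_apply hre g₁ x]
      simp only [hκ.Ks_dead s hx, zero_mul, tsum_zero]
  have hT : (1 - κ.KS s) g = (g₁ - κ.KS s g₁) + g₀ := by
    rw [sub_apply, one_apply_eq_self, hgg, map_add, hK0, add_zero]
    abel
  have hform : inner ℂ g ((1 - κ.KS s) g) = inner ℂ g₁ (g₁ - κ.KS s g₁) +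
      ((‖g₀‖ ^ 2 : ℝ) : ℂ) := by
    have h00 : inner ℂ g₀ g₀ = ((‖g₀‖ ^ 2 : ℝ) : ℂ) := by
      rw [inner_self_eq_norm_sq_to_K]
      push_cast
      rfl
    have h0s : inner ℂ g₀ (g₁ - κ.KS s g₁) = 0 := by
      rw [inner_sub_right, h01, h0K, sub_zero]
    rw [hT]
    calc inner ℂ g ((g₁ - κ.KS s g₁) + g₀)
        = inner ℂ (g₁ + g₀) ((g₁ - κ.KS s g₁) + g₀) := by rw [← hgg]
      _ = inner ℂ g₁ (g₁ - κ.KS s g₁) + ((‖g₀‖ ^ 2 : ℝ) : ℂ) := by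
          rw [inner_add_left, inner_add_right, inner_add_right, h10, h0s, h00]
          ring
  have hnorm : ‖g‖ ^ 2 = ‖g₁‖ ^ 2 + ‖g₀‖ ^ 2 := by
    rw [hgg, sq, sq, sq]
    exact norm_add_sq_eq_norm_sq_add_norm_sq_of_inner_eq_zero g₁ g₀ h10
  obtain ⟨A, e, hA, he, h⟩ := form_eq hκ hs.2.1 g₁ hv
  have hE := hκ.EF_nn g₁
  have hg : 0 ≤ ‖g₁‖ ^ 2 := by positivity
  have hg0 : 0 ≤ ‖g₀‖ ^ 2 := by positivity
  have h1 := key_ab (a := A + ‖g₀‖ ^ 2) (b := 2 * ‖g₁‖ ^ 2) (by linarith) (by positivity)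
    hs.2.2.le
  have h2 := small hκ (s := s) hg
  have h3 : ‖((A + ‖g₀‖ ^ 2 : ℝ) : ℂ) + ((2 * ‖g₁‖ ^ 2 : ℝ) : ℂ) * s‖ - ‖e‖ ≤
      ‖inner ℂ g ((1 - κ.KS s) g)‖ := by
    have h4 := norm_sub_le (((A + ‖g₀‖ ^ 2 : ℝ) : ℂ) + ((2 * ‖g₁‖ ^ 2 : ℝ) : ℂ) * s + e) e
    rw [add_sub_cancel_right] at h4
    have h5 : inner ℂ g ((1 - κ.KS s) g) =
        ((A + ‖g₀‖ ^ 2 : ℝ) : ℂ) + ((2 * ‖g₁‖ ^ 2 : ℝ) : ℂ) * s + e := by
      rw [hform, h]
      push_cast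
      ring
    rw [h5]
    linarith
  rw [hnorm]
  have h4 : 0 ≤ ‖s‖ * ‖g₁‖ ^ 2 := by positivity
  have h5 : ‖s‖ * ‖g₀‖ ^ 2 ≤ 1 * ‖g₀‖ ^ 2 := mul_le_mul_of_nonneg_right (by linarith) hg0
  nlinarith

theorem Ok.sec_unit (hκ : κ.Ok) {s : ℂ} (hs : s ∈ κ.Sec) : IsUnit (1 - κ.KS s) :=
  (isUnit_of_coercive (1 - κ.KS s) (c := ‖s‖ / 4)
    (by have := norm_pos_iff.2 hs.1; positivity) fun g => hκ.coer_all hs g).1

end Slb

end Pool.Agent.KSlab
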