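import Pool.Agent.KAsym.Trf

/-! SL35: transfer of an algebraic singularity to the coefficients, definitions. -/

set_option autoImplicit false

open Complex MeasureTheory Set Filter Topology

namespace Pool.Agent.KSlab

open Pool.Agent.KAsym (Sct)

/-- The generating function `f` (in `exp (-s)`) of the real sequence `d` is analytic near the critical line
except at the origin, where it is `A + O(|s| ^ p)`. -/
structure TrD (d : ℕ → ℝ) (f : ℂ → ℂ) (r p : ℝ) (A : ℂ) (C : ℝ) : Prop where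
  summable : ∀ σ : ℝ, 0 < σ → Summable fun n : ℕ => |d n| * Real.exp (-(n * σ))
  r_pos : 0 < r
  r_le : r ≤ 1
  p_lt : p < 1
  eq : ∀ s : ℂ, 0 < s.re → f s = ∑' n : ℕ, d n * exp (-n * s)
  ext : ∀ φ : ℝ, r / 2 ≤ |φ| → |φ| ≤ Real.pi → ∃ ε > 0, ∃ g : ℂ → ℂ,
    DifferentiableOn ℂ g (Metric.ball (φ * I) ε) ∧
      ∀ s ∈ Metric.ball (φ * I : ℂ) ε, 0 < s.re → g s = f s
  near : ∃ g : ℂ → ℂ, DifferentiableOn ℂ g (Sct r) ∧ (∀ s ∈ Sct r, 0 < s.re → g s = f s) ∧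
    ∀ s ∈ Sct r, ‖g s - A‖ ≤ C * ‖s‖ ^ p

/-- The coefficients of `(1 - w) ^ (-α)`. -/
noncomputable def cb (α : ℝ) (n : ℕ) : ℝ := (∏ j ∈ Finset.range n, (α + j)) / n.factorial

end Pool.Agent.KSlab
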