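import Pool.Agent.KSlab.TrLine

/-! SL36: the coefficients are `O(n ^ (-1 - p))`. Adaptation of `KAsym/Remd.lean` without the
main term. -/

set_option autoImplicit false

open Complex MeasureTheory Set Filter Topology

namespace Pool.Agent.KSlab

open Pool.Agent.KAsym (Sct)

variable {d : ℕ → ℝ} {f : ℂ → ℂ} {r p : ℝ} {A : ℂ} {C : ℝ}

private theorem ball_sub {r : ℝ} {s w : ℂ} (hs : 0 < s.re) (hr : ‖s‖ < 3 / 4 * r)
    (hw : ‖w - s‖ ≤ ‖s‖ / 4) : w ∈ Sct r ∧ ‖w‖ ≤ 5 / 4 * ‖s‖ ∧ 3 / 4 * ‖s‖ ≤ ‖w‖ := by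
  have h0 : 0 < ‖s‖ := norm_pos_iff.2 fun h => by rw [h] at hs; simp at hs
  have h1 : ‖w‖ ≤ 5 / 4 * ‖s‖ := by
    have := norm_add_le (w - s) s
    rw [sub_add_cancel] at this
    linarith
  have h2 : 3 / 4 * ‖s‖ ≤ ‖w‖ := by
    have := norm_sub_norm_le s w
    rw [norm_sub_rev] at this
    linarith
  have h3 : s.re - ‖s‖ / 4 ≤ w.re := by
    have := Complex.abs_re_le_norm (w - s)
    rw [Complex.sub_re] at this
    have h4 := (abs_le.1 this).1
    linarith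
  refine ⟨⟨fun h => ?_, ?_, ?_⟩, h1, h2⟩
  · rw [h, norm_zero] at h2
    linarith
  · linarith
  · linarith

private theorem isOpen_Sct (r : ℝ) : IsOpen (Sct r) := by
  have h : Sct r = {s : ℂ | s ≠ 0} ∩ ({s : ℂ | ‖s‖ < r} ∩ {s : ℂ | -‖s‖ / 2 < s.re}) := rfl
  rw [h]
  refine isOpen_ne.inter ((isOpen_lt continuous_norm continuous_const).inter
    (isOpen_lt (by fun_prop) Complex.continuous_re))

/-- Comparison of powers of comparable numbers. -/
private theorem rpow_cmp {a b : ℝ} (ha : 0 < a) (h1 : b ≤ 5 / 4 * a) (h2 : 3 / 4 * a ≤ b) (p : ℝ) :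
    b ^ p ≤ 2 ^ |p| * a ^ p := by
  have hb : 0 < b := by linarith
  rcases le_total 0 p with hp | hp
  · rw [abs_of_nonneg hp, ← Real.mul_rpow (by norm_num) ha.le]
    exact Real.rpow_le_rpow hb.le (by linarith) hp
  · rw [abs_of_nonpos hp]
    have e1 : (2 : ℝ) ^ (-p) = (1 / 2) ^ p := by
      rw [Real.rpow_neg (by norm_num), one_div, Real.inv_rpow (by norm_num)]
    rw [e1, ← Real.mul_rpow (by norm_num) ha.le]
    exact Real.rpow_le_rpow_of_nonpos (by positivity) (by linarith) hp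

/-- Near the singularity (Cauchy estimates in the ball of radius `|s| / 4`;
`‖w‖ ^ p ≤ 2 ^ |p| ‖s‖ ^ p` for `3/4 ‖s‖ ≤ ‖w‖ ≤ 5/4 ‖s‖`). -/
theorem TrD.near_bd (h : TrD d f r p A C) : ∃ M : ℝ, ∀ s : ℂ, 0 < s.re → ‖s‖ < 3 / 4 * r →
    ‖iteratedDeriv 2 f s‖ ≤ M * ‖s‖ ^ (p - 2) := by
  obtain ⟨g, hg, hgf, hgb⟩ := h.near
  refine ⟨32 * |C| * 2 ^ |p|, fun s hs hsr => ?_⟩
  have h0 : 0 < ‖s‖ := norm_pos_iff.2 fun h => by rw [h] at hs; simp at hs
  have hsS : s ∈ Sct r := (ball_sub hs hsr (by rw [sub_self, norm_zero]; positivity)).1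
  -- the function `H`
  have hHd : DifferentiableOn ℂ (fun w => g w - A) (Sct r) := fun w hw => (hg w hw).sub_const A
  have hcl : ∀ w ∈ Metric.closedBall s (‖s‖ / 4),
      w ∈ Sct r ∧ ‖w‖ ≤ 5 / 4 * ‖s‖ ∧ 3 / 4 * ‖s‖ ≤ ‖w‖ := by
    intro w hw
    refine ball_sub hs hsr ?_
    rw [← dist_eq_norm]
    exact Metric.mem_closedBall.1 hw
  have hD : DiffContOnCl ℂ (fun w => g w - A) (Metric.ball s (‖s‖ / 4)) := by
    refine DifferentiableOn.diffContOnCl (hHd.mono ?_)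
    refine (Metric.closure_ball_subset_closedBall).trans fun w hw => (hcl w hw).1
  have hb := Complex.norm_iteratedDeriv_le_of_forall_mem_sphere_norm_le 2
    (by positivity : 0 < ‖s‖ / 4) hD (C := |C| * (2 ^ |p| * ‖s‖ ^ p)) (by
      intro w hw
      have hw' := hcl w (Metric.sphere_subset_closedBall hw)
      refine (hgb w hw'.1).trans ?_
      calc C * ‖w‖ ^ p ≤ |C| * ‖w‖ ^ p := mul_le_mul_of_nonneg_right (le_abs_self C)
            (Real.rpow_nonneg (norm_nonneg _) _)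
        _ ≤ |C| * (2 ^ |p| * ‖s‖ ^ p) :=
            mul_le_mul_of_nonneg_left (rpow_cmp h0 hw'.2.1 hw'.2.2 p) (abs_nonneg C))
  have he : iteratedDeriv 2 (fun w => g w - A) s = iteratedDeriv 2 f s := by
    have hopen : ∀ᶠ w in 𝓝 s, w ∈ Sct r ∧ 0 < w.re :=
      Filter.Eventually.and ((isOpen_Sct r).mem_nhds hsS)
        ((isOpen_lt continuous_const Complex.continuous_re).mem_nhds hs)
    have h1 : (fun w => g w - A) =ᶠ[𝓝 s] fun w => f w - A := by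
      filter_upwards [hopen] with w hw
      rw [hgf w hw.1 hw.2]
    rw [h1.iteratedDeriv_eq 2, iteratedDeriv_succ, iteratedDeriv_one, iteratedDeriv_succ,
      iteratedDeriv_one]
    have h2 : deriv (fun w => f w - A) = deriv f := by
      funext w
      exact deriv_sub_const A
    rw [h2]
  rw [he] at hb
  refine hb.trans (le_of_eq ?_)
  have h5 : ‖s‖ ^ (p - 2) = ‖s‖ ^ p / ‖s‖ ^ 2 := by
    rw [← Real.rpow_natCast ‖s‖ 2, ← Real.rpow_sub h0]
    norm_num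
  rw [h5]
  have h6 : ‖s‖ ≠ 0 := h0.ne'
  simp only [Nat.factorial]
  field_simp
  push_cast
  ring

private theorem f2_diff (h : TrD d f r p A C) :
    DifferentiableOn ℂ (iteratedDeriv 2 f) {s | 0 < s.re} := by
  have ho : IsOpen {s : ℂ | 0 < s.re} := isOpen_lt continuous_const Complex.continuous_re
  have h1 : iteratedDeriv 2 f = deriv (deriv f) := by
    rw [iteratedDeriv_succ, iteratedDeriv_one]
  rw [h1]
  exact ((h.f_diff).deriv ho).deriv ho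

private theorem norm_line (n : ℕ) (φ : ℝ) :
    ‖((n : ℂ)⁻¹ + φ * I)‖ = √(((n : ℝ)⁻¹) ^ 2 + φ ^ 2) := by
  rw [show ((n : ℂ)⁻¹) = (((n : ℝ)⁻¹ : ℝ) : ℂ) by push_cast; rfl, Complex.norm_add_mul_I]

private theorem norm_line_rpow {n : ℕ} (hn : 0 < n) (φ p : ℝ) :
    ‖((n : ℂ)⁻¹ + φ * I)‖ ^ (p - 2) =
      (n : ℝ) ^ (2 - p) * (1 + ‖(n : ℝ) * φ‖ ^ 2) ^ (-(2 - p) / 2) := by
  have hn0 : (0 : ℝ) < n := by exact_mod_cast hn
  have h1 : ((n : ℝ)⁻¹) ^ 2 + φ ^ 2 = ((n : ℝ)⁻¹) ^ 2 * (1 + ‖(n : ℝ) * φ‖ ^ 2) := by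
    rw [Real.norm_eq_abs, sq_abs]
    field_simp
  have h2 : (0 : ℝ) ≤ 1 + ‖(n : ℝ) * φ‖ ^ 2 := by positivity
  rw [norm_line, h1, Real.sqrt_mul (by positivity), Real.sqrt_sq (by positivity),
    Real.mul_rpow (by positivity) (Real.sqrt_nonneg _), Real.inv_rpow hn0.le,
    ← Real.rpow_neg hn0.le, Real.sqrt_eq_rpow, ← Real.rpow_mul h2]
  congr 2
  · ring
  · ring

private theorem int_bd {p : ℝ} (hp : p < 1) : ∃ K : ℝ, 0 ≤ K ∧ ∀ n : ℕ, 0 < n → ∀ b : ℝ, 0 ≤ b →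
    ∫ φ in (-b)..b, ‖((n : ℂ)⁻¹ + φ * I)‖ ^ (p - 2) ≤ K * (n : ℝ) ^ (1 - p) := by
  have hi : Integrable (fun x : ℝ => (1 + ‖x‖ ^ 2) ^ (-(2 - p) / 2)) := by
    refine integrable_rpow_neg_one_add_norm_sq ?_
    rw [Module.finrank_self]
    push_cast
    linarith
  refine ⟨∫ x : ℝ, (1 + ‖x‖ ^ 2) ^ (-(2 - p) / 2),
    integral_nonneg fun x => by positivity, fun n hn b hb => ?_⟩
  have hn0 : (0 : ℝ) < n := by exact_mod_cast hn
  have hi2 : Integrable (fun φ : ℝ => (n : ℝ) ^ (2 - p) *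
      (1 + ‖(n : ℝ) * φ‖ ^ 2) ^ (-(2 - p) / 2)) :=
    (hi.comp_mul_left' hn0.ne').const_mul _
  rw [intervalIntegral.integral_of_le (by linarith)]
  calc ∫ φ in Ioc (-b) b, ‖((n : ℂ)⁻¹ + φ * I)‖ ^ (p - 2)
      = ∫ φ in Ioc (-b) b, (n : ℝ) ^ (2 - p) *
          (1 + ‖(n : ℝ) * φ‖ ^ 2) ^ (-(2 - p) / 2) := by
        refine integral_congr_ae (Eventually.of_forall fun φ => ?_)
        exact norm_line_rpow hn φ p
    _ ≤ ∫ φ : ℝ, (n : ℝ) ^ (2 - p) * (1 + ‖(n : ℝ) * φ‖ ^ 2) ^ (-(2 - p) / 2) := by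
        refine setIntegral_le_integral hi2 (Eventually.of_forall fun φ => ?_)
        simp only [Pi.zero_apply]
        positivity
    _ = (n : ℝ) ^ (2 - p) * ((n : ℝ)⁻¹ *
          ∫ x : ℝ, (1 + ‖x‖ ^ 2) ^ (-(2 - p) / 2)) := by
        rw [integral_const_mul, Measure.integral_comp_mul_left
          (fun x : ℝ => (1 + ‖x‖ ^ 2) ^ (-(2 - p) / 2)) (n : ℝ), abs_of_pos (by positivity),
          smul_eq_mul]
    _ = (∫ x : ℝ, (1 + ‖x‖ ^ 2) ^ (-(2 - p) / 2)) * (n : ℝ) ^ (1 - p) := by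
        have h3 : (n : ℝ) ^ (2 - p) = (n : ℝ) ^ (1 - p) * n := by
          rw [show 2 - p = (1 - p) + 1 by ring, Real.rpow_add hn0, Real.rpow_one]
        rw [h3]
        field_simp

/-- The bound for large `n`. -/
private theorem bd_large (h : TrD d f r p A C) : ∃ (M : ℝ) (n0 : ℕ), ∀ n ≥ n0,
    ‖(n : ℂ) ^ 2 * d n * exp (-1)‖ ≤ M * (n : ℝ) ^ (1 - p) := by
  obtain ⟨M₁, hM₁⟩ := h.near_bd
  obtain ⟨σ, M₂, hσ, hM₂⟩ := h.far_bd
  obtain ⟨K, hK0, hK⟩ := int_bd h.p_lt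
  have hr := h.r_pos
  have hr1 := h.r_le
  have hpi := Real.pi_gt_three
  obtain ⟨n0, hn0⟩ := exists_nat_gt (max (4 / r) (1 / σ))
  refine ⟨|M₁| * K + 2 * |M₂| * Real.pi, n0 + 1, fun n hn => ?_⟩
  have hnpos : 0 < n := by omega
  have hnr : (0 : ℝ) < n := by exact_mod_cast hnpos
  have hn1 : (1 : ℝ) ≤ n := by exact_mod_cast hnpos
  have hnn : (n0 : ℝ) ≤ n := by
    have : n0 ≤ n := by omega
    exact_mod_cast this
  have h4r : (n : ℝ)⁻¹ < r / 4 := by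
    have h1 : 4 / r < n := lt_of_le_of_lt (le_max_left _ _) (hn0.trans_le hnn)
    rw [div_lt_iff₀ hr] at h1
    rw [inv_lt_iff_one_lt_mul₀ hnr]
    linarith
  have hsig : (n : ℝ)⁻¹ < σ := by
    have h1 : 1 / σ < n := lt_of_le_of_lt (le_max_right _ _) (hn0.trans_le hnn)
    rw [div_lt_iff₀ hσ] at h1
    rw [inv_lt_iff_one_lt_mul₀ hnr]
    linarith
  have hinv : (0 : ℝ) < (n : ℝ)⁻¹ := inv_pos.2 hnr
  have hcast : ∀ φ : ℝ, ((n : ℂ)⁻¹ + φ * I) = (((n : ℝ)⁻¹ : ℝ) : ℂ) + φ * I := fun φ => by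
    push_cast
    rfl
  have hre : ∀ φ : ℝ, ((n : ℂ)⁻¹ + φ * I).re = (n : ℝ)⁻¹ := fun φ => by
    rw [hcast]
    simp
  have hex : ∀ φ : ℝ, ‖exp (n * φ * I)‖ = 1 := fun φ => by
    rw [show ((n : ℂ) * φ * I) = ((n * φ : ℝ) : ℂ) * I by push_cast; rfl]
    exact Complex.norm_exp_ofReal_mul_I _
  -- continuity
  have hline : Continuous fun φ : ℝ => ((n : ℂ)⁻¹ + φ * I) := by fun_prop
  have hF : Continuous fun φ : ℝ =>
      iteratedDeriv 2 f ((n : ℂ)⁻¹ + φ * I) * exp (n * φ * I) := by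
    refine Continuous.mul ?_ (by fun_prop)
    refine (f2_diff h).continuousOn.comp_continuous hline fun φ => ?_
    change 0 < ((n : ℂ)⁻¹ + φ * I).re
    rw [hre]
    exact hinv
  have hnorm : ∀ φ : ℝ, |φ| ≤ r / 2 → ‖((n : ℂ)⁻¹ + φ * I)‖ < 3 / 4 * r := by
    intro φ hφ
    have h1 := norm_add_le ((n : ℂ)⁻¹) (φ * I)
    rw [norm_mul, Complex.norm_I, mul_one, Complex.norm_real, norm_inv, Complex.norm_natCast,
      Real.norm_eq_abs] at h1
    linarith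
  have hne : ∀ φ : ℝ, ((n : ℂ)⁻¹ + φ * I) ≠ 0 := fun φ h0 => by
    have := hre φ
    rw [h0, Complex.zero_re] at this
    linarith
  have hFi : ∀ u v : ℝ, IntervalIntegrable (fun φ : ℝ =>
      iteratedDeriv 2 f ((n : ℂ)⁻¹ + φ * I) * exp (n * φ * I)) volume u v := fun u v =>
    hF.intervalIntegrable u v
  -- the decomposition
  have hdec : (n : ℂ) ^ 2 * d n * exp (-1) = (2 * Real.pi : ℂ)⁻¹ *
      ((∫ φ in (-Real.pi)..(-(r / 2)),
          iteratedDeriv 2 f ((n : ℂ)⁻¹ + φ * I) * exp (n * φ * I)) +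
        (∫ φ in (-(r / 2))..(r / 2),
          iteratedDeriv 2 f ((n : ℂ)⁻¹ + φ * I) * exp (n * φ * I)) +
        ∫ φ in (r / 2)..Real.pi,
          iteratedDeriv 2 f ((n : ℂ)⁻¹ + φ * I) * exp (n * φ * I)) := by
    rw [h.coeff_line hnpos,
      intervalIntegral.integral_add_adjacent_intervals (hFi (-Real.pi) (-(r / 2)))
        (hFi (-(r / 2)) (r / 2)),
      intervalIntegral.integral_add_adjacent_intervals (hFi (-Real.pi) (r / 2))
        (hFi (r / 2) Real.pi)]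
  have hb1 : ∀ φ : ℝ, r / 2 ≤ |φ| → |φ| ≤ Real.pi →
      ‖iteratedDeriv 2 f ((n : ℂ)⁻¹ + φ * I) * exp (n * φ * I)‖ ≤ |M₂| := by
    intro φ h1 h2
    rw [norm_mul, hex, mul_one, hcast]
    exact (hM₂ _ φ hinv hsig h1 h2).trans (le_abs_self _)
  have hI1 : ‖∫ φ in (-Real.pi)..(-(r / 2)),
      iteratedDeriv 2 f ((n : ℂ)⁻¹ + φ * I) * exp (n * φ * I)‖ ≤ |M₂| * Real.pi := by
    have h1 := intervalIntegral.norm_integral_le_of_norm_le_const (a := -Real.pi)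
      (b := -(r / 2)) (C := |M₂|) (f := fun φ : ℝ =>
        iteratedDeriv 2 f ((n : ℂ)⁻¹ + φ * I) * exp (n * φ * I)) (by
      intro φ hφ
      rw [uIoc_of_le (by linarith)] at hφ
      refine hb1 φ ?_ ?_
      · rw [abs_of_neg (by linarith [hφ.2])]
        linarith [hφ.2]
      · rw [abs_of_neg (by linarith [hφ.2])]
        linarith [hφ.1])
    refine h1.trans (mul_le_mul_of_nonneg_left ?_ (abs_nonneg _))
    rw [abs_of_nonneg (by linarith)]
    linarith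
  have hI3 : ‖∫ φ in (r / 2)..Real.pi,
      iteratedDeriv 2 f ((n : ℂ)⁻¹ + φ * I) * exp (n * φ * I)‖ ≤ |M₂| * Real.pi := by
    have h1 := intervalIntegral.norm_integral_le_of_norm_le_const (a := r / 2)
      (b := Real.pi) (C := |M₂|) (f := fun φ : ℝ =>
        iteratedDeriv 2 f ((n : ℂ)⁻¹ + φ * I) * exp (n * φ * I)) (by
      intro φ hφ
      rw [uIoc_of_le (by linarith)] at hφ
      refine hb1 φ ?_ ?_
      · rw [abs_of_pos (by linarith [hφ.1])]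
        linarith [hφ.1]
      · rw [abs_of_pos (by linarith [hφ.1])]
        linarith [hφ.2])
    refine h1.trans (mul_le_mul_of_nonneg_left ?_ (abs_nonneg _))
    rw [abs_of_nonneg (by linarith)]
    linarith
  have hI2 : ‖∫ φ in (-(r / 2))..(r / 2),
      iteratedDeriv 2 f ((n : ℂ)⁻¹ + φ * I) * exp (n * φ * I)‖ ≤
        |M₁| * (K * (n : ℝ) ^ (1 - p)) := by
    have hcont : Continuous fun φ : ℝ =>
        |M₁| * ‖((n : ℂ)⁻¹ + φ * I)‖ ^ (p - 2) := by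
      refine continuous_const.mul ?_
      refine hline.norm.rpow_const fun φ => ?_
      left
      exact norm_ne_zero_iff.2 (hne φ)
    have h1 := intervalIntegral.norm_integral_le_of_norm_le (a := -(r / 2)) (b := r / 2)
      (f := fun φ : ℝ => iteratedDeriv 2 f ((n : ℂ)⁻¹ + φ * I) * exp (n * φ * I))
      (g := fun φ : ℝ => |M₁| * ‖((n : ℂ)⁻¹ + φ * I)‖ ^ (p - 2)) (μ := volume)
      (by linarith) (Eventually.of_forall fun φ hφ => by
        rw [norm_mul, hex, mul_one]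
        have h2 : |φ| ≤ r / 2 := abs_le.2 ⟨hφ.1.le, hφ.2⟩
        refine (hM₁ _ (by rw [hre]; exact hinv) (hnorm φ h2)).trans ?_
        exact mul_le_mul_of_nonneg_right (le_abs_self _) (by positivity))
      (hcont.intervalIntegrable _ _)
    refine h1.trans ?_
    rw [intervalIntegral.integral_const_mul]
    exact mul_le_mul_of_nonneg_left (hK n hnpos (r / 2) (by linarith)) (abs_nonneg _)
  have hsq : 1 ≤ (n : ℝ) ^ (1 - p) := Real.one_le_rpow hn1 (by linarith [h.p_lt])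
  have h2pi : ‖(2 * Real.pi : ℂ)⁻¹‖ ≤ 1 := by
    rw [norm_inv, norm_mul, Complex.norm_real, Real.norm_eq_abs, abs_of_pos Real.pi_pos]
    refine inv_le_one_of_one_le₀ ?_
    rw [Complex.norm_ofNat]
    linarith
  rw [hdec, norm_mul]
  calc _ ≤ 1 * ((|M₂| * Real.pi + |M₁| * (K * (n : ℝ) ^ (1 - p))) + |M₂| * Real.pi) :=
        mul_le_mul h2pi ((norm_add_le _ _).trans (add_le_add ((norm_add_le _ _).trans
          (add_le_add hI1 hI2)) hI3)) (norm_nonneg _) zero_le_one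
    _ = |M₁| * K * (n : ℝ) ^ (1 - p) + 2 * |M₂| * Real.pi * 1 := by ring
    _ ≤ |M₁| * K * (n : ℝ) ^ (1 - p) + 2 * |M₂| * Real.pi * (n : ℝ) ^ (1 - p) := by
        refine add_le_add le_rfl (mul_le_mul_of_nonneg_left hsq (by positivity))
    _ = (|M₁| * K + 2 * |M₂| * Real.pi) * (n : ℝ) ^ (1 - p) := by ring

/-- `coeff_line`, `far_bd`, `near_bd`, and `∫ ‖1/n + i φ‖ ^ (p - 2) dφ ≤ K n ^ (1 - p)` since
`p - 2 < -1` (substitute `φ = x / n`, as `int_bd` in `KAsym/Remd.lean`). Finitely many small `n`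
by enlarging `M`. -/
theorem TrD.bd (h : TrD d f r p A C) : ∃ M : ℝ, ∀ n : ℕ, 1 ≤ n →
    |d n| ≤ M * (n : ℝ) ^ (-1 - p) := by
  obtain ⟨M, n0, hM⟩ := bd_large h
  set S : ℝ := ∑ k ∈ Finset.range n0, |d k| * (k : ℝ) ^ (1 + p) with hS
  have hSnn : ∀ k ∈ Finset.range n0, 0 ≤ |d k| * (k : ℝ) ^ (1 + p) := fun k _ => by positivity
  have hS0 : 0 ≤ S := Finset.sum_nonneg hSnn
  refine ⟨|M| * Real.exp 1 + S, fun n hn => ?_⟩
  have hnr : (0 : ℝ) < n := by exact_mod_cast hn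
  have hpow : 0 < (n : ℝ) ^ (-1 - p) := Real.rpow_pos_of_pos hnr _
  by_cases hlt : n < n0
  · have h1 : |d n| * (n : ℝ) ^ (1 + p) ≤ S :=
      Finset.single_le_sum hSnn (Finset.mem_range.2 hlt)
    have h2 : |d n| = |d n| * (n : ℝ) ^ (1 + p) * (n : ℝ) ^ (-1 - p) := by
      rw [mul_assoc, ← Real.rpow_add hnr, show 1 + p + (-1 - p) = 0 by ring, Real.rpow_zero,
        mul_one]
    have h3 : 0 ≤ |M| * Real.exp 1 := by positivity
    calc |d n| = |d n| * (n : ℝ) ^ (1 + p) * (n : ℝ) ^ (-1 - p) := h2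
      _ ≤ (|M| * Real.exp 1 + S) * (n : ℝ) ^ (-1 - p) :=
          mul_le_mul_of_nonneg_right (by linarith) hpow.le
  · have h1 := hM n (by omega)
    rw [norm_mul, norm_mul, norm_pow, Complex.norm_natCast, Complex.norm_real, Real.norm_eq_abs,
      show (-1 : ℂ) = ((-1 : ℝ) : ℂ) by push_cast; rfl, ← Complex.ofReal_exp, Complex.norm_real,
      Real.norm_eq_abs, Real.abs_exp] at h1
    have h2 : (n : ℝ) ^ (1 - p) = (n : ℝ) ^ 2 * (n : ℝ) ^ (-1 - p) := by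
      rw [← Real.rpow_natCast (n : ℝ) 2, ← Real.rpow_add hnr]
      congr 1
      push_cast
      ring
    have h3 : |d n| * ((n : ℝ) ^ 2 * Real.exp (-1)) ≤
        (M * Real.exp 1 * (n : ℝ) ^ (-1 - p)) * ((n : ℝ) ^ 2 * Real.exp (-1)) := by
      have e1 : Real.exp 1 * Real.exp (-1) = 1 := by
        rw [← Real.exp_add]
        simp
      calc |d n| * ((n : ℝ) ^ 2 * Real.exp (-1)) = (n : ℝ) ^ 2 * |d n| * Real.exp (-1) := by ring
        _ ≤ M * (n : ℝ) ^ (1 - p) := h1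
        _ = M * ((n : ℝ) ^ 2 * (n : ℝ) ^ (-1 - p)) * (Real.exp 1 * Real.exp (-1)) := by
            rw [h2, e1, mul_one]
        _ = _ := by ring
    have h4 : |d n| ≤ M * Real.exp 1 * (n : ℝ) ^ (-1 - p) :=
      le_of_mul_le_mul_right h3 (by positivity)
    refine h4.trans (mul_le_mul_of_nonneg_right ?_ hpow.le)
    have h5 : M * Real.exp 1 ≤ |M| * Real.exp 1 :=
      mul_le_mul_of_nonneg_right (le_abs_self M) (Real.exp_pos 1).le
    linarith

end Pool.Agent.KSlab
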