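import Pool.Agent.KSlab.WDefs

/-! SW1: the operators of admissible kernels. -/

set_option autoImplicit false

open Complex Set Filter Topology
open scoped ENNReal

namespace Pool.Agent.KSlab

namespace Slb

variable {I : Type} {κ : Slb I} {k k' : KF I}

private theorem wad_third : Real.exp (1 / 3) < 3 / 2 := by
  have h1 : Real.exp (1 / 3) ^ 3 = Real.exp 1 := by
    rw [← Real.exp_nat_mul]
    norm_num
  have h2 := Real.exp_one_lt_d9
  by_contra h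
  have h3 : (3 / 2 : ℝ) ^ 3 ≤ Real.exp (1 / 3) ^ 3 :=
    pow_le_pow_left₀ (by norm_num) (not_lt.1 h) 3
  rw [h1] at h3
  norm_num at h3
  linarith

private theorem wad_exp {s : ℂ} (hs : -(1 / 3) < s.re) (n : ℕ) :
    ‖exp (-n * s)‖ ≤ Real.exp (1 / 3) ^ n := by
  rw [Complex.norm_exp, ← Real.exp_nat_mul]
  apply Real.exp_le_exp.2
  have h1 : (-(n : ℂ) * s).re = -(n : ℝ) * s.re := by
    simp [Complex.mul_re]
  rw [h1]
  have h2 : (0 : ℝ) ≤ n := Nat.cast_nonneg n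
  nlinarith

private theorem wad_exp' {s : ℂ} (hs : -(1 / 3) < s.re) (n : ℕ) :
    ‖exp (-n * s)‖ ≤ (3 / 2) ^ n :=
  (wad_exp hs n).trans (pow_le_pow_left₀ (Real.exp_pos _).le wad_third.le n)

/-- Exchange of the sums. -/
private theorem wad_row {u : ℕ → XX I → ℂ} {v : ℕ → XX I → ℝ} {B : ℝ}
    (huv : ∀ n y, ‖u n y‖ ≤ v n y) (h1 : Summable fun p : ℕ × XX I => v p.1 p.2)
    (h2 : ∑' p : ℕ × XX I, v p.1 p.2 ≤ B) :
    (Summable fun p : ℕ × XX I => ‖u p.1 p.2‖) ∧ (∀ y, Summable fun n => u n y) ∧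
      (Summable fun y => ‖∑' n, u n y‖) ∧ ∑' y, ‖∑' n, u n y‖ ≤ B := by
  have h0 : Summable fun p : ℕ × XX I => ‖u p.1 p.2‖ :=
    Summable.of_nonneg_of_le (fun p => norm_nonneg _) (fun p => huv p.1 p.2) h1
  have h3 : Summable fun p : XX I × ℕ => ‖u p.2 p.1‖ := h0.prod_symm
  have h4 := (summable_prod_of_nonneg fun p : XX I × ℕ => norm_nonneg (u p.2 p.1)).1 h3
  have h5 : ∀ y, ‖∑' n, u n y‖ ≤ ∑' n, ‖u n y‖ := fun y => norm_tsum_le_tsum_norm (h4.1 y)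
  have h6 : Summable fun y => ‖∑' n, u n y‖ :=
    Summable.of_nonneg_of_le (fun y => norm_nonneg _) h5 h4.2
  refine ⟨h0, fun y => (h4.1 y).of_norm, h6, ?_⟩
  have h7 : ∑' y, ∑' n, ‖u n y‖ = ∑' p : ℕ × XX I, ‖u p.1 p.2‖ := by
    rw [← h3.tsum_prod]
    exact (Equiv.prodComm (XX I) ℕ).tsum_eq fun p : ℕ × XX I => ‖u p.1 p.2‖
  calc ∑' y, ‖∑' n, u n y‖ ≤ ∑' y, ∑' n, ‖u n y‖ := h6.tsum_le_tsum h5 h4.2
    _ = ∑' p : ℕ × XX I, ‖u p.1 p.2‖ := h7
    _ ≤ ∑' p : ℕ × XX I, v p.1 p.2 := h0.tsum_le_tsum (fun p => huv p.1 p.2) h1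
    _ ≤ B := h2

private theorem wad_term {a : ℝ} {s : ℂ} (hs : -(1 / 3) < s.re) (n : ℕ) :
    ‖(a : ℂ) * exp (-n * s)‖ ≤ (3 / 2) ^ n * |a| := by
  rw [norm_mul, Complex.norm_real, Real.norm_eq_abs, mul_comm]
  exact mul_le_mul_of_nonneg_right (wad_exp' hs n) (abs_nonneg _)

/-- All the sums at once. -/
private theorem wad_all {B : ℝ}
    (h : ∀ x, (Summable fun p : ℕ × XX I => (3 / 2) ^ p.1 * |k p.1 x p.2|) ∧
    ∑' p : ℕ × XX I, (3 / 2) ^ p.1 * |k p.1 x p.2| ≤ B ∧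
    (Summable fun p : ℕ × XX I => (3 / 2) ^ p.1 * |k p.1 p.2 x|) ∧
    ∑' p : ℕ × XX I, (3 / 2) ^ p.1 * |k p.1 p.2 x| ≤ B) {s : ℂ} (hs : -(1 / 3) < s.re) :
    (∀ x y, Summable fun n : ℕ => ((k n x y : ℝ) : ℂ) * exp (-n * s)) ∧ Sch (ks k s) B := by
  have h1 := fun x => wad_row (u := fun n y => ((k n x y : ℝ) : ℂ) * exp (-n * s))
    (v := fun n y => (3 / 2) ^ n * |k n x y|) (fun n y => wad_term hs n) (h x).1 (h x).2.1
  have h2 := fun y => wad_row (u := fun n x => ((k n x y : ℝ) : ℂ) * exp (-n * s))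
    (v := fun n x => (3 / 2) ^ n * |k n x y|) (fun n x => wad_term hs n) (h y).2.2.1 (h y).2.2.2
  exact ⟨fun x y => (h1 x).2.1 y, fun x => (h1 x).2.2.1, fun x => (h1 x).2.2.2,
    fun y => (h2 y).2.2.1, fun y => (h2 y).2.2.2⟩

private theorem wad_slice {u : ℕ → XX I → ℝ} {B : ℝ}
    (h1 : Summable fun p : ℕ × XX I => (3 / 2) ^ p.1 * |u p.1 p.2|)
    (h2 : ∑' p : ℕ × XX I, (3 / 2) ^ p.1 * |u p.1 p.2| ≤ B) (n : ℕ) :
    (Summable fun y => ‖((u n y : ℝ) : ℂ)‖) ∧ ∑' y, ‖((u n y : ℝ) : ℂ)‖ ≤ B * (2 / 3) ^ n := by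
  have hn : ∀ y, ‖((u n y : ℝ) : ℂ)‖ = |u n y| := fun y => by
    rw [Complex.norm_real, Real.norm_eq_abs]
  simp only [hn]
  have hi : Function.Injective fun y : XX I => ((n, y) : ℕ × XX I) := fun a b h =>
    (Prod.mk.inj h).2
  have h3 : Summable fun y => (3 / 2) ^ n * |u n y| := h1.comp_injective hi
  have hp : ((3 / 2 : ℝ)) ^ n ≠ 0 := by positivity
  have h4 : ∑' y, (3 / 2) ^ n * |u n y| ≤ ∑' p : ℕ × XX I, (3 / 2) ^ p.1 * |u p.1 p.2| :=
    Summable.tsum_le_tsum_of_inj _ hi (fun p _ => by positivity) (fun y => le_rfl) h3 h1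
  refine ⟨(summable_mul_left_iff hp).1 h3, ?_⟩
  rw [tsum_mul_left] at h4
  have h5 := h4.trans h2
  have h6 : (2 / 3 : ℝ) ^ n = ((3 / 2 : ℝ) ^ n)⁻¹ := by
    rw [← inv_pow]
    norm_num
  rw [h6, ← div_eq_mul_inv, le_div_iff₀ (by positivity), mul_comm]
  exact h5

private noncomputable def wad_ev (x : XX I) : EE I →L[ℂ] ℂ :=
  LinearMap.mkContinuous
    { toFun := fun f => f x
      map_add' := fun f g => by rw [lp.coeFn_add, Pi.add_apply]
      map_smul' := fun c f => by rw [lp.coeFn_smul, Pi.smul_apply, RingHom.id_apply] } 1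
    (fun f => by
      rw [one_mul]
      exact lp.norm_apply_le_norm (by norm_num) f x)

/-- `|exp (-n s)| ≤ exp (n / 3) ≤ (3/2) ^ n`; sum over `n` and `y`. -/
theorem Ad.sch (h : κ.Ad k) : ∃ B : ℝ, 0 ≤ B ∧ ∀ s : ℂ, -(1 / 3) < s.re →
    (∀ x y, Summable fun n : ℕ => ((k n x y : ℝ) : ℂ) * exp (-n * s)) ∧ Sch (ks k s) B := by
  obtain ⟨B, hB, h1⟩ := h.sum
  exact ⟨B, hB, fun s hs => wad_all h1 hs⟩

/-- The operator is the sum of the series `exp (-n s) • op (k n)`, where `‖op (k n)‖ ≤ B (2/3) ^ n`; compare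
`op_series` in `OpB.lean`; `exp (1/3) (2/3) < 1`. -/
theorem Ad.diff (h : κ.Ad k) : DifferentiableOn ℂ (kop k) {s | -(1 / 3) < s.re} := by
  obtain ⟨B, hB, h0⟩ := h.sum
  have hS : ∀ n, Sch (fun x y => ((k n x y : ℝ) : ℂ)) (B * (2 / 3) ^ n) := fun n =>
    ⟨fun x => (wad_slice (u := fun n y => k n x y) (h0 x).1 (h0 x).2.1 n).1,
      fun x => (wad_slice (u := fun n y => k n x y) (h0 x).1 (h0 x).2.1 n).2,
      fun y => (wad_slice (u := fun n x => k n x y) (h0 y).2.2.1 (h0 y).2.2.2 n).1,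
      fun y => (wad_slice (u := fun n x => k n x y) (h0 y).2.2.1 (h0 y).2.2.2 n).2⟩
  set F : ℕ → ℂ → (EE I →L[ℂ] EE I) := fun n s =>
    exp (-n * s) • op (fun x y => ((k n x y : ℝ) : ℂ)) with hF
  have hBn : ∀ n : ℕ, 0 ≤ B * (2 / 3) ^ n := fun n => by positivity
  have hr0 : 0 ≤ Real.exp (1 / 3) * (2 / 3) := by positivity
  have hr1 : Real.exp (1 / 3) * (2 / 3) < 1 := by linarith [wad_third]
  have hgeo : Summable fun n : ℕ => B * (Real.exp (1 / 3) * (2 / 3)) ^ n :=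
    (summable_geometric_of_lt_one hr0 hr1).mul_left B
  have hle : ∀ (n : ℕ) (s : ℂ), s ∈ {s : ℂ | -(1 / 3) < s.re} →
      ‖F n s‖ ≤ B * (Real.exp (1 / 3) * (2 / 3)) ^ n := by
    intro n s hs
    simp only [hF, norm_smul]
    calc ‖exp (-n * s)‖ * ‖op (fun x y => ((k n x y : ℝ) : ℂ))‖
        ≤ Real.exp (1 / 3) ^ n * (B * (2 / 3) ^ n) :=
          mul_le_mul (wad_exp hs n) (norm_op_le (hBn n) (hS n)) (norm_nonneg _) (by positivity)
      _ = B * (Real.exp (1 / 3) * (2 / 3)) ^ n := by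
          rw [mul_left_comm, ← mul_pow]
  have hopen : IsOpen {s : ℂ | -(1 / 3) < s.re} := isOpen_lt continuous_const continuous_re
  have hdiff := differentiableOn_tsum_of_summable_norm (F := F) hgeo (fun n => by
      apply DifferentiableOn.smul_const
      fun_prop) hopen hle
  refine hdiff.congr fun s hs => ?_
  have hs' : -(1 / 3) < s.re := hs
  have hsum : Summable fun n => F n s := Summable.of_norm_bounded hgeo fun n => hle n s hs
  ext g x
  have h1 := (wad_all h0 hs').2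
  unfold kop
  rw [op_apply hB h1]
  have h2 : HasSum (fun n => F n s g x) ((∑' n, F n s) g x) :=
    (hsum.hasSum.mapL (ContinuousLinearMap.apply ℂ (EE I) g)).mapL (wad_ev x)
  rw [← h2.tsum_eq]
  have h3 : ∀ n, F n s g x = ∑' y, ((k n x y : ℝ) : ℂ) * exp (-n * s) * g y := by
    intro n
    simp only [hF]
    rw [smul_apply, lp.coeFn_smul, Pi.smul_apply,
      op_apply (hBn n) (hS n), smul_eq_mul, ← tsum_mul_left]
    refine tsum_congr fun y => ?_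
    ring
  simp only [h3]
  have h4 : ∀ y, ks k s x y * g y =
      ∑' n : ℕ, ((k n x y : ℝ) : ℂ) * exp (-n * s) * g y := fun y => by
    unfold ks
    rw [tsum_mul_right]
  simp only [h4]
  have h5 := (wad_row (u := fun n y => ((k n x y : ℝ) : ℂ) * exp (-n * s))
    (v := fun n y => (3 / 2) ^ n * |k n x y|) (fun n y => wad_term hs' n) (h0 x).1
    (h0 x).2.1).1
  have h6 : Summable fun p : ℕ × XX I => ((k p.1 x p.2 : ℝ) : ℂ) * exp (-p.1 * s) * g p.2 := by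
    refine Summable.of_norm_bounded (h5.mul_right ‖g‖) fun p => ?_
    rw [norm_mul]
    exact mul_le_mul_of_nonneg_left (lp.norm_apply_le_norm (by norm_num) g p.2) (norm_nonneg _)
  exact Summable.tsum_comm (f := fun (n : ℕ) y => ((k n x y : ℝ) : ℂ) * exp (-n * s) * g y) h6

theorem Ad.apply (h : κ.Ad k) {s : ℂ} (hs : -(1 / 3) < s.re) (g : EE I) (x : XX I) :
    kop k s g x = ∑' y, ks k s x y * g y := by
  obtain ⟨B, hB, h1⟩ := h.sch
  exact op_apply hB (h1 s hs).2 g x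

/-- The rows of the dead states vanish. -/
theorem Ad.van (h : κ.Ad k) {s : ℂ} (hs : -(1 / 3) < s.re) (g : EE I) : κ.Van (kop k s g) := by
  intro x hx
  rw [h.apply hs]
  have h1 : ∀ y, ks k s x y = 0 := by
    intro y
    unfold ks
    simp only [h.dead_l _ x y hx, ofReal_zero, zero_mul, tsum_zero]
  simp only [h1, zero_mul, tsum_zero]

theorem Ad.norm_le (h : κ.Ad k) : ∃ B : ℝ, 0 ≤ B ∧ ∀ s : ℂ, -(1 / 3) < s.re → ∀ g : EE I,
    ‖kop k s g‖ ≤ B * ‖g‖ := by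
  obtain ⟨B, hB, h1⟩ := h.sch
  refine ⟨B, hB, fun s hs g => ?_⟩
  exact (ContinuousLinearMap.le_opNorm _ g).trans
    (mul_le_mul_of_nonneg_right (norm_op_le hB (h1 s hs).2) (norm_nonneg _))

private theorem wad_pow (n : ℕ) : (n : ℝ) * Real.exp (1 / 10) ^ n ≤ 3 * (3 / 2) ^ n := by
  have h1 : Real.exp (1 / 10) ≤ 10 / 9 := by
    have h2 := Real.add_one_le_exp (-(1 / 10) : ℝ)
    rw [Real.exp_neg] at h2
    have h3 := Real.exp_pos (1 / 10)
    have h4 : (Real.exp (1 / 10))⁻¹ * Real.exp (1 / 10) = 1 := inv_mul_cancel₀ h3.ne'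
    nlinarith
  have h2 : 1 + (n : ℝ) * (27 / 20 - 1) ≤ (27 / 20) ^ n := by
    have := one_add_mul_le_pow (a := (27 / 20 - 1 : ℝ)) (by norm_num) n
    have h3 : (1 + (27 / 20 - 1) : ℝ) = 27 / 20 := by norm_num
    rwa [h3] at this
  have h3 : (n : ℝ) ≤ 3 * (27 / 20) ^ n := by
    have h4 : (0 : ℝ) ≤ n := Nat.cast_nonneg n
    nlinarith
  calc (n : ℝ) * Real.exp (1 / 10) ^ n ≤ (3 * (27 / 20) ^ n) * (10 / 9) ^ n :=
        mul_le_mul h3 (pow_le_pow_left₀ (Real.exp_pos _).le h1 n) (by positivity) (by positivity)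
    _ = 3 * (3 / 2) ^ n := by
        rw [mul_assoc, ← mul_pow]
        norm_num

private theorem wad_diff {s : ℂ} (hs : ‖s‖ ≤ 1 / 10) (n : ℕ) :
    ‖exp (-n * s) - 1‖ ≤ 3 * (3 / 2) ^ n * ‖s‖ := by
  have h1 := Complex.norm_exp_sub_sum_le_norm_mul_exp (-n * s) 1
  rw [Finset.sum_range_one, pow_zero, Nat.factorial_zero, Nat.cast_one, div_one, pow_one] at h1
  have h2 : ‖-(n : ℂ) * s‖ = n * ‖s‖ := by
    rw [norm_mul, norm_neg, Complex.norm_natCast]
  rw [h2] at h1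
  have h3 : Real.exp (n * ‖s‖) ≤ Real.exp (1 / 10) ^ n := by
    rw [← Real.exp_nat_mul]
    exact Real.exp_le_exp.2 (mul_le_mul_of_nonneg_left hs (Nat.cast_nonneg n))
  calc ‖exp (-n * s) - 1‖ ≤ n * ‖s‖ * Real.exp (n * ‖s‖) := h1
    _ ≤ n * ‖s‖ * Real.exp (1 / 10) ^ n := mul_le_mul_of_nonneg_left h3 (by positivity)
    _ = (n * Real.exp (1 / 10) ^ n) * ‖s‖ := by ring
    _ ≤ 3 * (3 / 2) ^ n * ‖s‖ := mul_le_mul_of_nonneg_right (wad_pow n) (norm_nonneg _)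

private theorem wad_small {s : ℂ} (hs : ‖s‖ ≤ 1 / 10) : -(1 / 3) < s.re := by
  have h1 := (abs_le.1 (Complex.abs_re_le_norm s)).1
  linarith

/-- `|exp (-n s) - 1| ≤ n ‖s‖ exp (n ‖s‖) ≤ C (3/2) ^ n ‖s‖` for `‖s‖ ≤ 1/10`; `op_sub`, `norm_op_le`. -/
theorem Ad.near_zero (h : κ.Ad k) : ∃ C : ℝ, 0 ≤ C ∧ ∀ s : ℂ, ‖s‖ ≤ 1 / 10 → ∀ g : EE I,
    ‖kop k s g - kop k 0 g‖ ≤ C * ‖s‖ * ‖g‖ := by
  obtain ⟨B, hB, h0⟩ := h.sum
  refine ⟨3 * B, by positivity, fun s hs g => ?_⟩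
  have hz : ‖(0 : ℂ)‖ ≤ 1 / 10 := by rw [norm_zero]; norm_num
  have h1 := wad_all h0 (wad_small hs)
  have h2 := wad_all h0 (wad_small hz)
  have hk : ∀ x y, ks k s x y - ks k 0 x y =
      ∑' n : ℕ, ((k n x y : ℝ) : ℂ) * (exp (-n * s) - 1) := by
    intro x y
    unfold ks
    rw [← (h1.1 x y).tsum_sub (h2.1 x y)]
    refine tsum_congr fun n => ?_
    rw [mul_zero, Complex.exp_zero]
    ring
  have ht : ∀ (n : ℕ) (a : ℝ), ‖(a : ℂ) * (exp (-n * s) - 1)‖ ≤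
      3 * ‖s‖ * ((3 / 2) ^ n * |a|) := by
    intro n a
    rw [norm_mul, Complex.norm_real, Real.norm_eq_abs]
    calc |a| * ‖exp (-n * s) - 1‖ ≤ |a| * (3 * (3 / 2) ^ n * ‖s‖) :=
          mul_le_mul_of_nonneg_left (wad_diff hs n) (abs_nonneg _)
      _ = 3 * ‖s‖ * ((3 / 2) ^ n * |a|) := by ring
  have h3 : Sch (fun x y => ks k s x y - ks k 0 x y) (3 * B * ‖s‖) := by
    simp only [hk]
    have h4 := fun x => wad_row (u := fun n y => ((k n x y : ℝ) : ℂ) * (exp (-n * s) - 1))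
      (v := fun n y => 3 * ‖s‖ * ((3 / 2) ^ n * |k n x y|)) (B := 3 * B * ‖s‖)
      (fun n y => ht n _) ((h0 x).1.mul_left _) (by
        rw [tsum_mul_left]
        nlinarith [(h0 x).2.1, norm_nonneg s])
    have h5 := fun y => wad_row (u := fun n x => ((k n x y : ℝ) : ℂ) * (exp (-n * s) - 1))
      (v := fun n x => 3 * ‖s‖ * ((3 / 2) ^ n * |k n x y|)) (B := 3 * B * ‖s‖)
      (fun n y => ht n _) ((h0 y).2.2.1.mul_left _) (by
        rw [tsum_mul_left]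
        nlinarith [(h0 y).2.2.2, norm_nonneg s])
    exact ⟨fun x => (h4 x).2.2.1, fun x => (h4 x).2.2.2, fun y => (h5 y).2.2.1,
      fun y => (h5 y).2.2.2⟩
  have h6 : kop k s g - kop k 0 g = op (fun x y => ks k s x y - ks k 0 x y) g := by
    rw [(op_sub hB hB h1.2 h2.2).2]
    rfl
  rw [h6]
  exact (ContinuousLinearMap.le_opNorm _ g).trans
    (mul_le_mul_of_nonneg_right (norm_op_le (by positivity) h3) (norm_nonneg _))

/-- Differences. -/
theorem Ad.sub (h : κ.Ad k) (h' : κ.Ad k') (c : ℝ) :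
    κ.Ad (fun n x y => k n x y - c * k' n x y) ∧ ∀ s : ℂ, -(1 / 3) < s.re →
      kop (fun n x y => k n x y - c * k' n x y) s = kop k s - (c : ℂ) • kop k' s := by
  have hA : κ.Ad (fun n x y => k n x y - c * k' n x y) := by
    refine ⟨fun n x y hx => ?_, fun n x y hy => ?_, ?_⟩
    · rw [h.dead_l n x y hx, h'.dead_l n x y hx, mul_zero, sub_zero]
    · rw [h.dead_r n x y hy, h'.dead_r n x y hy, mul_zero, sub_zero]
    · obtain ⟨B, hB, h1⟩ := h.sum
      obtain ⟨B', hB', h1'⟩ := h'.sum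
      have key : ∀ u v : ℕ → XX I → ℝ,
          (Summable fun p : ℕ × XX I => (3 / 2) ^ p.1 * |u p.1 p.2|) →
          ∑' p : ℕ × XX I, (3 / 2) ^ p.1 * |u p.1 p.2| ≤ B →
          (Summable fun p : ℕ × XX I => (3 / 2) ^ p.1 * |v p.1 p.2|) →
          ∑' p : ℕ × XX I, (3 / 2) ^ p.1 * |v p.1 p.2| ≤ B' →
          (Summable fun p : ℕ × XX I => (3 / 2) ^ p.1 * |u p.1 p.2 - c * v p.1 p.2|) ∧
          ∑' p : ℕ × XX I, (3 / 2) ^ p.1 * |u p.1 p.2 - c * v p.1 p.2| ≤ B + |c| * B' := by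
        intro u v h2 h3 h4 h5
        have hle : ∀ p : ℕ × XX I, (3 / 2) ^ p.1 * |u p.1 p.2 - c * v p.1 p.2| ≤
            (3 / 2) ^ p.1 * |u p.1 p.2| + |c| * ((3 / 2) ^ p.1 * |v p.1 p.2|) := by
          intro p
          have h6 : |u p.1 p.2 - c * v p.1 p.2| ≤ |u p.1 p.2| + |c| * |v p.1 p.2| := by
            rw [← abs_mul]
            exact abs_sub _ _
          calc (3 / 2) ^ p.1 * |u p.1 p.2 - c * v p.1 p.2|
              ≤ (3 / 2) ^ p.1 * (|u p.1 p.2| + |c| * |v p.1 p.2|) :=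
                mul_le_mul_of_nonneg_left h6 (by positivity)
            _ = _ := by ring
        have h7 := h2.add (h4.mul_left |c|)
        have h8 : Summable fun p : ℕ × XX I => (3 / 2) ^ p.1 * |u p.1 p.2 - c * v p.1 p.2| :=
          Summable.of_nonneg_of_le (fun p => by positivity) hle h7
        refine ⟨h8, (h8.tsum_le_tsum hle h7).trans ?_⟩
        rw [h2.tsum_add (h4.mul_left |c|), tsum_mul_left]
        exact add_le_add h3 (mul_le_mul_of_nonneg_left h5 (abs_nonneg _))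
      refine ⟨B + |c| * B', by positivity, fun x => ?_⟩
      have h2 := key (fun n y => k n x y) (fun n y => k' n x y) (h1 x).1 (h1 x).2.1 (h1' x).1
        (h1' x).2.1
      have h3 := key (fun n y => k n y x) (fun n y => k' n y x) (h1 x).2.2.1 (h1 x).2.2.2
        (h1' x).2.2.1 (h1' x).2.2.2
      exact ⟨h2.1, h2.2, h3.1, h3.2⟩
  refine ⟨hA, fun s hs => ?_⟩
  obtain ⟨B, hB, h1⟩ := h.sch
  obtain ⟨B', hB', h1'⟩ := h'.sch
  ext g x
  rw [hA.apply hs]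
  have h2 : (kop k s - (c : ℂ) • kop k' s) g x = kop k s g x - (c : ℂ) * kop k' s g x := rfl
  rw [h2, h.apply hs, h'.apply hs, ← tsum_mul_left,
    ← (sch_summable (h1 s hs).2 g x).tsum_sub ((sch_summable (h1' s hs).2 g x).mul_left _)]
  refine tsum_congr fun y => ?_
  have h3 : ks (fun n x y => k n x y - c * k' n x y) s x y = ks k s x y - c * ks k' s x y := by
    unfold ks
    rw [← tsum_mul_left, ← ((h1 s hs).1 x y).tsum_sub (((h1' s hs).1 x y).mul_left _)]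
    refine tsum_congr fun n => ?_
    push_cast
    ring
  rw [h3]
  ring

/-- `bl_op`. -/
theorem Ad.bl (h : κ.Ad k) (hs : ∀ n x y, k n x y = k n y x) {s : ℂ} (hs' : -(1 / 3) < s.re)
    (f g : EE I) : ∑' x, f x * kop k s g x = ∑' x, kop k s f x * g x := by
  obtain ⟨B, hB, h1⟩ := h.sch
  refine bl_op hB (h1 s hs').2 (fun x y => ?_) f g
  unfold ks
  simp only [hs _ x y]

end Slb

end Pool.Agent.KSlab
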