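import Pool.Agent.KSlab.WDefs

/-! SW2: admissible caps. -/

set_option autoImplicit false

open Complex Set Filter Topology
open scoped ENNReal

namespace Pool.Agent.KSlab

namespace Slb

private theorem wv_two_pos : 0 < (2 : ℝ≥0∞).toReal := by norm_num

private theorem wv_mem {I : Type} {f : XX I → ℂ} {w : XX I → ℝ}
    (hw : Summable fun x => w x ^ (2 : ℝ)) (h : ∀ x, ‖f x‖ ≤ w x) : Memℓp f 2 := by
  apply memℓp_gen
  rw [ENNReal.toReal_ofNat]
  refine Summable.of_nonneg_of_le (fun x => by positivity) (fun x => ?_) hw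
  exact Real.rpow_le_rpow (norm_nonneg _) (h x) (by norm_num)

private theorem wv_norm {I : Type} {f w : EE I} {a : ℝ} (ha : 0 ≤ a)
    (h : ∀ x, ‖f x‖ ≤ a * ‖w x‖) : ‖f‖ ≤ a * ‖w‖ := by
  apply lp.norm_le_of_tsum_le wv_two_pos (by positivity)
  rw [Real.mul_rpow ha (norm_nonneg _), lp.norm_rpow_eq_tsum wv_two_pos, ← tsum_mul_left]
  have hs := (lp.memℓp w).summable wv_two_pos
  refine Summable.tsum_le_tsum (fun x => ?_) ((lp.memℓp f).summable wv_two_pos) (hs.mul_left _)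
  rw [← Real.mul_rpow ha (norm_nonneg _)]
  exact Real.rpow_le_rpow (norm_nonneg _) (h x) wv_two_pos.le

private theorem wv_exp {s : ℂ} (hs : -(1 / 3) < s.re) (n : ℕ) :
    ‖exp (-n * s)‖ ≤ Real.exp (1 / 3) ^ n := by
  rw [Complex.norm_exp, ← Real.exp_nat_mul]
  apply Real.exp_le_exp.2
  have h1 : (-(n : ℂ) * s).re = -(n : ℝ) * s.re := by
    simp [Complex.mul_re]
  rw [h1]
  have h2 : (0 : ℝ) ≤ n := Nat.cast_nonneg n
  nlinarith

private theorem wv_le : Real.exp (1 / 3) < 3 / 2 := by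
  by_contra h
  push Not at h
  have h1 : Real.exp (1 / 3) ^ 3 = Real.exp 1 := by
    rw [← Real.exp_nat_mul]
    norm_num
  have h2 := Real.exp_one_lt_d9
  have h3 := pow_le_pow_left₀ (by norm_num) h 3
  rw [h1] at h3
  norm_num at h3
  linarith

private theorem wv_geo : Summable (fun n : ℕ => (Real.exp (1 / 3) * (2 / 3)) ^ n) := by
  have h1 := wv_le
  refine summable_geometric_of_lt_one (by positivity) ?_
  linarith

private noncomputable def wv_ev {I : Type} (x : XX I) : EE I →L[ℂ] ℂ :=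
  LinearMap.mkContinuous
    { toFun := fun f => f x
      map_add' := fun f g => by rw [lp.coeFn_add, Pi.add_apply]
      map_smul' := fun c f => by rw [lp.coeFn_smul, Pi.smul_apply, RingHom.id_apply] } 1
    (fun f => by
      rw [one_mul]
      exact lp.norm_apply_le_norm (by norm_num) f x)

variable {I : Type} [Fintype I] {κ : Slb I} {a : VF I}

private theorem wv_sum : Summable fun x : XX I => ((1 / 4 : ℝ) ^ x.1.natAbs) ^ (2 : ℝ) := by
  have h1 : Summable fun t : ℤ => ((1 / 4 : ℝ) ^ t.natAbs) ^ (2 : ℝ) := by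
    have h2 : Summable fun n : ℕ => ((1 / 4 : ℝ) ^ n) ^ (2 : ℝ) := by
      have h3 : ∀ n : ℕ, ((1 / 4 : ℝ) ^ n) ^ (2 : ℝ) = (1 / 16) ^ n := by
        intro n
        rw [Real.rpow_ofNat, ← pow_mul, mul_comm n 2, pow_mul]
        norm_num
      simp only [h3]
      exact summable_geometric_of_lt_one (by norm_num) (by norm_num)
    apply Summable.of_nat_of_neg
    · simpa using h2
    · simpa using h2
  refine (summable_prod_of_nonneg fun p => by positivity).2 ⟨fun t => Summable.of_finite, ?_⟩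
  simp only [tsum_fintype, Finset.sum_const, nsmul_eq_mul]
  exact h1.mul_left _

private theorem wv_sumC (b : ℝ) (hb : 0 ≤ b) :
    Summable fun x : XX I => (b * (1 / 4 : ℝ) ^ x.1.natAbs) ^ (2 : ℝ) := by
  have h1 := (wv_sum (I := I)).mul_left (b ^ (2 : ℝ))
  refine h1.congr fun x => ?_
  rw [Real.mul_rpow hb (by positivity)]

/-- `|exp (-n s)| ≤ exp (n / 3) ≤ (3/2) ^ n`. -/
theorem Cp.bound (h : κ.Cp a) : ∃ C : ℝ, 0 ≤ C ∧ ∀ s : ℂ, -(1 / 3) < s.re → ∀ x : XX I,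
    (Summable fun n : ℕ => ((a n x : ℝ) : ℂ) * exp (-n * s)) ∧
    ‖vs a s x‖ ≤ C * (1 / 4) ^ x.1.natAbs ∧ (¬ κ.Al x → vs a s x = 0) := by
  obtain ⟨C, hC0, hC⟩ := h.sum
  refine ⟨C, hC0, fun s hs x => ?_⟩
  have hb : ∀ n : ℕ, ‖((a n x : ℝ) : ℂ) * exp (-n * s)‖ ≤ (3 / 2) ^ n * a n x := by
    intro n
    rw [norm_mul, Complex.norm_real, Real.norm_of_nonneg (h.nn n x), mul_comm]
    exact mul_le_mul_of_nonneg_right ((wv_exp hs n).trans
      (pow_le_pow_left₀ (Real.exp_pos _).le wv_le.le n)) (h.nn n x)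
  refine ⟨Summable.of_norm_bounded (hC x).1 hb, ?_, fun hx => ?_⟩
  · exact (tsum_of_norm_bounded (hC x).1.hasSum hb).trans (hC x).2
  · unfold vs
    have h1 : (fun n : ℕ => ((a n x : ℝ) : ℂ) * exp (-n * s)) = fun _ => 0 := by
      funext n
      rw [h.dead n x hx, ofReal_zero, zero_mul]
    rw [h1, tsum_zero]

theorem Cp.mem (h : κ.Cp a) {s : ℂ} (hs : -(1 / 3) < s.re) : Memℓp (vs a s) 2 := by
  obtain ⟨C, hC0, hC⟩ := h.bound
  exact wv_mem (wv_sumC C hC0) fun x => (hC s hs x).2.1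

theorem Cp.van (h : κ.Cp a) {s : ℂ} (hs : -(1 / 3) < s.re) : κ.Van (toE (vs a s)) := by
  intro x hx
  obtain ⟨C, _, hC⟩ := h.bound
  rw [toE_apply (h.mem hs)]
  exact (hC s hs x).2.2 hx

/-- As `vec_series` in `OpB.lean`, with `3/2` in the place of `2`. -/
theorem Cp.diff (h : κ.Cp a) :
    DifferentiableOn ℂ (fun s : ℂ => toE (vs a s)) {s | -(1 / 3) < s.re} := by
  obtain ⟨C, hC0, hC⟩ := h.sum
  have hcn : ∀ (n : ℕ) (x : XX I), a n x ≤ (C * (2 / 3) ^ n) * (1 / 4) ^ x.1.natAbs := by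
    intro n x
    have h1 : (3 / 2) ^ n * a n x ≤ C * (1 / 4) ^ x.1.natAbs :=
      ((hC x).1.le_tsum n fun m _ => mul_nonneg (by positivity) (h.nn m x)).trans (hC x).2
    have h2 : a n x = (2 / 3) ^ n * ((3 / 2) ^ n * a n x) := by
      rw [← mul_assoc, ← mul_pow]
      norm_num
    rw [h2]
    calc (2 / 3) ^ n * ((3 / 2) ^ n * a n x) ≤ (2 / 3) ^ n * (C * (1 / 4) ^ x.1.natAbs) :=
          mul_le_mul_of_nonneg_left h1 (by positivity)
      _ = _ := by ring
  have hmw : Memℓp (fun x : XX I => (((1 / 4 : ℝ) ^ x.1.natAbs : ℝ) : ℂ)) 2 := by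
    refine wv_mem wv_sum fun x => ?_
    rw [Complex.norm_real, Real.norm_of_nonneg (by positivity)]
  set W : EE I := toE fun x : XX I => (((1 / 4 : ℝ) ^ x.1.natAbs : ℝ) : ℂ) with hW
  have hWx : ∀ x, ‖W x‖ = (1 / 4 : ℝ) ^ x.1.natAbs := by
    intro x
    rw [hW, toE_apply hmw, Complex.norm_real, Real.norm_of_nonneg (by positivity)]
  have hmc : ∀ n, Memℓp (fun x : XX I => ((a n x : ℝ) : ℂ)) 2 := by
    intro n
    refine wv_mem (wv_sumC (C * (2 / 3) ^ n) (by positivity)) fun x => ?_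
    rw [Complex.norm_real, Real.norm_of_nonneg (h.nn n x)]
    exact hcn n x
  have hnc : ∀ n, ‖(toE (fun x : XX I => ((a n x : ℝ) : ℂ)) : EE I)‖ ≤
      (C * (2 / 3) ^ n) * ‖W‖ := by
    intro n
    refine wv_norm (by positivity) fun x => ?_
    rw [toE_apply (hmc n), Complex.norm_real, Real.norm_of_nonneg (h.nn n x), hWx]
    exact hcn n x
  set F : ℕ → ℂ → EE I := fun n s => exp (-n * s) • toE (fun x : XX I => ((a n x : ℝ) : ℂ))
    with hF
  have hle : ∀ (n : ℕ) (s : ℂ), s ∈ {s : ℂ | -(1 / 3) < s.re} →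
      ‖F n s‖ ≤ (C * ‖W‖) * (Real.exp (1 / 3) * (2 / 3)) ^ n := by
    intro n s hs
    simp only [hF, norm_smul]
    calc ‖exp (-n * s)‖ * ‖(toE (fun x : XX I => ((a n x : ℝ) : ℂ)) : EE I)‖
        ≤ Real.exp (1 / 3) ^ n * ((C * (2 / 3) ^ n) * ‖W‖) :=
          mul_le_mul (wv_exp hs n) (hnc n) (norm_nonneg _) (by positivity)
      _ = (C * ‖W‖) * (Real.exp (1 / 3) * (2 / 3)) ^ n := by
          rw [mul_pow]
          ring
  have hopen : IsOpen {s : ℂ | -(1 / 3) < s.re} := isOpen_lt continuous_const continuous_re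
  have hdiff := differentiableOn_tsum_of_summable_norm (F := F)
    (wv_geo.mul_left (C * ‖W‖)) (fun n => by
      apply DifferentiableOn.smul_const
      fun_prop) hopen hle
  refine hdiff.congr fun s hs => ?_
  have hsum : Summable fun n => F n s :=
    Summable.of_norm_bounded (wv_geo.mul_left (C * ‖W‖)) fun n => hle n s hs
  ext x
  rw [toE_apply (h.mem hs)]
  have h2 : HasSum (fun n => F n s x) ((∑' n, F n s) x) := hsum.hasSum.mapL (wv_ev x)
  rw [← h2.tsum_eq]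
  unfold vs
  refine tsum_congr fun n => ?_
  simp only [hF]
  rw [lp.coeFn_smul, Pi.smul_apply, toE_apply (hmc n), smul_eq_mul, mul_comm]

/-- The caps are localised: `low_loc` (with `r = 1/4`). -/
theorem Cp.loc (hκ : κ.Ok) (h : κ.Cp a) : ∃ C : ℝ, 0 ≤ C ∧ ∀ s : ℂ, -(1 / 3) < s.re →
    ∀ f : EE I, κ.Van f → ‖∑' x, vs a s x * f x‖ ≤ C * Real.sqrt (κ.EF f) := by
  obtain ⟨C, hC0, hC⟩ := h.bound
  obtain ⟨C', hC'0, hC'⟩ := hκ.low_loc (r := 1 / 4) (by norm_num) (by norm_num)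
  refine ⟨C * C', by positivity, fun s hs f hf => ?_⟩
  obtain ⟨g1, g2⟩ := hC' f (hκ.fin_E f) hf
  have hterm : ∀ x, ‖vs a s x * f x‖ ≤ C * ((1 / 4) ^ x.1.natAbs * ‖f x‖) := by
    intro x
    rw [norm_mul, ← mul_assoc]
    exact mul_le_mul_of_nonneg_right (hC s hs x).2.1 (norm_nonneg _)
  refine (tsum_of_norm_bounded (g1.mul_left C).hasSum hterm).trans ?_
  rw [tsum_mul_left, mul_assoc]
  exact mul_le_mul_of_nonneg_left g2 hC0

end Slb

end Pool.Agent.KSlab
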