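import Pool.Agent.KSlab.WAd
import Pool.Agent.KSlab.WVec

/-! SW4: the words are analytic. -/

set_option autoImplicit false

open Complex Set Filter Topology
open scoped ENNReal

namespace Pool.Agent.KSlab

namespace Slb

variable {I : Type} [Fintype I] {κ : Slb I}

theorem Ok.regW_open (hκ : κ.Ok) : IsOpen κ.RegW :=
  hκ.reg_open.inter (isOpen_lt continuous_const Complex.continuous_re)

theorem Ok.sec_regW (hκ : κ.Ok) : κ.Sec ⊆ κ.RegW := by
  intro s hs
  refine ⟨hκ.sec_reg hs, ?_⟩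
  obtain ⟨_, h1, h2⟩ := hs
  have h3 := hκ.z_le
  have h4 : 40 * κ.z ≤ 1 / 10 := by
    have : (40 : ℝ) * (1 / 10 ^ 12) ≤ 1 / 10 := by norm_num
    linarith
  linarith

theorem Ok.half_regW (hκ : κ.Ok) : {s : ℂ | 0 < s.re} ⊆ κ.RegW := by
  intro s hs
  have hs' : 0 < s.re := hs
  exact ⟨hκ.half_reg hs, by linarith⟩

/-- In `Far` one has `re s > - log (11/10) > - 1/3`. -/
theorem Ok.far_regW (hκ : κ.Ok) : κ.Far ⊆ κ.RegW := by
  intro s hs
  refine ⟨hκ.far_reg hs, ?_⟩
  have h1 : ‖exp (-s)‖ < 11 / 10 := hs.1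
  rw [Complex.norm_exp, Complex.neg_re] at h1
  have h2 := Real.add_one_le_exp (-s.re)
  linarith

/-- The resolvent: `GS s l = l + KS s (GS s l)`; it vanishes at the dead states if `l` does (`Ks_dead`). -/
theorem Ok.GS_van (hκ : κ.Ok) {s : ℂ} (hs : s ∈ κ.Reg) (l : EE I) :
    κ.GS s l = l + κ.KS s (κ.GS s l) ∧ (κ.Van l → κ.Van (κ.GS s l)) := by
  have h1 : (1 - κ.KS s) * κ.GS s = 1 := Ring.mul_inverse_cancel _ hs.2
  have h2 : κ.GS s l = l + κ.KS s (κ.GS s l) := by
    have h3 : ((1 - κ.KS s) * κ.GS s) l = l := by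
      rw [h1]; rfl
    rw [ContinuousLinearMap.mul_apply, ContinuousLinearMap.sub_apply,
      ContinuousLinearMap.one_apply] at h3
    exact sub_eq_iff_eq_add.mp h3
  refine ⟨h2, fun hl x hx => ?_⟩
  rw [h2, lp.coeFn_add, Pi.add_apply, hκ.KS_apply hs.1, hl x hx, zero_add]
  have : (fun y => κ.Ks s x y * (κ.GS s l) y) = fun _ => 0 := by
    funext y
    rw [hκ.Ks_dead s hx, zero_mul]
  rw [this, tsum_zero]

/-- The resolvent is symmetric: `KS s` is (`bl_op`), so
`∑ f (GS g) = ∑ ((1 - KS) GS f) (GS g) = ∑ (GS f) ((1 - KS) GS g) = ∑ (GS f) g`. -/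
theorem Ok.GS_bl (hκ : κ.Ok) {s : ℂ} (hs : s ∈ κ.Reg) (f g : EE I) :
    ∑' x, f x * κ.GS s g x = ∑' x, κ.GS s f x * g x := by
  obtain ⟨F, hF⟩ : ∃ F, F = κ.GS s f := ⟨_, rfl⟩
  obtain ⟨G, hG⟩ : ∃ G, G = κ.GS s g := ⟨_, rfl⟩
  have h1 : F = f + κ.KS s F := by
    rw [hF]
    exact (hκ.GS_van hs f).1
  have h2 : G = g + κ.KS s G := by
    rw [hG]
    exact (hκ.GS_van hs g).1
  have h3 : ∑' x, F x * κ.KS s G x = ∑' x, κ.KS s F x * G x :=
    bl_op (by norm_num) (hκ.sch_Ks hs.1) (hκ.Ks_symm s) F G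
  have h4 : ∑' x, F x * G x = ∑' x, f x * G x + ∑' x, κ.KS s F x * G x := by
    rw [← (bl_summable f G).tsum_add (bl_summable (κ.KS s F) G)]
    refine tsum_congr fun x => ?_
    have h5 : F x = f x + κ.KS s F x := by
      conv_lhs => rw [h1]
      rfl
    rw [h5]
    ring
  have h6 : ∑' x, F x * G x = ∑' x, F x * g x + ∑' x, F x * κ.KS s G x := by
    rw [← (bl_summable F g).tsum_add (bl_summable F (κ.KS s G))]
    refine tsum_congr fun x => ?_
    have h5 : G x = g x + κ.KS s G x := by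
      conv_lhs => rw [h2]
      rfl
    rw [h5]
    ring
  rw [← hF, ← hG]
  rw [h4, h3] at h6
  exact add_right_cancel h6

theorem Ok.AW_van (hκ : κ.Ok) {w : List (KF I)} {a : VF I} (hw : ∀ k ∈ w, κ.Ad k)
    (ha : κ.Cp a) {s : ℂ} (hs : s ∈ κ.RegW) : κ.Van (κ.AW s w a) := by
  cases w with
  | nil => exact (hκ.GS_van hs.1 _).2 (ha.van hs.2)
  | cons k w => exact (hκ.GS_van hs.1 _).2 ((hw k List.mem_cons_self).van hs.2 _)

private theorem wan_GS_diff (hκ : κ.Ok) : DifferentiableOn ℂ (fun s : ℂ => κ.GS s) κ.RegW := by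
  have hsub : κ.Reg ⊆ {s : ℂ | -(1 / 2) < s.re} := fun s hs => hs.1
  have hK : DifferentiableOn ℂ (fun s => (1 : EE I →L[ℂ] EE I) - κ.KS s) κ.Reg :=
    (differentiableOn_const _).sub (hκ.KS_diff.mono hsub)
  exact (inverse_diff hκ.reg_open hK fun s hs => hs.2).mono fun s hs => hs.1

/-- Induction on the word; `inverse_diff` (see `U1_diff` in `Gen.lean`), `Ad.diff`, `Cp.diff`. -/
theorem Ok.AW_diff (hκ : κ.Ok) {w : List (KF I)} {a : VF I} (hw : ∀ k ∈ w, κ.Ad k)
    (ha : κ.Cp a) : DifferentiableOn ℂ (fun s => κ.AW s w a) κ.RegW := by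
  induction w with
  | nil => exact (wan_GS_diff hκ).clm_apply (ha.diff.mono fun s hs => hs.2)
  | cons k w ih =>
    exact (wan_GS_diff hκ).clm_apply
      (((hw k List.mem_cons_self).diff.mono fun s hs => hs.2).clm_apply
        (ih fun k' hk' => hw k' (List.mem_cons_of_mem _ hk')))

/-- The bilinear pairing as a continuous bilinear map. -/
private noncomputable def wanB : EE I →L[ℂ] EE I →L[ℂ] ℂ :=
  LinearMap.mkContinuous₂
    (LinearMap.mk₂ ℂ (fun f g : EE I => ∑' x, f x * g x)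
      (fun f f' g => by
        rw [← (bl_summable f g).tsum_add (bl_summable f' g)]
        refine tsum_congr fun x => ?_
        rw [lp.coeFn_add, Pi.add_apply]; ring)
      (fun a f g => by
        rw [smul_eq_mul, ← tsum_mul_left]
        refine tsum_congr fun x => ?_
        rw [lp.coeFn_smul, Pi.smul_apply, smul_eq_mul]; ring)
      (fun f g g' => by
        rw [← (bl_summable f g).tsum_add (bl_summable f g')]
        refine tsum_congr fun x => ?_
        rw [lp.coeFn_add, Pi.add_apply]; ring)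
      (fun a f g => by
        rw [smul_eq_mul, ← tsum_mul_left]
        refine tsum_congr fun x => ?_
        rw [lp.coeFn_smul, Pi.smul_apply, smul_eq_mul]; ring))
    1 (fun f g => by
      rw [one_mul]
      exact norm_bl_le f g)

omit [Fintype I] in
private theorem wanB_apply (f g : EE I) : wanB f g = ∑' x, f x * g x := rfl

theorem Ok.FW_diff (hκ : κ.Ok) {w : List (KF I)} {a b : VF I} (hw : ∀ k ∈ w, κ.Ad k)
    (ha : κ.Cp a) (hb : κ.Cp b) : DifferentiableOn ℂ (fun s => κ.FW s b w a) κ.RegW := by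
  have hB : DifferentiableOn ℂ (fun s : ℂ => wanB (toE (vs b s)) (κ.AW s w a)) κ.RegW :=
    (wanB.differentiable.comp_differentiableOn (hb.diff.mono fun s hs => hs.2)).clm_apply
      (hκ.AW_diff hw ha)
  refine hB.congr fun s hs => ?_
  rw [wanB_apply]
  unfold Slb.FW
  refine tsum_congr fun x => ?_
  rw [toE_apply (hb.mem hs.2)]

/-- The words with the first resolvent moved to the cap `b`: `GS_bl`. -/
theorem Ok.FW_cons (hκ : κ.Ok) {k : KF I} {w : List (KF I)} {a b : VF I} (hk : κ.Ad k)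
    (hw : ∀ k ∈ w, κ.Ad k) (ha : κ.Cp a) (hb : κ.Cp b) {s : ℂ} (hs : s ∈ κ.RegW) :
    κ.FW s b (k :: w) a = ∑' x, κ.AW s [] b x * kop k s (κ.AW s w a) x := by
  have h := hκ.GS_bl hs.1 (toE (vs b s)) (kop k s (κ.AW s w a))
  unfold Slb.FW
  refine Eq.trans ?_ h
  refine tsum_congr fun x => ?_
  rw [toE_apply (hb.mem hs.2)]
  rfl

private noncomputable def wanT (κ : Slb I) (k : KF I) (s : ℂ) : ℕ → EE I → EE I
  | 0, f => κ.GS s f
  | m + 1, f => κ.GS s (kop k s (wanT κ k s m f))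

omit [Fintype I] in
private theorem wanT_succ (κ : Slb I) (k : KF I) (s : ℂ) (m : ℕ) (f : EE I) :
    wanT κ k s (m + 1) f = wanT κ k s m (kop k s (κ.GS s f)) := by
  induction m with
  | zero => rfl
  | succ m ih =>
    change κ.GS s (kop k s (wanT κ k s (m + 1) f)) = _
    rw [ih]
    rfl

omit [Fintype I] in
private theorem wanT_AW (κ : Slb I) (k : KF I) (s : ℂ) (m : ℕ) (a : VF I) :
    κ.AW s (List.replicate m k) a = wanT κ k s m (toE (vs a s)) := by
  induction m with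
  | zero => rfl
  | succ m ih =>
    rw [List.replicate_succ]
    change κ.GS s (kop k s (κ.AW s (List.replicate m k) a)) = _
    rw [ih]
    rfl

private theorem wanT_bl (hκ : κ.Ok) {k : KF I} (hk : κ.Ad k)
    (hk' : ∀ n x y, k n x y = k n y x) {s : ℂ} (hs : s ∈ κ.RegW) (m : ℕ) (f g : EE I) :
    ∑' x, f x * wanT κ k s m g x = ∑' x, wanT κ k s m f x * g x := by
  induction m generalizing f with
  | zero => exact hκ.GS_bl hs.1 f g
  | succ m ih =>
    change ∑' x, f x * κ.GS s (kop k s (wanT κ k s m g)) x = _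
    rw [hκ.GS_bl hs.1, hk.bl hk' hs.2, ih, wanT_succ]

/-- Transposition of the words of symmetric kernels. -/
theorem Ok.FW_rev (hκ : κ.Ok) {k : KF I} {a b : VF I} (hk : κ.Ad k)
    (hk' : ∀ n x y, k n x y = k n y x) (m : ℕ) (ha : κ.Cp a) (hb : κ.Cp b) {s : ℂ}
    (hs : s ∈ κ.RegW) :
    κ.FW s b (List.replicate m k) a = κ.FW s a (List.replicate m k) b := by
  have h := wanT_bl hκ hk hk' hs m (toE (vs b s)) (toE (vs a s))
  unfold Slb.FW
  rw [wanT_AW, wanT_AW]
  have h1 : ∑' x, vs b s x * wanT κ k s m (toE (vs a s)) x =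
      ∑' x, (toE (vs b s) : EE I) x * wanT κ k s m (toE (vs a s)) x :=
    tsum_congr fun x => by rw [toE_apply (hb.mem hs.2)]
  rw [h1, h]
  exact tsum_congr fun x => by rw [toE_apply (ha.mem hs.2), mul_comm]

end Slb

end Pool.Agent.KSlab
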