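import Pool.Agent.KSlab.WDefs

/-! SW3: the kernel weighted by the size is admissible. -/

set_option autoImplicit false

open Complex Set Filter Topology
open scoped ENNReal

namespace Pool.Agent.KSlab

namespace Slb

variable {I : Type} [Fintype I] {κ : Slb I}

private theorem wd_row (hκ : κ.Ok) (x : XX I) :
    ∑' p : ℕ × XX I, 2 ^ p.1 * κ.k p.1 x p.2 ≤ 5 := by
  classical
  have h1 : ∀ p : ℕ × XX I, 2 ^ p.1 * κ.k p.1 x p.2 ≤
      (if p = (2, x) then 4 else 0) + (if 3 ≤ p.1 then 2 ^ p.1 * κ.k p.1 x p.2 else 0) := by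
    rintro ⟨n, y⟩
    by_cases hn : 3 ≤ n
    · rw [if_pos hn]
      have h0 : (0 : ℝ) ≤ if ((n, y) : ℕ × XX I) = (2, x) then 4 else 0 := by
        split_ifs <;> norm_num
      linarith
    · rw [if_neg hn, add_zero, hκ.k_low n x y (by omega)]
      by_cases h2 : n = 2 ∧ x = y ∧ κ.Al x
      · obtain ⟨rfl, rfl, h3⟩ := h2
        rw [if_pos ⟨rfl, rfl, h3⟩, if_pos rfl]
        have := hκ.q_le
        norm_num
        linarith
      · rw [if_neg h2, mul_zero]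
        split_ifs <;> norm_num
  have h0 : ∀ p : ℕ × XX I, 0 ≤ 2 ^ p.1 * κ.k p.1 x p.2 := fun p =>
    mul_nonneg (by positivity) (hκ.k_nn _ _ _)
  have h2 : Summable fun p : ℕ × XX I => if 3 ≤ p.1 then 2 ^ p.1 * κ.k p.1 x p.2 else 0 := by
    refine Summable.of_nonneg_of_le (fun p => ?_) (fun p => ?_) (hκ.k_sum x)
    · split_ifs
      · exact h0 p
      · exact le_rfl
    · split_ifs
      · exact le_rfl
      · exact h0 p
  have h3 : HasSum (fun p : ℕ × XX I => if p = (2, x) then (4 : ℝ) else 0) 4 :=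
    hasSum_ite_eq _ _
  have h4 := (hκ.k_sum x).tsum_le_tsum h1 (h3.summable.add h2)
  rw [h3.summable.tsum_add h2, h3.tsum_eq] at h4
  have h5 := hκ.k_le x
  have h6 := hκ.z_le
  linarith

private theorem wd_ad (hκ : κ.Ok) (c : ℕ → ℝ) {A : ℝ} (hA : 0 ≤ A) (c0 : ∀ n, 0 ≤ c n)
    (hc : ∀ n, (3 / 2 : ℝ) ^ n * c n ≤ A * 2 ^ n) : κ.Ad fun n x y => c n * κ.k n x y := by
  have hd : ∀ n x y, ¬ κ.Al x → c n * κ.k n x y = 0 := fun n x y hx => by
    rw [hκ.k_dead n x y hx, mul_zero]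
  have hterm : ∀ (x : XX I) (p : ℕ × XX I),
      (3 / 2 : ℝ) ^ p.1 * |c p.1 * κ.k p.1 x p.2| ≤ A * (2 ^ p.1 * κ.k p.1 x p.2) := by
    intro x p
    have h1 : 0 ≤ κ.k p.1 x p.2 := hκ.k_nn _ _ _
    rw [abs_of_nonneg (mul_nonneg (c0 _) h1), ← mul_assoc, ← mul_assoc]
    exact mul_le_mul_of_nonneg_right (hc _) h1
  have hsum : ∀ x : XX I, Summable fun p : ℕ × XX I =>
      (3 / 2 : ℝ) ^ p.1 * |c p.1 * κ.k p.1 x p.2| := fun x =>
    Summable.of_nonneg_of_le (fun p => by positivity) (hterm x) ((hκ.k_sum x).mul_left A)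
  have hle : ∀ x : XX I, ∑' p : ℕ × XX I, (3 / 2 : ℝ) ^ p.1 * |c p.1 * κ.k p.1 x p.2| ≤
      A * 5 := by
    intro x
    refine ((hsum x).tsum_le_tsum (hterm x) ((hκ.k_sum x).mul_left A)).trans ?_
    rw [tsum_mul_left]
    exact mul_le_mul_of_nonneg_left (wd_row hκ x) hA
  have hsw : ∀ x : XX I, (fun p : ℕ × XX I => (3 / 2 : ℝ) ^ p.1 * |c p.1 * κ.k p.1 p.2 x|) =
      fun p : ℕ × XX I => (3 / 2 : ℝ) ^ p.1 * |c p.1 * κ.k p.1 x p.2| := by
    intro x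
    funext p
    rw [hκ.k_symm p.1 x p.2]
  refine ⟨hd, fun n x y hy => ?_, A * 5, by positivity, fun x => ⟨hsum x, hle x, ?_, ?_⟩⟩
  · rw [← hκ.k_symm n x y]
    exact hd n y x hy
  · rw [hsw]
    exact hsum x
  · rw [hsw]
    exact hle x

private theorem wd_n1 (n : ℕ) : (3 / 2 : ℝ) ^ n * n ≤ 2 * 2 ^ n := by
  induction n with
  | zero => norm_num
  | succ n ih =>
    rcases Nat.lt_or_ge n 3 with h | h
    · interval_cases n <;> norm_num
    · have h2 : (3 : ℝ) ≤ n := by exact_mod_cast h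
      have h3 : (0 : ℝ) < (3 / 2) ^ n := by positivity
      rw [pow_succ, pow_succ]
      push_cast
      nlinarith

private theorem wd_n2 (n : ℕ) : (3 / 2 : ℝ) ^ n * (n * n) ≤ 7 * 2 ^ n := by
  induction n with
  | zero => norm_num
  | succ n ih =>
    rcases Nat.lt_or_ge n 7 with h | h
    · interval_cases n <;> norm_num
    · have h2 : (7 : ℝ) ≤ n := by exact_mod_cast h
      have h3 : (0 : ℝ) < (3 / 2) ^ n := by positivity
      rw [pow_succ, pow_succ]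
      push_cast
      have h4 : (3 / 2 : ℝ) * ((n + 1) * (n + 1)) ≤ 2 * (n * n) := by nlinarith
      calc (3 / 2 : ℝ) ^ n * (3 / 2) * ((n + 1) * (n + 1))
          = (3 / 2 : ℝ) ^ n * (3 / 2 * ((n + 1) * (n + 1))) := by ring
        _ ≤ (3 / 2 : ℝ) ^ n * (2 * (n * n)) := mul_le_mul_of_nonneg_left h4 h3.le
        _ = 2 * ((3 / 2 : ℝ) ^ n * (n * n)) := by ring
        _ ≤ 2 * (7 * 2 ^ n) := by linarith
        _ = 7 * (2 ^ n * 2) := by ring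

/-- `k_dead`, `k_symm`, `k_low`, `k_sum`, `k_le` (the rows of `2 ^ n k n` have sum at most `5`, see `Row.lean`). -/
theorem Ok.ad_k (hκ : κ.Ok) : κ.Ad κ.k := by
  have h := wd_ad hκ (fun _ => 1) zero_le_one (fun _ => zero_le_one) (fun n => by
    rw [mul_one, one_mul]
    exact pow_le_pow_left₀ (by norm_num) (by norm_num) n)
  simp only [one_mul] at h
  exact h

/-- The same with `n (3/2) ^ n ≤ 2 · 2 ^ n`. -/
theorem Ok.ad_dk (hκ : κ.Ok) : κ.Ad (dk κ.k) :=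
  wd_ad hκ (fun n => n) (by norm_num) (fun n => Nat.cast_nonneg n) wd_n1

/-- `n² (3/2) ^ n ≤ 7 · 2 ^ n`. -/
theorem Ok.ad_ddk (hκ : κ.Ok) : κ.Ad (dk (dk κ.k)) := by
  have h := wd_ad hκ (fun n => (n : ℝ) * n) (by norm_num) (fun n => by positivity) wd_n2
  have e : dk (dk κ.k) = fun (n : ℕ) x y => (n : ℝ) * n * κ.k n x y := by
    funext n x y
    unfold dk
    ring
  rw [e]
  exact h

theorem Ok.nn_dk (hκ : κ.Ok) : Nn κ.k ∧ Nn (dk κ.k) ∧ Nn (dk (dk κ.k)) := by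
  refine ⟨hκ.k_nn, fun n x y => ?_, fun n x y => ?_⟩
  · exact mul_nonneg (Nat.cast_nonneg n) (hκ.k_nn n x y)
  · exact mul_nonneg (Nat.cast_nonneg n) (mul_nonneg (Nat.cast_nonneg n) (hκ.k_nn n x y))

private theorem wd_cp (hκ : κ.Ok) (c : ℕ → ℝ) {A : ℝ} (hA : 0 ≤ A) (c0 : ∀ n, 0 ≤ c n)
    (hc : ∀ n, (3 / 2 : ℝ) ^ n * c n ≤ A * 2 ^ n) : κ.Cp fun n x => c n * κ.c n x := by
  obtain ⟨C, hC⟩ := hκ.c_sum
  refine ⟨fun n x => mul_nonneg (c0 n) (hκ.c_nn n x), fun n x hx => ?_, A * |C|,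
    by positivity, fun x => ?_⟩
  · rw [hκ.c_dead n x hx, mul_zero]
  · have h1 : ∀ n, (3 / 2 : ℝ) ^ n * (c n * κ.c n x) ≤ A * (2 ^ n * κ.c n x) := by
      intro n
      rw [← mul_assoc, ← mul_assoc]
      exact mul_le_mul_of_nonneg_right (hc n) (hκ.c_nn n x)
    have h2 : Summable fun n => (3 / 2 : ℝ) ^ n * (c n * κ.c n x) :=
      Summable.of_nonneg_of_le
        (fun n => mul_nonneg (by positivity) (mul_nonneg (c0 n) (hκ.c_nn n x))) h1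
        ((hC x).1.mul_left A)
    refine ⟨h2, (h2.tsum_le_tsum h1 ((hC x).1.mul_left A)).trans ?_⟩
    rw [tsum_mul_left, mul_assoc]
    refine mul_le_mul_of_nonneg_left ((hC x).2.trans ?_) hA
    exact mul_le_mul_of_nonneg_right (le_abs_self C) (by positivity)

theorem Ok.cp_c (hκ : κ.Ok) : κ.Cp κ.c ∧ κ.Cp (dv κ.c) := by
  refine ⟨?_, wd_cp hκ (fun n => n) (by norm_num) (fun n => Nat.cast_nonneg n) wd_n1⟩
  have h := wd_cp hκ (fun _ => 1) zero_le_one (fun _ => zero_le_one) (fun n => by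
    rw [mul_one, one_mul]
    exact pow_le_pow_left₀ (by norm_num) (by norm_num) n)
  simp only [one_mul] at h
  exact h

private theorem wd_geo : Summable fun x : XX I => (1 / 2 : ℝ) ^ x.1.natAbs := by
  have h1 : Summable fun u : ℤ => (1 / 2 : ℝ) ^ u.natAbs := by
    have h : Summable fun n : ℕ => (1 / 2 : ℝ) ^ n :=
      summable_geometric_of_lt_one (by norm_num) (by norm_num)
    refine Summable.of_nat_of_neg ?_ ?_
    · simpa using h
    · simpa using h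
  have h2 : Summable fun p : I × ℤ => (1 / 2 : ℝ) ^ p.2.natAbs := by
    refine (summable_prod_of_nonneg fun p => by positivity).2 ⟨fun _ => h1, ?_⟩
    exact (hasSum_fintype _).summable
  exact h2.prod_symm

/-- the arrangement of the variables -/
private def wdE (X : Type) : ℕ × ℤ × X × X ≃ X × (ℕ × ℤ × X) where
  toFun p := (p.2.2.1, (p.1, p.2.1, p.2.2.2))
  invFun q := (q.2.1, q.2.2.1, q.1, q.2.2.2)
  left_inv _ := rfl
  right_inv _ := rfl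

private theorem wd_free (hκ : κ.Ok) : Summable fun p : ℕ × ℤ × I × I =>
    (3 / 2 : ℝ) ^ p.1 * 2 ^ p.2.1.natAbs * |dg κ.f p.1 p.2.1 p.2.2.1 p.2.2.2| := by
  have h1 : ∀ (i : I) (p : ℕ × ℤ × I),
      (3 / 2 : ℝ) ^ p.1 * 2 ^ p.2.1.natAbs * |dg κ.f p.1 p.2.1 i p.2.2| ≤
        2 * (2 ^ p.1 * 4 ^ p.2.1.natAbs * κ.f p.1 p.2.1 i p.2.2) := by
    intro i p
    have h0 : 0 ≤ κ.f p.1 p.2.1 i p.2.2 := hκ.f_nn _ _ _ _
    unfold dg
    rw [abs_of_nonneg (mul_nonneg (Nat.cast_nonneg _) h0)]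
    have h2 : (2 : ℝ) ^ p.2.1.natAbs ≤ 4 ^ p.2.1.natAbs :=
      pow_le_pow_left₀ (by norm_num) (by norm_num) _
    calc (3 / 2 : ℝ) ^ p.1 * 2 ^ p.2.1.natAbs * (p.1 * κ.f p.1 p.2.1 i p.2.2)
        = ((3 / 2 : ℝ) ^ p.1 * p.1) * (2 ^ p.2.1.natAbs * κ.f p.1 p.2.1 i p.2.2) := by ring
      _ ≤ (2 * 2 ^ p.1) * (4 ^ p.2.1.natAbs * κ.f p.1 p.2.1 i p.2.2) :=
          mul_le_mul (wd_n1 _) (mul_le_mul_of_nonneg_right h2 h0) (by positivity)
            (by positivity)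
      _ = 2 * (2 ^ p.1 * 4 ^ p.2.1.natAbs * κ.f p.1 p.2.1 i p.2.2) := by ring
  have h3 : Summable fun q : I × (ℕ × ℤ × I) =>
      (3 / 2 : ℝ) ^ q.2.1 * 2 ^ q.2.2.1.natAbs * |dg κ.f q.2.1 q.2.2.1 q.1 q.2.2.2| := by
    refine (summable_prod_of_nonneg fun q => by positivity).2 ⟨fun i => ?_, ?_⟩
    · exact Summable.of_nonneg_of_le (fun p => by positivity) (h1 i) ((hκ.f_sum i).mul_left 2)
    · exact (hasSum_fintype _).summable
  exact (wdE I).summable_iff.2 h3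

/-- the arrangement of the variables -/
private def wdF (X : Type) : ℕ × X × X ≃ X × (ℕ × X) where
  toFun p := (p.2.1, (p.1, p.2.2))
  invFun q := (q.2.1, q.1, q.2.2)
  left_inv _ := rfl
  right_inv _ := rfl

/-- `f_sum` and `df_sum`: `Tr.sum` since `n (3/2) ^ n ≤ 2 · 2 ^ n`; `Tr.loc`: for `x`, `y` alive
`dk k n x y - dg f n (..) = n df n x y`, and
`∑_x 2 ^ |x| ∑_{n, y} 2 ^ n 4 ^ |y| |df n x y| ≤ C ∑_x 2 ^ |x| 4 ^ (-|x|) < ∞` (`I` is finite). -/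
theorem Ok.tr_dk (hκ : κ.Ok) : κ.Tr (dk κ.k) (dg κ.f) := by
  classical
  refine ⟨wd_free hκ, ?_⟩
  obtain ⟨C, hC⟩ := hκ.df_sum
  have hterm : ∀ (x : XX I) (p : ℕ × XX I), κ.Al x → κ.Al p.2 →
      (3 / 2 : ℝ) ^ p.1 * 2 ^ (x.1.natAbs + p.2.1.natAbs) *
        |dk κ.k p.1 x p.2 - dg κ.f p.1 (p.2.1 - x.1) x.2 p.2.2| ≤
      2 * 2 ^ x.1.natAbs * (2 ^ p.1 * 4 ^ p.2.1.natAbs * |κ.df p.1 x p.2|) := by
    intro x p hx hp
    have e1 : dk κ.k p.1 x p.2 - dg κ.f p.1 (p.2.1 - x.1) x.2 p.2.2 =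
        p.1 * κ.df p.1 x p.2 := by
      unfold dk dg df fx
      rw [if_pos hp]
      ring
    have h2 : (2 : ℝ) ^ p.2.1.natAbs ≤ 4 ^ p.2.1.natAbs :=
      pow_le_pow_left₀ (by norm_num) (by norm_num) _
    rw [e1, abs_mul, Nat.abs_cast, pow_add]
    calc (3 / 2 : ℝ) ^ p.1 * (2 ^ x.1.natAbs * 2 ^ p.2.1.natAbs) * (p.1 * |κ.df p.1 x p.2|)
        = 2 ^ x.1.natAbs * (((3 / 2 : ℝ) ^ p.1 * p.1) *
            (2 ^ p.2.1.natAbs * |κ.df p.1 x p.2|)) := by ring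
      _ ≤ 2 ^ x.1.natAbs * ((2 * 2 ^ p.1) * (4 ^ p.2.1.natAbs * |κ.df p.1 x p.2|)) :=
          mul_le_mul_of_nonneg_left (mul_le_mul (wd_n1 _)
            (mul_le_mul_of_nonneg_right h2 (abs_nonneg _)) (by positivity) (by positivity))
            (by positivity)
      _ = 2 * 2 ^ x.1.natAbs * (2 ^ p.1 * 4 ^ p.2.1.natAbs * |κ.df p.1 x p.2|) := by ring
  have hrow : ∀ x : XX I, (Summable fun p : ℕ × XX I => if κ.Al x ∧ κ.Al p.2 then
      (3 / 2 : ℝ) ^ p.1 * 2 ^ (x.1.natAbs + p.2.1.natAbs) *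
        |dk κ.k p.1 x p.2 - dg κ.f p.1 (p.2.1 - x.1) x.2 p.2.2| else 0) ∧
      ∑' p : ℕ × XX I, (if κ.Al x ∧ κ.Al p.2 then
      (3 / 2 : ℝ) ^ p.1 * 2 ^ (x.1.natAbs + p.2.1.natAbs) *
        |dk κ.k p.1 x p.2 - dg κ.f p.1 (p.2.1 - x.1) x.2 p.2.2| else 0) ≤
        2 * |C| * (1 / 2) ^ x.1.natAbs := by
    intro x
    by_cases hx : κ.Al x
    · have h1 : ∀ p : ℕ × XX I, (if κ.Al x ∧ κ.Al p.2 then
          (3 / 2 : ℝ) ^ p.1 * 2 ^ (x.1.natAbs + p.2.1.natAbs) *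
          |dk κ.k p.1 x p.2 - dg κ.f p.1 (p.2.1 - x.1) x.2 p.2.2| else 0) ≤
          2 * 2 ^ x.1.natAbs * (2 ^ p.1 * 4 ^ p.2.1.natAbs * |κ.df p.1 x p.2|) := by
        intro p
        split_ifs with h
        · exact hterm x p h.1 h.2
        · positivity
      have h2 : Summable fun p : ℕ × XX I => if κ.Al x ∧ κ.Al p.2 then
          (3 / 2 : ℝ) ^ p.1 * 2 ^ (x.1.natAbs + p.2.1.natAbs) *
          |dk κ.k p.1 x p.2 - dg κ.f p.1 (p.2.1 - x.1) x.2 p.2.2| else 0 := by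
        refine Summable.of_nonneg_of_le (fun p => ?_) h1 ((hC x hx).1.mul_left _)
        split_ifs
        · positivity
        · exact le_rfl
      refine ⟨h2, (h2.tsum_le_tsum h1 ((hC x hx).1.mul_left _)).trans ?_⟩
      rw [tsum_mul_left]
      have h3 : ∑' p : ℕ × XX I, 2 ^ p.1 * 4 ^ p.2.1.natAbs * |κ.df p.1 x p.2| ≤
          |C| * (1 / 4) ^ x.1.natAbs :=
        (hC x hx).2.trans (mul_le_mul_of_nonneg_right (le_abs_self C) (by positivity))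
      refine (mul_le_mul_of_nonneg_left h3 (by positivity)).trans (le_of_eq ?_)
      have h4 : (1 / 2 : ℝ) ^ x.1.natAbs = 2 ^ x.1.natAbs * (1 / 4) ^ x.1.natAbs := by
        rw [← mul_pow]
        norm_num
      rw [h4]
      ring
    · have h0 : (fun p : ℕ × XX I => if κ.Al x ∧ κ.Al p.2 then
          (3 / 2 : ℝ) ^ p.1 * 2 ^ (x.1.natAbs + p.2.1.natAbs) *
          |dk κ.k p.1 x p.2 - dg κ.f p.1 (p.2.1 - x.1) x.2 p.2.2| else 0) = fun _ => 0 := by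
        funext p
        rw [if_neg fun h => hx h.1]
      rw [h0]
      refine ⟨summable_zero, ?_⟩
      rw [tsum_zero]
      positivity
  have h5 : Summable fun q : XX I × (ℕ × XX I) => if κ.Al q.1 ∧ κ.Al q.2.2 then
      (3 / 2 : ℝ) ^ q.2.1 * 2 ^ (q.1.1.natAbs + q.2.2.1.natAbs) *
        |dk κ.k q.2.1 q.1 q.2.2 - dg κ.f q.2.1 (q.2.2.1 - q.1.1) q.1.2 q.2.2.2| else 0 := by
    refine (summable_prod_of_nonneg fun q => ?_).2 ⟨fun x => (hrow x).1, ?_⟩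
    · simp only [Pi.zero_apply]
      split_ifs
      · positivity
      · exact le_rfl
    · refine Summable.of_nonneg_of_le (fun x => tsum_nonneg fun p => ?_) (fun x => (hrow x).2)
        (wd_geo.mul_left (2 * |C|))
      split_ifs
      · positivity
      · exact le_rfl
  exact (wdF (XX I)).summable_iff.2 h5

/-- the arrangement of the variables -/
private def wdG (X : Type) : ℕ × ℤ × X × X ≃ X × ((ℤ × X) × ℕ) where
  toFun p := (p.2.2.2, ((p.2.1, p.2.2.1), p.1))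
  invFun q := (q.2.2, q.2.1.1, q.2.1.2, q.1)
  left_inv _ := rfl
  right_inv _ := rfl

/-- `NN = ∑_j h j N_j` (`Mom.lean`), exchange of sums. -/
theorem Ok.la_dg (hκ : κ.Ok) : κ.la (dg κ.f) = κ.NN := by
  classical
  have hs : Summable fun p : ℕ × ℤ × I × I =>
      dg κ.f p.1 p.2.1 p.2.2.1 p.2.2.2 * (κ.h p.2.2.1 * κ.h p.2.2.2) := by
    set H : ℝ := ∑ i, κ.h i with hH
    have hH1 : ∀ i, κ.h i ≤ H := fun i =>
      Finset.single_le_sum (f := κ.h) (fun j _ => (hκ.h_pos j).le) (Finset.mem_univ i)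
    refine Summable.of_nonneg_of_le (fun p => ?_) (fun p => ?_) ((wd_free hκ).mul_left (H * H))
    · exact mul_nonneg (mul_nonneg (Nat.cast_nonneg _) (hκ.f_nn _ _ _ _))
        (mul_nonneg (hκ.h_pos _).le (hκ.h_pos _).le)
    · have h1 : κ.h p.2.2.1 * κ.h p.2.2.2 ≤ H * H :=
        mul_le_mul (hH1 _) (hH1 _) (hκ.h_pos _).le ((hκ.h_pos _).le.trans (hH1 p.2.2.1))
      have h2 : 0 ≤ dg κ.f p.1 p.2.1 p.2.2.1 p.2.2.2 :=
        mul_nonneg (Nat.cast_nonneg _) (hκ.f_nn _ _ _ _)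
      have h3 : (1 : ℝ) ≤ (3 / 2) ^ p.1 * 2 ^ p.2.1.natAbs :=
        one_le_mul_of_one_le_of_one_le (one_le_pow₀ (by norm_num)) (one_le_pow₀ (by norm_num))
      have h4 : 0 ≤ H * H := mul_self_nonneg H
      rw [abs_of_nonneg h2]
      calc dg κ.f p.1 p.2.1 p.2.2.1 p.2.2.2 * (κ.h p.2.2.1 * κ.h p.2.2.2)
          ≤ dg κ.f p.1 p.2.1 p.2.2.1 p.2.2.2 * (H * H) := mul_le_mul_of_nonneg_left h1 h2
        _ ≤ ((3 / 2) ^ p.1 * 2 ^ p.2.1.natAbs * dg κ.f p.1 p.2.1 p.2.2.1 p.2.2.2) *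
            (H * H) := mul_le_mul_of_nonneg_right (le_mul_of_one_le_left h2 h3) h4
        _ = H * H * ((3 / 2) ^ p.1 * 2 ^ p.2.1.natAbs *
            dg κ.f p.1 p.2.1 p.2.2.1 p.2.2.2) := by ring
  have hq : Summable fun q : I × ((ℤ × I) × ℕ) =>
      dg κ.f q.2.2 q.2.1.1 q.2.1.2 q.1 * (κ.h q.2.1.2 * κ.h q.1) :=
    (wdG I).symm.summable_iff.2 hs
  have e1 : κ.la (dg κ.f) = ∑' q : I × ((ℤ × I) × ℕ),
      dg κ.f q.2.2 q.2.1.1 q.2.1.2 q.1 * (κ.h q.2.1.2 * κ.h q.1) := by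
    unfold la
    exact ((wdG I).tsum_eq fun q : I × ((ℤ × I) × ℕ) =>
      dg κ.f q.2.2 q.2.1.1 q.2.1.2 q.1 * (κ.h q.2.1.2 * κ.h q.1))
  rw [e1, hq.tsum_prod, tsum_fintype]
  unfold NN
  refine Finset.sum_congr rfl fun j _ => ?_
  have hj : Summable fun r : (ℤ × I) × ℕ => dg κ.f r.2 r.1.1 r.1.2 j * (κ.h r.1.2 * κ.h j) :=
    hq.prod_factor j
  rw [hj.tsum_prod]
  unfold Nj
  rw [← tsum_mul_left]
  refine tsum_congr fun p => ?_
  unfold F1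
  have e2 : κ.h j * ((∑' n : ℕ, (n : ℝ) * κ.f n p.1 p.2 j) * κ.h p.2) =
      (∑' n : ℕ, (n : ℝ) * κ.f n p.1 p.2 j) * (κ.h p.2 * κ.h j) := by ring
  rw [e2, ← tsum_mul_right]
  rfl

end Slb

end Pool.Agent.KSlab
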