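import Pool.Agent.KSlab.FinA

/-! SW0: chains with marked elements, definitions. -/

set_option autoImplicit false

open Complex Set Filter Topology
open scoped ENNReal

namespace Pool.Agent.KSlab

/-- Families of kernels, indexed by the size. -/
abbrev KF (I : Type) : Type := ℕ → XX I → XX I → ℝ

/-- Families of functions, indexed by the size. -/
abbrev VF (I : Type) : Type := ℕ → XX I → ℝ

/-- Families of translation invariant kernels, indexed by the size and the displacement. -/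
abbrev GF (I : Type) : Type := ℕ → ℤ → I → I → ℝ

variable {I : Type}

/-- The kernel at `s`. -/
noncomputable def ks (k : KF I) (s : ℂ) (x y : XX I) : ℂ := ∑' n : ℕ, k n x y * exp (-n * s)

/-- The function at `s`. -/
noncomputable def vs (a : VF I) (s : ℂ) (x : XX I) : ℂ := ∑' n : ℕ, a n x * exp (-n * s)

/-- The operator at `s`. -/
noncomputable def kop (k : KF I) (s : ℂ) : EE I →L[ℂ] EE I := op (ks k s)

/-- Nonnegative kernels. -/
def Nn (k : KF I) : Prop := ∀ n x y, 0 ≤ k n x y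

/-- The kernel weighted by the size. -/
def dk (k : KF I) : KF I := fun n x y => n * k n x y

/-- The function weighted by the size. -/
def dv (a : VF I) : VF I := fun n x => n * a n x

/-- The translation invariant kernel weighted by the size. -/
def dg (g : GF I) : GF I := fun n t i j => n * g n t i j

/-! ### Convolutions -/

/-- The kernel acts on functions by convolution of the sizes. -/
noncomputable def stC (k : KF I) (V : ℕ → XX I → ℝ≥0∞) (n : ℕ) (x : XX I) : ℝ≥0∞ :=
  ∑ p ∈ Finset.HasAntidiagonal.antidiagonal n, ∑' y, ENNReal.ofReal (k p.1 x y) * V p.2 y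

/-- The same at a real point. -/
noncomputable def stE (k : KF I) (σ : ℝ) (V : XX I → ℝ≥0∞) (x : XX I) : ℝ≥0∞ :=
  ∑' y, (∑' n : ℕ, ENNReal.ofReal (k n x y) * ENNReal.ofReal (Real.exp (-n * σ))) * V y

/-- The function at a real point. -/
noncomputable def vE (V : ℕ → XX I → ℝ≥0∞) (σ : ℝ) (x : XX I) : ℝ≥0∞ :=
  ∑' n : ℕ, V n x * ENNReal.ofReal (Real.exp (-n * σ))

/-- A real function as a function with values in `[0, ∞]`. -/
noncomputable def toN (a : VF I) (n : ℕ) (x : XX I) : ℝ≥0∞ := ENNReal.ofReal (a n x)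

/-- The pairing with convolution of the sizes. -/
noncomputable def blC (b V : ℕ → XX I → ℝ≥0∞) (n : ℕ) : ℝ≥0∞ :=
  ∑ p ∈ Finset.HasAntidiagonal.antidiagonal n, ∑' x, b p.1 x * V p.2 x

namespace Slb

variable (κ : Slb I)

/-- Admissible kernels for the marked elements. -/
structure Ad (k : KF I) : Prop where
  dead_l : ∀ n x y, ¬ κ.Al x → k n x y = 0
  dead_r : ∀ n x y, ¬ κ.Al y → k n x y = 0
  sum : ∃ B : ℝ, 0 ≤ B ∧ ∀ x, (Summable fun p : ℕ × XX I => (3 / 2) ^ p.1 * |k p.1 x p.2|) ∧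
    ∑' p : ℕ × XX I, (3 / 2) ^ p.1 * |k p.1 x p.2| ≤ B ∧
    (Summable fun p : ℕ × XX I => (3 / 2) ^ p.1 * |k p.1 p.2 x|) ∧
    ∑' p : ℕ × XX I, (3 / 2) ^ p.1 * |k p.1 p.2 x| ≤ B

/-- Admissible caps. -/
structure Cp (a : VF I) : Prop where
  nn : ∀ n x, 0 ≤ a n x
  dead : ∀ n x, ¬ κ.Al x → a n x = 0
  sum : ∃ C : ℝ, 0 ≤ C ∧ ∀ x : XX I, (Summable fun n => (3 / 2) ^ n * a n x) ∧
    ∑' n, (3 / 2) ^ n * a n x ≤ C * (1 / 4) ^ x.1.natAbs

open Classical in
/-- The kernel `k` is the sum of the translation invariant kernel `g` and a localised one. -/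
structure Tr (k : KF I) (g : GF I) : Prop where
  sum : Summable fun p : ℕ × ℤ × I × I =>
    (3 / 2) ^ p.1 * 2 ^ p.2.1.natAbs * |g p.1 p.2.1 p.2.2.1 p.2.2.2|
  loc : Summable fun p : ℕ × XX I × XX I => if κ.Al p.2.1 ∧ κ.Al p.2.2 then
    (3 / 2) ^ p.1 * 2 ^ (p.2.1.1.natAbs + p.2.2.1.natAbs) *
      |k p.1 p.2.1 p.2.2 - g p.1 (p.2.2.1 - p.2.1.1) p.2.1.2 p.2.2.2| else 0

/-- The mean weight of the translation invariant kernel. -/
noncomputable def la (g : GF I) : ℝ :=
  ∑' p : ℕ × ℤ × I × I, g p.1 p.2.1 p.2.2.1 p.2.2.2 * (κ.h p.2.2.1 * κ.h p.2.2.2)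

/-- The region where everything is regular. -/
def RegW : Set ℂ := {s | s ∈ κ.Reg ∧ -(1 / 3) < s.re}

/-! ### Words -/

/-- The functions of the words of marked elements. -/
noncomputable def AW (s : ℂ) : List (KF I) → VF I → EE I
  | [], a => κ.GS s (toE (vs a s))
  | k :: w, a => κ.GS s (kop k s (AW s w a))

/-- The generating function of the chains between the caps `b` and `a` with marked elements. -/
noncomputable def FW (s : ℂ) (b : VF I) (w : List (KF I)) (a : VF I) : ℂ :=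
  ∑' x, vs b s x * κ.AW s w a x

/-- The sum over the chains without marks. -/
noncomputable def reC (V : ℕ → XX I → ℝ≥0∞) (n : ℕ) (x : XX I) : ℝ≥0∞ :=
  ∑' N : ℕ, (stC κ.k)^[N] V n x

/-- The same at a real point. -/
noncomputable def reE (σ : ℝ) (V : XX I → ℝ≥0∞) (x : XX I) : ℝ≥0∞ :=
  ∑' N : ℕ, (stE κ.k σ)^[N] V x

/-- The weight of the chains from `x` that end with the cap `a`, with marked elements. -/
noncomputable def AC : List (KF I) → VF I → ℕ → XX I → ℝ≥0∞
  | [], a => κ.reC (toN a)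
  | k :: w, a => κ.reC (stC k (AC w a))

/-- The weight of the chains of size `n` between the caps `b` and `a` with marked elements. -/
noncomputable def FC (b : VF I) (w : List (KF I)) (a : VF I) (n : ℕ) : ℝ≥0∞ :=
  blC (toN b) (κ.AC w a) n

/-- The parity of the size of the elements is determined by the states. -/
def KPar (par : XX I → ℕ) (k : KF I) : Prop :=
  ∀ n x y, k n x y ≠ 0 → Even (n + par x + par y)

/-- The same for the caps. -/
def VPar (par : XX I → ℕ) (a : VF I) : Prop := ∀ n x, a n x ≠ 0 → Even (n + par x)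

/-! ### Orders at the singularity -/

/-- The order of a family of functions at the singularity: `m` resolvents, and a gain of `g`. -/
def Od (m g : ℝ) (A : ℂ → EE I) : Prop := ∃ C r : ℝ, 0 ≤ C ∧ 0 < r ∧ ∀ s ∈ κ.Sec, ‖s‖ < r →
  κ.Van (A s) ∧ Real.sqrt (κ.EF (A s)) ≤ C * ‖s‖ ^ (-m + g) ∧
    ‖A s‖ ≤ C * ‖s‖ ^ (-m - 1 / 4 + g)

/-- The order of a function at the singularity. -/
def Of (κ : Slb I) (p : ℝ) (f : ℂ → ℂ) : Prop := ∃ C r : ℝ, 0 ≤ C ∧ 0 < r ∧ ∀ s ∈ κ.Sec, ‖s‖ < r →
  ‖f s‖ ≤ C * ‖s‖ ^ p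

end Slb

end Pool.Agent.KSlab
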