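import Pool.Agent.KSlab.WDefs

/-! SW14: the total size is the sum of the sizes of the elements. -/

set_option autoImplicit false

open Complex Set Filter Topology
open scoped ENNReal

namespace Pool.Agent.KSlab

variable {I : Type}

private theorem wd_ofReal (k : KF I) (n : ℕ) (x y : XX I) :
    ENNReal.ofReal (dk k n x y) = (n : ℝ≥0∞) * ENNReal.ofReal (k n x y) := by
  unfold dk
  rw [ENNReal.ofReal_mul (Nat.cast_nonneg _), ENNReal.ofReal_natCast]

private theorem wd_cast {n : ℕ} {p : ℕ × ℕ} (hp : p ∈ Finset.HasAntidiagonal.antidiagonal n) :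
    (n : ℝ≥0∞) = (p.1 : ℝ≥0∞) + (p.2 : ℝ≥0∞) := by
  rw [← Nat.cast_add, Finset.HasAntidiagonal.mem_antidiagonal.1 hp]

/-- `ENNReal.ofReal (n k) = n ENNReal.ofReal k`, `n = p + q` on the antidiagonal. -/
theorem der_stC (k : KF I) (V : ℕ → XX I → ℝ≥0∞) (n : ℕ) (x : XX I) :
    (n : ℝ≥0∞) * stC k V n x = stC (dk k) V n x + stC k (fun n x => (n : ℝ≥0∞) * V n x) n x := by
  unfold stC
  rw [Finset.mul_sum, ← Finset.sum_add_distrib]
  refine Finset.sum_congr rfl fun p hp => ?_
  rw [← ENNReal.tsum_mul_left, ← ENNReal.tsum_add]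
  refine tsum_congr fun y => ?_
  rw [wd_cast hp, wd_ofReal]
  ring

theorem stC_add (k : KF I) (V W : ℕ → XX I → ℝ≥0∞) (n : ℕ) (x : XX I) :
    stC k (fun n x => V n x + W n x) n x = stC k V n x + stC k W n x := by
  unfold stC
  rw [← Finset.sum_add_distrib]
  refine Finset.sum_congr rfl fun p _ => ?_
  rw [← ENNReal.tsum_add]
  exact tsum_congr fun y => mul_add _ _ _

theorem stC_tsum {J : Type} (k : KF I) (V : J → ℕ → XX I → ℝ≥0∞) (n : ℕ) (x : XX I) :
    stC k (fun n x => ∑' j, V j n x) n x = ∑' j, stC k (V j) n x := by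
  unfold stC
  rw [Summable.tsum_finsetSum fun _ _ => ENNReal.summable]
  refine Finset.sum_congr rfl fun p _ => ?_
  rw [ENNReal.tsum_comm]
  exact tsum_congr fun y => ENNReal.tsum_mul_left.symm

theorem der_blC (b V : ℕ → XX I → ℝ≥0∞) (n : ℕ) :
    (n : ℝ≥0∞) * blC b V n = blC (fun n x => (n : ℝ≥0∞) * b n x) V n +
      blC b (fun n x => (n : ℝ≥0∞) * V n x) n := by
  unfold blC
  rw [Finset.mul_sum, ← Finset.sum_add_distrib]
  refine Finset.sum_congr rfl fun p hp => ?_
  rw [← ENNReal.tsum_mul_left, ← ENNReal.tsum_add]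
  refine tsum_congr fun y => ?_
  rw [wd_cast hp]
  ring

/-- The action of a kernel as a linear map. -/
private noncomputable def stL (k : KF I) :
    (ℕ → XX I → ℝ≥0∞) →ₗ[ℝ≥0∞] (ℕ → XX I → ℝ≥0∞) where
  toFun := stC k
  map_add' V W := by
    funext n x
    exact stC_add k V W n x
  map_smul' c V := by
    funext n x
    change stC k (fun n x => c * V n x) n x = c * stC k V n x
    unfold stC
    rw [Finset.mul_sum]
    refine Finset.sum_congr rfl fun p _ => ?_
    rw [← ENNReal.tsum_mul_left]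
    exact tsum_congr fun y => by ring

/-- The pairing as a linear map. -/
private noncomputable def blL (b : ℕ → XX I → ℝ≥0∞) (n : ℕ) :
    (ℕ → XX I → ℝ≥0∞) →ₗ[ℝ≥0∞] ℝ≥0∞ where
  toFun := fun V => blC b V n
  map_add' V W := by
    change blC b (fun n x => V n x + W n x) n = _
    unfold blC
    rw [← Finset.sum_add_distrib]
    refine Finset.sum_congr rfl fun p _ => ?_
    rw [← ENNReal.tsum_add]
    exact tsum_congr fun y => mul_add _ _ _
  map_smul' c V := by
    change blC b (fun n x => c * V n x) n = c * blC b V n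
    unfold blC
    rw [Finset.mul_sum]
    refine Finset.sum_congr rfl fun p _ => ?_
    rw [← ENNReal.tsum_mul_left]
    exact tsum_congr fun y => by ring

/-- The multiplication by the size. -/
private noncomputable def dl (V : ℕ → XX I → ℝ≥0∞) : ℕ → XX I → ℝ≥0∞ :=
  fun n x => (n : ℝ≥0∞) * V n x

private theorem dl_stL (k : KF I) (V : ℕ → XX I → ℝ≥0∞) :
    dl (stL k V) = stL (dk k) V + stL k (dl V) := by
  funext n x
  exact der_stC k V n x

private theorem dl_toN (a : VF I) : dl (toN a) = toN (dv a) := by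
  funext n x
  unfold dl toN dv
  rw [ENNReal.ofReal_mul (Nat.cast_nonneg _), ENNReal.ofReal_natCast]

private theorem stL_tsum {J : Type} (k : KF I) (V : J → ℕ → XX I → ℝ≥0∞) :
    stL k (fun n x => ∑' j, V j n x) = fun n x => ∑' j, stL k (V j) n x := by
  funext n x
  exact stC_tsum k V n x

private theorem stL_pow_tsum {J : Type} (k : KF I) (N : ℕ) (V : J → ℕ → XX I → ℝ≥0∞) :
    (stL k ^ N) (fun n x => ∑' j, V j n x) = fun n x => ∑' j, (stL k ^ N) (V j) n x := by
  induction N with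
  | zero => rfl
  | succ N ih =>
    rw [pow_succ', Module.End.mul_apply, ih, stL_tsum]
    rfl

private theorem stL_iter (k : KF I) (N : ℕ) (V : ℕ → XX I → ℝ≥0∞) :
    (stC k)^[N] V = (stL k ^ N) V := by
  induction N with
  | zero => rfl
  | succ N ih =>
    rw [Function.iterate_succ_apply', pow_succ', Module.End.mul_apply, ih]
    rfl

private theorem dl_pow (k : KF I) (N : ℕ) (V : ℕ → XX I → ℝ≥0∞) :
    dl ((stL k ^ N) V) = (stL k ^ N) (dl V) +
      ∑ j ∈ Finset.range N, (stL k ^ j) (stL (dk k) ((stL k ^ (N - 1 - j)) V)) := by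
  induction N with
  | zero =>
    rw [Finset.sum_range_zero, add_zero]
    rfl
  | succ N ih =>
    rw [pow_succ', Module.End.mul_apply, dl_stL, ih, map_add, map_sum, Finset.sum_range_succ']
    have h1 : ∀ j ∈ Finset.range N,
        stL k ((stL k ^ j) (stL (dk k) ((stL k ^ (N - 1 - j)) V))) =
        (stL k ^ (j + 1)) (stL (dk k) ((stL k ^ (N + 1 - 1 - (j + 1))) V)) := by
      intro j _
      have h2 : N + 1 - 1 - (j + 1) = N - 1 - j := by omega
      rw [h2, pow_succ' (stL k) j, Module.End.mul_apply]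
    rw [Finset.sum_congr rfl h1]
    have h3 : (stL k ^ 0) (stL (dk k) ((stL k ^ (N + 1 - 1 - 0)) V)) =
        stL (dk k) ((stL k ^ N) V) := rfl
    rw [h3, Module.End.mul_apply]
    abel

namespace Slb

variable {κ : Slb I}

private theorem reC_eq (V : ℕ → XX I → ℝ≥0∞) :
    κ.reC V = fun n x => ∑' N : ℕ, (stL κ.k ^ N) V n x := by
  funext n x
  unfold reC
  exact tsum_congr fun N => by rw [stL_iter]

/-- The sum over the chains as a linear map. -/
private noncomputable def reL (κ : Slb I) :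
    (ℕ → XX I → ℝ≥0∞) →ₗ[ℝ≥0∞] (ℕ → XX I → ℝ≥0∞) where
  toFun := κ.reC
  map_add' V W := by
    funext n x
    rw [Pi.add_apply, Pi.add_apply, reC_eq, reC_eq, reC_eq, ← ENNReal.tsum_add]
    exact tsum_congr fun N => by rw [map_add]; rfl
  map_smul' c V := by
    funext n x
    rw [RingHom.id_apply, Pi.smul_apply, Pi.smul_apply, smul_eq_mul, reC_eq, reC_eq,
      ← ENNReal.tsum_mul_left]
    exact tsum_congr fun N => by rw [map_smul]; rfl

private theorem wd_anti (f : ℕ → ℕ → ℝ≥0∞) :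
    ∑' j, ∑' l, f j l = ∑' N, ∑ j ∈ Finset.range N, f j (N - 1 - j) := by
  have h1 : ∑' N, ∑ j ∈ Finset.range N, f j (N - 1 - j) =
      ∑' N, ∑ j ∈ Finset.range (N + 1), f j (N - j) := by
    rw [tsum_eq_zero_add' ENNReal.summable, Finset.sum_range_zero, zero_add]
    rfl
  rw [h1, ← ENNReal.tsum_prod, ← Finset.HasAntidiagonal.sigmaAntidiagonalEquivProd.tsum_eq
    (fun p : ℕ × ℕ => f p.1 p.2), ENNReal.tsum_sigma']
  refine tsum_congr fun N => ?_
  rw [← Finset.Nat.sum_antidiagonal_eq_sum_range_succ f N, ← Finset.tsum_subtype]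
  rfl

/-- `n (K^N V) = K^N (n V) + ∑_{j < N} K^j D K^(N - 1 - j) V` by `der_stC` (induction on `N`), and the sum over
`N` and `j` is the double sum over `j` and `l = N - 1 - j`: `K^j D (∑_l K^l V)`. -/
theorem der_reC (V : ℕ → XX I → ℝ≥0∞) (n : ℕ) (x : XX I) :
    (n : ℝ≥0∞) * κ.reC V n x = κ.reC (fun n x => (n : ℝ≥0∞) * V n x) n x +
      κ.reC (stC (dk κ.k) (κ.reC V)) n x := by
  have h1 : κ.reC (stC (dk κ.k) (κ.reC V)) n x =
      ∑' j, ∑' l, (stL κ.k ^ j) (stL (dk κ.k) ((stL κ.k ^ l) V)) n x := by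
    rw [reC_eq]
    refine tsum_congr fun j => ?_
    change (stL κ.k ^ j) (stL (dk κ.k) (κ.reC V)) n x = _
    rw [reC_eq V, stL_tsum (dk κ.k) (fun l => (stL κ.k ^ l) V),
      stL_pow_tsum κ.k j (fun l => stL (dk κ.k) ((stL κ.k ^ l) V))]
  rw [h1, wd_anti (fun j l => (stL κ.k ^ j) (stL (dk κ.k) ((stL κ.k ^ l) V)) n x), reC_eq,
    reC_eq, ← ENNReal.tsum_mul_left, ← ENNReal.tsum_add]
  refine tsum_congr fun N => ?_
  have h2 := congrFun (congrFun (dl_pow κ.k N V) n) x
  rw [Pi.add_apply, Pi.add_apply, Finset.sum_apply, Finset.sum_apply] at h2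
  exact h2

private theorem dl_reL (V : ℕ → XX I → ℝ≥0∞) :
    dl (reL κ V) = reL κ (dl V) + reL κ (stL (dk κ.k) (reL κ V)) := by
  funext n x
  exact der_reC V n x

private theorem AC_cons (k : KF I) (w : List (KF I)) (a : VF I) :
    κ.AC (k :: w) a = reL κ (stL k (κ.AC w a)) := rfl

private theorem dl_AC (m : ℕ) (a : VF I) :
    dl (κ.AC (List.replicate m (dk κ.k)) a) =
      ((m + 1 : ℕ) : ℝ≥0∞) • κ.AC (List.replicate (m + 1) (dk κ.k)) a +
      ∑ j ∈ Finset.range m, κ.AC (List.replicate j (dk κ.k) ++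
        dk (dk κ.k) :: List.replicate (m - 1 - j) (dk κ.k)) a +
      κ.AC (List.replicate m (dk κ.k)) (dv a) := by
  induction m with
  | zero =>
    rw [Finset.sum_range_zero, add_zero, zero_add, Nat.cast_one, one_smul]
    have h1 := dl_reL (κ := κ) (toN a)
    rw [dl_toN] at h1
    rw [add_comm]
    exact h1
  | succ m ih =>
    have h1 : κ.AC (List.replicate (m + 1) (dk κ.k)) a =
        reL κ (stL (dk κ.k) (κ.AC (List.replicate m (dk κ.k)) a)) := rfl
    have h2 : reL κ (stL (dk κ.k) (κ.AC (List.replicate (m + 1) (dk κ.k)) a)) =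
        κ.AC (List.replicate (m + 1 + 1) (dk κ.k)) a := rfl
    have h3 : reL κ (stL (dk (dk κ.k)) (κ.AC (List.replicate m (dk κ.k)) a)) =
        κ.AC (List.replicate 0 (dk κ.k) ++ dk (dk κ.k) ::
          List.replicate (m + 1 - 1 - 0) (dk κ.k)) a := rfl
    have h4 : reL κ (stL (dk κ.k) (κ.AC (List.replicate m (dk κ.k)) (dv a))) =
        κ.AC (List.replicate (m + 1) (dk κ.k)) (dv a) := rfl
    have h5 : ∀ j ∈ Finset.range m, reL κ (stL (dk κ.k) (κ.AC (List.replicate j (dk κ.k) ++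
        dk (dk κ.k) :: List.replicate (m - 1 - j) (dk κ.k)) a)) =
        κ.AC (List.replicate (j + 1) (dk κ.k) ++
        dk (dk κ.k) :: List.replicate (m + 1 - 1 - (j + 1)) (dk κ.k)) a := by
      intro j _
      have h6 : m + 1 - 1 - (j + 1) = m - 1 - j := by omega
      rw [h6]
      rfl
    rw [h1, dl_reL, dl_stL, ih, map_add (reL κ), h3, map_add, map_add, map_add, map_add,
      map_smul, map_smul, h4, map_sum, map_sum, Finset.sum_congr rfl h5, ← h1, h2,
      Finset.sum_range_succ', Nat.cast_succ (m + 1), add_smul, one_smul]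
    abel

/-- Induction on `m`: with `D = dk κ.k`, `δ = n ·`,
`δ AC D^(m+1) = reC (δ (stC D (AC D^m))) + AC D^(m+2) = AC (D2 :: D^m) + reC (stC D (δ AC D^m)) + AC D^(m+2)`. -/
theorem der_AC (m : ℕ) (a : VF I) (n : ℕ) (x : XX I) :
    (n : ℝ≥0∞) * κ.AC (List.replicate m (dk κ.k)) a n x =
      ((m + 1 : ℕ) : ℝ≥0∞) * κ.AC (List.replicate (m + 1) (dk κ.k)) a n x +
      ∑ j ∈ Finset.range m, κ.AC (List.replicate j (dk κ.k) ++
        dk (dk κ.k) :: List.replicate (m - 1 - j) (dk κ.k)) a n x +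
      κ.AC (List.replicate m (dk κ.k)) (dv a) n x := by
  have h := congrFun (congrFun (dl_AC (κ := κ) m a) n) x
  rw [Pi.add_apply, Pi.add_apply, Pi.add_apply, Pi.add_apply, Finset.sum_apply,
    Finset.sum_apply] at h
  exact h

theorem der_FC (m : ℕ) (b a : VF I) (n : ℕ) :
    (n : ℝ≥0∞) * κ.FC b (List.replicate m (dk κ.k)) a n =
      ((m + 1 : ℕ) : ℝ≥0∞) * κ.FC b (List.replicate (m + 1) (dk κ.k)) a n +
      ∑ j ∈ Finset.range m, κ.FC b (List.replicate j (dk κ.k) ++
        dk (dk κ.k) :: List.replicate (m - 1 - j) (dk κ.k)) a n +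
      κ.FC b (List.replicate m (dk κ.k)) (dv a) n +
      κ.FC (dv b) (List.replicate m (dk κ.k)) a n := by
  have h1 : (n : ℝ≥0∞) * κ.FC b (List.replicate m (dk κ.k)) a n =
      blC (dl (toN b)) (κ.AC (List.replicate m (dk κ.k)) a) n +
      blL (toN b) n (dl (κ.AC (List.replicate m (dk κ.k)) a)) := der_blC _ _ n
  rw [h1, dl_toN, dl_AC, map_add, map_add, map_smul, map_sum, add_comm]
  rfl

end Slb

end Pool.Agent.KSlab
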