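import Pool.Agent.KSlab.WReal

/-! SW13: the words in the half-plane. -/

set_option autoImplicit false

open Complex Set Filter Topology
open scoped ENNReal

namespace Pool.Agent.KSlab

namespace Slb

variable {I : Type} [Fintype I] {κ : Slb I} {a b : VF I} {w : List (KF I)}

theorem Ok.fc_fin (hκ : κ.Ok) (hw : ∀ k ∈ w, κ.Ad k ∧ Nn k) (ha : κ.Cp a) (hb : κ.Cp b)
    (n : ℕ) : κ.FC b w a n ≠ ⊤ := by
  intro h
  have h1 := (hκ.fc_real hw ha hb one_pos).2.2
  have h2 : κ.FC b w a n * ENNReal.ofReal (Real.exp (-n * 1)) ≤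
      ∑' n : ℕ, κ.FC b w a n * ENNReal.ofReal (Real.exp (-n * 1)) :=
    ENNReal.le_tsum n
  rw [h1, h, ENNReal.top_mul (ENNReal.ofReal_pos.2 (Real.exp_pos _)).ne'] at h2
  exact ENNReal.ofReal_ne_top (top_le_iff.1 h2)

private theorem fc_term (hκ : κ.Ok) (hw : ∀ k ∈ w, κ.Ad k ∧ Nn k) (ha : κ.Cp a) (hb : κ.Cp b)
    (σ : ℝ) (n : ℕ) : κ.FC b w a n * ENNReal.ofReal (Real.exp (-n * σ)) =
      ENNReal.ofReal ((κ.FC b w a n).toReal * Real.exp (-n * σ)) := by
  rw [ENNReal.ofReal_mul ENNReal.toReal_nonneg, ENNReal.ofReal_toReal (hκ.fc_fin hw ha hb n)]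

theorem Ok.fc_summable (hκ : κ.Ok) (hw : ∀ k ∈ w, κ.Ad k ∧ Nn k) (ha : κ.Cp a) (hb : κ.Cp b)
    {σ : ℝ} (hσ : 0 < σ) : Summable fun n : ℕ => (κ.FC b w a n).toReal * Real.exp (-n * σ) := by
  have h1 : ∑' n : ℕ, κ.FC b w a n * ENNReal.ofReal (Real.exp (-n * σ)) ≠ ⊤ := by
    rw [(hκ.fc_real hw ha hb hσ).2.2]
    exact ENNReal.ofReal_ne_top
  refine (ENNReal.summable_toReal h1).congr fun n => ?_
  rw [ENNReal.toReal_mul, ENNReal.toReal_ofReal (Real.exp_pos _).le]

/-- The value at a real point. -/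
private theorem fc_at (hκ : κ.Ok) (hw : ∀ k ∈ w, κ.Ad k ∧ Nn k) (ha : κ.Cp a) (hb : κ.Cp b)
    {σ : ℝ} (hσ : 0 < σ) :
    ∑' n : ℕ, ((κ.FC b w a n).toReal : ℂ) * exp (-n * (σ : ℂ)) = κ.FW σ b w a := by
  obtain ⟨hre, him, hU⟩ := hκ.fc_real hw ha hb hσ
  have hnn : ∀ n : ℕ, 0 ≤ (κ.FC b w a n).toReal * Real.exp (-n * σ) := fun n =>
    mul_nonneg ENNReal.toReal_nonneg (Real.exp_pos _).le
  have hs := hκ.fc_summable hw ha hb hσ
  have h1 : ∑' n : ℕ, κ.FC b w a n * ENNReal.ofReal (Real.exp (-n * σ)) =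
      ENNReal.ofReal (∑' n : ℕ, (κ.FC b w a n).toReal * Real.exp (-n * σ)) := by
    rw [ENNReal.ofReal_tsum_of_nonneg hnn hs]
    exact tsum_congr fun n => fc_term hκ hw ha hb σ n
  rw [h1, ENNReal.ofReal_eq_ofReal_iff (tsum_nonneg hnn) hre] at hU
  have h2 : κ.FW σ b w a = ((κ.FW σ b w a).re : ℂ) := by
    apply Complex.ext
    · simp
    · simpa using him
  rw [h2, ← hU, Complex.ofReal_tsum]
  refine tsum_congr fun n => ?_
  push_cast
  rfl

/-- The identity theorem as in `Tot.half` (`FinF.lean`): both sides are analytic in the half-plane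
(`FW_diff`) and agree at the real points (`fc_real`). -/
theorem Ok.fc_half (hκ : κ.Ok) (hw : ∀ k ∈ w, κ.Ad k ∧ Nn k) (ha : κ.Cp a) (hb : κ.Cp b)
    {s : ℂ} (hs : 0 < s.re) :
    ∑' n : ℕ, ((κ.FC b w a n).toReal : ℂ) * exp (-n * s) = κ.FW s b w a := by
  have hopen : IsOpen {s : ℂ | 0 < s.re} := isOpen_lt continuous_const continuous_re
  have hL : DifferentiableOn ℂ (fun s : ℂ => ∑' n : ℕ, ((κ.FC b w a n).toReal : ℂ) * exp (-n * s))
      {s : ℂ | 0 < s.re} := by
    intro w' hw'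
    have hw0 : 0 < w'.re := hw'
    have hε : 0 < w'.re / 2 := by linarith
    have hopen' : IsOpen {s : ℂ | w'.re / 2 < s.re} := isOpen_lt continuous_const continuous_re
    have hd : DifferentiableOn ℂ
        (fun s : ℂ => ∑' n : ℕ, ((κ.FC b w a n).toReal : ℂ) * exp (-n * s))
        {s : ℂ | w'.re / 2 < s.re} := by
      refine differentiableOn_tsum_of_summable_norm (hκ.fc_summable hw ha hb hε) (fun n => ?_)
        hopen' fun n v hv => ?_
      · have : Differentiable ℂ fun v : ℂ => ((κ.FC b w a n).toReal : ℂ) * exp (-n * v) := by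
          fun_prop
        exact this.differentiableOn
      · have hv' : w'.re / 2 < v.re := hv
        rw [norm_mul, Complex.norm_exp, Complex.norm_real,
          Real.norm_of_nonneg ENNReal.toReal_nonneg]
        refine mul_le_mul_of_nonneg_left ?_ ENNReal.toReal_nonneg
        apply Real.exp_le_exp.2
        have h1 : (-(n : ℂ) * v).re = -(n * v.re) := by simp
        rw [h1]
        have : (0 : ℝ) ≤ n := n.cast_nonneg
        nlinarith
    have hmem : w' ∈ {s : ℂ | w'.re / 2 < s.re} := by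
      change w'.re / 2 < w'.re
      linarith
    exact (hd.differentiableAt (hopen'.mem_nhds hmem)).differentiableWithinAt
  have hR : DifferentiableOn ℂ (fun s : ℂ => κ.FW s b w a) {s : ℂ | 0 < s.re} := by
    refine (hκ.FW_diff (fun k hk => (hw k hk).1) ha hb).mono fun v hv => ?_
    have hv' : 0 < v.re := hv
    refine ⟨hκ.half_reg hv, ?_⟩
    linarith
  have hconv : IsPreconnected {s : ℂ | 0 < s.re} := (convex_halfSpace_re_gt 0).isPreconnected
  have hfreq : ∃ᶠ z in 𝓝[≠] (1 : ℂ), (∑' n : ℕ, ((κ.FC b w a n).toReal : ℂ) * exp (-n * z)) =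
      κ.FW z b w a := by
    have ht : Tendsto (fun σ : ℝ => (σ : ℂ)) (𝓝[≠] 1) (𝓝[≠] 1) := by
      refine tendsto_nhdsWithin_iff.2 ⟨?_, ?_⟩
      · have : Tendsto (fun σ : ℝ => (σ : ℂ)) (𝓝 1) (𝓝 ((1 : ℝ) : ℂ)) :=
          Complex.continuous_ofReal.tendsto 1
        rw [Complex.ofReal_one] at this
        exact this.mono_left nhdsWithin_le_nhds
      · filter_upwards [self_mem_nhdsWithin] with σ hσ
        intro h0
        have h2 : (σ : ℂ) = 1 := h0
        exact hσ (show σ = 1 by exact_mod_cast h2)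
    refine ht.frequently (Filter.Eventually.frequently ?_)
    have h1 : ∀ᶠ σ : ℝ in 𝓝[≠] 1, 0 < σ :=
      (lt_mem_nhds (by norm_num : (0 : ℝ) < 1)).filter_mono nhdsWithin_le_nhds
    filter_upwards [h1] with σ hσ
    exact fc_at hκ hw ha hb hσ
  exact (hL.analyticOnNhd hopen).eqOn_of_preconnected_of_frequently_eq (hR.analyticOnNhd hopen)
    hconv (show (1 : ℂ) ∈ {s : ℂ | 0 < s.re} by simp) hfreq hs

end Slb

end Pool.Agent.KSlab
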