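import Pool.Agent.KSlab.WAn
import Pool.Agent.KSlab.FinA

/-! SW15: from orders at the singularity to bounds of the coefficients. -/

set_option autoImplicit false

open Complex Set Filter Topology
open scoped ENNReal

namespace Pool.Agent.KSlab

namespace Slb

variable {I : Type} [Fintype I] {κ : Slb I}

private theorem wtr_half_re (S : ℂ) : (S / 2).re = S.re / 2 := by
  have : (S / 2) = ((1 / 2 : ℝ) : ℂ) * S := by push_cast; ring
  rw [this, Complex.re_ofReal_mul]; ring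

private theorem wtr_half_norm (S : ℂ) : ‖S / 2‖ = ‖S‖ / 2 := by
  rw [norm_div]; norm_num

private theorem wtr_trd (hκ : κ.Ok) {d : ℕ → ℝ} {f : ℂ → ℂ} {p : ℝ} (hp : p < 1)
    (hs : ∀ σ : ℝ, 0 < σ → Summable fun n : ℕ => |d n| * Real.exp (-n * σ))
    (hodd : ∀ n, Odd n → d n = 0)
    (hf : ∀ s : ℂ, 0 < s.re → f s = ∑' n : ℕ, d n * exp (-n * s))
    (hd : DifferentiableOn ℂ f κ.RegW) (hO : κ.Of p f) :
    ∃ r C : ℝ, TrD (fun k => d (2 * k)) (fun S => f (S / 2)) r p 0 C := by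
  obtain ⟨C, r₀, hC, hr₀, hnear⟩ := hO
  have hz := hκ.z_pos
  set r : ℝ := min (min (80 * κ.z) (2 * r₀)) 1 with hr
  have hr0 : 0 < r := lt_min (lt_min (by positivity) (by positivity)) (by norm_num)
  have hr1 : r ≤ 80 * κ.z := (min_le_left _ _).trans (min_le_left _ _)
  have hr2 : r ≤ 2 * r₀ := (min_le_left _ _).trans (min_le_right _ _)
  have hr3 : r ≤ 1 := min_le_right _ _
  have hinj : Function.Injective fun k : ℕ => 2 * k := fun a b h => by
    have h' : 2 * a = 2 * b := h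
    omega
  have hsec : ∀ S ∈ Pool.Agent.KAsym.Sct r, S / 2 ∈ κ.Sec := by
    rintro S ⟨h1, h2, h3⟩
    refine ⟨div_ne_zero h1 two_ne_zero, ?_, ?_⟩
    · rw [wtr_half_norm]; linarith
    · rw [wtr_half_norm, wtr_half_re]; linarith
  have hdiff : ∀ V : Set ℂ, (∀ S ∈ V, S / 2 ∈ κ.RegW) →
      DifferentiableOn ℂ (fun S : ℂ => f (S / 2)) V := by
    intro V hV
    have hh : DifferentiableOn ℂ (fun S : ℂ => S / 2) V := by fun_prop
    exact hd.comp hh fun S hS => hV S hS
  refine ⟨r, C * (2 : ℝ) ^ (-p), ?_⟩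
  refine { summable := ?_, r_pos := hr0, r_le := hr3, p_lt := hp, eq := ?_, ext := ?_,
           near := ?_ }
  · intro σ hσ
    have h1 := (hs (σ / 2) (by positivity)).comp_injective hinj
    refine h1.congr fun k => ?_
    simp only [Function.comp]
    congr 2
    push_cast
    ring
  · intro S hS
    have h1 := hf (S / 2) (by rw [wtr_half_re]; linarith)
    rw [h1]
    have h2 : ∑' k : ℕ, (fun n : ℕ => ((d n : ℝ) : ℂ) *
        Complex.exp (-n * (S / 2))) (2 * k) = ∑' n : ℕ, ((d n : ℝ) : ℂ) *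
        Complex.exp (-n * (S / 2)) := by
      refine hinj.tsum_eq (f := fun n : ℕ => ((d n : ℝ) : ℂ) *
        Complex.exp (-n * (S / 2))) fun n hn => ?_
      by_contra hcon
      have hodd' : Odd n := by
        rw [← Nat.not_even_iff_odd]
        exact fun ⟨k, hk⟩ => hcon ⟨k, by simp only; omega⟩
      apply hn
      simp only [hodd n hodd', Complex.ofReal_zero, zero_mul]
    rw [← h2]
    refine tsum_congr fun k => ?_
    simp only
    congr 2
    push_cast
    ring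
  · intro φ h1 h2
    have hmem : (φ * Complex.I : ℂ) / 2 ∈ κ.RegW := by
      by_cases h3 : |φ| < 80 * κ.z
      · apply hκ.sec_regW
        have hn : ‖(φ * Complex.I : ℂ) / 2‖ = |φ| / 2 := by
          rw [wtr_half_norm, norm_mul, Complex.norm_real, Complex.norm_I, mul_one,
            Real.norm_eq_abs]
        refine ⟨?_, ?_, ?_⟩
        · rw [← norm_pos_iff, hn]; linarith
        · rw [hn]; linarith
        · rw [hn, wtr_half_re]
          have : (φ * Complex.I : ℂ).re = 0 := by simp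
          rw [this]
          linarith
      · exact hκ.far_regW (hκ.mem_far (by linarith) h2)
    have hW : IsOpen {S : ℂ | S / 2 ∈ κ.RegW} :=
      hκ.regW_open.preimage (by fun_prop : Continuous fun S : ℂ => S / 2)
    obtain ⟨ε, hε, hsub⟩ := Metric.isOpen_iff.1 hW (φ * Complex.I : ℂ) hmem
    exact ⟨ε, hε, fun S => f (S / 2), hdiff _ hsub, fun S _ _ => rfl⟩
  · refine ⟨fun S => f (S / 2), hdiff _ fun S hS => hκ.sec_regW (hsec S hS),
      fun S _ _ => rfl, fun S hS => ?_⟩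
    have h1 := hnear (S / 2) (hsec S hS) (by rw [wtr_half_norm]; linarith [hS.2.1])
    rw [sub_zero]
    refine h1.trans (le_of_eq ?_)
    rw [wtr_half_norm, Real.div_rpow (norm_nonneg S) (by norm_num), Real.rpow_neg (by norm_num)]
    ring

/-- With `S = 2 s` the sequence `k ↦ d (2 k)` and the function `S ↦ f (S / 2)` satisfy `TrD` (with `A = 0`), exactly
as in the proof of `Ok.asymp` (`FinA.lean`): `ext` by `mem_far`, `far_regW` or (`|φ| < 80 z`) `sec_regW`, `regW_open`;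
`near` by `hO`. Then `TrD.bd`; the coefficients with odd index vanish. -/
theorem Ok.par_bd (hκ : κ.Ok) {d : ℕ → ℝ} {f : ℂ → ℂ} {p : ℝ} (hp : p < 1)
    (hs : ∀ σ : ℝ, 0 < σ → Summable fun n : ℕ => |d n| * Real.exp (-n * σ))
    (hodd : ∀ n, Odd n → d n = 0)
    (hf : ∀ s : ℂ, 0 < s.re → f s = ∑' n : ℕ, d n * exp (-n * s))
    (hd : DifferentiableOn ℂ f κ.RegW) (hO : κ.Of p f) :
    ∃ M : ℝ, ∀ n : ℕ, 1 ≤ n → |d n| ≤ M * (n : ℝ) ^ (-1 - p) := by
  obtain ⟨r, C, hT⟩ := wtr_trd hκ hp hs hodd hf hd hO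
  obtain ⟨M, hM⟩ := hT.bd
  refine ⟨|M| * (2 : ℝ) ^ (1 + p), fun n hn => ?_⟩
  have hn0 : (0 : ℝ) ≤ n := Nat.cast_nonneg n
  rcases Nat.even_or_odd n with he | ho
  · obtain ⟨k, hk⟩ := he
    have hk2 : n = 2 * k := by omega
    have hk1 : 1 ≤ k := by omega
    have h1 := hM k hk1
    rw [hk2]
    refine h1.trans ?_
    have hk0 : (0 : ℝ) ≤ k := Nat.cast_nonneg k
    have h2 : ((2 * k : ℕ) : ℝ) ^ (-1 - p) = (2 : ℝ) ^ (-1 - p) * (k : ℝ) ^ (-1 - p) := by
      push_cast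
      rw [Real.mul_rpow (by norm_num) hk0]
    have h3 : (2 : ℝ) ^ (1 + p) * (2 : ℝ) ^ (-1 - p) = 1 := by
      rw [← Real.rpow_add (by norm_num), show 1 + p + (-1 - p) = 0 by ring, Real.rpow_zero]
    rw [h2]
    calc M * (k : ℝ) ^ (-1 - p) ≤ |M| * (k : ℝ) ^ (-1 - p) :=
          mul_le_mul_of_nonneg_right (le_abs_self M) (Real.rpow_nonneg hk0 _)
      _ = |M| * ((2 : ℝ) ^ (1 + p) * (2 : ℝ) ^ (-1 - p)) * (k : ℝ) ^ (-1 - p) := by
          rw [h3, mul_one]
      _ = |M| * (2 : ℝ) ^ (1 + p) * ((2 : ℝ) ^ (-1 - p) * (k : ℝ) ^ (-1 - p)) := by ring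
  · rw [hodd n ho, abs_zero]
    positivity

end Slb

end Pool.Agent.KSlab
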