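import Pool.Agent.KSlab.WWord
import Pool.Agent.KSlab.WPar
import Pool.Agent.KSlab.WHalf
import Pool.Agent.KSlab.WDer
import Pool.Agent.KSlab.WTr

/-! SW16: the asymptotics of the words of the kernel weighted by the size. -/

set_option autoImplicit false

open Complex Set Filter Topology
open scoped ENNReal

namespace Pool.Agent.KSlab

namespace Slb

variable {I : Type} [Fintype I] {κ : Slb I} {par : XX I → ℕ}

omit [Fintype I] in
/-- The sum over the sizes at a real point. -/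
private theorem dw_ofReal {c : ℕ → ℝ} (hc : ∀ n, 0 ≤ c n) (hs : Summable fun n => 2 ^ n * c n)
    {σ : ℝ} (hσ : 0 < σ) :
    ∑' n : ℕ, ENNReal.ofReal (c n) * ENNReal.ofReal (Real.exp (-n * σ)) =
      ENNReal.ofReal (∑' n : ℕ, c n * Real.exp (-n * σ)) := by
  have h1 : Summable fun n : ℕ => c n * Real.exp (-n * σ) := by
    refine Summable.of_nonneg_of_le (fun n => mul_nonneg (hc n) (Real.exp_pos _).le)
      (fun n => ?_) hs
    have h2 : Real.exp (-n * σ) ≤ 1 := by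
      rw [← Real.exp_zero]
      apply Real.exp_le_exp.2
      have h3 : (0 : ℝ) ≤ n * σ := mul_nonneg n.cast_nonneg hσ.le
      linarith
    have h4 : (1 : ℝ) ≤ 2 ^ n := one_le_pow₀ (by norm_num)
    have h5 := hc n
    nlinarith
  rw [ENNReal.ofReal_tsum_of_nonneg (fun n => mul_nonneg (hc n) (Real.exp_pos _).le) h1]
  exact tsum_congr fun n => (ENNReal.ofReal_mul (hc n)).symm

omit [Fintype I] in
/-- The sources at a real point. -/
private theorem dw_cE (hκ : κ.Ok) {σ : ℝ} (hσ : 0 < σ) : vE (toN κ.c) σ = κ.cE σ := by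
  obtain ⟨C, hC⟩ := hκ.c_sum
  funext x
  exact dw_ofReal (fun n => hκ.c_nn n x) (hC x).1 hσ

omit [Fintype I] in
/-- The kernel at a real point. -/
private theorem dw_kE (hκ : κ.Ok) {σ : ℝ} (hσ : 0 < σ) (x y : XX I) :
    (∑' n : ℕ, ENNReal.ofReal (κ.k n x y) * ENNReal.ofReal (Real.exp (-n * σ))) =
      κ.kE σ y x := by
  have h1 : Summable fun n => 2 ^ n * κ.k n x y :=
    (hκ.k_sum x).comp_injective (i := fun n : ℕ => (n, y)) fun a b h => (Prod.mk.inj h).1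
  rw [dw_ofReal (fun n => hκ.k_nn n x y) h1 hσ]
  unfold kE
  simp only [hκ.k_symm _ x y]

omit [Fintype I] in
/-- The iterates at a real point. -/
private theorem dw_iter (hκ : κ.Ok) {σ : ℝ} (hσ : 0 < σ) (N : ℕ) :
    (stE κ.k σ)^[N] (κ.cE σ) = κ.MM σ N := by
  induction N with
  | zero => rfl
  | succ N ih =>
    rw [Function.iterate_succ_apply', ih]
    funext x
    unfold stE
    simp only [dw_kE hκ hσ]
    exact tsum_congr fun y => mul_comm _ _

/-- The data of the asymptotics. -/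
private theorem dw_tot (hκ : κ.Ok) (hk : KPar par κ.k) (hc : VPar par κ.c) :
    κ.Tot (fun n => (κ.FC κ.c [] κ.c n).toReal) (fun _ => 0) 1 := by
  refine ⟨one_pos, fun n => ENNReal.toReal_nonneg, fun n => le_rfl, fun n hn => ?_, ?_, ?_⟩
  · show (κ.FC κ.c [] κ.c n).toReal = 0
    rw [fc_odd hk (by simp) hc hc hn, ENNReal.toReal_zero]
  · simp only [mul_zero]
    exact summable_zero
  · intro σ hσ
    have h1 : ∀ n : ℕ, ENNReal.ofReal ((κ.FC κ.c [] κ.c n).toReal * Real.exp (-n * σ)) =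
        κ.FC κ.c [] κ.c n * ENNReal.ofReal (Real.exp (-n * σ)) := by
      intro n
      rw [ENNReal.ofReal_mul ENNReal.toReal_nonneg, ENNReal.ofReal_toReal
        (hκ.fc_fin (by simp) hκ.cp_c.1 hκ.cp_c.1 n)]
    rw [tsum_congr h1, tsum_FC, dw_cE hκ hσ]
    simp only [zero_mul, ENNReal.ofReal_zero, tsum_zero, zero_add, ENNReal.ofReal_one, one_mul]
    rw [ENNReal.tsum_comm]
    refine tsum_congr fun x => ?_
    have h2 : κ.AE σ [] κ.c x = ∑' N, κ.MM σ N x := by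
      show κ.reE σ (vE (toN κ.c) σ) x = _
      rw [dw_cE hκ hσ]
      unfold reE
      exact tsum_congr fun N => congrFun (dw_iter hκ hσ N) x
    rw [h2, ← ENNReal.tsum_mul_left]
    exact tsum_congr fun N => mul_comm _ _

/-- The marked elements of the words are admissible. -/
private theorem dw_mem (hκ : κ.Ok) (hk : KPar par κ.k) {w : List (KF I)}
    (hw : ∀ k ∈ w, k = dk κ.k ∨ k = dk (dk κ.k)) :
    (∀ k ∈ w, κ.Ad k ∧ Nn k) ∧ ∀ k ∈ w, KPar par k := by
  refine ⟨fun k hkw => ?_, fun k hkw => ?_⟩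
  · rcases hw k hkw with rfl | rfl
    · exact ⟨hκ.ad_dk, hκ.nn_dk.2.1⟩
    · exact ⟨hκ.ad_ddk, hκ.nn_dk.2.2⟩
  · rcases hw k hkw with rfl | rfl
    · exact kpar_dk hk
    · exact kpar_dk (kpar_dk hk)

/-- The bound of one error term. -/
private theorem dw_bd (hκ : κ.Ok) (hk : KPar par κ.k) {w : List (KF I)} {a b : VF I}
    (hw : ∀ k ∈ w, k = dk κ.k ∨ k = dk (dk κ.k)) (ha : κ.Cp a) (hb : κ.Cp b)
    (pa : VPar par a) (pb : VPar par b) (m : ℕ) (hO : κ.Of (-m) (fun s => κ.FW s b w a)) :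
    ∃ M : ℝ, ∀ n : ℕ, 1 ≤ n → (κ.FC b w a n).toReal ≤ M * (n : ℝ) ^ ((m : ℝ) - 1) := by
  obtain ⟨h1, h2⟩ := dw_mem hκ hk hw
  have hp : (-(m : ℝ)) < 1 := by
    have : (0 : ℝ) ≤ m := m.cast_nonneg
    linarith
  obtain ⟨M, hM⟩ := hκ.par_bd (d := fun n => (κ.FC b w a n).toReal)
    (f := fun s => κ.FW s b w a) hp
    (fun σ hσ => by
      refine (hκ.fc_summable h1 ha hb hσ).congr fun n => ?_
      rw [abs_of_nonneg ENNReal.toReal_nonneg])
    (fun n hn => by
      show (κ.FC b w a n).toReal = 0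
      rw [fc_odd hk h2 pa pb hn, ENNReal.toReal_zero])
    (fun s hs => (hκ.fc_half h1 ha hb hs).symm)
    (hκ.FW_diff (fun k hkw => (h1 k hkw).1) ha hb) hO
  refine ⟨M, fun n hn => ?_⟩
  have h3 := hM n hn
  have h4 : (-1 - -(m : ℝ)) = (m : ℝ) - 1 := by ring
  rw [h4] at h3
  exact (le_abs_self _).trans h3

/-- `Ok.asymp` with `a n = (FC c [] c n).toReal`, `u = 0`, `Y = 1`: `Tot.gen` by `tsum_FC` (`AE σ [] c = reE σ (cE σ)`, and
`stE κ.k σ` on functions is the step of `MM` because `κ.k` is symmetric), `fc_fin`; `Tot.odd` by `fc_odd`. -/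
theorem Ok.dw_zero (hκ : κ.Ok) (hk : KPar par κ.k) (hc : VPar par κ.c) : ∃ A : ℝ, 0 < A ∧
    Tendsto (fun j : ℕ => (κ.FC κ.c [] κ.c (2 * j)).toReal * ((2 * j : ℕ) : ℝ) ^ (3 / 2 : ℝ))
      atTop (𝓝 A) := by
  exact hκ.asymp (dw_tot hκ hk hc)

/-- The error terms of `der_FC` are `O(n ^ (m - 1))`: `par_bd` with `p = -m` applied to each of them; `fc_half`,
`fc_summable`, `FW_diff`, `fc_odd`; the orders: `of_word` (`D2` words: `1/2 - m ≥ -m`), `of_word_cap`, and `FW_rev` for the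
cap `dv c` on the right. -/
theorem Ok.dw_err (hκ : κ.Ok) (hk : KPar par κ.k) (hc : VPar par κ.c) (m : ℕ) : ∃ M : ℝ,
    ∀ n : ℕ, 1 ≤ n → |n * (κ.FC κ.c (List.replicate m (dk κ.k)) κ.c n).toReal -
      (m + 1) * (κ.FC κ.c (List.replicate (m + 1) (dk κ.k)) κ.c n).toReal| ≤
        M * (n : ℝ) ^ ((m : ℝ) - 1) := by
  have hDw : ∀ k ∈ List.replicate m (dk κ.k), k = dk κ.k ∨ k = dk (dk κ.k) :=
    fun k hk => Or.inl (List.eq_of_mem_replicate hk)
  have hDw' : ∀ k ∈ List.replicate (m + 1) (dk κ.k), k = dk κ.k ∨ k = dk (dk κ.k) :=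
    fun k hk => Or.inl (List.eq_of_mem_replicate hk)
  have hW : ∀ j, ∀ k ∈ List.replicate j (dk κ.k) ++
      dk (dk κ.k) :: List.replicate (m - 1 - j) (dk κ.k), k = dk κ.k ∨ k = dk (dk κ.k) := by
    intro j k hk
    rcases List.mem_append.1 hk with h | h
    · exact Or.inl (List.eq_of_mem_replicate h)
    · rcases List.mem_cons.1 h with h | h
      · exact Or.inr h
      · exact Or.inl (List.eq_of_mem_replicate h)
  have hcc := hκ.cp_c.1
  have hdc := hκ.cp_c.2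
  have pdc : VPar par (dv κ.c) := vpar_dv hc
  -- the words with one element weighted twice
  have hj : ∀ j ∈ Finset.range m, ∃ M : ℝ, ∀ n : ℕ, 1 ≤ n →
      (κ.FC κ.c (List.replicate j (dk κ.k) ++
        dk (dk κ.k) :: List.replicate (m - 1 - j) (dk κ.k)) κ.c n).toReal ≤
        M * (n : ℝ) ^ ((m : ℝ) - 1) := by
    intro j hj
    rw [Finset.mem_range] at hj
    refine dw_bd hκ hk (hW j) hcc hcc hc hc m ?_
    have h1 := hκ.of_word (w := List.replicate j (dk κ.k) ++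
        dk (dk κ.k) :: List.replicate (m - 1 - j) (dk κ.k))
      (fun k hkw => ((dw_mem hκ hk (hW j)).1 k hkw).1) (by simp)
    have h2 : (List.replicate j (dk κ.k) ++
        dk (dk κ.k) :: List.replicate (m - 1 - j) (dk κ.k)).length = m := by
      rw [List.length_append, List.length_cons, List.length_replicate, List.length_replicate]
      omega
    rw [h2] at h1
    exact h1.mono (by linarith)
  have hR : ∀ w : List (KF I), w = List.replicate m (dk κ.k) →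
      κ.Of (-m) (fun s => κ.FW s (dv κ.c) w κ.c) := by
    rintro w rfl
    have h1 := hκ.of_word_cap (w := List.replicate m (dk κ.k)) (b := dv κ.c)
      (fun k hkw => ((dw_mem hκ hk hDw).1 k hkw).1) hdc
    rwa [List.length_replicate] at h1
  obtain ⟨M1, hM1⟩ := dw_bd hκ hk hDw hcc hdc hc pdc m (hR _ rfl)
  obtain ⟨M2, hM2⟩ := dw_bd hκ hk hDw hdc hcc pdc hc m (by
    obtain ⟨C, r, hC, hr, hh⟩ := hR _ rfl
    refine ⟨C, r, hC, hr, fun s hs hsr => ?_⟩
    have h1 := hκ.FW_rev (k := dk κ.k) (a := κ.c) (b := dv κ.c) hκ.ad_dk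
      (fun n x y => by unfold dk; rw [hκ.k_symm]) m hcc hdc (hκ.sec_regW hs)
    show ‖κ.FW s κ.c (List.replicate m (dk κ.k)) (dv κ.c)‖ ≤ _
    rw [← h1]
    exact hh s hs hsr)
  choose! M hM using hj
  refine ⟨∑ j ∈ Finset.range m, M j + M2 + M1, fun n hn => ?_⟩
  have hder := der_FC (κ := κ) m κ.c κ.c n
  have f1 := hκ.fc_fin (dw_mem hκ hk hDw').1 hcc hcc n
  have f2 : ∀ j ∈ Finset.range m, κ.FC κ.c (List.replicate j (dk κ.k) ++
        dk (dk κ.k) :: List.replicate (m - 1 - j) (dk κ.k)) κ.c n ≠ ⊤ := fun j _ =>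
    hκ.fc_fin (dw_mem hκ hk (hW j)).1 hcc hcc n
  have f3 := hκ.fc_fin (dw_mem hκ hk hDw).1 hdc hcc n
  have f4 := hκ.fc_fin (dw_mem hκ hk hDw).1 hcc hdc n
  have g1 : ((m + 1 : ℕ) : ℝ≥0∞) * κ.FC κ.c (List.replicate (m + 1) (dk κ.k)) κ.c n ≠ ⊤ :=
    ENNReal.mul_ne_top (ENNReal.natCast_ne_top _) f1
  have g2 : ∑ j ∈ Finset.range m, κ.FC κ.c (List.replicate j (dk κ.k) ++
        dk (dk κ.k) :: List.replicate (m - 1 - j) (dk κ.k)) κ.c n ≠ ⊤ :=
    ENNReal.sum_ne_top.2 f2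
  have h1 := congrArg ENNReal.toReal hder
  rw [ENNReal.toReal_add (ENNReal.add_ne_top.2 ⟨ENNReal.add_ne_top.2 ⟨g1, g2⟩, f3⟩) f4,
    ENNReal.toReal_add (ENNReal.add_ne_top.2 ⟨g1, g2⟩) f3, ENNReal.toReal_add g1 g2,
    ENNReal.toReal_mul, ENNReal.toReal_mul, ENNReal.toReal_natCast, ENNReal.toReal_natCast,
    ENNReal.toReal_sum f2] at h1
  push_cast at h1
  have h2 : 0 ≤ ∑ j ∈ Finset.range m, (κ.FC κ.c (List.replicate j (dk κ.k) ++
        dk (dk κ.k) :: List.replicate (m - 1 - j) (dk κ.k)) κ.c n).toReal :=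
    Finset.sum_nonneg fun j _ => ENNReal.toReal_nonneg
  have h3 : ∑ j ∈ Finset.range m, (κ.FC κ.c (List.replicate j (dk κ.k) ++
        dk (dk κ.k) :: List.replicate (m - 1 - j) (dk κ.k)) κ.c n).toReal ≤
      (∑ j ∈ Finset.range m, M j) * (n : ℝ) ^ ((m : ℝ) - 1) := by
    rw [Finset.sum_mul]
    exact Finset.sum_le_sum fun j hj => hM j hj n hn
  have h4 := hM1 n hn
  have h5 := hM2 n hn
  have h6 : 0 ≤ (κ.FC κ.c (List.replicate m (dk κ.k)) (dv κ.c) n).toReal :=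
    ENNReal.toReal_nonneg
  have h7 : 0 ≤ (κ.FC (dv κ.c) (List.replicate m (dk κ.k)) κ.c n).toReal :=
    ENNReal.toReal_nonneg
  rw [abs_of_nonneg (by linarith)]
  have h8 : (∑ j ∈ Finset.range m, M j + M2 + M1) * (n : ℝ) ^ ((m : ℝ) - 1) =
      (∑ j ∈ Finset.range m, M j) * (n : ℝ) ^ ((m : ℝ) - 1) +
        M2 * (n : ℝ) ^ ((m : ℝ) - 1) + M1 * (n : ℝ) ^ ((m : ℝ) - 1) := by ring
  rw [h8]
  linarith

/-- Induction on `m` from `dw_zero` and `dw_err`. -/
theorem Ok.dw (hκ : κ.Ok) (hk : KPar par κ.k) (hc : VPar par κ.c) : ∃ A : ℝ, 0 < A ∧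
    ∀ m : ℕ, Tendsto (fun j : ℕ => (κ.FC κ.c (List.replicate m (dk κ.k)) κ.c (2 * j)).toReal *
      ((2 * j : ℕ) : ℝ) ^ (3 / 2 - m : ℝ)) atTop (𝓝 (A / m.factorial)) := by
  obtain ⟨A, hA, h0⟩ := hκ.dw_zero hk hc
  refine ⟨A, hA, fun m => ?_⟩
  induction m with
  | zero =>
    rw [Nat.factorial_zero, Nat.cast_one, div_one]
    refine h0.congr fun j => ?_
    rw [Nat.cast_zero, sub_zero]
    rfl
  | succ m ih =>
    obtain ⟨M, hM⟩ := hκ.dw_err hk hc m
    have hn : Tendsto (fun j : ℕ => ((2 * j : ℕ) : ℝ)) atTop atTop :=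
      tendsto_natCast_atTop_atTop.comp (tendsto_id.const_mul_atTop' (by norm_num))
    -- the error
    have herr : Tendsto (fun j : ℕ => (((2 * j : ℕ) : ℝ) *
        (κ.FC κ.c (List.replicate m (dk κ.k)) κ.c (2 * j)).toReal -
        (m + 1) * (κ.FC κ.c (List.replicate (m + 1) (dk κ.k)) κ.c (2 * j)).toReal) *
        ((2 * j : ℕ) : ℝ) ^ (1 / 2 - m : ℝ)) atTop (𝓝 0) := by
      have h1 : Tendsto (fun j : ℕ => M * ((2 * j : ℕ) : ℝ) ^ (-(1 / 2) : ℝ)) atTop (𝓝 0) := by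
        have h2 := ((tendsto_rpow_neg_atTop (by norm_num : (0 : ℝ) < 1 / 2)).comp hn).const_mul M
        rw [mul_zero] at h2
        exact h2
      rw [tendsto_zero_iff_abs_tendsto_zero]
      refine squeeze_zero' (Eventually.of_forall fun j => abs_nonneg _) ?_ h1
      filter_upwards [eventually_ge_atTop 1] with j hj
      have hj0 : (0 : ℝ) < ((2 * j : ℕ) : ℝ) := by
        have : 0 < 2 * j := by omega
        exact_mod_cast this
      have h3 := hM (2 * j) (by omega)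
      simp only [Function.comp]
      rw [abs_mul, abs_of_nonneg (Real.rpow_nonneg hj0.le _)]
      calc _ ≤ M * ((2 * j : ℕ) : ℝ) ^ ((m : ℝ) - 1) * ((2 * j : ℕ) : ℝ) ^ (1 / 2 - m : ℝ) :=
            mul_le_mul_of_nonneg_right h3 (Real.rpow_nonneg hj0.le _)
        _ = M * ((2 * j : ℕ) : ℝ) ^ (-(1 / 2) : ℝ) := by
            rw [mul_assoc, ← Real.rpow_add hj0]
            congr 2
            ring
    have h2 := (ih.sub herr).div_const ((m : ℝ) + 1)
    have e1 : (A / (m.factorial : ℝ) - 0) / ((m : ℝ) + 1) = A / ((m + 1).factorial : ℝ) := by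
      rw [sub_zero, Nat.factorial_succ, div_div]
      push_cast
      rw [mul_comm]
    rw [e1] at h2
    refine h2.congr' ?_
    filter_upwards [eventually_ge_atTop 1] with j hj
    have hj0 : (0 : ℝ) < ((2 * j : ℕ) : ℝ) := by
      have : 0 < 2 * j := by omega
      exact_mod_cast this
    have e2 : ((2 * j : ℕ) : ℝ) ^ (3 / 2 - m : ℝ) =
        ((2 * j : ℕ) : ℝ) * ((2 * j : ℕ) : ℝ) ^ (1 / 2 - m : ℝ) := by
      have e3 : (3 / 2 - m : ℝ) = 1 + (1 / 2 - m) := by ring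
      rw [e3, Real.rpow_add hj0, Real.rpow_one]
    have e4 : (3 / 2 - ((m + 1 : ℕ) : ℝ)) = 1 / 2 - m := by
      push_cast
      ring
    rw [e2, e4]
    have hm : (m : ℝ) + 1 ≠ 0 := by positivity
    rw [div_eq_iff hm]
    ring

end Slb

end Pool.Agent.KSlab
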