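import Pool.Agent.KSlab.WAn
import Pool.Agent.KSlab.QuadA

/-! SW5: resolvents near the singularity. -/

set_option autoImplicit false

open Complex Set Filter Topology
open scoped ENNReal

namespace Pool.Agent.KSlab

namespace Slb

variable {I : Type} [Fintype I] {κ : Slb I}

/-- The sources are caps. -/
private theorem wf_cp (hκ : κ.Ok) : κ.Cp κ.c := by
  obtain ⟨C, hC⟩ := hκ.c_sum
  refine ⟨hκ.c_nn, hκ.c_dead, max C 0, le_max_right _ _, fun x => ?_⟩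
  have h1 : ∀ n : ℕ, (3 / 2 : ℝ) ^ n * κ.c n x ≤ 2 ^ n * κ.c n x := fun n =>
    mul_le_mul_of_nonneg_right (pow_le_pow_left₀ (by norm_num) (by norm_num) n) (hκ.c_nn n x)
  have h2 : Summable fun n : ℕ => (3 / 2 : ℝ) ^ n * κ.c n x :=
    Summable.of_nonneg_of_le (fun n => mul_nonneg (by positivity) (hκ.c_nn n x)) h1 (hC x).1
  refine ⟨h2, (h2.tsum_le_tsum h1 (hC x).1).trans ((hC x).2.trans ?_)⟩
  exact mul_le_mul_of_nonneg_right (le_max_left _ _) (by positivity)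

/-- The parameter. -/
private theorem wf_w (hκ : κ.Ok) {s : ℂ} (hs : s ∈ κ.Sec) {w0 : ℝ} (hw0 : 0 < w0)
    (hsr : ‖s‖ < κ.aa * (min (1 / 10) w0) ^ 2) :
    ∃ w : ℂ, InK w ∧ ‖w‖ < w0 ∧ κ.aa * w ^ 2 = s ∧ ‖w‖ ^ 2 = ‖s‖ / κ.aa := by
  obtain ⟨hV, hN, ha, -, -⟩ := hκ.V_pos
  have hsa : 0 < √κ.aa := Real.sqrt_pos.2 ha
  have hsq : √κ.aa * √κ.aa = κ.aa := Real.mul_self_sqrt ha.le
  have hq : 0 < min (1 / 10) w0 := lt_min (by norm_num) hw0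
  obtain ⟨hs0, -, hsre⟩ := hs
  have hsn : 0 < ‖s‖ := norm_pos_iff.2 hs0
  obtain ⟨v, hv⟩ : ∃ v : ℂ, v = s ^ (2⁻¹ : ℂ) := ⟨_, rfl⟩
  have hv2 : v ^ 2 = s := by
    rw [hv]
    exact cpow_nat_inv_pow s (n := 2) (by norm_num)
  have hvn : ‖v‖ ^ 2 = ‖s‖ := by rw [← norm_pow, hv2]
  have hvre : v.re = √((‖s‖ + s.re) / 2) := by
    rw [hv]
    exact cpow_inv_two_re s
  have hvre0 : 0 ≤ v.re := by
    rw [hvre]
    exact Real.sqrt_nonneg _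
  have hvre2 : v.re ^ 2 = (‖s‖ + s.re) / 2 := by
    rw [hvre]
    exact Real.sq_sqrt (by linarith)
  have hvpos : 0 < ‖v‖ := by
    rcases (norm_nonneg v).lt_or_eq with h | h
    · exact h
    · rw [← h] at hvn
      norm_num at hvn
      exact absurd hvn.symm hsn.ne'
  have hvlt : ‖v‖ / 2 < v.re := by
    by_contra hcon
    have hcon' := not_lt.1 hcon
    have : v.re ^ 2 ≤ (‖v‖ / 2) ^ 2 := pow_le_pow_left₀ hvre0 hcon' 2
    rw [hvre2, div_pow, hvn] at this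
    linarith
  obtain ⟨w, hw⟩ : ∃ w : ℂ, w = ((√κ.aa)⁻¹ : ℝ) * v := ⟨_, rfl⟩
  have hwn : ‖w‖ = (√κ.aa)⁻¹ * ‖v‖ := by
    rw [hw, norm_mul, norm_real, Real.norm_eq_abs, abs_of_pos (inv_pos.2 hsa)]
  have hwre : w.re = (√κ.aa)⁻¹ * v.re := by
    rw [hw, re_ofReal_mul]
  have hwlt : ‖w‖ / 2 < w.re := by
    rw [hwn, hwre, mul_div_assoc]
    exact mul_lt_mul_of_pos_left hvlt (inv_pos.2 hsa)
  have hwpos : 0 < ‖w‖ := by
    rw [hwn]
    exact mul_pos (inv_pos.2 hsa) hvpos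
  have hw2 : ‖w‖ ^ 2 = ‖s‖ / κ.aa := by
    rw [hwn, mul_pow, hvn, inv_pow, Real.sq_sqrt ha.le, inv_mul_eq_div]
  have hsw : (κ.aa : ℂ) * w ^ 2 = s := by
    have h1 : ((√κ.aa : ℝ) : ℂ) * (√κ.aa : ℝ) = κ.aa := by
      rw [← ofReal_mul, hsq]
    have h2 : ((√κ.aa : ℝ) : ℂ) ≠ 0 := ofReal_ne_zero.2 hsa.ne'
    rw [hw, mul_pow, hv2, ← h1, ofReal_inv]
    field_simp
  have hwb : ‖w‖ < min (1 / 10) w0 := by
    have h1 : ‖w‖ ^ 2 < (min (1 / 10) w0) ^ 2 := by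
      rw [hw2, div_lt_iff₀ ha]
      linarith
    exact lt_of_pow_lt_pow_left₀ 2 hq.le h1
  exact ⟨w, ⟨norm_pos_iff.1 hwpos, hwlt.le, (hwb.trans_le (min_le_left _ _)).le⟩,
    hwb.trans_le (min_le_right _ _), hsw, hw2⟩

/-- The critical measure is bounded. -/
private theorem wf_bd {m : XX I → ℝ} {β r C : ℝ} (hκ : κ.Ok) (hA : Asy κ m β r C) :
    ∃ B : ℝ, 0 ≤ B ∧ ∀ x, |m x| ≤ B := by
  have hh : ∀ i, κ.h i ≤ ∑ j, κ.h j := fun i =>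
    Finset.single_le_sum (fun j _ => (hκ.h_pos j).le) (Finset.mem_univ i)
  have hS : 0 ≤ ∑ j, κ.h j := Finset.sum_nonneg fun j _ => (hκ.h_pos j).le
  refine ⟨β * ∑ j, κ.h j + C, add_nonneg (mul_nonneg hA.β_pos.le hS) hA.C_nn, fun x => ?_⟩
  have h1 := hA.bd x
  have h2 : C * r ^ x.1.natAbs ≤ C := by
    have : r ^ x.1.natAbs ≤ 1 := pow_le_one₀ (by linarith [hA.r_ge]) hA.r_lt.le
    calc C * r ^ x.1.natAbs ≤ C * 1 := mul_le_mul_of_nonneg_left this hA.C_nn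
      _ = C := mul_one C
  have h3 : |β * κ.h x.2| ≤ β * ∑ j, κ.h j := by
    rw [abs_of_nonneg (mul_nonneg hA.β_pos.le (hκ.h_pos _).le)]
    exact mul_le_mul_of_nonneg_left (hh _) hA.β_pos.le
  calc |m x| = |(m x - β * κ.h x.2) + β * κ.h x.2| := by rw [sub_add_cancel]
    _ ≤ |m x - β * κ.h x.2| + |β * κ.h x.2| := abs_add_le _ _
    _ ≤ β * ∑ j, κ.h j + C := by linarith

/-- The norm of the trial function. -/
private theorem wf_norm {m : XX I → ℝ} {B : ℝ} (hB : 0 ≤ B) (hm : ∀ x, |m x| ≤ B) {w : ℂ}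
    (hw : InK w) (M : EE I) (hM : ∀ x : XX I, M x = m x * phi w x.1) :
    ‖M‖ ^ 2 ≤ B ^ 2 * (Fintype.card I * (4 / ‖w‖)) := by
  have h1 : (fun u : ℤ => ∑' _ : I, ‖phi w u‖ ^ 2) =
      fun u : ℤ => (Fintype.card I : ℝ) * ‖phi w u‖ ^ 2 := by
    funext u
    rw [tsum_fintype, Finset.sum_const, Finset.card_univ, nsmul_eq_mul]
  have h2 : Summable fun x : XX I => ‖phi w x.1‖ ^ 2 := by
    rw [summable_prod_of_nonneg (fun x => by positivity)]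
    refine ⟨fun u => (hasSum_fintype _).summable, ?_⟩
    show Summable (fun u : ℤ => ∑' _ : I, ‖phi w u‖ ^ 2)
    rw [h1]
    exact (phi_sums hw).2.2.1.mul_left _
  have h3 : ∑' x : XX I, ‖phi w x.1‖ ^ 2 ≤ Fintype.card I * (4 / ‖w‖) := by
    rw [h2.tsum_prod]
    show ∑' u : ℤ, ∑' _ : I, ‖phi w u‖ ^ 2 ≤ _
    rw [h1, tsum_mul_left]
    exact mul_le_mul_of_nonneg_left (phi_sums hw).2.2.2 (Nat.cast_nonneg _)
  have h4 := lp.norm_rpow_eq_tsum (by norm_num : 0 < (2 : ℝ≥0∞).toReal) M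
  have h5 : ‖M‖ ^ 2 = ∑' x, ‖M x‖ ^ 2 := by
    simpa using h4
  have h6 : ∀ x, ‖M x‖ ^ 2 ≤ B ^ 2 * ‖phi w x.1‖ ^ 2 := by
    intro x
    rw [hM, norm_mul, mul_pow, norm_real, Real.norm_eq_abs]
    exact mul_le_mul_of_nonneg_right (pow_le_pow_left₀ (abs_nonneg _) (hm x) 2) (by positivity)
  have h7 : Summable fun x => ‖M x‖ ^ 2 :=
    Summable.of_nonneg_of_le (fun x => by positivity) h6 (h2.mul_left _)
  rw [h5]
  refine (h7.tsum_le_tsum h6 (h2.mul_left _)).trans ?_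
  rw [tsum_mul_left]
  exact mul_le_mul_of_nonneg_left h3 (by positivity)

/-- Let `u = GS s l` and `N² = EF u + ‖s‖ ‖u‖²`. `u - KS s u = l`, `u` vanishes at the dead states, so by `coer`
`1/4 N² ≤ ‖⟪u, l⟫‖ = ‖∑ (star u) l‖ ≤ L N` (`inner_star`, `EF_star`). See `QuadA.lean`. -/
theorem Ok.fun_le (hκ : κ.Ok) {s : ℂ} (hs : s ∈ κ.Sec) {l : EE I} (hl : κ.Van l) {L : ℝ}
    (hL : 0 ≤ L) (h : ∀ f : EE I, κ.Van f →
      ‖∑' x, l x * f x‖ ≤ L * Real.sqrt (κ.EF f + ‖s‖ * ‖f‖ ^ 2)) :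
    Real.sqrt (κ.EF (κ.GS s l)) ≤ 4 * L ∧
      ‖κ.GS s l‖ ≤ 4 * L * ‖s‖ ^ (-(1 / 2) : ℝ) := by
  obtain ⟨hG, hGv⟩ := hκ.GS_van (hκ.sec_reg hs) l
  have hGv := hGv hl
  set u : EE I := κ.GS s l with hu
  have hul : u - κ.KS s u = l := by
    rw [sub_eq_iff_eq_add]
    exact hG
  have hsv : κ.Van (star u : EE I) := by
    intro x hx
    rw [lp.star_apply, hGv x hx, star_zero]
  have hE := hκ.EF_nn (u : XX I → ℂ)
  have hs0 : 0 < ‖s‖ := norm_pos_iff.2 hs.1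
  obtain ⟨N, hN⟩ : ∃ N : ℝ, N = Real.sqrt (κ.EF u + ‖s‖ * ‖u‖ ^ 2) := ⟨_, rfl⟩
  have hN2 : N ^ 2 = κ.EF u + ‖s‖ * ‖u‖ ^ 2 := by
    rw [hN]
    exact Real.sq_sqrt (by positivity)
  have hN0 : 0 ≤ N := by
    rw [hN]
    exact Real.sqrt_nonneg _
  have h1 : ‖∑' x, l x * (star u : EE I) x‖ ≤ L * N := by
    have := h (star u) hsv
    rw [hκ.EF_star, norm_star, ← hN] at this
    exact this
  have h2 : ∑' x, l x * (star u : EE I) x = inner ℂ u l := by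
    have h3 := inner_star (star u) l
    rw [star_star] at h3
    rw [h3]
    exact tsum_congr fun y => mul_comm _ _
  have h3 : 1 / 4 * N ^ 2 ≤ L * N := by
    have := hκ.coer hs u hGv
    rw [hul, ← h2] at this
    rw [hN2]
    exact this.trans h1
  have h4 : N ≤ 4 * L := by
    rcases hN0.eq_or_lt with h0 | h0
    · rw [← h0]
      positivity
    · have : 1 / 4 * N * N ≤ L * N := by nlinarith
      have := le_of_mul_le_mul_right this h0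
      linarith
  constructor
  · refine le_trans ?_ h4
    rw [hN]
    exact Real.sqrt_le_sqrt (by nlinarith [mul_nonneg hs0.le (sq_nonneg ‖u‖)])
  · have h5 : Real.sqrt ‖s‖ * ‖u‖ ≤ N := by
      rw [hN]
      apply Real.le_sqrt_of_sq_le
      rw [mul_pow, Real.sq_sqrt hs0.le]
      linarith
    have h6 : 0 < Real.sqrt ‖s‖ := Real.sqrt_pos.2 hs0
    have h7 : ‖s‖ ^ (-(1 / 2) : ℝ) = (Real.sqrt ‖s‖)⁻¹ := by
      rw [Real.rpow_neg hs0.le, Real.sqrt_eq_rpow]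
    rw [h7, ← div_eq_mul_inv, le_div_iff₀ h6, mul_comm]
    exact h5.trans h4

/-- For `c = κ.c`: energy: `|∑ c f| ≤ C √(EF f)` (`Cp.loc`) and `fun_le`. Norm: for `s` in `Sec` small put
`w = (s / aa)^(1/2)` as in `Near.lean` (`Ok.near`); `GS s c = M + e` with `M x = m x phi w x` (`trial`),
`‖M‖² ≤ C / ‖w‖` (`m` bounded, `phi_sums`), and `(1 - KS s) e = R`, `N(e) ≤ 4 C ‖w‖` (`dual`, `fun_le`), so
`‖e‖ ≤ 4 C ‖w‖ ‖s‖^(-1/2) ≤ C'`. -/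
theorem Ok.od_zero (hκ : κ.Ok) : κ.Od 0 0 (fun s => κ.AW s [] κ.c) := by
  obtain ⟨m, hm⟩ := hκ.exists_m
  obtain ⟨β, r, C, hβ, hr1, hr2, hC, hbd⟩ := hκ.decay hm
  have hβ' := hκ.beta_pos hm hβ (by linarith) hr2 hbd
  have hA : Asy κ m β r C := ⟨hm, hβ', hr1, hr2, hC, hbd⟩
  obtain ⟨C1, w1, hC1, hw1, hdual⟩ := hκ.dual hA
  obtain ⟨B, hB, hmB⟩ := wf_bd hκ hA
  obtain ⟨C2, hC2, hloc⟩ := (wf_cp hκ).loc hκ
  obtain ⟨-, -, ha, -, -⟩ := hκ.V_pos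
  have hsa : 0 < √κ.aa := Real.sqrt_pos.2 ha
  -- the constants
  obtain ⟨C3, hC3d⟩ : ∃ C3 : ℝ, C3 = B * √(Fintype.card I * (4 * √κ.aa)) := ⟨_, rfl⟩
  have hC3 : 0 ≤ C3 := by
    rw [hC3d]
    positivity
  refine ⟨4 * C2 + C3 + 4 * C1 / √κ.aa, min (κ.aa * (min (1 / 10) w1) ^ 2) (1 / 10),
    by positivity, lt_min (mul_pos ha (pow_pos (lt_min (by norm_num) hw1) 2)) (by norm_num), ?_⟩
  intro s hs hsr
  obtain ⟨w, hw, hww, hws, hwn⟩ := wf_w hκ hs hw1 (hsr.trans_le (min_le_left _ _))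
  have hs1 : ‖s‖ ≤ 1 / 10 := (hsr.trans_le (min_le_right _ _)).le
  have hs0 : 0 < ‖s‖ := norm_pos_iff.2 hs.1
  have hs2 : -(1 / 3) < s.re := by
    have := (abs_le.1 (Complex.abs_re_le_norm s)).1
    linarith
  have hreg := hκ.sec_reg hs
  show κ.Van (κ.GS s (toE (κ.cs s))) ∧ Real.sqrt (κ.EF (κ.GS s (toE (κ.cs s)))) ≤
      (4 * C2 + C3 + 4 * C1 / √κ.aa) * ‖s‖ ^ (-(0 : ℝ) + 0) ∧
    ‖κ.GS s (toE (κ.cs s))‖ ≤ (4 * C2 + C3 + 4 * C1 / √κ.aa) * ‖s‖ ^ (-(0 : ℝ) - 1 / 4 + 0)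
  obtain ⟨hG, hGv⟩ := hκ.GS_eq hreg
  have hcv : κ.Van (toE (κ.cs s)) := (wf_cp hκ).van hs2
  have hcx : ∀ x, toE (κ.cs s) x = κ.cs s x := fun x => toE_apply (hκ.cs_mem (by linarith)) x
  -- the energy
  have hL : ∀ f : EE I, κ.Van f → ‖∑' x, toE (κ.cs s) x * f x‖ ≤
      C2 * Real.sqrt (κ.EF f + ‖s‖ * ‖f‖ ^ 2) := by
    intro f hf
    have h1 := hloc s hs2 f hf
    have h2 : ∑' x, toE (κ.cs s) x * f x = ∑' x, vs κ.c s x * f x :=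
      tsum_congr fun x => by rw [hcx]; rfl
    rw [h2]
    refine h1.trans (mul_le_mul_of_nonneg_left (Real.sqrt_le_sqrt ?_) hC2)
    have : 0 ≤ ‖s‖ * ‖f‖ ^ 2 := by positivity
    linarith
  have hE := (hκ.fun_le hs hcv hC2 hL).1
  have hp0 : ‖s‖ ^ (-(0 : ℝ) + 0) = 1 := by
    rw [neg_zero, add_zero, Real.rpow_zero]
  have hwpos : 0 < ‖w‖ := norm_pos_iff.2 hw.1
  have hwsq : ‖w‖ = √‖s‖ / √κ.aa := by
    rw [← Real.sqrt_div' _ ha.le, ← hwn, Real.sqrt_sq hwpos.le]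
  refine ⟨hGv, ?_, ?_⟩
  · rw [hp0, mul_one]
    refine hE.trans ?_
    have h1 : 0 ≤ 4 * C1 / √κ.aa := by positivity
    linarith
  · -- the norm
    obtain ⟨M, R, hM, hR, hMv, hRv, hRe⟩ := hκ.trial hA hw (by rw [hws]; exact hs1)
    rw [hws] at hRe
    set G : EE I := κ.GS s (toE (κ.cs s)) with hGdef
    have heR : (1 - κ.KS s) (G - M) = R := by
      rw [hRe, ContinuousLinearMap.sub_apply, ContinuousLinearMap.one_apply, map_sub]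
      have h1 : toE (κ.cs s) = G - κ.KS s G := by
        rw [eq_sub_iff_add_eq]
        exact hG.symm
      rw [h1]
      abel
    have hGR : κ.GS s R = G - M := by
      have h1 : κ.GS s * (1 - κ.KS s) = 1 := Ring.inverse_mul_cancel _ hreg.2
      have h2 : (κ.GS s * (1 - κ.KS s)) (G - M) = G - M := by
        rw [h1]
        rfl
      rw [ContinuousLinearMap.mul_apply, heR] at h2
      exact h2
    have hLR : ∀ f : EE I, κ.Van f → ‖∑' x, R x * f x‖ ≤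
        C1 * ‖w‖ * Real.sqrt (κ.EF f + ‖s‖ * ‖f‖ ^ 2) := by
      intro f hf
      have h1 := (hdual w hw hww f hf).2
      rw [hws] at h1
      have h2 : ∑' x, R x * f x = ∑' x, κ.rho m w x * f x :=
        tsum_congr fun x => by rw [hR]
      rw [h2]
      exact h1
    have he := (hκ.fun_le hs hRv (by positivity) hLR).2
    rw [hGR] at he
    -- the second part
    have h7 : ‖s‖ ^ (-(1 / 2) : ℝ) = (√‖s‖)⁻¹ := by
      rw [Real.rpow_neg hs0.le, Real.sqrt_eq_rpow]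
    have hss : 0 < √‖s‖ := Real.sqrt_pos.2 hs0
    have he2 : ‖G - M‖ ≤ 4 * C1 / √κ.aa := by
      refine he.trans (le_of_eq ?_)
      rw [h7, hwsq]
      field_simp
    -- the first part
    have hMn := wf_norm hB hmB hw M hM
    have hM2 : ‖M‖ ≤ C3 * ‖s‖ ^ (-(1 / 4) : ℝ) := by
      have h8 : (‖s‖ ^ (-(1 / 4) : ℝ)) ^ 2 = (√‖s‖)⁻¹ := by
        rw [← h7, ← Real.rpow_natCast, ← Real.rpow_mul hs0.le]
        norm_num
      refine (sq_le_sq₀ (norm_nonneg _) (by positivity)).1 ?_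
      rw [mul_pow, h8, hC3d, mul_pow, Real.sq_sqrt (by positivity)]
      refine hMn.trans (le_of_eq ?_)
      rw [hwsq]
      field_simp
    have hp1 : 1 ≤ ‖s‖ ^ (-(1 / 4) : ℝ) :=
      Real.one_le_rpow_of_pos_of_le_one_of_nonpos hs0 (by linarith) (by norm_num)
    have hexp : (-(0 : ℝ) - 1 / 4 + 0) = -(1 / 4) := by norm_num
    rw [hexp]
    have hG2 : ‖G‖ ≤ ‖M‖ + ‖G - M‖ := by
      have h9 : G = M + (G - M) := by abel
      calc ‖G‖ = ‖M + (G - M)‖ := by rw [← h9]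
        _ ≤ ‖M‖ + ‖G - M‖ := norm_add_le _ _
    have h10 : 0 ≤ 4 * C1 / √κ.aa := by positivity
    calc ‖G‖ ≤ ‖M‖ + ‖G - M‖ := hG2
      _ ≤ C3 * ‖s‖ ^ (-(1 / 4) : ℝ) + 4 * C1 / √κ.aa * ‖s‖ ^ (-(1 / 4) : ℝ) := by
        refine add_le_add hM2 (he2.trans ?_)
        exact le_mul_of_one_le_right h10 hp1
      _ ≤ (4 * C2 + C3 + 4 * C1 / √κ.aa) * ‖s‖ ^ (-(1 / 4) : ℝ) := by
        have h11 : 0 ≤ 4 * C2 * ‖s‖ ^ (-(1 / 4) : ℝ) := by positivity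
        nlinarith

end Slb

end Pool.Agent.KSlab
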