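import Pool.Agent.KSlab.WDefs

/-! SW11: the convolutions at real points. -/

set_option autoImplicit false

open Complex Set Filter Topology
open scoped ENNReal

namespace Pool.Agent.KSlab

variable {I : Type}

private theorem wgen_tsum_antidiagonal (F : ℕ × ℕ → ℝ≥0∞) :
    ∑' n : ℕ, ∑ p ∈ Finset.HasAntidiagonal.antidiagonal n, F p = ∑' p, F p := by
  rw [← (Finset.HasAntidiagonal.sigmaAntidiagonalEquivProd (A := ℕ)).tsum_eq, ENNReal.tsum_sigma']
  refine tsum_congr fun n => ?_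
  rw [← Finset.tsum_subtype]
  rfl

private theorem wgen_exp (σ : ℝ) (p : ℕ × ℕ) {n : ℕ}
    (hp : p ∈ Finset.HasAntidiagonal.antidiagonal n) :
    ENNReal.ofReal (Real.exp (-n * σ)) =
      ENNReal.ofReal (Real.exp (-p.1 * σ)) * ENNReal.ofReal (Real.exp (-p.2 * σ)) := by
  rw [← ENNReal.ofReal_mul (Real.exp_nonneg _), ← Real.exp_add]
  congr 2
  have h : p.1 + p.2 = n := Finset.HasAntidiagonal.mem_antidiagonal.mp hp
  rw [← h]
  push_cast
  ring

private theorem wgen_conv {Y : Type} (K V : ℕ → Y → ℝ≥0∞) (σ : ℝ) :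
    ∑' n : ℕ, (∑ p ∈ Finset.HasAntidiagonal.antidiagonal n, ∑' y, K p.1 y * V p.2 y) *
      ENNReal.ofReal (Real.exp (-n * σ)) =
    ∑' y, (∑' n : ℕ, K n y * ENNReal.ofReal (Real.exp (-n * σ))) *
      ∑' n : ℕ, V n y * ENNReal.ofReal (Real.exp (-n * σ)) := by
  have h1 : ∀ n : ℕ, (∑ p ∈ Finset.HasAntidiagonal.antidiagonal n, ∑' y, K p.1 y * V p.2 y) *
      ENNReal.ofReal (Real.exp (-n * σ)) =
      ∑ p ∈ Finset.HasAntidiagonal.antidiagonal n, ∑' y,
        (K p.1 y * ENNReal.ofReal (Real.exp (-p.1 * σ))) *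
          (V p.2 y * ENNReal.ofReal (Real.exp (-p.2 * σ))) := by
    intro n
    rw [Finset.sum_mul]
    refine Finset.sum_congr rfl fun p hp => ?_
    rw [wgen_exp σ p hp, ← ENNReal.tsum_mul_right]
    refine tsum_congr fun y => ?_
    ring
  simp_rw [h1]
  rw [wgen_tsum_antidiagonal (fun p => ∑' y,
        (K p.1 y * ENNReal.ofReal (Real.exp (-p.1 * σ))) *
          (V p.2 y * ENNReal.ofReal (Real.exp (-p.2 * σ)))), ENNReal.tsum_comm]
  refine tsum_congr fun y => ?_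
  rw [ENNReal.tsum_prod', ← ENNReal.tsum_mul_right]
  refine tsum_congr fun i => ?_
  rw [← ENNReal.tsum_mul_left]

/-- `exp (-(p + q) σ) = exp (-p σ) exp (-q σ)`, exchange of sums (`Finset.sigmaAntidiagonalEquivProd` or
`tsum_antidiagonal`-like; all terms in `[0, ∞]`). -/
theorem vE_stC (k : KF I) (V : ℕ → XX I → ℝ≥0∞) (σ : ℝ) (x : XX I) :
    vE (stC k V) σ x = stE k σ (vE V σ) x :=
  wgen_conv (fun n y => ENNReal.ofReal (k n x y)) V σ

theorem tsum_blC (b V : ℕ → XX I → ℝ≥0∞) (σ : ℝ) :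
    ∑' n : ℕ, blC b V n * ENNReal.ofReal (Real.exp (-n * σ)) = ∑' x, vE b σ x * vE V σ x :=
  wgen_conv b V σ

namespace Slb

variable {κ : Slb I}

theorem vE_reC (V : ℕ → XX I → ℝ≥0∞) (σ : ℝ) (x : XX I) :
    vE (κ.reC V) σ x = κ.reE σ (vE V σ) x := by
  have h : ∀ N : ℕ, (stE κ.k σ)^[N] (vE V σ) = vE ((stC κ.k)^[N] V) σ := by
    intro N
    induction N with
    | zero => rfl
    | succ N ih =>
      rw [Function.iterate_succ_apply', Function.iterate_succ_apply', ih]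
      funext y
      exact (vE_stC κ.k _ σ y).symm
  unfold reE
  simp_rw [h]
  unfold vE reC
  rw [ENNReal.tsum_comm]
  refine tsum_congr fun n => ?_
  rw [ENNReal.tsum_mul_right]

/-- The words at a real point. -/
noncomputable def AE (κ : Slb I) (σ : ℝ) : List (KF I) → VF I → XX I → ℝ≥0∞
  | [], a => κ.reE σ (vE (toN a) σ)
  | k :: w, a => κ.reE σ (stE k σ (AE κ σ w a))

theorem vE_AC (w : List (KF I)) (a : VF I) (σ : ℝ) (x : XX I) :
    vE (κ.AC w a) σ x = κ.AE σ w a x := by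
  induction w generalizing x with
  | nil => exact vE_reC (toN a) σ x
  | cons k w ih =>
    have h1 : vE (κ.AC w a) σ = κ.AE σ w a := funext ih
    have h2 : vE (stC k (κ.AC w a)) σ = stE k σ (κ.AE σ w a) := by
      rw [← h1]
      exact funext (vE_stC k _ σ)
    show vE (κ.reC (stC k (κ.AC w a))) σ x = κ.reE σ (stE k σ (κ.AE σ w a)) x
    rw [vE_reC, h2]

theorem tsum_FC (b : VF I) (w : List (KF I)) (a : VF I) (σ : ℝ) :
    ∑' n : ℕ, κ.FC b w a n * ENNReal.ofReal (Real.exp (-n * σ)) =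
      ∑' x, vE (toN b) σ x * κ.AE σ w a x := by
  have h1 : vE (κ.AC w a) σ = κ.AE σ w a := funext fun x => vE_AC w a σ x
  rw [← h1]
  exact tsum_blC (toN b) (κ.AC w a) σ

end Slb

end Pool.Agent.KSlab
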