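import Pool.Agent.KSlab.WPair
import Pool.Agent.KSlab.WFun

/-! SW8: orders at the singularity. -/

set_option autoImplicit false

open Complex Set Filter Topology
open scoped ENNReal

namespace Pool.Agent.KSlab

namespace Slb

variable {I : Type} [Fintype I] {κ : Slb I} {k : KF I} {g : GF I} {m γ : ℝ} {A B : ℂ → EE I}

omit [Fintype I] in
private theorem wo_sec (hκ : κ.Ok) {s : ℂ} (hs : s ∈ κ.Sec) :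
    0 < ‖s‖ ∧ ‖s‖ ≤ 1 ∧ -(1 / 3) < s.re := by
  obtain ⟨h0, h1, h2⟩ := hs
  have h3 : ‖s‖ < 1 / 10 := by
    have h4 := hκ.z_le
    have h5 : 40 * κ.z ≤ 40 * (1 / 10 ^ 12) := mul_le_mul_of_nonneg_left h4 (by norm_num)
    have h6 : (40 : ℝ) * (1 / 10 ^ 12) < 1 / 10 := by norm_num
    linarith
  refine ⟨norm_pos_iff.2 h0, by linarith, by linarith⟩

private theorem wo_mul {x : ℝ} (hx : 0 < x) {a b c : ℝ} (h : a + b = c) :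
    x ^ a * x ^ b = x ^ c := by
  rw [← h, Real.rpow_add hx]

private theorem wo_mono {x : ℝ} (hx : 0 < x) (hx1 : x ≤ 1) {a b : ℝ} (h : a ≤ b) :
    x ^ b ≤ x ^ a := Real.rpow_le_rpow_of_exponent_ge hx hx1 h

/-- The norm and the energy are controlled by the form. -/
private theorem wo_N (hκ : κ.Ok) {s : ℂ} (hs0 : 0 < ‖s‖) (f : EE I) :
    ‖f‖ ≤ ‖s‖ ^ (-(1 / 2) : ℝ) * Real.sqrt (κ.EF f + ‖s‖ * ‖f‖ ^ 2) ∧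
      Real.sqrt (κ.EF f) ≤ Real.sqrt (κ.EF f + ‖s‖ * ‖f‖ ^ 2) := by
  have hE := hκ.EF_nn (f : XX I → ℂ)
  have h6 : 0 < Real.sqrt ‖s‖ := Real.sqrt_pos.2 hs0
  have h7 : ‖s‖ ^ (-(1 / 2) : ℝ) = (Real.sqrt ‖s‖)⁻¹ := by
    rw [Real.rpow_neg hs0.le, Real.sqrt_eq_rpow]
  have h5 : Real.sqrt ‖s‖ * ‖f‖ ≤ Real.sqrt (κ.EF f + ‖s‖ * ‖f‖ ^ 2) := by
    apply Real.le_sqrt_of_sq_le
    rw [mul_pow, Real.sq_sqrt hs0.le]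
    linarith
  constructor
  · rw [h7, inv_mul_eq_div, le_div_iff₀ h6, mul_comm]
    exact h5
  · refine Real.sqrt_le_sqrt ?_
    have : 0 ≤ ‖s‖ * ‖f‖ ^ 2 := by positivity
    linarith

/-- The energy of a combination. -/
private theorem wo_EF_add (hκ : κ.Ok) (f g : EE I) (c : ℂ) :
    κ.EF ((f + c • g : EE I) : XX I → ℂ) ≤ 2 * κ.EF f + 2 * ‖c‖ ^ 2 * κ.EF g := by
  have hf := hκ.fin_E f
  have hg := hκ.fin_E g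
  have hfg := hκ.fin_E (f + c • g)
  have h1 : ∀ p, κ.ef ((f + c • g : EE I) : XX I → ℂ) p ≤
      2 * κ.ef f p + 2 * ‖c‖ ^ 2 * κ.ef g p := by
    intro p
    have hF : 0 ≤ κ.Fx p.1 p.2 := (hκ.Fx_prop p.1 p.2).1
    have hh1 := (hκ.h_pos p.1.2).le
    have hh2 := (hκ.h_pos p.2.2).le
    have hw : 0 ≤ 1 / 2 * κ.Fx p.1 p.2 * κ.h p.1.2 * κ.h p.2.2 := by positivity
    have h2 : (f + c • g : EE I) p.1 / κ.h p.1.2 - (f + c • g : EE I) p.2 / κ.h p.2.2 =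
        (f p.1 / κ.h p.1.2 - f p.2 / κ.h p.2.2) +
          c * (g p.1 / κ.h p.1.2 - g p.2 / κ.h p.2.2) := by
      rw [lp.coeFn_add, lp.coeFn_smul, Pi.add_apply, Pi.add_apply, Pi.smul_apply, Pi.smul_apply,
        smul_eq_mul, smul_eq_mul]
      ring
    have h3 : ‖(f + c • g : EE I) p.1 / κ.h p.1.2 - (f + c • g : EE I) p.2 / κ.h p.2.2‖ ^ 2 ≤
        2 * ‖f p.1 / κ.h p.1.2 - f p.2 / κ.h p.2.2‖ ^ 2 +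
          2 * ‖c‖ ^ 2 * ‖g p.1 / κ.h p.1.2 - g p.2 / κ.h p.2.2‖ ^ 2 := by
      rw [h2]
      obtain ⟨u, hu⟩ : ∃ u, u = f p.1 / κ.h p.1.2 - f p.2 / κ.h p.2.2 := ⟨_, rfl⟩
      obtain ⟨v, hv⟩ : ∃ v, v = g p.1 / κ.h p.1.2 - g p.2 / κ.h p.2.2 := ⟨_, rfl⟩
      rw [← hu, ← hv]
      have h4 : ‖u + c * v‖ ≤ ‖u‖ + ‖c‖ * ‖v‖ := (norm_add_le _ _).trans_eq (by rw [norm_mul])
      have h5 : ‖u + c * v‖ ^ 2 ≤ (‖u‖ + ‖c‖ * ‖v‖) ^ 2 :=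
        pow_le_pow_left₀ (norm_nonneg _) h4 2
      nlinarith [sq_nonneg (‖u‖ - ‖c‖ * ‖v‖)]
    unfold ef
    calc 1 / 2 * κ.Fx p.1 p.2 * κ.h p.1.2 * κ.h p.2.2 *
          ‖(f + c • g : EE I) p.1 / κ.h p.1.2 - (f + c • g : EE I) p.2 / κ.h p.2.2‖ ^ 2
        ≤ 1 / 2 * κ.Fx p.1 p.2 * κ.h p.1.2 * κ.h p.2.2 *
          (2 * ‖f p.1 / κ.h p.1.2 - f p.2 / κ.h p.2.2‖ ^ 2 +
          2 * ‖c‖ ^ 2 * ‖g p.1 / κ.h p.1.2 - g p.2 / κ.h p.2.2‖ ^ 2) :=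
          mul_le_mul_of_nonneg_left h3 hw
      _ = _ := by ring
  have h4 : Summable fun p => 2 * κ.ef f p + 2 * ‖c‖ ^ 2 * κ.ef g p :=
    (hf.mul_left 2).add (hg.mul_left _)
  refine (hfg.tsum_le_tsum h1 h4).trans (le_of_eq ?_)
  rw [(hf.mul_left 2).tsum_add (hg.mul_left _), tsum_mul_left, tsum_mul_left]
  rfl

/-- The energy is the square of a seminorm: `√(EF (A + B)) ≤ √(EF A) + √(EF B)` (or with a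
factor `2`: use `‖a + b‖² ≤ 2 ‖a‖² + 2 ‖b‖²`). -/
theorem Ok.od_add (hκ : κ.Ok) (hA : κ.Od m γ A) (hB : κ.Od m γ B) (c : ℂ) :
    κ.Od m γ (fun s => A s + c • B s) := by
  obtain ⟨C, r, hC, hr, h⟩ := hA
  obtain ⟨C', r', hC', hr', h'⟩ := hB
  refine ⟨2 * C + 2 * ‖c‖ * C', min r r', by positivity, lt_min hr hr', fun s hs hsr => ?_⟩
  obtain ⟨h1, h2, h3⟩ := h s hs (hsr.trans_le (min_le_left _ _))
  obtain ⟨h1', h2', h3'⟩ := h' s hs (hsr.trans_le (min_le_right _ _))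
  obtain ⟨hs0, -, -⟩ := wo_sec hκ hs
  have hX : 0 ≤ ‖s‖ ^ (-m + γ) := by positivity
  have hY : 0 ≤ ‖s‖ ^ (-m - 1 / 4 + γ) := by positivity
  refine ⟨fun x hx => ?_, ?_, ?_⟩
  · change (A s + c • B s : EE I) x = 0
    rw [lp.coeFn_add, lp.coeFn_smul, Pi.add_apply, Pi.smul_apply, h1 x hx, h1' x hx, smul_zero,
      add_zero]
  · have hE := hκ.EF_nn (A s : XX I → ℂ)
    have hE' := hκ.EF_nn (B s : XX I → ℂ)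
    have h4 : κ.EF (A s) ≤ (C * ‖s‖ ^ (-m + γ)) ^ 2 := (Real.sqrt_le_left (by positivity)).1 h2
    have h5 : κ.EF (B s) ≤ (C' * ‖s‖ ^ (-m + γ)) ^ 2 := (Real.sqrt_le_left (by positivity)).1 h2'
    refine Real.sqrt_le_iff.2 ⟨by positivity, (wo_EF_add hκ (A s) (B s) c).trans ?_⟩
    have h6 : 2 * ‖c‖ ^ 2 * κ.EF (B s) ≤ 2 * ‖c‖ ^ 2 * (C' * ‖s‖ ^ (-m + γ)) ^ 2 :=
      mul_le_mul_of_nonneg_left h5 (by positivity)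
    obtain ⟨X, hXd⟩ : ∃ X, X = ‖s‖ ^ (-m + γ) := ⟨_, rfl⟩
    rw [← hXd] at h4 h6 hX ⊢
    have h7 : 0 ≤ (C * X) * (‖c‖ * C' * X) := by positivity
    nlinarith [sq_nonneg (C * X), sq_nonneg (‖c‖ * C' * X)]
  · calc ‖A s + c • B s‖ ≤ ‖A s‖ + ‖c‖ * ‖B s‖ := (norm_add_le _ _).trans_eq (by rw [norm_smul])
      _ ≤ C * ‖s‖ ^ (-m - 1 / 4 + γ) + ‖c‖ * (C' * ‖s‖ ^ (-m - 1 / 4 + γ)) :=
        add_le_add h3 (mul_le_mul_of_nonneg_left h3' (norm_nonneg c))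
      _ ≤ (2 * C + 2 * ‖c‖ * C') * ‖s‖ ^ (-m - 1 / 4 + γ) := by
        have h8 : 0 ≤ (C + ‖c‖ * C') * ‖s‖ ^ (-m - 1 / 4 + γ) := by positivity
        nlinarith

/-- From a bound of the functional to the order. -/
private theorem wo_fun (hκ : κ.Ok) (hk : κ.Ad k) {A : ℂ → EE I} {r C e m' γ' : ℝ} (hC : 0 ≤ C)
    (hr : 0 < r) (he : -m' + γ' ≤ e) (he' : -m' - 1 / 4 + γ' ≤ e - 1 / 2)
    (h : ∀ s ∈ κ.Sec, ‖s‖ < r → κ.Van (A s) ∧ ∀ f : EE I, κ.Van f →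
      ‖∑' x, f x * kop k s (A s) x‖ ≤
        C * ‖s‖ ^ e * Real.sqrt (κ.EF f + ‖s‖ * ‖f‖ ^ 2)) :
    κ.Od m' γ' (fun s => κ.GS s (kop k s (A s))) := by
  refine ⟨4 * C, r, by positivity, hr, fun s hs hsr => ?_⟩
  obtain ⟨hs0, hs1, hs2⟩ := wo_sec hκ hs
  obtain ⟨-, h2⟩ := h s hs hsr
  have hv : κ.Van (kop k s (A s)) := hk.van hs2 (A s)
  have hL : 0 ≤ C * ‖s‖ ^ e := by positivity
  obtain ⟨h3, h4⟩ := hκ.fun_le hs hv hL (fun f hf => by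
    have h5 := h2 f hf
    have h6 : ∑' x, kop k s (A s) x * f x = ∑' x, f x * kop k s (A s) x :=
      tsum_congr fun x => mul_comm _ _
    rw [h6]
    exact h5)
  refine ⟨(hκ.GS_van (hκ.sec_reg hs) _).2 hv, h3.trans ?_, h4.trans ?_⟩
  · have h7 := wo_mono hs0 hs1 he
    nlinarith [mul_le_mul_of_nonneg_left h7 hC]
  · have h7 := wo_mono hs0 hs1 he'
    have h8 : ‖s‖ ^ e * ‖s‖ ^ (-(1 / 2) : ℝ) = ‖s‖ ^ (e - 1 / 2) := wo_mul hs0 (by ring)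
    calc 4 * (C * ‖s‖ ^ e) * ‖s‖ ^ (-(1 / 2) : ℝ)
        = 4 * C * (‖s‖ ^ e * ‖s‖ ^ (-(1 / 2) : ℝ)) := by ring
      _ = 4 * C * ‖s‖ ^ (e - 1 / 2) := by rw [h8]
      _ ≤ 4 * C * ‖s‖ ^ (-m' - 1 / 4 + γ') := mul_le_mul_of_nonneg_left h7 (by positivity)

/-- `‖∑ (kop k s A) f‖ ≤ B ‖A‖ ‖f‖ ≤ B ‖A‖ ‖s‖^(-1/2) N(f)`, so `fun_le` applies with
`L = B C ‖s‖ ^ (-m - 3/4 + γ)`; `‖s‖ ≤ 1`. -/
theorem Ok.od_k (hκ : κ.Ok) (hk : κ.Ad k) (hA : κ.Od m γ A) :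
    κ.Od (m + 1) γ (fun s => κ.GS s (kop k s (A s))) := by
  obtain ⟨C, r, hC, hr, h⟩ := hA
  obtain ⟨B', hB', hn⟩ := hk.norm_le
  refine wo_fun hκ hk (C := B' * C) (e := -m - 3 / 4 + γ) (by positivity) hr (by linarith)
    (by linarith) fun s hs hsr => ?_
  obtain ⟨hs0, hs1, hs2⟩ := wo_sec hκ hs
  obtain ⟨h1, -, h3⟩ := h s hs hsr
  refine ⟨h1, fun f _ => ?_⟩
  obtain ⟨h4, -⟩ := wo_N hκ hs0 f
  obtain ⟨N, hN⟩ : ∃ N, N = Real.sqrt (κ.EF f + ‖s‖ * ‖f‖ ^ 2) := ⟨_, rfl⟩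
  rw [← hN] at h4 ⊢
  have hN0 : 0 ≤ N := by
    rw [hN]
    exact Real.sqrt_nonneg _
  have h5 : ‖s‖ ^ (-(1 / 2) : ℝ) * ‖s‖ ^ (-m - 1 / 4 + γ) = ‖s‖ ^ (-m - 3 / 4 + γ) :=
    wo_mul hs0 (by ring)
  calc ‖∑' x, f x * kop k s (A s) x‖ ≤ ‖f‖ * ‖kop k s (A s)‖ := norm_bl_le _ _
    _ ≤ (‖s‖ ^ (-(1 / 2) : ℝ) * N) * (B' * (C * ‖s‖ ^ (-m - 1 / 4 + γ))) := by
      refine mul_le_mul h4 ?_ (norm_nonneg _) (by positivity)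
      exact (hn s hs2 (A s)).trans (mul_le_mul_of_nonneg_left h3 hB')
    _ = B' * C * (‖s‖ ^ (-(1 / 2) : ℝ) * ‖s‖ ^ (-m - 1 / 4 + γ)) * N := by ring
    _ = B' * C * ‖s‖ ^ (-m - 3 / 4 + γ) * N := by rw [h5]

/-- By `pair` the functional is at most `C ‖s‖ ^ (-m - 1/2 + γ) N(f)`: `‖f‖ ≤ ‖s‖^(-1/2) N(f)`,
`√(EF f) ≤ N(f)`; `fun_le`. -/
theorem Ok.od_r (hκ : κ.Ok) (hk : κ.Ad k) (hT : κ.Tr k g) (h0 : κ.la g = 0)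
    (hA : κ.Od m γ A) : κ.Od (m + 1) (γ + 1 / 4) (fun s => κ.GS s (kop k s (A s))) := by
  obtain ⟨C, r, hC, hr, h⟩ := hA
  obtain ⟨P, hP, hp⟩ := hκ.pair hk hT h0
  refine wo_fun hκ hk (C := 4 * P * C) (e := -m - 1 / 2 + γ) (by positivity) hr (by linarith)
    (by linarith) fun s hs hsr => ?_
  obtain ⟨hs0, hs1, hs2⟩ := wo_sec hκ hs
  obtain ⟨h1, h2, h3⟩ := h s hs hsr
  refine ⟨h1, fun f hf => ?_⟩
  have h6 := hp s hs f (A s) hf h1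
  obtain ⟨h4, h5⟩ := wo_N hκ hs0 f
  obtain ⟨N, hN⟩ : ∃ N, N = Real.sqrt (κ.EF f + ‖s‖ * ‖f‖ ^ 2) := ⟨_, rfl⟩
  rw [← hN] at h4 h5 ⊢
  have hN0 : 0 ≤ N := by
    rw [hN]
    exact Real.sqrt_nonneg _
  obtain ⟨Z, hZ⟩ : ∃ Z, Z = ‖s‖ ^ (-m - 1 / 2 + γ) := ⟨_, rfl⟩
  have hZ0 : 0 ≤ Z := by
    rw [hZ]
    positivity
  have e1 : ‖f‖ * Real.sqrt (κ.EF (A s)) ≤ C * Z * N := by
    have e2 : ‖s‖ ^ (-(1 / 2) : ℝ) * ‖s‖ ^ (-m + γ) = Z := by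
      rw [hZ]
      exact wo_mul hs0 (by ring)
    calc ‖f‖ * Real.sqrt (κ.EF (A s)) ≤ (‖s‖ ^ (-(1 / 2) : ℝ) * N) * (C * ‖s‖ ^ (-m + γ)) :=
          mul_le_mul h4 h2 (Real.sqrt_nonneg _) (by positivity)
      _ = C * (‖s‖ ^ (-(1 / 2) : ℝ) * ‖s‖ ^ (-m + γ)) * N := by ring
      _ = C * Z * N := by rw [e2]
  have e3 : Real.sqrt (κ.EF f) * ‖A s‖ ≤ C * Z * N := by
    have e4 : ‖s‖ ^ (-m - 1 / 4 + γ) ≤ Z := by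
      rw [hZ]
      exact wo_mono hs0 hs1 (by linarith)
    calc Real.sqrt (κ.EF f) * ‖A s‖ ≤ N * (C * ‖s‖ ^ (-m - 1 / 4 + γ)) :=
          mul_le_mul h5 h3 (norm_nonneg _) hN0
      _ ≤ N * (C * Z) := mul_le_mul_of_nonneg_left (mul_le_mul_of_nonneg_left e4 hC) hN0
      _ = C * Z * N := by ring
  have e5 : Real.sqrt (κ.EF f) * Real.sqrt (κ.EF (A s)) ≤ C * Z * N := by
    have e6 : ‖s‖ ^ (-m + γ) ≤ Z := by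
      rw [hZ]
      exact wo_mono hs0 hs1 (by linarith)
    calc Real.sqrt (κ.EF f) * Real.sqrt (κ.EF (A s)) ≤ N * (C * ‖s‖ ^ (-m + γ)) :=
          mul_le_mul h5 h2 (Real.sqrt_nonneg _) hN0
      _ ≤ N * (C * Z) := mul_le_mul_of_nonneg_left (mul_le_mul_of_nonneg_left e6 hC) hN0
      _ = C * Z * N := by ring
  have e7 : ‖s‖ * ‖f‖ * ‖A s‖ ≤ C * Z * N := by
    have e8 : ‖s‖ * ‖s‖ ^ (-(1 / 2) : ℝ) * ‖s‖ ^ (-m - 1 / 4 + γ) ≤ Z := by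
      rw [hZ]
      calc ‖s‖ * ‖s‖ ^ (-(1 / 2) : ℝ) * ‖s‖ ^ (-m - 1 / 4 + γ)
          = ‖s‖ ^ (1 : ℝ) * ‖s‖ ^ (-(1 / 2) : ℝ) * ‖s‖ ^ (-m - 1 / 4 + γ) := by
            rw [Real.rpow_one]
        _ = ‖s‖ ^ (-m + 1 / 4 + γ) := by
            rw [wo_mul hs0 (c := (1 / 2 : ℝ)) (by ring),
              wo_mul hs0 (c := -m + 1 / 4 + γ) (by ring)]
        _ ≤ ‖s‖ ^ (-m - 1 / 2 + γ) := wo_mono hs0 hs1 (by linarith)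
    calc ‖s‖ * ‖f‖ * ‖A s‖
        ≤ ‖s‖ * (‖s‖ ^ (-(1 / 2) : ℝ) * N) * (C * ‖s‖ ^ (-m - 1 / 4 + γ)) :=
          mul_le_mul (mul_le_mul_of_nonneg_left h4 hs0.le) h3 (norm_nonneg _) (by positivity)
      _ = C * (‖s‖ * ‖s‖ ^ (-(1 / 2) : ℝ) * ‖s‖ ^ (-m - 1 / 4 + γ)) * N := by ring
      _ ≤ C * Z * N :=
        mul_le_mul_of_nonneg_right (mul_le_mul_of_nonneg_left e8 hC) hN0
  rw [← hZ]
  calc ‖∑' x, f x * kop k s (A s) x‖ ≤ P * (‖f‖ * Real.sqrt (κ.EF (A s)) +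
        Real.sqrt (κ.EF f) * ‖A s‖ + Real.sqrt (κ.EF f) * Real.sqrt (κ.EF (A s)) +
        ‖s‖ * ‖f‖ * ‖A s‖) := h6
    _ ≤ P * (C * Z * N + C * Z * N + C * Z * N + C * Z * N) :=
      mul_le_mul_of_nonneg_left (add_le_add (add_le_add (add_le_add e1 e3) e5) e7) hP
    _ = 4 * P * C * Z * N := by ring

/-- `norm_bl_le`, `Ad.norm_le`: `‖f‖ ‖A‖ ≤ C ‖s‖ ^ (-1/4) ‖s‖ ^ (-m - 1/4 + γ)`. -/
theorem Ok.of_k (hκ : κ.Ok) (hk : κ.Ad k) (hA : κ.Od m γ A) (hB : κ.Od 0 0 B) :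
    κ.Of (-m - 1 / 2 + γ) (fun s => ∑' x, B s x * kop k s (A s) x) := by
  obtain ⟨C, r, hC, hr, h⟩ := hA
  obtain ⟨C', r', hC', hr', h'⟩ := hB
  obtain ⟨B', hB', hn⟩ := hk.norm_le
  refine ⟨C' * (B' * C), min r r', by positivity, lt_min hr hr', fun s hs hsr => ?_⟩
  obtain ⟨-, -, h3⟩ := h s hs (hsr.trans_le (min_le_left _ _))
  obtain ⟨-, -, h3'⟩ := h' s hs (hsr.trans_le (min_le_right _ _))
  obtain ⟨hs0, hs1, hs2⟩ := wo_sec hκ hs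
  have h5 : ‖s‖ ^ (-(0 : ℝ) - 1 / 4 + 0) * ‖s‖ ^ (-m - 1 / 4 + γ) = ‖s‖ ^ (-m - 1 / 2 + γ) :=
    wo_mul hs0 (by ring)
  calc ‖∑' x, B s x * kop k s (A s) x‖ ≤ ‖B s‖ * ‖kop k s (A s)‖ := norm_bl_le _ _
    _ ≤ (C' * ‖s‖ ^ (-(0 : ℝ) - 1 / 4 + 0)) * (B' * (C * ‖s‖ ^ (-m - 1 / 4 + γ))) :=
      mul_le_mul h3' ((hn s hs2 (A s)).trans (mul_le_mul_of_nonneg_left h3 hB'))
        (norm_nonneg _) (by positivity)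
    _ = C' * (B' * C) * (‖s‖ ^ (-(0 : ℝ) - 1 / 4 + 0) * ‖s‖ ^ (-m - 1 / 4 + γ)) := by ring
    _ = C' * (B' * C) * ‖s‖ ^ (-m - 1 / 2 + γ) := by rw [h5]

/-- `pair`. -/
theorem Ok.of_r (hκ : κ.Ok) (hk : κ.Ad k) (hT : κ.Tr k g) (h0 : κ.la g = 0)
    (hA : κ.Od m γ A) (hB : κ.Od 0 0 B) :
    κ.Of (-m - 1 / 4 + γ) (fun s => ∑' x, B s x * kop k s (A s) x) := by
  obtain ⟨C, r, hC, hr, h⟩ := hA
  obtain ⟨C', r', hC', hr', h'⟩ := hB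
  obtain ⟨P, hP, hp⟩ := hκ.pair hk hT h0
  refine ⟨4 * P * (C' * C), min r r', by positivity, lt_min hr hr', fun s hs hsr => ?_⟩
  obtain ⟨h1, h2, h3⟩ := h s hs (hsr.trans_le (min_le_left _ _))
  obtain ⟨h1', h2', h3'⟩ := h' s hs (hsr.trans_le (min_le_right _ _))
  obtain ⟨hs0, hs1, hs2⟩ := wo_sec hκ hs
  have h6 := hp s hs (B s) (A s) h1' h1
  have hz : -(0 : ℝ) + 0 = 0 := by norm_num
  rw [hz, Real.rpow_zero, mul_one] at h2'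
  have hz' : -(0 : ℝ) - 1 / 4 + 0 = -(1 / 4) := by norm_num
  rw [hz'] at h3'
  obtain ⟨Z, hZ⟩ : ∃ Z, Z = ‖s‖ ^ (-m - 1 / 4 + γ) := ⟨_, rfl⟩
  have hZ0 : 0 ≤ Z := by
    rw [hZ]
    positivity
  have e6 : ‖s‖ ^ (-m + γ) ≤ Z := by
    rw [hZ]
    exact wo_mono hs0 hs1 (by linarith)
  have e1 : ‖B s‖ * Real.sqrt (κ.EF (A s)) ≤ C' * C * Z := by
    have e2 : ‖s‖ ^ (-(1 / 4) : ℝ) * ‖s‖ ^ (-m + γ) = Z := by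
      rw [hZ]
      exact wo_mul hs0 (by ring)
    calc ‖B s‖ * Real.sqrt (κ.EF (A s)) ≤ (C' * ‖s‖ ^ (-(1 / 4) : ℝ)) * (C * ‖s‖ ^ (-m + γ)) :=
          mul_le_mul h3' h2 (Real.sqrt_nonneg _) (by positivity)
      _ = C' * C * (‖s‖ ^ (-(1 / 4) : ℝ) * ‖s‖ ^ (-m + γ)) := by ring
      _ = C' * C * Z := by rw [e2]
  have e3 : Real.sqrt (κ.EF (B s)) * ‖A s‖ ≤ C' * C * Z := by
    rw [hZ]
    calc Real.sqrt (κ.EF (B s)) * ‖A s‖ ≤ C' * (C * ‖s‖ ^ (-m - 1 / 4 + γ)) :=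
          mul_le_mul h2' h3 (norm_nonneg _) hC'
      _ = C' * C * ‖s‖ ^ (-m - 1 / 4 + γ) := by ring
  have e5 : Real.sqrt (κ.EF (B s)) * Real.sqrt (κ.EF (A s)) ≤ C' * C * Z := by
    calc Real.sqrt (κ.EF (B s)) * Real.sqrt (κ.EF (A s)) ≤ C' * (C * ‖s‖ ^ (-m + γ)) :=
          mul_le_mul h2' h2 (Real.sqrt_nonneg _) hC'
      _ ≤ C' * (C * Z) := mul_le_mul_of_nonneg_left (mul_le_mul_of_nonneg_left e6 hC) hC'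
      _ = C' * C * Z := by ring
  have e7 : ‖s‖ * ‖B s‖ * ‖A s‖ ≤ C' * C * Z := by
    have e8 : ‖s‖ * ‖s‖ ^ (-(1 / 4) : ℝ) * ‖s‖ ^ (-m - 1 / 4 + γ) ≤ Z := by
      rw [hZ]
      calc ‖s‖ * ‖s‖ ^ (-(1 / 4) : ℝ) * ‖s‖ ^ (-m - 1 / 4 + γ)
          = ‖s‖ ^ (1 : ℝ) * ‖s‖ ^ (-(1 / 4) : ℝ) * ‖s‖ ^ (-m - 1 / 4 + γ) := by
            rw [Real.rpow_one]
        _ = ‖s‖ ^ (-m + 1 / 2 + γ) := by
            rw [wo_mul hs0 (c := (3 / 4 : ℝ)) (by ring),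
              wo_mul hs0 (c := -m + 1 / 2 + γ) (by ring)]
        _ ≤ ‖s‖ ^ (-m - 1 / 4 + γ) := wo_mono hs0 hs1 (by linarith)
    calc ‖s‖ * ‖B s‖ * ‖A s‖
        ≤ ‖s‖ * (C' * ‖s‖ ^ (-(1 / 4) : ℝ)) * (C * ‖s‖ ^ (-m - 1 / 4 + γ)) :=
          mul_le_mul (mul_le_mul_of_nonneg_left h3' hs0.le) h3 (norm_nonneg _) (by positivity)
      _ = C' * C * (‖s‖ * ‖s‖ ^ (-(1 / 4) : ℝ) * ‖s‖ ^ (-m - 1 / 4 + γ)) := by ring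
      _ ≤ C' * C * Z := mul_le_mul_of_nonneg_left e8 (by positivity)
  rw [← hZ]
  calc ‖∑' x, B s x * kop k s (A s) x‖ ≤ P * (‖B s‖ * Real.sqrt (κ.EF (A s)) +
        Real.sqrt (κ.EF (B s)) * ‖A s‖ + Real.sqrt (κ.EF (B s)) * Real.sqrt (κ.EF (A s)) +
        ‖s‖ * ‖B s‖ * ‖A s‖) := h6
    _ ≤ P * (C' * C * Z + C' * C * Z + C' * C * Z + C' * C * Z) :=
      mul_le_mul_of_nonneg_left (add_le_add (add_le_add (add_le_add e1 e3) e5) e7) hP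
    _ = 4 * P * (C' * C) * Z := by ring

/-- `Cp.loc`. -/
theorem Ok.of_cap (hκ : κ.Ok) {b : VF I} (hb : κ.Cp b) (hA : κ.Od m γ A) :
    κ.Of (-m + γ) (fun s => ∑' x, vs b s x * A s x) := by
  obtain ⟨C, r, hC, hr, h⟩ := hA
  obtain ⟨P, hP, hp⟩ := hb.loc hκ
  refine ⟨P * C, r, by positivity, hr, fun s hs hsr => ?_⟩
  obtain ⟨h1, h2, -⟩ := h s hs hsr
  obtain ⟨-, -, hs2⟩ := wo_sec hκ hs
  calc ‖∑' x, vs b s x * A s x‖ ≤ P * Real.sqrt (κ.EF (A s)) := hp s hs2 (A s) h1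
    _ ≤ P * (C * ‖s‖ ^ (-m + γ)) := mul_le_mul_of_nonneg_left h2 hP
    _ = P * C * ‖s‖ ^ (-m + γ) := by ring

theorem Of.add {p : ℝ} {f f' : ℂ → ℂ} (h : κ.Of p f) (h' : κ.Of p f') (c : ℂ) :
    κ.Of p (fun s => f s + c * f' s) := by
  obtain ⟨C, r, hC, hr, h⟩ := h
  obtain ⟨C', r', hC', hr', h'⟩ := h'
  refine ⟨C + ‖c‖ * C', min r r', by positivity, lt_min hr hr', fun s hs hsr => ?_⟩
  have h1 := h s hs (hsr.trans_le (min_le_left _ _))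
  have h2 := h' s hs (hsr.trans_le (min_le_right _ _))
  calc ‖f s + c * f' s‖ ≤ ‖f s‖ + ‖c‖ * ‖f' s‖ := (norm_add_le _ _).trans_eq (by rw [norm_mul])
    _ ≤ C * ‖s‖ ^ p + ‖c‖ * (C' * ‖s‖ ^ p) :=
      add_le_add h1 (mul_le_mul_of_nonneg_left h2 (norm_nonneg c))
    _ = (C + ‖c‖ * C') * ‖s‖ ^ p := by ring

/-- `‖s‖ ≤ 1` near `0`. -/
theorem Of.mono {p q : ℝ} {f : ℂ → ℂ} (h : κ.Of p f) (hq : q ≤ p) : κ.Of q f := by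
  obtain ⟨C, r, hC, hr, h⟩ := h
  refine ⟨C, min r 1, hC, lt_min hr one_pos, fun s hs hsr => ?_⟩
  have h1 := h s hs (hsr.trans_le (min_le_left _ _))
  have hs0 : 0 < ‖s‖ := norm_pos_iff.2 hs.1
  have hs1 : ‖s‖ ≤ 1 := (hsr.trans_le (min_le_right _ _)).le
  exact h1.trans (mul_le_mul_of_nonneg_left (wo_mono hs0 hs1 hq) hC)

end Slb

end Pool.Agent.KSlab
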