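import Pool.Agent.KSlab.WPairA
import Pool.Agent.KSlab.WAd

/-! SW7: pairings with a kernel of mean weight zero. -/

set_option autoImplicit false

open Complex Set Filter Topology
open scoped ENNReal

namespace Pool.Agent.KSlab

namespace Slb

variable {I : Type} [Fintype I] {κ : Slb I} {k : KF I} {g : GF I}

private theorem wp_two_pos : 0 < (2 : ℝ≥0∞).toReal := by norm_num

omit [Fintype I] in
private theorem wp_sq (f : EE I) : Summable fun x => ‖f x‖ ^ 2 := by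
  have h := (lp.hasSum_norm wp_two_pos f).summable
  simpa using h

private theorem wp_one_le (n : ℕ) : (1 : ℝ) ≤ (3 / 2) ^ n := one_le_pow₀ (by norm_num)

private theorem wp_succ_le (n : ℕ) : 1 + (n : ℝ) ≤ 2 ^ n := by
  have h : n + 1 ≤ 2 ^ n := Nat.lt_two_pow_self
  have h' : ((n + 1 : ℕ) : ℝ) ≤ ((2 ^ n : ℕ) : ℝ) := by exact_mod_cast h
  push_cast at h'
  linarith

private theorem wp_pt (hκ : κ.Ok) : ∃ C : ℝ, 0 ≤ C ∧ ∀ f : EE I, κ.Van f → ∀ x : XX I,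
    ‖f x‖ ≤ C * 2 ^ x.1.natAbs * Real.sqrt (κ.EF f) := by
  obtain ⟨C, hC, h⟩ := hκ.low_pt
  refine ⟨Real.sqrt C, Real.sqrt_nonneg _, fun f hf x => ?_⟩
  have h1 := h f (hκ.fin_E f) hf x
  have hE := hκ.EF_nn f
  have h2 : 1 + (x.1.natAbs : ℝ) ≤ (2 ^ x.1.natAbs) ^ 2 := by
    refine (wp_succ_le _).trans ?_
    have : (1 : ℝ) ≤ 2 ^ x.1.natAbs := one_le_pow₀ (by norm_num)
    nlinarith
  rw [← pow_le_pow_iff_left₀ (norm_nonneg _) (by positivity) two_ne_zero, mul_pow, mul_pow,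
    Real.sq_sqrt hC.le, Real.sq_sqrt hE]
  exact h1.trans (mul_le_mul_of_nonneg_right (mul_le_mul_of_nonneg_left h2 hC.le) hE)

/-- The localised part at `s = 0`: `‖f x‖ ‖A y‖ ≤ C 2 ^ |x| 2 ^ |y| √(EF f) √(EF A)` by `low_pt` (`1 + n ≤ 4 ^ n`), and
`Tr.loc`. -/
theorem Ok.pair_loc (hκ : κ.Ok) (hT : κ.Tr k g) : ∃ C : ℝ, 0 ≤ C ∧ ∀ f A : EE I,
    κ.Van f → κ.Van A →
    (Summable fun p : ℕ × XX I × XX I => f p.2.1 *
      (((k p.1 p.2.1 p.2.2 - g p.1 (p.2.2.1 - p.2.1.1) p.2.1.2 p.2.2.2 : ℝ) : ℂ) * A p.2.2)) ∧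
    ‖∑' p : ℕ × XX I × XX I, f p.2.1 *
      (((k p.1 p.2.1 p.2.2 - g p.1 (p.2.2.1 - p.2.1.1) p.2.1.2 p.2.2.2 : ℝ) : ℂ) * A p.2.2)‖ ≤
      C * (Real.sqrt (κ.EF f) * Real.sqrt (κ.EF A)) := by
  classical
  obtain ⟨C, hC, h⟩ := wp_pt hκ
  have hS := hT.loc
  set loc : ℕ × XX I × XX I → ℝ := fun p => if κ.Al p.2.1 ∧ κ.Al p.2.2 then
    (3 / 2) ^ p.1 * 2 ^ (p.2.1.1.natAbs + p.2.2.1.natAbs) *
      |k p.1 p.2.1 p.2.2 - g p.1 (p.2.2.1 - p.2.1.1) p.2.1.2 p.2.2.2| else 0 with hloc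
  have hS' : Summable loc := by
    refine hS.congr fun p => ?_
    simp only [hloc]
  have hnn : ∀ p, 0 ≤ loc p := by
    intro p
    simp only [hloc]
    split_ifs
    · positivity
    · exact le_rfl
  refine ⟨C ^ 2 * ∑' p, loc p, mul_nonneg (sq_nonneg _) (tsum_nonneg hnn), fun f A hf hA => ?_⟩
  have key : ∀ p : ℕ × XX I × XX I, ‖f p.2.1 *
      (((k p.1 p.2.1 p.2.2 - g p.1 (p.2.2.1 - p.2.1.1) p.2.1.2 p.2.2.2 : ℝ) : ℂ) * A p.2.2)‖ ≤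
      (C ^ 2 * (Real.sqrt (κ.EF f) * Real.sqrt (κ.EF A))) * loc p := by
    rintro ⟨n, x, y⟩
    simp only [hloc]
    by_cases hx : κ.Al x
    · by_cases hy : κ.Al y
      · rw [if_pos ⟨hx, hy⟩, norm_mul, norm_mul, Complex.norm_real, Real.norm_eq_abs]
        have h1 := h f hf x
        have h2 := h A hA y
        have h3 := wp_one_le n
        set d := |k n x y - g n (y.1 - x.1) x.2 y.2| with hd
        have hd0 : 0 ≤ d := abs_nonneg _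
        have h4 : ‖f x‖ * ‖A y‖ ≤ (C * 2 ^ x.1.natAbs * Real.sqrt (κ.EF f)) *
            (C * 2 ^ y.1.natAbs * Real.sqrt (κ.EF A)) :=
          mul_le_mul h1 h2 (norm_nonneg _) (by positivity)
        calc ‖f x‖ * (d * ‖A y‖) = (‖f x‖ * ‖A y‖) * d * 1 := by ring
          _ ≤ ((C * 2 ^ x.1.natAbs * Real.sqrt (κ.EF f)) *
              (C * 2 ^ y.1.natAbs * Real.sqrt (κ.EF A))) * d * (3 / 2) ^ n := by gcongr
          _ = _ := by rw [pow_add]; ring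
      · rw [hA y hy, mul_zero, mul_zero, norm_zero, if_neg (fun h => hy h.2), mul_zero]
    · rw [hf x hx, zero_mul, norm_zero, if_neg (fun h => hx h.1), mul_zero]
  have hs2 := hS'.mul_left (C ^ 2 * (Real.sqrt (κ.EF f) * Real.sqrt (κ.EF A)))
  refine ⟨Summable.of_norm_bounded hs2 key, ?_⟩
  refine (tsum_of_norm_bounded hs2.hasSum key).trans (le_of_eq ?_)
  rw [tsum_mul_left]
  ring

/-- The substitution `x = (u, i)`, `y = (u + t, j)`. -/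
private def wpE (I : Type) : ((ℕ × ℤ × I × I) × ℤ) ≃ (ℕ × XX I × XX I) where
  toFun p := (p.1.1, (p.2, p.1.2.2.1), (p.2 + p.1.2.1, p.1.2.2.2))
  invFun q := ((q.1, q.2.2.1 - q.2.1.1, q.2.1.2, q.2.2.2), q.2.1.1)
  left_inv := by rintro ⟨⟨n, t, i, j⟩, u⟩; simp
  right_inv := by rintro ⟨n, ⟨u, i⟩, ⟨v, j⟩⟩; simp

private theorem wp_h_up (hκ : κ.Ok) : ∃ M : ℝ, 0 < M ∧ ∀ i, κ.h i ≤ M := by
  obtain ⟨i₀, -⟩ := hκ.dead_ne
  have : Nonempty I := ⟨i₀⟩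
  obtain ⟨i, hi⟩ := Finite.exists_max κ.h
  exact ⟨κ.h i, hκ.h_pos i, hi⟩

private theorem wp_la (hκ : κ.Ok) (hT : κ.Tr k g) : Summable fun p : ℕ × ℤ × I × I =>
    g p.1 p.2.1 p.2.2.1 p.2.2.2 * (κ.h p.2.2.1 * κ.h p.2.2.2) := by
  obtain ⟨M, hM, hMh⟩ := wp_h_up hκ
  refine Summable.of_norm_bounded (hT.sum.mul_right (M * M)) fun p => ?_
  have h1 := (hκ.h_pos p.2.2.1).le
  have h2 := (hκ.h_pos p.2.2.2).le
  have h3 := wp_one_le p.1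
  have h4 : (1 : ℝ) ≤ 2 ^ p.2.1.natAbs := one_le_pow₀ (by norm_num)
  rw [norm_mul, Real.norm_eq_abs, Real.norm_of_nonneg (mul_nonneg h1 h2)]
  have h5 : κ.h p.2.2.1 * κ.h p.2.2.2 ≤ M * M := mul_le_mul (hMh _) (hMh _) h2 hM.le
  calc |g p.1 p.2.1 p.2.2.1 p.2.2.2| * (κ.h p.2.2.1 * κ.h p.2.2.2)
      = 1 * 1 * |g p.1 p.2.1 p.2.2.1 p.2.2.2| * (κ.h p.2.2.1 * κ.h p.2.2.2) := by ring
    _ ≤ (3 / 2) ^ p.1 * 2 ^ p.2.1.natAbs * |g p.1 p.2.1 p.2.2.1 p.2.2.2| * (M * M) := by gcongr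

/-- The translation invariant part at `s = 0`: substitute `y = (x.1 + t, j)`; the sum over `u = x.1` by `corr` (absolute
convergence: `‖∑_u f (u, i) A (u + t, j)‖ ≤ ‖f‖ ‖A‖` also for the absolute values), the main terms add up to
`la g (h i₀)⁻² ∑ f (u, i₀) A (u, i₀) = 0`; `1 + |t| ≤ 2 · 2 ^ |t|`, `Tr.sum`. (`I` empty is trivial.) -/
theorem Ok.pair_inv (hκ : κ.Ok) (hT : κ.Tr k g) (h0 : κ.la g = 0) : ∃ C : ℝ, 0 ≤ C ∧
    ∀ f A : EE I,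
    (Summable fun p : ℕ × XX I × XX I => f p.2.1 *
      (((g p.1 (p.2.2.1 - p.2.1.1) p.2.1.2 p.2.2.2 : ℝ) : ℂ) * A p.2.2)) ∧
    ‖∑' p : ℕ × XX I × XX I, f p.2.1 *
      (((g p.1 (p.2.2.1 - p.2.1.1) p.2.1.2 p.2.2.2 : ℝ) : ℂ) * A p.2.2)‖ ≤
      C * (‖f‖ * Real.sqrt (κ.EF A) + Real.sqrt (κ.EF f) * ‖A‖) := by
  obtain ⟨C, hC, hcorr⟩ := hκ.corr
  obtain ⟨i₀, -⟩ := hκ.dead_ne
  set S : ℝ := ∑' p : ℕ × ℤ × I × I,
    (3 / 2) ^ p.1 * 2 ^ p.2.1.natAbs * |g p.1 p.2.1 p.2.2.1 p.2.2.2| with hS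
  have hS0 : 0 ≤ S := tsum_nonneg fun p => by positivity
  refine ⟨C * S, mul_nonneg hC hS0, fun f A => ?_⟩
  set M : ℝ := ‖f‖ * Real.sqrt (κ.EF A) + Real.sqrt (κ.EF f) * ‖A‖ with hM
  have hM0 : 0 ≤ M := by positivity
  set F : ℕ × XX I × XX I → ℂ := fun p => f p.2.1 *
      (((g p.1 (p.2.2.1 - p.2.1.1) p.2.1.2 p.2.2.2 : ℝ) : ℂ) * A p.2.2) with hF
  have hFe : ∀ (q : ℕ × ℤ × I × I) (u : ℤ), F (wpE I (q, u)) =
      ((g q.1 q.2.1 q.2.2.1 q.2.2.2 : ℝ) : ℂ) * (f (u, q.2.2.1) * A (u + q.2.1, q.2.2.2)) := by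
    intro q u
    simp only [hF, wpE, Equiv.coe_fn_mk, add_sub_cancel_left]
    ring
  have hf2 : ∀ i : I, Summable fun u : ℤ => ‖f (u, i)‖ ^ 2 := fun i =>
    (wp_sq f).comp_injective (i := fun u : ℤ => ((u, i) : XX I)) fun a b hab => (Prod.mk.inj hab).1
  have hA2 : ∀ (t : ℤ) (j : I), Summable fun u : ℤ => ‖A (u + t, j)‖ ^ 2 := fun t j =>
    (wp_sq A).comp_injective (i := fun u : ℤ => ((u + t, j) : XX I)) fun a b hab =>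
      add_right_cancel (Prod.mk.inj hab).1
  have hf3 : ∀ i : I, ∑' u : ℤ, ‖f (u, i)‖ ^ 2 ≤ ∑' x, ‖f x‖ ^ 2 := fun i =>
    tsum_comp_le_tsum_of_inj (wp_sq f) (fun _ => by positivity)
      (i := fun u : ℤ => ((u, i) : XX I)) fun a b hab => (Prod.mk.inj hab).1
  have hA3 : ∀ (t : ℤ) (j : I), ∑' u : ℤ, ‖A (u + t, j)‖ ^ 2 ≤ ∑' x, ‖A x‖ ^ 2 := fun t j =>
    tsum_comp_le_tsum_of_inj (wp_sq A) (fun _ => by positivity)
      (i := fun u : ℤ => ((u + t, j) : XX I)) fun a b hab => add_right_cancel (Prod.mk.inj hab).1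
  set N : ℝ := ∑' x, ‖f x‖ ^ 2 + ∑' x, ‖A x‖ ^ 2 with hN
  have hgS : Summable fun q : ℕ × ℤ × I × I => |g q.1 q.2.1 q.2.2.1 q.2.2.2| := by
    refine Summable.of_nonneg_of_le (fun _ => abs_nonneg _) (fun q => ?_) hT.sum
    have h3 := wp_one_le q.1
    have h4 : (1 : ℝ) ≤ 2 ^ q.2.1.natAbs := one_le_pow₀ (by norm_num)
    calc |g q.1 q.2.1 q.2.2.1 q.2.2.2| = 1 * 1 * |g q.1 q.2.1 q.2.2.1 q.2.2.2| := by ring
      _ ≤ (3 / 2) ^ q.1 * 2 ^ q.2.1.natAbs * |g q.1 q.2.1 q.2.2.1 q.2.2.2| := by gcongr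
  have hbd : ∀ (q : ℕ × ℤ × I × I) (u : ℤ), ‖F (wpE I (q, u))‖ ≤
      |g q.1 q.2.1 q.2.2.1 q.2.2.2| * (‖f (u, q.2.2.1)‖ ^ 2 + ‖A (u + q.2.1, q.2.2.2)‖ ^ 2) := by
    intro q u
    rw [hFe, norm_mul, Complex.norm_real, Real.norm_eq_abs, norm_mul]
    refine mul_le_mul_of_nonneg_left ?_ (abs_nonneg _)
    nlinarith [sq_nonneg (‖f (u, q.2.2.1)‖ - ‖A (u + q.2.1, q.2.2.2)‖),
      sq_nonneg ‖f (u, q.2.2.1)‖, sq_nonneg ‖A (u + q.2.1, q.2.2.2)‖]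
  have hu : ∀ q : ℕ × ℤ × I × I, Summable fun u : ℤ =>
      |g q.1 q.2.1 q.2.2.1 q.2.2.2| * (‖f (u, q.2.2.1)‖ ^ 2 + ‖A (u + q.2.1, q.2.2.2)‖ ^ 2) :=
    fun q => ((hf2 q.2.2.1).add (hA2 q.2.1 q.2.2.2)).mul_left _
  have hn : Summable fun p : (ℕ × ℤ × I × I) × ℤ => ‖F (wpE I p)‖ := by
    rw [summable_prod_of_nonneg fun p => norm_nonneg _]
    refine ⟨fun q => Summable.of_nonneg_of_le (fun _ => norm_nonneg _) (hbd q) (hu q), ?_⟩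
    refine Summable.of_nonneg_of_le (fun q => tsum_nonneg fun _ => norm_nonneg _) (fun q => ?_)
      (hgS.mul_right N)
    refine (Summable.tsum_le_tsum (hbd q)
      (Summable.of_nonneg_of_le (fun _ => norm_nonneg _) (hbd q) (hu q)) (hu q)).trans ?_
    rw [tsum_mul_left, (hf2 q.2.2.1).tsum_add (hA2 q.2.1 q.2.2.2)]
    exact mul_le_mul_of_nonneg_left (add_le_add (hf3 _) (hA3 _ _)) (abs_nonneg _)
  have hsum : Summable fun p : (ℕ × ℤ × I × I) × ℤ => F (wpE I p) := hn.of_norm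
  refine ⟨(wpE I).summable_iff.1 hsum, ?_⟩
  rw [← (wpE I).tsum_eq F, hsum.tsum_prod]
  have hq : ∀ q : ℕ × ℤ × I × I, ∑' u : ℤ, F (wpE I (q, u)) =
      ((g q.1 q.2.1 q.2.2.1 q.2.2.2 : ℝ) : ℂ) *
        ∑' u : ℤ, f (u, q.2.2.1) * A (u + q.2.1, q.2.2.2) := by
    intro q
    rw [← tsum_mul_left]
    exact tsum_congr fun u => hFe q u
  set c₀ : ℂ := (((κ.h i₀ * κ.h i₀)⁻¹ : ℝ) * ∑' u : ℤ, f (u, i₀) * A (u, i₀) : ℂ) with hc₀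
  have hmain : Summable fun q : ℕ × ℤ × I × I => (((g q.1 q.2.1 q.2.2.1 q.2.2.2 *
      (κ.h q.2.2.1 * κ.h q.2.2.2) : ℝ) : ℂ)) * c₀ :=
    (Complex.hasSum_ofReal.2 (wp_la hκ hT).hasSum).summable.mul_right c₀
  have hmain0 : ∑' q : ℕ × ℤ × I × I, (((g q.1 q.2.1 q.2.2.1 q.2.2.2 *
      (κ.h q.2.2.1 * κ.h q.2.2.2) : ℝ) : ℂ)) * c₀ = 0 := by
    rw [tsum_mul_right, ← Complex.ofReal_tsum]
    have : ∑' q : ℕ × ℤ × I × I, g q.1 q.2.1 q.2.2.1 q.2.2.2 *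
      (κ.h q.2.2.1 * κ.h q.2.2.2) = 0 := h0
    rw [this, Complex.ofReal_zero, zero_mul]
  have herr : ∀ q : ℕ × ℤ × I × I, ‖∑' u : ℤ, F (wpE I (q, u)) -
      (((g q.1 q.2.1 q.2.2.1 q.2.2.2 * (κ.h q.2.2.1 * κ.h q.2.2.2) : ℝ) : ℂ)) * c₀‖ ≤
      (C * M) * ((3 / 2) ^ q.1 * 2 ^ q.2.1.natAbs * |g q.1 q.2.1 q.2.2.1 q.2.2.2|) := by
    intro q
    have h1 := (hcorr f A q.2.1 q.2.2.1 q.2.2.2 i₀).2
    rw [← hc₀, ← hM] at h1
    have e1 : ∑' u : ℤ, F (wpE I (q, u)) -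
        (((g q.1 q.2.1 q.2.2.1 q.2.2.2 * (κ.h q.2.2.1 * κ.h q.2.2.2) : ℝ) : ℂ)) * c₀ =
        ((g q.1 q.2.1 q.2.2.1 q.2.2.2 : ℝ) : ℂ) *
          (∑' u : ℤ, f (u, q.2.2.1) * A (u + q.2.1, q.2.2.2) -
            ((κ.h q.2.2.1 * κ.h q.2.2.2 : ℝ) : ℂ) * c₀) := by
      rw [hq, Complex.ofReal_mul]
      ring
    rw [e1, norm_mul, Complex.norm_real, Real.norm_eq_abs]
    have h3 := wp_one_le q.1
    have h4 := wp_succ_le q.2.1.natAbs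
    calc |g q.1 q.2.1 q.2.2.1 q.2.2.2| * ‖∑' u : ℤ, f (u, q.2.2.1) * A (u + q.2.1, q.2.2.2) -
            ((κ.h q.2.2.1 * κ.h q.2.2.2 : ℝ) : ℂ) * c₀‖
        ≤ |g q.1 q.2.1 q.2.2.1 q.2.2.2| * (C * (1 + q.2.1.natAbs) * M) :=
          mul_le_mul_of_nonneg_left h1 (abs_nonneg _)
      _ = (C * M) * (1 * (1 + (q.2.1.natAbs : ℝ)) * |g q.1 q.2.1 q.2.2.1 q.2.2.2|) := by ring
      _ ≤ _ := by gcongr
  have hs3 := hT.sum.mul_left (C * M)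
  have hdiff : Summable fun q : ℕ × ℤ × I × I => ∑' u : ℤ, F (wpE I (q, u)) -
      (((g q.1 q.2.1 q.2.2.1 q.2.2.2 * (κ.h q.2.2.1 * κ.h q.2.2.2) : ℝ) : ℂ)) * c₀ :=
    Summable.of_norm_bounded hs3 herr
  have e2 : ∑' q : ℕ × ℤ × I × I, ∑' u : ℤ, F (wpE I (q, u)) =
      ∑' q : ℕ × ℤ × I × I, (∑' u : ℤ, F (wpE I (q, u)) -
      (((g q.1 q.2.1 q.2.2.1 q.2.2.2 * (κ.h q.2.2.1 * κ.h q.2.2.2) : ℝ) : ℂ)) * c₀) := by
    have h1 := hdiff.tsum_add hmain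
    rw [hmain0, add_zero] at h1
    rw [← h1]
    exact tsum_congr fun q => by rw [sub_add_cancel]
  rw [e2]
  refine (tsum_of_norm_bounded hs3.hasSum herr).trans (le_of_eq ?_)
  rw [tsum_mul_left, ← hS]
  ring

/-- `kop k s = kop k 0 + O(‖s‖)` (`Ad.near_zero`, `norm_bl_le`; `‖s‖ < 40 z ≤ 1/10` in `Sec`), and
`∑ f (kop k 0 A) = ∑_{n, x, y} f x k n x y A y` (absolutely convergent: `Ad.sum`, Schur), then `pair_loc` and
`pair_inv`. -/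
theorem Ok.pair (hκ : κ.Ok) (hk : κ.Ad k) (hT : κ.Tr k g) (h0 : κ.la g = 0) : ∃ C : ℝ, 0 ≤ C ∧
    ∀ s ∈ κ.Sec, ∀ f A : EE I, κ.Van f → κ.Van A →
    ‖∑' x, f x * kop k s A x‖ ≤ C * (‖f‖ * Real.sqrt (κ.EF A) + Real.sqrt (κ.EF f) * ‖A‖ +
      Real.sqrt (κ.EF f) * Real.sqrt (κ.EF A) + ‖s‖ * ‖f‖ * ‖A‖) := by
  obtain ⟨C₁, hC₁, h1⟩ := hκ.pair_loc hT
  obtain ⟨C₂, hC₂, h2⟩ := hκ.pair_inv hT h0
  obtain ⟨C₃, hC₃, h3⟩ := hk.near_zero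
  refine ⟨C₁ + C₂ + C₃, by positivity, fun s hs f A hf hA => ?_⟩
  obtain ⟨s1, b1⟩ := h1 f A hf hA
  obtain ⟨s2, b2⟩ := h2 f A
  have hs10 : ‖s‖ ≤ 1 / 10 := by
    have := hs.2.1
    have := hκ.z_le
    have : (1 : ℝ) / 10 ^ 12 ≤ 1 / 400 := by norm_num
    linarith
  have b3 := h3 s hs10 A
  have e1 : ∑' x, f x * kop k s A x =
      ∑' x, f x * (kop k s A - kop k 0 A) x + ∑' x, f x * kop k 0 A x := by
    rw [← (bl_summable f (kop k s A - kop k 0 A)).tsum_add (bl_summable f (kop k 0 A))]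
    refine tsum_congr fun x => ?_
    have : (kop k s A - kop k 0 A) x = kop k s A x - kop k 0 A x := rfl
    rw [this]
    ring
  have b4 : ‖∑' x, f x * (kop k s A - kop k 0 A) x‖ ≤ ‖f‖ * (C₃ * ‖s‖ * ‖A‖) :=
    (norm_bl_le _ _).trans (mul_le_mul_of_nonneg_left b3 (norm_nonneg _))
  set G : ℕ × XX I × XX I → ℂ := fun p => f p.2.1 * (((k p.1 p.2.1 p.2.2 : ℝ) : ℂ) * A p.2.2)
    with hG
  have hGe : ∀ p, G p = f p.2.1 *
      (((k p.1 p.2.1 p.2.2 - g p.1 (p.2.2.1 - p.2.1.1) p.2.1.2 p.2.2.2 : ℝ) : ℂ) * A p.2.2) +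
      f p.2.1 * (((g p.1 (p.2.2.1 - p.2.1.1) p.2.1.2 p.2.2.2 : ℝ) : ℂ) * A p.2.2) := by
    intro p
    simp only [hG]
    push_cast
    ring
  have hGs : Summable G := (s1.add s2).congr fun p => (hGe p).symm
  have hGt : ∑' p, G p = ∑' p : ℕ × XX I × XX I, f p.2.1 *
      (((k p.1 p.2.1 p.2.2 - g p.1 (p.2.2.1 - p.2.1.1) p.2.1.2 p.2.2.2 : ℝ) : ℂ) * A p.2.2) +
      ∑' p : ℕ × XX I × XX I, f p.2.1 *
        (((g p.1 (p.2.2.1 - p.2.1.1) p.2.1.2 p.2.2.2 : ℝ) : ℂ) * A p.2.2) := by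
    rw [← s1.tsum_add s2]
    exact tsum_congr hGe
  have e2 : ∑' x, f x * kop k 0 A x = ∑' p, G p := by
    let e := Equiv.prodComm (XX I × XX I) ℕ
    have hGs' : Summable fun p : (XX I × XX I) × ℕ => G (e p) := e.summable_iff.2 hGs
    rw [← e.tsum_eq G, hGs'.tsum_prod]
    have hin : ∀ x y : XX I, ∑' n : ℕ, G (e ((x, y), n)) = f x * (ks k 0 x y * A y) := by
      intro x y
      have : ks k 0 x y = ∑' n : ℕ, ((k n x y : ℝ) : ℂ) := by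
        unfold ks
        refine tsum_congr fun n => ?_
        rw [mul_zero, Complex.exp_zero, mul_one]
      rw [this, ← tsum_mul_right, ← tsum_mul_left]
      rfl
    have hs5 := hGs'.prod
    rw [hs5.tsum_prod]
    refine tsum_congr fun x => ?_
    rw [hk.apply (by norm_num) A x, ← tsum_mul_left]
    exact tsum_congr fun y => (hin x y).symm
  rw [e1, e2, hGt]
  have hE1 := Real.sqrt_nonneg (κ.EF f)
  have hE2 := Real.sqrt_nonneg (κ.EF A)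
  have n1 := norm_nonneg f
  have n2 := norm_nonneg A
  have n3 := norm_nonneg s
  refine (norm_add_le _ _).trans ((add_le_add b4 ((norm_add_le _ _).trans
    (add_le_add b1 b2))).trans ?_)
  have t1 : 0 ≤ ‖f‖ * Real.sqrt (κ.EF A) + Real.sqrt (κ.EF f) * ‖A‖ := by positivity
  have t2 : 0 ≤ Real.sqrt (κ.EF f) * Real.sqrt (κ.EF A) := by positivity
  have t3 : 0 ≤ ‖s‖ * ‖f‖ * ‖A‖ := by positivity
  have u1 := mul_nonneg hC₁ t1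
  have u2 := mul_nonneg hC₁ t3
  have u3 := mul_nonneg hC₂ t2
  have u4 := mul_nonneg hC₂ t3
  have u5 := mul_nonneg hC₃ t1
  have u6 := mul_nonneg hC₃ t2
  nlinarith

/-- Linearity; `la`: absolute convergence by `Tr.sum` (`h` is bounded). -/
theorem Ok.tr_sub (hκ : κ.Ok) {k' : KF I} {g' : GF I} (hT : κ.Tr k g) (hT' : κ.Tr k' g') (c : ℝ) :
    κ.Tr (fun n x y => k n x y - c * k' n x y) (fun n t i j => g n t i j - c * g' n t i j) ∧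
    κ.la (fun n t i j => g n t i j - c * g' n t i j) = κ.la g - c * κ.la g' := by
  classical
  refine ⟨⟨?_, ?_⟩, ?_⟩
  · refine Summable.of_nonneg_of_le (fun p => by positivity) (fun p => ?_)
      (hT.sum.add (hT'.sum.mul_left |c|))
    have h1 : |g p.1 p.2.1 p.2.2.1 p.2.2.2 - c * g' p.1 p.2.1 p.2.2.1 p.2.2.2| ≤
        |g p.1 p.2.1 p.2.2.1 p.2.2.2| + |c| * |g' p.1 p.2.1 p.2.2.1 p.2.2.2| := by
      rw [← abs_mul]
      exact abs_sub _ _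
    calc (3 / 2 : ℝ) ^ p.1 * 2 ^ p.2.1.natAbs *
          |g p.1 p.2.1 p.2.2.1 p.2.2.2 - c * g' p.1 p.2.1 p.2.2.1 p.2.2.2|
        ≤ (3 / 2) ^ p.1 * 2 ^ p.2.1.natAbs * (|g p.1 p.2.1 p.2.2.1 p.2.2.2| +
          |c| * |g' p.1 p.2.1 p.2.2.1 p.2.2.2|) := by gcongr
      _ = _ := by ring
  · refine Summable.of_nonneg_of_le (fun p => ?_) (fun p => ?_)
      (hT.loc.add (hT'.loc.mul_left |c|))
    · split_ifs
      · positivity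
      · exact le_rfl
    · split_ifs with h
      · have h1 : |(k p.1 p.2.1 p.2.2 - c * k' p.1 p.2.1 p.2.2) -
            (g p.1 (p.2.2.1 - p.2.1.1) p.2.1.2 p.2.2.2 -
              c * g' p.1 (p.2.2.1 - p.2.1.1) p.2.1.2 p.2.2.2)| ≤
            |k p.1 p.2.1 p.2.2 - g p.1 (p.2.2.1 - p.2.1.1) p.2.1.2 p.2.2.2| +
            |c| * |k' p.1 p.2.1 p.2.2 - g' p.1 (p.2.2.1 - p.2.1.1) p.2.1.2 p.2.2.2| := by
          rw [← abs_mul]
          refine le_trans (le_of_eq ?_) (abs_sub _ _)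
          congr 1
          ring
        calc (3 / 2 : ℝ) ^ p.1 * 2 ^ (p.2.1.1.natAbs + p.2.2.1.natAbs) *
              |(k p.1 p.2.1 p.2.2 - c * k' p.1 p.2.1 p.2.2) -
              (g p.1 (p.2.2.1 - p.2.1.1) p.2.1.2 p.2.2.2 -
                c * g' p.1 (p.2.2.1 - p.2.1.1) p.2.1.2 p.2.2.2)|
            ≤ (3 / 2) ^ p.1 * 2 ^ (p.2.1.1.natAbs + p.2.2.1.natAbs) *
              (|k p.1 p.2.1 p.2.2 - g p.1 (p.2.2.1 - p.2.1.1) p.2.1.2 p.2.2.2| +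
            |c| * |k' p.1 p.2.1 p.2.2 - g' p.1 (p.2.2.1 - p.2.1.1) p.2.1.2 p.2.2.2|) := by
              gcongr
          _ = _ := by ring
      · rw [mul_zero, add_zero]
  · unfold la
    rw [← tsum_mul_left, ← (wp_la hκ hT).tsum_sub ((wp_la hκ hT').mul_left c)]
    exact tsum_congr fun p => by ring

end Slb

end Pool.Agent.KSlab
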