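import Pool.Agent.KSlab.Low

/-! SW6: correlations of functions of small energy. -/

set_option autoImplicit false

open Complex Set Filter Topology
open scoped ENNReal ComplexConjugate

namespace Pool.Agent.KSlab

/-! ### Square summable sequences on the integers -/

/-- Square summable functions on the integers. -/
private abbrev HZ : Type := lp (fun _ : ℤ => ℂ) 2

private theorem wpa_two : 0 < (2 : ℝ≥0∞).toReal := by norm_num

private theorem wpa_mem {u : ℤ → ℂ} (h : Summable fun x => ‖u x‖ ^ 2) : Memℓp u 2 := by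
  rw [memℓp_gen_iff wpa_two]
  simpa using h

private theorem wpa_norm (g : HZ) : ∑' x, ‖g x‖ ^ 2 = ‖g‖ ^ 2 := by
  have h := lp.norm_rpow_eq_tsum wpa_two g
  simpa using h.symm

private theorem wpa_norm_le (g : HZ) {c : ℝ} (hc : 0 ≤ c) (h : ∑' x, ‖g x‖ ^ 2 ≤ c ^ 2) :
    ‖g‖ ≤ c := by
  rw [wpa_norm] at h
  exact (abs_le_of_sq_le_sq' h hc).2

private theorem wpa_star (f g : HZ) (x : ℤ) :
    inner ℂ ((star f : HZ) x) (g x) = f x * g x := by
  rw [RCLike.inner_apply, lp.star_apply]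
  change g x * conj (conj (f x)) = f x * g x
  rw [Complex.conj_conj, mul_comm]

private theorem wpa_summable (f g : HZ) : Summable fun x => f x * g x := by
  have := lp.summable_inner (𝕜 := ℂ) (star f) g
  simp only [wpa_star] at this
  exact this

/-- The bilinear pairing. -/
private noncomputable def wpaB (f g : HZ) : ℂ := ∑' x, f x * g x

private theorem wpa_le (f g : HZ) : ‖wpaB f g‖ ≤ ‖f‖ * ‖g‖ := by
  have h : inner ℂ (star f) g = wpaB f g := by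
    rw [lp.inner_eq_tsum]
    exact tsum_congr fun x => wpa_star f g x
  rw [← h]
  refine (norm_inner_le_norm _ _).trans ?_
  rw [norm_star]

private theorem wpa_sub (f f' g g' : HZ) :
    wpaB f g - wpaB f' g' = wpaB f (g - g') + wpaB (f - f') g' := by
  have h1 : wpaB f (g - g') = wpaB f g - wpaB f g' := by
    unfold wpaB
    rw [← (wpa_summable f g).tsum_sub (wpa_summable f g')]
    refine tsum_congr fun x => ?_
    rw [lp.coeFn_sub, Pi.sub_apply, mul_sub]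
  have h2 : wpaB (f - f') g' = wpaB f g' - wpaB f' g' := by
    unfold wpaB
    rw [← (wpa_summable f g').tsum_sub (wpa_summable f' g')]
    refine tsum_congr fun x => ?_
    rw [lp.coeFn_sub, Pi.sub_apply, sub_mul]
  rw [h1, h2]
  ring

private theorem wpa_shift {s : ℤ → HZ} {D : ℝ} (h : ∀ t, ‖s (t + 1) - s t‖ ≤ D) (t : ℤ) :
    ‖s t - s 0‖ ≤ t.natAbs * D := by
  induction t using Int.induction_on with
  | zero => simp
  | succ n ih =>
    have h1 : s ((n : ℤ) + 1) - s 0 = (s ((n : ℤ) + 1) - s n) + (s n - s 0) := by abel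
    rw [h1]
    refine (norm_add_le _ _).trans ?_
    have h2 := h n
    have h3 : ((n : ℤ) + 1).natAbs = n + 1 := by omega
    have h4 : (n : ℤ).natAbs = n := by omega
    rw [h3]
    rw [h4] at ih
    push_cast
    linarith
  | pred n ih =>
    have h1 : s (-(n : ℤ) - 1) - s 0 =
        -(s (-(n : ℤ) - 1 + 1) - s (-(n : ℤ) - 1)) + (s (-(n : ℤ)) - s 0) := by
      rw [sub_add_cancel]
      abel
    rw [h1]
    refine (norm_add_le _ _).trans ?_
    rw [norm_neg]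
    have h2 := h (-(n : ℤ) - 1)
    have h3 : (-(n : ℤ) - 1).natAbs = n + 1 := by omega
    have h4 : (-(n : ℤ)).natAbs = n := by omega
    rw [h3]
    rw [h4] at ih
    push_cast
    linarith

/-! ### Slices -/

variable {I : Type}

private theorem wpa_sq (g : EE I) : Summable fun x => ‖g x‖ ^ 2 := by
  have h := (lp.memℓp g).summable (by norm_num : 0 < (2 : ℝ≥0∞).toReal)
  simpa using h

private theorem wpa_sq_tsum (g : EE I) : ∑' x, ‖g x‖ ^ 2 = ‖g‖ ^ 2 := by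
  have h := lp.norm_rpow_eq_tsum (by norm_num : 0 < (2 : ℝ≥0∞).toReal) g
  simp only [ENNReal.toReal_ofNat, Real.rpow_ofNat] at h
  exact h.symm

private theorem wpa_inj (i : I) (t : ℤ) : Function.Injective fun u : ℤ => ((u + t, i) : XX I) :=
  fun a b h => by simpa using (Prod.mk.inj h).1

private theorem wpa_slm (c : ℝ) (g : EE I) (i : I) (t : ℤ) :
    Summable fun u : ℤ => ‖g (u + t, i) / (c : ℂ)‖ ^ 2 := by
  have h1 := ((wpa_sq g).comp_injective (wpa_inj i t)).mul_left ((‖(c : ℂ)‖ ^ 2)⁻¹)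
  refine h1.congr fun u => ?_
  simp only [Function.comp_apply, norm_div, div_pow]
  ring

/-- The slice divided by a number. -/
private noncomputable def wpaS (c : ℝ) (g : EE I) (i : I) (t : ℤ) : HZ :=
  ⟨fun u => g (u + t, i) / (c : ℂ), wpa_mem (wpa_slm c g i t)⟩

private theorem wpaS_apply (c : ℝ) (g : EE I) (i : I) (t u : ℤ) :
    wpaS c g i t u = g (u + t, i) / (c : ℂ) := rfl

private theorem wpaS_norm {c m : ℝ} (hm : 0 < m) (hc : m ≤ c) (g : EE I) (i : I) (t : ℤ) :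
    ‖wpaS c g i t‖ ≤ m⁻¹ * ‖g‖ := by
  have hc0 : 0 < c := hm.trans_le hc
  refine wpa_norm_le _ (by positivity) ?_
  have h1 : ∀ u : ℤ, ‖wpaS c g i t u‖ ^ 2 = (c ^ 2)⁻¹ * ‖g (u + t, i)‖ ^ 2 := by
    intro u
    rw [wpaS_apply, norm_div, Complex.norm_real, Real.norm_of_nonneg hc0.le, div_pow]
    ring
  simp only [h1]
  rw [tsum_mul_left, mul_pow, inv_pow]
  have h2 : ∑' u : ℤ, ‖g (u + t, i)‖ ^ 2 ≤ ‖g‖ ^ 2 := by
    rw [← wpa_sq_tsum g]
    exact Summable.tsum_le_tsum_of_inj (fun u : ℤ => ((u + t, i) : XX I)) (wpa_inj i t)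
      (fun x _ => by positivity) (fun u => le_rfl) ((wpa_sq g).comp_injective (wpa_inj i t))
      (wpa_sq g)
  refine mul_le_mul ?_ h2 (tsum_nonneg fun u => by positivity) (by positivity)
  rw [inv_le_inv₀ (by positivity) (by positivity)]
  exact pow_le_pow_left₀ hm.le hc 2

namespace Slb

variable [Fintype I] {κ : Slb I}

private theorem wpa_low (hκ : κ.Ok) : ∃ m : ℝ, 0 < m ∧ ∀ i, m ≤ κ.h i := by
  obtain ⟨i₀, -⟩ := hκ.dead_ne
  have : Nonempty I := ⟨i₀⟩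
  obtain ⟨i, hi⟩ := Finite.exists_min κ.h
  exact ⟨κ.h i, hκ.h_pos i, hi⟩

private theorem wpa_up (hκ : κ.Ok) : ∃ M : ℝ, 0 < M ∧ ∀ i, κ.h i ≤ M := by
  obtain ⟨i₀, -⟩ := hκ.dead_ne
  have : Nonempty I := ⟨i₀⟩
  obtain ⟨i, hi⟩ := Finite.exists_max κ.h
  exact ⟨κ.h i, hκ.h_pos i, hi⟩

/-- With `φ x = f x / h x`, `α x = A x / h x` and square sums over `u ∈ ℤ`: by `low_x` (`|t|` steps of length one,
triangle inequality in `ℓ²`; `Low.lean`) and `low_i`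
`‖α (· + t, j) - α (·, i₀)‖ ≤ C (1 + |t|) √(EF A)` and `‖φ (·, i) - φ (·, i₀)‖ ≤ C √(EF f)`; Cauchy-Schwarz;
`‖φ (·, i)‖ ≤ C ‖f‖`. -/
theorem Ok.corr (hκ : κ.Ok) : ∃ C : ℝ, 0 ≤ C ∧ ∀ (f A : EE I) (t : ℤ) (i j i₀ : I),
    (Summable fun u : ℤ => f (u, i) * A (u + t, j)) ∧
    ‖∑' u : ℤ, f (u, i) * A (u + t, j) - ((κ.h i * κ.h j : ℝ) : ℂ) *
      (((κ.h i₀ * κ.h i₀)⁻¹ : ℝ) * ∑' u : ℤ, f (u, i₀) * A (u, i₀))‖ ≤
      C * (1 + t.natAbs) * (‖f‖ * Real.sqrt (κ.EF A) + Real.sqrt (κ.EF f) * ‖A‖) := by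
  obtain ⟨C₁, hC₁, h₁⟩ := hκ.low_x
  obtain ⟨C₂, hC₂, h₂⟩ := hκ.low_i
  obtain ⟨m, hm, hmh⟩ := wpa_low hκ
  obtain ⟨M, hM, hMh⟩ := wpa_up hκ
  refine ⟨M ^ 2 * (m⁻¹ * (Real.sqrt C₁ + Real.sqrt C₂)), by positivity,
    fun f A t i j i₀ => ?_⟩
  -- the slices of a function
  have hstep : ∀ (g : EE I) (a : I) (s : ℤ),
      ‖wpaS (κ.h a) g a (s + 1) - wpaS (κ.h a) g a s‖ ≤
        Real.sqrt C₁ * Real.sqrt (κ.EF g) := by
    intro g a s
    obtain ⟨k1, k2⟩ := h₁ g (hκ.fin_E g) a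
    refine wpa_norm_le _ (by positivity) ?_
    rw [mul_pow, Real.sq_sqrt hC₁.le, Real.sq_sqrt (hκ.EF_nn g)]
    refine le_trans (le_of_eq ?_) k2
    rw [← (Equiv.addRight s).tsum_eq
      (fun u : ℤ => ‖g (u + 1, a) / κ.h a - g (u, a) / κ.h a‖ ^ 2)]
    refine tsum_congr fun u => ?_
    rw [lp.coeFn_sub, Pi.sub_apply, wpaS_apply, wpaS_apply, Equiv.coe_addRight, add_assoc u s 1]
  have hind : ∀ (g : EE I) (a b : I),
      ‖wpaS (κ.h a) g a 0 - wpaS (κ.h b) g b 0‖ ≤ Real.sqrt C₂ * Real.sqrt (κ.EF g) := by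
    intro g a b
    obtain ⟨k1, k2⟩ := h₂ g (hκ.fin_E g) a b
    refine wpa_norm_le _ (by positivity) ?_
    rw [mul_pow, Real.sq_sqrt hC₂.le, Real.sq_sqrt (hκ.EF_nn g)]
    refine le_trans (le_of_eq ?_) k2
    refine tsum_congr fun u => ?_
    rw [lp.coeFn_sub, Pi.sub_apply, wpaS_apply, wpaS_apply, add_zero]
  -- products of functions and products of slices
  have hpr : ∀ (a b : I) (s u : ℤ), f (u, a) * A (u + s, b) =
      ((κ.h a * κ.h b : ℝ) : ℂ) * (wpaS (κ.h a) f a 0 u * wpaS (κ.h b) A b s u) := by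
    intro a b s u
    have e1 : (κ.h a : ℂ) ≠ 0 := by exact_mod_cast (hκ.h_pos a).ne'
    have e2 : (κ.h b : ℂ) ≠ 0 := by exact_mod_cast (hκ.h_pos b).ne'
    rw [wpaS_apply, wpaS_apply, add_zero]
    push_cast
    field_simp
  have hts : ∀ (a b : I) (s : ℤ), ∑' u : ℤ, f (u, a) * A (u + s, b) =
      ((κ.h a * κ.h b : ℝ) : ℂ) * wpaB (wpaS (κ.h a) f a 0) (wpaS (κ.h b) A b s) := by
    intro a b s
    simp only [hpr]
    rw [tsum_mul_left]
    rfl
  constructor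
  · simp only [hpr]
    exact (wpa_summable _ _).mul_left _
  have h0 : ∑' u : ℤ, f (u, i₀) * A (u, i₀) =
      ((κ.h i₀ * κ.h i₀ : ℝ) : ℂ) *
        wpaB (wpaS (κ.h i₀) f i₀ 0) (wpaS (κ.h i₀) A i₀ 0) := by
    rw [← hts i₀ i₀ 0]
    simp only [add_zero]
  have hi0 : ((κ.h i₀ * κ.h i₀ : ℝ) : ℂ) ≠ 0 := by
    exact_mod_cast (mul_pos (hκ.h_pos i₀) (hκ.h_pos i₀)).ne'
  rw [hts, h0, Complex.ofReal_inv, inv_mul_cancel_left₀ hi0, ← mul_sub, wpa_sub, norm_mul,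
    Complex.norm_real, Real.norm_of_nonneg (mul_pos (hκ.h_pos i) (hκ.h_pos j)).le]
  have hEf : 0 ≤ Real.sqrt (κ.EF f) := Real.sqrt_nonneg _
  have hEA : 0 ≤ Real.sqrt (κ.EF A) := Real.sqrt_nonneg _
  have hc1 : 0 ≤ Real.sqrt C₁ := Real.sqrt_nonneg _
  have hc2 : 0 ≤ Real.sqrt C₂ := Real.sqrt_nonneg _
  have ht : (0 : ℝ) ≤ t.natAbs := by positivity
  have n1 : ‖wpaS (κ.h j) A j t - wpaS (κ.h i₀) A i₀ 0‖ ≤
      (Real.sqrt C₁ + Real.sqrt C₂) * (1 + t.natAbs) * Real.sqrt (κ.EF A) := by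
    have e1 := wpa_shift (s := fun s => wpaS (κ.h j) A j s) (hstep A j) t
    have e2 := hind A j i₀
    have e3 : wpaS (κ.h j) A j t - wpaS (κ.h i₀) A i₀ 0 =
        (wpaS (κ.h j) A j t - wpaS (κ.h j) A j 0) +
          (wpaS (κ.h j) A j 0 - wpaS (κ.h i₀) A i₀ 0) := by abel
    rw [e3]
    refine (norm_add_le _ _).trans ((add_le_add e1 e2).trans ?_)
    have e4 : 0 ≤ Real.sqrt C₁ * Real.sqrt (κ.EF A) := by positivity
    have e5 : 0 ≤ t.natAbs * (Real.sqrt C₂ * Real.sqrt (κ.EF A)) := by positivity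
    nlinarith
  have n2 : ‖wpaS (κ.h i) f i 0 - wpaS (κ.h i₀) f i₀ 0‖ ≤
      (Real.sqrt C₁ + Real.sqrt C₂) * (1 + t.natAbs) * Real.sqrt (κ.EF f) := by
    refine (hind f i i₀).trans ?_
    have e4 : 0 ≤ Real.sqrt C₁ * Real.sqrt (κ.EF f) := by positivity
    have e5 : 0 ≤ t.natAbs * (Real.sqrt C₂ * Real.sqrt (κ.EF f)) := by positivity
    have e6 : 0 ≤ t.natAbs * (Real.sqrt C₁ * Real.sqrt (κ.EF f)) := by positivity
    nlinarith
  have n3 := wpaS_norm hm (hmh i) f i 0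
  have n4 := wpaS_norm hm (hmh i₀) A i₀ 0
  have b1 : ‖wpaB (wpaS (κ.h i) f i 0) (wpaS (κ.h j) A j t - wpaS (κ.h i₀) A i₀ 0)‖ ≤
      (m⁻¹ * ‖f‖) * ((Real.sqrt C₁ + Real.sqrt C₂) * (1 + t.natAbs) * Real.sqrt (κ.EF A)) :=
    (wpa_le _ _).trans (mul_le_mul n3 n1 (norm_nonneg _) (by positivity))
  have b2 : ‖wpaB (wpaS (κ.h i) f i 0 - wpaS (κ.h i₀) f i₀ 0) (wpaS (κ.h i₀) A i₀ 0)‖ ≤
      ((Real.sqrt C₁ + Real.sqrt C₂) * (1 + t.natAbs) * Real.sqrt (κ.EF f)) * (m⁻¹ * ‖A‖) :=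
    (wpa_le _ _).trans (mul_le_mul n2 n4 (norm_nonneg _) (by positivity))
  have b3 : κ.h i * κ.h j ≤ M ^ 2 := by
    rw [sq]
    exact mul_le_mul (hMh i) (hMh j) (hκ.h_pos j).le hM.le
  refine (mul_le_mul b3 ((norm_add_le _ _).trans (add_le_add b1 b2)) (norm_nonneg _)
    (by positivity)).trans (le_of_eq ?_)
  ring

end Slb

end Pool.Agent.KSlab
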