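import Pool.Agent.KSlab.WGen
import Pool.Agent.KSlab.WAn
import Pool.Agent.KSlab.WD

/-! SW12: the words at real points. -/

set_option autoImplicit false

open Complex Set Filter Topology
open scoped ENNReal

namespace Pool.Agent.KSlab

variable {I : Type}

/-- The function `f` is real and nonnegative, with the values `V`. -/
def NE (f : EE I) (V : XX I → ℝ≥0∞) : Prop :=
  ∀ x, 0 ≤ (f x).re ∧ (f x).im = 0 ∧ V x = ENNReal.ofReal (f x).re

/-! ### Laplace transforms at real points -/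

private theorem wr_term (c : ℝ) (n : ℕ) (σ : ℝ) :
    (c : ℂ) * exp (-n * (σ : ℂ)) = ((c * Real.exp (-n * σ) : ℝ) : ℂ) := by
  push_cast
  rfl

private theorem wr_summable {c : ℕ → ℝ} {σ : ℝ}
    (hs : Summable fun n : ℕ => ((c n : ℝ) : ℂ) * exp (-n * (σ : ℂ))) :
    Summable fun n : ℕ => c n * Real.exp (-n * σ) := by
  simp only [wr_term] at hs
  exact Complex.summable_ofReal.1 hs

private theorem wr_eq (c : ℕ → ℝ) (σ : ℝ) :
    ∑' n : ℕ, ((c n : ℝ) : ℂ) * exp (-n * (σ : ℂ)) =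
      ((∑' n : ℕ, c n * Real.exp (-n * σ) : ℝ) : ℂ) := by
  rw [Complex.ofReal_tsum]
  exact tsum_congr fun n => wr_term _ _ _

private theorem wr_enn {c : ℕ → ℝ} (hc : ∀ n, 0 ≤ c n) {σ : ℝ}
    (hs : Summable fun n : ℕ => ((c n : ℝ) : ℂ) * exp (-n * (σ : ℂ))) :
    ∑' n : ℕ, ENNReal.ofReal (c n) * ENNReal.ofReal (Real.exp (-n * σ)) =
      ENNReal.ofReal (∑' n : ℕ, c n * Real.exp (-n * σ)) := by
  rw [ENNReal.ofReal_tsum_of_nonneg (fun n => mul_nonneg (hc n) (Real.exp_pos _).le)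
    (wr_summable hs)]
  exact tsum_congr fun n => (ENNReal.ofReal_mul (hc n)).symm

/-! ### Nonnegative functions -/

private theorem ne_toReal {f : EE I} {V : XX I → ℝ≥0∞} (h : NE f V) (x : XX I) :
    (V x).toReal = (f x).re := by
  rw [(h x).2.2, ENNReal.toReal_ofReal (h x).1]

private theorem ne_coe {f : EE I} {V : XX I → ℝ≥0∞} (h : NE f V) (x : XX I) :
    f x = ((f x).re : ℂ) := by
  refine Complex.ext ?_ ?_
  · rw [Complex.ofReal_re]
  · rw [Complex.ofReal_im, (h x).2.1]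

/-- nonnegative functions -/
private def wNN (f : EE I) : Prop := ∀ x, 0 ≤ (f x).re ∧ (f x).im = 0

private theorem NE.nn {f : EE I} {V : XX I → ℝ≥0∞} (h : NE f V) : wNN f := fun x =>
  ⟨(h x).1, (h x).2.1⟩

private theorem wr_inner_nonneg {f g : EE I} (hf : wNN f) (hg : wNN g) :
    0 ≤ (inner ℂ f g).re := by
  rw [lp.inner_eq_tsum, Complex.re_tsum (lp.summable_inner f g)]
  refine tsum_nonneg fun x => ?_
  have h1 : inner ℂ (f x) (g x) = g x * (starRingEnd ℂ) (f x) := RCLike.inner_apply _ _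
  rw [h1, Complex.mul_re, Complex.conj_re, Complex.conj_im, (hf x).2, (hg x).2]
  have := mul_nonneg (hg x).1 (hf x).1
  linarith

private theorem wr_sq_add {f g : EE I} (hf : wNN f) (hg : wNN g) :
    ‖f‖ ^ 2 + ‖g‖ ^ 2 ≤ ‖f + g‖ ^ 2 := by
  rw [@norm_add_sq ℂ]
  have h1 : 0 ≤ RCLike.re (inner ℂ f g) := wr_inner_nonneg hf hg
  linarith

private theorem wr_sum_apply (μ : ℕ → EE I) (s : Finset ℕ) (x : XX I) :
    (∑ N ∈ s, μ N) x = ∑ N ∈ s, μ N x := by
  classical
  induction s using Finset.induction_on with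
  | empty => rfl
  | insert a s ha ih =>
    rw [Finset.sum_insert ha, Finset.sum_insert ha, ← ih]
    rfl

private theorem wr_nn_sum {μ : ℕ → EE I} (h : ∀ N, wNN (μ N)) (s : Finset ℕ) :
    wNN (∑ N ∈ s, μ N) := by
  intro x
  rw [wr_sum_apply, Complex.re_sum, Complex.im_sum]
  exact ⟨Finset.sum_nonneg fun N _ => (h N x).1, Finset.sum_eq_zero fun N _ => (h N x).2⟩

/-- The pairing of two nonnegative functions. -/
private theorem ne_pair {f g : EE I} {V W : XX I → ℝ≥0∞} (hf : NE f V) (hg : NE g W) :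
    0 ≤ (∑' x, f x * g x).re ∧ (∑' x, f x * g x).im = 0 ∧
      ∑' x, V x * W x = ENNReal.ofReal (∑' x, f x * g x).re := by
  have h1 : ∀ x, f x * g x = (((f x).re * (g x).re : ℝ) : ℂ) := by
    intro x
    rw [Complex.ofReal_mul, ← ne_coe hf, ← ne_coe hg]
  have h2 : Summable fun x => (f x).re * (g x).re := by
    rw [← Complex.summable_ofReal]
    exact (bl_summable f g).congr fun x => h1 x
  have h0 : ∀ x, 0 ≤ (f x).re * (g x).re := fun x => mul_nonneg (hf x).1 (hg x).1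
  have h3 : ∑' x, f x * g x = ((∑' x, (f x).re * (g x).re : ℝ) : ℂ) := by
    rw [Complex.ofReal_tsum]
    exact tsum_congr h1
  rw [h3, Complex.ofReal_re, Complex.ofReal_im]
  refine ⟨tsum_nonneg h0, rfl, ?_⟩
  rw [ENNReal.ofReal_tsum_of_nonneg h0 h2]
  refine tsum_congr fun x => ?_
  rw [(hf x).2.2, (hg x).2.2, ENNReal.ofReal_mul (hf x).1]

private theorem stE_mono {k : KF I} {σ σ' : ℝ} (h : σ' ≤ σ) {V V' : XX I → ℝ≥0∞}
    (hV : ∀ x, V x ≤ V' x) (x : XX I) : stE k σ V x ≤ stE k σ' V' x := by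
  unfold stE
  refine ENNReal.tsum_le_tsum fun y => mul_le_mul' (ENNReal.tsum_le_tsum fun n => ?_) (hV y)
  refine mul_le_mul' le_rfl (ENNReal.ofReal_le_ofReal (Real.exp_le_exp.2 ?_))
  have : (n : ℝ) * σ' ≤ n * σ := mul_le_mul_of_nonneg_left h (Nat.cast_nonneg n)
  linarith

private theorem iter_mono {k : KF I} {σ σ' : ℝ} (h : σ' ≤ σ) (V : XX I → ℝ≥0∞) (N : ℕ) :
    ∀ x, (stE k σ)^[N] V x ≤ (stE k σ')^[N] V x := by
  induction N with
  | zero => exact fun x => le_rfl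
  | succ N ih =>
    intro x
    rw [Function.iterate_succ_apply', Function.iterate_succ_apply']
    exact stE_mono h ih x

namespace Slb

variable [Fintype I] {κ : Slb I} {k : KF I} {a b : VF I} {w : List (KF I)} {f : EE I}
  {V : XX I → ℝ≥0∞} {σ : ℝ}

private theorem wr_re (hσ : 0 ≤ σ) : -(1 / 3) < ((σ : ℂ)).re := by
  rw [Complex.ofReal_re]
  linarith

omit [Fintype I] in
/-- `ks k σ x y` is the nonnegative real number `∑ k n x y exp (-n σ)` (finite: `Ad.sch`), see `exists_iter` in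
`Real.lean`. -/
theorem ne_st (hk : κ.Ad k) (hn : Nn k) (hσ : 0 ≤ σ) (h : NE f V) :
    NE (kop k σ f) (stE k σ V) := by
  obtain ⟨B, -, hB⟩ := hk.sch
  obtain ⟨hs1, hs2⟩ := hB σ (wr_re hσ)
  intro x
  have h1 : ∀ y, ks k σ x y * f y =
      (((∑' n : ℕ, k n x y * Real.exp (-n * σ)) * (f y).re : ℝ) : ℂ) := by
    intro y
    rw [Complex.ofReal_mul, ← ne_coe h, ← wr_eq]
    rfl
  have h2 : Summable fun y => (∑' n : ℕ, k n x y * Real.exp (-n * σ)) * (f y).re := by
    have h3 := sch_summable hs2 f x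
    simp only [h1] at h3
    exact Complex.summable_ofReal.1 h3
  have h0 : ∀ y, 0 ≤ (∑' n : ℕ, k n x y * Real.exp (-n * σ)) := fun y =>
    tsum_nonneg fun n => mul_nonneg (hn n x y) (Real.exp_pos _).le
  have h4 : ∀ y, 0 ≤ (∑' n : ℕ, k n x y * Real.exp (-n * σ)) * (f y).re := fun y =>
    mul_nonneg (h0 y) (h y).1
  have h5 : kop k σ f x =
      ((∑' y, (∑' n : ℕ, k n x y * Real.exp (-n * σ)) * (f y).re : ℝ) : ℂ) := by
    rw [hk.apply (wr_re hσ), Complex.ofReal_tsum]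
    exact tsum_congr h1
  rw [h5, Complex.ofReal_re, Complex.ofReal_im]
  refine ⟨tsum_nonneg h4, rfl, ?_⟩
  rw [ENNReal.ofReal_tsum_of_nonneg h4 h2]
  unfold stE
  refine tsum_congr fun y => ?_
  rw [wr_enn (fun n => hn n x y) (hs1 x y), (h y).2.2, ENNReal.ofReal_mul (h0 y)]

theorem ne_cap (ha : κ.Cp a) (hσ : 0 ≤ σ) : NE (toE (vs a σ)) (vE (toN a) σ) := by
  obtain ⟨C, -, hC⟩ := ha.bound
  intro x
  have hs := (hC σ (wr_re hσ) x).1
  have h1 : toE (vs a σ) x = ((∑' n : ℕ, a n x * Real.exp (-n * σ) : ℝ) : ℂ) := by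
    rw [toE_apply (ha.mem (wr_re hσ)), ← wr_eq]
    rfl
  rw [h1, Complex.ofReal_re, Complex.ofReal_im]
  refine ⟨tsum_nonneg fun n => mul_nonneg (ha.nn n x) (Real.exp_pos _).le, rfl, ?_⟩
  rw [← wr_enn (fun n => ha.nn n x) hs]
  rfl

private theorem wr_EF_nonneg (hκ : κ.Ok) (g : XX I → ℂ) : 0 ≤ κ.EF g := by
  refine tsum_nonneg fun p => ?_
  have h1 := (hκ.Fx_prop p.1 p.2).1
  have h2 := (hκ.h_pos p.1.2).le
  have h3 := (hκ.h_pos p.2.2).le
  unfold ef
  positivity

/-- the iterates -/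
private theorem wr_iter (hκ : κ.Ok) (hσ : 0 ≤ σ) (hf : κ.Van f) (h : NE f V) (N : ℕ) :
    NE ((fun g => κ.KS σ g)^[N] f) ((stE κ.k σ)^[N] V) ∧
      κ.Van ((fun g => κ.KS σ g)^[N] f : EE I) := by
  induction N with
  | zero => exact ⟨h, hf⟩
  | succ N ih =>
    rw [Function.iterate_succ_apply', Function.iterate_succ_apply']
    exact ⟨ne_st hκ.ad_k hκ.nn_dk.1 hσ ih.1, hκ.ad_k.van (wr_re hσ) _⟩

/-- the finite sums are bounded for small parameters -/
private theorem wr_bound (hκ : κ.Ok) (hσ : 0 < σ) (hσ1 : σ < 40 * κ.z) (hf : κ.Van f)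
    (h : NE f V) (n : ℕ) :
    ‖∑ N ∈ Finset.range n, (fun g => κ.KS σ g)^[N] f‖ ≤ 4 * ‖f‖ / σ := by
  set μ : ℕ → EE I := fun N => (fun g => κ.KS σ g)^[N] f with hμ
  have hit := wr_iter hκ hσ.le hf h
  have hnn : ∀ N, wNN (μ N) := fun N => (hit N).1.nn
  set S : EE I := ∑ N ∈ Finset.range n, μ N with hSdef
  have hS : wNN S := wr_nn_sum hnn _
  have hv : κ.Van S := by
    intro x hx
    rw [hSdef, wr_sum_apply]
    exact Finset.sum_eq_zero fun N _ => (hit N).2 x hx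
  have hdiff : S - κ.KS σ S = f - μ n := by
    have h0 : f = μ 0 := rfl
    rw [hSdef, map_sum, ← Finset.sum_sub_distrib, h0, ← Finset.sum_range_sub' μ n]
    refine Finset.sum_congr rfl fun N _ => ?_
    congr 1
    exact (Function.iterate_succ_apply' (fun g => κ.KS σ g) N f).symm
  have h1 := hκ.coer_real hσ hσ1 S hv
  rw [hdiff, inner_sub_right, Complex.sub_re] at h1
  have h2 := wr_inner_nonneg hS (hnn n)
  have h3 : (inner ℂ S f).re ≤ ‖S‖ * ‖f‖ :=
    (Complex.re_le_norm _).trans (norm_inner_le_norm S f)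
  have h4 := wr_EF_nonneg hκ S
  have h5 : σ / 4 * ‖S‖ ^ 2 ≤ ‖S‖ * ‖f‖ := by linarith
  rcases (norm_nonneg S).eq_or_lt with h6 | h6
  · rw [← h6]
    positivity
  · rw [le_div_iff₀ hσ]
    have h7 : σ / 4 * ‖S‖ ≤ ‖f‖ := by
      by_contra hcon
      push Not at hcon
      have := mul_lt_mul_of_pos_left hcon h6
      nlinarith
    linarith

/-- The Neumann series: as `U1_real` in `RealB.lean`, with `f` in the place of `cs σ` (the iterates are
`(KS σ) ^ N f`, they vanish at the dead states; `coer_real` gives the bound `‖S n‖ ≤ 4 ‖f‖ / σ` for `σ < 40 z` as in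
`energy`; for larger `σ` the iterates are smaller than those for `39 z`). -/
theorem Ok.ne_re (hκ : κ.Ok) (hσ : 0 < σ) (hf : κ.Van f) (h : NE f V) :
    NE (κ.GS σ f) (κ.reE σ V) := by
  set μ : ℕ → EE I := fun N => (fun g => κ.KS σ g)^[N] f with hμ
  have hit := wr_iter hκ hσ.le hf h
  have hμNN : ∀ N, wNN (μ N) := fun N => (hit N).1.nn
  set S : ℕ → EE I := fun n => ∑ N ∈ Finset.range n, μ N with hSdef
  -- the finite sums are bounded
  have hbound : ∃ B : ℝ, ∀ n, ‖S n‖ ≤ B := by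
    by_cases hσ1 : σ < 40 * κ.z
    · exact ⟨_, wr_bound hκ hσ hσ1 hf h⟩
    · have hz := hκ.z_pos
      have hit' := wr_iter hκ (σ := 39 * κ.z) (by linarith) hf h
      set μ' : ℕ → EE I := fun N => (fun g => κ.KS ((39 * κ.z : ℝ) : ℂ) g)^[N] f with hμ'
      refine ⟨_, fun n => le_trans ?_
        (wr_bound hκ (σ := 39 * κ.z) (by linarith) (by linarith) hf h n)⟩
      have h1 : wNN (∑ N ∈ Finset.range n, μ' N - S n) := by
        intro x
        have h2 : (∑ N ∈ Finset.range n, μ' N - S n) x =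
            ((∑ N ∈ Finset.range n, ((μ' N x).re - (μ N x).re) : ℝ) : ℂ) := by
          change (∑ N ∈ Finset.range n, μ' N) x - (∑ N ∈ Finset.range n, μ N) x = _
          rw [wr_sum_apply, wr_sum_apply, Complex.ofReal_sum, ← Finset.sum_sub_distrib]
          refine Finset.sum_congr rfl fun N _ => ?_
          rw [Complex.ofReal_sub, ← ne_coe (hit' N).1, ← ne_coe (hit N).1]
        rw [h2, Complex.ofReal_re, Complex.ofReal_im]
        refine ⟨Finset.sum_nonneg fun N _ => sub_nonneg.2 ?_, rfl⟩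
        have h3 := iter_mono (k := κ.k) (show 39 * κ.z ≤ σ by linarith) V N x
        rw [((hit N).1 x).2.2, ((hit' N).1 x).2.2] at h3
        exact (ENNReal.ofReal_le_ofReal_iff ((hit' N).1 x).1).1 h3
      have h2 := wr_sq_add (wr_nn_sum hμNN (Finset.range n)) h1
      change ‖S n‖ ^ 2 + _ ≤ ‖S n + _‖ ^ 2 at h2
      rw [add_sub_cancel] at h2
      exact le_of_sq_le_sq (by linarith [sq_nonneg ‖∑ N ∈ Finset.range n, μ' N - S n‖])
        (norm_nonneg _)
  obtain ⟨B, hB⟩ := hbound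
  -- they form a Cauchy sequence
  have hstep : ∀ n m, n ≤ m → ‖S n‖ ^ 2 + ‖S m - S n‖ ^ 2 ≤ ‖S m‖ ^ 2 := by
    intro n m hnm
    have h1 : S m - S n = ∑ N ∈ Finset.Ico n m, μ N := by
      rw [Finset.sum_Ico_eq_sub _ hnm]
    have h2 := wr_sq_add (wr_nn_sum hμNN (Finset.range n)) (wr_nn_sum hμNN (Finset.Ico n m))
    rw [← h1] at h2
    have h3 : ∑ N ∈ Finset.range n, μ N + (S m - S n) = S m := add_sub_cancel _ _
    rw [h3] at h2
    exact h2
  have hmono : Monotone fun n => ‖S n‖ ^ 2 := by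
    intro n m hnm
    have h1 := hstep n m hnm
    have h2 := sq_nonneg ‖S m - S n‖
    change ‖S n‖ ^ 2 ≤ ‖S m‖ ^ 2
    linarith
  have hbdd : BddAbove (range fun n => ‖S n‖ ^ 2) := by
    refine ⟨B ^ 2, ?_⟩
    rintro _ ⟨n, rfl⟩
    exact pow_le_pow_left₀ (norm_nonneg _) (hB n) 2
  have hlim := tendsto_atTop_ciSup hmono hbdd
  have hcauchy : CauchySeq S := by
    refine cauchySeq_of_le_tendsto_0' (fun n => Real.sqrt ((⨆ i, ‖S i‖ ^ 2) - ‖S n‖ ^ 2))
      (fun n m hnm => ?_) ?_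
    · rw [dist_comm, dist_eq_norm]
      refine Real.le_sqrt_of_sq_le ?_
      have h1 := hstep n m hnm
      have h2 := le_ciSup hbdd m
      linarith
    · have h1 : Tendsto (fun n => (⨆ i, ‖S i‖ ^ 2) - ‖S n‖ ^ 2) atTop (𝓝 0) := by
        have := hlim.const_sub (⨆ i, ‖S i‖ ^ 2)
        rwa [sub_self] at this
      have h2 := (Real.continuous_sqrt.tendsto 0).comp h1
      rwa [Real.sqrt_zero] at h2
  obtain ⟨T, hT⟩ := cauchySeq_tendsto_of_complete hcauchy
  -- the limit is the resolvent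
  have hrec : ∀ n, S (n + 1) = f + κ.KS σ (S n) := by
    intro n
    change ∑ N ∈ Finset.range (n + 1), μ N = f + κ.KS σ (∑ N ∈ Finset.range n, μ N)
    rw [Finset.sum_range_succ', map_sum, add_comm]
    congr 1
    refine Finset.sum_congr rfl fun N _ => ?_
    exact Function.iterate_succ_apply' (fun g => κ.KS σ g) N f
  have hTeq : T = f + κ.KS σ T := by
    have h1 : Tendsto (fun n => S (n + 1)) atTop (𝓝 T) := hT.comp (tendsto_add_atTop_nat 1)
    have h2 : Tendsto (fun n => f + κ.KS σ (S n)) atTop (𝓝 (f + κ.KS σ T)) :=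
      (((κ.KS σ).continuous.tendsto T).comp hT).const_add _
    refine tendsto_nhds_unique h1 (h2.congr fun n => (hrec n).symm)
  have hGS : κ.GS σ f = T := by
    have h1 : (1 - κ.KS σ) T = f := by
      change T - κ.KS σ T = f
      exact sub_eq_of_eq_add hTeq
    have h2 : κ.GS σ * (1 - κ.KS σ) = 1 :=
      Ring.inverse_mul_cancel _ (hκ.half_unit (by rwa [Complex.ofReal_re]))
    have h3 := congrArg (fun A : EE I →L[ℂ] EE I => A T) h2
    change κ.GS σ ((1 - κ.KS σ) T) = T at h3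
    rw [h1] at h3
    exact h3
  intro x
  rw [hGS]
  have hval : Tendsto (fun n => S n x) atTop (𝓝 (T x)) := by
    rw [tendsto_iff_norm_sub_tendsto_zero]
    have h1 : Tendsto (fun n => ‖S n - T‖) atTop (𝓝 0) :=
      tendsto_iff_norm_sub_tendsto_zero.1 hT
    refine squeeze_zero (fun n => norm_nonneg _) (fun n => ?_) h1
    exact lp.norm_apply_le_norm (by norm_num) (S n - T) x
  have hSx : ∀ n, S n x = ((∑ N ∈ Finset.range n, (μ N x).re : ℝ) : ℂ) := by
    intro n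
    change (∑ N ∈ Finset.range n, μ N) x = _
    rw [wr_sum_apply, Complex.ofReal_sum]
    exact Finset.sum_congr rfl fun N _ => ne_coe (hit N).1 x
  have hre : Tendsto (fun n => ∑ N ∈ Finset.range n, (μ N x).re) atTop (𝓝 (T x).re) := by
    refine ((Complex.continuous_re.tendsto _).comp hval).congr fun n => ?_
    rw [Function.comp, hSx, Complex.ofReal_re]
  have him : (T x).im = 0 := by
    refine tendsto_nhds_unique ((Complex.continuous_im.tendsto _).comp hval) ?_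
    refine tendsto_const_nhds.congr fun n => ?_
    rw [Function.comp, hSx, Complex.ofReal_im]
  refine ⟨ge_of_tendsto' hre fun n => Finset.sum_nonneg fun N _ => (hμNN N x).1, him, ?_⟩
  have h1 : Tendsto (fun n => ∑ N ∈ Finset.range n, (stE κ.k σ)^[N] V x) atTop
      (𝓝 (∑' N, (stE κ.k σ)^[N] V x)) := ENNReal.tendsto_nat_tsum _
  have h2 : Tendsto (fun n => ∑ N ∈ Finset.range n, (stE κ.k σ)^[N] V x) atTop
      (𝓝 (ENNReal.ofReal (T x).re)) := by
    refine ((ENNReal.continuous_ofReal.tendsto _).comp hre).congr fun n => ?_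
    rw [Function.comp, ENNReal.ofReal_sum_of_nonneg fun N _ => (hμNN N x).1]
    exact Finset.sum_congr rfl fun N _ => ((hit N).1 x).2.2.symm
  exact tendsto_nhds_unique h1 h2

theorem Ok.ne_AW (hκ : κ.Ok) (hw : ∀ k ∈ w, κ.Ad k ∧ Nn k) (ha : κ.Cp a) (hσ : 0 < σ) :
    NE (κ.AW σ w a) (κ.AE σ w a) := by
  induction w with
  | nil => exact hκ.ne_re hσ (ha.van (wr_re hσ.le)) (ne_cap ha hσ.le)
  | cons k w ih =>
    have h1 := hw k List.mem_cons_self
    have h2 := ih fun k' hk' => hw k' (List.mem_cons_of_mem _ hk')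
    exact hκ.ne_re hσ (h1.1.van (wr_re hσ.le) _) (ne_st h1.1 h1.2 hσ.le h2)

theorem Ok.fc_real (hκ : κ.Ok) (hw : ∀ k ∈ w, κ.Ad k ∧ Nn k) (ha : κ.Cp a) (hb : κ.Cp b)
    (hσ : 0 < σ) : 0 ≤ (κ.FW σ b w a).re ∧ (κ.FW σ b w a).im = 0 ∧
      ∑' n : ℕ, κ.FC b w a n * ENNReal.ofReal (Real.exp (-n * σ)) =
        ENNReal.ofReal (κ.FW σ b w a).re := by
  have h1 := ne_pair (ne_cap hb hσ.le) (hκ.ne_AW hw ha hσ)
  have h2 : ∑' x, toE (vs b (σ : ℂ)) x * κ.AW σ w a x = κ.FW σ b w a := by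
    unfold FW
    refine tsum_congr fun x => ?_
    rw [toE_apply (hb.mem (wr_re hσ.le))]
  rw [h2] at h1
  rw [tsum_FC]
  exact h1

end Slb

end Pool.Agent.KSlab
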