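import Pool.Agent.KSlab.WOrd
import Pool.Agent.KSlab.WD

/-! SW9: the orders of the words. -/

set_option autoImplicit false

open Complex Set Filter Topology
open scoped ENNReal

namespace Pool.Agent.KSlab

namespace Slb

variable {I : Type} [Fintype I] {κ : Slb I}

private theorem ww_od_congr {m g : ℝ} {A B : ℂ → EE I} (h : κ.Od m g A)
    (hAB : ∀ s ∈ κ.Sec, B s = A s) : κ.Od m g B := by
  obtain ⟨C, r, hC, hr, hh⟩ := h
  refine ⟨C, r, hC, hr, fun s hs hsr => ?_⟩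
  rw [hAB s hs]
  exact hh s hs hsr

private theorem ww_of_congr {p : ℝ} {f f' : ℂ → ℂ} (h : κ.Of p f)
    (hff : ∀ s ∈ κ.Sec, f' s = f s) : κ.Of p f' := by
  obtain ⟨C, r, hC, hr, hh⟩ := h
  refine ⟨C, r, hC, hr, fun s hs hsr => ?_⟩
  rw [hff s hs]
  exact hh s hs hsr

private theorem ww_bl_add (f g g' : EE I) (c : ℂ) :
    ∑' x, f x * (g + c • g' : EE I) x = ∑' x, f x * g x + c * ∑' x, f x * g' x := by
  rw [← tsum_mul_left, ← (bl_summable f g).tsum_add ((bl_summable f g').mul_left c)]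
  refine tsum_congr fun x => ?_
  rw [lp.coeFn_add, Pi.add_apply, lp.coeFn_smul, Pi.smul_apply, smul_eq_mul]
  ring

private theorem ww_od_zero (m g : ℝ) : κ.Od m g (fun _ => (0 : EE I)) := by
  refine ⟨0, 1, le_rfl, one_pos, fun s _ _ => ⟨fun x _ => rfl, ?_, ?_⟩⟩
  · have h1 : κ.EF ((0 : EE I) : XX I → ℂ) = 0 := by
      unfold EF
      have h2 : ∀ p, κ.ef ((0 : EE I) : XX I → ℂ) p = 0 := by
        intro p
        unfold ef
        have h3 : ∀ x, ((0 : EE I) : XX I → ℂ) x = 0 := fun x => rfl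
        rw [h3, h3, zero_div, zero_div, sub_zero, norm_zero]
        ring
      rw [tsum_congr h2, tsum_zero]
    show Real.sqrt (κ.EF ((0 : EE I) : XX I → ℂ)) ≤ _
    rw [h1, Real.sqrt_zero, zero_mul]
  · show ‖(0 : EE I)‖ ≤ _
    rw [norm_zero, zero_mul]

private theorem ww_sec_re (hκ : κ.Ok) {s : ℂ} (hs : s ∈ κ.Sec) : -(1 / 3) < s.re :=
  (hκ.sec_regW hs).2

/-- The factor. -/
private noncomputable def ww_l (κ : Slb I) (p : KF I × GF I) : ℝ := κ.la p.2 / κ.NN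

/-- The difference kernel. -/
private theorem ww_sub (hκ : κ.Ok) {p : KF I × GF I} (hp : κ.Ad p.1 ∧ κ.Tr p.1 p.2) :
    κ.Ad (fun n x y => p.1 n x y - ww_l κ p * dk κ.k n x y) ∧
    κ.Tr (fun n x y => p.1 n x y - ww_l κ p * dk κ.k n x y)
      (fun n t i j => p.2 n t i j - ww_l κ p * dg κ.f n t i j) ∧
    κ.la (fun n t i j => p.2 n t i j - ww_l κ p * dg κ.f n t i j) = 0 ∧
    ∀ s ∈ κ.Sec, kop (fun n x y => p.1 n x y - ww_l κ p * dk κ.k n x y) s =
      kop p.1 s - (ww_l κ p : ℂ) • kop (dk κ.k) s := by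
  obtain ⟨h1, h2⟩ := hp.1.sub hκ.ad_dk (ww_l κ p)
  obtain ⟨h3, h4⟩ := hκ.tr_sub hp.2 hκ.tr_dk (ww_l κ p)
  refine ⟨h1, h3, ?_, fun s hs => h2 s (ww_sec_re hκ hs)⟩
  rw [h4, hκ.la_dg]
  have hN : κ.NN ≠ 0 := hκ.V_pos.2.1.ne'
  unfold ww_l
  field_simp
  ring

/-- Induction: `od_zero`, `od_k`. -/
theorem Ok.od_word (hκ : κ.Ok) {w : List (KF I)} (hw : ∀ k ∈ w, κ.Ad k) :
    κ.Od w.length 0 (fun s => κ.AW s w κ.c) := by
  induction w with
  | nil =>
    have h := hκ.od_zero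
    simpa using h
  | cons k w ih =>
    have h1 := ih (fun k' hk' => hw k' (List.mem_cons_of_mem _ hk'))
    have h2 := hκ.od_k (hw k List.mem_cons_self) h1
    have h3 : (((k :: w).length : ℕ) : ℝ) = w.length + 1 := by
      rw [List.length_cons]
      push_cast
      ring
    rw [h3]
    exact h2

/-- `FW_cons`, `of_k`, `od_word`, `od_zero`; `RegW` contains the sector. -/
theorem Ok.of_word (hκ : κ.Ok) {w : List (KF I)} (hw : ∀ k ∈ w, κ.Ad k) (h0 : w ≠ []) :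
    κ.Of (1 / 2 - w.length) (fun s => κ.FW s κ.c w κ.c) := by
  obtain ⟨k, w', rfl⟩ : ∃ k w', w = k :: w' := by
    cases w with
    | nil => exact absurd rfl h0
    | cons k w' => exact ⟨k, w', rfl⟩
  have hk := hw k List.mem_cons_self
  have hw' : ∀ k' ∈ w', κ.Ad k' := fun k' hk' => hw k' (List.mem_cons_of_mem _ hk')
  have h1 := hκ.of_k hk (hκ.od_word hw') hκ.od_zero
  have h2 : (1 / 2 - (((k :: w').length : ℕ) : ℝ)) = -(w'.length : ℝ) - 1 / 2 + 0 := by
    rw [List.length_cons]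
    push_cast
    ring
  rw [h2]
  exact ww_of_congr h1 fun s hs =>
    hκ.FW_cons hk hw' hκ.cp_c.1 hκ.cp_c.1 (hκ.sec_regW hs)

theorem Ok.of_word_cap (hκ : κ.Ok) {w : List (KF I)} (hw : ∀ k ∈ w, κ.Ad k) {b : VF I}
    (hb : κ.Cp b) : κ.Of (-w.length) (fun s => κ.FW s b w κ.c) := by
  have h1 := hκ.of_cap hb (hκ.od_word hw)
  have h2 : (-(w.length : ℝ)) = -(w.length : ℝ) + 0 := by ring
  rw [h2]
  exact h1

/-- Induction on `w`. With `l p = la p.2 / NN`: the function of `p :: w` minus its main term is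
`GS (kop p.1 (X)) + (∏ l) GS (kop (p.1 - l p · D) Y)` with `X` the difference for `w` (order `(length, 1/4)`, `od_k`)
and `Y` the word of `D = dk k` (order `(length, 0)`, `od_r` with `tr_sub`, `tr_dk`, `la_dg`: the mean weight is
`la p.2 - l p NN = 0`; `Ad.sub`). `od_add`. -/
theorem Ok.od_diff (hκ : κ.Ok) (w : List (KF I × GF I))
    (hw : ∀ p ∈ w, κ.Ad p.1 ∧ κ.Tr p.1 p.2) :
    κ.Od w.length (1 / 4) (fun s => κ.AW s (w.map Prod.fst) κ.c -
      (((w.map fun p => κ.la p.2 / κ.NN).prod : ℝ) : ℂ) •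
        κ.AW s (List.replicate w.length (dk κ.k)) κ.c) := by
  induction w with
  | nil =>
    have h1 := ww_od_zero (κ := κ) ((0 : ℕ) : ℝ) (1 / 4)
    refine ww_od_congr h1 fun s _ => ?_
    simp
  | cons p w ih =>
    have hp := hw p List.mem_cons_self
    have h1 := ih (fun q hq => hw q (List.mem_cons_of_mem _ hq))
    obtain ⟨a1, a2, a3, a4⟩ := ww_sub hκ hp
    have hD : ∀ k ∈ List.replicate w.length (dk κ.k), κ.Ad k := by
      intro k hk
      rw [List.eq_of_mem_replicate hk]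
      exact hκ.ad_dk
    have h2 := hκ.od_k hp.1 h1
    have h3 := hκ.od_r a1 a2 a3 (hκ.od_word hD)
    rw [List.length_replicate, zero_add] at h3
    have h4 := hκ.od_add h2 h3 ((((w.map fun p => κ.la p.2 / κ.NN).prod : ℝ) : ℂ))
    have h5 : (((p :: w).length : ℕ) : ℝ) = w.length + 1 := by
      rw [List.length_cons]
      push_cast
      ring
    rw [h5]
    refine ww_od_congr h4 fun s hs => ?_
    simp only [List.map_cons, List.prod_cons, List.length_cons, List.replicate_succ, AW]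
    rw [a4 s hs]
    simp only [map_sub, map_smul, sub_apply, smul_apply, ww_l]
    push_cast
    module

/-- The same with `FW_cons`, `of_k`, `of_r`. -/
theorem Ok.of_diff (hκ : κ.Ok) (w : List (KF I × GF I)) (h0 : w ≠ [])
    (hw : ∀ p ∈ w, κ.Ad p.1 ∧ κ.Tr p.1 p.2) :
    κ.Of (3 / 4 - w.length) (fun s => κ.FW s κ.c (w.map Prod.fst) κ.c -
      (((w.map fun p => κ.la p.2 / κ.NN).prod : ℝ) : ℂ) *
        κ.FW s κ.c (List.replicate w.length (dk κ.k)) κ.c) := by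
  obtain ⟨p, w', rfl⟩ : ∃ p w', w = p :: w' := by
    cases w with
    | nil => exact absurd rfl h0
    | cons p w' => exact ⟨p, w', rfl⟩
  have hp := hw p List.mem_cons_self
  have hw' : ∀ q ∈ w', κ.Ad q.1 ∧ κ.Tr q.1 q.2 := fun q hq => hw q (List.mem_cons_of_mem _ hq)
  obtain ⟨a1, a2, a3, a4⟩ := ww_sub hκ hp
  have hD : ∀ k ∈ List.replicate w'.length (dk κ.k), κ.Ad k := by
    intro k hk
    rw [List.eq_of_mem_replicate hk]
    exact hκ.ad_dk
  have hM : ∀ k ∈ w'.map Prod.fst, κ.Ad k := by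
    intro k hk
    obtain ⟨q, hq, rfl⟩ := List.mem_map.1 hk
    exact (hw' q hq).1
  have h1 := hκ.of_k hp.1 (hκ.od_diff w' hw') hκ.od_zero
  have h2 := hκ.of_r a1 a2 a3 (hκ.od_word hD) hκ.od_zero
  rw [List.length_replicate, add_zero] at h2
  have e1 : (-(w'.length : ℝ) - 1 / 2 + 1 / 4) = -(w'.length : ℝ) - 1 / 4 := by ring
  rw [e1] at h1
  have h4 := h1.add h2 ((((w'.map fun p => κ.la p.2 / κ.NN).prod : ℝ) : ℂ))
  have h5 : (3 / 4 - (((p :: w').length : ℕ) : ℝ)) = -(w'.length : ℝ) - 1 / 4 := by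
    rw [List.length_cons]
    push_cast
    ring
  rw [h5]
  refine ww_of_congr h4 fun s hs => ?_
  have hsr := hκ.sec_regW hs
  rw [List.length_cons, List.replicate_succ, List.map_cons, List.map_cons, List.prod_cons,
    hκ.FW_cons hp.1 hM hκ.cp_c.1 hκ.cp_c.1 hsr,
    hκ.FW_cons hκ.ad_dk hD hκ.cp_c.1 hκ.cp_c.1 hsr, a4 s hs]
  generalize κ.AW s (w'.map Prod.fst) κ.c = X
  generalize κ.AW s (List.replicate w'.length (dk κ.k)) κ.c = Y
  generalize κ.AW s [] κ.c = B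
  generalize (w'.map fun p => κ.la p.2 / κ.NN).prod = P
  have e2 : kop p.1 s (X - (P : ℂ) • Y) = kop p.1 s X + (-(P : ℂ)) • kop p.1 s Y := by
    rw [map_sub, map_smul, neg_smul, sub_eq_add_neg]
  have e3 : (kop p.1 s - (ww_l κ p : ℂ) • kop (dk κ.k) s) Y =
      kop p.1 s Y + (-(ww_l κ p : ℂ)) • kop (dk κ.k) s Y := by
    rw [sub_apply, smul_apply, neg_smul, sub_eq_add_neg]
  rw [e2, e3, ww_bl_add, ww_bl_add]
  unfold ww_l
  push_cast
  ring

end Slb

end Pool.Agent.KSlab
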