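import Pool.Agent.KSlab.MOk
import Pool.Agent.KSlab.WDefs
import Pool.Agent.KComp.Basic

/-! SX0: chains of blocks in the slab with knotted blocks, definitions. -/

set_option autoImplicit false

open Pool.Agent.LK
open scoped ENNReal

namespace Pool.Agent.KSlab

open Pool.Agent.KTube Pool.Agent.KRing Pool.Agent.KLog Pool.Agent.KCls
open Pool.Agent.KAsym (ln wtR wlR)
open Pool.Agent.KTop (GC ed ed_nil ed_cons)
open Pool.Agent.KComp (HA CA Kn UH mkA lenA WA)

variable {M : ℕ}

/-! ### Chains in the slab -/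

/-- The chain of blocks leads from the state `x` to the state `x'` inside the slab. -/
def CC : XX (II M) → List PP → XX (II M) → Prop
  | x, [], x' => x = x'
  | x, π :: s, x' => ∃ w : XX (II M), CX x w π ∧ CC w s x'

theorem CX.vv_eq {x x' : XX (II M)} {π : PP} (h : CX x x' π) : vv x' = vv x + dsp π := by
  obtain ⟨⟨-, -, h1, h2⟩, h3⟩ := h
  refine Prod.ext ?_ ?_
  · exact h3.symm
  · change ((x'.2.2 : ℕ) : ℤ) - ((x'.2.1 : ℕ) : ℤ) =
      ((x.2.2 : ℕ) : ℤ) - ((x.2.1 : ℕ) : ℤ) + (π.2.sum.2.1 - π.1.sum.2.1)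
    rw [← h1, ← h2]
    ring

theorem CC.ed_eq {x x' : XX (II M)} {s : List PP} (h : CC x s x') : ed (vv x) s = vv x' := by
  induction s generalizing x with
  | nil =>
    rw [ed_nil]
    exact congrArg vv h
  | cons π s ih =>
    obtain ⟨w, h1, h2⟩ := h
    rw [ed_cons, ← h1.vv_eq]
    exact ih h2

/-- The caps in the slab. -/
abbrev HAS (M : ℕ) : Type :=
  Σ x : XX (II M), {l : List P3 // Flat (vv x) l ∧ InS M ((x.2.1 : ℕ) : ℤ) l}

/-- The cap without its height. -/
def toH (r : HAS M) : HA := ⟨vv r.1, r.2.1, r.2.2.1⟩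

/-- The chains of blocks between two caps in the slab. -/
abbrev CAS (M : ℕ) : Type :=
  {p : HAS M × List PP × HAS M // GC (vv p.1.1) p.2.1 ∧ CC p.1.1 p.2.1 p.2.2.1}

/-- The chain without its height. -/
def toA (p : CAS M) : CA := ⟨(toH p.1.1, p.1.2.1, toH p.1.2.2), p.2.1, p.2.2.ed_eq⟩

open Classical in
/-- The weight of the chains in the slab with `n` points and the property `Q`. -/
noncomputable def SAS (M : ℕ) (y z : ℝ) (Q : CAS M → Prop) (n : ℕ) : ℝ≥0∞ :=
  ∑' p : CAS M, if lenA (toA p) = n ∧ Q p then WA y z (toA p) else 0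

/-! ### The kernels -/

/-- The blocks of class `T`, the caps of class `Tc`. -/
noncomputable def slbC (Tc T : Finset (Sym2 P3) → Prop) (M : ℕ) (y z : ℝ) (h : II M → ℝ) :
    Slb (II M) :=
  { slb T M y z h with c := (slb Tc M y z h).c }

/-- The caps of the class. -/
def QC (Tc : Finset (Sym2 P3) → Prop) (r : HA) : Prop := HalfT Tc 0 r.1 r.2.1

/-- The knotted blocks with the property `A`. -/
noncomputable def kn (y z : ℝ) (A : ℤ × ℤ → PP → Prop) : KF (II M) :=
  fun n x x' => gn y z (fun π => Kn (vv x) π ∧ A (vv x) π) x x' n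

/-- The pair is a knotted block far from the dead states. -/
def KnF (π : PP) : Prop := ∃ v, nh π < nrm v ∧ Kn v π

/-- The knotted blocks with the property `B` far from the dead states. -/
noncomputable def gk (y z : ℝ) (B : PP → Prop) : GF (II M) :=
  fun n t i j => gn y z (fun π => KnF π ∧ B π) (0, i) (t, j) n

open Classical in
/-- The mean weight of the knotted blocks with the property `B`. -/
noncomputable def LK (y z : ℝ) (h : II M → ℝ) (B : PP → Prop) : ℝ :=
  ∑' π : {π : PP // KnF π ∧ B π}, wtR y z π.1 * ∑ i, ∑ j, if CB i j π.1 then h i * h j else 0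

/-- The property `A` of the blocks is the property `B` of the words far from the dead states. -/
def FarEq (A : ℤ × ℤ → PP → Prop) (B : PP → Prop) : Prop :=
  ∀ v π, nh π < nrm v → Kn v π → (A v π ↔ B π)

/-- The parity of the state. -/
def parS (x : XX (II M)) : ℕ := nrm (vv x) + 1

/-- The marks of the chain have the properties in the list. -/
def MatP (p : CAS M) (L : List (ℤ × ℤ → PP → Prop)) : Prop :=
  List.Forall₂ (fun (m : (ℤ × ℤ) × PP) A => A m.1 m.2) (mkA (toA p)) L

end Pool.Agent.KSlab
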