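import Pool.Agent.KSlab.XDefs
import Pool.Agent.KSlab.MFib

/-! SX5: the chains with marks of given kinds are the words of marked elements. -/

set_option autoImplicit false

open Pool.Agent.LK
open scoped ENNReal

namespace Pool.Agent.KSlab

open Pool.Agent.KTube Pool.Agent.KRing Pool.Agent.KLog Pool.Agent.KCls
open Pool.Agent.KAsym (ln wtR wlR)
open Pool.Agent.KTop (GC UC ed)
open Pool.Agent.KComp (HA CA Kn UH mkA mk lenA WA ww wc)

variable {T Tc : Finset (Sym2 P3) → Prop} {M : ℕ} {y z : ℝ} {h : II M → ℝ}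

/-- The valid blocks of the class of the unknot are the unknotted blocks (see `KAmp/Cls.lean`, `cls_unknotted`, or the
lemma used in `KComp/ChainA.lean`). -/
theorem validT_unk {v : ℤ × ℤ} {π : PP} : ValidT Unknotted v π ↔ Valid v π := Iff.rfl

/-- The weight of the lists `s` and caps `r` that follow the state `x`: the marks of `s` have the properties in `L`,
the cap is of class `Tc`, `n` points together. -/
noncomputable def TL (M : ℕ) (Tc : Finset (Sym2 P3) → Prop) (y z : ℝ)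
    (L : List (ℤ × ℤ → PP → Prop)) (n : ℕ) (x : XX (II M)) : ℝ≥0∞ := by
  classical
  exact ∑' p : List PP × HAS M, if GC (vv x) p.1 ∧ CC x p.1 p.2.1 ∧ QC Tc (toH p.2) ∧
    List.Forall₂ (fun (m : (ℤ × ℤ) × PP) A => A m.1 m.2) (mk (vv x) p.1) L ∧
    (p.1.map ln).sum + p.2.2.1.length = n then ww y z p.1 * wc y z (toH p.2) else 0

/-! ### Sums over elements with a size -/

/-- The weight of the elements with the property and of the size. -/
private noncomputable def xi_S {X Q : Type} (R : X → Q → Prop) (len : Q → ℕ) (w : Q → ℝ≥0∞)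
    (n : ℕ) (x : X) : ℝ≥0∞ := by
  classical
  exact ∑' t : Q, if R x t ∧ len t = n then w t else 0

open Classical in
private theorem xi_S_def {X Q : Type} (R : X → Q → Prop) (len : Q → ℕ) (w : Q → ℝ≥0∞)
    (n : ℕ) (x : X) : xi_S R len w n x = ∑' t : Q, if R x t ∧ len t = n then w t else 0 := by
  unfold xi_S
  refine tsum_congr fun t => ?_
  congr 1

open Classical in
private theorem xi_S_sub {X Q : Type} (R : X → Q → Prop) (len : Q → ℕ) (w : Q → ℝ≥0∞)
    (n : ℕ) (x : X) : xi_S R len w n x =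
      ∑' t : {t : Q // R x t}, if len t.1 = n then w t.1 else 0 := by
  rw [xi_S_def]
  have h := tsum_subtype {t : Q | R x t} (fun t => if len t = n then w t else 0)
  refine Eq.trans ?_ h.symm
  refine tsum_congr fun t => ?_
  by_cases h1 : R x t
  · rw [Set.indicator_of_mem (show t ∈ {t : Q | R x t} from h1)]
    by_cases h2 : len t = n
    · rw [if_pos ⟨h1, h2⟩, if_pos h2]
    · rw [if_neg (fun h3 => h2 h3.2), if_neg h2]
  · rw [Set.indicator_of_notMem (show t ∉ {t : Q | R x t} from h1), if_neg fun h3 => h1 h3.1]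

/-- Change of the index. -/
private theorem xi_S_eq {X Q Q' : Type} {R : X → Q → Prop} {len : Q → ℕ} {w : Q → ℝ≥0∞}
    {R' : X → Q' → Prop} {len' : Q' → ℕ} {w' : Q' → ℝ≥0∞} {n : ℕ} {x : X} (i : Q → Q')
    (h1 : ∀ t, R x t → R' x (i t) ∧ len' (i t) = len t ∧ w' (i t) = w t)
    (h2 : ∀ t t', R x t → R x t' → i t = i t' → t = t')
    (h3 : ∀ t', R' x t' → ∃ t, R x t ∧ i t = t') :
    xi_S R' len' w' n x = xi_S R len w n x := by
  classical
  rw [xi_S_sub, xi_S_sub]
  let j : {t : Q // R x t} → {t : Q' // R' x t} := fun t => ⟨i t.1, (h1 t.1 t.2).1⟩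
  have hj : Function.Bijective j := by
    constructor
    · intro a b hab
      exact Subtype.ext (h2 _ _ a.2 b.2 (congrArg Subtype.val hab))
    · rintro ⟨t', ht'⟩
      obtain ⟨t, ht, h⟩ := h3 t' ht'
      exact ⟨⟨t, ht⟩, Subtype.ext h⟩
  rw [← (Equiv.ofBijective j hj).tsum_eq]
  refine tsum_congr fun t => ?_
  change (if len' (i t.1) = n then w' (i t.1) else 0) = _
  obtain ⟨-, h4, h5⟩ := h1 t.1 t.2
  rw [h4, h5]

private theorem xi_S_iff {X Q : Type} {R R' : X → Q → Prop} {len : Q → ℕ} {w : Q → ℝ≥0∞}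
    {n : ℕ} {x : X} (h : ∀ t, R' x t ↔ R x t) : xi_S R' len w n x = xi_S R len w n x :=
  xi_S_eq id (fun t ht => ⟨(h t).2 ht, rfl, rfl⟩) (fun _ _ _ _ h => h)
    fun t ht => ⟨t, (h t).1 ht, rfl⟩

/-- Convolution. -/
private theorem xi_conv {S Q W : Type} (A : W → S → Prop)
    (hA : ∀ s w w', A w s → A w' s → w = w') (la : S → ℕ) (f : S → ℝ≥0∞)
    (B : W → Q → Prop) (lb : Q → ℕ) (g : Q → ℝ≥0∞) (n : ℕ) :
    ∑ p ∈ Finset.HasAntidiagonal.antidiagonal n, ∑' w : W, xi_S A la f p.1 w * xi_S B lb g p.2 w =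
      xi_S (fun (_ : Unit) (q : S × Q) => ∃ w, A w q.1 ∧ B w q.2) (fun q => la q.1 + lb q.2)
        (fun q => f q.1 * g q.2) n () := by
  classical
  have h1 : ∀ (p : ℕ × ℕ) (w : W), xi_S A la f p.1 w * xi_S B lb g p.2 w =
      ∑' x : S × Q, (if A w x.1 ∧ la x.1 = p.1 then f x.1 else 0) *
          (if B w x.2 ∧ lb x.2 = p.2 then g x.2 else 0) := by
    intro p w
    rw [xi_S_def, xi_S_def, ENNReal.tsum_prod (f := fun s t =>
      (if A w s ∧ la s = p.1 then f s else 0) * (if B w t ∧ lb t = p.2 then g t else 0)),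
      ← ENNReal.tsum_mul_right]
    refine tsum_congr fun s => ?_
    rw [ENNReal.tsum_mul_left]
  have h2 : ∀ p ∈ Finset.HasAntidiagonal.antidiagonal n,
      ∑' w : W, xi_S A la f p.1 w * xi_S B lb g p.2 w =
      ∑' x : S × Q, ∑' w : W, (if A w x.1 ∧ la x.1 = p.1 then f x.1 else 0) *
          (if B w x.2 ∧ lb x.2 = p.2 then g x.2 else 0) := by
    intro p _
    rw [tsum_congr (h1 p), ENNReal.tsum_comm]
  rw [Finset.sum_congr rfl h2, ← Summable.tsum_finsetSum (fun _ _ => ENNReal.summable), xi_S_def]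
  refine tsum_congr fun x => ?_
  obtain ⟨s, t⟩ := x
  simp only
  by_cases h3 : ∃ w, A w s ∧ B w t
  · obtain ⟨w, h4, h5⟩ := h3
    have h6 : ∀ p ∈ Finset.HasAntidiagonal.antidiagonal n,
        ∑' w : W, (if A w s ∧ la s = p.1 then f s else 0) *
          (if B w t ∧ lb t = p.2 then g t else 0) =
        if p = (la s, lb t) then f s * g t else 0 := by
      intro p _
      rw [tsum_eq_single w]
      · by_cases h7 : p = (la s, lb t)
        · rw [if_pos h7, if_pos ⟨h4, by rw [h7]⟩, if_pos ⟨h5, by rw [h7]⟩]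
        · rw [if_neg h7]
          by_cases h8 : la s = p.1
          · by_cases h9 : lb t = p.2
            · exact absurd (Prod.ext h8.symm h9.symm) h7
            · rw [if_neg (fun h => h9 h.2) (c := B w t ∧ lb t = p.2), mul_zero]
          · rw [if_neg (fun h => h8 h.2) (c := A w s ∧ la s = p.1), zero_mul]
      · intro w' hw'
        rw [if_neg (fun h => hw' (hA s w' w h.1 h4)), zero_mul]
    rw [Finset.sum_congr rfl h6, Finset.sum_ite_eq']
    by_cases h7 : la s + lb t = n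
    · rw [if_pos (Finset.HasAntidiagonal.mem_antidiagonal.2 h7), if_pos ⟨⟨w, h4, h5⟩, h7⟩]
    · rw [if_neg (fun h => h7 (Finset.HasAntidiagonal.mem_antidiagonal.1 h)),
        if_neg (fun h => h7 h.2)]
  · rw [if_neg (fun h => h3 h.1)]
    refine Finset.sum_eq_zero fun p _ => ?_
    rw [ENNReal.tsum_eq_zero]
    intro w
    by_cases h4 : A w s
    · rw [if_neg (fun h => h3 ⟨w, h4, h.1⟩) (c := B w t ∧ lb t = p.2), mul_zero]
    · rw [if_neg (fun h => h4 h.1) (c := A w s ∧ la s = p.1), zero_mul]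

/-! ### The kernels -/

private theorem xi_gn (hy : 0 < y) (hz : 0 < z) (hz1 : z ≤ 1 / 10 ^ 12) (hq : y * z ^ 2 ≤ 1)
    {P : PP → Prop} (hP : ∀ π, P π → ∃ v, Geo v π) (x x' : XX (II M)) (n : ℕ) :
    ENNReal.ofReal (gn y z P x x' n) =
      xi_S (fun (x' : XX (II M)) π => P π ∧ CX x x' π) ln
        (wt (ENNReal.ofReal y) (ENNReal.ofReal z)) n x' := by
  classical
  have h1 := fib hy hz hz1 hq hP x x' (fun m => if m = n then 1 else 0)
  rw [tsum_eq_single n (fun m hm => by rw [if_neg hm, zero_mul]), if_pos rfl, one_mul] at h1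
  rw [h1, xi_S_sub]
  refine tsum_congr fun π => ?_
  rw [ite_mul, one_mul, zero_mul]

private theorem xi_step (hy : 0 < y) (hz : 0 < z) (hz1 : z ≤ 1 / 10 ^ 12) (hq : y * z ^ 2 ≤ 1)
    {P : XX (II M) → PP → Prop} (hP : ∀ x π, P x π → ∃ v, Geo v π) {k : KF (II M)}
    (hk : ∀ n x x', k n x x' = gn y z (P x) x x' n) {Q : Type} (R : XX (II M) → Q → Prop)
    (len : Q → ℕ) (w : Q → ℝ≥0∞) (n : ℕ) (x : XX (II M)) :
    stC k (xi_S R len w) n x =
      xi_S (fun x (q : PP × Q) => ∃ x', (P x q.1 ∧ CX x x' q.1) ∧ R x' q.2)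
        (fun q => ln q.1 + len q.2)
        (fun q => wt (ENNReal.ofReal y) (ENNReal.ofReal z) q.1 * w q.2) n x := by
  have h1 := xi_conv (fun (x' : XX (II M)) π => P x π ∧ CX x x' π)
    (fun π a b ha hb => cx_unique ha.2 hb.2) ln (wt (ENNReal.ofReal y) (ENNReal.ofReal z))
    R len w n
  unfold stC
  have h2 : ∀ p ∈ Finset.HasAntidiagonal.antidiagonal n,
      ∑' x' : XX (II M), ENNReal.ofReal (k p.1 x x') * xi_S R len w p.2 x' =
      ∑' x' : XX (II M), xi_S (fun (x' : XX (II M)) π => P x π ∧ CX x x' π) ln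
        (wt (ENNReal.ofReal y) (ENNReal.ofReal z)) p.1 x' * xi_S R len w p.2 x' := by
    intro p _
    refine tsum_congr fun x' => ?_
    rw [hk, xi_gn hy hz hz1 hq (hP x)]
  rw [Finset.sum_congr rfl h2, h1, xi_S_sub, xi_S_sub]

/-! ### Chains of unknotted blocks -/

/-- The chain of unknotted blocks leads from `x` to `x'`. -/
private def xi_V : XX (II M) → List PP → XX (II M) → Prop
  | x, [], x' => x = x'
  | x, π :: s, x' => ∃ w : XX (II M), (ValidT Unknotted (vv x) π ∧ CX x w π) ∧ xi_V w s x'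

private theorem xi_V_iff {x x' : XX (II M)} {s : List PP} (hx : vv x' ≠ 0) :
    xi_V x s x' ↔ UC (vv x) s ∧ CC x s x' := by
  induction s generalizing x with
  | nil =>
    constructor
    · intro h
      have h1 : x = x' := h
      subst h1
      exact ⟨hx, rfl⟩
    · exact fun h => h.2
  | cons π s ih =>
    constructor
    · rintro ⟨w, ⟨h1, h2⟩, h3⟩
      obtain ⟨h4, h5⟩ := ih.1 h3
      rw [h2.vv_eq] at h4
      exact ⟨⟨validT_unk.1 h1, h4⟩, w, h2, h5⟩
    · rintro ⟨⟨h1, h2⟩, w, h3, h4⟩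
      rw [← h3.vv_eq] at h2
      exact ⟨w, ⟨validT_unk.2 h1, h3⟩, ih.2 ⟨h2, h4⟩⟩

private theorem xi_iter (hy : 0 < y) (hz : 0 < z) (hz1 : z ≤ 1 / 10 ^ 12) (hq : y * z ^ 2 ≤ 1)
    {Q : Type} (R : XX (II M) → Q → Prop) (len : Q → ℕ) (w : Q → ℝ≥0∞) (N : ℕ) :
    (stC (slbC Tc Unknotted M y z h).k)^[N] (xi_S R len w) =
      xi_S (fun x (q : List PP × Q) => q.1.length = N ∧ ∃ x', xi_V x q.1 x' ∧ R x' q.2)
        (fun q => (q.1.map ln).sum + len q.2) (fun q => ww y z q.1 * w q.2) := by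
  induction N with
  | zero =>
    funext n x
    rw [Function.iterate_zero, id_eq, eq_comm]
    refine xi_S_eq (fun t => ([], t)) ?_ ?_ ?_
    · intro t ht
      refine ⟨⟨rfl, x, rfl, ht⟩, ?_, ?_⟩
      · simp
      · simp [Pool.Agent.KComp.ww_nil]
    · intro t t' _ _ h1
      exact congrArg Prod.snd h1
    · rintro ⟨s, t⟩ ⟨h1, x', h2, h3⟩
      have h4 : s = [] := List.length_eq_zero_iff.1 h1
      subst h4
      have h5 : x = x' := h2
      subst h5
      exact ⟨t, h3, rfl⟩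
  | succ N ih =>
    funext n x
    rw [Function.iterate_succ_apply', ih]
    rw [xi_step hy hz hz1 hq (k := (slbC Tc Unknotted M y z h).k)
      (P := fun x => ValidT Unknotted (vv x)) (fun x π h => ⟨vv x, h.1⟩) (fun n x x' => rfl),
      eq_comm]
    refine xi_S_eq (fun q => (q.1 :: q.2.1, q.2.2)) ?_ ?_ ?_
    · rintro ⟨π, s, t⟩ ⟨x1, h1, h2, x2, h3, h4⟩
      refine ⟨⟨?_, x2, ⟨x1, h1, h3⟩, h4⟩, ?_, ?_⟩
      · simp only [List.length_cons]
        simp only at h2
        omega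
      · simp only [List.map_cons, List.sum_cons, Nat.add_assoc]
      · simp only [Pool.Agent.KComp.ww_cons, mul_assoc]
    · rintro ⟨π, s, t⟩ ⟨π', s', t'⟩ - - h1
      simp only [Prod.mk.injEq, List.cons.injEq] at h1
      obtain ⟨⟨h2, h3⟩, h4⟩ := h1
      subst h2 h3 h4
      rfl
    · rintro ⟨s, t⟩ ⟨h1, x2, h2, h3⟩
      cases s with
      | nil => simp at h1
      | cons π s =>
        obtain ⟨x1, h4, h5⟩ := h2
        refine ⟨(π, s, t), ⟨x1, h4, ?_, x2, h5, h3⟩, rfl⟩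
        simp only [List.length_cons] at h1 ⊢
        omega

private theorem xi_re (hy : 0 < y) (hz : 0 < z) (hz1 : z ≤ 1 / 10 ^ 12) (hq : y * z ^ 2 ≤ 1)
    {Q : Type} (R : XX (II M) → Q → Prop) (len : Q → ℕ) (w : Q → ℝ≥0∞) :
    (slbC Tc Unknotted M y z h).reC (xi_S R len w) =
      xi_S (fun x (q : List PP × Q) => ∃ x', xi_V x q.1 x' ∧ R x' q.2)
        (fun q => (q.1.map ln).sum + len q.2) (fun q => ww y z q.1 * w q.2) := by
  classical
  funext n x
  unfold Slb.reC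
  simp only [xi_iter hy hz hz1 hq]
  simp only [xi_S_def]
  rw [ENNReal.tsum_comm]
  refine tsum_congr fun q => ?_
  rw [tsum_eq_single q.1.length]
  · by_cases h1 : (∃ x', xi_V x q.1 x' ∧ R x' q.2) ∧ (q.1.map ln).sum + len q.2 = n
    · rw [if_pos h1, if_pos ⟨⟨rfl, h1.1⟩, h1.2⟩]
    · rw [if_neg h1, if_neg fun h2 => h1 ⟨h2.1.2, h2.2⟩]
  · intro N hN
    exact if_neg fun h1 => hN h1.1.1.symm

/-! ### The caps -/

private theorem xi_cap (hy : 0 < y) (hz : 0 < z) (hz1 : z ≤ 1 / 10 ^ 12) (hq : y * z ^ 2 ≤ 1) :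
    toN (slbC Tc Unknotted M y z h).c =
      xi_S (fun (x : XX (II M)) (r : HAS M) => r.1 = x ∧ QC Tc (toH r))
        (fun r => r.2.1.length) (fun r => wc y z (toH r)) := by
  classical
  funext n x
  have h1 := fib_c (T := Tc) (M := M) (h := h) hy hz hz1 hq x (fun m => if m = n then 1 else 0)
  rw [tsum_eq_single n (fun m hm => by rw [if_neg hm, zero_mul]), if_pos rfl, one_mul] at h1
  refine h1.trans ?_
  rw [xi_S_sub]
  let e : {l // HalfT Tc 0 (vv x) l ∧ InS M ((x.2.1 : ℕ) : ℤ) l} ≃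
      {r : HAS M // r.1 = x ∧ QC Tc (toH r)} :=
    { toFun := fun l => ⟨⟨x, l.1, ⟨l.2.1.1.1, l.2.1.1.2.1, l.2.1.2⟩, l.2.2⟩, rfl, l.2.1⟩
      invFun := fun r => ⟨r.1.2.1, by
        obtain ⟨⟨x1, l, h1, h2⟩, h3, h4⟩ := r
        simp only at h3
        subst h3
        exact ⟨h4, h2⟩⟩
      left_inv := fun l => rfl
      right_inv := by
        rintro ⟨⟨x1, l, h1, h2⟩, h3, h4⟩
        simp only at h3
        subst h3
        rfl }
  rw [← e.tsum_eq]
  refine tsum_congr fun l => ?_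
  change (if l.1.length = n then 1 else 0) * _ = if l.1.length = n then _ else 0
  rw [ite_mul, one_mul, zero_mul]
  rfl

/-! ### Splitting at the first knotted block -/

private theorem xi_inj {π ρ : PP} {v : ℤ × ℤ} {s0 t0 s1 t1 : List PP} (h1 : UC v s0)
    (h2 : UC v t0) (k1 : Kn (ed v s0) π) (k2 : Kn (ed v t0) ρ)
    (h : s0 ++ π :: s1 = t0 ++ ρ :: t1) : s0 = t0 ∧ π = ρ ∧ s1 = t1 := by
  induction s0 generalizing v t0 with
  | nil =>
    cases t0 with
    | nil =>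
      rw [List.nil_append, List.nil_append, List.cons.injEq] at h
      exact ⟨rfl, h.1, h.2⟩
    | cons σ t0 =>
      rw [List.nil_append, List.cons_append, List.cons.injEq] at h
      rw [Pool.Agent.KTop.ed_nil, h.1] at k1
      exact absurd h2.1.2 k1.2
  | cons σ s0 ih =>
    cases t0 with
    | nil =>
      rw [List.nil_append, List.cons_append, List.cons.injEq] at h
      rw [Pool.Agent.KTop.ed_nil, ← h.1] at k2
      exact absurd h1.1.2 k2.2
    | cons τ t0 =>
      rw [List.cons_append, List.cons_append, List.cons.injEq] at h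
      obtain ⟨h3, h4⟩ := h
      subst h3
      rw [Pool.Agent.KTop.ed_cons] at k1 k2
      obtain ⟨h5, h6, h7⟩ := ih h1.2 h2.2 k1 k2 h4
      exact ⟨by rw [h5], h6, h7⟩

private theorem xi_split {v : ℤ × ℤ} {s : List PP} {A : ℤ × ℤ → PP → Prop}
    {L : List (ℤ × ℤ → PP → Prop)} (h : GC v s)
    (hm : List.Forall₂ (fun (m : (ℤ × ℤ) × PP) A => A m.1 m.2) (mk v s) (A :: L)) :
    ∃ (s0 : List PP) (π : PP) (s1 : List PP), s0 ++ π :: s1 = s ∧ UC v s0 ∧
      Kn (ed v s0) π := by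
  induction s generalizing v with
  | nil => exact absurd hm (by unfold mk; exact fun h => nomatch h)
  | cons π s ih =>
    rw [Pool.Agent.KComp.mk_cons] at hm
    by_cases hu : Unk v π
    · rw [if_pos hu] at hm
      obtain ⟨s0, ρ, s1, h1, h2, h3⟩ := ih h.2 hm
      refine ⟨π :: s0, ρ, s1, ?_, ⟨⟨h.1, hu⟩, h2⟩, ?_⟩
      · rw [List.cons_append, h1]
      · rw [Pool.Agent.KTop.ed_cons]
        exact h3
    · refine ⟨[], π, s, ?_, h.1.ne, ?_⟩
      · rw [List.nil_append]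
      · rw [Pool.Agent.KTop.ed_nil]
        exact ⟨h.1, hu⟩

private theorem xi_split_iff {v : ℤ × ℤ} {s0 s1 : List PP} {π : PP}
    {A : ℤ × ℤ → PP → Prop} {L : List (ℤ × ℤ → PP → Prop)} (h0 : UC v s0)
    (hk : Kn (ed v s0) π) :
    (GC v (s0 ++ π :: s1) ∧ List.Forall₂ (fun (m : (ℤ × ℤ) × PP) A => A m.1 m.2)
      (mk v (s0 ++ π :: s1)) (A :: L)) ↔
      (A (ed v s0) π ∧ GC (ed v s0 + dsp π) s1 ∧
        List.Forall₂ (fun (m : (ℤ × ℤ) × PP) A => A m.1 m.2) (mk (ed v s0 + dsp π) s1) L) := by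
  have e1 : mk v (s0 ++ π :: s1) = (ed v s0, π) :: mk (ed v s0 + dsp π) s1 := by
    rw [Pool.Agent.KComp.mk_append, (Pool.Agent.KComp.uc_iff h0.gc).1 h0, List.nil_append,
      Pool.Agent.KComp.mk_cons, if_neg hk.2]
  rw [e1, Pool.Agent.KTop.gc_append, List.forall₂_cons]
  constructor
  · rintro ⟨⟨-, -, h1⟩, h2, h3⟩
    exact ⟨h2, h1, h3⟩
  · rintro ⟨h1, h2, h3⟩
    exact ⟨⟨h0.gc, hk.1, h2⟩, h1, h3⟩

private theorem xi_cc {x x' : XX (II M)} {s t : List PP} :
    CC x (s ++ t) x' ↔ ∃ w, CC x s w ∧ CC w t x' := by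
  induction s generalizing x with
  | nil =>
    constructor
    · intro h
      exact ⟨x, rfl, h⟩
    · rintro ⟨w, h1, h2⟩
      have h3 : x = w := h1
      subst h3
      exact h2
  | cons π s ih =>
    constructor
    · rintro ⟨w, h1, h2⟩
      obtain ⟨w', h3, h4⟩ := ih.1 h2
      exact ⟨w', ⟨w, h1, h3⟩, h4⟩
    · rintro ⟨w', ⟨w, h1, h3⟩, h4⟩
      exact ⟨w, h1, ih.2 ⟨w', h3, h4⟩⟩

/-- The lists and caps of `TL`. -/
private def xi_R (Tc : Finset (Sym2 P3) → Prop) (L : List (ℤ × ℤ → PP → Prop)) (x : XX (II M))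
    (p : List PP × HAS M) : Prop :=
  GC (vv x) p.1 ∧ CC x p.1 p.2.1 ∧ QC Tc (toH p.2) ∧
    List.Forall₂ (fun (m : (ℤ × ℤ) × PP) A => A m.1 m.2) (mk (vv x) p.1) L

private theorem xi_TL (L : List (ℤ × ℤ → PP → Prop)) (n : ℕ) (x : XX (II M)) :
    TL M Tc y z L n x = xi_S (xi_R Tc L) (fun p => (p.1.map ln).sum + p.2.2.1.length)
      (fun p => ww y z p.1 * wc y z (toH p.2)) n x := by
  classical
  unfold TL
  rw [xi_S_def]
  refine tsum_congr fun p => ?_
  refine if_congr ?_ rfl rfl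
  unfold xi_R
  tauto

private theorem xi_ne (r : HAS M) : vv r.1 ≠ 0 := r.2.2.1.1.symm

/-- **The transfer identity.** `AC` of the word of the kernels `kn A`, `A ∈ L`, with the unknotted blocks between, is
`TL`. Induction on `L`. Let `K` be the step `stC κ.k` (`κ.k` is the kernel of `ValidT Unknotted`, `validT_unk`); the sum
over the lists of unknotted blocks of length `N` is `K^N` (induction on `N`; `fib`-like: `ofReal (gn ..)` is the sum of
the weights, all finite by `geo_fin`; the state after a block is unique, `cx_unique`). For `L = []` the list consists of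
unknotted blocks (`uc_iff`), followed by the cap (`fib_c`). For `A :: L` split the list at the first knotted block as in
`KComp/MarkId.lean` (`exists_split`, `split_iff`, `split_inj`). -/
theorem ac_eq (hy : 0 < y) (hz : 0 < z) (hz1 : z ≤ 1 / 10 ^ 12) (hq : y * z ^ 2 ≤ 1)
    (L : List (ℤ × ℤ → PP → Prop)) (n : ℕ) (x : XX (II M)) :
    (slbC Tc Unknotted M y z h).AC (L.map (kn y z)) (slbC Tc Unknotted M y z h).c n x =
      TL M Tc y z L n x := by
  have key : (slbC Tc Unknotted M y z h).AC (L.map (kn y z)) (slbC Tc Unknotted M y z h).c =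
      xi_S (xi_R Tc L) (fun p : List PP × HAS M => (p.1.map ln).sum + p.2.2.1.length)
        (fun p => ww y z p.1 * wc y z (toH p.2)) := by
    clear n x
    induction L with
    | nil =>
      funext n x
      change (slbC Tc Unknotted M y z h).reC (toN (slbC Tc Unknotted M y z h).c) n x = _
      rw [xi_cap hy hz hz1 hq, xi_re hy hz hz1 hq, eq_comm]
      refine xi_S_eq id ?_ (fun _ _ _ _ h => h) ?_
      · rintro ⟨s, r⟩ ⟨x', h1, h2, h3⟩
        simp only at h2
        subst h2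
        obtain ⟨h4, h5⟩ := (xi_V_iff (xi_ne r)).1 h1
        refine ⟨⟨h4.gc, h5, h3, ?_⟩, rfl, rfl⟩
        have h6 := (Pool.Agent.KComp.uc_iff h4.gc).1 h4
        change List.Forall₂ _ (mk (vv x) s) []
        rw [h6]
        exact List.Forall₂.nil
      · rintro ⟨s, r⟩ ⟨h1, h2, h3, h4⟩
        refine ⟨(s, r), ⟨r.1, ?_, rfl, h3⟩, rfl⟩
        have h5 : mk (vv x) s = [] := List.forall₂_nil_right_iff.1 h4
        exact (xi_V_iff (xi_ne r)).2 ⟨(Pool.Agent.KComp.uc_iff h1).2 h5, h2⟩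
    | cons A L ih =>
      funext n x
      change (slbC Tc Unknotted M y z h).reC (stC (kn y z A)
        ((slbC Tc Unknotted M y z h).AC (L.map (kn y z)) (slbC Tc Unknotted M y z h).c)) n x = _
      have h0 : stC (kn y z A) ((slbC Tc Unknotted M y z h).AC (L.map (kn y z))
          (slbC Tc Unknotted M y z h).c) =
          xi_S (fun (x : XX (II M)) (q : PP × List PP × HAS M) =>
            ∃ x', ((Kn (vv x) q.1 ∧ A (vv x) q.1) ∧ CX x x' q.1) ∧ xi_R Tc L x' q.2)
            (fun q => ln q.1 + ((q.2.1.map ln).sum + q.2.2.2.1.length))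
            (fun q => wt (ENNReal.ofReal y) (ENNReal.ofReal z) q.1 *
              (ww y z q.2.1 * wc y z (toH q.2.2))) := by
        funext n x
        rw [ih]
        exact xi_step hy hz hz1 hq (P := fun x π => Kn (vv x) π ∧ A (vv x) π)
          (fun x π h => ⟨vv x, h.1.1⟩) (fun n x x' => rfl) _ _ _ _ _
      rw [h0, xi_re hy hz hz1 hq, eq_comm]
      refine xi_S_eq (fun q => (q.1 ++ q.2.1 :: q.2.2.1, q.2.2.2)) ?_ ?_ ?_
      · rintro ⟨s0, π, s1, r⟩ ⟨x1, h1, x2, ⟨⟨h2, h3⟩, h4⟩, h5, h6, h7, h8⟩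
        simp only at h2 h3 h4 h5 h6 h7 h8
        obtain ⟨h9, h10⟩ := (xi_V_iff h2.ne).1 h1
        have e1 : ed (vv x) s0 = vv x1 := h10.ed_eq
        have e2 : vv x2 = vv x1 + dsp π := h4.vv_eq
        have h11 := (xi_split_iff (s1 := s1) (A := A) (L := L) h9 (by rw [e1]; exact h2)).2
          ⟨by rw [e1]; exact h3, by rw [e1, ← e2]; exact h5, by rw [e1, ← e2]; exact h8⟩
        refine ⟨⟨h11.1, xi_cc.2 ⟨x1, h10, x2, h4, h6⟩, h7, h11.2⟩, ?_, ?_⟩
        · simp only [List.map_append, List.map_cons, List.sum_append, List.sum_cons]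
          omega
        · simp only [Pool.Agent.KComp.ww_append, Pool.Agent.KComp.ww_cons]
          ring
      · rintro ⟨s0, π, s1, r⟩ ⟨t0, ρ, t1, r'⟩ ⟨x1, h1, x2, ⟨⟨h2, -⟩, -⟩, -⟩
          ⟨w1, k1, w2, ⟨⟨k2, -⟩, -⟩, -⟩ hh
        simp only [Prod.mk.injEq] at hh
        obtain ⟨hh, rfl⟩ := hh
        obtain ⟨h9, h10⟩ := (xi_V_iff h2.ne).1 h1
        obtain ⟨k9, k10⟩ := (xi_V_iff k2.ne).1 k1
        obtain ⟨rfl, rfl, rfl⟩ := xi_inj h9 k9 (by rw [h10.ed_eq]; exact h2)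
          (by rw [k10.ed_eq]; exact k2) hh
        rfl
      · rintro ⟨s, r⟩ ⟨h1, h2, h3, h4⟩
        obtain ⟨s0, π, s1, rfl, h5, h6⟩ := xi_split h1 h4
        obtain ⟨h7, h8, h9⟩ := (xi_split_iff h5 h6).1 ⟨h1, h4⟩
        obtain ⟨x1, h10, x2, h11, h12⟩ := xi_cc.1 h2
        have e1 : ed (vv x) s0 = vv x1 := h10.ed_eq
        have e2 : vv x2 = vv x1 + dsp π := h11.vv_eq
        rw [e1] at h6 h7
        rw [e1, ← e2] at h8 h9
        exact ⟨(s0, π, s1, r), ⟨x1, (xi_V_iff h6.ne).2 ⟨h5, h10⟩, x2, ⟨⟨h6, h7⟩, h11⟩, h8, h12,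
          h3, h9⟩, rfl⟩
  rw [key, xi_TL]

/-- Sum over the first cap. -/
theorem sas_eq (hy : 0 < y) (hz : 0 < z) (hz1 : z ≤ 1 / 10 ^ 12) (hq : y * z ^ 2 ≤ 1)
    (L : List (ℤ × ℤ → PP → Prop)) (n : ℕ) :
    SAS M y z (fun p => QC Tc (toA p).1.1 ∧ QC Tc (toA p).1.2.2 ∧ MatP p L) n =
      (slbC Tc Unknotted M y z h).FC (slbC Tc Unknotted M y z h).c (L.map (kn y z))
        (slbC Tc Unknotted M y z h).c n := by
  have key : (slbC Tc Unknotted M y z h).AC (L.map (kn y z)) (slbC Tc Unknotted M y z h).c =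
      xi_S (xi_R Tc L) (fun p : List PP × HAS M => (p.1.map ln).sum + p.2.2.1.length)
        (fun p => ww y z p.1 * wc y z (toH p.2)) := by
    funext n x
    rw [ac_eq hy hz hz1 hq, xi_TL]
  unfold Slb.FC blC
  rw [key, xi_cap hy hz hz1 hq, xi_conv _ (fun r a b ha hb => ha.1.symm.trans hb.1)]
  classical
  rw [xi_S_def]
  unfold SAS
  let i : CAS M → HAS M × List PP × HAS M := fun x => x.1
  have hi : Function.Injective i := Subtype.val_injective
  have hs : Function.support (fun q : HAS M × List PP × HAS M =>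
      if (∃ w, (q.1.1 = w ∧ QC Tc (toH q.1)) ∧ xi_R Tc L w q.2) ∧
        q.1.2.1.length + ((q.2.1.map ln).sum + q.2.2.2.1.length) = n then
      wc y z (toH q.1) * (ww y z q.2.1 * wc y z (toH q.2.2)) else 0) ⊆ Set.range i := by
    rintro ⟨r, s, r'⟩ h
    rw [Function.mem_support] at h
    split_ifs at h with h2
    · obtain ⟨⟨w, ⟨h3, h4⟩, h5⟩, h6⟩ := h2
      simp only at h3
      subst h3
      exact ⟨⟨(r, s, r'), h5.1, h5.2.1⟩, rfl⟩
    · exact absurd rfl h
  rw [← hi.tsum_eq hs]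
  refine tsum_congr fun x => ?_
  obtain ⟨⟨r, s, r'⟩, h2, h3⟩ := x
  simp only [i]
  have e1 : WA y z (toA ⟨(r, s, r'), h2, h3⟩) =
      wc y z (toH r) * (ww y z s * wc y z (toH r')) := by
    rw [WA, mul_assoc]
    rfl
  have e2 : lenA (toA ⟨(r, s, r'), h2, h3⟩) =
      r.2.1.length + ((s.map ln).sum + r'.2.1.length) := by
    unfold lenA
    exact Nat.add_assoc _ _ _
  rw [e1, e2]
  have key2 : (r.2.1.length + ((s.map ln).sum + r'.2.1.length) = n ∧
      QC Tc (toH r) ∧ QC Tc (toH r') ∧ MatP ⟨(r, s, r'), h2, h3⟩ L) ↔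
      (∃ w, (r.1 = w ∧ QC Tc (toH r)) ∧ xi_R Tc L w (s, r')) ∧
        r.2.1.length + ((s.map ln).sum + r'.2.1.length) = n := by
    constructor
    · rintro ⟨h4, h5, h6, h7⟩
      exact ⟨⟨r.1, ⟨rfl, h5⟩, h2, h3, h6, h7⟩, h4⟩
    · rintro ⟨⟨w, ⟨h4, h5⟩, h6⟩, h7⟩
      subst h4
      exact ⟨h7, h5, h6.2.2.1, h6.2.2.2⟩
  by_cases hc : (∃ w, (r.1 = w ∧ QC Tc (toH r)) ∧ xi_R Tc L w (s, r')) ∧
      r.2.1.length + ((s.map ln).sum + r'.2.1.length) = n
  · rw [if_pos hc]
    exact if_pos (key2.2 hc)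
  · rw [if_neg hc]
    exact if_neg fun h4 => hc (key2.1 h4)

end Pool.Agent.KSlab
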