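import Pool.Agent.KSlab.XDefs
import Pool.Agent.KSlab.MGlu
import Pool.Agent.KComp.ChainA

/-! SY1: the halves in the slab are the chains of blocks on a cap. -/

set_option autoImplicit false

open Pool.Agent.LK
open scoped ENNReal

namespace Pool.Agent.KSlab

open Pool.Agent.KTube Pool.Agent.KRing Pool.Agent.KLog Pool.Agent.KCls
open Pool.Agent.KAsym (ln wtR wlR)
open Pool.Agent.KAmp (gl)
open Pool.Agent.KTop (GC ed)
open Pool.Agent.KComp (HA CA Kn UH mkA lenA WA ww wc)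

variable {M : ℕ}

private theorem lt_true' {k : ℤ} {a b : ℤ × ℤ} {l : List P3} (hab : a ≠ b) (hl : Lower k a b l) :
    LT (fun _ => True) k a b l := by
  obtain ⟨r, hr⟩ := exists_UU' (k := k) hab
  obtain ⟨C, hC⟩ := exists_lowClose (ring_of hab hr.2.1 hl).isPolygon
    (isTwo_ring_of hab hr.2.1 hl)
  exact ⟨hab, hl, r, hr.2.1, C, hC, trivial⟩

/-- The slab condition for the composed half. -/
private theorem in_iff' {v : ℤ × ℤ} {l : List P3} {π : PP} {a b c : ℤ} (hv : v.2 = b - a)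
    (hc : a + π.1.sum.2.1 = c) : InS M c (glu v l π) ↔
      InS M a l ∧ InS M a (wk (0, 0, 1) π.1) ∧ InS M b (wk (0, 0, 1) π.2) := by
  unfold InS glu sdA sdB
  constructor
  · intro h
    refine ⟨fun u hu => ?_, fun u hu => ?_, fun u hu => ?_⟩
    · have h1 := h _ (List.mem_map.2 ⟨u, by simp [hu], rfl⟩)
      simp only [Prod.snd_add, Prod.fst_add] at h1
      constructor <;> omega
    · have h1 := h _ (List.mem_map.2 ⟨u, by simp [hu], rfl⟩)
      simp only [Prod.snd_add, Prod.fst_add] at h1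
      constructor <;> omega
    · obtain ⟨A, B, h2, rfl⟩ := mem_wk.1 hu
      have h3 : ((v.1, v.2, 1) : P3) + A.sum ∈ wk (v.1, v.2, 1) π.2 := mem_wk.2 ⟨A, B, h2, rfl⟩
      have h1 := h _ (List.mem_map.2 ⟨_, List.mem_append_left _ (List.mem_reverse.2 h3), rfl⟩)
      simp only [Prod.snd_add, Prod.fst_add] at h1 ⊢
      constructor <;> omega
  · rintro ⟨h1, h2, h3⟩ u hu
    obtain ⟨u, hu', rfl⟩ := List.mem_map.1 hu
    clear hu
    rw [List.mem_append, List.mem_append, List.mem_reverse] at hu'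
    rcases hu' with hu | hu | hu
    · obtain ⟨A, B, h4, rfl⟩ := mem_wk.1 hu
      have h5 := h3 _ (mem_wk.2 ⟨A, B, h4, rfl⟩)
      simp only [Prod.snd_add, Prod.fst_add] at h5 ⊢
      constructor <;> omega
    · have h5 := h1 _ hu
      simp only [Prod.snd_add, Prod.fst_add]
      constructor <;> omega
    · have h5 := h2 _ hu
      simp only [Prod.snd_add, Prod.fst_add]
      constructor <;> omega

private theorem wk_in' {a : ℤ} {s : List P3} (h : InS M a (wk (0, 0, 1) s)) :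
    0 ≤ a ∧ a ≤ M := by
  have h1 : ((0, 0, 1) : P3) ∈ wk (0, 0, 1) s := mem_wk.2 ⟨[], s, rfl, by simp⟩
  have h2 := h _ h1
  simpa using h2

/-- The composed half lies in the slab. -/
private theorem cc_in {s : List PP} {w x : XX (II M)} {l : List P3} (h : CC w s x)
    (hl : InS M ((w.2.1 : ℕ) : ℤ) l) : InS M ((x.2.1 : ℕ) : ℤ) (gl (vv w) l s) := by
  induction s generalizing w l with
  | nil =>
    obtain rfl : w = x := h
    exact hl
  | cons π s ih =>
    obtain ⟨w', h1, h2⟩ := h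
    have h3 : gl (vv w) l (π :: s) = gl (vv w + dsp π) (glu (vv w) l π) s := rfl
    rw [h3, ← h1.vv_eq]
    refine ih h2 ?_
    exact (in_iff' (b := ((w.2.2 : ℕ) : ℤ)) rfl h1.1.eA).2 ⟨hl, h1.1.inA, h1.1.inB⟩

/-- One step down. -/
private theorem cc_step {x : XX (II M)} {v : ℤ × ℤ} {l : List P3} {π : PP}
    (hv : v + dsp π = vv x) (hin' : InS M ((x.2.1 : ℕ) : ℤ) (glu v l π)) :
    ∃ w : XX (II M), vv w = v ∧ CX w x π ∧ InS M ((w.2.1 : ℕ) : ℤ) l := by
  obtain ⟨a, ha⟩ : ∃ a : ℤ, a = ((x.2.1 : ℕ) : ℤ) - π.1.sum.2.1 := ⟨_, rfl⟩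
  obtain ⟨h1, h2, h3⟩ := (in_iff' (a := a) (b := a + v.2) (by ring) (by rw [ha]; ring)).1 hin'
  obtain ⟨ha0, haM⟩ := wk_in' h2
  obtain ⟨hb0, hbM⟩ := wk_in' h3
  obtain ⟨a', ha'⟩ := Int.eq_ofNat_of_zero_le ha0
  obtain ⟨b', hb'⟩ := Int.eq_ofNat_of_zero_le hb0
  have haM' : a' < M + 1 := by omega
  have hbM' : b' < M + 1 := by omega
  have e1 : v.1 + (dsp π).1 = x.1 := congrArg Prod.fst hv
  have e2 : v.2 + (π.2.sum.2.1 - π.1.sum.2.1) = ((x.2.2 : ℕ) : ℤ) - ((x.2.1 : ℕ) : ℤ) :=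
    congrArg Prod.snd hv
  obtain ⟨w, hw⟩ : ∃ w : XX (II M), w = (v.1, ⟨a', haM'⟩, ⟨b', hbM'⟩) := ⟨_, rfl⟩
  have hw1 : w.1 = v.1 := by rw [hw]
  have hw2 : ((w.2.1 : ℕ) : ℤ) = a := by rw [hw, ha']
  have hw3 : ((w.2.2 : ℕ) : ℤ) = a + v.2 := by rw [hw, hb']
  have hvv : vv w = v := by
    refine Prod.ext ?_ ?_
    · exact hw1
    · change ((w.2.2 : ℕ) : ℤ) - ((w.2.1 : ℕ) : ℤ) = v.2
      rw [hw2, hw3]
      ring
  refine ⟨w, hvv, ⟨⟨?_, ?_, ?_, ?_⟩, ?_⟩, by rw [hw2]; exact h1⟩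
  · rw [hw2]; exact h2
  · rw [hw3]; exact h3
  · rw [hw2, ha]; ring
  · rw [hw3, ha]; linarith
  · rw [hw1]; exact e1

/-- The states of the chain are determined from the top. -/
private theorem cc_ex {s : List PP} {x : XX (II M)} {v : ℤ × ℤ} {l : List P3}
    (he : ed v s = vv x) (hin : InS M ((x.2.1 : ℕ) : ℤ) (gl v l s)) :
    ∃ w : XX (II M), vv w = v ∧ CC w s x ∧ InS M ((w.2.1 : ℕ) : ℤ) l := by
  induction s generalizing v l with
  | nil =>
    rw [KTop.ed_nil] at he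
    exact ⟨x, he.symm, rfl, hin⟩
  | cons π s ih =>
    rw [KTop.ed_cons] at he
    obtain ⟨w', h1, h2, h3⟩ := ih he hin
    obtain ⟨w, h4, h5, h6⟩ := cc_step h1.symm h3
    exact ⟨w, h4, ⟨w', h5, h2⟩, h6⟩

private theorem cc_unique {s : List PP} {w w' x : XX (II M)} (h : CC w s x) (h' : CC w' s x) :
    w = w' := by
  induction s generalizing w w' with
  | nil =>
    have h1 : w = x := h
    have h2 : w' = x := h'
    rw [h1, h2]
  | cons π s ih =>
    obtain ⟨a, h1, h2⟩ := h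
    obtain ⟨a', h3, h4⟩ := h'
    obtain rfl := ih h2 h4
    exact cx_unique' h1 h3

/-- `KComp.chain_a` (all lower halves are the chains of blocks on a cap), with the heights: `InS M b (gl v l s)` for the
height `b` of the first strand at the top iff the cap and all blocks lie in the slab, starting from the height
`b - (s.map fun π => π.1.sum.2.1).sum` (as in `glu_in`, `glu_bij` in `MGlu.lean`: `glu v l π` contains the translates of `l`,
`sdA π` and `sdB v π`; induction on `s`). The states of the chain are determined by the final state (`cx_unique'` in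
`MFib.lean`). Or: induction on the number of sections with `glu_bij` for the class of all polygons (`cls_all`; the valid
blocks of this class are the blocks `Geo`, see `ChainA.lean`). Or: `KSC.chain_s` (`Pool/Agent/KSC/ChainS.lean`, proved) is
this statement with states in `ℤ × ℤ × ℤ` (`(x.1, a, b)` for `x : XX (II M)` with the heights `a`, `b`); convert. -/
theorem chain_slab (x : XX (II M)) :
    ∃ e : {q : HAS M × List PP // GC (vv q.1.1) q.2 ∧ CC q.1.1 q.2 x} ≃
      {l : List P3 // LT (fun _ => True) 0 0 (vv x) l ∧ InS M ((x.2.1 : ℕ) : ℤ) l}, ∀ q,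
      (e q).1 = gl (vv q.1.1.1) q.1.1.2.1 q.1.2 ∧
      (e q).1.length = q.1.1.2.1.length + (q.1.2.map ln).sum ∧
      ∀ y z : ℝ, wl (ENNReal.ofReal y) (ENNReal.ofReal z) (e q).1 =
        wc y z (toH q.1.1) * ww y z q.1.2 := by
  obtain ⟨e0, h0⟩ := KComp.chain_a (vv x)
  let g : {q : HAS M × List PP // GC (vv q.1.1) q.2 ∧ CC q.1.1 q.2 x} →
      {q : HA × List PP // GC q.1.1 q.2 ∧ ed q.1.1 q.2 = vv x} := fun q =>
    ⟨(toH q.1.1, q.1.2), q.2.1, q.2.2.ed_eq⟩
  have hg : ∀ q, (e0 (g q)).1 = gl (vv q.1.1.1) q.1.1.2.1 q.1.2 := fun q => (h0 (g q)).1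
  let f : {q : HAS M × List PP // GC (vv q.1.1) q.2 ∧ CC q.1.1 q.2 x} →
      {l : List P3 // LT (fun _ => True) 0 0 (vv x) l ∧ InS M ((x.2.1 : ℕ) : ℤ) l} := fun q =>
    ⟨(e0 (g q)).1, lt_true' (e0 (g q)).2.1 (e0 (g q)).2.2, by
      rw [hg q]
      exact cc_in q.2.2 q.1.1.2.2.2⟩
  have hf : Function.Bijective f := by
    constructor
    · intro q q' h
      have h0' : (e0 (g q)).1 = (e0 (g q')).1 := by
        have h' : (f q).1 = (f q').1 := by rw [h]
        exact h'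
      have h1 : g q = g q' := e0.injective (Subtype.ext h0')
      obtain ⟨⟨⟨v, ⟨l, hl⟩⟩, s⟩, hs, he⟩ := q
      obtain ⟨⟨⟨v', ⟨l', hl'⟩⟩, s'⟩, hs', he'⟩ := q'
      have h2 := congrArg Subtype.val h1
      have h3 : s = s' := congrArg Prod.snd h2
      have h4 : l = l' := congrArg (fun q : HA × List PP => q.1.2.1) h2
      subst h3
      subst h4
      have h5 : v = v' := cc_unique he he'
      subst h5
      rfl
    · rintro ⟨l', hl', hi⟩
      obtain ⟨x1, hx1⟩ := e0.surjective ⟨l', hl'.1, hl'.2.1⟩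
      have h1 := (h0 x1).1
      rw [hx1] at h1
      obtain ⟨⟨⟨v, ⟨l, hl⟩⟩, s⟩, hs, he⟩ := x1
      have h2 : l' = gl v l s := h1
      obtain ⟨w, rfl, h3, h4⟩ := cc_ex he (by rw [← h2]; exact hi)
      exact ⟨⟨(⟨w, l, hl, h4⟩, s), hs, h3⟩, Subtype.ext ((hg _).trans h2.symm)⟩
  exact ⟨Equiv.ofBijective f hf, fun q => ⟨hg q, (h0 (g q)).2.1, fun y z => (h0 (g q)).2.2 y z⟩⟩

end Pool.Agent.KSlab
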