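import Pool.Agent.KSlab.YChain
import Pool.Agent.KSlab.MCut
import Pool.Agent.KSlab.MGen

/-! SY2: the partition function of a class of types in the slab as a sum over chains. -/

set_option autoImplicit false

open Pool.Agent.LK
open scoped ENNReal

namespace Pool.Agent.KSlab

open Pool.Agent.KTube Pool.Agent.KRing Pool.Agent.KLog Pool.Agent.KCls
open Pool.Agent.KAsym (ln wtR wlR)
open Pool.Agent.KTop (GC ed)
open Pool.Agent.KComp (HA CA Kn UH mkA lenA WA ww wc pol)

variable {M : ℕ} {y z : ℝ}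

private theorem yt_lt {k : ℤ} {a b : ℤ × ℤ} {l : List P3} (hab : a ≠ b) (hl : Lower k a b l) :
    LT (fun _ => True) k a b l := by
  obtain ⟨r, hr⟩ := exists_UU' (k := k) hab
  obtain ⟨C, hC⟩ := exists_lowClose (ring_of hab hr.2.1 hl).isPolygon
    (isTwo_ring_of hab hr.2.1 hl)
  exact ⟨hab, hl, r, hr.2.1, C, hC, trivial⟩

private theorem yt_half {v : ℤ × ℤ} {l : List P3} :
    HalfT (fun _ => True) 0 v l ↔ Flat v l := by
  constructor
  · rintro ⟨h1, h2⟩
    exact ⟨h1.1, h1.2.1, h2⟩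
  · rintro ⟨h1, h2, h3⟩
    exact ⟨yt_lt h1 h2, h3⟩

private theorem yt_sum (hy : 0 ≤ y) (hz : 0 ≤ z) {X : Set (Finset (Sym2 P3))} (hX : X.Finite)
    (n : ℕ) (hn : ∀ E ∈ X, E.card = n) :
    ENNReal.ofReal ((∑ᶠ E ∈ X, y ^ span E) * z ^ n) =
      ∑' E : X, ENNReal.ofReal y ^ span E.1 * ENNReal.ofReal z ^ E.1.card := by
  classical
  set Y := hX.toFinset with hY
  have hset : X = ↑Y := by rw [hY, Set.Finite.coe_toFinset]
  rw [finsum_mem_eq_finite_toFinset_sum _ hX, ← hY, Finset.sum_mul,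
    ENNReal.ofReal_sum_of_nonneg fun E _ => mul_nonneg (pow_nonneg hy _) (pow_nonneg hz _)]
  rw [tsum_congr_set_coe (fun E : Finset (Sym2 P3) => ENNReal.ofReal y ^ span E *
    ENNReal.ofReal z ^ E.card) hset]
  refine Eq.trans ?_ (Finset.tsum_subtype Y (fun E : Finset (Sym2 P3) => ENNReal.ofReal y ^ span E *
    ENNReal.ofReal z ^ E.card)).symm
  refine Finset.sum_congr rfl fun E hE => ?_
  have hE' : E ∈ X := by
    rw [hY, Set.Finite.mem_toFinset] at hE
    exact hE
  rw [ENNReal.ofReal_mul (pow_nonneg hy _), ENNReal.ofReal_pow hy, ENNReal.ofReal_pow hz,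
    hn E hE']

open Classical in
/-- The weight of a pair of a lower half and a cap. -/
private noncomputable def yt_w (C : Finset (Sym2 P3) → Prop) (y z : ℝ) (n : ℕ)
    (l r : List P3) : ℝ≥0∞ :=
  if l.length + r.length = n ∧ C (ring (flp r ++ l)) then
    wl (ENNReal.ofReal y) (ENNReal.ofReal z) l * wl (ENNReal.ofReal y) (ENNReal.ofReal z) r else 0

/-- The chains, regrouped. -/
private theorem yt_chains (C : Finset (Sym2 P3) → Prop) (M : ℕ) (y z : ℝ) (n : ℕ) :
    SAS M y z (fun p => C (pol (toA p))) n = ∑' w : XX (II M),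
      ∑' r : {r : List P3 // Flat (vv w) r ∧ InS M ((w.2.1 : ℕ) : ℤ) r},
      ∑' l : {l : List P3 // LT (fun _ => True) 0 0 (vv w) l ∧ InS M ((w.2.1 : ℕ) : ℤ) l},
        yt_w C y z n l.1 r.1 := by
  classical
  choose e he using chain_slab (M := M)
  let E : (Σ h : HAS M, {q : HAS M × List PP // GC (vv q.1.1) q.2 ∧ CC q.1.1 q.2 h.1}) ≃ CAS M :=
    { toFun := fun q => ⟨(q.2.1.1, q.2.1.2, q.1), q.2.2⟩
      invFun := fun x => ⟨x.1.2.2, ⟨(x.1.1, x.1.2.1), x.2⟩⟩
      left_inv := fun x => rfl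
      right_inv := fun x => rfl }
  unfold SAS
  rw [← E.tsum_eq, ENNReal.tsum_sigma', ENNReal.tsum_sigma']
  refine tsum_congr fun v => tsum_congr fun r => ?_
  rw [← (e v).tsum_eq]
  refine tsum_congr fun x => ?_
  obtain ⟨h1, h2, h3⟩ := he v x
  have hl : lenA (toA (E ⟨⟨v, r⟩, x⟩)) = ((e v) x).1.length + r.1.length := by
    rw [h2]
    rfl
  have hp : pol (toA (E ⟨⟨v, r⟩, x⟩)) = ring (flp r.1 ++ ((e v) x).1) := by
    rw [h1]
    rfl
  have hw : WA y z (toA (E ⟨⟨v, r⟩, x⟩)) =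
      wl (ENNReal.ofReal y) (ENNReal.ofReal z) ((e v) x).1 *
      wl (ENNReal.ofReal y) (ENNReal.ofReal z) r.1 := by
    rw [h3]
    rfl
  unfold yt_w
  simp only [hl, hp, hw]

open Classical in
/-- The polygons, regrouped. -/
private theorem yt_poly {C : Finset (Sym2 P3) → Prop} (hC : TypeClosed C) (M : ℕ) (y z : ℝ)
    (n : ℕ) :
    2 * (∑' E : PS (fun _ => True) M, if E.1.card = n ∧ C E.1 then
        ENNReal.ofReal y ^ span E.1 * ENNReal.ofReal z ^ E.1.card else 0) =
      ENNReal.ofReal y * ∑' w : XX (II M),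
      ∑' r : {r : List P3 // Flat (vv w) r ∧ InS M ((w.2.1 : ℕ) : ℤ) r},
      ∑' l : {l : List P3 // LT (fun _ => True) 0 0 (vv w) l ∧ InS M ((w.2.1 : ℕ) : ℤ) l},
        yt_w C y z n l.1 r.1 := by
  obtain ⟨e, he⟩ := cut_slab' cls_all M
  set F : PS (fun _ => True) M → ℝ≥0∞ := fun E => if E.1.card = n ∧ C E.1 then
        ENNReal.ofReal y ^ span E.1 * ENNReal.ofReal z ^ E.1.card else 0 with hF
  have h1 : 2 * ∑' E, F E = ∑' x : PS (fun _ => True) M × Bool, F x.1 := by
    rw [ENNReal.tsum_prod', ← ENNReal.tsum_mul_left]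
    refine tsum_congr fun E => ?_
    rw [tsum_fintype, Fintype.sum_bool, two_mul]
  set G : TS (fun _ => True) M → ℝ≥0∞ :=
    fun p => ENNReal.ofReal y * yt_w C y z n p.2.1.1 p.2.2.1 with hG
  have h2 : ∀ x : PS (fun _ => True) M × Bool, F x.1 = G (e x) := by
    intro x
    obtain ⟨⟨t, ht⟩, hn, hs⟩ := he x
    have hc : C x.1.1 ↔ C (ring (flp (e x).2.2.1 ++ (e x).2.1.1)) := by
      rw [← ht]
      exact ⟨fun h => hC _ _ (sameType_shift t _).symm h, fun h => hC _ _ (sameType_shift t _) h⟩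
    simp only [hF, hG]
    unfold yt_w
    by_cases h : x.1.1.card = n ∧ C x.1.1
    · rw [if_pos h, if_pos ⟨by rw [← hn]; exact h.1, hc.1 h.2⟩, hs, hn]
      unfold wl
      rw [pow_add (ENNReal.ofReal z), pow_succ, pow_add]
      ring
    · rw [if_neg h, if_neg fun h' => h ⟨by rw [hn]; exact h'.1, hc.2 h'.2⟩, mul_zero]
  have h3 : ∑' x : PS (fun _ => True) M × Bool, F x.1 = ∑' t : TS (fun _ => True) M, G t := by
    rw [tsum_congr h2]
    exact e.tsum_eq (fun t : TS (fun _ => True) M => G t)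
  rw [h1, h3, ENNReal.tsum_sigma', ← ENNReal.tsum_mul_left]
  refine tsum_congr fun w => ?_
  rw [ENNReal.tsum_prod', ENNReal.tsum_comm, ← ENNReal.tsum_mul_left]
  let q : HS (fun _ => True) M 0 w ≃
      {r : List P3 // Flat (vv w) r ∧ InS M ((w.2.1 : ℕ) : ℤ) r} :=
    Equiv.subtypeEquivRight fun r => and_congr_left' yt_half
  rw [← q.tsum_eq]
  refine tsum_congr fun r => ?_
  rw [← ENNReal.tsum_mul_left]
  rfl

/-- As `KComp.tot_a`: the polygons with a section with two edges by `cut_slab'` (for the class of all polygons,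
`cls_all`) and `chain_slab`; `C E ↔ C (pol (toA p))` because `pol (toA p)` is a translate of `E` (`sameType_shift`); the
weight is `y WA` because `span = lspan l + lspan r + 1`. The others are `ZS0`. The sums over polygons with `n` edges:
`gen_a`, `gen_b` in `MGen.lean` (with `g` the indicator of `n`), or `finsum` of a finite set. Or: `KSC.tot_a`
(`Pool/Agent/KSC/TotA.lean`, proved) is this statement with states in `ℤ × ℤ × ℤ`; convert `SAS` to `KSC.SA` (bijection of
`CAS M` and `KSC.CS M` with the same caps and blocks). -/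
theorem tot_s {C : Finset (Sym2 P3) → Prop} (hC : TypeClosed C) (hy : 0 < y) (hz : 0 < z)
    (n : ℕ) : 2 * ENNReal.ofReal (ZS C M y n * z ^ n) =
      ENNReal.ofReal y * SAS M y z (fun p => C (pol (toA p))) n +
      2 * ENNReal.ofReal (ZS0 C M y n * z ^ n) := by
  classical
  set f : Finset (Sym2 P3) → ℝ≥0∞ := fun E =>
    ENNReal.ofReal y ^ span E * ENNReal.ofReal z ^ E.card with hf
  set X : Set (Finset (Sym2 P3)) := {E | E ∈ PSl C M ∧ E.card = n} with hX
  set X0 : Set (Finset (Sym2 P3)) := {E | E ∈ PSl C M ∧ (∀ k, ¬ IsTwo E k) ∧ E.card = n} with hX0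
  set X1 : Set (Finset (Sym2 P3)) := {E | E ∈ PSl (fun _ => True) M ∧ ∃ k, IsTwo E k} with hX1
  have hXf : X.Finite := psl_finite C M n
  have hX0f : X0.Finite := hXf.subset fun E hE => ⟨hE.1, hE.2.2⟩
  have e1 : ENNReal.ofReal (ZS C M y n * z ^ n) = ∑' E : X, f E.1 :=
    yt_sum hy.le hz.le hXf n fun E hE => hE.2
  have e0 : ENNReal.ofReal (ZS0 C M y n * z ^ n) = ∑' E : X0, f E.1 :=
    yt_sum hy.le hz.le hX0f n fun E hE => hE.2.2
  have hsplit : ∑' E : X, f E.1 = (∑' E : PS (fun _ => True) M,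
      if E.1.card = n ∧ C E.1 then f E.1 else 0) + ∑' E : X0, f E.1 := by
    have h1 : ∑' E : X, f E.1 = ∑' E, Set.indicator X f E := tsum_subtype X f
    have h2 : ∑' E : PS (fun _ => True) M, (if E.1.card = n ∧ C E.1 then f E.1 else 0) =
        ∑' E, Set.indicator X1 (fun E => if E.card = n ∧ C E then f E else 0) E :=
      tsum_subtype X1 (fun E => if E.card = n ∧ C E then f E else 0)
    have h3 : ∑' E : X0, f E.1 = ∑' E, Set.indicator X0 f E := tsum_subtype X0 f
    rw [h1, h2, h3, ← ENNReal.tsum_add]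
    refine tsum_congr fun E => ?_
    by_cases hE : E ∈ X
    · have hE' : E ∈ PSl (fun _ => True) M := ⟨hE.1.1, trivial, hE.1.2.2⟩
      rw [Set.indicator_of_mem hE]
      by_cases hk : ∃ k, IsTwo E k
      · rw [Set.indicator_of_mem (show E ∈ X1 from ⟨hE', hk⟩), if_pos ⟨hE.2, hE.1.2.1⟩,
          Set.indicator_of_notMem (fun h : E ∈ X0 => hk.elim fun k hk => h.2.1 k hk), add_zero]
      · rw [Set.indicator_of_notMem (fun h : E ∈ X1 => hk h.2),
          Set.indicator_of_mem (show E ∈ X0 from ⟨hE.1, fun k h => hk ⟨k, h⟩, hE.2⟩), zero_add]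
    · have h5 : Set.indicator X1 (fun E => if E.card = n ∧ C E then f E else 0) E = 0 := by
        by_cases hE1 : E ∈ X1
        · rw [Set.indicator_of_mem hE1, if_neg fun h => hE ⟨⟨hE1.1.1, h.2, hE1.1.2.2⟩, h.1⟩]
        · exact Set.indicator_of_notMem hE1 _
      rw [Set.indicator_of_notMem hE, h5,
        Set.indicator_of_notMem (fun h : E ∈ X0 => hE ⟨h.1, h.2.2⟩), add_zero]
  rw [e1, e0, hsplit, mul_add]
  congr 1
  rw [yt_poly hC M y z n, yt_chains C M y z n]

end Pool.Agent.KSlab
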