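import Pool.Agent.KSlab.YLim
import Pool.Agent.KSlab.YTot

/-! SY5: the partition function of a type with at most `N` prime factors. -/

set_option autoImplicit false

open Pool.Agent.LK Filter Topology
open scoped ENNReal

namespace Pool.Agent.KSlab

open Pool.Agent.KTube Pool.Agent.KRing Pool.Agent.KLog Pool.Agent.KCls
open Pool.Agent.KTop (TypeN)

variable {M : ℕ} {y z : ℝ} {h : II M → ℝ} {T : Finset (Sym2 P3) → Prop} {N : ℕ}

/-- `tot_s`: `ZS n z ^ n = y / 2 (SAS n).toReal + ZS0 n z ^ n`, and `ZS0 n z ^ n ≤ C 2 ^ (-n)` (`u_sum`); `type_sas`. -/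
theorem type_zs (hC : CritS Unknotted y z h) (hT : TypeClosed T)
    (hF : ∀ E, T E → KTen.Few N E) : ∃ B : ℝ, 0 ≤ B ∧
    Tendsto (fun k : ℕ => ZS T M y (2 * k) /
      (z⁻¹ ^ (2 * k) * ((2 * k : ℕ) : ℝ) ^ (N - 3 / 2 : ℝ))) atTop (𝓝 B) ∧
    ((∃ w ∈ WT T N, RealW M w) → 0 < B) := by
  obtain ⟨B, hB, hfin, hlim, hpos⟩ := type_sas hC hT hF
  have hy := hC.y_pos
  have hz := hC.z_pos
  refine ⟨y / 2 * B, by positivity, ?_, fun hw => mul_pos (by positivity) (hpos hw)⟩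
  have nz : ∀ n, 0 ≤ ZS T M y n * z ^ n := fun n =>
    mul_nonneg (finsum_nonneg fun E => finsum_nonneg fun _ => pow_nonneg hy.le _)
      (pow_nonneg hz.le _)
  have n0 : ∀ n, 0 ≤ ZS0 T M y n * z ^ n := fun n =>
    mul_nonneg (finsum_nonneg fun E => finsum_nonneg fun _ => pow_nonneg hy.le _)
      (pow_nonneg hz.le _)
  have key : ∀ n, ZS T M y n * z ^ n =
      y / 2 * (SAS M y z (fun p => T (KComp.pol (toA p))) n).toReal + ZS0 T M y n * z ^ n := by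
    intro n
    have h1 := congrArg ENNReal.toReal (tot_s (M := M) hT hy hz n)
    rw [ENNReal.toReal_add (ENNReal.mul_ne_top ENNReal.ofReal_ne_top (hfin n))
      (ENNReal.mul_ne_top ENNReal.ofNat_ne_top ENNReal.ofReal_ne_top), ENNReal.toReal_mul,
      ENNReal.toReal_mul, ENNReal.toReal_mul, ENNReal.toReal_ofReal (nz n),
      ENNReal.toReal_ofReal (n0 n), ENNReal.toReal_ofReal hy.le, ENNReal.toReal_ofNat] at h1
    linarith
  have h2k : Tendsto (fun k : ℕ => 2 * k) atTop atTop :=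
    tendsto_id.const_mul_atTop' two_pos
  have hu := (u_sum (T := T) (M := M) hy hz hC.z_le hC.q_le).tendsto_atTop_zero
  have hp : Tendsto (fun n : ℕ => ((n : ℝ) ^ 2 / 2 ^ n)) atTop (𝓝 0) :=
    tendsto_pow_const_div_const_pow_of_one_lt 2 one_lt_two
  have hq := (hu.mul hp).comp h2k
  rw [mul_zero] at hq
  have h0 : Tendsto (fun k : ℕ => ZS0 T M y (2 * k) * z ^ (2 * k) *
      ((2 * k : ℕ) : ℝ) ^ (3 / 2 - N : ℝ)) atTop (𝓝 0) := by
    refine squeeze_zero' (Eventually.of_forall fun k => mul_nonneg (n0 _) (by positivity)) ?_ hq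
    filter_upwards [eventually_ge_atTop 1] with k hk
    have hk1 : (1 : ℝ) ≤ ((2 * k : ℕ) : ℝ) := by
      exact_mod_cast (by omega : 1 ≤ 2 * k)
    have h3 : ((2 * k : ℕ) : ℝ) ^ (3 / 2 - N : ℝ) ≤ ((2 * k : ℕ) : ℝ) ^ 2 := by
      rw [← Real.rpow_natCast]
      refine Real.rpow_le_rpow_of_exponent_le hk1 ?_
      have : (0 : ℝ) ≤ N := Nat.cast_nonneg N
      push_cast
      linarith
    have h4 : (2 : ℝ) ^ (2 * k) * (ZS0 T M y (2 * k) * z ^ (2 * k)) *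
        (((2 * k : ℕ) : ℝ) ^ 2 / 2 ^ (2 * k)) =
        ZS0 T M y (2 * k) * z ^ (2 * k) * ((2 * k : ℕ) : ℝ) ^ 2 := by
      field_simp
    show _ ≤ (2 : ℝ) ^ (2 * k) * (ZS0 T M y (2 * k) * z ^ (2 * k)) *
        (((2 * k : ℕ) : ℝ) ^ 2 / 2 ^ (2 * k))
    rw [h4]
    exact mul_le_mul_of_nonneg_left h3 (n0 _)
  have h1 := (hlim.const_mul (y / 2)).add h0
  rw [add_zero] at h1
  refine h1.congr fun k => ?_
  have h5 : ((2 * k : ℕ) : ℝ) ^ (3 / 2 - N : ℝ) = (((2 * k : ℕ) : ℝ) ^ (N - 3 / 2 : ℝ))⁻¹ := by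
    rw [← Real.rpow_neg (Nat.cast_nonneg _)]
    congr 1
    ring
  rw [← mul_assoc, ← add_mul, ← key, h5, inv_pow, div_mul_eq_div_div, div_inv_eq_mul]
  exact (div_eq_mul_inv _ _).symm

end Pool.Agent.KSlab
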