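import Pool.Agent.KSlab.SDefs
import Pool.Agent.KTen.Group

/-! SY7: knot types with respect to a group of homeomorphisms in the slab. -/

set_option autoImplicit false

open Pool.Agent.LK
open scoped ENNReal

namespace Pool.Agent.KSlab

open Pool.Agent.KTube Pool.Agent.KTen

private theorem zset_finite (T : Finset (Sym2 P3) → Prop) (M n : ℕ) :
    {E | E ∈ PSl T M ∧ E.card = n}.Finite := by
  classical
  set B : Finset P3 := Finset.Icc (0 : ℤ) n ×ˢ (Finset.Icc (0 : ℤ) M ×ˢ Finset.Icc (0 : ℤ) n)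
    with hB
  refine Set.Finite.subset (Finset.finite_toSet ((B.sym2).powerset)) ?_
  rintro E ⟨⟨hE, -, hS⟩, hn⟩
  rw [Finset.mem_coe, Finset.mem_powerset]
  intro e he
  rw [Finset.mem_sym2_iff]
  intro u hu
  have huE : u ∈ verts E := by
    induction e using Sym2.ind with
    | _ x y =>
      rw [Sym2.mem_iff] at hu
      rcases hu with rfl | rfl
      · exact left_mem_verts he
      · exact right_mem_verts he
  obtain ⟨hS1, ⟨w, hw, hw0⟩, v, hv, hv0⟩ := hS
  have h1 := (diam_le hE huE hw).1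
  have h2 := (diam_le hE huE hv).2.2
  have h3 := hS1 u huE
  simp only [Prod.fst_sub, hw0, sub_zero] at h1
  simp only [Prod.snd_sub, hv0, sub_zero] at h2
  rw [hn] at h1 h2
  have h4 := le_abs_self u.1
  have h5 := le_abs_self u.2.2
  rw [hB]
  simp only [Finset.mem_product, Finset.mem_Icc]
  exact ⟨⟨h3.1, by omega⟩, ⟨h3.2.1, h3.2.2.1⟩, h3.2.2.2, by omega⟩

private theorem zset_flipY {M n : ℕ} {C : Finset (Sym2 P3) → Prop} {E : Finset (Sym2 P3)}
    (hE : E ∈ PSl C M ∧ E.card = n) :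
    mapE (flipY M) E ∈ PSl (fun F => C (mapE (flipY M) F)) M ∧ (mapE (flipY M) E).card = n := by
  obtain ⟨⟨h1, h2, h3, h4, h5⟩, h6⟩ := hE
  refine ⟨⟨isPolygon_flipY M h1, ?_, ?_, ?_, ?_⟩, ?_⟩
  · change C (mapE (flipY M) (mapE (flipY M) E))
    rw [mapE_flipY_flipY]; exact h2
  · rintro u ⟨v, hv⟩
    rw [mem_flipY] at hv
    have := h3 (flipY M u) (left_mem_verts hv)
    simp only [flipY] at this
    omega
  · obtain ⟨u, ⟨v, hv⟩, hu⟩ := h4
    refine ⟨flipY M u, ⟨flipY M v, ?_⟩, hu⟩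
    rw [mem_flipY, flipY_flipY, flipY_flipY]
    exact hv
  · obtain ⟨u, ⟨v, hv⟩, hu⟩ := h5
    refine ⟨flipY M u, ⟨flipY M v, ?_⟩, hu⟩
    rw [mem_flipY, flipY_flipY, flipY_flipY]
    exact hv
  · rw [← h6]
    exact Finset.card_image_of_injective _ (Sym2.map.injective (flipY_inj M))

private theorem zs_flipY (M : ℕ) (y : ℝ) (C : Finset (Sym2 P3) → Prop) (n : ℕ) :
    ZS (fun F => C (mapE (flipY M) F)) M y n = ZS C M y n := by
  unfold ZS
  have himg : {E | E ∈ PSl (fun F => C (mapE (flipY M) F)) M ∧ E.card = n} =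
      mapE (flipY M) '' {E | E ∈ PSl C M ∧ E.card = n} := by
    ext E
    constructor
    · intro hE
      refine ⟨mapE (flipY M) E, ?_, mapE_flipY_flipY M E⟩
      have := zset_flipY hE
      simpa [mapE_flipY_flipY] using this
    · rintro ⟨F, hF, rfl⟩
      exact zset_flipY hF
  have hinj : Set.InjOn (mapE (flipY M)) {E | E ∈ PSl C M ∧ E.card = n} := by
    intro E _ F _ h
    have := congrArg (mapE (flipY M)) h
    rwa [mapE_flipY_flipY, mapE_flipY_flipY] at this
  rw [himg, finsum_mem_image hinj]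
  exact finsum_mem_congr rfl fun E _ => by rw [span_flipY]

/-- As `KTen.zt_gclass`: the reflection of the second coordinate `y ↦ M - y` maps the polygons in the slab to polygons in
the slab and preserves `SNormed`, the span and the number of edges. -/
theorem zs_gclass {G : Subgroup (R3 ≃ₜ R3)} (hT : ∀ t : R3, Homeomorph.addRight t ∈ G)
    (hG : ∀ φ : R3 ≃ₜ R3, φ ∈ G ∨ φ * negY ∈ G) (K : Finset (Sym2 P3)) :
    (∀ M y n, ZS (GClass G K) M y n = ZS (KClass K) M y n) ∨
    ∀ M y n, 2 * ZS (GClass G K) M y n = ZS (KClass K) M y n := by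
  rcases class_dichotomy hT hG K with h | h
  · left
    intro M y n
    have : KClass K = GClass G K := funext fun E => propext (h E)
    rw [this]
  · right
    intro M y n
    obtain ⟨h1, h2⟩ := h M
    have e1 : {E | E ∈ PSl (KClass K) M ∧ E.card = n} =
        {E | E ∈ PSl (GClass G K) M ∧ E.card = n} ∪
        {E | E ∈ PSl (fun F => GClass G K (mapE (flipY M) F)) M ∧ E.card = n} := by
      ext E
      constructor
      · rintro ⟨⟨p1, p2, p3⟩, p5⟩
        rcases (h1 E).1 p2 with p4 | p4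
        · exact Or.inl ⟨⟨p1, p4, p3⟩, p5⟩
        · exact Or.inr ⟨⟨p1, p4, p3⟩, p5⟩
      · rintro (⟨⟨p1, p2, p3⟩, p5⟩ | ⟨⟨p1, p2, p3⟩, p5⟩)
        · exact ⟨⟨p1, (h1 E).2 (Or.inl p2), p3⟩, p5⟩
        · exact ⟨⟨p1, (h1 E).2 (Or.inr p2), p3⟩, p5⟩
    have e2 : Disjoint {E | E ∈ PSl (GClass G K) M ∧ E.card = n}
        {E | E ∈ PSl (fun F => GClass G K (mapE (flipY M) F)) M ∧ E.card = n} := by
      rw [Set.disjoint_left]
      rintro E ⟨⟨-, p2, -⟩, -⟩ ⟨⟨-, q2, -⟩, -⟩
      exact h2 E ⟨p2, q2⟩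
    have e3 := zs_flipY M y (GClass G K) n
    unfold ZS at e3 ⊢
    rw [e1, finsum_mem_union e2 (zset_finite _ _ _) (zset_finite _ _ _), e3]
    ring

/-- The polygons are the same. -/
theorem zs_type (K : Finset (Sym2 P3)) (M : ℕ) (y : ℝ) (n : ℕ) :
    ZS (SameType K) M y n = ZS (KClass K) M y n := by
  have e1 : PSl (SameType K) M = PSl (KClass K) M := by
    ext E
    exact ⟨fun h => ⟨h.1, ⟨h.1, h.2.1⟩, h.2.2⟩, fun h => ⟨h.1, h.2.1.2, h.2.2⟩⟩
  unfold ZS
  rw [e1]

end Pool.Agent.KSlab
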