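import Pool.Agent.KSlab.MSumF
import Pool.Agent.KSlab.MFl
import Pool.Agent.KSlab.XDefs

/-! SY8: the growth rates of two classes in the slab. -/

set_option autoImplicit false

open Pool.Agent.LK
open scoped ENNReal

namespace Pool.Agent.KSlab

open Pool.Agent.KTube Pool.Agent.KRing Pool.Agent.KLog Pool.Agent.KCls
open Pool.Agent.KAsym (ln wtR wlR)

variable {T T' : Finset (Sym2 P3) → Prop} {M : ℕ} {y z z' : ℝ} {h h' : II M → ℝ}

private theorem ylt_mono (hTT : ∀ E, T E → T' E) {π : PP} (h : FreeT T π) : FreeT T' π := by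
  obtain ⟨v, hv, hg, l, hl, hab, hlow, r, hr, A, hA, hTA⟩ := h
  exact ⟨v, hv, hg, l, hl, hab, hlow, r, hr, A, hA, hTT A hTA⟩

private theorem ylt_term (hy : 0 < y) (hz : 0 < z) (π : PP) :
    ENNReal.ofReal (wtR y z π) ≤ wt (ENNReal.ofReal y) (ENNReal.ofReal z) π *
      2 ^ ln π * 576 ^ nh π := by
  rw [← wt_eq hy hz]
  have h1 : (1 : ℝ≥0∞) ≤ 2 ^ ln π := one_le_pow₀ (by norm_num)
  have h2 : (1 : ℝ≥0∞) ≤ 576 ^ nh π := one_le_pow₀ (by norm_num)
  calc wt (ENNReal.ofReal y) (ENNReal.ofReal z) π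
      = wt (ENNReal.ofReal y) (ENNReal.ofReal z) π * 1 * 1 := by rw [mul_one, mul_one]
    _ ≤ _ := mul_le_mul' (mul_le_mul' le_rfl h1) h2

private theorem ylt_aux {α : Type} {f : α → ℝ} (hf : ∀ a, 0 ≤ f a) {S : ℝ≥0∞} (hS : S ≠ ⊤)
    (h : ∑' a, ENNReal.ofReal (f a) ≤ S) : Summable f := by
  refine (sum_of hf (c := S.toReal) ENNReal.toReal_nonneg ?_).1
  rwa [ENNReal.ofReal_toReal hS]

private theorem ylt_sle (hy : 0 < y) (hz : 0 < z) (i j : II M) :
    ∑' π : {π : PP // FreeT T π ∧ CB i j π}, ENNReal.ofReal (wtR y z π.1) ≤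
      ∑' π : {π : PP // ∃ v, Geo v π}, wt (ENNReal.ofReal y) (ENNReal.ofReal z) π.1 *
        2 ^ ln π.1 * 576 ^ nh π.1 := by
  have h6 := ENNReal.tsum_comp_le_tsum_of_injective
    (f := fun π : {π : PP // FreeT T π ∧ CB i j π} =>
      (⟨π.1, by
        obtain ⟨v, -, hv⟩ := π.2.1
        exact ⟨v, hv.1⟩⟩ : {π : PP // ∃ v, Geo v π}))
    (fun a c hac => Subtype.ext (Subtype.mk.inj hac))
    (fun π : {π : PP // ∃ v, Geo v π} => wt (ENNReal.ofReal y) (ENNReal.ofReal z) π.1 *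
      2 ^ ln π.1 * 576 ^ nh π.1)
  have h7 : ∑' π : {π : PP // FreeT T π ∧ CB i j π}, ENNReal.ofReal (wtR y z π.1) ≤
      ∑' π : {π : PP // FreeT T π ∧ CB i j π}, wt (ENNReal.ofReal y) (ENNReal.ofReal z) π.1 *
        2 ^ ln π.1 * 576 ^ nh π.1 := ENNReal.tsum_le_tsum fun π => ylt_term hy hz π.1
  exact h7.trans h6

private theorem ylt_summ (hy : 0 < y) (hz : 0 < z) (hz1 : z ≤ 1 / 10 ^ 12) (hq : y * z ^ 2 ≤ 1)
    (i j : II M) : Summable fun π : {π : PP // FreeT T π ∧ CB i j π} => wtR y z π.1 :=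
  ylt_aux (fun π => wtR_nn hy hz π.1) (geo_fin hy hz hz1 hq) (ylt_sle hy hz i j)

private theorem ylt_wtR (hy : 0 < y) (hz : 0 < z) (hzz : z ≤ z') (π : PP) :
    wtR y z π ≤ wtR y z' π := by
  unfold wtR
  exact mul_le_mul_of_nonneg_left (pow_le_pow_left₀ hz.le hzz _) (by positivity)

/-- The set of free pairs of the smaller class inside the one of the larger class. -/
private def yltInc (hTT : ∀ E, T E → T' E) (i j : II M) :
    {π : PP // FreeT T π ∧ CB i j π} → {π : PP // FreeT T' π ∧ CB i j π} :=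
  fun π => ⟨π.1, ylt_mono hTT π.2.1, π.2.2⟩

private theorem yltInc_inj (hTT : ∀ E, T E → T' E) (i j : II M) :
    Function.Injective (yltInc hTT i j) :=
  fun _ _ hac => Subtype.ext (Subtype.mk.inj hac)

private theorem ylt_le (hy : 0 < y) (hz : 0 < z) (hz1 : z ≤ 1 / 10 ^ 12) (hq : y * z ^ 2 ≤ 1)
    (hz1' : z' ≤ 1 / 10 ^ 12) (hq' : y * z' ^ 2 ≤ 1) (hzz : z ≤ z')
    (hTT : ∀ E, T E → T' E) (i j : II M) : FM T y z i j ≤ FM T' y z' i j := by
  have hz' : 0 < z' := hz.trans_le hzz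
  exact (ylt_summ hy hz hz1 hq i j).tsum_le_tsum_of_inj (yltInc hTT i j) (yltInc_inj hTT i j)
    (fun π _ => wtR_nn hy hz' π.1) (fun π => ylt_wtR hy hz hzz π.1)
    (ylt_summ hy hz' hz1' hq' i j)

private theorem ylt_lt (hy : 0 < y) (hz : 0 < z) (hz1 : z ≤ 1 / 10 ^ 12) (hq : y * z ^ 2 ≤ 1)
    (hz1' : z' ≤ 1 / 10 ^ 12) (hq' : y * z' ^ 2 ≤ 1) (hzz : z ≤ z')
    (hTT : ∀ E, T E → T' E) {π : PP} (h1 : FreeT T' π) (h2 : ¬ FreeT T π) {i j : II M}
    (h3 : CB i j π) : FM T y z i j < FM T' y z' i j := by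
  classical
  have hz' : 0 < z' := hz.trans_le hzz
  have hs' := ylt_summ (T := T') hy hz' hz1' hq' i j
  have hs := ylt_summ (T := T) hy hz hz1 hq i j
  set p : {π : PP // FreeT T' π ∧ CB i j π} := ⟨π, h1, h3⟩ with hp
  have e1 := hs'.tsum_eq_add_tsum_ite p
  have hpos : 0 < wtR y z' p.1 := by
    unfold wtR
    positivity
  have hs'' : Summable fun π' : {π : PP // FreeT T' π ∧ CB i j π} =>
      if π' = p then 0 else wtR y z' π'.1 := by
    refine Summable.of_nonneg_of_le (fun π' => ?_) (fun π' => ?_) hs'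
    · split_ifs
      · exact le_rfl
      · exact wtR_nn hy hz' π'.1
    · split_ifs
      · exact wtR_nn hy hz' π'.1
      · exact le_rfl
  have e2 : FM T y z i j ≤ ∑' π' : {π : PP // FreeT T' π ∧ CB i j π},
      if π' = p then 0 else wtR y z' π'.1 := by
    refine hs.tsum_le_tsum_of_inj (yltInc hTT i j) (yltInc_inj hTT i j)
      (fun π' _ => ?_) (fun π' => ?_) hs''
    · split_ifs
      · exact le_rfl
      · exact wtR_nn hy hz' π'.1
    · have hne : yltInc hTT i j π' ≠ p := by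
        intro he
        refine h2 ?_
        have h4 : π'.1 = π := congrArg Subtype.val he
        rw [← h4]
        exact π'.2.1
      rw [if_neg hne]
      exact ylt_wtR hy hz hzz π'.1
  have e3 : FM T' y z' i j = wtR y z' p.1 + ∑' π' : {π : PP // FreeT T' π ∧ CB i j π},
      if π' = p then 0 else wtR y z' π'.1 := e1
  rw [e3]
  linarith

private theorem ylt_symm (hC : CritS T y z h) (i j : II M) :
    FM T y z j i = FM T y z i j := by
  rw [← (f_tot (h := h) hC.y_pos hC.z_pos hC.z_le hC.q_le i j).2,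
    ← (f_tot (h := h) hC.y_pos hC.z_pos hC.z_le hC.q_le j i).2]
  exact tsum_congr fun p => f_symm hC.cls p.1 p.2 i j

/-- `FM` is symmetric (`f_symm`, `f_tot`; or `free_flT`, `cx_fl`) and increasing in `z` (each term is a nonnegative power of
`z`) and in the class. `∑ h_i FM T z i j h'_j = ∑ h_i h'_i = ∑ h_i FM T' z' i j h'_j`. Suppose `z ≤ z'`; then
`FM T z ≤ FM T' z'` termwise with strict inequality for one pair `i`, `j` (the word `π`), a contradiction. -/
theorem crit_lt (hC : CritS T y z h) (hC' : CritS T' y z' h') (hTT : ∀ E, T E → T' E)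
    {π : PP} (h1 : FreeT T' π) (h2 : ¬ FreeT T π) {i j : II M} (h3 : CB i j π) : z' < z := by
  by_contra hcon
  rw [not_lt] at hcon
  have a1 : ∑ a, ∑ b, h a * FM T y z a b * h' b = ∑ b, h b * h' b := by
    rw [Finset.sum_comm]
    refine Finset.sum_congr rfl fun b _ => ?_
    rw [← Finset.sum_mul]
    congr 1
    rw [← hC.h_eq b]
    refine Finset.sum_congr rfl fun a _ => ?_
    rw [ylt_symm hC b a]
    ring
  have a2 : ∑ a, ∑ b, h a * FM T' y z' a b * h' b = ∑ b, h b * h' b := by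
    refine Finset.sum_congr rfl fun a _ => ?_
    rw [← hC'.h_eq a, Finset.mul_sum]
    refine Finset.sum_congr rfl fun b _ => ?_
    ring
  have hle := ylt_le (T := T) (T' := T') (M := M) hC.y_pos hC.z_pos hC.z_le hC.q_le hC'.z_le
    hC'.q_le hcon hTT
  have hlt := ylt_lt (T := T) (T' := T') (M := M) hC.y_pos hC.z_pos hC.z_le hC.q_le hC'.z_le
    hC'.q_le hcon hTT h1 h2 h3
  have t : ∀ a b, h a * FM T y z a b * h' b ≤ h a * FM T' y z' a b * h' b := fun a b =>
    mul_le_mul_of_nonneg_right (mul_le_mul_of_nonneg_left (hle a b) (hC.h_pos a).le)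
      (hC'.h_pos b).le
  have a3 : ∑ a, ∑ b, h a * FM T y z a b * h' b < ∑ a, ∑ b, h a * FM T' y z' a b * h' b := by
    refine Finset.sum_lt_sum (fun a _ => Finset.sum_le_sum fun b _ => t a b)
      ⟨i, Finset.mem_univ _, ?_⟩
    refine Finset.sum_lt_sum (fun b _ => t i b) ⟨j, Finset.mem_univ _, ?_⟩
    exact mul_lt_mul_of_pos_right (mul_lt_mul_of_pos_left hlt (hC.h_pos i)) (hC'.h_pos j)
  rw [a1, a2] at a3
  exact lt_irrefl _ a3

private theorem ylt_true {k : ℤ} {a b : ℤ × ℤ} {l : List P3} (hab : a ≠ b)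
    (hl : Lower k a b l) : LT (fun _ => True) k a b l := by
  obtain ⟨r, hr⟩ := exists_UU' (k := k) hab
  obtain ⟨C, hC⟩ := exists_lowClose (ring_of hab hr.2.1 hl).isPolygon
    (isTwo_ring_of hab hr.2.1 hl)
  exact ⟨hab, hl, r, hr.2.1, C, hC, trivial⟩

/-- A far knotted block is free for the class of all polygons and not for the class of the unknot (`valid_far`,
`validT` of the class of the unknot is `Valid`). -/
theorem knF_free {π : PP} (h : KnF π) :
    FreeT (fun _ => True) π ∧ ¬ FreeT Unknotted π := by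
  obtain ⟨v, hv, hg, hu⟩ := h
  constructor
  · obtain ⟨l, hl, -⟩ := exists_flat hg.ne
    exact ⟨v, hv, hg, l, hl, ylt_true hg.ne' (hg.block.lower hl.2.1)⟩
  · intro hf
    exact hu ((valid_far cls_unknotted hv).2 hf).2

end Pool.Agent.KSlab
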