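import Pool.Agent.KSlab.YSplit
import Pool.Agent.KComp.Final

/-! SY6: every type with exactly `N` prime factors is realised by far knotted blocks, in every
sufficiently wide slab. -/

set_option autoImplicit false

open Pool.Agent.LK Filter Topology
open scoped ENNReal

namespace Pool.Agent.KComp

open Pool.Agent.KTube Pool.Agent.KRing Pool.Agent.KLog
open Pool.Agent.KAsym (ln)
open Pool.Agent.KAmp (sys)
open Pool.Agent.KTen (Zt)
open Pool.Agent.KTop (TypeN)

variable {y z : ℝ}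

/-- No condition on the marks. -/
private def truL (L : List PP) : List ((ℤ × ℤ → Prop) × PP) :=
  L.map fun π => ((fun _ => True), π)

/-- The mark `i` near the origin. -/
private def nrL (R : ℕ) (L : List PP) (i : Fin L.length) : List ((ℤ × ℤ → Prop) × PP) :=
  truL (L.take i) ++ ((fun v => nrm v ≤ R), L[i]) :: truL (L.drop (i + 1))

private theorem mat_tru (ms : List ((ℤ × ℤ) × PP)) : Mat ms (truL (ms.map Prod.snd)) := by
  unfold Mat truL
  induction ms with
  | nil => simp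
  | cons m ms ih =>
    rw [List.map_cons, List.map_cons, List.forall₂_cons]
    exact ⟨⟨rfl, trivial⟩, ih⟩

private theorem mat_near {R : ℕ} (ms : List ((ℤ × ℤ) × PP)) (L : List PP)
    (hL : ms.map Prod.snd = L) (hn : ¬ ∀ m ∈ ms, R < nrm m.1) :
    ∃ i : Fin L.length, Mat ms (nrL R L i) := by
  induction ms generalizing L with
  | nil => simp at hn
  | cons m ms ih =>
    subst hL
    by_cases hm : R < nrm m.1
    · have h1 : ¬ ∀ m ∈ ms, R < nrm m.1 := by
        intro h
        exact hn fun m' hm' => by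
          rcases List.mem_cons.1 hm' with rfl | hm'
          · exact hm
          · exact h m' hm'
      obtain ⟨i, hi⟩ := ih _ rfl h1
      refine ⟨i.succ, ?_⟩
      unfold nrL Mat at hi ⊢
      exact List.Forall₂.cons ⟨rfl, trivial⟩ hi
    · refine ⟨⟨0, by simp⟩, ?_⟩
      unfold nrL Mat
      exact List.Forall₂.cons ⟨rfl, not_lt.1 hm⟩ (mat_tru ms)

private theorem snd_tru (L : List PP) : (truL L).map Prod.snd = L := by
  unfold truL
  rw [List.map_map]
  exact List.map_id' L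

private theorem snd_nr (R : ℕ) (L : List PP) (i : Fin L.length) :
    (nrL R L i).map Prod.snd = L := by
  unfold nrL
  rw [List.map_append, List.map_cons, snd_tru, snd_tru]
  simp

private theorem ln_snd (M : List ((ℤ × ℤ → Prop) × PP)) :
    (M.map fun q => ln q.2).sum = ((M.map Prod.snd).map ln).sum := by
  rw [List.map_map]
  rfl

private theorem sa_le {ι : Type} [Fintype ι] (Q : CA → Prop) (P : ι → CA → Prop)
    (hQ : ∀ x, Q x → ∃ i, P i x) (n : ℕ) : SA y z Q n ≤ ∑ i, SA y z (P i) n := by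
  classical
  unfold SA
  rw [← Summable.tsum_finsetSum fun i _ => ENNReal.summable]
  refine ENNReal.tsum_le_tsum fun x => ?_
  split_ifs with h
  · obtain ⟨i, hi⟩ := hQ x h.2
    calc WA y z x = if lenA x = n ∧ P i x then WA y z x else 0 := by rw [if_pos ⟨h.1, hi⟩]
      _ ≤ _ := Finset.single_le_sum
        (f := fun j => if lenA x = n ∧ P j x then WA y z x else 0) (fun _ _ => zero_le)
        (Finset.mem_univ i)
  · exact zero_le

private theorem ww_ne_top (s : List PP) : ww y z s ≠ ⊤ := by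
  induction s with
  | nil => rw [ww_nil]; exact ENNReal.one_ne_top
  | cons π s ih =>
    rw [ww_cons]
    refine ENNReal.mul_ne_top ?_ ih
    unfold wt
    exact ENNReal.mul_ne_top (ENNReal.pow_ne_top ENNReal.ofReal_ne_top)
      (ENNReal.pow_ne_top ENNReal.ofReal_ne_top)

private theorem tq_fin (h : Cr y z) {qs : List ((ℤ × ℤ → Prop) × (ℤ × ℤ))} (hqs : GapOk qs)
    (a : ℕ) : ∀ᶠ k : ℕ in atTop, TQ y z UH qs (2 * k - a) ≠ ⊤ := by
  obtain ⟨C, hC, n0, hn⟩ := tq_bound h qs.length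
  filter_upwards [eventually_ge_atTop (n0 + a)] with k hk
  have h1 := hn (2 * k) (by omega) (even_two_mul k) qs rfl hqs (2 * k - a) a (by omega)
  have h2 : TQ y z UH qs (2 * k - a) ≤ TQ y z (fun _ => True) qs (2 * k - a) :=
    tq_mono (fun _ _ => trivial) (List.forall₂_same.2 fun q _ => ⟨fun _ h => h, rfl⟩) _
  refine ne_top_of_le_ne_top ?_ (h2.trans h1)
  refine ENNReal.mul_ne_top (ENNReal.mul_ne_top (ENNReal.mul_ne_top (ENNReal.mul_ne_top hC
    (ENNReal.pow_ne_top (ENNReal.natCast_ne_top _))) (h.fin _)) (ENNReal.pow_ne_top (by simp))) ?_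
  have h3 : ∀ l : List ((ℤ × ℤ → Prop) × (ℤ × ℤ)),
      (l.map fun p => (80 : ℝ≥0∞) ^ nrm p.2).prod ≠ ⊤ := by
    intro l
    induction l with
    | nil => simp
    | cons p l ih =>
      rw [List.map_cons, List.prod_cons]
      exact ENNReal.mul_ne_top (ENNReal.pow_ne_top (by norm_num)) ih
  exact h3 qs

private theorem sa_mat (M : List ((ℤ × ℤ → Prop) × PP)) (L : List PP) (hM : M.map Prod.snd = L)
    {n : ℕ} (hn : (L.map ln).sum ≤ n) :
    SA y z (fun x => UH x.1.1 ∧ UH x.1.2.2 ∧ Mat (mkA x) M) n =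
      ww y z L * TQ y z UH (gaps M) (n - (L.map ln).sum) := by
  have h1 := mark_id (y := y) (z := z) UH M (n - (L.map ln).sum)
  rw [ln_snd, hM, Nat.sub_add_cancel hn] at h1
  exact h1

private theorem near_lim (h : Cr y z) (L : List PP) (R : ℕ) (i : Fin L.length) :
    Tendsto (fun k : ℕ => (SA y z (fun x => UH x.1.1 ∧ UH x.1.2.2 ∧
      Mat (mkA x) (nrL R L i)) (2 * k)).toReal /
      (((2 * k : ℕ) : ℝ) ^ L.length * ((sys y z).tot (2 * k)).toReal)) atTop (𝓝 0) := by
  have hg : gaps (nrL R L i) = gaps (truL (L.take i)) ++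
      ((fun v => nrm v ≤ R ∧ Kn v L[i]), dsp L[i]) :: gaps (truL (L.drop (i + 1))) := by
    unfold gaps nrL
    rw [List.map_append, List.map_cons]
  have hlen : (gaps (truL (L.take i))).length + (gaps (truL (L.drop (i + 1)))).length + 1 =
      L.length := by
    unfold gaps truL
    simp only [List.length_map, List.length_take, List.length_drop]
    have := i.2
    omega
  have hok : GapOk (gaps (truL (L.take i)) ++
      ((fun v => nrm v ≤ R ∧ Kn v L[i]), dsp L[i]) :: gaps (truL (L.drop (i + 1)))) := by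
    rw [← hg]
    exact gapOk_gaps _
  have h1 := near_l h hok (R := R) (fun v hv => hv.1) (L.map ln).sum
  rw [hlen] at h1
  have h2 := h1.const_mul (ww y z L).toReal
  rw [mul_zero] at h2
  refine h2.congr' ?_
  filter_upwards [eventually_ge_atTop (L.map ln).sum] with k hk
  rw [sa_mat _ L (snd_nr R L i) (by omega), hg, ENNReal.toReal_mul, mul_div_assoc]

private theorem word_zero (h : Cr y z) {T : Finset (Sym2 P3) → Prop} (L : List KW)
    (hno : ∀ x : CA, T (pol x) → UH x.1.1 → UH x.1.2.2 →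
      (mkA x).map Prod.snd = L.map Subtype.val → ¬ ∀ m ∈ mkA x, nh m.2 < nrm m.1) :
    Tendsto (fun k : ℕ => (SA y z (fun x => T (pol x) ∧ UH x.1.1 ∧ UH x.1.2.2 ∧
      (mkA x).map Prod.snd = L.map Subtype.val) (2 * k)).toReal /
      (((2 * k : ℕ) : ℝ) ^ L.length * ((sys y z).tot (2 * k)).toReal)) atTop (𝓝 0) := by
  classical
  obtain ⟨R, hR1⟩ : ∃ R : ℕ, ∀ π ∈ L.map Subtype.val, nh π ≤ R :=
    ⟨((L.map Subtype.val).map nh).sum, fun π hπ => List.single_le_sum (by simp) _
      (List.mem_map.2 ⟨π, hπ, rfl⟩)⟩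
  set Lp : List PP := L.map Subtype.val with hLp
  have hlen : Lp.length = L.length := List.length_map _
  have hfin : ∀ᶠ k : ℕ in atTop, ∀ i : Fin Lp.length, SA y z (fun x => UH x.1.1 ∧ UH x.1.2.2 ∧
      Mat (mkA x) (nrL R Lp i)) (2 * k) ≠ ⊤ := by
    rw [eventually_all]
    intro i
    filter_upwards [tq_fin h (gapOk_gaps (nrL R Lp i)) (Lp.map ln).sum,
      eventually_ge_atTop (Lp.map ln).sum] with k hk1 hk2
    rw [sa_mat _ Lp (snd_nr R Lp i) (by omega)]
    exact ENNReal.mul_ne_top (ww_ne_top _) hk1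
  have hbd : ∀ k : ℕ, SA y z (fun x => T (pol x) ∧ UH x.1.1 ∧
      UH x.1.2.2 ∧ (mkA x).map Prod.snd = Lp) (2 * k) ≤
      ∑ i : Fin Lp.length, SA y z (fun x => UH x.1.1 ∧ UH x.1.2.2 ∧
      Mat (mkA x) (nrL R Lp i)) (2 * k) := by
    intro k
    refine sa_le _ (fun (i : Fin Lp.length) x => UH x.1.1 ∧ UH x.1.2.2 ∧
      Mat (mkA x) (nrL R Lp i)) ?_ _
    rintro x ⟨h0, h1, h2, h3⟩
    have h4 : ¬ ∀ m ∈ mkA x, R < nrm m.1 := by
      intro h4
      refine hno x h0 h1 h2 h3 fun m hm => (hR1 m.2 ?_).trans_lt (h4 m hm)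
      rw [← h3]
      exact List.mem_map.2 ⟨m, hm, rfl⟩
    obtain ⟨i, hi⟩ := mat_near (mkA x) Lp h3 h4
    exact ⟨i, h1, h2, hi⟩
  have hsum : Tendsto (fun k : ℕ => (∑ i : Fin Lp.length, SA y z (fun x => UH x.1.1 ∧
      UH x.1.2.2 ∧ Mat (mkA x) (nrL R Lp i)) (2 * k)).toReal /
      (((2 * k : ℕ) : ℝ) ^ L.length * ((sys y z).tot (2 * k)).toReal)) atTop (𝓝 0) := by
    have h1 : Tendsto (fun k : ℕ => ∑ i : Fin Lp.length, (SA y z (fun x => UH x.1.1 ∧
        UH x.1.2.2 ∧ Mat (mkA x) (nrL R Lp i)) (2 * k)).toReal /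
        (((2 * k : ℕ) : ℝ) ^ Lp.length * ((sys y z).tot (2 * k)).toReal)) atTop
        (𝓝 (∑ _i : Fin Lp.length, (0 : ℝ))) :=
      tendsto_finset_sum _ fun i _ => near_lim h Lp R i
    rw [Finset.sum_const_zero] at h1
    refine h1.congr' ?_
    filter_upwards [hfin] with k hk
    rw [ENNReal.toReal_sum fun i _ => hk i, Finset.sum_div]
    simp only [hlen]
  refine tendsto_of_tendsto_of_tendsto_of_le_of_le' tendsto_const_nhds hsum
    (Eventually.of_forall fun k => ?_) ?_
  · exact div_nonneg ENNReal.toReal_nonneg (by positivity)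
  · filter_upwards [hfin] with k hk
    refine div_le_div_of_nonneg_right ?_ (by positivity)
    exact ENNReal.toReal_mono (ENNReal.sum_ne_top.2 fun i _ => hk i) (hbd k)

private theorem ml_sa_mono {Q Q' : CA → Prop} (h : ∀ x, Q x → Q' x) (n : ℕ) :
    SA y z Q n ≤ SA y z Q' n := by
  unfold SA
  refine ENNReal.tsum_le_tsum fun x => ?_
  by_cases h1 : lenA x = n ∧ Q x
  · rw [if_pos h1, if_pos ⟨h1.1, h x h1.2⟩]
  · rw [if_neg h1]
    exact zero_le

private theorem ml_sa_fin (h : Cr y z) {T : Finset (Sym2 P3) → Prop} (hT : TypeClosed T) (n : ℕ) :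
    SA y z (fun x => T (pol x)) n ≠ ⊤ := by
  intro htop
  have h1 := tot_a hT h.y_pos h.z_pos n
  rw [htop, ENNReal.mul_top (by simpa using h.y_pos), top_add] at h1
  exact ENNReal.mul_ne_top (by norm_num) ENNReal.ofReal_ne_top h1

/-- The words in the list of a function. -/
private def mlL {j N : ℕ} (g : Fin N → {π : KW // ln π.1 ≤ j}) : List KW :=
  List.ofFn fun i => (g i).1

private theorem mlL_inj {j N : ℕ} {g g' : Fin N → {π : KW // ln π.1 ≤ j}}
    (h : (mlL g).map Subtype.val = (mlL g').map Subtype.val) : g = g' := by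
  have h1 := List.map_injective_iff.2 Subtype.val_injective h
  have h2 := List.ofFn_injective h1
  funext i
  exact Subtype.ext (congrFun h2 i)

private theorem mlL_length {j N : ℕ} (g : Fin N → {π : KW // ln π.1 ≤ j}) :
    (mlL g).length = N := List.length_ofFn

private theorem mlL_exists {j N : ℕ} {x : CA} (hx : Good j N x) :
    ∃ g : Fin N → {π : KW // ln π.1 ≤ j},
      (mkA x).map Prod.snd = (mlL g).map Subtype.val := by
  obtain ⟨-, -, hl, hj⟩ := hx
  have hm : ∀ i : Fin N, (mkA x)[(i : ℕ)]'(by rw [hl]; exact i.2) ∈ mkA x := fun i =>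
    List.getElem_mem _
  refine ⟨fun i => ⟨⟨((mkA x)[(i : ℕ)]'(by rw [hl]; exact i.2)).2, _, kn_of_mem x (hm i)⟩,
    hj _ (hm i)⟩, ?_⟩
  refine List.ext_getElem ?_ fun i h1 h2 => ?_
  · rw [List.length_map, List.length_map, mlL_length, hl]
  · simp [mlL]

private theorem mlL_good {j N : ℕ} {x : CA} (h1 : UH x.1.1) (h2 : UH x.1.2.2)
    {g : Fin N → {π : KW // ln π.1 ≤ j}}
    (h : (mkA x).map Prod.snd = (mlL g).map Subtype.val) : Good j N x := by
  refine ⟨h1, h2, ?_, fun m hm => ?_⟩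
  · have := congrArg List.length h
    rwa [List.length_map, List.length_map, mlL_length] at this
  · have h3 : m.2 ∈ (mkA x).map Prod.snd := List.mem_map_of_mem hm
    rw [h] at h3
    obtain ⟨π, hπ, he⟩ := List.mem_map.1 h3
    unfold mlL at hπ
    rw [List.mem_ofFn] at hπ
    obtain ⟨i, rfl⟩ := hπ
    rw [← he]
    exact (g i).2

private theorem main_zero (h : Cr y z) {T : Finset (Sym2 P3) → Prop} (hT : TypeClosed T)
    (j N : ℕ) (hno : ∀ x : CA, T (pol x) → UH x.1.1 → UH x.1.2.2 → (mkA x).length = N →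
      ¬ ∀ m ∈ mkA x, nh m.2 < nrm m.1) :
    Tendsto (fun k : ℕ => (SA y z (fun x => T (pol x) ∧ Good j N x) (2 * k)).toReal /
      (((2 * k : ℕ) : ℝ) ^ N * ((sys y z).tot (2 * k)).toReal)) atTop (𝓝 0) := by
  classical
  have hfin : Finite {π : KW // ln π.1 ≤ j} := (short_fin j).to_subtype
  have := Fintype.ofFinite {π : KW // ln π.1 ≤ j}
  have hsplit : ∀ n, SA y z (fun x => T (pol x) ∧ Good j N x) n =
      ∑ g : Fin N → {π : KW // ln π.1 ≤ j}, SA y z (fun x => T (pol x) ∧ UH x.1.1 ∧ UH x.1.2.2 ∧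
        (mkA x).map Prod.snd = (mlL g).map Subtype.val) n := by
    intro n
    unfold SA
    rw [← Summable.tsum_finsetSum fun _ _ => ENNReal.summable]
    refine tsum_congr fun x => ?_
    by_cases hx : lenA x = n ∧ T (pol x) ∧ Good j N x
    · rw [if_pos hx]
      obtain ⟨g, hg⟩ := mlL_exists hx.2.2
      rw [Finset.sum_eq_single g]
      · rw [if_pos ⟨hx.1, hx.2.1, hx.2.2.1, hx.2.2.2.1, hg⟩]
      · intro g' _ hne
        rw [if_neg]
        rintro ⟨-, -, -, -, hg'⟩
        exact hne (mlL_inj (hg'.symm.trans hg))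
      · intro hn
        exact absurd (Finset.mem_univ g) hn
    · rw [if_neg hx]
      symm
      refine Finset.sum_eq_zero fun g _ => ?_
      rw [if_neg]
      rintro ⟨h1, h2, h3, h4, h5⟩
      exact hx ⟨h1, h2, mlL_good h3 h4 h5⟩
  have hb : ∀ g : Fin N → {π : KW // ln π.1 ≤ j}, Tendsto (fun k : ℕ =>
      (SA y z (fun x => T (pol x) ∧ UH x.1.1 ∧ UH x.1.2.2 ∧
        (mkA x).map Prod.snd = (mlL g).map Subtype.val) (2 * k)).toReal /
      (((2 * k : ℕ) : ℝ) ^ (mlL g).length * ((sys y z).tot (2 * k)).toReal)) atTop (𝓝 0) :=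
    fun g => word_zero h (mlL g) fun x h0 h1 h2 h3 => hno x h0 h1 h2 (by
      have h4 := congrArg List.length h3
      rwa [List.length_map, List.length_map, mlL_length] at h4)
  have h1 := tendsto_finsetSum (Finset.univ : Finset (Fin N → {π : KW // ln π.1 ≤ j}))
    fun g _ => hb g
  rw [Finset.sum_const_zero] at h1
  refine h1.congr fun k => ?_
  rw [hsplit, ENNReal.toReal_sum, Finset.sum_div]
  · refine Finset.sum_congr rfl fun g _ => ?_
    rw [mlL_length]
  · intro g _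
    exact ne_top_of_le_ne_top (ml_sa_fin h hT (2 * k)) (ml_sa_mono (fun x hx => hx.1) _)

/-- The critical weight. -/
private theorem exists_cr (hy : 10 ^ 24 ≤ y) : ∃ z : ℝ, Cr y z := by
  obtain ⟨z, hz, -, hq, hone⟩ := exists_crit (le_trans (by norm_num) hy : (10 : ℝ) ^ 8 ≤ y)
  refine ⟨z, hy, hz, ?_, hq, hone⟩
  by_contra h
  push Not at h
  have h1 : (1 / 10 ^ 12 : ℝ) ^ 2 < z ^ 2 := pow_lt_pow_left₀ h (by norm_num) (by norm_num)
  have h2 : (10 : ℝ) ^ 24 * (1 / 10 ^ 12) ^ 2 < y * z ^ 2 := by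
    calc (10 : ℝ) ^ 24 * (1 / 10 ^ 12) ^ 2 < 10 ^ 24 * z ^ 2 := by
          exact mul_lt_mul_of_pos_left h1 (by norm_num)
      _ ≤ y * z ^ 2 := mul_le_mul_of_nonneg_right hy (sq_nonneg _)
  norm_num at h2
  linarith

open Classical in
/-- The weight of the polygons of the class without sections with two edges. -/
private noncomputable def pz (y z : ℝ) (C : Finset (Sym2 P3) → Prop) (n : ℕ) : ℝ≥0∞ :=
  ∑' E : KCls.PF, if E.1.card = n ∧ C E.1 then
    ENNReal.ofReal y ^ span E.1 * ENNReal.ofReal z ^ E.1.card else 0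

private theorem pz_le (y z : ℝ) (C : Finset (Sym2 P3) → Prop) (n : ℕ) :
    pz y z C n * 2 ^ n ≤ ∑' E : KCls.PF,
      ENNReal.ofReal y ^ span E.1 * ENNReal.ofReal z ^ E.1.card * 2 ^ E.1.card := by
  unfold pz
  rw [← ENNReal.tsum_mul_right]
  refine ENNReal.tsum_le_tsum fun E => ?_
  split_ifs with h
  · rw [h.1]
  · rw [zero_mul]
    exact zero_le

private theorem zt_type (hy : 0 ≤ y) (K : Finset (Sym2 P3)) (n : ℕ) :
    Zt y (SameType K) n = Zt y (KClass K) n :=
  le_antisymm (KTen.zt_mono hy (fun _ hE h => ⟨hE, h⟩) n) (KTen.zt_mono hy (fun _ _ h => h.2) n)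

open Classical in
private theorem sa_mono {y z : ℝ} {Q Q' : CA → Prop} (h : ∀ x, Q x → Q' x) (n : ℕ) :
    SA y z Q n ≤ SA y z Q' n := by
  unfold SA
  refine ENNReal.tsum_le_tsum fun x => ?_
  by_cases h1 : lenA x = n ∧ Q x
  · rw [if_pos h1, if_pos ⟨h1.1, h _ h1.2⟩]
  · rw [if_neg h1]
    exact zero_le

/-- The identity `2 a = y s + 2 p` for real numbers. -/
private theorem real_tot {z : ℝ} (h : Cr y z) (K : Finset (Sym2 P3)) (n : ℕ) :
    SA y z (fun x => SameType K (pol x)) n ≠ ⊤ ∧ pz y z (SameType K) n ≠ ⊤ ∧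
      2 * (Zt y (KClass K) n * z ^ n) = y * (SA y z (fun x => SameType K (pol x)) n).toReal +
        2 * (pz y z (SameType K) n).toReal := by
  have hy := h.y_pos
  have h1 := tot_a (typeClosed_type K) hy h.z_pos n
  rw [zt_type hy.le] at h1
  have h2 : 2 * ENNReal.ofReal (Zt y (KClass K) n * z ^ n) =
      ENNReal.ofReal y * SA y z (fun x => SameType K (pol x)) n +
        2 * pz y z (SameType K) n := h1
  have h3 : 2 * ENNReal.ofReal (Zt y (KClass K) n * z ^ n) ≠ ⊤ :=
    ENNReal.mul_ne_top (by norm_num) ENNReal.ofReal_ne_top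
  rw [h2] at h3
  obtain ⟨h4, h5⟩ := ENNReal.add_ne_top.1 h3
  have hy' : ENNReal.ofReal y ≠ 0 := by
    rw [Ne, ENNReal.ofReal_eq_zero, not_le]
    exact hy
  have h6 : SA y z (fun x => SameType K (pol x)) n ≠ ⊤ := by
    intro h7
    rw [h7, ENNReal.mul_top hy'] at h4
    exact h4 rfl
  have h7 : pz y z (SameType K) n ≠ ⊤ := by
    intro h8
    rw [h8, ENNReal.mul_top (by norm_num)] at h5
    exact h5 rfl
  refine ⟨h6, h7, ?_⟩
  have h8 := congrArg ENNReal.toReal h2
  rw [ENNReal.toReal_add h4 h5, ENNReal.toReal_mul, ENNReal.toReal_mul, ENNReal.toReal_mul,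
    ENNReal.toReal_ofReal hy.le, ENNReal.toReal_ofReal
      (mul_nonneg (KTen.zt_nonneg hy.le _ n) (pow_nonneg h.z_pos.le n))] at h8
  simpa using h8

private theorem tot_fin {z : ℝ} (h : Cr y z) (n : ℕ) : (KAmp.sys y z).tot n ≠ ⊤ := by
  have h1 := KAmp.tot_eq h.y_pos h.z_pos n
  have h3 : 2 * ENNReal.ofReal (Zt y UClass n * z ^ n) ≠ ⊤ :=
    ENNReal.mul_ne_top (by norm_num) ENNReal.ofReal_ne_top
  rw [← h1] at h3
  obtain ⟨h4, -⟩ := ENNReal.add_ne_top.1 h3
  have hy' : ENNReal.ofReal y ≠ 0 := by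
    rw [Ne, ENNReal.ofReal_eq_zero, not_le]
    exact h.y_pos
  intro h7
  rw [h7, ENNReal.mul_top hy'] at h4
  exact h4 rfl

/-- The rest is small. -/
private theorem rest_small {z : ℝ} (h : Cr y z) (K : Finset (Sym2 P3)) (N : ℕ) :
    Tendsto (fun k : ℕ => (pz y z (SameType K) (2 * k)).toReal /
      (((2 * k : ℕ) : ℝ) ^ N * (Zt y UClass (2 * k) * z ^ (2 * k)))) atTop (𝓝 0) := by
  have hy := h.y_pos
  have hy1 : (1 : ℝ) ≤ y := le_trans (by norm_num) h.y_le
  obtain ⟨C, hC⟩ : ∃ C : ℝ≥0∞, C = ∑' E : KCls.PF,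
      ENNReal.ofReal y ^ span E.1 * ENNReal.ofReal z ^ E.1.card * 2 ^ E.1.card := ⟨_, rfl⟩
  have hCt : C ≠ ⊤ := by
    rw [hC]
    exact KCls.un_geo' hy h.z_pos h.z_le h.q_le
  have hp : ∀ k : ℕ, (pz y z (SameType K) (2 * k)).toReal ≤ C.toReal * (1 / 4) ^ k := by
    intro k
    have h1 := pz_le y z (SameType K) (2 * k)
    rw [← hC] at h1
    have h2 := ENNReal.toReal_mono hCt h1
    rw [ENNReal.toReal_mul, ENNReal.toReal_pow, ENNReal.toReal_ofNat, pow_mul] at h2
    have h3 : ((2 : ℝ) ^ 2) ^ k = 4 ^ k := by norm_num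
    rw [h3] at h2
    rw [one_div, inv_pow, ← div_eq_mul_inv, le_div_iff₀ (by positivity)]
    exact h2
  have hg := KAmp.gr h.y_le h.z_pos h.z_le h.q_le h.one (1 / 10) (by norm_num)
  have hq := (KAmp.tot_asy h.y_le h.z_pos h.z_le h.q_le h.one).eventually
    (gt_mem_nhds (by norm_num : (2 : ℝ) < 3))
  have hlim : Tendsto (fun k : ℕ => 3 * C.toReal / y * (1 / 4 * Real.exp (1 / 10)) ^ k) atTop
      (𝓝 0) := by
    have h4 : Real.exp (1 / 10) < 4 := by
      have h5 := Real.exp_lt_exp.2 (show (1 / 10 : ℝ) < 1 by norm_num)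
      have h6 := Real.exp_one_lt_d9
      linarith
    have h7 := tendsto_pow_atTop_nhds_zero_of_lt_one (r := 1 / 4 * Real.exp (1 / 10))
      (by positivity) (by linarith)
    have h8 := h7.const_mul (3 * C.toReal / y)
    rwa [mul_zero] at h8
  refine squeeze_zero' (Eventually.of_forall fun k => ?_) ?_ hlim
  · exact div_nonneg ENNReal.toReal_nonneg (mul_nonneg (by positivity)
      (mul_nonneg (KTen.zt_nonneg hy.le _ _) (pow_nonneg h.z_pos.le _)))
  · filter_upwards [hg, hq, eventually_ge_atTop 2] with k h1 h2 hk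
    have hU : 0 < Zt y UClass (2 * k) * z ^ (2 * k) :=
      mul_pos (KRing.u_pos hy1 (even_two_mul k) (by omega)) (pow_pos h.z_pos _)
    have h3 : Real.exp (-(1 / 10) * k) ≤ ((KAmp.sys y z).tot (2 * k)).toReal := by
      have h4 := ENNReal.toReal_mono (tot_fin h (2 * k)) h1
      rwa [ENNReal.toReal_ofReal (Real.exp_pos _).le] at h4
    rw [div_lt_iff₀ hU] at h2
    have h5 : y * Real.exp (-(1 / 10) * k) / 3 ≤ Zt y UClass (2 * k) * z ^ (2 * k) := by
      have h6 := mul_le_mul_of_nonneg_left h3 hy.le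
      linarith
    have h7 : (1 : ℝ) ≤ ((2 * k : ℕ) : ℝ) ^ N := by
      refine one_le_pow₀ ?_
      exact_mod_cast (by omega : 1 ≤ 2 * k)
    have h8 : y * Real.exp (-(1 / 10) * k) / 3 ≤
        ((2 * k : ℕ) : ℝ) ^ N * (Zt y UClass (2 * k) * z ^ (2 * k)) :=
      h5.trans (le_mul_of_one_le_left hU.le h7)
    have h9 : 0 < y * Real.exp (-(1 / 10) * k) / 3 := by positivity
    calc (pz y z (SameType K) (2 * k)).toReal /
        (((2 * k : ℕ) : ℝ) ^ N * (Zt y UClass (2 * k) * z ^ (2 * k)))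
        ≤ C.toReal * (1 / 4) ^ k / (y * Real.exp (-(1 / 10) * k) / 3) :=
          div_le_div₀ (by positivity) (hp k) h9 h8
      _ = 3 * C.toReal / y * (1 / 4 * Real.exp (1 / 10)) ^ k := by
          have h10 : Real.exp (-(1 / 10) * k) = (Real.exp (1 / 10) ^ k)⁻¹ := by
            rw [← Real.exp_nat_mul, ← Real.exp_neg]
            congr 1
            ring
          rw [h10, mul_pow]
          field_simp

/-- Far chains of a given type exist. -/
private theorem exists_far (hy : 10 ^ 24 ≤ y) {K R : Finset (Sym2 P3)} {N : ℕ}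
    (hF : KTen.Few N K) (hR : KTen.Tower N R) (hKR : SameType K R) :
    ∃ x : CA, SameType K (pol x) ∧ UH x.1.1 ∧ UH x.1.2.2 ∧ (mkA x).length = N ∧
      ∀ m ∈ mkA x, nh m.2 < nrm m.1 := by
  by_contra hcon
  have hno : ∀ x : CA, SameType K (pol x) → UH x.1.1 → UH x.1.2.2 → (mkA x).length = N →
      ¬ ∀ m ∈ mkA x, nh m.2 < nrm m.1 := fun x h0 h1 h2 h3 h4 => hcon ⟨x, h0, h1, h2, h3, h4⟩
  obtain ⟨A, hA, hlimA⟩ := comp_lim hy hF hR hKR
  obtain ⟨z, h⟩ := exists_cr hy
  have hnpos : ∀ k : ℕ, 2 ≤ k → (0 : ℝ) < ((2 * k : ℕ) : ℝ) := fun k hk => by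
    exact_mod_cast (by omega : 0 < 2 * k)
  have hy1 : (4096 : ℝ) ≤ y := le_trans (by norm_num) hy
  have hupos : ∀ k : ℕ, 2 ≤ k → 0 < Zt y UClass (2 * k) := fun k hk =>
    KRing.u_pos (le_trans (by norm_num) hy1) (even_two_mul k) (by omega)
  have hg := KAmp.gr h.y_le h.z_pos h.z_le h.q_le h.one (1 / 10) (by norm_num)
  have htot : ∀ᶠ k : ℕ in atTop, 0 < ((KAmp.sys y z).tot (2 * k)).toReal := by
    filter_upwards [hg] with k h1
    have h4 := ENNReal.toReal_mono (tot_fin h (2 * k)) h1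
    rw [ENNReal.toReal_ofReal (Real.exp_pos _).le] at h4
    exact (Real.exp_pos _).trans_le h4
  have hq := KAmp.tot_asy h.y_le h.z_pos h.z_le h.q_le h.one
  have he := rest_small h K N
  -- the identity
  have hid : ∀ᶠ k : ℕ in atTop, Zt y (KClass K) (2 * k) /
      (((2 * k : ℕ) : ℝ) ^ N * Zt y UClass (2 * k)) =
      (SA y z (fun x => SameType K (pol x)) (2 * k)).toReal /
        (((2 * k : ℕ) : ℝ) ^ N * ((KAmp.sys y z).tot (2 * k)).toReal) *
        (y * ((KAmp.sys y z).tot (2 * k)).toReal /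
          (Zt y UClass (2 * k) * z ^ (2 * k)) / 2) +
        (pz y z (SameType K) (2 * k)).toReal /
          (((2 * k : ℕ) : ℝ) ^ N * (Zt y UClass (2 * k) * z ^ (2 * k))) := by
    filter_upwards [htot, eventually_ge_atTop 2] with k h1 hk
    obtain ⟨-, -, h2⟩ := real_tot h K (2 * k)
    have h3 := (hnpos k hk).ne'
    have h4 := (hupos k hk).ne'
    have h5 := (pow_pos h.z_pos (2 * k)).ne'
    have h6 := h1.ne'
    have h7 : Zt y (KClass K) (2 * k) =
        (y * (SA y z (fun x => SameType K (pol x)) (2 * k)).toReal / 2 +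
          (pz y z (SameType K) (2 * k)).toReal) / z ^ (2 * k) := by
      rw [eq_div_iff h5]
      linarith
    rw [h7]
    generalize (SA y z (fun x => SameType K (pol x)) (2 * k)).toReal = s at *
    generalize (pz y z (SameType K) (2 * k)).toReal = p at *
    generalize ((KAmp.sys y z).tot (2 * k)).toReal = t at *
    generalize Zt y UClass (2 * k) = U at *
    generalize z ^ (2 * k) = Z at *
    generalize ((2 * k : ℕ) : ℝ) = n at *
    have h8 : n ^ N ≠ 0 := pow_ne_zero N h3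
    field_simp
  -- the main part tends to zero
  have hmain : Tendsto (fun k : ℕ => (SA y z (fun x => SameType K (pol x)) (2 * k)).toReal /
      (((2 * k : ℕ) : ℝ) ^ N * ((KAmp.sys y z).tot (2 * k)).toReal)) atTop (𝓝 0) := by
    rw [Metric.tendsto_nhds]
    intro ε hε
    obtain ⟨n0, j0, ht⟩ := tail h (N := N) (T := SameType K)
      (fun E hE => KTen.hinv_few N K E hE hF) (ε := ENNReal.ofReal (ε / 2)) (by
        rw [Ne, ENNReal.ofReal_eq_zero, not_le]
        positivity)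
    have hb := main_zero h (typeClosed_type K) j0 N hno
    have h5 := hb.eventually (gt_mem_nhds (by positivity : (0 : ℝ) < ε / 2))
    filter_upwards [htot, h5, eventually_ge_atTop (max n0 1)] with k htot' h2 hk
    have hk1 : n0 ≤ k := le_trans (le_max_left _ _) hk
    have hk2 : 1 ≤ k := le_trans (le_max_right _ _) hk
    have hn : (0 : ℝ) < ((2 * k : ℕ) : ℝ) := by exact_mod_cast (by omega : 0 < 2 * k)
    have hden : 0 < ((2 * k : ℕ) : ℝ) ^ N * ((KAmp.sys y z).tot (2 * k)).toReal :=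
      mul_pos (pow_pos hn N) htot'
    obtain ⟨hs, -, -⟩ := real_tot h K (2 * k)
    have hmono : SA y z (fun x => SameType K (pol x) ∧ Good j0 N x) (2 * k) ≤
        SA y z (fun x => SameType K (pol x)) (2 * k) := sa_mono (fun _ h => h.1) _
    have hs' := ne_top_of_le_ne_top hs hmono
    have e2 := ht j0 le_rfl (2 * k) (by omega) (even_two_mul k)
    have hrt : ENNReal.ofReal (ε / 2) * ((2 * k : ℕ) : ℝ≥0∞) ^ N *
        (KAmp.sys y z).tot (2 * k) ≠ ⊤ :=
      ENNReal.mul_ne_top (ENNReal.mul_ne_top ENNReal.ofReal_ne_top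
        (ENNReal.pow_ne_top (ENNReal.natCast_ne_top _))) (tot_fin h (2 * k))
    have e3 := ENNReal.toReal_mono (ENNReal.add_ne_top.2 ⟨hs', hrt⟩) e2
    rw [ENNReal.toReal_add hs' hrt, ENNReal.toReal_mul, ENNReal.toReal_mul, ENNReal.toReal_pow,
      ENNReal.toReal_natCast, ENNReal.toReal_ofReal (by positivity)] at e3
    have f2 : (SA y z (fun x => SameType K (pol x)) (2 * k)).toReal /
        (((2 * k : ℕ) : ℝ) ^ N * ((KAmp.sys y z).tot (2 * k)).toReal) ≤
        (SA y z (fun x => SameType K (pol x) ∧ Good j0 N x) (2 * k)).toReal /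
        (((2 * k : ℕ) : ℝ) ^ N * ((KAmp.sys y z).tot (2 * k)).toReal) + ε / 2 := by
      rw [div_add' _ _ _ hden.ne']
      refine div_le_div_of_nonneg_right (e3.trans (le_of_eq ?_)) hden.le
      ring
    rw [Real.dist_eq, sub_zero, abs_of_nonneg (div_nonneg ENNReal.toReal_nonneg hden.le)]
    linarith
  have h1 := (hmain.mul (hq.div_const 2)).add he
  rw [zero_mul, zero_add] at h1
  have h2 := h1.congr' (hid.mono fun k hk => hk.symm)
  exact hA.ne' (tendsto_nhds_unique hlimA h2)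


private theorem exists_far' {K R : Finset (Sym2 P3)} {N : ℕ}
    (hF : KTen.Few N K) (hR : KTen.Tower N R) (hKR : SameType K R) :
    ∃ w : List PP, w.length = N ∧ TypeN (SameType K) w ∧
      ∀ π ∈ w, ∃ v, nh π < nrm v ∧ Kn v π := by
  obtain ⟨x, h0, h1, h2, h3, h4⟩ := exists_far (y := 10 ^ 24) le_rfl hF hR hKR
  refine ⟨(mkA x).map Prod.snd, by rw [List.length_map, h3],
    (type_far (typeClosed_type K) x h1 h2 h4).1 h0, fun π hπ => ?_⟩
  obtain ⟨m, hm, rfl⟩ := List.mem_map.1 hπ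
  exact ⟨m.1, h4 m hm, kn_of_mem x hm⟩

end Pool.Agent.KComp

namespace Pool.Agent.KSlab

open Pool.Agent.KTube Pool.Agent.KRing Pool.Agent.KLog Pool.Agent.KCls
open Pool.Agent.KAsym (ln wtR wlR)
open Pool.Agent.KTop (GC ed TypeN)
open Pool.Agent.KComp (HA CA Kn UH mkA lenA WA pol SA)

/-- Take `y = 10 ^ 24` and the critical weight `z` of `KComp.main` (`Cr y z`). Let `T = SameType K` and suppose that `WT T N` is
empty. A chain `x : CA` in `ℤ³` with `T (pol x)` and `Good j N x` (`KComp/Tail.lean`) then has a near mark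
(`KComp.type_far`, `rz`-type argument: otherwise its words are in `WT T N`). So for each `j` the weight
`SA (T (pol x) ∧ Good j N x) (2k)` is at most the weight of the chains with unknotted caps and `N` marks with at most `j`
points one of which has `nrm m.1 ≤ nh m.2 ≤ j`; divided by `(2k) ^ N tot (2k)` it tends to `0`: there are finitely many
lists of words (`short_fin`), `mark_id` and `near_l` (as in the proof of `KComp.word_lim`, `WordL.lean`). With
`KComp.tail` the quotient `SA (T (pol x)) (2k) / ((2k) ^ N tot (2k))` tends to `0`, so by `tot_a` (as in `Final.lean`)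
`Zt y (KClass K) (2k) / ((2k) ^ N Zt y UClass (2k)) → 0`, in contradiction to `KComp.comp_lim` (positive limit) or
`KRing.tower_lower`. (Alternative: a private variant of the proof of `comp_lim`.) -/
theorem exists_wt {K R : Finset (Sym2 P3)} {N : ℕ} (hF : KTen.Few N K) (hR : KTen.Tower N R)
    (hKR : SameType K R) : ∃ w, w ∈ WT (SameType K) N := by
  obtain ⟨w, h1, h2, h3⟩ := KComp.exists_far' hF hR hKR
  exact ⟨w, h1, h2, h3⟩

/-- The heights of the points of a pair of words are bounded; take `i = (m, m)` with `m` large and `M ≥ 2 m`. -/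
theorem exists_cb (w : List PP) : ∃ M0 : ℕ, ∀ M ≥ M0, ∀ π ∈ w, ∃ i j : II M, CB i j π := by
  obtain ⟨m, hm⟩ : ∃ m : ℕ, ∀ π ∈ w,
      (∀ p ∈ wk (0, 0, 1) π.1, p.2.1.natAbs ≤ m) ∧
      (∀ p ∈ wk (0, 0, 1) π.2, p.2.1.natAbs ≤ m) ∧
      π.1.sum.2.1.natAbs ≤ m ∧ π.2.sum.2.1.natAbs ≤ m := by
    refine ⟨(w.map fun π => ((wk (0, 0, 1) π.1).map fun p => p.2.1.natAbs).sum +
      ((wk (0, 0, 1) π.2).map fun p => p.2.1.natAbs).sum + π.1.sum.2.1.natAbs +
      π.2.sum.2.1.natAbs).sum, fun π hπ => ?_⟩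
    have h1 := List.single_le_sum (l := w.map fun π =>
      ((wk (0, 0, 1) π.1).map fun p => p.2.1.natAbs).sum +
      ((wk (0, 0, 1) π.2).map fun p => p.2.1.natAbs).sum + π.1.sum.2.1.natAbs +
      π.2.sum.2.1.natAbs) (by simp) _ (List.mem_map.2 ⟨π, hπ, rfl⟩)
    refine ⟨fun p hp => ?_, fun p hp => ?_, by omega, by omega⟩
    · have h2 := List.single_le_sum (l := (wk (0, 0, 1) π.1).map fun p => p.2.1.natAbs)
        (by simp) _ (List.mem_map.2 ⟨p, hp, rfl⟩)
      omega
    · have h2 := List.single_le_sum (l := (wk (0, 0, 1) π.2).map fun p => p.2.1.natAbs)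
        (by simp) _ (List.mem_map.2 ⟨p, hp, rfl⟩)
      omega
  refine ⟨2 * m, fun M hM π hπ => ?_⟩
  obtain ⟨h1, h2, h3, h4⟩ := hm π hπ
  refine ⟨(⟨m, by omega⟩, ⟨m, by omega⟩),
    (⟨((m : ℤ) + π.1.sum.2.1).toNat, by omega⟩, ⟨((m : ℤ) + π.2.sum.2.1).toNat, by omega⟩),
    ⟨fun p hp => ?_, fun p hp => ?_, ?_, ?_⟩⟩
  · have h5 := h1 p hp
    constructor
    · change 0 ≤ p.2.1 + ((m : ℕ) : ℤ)
      omega
    · change p.2.1 + ((m : ℕ) : ℤ) ≤ M
      omega
  · have h5 := h2 p hp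
    constructor
    · change 0 ≤ p.2.1 + ((m : ℕ) : ℤ)
      omega
    · change p.2.1 + ((m : ℕ) : ℤ) ≤ M
      omega
  · change ((m : ℕ) : ℤ) + π.1.sum.2.1 = ((((m : ℤ) + π.1.sum.2.1).toNat : ℕ) : ℤ)
    omega
  · change ((m : ℕ) : ℤ) + π.2.sum.2.1 = ((((m : ℤ) + π.2.sum.2.1).toNat : ℕ) : ℤ)
    omega

end Pool.Agent.KSlab
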