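import Pool.Agent.KSlab.YFin
import Pool.Agent.KSlab.YWord
import Pool.Agent.KSlab.YGrp
import Pool.Agent.KSlab.YLt
import Pool.Agent.KSlab.MMain

/-! SY9: the asymptotics of all knot types in slabs. -/

set_option autoImplicit false

open Pool.Agent.LK Filter Topology
open scoped ENNReal

namespace Pool.Agent.KSlab

open Pool.Agent.KTube Pool.Agent.KRing Pool.Agent.KLog Pool.Agent.KCls
open Pool.Agent.KTop (TypeN)


/-- The asymptotic form of Q1 with exponent `p` and growth rate `μ`. -/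
def PForm (a : ℕ → ℝ) (p μ A : ℝ) : Prop :=
  Tendsto (fun k : ℕ => a (2 * k) / (μ ^ (2 * k) * ((2 * k : ℕ) : ℝ) ^ p)) atTop (𝓝 A)

private theorem pform_crit {T : Finset (Sym2 P3) → Prop} {M : ℕ} {y z : ℝ} {h : II M → ℝ}
    (hC : CritS T y z h) : ∃ A : ℝ, 0 < A ∧ PForm (ZS T M y) (-(3 / 2)) z⁻¹ A := by
  obtain ⟨A, hA, hl⟩ := (slb_ok hC).asymp (tot hC.cls hC.y_pos hC.z_pos hC.z_le hC.q_le)
  refine ⟨A, hA, hl.congr fun k => ?_⟩
  rcases Nat.eq_zero_or_pos k with rfl | hk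
  · simp [Real.zero_rpow (show (-(3 / 2) : ℝ) ≠ 0 by norm_num),
      Real.zero_rpow (show (3 / 2 : ℝ) ≠ 0 by norm_num)]
  · have h1 : (0 : ℝ) < ((2 * k : ℕ) : ℝ) := by positivity
    rw [Real.rpow_neg h1.le, inv_pow]
    have h2 := hC.z_pos
    have h3 : 0 < ((2 * k : ℕ) : ℝ) ^ (3 / 2 : ℝ) := Real.rpow_pos_of_pos h1 _
    field_simp

private theorem free_all {π : PP} (h : FreeT Unknotted π) : FreeT (fun _ => True) π := by
  obtain ⟨v, hv, hg, l, hl, hab, hlow, r, hr, A, hA, -⟩ := h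
  exact ⟨v, hv, hg, l, hl, hab, hlow, r, hr, A, hA, trivial⟩

private theorem crit_all {M : ℕ} {y z : ℝ} {h : II M → ℝ} (hC : CritS Unknotted y z h)
    (hno : ¬ ∃ (π : PP) (i j : II M), FreeT (fun _ => True) π ∧ ¬ FreeT Unknotted π ∧ CB i j π) :
    CritS (fun _ => True) y z h := by
  refine ⟨cls_all, hC.y_pos, hC.z_pos, hC.z_le, hC.q_le, hC.h_pos, fun i => ?_⟩
  rw [← hC.h_eq i]
  refine Finset.sum_congr rfl fun j _ => ?_
  congr 1
  have h1 : (fun π : PP => FreeT (fun _ => True) π ∧ CB i j π) =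
      fun π : PP => FreeT Unknotted π ∧ CB i j π := by
    funext π
    refine propext ⟨fun h2 => ⟨?_, h2.2⟩, fun h2 => ⟨free_all h2.1, h2.2⟩⟩
    by_contra h3
    exact hno ⟨π, i, j, h2.1, h3, h2.2⟩
  unfold FM
  change (∑' π : {π : PP // (fun π : PP => FreeT (fun _ => True) π ∧ CB i j π) π}, _) = _
  rw [h1]

/-- `exists_critS`, `type_zs`, `zs_gclass`, `zs_type`; the growth rate is `z⁻¹` for the critical weight `z` of the class of
the unknot; `KTen.hinv_few` (every polygon of the type of `K` has at most `N` prime factors); `exists_wt`, `exists_cb`. -/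
theorem slabs {G : Subgroup (R3 ≃ₜ R3)} (hG : ∀ t : R3, Homeomorph.addRight t ∈ G)
    (hG' : ∀ φ : R3 ≃ₜ R3, φ ∈ G ∨ φ * negY ∈ G) {y : ℝ} (hy : 10 ^ 24 ≤ y) :
    ∃ μ : ℕ → ℝ, ∃ μ' : ℕ → ℝ, ∀ M : ℕ, 0 < μ M ∧ μ M ≤ μ' M ∧
      (∃ A : ℝ, 0 < A ∧ PForm (ZS Unknotted M y) (-(3 / 2)) (μ M) A) ∧
      (∃ A : ℝ, 0 < A ∧ PForm (ZS (fun _ => True) M y) (-(3 / 2)) (μ' M) A) ∧
      (∀ (K : Finset (Sym2 P3)) (N : ℕ), KTen.Few N K → ∃ A : ℝ, 0 ≤ A ∧
        PForm (ZS (GClass G K) M y) (N - 3 / 2) (μ M) A ∧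
        ((∃ w ∈ WT (SameType K) N, RealW M w) → 0 < A)) ∧
      ((∃ w : List PP, w ≠ [] ∧ RealW M w) → μ M < μ' M) := by
  have key : ∀ M : ℕ, ∃ m m' : ℝ, 0 < m ∧ m ≤ m' ∧
      (∃ A : ℝ, 0 < A ∧ PForm (ZS Unknotted M y) (-(3 / 2)) m A) ∧
      (∃ A : ℝ, 0 < A ∧ PForm (ZS (fun _ => True) M y) (-(3 / 2)) m' A) ∧
      (∀ (K : Finset (Sym2 P3)) (N : ℕ), KTen.Few N K → ∃ A : ℝ, 0 ≤ A ∧
        PForm (ZS (GClass G K) M y) (N - 3 / 2) m A ∧
        ((∃ w ∈ WT (SameType K) N, RealW M w) → 0 < A)) ∧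
      ((∃ w : List PP, w ≠ [] ∧ RealW M w) → m < m') := by
    intro M
    obtain ⟨z, h, hC⟩ := exists_critS cls_unknotted M hy
    -- the types
    have hK : ∀ (K : Finset (Sym2 P3)) (N : ℕ), KTen.Few N K → ∃ A : ℝ, 0 ≤ A ∧
        PForm (ZS (GClass G K) M y) (N - 3 / 2) z⁻¹ A ∧
        ((∃ w ∈ WT (SameType K) N, RealW M w) → 0 < A) := by
      intro K N hF
      obtain ⟨B, hB, hl, hpos⟩ := type_zs (M := M) hC (typeClosed_type K)
        (fun E hE => typeClosed_few N K E hE hF)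
      rcases zs_gclass hG hG' K with hg | hg
      · refine ⟨B, hB, ?_, hpos⟩
        refine hl.congr fun k => ?_
        rw [zs_type, hg]
      · refine ⟨B / 2, by positivity, ?_, fun hw => half_pos (hpos hw)⟩
        refine (hl.div_const 2).congr fun k => ?_
        rw [zs_type, ← hg, mul_div_assoc, mul_div_cancel_left₀ _ (two_ne_zero)]
    by_cases hex : ∃ (π : PP) (i j : II M), FreeT (fun _ => True) π ∧ ¬ FreeT Unknotted π ∧ CB i j π
    · obtain ⟨z', h', hC'⟩ := exists_critS cls_all M hy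
      obtain ⟨π, i, j, h1, h2, h3⟩ := hex
      have hlt : z' < z := crit_lt hC hC' (fun _ _ => trivial) h1 h2 h3
      have hlt' : z⁻¹ < z'⁻¹ := inv_strictAnti₀ hC'.z_pos hlt
      exact ⟨z⁻¹, z'⁻¹, inv_pos.2 hC.z_pos, hlt'.le, pform_crit hC, pform_crit hC', hK,
        fun _ => hlt'⟩
    · refine ⟨z⁻¹, z⁻¹, inv_pos.2 hC.z_pos, le_rfl, pform_crit hC, pform_crit (crit_all hC hex),
        hK, ?_⟩
      rintro ⟨w, hw, hr⟩
      exfalso
      obtain ⟨π, hπ⟩ := List.exists_mem_of_ne_nil w hw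
      obtain ⟨h1, i, j, h2⟩ := hr π hπ
      exact hex ⟨π, i, j, (knF_free h1).1, (knF_free h1).2, h2⟩
  choose μ μ' hμ using key
  exact ⟨μ, μ', hμ⟩

theorem real_large {K R : Finset (Sym2 P3)} {N : ℕ} (hF : KTen.Few N K) (hR : KTen.Tower N R)
    (hKR : SameType K R) : ∃ M0 : ℕ, ∀ M ≥ M0, ∃ w ∈ WT (SameType K) N, RealW M w := by
  obtain ⟨w, hw⟩ := exists_wt hF hR hKR
  obtain ⟨M0, h⟩ := exists_cb w
  exact ⟨M0, fun M hM => ⟨w, hw, fun π hπ => ⟨hw.2.2 π hπ, h M hM π hπ⟩⟩⟩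

end Pool.Agent.KSlab
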