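import Pool.Agent.KSlab.XDefs
import Pool.Agent.KComp.CapA
import Pool.Agent.KComp.Count
import Pool.Agent.KComp.Marks

/-! SY3: the chains of a given type are those with marks of given kinds, up to small errors. -/

set_option autoImplicit false

open Pool.Agent.LK
open scoped ENNReal

namespace Pool.Agent.KSlab

open Pool.Agent.KTube Pool.Agent.KRing Pool.Agent.KLog Pool.Agent.KCls
open Pool.Agent.KAsym (ln wtR wlR)
open Pool.Agent.KTop (GC ed TypeN)
open Pool.Agent.KComp (HA CA Kn UH mkA lenA WA pol)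

variable {M : ℕ} {y z : ℝ} {T : Finset (Sym2 P3) → Prop} {N : ℕ}

/-- The mark is the word `π`, far from the dead states. -/
def farM (π : PP) : ℤ × ℤ → PP → Prop := fun v ρ => ρ = π ∧ nh ρ < nrm v

/-- The mark is near the dead states. -/
def nearM : ℤ × ℤ → PP → Prop := fun v ρ => nrm v ≤ nh ρ

/-- The mark is long. -/
def longM (j : ℕ) : ℤ × ℤ → PP → Prop := fun _ ρ => j < ln ρ

/-- No condition. -/
def anyM : ℤ × ℤ → PP → Prop := fun _ _ => True

/-- `N` marks, the one with the number `i` has the property `A`. -/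
def atM (N i : ℕ) (A : ℤ × ℤ → PP → Prop) : List (ℤ × ℤ → PP → Prop) :=
  List.replicate i anyM ++ A :: List.replicate (N - 1 - i) anyM

/-- The lists of `N` words of far knotted blocks of type `T`. -/
def WT (T : Finset (Sym2 P3) → Prop) (N : ℕ) : Set (List PP) :=
  {w | w.length = N ∧ TypeN T w ∧ ∀ π ∈ w, KnF π}

/-- The same with short words. -/
def WS (T : Finset (Sym2 P3) → Prop) (N j : ℕ) : Set (List PP) :=
  {w | w ∈ WT T N ∧ ∀ π ∈ w, ln π ≤ j}

/-- `KComp.short_fin`: there are finitely many words of knotted blocks with `ln ≤ j`. -/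
theorem ws_finite (T : Finset (Sym2 P3) → Prop) (N j : ℕ) : (WS T N j).Finite := by
  have hfin : Finite {π : KComp.KW // ln π.1 ≤ j} := (KComp.short_fin j).to_subtype
  refine ((List.finite_length_le {π : KComp.KW // ln π.1 ≤ j} N).image
    (fun s => s.map fun π => π.1.1)).subset ?_
  rintro w ⟨⟨h1, -, h3⟩, h4⟩
  refine ⟨w.attach.map fun π => ⟨⟨π.1, ?_⟩, h4 π.1 π.2⟩, ?_, ?_⟩
  · obtain ⟨v, -, hv⟩ := h3 π.1 π.2
    exact ⟨v, hv⟩
  · show (w.attach.map _).length ≤ N
    simpa using h1.le
  · show (w.attach.map _).map _ = w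
    rw [List.map_map]
    exact List.attach_map_subtype_val w

/-- The weight of the chains with caps of class `Tc` and marks with the properties `L`. -/
noncomputable def SQ (M : ℕ) (y z : ℝ) (Tc : Finset (Sym2 P3) → Prop)
    (L : List (ℤ × ℤ → PP → Prop)) (n : ℕ) : ℝ≥0∞ :=
  SAS M y z (fun p => QC Tc (toA p).1.1 ∧ QC Tc (toA p).1.2.2 ∧ MatP p L) n

/-- The relation of marks and properties. -/
private abbrev ysR : (ℤ × ℤ) × PP → (ℤ × ℤ → PP → Prop) → Prop := fun m A => A m.1 m.2

private theorem ys_mat_far (ms : List ((ℤ × ℤ) × PP)) (w : List PP) :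
    List.Forall₂ ysR ms (w.map farM) ↔
      ms.map Prod.snd = w ∧ ∀ m ∈ ms, nh m.2 < nrm m.1 := by
  induction ms generalizing w with
  | nil =>
    cases w with
    | nil => simp
    | cons π w => simp
  | cons m ms ih =>
    cases w with
    | nil => simp
    | cons π w =>
      rw [List.map_cons, List.forall₂_cons, ih w]
      simp only [ysR, farM, List.map_cons, List.cons.injEq, List.forall_mem_cons]
      tauto

private theorem ys_mat_any (ms : List ((ℤ × ℤ) × PP)) :
    List.Forall₂ ysR ms (List.replicate ms.length anyM) := by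
  induction ms with
  | nil => exact List.Forall₂.nil
  | cons m ms ih => exact List.Forall₂.cons trivial ih

private theorem ys_mat_at {A : ℤ × ℤ → PP → Prop} (ms : List ((ℤ × ℤ) × PP))
    {m : (ℤ × ℤ) × PP} (hm : m ∈ ms) (hA : A m.1 m.2) :
    ∃ i < ms.length, List.Forall₂ ysR ms (atM ms.length i A) := by
  induction ms with
  | nil => simp at hm
  | cons m' ms ih =>
    rcases List.mem_cons.1 hm with rfl | hm
    · refine ⟨0, by simp, ?_⟩
      have e : atM (m :: ms).length 0 A = A :: List.replicate ms.length anyM := by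
        simp [atM]
      rw [e]
      exact List.Forall₂.cons hA (ys_mat_any ms)
    · obtain ⟨i, hi, h⟩ := ih hm
      refine ⟨i + 1, by rw [List.length_cons]; omega, ?_⟩
      have e : atM (m' :: ms).length (i + 1) A = anyM :: atM ms.length i A := by
        unfold atM
        rw [List.length_cons, List.replicate_succ, List.cons_append]
        congr 4
        omega
      rw [e]
      exact List.Forall₂.cons trivial h

private theorem ys_unk (r : HA) (h : UH r) : QC Unknotted r := ⟨h, r.2.2.2.2⟩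

private theorem ys_all (r : HA) : QC (fun _ => True) r := by
  obtain ⟨v, l, hv, hl, hn⟩ := r
  obtain ⟨u, hu⟩ := exists_UU' (k := 0) hv
  obtain ⟨A, hA⟩ := exists_lowClose (ring_of hv hu.2.1 hl).isPolygon
    (isTwo_ring_of hv hu.2.1 hl)
  exact ⟨⟨hv, hl, u, hu.2.1, A, hA, trivial⟩, hn⟩

private theorem ys_unk' (r : HA) (h : QC Unknotted r) : UH r := by
  obtain ⟨h1, -⟩ := h
  exact h1

open Classical in
/-- The terms of the weight. -/
private noncomputable def ysT (y z : ℝ) (n : ℕ) (Q : CAS M → Prop) (p : CAS M) : ℝ≥0∞ :=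
  if lenA (toA p) = n ∧ Q p then WA y z (toA p) else 0

private theorem ys_T_le {n : ℕ} {Q : CAS M → Prop} {p : CAS M} :
    ysT y z n Q p ≤ WA y z (toA p) := by
  unfold ysT
  split_ifs
  · exact le_rfl
  · exact zero_le

private theorem ys_T_eq {n : ℕ} {Q : CAS M → Prop} {p : CAS M} (h1 : lenA (toA p) = n)
    (h2 : Q p) : ysT y z n Q p = WA y z (toA p) := if_pos ⟨h1, h2⟩

/-- Let `p` be a chain of type `T`. By `KComp.count_le` (applied to `toA p`) the number of marks is at most `N`, and it
is `N` only if the caps are unknotted (`QC Unknotted r ↔ UH r`: `HalfT Unknotted` and `Flat`, `LU`, see `qc_unk` in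
`XMain.lean`; the caps of a chain satisfy `QC (fun _ => True)`). If it is `q < N`: second sum. If it is `N` and a mark is
near: third sum. If all are far and one of them is long: last sum. Otherwise `KComp.type_far` gives
`TypeN T` of the words (each of them is `KnF`): first sum. -/
theorem sas_upper (hT : TypeClosed T) (hF : ∀ E, T E → KTen.Few N E) (j n : ℕ) :
    SAS M y z (fun p => T (pol (toA p))) n ≤
      ∑' w : WS T N j, SQ M y z Unknotted (w.1.map farM) n +
      ∑ q ∈ Finset.range N, SQ M y z (fun _ => True) (List.replicate q anyM) n +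
      ∑ i ∈ Finset.range N, SQ M y z Unknotted (atM N i nearM) n +
      ∑ i ∈ Finset.range N, SQ M y z Unknotted (atM N i (longM j)) n := by
  classical
  let Q : (Finset (Sym2 P3) → Prop) → List (ℤ × ℤ → PP → Prop) → CAS M → Prop :=
    fun Tc L p => QC Tc (toA p).1.1 ∧ QC Tc (toA p).1.2.2 ∧ MatP p L
  have hS : ∀ (Tc : Finset (Sym2 P3) → Prop) (L : List (ℤ × ℤ → PP → Prop)),
      SQ M y z Tc L n = ∑' p : CAS M, ysT y z n (Q Tc L) p := fun _ _ => rfl
  have hR : SAS M y z (fun p => T (pol (toA p))) n =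
      ∑' p : CAS M, ysT y z n (fun p => T (pol (toA p))) p := rfl
  simp only [hS]
  rw [hR, ENNReal.tsum_comm, ← Summable.tsum_finsetSum fun _ _ => ENNReal.summable,
    ← Summable.tsum_finsetSum fun _ _ => ENNReal.summable,
    ← Summable.tsum_finsetSum fun _ _ => ENNReal.summable,
    ← ENNReal.tsum_add, ← ENNReal.tsum_add, ← ENNReal.tsum_add]
  refine ENNReal.tsum_le_tsum fun p => ?_
  by_cases hp : lenA (toA p) = n ∧ T (pol (toA p))
  swap
  · have e : ysT y z n (fun p => T (pol (toA p))) p = 0 := if_neg hp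
    rw [e]
    exact zero_le
  obtain ⟨hn, hp⟩ := hp
  have e : ysT y z n (fun p => T (pol (toA p))) p = WA y z (toA p) := ys_T_eq hn hp
  rw [e]
  have hc := KComp.count_le (toA p) (hF _ hp)
  by_cases hq : (mkA (toA p)).length < N
  · refine le_trans ?_ (le_add_right (le_add_right le_add_self))
    refine le_trans ?_ (Finset.single_le_sum (f := fun q => ysT y z n
      (Q (fun _ => True) (List.replicate q anyM)) p) (fun _ _ => zero_le) (Finset.mem_range.2 hq))
    exact (ys_T_eq hn ⟨ys_all _, ys_all _, ys_mat_any _⟩).ge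
  have hN : (mkA (toA p)).length = N := by omega
  have hU1 : UH (toA p).1.1 := by
    by_contra h
    rw [if_neg h] at hc
    omega
  have hU2 : UH (toA p).1.2.2 := by
    by_contra h
    rw [if_neg h] at hc
    omega
  by_cases hnear : ∃ m ∈ mkA (toA p), nrm m.1 ≤ nh m.2
  · obtain ⟨m, hm, hA⟩ := hnear
    obtain ⟨i, hi, h⟩ := ys_mat_at (A := nearM) _ hm hA
    rw [hN] at hi h
    refine le_trans ?_ (le_add_right le_add_self)
    refine le_trans ?_ (Finset.single_le_sum (f := fun i => ysT y z n
      (Q Unknotted (atM N i nearM)) p) (fun _ _ => zero_le) (Finset.mem_range.2 hi))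
    exact (ys_T_eq hn ⟨ys_unk _ hU1, ys_unk _ hU2, h⟩).ge
  by_cases hlong : ∃ m ∈ mkA (toA p), j < ln m.2
  · obtain ⟨m, hm, hA⟩ := hlong
    obtain ⟨i, hi, h⟩ := ys_mat_at (A := longM j) _ hm hA
    rw [hN] at hi h
    refine le_trans ?_ le_add_self
    refine le_trans ?_ (Finset.single_le_sum (f := fun i => ysT y z n
      (Q Unknotted (atM N i (longM j))) p) (fun _ _ => zero_le) (Finset.mem_range.2 hi))
    exact (ys_T_eq hn ⟨ys_unk _ hU1, ys_unk _ hU2, h⟩).ge
  push Not at hnear hlong
  have hT' : KTop.TypeN T ((mkA (toA p)).map Prod.snd) :=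
    (KComp.type_far hT (toA p) hU1 hU2 hnear).1 hp
  have hw : (mkA (toA p)).map Prod.snd ∈ WS T N j := by
    refine ⟨⟨?_, hT', ?_⟩, ?_⟩
    · rw [List.length_map, hN]
    · intro π hπ
      obtain ⟨m, hm, rfl⟩ := List.mem_map.1 hπ
      exact ⟨m.1, hnear m hm, KComp.kn_of_mem _ hm⟩
    · intro π hπ
      obtain ⟨m, hm, rfl⟩ := List.mem_map.1 hπ
      exact hlong m hm
  refine le_trans ?_ (le_add_right (le_add_right le_self_add))
  refine le_trans ?_ (ENNReal.le_tsum ⟨_, hw⟩)
  exact (ys_T_eq hn ⟨ys_unk _ hU1, ys_unk _ hU2, (ys_mat_far _ _).2 ⟨rfl, hnear⟩⟩).ge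

/-- The conditions for different `w` exclude each other, and by `KComp.type_far` the chains are of type `T`. -/
theorem sas_lower (hT : TypeClosed T) (j n : ℕ) :
    ∑' w : WS T N j, SQ M y z Unknotted (w.1.map farM) n ≤
      SAS M y z (fun p => T (pol (toA p))) n := by
  classical
  let Q : (Finset (Sym2 P3) → Prop) → List (ℤ × ℤ → PP → Prop) → CAS M → Prop :=
    fun Tc L p => QC Tc (toA p).1.1 ∧ QC Tc (toA p).1.2.2 ∧ MatP p L
  have hS : ∀ (Tc : Finset (Sym2 P3) → Prop) (L : List (ℤ × ℤ → PP → Prop)),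
      SQ M y z Tc L n = ∑' p : CAS M, ysT y z n (Q Tc L) p := fun _ _ => rfl
  have hR : SAS M y z (fun p => T (pol (toA p))) n =
      ∑' p : CAS M, ysT y z n (fun p => T (pol (toA p))) p := rfl
  simp only [hS]
  rw [hR, ENNReal.tsum_comm]
  refine ENNReal.tsum_le_tsum fun p => ?_
  by_cases hw : (mkA (toA p)).map Prod.snd ∈ WS T N j
  · rw [tsum_eq_single (⟨_, hw⟩ : WS T N j)]
    · by_cases hp : lenA (toA p) = n ∧ Q Unknotted (((mkA (toA p)).map Prod.snd).map farM) p
      · obtain ⟨hn, h1, h2, h3⟩ := hp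
        have h4 := (ys_mat_far _ _).1 h3
        have h5 : T (pol (toA p)) :=
          (KComp.type_far hT (toA p) (ys_unk' _ h1) (ys_unk' _ h2) h4.2).2 hw.1.2.1
        refine ys_T_le.trans ?_
        exact (ys_T_eq (Q := fun p => T (pol (toA p))) hn h5).ge
      · have e : ysT y z n (Q Unknotted (((mkA (toA p)).map Prod.snd).map farM)) p = 0 :=
          if_neg hp
        rw [e]
        exact zero_le
    · intro w hne
      refine if_neg ?_
      rintro ⟨-, -, -, h3⟩
      exact hne (Subtype.ext ((ys_mat_far _ _).1 h3).1.symm)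
  · refine le_trans (le_of_eq ?_) zero_le
    rw [ENNReal.tsum_eq_zero]
    intro w
    refine if_neg ?_
    rintro ⟨-, -, -, h3⟩
    exact hw (((ys_mat_far _ _).1 h3).1 ▸ w.2)

end Pool.Agent.KSlab
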