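import Pool.Agent.KFlat.Real
import Pool.Agent.KSlab.YWord
import Pool.Agent.KCls.Strict

/-! FB16: every type is realised in every slab with at least two layers. -/

set_option autoImplicit false

open Pool.Agent.LK

namespace Pool.Agent.KSlab

open Pool.Agent.KTube Pool.Agent.KRing Pool.Agent.KLog Pool.Agent.KCls
open Pool.Agent.KTop (TypeN)
open Pool.Agent.KComp (Kn)

theorem real_all {K R : Finset (Sym2 P3)} {N M : ℕ} (hM : 1 ≤ M) (hF : KTen.Few N K)
    (hR : KTen.Tower N R) (hKR : SameType K R) : ∃ w ∈ WT (SameType K) N, RealW M w := by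
  obtain ⟨w, hw⟩ := exists_wt hF hR hKR
  obtain ⟨w', hw', h⟩ := KFlat.flat_real hF hw
  exact ⟨w', hw', h M hM⟩

/-- A word that is free for the class of all polygons and not for the class of the unknot is a far knotted block. -/
theorem knF_of_free {π : PP} (h1 : FreeT (fun _ => True) π) (h2 : ¬ FreeT Unknotted π) :
    KnF π := by
  obtain ⟨v, hv, hg, -⟩ := h1
  exact ⟨v, hv, hg, fun hu => h2 ⟨v, hv, hg, hu⟩⟩

theorem real_knot {K : Finset (Sym2 P3)} {M : ℕ} (hM : 1 ≤ M) (hK : IsPolygon K)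
    (nK : ¬ Unknotted K) : ∃ w : List PP, w ≠ [] ∧ RealW M w := by
  obtain ⟨π, h1, h2⟩ := exists_free cls_unknotted cls_all (fun _ _ _ => trivial)
    ⟨K, hK, trivial, nK⟩
  obtain ⟨ρ, h3, h4⟩ := KFlat.flat_knot (knF_of_free h1 h2)
  refine ⟨[ρ], by simp, ?_⟩
  intro σ hσ
  rw [List.mem_singleton] at hσ
  subst hσ
  exact ⟨h3, h4 M hM⟩

end Pool.Agent.KSlab
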